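import Pool.Agent.KTW.StZ
import Pool.Agent.KSV.All

/-!
# KTW: FTH, a morphism determines the value at a linked place (helper82)
-/

set_option autoImplicit false
set_option linter.unusedSectionVars false

namespace Pool.Agent.KTW

open Module Matrix NumberField Pool.Agent.Helper7 Pool.Agent.KS Pool.Agent.Ball Pool.Agent.KSE
  Pool.Agent.Helper28.GPC Pool.Agent.KSR Pool.Agent.KSV

section

variable {I : Type} [Fintype I] [DecidableEq I] {n : I → ℕ} {κ : I → Type}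
    [∀ i, Fintype (κ i)] [∀ i, DecidableEq (κ i)] {ϖ : ℂ} {P : ∀ i, PData (κ i) ϖ}
    {K : I → Type} [∀ i, Field (K i)] [∀ i, NumberField (K i)] {c : ∀ i, K i →+* K i} {m : I → ℕ}
    {h : ∀ i, Matrix (Fin (m i)) (Fin (m i)) (K i)}
    {t : ∀ i, Fin (m i) → K i → Module.End ℂ (κ i → ℂ)} {k : ℕ}
    {γ : MultilinearMap ℂ (fun _ : Fin (2 * k) => HW κ n) ℂ} {σ₀ : ∀ i, K i →+* ℂ}

/-- `X` is a symmetry whose matrices are `M`, zero off the places `σ₀` -/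
def Fth_rel (n : I → ℕ) (P : ∀ i, PData (κ i) ϖ) (h : ∀ i, Matrix (Fin (m i)) (Fin (m i)) (K i))
    (t : ∀ i, Fin (m i) → K i → Module.End ℂ (κ i → ℂ))
    (γ : MultilinearMap ℂ (fun _ : Fin (2 * k) => HW κ n) ℂ) (σ₀ : ∀ i, K i →+* ℂ)
    (M : ∀ p : PL K, Matrix (Fin (m p.1)) (Fin (m p.1)) ℂ) (X : GG κ) : Prop :=
  (∀ p : PL K, SkP (h p.1) p.2 (M p)) ∧ (∀ p : PL K, p.2 ≠ σ₀ p.1 → M p = 0) ∧
    IsInv n P γ X ∧ X.2 = 0 ∧ ∀ i, ActM (t i) (X.1 i) (fun σ => M ⟨i, σ⟩)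

lemma Fth_add {M M' : ∀ p : PL K, Matrix (Fin (m p.1)) (Fin (m p.1)) ℂ} {X X' : GG κ}
    (h1 : Fth_rel n P h t γ σ₀ M X) (h2 : Fth_rel n P h t γ σ₀ M' X') :
    Fth_rel n P h t γ σ₀ (M + M') (X + X') := by
  obtain ⟨a1, a2, a3, a4, a5⟩ := h1
  obtain ⟨b1, b2, b3, b4, b5⟩ := h2
  refine ⟨fun p => (a1 p).add (b1 p), fun p hp => ?_, a3.add _ _ _ b3, ?_,
    fun i => (a5 i).add (b5 i)⟩
  · rw [Pi.add_apply, a2 p hp, b2 p hp, add_zero]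
  · change X.2 + X'.2 = 0
    rw [a4, b4, add_zero]

lemma Fth_zero : Fth_rel n P h t γ σ₀ 0 0 :=
  ⟨fun _ => SkP.zero, fun _ _ => rfl, IsInv.zero _ _ _, rfl, fun _ => ActM.zero⟩

lemma Fth_smul {M : ∀ p : PL K, Matrix (Fin (m p.1)) (Fin (m p.1)) ℂ} {X : GG κ}
    (h1 : Fth_rel n P h t γ σ₀ M X) (r : ℂ) : Fth_rel n P h t γ σ₀ (r • M) (r • X) := by
  obtain ⟨a1, a2, a3, a4, a5⟩ := h1
  refine ⟨fun p => (a1 p).smul r, fun p hp => ?_, a3.smul _ _ _ r, ?_, fun i => (a5 i).smul r⟩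
  · rw [Pi.smul_apply, a2 p hp, smul_zero]
  · change r * X.2 = 0
    rw [a4, mul_zero]

lemma Fth_bracket {M M' : ∀ p : PL K, Matrix (Fin (m p.1)) (Fin (m p.1)) ℂ} {X X' : GG κ}
    (h1 : Fth_rel n P h t γ σ₀ M X) (h2 : Fth_rel n P h t γ σ₀ M' X') :
    Fth_rel n P h t γ σ₀ (M * M' - M' * M) (X * X' - X' * X) := by
  obtain ⟨a1, a2, a3, a4, a5⟩ := h1
  obtain ⟨b1, b2, b3, b4, b5⟩ := h2
  refine ⟨fun p => (a1 p).bracket (b1 p), fun p hp => ?_, a3.bracket _ _ _ b3, ?_,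
    fun i => (a5 i).bracket (b5 i)⟩
  · rw [Pi.sub_apply, Pi.mul_apply, Pi.mul_apply, a2 p hp, b2 p hp, mul_zero, sub_zero]
  · change X.2 * X'.2 - X'.2 * X.2 = 0
    rw [a4, b4]
    ring

/-- the component of a symmetry is determined by the matrix at `σ₀` -/
lemma Fth_eq (H : Fam n P h t γ σ₀ c) {M : ∀ p : PL K, Matrix (Fin (m p.1)) (Fin (m p.1)) ℂ}
    {X : GG κ} (h1 : Fth_rel n P h t γ σ₀ M X) (l : I) {Z : Module.End ℂ (κ l → ℂ)}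
    {N : (K l →+* ℂ) → Matrix (Fin (m l)) (Fin (m l)) ℂ} (hZ : Z ∈ bvS (t l))
    (hZN : ActM (t l) Z N) (hN : ∀ σ, σ ≠ σ₀ l → N σ = 0) (hM : M ⟨l, σ₀ l⟩ = N (σ₀ l)) :
    X.1 l = Z := by
  classical
  obtain ⟨a1, a2, a3, a4, a5⟩ := h1
  have e : (fun σ => M ⟨l, σ⟩) = N := by
    funext σ
    by_cases hσ : σ = σ₀ l
    · rw [hσ]
      exact hM
    · rw [hN σ hσ]
      exact a2 ⟨l, σ⟩ hσ
  have h2 := a5 l
  have h3 := mem_bvE n P l (H.S l) γ X a3 a4 _ h2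
  rw [e] at h2
  exact eq_of_act (H.S l).conj (H.S l).herm (H.S l).nd (H.S l).cliff h3 hZ h2 hZN

end

/-- [FTH] a morphism determines the value at a linked place -/
theorem thm_Fth : St_Fth := by
  intro I _ _ n κ _ _ ϖ P K _ _ c m h t k γ σ₀ H Z N hZ hZN hNs hN0 hZi i j f hf hf0 hfZ M hM hMi
  classical
  have hm3 : ∀ i, 3 ≤ m i := fun i => by have := H.m3 i; omega
  have hcore : ∀ l, ∀ Z, SkP (h l) (σ₀ l) Z →
      ∃ (M : ∀ p : PL K, Matrix (Fin (m p.1)) (Fin (m p.1)) ℂ) (X : GG κ),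
        Fth_rel n P h t γ σ₀ M X ∧ M ⟨l, σ₀ l⟩ = Z := by
    intro l Z hZ
    obtain ⟨M, hM, hM1, hM2⟩ := coreB n H.pi P H.S γ H.B H.A H.nd H.real σ₀ H.sig H.defi H.T H.Tg
      Hall5_ l (H.ne l) (hm3 l) (H.m5 l) Z hZ
    obtain ⟨h1, X, hX, hX2, hXM⟩ := mem_RRE.1 hM
    exact ⟨M, X, ⟨h1, hM2, hX, hX2, hXM⟩, hM1⟩
  obtain ⟨hM1, hM2⟩ := hM
  obtain ⟨h1, X, hX, hX2, hXM⟩ := mem_RRE.1 hM1
  have hR : Fth_rel n P h t γ σ₀ M X := ⟨h1, hM2, hX, hX2, hXM⟩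
  have hXi : X.1 i = Z i := Fth_eq H hR i (hZ i) (hZN i) (hN0 i) hMi
  by_contra hcon
  have hσj := H.real j (σ₀ j)
  have hsj := CoreR.GR_tr (H.S j).conj (H.S j).herm hσj
  let 𝔞 : Submodule ℂ (Module.End ℂ (Fin (m j) → ℂ)) :=
    { carrier := {B | ∃ (M : ∀ p : PL K, Matrix (Fin (m p.1)) (Fin (m p.1)) ℂ) (X : GG κ),
        Fth_rel n P h t γ σ₀ M X ∧ (∀ v, X.1 j (f v) = 0) ∧
          Matrix.toLin' (M ⟨j, σ₀ j⟩) = B}
      add_mem' := by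
        rintro _ _ ⟨M, X, h1, h2, rfl⟩ ⟨M', X', h1', h2', rfl⟩
        refine ⟨M + M', X + X', Fth_add h1 h1', fun v => ?_, by rw [Pi.add_apply, map_add]⟩
        change X.1 j (f v) + X'.1 j (f v) = 0
        rw [h2, h2', add_zero]
      zero_mem' := ⟨0, 0, Fth_zero, fun v => rfl, by rw [Pi.zero_apply, map_zero]⟩
      smul_mem' := by
        rintro r _ ⟨M, X, h1, h2, rfl⟩
        refine ⟨r • M, r • X, Fth_smul h1 r, fun v => ?_, by rw [Pi.smul_apply, map_smul]⟩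
        change r • X.1 j (f v) = 0
        rw [h2, smul_zero] }
  have htop : ∀ A ∈ 𝔞, A ≠ 0 → ∀ B, KSP.Skw (bil (CoreR.GR (h j) (σ₀ j))) B → B ∈ 𝔞 := by
    intro A hA hA0 B hB
    refine KSP.ideal_top (H.m3 j) (bil (CoreR.GR (h j) (σ₀ j))) (bil_symm hsj)
      (bil_nd hσj (H.S j).nd) 𝔞 ?_ ?_ A hA hA0 B hB
    · rintro _ ⟨M, X, h1, -, rfl⟩
      exact skw_of_skP hσj (h1.1 ⟨j, σ₀ j⟩)
    · rintro _ ⟨M, X, h1, h2, rfl⟩ C hC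
      obtain ⟨M', X', h1', hM'⟩ := hcore j _ (skP_of_skw hσj hC)
      refine ⟨M' * M - M * M', X' * X - X * X', Fth_bracket h1' h1, fun v => ?_, ?_⟩
      · change X'.1 j (X.1 j (f v)) - X.1 j (X'.1 j (f v)) = 0
        rw [h2, h1'.2.2.1.comm i j f hf, h2, map_zero, sub_zero]
      · have e : C = Matrix.toLin' (M' ⟨j, σ₀ j⟩) := by
          rw [hM', Matrix.toLin'_toMatrix']
        rw [Pi.sub_apply, Pi.mul_apply, Pi.mul_apply, map_sub, Matrix.toLin'_mul,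
          Matrix.toLin'_mul, e]
        rfl
  obtain ⟨M₁, X₁, h1', hM₁⟩ := hcore j _ (hNs j (σ₀ j))
  have hX₁ : X₁.1 j = Z j := Fth_eq H h1' j (hZ j) (hZN j) (hN0 j) hM₁
  have hdiff : Matrix.toLin' ((M + (-1 : ℂ) • M₁) ⟨j, σ₀ j⟩) ∈ 𝔞 := by
    refine ⟨M + (-1 : ℂ) • M₁, X + (-1 : ℂ) • X₁, Fth_add hR (Fth_smul h1' _), fun v => ?_, rfl⟩
    change X.1 j (f v) + (-1 : ℂ) • X₁.1 j (f v) = 0
    rw [hX.comm i j f hf, hXi, hX₁, hfZ, neg_one_smul, add_neg_cancel]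
  have hdiff0 : Matrix.toLin' ((M + (-1 : ℂ) • M₁) ⟨j, σ₀ j⟩) ≠ 0 := by
    intro h0
    apply hcon
    have h2 : (M + (-1 : ℂ) • M₁) ⟨j, σ₀ j⟩ = 0 := (LinearEquiv.map_eq_zero_iff _).1 h0
    rw [Pi.add_apply, Pi.smul_apply, hM₁, neg_one_smul, ← sub_eq_add_neg, sub_eq_zero] at h2
    exact h2
  obtain ⟨M₂, X₂, h3, h4, h5⟩ := htop _ hdiff hdiff0 (Matrix.toLin' (N j (σ₀ j)))
    (skw_of_skP hσj (hNs j (σ₀ j)))
  have hX₂ : X₂.1 j = Z j := Fth_eq H h3 j (hZ j) (hZN j) (hN0 j) (Matrix.toLin'.injective h5)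
  apply hf0
  apply LinearMap.ext
  intro v
  apply hZi j
  rw [← hX₂]
  exact h4 v

end Pool.Agent.KTW
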