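import Pool.Agent.KTW.StZ
import Pool.Agent.KSV.All

/-!
# KTW [Klz]: the Hodge projectors kill the Grothendieck forms
-/

set_option autoImplicit false

namespace Pool.Agent.KTW

open Module Matrix NumberField Pool.Agent.Helper7 Pool.Agent.KS Pool.Agent.Ball Pool.Agent.KSE
  Pool.Agent.Helper28.GPC Pool.Agent.KSR Pool.Agent.KSV Pool.Agent.K3P Pool.Agent.KTP
open Pool.Agent.GPC (AbVar)

/-- sums of operators which kill a form -/
lemma Klz_sum {I : Type} [Fintype I] [DecidableEq I] {κ : I → Type} [∀ i, Fintype (κ i)]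
    [∀ i, DecidableEq (κ i)] (n : I → ℕ) {q : ℕ}
    (α : MultilinearMap ℂ (fun _ : Fin q => HW κ n) ℂ) (Z : ∀ i, Module.End ℂ (κ i → ℂ))
    (h : ∀ i, actForm (lift n (Pi.single i (Z i))) α = 0) : actForm (lift n Z) α = 0 := by
  have h1 : ∀ s : Finset I, actForm (lift n (∑ i ∈ s, Pi.single i (Z i))) α = 0 := by
    intro s
    induction s using Finset.cons_induction with
    | empty => rw [Finset.sum_empty, lift_zero, actForm_zero]
    | cons a s ha ih => rw [Finset.sum_cons, lift_add, actForm_add, h a, ih, add_zero]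
  have h2 : Z = ∑ i, Pi.single i (Z i) := (Finset.univ_sum_single Z).symm
  rw [h2]
  exact h1 Finset.univ

lemma Klz_ring {V : Type} [AddCommGroup V] [Module ℂ V] (E E' Y : Module.End ℂ V) (r : ℂ)
    (a1 : E * Y + Y * E = 0) (a2 : E' * Y + Y * E' = 0) :
    ((1 / 2 : ℂ) • 1 - ((1 / 2 : ℂ) • 1 - r • (E * E' - E' * E))) * Y -
      Y * ((1 / 2 : ℂ) • 1 - ((1 / 2 : ℂ) • 1 - r • (E * E' - E' * E))) = 0 := by
  have b1 : E * Y = -(Y * E) := eq_neg_of_add_eq_zero_left a1
  have b2 : E' * Y = -(Y * E') := eq_neg_of_add_eq_zero_left a2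
  have c1 : E * E' * Y = Y * (E * E') := by
    rw [mul_assoc, b2, mul_neg, ← mul_assoc, b1, neg_mul, neg_neg, mul_assoc]
  have c2 : E' * E * Y = Y * (E' * E) := by
    rw [mul_assoc, b1, mul_neg, ← mul_assoc, b2, neg_mul, neg_neg, mul_assoc]
  rw [sub_sub_cancel, smul_mul_assoc, mul_smul_comm, sub_mul, mul_sub, c1, c2, sub_self]

/-- the Hodge projector commutes with the Clifford operators of the other places -/
lemma Klz_supp {A : AbVar} {K : Type} [Field K] [NumberField K] {c : K →+* K} {m : ℕ}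
    (S : A.KugaSatakeMul K c m) (hg : A.g ≠ 0) (hc : c = RingHom.id K) (σ₀ : K →+* ℂ)
    (x : Fin m → ℂ) (hx : pr S.h σ₀ x (star x) ≠ 0) (hnd : S.h.det ≠ 0)
    (h1 : ∀ v, A.IsFil (∑ a, x a • S.e σ₀ a v))
    (h2 : ∀ v, A.IsFil v → ∑ a, x a • S.e σ₀ a v = 0)
    (N : (K →+* ℂ) → Matrix (Fin m) (Fin m) ℂ)
    (hN : ActM (lt A S) ((1 / 2 : ℂ) • 1 - hod A) N) (σ : K →+* ℂ) (hσ : σ ≠ σ₀) : N σ = 0 := by
  have hκ : Nonempty (Fin A.g ⊕ Fin A.g) := ⟨Sum.inl ⟨0, Nat.pos_of_ne_zero hg⟩⟩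
  have hreal : ∀ σ : K →+* ℂ, cj σ = σ := by
    intro σ
    ext y
    rw [S.conjugation, hc]
    rfl
  have MM := mde A S hnd
  have h3 := hod_eq A S hnd σ₀ x hx h1 h2
  rw [hreal] at h3
  rw [h3] at hN
  have key : ∀ y, tau (ts (lt A S) σ) (N σ *ᵥ y) = 0 := by
    intro y
    have e1 := hN σ y
    rw [← e1]
    have a1 := tau_anti MM.conj MM.cliff (σ := σ₀) (τ := σ) (by rw [hreal]; exact hσ) x y
    have a2 := tau_anti MM.conj MM.cliff (σ := σ₀) (τ := σ) (by rw [hreal]; exact hσ) (star x) y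
    exact Klz_ring _ _ _ _ a1 a2
  have hinj := tau_injE MM.conj MM.cliff hnd σ
  have h4 : ∀ y, N σ *ᵥ y = 0 := fun y => hinj (by rw [key y, map_zero])
  apply Matrix.toLin'.injective
  apply LinearMap.ext
  intro y
  rw [Matrix.toLin'_apply, h4, map_zero, LinearMap.zero_apply]

theorem thm_Klz (hDgm : St_Dgm) (hKil : St_Kil) : St_Klz := by
  intro I _ _ A K _ _ c m S hg hAdm hI n k α hB hA
  have hϖ := Complex.two_pi_I_ne_zero
  have hκ : ∀ i, Nonempty (Fin (A i).g ⊕ Fin (A i).g) := fun i =>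
    ⟨Sum.inl ⟨0, Nat.pos_of_ne_zero (hg i)⟩⟩
  choose σ₀ x hx hx1 hx2 using fun i => (S i).hodge
  have hnd := fun i => k3_nd (S i).conjugation (S i).hermitian (hx i)
  have MM := fun i => mde (A i) (S i) (hnd i)
  have hZ : ∀ i, (1 / 2 : ℂ) • 1 - hod (A i) ∈ bvS (lt (A i) (S i)) := by
    intro i
    rw [hod_eq (A i) (S i) (hnd i) (σ₀ i) (x i) (k3_ne (hx i)) (hx1 i) (hx2 i)]
    rw [sub_sub_cancel]
    exact Submodule.smul_mem _ _ (tau_mem_bvS _ _ _ _)
  rcases hI with hI | hI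
  · refine Klz_sum n α _ fun i => ?_
    exact hKil A S hg hAdm (Or.inl hI) (fun i j hij => absurd (Subsingleton.elim i j) hij) n k α
      hB hA i _ (hZ i)
  rcases Nat.eq_zero_or_pos k with rfl | hk
  · apply MultilinearMap.ext
    intro v
    rw [actForm_apply]
    exact Finset.sum_eq_zero fun r _ => Fin.elim0 r
  have hc : ∀ i, c i = RingHom.id (K i) := fun i => (hI i).1
  have hreal : ∀ i (σ : K i →+* ℂ), cj σ = σ := by
    intro i σ
    ext y
    rw [(S i).conjugation, hc i]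
    rfl
  have hxx : ∀ i, pr (S i).h (σ₀ i) (x i) (x i) = 0 := by
    intro i
    have h1 := tau_pair (MM i).conj (MM i).cliff (σ₀ i) (x i) (x i)
    rw [hreal i (σ₀ i)] at h1
    have h3 : tau (ts (lt (A i) (S i)) (σ₀ i)) (x i) * tau (ts (lt (A i) (S i)) (σ₀ i)) (x i) = 0 := by
      apply LinearMap.ext
      intro v
      have hev : ∀ v, tau (ts (lt (A i) (S i)) (σ₀ i)) (x i) v =
          ∑ a, x i a • (S i).e (σ₀ i) a v := by
        intro v
        rw [tau_apply, LinearMap.sum_apply]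
        refine Finset.sum_congr rfl fun a _ => ?_
        rw [LinearMap.smul_apply, ts_lt]
        rfl
      show tau (ts (lt (A i) (S i)) (σ₀ i)) (x i) (tau (ts (lt (A i) (S i)) (σ₀ i)) (x i) v) = 0
      rw [hev (tau (ts (lt (A i) (S i)) (σ₀ i)) (x i) v)]
      apply hx2
      rw [hev]
      exact hx1 i v
    rw [h3, add_zero] at h1
    rcases smul_eq_zero.mp h1.symm with h4 | h4
    · simpa using h4
    · exact absurd h4 one_ne_zero
  have h35 : ∀ i, 3 ≤ m i ∧ Ok (pData (A i)) (K i) (m i) := by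
    intro i
    rcases hAdm i with ⟨-, hm, h5⟩ | ⟨hc', -⟩
    · refine ⟨hm, ?_⟩
      rcases h5 with h1 | ⟨h1, B, hB, f, hf, hf0⟩
      · exact Or.inl h1
      · exact Or.inr ⟨h1, Pool.Agent.KSV.thm_Surf Pool.Agent.KT.thm_KT B (A i) hB f hf hf0⟩
    · exact absurd (hc i) hc'
  obtain ⟨n', k', γ, hγB, hγA, hγ1, hγ2⟩ := exists_gam_allE (fun i => pData (A i)) MM n hk α hB hA
  choose N hN hNs using fun i => exists_act_of_mem (MM i).conj (MM i).herm (MM i).nd (MM i).cliff
    _ (hZ i)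
  obtain ⟨X, hX, hX2, hX1⟩ := hDgm I n' (fun i => Fin (A i).g ⊕ Fin (A i).g) _
    (fun i => pData (A i)) K c m (fun i => (S i).h) (fun i => lt (A i) (S i)) k' γ σ₀
    { pi := hϖ
      S := MM
      B := hγB
      A := hγA
      nd := fun i => hnd_pData (A i)
      real := hreal
      sig := fun i => k3_sig2 (S i).conjugation (S i).hermitian (hx i) (hreal i (σ₀ i)) (hxx i)
      defi := fun i σ hσ => k3_def (S i).conjugation (S i).hermitian (hx i) σ hσ (by
        rw [hreal i (σ₀ i)]; exact hσ)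
      T := fun X hX => (hγ1 X hX).2
      Tg := fun g hg => (hγ2 g hg).2
      ne := hκ
      m3 := fun i => by
        have h1 := (h35 i).1
        have h2 := (hI i).2
        omega
      m5 := fun i => (h35 i).2 }
    (fun i => (1 / 2 : ℂ) • 1 - hod (A i)) N hZ hN
    (fun i σ => by
      have h1 := hNs i σ
      rw [hreal i σ] at h1
      exact h1)
    (fun i σ hσ => Klz_supp (S i) (hg i) (hc i) (σ₀ i) (x i) (k3_ne (hx i)) (hnd i) (hx1 i)
      (hx2 i) (N i) (hN i) σ hσ)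
    (by
      intro i u hu
      have h1 : (1 / 2 : ℂ) • u - hod (A i) u = 0 := hu
      have h2 : hod (A i) u = (1 / 2 : ℂ) • u := (sub_eq_zero.mp h1).symm
      have h3 := hod_idem (A i) u
      rw [h2, map_smul, h2, smul_smul] at h3
      have h4 : ((1 / 2 : ℂ) * (1 / 2) - 1 / 2) • u = 0 := by
        rw [sub_smul, h3, sub_self]
      rcases smul_eq_zero.mp h4 with h5 | h5
      · norm_num at h5
      · exact h5)
    (by
      intro i j f hf v
      show (1 / 2 : ℂ) • f v - hod (A j) (f v) = f ((1 / 2 : ℂ) • v - hod (A i) v)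
      rw [map_sub, map_smul, hod_comm f hf])
  have h3 := ((hγ1 X hX).1).form
  rw [hX2, mul_zero, zero_smul, hX1] at h3
  exact h3

end Pool.Agent.KTW
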