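import Pool.Agent.KTW.StW

/-!
# KTW: SPC, spectators (helper82)

`q` is the bilinear form of `H`. For a finset `s` of `J` the second components of the elements `X` of `W`
with `π j X.1 = 0` for all `j ∈ s` form an ideal of the skew operators. It is not zero for `s = {j}` (dimension
count, or the bracket of two elements whose second components do not commute), so it is everything
by `KSP.ideal_top`. Induction on `s` as in `KSP.goursat`.
-/

set_option autoImplicit false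

namespace Pool.Agent.KTW

open Module Matrix

lemma Spc_skw {m : ℕ} (H Z : Matrix (Fin m) (Fin m) ℂ) :
    KSP.Skw (Matrix.toBilin' H) (Matrix.toLin' Z) ↔ Zᵀ * H + H * Z = 0 := by
  have e : ∀ x y, Matrix.toBilin' H (Matrix.toLin' Z x) y + Matrix.toBilin' H x
      (Matrix.toLin' Z y) = x ⬝ᵥ (Zᵀ * H + H * Z) *ᵥ y := by
    intro x y
    rw [Matrix.toBilin'_apply', Matrix.toBilin'_apply', Matrix.toLin'_apply, Matrix.toLin'_apply,
      Matrix.add_mulVec, dotProduct_add, Matrix.mulVec_mulVec]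
    congr 1
    rw [← Matrix.mulVec_mulVec, Matrix.mulVec_transpose, dotProduct_comm x,
      ← Matrix.dotProduct_mulVec, dotProduct_comm]
  constructor
  · intro h
    ext a b
    have h1 := h (Pi.single a 1) (Pi.single b 1)
    rw [e, single_dotProduct, one_mul, Matrix.mulVec_single_one] at h1
    exact h1
  · intro h x y
    rw [e, h, Matrix.zero_mulVec, dotProduct_zero]

lemma Spc_symm {m : ℕ} {H : Matrix (Fin m) (Fin m) ℂ} (hH : Hᵀ = H) (x y : Fin m → ℂ) :
    Matrix.toBilin' H x y = Matrix.toBilin' H y x := by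
  rw [Matrix.toBilin'_apply', Matrix.toBilin'_apply', dotProduct_comm y, Matrix.dotProduct_mulVec,
    ← Matrix.mulVec_transpose, hH, dotProduct_comm, dotProduct_comm]

lemma Spc_nd {m : ℕ} {H : Matrix (Fin m) (Fin m) ℂ} (hd : IsUnit H.det) :
    (Matrix.toBilin' H).Nondegenerate :=
  Matrix.Nondegenerate.toBilin' (Matrix.nondegenerate_of_det_ne_zero hd.ne_zero)

section

variable {m : ℕ} {𝓐 : Type} [Ring 𝓐] [Algebra ℂ 𝓐] {J : Type} {κ : J → Type}
    [∀ j, Fintype (κ j)] (π : ∀ j, 𝓐 →ₐ[ℂ] Module.End ℂ (κ j → ℂ))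
    (W : Submodule ℂ (𝓐 × Matrix (Fin m) (Fin m) ℂ))

/-- the second components of the elements which act as zero on the spectators in `s` -/
def Spc_a (s : Finset J) : Submodule ℂ (Module.End ℂ (Fin m → ℂ)) where
  carrier := {B | ∃ X ∈ W, (∀ j ∈ s, π j X.1 = 0) ∧ Matrix.toLin' X.2 = B}
  add_mem' := by
    rintro A B ⟨X, hX, hX0, rfl⟩ ⟨Y, hY, hY0, rfl⟩
    exact ⟨X + Y, W.add_mem hX hY, fun j hj => by
      rw [Prod.fst_add, map_add, hX0 j hj, hY0 j hj, add_zero], by rw [Prod.snd_add, map_add]⟩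
  zero_mem' := ⟨0, W.zero_mem, fun _ _ => by rw [Prod.fst_zero, map_zero],
    by rw [Prod.snd_zero, map_zero]⟩
  smul_mem' := by
    rintro c A ⟨X, hX, hX0, rfl⟩
    exact ⟨c • X, W.smul_mem c hX, fun j hj => by
      rw [Prod.smul_fst, map_smul, hX0 j hj, smul_zero], by rw [Prod.smul_snd, map_smul]⟩

end

/-- [SPC] spectators -/
theorem thm_Spc (hSpd : St_Spd) : St_Spc := by
  classical
  intro m H hH hd hm3 hm4 𝓐 _ _ J _ κ _ _ ψ hnd halt π W hbr hsk hsur hW hor
  have hs : ∀ x y, Matrix.toBilin' H x y = Matrix.toBilin' H y x := Spc_symm hH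
  have hn : (Matrix.toBilin' H).Nondegenerate := Spc_nd hd
  have hlift : ∀ B, KSP.Skw (Matrix.toBilin' H) B → ∃ X ∈ W, Matrix.toLin' X.2 = B := by
    intro B hB
    have h1 : KSP.Skw (Matrix.toBilin' H) (Matrix.toLin' (LinearMap.toMatrix' B)) := by
      rw [Matrix.toLin'_toMatrix']
      exact hB
    obtain ⟨X, hX, hX2⟩ := hsur _ ((Spc_skw H _).1 h1)
    exact ⟨X, hX, by rw [hX2, Matrix.toLin'_toMatrix']⟩
  have hbr2 : ∀ X Y : 𝓐 × Matrix (Fin m) (Fin m) ℂ, Matrix.toLin' (X * Y - Y * X).2 =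
      Matrix.toLin' X.2 * Matrix.toLin' Y.2 - Matrix.toLin' Y.2 * Matrix.toLin' X.2 := by
    intro X Y
    rw [Prod.snd_sub, Prod.snd_mul, Prod.snd_mul, map_sub, Matrix.toLin'_mul, Matrix.toLin'_mul]
    rfl
  have hbr1 : ∀ (j : J) (X Y : 𝓐 × Matrix (Fin m) (Fin m) ℂ), π j (X * Y - Y * X).1 =
      π j X.1 * π j Y.1 - π j Y.1 * π j X.1 := by
    intro j X Y
    rw [Prod.fst_sub, Prod.fst_mul, Prod.fst_mul, map_sub, map_mul, map_mul]
  have top : ∀ s : Finset J, (∃ B ∈ Spc_a π W s, B ≠ 0) →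
      ∀ M, KSP.Skw (Matrix.toBilin' H) M → M ∈ Spc_a π W s := by
    rintro s ⟨B, hB, hB0⟩ M hM
    refine KSP.ideal_top (by omega) (Matrix.toBilin' H) hs hn (Spc_a π W s) ?_ ?_ B hB hB0 M hM
    · rintro A ⟨X, hX, -, rfl⟩
      exact (Spc_skw H _).2 (hsk X hX)
    · rintro A ⟨X, hX, hX0, rfl⟩ N hN
      obtain ⟨Y, hY, rfl⟩ := hlift N hN
      refine ⟨Y * X - X * Y, hbr Y hY X hX, fun j hj => ?_, hbr2 Y X⟩
      rw [hbr1, hX0 j hj, mul_zero, zero_mul, sub_zero]
  obtain ⟨B, C, hB, hC, hBC⟩ := KSP.Goursat.exists_noncomm hm3 (Matrix.toBilin' H) hs hn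
  have hone : ∀ j : J, ∃ D ∈ Spc_a π W {j}, D ≠ 0 := by
    intro j
    rcases hor j with h | h
    · obtain ⟨X, hX, hX1, hX2⟩ := hSpd m H hH hd (κ j) (ψ j) (hnd j) (halt j) h
        (W.map ((π j).toLinearMap.prodMap LinearMap.id)) (by
          rintro X hX u v
          obtain ⟨Y, hY, rfl⟩ := Submodule.mem_map.1 hX
          exact hW Y hY j u v) (by
          intro Z hZ
          obtain ⟨X, hX, hX2⟩ := hsur Z hZ
          exact ⟨_, Submodule.mem_map_of_mem hX, hX2⟩)
      obtain ⟨Y, hY, rfl⟩ := Submodule.mem_map.1 hX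
      refine ⟨Matrix.toLin' Y.2, ⟨Y, hY, fun i hi => ?_, rfl⟩, fun h0 => hX2 ?_⟩
      · rw [Finset.mem_singleton] at hi
        subst hi
        exact hX1
      · exact (LinearEquiv.map_eq_zero_iff _).1 h0
    · obtain ⟨X, hX, rfl⟩ := hlift B hB
      obtain ⟨Y, hY, rfl⟩ := hlift C hC
      refine ⟨_, ⟨X * Y - Y * X, hbr X hX Y hY, fun i hi => ?_, rfl⟩, ?_⟩
      · rw [Finset.mem_singleton] at hi
        subst hi
        rw [hbr1, h X hX Y hY, sub_self]
      · rw [hbr2]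
        exact hBC
  have key : ∀ s : Finset J, ∀ M, KSP.Skw (Matrix.toBilin' H) M → M ∈ Spc_a π W s := by
    intro s
    induction s using Finset.induction_on with
    | empty =>
      intro M hM
      obtain ⟨X, hX, rfl⟩ := hlift M hM
      exact ⟨X, hX, fun j hj => absurd hj (Finset.notMem_empty j), rfl⟩
    | insert j s hj ih =>
      apply top
      obtain ⟨X, hX, hX0, rfl⟩ := ih B hB
      obtain ⟨Y, hY, hY0, rfl⟩ := top {j} (hone j) C hC
      refine ⟨_, ⟨X * Y - Y * X, hbr X hX Y hY, fun k hk => ?_, hbr2 X Y⟩, hBC⟩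
      rw [hbr1]
      rcases Finset.mem_insert.1 hk with rfl | hk
      · rw [hY0 k (Finset.mem_singleton_self k), mul_zero, zero_mul, sub_zero]
      · rw [hX0 k hk, mul_zero, zero_mul, sub_zero]
  intro Z hZ
  obtain ⟨X, hX, hX0, hX2⟩ := key Finset.univ (Matrix.toLin' Z) ((Spc_skw H Z).2 hZ)
  exact ⟨X, hX, Matrix.toLin'.injective hX2, fun j => hX0 j (Finset.mem_univ j)⟩

end Pool.Agent.KTW
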