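import Pool.Agent.KTW.StZ

/-!
# KTW: products of K3 surfaces and abelian varieties, no condition on morphisms. Frozen statements,
part three

The Grothendieck classes on `X × C` are the sums of products of Grothendieck classes on `X` and on `C`,
without the hypothesis `Hom(A_i, A_j) = 0`. Every module `Pool/Agent/KTW/<X>.lean` proves
`theorem thm_<X> : St_<X>` (with the hypotheses named in the docstring). The docstrings contain the
proofs.
-/

set_option autoImplicit false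

namespace Pool.Agent.KTW

open Module Matrix NumberField Pool.Agent.Helper7 Pool.Agent.KS Pool.Agent.Ball Pool.Agent.KSE
  Pool.Agent.Helper28.GPC Pool.Agent.K3P Pool.Agent.KTP
open Pool.Agent.GPC (AbVar TC IsRatT qf df HU IsGrU Form IsBetti IsDeRham IsGrothendieck H1)

section defs

variable {I J : Type} [Fintype I] [DecidableEq I] [Fintype J] [DecidableEq J] (e : I → J)
  (n : J → ℕ) {κ : J → Type} [∀ j, Fintype (κ j)] [∀ j, DecidableEq (κ j)] {ϖ : ℂ}
  (P : ∀ j, PData (κ j) ϖ) {K : I → Type} [∀ i, Field (K i)] [∀ i, NumberField (K i)] {m : I → ℕ}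
  (h : ∀ i, Matrix (Fin (m i)) (Fin (m i)) (K i))
  (t : ∀ i, Fin (m i) → K i → Module.End ℂ (κ (e i) → ℂ)) {k : ℕ}
  (γ : MultilinearMap ℂ (fun _ : Fin (2 * k) => HW κ n) ℂ) (σ₀ : ∀ i, K i →+* ℂ)

/-- a family of Kuga-Satake structures of real type on the `A_(e i)`, a Grothendieck form `γ` which
controls the action on the Clifford modules, and the condition on the other abelian varieties -/
structure FamE (c : ∀ i, K i →+* K i) : Prop where
  pi : ϖ ≠ 0
  S : ∀ i, MD (P (e i)) (c i) (h i) (t i)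
  B : ∀ v : Fin (2 * k) → HW κ n, (∀ r, IsRatP n P (v r)) → ∃ q : ℚ, γ v = ϖ ^ k * q
  A : ∀ v : Fin (2 * k) → HW κ n, (∀ r i m j, IsAlgebraic ℚ (v r i m j)) → IsAlgebraic ℚ (γ v)
  nd : ∀ i, HNd (P (e i))
  real : ∀ i (σ : K i →+* ℂ), cj σ = σ
  sig : ∀ i, Sig2 (CoreR.GR (h i) (σ₀ i)) ∨ Sig2 (-(CoreR.GR (h i) (σ₀ i)))
  defi : ∀ i (σ : K i →+* ℂ), σ ≠ σ₀ i → Definite ((h i).map (cj σ))
  T : ∀ X : GG κ, IsInv n P γ X → ∀ i, ∃ M, ActM (t i) (X.1 (e i)) M
  Tg : ∀ g : (j : J) → Module.End ℂ (κ j → ℂ), IsGrp n P γ g → ∀ i,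
    ∃ A : (K i →+* ℂ) → Matrix (Fin (m i)) (Fin (m i)) ℂ, ∀ σ x,
      g (e i) * tau (ts (t i) σ) x = tau (ts (t i) σ) (A σ *ᵥ x) * g (e i)
  inj : Function.Injective e
  m3 : ∀ i, m i = 3 ∨ 6 ≤ m i
  sp : ∀ i j, (∀ i', e i' ≠ j) → Fintype.card (κ j) + 2 ≤ m i ∨
      ∀ X Y : Module.End ℂ (κ j → ℂ), (∀ f, IsDRB (P j) (P j) f → ∀ v, X (f v) = f (X v)) →
        (∀ f, IsDRB (P j) (P j) f → ∀ v, Y (f v) = f (Y v)) → X * Y = Y * X

open Classical in
/-- the comparison operators of the derivation `D`, without multiplier, on the `A_(e i)`, and zero on the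
other abelian varieties -/
noncomputable def NE (D : Derivation ℚ ℂ ℂ) (j : J) : Module.End ℂ (κ j → ℂ) :=
  if ∃ i, e i = j then (P j).N D - (D ϖ / ϖ / 2) • 1 else 0

/-- the operators `NE` kill all Grothendieck forms -/
def KillN : Prop :=
  ∀ (D : Derivation ℚ ℂ ℂ) (k : ℕ) (α : MultilinearMap ℂ (fun _ : Fin (2 * k) => HW κ n) ℂ),
    (∀ v : Fin (2 * k) → HW κ n, (∀ r, IsRatP n P (v r)) → ∃ q : ℚ, α v = ϖ ^ k * q) →
    (∀ v : Fin (2 * k) → HW κ n, (∀ r i l j, IsAlgebraic ℚ (v r i l j)) → IsAlgebraic ℚ (α v)) →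
    actForm (lift n (NE e P D)) α = 0

end defs

/-- **ABS.**  For every symmetry there is a symmetry with the same action on the `A_(e i)` and zero on the
other abelian varieties.  PROOF.  `M ∈ RRE` is the family of matrices of `X` (`KSW.exists_famE`).  Let
`R` be the space of the `fun p => toLin' (N p)`, `N` the family of matrices of a symmetry `Y` (`Y.2 = 0`)
with `Y.1 j = 0` for all `j` not of the form `e i`.  `St_Rps` for the index set `PL K` (all places),
`d p = m p.1`, `q p` the bilinear form of `(h p.1).map p.2` (`bil (CoreR.GR (h p.1) p.2)`, as in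
`KTW/Dgm.lean`), and `D p = toLin' (M p)`.  Brackets, skew: as in `KTW/Dgm.lean`.
(1) Projections: `St_Spc` for `p` and `Z` (as in `Kle_single`, `KTW/Kle.lean`), with `W` the set of all
`(Y, Z)` such that `Y` is a symmetry, `Y.2 = 0`, and there is `N` with `ActM (t i) (Y.1 (e i)) (N ⟨i, ·⟩)` for
all `i`, `SkP` for all `N q`, and `N p = Z`; the surjectivity is `KSW.core_at` (with
`Pool.Agent.Helper84.exists_aut (σ₀ p.1) p.2`).
(2) Links: let `p, q` satisfy `∀ Y ∈ R, Y p = 0 ↔ Y q = 0`, and let `Y ∈ R`, `Y p = D p`. The family of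
matrices `M'` of `X - Y` has `M' p = 0`. For `N ∈ R` (from the symmetry `Y'`) the bracket of `X - Y` and `Y'` is
zero on the other abelian varieties, so it gives an element of `R`, with the value `0` at `p`, hence
`[M' q, N q] = 0`. `N q` is an arbitrary skew matrix by (1), so `M' q = 0`: the skew matrices
which commute with all skew matrices form a space stable under brackets, and if it is not zero,
it contains all skew matrices (`KSP.ideal_top`), contradiction to `KSP.Goursat.exists_noncomm`.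
So `D ∈ R`, from a symmetry `Y`; `Y.1 (e i) = X.1 (e i)` by `mem_bvE` and `eq_of_act` as in `Kle_form`. -/
def St_Abs : Prop := ∀ (I J : Type) [Fintype I] [DecidableEq I] [Fintype J] [DecidableEq J]
  (e : I → J) (n : J → ℕ) (κ : J → Type) [∀ j, Fintype (κ j)] [∀ j, DecidableEq (κ j)] (ϖ : ℂ)
  (P : ∀ j, PData (κ j) ϖ) (K : I → Type) [∀ i, Field (K i)] [∀ i, NumberField (K i)]
  (c : ∀ i, K i →+* K i) (m : I → ℕ) (h : ∀ i, Matrix (Fin (m i)) (Fin (m i)) (K i))
  (t : ∀ i, Fin (m i) → K i → Module.End ℂ (κ (e i) → ℂ)) (k : ℕ)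
  (γ : MultilinearMap ℂ (fun _ : Fin (2 * k) => HW κ n) ℂ) (σ₀ : ∀ i, K i →+* ℂ),
  FamE e n P h t γ σ₀ c → ∀ X : GG κ, IsInv n P γ X → X.2 = 0 →
  ∃ Y : GG κ, IsInv n P γ Y ∧ Y.2 = 0 ∧ (∀ i, Y.1 (e i) = X.1 (e i)) ∧
    ∀ j, (∀ i, e i ≠ j) → Y.1 j = 0

/-- **KLN** (helper63; from `St_Abs`).  The comparison operators, zero on the `C_j`, kill all Grothendieck
forms. -/
def St_Kln : Prop := ∀ {I J : Type} [Fintype I] [DecidableEq I] [Fintype J] [DecidableEq J]
  (A : I → AbVar) (C : J → AbVar) {K : I → Type} [∀ i, Field (K i)] [∀ i, NumberField (K i)]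
  {c : ∀ i, K i →+* K i} {m : I → ℕ} (_ : ∀ i, (A i).KugaSatakeMul (K i) (c i) (m i)),
  (∀ i, (A i).g ≠ 0) → (∀ i, c i = RingHom.id (K i)) → (∀ i, m i = 3 ∨ 6 ≤ m i) →
  (∀ i j, 2 * (C j).g + 2 ≤ m i ∨ (C j).IsCM) → ∀ n : I ⊕ J → ℕ,
  KillN (κ := fun j => Fin (Sum.elim A C j).g ⊕ Fin (Sum.elim A C j).g) Sum.inl n
    (fun j => pData (Sum.elim A C j))

/-- **DSP.**  Vectors with algebraic coordinates.  PROOF.  Choose a basis `b` of `V` consisting of vectors
of `s` (`exists_linearIndependent`, `Basis.mk` or `Basis.ofSpan`), `y = ∑ a, c a • b a`, `c = b.repr y`. For a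
derivation `D` of `ℂ`: `0 = D (O y x) = ∑ a, D (c a) * O (b a) x + c a * D (O (b a) x) =
∑ a, D (c a) * O (b a) x` for all `x : X` (`derivation_eq_zero`, `Derivation.leibniz`), so
`O (∑ a, D (c a) • b a) = 0`, `D (c a) = 0`; so `c a` is algebraic (`isAlgebraic_of_derivation`). -/
def St_Dsp : Prop := ∀ (V X : Type) [AddCommGroup V] [Module ℂ V] [FiniteDimensional ℂ V]
  (O : V →ₗ[ℂ] (X → ℂ)), Function.Injective O → ∀ s : Set V,
  (∀ v ∈ s, ∀ x, IsAlgebraic ℚ (O v x)) → Submodule.span ℂ s = ⊤ →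
  ∀ y : V, (∀ x, IsAlgebraic ℚ (O y x)) →
  ∃ (N : ℕ) (q : Fin N → ℂ) (v : Fin N → V), (∀ a, IsAlgebraic ℚ (q a)) ∧ (∀ a, v a ∈ s) ∧
    y = ∑ a, q a • v a

/-- **MXN** (from `St_Dsp`, `K3P.St_Bet`; uses `Pool/Agent/KTP/MixA.lean`).  Forms with variables in the
`T_i` and in the `H_1` of abelian varieties without Kuga-Satake structure (`k (e i) = 0`): the values at
de Rham vectors of the `T_i` and rational vectors of the `H_1` are algebraic multiples of `ϖ ^ p`.
PROOF.  `β i` from `St_Bet`.  `α = MixA_al ..` (as in `KTP/Mix.lean`, with `β i (u (e i) 0) (v (e i) 0)`), in the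
variables `u r, u' r` (`r < n`) and `w s` (`s < 2 p`), a Grothendieck form of weight `n + p`:
`α (u, u', w) = F (fun r i => β i (u r (e i) 0) (u' r (e i) 0)) (w s without its components of index 0)`.
(1) Let the `u r, u' r` be vectors with one component, a standard basis vector of `κ (e i)` in the
index 0 (or any vectors with algebraic entries and zero in the indices `> 0` and at the `j` not
of the form `e i`), and `w s` rational (component `0` in the index `0`).  Let `D` be a derivation,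
`μ = D ϖ / ϖ`.  By `derivForm_of_alg` (de Rham basis `SBP`) `D (α x) = ∑ r, α (update x r (∇ x_r))`,
`∇ x_r = 0` for `x_r = u, u'` (algebraic) and `∇ x_r = lift (fun j => (P j).N D) x_r` for `x_r = w`
(`lift_N`, `opN_apply`, and `nabla (FBP n P) D w = 0` for rational `w`).  By `isInv_N`
`∑ r, α (update x r (N x_r)) = (n + p) μ α x`, over all variables, and by `KillN`
`∑ r over the u, u' of α (update x r (N x_r - μ / 2 x_r)) = 0` (`NE` is zero at the components of the `w`: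
index `0` is zero there, `k (e i) = 0`).  So the sum over the `u, u'` is `n μ α x`, the sum over the `w` is
`p μ α x`, `D (α x) = p μ α x`, `D (α x / ϖ ^ p) = 0`, and `α x / ϖ ^ p` is algebraic
(`isAlgebraic_of_derivation`).
(2) By `St_Dsp` (`O = opT (t i)` with its matrix entries, injective by `Bet_opT_zero`; `s` the set of the
`β i (e_a) (e_b)`, they are de Rham, span by `St_Bet` and bilinearity) every de Rham vector of `T_i` is a
combination with algebraic coefficients of vectors `β i (e_a) (e_b)`; every `v s` is the sum over `i`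
of `Pi.single i (v s i)`; expand `F v w` (`MultilinearMap.map_sum`, or `Submodule.span_induction`-like
induction on the slots). -/
def St_Mxn : Prop := ∀ (I J : Type) [Fintype I] [DecidableEq I] [Fintype J] [DecidableEq J]
  (e : I → J), Function.Injective e → ∀ (κ : J → Type) [∀ j, Fintype (κ j)]
  [∀ j, DecidableEq (κ j)], (∀ i, Nonempty (κ (e i))) → ∀ (ϖ : ℂ) (P : ∀ j, PData (κ j) ϖ)
  (K : I → Type) [∀ i, Field (K i)] [∀ i, NumberField (K i)] (c : ∀ i, K i →+* K i) (m : I → ℕ)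
  (h : ∀ i, Matrix (Fin (m i)) (Fin (m i)) (K i))
  (t : ∀ i, Fin (m i) → K i → Module.End ℂ (κ (e i) → ℂ)), ϖ ≠ 0 →
  (∀ i, MD (P (e i)) (c i) (h i) (t i)) → ∀ k : J → ℕ, (∀ i, k (e i) = 0) →
  KillN e (fun j => k j + 1) P →
  ∀ (n p : ℕ) (F : MultilinearMap ℂ (fun _ : Fin n => TF K m)
    (MultilinearMap ℂ (fun _ : Fin (2 * p) => HW κ k) ℂ)),
  (∀ (y : Fin n → ∀ i, Fin (m i) → K i) (w : Fin (2 * p) → HW κ k), (∀ s, IsRatP k P (w s)) →
    ∃ q : ℚ, F (fun s => embF (y s)) w = ϖ ^ p * q) →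
  (∀ (v : Fin n → TF K m) (w : Fin (2 * p) → HW κ k), (∀ s i, DR (t i) (v s i)) →
    (∀ s i l j, IsAlgebraic ℚ (w s i l j)) → IsAlgebraic ℚ (F v w)) →
  ∀ (v : Fin n → TF K m) (w : Fin (2 * p) → HW κ k), (∀ s i, DR (t i) (v s i)) →
    (∀ s, IsRatP k P (w s)) → IsAlgebraic ℚ (F v w / ϖ ^ p)

/-- **HUN** (helper63; from `St_Kln`, `St_Mxn`, `KTP.St_Htu`).  The values at de Rham vectors of the `X_s`
and Betti vectors of `C` are algebraic multiples of `(2πi)^p`. -/
def St_Hun : Prop := ∀ {I J : Type} [Fintype I] [DecidableEq I] [Fintype J] [DecidableEq J]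
  (A : I → AbVar) (C : J → AbVar) {K : I → Type} [∀ i, Field (K i)] [∀ i, NumberField (K i)]
  {c : ∀ i, K i →+* K i} {m : I → ℕ} (S : ∀ i, (A i).KugaSatakeMul (K i) (c i) (m i)),
  (∀ i, (A i).g ≠ 0) →
  (∀ i, ∀ j : J, c i = RingHom.id (K i) ∧ (m i = 3 ∨ 6 ≤ m i) ∧
    (2 * (C j).g + 2 ≤ m i ∨ (C j).IsCM)) →
  ∀ (r n : ℕ) (l : J → ℕ) (p : ℕ)
  (F : MultilinearMap ℂ (fun _ : Fin n => HU r K m) (Form C l (2 * p))),
  (∀ (v : Fin n → HU r K m) (w : Fin (2 * p) → H1 C l),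
    (∀ s, (∀ a, ∃ q : ℚ, (v s).1 a = q) ∧ ∀ i, IsRatT ((v s).2 i)) → (∀ s, IsBetti C l (w s)) →
      ∃ q : ℚ, F v w = (2 * Real.pi * Complex.I) ^ p * q) →
  (∀ (v : Fin n → HU r K m) (w : Fin (2 * p) → H1 C l),
    (∀ s, (∀ a, IsAlgebraic ℚ ((v s).1 a)) ∧ ∀ i, (S i).IsDRT ((v s).2 i)) →
      (∀ s, IsDeRham C l (w s)) → IsAlgebraic ℚ (F v w)) →
  ∀ (v : Fin n → HU r K m) (w : Fin (2 * p) → H1 C l),
    (∀ s, (∀ a, IsAlgebraic ℚ ((v s).1 a)) ∧ ∀ i, (S i).IsDRT ((v s).2 i)) →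
      (∀ s, IsBetti C l (w s)) → IsAlgebraic ℚ (F v w / (2 * Real.pi * Complex.I) ^ p)

/-- **ASN** (helper63; from `St_Hun`, `St_Tns`, `St_Spn`).  The Grothendieck classes on `X × C` are the
sums of products of Grothendieck classes on `X` and on `C`. -/
def St_Asn : Prop := ∀ {I J : Type} [Fintype I] [DecidableEq I] [Fintype J] [DecidableEq J]
  (A : I → AbVar) (C : J → AbVar) {K : I → Type} [∀ i, Field (K i)] [∀ i, NumberField (K i)]
  {c : ∀ i, K i →+* K i} {m : I → ℕ} (S : ∀ i, (A i).KugaSatakeMul (K i) (c i) (m i)),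
  (∀ i, (A i).g ≠ 0) →
  (∀ i, ∀ j : J, c i = RingHom.id (K i) ∧ (m i = 3 ∨ 6 ≤ m i) ∧
    (2 * (C j).g + 2 ≤ m i ∨ (C j).IsCM)) →
  ∀ (r n : ℕ) (l : J → ℕ) (p : ℕ)
  (F : MultilinearMap ℂ (fun _ : Fin n => HU r K m) (Form C l (2 * p))),
  ((∀ (v : Fin n → HU r K m) (w : Fin (2 * p) → H1 C l),
    (∀ s, (∀ a, ∃ q : ℚ, (v s).1 a = q) ∧ ∀ i, IsRatT ((v s).2 i)) → (∀ s, IsBetti C l (w s)) →
      ∃ q : ℚ, F v w = (2 * Real.pi * Complex.I) ^ p * q) ∧
    ∀ (v : Fin n → HU r K m) (w : Fin (2 * p) → H1 C l),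
    (∀ s, (∀ a, IsAlgebraic ℚ ((v s).1 a)) ∧ ∀ i, (S i).IsDRT ((v s).2 i)) →
      (∀ s, IsDeRham C l (w s)) → IsAlgebraic ℚ (F v w)) ↔
  ∃ (N : ℕ) (G : Fin N → MultilinearMap ℂ (fun _ : Fin n => HU r K m) ℂ)
    (γ : Fin N → Form C l (2 * p)),
    (∀ a, IsGrU S r n (G a) ∧ IsGrothendieck C l p (γ a)) ∧
    ∀ v w, F v w = ∑ a, G a v * γ a w

end Pool.Agent.KTW
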