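import Pool.Agent.KTW.StV

/-!
# KTW: frozen statements, part six: a real and a complex place with Lie algebras of the same dimension
-/

set_option autoImplicit false

open scoped ComplexConjugate

namespace Pool.Agent.KTW

open Module Matrix NumberField Pool.Agent.Helper7 Pool.Agent.KS Pool.Agent.Ball Pool.Agent.KSE
  Pool.Agent.Helper28.GPC Pool.Agent.K3P Pool.Agent.KTP

section fam

variable {I J : Type} [Fintype I] [DecidableEq I] [Fintype J] [DecidableEq J] (e : I → J)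
  (n : J → ℕ) {κ : J → Type} [∀ j, Fintype (κ j)] [∀ j, DecidableEq (κ j)] {ϖ : ℂ}
  (P : ∀ j, PData (κ j) ϖ) {K : I → Type} [∀ i, Field (K i)] [∀ i, NumberField (K i)] {m : I → ℕ}
  (h : ∀ i, Matrix (Fin (m i)) (Fin (m i)) (K i))
  (t : ∀ i, Fin (m i) → K i → Module.End ℂ (κ (e i) → ℂ)) {k : ℕ}
  (γ : MultilinearMap ℂ (fun _ : Fin (2 * k) => HW κ n) ℂ) (σ₀ : ∀ i, K i →+* ℂ)

/-- as `FamZ`, with weaker conditions on the dimensions; also the `i` of real type with `m i ≤ 4` are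
allowed outside of `T₀` -/
structure FamZ2 (T₀ : I → Prop) (c : ∀ i, K i →+* K i) : Prop where
  pi : ϖ ≠ 0
  S : ∀ i, MD (P (e i)) (c i) (h i) (t i)
  B : ∀ v : Fin (2 * k) → HW κ n, (∀ r, IsRatP n P (v r)) → ∃ q : ℚ, γ v = ϖ ^ k * q
  A : ∀ v : Fin (2 * k) → HW κ n, (∀ r i m j, IsAlgebraic ℚ (v r i m j)) → IsAlgebraic ℚ (γ v)
  nd : ∀ i, HNd (P (e i))
  ne : ∀ i, Nonempty (κ (e i))
  T : ∀ X : GG κ, IsInv n P γ X → ∀ i, ∃ M, ActM (t i) (X.1 (e i)) M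
  Tg : ∀ g : (j : J) → Module.End ℂ (κ j → ℂ), IsGrp n P γ g → ∀ i,
    ∃ A : (K i →+* ℂ) → Matrix (Fin (m i)) (Fin (m i)) ℂ, ∀ σ x,
      g (e i) * tau (ts (t i) σ) x = tau (ts (t i) σ) (A σ *ᵥ x) * g (e i)
  inj : Function.Injective e
  typ : ∀ i, (RePl (h i) (σ₀ i) ∧ (T₀ i ∨ m i ≤ 4)) ∨ CoPl (h i) (σ₀ i)
  two : ∀ i, T₀ i → CoPl (h i) (σ₀ i) → m i = 2 →
    ∃ σ : K i →+* ℂ, σ ≠ σ₀ i ∧ σ ≠ cj (σ₀ i)
  dR : ∀ i i', T₀ i → ¬ T₀ i' → RePl (h i) (σ₀ i) → CoPl (h i') (σ₀ i') →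
    ¬ (m i' = 2 ∧ (m i = 3 ∨ m i = 4))
  dRR : ∀ i i', T₀ i → ¬ T₀ i' → RePl (h i') (σ₀ i') → RePl (h i) (σ₀ i) ∧ 6 ≤ m i
  dC : ∀ i i', T₀ i → ¬ T₀ i' → CoPl (h i) (σ₀ i) → CoPl (h i') (σ₀ i') → m i ≠ m i'
  sp : ∀ j, (∀ i, e i ≠ j) → SpK n P γ j

end fam

/-- **PRY** (helper64; from `St_Spy`, `St_Ssh`).  As `St_Prj`, for `FamZ2`.
PROOF.  As `thm_Prj` (`Pool/Agent/KTW/Prj.lean`), with these changes.
(a) Spectators `i'` of real type (`m i' = 3, 4`): `N = {M i' σ' = 0}`, `St_Nlk` (2) with `E = SO`, dimension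
`3`, `6`, and the dimension of the target is at least `15`.
(b) Target of real type with `m i ≥ 6`: at the place `σ₀ i`. Spectators `i'` of complex type with
`m i' ≥ 3`: if the ideal `{trz (M i' σ') = 0}` has the image `0`, then `sl (m i') = so (m i)`, compatible
with the complex conjugation. The real form of `so (m i)` at `σ₀ i` contains `Z₀ = x y^* - y x^*` (`x, y`
real, isotropic, `x.y = 1`), `(ad Z₀)^3 = ad Z₀` because `Z₀ Z Z₀ = (y.Z x) Z₀` for skew `Z`; but the real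
form at `σ'` belongs to a definite or Lorentz form, and there `(ad Z)^3 = ad Z` implies `Z = 0`: for an
eigenvalue `l` the matrix `B = Z - l` satisfies `B^3 = B` (apply the equation to `v w^T`), so the
eigenvalues are `l, l ± 1`; the adjoint gives the eigenvalue `- conj l`, so the real parts are `0` or
`± 1/2`; if one is `0`, then `Z` is a scalar; otherwise let `Re l = - 1/2`, then `B^2 = B` and the space is
the sum of two totally isotropic eigenspaces, of dimension at most one each, but `m i' ≥ 3`.  For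
`m i' = 2` the dimension is `3 < 15`. -/
def St_Pry : Prop := ∀ (I J : Type) [Fintype I] [DecidableEq I] [Fintype J] [DecidableEq J]
  (e : I → J) (n : J → ℕ) (κ : J → Type) [∀ j, Fintype (κ j)] [∀ j, DecidableEq (κ j)] (ϖ : ℂ)
  (P : ∀ j, PData (κ j) ϖ) (K : I → Type) [∀ i, Field (K i)] [∀ i, NumberField (K i)]
  (c : ∀ i, K i →+* K i) (m : I → ℕ) (h : ∀ i, Matrix (Fin (m i)) (Fin (m i)) (K i))
  (t : ∀ i, Fin (m i) → K i → Module.End ℂ (κ (e i) → ℂ)) (k : ℕ)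
  (γ : MultilinearMap ℂ (fun _ : Fin (2 * k) => HW κ n) ℂ) (σ₀ : ∀ i, K i →+* ℂ) (T₀ : I → Prop),
  FamZ2 e n P h t γ σ₀ T₀ c → ∀ i, T₀ i → ∀ (σ : K i →+* ℂ), ∀ Z ∈ Lg (h i) σ,
  ∃ (X : GG κ) (M : ∀ i, (K i →+* ℂ) → Matrix (Fin (m i)) (Fin (m i)) ℂ),
    IsInv n P γ X ∧ X.2 = 0 ∧ (∀ i', ActM (t i') (X.1 (e i')) (M i')) ∧
    (∀ j, (∀ i', T₀ i' → e i' ≠ j) → X.1 j = 0) ∧ M i σ = Z

end Pool.Agent.KTW
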