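import Pool.Agent.KTW.Aby
import Pool.Agent.KTW.StY

/-!
# KTW [Ab6]: `thm_Aby` for the weaker conditions of `FamZ2`
-/

set_option autoImplicit false
set_option linter.unusedSectionVars false

namespace Pool.Agent.KTW

open Module Matrix NumberField Pool.Agent.Helper7 Pool.Agent.KS Pool.Agent.Ball Pool.Agent.KSE
  Pool.Agent.Helper28.GPC

/-- **AB6.**  As `St_Aby`, for `FamZ2`. -/
def St_Ab6 : Prop := ∀ (I J : Type) [Fintype I] [DecidableEq I] [Fintype J] [DecidableEq J]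
  (e : I → J) (n : J → ℕ) (κ : J → Type) [∀ j, Fintype (κ j)] [∀ j, DecidableEq (κ j)] (ϖ : ℂ)
  (P : ∀ j, PData (κ j) ϖ) (K : I → Type) [∀ i, Field (K i)] [∀ i, NumberField (K i)]
  (c : ∀ i, K i →+* K i) (m : I → ℕ) (h : ∀ i, Matrix (Fin (m i)) (Fin (m i)) (K i))
  (t : ∀ i, Fin (m i) → K i → Module.End ℂ (κ (e i) → ℂ)) (k : ℕ)
  (γ : MultilinearMap ℂ (fun _ : Fin (2 * k) => HW κ n) ℂ) (σ₀ : ∀ i, K i →+* ℂ) (T₀ : I → Prop),
  FamZ2 e n P h t γ σ₀ T₀ c → ∀ (X : GG κ)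
  (M : ∀ i, (K i →+* ℂ) → Matrix (Fin (m i)) (Fin (m i)) ℂ), IsInv n P γ X → X.2 = 0 →
  (∀ i, ActM (t i) (X.1 (e i)) (M i)) →
  ∃ Y : GG κ, IsInv n P γ Y ∧ Y.2 = 0 ∧ (∀ j, (∀ i', T₀ i' → e i' ≠ j) → Y.1 j = 0) ∧
    ∀ i, T₀ i → Y.1 (e i) ∈ bvS (t i) ∧ ActM (t i) (Y.1 (e i)) (fun σ => trz (M i σ))

/-- [AB6] as `thm_Aby`, for `FamZ2` -/
theorem thm_Ab6 (hPry : St_Pry) (hSpz : St_Spz) (hSso : St_Sso) (hSsl : St_Ssl)
    (hSsh : St_Ssh) : St_Ab6 := by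
  classical
  intro I J _ _ _ _ ε n κ _ _ ϖ P K _ _ c m h t k γ σ₀ T₀ H X₀ M₀ hX₀ hX₀2 hX₀M
  have hne : ∀ i, Nonempty (κ (ε i)) := H.ne
  have hsym : ∀ i (σ : K i →+* ℂ), cj σ = σ → ((h i).map σ)ᵀ = (h i).map σ := by
    intro i σ hσ
    ext a b
    rw [Matrix.transpose_apply, Matrix.map_apply, Matrix.map_apply, ← (H.S i).herm a b,
      ← (H.S i).conj, hσ]
  have hdet : ∀ i (σ : K i →+* ℂ), IsUnit ((h i).map σ).det := by
    intro i σ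
    have h1 : ((h i).map σ).det = σ (h i).det := by
      rw [RingHom.map_det, RingHom.mapMatrix_apply]
    rw [h1]
    exact IsUnit.mk0 _ ((map_ne_zero σ).2 (H.S i).nd)
  have hskew : ∀ i (Z : Module.End ℂ (κ (ε i) → ℂ))
      (M : (K i →+* ℂ) → Matrix (Fin (m i)) (Fin (m i)) ℂ), ActM (t i) Z M →
      ∀ σ : K i →+* ℂ, cj σ = σ → M σ ∈ SO ((h i).map σ) := by
    intro i Z M hM σ hσ
    have := hne i
    show (M σ)ᵀ * (h i).map σ + (h i).map σ * M σ = 0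
    have h1 : Pool.Agent.KSR.SkP (h i) σ (M σ) := by
      rw [Pool.Agent.KSR.skP_iff]
      intro x y
      have h1 := ActM.skew (H.S i).conj (H.S i).cliff hM σ x y
      rw [hσ] at h1
      exact h1
    exact h1
  -- the pieces
  have hpc := fun (i : {i // T₀ i}) (σ : K i.1 →+* ℂ) => exists_pieces hSso hSsl hSsh (h i.1)
    (σ₀ i.1) σ ((H.typ i.1).imp (fun h => h.1) id) (hsym i.1 σ) (hdet i.1 σ)
  choose p G hG hpG hpb hpo hpu using hpc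
  let 𝓐 : Type := GG κ × (∀ i, (K i →+* ℂ) → Matrix (Fin (m i)) (Fin (m i)) ℂ)
  let W : Submodule ℂ 𝓐 :=
    { carrier := {X | IsInv n P γ X.1 ∧ X.1.2 = 0 ∧ ∀ i, ActM (t i) (X.1.1 (ε i)) (X.2 i)}
      add_mem' := by
        rintro X Y ⟨h1, h2, h3⟩ ⟨h1', h2', h3'⟩
        refine ⟨h1.add _ _ _ h1', ?_, fun i => (h3 i).add (h3' i)⟩
        show X.1.2 + Y.1.2 = 0
        rw [h2, h2', add_zero]
      zero_mem' := ⟨IsInv.zero _ _ _, rfl, fun _ => ActM.zero⟩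
      smul_mem' := by
        rintro r X ⟨h1, h2, h3⟩
        refine ⟨h1.smul _ _ _ r, ?_, fun i => (h3 i).smul r⟩
        show r * X.1.2 = 0
        rw [h2, mul_zero] }
  have hWd : ∀ X : 𝓐, X ∈ W ↔ IsInv n P γ X.1 ∧ X.1.2 = 0 ∧
      ∀ i, ActM (t i) (X.1.1 (ε i)) (X.2 i) := fun _ => Iff.rfl
  have hWW : ∀ X ∈ W, ∀ Y ∈ W, X * Y - Y * X ∈ W := by
    rintro X ⟨h1, h2, h3⟩ Y ⟨h1', h2', h3'⟩
    refine ⟨h1.bracket _ _ _ h1', ?_, fun i => (h3 i).bracket (h3' i)⟩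
    show X.1.2 * Y.1.2 - Y.1.2 * X.1.2 = 0
    rw [mul_comm, sub_self]
  let V : Submodule ℂ 𝓐 := Submodule.span ℂ {Z : 𝓐 | ∃ A B : 𝓐, A ∈ W ∧ B ∈ W ∧
    (∀ j, (∀ i', T₀ i' → ε i' ≠ j) → A.1.1 j = 0) ∧
    (∀ j, (∀ i', T₀ i' → ε i' ≠ j) → B.1.1 j = 0) ∧ Z = A * B - B * A}
  have hVW : V ≤ W := by
    refine Submodule.span_le.2 ?_
    rintro _ ⟨A, B, hA, hB, -, -, rfl⟩
    exact hWW A hA B hB
  have hWV : ∀ X ∈ W, ∀ Y ∈ V, X * Y - Y * X ∈ V := by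
    intro X hX Y hY
    induction hY using Submodule.span_induction with
    | mem Y hY =>
      obtain ⟨A, B, hA, hB, hAj, hBj, rfl⟩ := hY
      rw [Aby_br]
      refine Submodule.add_mem _ (Submodule.subset_span ?_) (Submodule.subset_span ?_)
      · refine ⟨X * A - A * X, B, hWW X hX A hA, hB, fun j hj => ?_, hBj, rfl⟩
        show X.1.1 j * A.1.1 j - A.1.1 j * X.1.1 j = 0
        rw [hAj j hj, mul_zero, zero_mul, sub_zero]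
      · refine ⟨A, X * B - B * X, hA, hWW X hX B hB, hAj, fun j hj => ?_, rfl⟩
        show X.1.1 j * B.1.1 j - B.1.1 j * X.1.1 j = 0
        rw [hBj j hj, mul_zero, zero_mul, sub_zero]
    | zero =>
      rw [mul_zero, zero_mul, sub_zero]
      exact Submodule.zero_mem _
    | add a b _ _ ha hb =>
      rw [Aby_add]
      exact Submodule.add_mem _ ha hb
    | smul r a _ ha =>
      have e : X * (r • a) - (r • a) * X = r • (X * a - a * X) := by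
        rw [mul_smul_comm, smul_mul_assoc, smul_sub]
      rw [e]
      exact Submodule.smul_mem _ r ha
  have hVt : ∀ Y ∈ V, (∀ j, (∀ i', T₀ i' → ε i' ≠ j) → Y.1.1 j = 0) ∧
      ∀ i σ, (Y.2 i σ).trace = 0 := by
    intro Y hY
    induction hY using Submodule.span_induction with
    | mem Y hY =>
      obtain ⟨A, B, hA, hB, hAj, hBj, rfl⟩ := hY
      refine ⟨fun j hj => ?_, fun i σ => trace_br (A.2 i σ) (B.2 i σ)⟩
      show A.1.1 j * B.1.1 j - B.1.1 j * A.1.1 j = 0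
      rw [hBj j hj, mul_zero, zero_mul, sub_zero]
    | zero => exact ⟨fun _ _ => rfl, fun i σ => Matrix.trace_zero _ _⟩
    | add a b _ _ ha hb =>
      refine ⟨fun j hj => ?_, fun i σ => ?_⟩
      · show a.1.1 j + b.1.1 j = 0
        rw [ha.1 j hj, hb.1 j hj, add_zero]
      · show (a.2 i σ + b.2 i σ).trace = 0
        rw [Matrix.trace_add, ha.2, hb.2, add_zero]
    | smul r a _ ha =>
      refine ⟨fun j hj => ?_, fun i σ => ?_⟩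
      · show r • a.1.1 j = 0
        rw [ha.1 j hj, smul_zero]
      · show (r • a.2 i σ).trace = 0
        rw [Matrix.trace_smul, ha.2, smul_zero]
  let Q : Type := Σ i : {i // T₀ i}, (K i.1 →+* ℂ) × Bool
  let cc : ∀ q : Q, 𝓐 →ₗ[ℂ] Matrix (Fin (m q.1.1)) (Fin (m q.1.1)) ℂ := fun q =>
    (p q.1 q.2.1 q.2.2).comp
      ((LinearMap.proj q.2.1).comp ((LinearMap.proj q.1.1).comp (LinearMap.snd ℂ (GG κ)
        (∀ i, (K i →+* ℂ) → Matrix (Fin (m i)) (Fin (m i)) ℂ))))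
  have hcc : ∀ (q : Q) (X : 𝓐), cc q X = p q.1 q.2.1 q.2.2 (X.2 q.1.1 q.2.1) := fun _ _ => rfl
  have hWs : ∀ X ∈ W, ∀ i (σ : K i →+* ℂ), cj σ = σ → X.2 i σ ∈ SO ((h i).map σ) :=
    fun X hX i σ hσ => hskew i _ _ (hX.2.2 i) σ hσ
  have hbr : ∀ X ∈ W, ∀ Y ∈ W, ∀ q, cc q (X * Y - Y * X) = cc q X * cc q Y - cc q Y * cc q X :=
    fun X hX Y hY q => hpb q.1 q.2.1 q.2.2 _ _ (hWs X hX q.1.1 q.2.1) (hWs Y hY q.1.1 q.2.1)
  obtain ⟨Y, hY, hYq⟩ := hSpz 𝓐 Q _ cc (fun q => G q.1 q.2.1 q.2.2)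
    (fun q => hG q.1 q.2.1 q.2.2) W V hVW hWW hWV hbr
    (fun X hX q => hpG q.1 q.2.1 q.2.2 _ (hWs X hX q.1.1 q.2.1))
    (by
      intro q Z hZ
      have h2 : G q.1 q.2.1 q.2.2 ≤ V.map (cc q) := by
        refine (hG q.1 q.2.1 q.2.2).perf _ ?_
        intro x hx y hy
        obtain ⟨x', hx', rfl⟩ := hpo q.1 q.2.1 q.2.2 x hx
        obtain ⟨y', hy', rfl⟩ := hpo q.1 q.2.1 q.2.2 y hy
        obtain ⟨A, M, hA, hA2, hAM, hAj, hAx⟩ := hPry I J ε n κ ϖ P K c m h t k γ σ₀ T₀ H q.1.1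
          q.1.2 q.2.1 x' hx'
        obtain ⟨B, N, hB, hB2, hBM, hBj, hBx⟩ := hPry I J ε n κ ϖ P K c m h t k γ σ₀ T₀ H q.1.1
          q.1.2 q.2.1 y' hy'
        have hAW : (A, M) ∈ W := ⟨hA, hA2, hAM⟩
        have hBW : (B, N) ∈ W := ⟨hB, hB2, hBM⟩
        refine ⟨(A, M) * (B, N) - (B, N) * (A, M), Submodule.subset_span
          ⟨(A, M), (B, N), hAW, hBW, hAj, hBj, rfl⟩, ?_⟩
        rw [hbr _ hAW _ hBW, hcc, hcc, ← hAx, ← hBx]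
      exact h2 hZ) (X₀, M₀) ⟨hX₀, hX₀2, hX₀M⟩
  obtain ⟨hY1, hY2, hY3⟩ := hVW hY
  obtain ⟨hYj, hYt⟩ := hVt Y hY
  refine ⟨Y.1, hY1, hY2, hYj, fun i hi => ?_⟩
  refine ⟨mem_bvE n P (ε i) (H.S i) γ Y.1 hY1 hY2 _ (hY3 i), ?_⟩
  have e : (fun σ => trz (M₀ i σ)) = Y.2 i := by
    funext σ
    refine (hpu ⟨i, hi⟩ σ (M₀ i σ) (Y.2 i σ) (hskew i _ _ (hX₀M i) σ)
      (hskew i _ _ (hY3 i) σ) (hYt i σ) fun b => ?_).symm
    exact hYq ⟨⟨i, hi⟩, σ, b⟩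
  rw [e]
  exact hY3 i

end Pool.Agent.KTW
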