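import Pool.Agent.KTW.StN
import Pool.Agent.KSW.Fin

/-!
# KTW [Abs]: for every symmetry there is a symmetry with the same action on the Kuga-Satake varieties
and zero on the other abelian varieties
-/

set_option autoImplicit false
set_option linter.unusedSectionVars false

namespace Pool.Agent.KTW

open Module Matrix NumberField Pool.Agent.Helper7 Pool.Agent.KS Pool.Agent.Ball Pool.Agent.KSE
  Pool.Agent.Helper28.GPC
open Pool.Agent.KSR (PL SkP skw_of_skP skP_of_skw bil_nd)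
open Pool.Agent.KSW (RRE)

section

variable {I J : Type} [Fintype I] [DecidableEq I] [Fintype J] [DecidableEq J]
    {ε : I → J} {n : J → ℕ} {κ : J → Type}
    [∀ j, Fintype (κ j)] [∀ j, DecidableEq (κ j)] {ϖ : ℂ} {P : ∀ j, PData (κ j) ϖ}
    {K : I → Type} [∀ i, Field (K i)] [∀ i, NumberField (K i)] {c : ∀ i, K i →+* K i} {m : I → ℕ}
    {h : ∀ i, Matrix (Fin (m i)) (Fin (m i)) (K i)}
    {t : ∀ i, Fin (m i) → K i → Module.End ℂ (κ (ε i) → ℂ)} {k : ℕ}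
    {γ : MultilinearMap ℂ (fun _ : Fin (2 * k) => HW κ n) ℂ} {σ₀ : ∀ i, K i →+* ℂ}

/-- the family `M` belongs to the symmetry `X` without multiplier -/
def AbsF (ε : I → J) (n : J → ℕ) (P : ∀ j, PData (κ j) ϖ)
    (h : ∀ i, Matrix (Fin (m i)) (Fin (m i)) (K i))
    (t : ∀ i, Fin (m i) → K i → Module.End ℂ (κ (ε i) → ℂ))
    (γ : MultilinearMap ℂ (fun _ : Fin (2 * k) => HW κ n) ℂ) (X : GG κ)
    (M : ∀ p : PL K, Matrix (Fin (m p.1)) (Fin (m p.1)) ℂ) : Prop :=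
  IsInv n P γ X ∧ X.2 = 0 ∧ (∀ p : PL K, SkP (h p.1) p.2 (M p)) ∧
    ∀ i, ActM (t i) (X.1 (ε i)) (fun σ => M ⟨i, σ⟩)

theorem AbsF.add {X X' : GG κ} {M M' : ∀ p : PL K, Matrix (Fin (m p.1)) (Fin (m p.1)) ℂ}
    (hX : AbsF ε n P h t γ X M) (hX' : AbsF ε n P h t γ X' M') :
    AbsF ε n P h t γ (X + X') (M + M') := by
  obtain ⟨h1, h2, h3, h4⟩ := hX
  obtain ⟨h1', h2', h3', h4'⟩ := hX'
  refine ⟨h1.add _ _ _ h1', ?_, fun p => (h3 p).add (h3' p), fun i => (h4 i).add (h4' i)⟩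
  show X.2 + X'.2 = 0
  rw [h2, h2', add_zero]

theorem AbsF.zero : AbsF ε n P h t γ (0 : GG κ)
    (0 : ∀ p : PL K, Matrix (Fin (m p.1)) (Fin (m p.1)) ℂ) :=
  ⟨IsInv.zero _ _ _, rfl, fun _ => SkP.zero, fun _ => ActM.zero⟩

theorem AbsF.smul (r : ℂ) {X : GG κ} {M : ∀ p : PL K, Matrix (Fin (m p.1)) (Fin (m p.1)) ℂ}
    (hX : AbsF ε n P h t γ X M) : AbsF ε n P h t γ (r • X) (r • M) := by
  obtain ⟨h1, h2, h3, h4⟩ := hX
  refine ⟨h1.smul _ _ _ r, ?_, fun p => (h3 p).smul r, fun i => (h4 i).smul r⟩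
  show r * X.2 = 0
  rw [h2, mul_zero]

theorem AbsF.br {X X' : GG κ} {M M' : ∀ p : PL K, Matrix (Fin (m p.1)) (Fin (m p.1)) ℂ}
    (hX : AbsF ε n P h t γ X M) (hX' : AbsF ε n P h t γ X' M') :
    AbsF ε n P h t γ (X * X' - X' * X) (M * M' - M' * M) := by
  obtain ⟨h1, h2, h3, h4⟩ := hX
  obtain ⟨h1', h2', h3', h4'⟩ := hX'
  refine ⟨h1.bracket _ _ _ h1', ?_, fun p => (h3 p).bracket (h3' p),
    fun i => (h4 i).bracket (h4' i)⟩
  show X.2 * X'.2 - X'.2 * X.2 = 0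
  rw [mul_comm, sub_self]

theorem AbsF.sub {X X' : GG κ} {M M' : ∀ p : PL K, Matrix (Fin (m p.1)) (Fin (m p.1)) ℂ}
    (hX : AbsF ε n P h t γ X M) (hX' : AbsF ε n P h t γ X' M') :
    AbsF ε n P h t γ (X - X') (M - M') := by
  have h1 := hX.add (hX'.smul (-1))
  have e1 : X + (-1 : ℂ) • X' = X - X' := by
    refine Prod.ext ?_ ?_
    · funext j
      apply LinearMap.ext
      intro v
      funext a
      show X.1 j v a + (-1 : ℂ) * X'.1 j v a = X.1 j v a - X'.1 j v a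
      ring
    · show X.2 + (-1 : ℂ) * X'.2 = X.2 - X'.2
      ring
  have e2 : M + (-1 : ℂ) • M' = M - M' := by rw [neg_one_smul, sub_eq_add_neg]
  rw [e1, e2] at h1
  exact h1

/-- all skew matrices at a place, from symmetries which are zero on the other varieties -/
theorem Abs_proj (H : FamE ε n P h t γ σ₀ c) (hSpc : St_Spc) (p : PL K)
    (Z : Matrix (Fin (m p.1)) (Fin (m p.1)) ℂ) (hZ : SkP (h p.1) p.2 Z) :
    ∃ (X : GG κ) (M : ∀ p : PL K, Matrix (Fin (m p.1)) (Fin (m p.1)) ℂ),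
      AbsF ε n P h t γ X M ∧ (∀ j, (∀ i', ε i' ≠ j) → X.1 j = 0) ∧ M p = Z := by
  classical
  have hsym : ((h p.1).map p.2)ᵀ = (h p.1).map p.2 := by
    ext a b
    rw [Matrix.transpose_apply, Matrix.map_apply, Matrix.map_apply, ← (H.S p.1).herm a b,
      ← (H.S p.1).conj, H.real]
  have hdet : IsUnit ((h p.1).map p.2).det := by
    have h1 : ((h p.1).map p.2).det = p.2 (h p.1).det := by
      rw [RingHom.map_det, RingHom.mapMatrix_apply]
    rw [h1]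
    exact IsUnit.mk0 _ ((map_ne_zero p.2).2 (H.S p.1).nd)
  let W : Submodule ℂ (GG κ × Matrix (Fin (m p.1)) (Fin (m p.1)) ℂ) :=
    { carrier := {X | ∃ M, AbsF ε n P h t γ X.1 M ∧ M p = X.2}
      add_mem' := by
        rintro ⟨X, Z⟩ ⟨X', Z'⟩ ⟨M, h1, h2⟩ ⟨M', h1', h2'⟩
        exact ⟨M + M', h1.add h1', congrArg₂ (· + ·) h2 h2'⟩
      zero_mem' := ⟨0, AbsF.zero, rfl⟩
      smul_mem' := by
        rintro r ⟨X, Z⟩ ⟨M, h1, h2⟩
        exact ⟨r • M, h1.smul r, congrArg (r • ·) h2⟩ }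
  have hW : ∀ X, X ∈ W ↔ ∃ M, AbsF ε n P h t γ X.1 M ∧ M p = X.2 := fun _ => Iff.rfl
  obtain ⟨X, hX, hXZ, hXj⟩ := hSpc (m p.1) ((h p.1).map p.2) hsym hdet
    (by have := H.m3 p.1; omega)
    (by have := H.m3 p.1; omega) (GG κ) {j : J // ∀ i', ε i' ≠ j} (fun j => κ j.1)
    (fun j => (P j.1).ψ) (fun j => (P j.1).hψnd) (fun j => (P j.1).hψalt)
    (fun j => (Pi.evalAlgHom ℂ (fun j : J => Module.End ℂ (κ j → ℂ)) j.1).comp
      (AlgHom.fst ℂ _ _)) W
    (by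
      rintro ⟨X, Z⟩ ⟨M, h1, h2⟩ ⟨X', Z'⟩ ⟨M', h1', h2'⟩
      refine ⟨M * M' - M' * M, h1.br h1', ?_⟩
      show M p * M' p - M' p * M p = Z * Z' - Z' * Z
      rw [h2, h2'])
    (by
      rintro ⟨X, Z⟩ ⟨M, h1, h2⟩
      have h3 := h1.2.2.1 p
      rw [h2] at h3
      exact h3)
    (by
      intro Z hZ
      obtain ⟨τ, hτ⟩ := Pool.Agent.Helper84.exists_aut (σ₀ p.1) p.2
      obtain ⟨M, ⟨hM1, X, hX, hX2, hXM⟩, hMp, -⟩ := KSW.core_at n H.pi P H.S γ H.B H.A H.nd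
        H.real σ₀ H.sig H.defi H.T H.Tg p (by have := H.m3 p.1; omega)
        (by have := H.m3 p.1; omega) τ hτ Z hZ
      exact ⟨(X, Z), ⟨M, ⟨hX, hX2, hM1, hXM⟩, hMp⟩, rfl⟩)
    (by
      intro X hX j u v
      obtain ⟨M, h1, -⟩ := hX
      have h3 := h1.1.pol j.1 u v
      rw [h1.2.1, zero_mul] at h3
      exact h3)
    (fun j => (H.sp p.1 j.1 j.2).imp id fun h1 X hX Y hY => by
      obtain ⟨M, hX, -⟩ := hX
      obtain ⟨N, hY, -⟩ := hY
      exact h1 _ _ (hX.1.comm j.1 j.1) (hY.1.comm j.1 j.1)) Z hZ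
  obtain ⟨M, h1, h2⟩ := hX
  exact ⟨X.1, M, h1, fun j hj => hXj ⟨j, hj⟩, h2.trans hXZ⟩

/-- the skew operators which commute with all skew operators are zero -/
theorem Abs_center {d : ℕ} (hd : d = 3 ∨ 5 ≤ d) (q : LinearMap.BilinForm ℂ (Fin d → ℂ))
    (hs : ∀ x y, q x y = q y x) (hnd : q.Nondegenerate) (A : Module.End ℂ (Fin d → ℂ))
    (hA : KSP.Skw q A) (hc : ∀ B, KSP.Skw q B → A * B = B * A) : A = 0 := by
  by_contra h0
  let 𝔞 : Submodule ℂ (Module.End ℂ (Fin d → ℂ)) :=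
    { carrier := {A | KSP.Skw q A ∧ ∀ B, KSP.Skw q B → A * B = B * A}
      add_mem' := by
        rintro A A' ⟨h1, h2⟩ ⟨h1', h2'⟩
        refine ⟨fun x y => ?_, fun B hB => ?_⟩
        · have e1 := h1 x y
          have e2 := h1' x y
          rw [LinearMap.add_apply, LinearMap.add_apply, map_add, LinearMap.add_apply, map_add]
          linear_combination e1 + e2
        · rw [add_mul, mul_add, h2 B hB, h2' B hB]
      zero_mem' := by
        refine ⟨fun x y => ?_, fun B hB => ?_⟩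
        · rw [LinearMap.zero_apply, LinearMap.zero_apply, map_zero, LinearMap.zero_apply, map_zero,
            add_zero]
        · rw [zero_mul, mul_zero]
      smul_mem' := by
        rintro r A ⟨h1, h2⟩
        refine ⟨fun x y => ?_, fun B hB => ?_⟩
        · have e1 := h1 x y
          rw [LinearMap.smul_apply, LinearMap.smul_apply, map_smul, LinearMap.smul_apply, map_smul,
            smul_eq_mul, smul_eq_mul]
          linear_combination r * e1
        · rw [smul_mul_assoc, mul_smul_comm, h2 B hB] }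
  obtain ⟨B, C, hB, hC, hBC⟩ := KSP.Goursat.exists_noncomm (by omega) q hs hnd
  have htop := KSP.ideal_top hd q hs hnd 𝔞 (fun A hA => hA.1) (by
    rintro A hA M hM
    rw [hA.2 M hM, sub_self]
    exact Submodule.zero_mem _) A ⟨hA, hc⟩ h0 B hB
  exact hBC (sub_eq_zero.2 (htop.2 C hC))

end

theorem thm_Abs (hRps : St_Rps) (hSpc : St_Spc) : St_Abs := by
  classical
  intro I J _ _ _ _ ε n κ _ _ ϖ P K _ _ c m h t k γ σ₀ H X hX hX2
  have hsy : ∀ p : PL K, (CoreR.GR (h p.1) p.2)ᵀ = CoreR.GR (h p.1) p.2 := fun p =>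
    CoreR.GR_tr (H.S p.1).conj (H.S p.1).herm (H.real p.1 p.2)
  obtain ⟨M, ⟨hM1, -⟩, hM⟩ := KSW.exists_famE H.S H.real H.T X hX hX2
  have hXM : AbsF ε n P h t γ X M := ⟨hX, hX2, hM1, hM⟩
  let R : Submodule ℂ (∀ p : PL K, Module.End ℂ (Fin (m p.1) → ℂ)) :=
    { carrier := {D | ∃ (Y : GG κ) (N : ∀ p : PL K, Matrix (Fin (m p.1)) (Fin (m p.1)) ℂ),
        AbsF ε n P h t γ Y N ∧ (∀ j, (∀ i', ε i' ≠ j) → Y.1 j = 0) ∧
        D = fun p => Matrix.toLin' (N p)}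
      add_mem' := by
        rintro _ _ ⟨Y, N, hY, hj, rfl⟩ ⟨Y', N', hY', hj', rfl⟩
        refine ⟨Y + Y', N + N', hY.add hY', fun j hj1 => ?_, ?_⟩
        · show Y.1 j + Y'.1 j = 0
          rw [hj j hj1, hj' j hj1, add_zero]
        · funext p
          rw [Pi.add_apply, Pi.add_apply, map_add]
      zero_mem' := by
        refine ⟨0, 0, AbsF.zero, fun j _ => rfl, ?_⟩
        funext p
        rw [Pi.zero_apply, Pi.zero_apply, map_zero]
      smul_mem' := by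
        rintro r _ ⟨Y, N, hY, hj, rfl⟩
        refine ⟨r • Y, r • N, hY.smul r, fun j hj1 => ?_, ?_⟩
        · show r • Y.1 j = 0
          rw [hj j hj1, smul_zero]
        · funext p
          rw [Pi.smul_apply, Pi.smul_apply, map_smul] }
  have hbr : ∀ (N N' : ∀ p : PL K, Matrix (Fin (m p.1)) (Fin (m p.1)) ℂ) (p : PL K),
      Matrix.toLin' ((N * N' - N' * N) p) =
        Matrix.toLin' (N p) * Matrix.toLin' (N' p) - Matrix.toLin' (N' p) * Matrix.toLin' (N p) := by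
    intro N N' p
    rw [Pi.sub_apply, Pi.mul_apply, Pi.mul_apply, map_sub, Matrix.toLin'_mul, Matrix.toLin'_mul]
    rfl
  have hproj : ∀ (p : PL K) (A : Module.End ℂ (Fin (m p.1) → ℂ)),
      KSP.Skw (bil (CoreR.GR (h p.1) p.2)) A → ∃ (Y : GG κ)
        (N : ∀ p : PL K, Matrix (Fin (m p.1)) (Fin (m p.1)) ℂ),
        AbsF ε n P h t γ Y N ∧ (∀ j, (∀ i', ε i' ≠ j) → Y.1 j = 0) ∧ Matrix.toLin' (N p) = A := by
    intro p A hA
    obtain ⟨Y, N, h1, h2, h3⟩ := Abs_proj H hSpc p _ (skP_of_skw (H.real p.1 p.2) hA)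
    exact ⟨Y, N, h1, h2, by rw [h3, Matrix.toLin'_toMatrix']⟩
  obtain ⟨Y, N, hY, hYj, hYN⟩ := hRps (PL K) (fun p => m p.1)
    (fun p => by have := H.m3 p.1; omega) (fun p => bil (CoreR.GR (h p.1) p.2))
    (fun p => bil_symm (hsy p)) (fun p => bil_nd (H.real p.1 p.2) (H.S p.1).nd) R
    (by
      rintro _ ⟨Y, N, hY, hj, rfl⟩ _ ⟨Y', N', hY', hj', rfl⟩
      refine ⟨Y * Y' - Y' * Y, N * N' - N' * N, hY.br hY', fun j hj1 => ?_, ?_⟩
      · show Y.1 j * Y'.1 j - Y'.1 j * Y.1 j = 0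
        rw [hj j hj1, zero_mul, mul_zero, sub_zero]
      · funext p
        exact (hbr N N' p).symm)
    (by
      rintro _ ⟨Y, N, hY, hj, rfl⟩ p
      exact skw_of_skP (H.real p.1 p.2) (hY.2.2.1 p))
    (by
      intro p A hA
      obtain ⟨Y, N, h1, h2, h3⟩ := hproj p A hA
      exact ⟨_, ⟨Y, N, h1, h2, rfl⟩, h3⟩)
    (fun p => Matrix.toLin' (M p))
    (fun p => skw_of_skP (H.real p.1 p.2) (hM1 p))
    (by
      rintro p q hpq _ ⟨Y, N, hY, hj, rfl⟩ hp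
      have hp' : N p = M p := Matrix.toLin'.injective hp
      have h1 := hXM.sub hY
      have h0 : Matrix.toLin' ((M - N) q) = 0 := by
        refine Abs_center (by have := H.m3 q.1; omega) (bil (CoreR.GR (h q.1) q.2))
          (bil_symm (hsy q)) (bil_nd (H.real q.1 q.2) (H.S q.1).nd) _
          (skw_of_skP (H.real q.1 q.2) (h1.2.2.1 q)) fun B hB => ?_
        obtain ⟨Y', N', hY', hj', rfl⟩ := hproj q B hB
        have h2 := h1.br hY'
        have h3 := (hpq _ ⟨_, _, h2, fun j hj1 => by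
          show (X - Y).1 j * Y'.1 j - Y'.1 j * (X - Y).1 j = 0
          rw [hj' j hj1, zero_mul, mul_zero, sub_zero], rfl⟩).1 (by
            rw [hbr, Pi.sub_apply, hp', sub_self, map_zero, zero_mul, mul_zero, sub_zero])
        rw [hbr] at h3
        exact sub_eq_zero.1 h3
      rw [Pi.sub_apply, map_sub, sub_eq_zero] at h0
      exact h0.symm)
  refine ⟨Y, hY.1, hY.2.1, fun i => ?_, hYj⟩
  refine eq_of_act (H.S i).conj (H.S i).herm (H.S i).nd (H.S i).cliff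
    (mem_bvE n P (ε i) (H.S i) γ Y hY.1 hY.2.1 _ (hY.2.2.2 i))
    (mem_bvE n P (ε i) (H.S i) γ X hX hX2 _ (hM i)) (hY.2.2.2 i) ?_
  have e : (fun σ => N ⟨i, σ⟩) = fun σ => M ⟨i, σ⟩ := by
    funext σ
    exact (Matrix.toLin'.injective (congrFun hYN ⟨i, σ⟩)).symm
  rw [e]
  exact hM i

end Pool.Agent.KTW
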