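import Pool.Agent.KTW.StV

/-!
# KTW [Spz, Spy]: Goursat's lemma for ideals, abstract version
-/

set_option autoImplicit false

namespace Pool.Agent.KTW

open Module

section

variable {𝓑 : Type} [Ring 𝓑] [Algebra ℂ 𝓑] {G : Submodule ℂ 𝓑}

/-- a simple algebra is spanned by brackets -/
theorem Smp.perf (hG : Smp G) (N : Submodule ℂ 𝓑)
    (h : ∀ x ∈ G, ∀ y ∈ G, x * y - y * x ∈ N) : G ≤ N := by
  have h1 : Submodule.span ℂ {z : 𝓑 | ∃ x ∈ G, ∃ y ∈ G, z = x * y - y * x} = G := by
    refine hG.id _ ?_ ?_ ?_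
    · rw [Submodule.span_le]
      rintro _ ⟨x, hx, y, hy, rfl⟩
      exact hG.br x hx y hy
    · intro x hx y hy
      refine Submodule.subset_span ⟨x, hx, y, ?_, rfl⟩
      have h2 : Submodule.span ℂ {z : 𝓑 | ∃ x ∈ G, ∃ y ∈ G, z = x * y - y * x} ≤ G := by
        rw [Submodule.span_le]
        rintro _ ⟨x, hx, y, hy, rfl⟩
        exact hG.br x hx y hy
      exact h2 hy
    · intro h0
      obtain ⟨x, hx, y, hy, hxy⟩ := hG.nc
      have h2 : x * y - y * x ∈ Submodule.span ℂ
          {z : 𝓑 | ∃ x ∈ G, ∃ y ∈ G, z = x * y - y * x} :=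
        Submodule.subset_span ⟨x, hx, y, hy, rfl⟩
      rw [h0, Submodule.mem_bot] at h2
      exact hxy (sub_eq_zero.1 h2)
  intro z hz
  rw [← h1] at hz
  refine Submodule.span_le.2 ?_ hz
  rintro _ ⟨x, hx, y, hy, rfl⟩
  exact h x hx y hy

/-- the centre of a simple algebra is zero -/
theorem Smp.cent (hG : Smp G) (z : 𝓑) (hz : z ∈ G) (h : ∀ x ∈ G, x * z = z * x) : z = 0 := by
  by_contra h0
  have h1 : Submodule.span ℂ {z : 𝓑 | z ∈ G ∧ ∀ x ∈ G, x * z = z * x} = G := by
    refine hG.id _ ?_ ?_ ?_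
    · rw [Submodule.span_le]
      rintro y ⟨hy, -⟩
      exact hy
    · intro x hx y hy
      have h2 : x * y = y * x := by
        induction hy using Submodule.span_induction with
        | mem y hy => exact hy.2 x hx
        | zero => rw [mul_zero, zero_mul]
        | add a b _ _ ha hb => rw [mul_add, add_mul, ha, hb]
        | smul r a _ ha => rw [mul_smul_comm, smul_mul_assoc, ha]
      rw [h2, sub_self]
      exact Submodule.zero_mem _
    · intro h2
      have h3 : z ∈ Submodule.span ℂ {z : 𝓑 | z ∈ G ∧ ∀ x ∈ G, x * z = z * x} :=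
        Submodule.subset_span ⟨hz, h⟩
      rw [h2, Submodule.mem_bot] at h3
      exact h0 h3
  obtain ⟨x, hx, y, hy, hxy⟩ := hG.nc
  apply hxy
  have hy' := hy
  rw [← h1] at hy'
  clear hxy hy
  induction hy' using Submodule.span_induction with
  | mem y hy => exact hy.2 x hx
  | zero => rw [mul_zero, zero_mul]
  | add a b _ _ ha hb => rw [mul_add, add_mul, ha, hb]
  | smul r a _ ha => rw [mul_smul_comm, smul_mul_assoc, ha]

end

/-- [SPZ] -/
theorem thm_Spz : St_Spz := by
  classical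
  intro 𝓐 _ _ Q _ 𝓑 _ _ c G hG W V hVW hWW hWV hbr hWG hVG
  have key : ∀ T : Finset Q, ∀ X ∈ W, ∃ Y ∈ V, ∀ q ∈ T, c q Y = c q X := by
    intro T
    induction T using Finset.induction_on with
    | empty => exact fun X _ => ⟨0, V.zero_mem, fun q hq => absurd hq (Finset.notMem_empty q)⟩
    | insert q₀ T hq₀ ih =>
      intro X hX
      obtain ⟨Y, hY, hYT⟩ := ih X hX
      let VT : Submodule ℂ 𝓐 :=
        { carrier := {X | X ∈ W ∧ ∀ q ∈ T, c q X = 0}
          add_mem' := by
            rintro A B ⟨hA, hA'⟩ ⟨hB, hB'⟩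
            exact ⟨W.add_mem hA hB, fun q hq => by rw [map_add, hA' q hq, hB' q hq, add_zero]⟩
          zero_mem' := ⟨W.zero_mem, fun q _ => map_zero _⟩
          smul_mem' := by
            rintro r A ⟨hA, hA'⟩
            exact ⟨W.smul_mem r hA, fun q hq => by rw [map_smul, hA' q hq, smul_zero]⟩ }
      have hVT : ∀ A, A ∈ VT ↔ A ∈ W ∧ ∀ q ∈ T, c q A = 0 := fun _ => Iff.rfl
      have hXY : X - Y ∈ VT := ⟨W.sub_mem hX (hVW hY), fun q hq => by
        rw [map_sub, hYT q hq, sub_self]⟩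
      by_cases h0 : VT.map (c q₀) = ⊥
      · refine ⟨Y, hY, fun q hq => ?_⟩
        rcases Finset.mem_insert.1 hq with rfl | hq
        · have h1 : c q (X - Y) ∈ VT.map (c q) := ⟨_, hXY, rfl⟩
          rw [h0, Submodule.mem_bot, map_sub] at h1
          exact (sub_eq_zero.1 h1).symm
        · exact hYT q hq
      · have h1 : VT.map (c q₀) = G q₀ := by
          refine (hG q₀).id _ ?_ ?_ h0
          · rintro _ ⟨A, hA, rfl⟩
            exact hWG A hA.1 q₀
          · rintro x hx _ ⟨A, hA, rfl⟩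
            obtain ⟨B, hB, rfl⟩ := hVG q₀ x hx
            refine ⟨B * A - A * B, ⟨hWW B (hVW hB) A hA.1, fun q hq => ?_⟩,
              hbr B (hVW hB) A hA.1 q₀⟩
            rw [hbr B (hVW hB) A hA.1 q, hA.2 q hq, mul_zero, zero_mul, sub_zero]
        have h2 : G q₀ ≤ (VT ⊓ V).map (c q₀) := by
          refine (hG q₀).perf _ ?_
          intro x hx y hy
          rw [← h1] at hx
          obtain ⟨A, hA, rfl⟩ := hx
          obtain ⟨B, hB, rfl⟩ := hVG q₀ y hy
          refine ⟨A * B - B * A, ⟨⟨hWW A hA.1 B (hVW hB), fun q hq => ?_⟩, hWV A hA.1 B hB⟩,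
            hbr A hA.1 B (hVW hB) q₀⟩
          rw [hbr A hA.1 B (hVW hB) q, hA.2 q hq, mul_zero, zero_mul, sub_zero]
        obtain ⟨Y', hY', hY'q⟩ := h2 (hWG (X - Y) hXY.1 q₀)
        refine ⟨Y + Y', V.add_mem hY hY'.2, fun q hq => ?_⟩
        rcases Finset.mem_insert.1 hq with rfl | hq
        · rw [map_add, hY'q, map_sub, add_sub_cancel]
        · rw [map_add, hY'.1.2 q hq, add_zero, hYT q hq]
  intro X hX
  obtain ⟨Y, hY, h⟩ := key Finset.univ X hX
  exact ⟨Y, hY, fun q => h q (Finset.mem_univ q)⟩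

/-- [SPY] -/
theorem thm_Spy (hSpz : St_Spz) : St_Spy := by
  classical
  intro 𝓐 _ _ Q _ 𝓑 _ _ c G hG W hWW hbr hWG hWon S _ N hNW hNid hNz X hX
  -- the intersection maps onto `G q`
  have key : ∀ T : Finset S, ∀ q, ∀ Z ∈ G q, ∃ X ∈ W, (∀ s ∈ T, X ∈ N s) ∧ c q X = Z := by
    intro T
    induction T using Finset.induction_on with
    | empty =>
      intro q Z hZ
      obtain ⟨X, hX, h⟩ := hWon q Z hZ
      exact ⟨X, hX, fun s hs => absurd hs (Finset.notMem_empty s), h⟩
    | insert s T hs ih =>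
      intro q Z hZ
      have h1 : (N s).map (c q) = G q := by
        refine (hG q).id _ ?_ ?_ ?_
        · rintro _ ⟨A, hA, rfl⟩
          exact hWG A (hNW s hA) q
        · rintro x hx _ ⟨A, hA, rfl⟩
          obtain ⟨B, hB, rfl⟩ := hWon q x hx
          exact ⟨B * A - A * B, hNid s B hB A hA, hbr B hB A (hNW s hA) q⟩
        · intro h0
          obtain ⟨Y, hY, hY0⟩ := hNz q s
          apply hY0
          have h2 : c q Y ∈ (N s).map (c q) := ⟨Y, hY, rfl⟩
          rwa [h0, Submodule.mem_bot] at h2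
      let VT : Submodule ℂ 𝓐 :=
        { carrier := {X | X ∈ W ∧ ∀ s' ∈ insert s T, X ∈ N s'}
          add_mem' := by
            rintro A B ⟨hA, hA'⟩ ⟨hB, hB'⟩
            exact ⟨W.add_mem hA hB, fun q hq => (N q).add_mem (hA' q hq) (hB' q hq)⟩
          zero_mem' := ⟨W.zero_mem, fun q _ => (N q).zero_mem⟩
          smul_mem' := by
            rintro r A ⟨hA, hA'⟩
            exact ⟨W.smul_mem r hA, fun q hq => (N q).smul_mem r (hA' q hq)⟩ }
      have h2 : G q ≤ VT.map (c q) := by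
        refine (hG q).perf _ ?_
        intro x hx y hy
        rw [← h1] at hx
        obtain ⟨A, hA, rfl⟩ := hx
        obtain ⟨B, hB, hBT, rfl⟩ := ih q y hy
        refine ⟨A * B - B * A, ⟨hWW A (hNW s hA) B hB, fun s' hs' => ?_⟩,
          hbr A (hNW s hA) B hB q⟩
        rcases Finset.mem_insert.1 hs' with rfl | hs'
        · rw [← neg_sub]
          exact (N s').neg_mem (hNid s' B hB A hA)
        · exact hNid s' A (hNW s hA) B (hBT s' hs')
      obtain ⟨A, hA, hAZ⟩ := h2 hZ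
      exact ⟨A, hA.1, hA.2, hAZ⟩
  have hV1 : ∀ Y ∈ Submodule.span ℂ {Z : 𝓐 | ∃ A B : 𝓐, (∀ s, A ∈ N s) ∧ (∀ s, B ∈ N s) ∧
      A ∈ W ∧ B ∈ W ∧ Z = A * B - B * A}, Y ∈ W := by
    intro Y hY
    refine Submodule.span_le.2 ?_ hY
    rintro _ ⟨A, B, -, -, hA, hB, rfl⟩
    exact hWW A hA B hB
  refine hSpz 𝓐 Q 𝓑 c G hG W _ hV1 hWW ?_ hbr hWG ?_ X hX
  · intro X hX Y hY
    induction hY using Submodule.span_induction with
    | mem Y hY =>
      obtain ⟨A, B, hAN, hBN, hA, hB, rfl⟩ := hY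
      have e : X * (A * B - B * A) - (A * B - B * A) * X =
          ((X * A - A * X) * B - B * (X * A - A * X)) +
            (A * (X * B - B * X) - (X * B - B * X) * A) := by noncomm_ring
      rw [e]
      refine Submodule.add_mem _ (Submodule.subset_span ?_) (Submodule.subset_span ?_)
      · exact ⟨X * A - A * X, B, fun s => hNid s X hX A (hAN s), hBN, hWW X hX A hA, hB, rfl⟩
      · exact ⟨A, X * B - B * X, hAN, fun s => hNid s X hX B (hBN s), hA, hWW X hX B hB, rfl⟩
    | zero =>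
      rw [mul_zero, zero_mul, sub_zero]
      exact Submodule.zero_mem _
    | add a b _ _ ha hb =>
      have e : X * (a + b) - (a + b) * X = (X * a - a * X) + (X * b - b * X) := by noncomm_ring
      rw [e]
      exact Submodule.add_mem _ ha hb
    | smul r a _ ha =>
      have e : X * (r • a) - (r • a) * X = r • (X * a - a * X) := by
        rw [mul_smul_comm, smul_mul_assoc, smul_sub]
      rw [e]
      exact Submodule.smul_mem _ r ha
  · intro q Z hZ
    have h2 : G q ≤ (Submodule.span ℂ {Z : 𝓐 | ∃ A B : 𝓐, (∀ s, A ∈ N s) ∧ (∀ s, B ∈ N s) ∧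
        A ∈ W ∧ B ∈ W ∧ Z = A * B - B * A}).map (c q) := by
      refine (hG q).perf _ ?_
      intro x hx y hy
      obtain ⟨A, hA, hAN, rfl⟩ := key Finset.univ q x hx
      obtain ⟨B, hB, hBN, rfl⟩ := key Finset.univ q y hy
      exact ⟨A * B - B * A, Submodule.subset_span ⟨A, B, fun s => hAN s (Finset.mem_univ s),
        fun s => hBN s (Finset.mem_univ s), hA, hB, rfl⟩, hbr A hA B hB q⟩
    obtain ⟨Y, hY, hYZ⟩ := h2 hZ
    exact ⟨Y, hY, hYZ⟩

end Pool.Agent.KTW
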