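import Pool.Agent.KTW.StV
import Pool.Agent.KTW.Spz
import Pool.Agent.KTW.Abs

/-!
# KTW [Aby]: for every symmetry there is one with the same part of trace zero on the `A_(e i)`, `i` in
`T₀`, and zero on all other abelian varieties
-/

set_option autoImplicit false
set_option linter.unusedSectionVars false

namespace Pool.Agent.KTW

open Module Matrix NumberField Pool.Agent.Helper7 Pool.Agent.KS Pool.Agent.Ball Pool.Agent.KSE
  Pool.Agent.Helper28.GPC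

section ring

variable {R : Type} [Ring R]

theorem Aby_add (X a b : R) : X * (a + b) - (a + b) * X = (X * a - a * X) + (X * b - b * X) := by
  noncomm_ring

theorem Aby_br (X A B : R) : X * (A * B - B * A) - (A * B - B * A) * X =
    ((X * A - A * X) * B - B * (X * A - A * X)) +
      (A * (X * B - B * X) - (X * B - B * X) * A) := by
  noncomm_ring

end ring

section pieces

variable {m : ℕ}

/-- the part of trace zero, as a linear map -/
noncomputable def trzL (m : ℕ) : Matrix (Fin m) (Fin m) ℂ →ₗ[ℂ] Matrix (Fin m) (Fin m) ℂ where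
  toFun Z := trz Z
  map_add' Z Z' := by
    unfold trz
    rw [Matrix.trace_add, add_div, add_smul]
    abel
  map_smul' r Z := by
    unfold trz
    rw [Matrix.trace_smul, smul_eq_mul, mul_div_assoc, mul_smul, RingHom.id_apply, smul_sub]

theorem trzL_apply (Z : Matrix (Fin m) (Fin m) ℂ) : trzL m Z = trz Z := rfl

theorem trz_of {Z : Matrix (Fin m) (Fin m) ℂ} (h : Z.trace = 0) : trz Z = Z := by
  unfold trz
  rw [h, zero_div, zero_smul, sub_zero]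

theorem trz_trace (hm : 0 < m) (Z : Matrix (Fin m) (Fin m) ℂ) : (trz Z).trace = 0 := by
  have hm0 : (m : ℂ) ≠ 0 := by exact_mod_cast hm.ne'
  unfold trz
  rw [Matrix.trace_sub, Matrix.trace_smul, Matrix.trace_one, Fintype.card_fin, smul_eq_mul,
    div_mul_cancel₀ _ hm0, sub_self]

theorem trace_br (Z Z' : Matrix (Fin m) (Fin m) ℂ) : (Z * Z' - Z' * Z).trace = 0 := by
  rw [Matrix.trace_sub, Matrix.trace_mul_comm, sub_self]

theorem trz_br (Z Z' : Matrix (Fin m) (Fin m) ℂ) :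
    trz (Z * Z' - Z' * Z) = trz Z * trz Z' - trz Z' * trz Z := by
  rw [trz_of (trace_br Z Z')]
  unfold trz
  rw [sub_mul, sub_mul, mul_sub, mul_sub, mul_sub, mul_sub, smul_mul_assoc, smul_mul_assoc,
    smul_mul_assoc, smul_mul_assoc, mul_smul_comm, mul_smul_comm, mul_smul_comm, mul_smul_comm,
    one_mul, one_mul, mul_one, mul_one, one_mul, smul_smul, smul_smul,
    mul_comm (Z.trace / m) (Z'.trace / m)]
  abel

/-- skew matrices have trace zero -/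
theorem trace_SO {H : Matrix (Fin m) (Fin m) ℂ} (hdet : IsUnit H.det)
    {Z : Matrix (Fin m) (Fin m) ℂ} (hZ : Z ∈ SO H) : Z.trace = 0 := by
  have h1 : Zᵀ * H + H * Z = 0 := hZ
  have h2 : Z = -(H⁻¹ * Zᵀ * H) := by
    have h3 : H⁻¹ * (Zᵀ * H + H * Z) = 0 := by rw [h1, mul_zero]
    rw [mul_add, ← mul_assoc, ← mul_assoc, Matrix.nonsing_inv_mul _ hdet, one_mul] at h3
    rw [eq_neg_iff_add_eq_zero, add_comm]
    exact h3
  have h3 : (H⁻¹ * Zᵀ * H).trace = Z.trace := by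
    rw [Matrix.trace_mul_comm, ← mul_assoc, Matrix.mul_nonsing_inv _ hdet, one_mul,
      Matrix.trace_transpose]
  have h4 : Z.trace = -Z.trace := by
    conv_lhs => rw [h2, Matrix.trace_neg, h3]
  have h5 : (2 : ℂ) * Z.trace = 0 := by linear_combination h4
  rcases mul_eq_zero.1 h5 with h6 | h6
  · norm_num at h6
  · exact h6

/-- the simple pieces at a place -/
theorem exists_pieces (hSso : St_Sso) (hSsl : St_Ssl) (hSsh : St_Ssh) {K : Type} [Field K]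
    [NumberField K] (h : Matrix (Fin m) (Fin m) K) (σ₀ σ : K →+* ℂ)
    (ht : RePl h σ₀ ∨ CoPl h σ₀) (hsym : cj σ = σ → (h.map σ)ᵀ = h.map σ)
    (hdet : IsUnit (h.map σ).det) :
    ∃ (p : Bool → (Matrix (Fin m) (Fin m) ℂ →ₗ[ℂ] Matrix (Fin m) (Fin m) ℂ))
      (G : Bool → Submodule ℂ (Matrix (Fin m) (Fin m) ℂ)), (∀ b, Smp (G b)) ∧
      (∀ b Z, (cj σ = σ → Z ∈ SO (h.map σ)) → p b Z ∈ G b) ∧
      (∀ b Z Z', (cj σ = σ → Z ∈ SO (h.map σ)) → (cj σ = σ → Z' ∈ SO (h.map σ)) →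
        p b (Z * Z' - Z' * Z) = p b Z * p b Z' - p b Z' * p b Z) ∧
      (∀ b, ∀ Z ∈ G b, ∃ Z' ∈ Lg h σ, p b Z' = Z) ∧
      (∀ Z Z', (cj σ = σ → Z ∈ SO (h.map σ)) → (cj σ = σ → Z' ∈ SO (h.map σ)) → Z'.trace = 0 →
        (∀ b, p b Z' = p b Z) → Z' = trz Z) := by
  rcases ht with ⟨hre, -, -, hm3, hm5, -⟩ | ⟨hco, -, -, hm0, hme⟩
  · have hσ : cj σ = σ := hre σ
    have hLg : Lg h σ = SO (h.map σ) := by
      unfold Lg
      rw [if_pos hσ]
    by_cases hm4 : m = 4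
    · subst hm4
      obtain ⟨p, hp1, hp2, hp3, -⟩ := hSsh (h.map σ) (hsym hσ) hdet
      refine ⟨p, fun b => (SO (h.map σ)).map (p b), fun b => (hp1 b).1, fun b Z hZ => ?_,
        fun b Z Z' hZ hZ' => hp2 b Z (hZ hσ) Z' (hZ' hσ), fun b Z hZ => ?_,
        fun Z Z' hZ hZ' _ hb => ?_⟩
      · exact ⟨Z, hZ hσ, rfl⟩
      · obtain ⟨Z', hZ', rfl⟩ := hZ
        exact ⟨Z', hLg ▸ hZ', rfl⟩
      · rw [trz_of (trace_SO hdet (hZ hσ)), ← hp3 Z (hZ hσ), ← hp3 Z' (hZ' hσ), hb, hb]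
    · obtain ⟨h1, -⟩ := hSso m (h.map σ) (hsym hσ) hdet hm3 hm4
      refine ⟨fun _ => LinearMap.id, fun _ => SO (h.map σ), fun _ => h1, fun b Z hZ => hZ hσ,
        fun b Z Z' _ _ => rfl, fun b Z hZ => ⟨Z, hLg ▸ hZ, rfl⟩, fun Z Z' hZ _ _ hb => ?_⟩
      rw [trz_of (trace_SO hdet (hZ hσ))]
      exact hb true
  · have hσ : cj σ ≠ σ := hco σ
    have hLg : Lg h σ = SL m := by
      unfold Lg
      rw [if_neg hσ]
    have hm2 : 2 ≤ m := by
      obtain ⟨r, hr⟩ := hme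
      omega
    refine ⟨fun _ => trzL m, fun _ => SL m, fun _ => (hSsl m hm2).1, fun b Z _ => trz_trace hm0 Z,
      fun b Z Z' _ _ => trz_br Z Z', fun b Z hZ => ⟨Z, hLg ▸ hZ, trz_of hZ⟩,
      fun Z Z' _ _ h0 hb => ?_⟩
    have h1 : trz Z' = trz Z := hb true
    rw [← h1, trz_of h0]

end pieces

/-- [ABY] -/
theorem thm_Aby (hPrj : St_Prj) (hSpz : St_Spz) (hSso : St_Sso) (hSsl : St_Ssl)
    (hSsh : St_Ssh) : St_Aby := by
  classical
  intro I J _ _ _ _ ε n κ _ _ ϖ P K _ _ c m h t k γ σ₀ T₀ H X₀ M₀ hX₀ hX₀2 hX₀M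
  have hne : ∀ i, Nonempty (κ (ε i)) := H.ne
  have hsym : ∀ i (σ : K i →+* ℂ), cj σ = σ → ((h i).map σ)ᵀ = (h i).map σ := by
    intro i σ hσ
    ext a b
    rw [Matrix.transpose_apply, Matrix.map_apply, Matrix.map_apply, ← (H.S i).herm a b,
      ← (H.S i).conj, hσ]
  have hdet : ∀ i (σ : K i →+* ℂ), IsUnit ((h i).map σ).det := by
    intro i σ
    have h1 : ((h i).map σ).det = σ (h i).det := by
      rw [RingHom.map_det, RingHom.mapMatrix_apply]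
    rw [h1]
    exact IsUnit.mk0 _ ((map_ne_zero σ).2 (H.S i).nd)
  have hskew : ∀ i (Z : Module.End ℂ (κ (ε i) → ℂ))
      (M : (K i →+* ℂ) → Matrix (Fin (m i)) (Fin (m i)) ℂ), ActM (t i) Z M →
      ∀ σ : K i →+* ℂ, cj σ = σ → M σ ∈ SO ((h i).map σ) := by
    intro i Z M hM σ hσ
    have := hne i
    show (M σ)ᵀ * (h i).map σ + (h i).map σ * M σ = 0
    have h1 : Pool.Agent.KSR.SkP (h i) σ (M σ) := by
      rw [Pool.Agent.KSR.skP_iff]
      intro x y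
      have h1 := ActM.skew (H.S i).conj (H.S i).cliff hM σ x y
      rw [hσ] at h1
      exact h1
    exact h1
  -- the pieces
  have hpc := fun (i : {i // T₀ i}) (σ : K i.1 →+* ℂ) => exists_pieces hSso hSsl hSsh (h i.1)
    (σ₀ i.1) σ ((H.typ i.1).imp (fun h => h.2) id) (hsym i.1 σ) (hdet i.1 σ)
  choose p G hG hpG hpb hpo hpu using hpc
  let 𝓐 : Type := GG κ × (∀ i, (K i →+* ℂ) → Matrix (Fin (m i)) (Fin (m i)) ℂ)
  let W : Submodule ℂ 𝓐 :=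
    { carrier := {X | IsInv n P γ X.1 ∧ X.1.2 = 0 ∧ ∀ i, ActM (t i) (X.1.1 (ε i)) (X.2 i)}
      add_mem' := by
        rintro X Y ⟨h1, h2, h3⟩ ⟨h1', h2', h3'⟩
        refine ⟨h1.add _ _ _ h1', ?_, fun i => (h3 i).add (h3' i)⟩
        show X.1.2 + Y.1.2 = 0
        rw [h2, h2', add_zero]
      zero_mem' := ⟨IsInv.zero _ _ _, rfl, fun _ => ActM.zero⟩
      smul_mem' := by
        rintro r X ⟨h1, h2, h3⟩
        refine ⟨h1.smul _ _ _ r, ?_, fun i => (h3 i).smul r⟩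
        show r * X.1.2 = 0
        rw [h2, mul_zero] }
  have hWd : ∀ X : 𝓐, X ∈ W ↔ IsInv n P γ X.1 ∧ X.1.2 = 0 ∧
      ∀ i, ActM (t i) (X.1.1 (ε i)) (X.2 i) := fun _ => Iff.rfl
  have hWW : ∀ X ∈ W, ∀ Y ∈ W, X * Y - Y * X ∈ W := by
    rintro X ⟨h1, h2, h3⟩ Y ⟨h1', h2', h3'⟩
    refine ⟨h1.bracket _ _ _ h1', ?_, fun i => (h3 i).bracket (h3' i)⟩
    show X.1.2 * Y.1.2 - Y.1.2 * X.1.2 = 0
    rw [mul_comm, sub_self]
  let V : Submodule ℂ 𝓐 := Submodule.span ℂ {Z : 𝓐 | ∃ A B : 𝓐, A ∈ W ∧ B ∈ W ∧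
    (∀ j, (∀ i', T₀ i' → ε i' ≠ j) → A.1.1 j = 0) ∧
    (∀ j, (∀ i', T₀ i' → ε i' ≠ j) → B.1.1 j = 0) ∧ Z = A * B - B * A}
  have hVW : V ≤ W := by
    refine Submodule.span_le.2 ?_
    rintro _ ⟨A, B, hA, hB, -, -, rfl⟩
    exact hWW A hA B hB
  have hWV : ∀ X ∈ W, ∀ Y ∈ V, X * Y - Y * X ∈ V := by
    intro X hX Y hY
    induction hY using Submodule.span_induction with
    | mem Y hY =>
      obtain ⟨A, B, hA, hB, hAj, hBj, rfl⟩ := hY
      rw [Aby_br]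
      refine Submodule.add_mem _ (Submodule.subset_span ?_) (Submodule.subset_span ?_)
      · refine ⟨X * A - A * X, B, hWW X hX A hA, hB, fun j hj => ?_, hBj, rfl⟩
        show X.1.1 j * A.1.1 j - A.1.1 j * X.1.1 j = 0
        rw [hAj j hj, mul_zero, zero_mul, sub_zero]
      · refine ⟨A, X * B - B * X, hA, hWW X hX B hB, hAj, fun j hj => ?_, rfl⟩
        show X.1.1 j * B.1.1 j - B.1.1 j * X.1.1 j = 0
        rw [hBj j hj, mul_zero, zero_mul, sub_zero]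
    | zero =>
      rw [mul_zero, zero_mul, sub_zero]
      exact Submodule.zero_mem _
    | add a b _ _ ha hb =>
      rw [Aby_add]
      exact Submodule.add_mem _ ha hb
    | smul r a _ ha =>
      have e : X * (r • a) - (r • a) * X = r • (X * a - a * X) := by
        rw [mul_smul_comm, smul_mul_assoc, smul_sub]
      rw [e]
      exact Submodule.smul_mem _ r ha
  have hVt : ∀ Y ∈ V, (∀ j, (∀ i', T₀ i' → ε i' ≠ j) → Y.1.1 j = 0) ∧
      ∀ i σ, (Y.2 i σ).trace = 0 := by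
    intro Y hY
    induction hY using Submodule.span_induction with
    | mem Y hY =>
      obtain ⟨A, B, hA, hB, hAj, hBj, rfl⟩ := hY
      refine ⟨fun j hj => ?_, fun i σ => trace_br (A.2 i σ) (B.2 i σ)⟩
      show A.1.1 j * B.1.1 j - B.1.1 j * A.1.1 j = 0
      rw [hBj j hj, mul_zero, zero_mul, sub_zero]
    | zero => exact ⟨fun _ _ => rfl, fun i σ => Matrix.trace_zero _ _⟩
    | add a b _ _ ha hb =>
      refine ⟨fun j hj => ?_, fun i σ => ?_⟩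
      · show a.1.1 j + b.1.1 j = 0
        rw [ha.1 j hj, hb.1 j hj, add_zero]
      · show (a.2 i σ + b.2 i σ).trace = 0
        rw [Matrix.trace_add, ha.2, hb.2, add_zero]
    | smul r a _ ha =>
      refine ⟨fun j hj => ?_, fun i σ => ?_⟩
      · show r • a.1.1 j = 0
        rw [ha.1 j hj, smul_zero]
      · show (r • a.2 i σ).trace = 0
        rw [Matrix.trace_smul, ha.2, smul_zero]
  let Q : Type := Σ i : {i // T₀ i}, (K i.1 →+* ℂ) × Bool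
  let cc : ∀ q : Q, 𝓐 →ₗ[ℂ] Matrix (Fin (m q.1.1)) (Fin (m q.1.1)) ℂ := fun q =>
    (p q.1 q.2.1 q.2.2).comp
      ((LinearMap.proj q.2.1).comp ((LinearMap.proj q.1.1).comp (LinearMap.snd ℂ (GG κ)
        (∀ i, (K i →+* ℂ) → Matrix (Fin (m i)) (Fin (m i)) ℂ))))
  have hcc : ∀ (q : Q) (X : 𝓐), cc q X = p q.1 q.2.1 q.2.2 (X.2 q.1.1 q.2.1) := fun _ _ => rfl
  have hWs : ∀ X ∈ W, ∀ i (σ : K i →+* ℂ), cj σ = σ → X.2 i σ ∈ SO ((h i).map σ) :=
    fun X hX i σ hσ => hskew i _ _ (hX.2.2 i) σ hσ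
  have hbr : ∀ X ∈ W, ∀ Y ∈ W, ∀ q, cc q (X * Y - Y * X) = cc q X * cc q Y - cc q Y * cc q X :=
    fun X hX Y hY q => hpb q.1 q.2.1 q.2.2 _ _ (hWs X hX q.1.1 q.2.1) (hWs Y hY q.1.1 q.2.1)
  obtain ⟨Y, hY, hYq⟩ := hSpz 𝓐 Q _ cc (fun q => G q.1 q.2.1 q.2.2)
    (fun q => hG q.1 q.2.1 q.2.2) W V hVW hWW hWV hbr
    (fun X hX q => hpG q.1 q.2.1 q.2.2 _ (hWs X hX q.1.1 q.2.1))
    (by
      intro q Z hZ
      have h2 : G q.1 q.2.1 q.2.2 ≤ V.map (cc q) := by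
        refine (hG q.1 q.2.1 q.2.2).perf _ ?_
        intro x hx y hy
        obtain ⟨x', hx', rfl⟩ := hpo q.1 q.2.1 q.2.2 x hx
        obtain ⟨y', hy', rfl⟩ := hpo q.1 q.2.1 q.2.2 y hy
        obtain ⟨A, M, hA, hA2, hAM, hAj, hAx⟩ := hPrj I J ε n κ ϖ P K c m h t k γ σ₀ T₀ H q.1.1
          q.1.2 q.2.1 x' hx'
        obtain ⟨B, N, hB, hB2, hBM, hBj, hBx⟩ := hPrj I J ε n κ ϖ P K c m h t k γ σ₀ T₀ H q.1.1
          q.1.2 q.2.1 y' hy'
        have hAW : (A, M) ∈ W := ⟨hA, hA2, hAM⟩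
        have hBW : (B, N) ∈ W := ⟨hB, hB2, hBM⟩
        refine ⟨(A, M) * (B, N) - (B, N) * (A, M), Submodule.subset_span
          ⟨(A, M), (B, N), hAW, hBW, hAj, hBj, rfl⟩, ?_⟩
        rw [hbr _ hAW _ hBW, hcc, hcc, ← hAx, ← hBx]
      exact h2 hZ) (X₀, M₀) ⟨hX₀, hX₀2, hX₀M⟩
  obtain ⟨hY1, hY2, hY3⟩ := hVW hY
  obtain ⟨hYj, hYt⟩ := hVt Y hY
  refine ⟨Y.1, hY1, hY2, hYj, fun i hi => ?_⟩
  refine ⟨mem_bvE n P (ε i) (H.S i) γ Y.1 hY1 hY2 _ (hY3 i), ?_⟩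
  have e : (fun σ => trz (M₀ i σ)) = Y.2 i := by
    funext σ
    refine (hpu ⟨i, hi⟩ σ (M₀ i σ) (Y.2 i σ) (hskew i _ _ (hX₀M i) σ)
      (hskew i _ _ (hY3 i) σ) (hYt i σ) fun b => ?_).symm
    exact hYq ⟨⟨i, hi⟩, σ, b⟩
  rw [e]
  exact hY3 i

end Pool.Agent.KTW
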