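import Pool.Agent.KTW.StZ
import Pool.Agent.KSV.All

/-!
# KTW [Dgm]: the diagonal operator is a symmetry
-/

set_option autoImplicit false

namespace Pool.Agent.KTW

open Module Matrix NumberField Pool.Agent.Helper7 Pool.Agent.KS Pool.Agent.Ball Pool.Agent.KSE
  Pool.Agent.Helper28.GPC Pool.Agent.KSR Pool.Agent.KSV

theorem thm_Dgm (hLnk : St_Lnk) (hFth : St_Fth) (hRps : St_Rps) : St_Dgm := by
  intro I _ _ n κ _ _ ϖ P K _ _ c m h t k γ σ₀ H Z N hZ hZN hN hN0 hinj hcomm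
  have hsy : ∀ i, (CoreR.GR (h i) (σ₀ i))ᵀ = CoreR.GR (h i) (σ₀ i) := fun i =>
    CoreR.GR_tr (H.S i).conj (H.S i).herm (H.real i (σ₀ i))
  have hm3 : ∀ i, 3 ≤ m i := fun i => by have := H.m3 i; omega
  let R : Submodule ℂ (∀ i, Module.End ℂ (Fin (m i) → ℂ)) :=
    { carrier := {X | ∃ M ∈ RR0 n P h t γ σ₀, X = fun i => Matrix.toLin' (M ⟨i, σ₀ i⟩)}
      add_mem' := by
        rintro _ _ ⟨M, hM, rfl⟩ ⟨M', hM', rfl⟩
        refine ⟨M + M', ⟨Submodule.add_mem _ hM.1 hM'.1, fun p hp => ?_⟩, ?_⟩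
        · rw [Pi.add_apply, hM.2 p hp, hM'.2 p hp, add_zero]
        · funext i
          rw [Pi.add_apply, Pi.add_apply, map_add]
      zero_mem' := by
        refine ⟨0, ⟨Submodule.zero_mem _, fun p _ => rfl⟩, ?_⟩
        funext i
        rw [Pi.zero_apply, Pi.zero_apply, map_zero]
      smul_mem' := by
        rintro r _ ⟨M, hM, rfl⟩
        refine ⟨r • M, ⟨Submodule.smul_mem _ r hM.1, fun p hp => ?_⟩, ?_⟩
        · rw [Pi.smul_apply, hM.2 p hp, smul_zero]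
        · funext i
          rw [Pi.smul_apply, Pi.smul_apply, map_smul] }
  have hR : ∀ X, X ∈ R ↔ ∃ M ∈ RR0 n P h t γ σ₀, X = fun i => Matrix.toLin' (M ⟨i, σ₀ i⟩) :=
    fun _ => Iff.rfl
  have hmain := hRps I m H.m3 (fun i => bil (CoreR.GR (h i) (σ₀ i)))
    (fun i => bil_symm (hsy i)) (fun i => bil_nd (H.real i (σ₀ i)) (H.S i).nd) R
    (by
      rintro _ ⟨M, hM, rfl⟩ _ ⟨M', hM', rfl⟩
      refine ⟨M * M' - M' * M, ⟨RRE_bracket hM.1 hM'.1, fun p hp => ?_⟩, ?_⟩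
      · show M p * M' p - M' p * M p = 0
        rw [hM.2 p hp, hM'.2 p hp, Matrix.mul_zero, sub_zero]
      · funext i
        show Matrix.toLin' (M ⟨i, σ₀ i⟩) * Matrix.toLin' (M' ⟨i, σ₀ i⟩) -
          Matrix.toLin' (M' ⟨i, σ₀ i⟩) * Matrix.toLin' (M ⟨i, σ₀ i⟩) =
          Matrix.toLin' (M ⟨i, σ₀ i⟩ * M' ⟨i, σ₀ i⟩ - M' ⟨i, σ₀ i⟩ * M ⟨i, σ₀ i⟩)
        rw [map_sub, Matrix.toLin'_mul, Matrix.toLin'_mul]
        rfl)
    (by
      rintro _ ⟨M, hM, rfl⟩ i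
      exact skw_of_skP (H.real i (σ₀ i)) (hM.1.1 ⟨i, σ₀ i⟩))
    (by
      intro i A hA
      obtain ⟨M, hM, hMA, hM0⟩ := coreB n H.pi P H.S γ H.B H.A H.nd H.real σ₀ H.sig H.defi H.T
        H.Tg Hall5_ i (H.ne i) (hm3 i) (H.m5 i) _ (skP_of_skw (H.real i (σ₀ i)) hA)
      refine ⟨_, ⟨M, ⟨hM, hM0⟩, rfl⟩, ?_⟩
      show Matrix.toLin' (M ⟨i, σ₀ i⟩) = A
      rw [hMA, Matrix.toLin'_toMatrix'])
    (fun i => Matrix.toLin' (N i (σ₀ i)))
    (fun i => skw_of_skP (H.real i (σ₀ i)) (hN i (σ₀ i)))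
    (by
      rintro i j hij _ ⟨M, hM, rfl⟩ hMi
      by_cases h0 : i = j
      · subst h0
        exact hMi
      obtain ⟨f, hf, hf0⟩ := hLnk I n κ ϖ P K c m h t k γ σ₀ H i j h0 (by
        intro M' hM'
        have h1 := hij _ ⟨M', hM', rfl⟩
        rw [LinearEquiv.map_eq_zero_iff, LinearEquiv.map_eq_zero_iff] at h1
        exact h1)
      have h2 := hFth I n κ ϖ P K c m h t k γ σ₀ H Z N hZ hZN hN hN0 hinj i j f hf hf0
        (hcomm i j f hf) M hM (Matrix.toLin'.injective hMi)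
      show Matrix.toLin' (M ⟨j, σ₀ j⟩) = Matrix.toLin' (N j (σ₀ j))
      rw [h2])
  obtain ⟨M, ⟨⟨hM1, X, hX, hX2, hXM⟩, hM2⟩, hMN⟩ := hmain
  refine ⟨X, hX, hX2, ?_⟩
  funext i
  refine eq_of_act (H.S i).conj (H.S i).herm (H.S i).nd (H.S i).cliff
    (mem_bvE n P i (H.S i) γ X hX hX2 _ (hXM i)) (hZ i) (hXM i) ?_
  have e : (fun σ => M ⟨i, σ⟩) = N i := by
    funext σ
    by_cases hσ : σ = σ₀ i
    · subst hσ
      exact (Matrix.toLin'.injective (congrFun hMN i)).symm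
    · rw [hN0 i σ hσ]
      exact hM2 ⟨i, σ⟩ hσ
  rw [e]
  exact hZN i

end Pool.Agent.KTW
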