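import Pool.Agent.KTW.StN

/-!
# KTW [Dsp]: vectors with algebraic coordinates are algebraic combinations
-/

set_option autoImplicit false

namespace Pool.Agent.KTW

open Module Pool.Agent.Helper7

theorem thm_Dsp : St_Dsp := by
  classical
  intro V X _ _ _ O hO s hs hspan y hy
  -- a basis in `s`
  obtain ⟨b, hbs, hbspan, hbli⟩ := exists_linearIndependent ℂ s
  rw [hspan] at hbspan
  obtain ⟨B, hB⟩ : ∃ B : Basis b ℂ V, ∀ a, B a = (a : V) :=
    ⟨Basis.mk hbli (by rw [Subtype.range_coe, hbspan]), fun a => Basis.mk_apply _ _ a⟩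
  have : Finite b := Module.Finite.finite_basis B
  have : Fintype b := Fintype.ofFinite b
  have hsum : y = ∑ a, B.repr y a • B a := (B.sum_repr y).symm
  have halg : ∀ a, IsAlgebraic ℚ (B.repr y a) := by
    intro a
    refine isAlgebraic_of_derivation _ fun D => ?_
    have h1 : O (∑ a, D (B.repr y a) • B a) = 0 := by
      funext x
      have h2 : O y x = ∑ a, B.repr y a * O (B a) x := by
        conv_lhs => rw [hsum]
        rw [map_sum, Finset.sum_apply]
        refine Finset.sum_congr rfl fun a _ => ?_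
        rw [map_smul, Pi.smul_apply, smul_eq_mul]
      have h3 : D (O y x) = 0 := derivation_eq_zero D _ (hy x)
      rw [h2, map_sum] at h3
      rw [map_sum, Finset.sum_apply, Pi.zero_apply, ← h3]
      refine Finset.sum_congr rfl fun a _ => ?_
      have h4 : D (O (B a) x) = 0 := derivation_eq_zero D _ (hs _ (hbs (by rw [hB]; exact a.2)) x)
      rw [map_smul, Pi.smul_apply, Derivation.leibniz, h4, smul_zero, zero_add, smul_eq_mul,
        smul_eq_mul, mul_comm]
    have h5 : ∑ a, D (B.repr y a) • B a = 0 := hO (by rw [h1, map_zero])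
    have h6 := congrArg (fun z => B.repr z a) h5
    simpa [map_sum, Finsupp.single_apply] using h6
  obtain ⟨N, ⟨e⟩⟩ : ∃ N : ℕ, Nonempty (Fin N ≃ b) := ⟨_, ⟨(Fintype.equivFin b).symm⟩⟩
  refine ⟨N, fun a => B.repr y (e a), fun a => B (e a), fun a => halg _, fun a => ?_, ?_⟩
  · show B (e a) ∈ s
    rw [hB]
    exact hbs (e a).2
  · rw [Equiv.sum_comp e (fun a => B.repr y a • B a)]
    exact hsum

end Pool.Agent.KTW
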