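import Pool.Agent.KTW.StZ
import Pool.Agent.KTP.Htf

/-!
# KTW [Htz]: forms in the variables `T_i` and `H_1(A_i)` are Hodge classes
-/

set_option autoImplicit false

namespace Pool.Agent.KTW

open Module Matrix NumberField Pool.Agent.Helper7 Pool.Agent.KS Pool.Agent.Ball Pool.Agent.KSE
  Pool.Agent.Helper28.GPC Pool.Agent.KSR Pool.Agent.K3P Pool.Agent.KTP
open Pool.Agent.GPC (AbVar TC IsRatT HX HU Form IsBetti IsDeRham H1)

theorem thm_Htz (hKlz : St_Klz) (hMxz : St_Mxz) (hHod : St_Hod) (hHty : St_Hty) : St_Htz := by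
  intro I _ _ A K _ _ c m S hg hAdm hI n k p F hQ hA a b v w hab hv hw
  have hκ : ∀ i, Nonempty (Fin (A i).g ⊕ Fin (A i).g) :=
    fun i => ⟨Sum.inl ⟨0, Nat.pos_of_ne_zero (hg i)⟩⟩
  have hϖ := Complex.two_pi_I_ne_zero
  have hnd : ∀ i, (S i).h.det ≠ 0 := by
    intro i
    obtain ⟨σ₀, x, hx, -, -⟩ := (S i).hodge
    exact k3_nd (S i).conjugation (S i).hermitian hx
  have MM := fun i => mde (A i) (S i) (hnd i)
  choose Z hZ M hM hMs hZh hM3 hFil using fun i => hHod (A i) (K i) (c i) (m i) (S i) (hg i)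
  have hZe : ∀ i, Z i = (1 / 2 : ℂ) • 1 - hod (A i) := by
    intro i
    apply LinearMap.ext
    intro u
    have h1 : -(hod (A i) u) = (-(1 / 2 : ℂ)) • u + Z i u := LinearMap.congr_fun (hZh i) u
    show Z i u = (1 / 2 : ℂ) • u - hod (A i) u
    have h2 : (1 / 2 : ℂ) • u + (-(1 / 2 : ℂ)) • u = 0 := by
      rw [← add_smul, add_neg_cancel, zero_smul]
    rw [sub_eq_add_neg, h1, ← add_assoc, h2, zero_add]
  have hinv := hMxz I (fun i => Fin (A i).g ⊕ Fin (A i).g) _ (fun i => pData (A i)) K c m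
    (fun i => (S i).h) (fun i => lt (A i) (S i)) hϖ MM (fun i => (1 / 2 : ℂ) • 1 - hod (A i)) M
    (fun i => by rw [← hZe]; exact hM i) hMs k (hKlz A S hg hAdm hI _) n p
    ((Htf_m (HW (fun i => Fin (A i).g ⊕ Fin (A i).g) k) (2 * p)).compMultilinearMap F)
    (fun y w hw => hQ y w fun s i l => (mem_pData_Q _ _).mp (hw s i l))
    (fun v w hv hw => hA v w hv fun s i l => hw s i l)
  refine hHty (TF K m) (HW (fun i => Fin (A i).g ⊕ Fin (A i).g) k) n p (Htf_D M)
    (lift k fun i => - hod (A i)) ?_ ?_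
    ((Htf_m (HW (fun i => Fin (A i).g ⊕ Fin (A i).g) k) (2 * p)).compMultilinearMap F) ?_ a b v w
    hab ?_ ?_
  · intro y
    funext i
    exact hM3 i (y i)
  · intro w
    funext i l
    show -(hod (A i) (-(hod (A i) (w i l)))) = - (-(hod (A i) (w i l)))
    rw [map_neg, hod_idem]
  · intro v w
    obtain ⟨G, hGd⟩ : ∃ G, G = (Htf_m (HW (fun i => Fin (A i).g ⊕ Fin (A i).g) k)
      (2 * p)).compMultilinearMap F := ⟨_, rfl⟩
    rw [← hGd] at hinv ⊢
    have e2 : ∀ s, lift k (fun i => - hod (A i)) (w s) = (-(1 / 2 : ℂ)) • w s +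
        lift k (fun i => (1 / 2 : ℂ) • 1 - hod (A i)) (w s) := by
      intro s
      funext j l
      show -(hod (A j) (w s j l)) = (-(1 / 2 : ℂ)) • w s j l +
        ((1 / 2 : ℂ) • w s j l - hod (A j) (w s j l))
      rw [neg_smul]
      abel
    have e4 : ∀ s, G v (Function.update w s (lift k (fun i => - hod (A i)) (w s))) =
        (-(1 / 2 : ℂ)) * G v w + G v (Function.update w s
          (lift k (fun i => (1 / 2 : ℂ) • 1 - hod (A i)) (w s))) := by
      intro s
      rw [e2, MultilinearMap.map_update_add, MultilinearMap.map_update_smul,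
        Function.update_eq_self, smul_eq_mul]
    rw [Finset.sum_congr rfl fun s _ => e4 s, Finset.sum_add_distrib, Finset.sum_const,
      Finset.card_univ, Fintype.card_fin, nsmul_eq_mul]
    have e5 := hinv v w
    have e6 : (∑ s, G (Function.update v s (Htf_D M (v s))) w) =
        ∑ s, G (Function.update v s (fun i => Inv_op (M i) (v s i))) w := rfl
    rw [e6]
    push_cast
    linear_combination e5
  · intro s
    refine ⟨fun h => ?_, fun h => ?_, fun h => ?_⟩
    · funext i
      exact (hFil i (a s) (v s i) (hv s i)).1 h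
    · funext i
      exact (hFil i (a s) (v s i) (hv s i)).2.1 h
    · funext i
      exact (hFil i (a s) (v s i) (hv s i)).2.2 h
  · intro s
    refine ⟨fun h => ?_, fun h => ?_⟩
    · funext i l
      show -(hod (A i) (w s i l)) = 0
      rw [neg_eq_zero]
      exact (hod_fil (A i)).mp ((hw s i l).1 h)
    · funext i l
      exact (hw s i l).2 h

end Pool.Agent.KTW
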