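import Pool.Agent.KTW.StW

/-!
# KTW [Ivw]: invariance of the Grothendieck forms with values in the forms on other abelian
varieties
-/

set_option autoImplicit false

namespace Pool.Agent.KTW

open Module Matrix NumberField Pool.Agent.Helper7 Pool.Agent.KS Pool.Agent.Ball Pool.Agent.KSE
  Pool.Agent.Helper28.GPC Pool.Agent.KSR Pool.Agent.K3P Pool.Agent.KTP
open Pool.Agent.GPC (AbVar TC IsRatT qf df HU IsBasicU Form IsBetti IsDeRham IsGrothendieck H1)

section

variable {I J : Type} (A : I → AbVar) (C : J → AbVar) (l : J → ℕ) (q : ℕ)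

/-- the part in the `C_j` -/
noncomputable def Ivw_r : HW (fun j => Fin (Sum.elim A C j).g ⊕ Fin (Sum.elim A C j).g)
    (Sum.elim (fun _ : I => 0) l) →ₗ[ℂ] H1 C l where
  toFun w := fun j => w (Sum.inr j)
  map_add' _ _ := rfl
  map_smul' _ _ := rfl

/-- forms on `H_1(C)` as forms on a larger space -/
noncomputable def Ivw_m : Form C l q →ₗ[ℂ] MultilinearMap ℂ (fun _ : Fin q =>
    HW (fun j => Fin (Sum.elim A C j).g ⊕ Fin (Sum.elim A C j).g)
      (Sum.elim (fun _ : I => 0) l)) ℂ where
  toFun α := (α : MultilinearMap ℂ (fun _ : Fin q => H1 C l) ℂ).compLinearMap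
    fun _ => Ivw_r A C l
  map_add' _ _ := rfl
  map_smul' _ _ := rfl

lemma Ivw_m_apply (α : Form C l q) (w : Fin q →
    HW (fun j => Fin (Sum.elim A C j).g ⊕ Fin (Sum.elim A C j).g)
      (Sum.elim (fun _ : I => 0) l)) : Ivw_m A C l q α w = α fun s => Ivw_r A C l (w s) := rfl

end

theorem thm_Ivw (hKle : St_Kle) (hMxe : St_Mxe) (hKil : St_Kil) (hInw : St_Inw) : St_Ivw := by
  intro I J _ _ _ _ A C K _ _ c m S hg hAdm hI hHom hC n l p F hQ hA w G hG
  have hκ : ∀ i, Nonempty (Fin (A i).g ⊕ Fin (A i).g) :=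
    fun i => ⟨Sum.inl ⟨0, Nat.pos_of_ne_zero (hg i)⟩⟩
  have hϖ := Complex.two_pi_I_ne_zero
  have hnd : ∀ i, (S i).h.det ≠ 0 := by
    intro i
    obtain ⟨σ₀, x, hx, -, -⟩ := (S i).hodge
    exact k3_nd (S i).conjugation (S i).hermitian hx
  have MM := fun i => mde (A i) (S i) (hnd i)
  rcases isEmpty_or_nonempty J with hJ | hJ
  · -- no other abelian varieties
    have hw : ∀ u : H1 C l, u = 0 := fun u => by
      funext j
      exact hJ.elim j
    rcases Nat.eq_zero_or_pos p with hp | hp
    · subst hp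
      have hwu : ∀ w' : Fin (2 * 0) → H1 C l, w' = w := fun w' => by
        funext s
        exact Fin.elim0 s
      refine hInw I (fun i => Fin (A i).g ⊕ Fin (A i).g) _ (fun i => pData (A i)) K c m
        (fun i => (S i).h) (fun i => lt (A i) (S i)) hϖ MM (hKil A S hg hAdm hI hHom _) n G
        (fun y => ?_) (fun v hv => ?_)
      · obtain ⟨r, hr⟩ := hQ y w (fun s => Fin.elim0 s)
        exact ⟨r, by rw [hG, hr, pow_zero, one_mul]⟩
      · rw [hG]
        exact hA v w hv (fun s => Fin.elim0 s)
    · have h0 : G = 0 := by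
        apply MultilinearMap.ext
        intro v
        rw [hG]
        exact (F v).toMultilinearMap.map_coord_zero (⟨0, by omega⟩ : Fin (2 * p)) (hw _)
      rw [h0]
      intro i M hM v
      exact Finset.sum_eq_zero fun _ _ => rfl
  · obtain ⟨j₀⟩ := hJ
    have h1 := hMxe I (I ⊕ J) Sum.inl Sum.inl_injective
      (fun j => Fin (Sum.elim A C j).g ⊕ Fin (Sum.elim A C j).g) hκ _
      (fun j => pData (Sum.elim A C j)) K c m (fun i => (S i).h) (fun i => lt (A i) (S i)) hϖ MM
      (Sum.elim (fun _ : I => 0) l) (fun _ => rfl)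
      (hKle A C S hg (fun i => (hC i j₀).1) (fun i => (hC i j₀).2.1) hHom
        (fun i j => (hC i j).2.2) _) n p ((Ivw_m A C l (2 * p)).compMultilinearMap F)
      (by
        intro y w' hw'
        obtain ⟨r, hr⟩ := hQ y (fun s => Ivw_r A C l (w' s)) (fun s j a =>
          (mem_pData_Q _ _).mp (hw' s (Sum.inr j) a))
        exact ⟨r, hr⟩)
      (by
        intro v w' hv hw'
        exact hA v (fun s => Ivw_r A C l (w' s)) hv fun s j a => hw' s (Sum.inr j) a)
      (fun s j => match j with
        | Sum.inl _ => fun a => Fin.elim0 a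
        | Sum.inr j => w s j)
    have h2 : ((Mix_ev (fun s j => match j with
        | Sum.inl _ => fun a => Fin.elim0 a
        | Sum.inr j => w s j : Fin (2 * p) →
          HW (fun j => Fin (Sum.elim A C j).g ⊕ Fin (Sum.elim A C j).g)
          (Sum.elim (fun _ : I => 0) l))).compMultilinearMap
        ((Ivw_m A C l (2 * p)).compMultilinearMap F)) = G := by
      apply MultilinearMap.ext
      intro v
      rw [hG]
      rfl
    rw [h2] at h1
    exact h1

end Pool.Agent.KTW
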