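import Pool.Agent.KTW.StN
import Pool.Agent.KTW.Ivw

/-!
# KTW [Hun]: the values at de Rham vectors of the `X_s` and Betti vectors of `C`
-/

set_option autoImplicit false

namespace Pool.Agent.KTW

open Module Matrix NumberField Pool.Agent.Helper7 Pool.Agent.KS Pool.Agent.Ball Pool.Agent.KSE
  Pool.Agent.Helper28.GPC Pool.Agent.K3P Pool.Agent.KTP
open Pool.Agent.GPC (AbVar TC IsRatT qf df HU IsGrU Form IsBetti IsDeRham IsGrothendieck H1)

/-- the value at a family of vectors -/
def Hun_ev {W : Type} [AddCommGroup W] [Module ℂ W] {q : ℕ} (w : Fin q → W) :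
    (W [⋀^Fin q]→ₗ[ℂ] ℂ) →ₗ[ℂ] ℂ where
  toFun α := α w
  map_add' _ _ := rfl
  map_smul' _ _ := rfl

/-- the same for forms in vectors of the `T_i` -/
theorem Hun_T (hKln : St_Kln) (hMxn : St_Mxn) {I J : Type} [Fintype I] [DecidableEq I]
    [Fintype J] [DecidableEq J] (A : I → AbVar) (C : J → AbVar) {K : I → Type}
    [∀ i, Field (K i)] [∀ i, NumberField (K i)] {c : ∀ i, K i →+* K i} {m : I → ℕ}
    (S : ∀ i, (A i).KugaSatakeMul (K i) (c i) (m i)) (hg : ∀ i, (A i).g ≠ 0)
    (hC : ∀ i, ∀ j : J, c i = RingHom.id (K i) ∧ (m i = 3 ∨ 6 ≤ m i) ∧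
      (2 * (C j).g + 2 ≤ m i ∨ (C j).IsCM)) (n : ℕ) (l : J → ℕ) (p : ℕ)
    (F : MultilinearMap ℂ (fun _ : Fin n => TF K m) (Form C l (2 * p)))
    (hQ : ∀ (y : Fin n → ∀ i, Fin (m i) → K i) (w : Fin (2 * p) → H1 C l),
      (∀ s, IsBetti C l (w s)) →
        ∃ q : ℚ, F (fun s => embF (y s)) w = (2 * Real.pi * Complex.I) ^ p * q)
    (hA : ∀ (v : Fin n → TF K m) (w : Fin (2 * p) → H1 C l),
      (∀ s i, DR (lt (A i) (S i)) (v s i)) → (∀ s, IsDeRham C l (w s)) → IsAlgebraic ℚ (F v w))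
    (v : Fin n → TF K m) (w : Fin (2 * p) → H1 C l) (hv : ∀ s i, DR (lt (A i) (S i)) (v s i))
    (hw : ∀ s, IsBetti C l (w s)) :
    IsAlgebraic ℚ (F v w / (2 * Real.pi * Complex.I) ^ p) := by
  have hκ : ∀ i, Nonempty (Fin (A i).g ⊕ Fin (A i).g) :=
    fun i => ⟨Sum.inl ⟨0, Nat.pos_of_ne_zero (hg i)⟩⟩
  have hϖ := Complex.two_pi_I_ne_zero
  have hnd : ∀ i, (S i).h.det ≠ 0 := by
    intro i
    obtain ⟨σ₀, x, hx, -, -⟩ := (S i).hodge
    exact k3_nd (S i).conjugation (S i).hermitian hx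
  have MM := fun i => mde (A i) (S i) (hnd i)
  rcases isEmpty_or_nonempty J with hJ | hJ
  · -- no other abelian varieties
    have hw0 : ∀ u : H1 C l, u = 0 := fun u => by
      funext j
      exact hJ.elim j
    rcases Nat.eq_zero_or_pos p with hp | hp
    · subst hp
      rw [pow_zero, div_one]
      exact hA v w hv (fun s => Fin.elim0 s)
    · have h0 : F v w = 0 :=
        (F v).toMultilinearMap.map_coord_zero (⟨0, by omega⟩ : Fin (2 * p)) (hw0 _)
      rw [h0, zero_div]
      exact isAlgebraic_zero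
  · obtain ⟨j₀⟩ := hJ
    have h1 := hMxn I (I ⊕ J) Sum.inl Sum.inl_injective
      (fun j => Fin (Sum.elim A C j).g ⊕ Fin (Sum.elim A C j).g) hκ _
      (fun j => pData (Sum.elim A C j)) K c m (fun i => (S i).h) (fun i => lt (A i) (S i)) hϖ MM
      (Sum.elim (fun _ : I => 0) l) (fun _ => rfl)
      (hKln A C S hg (fun i => (hC i j₀).1) (fun i => (hC i j₀).2.1)
        (fun i j => (hC i j).2.2) _) n p ((Ivw_m A C l (2 * p)).compMultilinearMap F)
      (by
        intro y w' hw'
        obtain ⟨r, hr⟩ := hQ y (fun s => Ivw_r A C l (w' s)) (fun s j a =>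
          (mem_pData_Q _ _).mp (hw' s (Sum.inr j) a))
        exact ⟨r, hr⟩)
      (by
        intro v w' hv hw'
        exact hA v (fun s => Ivw_r A C l (w' s)) hv fun s j a => hw' s (Sum.inr j) a)
      v (fun s j => match j with
        | Sum.inl _ => fun a => Fin.elim0 a
        | Sum.inr j => w s j) hv
      (by
        intro s j a
        rcases j with j | j
        · exact Fin.elim0 a
        · exact (mem_pData_Q _ _).mpr (hw s j a))
    exact h1

theorem thm_Hun (hKln : St_Kln) (hMxn : St_Mxn) (hHtu : St_Htu) : St_Hun := by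
  intro I J _ _ _ _ A C K _ _ c m S hg hC r n l p F h1 h2 v w hv hw
  obtain ⟨X, _, d, l', ε, i, G, hG, hF⟩ := hHtu (TF K m) (Form C l (2 * p)) r n F v
  have e1 : F v w = ∑ j, (∏ b, (v (ε j (.inr b))).1 (i j b)) *
      G j (fun a => (v (ε j (.inl a))).2) w := by
    have h3 := congrArg (fun α : Form C l (2 * p) => α w) hF
    rw [h3]
    show Hun_ev w (∑ j, (∏ b, (v (ε j (.inr b))).1 (i j b)) •
      G j (fun a => (v (ε j (.inl a))).2)) = _
    rw [map_sum]
    rfl
  rw [e1, Finset.sum_div]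
  refine asm_alg_sum _ _ fun j _ => ?_
  rw [mul_div_assoc]
  refine (asm_alg_prod _ _ fun b _ => (hv _).1 _).mul ?_
  refine Hun_T hKln hMxn A C S hg hC (d j) l p (G j) ?_ ?_ _ w
    (fun s i => (asm_dr (S i) _).mp ((hv _).2 i)) hw
  · intro y w hw
    rw [hG]
    refine h1 _ w (fun s => ?_) hw
    obtain ⟨t, rfl⟩ := (ε j).surjective s
    rw [Equiv.symm_apply_apply]
    rcases t with t | t
    · exact ⟨fun _ => ⟨0, by rw [Rat.cast_zero]; rfl⟩, fun i => ⟨y t i, fun _ _ => rfl⟩⟩
    · refine ⟨fun a' => ?_, fun i' => ?_⟩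
      · by_cases ha : a' = i j t
        · subst ha
          exact ⟨1, by
            show (Pi.single (i j t) 1 : Fin r → ℂ) (i j t) = _
            rw [Pi.single_eq_same, Rat.cast_one]⟩
        · exact ⟨0, by
            show (Pi.single (i j t) 1 : Fin r → ℂ) a' = _
            rw [Pi.single_eq_of_ne ha, Rat.cast_zero]⟩
      · refine ⟨0, fun σ l => ?_⟩
        rw [Pi.zero_apply, map_zero]
        rfl
  · intro y w hy hw
    rw [hG]
    refine h2 _ w (fun s => ?_) hw
    obtain ⟨t, rfl⟩ := (ε j).surjective s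
    rw [Equiv.symm_apply_apply]
    rcases t with t | t
    · exact ⟨fun _ => isAlgebraic_zero, fun i => (asm_dr (S i) _).mpr (hy t i)⟩
    · refine ⟨fun a' => ?_, fun i' => ?_⟩
      · by_cases ha : a' = i j t
        · subst ha
          show IsAlgebraic ℚ ((Pi.single (i j t) 1 : Fin r → ℂ) (i j t))
          rw [Pi.single_eq_same]
          exact isAlgebraic_one
        · show IsAlgebraic ℚ ((Pi.single (i j t) 1 : Fin r → ℂ) a')
          rw [Pi.single_eq_of_ne ha]
          exact isAlgebraic_zero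
      · show (S i').IsDRT 0
        rw [asm_dr]
        intro i'' j''
        have h3 : opT (lt (A i') (S i')) (0 : TC (K i') (m i')) = 0 := by
          rw [opT]
          exact Finset.sum_eq_zero fun σ _ => map_zero _
        rw [h3]
        exact isAlgebraic_zero

end Pool.Agent.KTW
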