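import Pool.Agent.KTW.StZ
import Pool.Agent.KTP.Hua

/-!
# KTW [Huz]: Grothendieck classes on products of K3 surfaces and abelian varieties
-/

set_option autoImplicit false

namespace Pool.Agent.KTW

open Module Matrix NumberField Pool.Agent.Helper7 Pool.Agent.KS Pool.Agent.Ball Pool.Agent.KSE
  Pool.Agent.Helper28.GPC Pool.Agent.KSR Pool.Agent.K3P Pool.Agent.KTP
open Pool.Agent.GPC (AbVar TC IsRatT HX HU Form IsBetti IsDeRham H1 IsGrUA IsHodgeUA IsFilU)

theorem thm_Huz (hHtz : St_Htz) (hHtu : St_Htu) : St_Huz := by
  intro I _ _ A K _ _ c m S hg hAdm hI r n k p F hF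
  refine ⟨hF.1, fun a b v w hab hv hw => ?_⟩
  obtain ⟨J, _, d, l, ε, ix, G, hG, hFv⟩ := hHtu (TF K m) (Form A k (2 * p)) r n F v
  have h1 : F v w = Hua_e w (F v) := rfl
  rw [h1, hFv, map_sum]
  refine Finset.sum_eq_zero fun j _ => ?_
  rw [map_smul, smul_eq_mul]
  by_cases hc : ∃ b', 0 < a (ε j (.inr b'))
  · obtain ⟨b', hb'⟩ := hc
    rw [Finset.prod_eq_zero (Finset.mem_univ b'), zero_mul]
    rw [(hv (ε j (.inr b'))).1 hb']
    rfl
  · push Not at hc
    have h2 : G j (fun t => (v (ε j (.inl t))).2) w = 0 := by
      refine hHtz A S hg hAdm hI (d j) k p (G j) ?_ ?_ (fun t => a (ε j (.inl t))) b _ w ?_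
        (fun t i => (hv _).2 i) hw
      · intro y w hw
        rw [hG]
        refine hF.1 _ w (fun s => ?_) hw
        obtain ⟨t, rfl⟩ := (ε j).surjective s
        rw [Equiv.symm_apply_apply]
        rcases t with t | t
        · exact ⟨fun _ => ⟨0, by rw [Rat.cast_zero]; rfl⟩, fun i => Hua_ratT (y t i)⟩
        · refine ⟨fun a' => ?_, fun i => ?_⟩
          · by_cases ha : a' = ix j t
            · subst ha
              exact ⟨1, by
                show (Pi.single (ix j t) 1 : Fin r → ℂ) (ix j t) = _
                rw [Pi.single_eq_same, Rat.cast_one]⟩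
            · exact ⟨0, by
                show (Pi.single (ix j t) 1 : Fin r → ℂ) a' = _
                rw [Pi.single_eq_of_ne ha, Rat.cast_zero]⟩
          · refine ⟨0, fun σ l => ?_⟩
            rw [Pi.zero_apply, map_zero]
            rfl
      · intro y w hy hw
        rw [hG]
        refine hF.2 _ w (fun s => ?_) hw
        obtain ⟨t, rfl⟩ := (ε j).surjective s
        rw [Equiv.symm_apply_apply]
        rcases t with t | t
        · exact ⟨fun _ => isAlgebraic_zero, fun i => (asm_dr (S i) _).mpr (hy t i)⟩
        · refine ⟨fun a' => ?_, fun i => ?_⟩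
          · by_cases ha : a' = ix j t
            · subst ha
              show IsAlgebraic ℚ ((Pi.single (ix j t) 1 : Fin r → ℂ) (ix j t))
              rw [Pi.single_eq_same]
              exact isAlgebraic_one
            · show IsAlgebraic ℚ ((Pi.single (ix j t) 1 : Fin r → ℂ) a')
              rw [Pi.single_eq_of_ne ha]
              exact isAlgebraic_zero
          · show (S i).IsDRT 0
            rw [asm_dr]
            intro i' j'
            have h3 : opT (lt (A i) (S i)) (0 : TC (K i) (m i)) = 0 := by
              rw [opT]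
              exact Finset.sum_eq_zero fun σ _ => map_zero _
            rw [h3]
            exact isAlgebraic_zero
      · have h3 : ∑ s, a s = ∑ t, a (ε j (.inl t)) + ∑ t, a (ε j (.inr t)) := by
          rw [← Equiv.sum_comp (ε j), Fintype.sum_sum_type]
        have h4 : ∑ t, a (ε j (.inr t)) ≤ 0 := Finset.sum_nonpos fun t _ => hc t
        omega
    have h3 : Hua_e w (G j fun t => (v (ε j (.inl t))).2) = 0 := h2
    rw [h3, mul_zero]

end Pool.Agent.KTW
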