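import Pool.Agent.KTW.StZ

/-!
# KTW [Lnk]: linked factors have a common isogeny factor
-/

set_option autoImplicit false

namespace Pool.Agent.KTW

open Module Matrix NumberField Pool.Agent.Helper7 Pool.Agent.KS Pool.Agent.Ball Pool.Agent.KSE
  Pool.Agent.Helper28.GPC Pool.Agent.KSR Pool.Agent.KSV Pool.Agent.K3P Pool.Agent.KTP

section

variable {I : Type} [Fintype I] [DecidableEq I] {n : I → ℕ} {κ : I → Type}
  [∀ i, Fintype (κ i)] [∀ i, DecidableEq (κ i)] {ϖ : ℂ} {P : ∀ i, PData (κ i) ϖ}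
  {K : I → Type} [∀ i, Field (K i)] [∀ i, NumberField (K i)] {c : ∀ i, K i →+* K i} {m : I → ℕ}
  {h : ∀ i, Matrix (Fin (m i)) (Fin (m i)) (K i)}
  {t : ∀ i, Fin (m i) → K i → Module.End ℂ (κ i → ℂ)} {k : ℕ}
  {γ : MultilinearMap ℂ (fun _ : Fin (2 * k) => HW κ n) ℂ} {σ₀ : ∀ i, K i →+* ℂ}

theorem Lnk_core (H : Fam n P h t γ σ₀ c) (i : I) (Z : Matrix (Fin (m i)) (Fin (m i)) ℂ)
    (hZ : SkP (h i) (σ₀ i) Z) :
    ∃ M ∈ RRE n P h t γ, M ⟨i, σ₀ i⟩ = Z ∧ ∀ p : PL K, p.2 ≠ σ₀ p.1 → M p = 0 :=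
  coreB n H.pi P H.S γ H.B H.A H.nd H.real σ₀ H.sig H.defi H.T H.Tg Hall5_ i (H.ne i)
    (by have := H.m3 i; omega) (H.m5 i) Z hZ

/-- One direction of the link for all symmetries. -/
theorem Lnk_one (H : Fam n P h t γ σ₀ c) (i j : I)
    (hl : ∀ M ∈ RR0 n P h t γ σ₀, M ⟨i, σ₀ i⟩ = 0 → M ⟨j, σ₀ j⟩ = 0)
    (M : ∀ p : PL K, Matrix (Fin (m p.1)) (Fin (m p.1)) ℂ) (hM : M ∈ RRE n P h t γ)
    (h0 : M ⟨i, σ₀ i⟩ = 0) : M ⟨j, σ₀ j⟩ = 0 := by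
  classical
  by_contra hj0
  let 𝔞 : Submodule ℂ (Module.End ℂ (Fin (m j) → ℂ)) :=
    { carrier := {B | ∃ N ∈ RRE n P h t γ, N ⟨i, σ₀ i⟩ = 0 ∧
        Matrix.toLin' (N ⟨j, σ₀ j⟩) = B}
      add_mem' := by
        rintro B B' ⟨N, hN, hN0, hNB⟩ ⟨N', hN', hN'0, hNB'⟩
        refine ⟨N + N', Submodule.add_mem _ hN hN', ?_, ?_⟩
        · rw [Pi.add_apply, hN0, hN'0, add_zero]
        · rw [Pi.add_apply, map_add, hNB, hNB']
      zero_mem' := ⟨0, Submodule.zero_mem _, rfl, by rw [Pi.zero_apply, map_zero]⟩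
      smul_mem' := by
        rintro c B ⟨N, hN, hN0, hNB⟩
        refine ⟨c • N, Submodule.smul_mem _ _ hN, ?_, ?_⟩
        · rw [Pi.smul_apply, hN0, smul_zero]
        · rw [Pi.smul_apply, map_smul, hNB] }
  have hm := H.m3 j
  have hσj := H.real j (σ₀ j)
  have hsj := CoreR.GR_tr (H.S j).conj (H.S j).herm hσj
  have htop := KSP.ideal_top (by omega) (bil (CoreR.GR (h j) (σ₀ j)))
    (bil_symm hsj) (bil_nd hσj (H.S j).nd) 𝔞 (by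
      rintro B ⟨N, hN, -, rfl⟩
      exact skw_of_skP hσj (hN.1 ⟨j, σ₀ j⟩)) (by
      rintro B ⟨N, hN, hN0, rfl⟩ C hC
      obtain ⟨N', hN', hN'C, -⟩ := Lnk_core H j _ (skP_of_skw hσj hC)
      refine ⟨N' * N - N * N', RRE_bracket hN' hN, ?_, ?_⟩
      · rw [Pi.sub_apply, Pi.mul_apply, Pi.mul_apply, hN0, mul_zero, zero_mul, sub_zero]
      · have e : C = Matrix.toLin' (N' ⟨j, σ₀ j⟩) := by
          rw [hN'C, Matrix.toLin'_toMatrix']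
        rw [Pi.sub_apply, Pi.mul_apply, Pi.mul_apply, map_sub, Matrix.toLin'_mul,
          Matrix.toLin'_mul, e]
        rfl) (Matrix.toLin' (M ⟨j, σ₀ j⟩)) ⟨M, hM, h0, rfl⟩ (fun h1 =>
      hj0 ((LinearEquiv.map_eq_zero_iff _).1 h1))
  obtain ⟨B, C, hB, hC, hBC⟩ := KSP.Goursat.exists_noncomm (by omega) (bil (CoreR.GR (h j) (σ₀ j)))
    (bil_symm hsj) (bil_nd hσj (H.S j).nd)
  obtain ⟨N, hN, hN0, hNj⟩ := htop C hC
  obtain ⟨N', hN', hN'j, hN'0⟩ := Lnk_core H j _ (skP_of_skw hσj hB)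
  have h1 : N' * N - N * N' ∈ RR0 n P h t γ σ₀ := by
    refine ⟨RRE_bracket hN' hN, fun p hp => ?_⟩
    rw [Pi.sub_apply, Pi.mul_apply, Pi.mul_apply, hN'0 p hp, mul_zero, zero_mul, sub_zero]
  have h2 := hl _ h1 (by
    rw [Pi.sub_apply, Pi.mul_apply, Pi.mul_apply, hN0, mul_zero, zero_mul, sub_zero])
  apply hBC
  have e : B = Matrix.toLin' (N' ⟨j, σ₀ j⟩) := by
    rw [hN'j, Matrix.toLin'_toMatrix']
  have h3 := congrArg Matrix.toLin' h2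
  rw [Pi.sub_apply, Pi.mul_apply, Pi.mul_apply, map_sub, Matrix.toLin'_mul,
    Matrix.toLin'_mul, map_zero, ← e, hNj] at h3
  exact h3

end

theorem thm_Lnk : St_Lnk := by
  intro I _ _ n κ _ _ ϖ P K _ _ c m h t k γ σ₀ H i j hij hlk
  have hl : ∀ M ∈ RRE n P h t γ, M ⟨i, σ₀ i⟩ = 0 ↔ M ⟨j, σ₀ j⟩ = 0 := fun M hM =>
    ⟨Lnk_one H i j (fun N hN => (hlk N hN).mp) M hM,
      Lnk_one H j i (fun N hN => (hlk N hN).mpr) M hM⟩
  obtain ⟨φ, g, hφ, hg', hg, hMg⟩ := exists_isoB n H.pi P H.S γ H.B H.real σ₀ H.sig i j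
    (H.m3 i) (H.m3 j) (fun l _ Z hZ => Lnk_core H l Z hZ) hl
  have hκ := H.ne i
  have hκ' := H.ne j
  obtain ⟨F, hF0, hF⟩ := exists_F (H.S i).conj (H.S i).herm (H.S i).nd (H.S i).cliff (H.S j).conj
    (H.S j).cliff (H.real i) (H.real j) φ hφ.1 g hg
  exact hom_of_F n H.pi P H.S γ H.B H.A H.real H.T i j hκ hκ' φ hφ g hg' hg hMg F hF0 hF

end Pool.Agent.KTW
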