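import Pool.Agent.KTW.StN
import Pool.Agent.KTP.Mix

/-!
# KTW [Mxn]: values at de Rham vectors of the `T_i` and rational vectors of the `H_1`
-/

set_option autoImplicit false
set_option linter.unusedSectionVars false

namespace Pool.Agent.KTW

open Module Matrix NumberField Pool.Agent.Helper7 Pool.Agent.KS Pool.Agent.Ball Pool.Agent.KSE
  Pool.Agent.Helper28.GPC Pool.Agent.K3P Pool.Agent.KTP
open Pool.Agent.GPC (TC)

section

variable {I J : Type} {κ : J → Type} {K : I → Type} [∀ i, Field (K i)] [∀ i, NumberField (K i)]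
  {m : I → ℕ}

/-- the vectors in the `T_i` of two vectors -/
noncomputable def Mxn_be (e : I → J) (k : J → ℕ)
    (β : ∀ i, (κ (e i) → ℂ) →ₗ[ℂ] (κ (e i) → ℂ) →ₗ[ℂ] TC (K i) (m i)) :
    HW κ (fun j => k j + 1) →ₗ[ℂ] HW κ (fun j => k j + 1) →ₗ[ℂ] TF K m :=
  LinearMap.mk₂ ℂ (fun u v i => β i (u (e i) 0) (v (e i) 0))
    (fun u u' v => by
      funext i
      show β i (u (e i) 0 + u' (e i) 0) (v (e i) 0) =
        β i (u (e i) 0) (v (e i) 0) + β i (u' (e i) 0) (v (e i) 0)
      rw [map_add, LinearMap.add_apply])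
    (fun r u v => by
      funext i
      show β i (r • u (e i) 0) (v (e i) 0) = r • β i (u (e i) 0) (v (e i) 0)
      rw [map_smul, LinearMap.smul_apply])
    (fun u v v' => by
      funext i
      show β i (u (e i) 0) (v (e i) 0 + v' (e i) 0) =
        β i (u (e i) 0) (v (e i) 0) + β i (u (e i) 0) (v' (e i) 0)
      rw [map_add])
    (fun r u v => by
      funext i
      show β i (u (e i) 0) (r • v (e i) 0) = r • β i (u (e i) 0) (v (e i) 0)
      rw [map_smul])

lemma Mxn_be_apply (e : I → J) (k : J → ℕ)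
    (β : ∀ i, (κ (e i) → ℂ) →ₗ[ℂ] (κ (e i) → ℂ) →ₗ[ℂ] TC (K i) (m i))
    (u v : HW κ (fun j => k j + 1)) (i : I) :
    Mxn_be e k β u v i = β i (u (e i) 0) (v (e i) 0) := rfl

/-- a number whose logarithmic derivatives are those of `ϖ ^ p` -/
lemma Mxn_num (ϖ : ℂ) (hϖ : ϖ ≠ 0) (p : ℕ) (x : ℂ)
    (h : ∀ D : Derivation ℚ ℂ ℂ, D x = p * (D ϖ / ϖ) * x) : IsAlgebraic ℚ (x / ϖ ^ p) := by
  apply isAlgebraic_of_derivation
  intro D
  have h1 := h D
  obtain ⟨y, hy⟩ : ∃ y, y = x / ϖ ^ p := ⟨_, rfl⟩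
  have hp : ϖ ^ p ≠ 0 := pow_ne_zero p hϖ
  have hx : x = y * ϖ ^ p := by rw [hy, div_mul_cancel₀ _ hp]
  rw [← hy]
  have h2 : D (ϖ ^ p) = p * (D ϖ / ϖ) * ϖ ^ p := by
    rcases p with _ | p
    · simp
    · rw [Derivation.leibniz_pow, Nat.add_sub_cancel, nsmul_eq_mul, smul_eq_mul, pow_succ]
      field_simp
  rw [hx, Derivation.leibniz, h2, smul_eq_mul, smul_eq_mul] at h1
  have h3 : ϖ ^ p * D y = 0 := by linear_combination h1
  exact (mul_eq_zero.mp h3).resolve_left hp

/-- the matrix entries of the operators -/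
noncomputable def Mxn_O {κ : Type} [Fintype κ] [DecidableEq κ] {K : Type} [Field K]
    [NumberField K] {m : ℕ} (t : Fin m → K → Module.End ℂ (κ → ℂ)) :
    TC K m →ₗ[ℂ] (κ × κ → ℂ) where
  toFun x := fun a => Bet_op t x (Pi.single a.1 1) a.2
  map_add' x y := by
    funext a
    show Bet_op t (x + y) (Pi.single a.1 1) a.2 = _
    rw [map_add]
    rfl
  map_smul' r x := by
    funext a
    show Bet_op t (r • x) (Pi.single a.1 1) a.2 = _
    rw [map_smul]
    rfl

lemma Mxn_O_apply {κ : Type} [Fintype κ] [DecidableEq κ] {K : Type} [Field K]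
    [NumberField K] {m : ℕ} (t : Fin m → K → Module.End ℂ (κ → ℂ)) (x : TC K m) (a : κ × κ) :
    Mxn_O t x a = opT t x (Pi.single a.1 1) a.2 := by
  rw [← Bet_op_apply]
  rfl

lemma Mxn_O_inj {κ : Type} [Fintype κ] [DecidableEq κ] [Nonempty κ] {K : Type} [Field K]
    [NumberField K] {m : ℕ} {ϖ : ℂ} {P : PData κ ϖ} {c : K →+* K} {h : Matrix (Fin m) (Fin m) K}
    {t : Fin m → K → Module.End ℂ (κ → ℂ)} (S : MD P c h t) :
    Function.Injective (Mxn_O t) := by
  rw [injective_iff_map_eq_zero]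
  intro x hx
  refine Bet_opT_zero S x ?_
  refine (Pi.basisFun ℂ κ).ext fun a => ?_
  funext b
  have h1 := congrFun hx (a, b)
  rw [Mxn_O_apply] at h1
  rw [Pi.basisFun_apply]
  exact h1

/-- expansion of a vector of `ℂ ^ κ` -/
lemma Mxn_exp {κ : Type} [Fintype κ] [DecidableEq κ] (u : κ → ℂ) :
    u = ∑ a, u a • (Pi.single a (1 : ℂ) : κ → ℂ) := by
  funext j
  rw [Finset.sum_apply, Finset.sum_eq_single j]
  · simp
  · intro i _ hi
    simp [Pi.single_eq_of_ne (Ne.symm hi)]
  · intro h1; exact absurd (Finset.mem_univ _) h1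

lemma Mxn_span {κ : Type} [Fintype κ] [DecidableEq κ] {V : Type} [AddCommGroup V] [Module ℂ V]
    (β : (κ → ℂ) →ₗ[ℂ] (κ → ℂ) →ₗ[ℂ] V) (hβ : Submodule.span ℂ {w | ∃ u v, w = β u v} = ⊤) :
    Submodule.span ℂ {w | ∃ a b, w = β (Pi.single a 1) (Pi.single b 1)} = ⊤ := by
  rw [eq_top_iff, ← hβ, Submodule.span_le]
  rintro w ⟨u, v, rfl⟩
  rw [Mxn_exp u, map_sum, LinearMap.sum_apply]
  refine Submodule.sum_mem _ fun a _ => ?_
  rw [map_smul, LinearMap.smul_apply]
  refine Submodule.smul_mem _ _ ?_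
  rw [Mxn_exp v, map_sum]
  refine Submodule.sum_mem _ fun b _ => ?_
  rw [map_smul]
  exact Submodule.smul_mem _ _ (Submodule.subset_span ⟨a, b, rfl⟩)

end

section

variable {J : Type} [Fintype J] [DecidableEq J] (n : J → ℕ) {κ : J → Type} [∀ j, Fintype (κ j)]
  [∀ j, DecidableEq (κ j)] {ϖ : ℂ} (P : ∀ j, PData (κ j) ϖ)

/-- the derivative of a rational vector in the Betti basis -/
lemma Mxn_rat (D : Derivation ℚ ℂ ℂ) (v : HW κ n) (hv : IsRatP n P v) :
    nabla (SBP n κ) D v = lift n (fun j => (P j).N D) v := by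
  rw [lift_N, opN_apply, nabla_eq_zero (FBP n P) D v, sub_zero]
  rintro ⟨j, l, b⟩
  obtain ⟨q, hq⟩ := (P j).repr_rat _ (hv j l) b
  have h1 : (FBP n P).repr v ⟨j, l, b⟩ = (P j).bB.repr (v j l) b := by
    simp [FBP, Pi.basis_repr]
  rw [h1, hq]
  exact isAlgebraic_ratCast ℚ q

/-- the derivative of an algebraic vector in the de Rham basis -/
lemma Mxn_alg (D : Derivation ℚ ℂ ℂ) (v : HW κ n) (hv : ∀ j l a, IsAlgebraic ℚ (v j l a)) :
    nabla (SBP n κ) D v = 0 := by
  refine nabla_eq_zero _ D v ?_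
  rintro ⟨j, l, a⟩
  have h1 : (SBP n κ).repr v ⟨j, l, a⟩ = v j l a := by
    simp [SBP, Pi.basis_repr]
  rw [h1]
  exact hv j l a

end

theorem thm_Mxn (hDsp : St_Dsp) (hBet : St_Bet) : St_Mxn := by
  classical
  intro I J _ _ _ _ e he κ _ _ hne ϖ P K _ _ c m h t hϖ S k hk hK n p F hQ hA v w hv hw
  have := hne
  choose β hβ hβQ hβA hβS using fun i =>
    hBet (κ (e i)) ϖ (P (e i)) (K i) (c i) (m i) (h i) (t i) hϖ (S i)
  obtain ⟨ee⟩ : Nonempty ((Fin 2 × Fin n) ⊕ Fin (2 * p) ≃ Fin (2 * (n + p))) := by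
    refine ⟨Fintype.equivFinOfCardEq ?_⟩
    rw [Fintype.card_sum, Fintype.card_prod, Fintype.card_fin, Fintype.card_fin, Fintype.card_fin,
      mul_add]
  obtain ⟨α, hα⟩ : ∃ α, α = MixA_al ee (Mxn_be e k β) (Mix_pi κ k) F := ⟨_, rfl⟩
  have hαB : ∀ u : Fin (2 * (n + p)) → HW κ (fun j => k j + 1),
      (∀ r, IsRatP (fun j => k j + 1) P (u r)) → ∃ q : ℚ, α u = ϖ ^ (n + p) * q := by
    intro u hu
    choose y hy using fun (s : Fin n) (i : I) => hβQ i _ (hu (ee (.inl (0, s))) (e i) 0) _
      (hu (ee (.inl (1, s))) (e i) 0)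
    obtain ⟨q, hq⟩ := hQ y (MixA_w ee (Mix_pi κ k) u) (fun s j l => hu (ee (.inr s)) j l.succ)
    refine ⟨q, ?_⟩
    rw [hα, MixA_al_apply]
    have e1 : MixA_v ee (Mxn_be e k β) u = fun s => ϖ • embF (y s) := by
      funext s i
      exact hy s i
    rw [e1, MultilinearMap.map_smul_univ F (fun _ => ϖ) fun r => embF (y r), Finset.prod_const,
      Finset.card_univ, Fintype.card_fin, _root_.smul_apply, hq, smul_eq_mul, pow_add]
    ring
  have hαA : ∀ u : Fin (2 * (n + p)) → HW κ (fun j => k j + 1),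
      (∀ r j l a, IsAlgebraic ℚ (u r j l a)) → IsAlgebraic ℚ (α u) := by
    intro u hu
    rw [hα]
    exact hA _ _ (fun s i => hβA i _ _ (hu _ (e i) 0) (hu _ (e i) 0)) fun s j l => hu _ j l.succ
  -- step (1)
  have key : ∀ u u' : Fin n → HW κ (fun j => k j + 1),
      (∀ s j l a, IsAlgebraic ℚ (u s j l a)) → (∀ s j l a, IsAlgebraic ℚ (u' s j l a)) →
      (∀ s j, (∀ i, e i ≠ j) → u s j = 0) → (∀ s j, (∀ i, e i ≠ j) → u' s j = 0) →
      IsAlgebraic ℚ (F (fun s => Mxn_be e k β (u s) (u' s)) w / ϖ ^ p) := by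
    intro u u' hu hu' hu0 hu0'
    obtain ⟨x, hx0, hx1, hxr⟩ : ∃ x : Fin (2 * (n + p)) → HW κ (fun j => k j + 1),
        (∀ s, x (ee (.inl (0, s))) = u s) ∧ (∀ s, x (ee (.inl (1, s))) = u' s) ∧
        ∀ s, x (ee (.inr s)) = fun j => (Fin.cons 0 (w s j) : Fin (k j + 1) → κ j → ℂ) := by
      refine ⟨fun r => Sum.elim (fun t : Fin 2 × Fin n => if t.1 = 0 then u t.2 else u' t.2)
          (fun s j => (Fin.cons 0 (w s j) : Fin (k j + 1) → κ j → ℂ)) (ee.symm r), ?_, ?_, ?_⟩
      · intro s
        simp only [Equiv.symm_apply_apply, Sum.elim_inl, if_pos]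
      · intro s
        simp only [Equiv.symm_apply_apply, Sum.elim_inl, one_ne_zero, if_false]
      · intro s
        simp only [Equiv.symm_apply_apply, Sum.elim_inr]
    have hxa : ∀ t : Fin 2 × Fin n, (∀ j l a, IsAlgebraic ℚ (x (ee (.inl t)) j l a)) ∧
        ∀ j, (∀ i, e i ≠ j) → x (ee (.inl t)) j = 0 := by
      rintro ⟨a, s⟩
      fin_cases a
      · show (∀ j l a, IsAlgebraic ℚ (x (ee (.inl (0, s))) j l a)) ∧
          ∀ j, (∀ i, e i ≠ j) → x (ee (.inl (0, s))) j = 0
        rw [hx0]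
        exact ⟨hu s, hu0 s⟩
      · show (∀ j l a, IsAlgebraic ℚ (x (ee (.inl (1, s))) j l a)) ∧
          ∀ j, (∀ i, e i ≠ j) → x (ee (.inl (1, s))) j = 0
        rw [hx1]
        exact ⟨hu' s, hu0' s⟩
    have hαx : α x = F (fun s => Mxn_be e k β (u s) (u' s)) w := by
      rw [hα, MixA_al_apply]
      have e1 : MixA_v ee (Mxn_be e k β) x = fun s => Mxn_be e k β (u s) (u' s) := by
        funext s
        unfold MixA_v
        rw [hx0, hx1]
      have e2 : MixA_w ee (Mix_pi κ k) x = w := by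
        funext s j l
        unfold MixA_w
        rw [hxr]
        show (Fin.cons 0 (w s j) : Fin (k j + 1) → κ j → ℂ) l.succ = w s j l
        rw [Fin.cons_succ]
      rw [e1, e2]
    rw [← hαx]
    refine Mxn_num ϖ hϖ p _ fun D => ?_
    -- the derivative
    have h1 := derivForm_of_alg (SBP (fun j => k j + 1) κ) D α (fun s => hαA _ (fun r i m j => by
        rw [SBP_apply]
        apply slot_isAlg
        intro j'
        by_cases h : j' = (s r).2.2
        · subst h; rw [Pi.single_eq_same]; exact isAlgebraic_one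
        · rw [Pi.single_eq_of_ne h]; exact isAlgebraic_zero)) x
    rw [← Equiv.sum_comp ee, Fintype.sum_sum_type, Finset.sum_eq_zero, zero_add] at h1
    · have h2 : ∀ s : Fin (2 * p), nabla (SBP (fun j => k j + 1) κ) D (x (ee (.inr s))) =
          lift (fun j => k j + 1) (fun j => (P j).N D) (x (ee (.inr s))) := by
        intro s
        refine Mxn_rat _ P D _ fun j l => ?_
        rw [hxr]
        show (Fin.cons 0 (w s j) : Fin (k j + 1) → κ j → ℂ) l ∈ (P j).Q
        refine Fin.cases ?_ (fun l => ?_) l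
        · rw [Fin.cons_zero]
          exact Submodule.zero_mem _
        · rw [Fin.cons_succ]
          exact hw s j l
      rw [Finset.sum_congr rfl fun s _ => by rw [h2 s]] at h1
      -- the comparison operators
      have h3 := congrArg (fun G => G x) (isInv_N (fun j => k j + 1) P α hϖ hαB hαA D).form
      have h4 : actForm (lift (fun j => k j + 1) (fun j => (P j).N D)) α x =
          (((n + p : ℕ) : ℂ) * (D ϖ / ϖ)) • α x := h3
      rw [actForm_apply, ← Equiv.sum_comp ee, Fintype.sum_sum_type] at h4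
      -- the operators without multiplier
      have h5 := congrArg (fun G => G x) (hK D (n + p) α hαB hαA)
      have h6 : actForm (lift (fun j => k j + 1) (NE e P D)) α x = 0 := h5
      rw [actForm_apply, ← Equiv.sum_comp ee, Fintype.sum_sum_type] at h6
      have h7 : ∀ s : Fin (2 * p),
          lift (fun j => k j + 1) (NE e P D) (x (ee (.inr s))) = 0 := by
        intro s
        funext j l
        rw [lift_apply, hxr]
        show NE e P D j ((Fin.cons 0 (w s j) : Fin (k j + 1) → κ j → ℂ) l) = 0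
        unfold NE
        split_ifs with hj
        · obtain ⟨i, rfl⟩ := hj
          have hl : l = 0 := by
            apply Fin.ext
            have h8 : (l : ℕ) < k (e i) + 1 := l.2
            have h9 := hk i
            show (l : ℕ) = 0
            omega
          rw [hl, Fin.cons_zero, map_zero]
        · rfl
      have h8 : ∀ t : Fin 2 × Fin n, lift (fun j => k j + 1) (NE e P D) (x (ee (.inl t))) =
          lift (fun j => k j + 1) (fun j => (P j).N D) (x (ee (.inl t))) -
            (D ϖ / ϖ / 2) • x (ee (.inl t)) := by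
        intro t
        funext j l
        show NE e P D j (x (ee (.inl t)) j l) =
          (P j).N D (x (ee (.inl t)) j l) - (D ϖ / ϖ / 2) • x (ee (.inl t)) j l
        unfold NE
        split_ifs with hj
        · rfl
        · have h9 := (hxa t).2 j fun i hi => hj ⟨i, hi⟩
          rw [h9]
          show (0 : κ j → ℂ) = (P j).N D 0 - (D ϖ / ϖ / 2) • (0 : κ j → ℂ)
          rw [map_zero, smul_zero, sub_zero]
      have h9 : ∀ t : Fin 2 × Fin n, α (Function.update x (ee (.inl t))
          (lift (fun j => k j + 1) (NE e P D) (x (ee (.inl t))))) =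
          α (Function.update x (ee (.inl t))
            (lift (fun j => k j + 1) (fun j => (P j).N D) (x (ee (.inl t))))) -
            (D ϖ / ϖ / 2) * α x := by
        intro t
        rw [h8, MultilinearMap.map_update_sub, MultilinearMap.map_update_smul,
          Function.update_eq_self, smul_eq_mul]
      have h10 : ∑ s : Fin (2 * p), α (Function.update x (ee (.inr s))
          (lift (fun j => k j + 1) (NE e P D) (x (ee (.inr s))))) = 0 := by
        refine Finset.sum_eq_zero fun s _ => ?_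
        rw [h7 s]
        exact α.map_coord_zero _ (by rw [Function.update_self])
      rw [h10, add_zero, Finset.sum_congr rfl fun t _ => h9 t, Finset.sum_sub_distrib,
        Finset.sum_const, Finset.card_univ, Fintype.card_prod, Fintype.card_fin,
        Fintype.card_fin] at h6
      rw [h1]
      rw [smul_eq_mul] at h4
      rw [nsmul_eq_mul] at h6
      push_cast at h4 h6
      linear_combination h4 - h6
    · intro t _
      rw [Mxn_alg _ D _ (hxa t).1]
      exact α.map_coord_zero _ (by rw [Function.update_self])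
  -- step (2)
  have hsd : ∀ (s : Fin n) (i : I), ∃ (N : ℕ) (q : Fin N → ℂ) (a b : Fin N → κ (e i)),
      (∀ l, IsAlgebraic ℚ (q l)) ∧
      v s i = ∑ l, q l • β i (Pi.single (a l) 1) (Pi.single (b l) 1) := by
    intro s i
    have hs1 : ∀ a : κ (e i), ∀ j, IsAlgebraic ℚ ((Pi.single a (1 : ℂ) : κ (e i) → ℂ) j) := by
      intro a j
      by_cases h : j = a
      · subst h; rw [Pi.single_eq_same]; exact isAlgebraic_one
      · rw [Pi.single_eq_of_ne h]; exact isAlgebraic_zero
    obtain ⟨N, q, y, h1, h2, h3⟩ := hDsp (TC (K i) (m i)) (κ (e i) × κ (e i)) (Mxn_O (t i))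
      (Mxn_O_inj (S i)) {w | ∃ a b, w = β i (Pi.single a 1) (Pi.single b 1)}
      (by
        rintro _ ⟨a, b, rfl⟩ x
        rw [Mxn_O_apply]
        exact hβA i _ _ (hs1 a) (hs1 b) _ _) (Mxn_span (β i) (hβS i)) (v s i)
      (fun x => by
        rw [Mxn_O_apply]
        exact hv s i _ _)
    choose a b hab using h2
    refine ⟨N, q, a, b, h1, ?_⟩
    rw [h3]
    exact Finset.sum_congr rfl fun l _ => by rw [hab l]
  choose N q a b hq hvs using hsd
  have hbe : ∀ (i : I) (x y : κ (e i) → ℂ),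
      Mxn_be e k β (slot (fun j => k j + 1) (e i) 0 x) (slot (fun j => k j + 1) (e i) 0 y) =
        Pi.single i (β i x y) := by
    intro i x y
    funext i'
    rw [Mxn_be_apply]
    by_cases hi : i' = i
    · subst hi
      rw [Pi.single_eq_same]
      simp [slot]
    · rw [Pi.single_eq_of_ne hi]
      have h1 : slot (κ := κ) (fun j => k j + 1) (e i) 0 x (e i') = 0 := by
        unfold slot
        exact Pi.single_eq_of_ne (fun h => hi (he h)) _
      rw [h1]
      show β i' 0 _ = 0
      rw [map_zero, LinearMap.zero_apply]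
  have hvv : v = fun s => ∑ z : (i : I) × Fin (N s i), q s z.1 z.2 •
      Mxn_be e k β (slot (fun j => k j + 1) (e z.1) 0 (Pi.single (a s z.1 z.2) 1))
        (slot (fun j => k j + 1) (e z.1) 0 (Pi.single (b s z.1 z.2) 1)) := by
    funext s
    rw [Fintype.sum_sigma]
    have h1 : v s = ∑ i, Pi.single i (v s i) := (Finset.univ_sum_single (v s)).symm
    rw [h1]
    refine Finset.sum_congr rfl fun i _ => ?_
    have h2 : ∀ l : Fin (N s i), q s i l •
        Mxn_be e k β (slot (fun j => k j + 1) (e i) 0 (Pi.single (a s i l) 1))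
          (slot (fun j => k j + 1) (e i) 0 (Pi.single (b s i l) 1)) =
        (LinearMap.single ℂ (fun i => TC (K i) (m i)) i)
          (q s i l • β i (Pi.single (a s i l) 1) (Pi.single (b s i l) 1)) := by
      intro l
      rw [hbe, map_smul]
      rfl
    rw [Finset.sum_congr rfl fun l _ => h2 l, ← map_sum, ← hvs]
    rfl
  have h10 : F v w / ϖ ^ p = ∑ r : (s : Fin n) → (i : I) × Fin (N s i),
      (∏ s, q s (r s).1 (r s).2) * (F (fun s =>
        Mxn_be e k β (slot (fun j => k j + 1) (e (r s).1) 0 (Pi.single (a s (r s).1 (r s).2) 1))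
        (slot (fun j => k j + 1) (e (r s).1) 0 (Pi.single (b s (r s).1 (r s).2) 1))) w / ϖ ^ p) := by
    conv_lhs => rw [hvv]
    rw [MultilinearMap.map_sum, _root_.sum_apply, Finset.sum_div]
    refine Finset.sum_congr rfl fun r _ => ?_
    rw [MultilinearMap.map_smul_univ, _root_.smul_apply, smul_eq_mul, mul_div_assoc]
  rw [h10]
  refine Finset.sum_induction _ (fun z : ℂ => IsAlgebraic ℚ z) (fun a b ha hb => ha.add hb)
    isAlgebraic_zero fun r _ => IsAlgebraic.mul ?_ ?_
  · refine Finset.prod_induction _ (fun z : ℂ => IsAlgebraic ℚ z) (fun a b ha hb => ha.mul hb)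
      isAlgebraic_one fun s _ => hq _ _ _
  · have hs1 : ∀ (j : J) (a : κ j) (j' : κ j),
        IsAlgebraic ℚ ((Pi.single a (1 : ℂ) : κ j → ℂ) j') := by
      intro j a j'
      by_cases h : j' = a
      · subst h; rw [Pi.single_eq_same]; exact isAlgebraic_one
      · rw [Pi.single_eq_of_ne h]; exact isAlgebraic_zero
    refine key _ _ (fun s => slot_isAlg _ _ _ _ (hs1 _ _)) (fun s => slot_isAlg _ _ _ _ (hs1 _ _))
      (fun s j hj => ?_) (fun s j hj => ?_)
    · unfold slot
      exact Pi.single_eq_of_ne (fun h => hj _ h.symm) _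
    · unfold slot
      exact Pi.single_eq_of_ne (fun h => hj _ h.symm) _

end Pool.Agent.KTW
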