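import Pool.Agent.KTW.StZ
import Pool.Agent.KTP.Mix

/-!
# KTW [Mxz]: forms with variables in `T_i` and in `H_1(A_i)`, diagonal operators
-/

set_option autoImplicit false
set_option linter.unusedSectionVars false

namespace Pool.Agent.KTW

open Module Matrix NumberField Pool.Agent.Helper7 Pool.Agent.KS Pool.Agent.Ball Pool.Agent.KSE
  Pool.Agent.Helper28.GPC Pool.Agent.K3P Pool.Agent.KTP
open Pool.Agent.GPC (TC)

section

variable {I : Type} {K : I → Type} [∀ i, Field (K i)] [∀ i, NumberField (K i)]
  {m : I → ℕ}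

/-- the action on the vectors of all `T_i` -/
noncomputable def Mxz_L (M : ∀ i, (K i →+* ℂ) → Matrix (Fin (m i)) (Fin (m i)) ℂ) :
    Module.End ℂ (TF K m) where
  toFun y := fun i => Inv_op (M i) (y i)
  map_add' y y' := by
    funext i
    rw [Pi.add_apply, map_add, Pi.add_apply]
  map_smul' r y := by
    funext i
    rw [Pi.smul_apply, map_smul]
    rfl

end

theorem thm_Mxz (hB : St_Bet) : St_Mxz := by
  intro I _ _ κ _ _ _ ϖ P K _ _ c m h t hϖ S Z M hZM hM k hK n p F hQ hA v w
  choose β hβ hβQ hβA hβS using fun i => hB (κ i) ϖ (P i) (K i) (c i) (m i) (h i) (t i) hϖ (S i)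
  obtain ⟨e⟩ : Nonempty ((Fin 2 × Fin n) ⊕ Fin (2 * p) ≃ Fin (2 * (n + p))) := by
    refine ⟨Fintype.equivFinOfCardEq ?_⟩
    rw [Fintype.card_sum, Fintype.card_prod, Fintype.card_fin, Fintype.card_fin, Fintype.card_fin,
      mul_add]
  -- the forms `ψ`
  have hψ : ∀ i u v, (P i).ψ (Z i u) v + (P i).ψ u (Z i v) = 0 := by
    intro i u v
    have h1 := hK 1 ((Inv_two (P i).ψ).compLinearMap fun _ => Mix_pr κ k i) ?_ ?_
    · have h2 := congrArg (fun G => G (![Pi.single i fun _ => u, Pi.single i fun _ => v] :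
        Fin 2 → HW κ (fun i => k i + 1))) h1
      have h3 : actForm (lift (fun i => k i + 1) Z)
          ((Inv_two (P i).ψ).compLinearMap fun _ => Mix_pr κ k i)
          (![Pi.single i fun _ => u, Pi.single i fun _ => v] :
            Fin 2 → HW κ (fun i => k i + 1)) = 0 := h2
      rw [actForm_apply, Fin.sum_univ_two, MultilinearMap.compLinearMap_apply,
        MultilinearMap.compLinearMap_apply, Inv_two_apply, Inv_two_apply] at h3
      simpa [Mix_pr, lift_apply] using h3
    · intro w hw
      obtain ⟨q, hq⟩ := (P i).hψQ _ (hw 0 i 0) _ (hw 1 i 0)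
      exact ⟨q, by rw [pow_one]; exact hq⟩
    · intro w hw
      exact psi_alg (P i).ψ (P i).hψalg _ _ (hw 0 i 0) (hw 1 i 0)
  have hL : ∀ u v, Mix_be k β (lift (fun i => k i + 1) Z u) v +
      Mix_be k β u (lift (fun i => k i + 1) Z v) = Mxz_L M (Mix_be k β u v) := by
    intro u v
    funext i
    show β i (Z i (u i 0)) (v i 0) + β i (u i 0) (Z i (v i 0)) =
      Inv_op (M i) (β i (u i 0) (v i 0))
    exact Inv_beta (hZM i) (hM i) (S i).nd (P i).ψ (β i) (hβ i) (hψ i) _ _
  have h1 := hK (n + p) (MixA_al e (Mix_be k β) (Mix_pi κ k) F) ?_ ?_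
  · have h2 : actForm (Mxz_L M) ((Mix_ev w).compMultilinearMap F) +
        ∑ s, (Mix_ev (Function.update w s (lift k Z (w s)))).compMultilinearMap F = 0 := by
      refine Inv_span _ _ (Mix_span β hβS) ?_
      intro v hv
      choose u u' hu using hv
      obtain ⟨W, hW0, hW1, hWr⟩ : ∃ W : Fin (2 * (n + p)) → HW κ (fun i => k i + 1),
          (∀ s i, W (e (.inl (0, s))) i 0 = u s i) ∧ (∀ s i, W (e (.inl (1, s))) i 0 = u' s i) ∧
          ∀ s i l, W (e (.inr s)) i l.succ = w s i l := by
        refine ⟨fun r => Sum.elim (fun t : Fin 2 × Fin n => fun i => (Fin.cons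
          (if t.1 = 0 then u t.2 i else u' t.2 i) (fun _ => 0) : Fin (k i + 1) → κ i → ℂ))
          (fun s i => (Fin.cons 0 (w s i) : Fin (k i + 1) → κ i → ℂ)) (e.symm r), ?_, ?_, ?_⟩
        · intro s i
          simp only [Equiv.symm_apply_apply, Sum.elim_inl, Fin.cons_zero, if_pos]
        · intro s i
          simp only [Equiv.symm_apply_apply, Sum.elim_inl, Fin.cons_zero, one_ne_zero, if_false]
        · intro s i l
          simp only [Equiv.symm_apply_apply, Sum.elim_inr, Fin.cons_succ]
      have h3 := MixA_act e (Mix_be k β) (Mix_pi κ k) F _ (lift k Z)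
        (Mxz_L M) hL (fun u => rfl) W
      rw [h1] at h3
      have e1 : MixA_v e (Mix_be k β) W = v := by
        funext s i
        unfold MixA_v
        rw [Mix_be_apply, hW0, hW1, hu s]
      have e2 : MixA_w e (Mix_pi κ k) W = w := by
        funext s i l
        exact hWr s i l
      rw [e1, e2] at h3
      rw [_root_.add_apply, _root_.sum_apply, actForm_apply]
      exact h3.symm
    have h3 : (actForm (Mxz_L M) ((Mix_ev w).compMultilinearMap F) +
        ∑ s, (Mix_ev (Function.update w s (lift k Z (w s)))).compMultilinearMap F) v = 0 := by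
      rw [h2]
      rfl
    rw [_root_.add_apply, _root_.sum_apply, actForm_apply] at h3
    exact h3
  · intro u hu
    choose y hy using fun (s : Fin n) (i : I) => hβQ i _ (hu (e (.inl (0, s))) i 0) _
      (hu (e (.inl (1, s))) i 0)
    obtain ⟨q, hq⟩ := hQ y (MixA_w e (Mix_pi κ k) u) (fun s i l => hu (e (.inr s)) i l.succ)
    refine ⟨q, ?_⟩
    rw [MixA_al_apply]
    have e1 : MixA_v e (Mix_be k β) u = fun s => ϖ • embF (y s) := by
      funext s i
      exact hy s i
    rw [e1, MultilinearMap.map_smul_univ F (fun _ => ϖ) fun r => embF (y r), Finset.prod_const,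
      Finset.card_univ, Fintype.card_fin, _root_.smul_apply, hq, smul_eq_mul, pow_add]
    ring
  · intro u hu
    exact hA _ _ (fun s i => hβA i _ _ (hu _ i 0) (hu _ i 0)) fun s i l => hu _ i l.succ

end Pool.Agent.KTW
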