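import Pool.Agent.KTW.StZ

/-!
# KTW: RPS, Goursat's lemma with links (helper82)

Induction on a finset `S` of indices: there is `X ∈ R` with `X i = D i` for all `i ∈ S`. In the step from
`S` to `insert j S`: if every `i ∈ S` has a `Y ∈ R` with `Y i = 0`, `Y j ≠ 0`, then the values at `j` of the elements of
`R` which vanish on `S` are all skew operators (as in `KSP.goursat`), and `X` can be corrected at `j`.
Otherwise `j` is linked with some `i ∈ S` and `X j = D j` by the hypothesis.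
-/

set_option autoImplicit false

namespace Pool.Agent.KTW

open Module Matrix Pool.Agent.KSP Pool.Agent.KSP.Goursat

section

variable {I : Type} {d : I → ℕ}
    (hd : ∀ i, d i = 3 ∨ 5 ≤ d i) {q : ∀ i, LinearMap.BilinForm ℂ (Fin (d i) → ℂ)}
    (hs : ∀ i x y, q i x y = q i y x) (hnd : ∀ i, (q i).Nondegenerate)
    {R : Submodule ℂ (∀ i, Module.End ℂ (Fin (d i) → ℂ))}
    (hbr : ∀ X ∈ R, ∀ Y ∈ R, X * Y - Y * X ∈ R) (hsk : ∀ X ∈ R, ∀ i, Skw (q i) (X i))
    (hpr : ∀ i A, Skw (q i) A → ∃ X ∈ R, X i = A)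

include hd hs hnd hbr hsk hpr

lemma Rps_top (i : I) (S : Finset I) (hB : ∃ B ∈ comp d R i S, B ≠ 0)
    (M : Module.End ℂ (Fin (d i) → ℂ)) (hM : Skw (q i) M) : M ∈ comp d R i S := by
  obtain ⟨B, hB, hB0⟩ := hB
  refine ideal_top (hd i) (q i) (hs i) (hnd i) (comp d R i S) ?_ ?_ B hB hB0 M hM
  · rintro A ⟨X, hX, -, rfl⟩
    exact hsk X hX i
  · rintro A ⟨X, hX, hX0, rfl⟩ N hN
    obtain ⟨Y, hY, rfl⟩ := hpr i N hN
    refine ⟨Y * X - X * Y, hbr Y hY X hX, fun j hj => ?_, rfl⟩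
    rw [Pi.sub_apply, Pi.mul_apply, Pi.mul_apply, hX0 j hj, mul_zero, zero_mul, sub_zero]

lemma Rps_key [DecidableEq I] (i : I) (S : Finset I)
    (hnl : ∀ j ∈ S, ∃ X ∈ R, X j = 0 ∧ X i ≠ 0)
    (M : Module.End ℂ (Fin (d i) → ℂ)) (hM : Skw (q i) M) : M ∈ comp d R i S := by
  induction S using Finset.induction_on generalizing M with
  | empty =>
    obtain ⟨X, hX, rfl⟩ := hpr i M hM
    exact ⟨X, hX, fun j hj => absurd hj (Finset.notMem_empty j), rfl⟩
  | insert j S hj ih =>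
    apply Rps_top hd hs hnd hbr hsk hpr i (insert j S) _ M hM
    obtain ⟨B, C, hB, hC, hBC⟩ := exists_noncomm
      (by rcases hd i with h | h <;> omega) (q i) (hs i) (hnd i)
    obtain ⟨X, hX, hX0, rfl⟩ := ih (fun j hj => hnl j (Finset.mem_insert_of_mem hj)) B hB
    have h1 : ∃ D ∈ comp d R i {j}, D ≠ 0 := by
      obtain ⟨Z, hZ, hZ0, hZi⟩ := hnl j (Finset.mem_insert_self _ _)
      exact ⟨Z i, ⟨Z, hZ, fun k hk => by rw [Finset.mem_singleton] at hk; subst hk; exact hZ0,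
        rfl⟩, hZi⟩
    obtain ⟨Y, hY, hY0, rfl⟩ := Rps_top hd hs hnd hbr hsk hpr i {j} h1 C hC
    refine ⟨X i * Y i - Y i * X i, ⟨X * Y - Y * X, hbr X hX Y hY, fun k hk => ?_, rfl⟩, hBC⟩
    rcases Finset.mem_insert.1 hk with rfl | hk
    · rw [Pi.sub_apply, Pi.mul_apply, Pi.mul_apply, hY0 k (Finset.mem_singleton_self k),
        mul_zero, zero_mul, sub_zero]
    · rw [Pi.sub_apply, Pi.mul_apply, Pi.mul_apply, hX0 k hk, mul_zero, zero_mul, sub_zero]

/-- one direction of a link gives the other one -/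
lemma Rps_link (i j : I) (h : ∀ Y ∈ R, Y i = 0 → Y j = 0) : ∀ Y ∈ R, Y j = 0 → Y i = 0 := by
  intro Y hY hYj
  by_contra hYi
  obtain ⟨A, hA, hA0⟩ := exists_skw (by rcases hd j with h | h <;> omega) (q j) (hs j) (hnd j)
  obtain ⟨Y', hY', rfl⟩ := hpr j A hA
  obtain ⟨Z, hZ, hZ0, hZi⟩ := Rps_top hd hs hnd hbr hsk hpr i {j}
    ⟨Y i, ⟨Y, hY, fun k hk => by rw [Finset.mem_singleton] at hk; subst hk; exact hYj, rfl⟩, hYi⟩
    (Y' i) (hsk Y' hY' i)
  have h1 := h (Y' - Z) (R.sub_mem hY' hZ) (by rw [Pi.sub_apply, hZi, sub_self])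
  rw [Pi.sub_apply, hZ0 j (Finset.mem_singleton_self j), sub_zero] at h1
  exact hA0 h1

end

/-- [RPS] Goursat's lemma with links -/
theorem thm_Rps : St_Rps := by
  intro I _ _ d hd q hs hnd R hbr hsk hpr D hD hl
  have key : ∀ S : Finset I, ∃ X ∈ R, ∀ i ∈ S, X i = D i := by
    intro S
    induction S using Finset.induction_on with
    | empty => exact ⟨0, R.zero_mem, fun i hi => absurd hi (Finset.notMem_empty i)⟩
    | insert j S hj ih =>
      obtain ⟨X, hX, hXD⟩ := ih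
      by_cases hex : ∃ i ∈ S, ∀ Y ∈ R, Y i = 0 → Y j = 0
      · obtain ⟨i, hi, h1⟩ := hex
        have h2 := Rps_link hd hs hnd hbr hsk hpr i j h1
        refine ⟨X, hX, fun k hk => ?_⟩
        rcases Finset.mem_insert.1 hk with rfl | hk
        · exact hl i k (fun Y hY => ⟨h1 Y hY, h2 Y hY⟩) X hX (hXD i hi)
        · exact hXD k hk
      · push Not at hex
        obtain ⟨Y, hY, hY0, hYj⟩ := Rps_key hd hs hnd hbr hsk hpr j S hex (D j - X j) (by
          intro u v
          have e1 := hD j u v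
          have e2 := hsk X hX j u v
          rw [LinearMap.sub_apply, LinearMap.sub_apply, map_sub, map_sub, LinearMap.sub_apply]
          linear_combination e1 - e2)
        refine ⟨X + Y, R.add_mem hX hY, fun k hk => ?_⟩
        rw [Pi.add_apply]
        rcases Finset.mem_insert.1 hk with rfl | hk
        · rw [hYj, add_sub_cancel]
        · rw [hXD k hk, hY0 k hk, add_zero]
  obtain ⟨X, hX, hXD⟩ := key Finset.univ
  have h1 : D = X := funext fun i => (hXD i (Finset.mem_univ i)).symm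
  rw [h1]
  exact hX

end Pool.Agent.KTW
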