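import Pool.Agent.KTW.StW

/-!
# KTW [Spn]: the rational vectors and the de Rham vectors span
-/

set_option autoImplicit false
set_option linter.unusedSectionVars false

namespace Pool.Agent.KTW

open Module Matrix NumberField Pool.Agent.Helper7 Pool.Agent.KS Pool.Agent.Ball Pool.Agent.KSE
  Pool.Agent.Helper28.GPC Pool.Agent.K3P Pool.Agent.KTP
open Pool.Agent.GPC (AbVar TC IsRatT HU)

lemma Spn_prod {I : Type} [Fintype I] [DecidableEq I] (r : ℕ) (T : I → Type)
    [∀ i, AddCommGroup (T i)] [∀ i, Module ℂ (T i)] (p : ℂ → Prop) (h0 : p 0) (h1 : p 1)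
    (D : ∀ i, T i → Prop) (hD0 : ∀ i, D i 0) (hD : ∀ i, Submodule.span ℂ {x | D i x} = ⊤) :
    Submodule.span ℂ {v : (Fin r → ℂ) × (∀ i, T i) | (∀ a, p (v.1 a)) ∧ ∀ i, D i (v.2 i)} =
      ⊤ := by
  rw [eq_top_iff]
  rintro ⟨a, b⟩ -
  have e1 : ((a, b) : (Fin r → ℂ) × (∀ i, T i)) =
      ∑ s, a s • (LinearMap.inl ℂ (Fin r → ℂ) (∀ i, T i) (Pi.single s 1)) +
      ∑ i, LinearMap.inr ℂ (Fin r → ℂ) (∀ i, T i) (Pi.single i (b i)) := by
    have h2 : a = ∑ s, a s • (Pi.single s 1 : Fin r → ℂ) := by
      funext s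
      rw [Finset.sum_apply, Finset.sum_eq_single s]
      · rw [Pi.smul_apply, Pi.single_eq_same, smul_eq_mul, mul_one]
      · intro t _ ht
        rw [Pi.smul_apply, Pi.single_eq_of_ne (Ne.symm ht), smul_zero]
      · intro hs
        exact absurd (Finset.mem_univ _) hs
    have h3 : b = ∑ i, Pi.single i (b i) := (Finset.univ_sum_single b).symm
    have h4 : ∑ s, a s • (LinearMap.inl ℂ (Fin r → ℂ) (∀ i, T i) (Pi.single s 1)) =
        LinearMap.inl ℂ (Fin r → ℂ) (∀ i, T i) a := by
      conv_rhs => rw [h2]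
      rw [map_sum]
      exact Finset.sum_congr rfl fun s _ => (map_smul _ _ _).symm
    have h5 : ∑ i, LinearMap.inr ℂ (Fin r → ℂ) (∀ i, T i) (Pi.single i (b i)) =
        LinearMap.inr ℂ (Fin r → ℂ) (∀ i, T i) b := by
      conv_rhs => rw [h3]
      rw [map_sum]
    rw [h4, h5, LinearMap.inl_apply, LinearMap.inr_apply, Prod.mk_add_mk, add_zero, zero_add]
  rw [e1]
  refine Submodule.add_mem _ (Submodule.sum_mem _ fun s _ => Submodule.smul_mem _ _ ?_)
    (Submodule.sum_mem _ fun i _ => ?_)
  · refine Submodule.subset_span ⟨fun t => ?_, fun i => ?_⟩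
    · show p ((Pi.single s 1 : Fin r → ℂ) t)
      by_cases ht : t = s
      · subst ht
        rw [Pi.single_eq_same]
        exact h1
      · rw [Pi.single_eq_of_ne ht]
        exact h0
    · exact hD0 i
  · have h2 : b i ∈ Submodule.span ℂ {x | D i x} := by
      rw [hD i]
      exact Submodule.mem_top
    have h3 : Submodule.map ((LinearMap.inr ℂ (Fin r → ℂ) (∀ i, T i)).comp
        (LinearMap.single ℂ T i)) (Submodule.span ℂ {x | D i x}) ≤
        Submodule.span ℂ {v : (Fin r → ℂ) × (∀ i, T i) |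
          (∀ a, p (v.1 a)) ∧ ∀ i, D i (v.2 i)} := by
      rw [Submodule.map_span, Submodule.span_le]
      rintro _ ⟨x, hx, rfl⟩
      refine Submodule.subset_span ⟨fun t => h0, fun j => ?_⟩
      show D j ((Pi.single i x : ∀ i, T i) j)
      by_cases hj : j = i
      · subst hj
        rw [Pi.single_eq_same]
        exact hx
      · rw [Pi.single_eq_of_ne hj]
        exact hD0 j
    exact h3 ⟨b i, h2, rfl⟩

theorem thm_Spn (hR : St_Rtb) : St_Spn := by
  intro I _ _ A K _ _ c m S hg r
  have hκ : ∀ i, Nonempty (Fin (A i).g ⊕ Fin (A i).g) :=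
    fun i => ⟨Sum.inl ⟨0, Nat.pos_of_ne_zero (hg i)⟩⟩
  have hϖ := Complex.two_pi_I_ne_zero
  have hnd : ∀ i, (S i).h.det ≠ 0 := by
    intro i
    obtain ⟨σ₀, x, hx, -, -⟩ := (S i).hodge
    exact k3_nd (S i).conjugation (S i).hermitian hx
  have MM := fun i => mde (A i) (S i) (hnd i)
  constructor
  · refine Spn_prod r (fun i => TC (K i) (m i)) (fun z => ∃ p : ℚ, z = p) ⟨0, by simp⟩
      ⟨1, by simp⟩ (fun i x => IsRatT x) (fun i => ⟨0, fun σ a => (map_zero σ).symm⟩) fun i => ?_
    have h1 := (hR (K i) (c i) (m i) (S i).h (S i).conjugation (S i).hermitian (hnd i)).2.1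
    rw [eq_top_iff, ← h1]
    refine Submodule.span_mono ?_
    rintro w ⟨x, rfl⟩
    exact ⟨x, fun σ a => rfl⟩
  · refine Spn_prod r (fun i => TC (K i) (m i)) (fun z => IsAlgebraic ℚ z) isAlgebraic_zero
      isAlgebraic_one (fun i x => (S i).IsDRT x) (fun i => ?_) fun i => ?_
    · rw [asm_dr]
      intro a b
      have h3 : opT (lt (A i) (S i)) (0 : TC (K i) (m i)) = 0 := by
        rw [opT]
        exact Finset.sum_eq_zero fun σ _ => map_zero _
      rw [h3]
      exact isAlgebraic_zero
    · obtain ⟨β, -, -, h2, h1⟩ := thm_Bet thm_Drb hR _ _ (pData (A i)) (K i) (c i) (m i)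
        (S i).h (lt (A i) (S i)) hϖ (MM i)
      rw [eq_top_iff, ← h1, Submodule.span_le]
      rintro w ⟨u, v, rfl⟩
      have hs : ∀ a b : Fin (A i).g ⊕ Fin (A i).g,
          β (Pi.single a 1) (Pi.single b 1) ∈ Submodule.span ℂ {x | (S i).IsDRT x} := by
        intro a b
        refine Submodule.subset_span ?_
        rw [Set.mem_setOf_eq, asm_dr]
        refine h2 _ _ (fun j => ?_) (fun j => ?_)
        · by_cases hj : j = a
          · subst hj
            rw [Pi.single_eq_same]
            exact isAlgebraic_one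
          · rw [Pi.single_eq_of_ne hj]
            exact isAlgebraic_zero
        · by_cases hj : j = b
          · subst hj
            rw [Pi.single_eq_same]
            exact isAlgebraic_one
          · rw [Pi.single_eq_of_ne hj]
            exact isAlgebraic_zero
      have hu : ∀ u : Fin (A i).g ⊕ Fin (A i).g → ℂ,
          u = ∑ a, u a • (Pi.single a 1 : Fin (A i).g ⊕ Fin (A i).g → ℂ) := by
        intro u
        funext k
        rw [Finset.sum_apply, Finset.sum_eq_single k]
        · rw [Pi.smul_apply, Pi.single_eq_same, smul_eq_mul, mul_one]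
        · intro i _ hi
          rw [Pi.smul_apply, Pi.single_eq_of_ne (Ne.symm hi), smul_zero]
        · intro hk; exact absurd (Finset.mem_univ _) hk
      rw [SetLike.mem_coe, hu u, hu v, map_sum]
      refine Submodule.sum_mem _ fun b _ => ?_
      rw [map_smul, map_sum, LinearMap.sum_apply]
      refine Submodule.smul_mem _ _ (Submodule.sum_mem _ fun a _ => ?_)
      rw [map_smul, LinearMap.smul_apply]
      exact Submodule.smul_mem _ _ (hs a b)

end Pool.Agent.KTW
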