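import Pool.Agent.KTW.StW

/-!
# KTW [Tns]: linear algebra of multilinear forms with rational and algebraic values
-/

set_option autoImplicit false

namespace Pool.Agent.KTW

variable {V N : Type} [AddCommGroup V] [Module ℂ V] [AddCommGroup N] [Module ℂ N]

/-- a dual system for the evaluations at `P`-tuples, with coefficients in `k` -/
theorem Tns_gen (k : Type) [Field k] [Algebra k ℂ] (P : V → Prop)
    (hP : Submodule.span ℂ {v | P v} = ⊤) {n L : ℕ}
    (G : Fin L → MultilinearMap ℂ (fun _ : Fin n => V) ℂ) (hG : LinearIndependent ℂ G)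
    (hk : ∀ a, ∀ v : Fin n → V, (∀ s, P (v s)) → ∃ x : k, G a v = algebraMap k ℂ x) :
    ∃ (S : Fin L → Fin L → k) (v : Fin L → Fin n → V), (∀ b s, P (v b s)) ∧
      ∀ a a', ∑ b, algebraMap k ℂ (S a b) * G a' (v b) = if a = a' then 1 else 0 := by
  classical
  set s : Set (Fin L → ℂ) := {y | ∃ v : Fin n → V, (∀ r, P (v r)) ∧ y = fun a => G a v} with hs
  have hspan : Submodule.span ℂ s = ⊤ := by
    by_contra hne
    obtain ⟨f, hf0, hf⟩ := Submodule.exists_le_ker_of_lt_top _ (lt_top_iff_ne_top.mpr hne)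
    apply hf0
    have hz : ∑ a, f (Pi.single a 1) • G a = 0 := by
      refine Pool.Agent.K3P.Inv_span _ {v | P v} hP fun v hv => ?_
      have h1 : f (fun a => G a v) = 0 := hf (Submodule.subset_span ⟨v, hv, rfl⟩)
      have h2 : (fun a => G a v) = ∑ a, G a v • (Pi.single a 1 : Fin L → ℂ) := by
        ext b
        simp [Finset.sum_apply, Pi.single_apply]
      rw [h2, map_sum] at h1
      rw [_root_.sum_apply]
      rw [← h1]
      refine Finset.sum_congr rfl fun a _ => ?_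
      rw [_root_.smul_apply, map_smul, smul_eq_mul, smul_eq_mul, mul_comm]
    have h3 := Fintype.linearIndependent_iff.mp hG _ hz
    refine LinearMap.pi_ext' fun a => LinearMap.ext_ring ?_
    simpa using h3 a
  have hL : Module.finrank ℂ (Submodule.span ℂ s) = L := by
    rw [hspan, finrank_top]; simp
  obtain ⟨w, hw, -, hli⟩ := Submodule.exists_fun_fin_finrank_span_eq ℂ s
  have hw' : ∀ b : Fin L, ∃ v : Fin n → V, (∀ r, P (v r)) ∧
      w (finCongr hL.symm b) = fun a => G a v := fun b => hw _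
  choose v hv hvw using hw'
  choose x hx using fun (b a : Fin L) => hk a (v b) (hv b)
  set R : Matrix (Fin L) (Fin L) k := Matrix.of x with hR
  have hRm : R.map (algebraMap k ℂ) = Matrix.of fun b a => G a (v b) := by
    ext b a
    simp [hR, hx]
  have hunit : IsUnit (R.map (algebraMap k ℂ)) := by
    rw [hRm, ← Matrix.linearIndependent_rows_iff_isUnit]
    have h4 := hli.comp _ (finCongr hL.symm).injective
    have h5 : (Matrix.of fun b a => G a (v b) : Matrix (Fin L) (Fin L) ℂ).row =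
        w ∘ finCongr hL.symm := by
      funext b
      exact (hvw b).symm
    rw [h5]
    exact h4
  have hdet : IsUnit R.det := by
    rw [Matrix.isUnit_iff_isUnit_det, ← RingHom.mapMatrix_apply, ← RingHom.map_det] at hunit
    rw [isUnit_iff_ne_zero] at hunit ⊢
    intro h0
    rw [h0, map_zero] at hunit
    exact hunit rfl
  refine ⟨fun a b => R⁻¹ a b, v, hv, fun a a' => ?_⟩
  have h6 := congrFun (congrFun (Matrix.nonsing_inv_mul R hdet) a) a'
  rw [Matrix.mul_apply, Matrix.one_apply] at h6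
  have h7 := congrArg (algebraMap k ℂ) h6
  rw [map_sum] at h7
  have h8 : ∀ b, algebraMap k ℂ (R⁻¹ a b * R b a') = algebraMap k ℂ (R⁻¹ a b) * G a' (v b) := by
    intro b
    rw [map_mul, hx b a']
    rfl
  rw [Finset.sum_congr rfl fun b _ => h8 b] at h7
  rw [h7]
  split_ifs <;> simp

/-- the coefficients of `φ ∘ F` -/
lemma Tns_coef {n L : ℕ} {G : Fin L → MultilinearMap ℂ (fun _ : Fin n => V) ℂ}
    {F : MultilinearMap ℂ (fun _ : Fin n => V) N} {φ : N →ₗ[ℂ] ℂ} {c : Fin L → ℂ}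
    (hc : φ.compMultilinearMap F = ∑ a, c a • G a) (v : Fin n → V) :
    φ (F v) = ∑ a, c a * G a v := by
  have h := congrArg (fun H : MultilinearMap ℂ (fun _ : Fin n => V) ℂ => H v) hc
  simpa [_root_.sum_apply] using h

/-- the value of `φ` at the combination of the `F (v b)` -/
lemma Tns_eval {n L : ℕ} {G : Fin L → MultilinearMap ℂ (fun _ : Fin n => V) ℂ}
    {F : MultilinearMap ℂ (fun _ : Fin n => V) N} {φ : N →ₗ[ℂ] ℂ} {c : Fin L → ℂ}
    (hc : φ.compMultilinearMap F = ∑ a, c a • G a) (S : Fin L → Fin L → ℂ)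
    (v : Fin L → Fin n → V)
    (hS : ∀ a a', ∑ b, S a b * G a' (v b) = if a = a' then 1 else 0) (a : Fin L) :
    φ (∑ b, S a b • F (v b)) = c a := by
  classical
  rw [map_sum]
  have h1 : ∀ b, φ (S a b • F (v b)) = ∑ a', c a' * (S a b * G a' (v b)) := by
    intro b
    rw [map_smul, Tns_coef hc, smul_eq_mul, Finset.mul_sum]
    exact Finset.sum_congr rfl fun a' _ => by ring
  rw [Finset.sum_congr rfl fun b _ => h1 b, Finset.sum_comm]
  rw [Finset.sum_congr rfl fun a' _ => (Finset.mul_sum _ _ _).symm]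
  rw [Finset.sum_congr rfl fun a' _ => by rw [hS a a']]
  simp

theorem thm_Tns : St_Tns := by
  classical
  intro V N _ _ _ _ _ Q D hQ hD n B hBQ hBD F E hE hF
  obtain ⟨L, G, hGB, hGs, hGl⟩ : ∃ (L : ℕ)
      (G : Fin L → MultilinearMap ℂ (fun _ : Fin n => V) ℂ), (∀ a, G a ∈ B) ∧
      Submodule.span ℂ (Set.range G) = Submodule.span ℂ B ∧ LinearIndependent ℂ G :=
    ⟨_, Submodule.exists_fun_fin_finrank_span_eq ℂ B⟩
  obtain ⟨S, v, hv, hSv⟩ := Tns_gen ℚ Q hQ G hGl fun a v hv => by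
    obtain ⟨q, hq⟩ := hBQ (G a) (hGB a) v hv
    exact ⟨q, by rw [hq]; simp⟩
  obtain ⟨T, u, hu, hTu⟩ := Tns_gen (algebraicClosure ℚ ℂ) D hD G hGl fun a v hv =>
    ⟨⟨G a v, mem_algebraicClosure_iff.mpr (hBD (G a) (hGB a) v hv)⟩, rfl⟩
  have hco : ∀ φ ∈ E, ∃ c : Fin L → ℂ, φ.compMultilinearMap F = ∑ a, c a • G a := by
    intro φ hφ
    have h1 := hF φ hφ
    rw [← hGs, Submodule.mem_span_range_iff_exists_fun] at h1
    obtain ⟨c, hc⟩ := h1
    exact ⟨c, hc.symm⟩
  have hγ : ∀ a, ∑ b, (algebraMap ℚ ℂ (S a b)) • F (v b) =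
      ∑ b, (algebraMap (algebraicClosure ℚ ℂ) ℂ (T a b)) • F (u b) := by
    intro a
    rw [← sub_eq_zero]
    refine hE _ fun φ hφ => ?_
    obtain ⟨c, hc⟩ := hco φ hφ
    rw [map_sub, Tns_eval hc (fun a b => algebraMap ℚ ℂ (S a b)) v hSv a,
      Tns_eval hc (fun a b => algebraMap (algebraicClosure ℚ ℂ) ℂ (T a b)) u hTu a, sub_self]
  refine ⟨L, G, fun a => ∑ b, (algebraMap ℚ ℂ (S a b)) • F (v b), hGB, fun w => ?_,
    fun a => ⟨L, S a, v, hv, ?_⟩,
    fun a => ⟨L, fun b => algebraMap (algebraicClosure ℚ ℂ) ℂ (T a b), u, fun b => ?_, hu, hγ a⟩⟩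
  · rw [← sub_eq_zero]
    refine hE _ fun φ hφ => ?_
    obtain ⟨c, hc⟩ := hco φ hφ
    rw [map_sub, map_sum, Tns_coef hc w, sub_eq_zero]
    refine Finset.sum_congr rfl fun a _ => ?_
    rw [map_smul, Tns_eval hc (fun a b => algebraMap ℚ ℂ (S a b)) v hSv a, smul_eq_mul, mul_comm]
  · refine Finset.sum_congr rfl fun b _ => ?_
    simp
  · exact mem_algebraicClosure_iff.mp (T a b).2

end Pool.Agent.KTW
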