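import Pool.Agent.KTW.Spd
import Pool.Agent.KTW.Spc
import Pool.Agent.KTW.Tns
import Pool.Agent.KTW.Spn
import Pool.Agent.KTW.Lnk
import Pool.Agent.KTW.Fth
import Pool.Agent.KTW.Rps
import Pool.Agent.KTW.Dgm
import Pool.Agent.KTW.Klz
import Pool.Agent.KTW.Mxz
import Pool.Agent.KTW.Htz
import Pool.Agent.KTW.Huz
import Pool.Agent.KTW.Abs
import Pool.Agent.KTW.Kln
import Pool.Agent.KTW.Dsp
import Pool.Agent.KTW.Mxn
import Pool.Agent.KTW.Hun
import Pool.Agent.KTW.Asn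

/-!
# KTW: Grothendieck classes on products of K3 surfaces and abelian varieties
-/

set_option autoImplicit false

namespace Pool.Agent.KTW

open Pool.Agent.K3P Pool.Agent.KTP
open Pool.Agent.GPC (AbVar ClassY ClassX)

theorem clause1 : St_Huz := thm_Huz (thm_Htz (thm_Klz (thm_Dgm thm_Lnk thm_Fth thm_Rps) thm_Kil)
  (thm_Mxz (thm_Bet thm_Drb thm_Rtb)) thm_Hod thm_Hty) thm_Htu

theorem clause2 : St_Asn := thm_Asn (thm_Hun (thm_Kln (thm_Abs thm_Rps (thm_Spc thm_Spd)))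
  (thm_Mxn thm_Dsp (thm_Bet thm_Drb thm_Rtb)) thm_Htu) thm_Tns (thm_Spn thm_Rtb)

theorem main {I J : Type} [Fintype I] [Fintype J] (A : I → AbVar) (hA : ∀ i, (A i).g ≠ 0)
    (K : I → Type) [∀ i, Field (K i)] [∀ i, NumberField (K i)] (c : ∀ i, K i →+* K i) (m : I → ℕ)
    (S : ∀ i, (A i).KugaSatakeMul (K i) (c i) (m i)) (hK : ∀ i, (S i).IsAdmissible)
    (hI : Subsingleton I ∨ ∀ i, c i = RingHom.id (K i) ∧ m i ≠ 4) (C : J → AbVar) (r n : ℕ) :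
    (∀ (k : I → ℕ) (p : ℕ) (F : ClassY K m A r n k p), F.IsGr S → F.IsHodge S) ∧
    ((∀ i, ∀ j : J, c i = RingHom.id (K i) ∧ (m i = 3 ∨ 6 ≤ m i) ∧
        (2 * (C j).g + 2 ≤ m i ∨ (C j).IsCM)) →
      ∀ (l : J → ℕ) (p : ℕ) (F : ClassY K m C r n l p), F.IsGr S ↔ F.IsSum S) ∧
    ((∀ i j, i ≠ j → ∀ f, (A i).IsMor (A j) f → ∀ v, f v = 0) →
      ∀ F : ClassX K m r n, F.IsGr S ↔ F.IsGen c fun i => (S i).h) := by
  classical
  exact ⟨fun k p F hF => clause1 A S hA hK hI r n k p F hF,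
    fun hC l p F => clause2 A C S hA hC r n l p F,
    fun hHom => (KTP.main A hA K c m S hK hI hHom r n).2⟩

end Pool.Agent.KTW
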