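import Pool.Agent.KTW.StQ

/-!
# KTW [Alz]: the Hodge projectors kill the Grothendieck forms on products of the `A_i` and `C_j`
-/

set_option autoImplicit false
set_option linter.unusedSectionVars false

namespace Pool.Agent.KTW

open Module Matrix NumberField Pool.Agent.Helper7 Pool.Agent.KS Pool.Agent.Ball Pool.Agent.KSE
  Pool.Agent.Helper28.GPC Pool.Agent.K3P Pool.Agent.KTP
open Pool.Agent.GPC (AbVar GrIsHodge)

/-- the Hodge projectors kill the Grothendieck forms on the products of the `D_b` -/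
def Alz_K {B : Type} [Fintype B] [DecidableEq B] (D : B → AbVar) : Prop :=
  ∀ n, KillZ (κ := fun b => Fin (D b).g ⊕ Fin (D b).g) (fun b => pData (D b))
    (fun b => (1 / 2 : ℂ) • 1 - hod (D b)) n

/-- the case that all `T_i` are large -/
theorem Alz_large (hSyn : St_Syn) (hRel : St_Rel) (hHym : St_Hym) (hKlx : St_Klx) (hKlz : St_Klz)
    {I J : Type} [Fintype I] [DecidableEq I] [Fintype J] [DecidableEq J]
    (A : I → AbVar) (C : J → AbVar) {K : I → Type} [∀ i, Field (K i)] [∀ i, NumberField (K i)]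
    {c : ∀ i, K i →+* K i} {m : I → ℕ} (S : ∀ i, (A i).KugaSatakeMul (K i) (c i) (m i))
    (hg : ∀ i, (A i).g ≠ 0) (hC : GrIsHodge C) (hL : ∀ i, (S i).IsLarge C) :
    Alz_K (Sum.elim A C) := by
  intro n k α hB hA
  have hϖ := Complex.two_pi_I_ne_zero
  have hN := hKlx A C S hg hL n
  let Z : ∀ j : I ⊕ J, Module.End ℂ (Fin (Sum.elim A C j).g ⊕ Fin (Sum.elim A C j).g → ℂ) :=
    fun j => (1 / 2 : ℂ) • 1 - hod (Sum.elim A C j)
  let Z₁ : ∀ j : I ⊕ J, Module.End ℂ (Fin (Sum.elim A C j).g ⊕ Fin (Sum.elim A C j).g → ℂ) :=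
    fun j => match j with
      | Sum.inl i => Z (Sum.inl i)
      | Sum.inr _ => 0
  let Z₂ : ∀ j : I ⊕ J, Module.End ℂ (Fin (Sum.elim A C j).g ⊕ Fin (Sum.elim A C j).g → ℂ) :=
    fun j => match j with
      | Sum.inl _ => 0
      | Sum.inr j => Z (Sum.inr j)
  have hZ : (fun j : I ⊕ J => (1 / 2 : ℂ) • (1 : Module.End ℂ (Sum.elim A C j).H1) -
      hod (Sum.elim A C j)) = Z₁ + Z₂ := by
    funext j
    rcases j with j | j
    · show Z (Sum.inl j) = Z (Sum.inl j) + 0
      rw [add_zero]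
    · show Z (Sum.inr j) = 0 + Z (Sum.inr j)
      rw [zero_add]
  have h1 := hRel I (I ⊕ J) Sum.inl Sum.inl_injective
    (fun j => Fin (Sum.elim A C j).g ⊕ Fin (Sum.elim A C j).g) _
    (fun j => pData (Sum.elim A C j)) hϖ Z₁ (by
      intro j hj
      rcases j with j | j
      · exact absurd rfl (hj j)
      · rfl) n hN (hKlz A S hg (fun i => Or.inl ⟨(hL i).1, by
        have := (hL i).2.1
        refine ⟨by omega, Or.inl (by omega)⟩⟩) (Or.inr fun i => ⟨(hL i).1, by
        have := (hL i).2.1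
        omega⟩) _)
  have h2 := hRel J (I ⊕ J) Sum.inr Sum.inr_injective
    (fun j => Fin (Sum.elim A C j).g ⊕ Fin (Sum.elim A C j).g) _
    (fun j => pData (Sum.elim A C j)) hϖ Z₂ (by
      intro j hj
      rcases j with j | j
      · rfl
      · exact absurd rfl (hj j)) n
    (hSyn I J (I ⊕ J) Sum.inl Sum.inr (by
      intro j
      rcases j with j | j
      · refine iff_of_true ⟨j, rfl⟩ ?_
        rintro ⟨i, hi⟩
        cases hi
      · refine iff_of_false ?_ fun h => h ⟨j, rfl⟩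
        rintro ⟨i, hi⟩
        cases hi) _ _ _ hϖ n hN) (hHym C hC _)
  rw [hZ, lift_add, actForm_add, h1 k α hB hA, h2 k α hB hA, add_zero]

theorem thm_Alz (hSyn : St_Syn) (hRel : St_Rel) (hTrf : St_Trf) (hHym : St_Hym) (hKlx : St_Klx)
    (hKlz : St_Klz) : St_Alz := by
  classical
  intro I J _ _ _ _ A C K _ _ c m S hg hC hIJ
  let I' : Type := {i : I // (S i).IsLarge C}
  have h0 : Alz_K (Sum.elim (fun i : I' => A i.1) C) :=
    Alz_large hSyn hRel hHym hKlx hKlz (fun i : I' => A i.1) C (fun i => S i.1)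
      (fun i => hg i.1) hC (fun i => i.2)
  have h1 : Alz_K (fun b : I' ⊕ J => Sum.elim A C (Sum.map Subtype.val id b)) := by
    have e1 : (fun b : I' ⊕ J => Sum.elim A C (Sum.map Subtype.val id b)) =
        Sum.elim (fun i : I' => A i.1) C := by
      funext b
      rcases b with b | b <;> rfl
    rw [e1]
    exact h0
  refine hTrf (I' ⊕ J) (I ⊕ J) (Sum.map Subtype.val id)
    (fun j => Fin (Sum.elim A C j).g ⊕ Fin (Sum.elim A C j).g) _
    (fun j => pData (Sum.elim A C j)) (fun j => (1 / 2 : ℂ) • 1 - hod (Sum.elim A C j)) ?_ ?_ h1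
  · intro i j f hf v
    show (1 / 2 : ℂ) • f v - hod (Sum.elim A C j) (f v) =
      f ((1 / 2 : ℂ) • v - hod (Sum.elim A C i) v)
    rw [map_sub, map_smul, hod_comm f hf]
  · intro j
    have hid : ∀ b : I' ⊕ J, Submodule.span ℂ
        {v : Fin (Sum.elim A C (Sum.map Subtype.val id b)).g ⊕
          Fin (Sum.elim A C (Sum.map Subtype.val id b)).g → ℂ |
          ∃ (i : I' ⊕ J) (f : (Fin (Sum.elim A C (Sum.map Subtype.val id i)).g ⊕
            Fin (Sum.elim A C (Sum.map Subtype.val id i)).g → ℂ) →ₗ[ℂ]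
            (Fin (Sum.elim A C (Sum.map Subtype.val id b)).g ⊕
            Fin (Sum.elim A C (Sum.map Subtype.val id b)).g → ℂ)),
          IsDRB (pData (Sum.elim A C (Sum.map Subtype.val id i)))
            (pData (Sum.elim A C (Sum.map Subtype.val id b))) f ∧ ∃ u, v = f u} = ⊤ := by
      intro b
      rw [eq_top_iff]
      intro v _
      exact Submodule.subset_span ⟨b, LinearMap.id,
        (isDRB_iff _ _ _).mpr ⟨fun v hv => hv, fun v hv => hv⟩, v, rfl⟩
    rcases j with j | j
    · by_cases hj : (S j).IsLarge C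
      · exact hid (Sum.inl ⟨j, hj⟩)
      · have h2 := (hIJ j).resolve_left hj
        rw [eq_top_iff]
        intro v _
        refine Submodule.span_mono ?_ (h2 v)
        rintro w ⟨i, f, u, hf, rfl⟩
        exact ⟨Sum.inr i, IsLinearMap.mk' f hf.linear,
          (isDRB_iff _ _ _).mpr ⟨hf.betti, hf.deRham⟩, u, rfl⟩
    · exact hid (Sum.inr j)

end Pool.Agent.KTW
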