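import Pool.Agent.KTW.StN
import Pool.Agent.KTW.Hun

/-!
# KTW [Asn]: Grothendieck classes on `X × C`, assembly
-/

set_option autoImplicit false

namespace Pool.Agent.KTW

open Module Matrix NumberField Pool.Agent.Helper7 Pool.Agent.KS Pool.Agent.Ball Pool.Agent.KSE
  Pool.Agent.Helper28.GPC Pool.Agent.K3P Pool.Agent.KTP
open Pool.Agent.GPC (AbVar TC IsRatT qf df HU IsGrU Form IsBetti IsDeRham IsGrothendieck H1)

/-- the Betti vectors span -/
lemma Asn_span {J : Type} [Fintype J] [DecidableEq J] (C : J → AbVar) (l : J → ℕ) :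
    Submodule.span ℂ {w : H1 C l | IsBetti C l w} = ⊤ := by
  rw [eq_top_iff, ← (FBP l (fun j => pData (C j))).span_eq, Submodule.span_le]
  rintro _ ⟨b, rfl⟩
  refine Submodule.subset_span ?_
  intro j a
  exact (mem_pData_Q _ _).mp (FBP_isRatP l (fun j => pData (C j)) b j a)

theorem thm_Asn (hHun : St_Hun) (hTns : St_Tns) (hSpn : St_Spn) : St_Asn := by
  intro I J _ _ _ _ A C K _ _ c m S hg hC r n l p F
  have hϖ := Complex.two_pi_I_ne_zero
  have hϖp : (2 * Real.pi * Complex.I : ℂ) ^ p ≠ 0 := pow_ne_zero _ hϖ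
  constructor
  · rintro ⟨h1, h2⟩
    obtain ⟨hQs, hDs⟩ := hSpn A S hg r
    obtain ⟨L, G, γ, hGB, hF, hγQ, hγD⟩ := hTns (HU r K m) (Form C l (2 * p))
      (fun v => (∀ a, ∃ p : ℚ, v.1 a = p) ∧ ∀ i, IsRatT (v.2 i))
      (fun v => (∀ a, IsAlgebraic ℚ (v.1 a)) ∧ ∀ i, (S i).IsDRT (v.2 i)) hQs hDs n
      {G | IsGrU S r n G} (fun G hG v hv => hG.1 v hv) (fun G hG v hv => hG.2 v hv) F
      {φ | ∃ w : Fin (2 * p) → H1 C l, (∀ s, IsBetti C l (w s)) ∧ φ = Hun_ev w}
      (by
        intro x hx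
        apply AlternatingMap.coe_multilinearMap_injective
        refine Inv_span _ _ (Asn_span C l) ?_
        intro w hw
        exact hx _ ⟨w, hw, rfl⟩)
      (by
        rintro _ ⟨w, hw, rfl⟩
        have h3 : (Hun_ev w).compMultilinearMap F = (2 * Real.pi * Complex.I : ℂ) ^ p •
            (((2 * Real.pi * Complex.I : ℂ) ^ p)⁻¹ • (Hun_ev w).compMultilinearMap F) := by
          rw [smul_smul, mul_inv_cancel₀ hϖp, one_smul]
        rw [h3]
        refine Submodule.smul_mem _ _ (Submodule.subset_span ⟨fun v hv => ?_, fun v hv => ?_⟩)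
        · obtain ⟨q, hq⟩ := h1 v w hv hw
          refine ⟨q, ?_⟩
          show ((2 * Real.pi * Complex.I : ℂ) ^ p)⁻¹ * F v w = q
          rw [hq, ← mul_assoc, inv_mul_cancel₀ hϖp, one_mul]
        · have h4 := hHun A C S hg hC r n l p F h1 h2 v w hv hw
          show IsAlgebraic ℚ (((2 * Real.pi * Complex.I : ℂ) ^ p)⁻¹ * F v w)
          rw [mul_comm, ← div_eq_mul_inv]
          exact h4)
    refine ⟨L, G, γ, fun a => ⟨hGB a, ?_, ?_⟩, fun v w => ?_⟩
    · intro w hw
      obtain ⟨M, q, v, hq, hv, hγ⟩ := hγD a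
      have e1 : γ a w = ∑ b, q b * F (v b) w := by
        rw [hγ]
        show Hun_ev w (∑ b, q b • F (v b)) = _
        rw [map_sum]
        rfl
      rw [e1]
      exact asm_alg_sum _ _ fun b _ => (hq b).mul (h2 _ _ (hv b) hw)
    · intro w hw
      obtain ⟨M, q, v, hv, hγ⟩ := hγQ a
      have e1 : γ a w = ∑ b, (q b : ℂ) * F (v b) w := by
        rw [hγ]
        show Hun_ev w (∑ b, (q b : ℂ) • F (v b)) = _
        rw [map_sum]
        rfl
      choose s hs using fun b => h1 (v b) w (hv b) hw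
      refine ⟨∑ b, q b * s b, ?_⟩
      rw [e1]
      push_cast
      rw [Finset.mul_sum]
      refine Finset.sum_congr rfl fun b _ => ?_
      rw [hs]
      ring
    · rw [hF]
      show Hun_ev w (∑ a, G a v • γ a) = _
      rw [map_sum]
      rfl
  · rintro ⟨N, G, γ, hGγ, hF⟩
    constructor
    · intro v w hv hw
      choose s hs using fun a => (hGγ a).1.1 v hv
      choose s' hs' using fun a => (hGγ a).2.2 w hw
      refine ⟨∑ a, s a * s' a, ?_⟩
      rw [hF]
      push_cast
      rw [Finset.mul_sum]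
      refine Finset.sum_congr rfl fun a _ => ?_
      rw [hs, hs']
      ring
    · intro v w hv hw
      rw [hF]
      exact asm_alg_sum _ _ fun a _ => ((hGγ a).1.2 v hv).mul ((hGγ a).2.1 w hw)

end Pool.Agent.KTW
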