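import Pool.Agent.KTW.StQ
import Pool.Agent.KTW.Asn

/-!
# KTW [Asx]: Grothendieck classes on `X × C`, assembly
-/

set_option autoImplicit false

namespace Pool.Agent.KTW

open Module Matrix NumberField Pool.Agent.Helper7 Pool.Agent.KS Pool.Agent.Ball Pool.Agent.KSE
  Pool.Agent.Helper28.GPC Pool.Agent.K3P Pool.Agent.KTP
open Pool.Agent.GPC (AbVar TC IsRatT qf df HU IsGrU Form IsBetti IsDeRham IsGrothendieck H1)

theorem thm_Asx (hHux : St_Hux) (hTns : St_Tns) (hSpn : St_Spn) : St_Asx := by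
  intro I J _ _ _ _ A C K _ _ c m S hg hL r n l p F
  have hϖ := Complex.two_pi_I_ne_zero
  have hϖp : (2 * Real.pi * Complex.I : ℂ) ^ p ≠ 0 := pow_ne_zero _ hϖ
  constructor
  · rintro ⟨h1, h2⟩
    obtain ⟨hQs, hDs⟩ := hSpn A S hg r
    obtain ⟨L, G, γ, hGB, hF, hγQ, hγD⟩ := hTns (HU r K m) (Form C l (2 * p))
      (fun v => (∀ a, ∃ p : ℚ, v.1 a = p) ∧ ∀ i, IsRatT (v.2 i))
      (fun v => (∀ a, IsAlgebraic ℚ (v.1 a)) ∧ ∀ i, (S i).IsDRT (v.2 i)) hQs hDs n
      {G | IsGrU S r n G} (fun G hG v hv => hG.1 v hv) (fun G hG v hv => hG.2 v hv) F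
      {φ | ∃ w : Fin (2 * p) → H1 C l, (∀ s, IsBetti C l (w s)) ∧ φ = Hun_ev w}
      (by
        intro x hx
        apply AlternatingMap.coe_multilinearMap_injective
        refine Inv_span _ _ (Asn_span C l) ?_
        intro w hw
        exact hx _ ⟨w, hw, rfl⟩)
      (by
        rintro _ ⟨w, hw, rfl⟩
        have h3 : (Hun_ev w).compMultilinearMap F = (2 * Real.pi * Complex.I : ℂ) ^ p •
            (((2 * Real.pi * Complex.I : ℂ) ^ p)⁻¹ • (Hun_ev w).compMultilinearMap F) := by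
          rw [smul_smul, mul_inv_cancel₀ hϖp, one_smul]
        rw [h3]
        refine Submodule.smul_mem _ _ (Submodule.subset_span ⟨fun v hv => ?_, fun v hv => ?_⟩)
        · obtain ⟨q, hq⟩ := h1 v w hv hw
          refine ⟨q, ?_⟩
          show ((2 * Real.pi * Complex.I : ℂ) ^ p)⁻¹ * F v w = q
          rw [hq, ← mul_assoc, inv_mul_cancel₀ hϖp, one_mul]
        · have h4 := hHux A C S hg hL r n l p F h1 h2 v w hv hw
          show IsAlgebraic ℚ (((2 * Real.pi * Complex.I : ℂ) ^ p)⁻¹ * F v w)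
          rw [mul_comm, ← div_eq_mul_inv]
          exact h4)
    refine ⟨L, G, γ, fun a => ⟨hGB a, ?_, ?_⟩, fun v w => ?_⟩
    · intro w hw
      obtain ⟨M, q, v, hq, hv, hγ⟩ := hγD a
      have e1 : γ a w = ∑ b, q b * F (v b) w := by
        rw [hγ]
        show Hun_ev w (∑ b, q b • F (v b)) = _
        rw [map_sum]
        rfl
      rw [e1]
      exact asm_alg_sum _ _ fun b _ => (hq b).mul (h2 _ _ (hv b) hw)
    · intro w hw
      obtain ⟨M, q, v, hv, hγ⟩ := hγQ a
      have e1 : γ a w = ∑ b, (q b : ℂ) * F (v b) w := by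
        rw [hγ]
        show Hun_ev w (∑ b, (q b : ℂ) • F (v b)) = _
        rw [map_sum]
        rfl
      choose s hs using fun b => h1 (v b) w (hv b) hw
      refine ⟨∑ b, q b * s b, ?_⟩
      rw [e1]
      push_cast
      rw [Finset.mul_sum]
      refine Finset.sum_congr rfl fun b _ => ?_
      rw [hs]
      ring
    · rw [hF]
      show Hun_ev w (∑ a, G a v • γ a) = _
      rw [map_sum]
      rfl
  · rintro ⟨N, G, γ, hGγ, hF⟩
    constructor
    · intro v w hv hw
      choose s hs using fun a => (hGγ a).1.1 v hv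
      choose s' hs' using fun a => (hGγ a).2.2 w hw
      refine ⟨∑ a, s a * s' a, ?_⟩
      rw [hF]
      push_cast
      rw [Finset.mul_sum]
      refine Finset.sum_congr rfl fun a _ => ?_
      rw [hs, hs']
      ring
    · intro v w hv hw
      rw [hF]
      exact asm_alg_sum _ _ fun a _ => ((hGγ a).1.2 v hv).mul ((hGγ a).2.1 w hw)

end Pool.Agent.KTW
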