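import Pool.Agent.KTW.StQ
import Pool.Agent.Helper7.Bridge3

/-!
# KTW: EIG, the eigenspaces of a field of Rosati-symmetric endomorphisms
-/

set_option autoImplicit false

namespace Pool.Agent.KTW

open Module NumberField Pool.Agent.Helper7 Pool.Agent.Ball Pool.Agent.KSE Pool.Agent.GPC

/-- the action as ring homomorphism -/
noncomputable def eigRho {C : AbVar} {E : Type} [Field E] [NumberField E] (S : C.SymField E) :
    E →+* Module.End ℂ C.H1 where
  toFun x := IsLinearMap.mk' _ (S.endo x).linear
  map_one' := LinearMap.ext S.one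
  map_mul' x y := LinearMap.ext (S.mul x y)
  map_add' x y := LinearMap.ext (S.add x y)
  map_zero' := LinearMap.ext fun v => by
    have h := S.add 0 0 v
    rw [add_zero] at h
    have h2 : S.ρ 0 v = 0 := by
      have h3 := congrArg (fun w => w - S.ρ 0 v) h
      simp only [sub_self, add_sub_cancel_right] at h3
      exact h3.symm
    exact h2

lemma eigRho_apply {C : AbVar} {E : Type} [Field E] [NumberField E] (S : C.SymField E) (x : E)
    (v : C.H1) : eigRho S x v = S.ρ x v := rfl

/-- [EIG] -/
theorem thm_Eig : St_Eig := by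
  classical
  intro C m hC
  rcases hC with hC | ⟨E, _, _, ⟨S⟩, hle⟩
  · right
    intro X Y hX hY
    apply LinearMap.ext
    intro v
    exact hC X Y X.isLinear Y.isLinear
      (fun f hf v => hX (IsLinearMap.mk' f hf.linear)
        (isDRB_of_isEnd C (IsLinearMap.mk' f hf.linear) hf) v)
      (fun f hf v => hY (IsLinearMap.mk' f hf.linear)
        (isDRB_of_isEnd C (IsLinearMap.mk' f hf.linear) hf) v) v
  left
  obtain ⟨ρ, hρ⟩ : ∃ ρ : E →+* Module.End ℂ C.H1, ρ = eigRho S := ⟨_, rfl⟩
  have hD : ∀ x, IsDRB (pData C) (pData C) (ρ x) := fun x => by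
    rw [hρ]
    exact isDRB_of_isEnd C _ (S.endo x)
  have hQ : ∀ x, ∀ v ∈ (pData C).Q, ρ x v ∈ (pData C).Q := fun x v hv => (hD x).rat v hv
  obtain ⟨r, hr⟩ := exists_rank (pData C) ρ hQ
  obtain ⟨lam, -, -, eb, heb⟩ := exists_Kbasis (pData C) ρ hQ r hr
  have hadj : ∀ x u v, (pData C).ψ (ρ x u) v = (pData C).ψ u (ρ x v) := fun x u v => by
    rw [hρ]
    exact S.rosati x u v
  have hpadj : ∀ σ u v, (pData C).ψ (proj ρ σ u) v = (pData C).ψ u (proj ρ σ v) := by
    intro σ u v
    rw [proj, LinearMap.sum_apply, LinearMap.sum_apply, map_sum, map_sum, LinearMap.sum_apply]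
    refine Finset.sum_congr rfl fun b _ => ?_
    rw [LinearMap.smul_apply, LinearMap.smul_apply, map_smul, map_smul, LinearMap.smul_apply, hadj]
  have hrm : r + 2 ≤ m := by
    have h0 : 0 < finrank ℚ E := finrank_pos
    rw [card_index] at hr
    have h1 : (r + 2) * finrank ℚ E ≤ m * finrank ℚ E := by
      rw [← hr] at hle
      calc (r + 2) * finrank ℚ E = finrank ℚ E * r + 2 * finrank ℚ E := by ring
        _ ≤ m * finrank ℚ E := hle
    exact Nat.le_of_mul_le_mul_right h1 h0
  let ε : Fin (Fintype.card (E →+* ℂ)) ≃ (E →+* ℂ) := (Fintype.equivFin _).symm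
  refine ⟨Fintype.card (E →+* ℂ), fun a => LinearMap.range (proj ρ (ε a)), ?_, fun a => ⟨?_, ?_, ?_⟩⟩
  · rw [eq_top_iff]
    intro v _
    have h1 : v = ∑ σ : E →+* ℂ, proj ρ σ v := by
      have h2 := congrArg (fun f : Module.End ℂ C.H1 => f v) (sum_proj ρ)
      simp only [LinearMap.sum_apply, Module.End.one_apply] at h2
      exact h2.symm
    rw [h1]
    refine Submodule.sum_mem _ fun σ _ => ?_
    refine Submodule.mem_iSup_of_mem (ε.symm σ) ?_
    rw [ε.apply_symm_apply]
    exact LinearMap.mem_range_self _ v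
  · rintro X hX _ ⟨v, rfl⟩
    refine ⟨X v, ?_⟩
    rw [proj, LinearMap.sum_apply, LinearMap.sum_apply, map_sum]
    refine Finset.sum_congr rfl fun b _ => ?_
    rw [LinearMap.smul_apply, LinearMap.smul_apply, map_smul, hX _ (hD _)]
  · rintro _ ⟨u, rfl⟩ hu
    apply (pData C).hψnd
    intro v
    have h1 : v = ∑ σ : E →+* ℂ, proj ρ σ v := by
      have h2 := congrArg (fun f : Module.End ℂ C.H1 => f v) (sum_proj ρ)
      simp only [LinearMap.sum_apply, Module.End.one_apply] at h2
      exact h2.symm
    rw [h1, map_sum]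
    refine Finset.sum_eq_zero fun τ _ => ?_
    by_cases hτ : ε a = τ
    · rw [← hτ]
      exact hu _ (LinearMap.mem_range_self _ v)
    · rw [hpadj]
      have h3 : proj ρ (ε a) (proj ρ τ v) = 0 := by
        have h4 := congrArg (fun f : Module.End ℂ C.H1 => f v) (proj_mul_proj ρ (ε a) τ)
        simp only [Module.End.mul_apply] at h4
        rw [h4, if_neg hτ]
        rfl
      rw [h3, map_zero]
  · have h1 : LinearMap.range (proj ρ (ε a)) ≤
        Submodule.span ℂ (Set.range fun j : Fin r => eb (ε a, j)) := by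
      rintro _ ⟨v, rfl⟩
      rw [← eb.sum_repr v, map_sum]
      refine Submodule.sum_mem _ fun t _ => ?_
      rw [map_smul]
      refine Submodule.smul_mem _ _ ?_
      obtain ⟨τ, j⟩ := t
      rw [heb]
      have h4 := congrArg (fun f : Module.End ℂ C.H1 => f (lam j)) (proj_mul_proj ρ (ε a) τ)
      simp only [Module.End.mul_apply] at h4
      rw [h4]
      split_ifs with h5
      · rw [← h5, ← heb]
        exact Submodule.subset_span ⟨j, rfl⟩
      · exact Submodule.zero_mem _
    have h2 : finrank ℂ (LinearMap.range (proj ρ (ε a))) ≤ r := by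
      refine (Submodule.finrank_mono h1).trans ?_
      refine (finrank_range_le_card _).trans ?_
      rw [Fintype.card_fin]
    exact (Nat.add_le_add_right h2 2).trans hrm

end Pool.Agent.KTW
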