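import Pool.Agent.KTW.StQ

/-!
# KTW [Hym]: from alternating to multilinear forms
-/

set_option autoImplicit false

open scoped ComplexConjugate

namespace Pool.Agent.KTW

open Module Matrix NumberField Pool.Agent.Helper7 Pool.Agent.KS Pool.Agent.Ball Pool.Agent.KSE
  Pool.Agent.Helper28.GPC Pool.Agent.K3P Pool.Agent.KTP
open Pool.Agent.GPC (AbVar TC IsRatT qf df HU IsGrU Form IsBetti IsDeRham IsGrothendieck H1 IsFilU
  GrIsHodge IsElementary IsHodge IsFil)

section hym

variable {J : Type} (C : J → AbVar) (l : J → ℕ)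

/-- conjugation for the Betti structure of a product -/
noncomputable def Hym_c (v : H1 C l) : H1 C l := fun i m => cB (pData (C i)) (v i m)

lemma Hym_c_add (u v : H1 C l) : Hym_c C l (u + v) = Hym_c C l u + Hym_c C l v := by
  funext i m
  exact cB_add _ _ _

lemma Hym_c_smul (c : ℂ) (v : H1 C l) : Hym_c C l (c • v) = conj c • Hym_c C l v := by
  funext i m
  exact cB_smul _ _ _

lemma Hym_c_c (v : H1 C l) : Hym_c C l (Hym_c C l v) = v := by
  funext i m
  exact cB_cB _ _

lemma Hym_c_upd {d : ℕ} (v : Fin d → H1 C l) (r : Fin d) (x : H1 C l) :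
    (fun r' => Hym_c C l (Function.update v r x r')) =
      Function.update (fun r' => Hym_c C l (v r')) r (Hym_c C l x) := by
  funext r'
  by_cases h : r' = r
  · subst h
    rw [Function.update_self, Function.update_self]
  · rw [Function.update_of_ne h, Function.update_of_ne h]

/-- the conjugate of a multilinear form -/
noncomputable def Hym_conj {d : ℕ} (G : MultilinearMap ℂ (fun _ : Fin d => H1 C l) ℂ) :
    MultilinearMap ℂ (fun _ : Fin d => H1 C l) ℂ where
  toFun v := conj (G fun r => Hym_c C l (v r))
  map_update_add' := by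
    intro inst v r x y
    have hi : inst = instDecidableEqFin d := Subsingleton.elim _ _
    subst hi
    show conj (G fun r' => Hym_c C l (Function.update v r (x + y) r')) =
      conj (G fun r' => Hym_c C l (Function.update v r x r')) +
        conj (G fun r' => Hym_c C l (Function.update v r y r'))
    rw [Hym_c_upd, Hym_c_upd, Hym_c_upd, Hym_c_add, MultilinearMap.map_update_add, map_add]
  map_update_smul' := by
    intro inst v r c x
    have hi : inst = instDecidableEqFin d := Subsingleton.elim _ _
    subst hi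
    show conj (G fun r' => Hym_c C l (Function.update v r (c • x) r')) =
      c • conj (G fun r' => Hym_c C l (Function.update v r x r'))
    rw [Hym_c_upd, Hym_c_upd, Hym_c_smul, MultilinearMap.map_update_smul, smul_eq_mul, map_mul,
      Complex.conj_conj, smul_eq_mul]

lemma Hym_conj_apply {d : ℕ} (G : MultilinearMap ℂ (fun _ : Fin d => H1 C l) ℂ)
    (v : Fin d → H1 C l) : Hym_conj C l G v = conj (G fun r => Hym_c C l (v r)) := rfl

variable [Fintype J] [DecidableEq J]

lemma Hym_rat_span : Submodule.span ℂ {v : H1 C l | IsRatP l (fun j => pData (C j)) v} = ⊤ := by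
  rw [eq_top_iff]
  have h1 := (FBP l fun j => pData (C j)).span_eq
  rw [← h1]
  apply Submodule.span_mono
  rintro v ⟨b, rfl⟩
  exact FBP_isRatP l (fun j => pData (C j)) b

/-- conjugation and forms with rational values -/
lemma Hym_conj_eq (p : ℕ) (G : MultilinearMap ℂ (fun _ : Fin (2 * p) => H1 C l) ℂ)
    (hG : ∀ v : Fin (2 * p) → H1 C l, (∀ r, IsRatP l (fun j => pData (C j)) (v r)) →
      ∃ q : ℚ, G v = (2 * Real.pi * Complex.I) ^ p * q) (v : Fin (2 * p) → H1 C l) :
    conj (G fun r => Hym_c C l (v r)) = (-1) ^ p * G v := by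
  have h1 : Hym_conj C l G - ((-1 : ℂ) ^ p) • G = 0 := by
    apply Inv_span _ {v : H1 C l | IsRatP l (fun j => pData (C j)) v} (Hym_rat_span C l)
    intro w hw
    obtain ⟨q, hq⟩ := hG w hw
    have h2 : (fun r => Hym_c C l (w r)) = w := by
      funext r i m
      exact cB_of_mem _ _ (hw r i m)
    show conj (G fun r => Hym_c C l (w r)) - ((-1 : ℂ) ^ p) * G w = 0
    rw [h2, hq, map_mul, map_pow, map_ratCast, map_mul, map_mul, Complex.conj_I, Complex.conj_ofReal]
    have h3 : conj (2 : ℂ) = 2 := map_ofNat _ 2
    rw [h3]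
    have h4 : (2 * (Real.pi : ℂ) * -Complex.I) = (-1) * (2 * Real.pi * Complex.I) := by ring
    rw [h4, mul_pow]
    ring
  have h2 := congrArg (fun F => F v) h1
  have h3 : conj (G fun r => Hym_c C l (v r)) - ((-1 : ℂ) ^ p) * G v = 0 := h2
  exact sub_eq_zero.mp h3

lemma Hym_fil_span : Submodule.span ℂ {v : H1 C l | IsFil C l v ∨ IsFil C l (Hym_c C l v)} = ⊤ := by
  rw [eq_top_iff]
  intro v _
  have h1 : v = (fun i m => v i m - hod (C i) (v i m) : H1 C l) +
      (fun i m => hod (C i) (v i m) : H1 C l) := by
    funext i m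
    show v i m = (v i m - hod (C i) (v i m)) + hod (C i) (v i m)
    abel
  rw [h1]
  apply Submodule.add_mem
  · apply Submodule.subset_span
    left
    intro i m
    exact fil_sub_hod (C i) (v i m)
  · apply Submodule.subset_span
    right
    intro i m
    exact fil_cB_hod (C i) (v i m)

/-- the Hodge projector acts on the Grothendieck classes by the weight -/
lemma Hym_alt (hC : GrIsHodge C) (p : ℕ) (α : Form C l (2 * p)) (hα : IsGrothendieck C l p α) :
    ∀ v : Fin (2 * p) → H1 C l,
      ∑ r, α (Function.update v r (lift l (fun j => hod (C j)) (v r))) = p * α v := by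
  obtain ⟨-, hH⟩ := hC l p α hα
  have hconj : ∀ v : Fin (2 * p) → H1 C l,
      conj (α fun r => Hym_c C l (v r)) = (-1) ^ p * α v := by
    intro v
    exact Hym_conj_eq C l p α.toMultilinearMap (fun w hw => hα.2 w fun r i m =>
      (mem_pData_Q _ _).mp (hw r i m)) v
  have h1 : actForm (lift l (fun j => hod (C j))) α.toMultilinearMap -
      (p : ℂ) • α.toMultilinearMap = 0 := by
    apply Inv_span _ {v : H1 C l | IsFil C l v ∨ IsFil C l (Hym_c C l v)} (Hym_fil_span C l)
    intro w hw
    classical
    show actForm (lift l (fun j => hod (C j))) α.toMultilinearMap w - (p : ℂ) * α w = 0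
    rw [actForm_apply]
    have e1 : ∀ r, α.toMultilinearMap (Function.update w r (lift l (fun j => hod (C j)) (w r))) =
        if IsFil C l (w r) then 0 else α w := by
      intro r
      by_cases h : IsFil C l (w r)
      · rw [if_pos h]
        have h2 : lift l (fun j => hod (C j)) (w r) = 0 := by
          funext i m
          exact (hod_fil (C i)).mp (h i m)
        rw [h2, MultilinearMap.map_update_zero]
      · rw [if_neg h]
        have h2 : lift l (fun j => hod (C j)) (w r) = w r := by
          funext i m
          have h3 := (hw r).resolve_left h i m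
          have h4 := hod_cB_fil (C i) h3
          have h5 : cB (pData (C i)) (Hym_c C l (w r) i m) = w r i m := cB_cB _ _
          rw [h5] at h4
          exact h4
        rw [h2, Function.update_eq_self]
        rfl
    rw [Finset.sum_congr rfl fun r _ => e1 r, Finset.sum_ite, Finset.sum_const_zero, zero_add,
      Finset.sum_const, nsmul_eq_mul]
    by_cases ha : α w = 0
    · rw [ha, mul_zero, mul_zero, sub_zero]
    · have e2 : (Finset.univ.filter fun r => IsFil C l (w r)).card ≤ p := by
        by_contra hc
        exact ha (hH w _ (not_le.mp hc) fun r hr => (Finset.mem_filter.mp hr).2)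
      have e3 : (Finset.univ.filter fun r => ¬ IsFil C l (w r)).card ≤ p := by
        by_contra hc
        apply ha
        have h3 : α (fun r => Hym_c C l (w r)) = 0 :=
          hH _ _ (not_le.mp hc) fun r hr => (hw r).resolve_left (Finset.mem_filter.mp hr).2
        have h4 := hconj w
        rw [h3, map_zero] at h4
        exact (mul_eq_zero.mp h4.symm).resolve_left (pow_ne_zero _ (by norm_num))
      have e4 := Finset.card_filter_add_card_filter_not (s := (Finset.univ : Finset (Fin (2 * p))))
        (fun r => IsFil C l (w r))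
      rw [Finset.card_univ, Fintype.card_fin] at e4
      have e5 : (Finset.univ.filter fun r => ¬ IsFil C l (w r)).card = p := by omega
      rw [e5, sub_self]
  intro v
  have h2 := congrArg (fun F => F v) h1
  have h3 : actForm (lift l (fun j => hod (C j))) α.toMultilinearMap v - (p : ℂ) * α v = 0 := h2
  rw [actForm_apply] at h3
  exact sub_eq_zero.mp h3

end hym

section blocks

variable {J : Type} {κ : J → Type} (l : J → ℕ) (K : ℕ)

/-- the blocks of a product -/
def Hym_P (r : Fin K) : HW κ (fun j => K * l j) →ₗ[ℂ] HW κ l where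
  toFun w := fun j m => w j (finProdFinEquiv (r, m))
  map_add' _ _ := rfl
  map_smul' _ _ := rfl

/-- the inclusion of a block -/
def Hym_I (r : Fin K) (v : HW κ l) : HW κ (fun j => K * l j) := fun j x =>
  if (finProdFinEquiv.symm x).1 = r then v j (finProdFinEquiv.symm x).2 else 0

lemma Hym_P_I (r : Fin K) (v : HW κ l) : Hym_P l K r (Hym_I l K r v) = v := by
  funext j m
  show (if (finProdFinEquiv.symm (finProdFinEquiv (r, m))).1 = r then
    v j (finProdFinEquiv.symm (finProdFinEquiv (r, m))).2 else 0) = v j m
  rw [Equiv.symm_apply_apply, if_pos rfl]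

lemma Hym_P_I_ne (r r' : Fin K) (h : r' ≠ r) (v : HW κ l) : Hym_P l K r (Hym_I l K r' v) = 0 := by
  funext j m
  show (if (finProdFinEquiv.symm (finProdFinEquiv (r, m))).1 = r' then
    v j (finProdFinEquiv.symm (finProdFinEquiv (r, m))).2 else 0) = 0
  rw [Equiv.symm_apply_apply, if_neg (Ne.symm h)]

lemma Hym_lift_I (N : ∀ j, Module.End ℂ (κ j → ℂ)) (r : Fin K) (v : HW κ l) :
    lift (fun j => K * l j) N (Hym_I l K r v) = Hym_I l K r (lift l N v) := by
  funext j x
  show N j (if (finProdFinEquiv.symm x).1 = r then v j (finProdFinEquiv.symm x).2 else 0) =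
    if (finProdFinEquiv.symm x).1 = r then N j (v j (finProdFinEquiv.symm x).2) else 0
  by_cases h : (finProdFinEquiv.symm x).1 = r
  · rw [if_pos h, if_pos h]
  · rw [if_neg h, if_neg h, map_zero]

lemma Hym_I_upd (v : Fin K → HW κ l) (r : Fin K) (x : HW κ l) :
    Function.update (fun r' => Hym_I l K r' (v r')) r (Hym_I l K r x) =
      fun r' => Hym_I l K r' (Function.update v r x r') := by
  funext r'
  by_cases h : r' = r
  · subst h
    rw [Function.update_self, Function.update_self]
  · rw [Function.update_of_ne h, Function.update_of_ne h]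

/-- the alternating form attached to a multilinear form -/
noncomputable def Hym_a (g : MultilinearMap ℂ (fun _ : Fin K => HW κ l) ℂ) :
    HW κ (fun j => K * l j) [⋀^Fin K]→ₗ[ℂ] ℂ :=
  MultilinearMap.alternatization (g.compLinearMap fun r => Hym_P l K r)

lemma Hym_a_apply (g : MultilinearMap ℂ (fun _ : Fin K => HW κ l) ℂ)
    (w : Fin K → HW κ (fun j => K * l j)) : Hym_a l K g w =
      ∑ σ : Equiv.Perm (Fin K), ((Equiv.Perm.sign σ : ℤ) : ℂ) *
        g fun r => Hym_P l K r (w (σ r)) := by
  rw [Hym_a, MultilinearMap.alternatization_apply]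
  refine Finset.sum_congr rfl fun σ _ => ?_
  rw [Units.smul_def, zsmul_eq_mul]
  rfl

lemma Hym_a_I (g : MultilinearMap ℂ (fun _ : Fin K => HW κ l) ℂ) (v : Fin K → HW κ l) :
    Hym_a l K g (fun r => Hym_I l K r (v r)) = g v := by
  rw [Hym_a_apply, Finset.sum_eq_single 1]
  · rw [Equiv.Perm.sign_one, Units.val_one, Int.cast_one, one_mul]
    congr 1
    funext r
    exact Hym_P_I l K r (v r)
  · intro σ _ hσ
    have h1 : ∃ r, σ r ≠ r := by
      by_contra hc
      push Not at hc
      exact hσ (Equiv.ext hc)
    obtain ⟨r, hr⟩ := h1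
    have h2 : (g fun r => Hym_P l K r (Hym_I l K (σ r) (v (σ r)))) = 0 :=
      MultilinearMap.map_coord_zero g r (Hym_P_I_ne l K r (σ r) hr (v (σ r)))
    rw [h2, mul_zero]
  · intro h
    exact absurd (Finset.mem_univ _) h

end blocks

theorem thm_Hym : St_Hym := by
  intro J _ _ C hC l k g hQ hA
  have key : ∀ v : Fin (2 * k) → H1 C l,
      ∑ r, g (Function.update v r (lift l (fun j => hod (C j)) (v r))) = k * g v := by
    intro v
    have hG : IsGrothendieck C (fun j => 2 * k * l j) k (Hym_a l (2 * k) g) := by
      constructor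
      · intro w hw
        rw [Hym_a_apply]
        refine isAlg_sum _ _ fun σ _ => ?_
        refine (isAlgebraic_intCast _).mul (hA _ fun r i m j => ?_)
        exact hw (σ r) i (finProdFinEquiv (r, m)) j
      · intro w hw
        rw [Hym_a_apply]
        have h1 : ∀ σ : Equiv.Perm (Fin (2 * k)), ∃ q : ℚ,
            (g fun r => Hym_P l (2 * k) r (w (σ r))) = (2 * Real.pi * Complex.I) ^ k * q :=
          fun σ => hQ _ fun r i m => (mem_pData_Q _ _).mpr (hw (σ r) i (finProdFinEquiv (r, m)))
        choose q hq using h1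
        refine ⟨∑ σ : Equiv.Perm (Fin (2 * k)), ((Equiv.Perm.sign σ : ℤ) : ℚ) * q σ, ?_⟩
        push_cast
        rw [Finset.mul_sum]
        refine Finset.sum_congr rfl fun σ _ => ?_
        rw [hq]
        ring
    have h1 := Hym_alt C (fun j => 2 * k * l j) hC k (Hym_a l (2 * k) g) hG
      (fun r => Hym_I l (2 * k) r (v r))
    rw [Hym_a_I] at h1
    rw [← h1]
    refine Finset.sum_congr rfl fun r _ => ?_
    rw [Hym_lift_I, Hym_I_upd, Hym_a_I]
  apply MultilinearMap.ext
  intro v
  have e1 : lift l (fun j => (1 / 2 : ℂ) • 1 - hod (C j)) =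
      (1 / 2 : ℂ) • (1 : Module.End ℂ (H1 C l)) + (-1 : ℂ) • lift l (fun j => hod (C j)) := by
    apply LinearMap.ext
    intro w
    funext j m
    show (1 / 2 : ℂ) • w j m - hod (C j) (w j m) =
      (1 / 2 : ℂ) • w j m + (-1 : ℂ) • hod (C j) (w j m)
    rw [neg_one_smul, sub_eq_add_neg]
  rw [e1, actForm_add, actForm_smul, actForm_smul]
  show (1 / 2 : ℂ) * actForm (1 : Module.End ℂ (H1 C l)) g v +
    (-1 : ℂ) * actForm (lift l (fun j => hod (C j))) g v = 0
  rw [actForm_apply, actForm_apply, key v]
  have e2 : ∀ r, g (Function.update v r ((1 : Module.End ℂ (H1 C l)) (v r))) = g v := by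
    intro r
    rw [Module.End.one_apply, Function.update_eq_self]
  rw [Finset.sum_congr rfl fun r _ => e2 r, Finset.sum_const, Finset.card_univ, Fintype.card_fin,
    nsmul_eq_mul]
  push_cast
  ring

end Pool.Agent.KTW
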