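import Pool.Agent.KTW.StQ
import Pool.Agent.Helper7.CM8.Main
import Pool.Agent.KT.Alg.All
import Pool.Agent.KT.Final

/-!
# KTW: HYT, Grothendieck classes on products of elementary abelian varieties are Hodge classes
-/

set_option autoImplicit false

namespace Pool.Agent.KTW

open Module NumberField Pool.Agent.Helper7 Pool.Agent.Helper8.T1 Pool.Agent.KT.Alg
open Pool.Agent.GPC

/-- a field which is isomorphic to a good field is good -/
theorem Hyt_good {K K' : Type} [Field K] [NumberField K] [Field K'] [NumberField K']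
    (h : IsGoodCM K) (e : K' ≃+* K) : IsGoodCM K' := by
  have hfin : finrank ℚ K' = finrank ℚ K :=
    LinearEquiv.finrank_eq (e.toRatAlgEquiv.toLinearEquiv)
  rcases h with h | ⟨p, hp, h⟩ | h
  · exact Or.inl (IsAbelianGalois.of_algHom (e.toRatAlgEquiv : K' →ₐ[ℚ] K))
  · exact Or.inr (Or.inl ⟨p, hp, hfin.trans h⟩)
  · refine Or.inr (Or.inr fun N hN1 hN2 => ?_)
    let E : (K →+* ℂ) ≃ (K' →+* ℂ) :=
      { toFun := fun s => s.comp (e : K' →+* K)
        invFun := fun s => s.comp (e.symm : K →+* K')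
        left_inv := fun s => RingHom.ext fun x => by
          show s (e (e.symm x)) = s x
          rw [e.apply_symm_apply]
        right_inv := fun s => RingHom.ext fun x => by
          show s (e.symm (e x)) = s x
          rw [e.symm_apply_apply] }
    let L : ((K' →+* ℂ) → ℚ) ≃ₗ[ℚ] ((K →+* ℂ) → ℚ) := LinearEquiv.funCongrLeft ℚ ℚ E
    have hL : ∀ z s, L z s = z (E s) := fun _ _ => rfl
    have hf : finrank ℚ (N.map (L : ((K' →+* ℂ) → ℚ) →ₗ[ℚ] ((K →+* ℂ) → ℚ))) = finrank ℚ N :=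
      LinearEquiv.finrank_map_eq L N
    have h1 := h (N.map (L : ((K' →+* ℂ) → ℚ) →ₗ[ℚ] ((K →+* ℂ) → ℚ))) ?_ ?_
    · rw [hf] at h1
      rw [hfin]
      exact h1
    · rintro _ ⟨z, hz, rfl⟩ s
      exact hN1 z hz (E s)
    · rintro τ _ ⟨z, hz, rfl⟩
      exact ⟨_, hN2 τ z hz, rfl⟩

/-- [HYT] -/
theorem thm_Hyt : St_Hyt := by
  classical
  intro J _ _ C hC l k α hα
  obtain ⟨hA, htyp, hcl⟩ := hC
  have hK : ∀ i, ∃ (K : Type) (_ : Field K) (_ : NumberField K), IsRMType (C i) K ∨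
      (IsCMType (C i) K ∧ IsGoodCM K) ∨
      ((C i).IsGenericSurface ∧ IsRelTwoType (C i) K ∧ finrank ℚ K = 1) := by
    intro i
    obtain ⟨hs, h | ⟨K, h1, h2, h⟩ | ⟨K, h1, h2, ρ, h, hg⟩⟩ := htyp i
    · exact ⟨ℚ, inferInstance, inferInstance, Or.inr (Or.inr ⟨h, thm_Gen _ h, finrank_self ℚ⟩)⟩
    · exact ⟨K, h1, h2, Or.inl h⟩
    · obtain ⟨K', h3, h4, h5, ⟨e⟩⟩ := cm_of_hasCM h hs
      exact ⟨K', h3, h4, Or.inr (Or.inl ⟨h5, Hyt_good hg e⟩)⟩
  choose K iF iN hK using hK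
  obtain ⟨S, hS⟩ : ∃ S : Finset J, ∀ i, i ∈ S ↔ IsRMType (C i) (K i) :=
    ⟨Finset.univ.filter fun i => IsRMType (C i) (K i), fun i => by simp⟩
  obtain ⟨T, hT⟩ : ∃ T : Finset J, ∀ i, i ∈ T ↔ (IsCMType (C i) (K i) ∧ IsGoodCM (K i)) :=
    ⟨Finset.univ.filter fun i => (IsCMType (C i) (K i) ∧ IsGoodCM (K i)), fun i => by simp⟩
  obtain ⟨G, hG⟩ : ∃ G : Finset J, ∀ i, i ∈ G ↔
      ((C i).IsGenericSurface ∧ IsRelTwoType (C i) (K i) ∧ finrank ℚ (K i) = 1) :=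
    ⟨Finset.univ.filter fun i => ((C i).IsGenericSurface ∧
      IsRelTwoType (C i) (K i) ∧ finrank ℚ (K i) = 1), fun i => by simp⟩
  have hST : ∀ i, i ∈ S ∨ i ∈ G ∨ i ∈ T := fun i => by
    rw [hS, hT, hG]
    rcases hK i with h | h | h
    · exact Or.inl h
    · exact Or.inr (Or.inr h)
    · exact Or.inr (Or.inl h)
  have hcG : CondG C l K S G G :=
    ⟨fun i j _ _ _ _ hij => hA i j hij, Finset.Subset.refl _, fun i hi => ((hG i).mp hi).1,
      fun i hi => ((hG i).mp hi).2.2, fun i hi hi' => absurd hi hi',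
      fun i hi hi' => absurd hi hi'⟩
  refine Pool.Agent.Helper7.CM8.hodge_T8 C l K S G T hST
    (fun i hi => (hS i).mp hi) (fun i hi => ((hG i).mp hi).2.1) (fun i hi => ((hT i).mp hi).1) k _ hα
    (fun F hF => Act_ Pool.Agent.KT.thm_KT J C l K S G G
      (fun i hi => (hS i).mp hi) (fun i hi => ((hG i).mp hi).2.1) hcG F hF k _ hα)
    (fun i hi => Or.inl ((hT i).mp hi).2) (fun i hi j hj hij => ?_)
  obtain ⟨ρ, hρ⟩ := hasCM_of_isCMType ((hT i).mp hi).1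
  obtain ⟨ρ', hρ'⟩ := hasCM_of_isCMType ((hT j).mp hj).1
  exact Or.inr (Or.inr (Or.inr ⟨((hT i).mp hi).2, ((hT j).mp hj).2,
    hcl i j hij (K i) (K j) ρ ρ' hρ hρ'⟩))

end Pool.Agent.KTW
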