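import Pool.Agent.KTW.StQ
import Pool.Agent.KTW.Kln

/-!
# KTW [Klx]: the comparison operators, zero on the other abelian varieties, kill all Grothendieck
forms
-/

set_option autoImplicit false
set_option linter.unusedSectionVars false

namespace Pool.Agent.KTW

open Module Matrix NumberField Pool.Agent.Helper7 Pool.Agent.KS Pool.Agent.Ball Pool.Agent.KSE
  Pool.Agent.Helper28.GPC
open Pool.Agent.GPC (AbVar)

section

variable {I J : Type} [Fintype I] [DecidableEq I] [Fintype J] [DecidableEq J]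
    {ε : I → J} (hε : Function.Injective ε) (n : J → ℕ) {κ : J → Type}
    [∀ j, Fintype (κ j)] [∀ j, DecidableEq (κ j)] {ϖ : ℂ} (hϖ : ϖ ≠ 0) (P : ∀ j, PData (κ j) ϖ)
    {K : I → Type} [∀ i, Field (K i)] [∀ i, NumberField (K i)] {c : ∀ i, K i →+* K i} {m : I → ℕ}
    {h : ∀ i, Matrix (Fin (m i)) (Fin (m i)) (K i)}
    {t : ∀ i, Fin (m i) → K i → Module.End ℂ (κ (ε i) → ℂ)}
    (S : ∀ i, MD (P (ε i)) (c i) (h i) (t i)) {k : ℕ}
    (α : MultilinearMap ℂ (fun _ : Fin (2 * k) => HW κ n) ℂ)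
    (hB : ∀ v : Fin (2 * k) → HW κ n, (∀ r, IsRatP n P (v r)) → ∃ q : ℚ, α v = ϖ ^ k * q)
    (hA : ∀ v : Fin (2 * k) → HW κ n, (∀ r i m j, IsAlgebraic ℚ (v r i m j)) →
      IsAlgebraic ℚ (α v))
    (hP : ∀ i, HNd (P (ε i)))
    (hreal : ∀ i (σ : K i →+* ℂ), cj σ = σ)
    (σ₀ : ∀ i, K i →+* ℂ)
    (hsig : ∀ i, Sig2 (CoreR.GR (h i) (σ₀ i)) ∨ Sig2 (-(CoreR.GR (h i) (σ₀ i))))
    (hdef : ∀ i (σ : K i →+* ℂ), σ ≠ σ₀ i → Definite ((h i).map (cj σ)))

include hε hϖ S hB hA hP hreal hsig hdef in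
/-- the comparison operators without multiplier, zero on the other abelian varieties, kill the class -/
theorem Klx_form (hAbx : St_Abx) (hm : ∀ i, m i = 3 ∨ 6 ≤ m i)
    (hsp : ∀ i j, (∀ i', ε i' ≠ j) → Sp2 (P j) (m i))
    (D : Derivation ℚ ℂ ℂ) : actForm (lift n (NE ε P D)) α = 0 := by
  classical
  rcases Nat.eq_zero_or_pos k with rfl | hk
  · apply MultilinearMap.ext
    intro v
    rw [actForm_apply]
    exact Finset.sum_eq_zero fun r _ => Fin.elim0 r
  obtain ⟨n', k', γ, hγB, hγA, hγ1, hγ2⟩ := KSW.exists_gam_allE P S n hk α hB hA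
  obtain ⟨X, hXd⟩ : ∃ X : GG κ, X = (fun j => (P j).N D, D ϖ / ϖ) + (-(D ϖ / ϖ / 2)) • (1, 2) :=
    ⟨_, rfl⟩
  have hX : IsInv n' P γ X := by
    rw [hXd]
    exact (isInv_N n' P γ hϖ hγB hγA D).add _ _ _ ((Kln_id n' P γ).smul _ _ _ _)
  have hX2 : X.2 = 0 := by
    rw [hXd]
    show D ϖ / ϖ + -(D ϖ / ϖ / 2) * 2 = 0
    ring
  have hX1 : ∀ j, X.1 j = (P j).N D - (D ϖ / ϖ / 2) • 1 := by
    intro j
    rw [hXd]
    refine LinearMap.ext fun v => ?_
    show (P j).N D v + (-(D ϖ / ϖ / 2)) • v = (P j).N D v - (D ϖ / ϖ / 2) • v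
    rw [neg_smul, sub_eq_add_neg]
  obtain ⟨Y, hY, hY2, hYe, hY0⟩ := hAbx I J ε n' κ ϖ P K c m h t k' γ σ₀
    { pi := hϖ, S := S, B := hγB, A := hγA, nd := hP, real := hreal, sig := hsig, defi := hdef
      T := fun X hX => (hγ1 X hX).2
      Tg := fun g hg => (hγ2 g hg).2
      inj := hε, m3 := hm, sp := hsp } X hX hX2
  have hYN : Y.1 = NE ε P D := by
    funext j
    unfold NE
    by_cases hj : ∃ i, ε i = j
    · rw [if_pos hj]
      obtain ⟨i, rfl⟩ := hj
      rw [hYe, hX1]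
    · rw [if_neg hj]
      exact hY0 j fun i hi => hj ⟨i, hi⟩
  have h3 := ((hγ1 Y hY).1).form
  rw [hY2, mul_zero, zero_smul, hYN] at h3
  exact h3

end

theorem thm_Klx (hAbx : St_Abx) (hEig : St_Eig) : St_Klx := by
  intro I J _ _ _ _ A C K _ _ c m S hg hL n D k α hB hA
  have hc : ∀ i, c i = RingHom.id (K i) := fun i => (hL i).1
  have hm : ∀ i, m i = 3 ∨ 6 ≤ m i := fun i => (hL i).2.1
  have hϖ := Complex.two_pi_I_ne_zero
  choose σ₀ x hx hx1 hx2 using fun i => (S i).hodge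
  have hreal : ∀ i (σ : K i →+* ℂ), cj σ = σ := by
    intro i σ
    ext y
    rw [(S i).conjugation, hc i]
    rfl
  have hnd := fun i => k3_nd (S i).conjugation (S i).hermitian (hx i)
  have M := fun i => mde (A i) (S i) (hnd i)
  have hκ : ∀ i, Nonempty (Fin (A i).g ⊕ Fin (A i).g) := fun i =>
    ⟨Sum.inl ⟨0, Nat.pos_of_ne_zero (hg i)⟩⟩
  have hxx : ∀ i, pr (S i).h (σ₀ i) (x i) (x i) = 0 := by
    intro i
    have h1 := tau_pair (M i).conj (M i).cliff (σ₀ i) (x i) (x i)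
    rw [hreal i (σ₀ i)] at h1
    have h3 : tau (ts (lt (A i) (S i)) (σ₀ i)) (x i) *
        tau (ts (lt (A i) (S i)) (σ₀ i)) (x i) = 0 := by
      apply LinearMap.ext
      intro v
      have hev : ∀ v, tau (ts (lt (A i) (S i)) (σ₀ i)) (x i) v =
          ∑ a, x i a • (S i).e (σ₀ i) a v := by
        intro v
        rw [tau_apply, LinearMap.sum_apply]
        refine Finset.sum_congr rfl fun a _ => ?_
        rw [LinearMap.smul_apply, ts_lt]
        rfl
      show tau (ts (lt (A i) (S i)) (σ₀ i)) (x i)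
        (tau (ts (lt (A i) (S i)) (σ₀ i)) (x i) v) = 0
      rw [hev (tau (ts (lt (A i) (S i)) (σ₀ i)) (x i) v)]
      apply hx2
      rw [hev]
      exact hx1 i v
    rw [h3, add_zero] at h1
    rcases smul_eq_zero.mp h1.symm with h4 | h4
    · simpa using h4
    · exact absurd h4 one_ne_zero
  refine Klx_form (ε := Sum.inl) Sum.inl_injective n hϖ (fun j => pData (Sum.elim A C j)) M α hB
    hA (fun i => hnd_pData (A i)) hreal σ₀
    (fun i => k3_sig2 (S i).conjugation (S i).hermitian (hx i) (hreal i (σ₀ i)) (hxx i))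
    (fun i σ hσ => k3_def (S i).conjugation (S i).hermitian (hx i) σ hσ (by
      rw [hreal i (σ₀ i)]; exact hσ)) hAbx hm ?_ D
  intro i j hj
  rcases j with j | j
  · exact absurd rfl (hj j)
  · exact hEig (C j) (m i) ((hL i).2.2 j)

end Pool.Agent.KTW
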