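import Pool.Agent.KTP.TypesV

/-!
Grothendieck classes and Hodge classes on products of K3 surfaces and abelian varieties.

`X_1, ..., X_n` are varieties of K3 type as in `KTP/TypesV.lean`: the sum of their transcendental parts
`T_i` and of the spaces of algebraic classes is `HV r K m = ℂ^r ⊕ (⊕_i T_i ⊗ ℂ)`, and `C = ∏ C_j^{k_j}` is a
product of abelian varieties.  A class on `X_1 × ... × X_n × C` is a multilinear form on `n` copies of
`HV r K m` with values in the alternating forms on `H_1(C, ℂ)`.
-/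

set_option autoImplicit false

namespace Pool.Agent.GPC

open NumberField

/-- `A` has complex multiplication: the linear maps of `H_1(A, ℂ)` which commute with all
endomorphisms of `A` commute with each other -/
def AbVar.IsCM (A : AbVar) : Prop :=
  ∀ X Y : A.H1 → A.H1, IsLinearMap ℂ X → IsLinearMap ℂ Y →
    (∀ f, A.IsEnd f → ∀ v, X (f v) = f (X v)) → (∀ f, A.IsEnd f → ∀ v, Y (f v) = f (Y v)) →
    ∀ v, X (Y v) = Y (X v)

/-- the classes on `X_1 × ... × X_n × C`, `C = ∏ C_j^{k_j}` -/
def ClassY {I J : Type} (K : I → Type) [∀ i, Field (K i)] (m : I → ℕ) (C : J → AbVar)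
    (r n : ℕ) (k : J → ℕ) (p : ℕ) : Type :=
  MultilinearMap ℂ (fun _ : Fin n => HV r K m) (Form C k (2 * p))

section K3Products

variable {I J : Type} {K : I → Type} [∀ i, Field (K i)] [∀ i, NumberField (K i)] {m : I → ℕ}
  {A : I → AbVar} {c : ∀ i, K i →+* K i} {C : J → AbVar} {r n : ℕ} {k : J → ℕ} {p : ℕ}

/-- the value of a class -/
def ClassY.val (F : ClassY K m C r n k p) (v : Fin n → HV r K m) (w : Fin (2 * p) → H1 C k) : ℂ :=
  MultilinearMap.toFun F v w

/-- the values are `(2πi)^p` times rational numbers on the Betti structures -/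
def ClassY.IsRational (F : ClassY K m C r n k p) : Prop :=
  ∀ (v : Fin n → HV r K m) (w : Fin (2 * p) → H1 C k),
    (∀ s, (v s).IsRat) → (∀ s, IsBetti C k (w s)) →
      ∃ q : ℚ, F.val v w = (2 * Real.pi * Complex.I) ^ p * q

/-- `F` is a Grothendieck class on `X_1 × ... × X_n × C`: the values are `(2πi)^p` times rational
numbers on the Betti structures and algebraic on the de Rham structures. -/
def ClassY.IsGr (S : ∀ i, (A i).KugaSatakeMul (K i) (c i) (m i)) (F : ClassY K m C r n k p) :
    Prop :=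
  F.IsRational ∧ ∀ (v : Fin n → HV r K m) (w : Fin (2 * p) → H1 C k),
    (∀ s, (v s).IsDR S) → (∀ s, IsDeRham C k (w s)) → IsAlgebraic ℚ (F.val v w)

/-- `F` is a Hodge class on `X_1 × ... × X_n × C`: the values on the Betti structures are `(2πi)^p`
times rational numbers, and as a map with values in `ℂ(p)`, which is of type `(-p, -p)`, `F` respects
the Hodge filtrations: it vanishes on `F^{a_1} × ... × F^{a_n} × F^{b_1} × ... × F^{b_{2p}}` if
`∑ a_s + ∑ b_s > -p`. -/
def ClassY.IsHodge (S : ∀ i, (A i).KugaSatakeMul (K i) (c i) (m i)) (F : ClassY K m C r n k p) :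
    Prop :=
  F.IsRational ∧ ∀ (a : Fin n → ℤ) (b : Fin (2 * p) → ℤ) (v : Fin n → HV r K m)
    (w : Fin (2 * p) → H1 C k), -(p : ℤ) < ∑ s, a s + ∑ s, b s → (∀ s, (v s).IsFil S (a s)) →
      (∀ s i j, (C i).IsFilAt (b s) (w s i j)) → F.val v w = 0

/-- `F` is a sum of products of Grothendieck classes on `X_1 × ... × X_n` and Grothendieck classes
on `C`. -/
def ClassY.IsSum (S : ∀ i, (A i).KugaSatakeMul (K i) (c i) (m i)) (F : ClassY K m C r n k p) :
    Prop :=
  ∃ (N : ℕ) (G : Fin N → ClassX K m r n) (γ : Fin N → Form C k (2 * p)),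
    (∀ a, (G a).IsGr S ∧ IsGrothendieck C k p (γ a)) ∧
    ∀ v w, F.val v w = ∑ a, (G a).val v * γ a w

end K3Products

end Pool.Agent.GPC
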