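import Pool.Agent.KTP.All
import Pool.Agent.KTW.Types

/-!
# KTW: products of K3 surfaces with arbitrary abelian varieties. Frozen statements

Every module `Pool/Agent/KTW/<X>.lean` imports this file (and `Mathlib` files if needed) and proves
`theorem thm_<X> : St_<X>` (with the hypotheses named in the docstring), namespace `Pool.Agent.KTW`, own
lemmas with names starting with the name of the module. The docstrings contain the proofs.
-/

set_option autoImplicit false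

namespace Pool.Agent.KTW

open Module Matrix NumberField Pool.Agent.Helper7 Pool.Agent.KS Pool.Agent.Ball Pool.Agent.KSE
  Pool.Agent.Helper28.GPC Pool.Agent.KSR Pool.Agent.K3P Pool.Agent.KTP
open Pool.Agent.GPC (AbVar TC IsRatT qf df HU IsBasicU Form IsBetti IsDeRham IsGrothendieck H1)

section defs

variable {I J : Type} [DecidableEq J] {κ : J → Type} [∀ j, Fintype (κ j)]
  [∀ j, DecidableEq (κ j)] {ϖ : ℂ} {K : I → Type} [∀ i, Field (K i)] [∀ i, NumberField (K i)]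
  {m : I → ℕ}

/-- the Lie algebras of the Kuga-Satake structures kill all Grothendieck forms on `⊕ H_1(A_j)^{n_j}`;
the abelian varieties are indexed by `J`, those with a Kuga-Satake structure are the `A_(e i)` -/
def KillE (P : ∀ j, PData (κ j) ϖ) (e : I → J)
    (t : ∀ i, Fin (m i) → K i → Module.End ℂ (κ (e i) → ℂ)) (n : J → ℕ) : Prop :=
  ∀ (k : ℕ) (α : MultilinearMap ℂ (fun _ : Fin (2 * k) => HW κ n) ℂ),
    (∀ v : Fin (2 * k) → HW κ n, (∀ r, IsRatP n P (v r)) → ∃ q : ℚ, α v = ϖ ^ k * q) →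
    (∀ v : Fin (2 * k) → HW κ n, (∀ r i l j, IsAlgebraic ℚ (v r i l j)) → IsAlgebraic ℚ (α v)) →
    ∀ i, ∀ Z ∈ bvS (t i), actForm (lift n (Pi.single (e i) Z)) α = 0

end defs

/-- **SPD.**  The dimension count.  PROOF.  Suppose `X.1 = 0` implies `X.2 = 0` for `X ∈ W`.  Then the first
projection is injective on `W` and `finrank W ≤ card {(a, b) | a ≤ b} (a, b ∈ κ) = g (g + 1) / 2`,
`g = card κ`: the map from `W` to the functions on the pairs `a ≤ b` (choose a linear order of `κ`, or an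
equivalence with `Fin g`; or use `Sym2 κ`), `X ↦ ψ (X.1 e_a) e_b`, is injective, because
`ψ (X.1 u) v = ψ (X.1 v) u` (`hW` and `halt`) and `ψ` is nondegenerate.  The second projection of `W`
contains all `H⁻¹ * A`, `A` skew-symmetric, so `finrank W ≥ card {(a, b) | a < b} = m (m - 1) / 2`:
the map from the functions `f` on the pairs `a < b` in `Fin m` to the matrices, `f ↦ H⁻¹ * A_f`,
`A_f = f` above and `-f` below the diagonal, is injective.  And `m (m - 1) / 2 > g (g + 1) / 2` for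
`m ≥ g + 2`. -/
def St_Spd : Prop := ∀ (m : ℕ) (H : Matrix (Fin m) (Fin m) ℂ), Hᵀ = H → IsUnit H.det →
  ∀ (κ : Type) [Fintype κ] [DecidableEq κ] (ψ : (κ → ℂ) →ₗ[ℂ] (κ → ℂ) →ₗ[ℂ] ℂ),
  (∀ u, (∀ v, ψ u v = 0) → u = 0) → (∀ u v, ψ u v = -ψ v u) → Fintype.card κ + 2 ≤ m →
  ∀ W : Submodule ℂ (Module.End ℂ (κ → ℂ) × Matrix (Fin m) (Fin m) ℂ),
  (∀ X ∈ W, ∀ u v, ψ (X.1 u) v + ψ u (X.1 v) = 0) →
  (∀ Z : Matrix (Fin m) (Fin m) ℂ, Zᵀ * H + H * Z = 0 → ∃ X ∈ W, X.2 = Z) →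
  ∃ X ∈ W, X.1 = 0 ∧ X.2 ≠ 0

/-- **SPC** (from `St_Spd`).  Spectators.  PROOF.  `q` is the bilinear form of `H`
(`Matrix.toBilin'`, or `Matrix.toLinearMap₂'`), `KSP.ideal_top` (`Pool/Agent/KSP/Goursat.lean`): a subspace of
skew operators stable under the brackets with all skew operators and not zero contains all skew
operators (`m ≥ 3`, `m ≠ 4`); translate to matrices with `Matrix.toLin'` (as in `KSR/CoreW.lean`,
`KSR/FinalA.lean`).  For a finset `s` of `J` let `𝔞 s` be the set of the `X.2` with `X ∈ W` and `π j X.1 = 0`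
for all `j ∈ s`.  It is stable under brackets with all skew matrices `Z = Y.2`, `Y ∈ W`:
`π j (Y.1 X.1 - X.1 Y.1) = 0`.
(1) `𝔞 {j} ≠ 0`: if `card κ_j + 2 ≤ m`, by `St_Spd` for the image of `W` under `X ↦ (π j X.1, X.2)`.  If the
`π j X.1` commute: take skew `Z, Z'` with `Z Z' ≠ Z' Z` (`m ≥ 3`; e.g. if all commute then the space spanned
by one `Z ≠ 0` is a proper ideal, contradiction to `ideal_top`; or explicit matrices) and the bracket
of their preimages in `W`.  So `𝔞 {j}` contains all skew matrices.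
(2) Induction on `s` (`Finset.induction_on`): `𝔞 ∅` is everything by the hypothesis; `𝔞 (insert j s)`
contains all brackets `[Z, Z']`, `Z ∈ 𝔞 s`, `Z' ∈ 𝔞 {j}`, hence is not zero, hence everything. -/
def St_Spc : Prop := ∀ (m : ℕ) (H : Matrix (Fin m) (Fin m) ℂ), Hᵀ = H → IsUnit H.det → 3 ≤ m →
  m ≠ 4 → ∀ (𝓐 : Type) [Ring 𝓐] [Algebra ℂ 𝓐] (J : Type) [Fintype J] (κ : J → Type)
  [∀ j, Fintype (κ j)] [∀ j, DecidableEq (κ j)] (ψ : ∀ j, (κ j → ℂ) →ₗ[ℂ] (κ j → ℂ) →ₗ[ℂ] ℂ),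
  (∀ j u, (∀ v, ψ j u v = 0) → u = 0) → (∀ j u v, ψ j u v = -ψ j v u) →
  ∀ (π : ∀ j, 𝓐 →ₐ[ℂ] Module.End ℂ (κ j → ℂ))
  (W : Submodule ℂ (𝓐 × Matrix (Fin m) (Fin m) ℂ)),
  (∀ X ∈ W, ∀ Y ∈ W, X * Y - Y * X ∈ W) → (∀ X ∈ W, X.2ᵀ * H + H * X.2 = 0) →
  (∀ Z : Matrix (Fin m) (Fin m) ℂ, Zᵀ * H + H * Z = 0 → ∃ X ∈ W, X.2 = Z) →
  (∀ X ∈ W, ∀ j u v, ψ j (π j X.1 u) v + ψ j u (π j X.1 v) = 0) →
  (∀ j, Fintype.card (κ j) + 2 ≤ m ∨
    ∀ X ∈ W, ∀ Y ∈ W, π j X.1 * π j Y.1 = π j Y.1 * π j X.1) →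
  ∀ Z : Matrix (Fin m) (Fin m) ℂ, Zᵀ * H + H * Z = 0 → ∃ X ∈ W, X.2 = Z ∧ ∀ j, π j X.1 = 0

/-- **MXE** (uses `Pool/Agent/KTP/Mix.lean`).  Forms with variables in the `T_i` and in the `H_1` of the
abelian varieties without Kuga-Satake structure (`k (e i) = 0`).  PROOF.  As `KTP.thm_Mix`, with
`β i (u (e i) 0) (v (e i) 0)` for `β i (u i 0) (v i 0)` (copy `Mix_be`, `Mix_be_apply` with `e`; `MixA_act` is
general).  For `M` skew take `Z ∈ bvS (t i)` with `ActM (t i) Z M` (`exists_bvE`, as in `KTP/Inw.lean`).  The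
second sum in `thm_Mix` vanishes: `lift k (Pi.single (e i) Z) (w s) = 0` since `k (e i) = 0`.
(`K3P.thm_Bet (thm_Drb) (thm_Rtb)` gives `St_Bet`.) -/
def St_Mxe : Prop := ∀ (I J : Type) [Fintype I] [DecidableEq I] [Fintype J] [DecidableEq J]
  (e : I → J), Function.Injective e → ∀ (κ : J → Type) [∀ j, Fintype (κ j)]
  [∀ j, DecidableEq (κ j)], (∀ i, Nonempty (κ (e i))) → ∀ (ϖ : ℂ) (P : ∀ j, PData (κ j) ϖ)
  (K : I → Type) [∀ i, Field (K i)] [∀ i, NumberField (K i)] (c : ∀ i, K i →+* K i) (m : I → ℕ)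
  (h : ∀ i, Matrix (Fin (m i)) (Fin (m i)) (K i))
  (t : ∀ i, Fin (m i) → K i → Module.End ℂ (κ (e i) → ℂ)), ϖ ≠ 0 →
  (∀ i, MD (P (e i)) (c i) (h i) (t i)) → ∀ k : J → ℕ, (∀ i, k (e i) = 0) →
  KillE P e t (fun j => k j + 1) →
  ∀ (n p : ℕ) (F : MultilinearMap ℂ (fun _ : Fin n => TF K m)
    (MultilinearMap ℂ (fun _ : Fin (2 * p) => HW κ k) ℂ)),
  (∀ (y : Fin n → ∀ i, Fin (m i) → K i) (w : Fin (2 * p) → HW κ k), (∀ s, IsRatP k P (w s)) →
    ∃ q : ℚ, F (fun s => embF (y s)) w = ϖ ^ p * q) →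
  (∀ (v : Fin n → TF K m) (w : Fin (2 * p) → HW κ k), (∀ s i, DR (t i) (v s i)) →
    (∀ s i l j, IsAlgebraic ℚ (w s i l j)) → IsAlgebraic ℚ (F v w)) →
  ∀ w : Fin (2 * p) → HW κ k, InvF h ((Mix_ev w).compMultilinearMap F)

/-- **TNS.**  Linear algebra: sums of products.  `Q` and `D` are the rational and the de Rham vectors.
PROOF.  The space of the multilinear forms is finite dimensional (`Module.Finite` instance of
`MultilinearMap`); choose a finite subset `G_1, ..., G_L` of `B` which is a basis of `span B`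
(`exists_linearIndependent`).  Multilinear forms which agree on all tuples of vectors in `Q` are equal
(`hQ`; as `K3P.Inv_span`), so the functions `G_a` on the set of `Q`-tuples are linearly independent and
there are `Q`-tuples `v_1, ..., v_L` with `det (G_a (v_b)) ≠ 0` (a family of linearly independent functions;
e.g. step (1) of `St_Prd`, or: the vectors `(G_a v)_a ∈ ℂ^L`, `v` a `Q`-tuple, span `ℂ^L`).  The matrix is
rational, so its inverse is rational: put `γ_a = ∑ b, (inverse)_(b a) • F (v_b)` (suitably indexed).  For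
`φ ∈ E` the form `φ ∘ F` is `∑ a, c_a G_a` and evaluation at the `v_b` gives `c_a = φ (γ_a)`; so
`F v = ∑ a, G_a v • γ_a` (`hE`).  In the same way with `D`-tuples: `γ_a` is also a combination of values
at `D`-tuples with algebraic coefficients (the inverse of a matrix of algebraic numbers: adjugate
and determinant, cf. `K3P.Rvd_det`). -/
def St_Tns : Prop := ∀ (V N : Type) [AddCommGroup V] [Module ℂ V] [FiniteDimensional ℂ V]
  [AddCommGroup N] [Module ℂ N] (Q D : V → Prop), Submodule.span ℂ {v | Q v} = ⊤ →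
  Submodule.span ℂ {v | D v} = ⊤ → ∀ (n : ℕ)
  (B : Set (MultilinearMap ℂ (fun _ : Fin n => V) ℂ)),
  (∀ G ∈ B, ∀ v : Fin n → V, (∀ s, Q (v s)) → ∃ q : ℚ, G v = q) →
  (∀ G ∈ B, ∀ v : Fin n → V, (∀ s, D (v s)) → IsAlgebraic ℚ (G v)) →
  ∀ (F : MultilinearMap ℂ (fun _ : Fin n => V) N) (E : Set (N →ₗ[ℂ] ℂ)),
  (∀ x : N, (∀ φ ∈ E, φ x = 0) → x = 0) →
  (∀ φ ∈ E, φ.compMultilinearMap F ∈ Submodule.span ℂ B) →
  ∃ (L : ℕ) (G : Fin L → MultilinearMap ℂ (fun _ : Fin n => V) ℂ) (γ : Fin L → N),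
    (∀ a, G a ∈ B) ∧ (∀ v, F v = ∑ a, G a v • γ a) ∧
    (∀ a, ∃ (M : ℕ) (q : Fin M → ℚ) (v : Fin M → Fin n → V), (∀ b s, Q (v b s)) ∧
      γ a = ∑ b, (q b : ℂ) • F (v b)) ∧
    ∀ a, ∃ (M : ℕ) (q : Fin M → ℂ) (v : Fin M → Fin n → V), (∀ b, IsAlgebraic ℚ (q b)) ∧
      (∀ b s, D (v b s)) ∧ γ a = ∑ b, q b • F (v b)

/-- **HTV.**  Coordinates `ℂ^r`, spans.  PROOF.  As `KTP.thm_Htu` (`Mxu_enum`, `Mxu_sum`, `Htu_term` for
`N = ℂ`), as functions of `v`: `G v` is the sum over `f : Fin n → Option (Fin r)` of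
`(∏ b, (v (ε (inr b))).1 (i b)) * Htu_G ε i G (fun a => (v (ε (inl a))).2)`, the function `Htu_G ε i G` is in
the span of the `ω` with `B d ω` by hypothesis, and the linear map
`ω ↦ (v ↦ ω (fun s => (v (ε (inl s))).2) * ∏ b, (v (ε (inr b))).1 (i b))` maps this span to the span in the
conclusion (`Submodule.span_induction`). -/
def St_Htv : Prop := ∀ (W : Type) [AddCommGroup W] [Module ℂ W] (r n : ℕ)
  (B : (d : ℕ) → ((Fin d → W) → ℂ) → Prop)
  (G : MultilinearMap ℂ (fun _ : Fin n => (Fin r → ℂ) × W) ℂ),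
  (∀ (d l : ℕ) (ε : Fin d ⊕ Fin l ≃ Fin n) (i : Fin l → Fin r),
    (fun y : Fin d → W => G fun s => Sum.elim (fun a => ((0 : Fin r → ℂ), y a))
      (fun b => (Pi.single (i b) 1, 0)) (ε.symm s)) ∈
      Submodule.span ℂ {ω : (Fin d → W) → ℂ | B d ω}) →
  (fun v => G v) ∈ Submodule.span ℂ {δ : (Fin n → (Fin r → ℂ) × W) → ℂ |
    ∃ (d l : ℕ) (ε : Fin d ⊕ Fin l ≃ Fin n) (a : Fin l → Fin r) (ω : (Fin d → W) → ℂ), B d ω ∧
      ∀ v, δ v = ω (fun s => (v (ε (.inl s))).2) * ∏ b, (v (ε (.inr b))).1 (a b)}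

/-- **BMV** (from `KTP.thm_Mlt`, `K3P.St_Rev`, `K3P.St_Rvd`).  Basic classes are multilinear forms with
rational values on the rational and algebraic values on the de Rham vectors.  PROOF.  The last two
statements are the second half of the proof of `KTP.thm_Asm` (for one `ω j`).  For the first one: with
the data of `IsBasicU`, the first two products are a `Bas` function of the components in `TF K m` of the
slots `e (inl _)` (`asm_qz`; `KTP.thm_Mlt` gives a multilinear form `G₀`), and multiply by the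
coordinates of the slots `e (inr b)` (`MultilinearMap.mkPiAlgebra`-like, or directly: the structure
with `toFun v = G₀ (..) * ∏ ..`, case distinction on the slot as in `KTP/Mxu.lean`). -/
def St_Bmv : Prop := ∀ {I : Type} [Fintype I] [DecidableEq I] (A : I → AbVar) {K : I → Type}
  [∀ i, Field (K i)] [∀ i, NumberField (K i)] {c : ∀ i, K i →+* K i} {m : I → ℕ}
  (S : ∀ i, (A i).KugaSatakeMul (K i) (c i) (m i)), (∀ i, (A i).g ≠ 0) →
  ∀ (r n : ℕ) (ω : (Fin n → HU r K m) → ℂ), IsBasicU c (fun i => (S i).h) r n ω →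
  (∃ G : MultilinearMap ℂ (fun _ : Fin n => HU r K m) ℂ, ∀ v, ω v = G v) ∧
  (∀ v : Fin n → HU r K m, (∀ s, (∀ a, ∃ p : ℚ, (v s).1 a = p) ∧ ∀ i, IsRatT ((v s).2 i)) →
    ∃ q : ℚ, ω v = q) ∧
  ∀ v : Fin n → HU r K m,
    (∀ s, (∀ a, IsAlgebraic ℚ ((v s).1 a)) ∧ ∀ i, (S i).IsDRT ((v s).2 i)) → IsAlgebraic ℚ (ω v)

/-- **SPN** (from `K3P.St_Rtb`).  Rational vectors and de Rham vectors span.  PROOF.  Rational: the vectors
`(e_a, 0)`, and `(0, Pi.single i (emb x))`, which span `TC (K i) (m i)` (`thm_Rtb`).  De Rham: `(e_a, 0)`, and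
`(0, Pi.single i (Pi.single σ (g b)))` with `g b` the columns of the matrix of `MD.alg` for `σ`
(`IsUnit`: they span `ℂ^m`); such a vector is de Rham since its operator
`opT t (Pi.single σ x) = tau (ts t σ) x = ∑ a, x a • ts t σ a` has algebraic entries (`asm_dr` translates
`IsDRT` to `DR`; `mde` gives `MD`, see the beginning of the proof of `KTP.thm_Asm`). -/
def St_Spn : Prop := ∀ {I : Type} [Fintype I] [DecidableEq I] (A : I → AbVar) {K : I → Type}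
  [∀ i, Field (K i)] [∀ i, NumberField (K i)] {c : ∀ i, K i →+* K i} {m : I → ℕ}
  (S : ∀ i, (A i).KugaSatakeMul (K i) (c i) (m i)), (∀ i, (A i).g ≠ 0) → ∀ r : ℕ,
  Submodule.span ℂ {v : HU r K m | (∀ a, ∃ p : ℚ, v.1 a = p) ∧ ∀ i, IsRatT (v.2 i)} = ⊤ ∧
  Submodule.span ℂ {v : HU r K m | (∀ a, IsAlgebraic ℚ (v.1 a)) ∧ ∀ i, (S i).IsDRT (v.2 i)} = ⊤

/-- **KLE** (helper63: directory `KSW`, and `St_Spc`).  -/
def St_Kle : Prop := ∀ {I J : Type} [Fintype I] [DecidableEq I] [Fintype J] [DecidableEq J]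
  (A : I → AbVar) (C : J → AbVar) {K : I → Type} [∀ i, Field (K i)] [∀ i, NumberField (K i)]
  {c : ∀ i, K i →+* K i} {m : I → ℕ} (S : ∀ i, (A i).KugaSatakeMul (K i) (c i) (m i)),
  (∀ i, (A i).g ≠ 0) → (∀ i, c i = RingHom.id (K i)) → (∀ i, m i = 3 ∨ 6 ≤ m i) →
  (∀ i j, i ≠ j → ∀ f, (A i).IsMor (A j) f → ∀ v, f v = 0) →
  (∀ i j, 2 * (C j).g + 2 ≤ m i ∨ (C j).IsCM) → ∀ n : I ⊕ J → ℕ,
  KillE (κ := fun j => Fin (Sum.elim A C j).g ⊕ Fin (Sum.elim A C j).g)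
    (fun j => pData (Sum.elim A C j)) Sum.inl (fun i => lt (A i) (S i)) n

/-- **IVW** (from `St_Kle`, `St_Mxe`, `KTP.St_Kil`, `KTP.St_Inw`).  PROOF.  If `J` is not empty, all
`c i = id` and `m i = 3` or `6 ≤ m i`: `St_Mxe` for the index set `I ⊕ J`, `k = Sum.elim 0 l`, with the form
`F v (fun s j => w s (inr j))`.  If `J` is empty: if `p > 0` then `w` has a slot, its entry is `0` and
`F v w = 0`; if `p = 0` then `w` is unique and `St_Inw`, `St_Kil` apply. -/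
def St_Ivw : Prop := ∀ {I J : Type} [Fintype I] [DecidableEq I] [Fintype J] [DecidableEq J]
  (A : I → AbVar) (C : J → AbVar) {K : I → Type} [∀ i, Field (K i)] [∀ i, NumberField (K i)]
  {c : ∀ i, K i →+* K i} {m : I → ℕ} (S : ∀ i, (A i).KugaSatakeMul (K i) (c i) (m i)),
  (∀ i, (A i).g ≠ 0) → (∀ i, Adm (S i)) →
  (Subsingleton I ∨ ∀ i, c i = RingHom.id (K i) ∧ m i ≠ 4) →
  (∀ i j, i ≠ j → ∀ f, (A i).IsMor (A j) f → ∀ v, f v = 0) →
  (∀ i, ∀ j : J, c i = RingHom.id (K i) ∧ (m i = 3 ∨ 6 ≤ m i) ∧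
    (2 * (C j).g + 2 ≤ m i ∨ (C j).IsCM)) →
  ∀ (n : ℕ) (l : J → ℕ) (p : ℕ)
  (F : MultilinearMap ℂ (fun _ : Fin n => TF K m) (Form C l (2 * p))),
  (∀ (y : Fin n → ∀ i, Fin (m i) → K i) (w : Fin (2 * p) → H1 C l), (∀ s, IsBetti C l (w s)) →
    ∃ q : ℚ, F (fun s => embF (y s)) w = (2 * Real.pi * Complex.I) ^ p * q) →
  (∀ (v : Fin n → TF K m) (w : Fin (2 * p) → H1 C l), (∀ s i, DR (lt (A i) (S i)) (v s i)) →
    (∀ s, IsDeRham C l (w s)) → IsAlgebraic ℚ (F v w)) →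
  ∀ (w : Fin (2 * p) → H1 C l) (G : MultilinearMap ℂ (fun _ : Fin n => TF K m) ℂ),
    (∀ v, G v = F v w) → InvF (fun i => (S i).h) G

/-- **ASW** (from `St_Ivw`, `St_Tns`, `St_Htv`, `St_Bmv`, `St_Spn`, `KTP.St_Wrd`).  The classes on
`X_1 × ... × X_n × C`.  PROOF.  `→`: `St_Htv` (with `B = Bas`, `St_Wrd` and `St_Ivw` for the form in the slots
`ε (inl _)`) shows that for every `w` the function `v ↦ F v w` is in the span of the basic functions;
`St_Tns` with the evaluations at all `w` as `E`, `B` the set of multilinear forms which are basic functions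
(`St_Bmv`).  `γ a` is Grothendieck by the two formulas for `γ a`.  `←`: `St_Bmv`. -/
def St_Asw : Prop := ∀ {I J : Type} [Fintype I] [DecidableEq I] [Fintype J] [DecidableEq J]
  (A : I → AbVar) (C : J → AbVar) {K : I → Type} [∀ i, Field (K i)] [∀ i, NumberField (K i)]
  {c : ∀ i, K i →+* K i} {m : I → ℕ} (S : ∀ i, (A i).KugaSatakeMul (K i) (c i) (m i)),
  (∀ i, (A i).g ≠ 0) → (∀ i, Adm (S i)) →
  (Subsingleton I ∨ ∀ i, c i = RingHom.id (K i) ∧ m i ≠ 4) →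
  (∀ i j, i ≠ j → ∀ f, (A i).IsMor (A j) f → ∀ v, f v = 0) →
  (∀ i, ∀ j : J, c i = RingHom.id (K i) ∧ (m i = 3 ∨ 6 ≤ m i) ∧
    (2 * (C j).g + 2 ≤ m i ∨ (C j).IsCM)) →
  ∀ (r n : ℕ) (l : J → ℕ) (p : ℕ)
  (F : MultilinearMap ℂ (fun _ : Fin n => HU r K m) (Form C l (2 * p))),
  ((∀ (v : Fin n → HU r K m) (w : Fin (2 * p) → H1 C l),
    (∀ s, (∀ a, ∃ q : ℚ, (v s).1 a = q) ∧ ∀ i, IsRatT ((v s).2 i)) → (∀ s, IsBetti C l (w s)) →
      ∃ q : ℚ, F v w = (2 * Real.pi * Complex.I) ^ p * q) ∧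
    ∀ (v : Fin n → HU r K m) (w : Fin (2 * p) → H1 C l),
    (∀ s, (∀ a, IsAlgebraic ℚ ((v s).1 a)) ∧ ∀ i, (S i).IsDRT ((v s).2 i)) →
      (∀ s, IsDeRham C l (w s)) → IsAlgebraic ℚ (F v w)) ↔
  ∃ (N : ℕ) (ω : Fin N → (Fin n → HU r K m) → ℂ) (γ : Fin N → Form C l (2 * p)),
    (∀ a, IsBasicU c (fun i => (S i).h) r n (ω a) ∧ IsGrothendieck C l p (γ a)) ∧
    ∀ v w, F v w = ∑ a, ω a v * γ a w

end Pool.Agent.KTW
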