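import Pool.Agent.KTP.Mix
import Pool.Agent.KTW.StW

/-!
# KTW [Mxe]: forms with variables in the `T_i` and in the `H_1` of the other abelian varieties
(helper86; adapted from `KTP/Mix.lean`)
-/

set_option autoImplicit false
set_option linter.unusedSectionVars false

namespace Pool.Agent.KTW

open Module Matrix NumberField Pool.Agent.Helper7 Pool.Agent.KS Pool.Agent.Ball Pool.Agent.KSE
  Pool.Agent.Helper28.GPC Pool.Agent.KSR Pool.Agent.K3P Pool.Agent.KTP
open Pool.Agent.GPC (TC)

section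

variable {I J : Type} {κ : J → Type} {K : I → Type} [∀ i, Field (K i)] [∀ i, NumberField (K i)]
  {m : I → ℕ} {k : J → ℕ}

/-- the vectors in the `T_i` of two vectors -/
noncomputable def Mxe_be (e : I → J) (k : J → ℕ)
    (β : ∀ i, (κ (e i) → ℂ) →ₗ[ℂ] (κ (e i) → ℂ) →ₗ[ℂ] TC (K i) (m i)) :
    HW κ (fun j => k j + 1) →ₗ[ℂ] HW κ (fun j => k j + 1) →ₗ[ℂ] TF K m :=
  LinearMap.mk₂ ℂ (fun u v i => β i (u (e i) 0) (v (e i) 0))
    (fun u u' v => by
      funext i
      show β i (u (e i) 0 + u' (e i) 0) (v (e i) 0) =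
        β i (u (e i) 0) (v (e i) 0) + β i (u' (e i) 0) (v (e i) 0)
      rw [map_add, LinearMap.add_apply])
    (fun r u v => by
      funext i
      show β i (r • u (e i) 0) (v (e i) 0) = r • β i (u (e i) 0) (v (e i) 0)
      rw [map_smul, LinearMap.smul_apply])
    (fun u v v' => by
      funext i
      show β i (u (e i) 0) (v (e i) 0 + v' (e i) 0) =
        β i (u (e i) 0) (v (e i) 0) + β i (u (e i) 0) (v' (e i) 0)
      rw [map_add])
    (fun r u v => by
      funext i
      show β i (u (e i) 0) (r • v (e i) 0) = r • β i (u (e i) 0) (v (e i) 0)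
      rw [map_smul])

lemma Mxe_be_apply (e : I → J) (β : ∀ i, (κ (e i) → ℂ) →ₗ[ℂ] (κ (e i) → ℂ) →ₗ[ℂ] TC (K i) (m i))
    (u v : HW κ (fun j => k j + 1)) (i : I) :
    Mxe_be e k β u v i = β i (u (e i) 0) (v (e i) 0) := rfl

/-- extension of a family along an injective map -/
lemma Mxe_ext [Fintype I] [DecidableEq J] {e : I → J} (he : Function.Injective e)
    (u : ∀ i, κ (e i) → ℂ) : ∃ U : ∀ j, κ j → ℂ, ∀ i, U (e i) = u i := by
  classical
  refine ⟨∑ i, Pi.single (e i) (u i), fun i => ?_⟩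
  rw [Finset.sum_apply, Finset.sum_eq_single i]
  · rw [Pi.single_eq_same]
  · intro i' _ hi
    rw [Pi.single_eq_of_ne fun h => hi (he h).symm]
  · intro h
    exact absurd (Finset.mem_univ i) h

/-- no component at `j₀` -/
lemma Mxe_lift [DecidableEq J] {j₀ : J} (hk : k j₀ = 0) (Z : Module.End ℂ (κ j₀ → ℂ))
    (u : HW κ k) : lift k (Pi.single j₀ Z) u = 0 := by
  funext j l
  rw [lift_apply]
  by_cases hj : j = j₀
  · subst hj
    exact Fin.elim0 (Fin.cast hk l)
  · rw [Pi.single_eq_of_ne hj]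
    rfl

end

theorem thm_Mxe (hB : St_Bet) : St_Mxe := by
  intro I J _ _ _ _ e he κ _ _ hne ϖ P K _ _ c m h t hϖ S k hk0 hK n p F hQ hA w i₀ M hM v
  have : ∀ i, Nonempty (κ (e i)) := hne
  obtain ⟨Z, hZ, hZM⟩ := exists_bvE (S i₀).conj (S i₀).herm (S i₀).nd (S i₀).cliff M hM
  choose β hβ hβQ hβA hβS using fun i =>
    hB (κ (e i)) ϖ (P (e i)) (K i) (c i) (m i) (h i) (t i) hϖ (S i)
  obtain ⟨E⟩ : Nonempty ((Fin 2 × Fin n) ⊕ Fin (2 * p) ≃ Fin (2 * (n + p))) := by
    refine ⟨Fintype.equivFinOfCardEq ?_⟩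
    rw [Fintype.card_sum, Fintype.card_prod, Fintype.card_fin, Fintype.card_fin, Fintype.card_fin,
      mul_add]
  -- the form `ψ`
  have hψ : ∀ u v, (P (e i₀)).ψ (Z u) v + (P (e i₀)).ψ u (Z v) = 0 := by
    intro u v
    have h1 := hK 1 ((Inv_two (P (e i₀)).ψ).compLinearMap fun _ => Mix_pr κ k (e i₀)) ?_ ?_ i₀ Z hZ
    · have h2 := congrArg (fun G => G (![Pi.single (e i₀) fun _ => u, Pi.single (e i₀) fun _ => v] :
        Fin 2 → HW κ (fun j => k j + 1))) h1
      have h3 : actForm (lift (fun j => k j + 1) (Pi.single (e i₀) Z))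
          ((Inv_two (P (e i₀)).ψ).compLinearMap fun _ => Mix_pr κ k (e i₀))
          (![Pi.single (e i₀) fun _ => u, Pi.single (e i₀) fun _ => v] :
            Fin 2 → HW κ (fun j => k j + 1)) = 0 := h2
      rw [actForm_apply, Fin.sum_univ_two, MultilinearMap.compLinearMap_apply,
        MultilinearMap.compLinearMap_apply, Inv_two_apply, Inv_two_apply] at h3
      simpa [Mix_pr, lift_apply] using h3
    · intro w hw
      obtain ⟨q, hq⟩ := (P (e i₀)).hψQ _ (hw 0 (e i₀) 0) _ (hw 1 (e i₀) 0)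
      exact ⟨q, by rw [pow_one]; exact hq⟩
    · intro w hw
      exact psi_alg (P (e i₀)).ψ (P (e i₀)).hψalg _ _ (hw 0 (e i₀) 0) (hw 1 (e i₀) 0)
  have hL : ∀ u v, Mxe_be e k β (lift (fun j => k j + 1) (Pi.single (e i₀) Z) u) v +
      Mxe_be e k β u (lift (fun j => k j + 1) (Pi.single (e i₀) Z) v) =
      Mix_L i₀ M (Mxe_be e k β u v) := by
    intro u v
    funext i
    show β i ((Pi.single (e i₀) Z : (j : J) → Module.End ℂ (κ j → ℂ)) (e i) (u (e i) 0))
        (v (e i) 0) +
      β i (u (e i) 0) ((Pi.single (e i₀) Z : (j : J) → Module.End ℂ (κ j → ℂ)) (e i)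
        (v (e i) 0)) =
      (Pi.single i₀ (Inv_op M (β i₀ (u (e i₀) 0) (v (e i₀) 0))) : TF K m) i
    by_cases hi : i = i₀
    · subst hi
      rw [Pi.single_eq_same, Pi.single_eq_same]
      exact Inv_beta hZM hM (S i).nd (P (e i)).ψ (β i) (hβ i) hψ _ _
    · rw [Pi.single_eq_of_ne hi, Pi.single_eq_of_ne (fun h => hi (he h)), LinearMap.zero_apply,
        LinearMap.zero_apply, map_zero, map_zero, LinearMap.zero_apply, add_zero]
  have h1 := hK (n + p) (MixA_al E (Mxe_be e k β) (Mix_pi κ k) F) ?_ ?_ i₀ Z hZ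
  · have h2 : actForm (Mix_L i₀ M) ((Mix_ev w).compMultilinearMap F) = 0 := by
      refine Inv_span _ _ (Mix_span (κ := fun i => κ (e i)) β hβS) ?_
      intro v hv
      choose u u' hu using hv
      choose U hU using fun s => Mxe_ext (κ := κ) he (u s)
      choose U' hU' using fun s => Mxe_ext (κ := κ) he (u' s)
      obtain ⟨W, hW0, hW1, hWr⟩ : ∃ W : Fin (2 * (n + p)) → HW κ (fun j => k j + 1),
          (∀ s j, W (E (.inl (0, s))) j 0 = U s j) ∧ (∀ s j, W (E (.inl (1, s))) j 0 = U' s j) ∧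
          ∀ s j l, W (E (.inr s)) j l.succ = w s j l := by
        refine ⟨fun r => Sum.elim (fun t : Fin 2 × Fin n => fun j => (Fin.cons
          (if t.1 = 0 then U t.2 j else U' t.2 j) (fun _ => 0) : Fin (k j + 1) → κ j → ℂ))
          (fun s j => (Fin.cons 0 (w s j) : Fin (k j + 1) → κ j → ℂ)) (E.symm r), ?_, ?_, ?_⟩
        · intro s j
          simp only [Equiv.symm_apply_apply, Sum.elim_inl, Fin.cons_zero, if_pos]
        · intro s j
          simp only [Equiv.symm_apply_apply, Sum.elim_inl, Fin.cons_zero, one_ne_zero, if_false]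
        · intro s j l
          simp only [Equiv.symm_apply_apply, Sum.elim_inr, Fin.cons_succ]
      have h3 := MixA_act E (Mxe_be e k β) (Mix_pi κ k) F _ (lift k (Pi.single (e i₀) Z))
        (Mix_L i₀ M) hL (fun u => rfl) W
      rw [h1] at h3
      have e1 : MixA_v E (Mxe_be e k β) W = v := by
        funext s i
        unfold MixA_v
        rw [Mxe_be_apply, hW0, hW1, hU, hU', hu s]
      have e2 : MixA_w E (Mix_pi κ k) W = w := by
        funext s j l
        exact hWr s j l
      rw [e1, e2] at h3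
      have e3 : ∑ s, F v (Function.update w s (lift k (Pi.single (e i₀) Z) (w s))) = 0 := by
        refine Finset.sum_eq_zero fun s _ => ?_
        rw [Mxe_lift (hk0 i₀)]
        exact (F v).map_update_zero w s
      rw [e3, add_zero] at h3
      rw [actForm_apply]
      exact h3.symm
    have h3 : actForm (Mix_L i₀ M) ((Mix_ev w).compMultilinearMap F) v = 0 := by
      rw [h2]
      rfl
    rw [actForm_apply] at h3
    exact h3
  · intro u hu
    choose y hy using fun (s : Fin n) (i : I) => hβQ i _ (hu (E (.inl (0, s))) (e i) 0) _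
      (hu (E (.inl (1, s))) (e i) 0)
    obtain ⟨q, hq⟩ := hQ y (MixA_w E (Mix_pi κ k) u) (fun s j l => hu (E (.inr s)) j l.succ)
    refine ⟨q, ?_⟩
    rw [MixA_al_apply]
    have e1 : MixA_v E (Mxe_be e k β) u = fun s => ϖ • embF (y s) := by
      funext s i
      exact hy s i
    rw [e1, MultilinearMap.map_smul_univ F (fun _ => ϖ) fun r => embF (y r), Finset.prod_const,
      Finset.card_univ, Fintype.card_fin, _root_.smul_apply, hq, smul_eq_mul, pow_add]
    ring
  · intro u hu
    exact hA _ _ (fun s i => hβA i _ _ (hu _ (e i) 0) (hu _ (e i) 0)) fun s j l => hu _ j l.succ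

end Pool.Agent.KTW
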