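import Pool.Agent.KTW.Types
import Pool.Agent.Helper8.D.Types
import Pool.Agent.Helper8.T1.GoodDefs
import Pool.Agent.KT.Alg.Defs

/-!
Conditions on products of K3 surfaces and of abelian varieties `C_j`.
-/

set_option autoImplicit false

namespace Pool.Agent.GPC

open NumberField

/-- a field `E` of Rosati-symmetric elements of `End(A) ⊗ ℚ` -/
structure AbVar.SymField (A : AbVar) (E : Type) [Field E] [NumberField E] where
  ρ : E → A.H1 → A.H1
  one : ∀ v, ρ 1 v = v
  mul : ∀ x y v, ρ (x * y) v = ρ x (ρ y v)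
  add : ∀ x y v, ρ (x + y) v = ρ x v + ρ y v
  endo : ∀ x, A.IsEnd (ρ x)
  rosati : ∀ x, A.IsAdjoint (ρ x) (ρ x)

/-- `C` has complex multiplication, or `2 dim C / [E : ℚ] + 2 ≤ m` for a field `E` of
Rosati-symmetric elements of `End(C) ⊗ ℚ` (for example `E = ℚ`) -/
def AbVar.Fits (C : AbVar) (m : ℕ) : Prop :=
  C.IsCM ∨ ∃ (E : Type) (_ : Field E) (_ : NumberField E), Nonempty (C.SymField E) ∧
    2 * C.g + 2 * Module.finrank ℚ E ≤ m * Module.finrank ℚ E

/-- `T` is large with respect to the `C_j`: `K` is totally real, `m = 3` or `m ≥ 6`, and all `C_j` fit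
`m` -/
def AbVar.KugaSatakeMul.IsLarge {A : AbVar} {K : Type} [Field K] [NumberField K] {c : K →+* K}
    {m : ℕ} {J : Type} (_ : A.KugaSatakeMul K c m) (C : J → AbVar) : Prop :=
  c = RingHom.id K ∧ (m = 3 ∨ 6 ≤ m) ∧ ∀ j, (C j).Fits m

/-- `A` is, up to isogeny, a quotient of a product of powers of the `C_j`: the images of the
homomorphisms `C_j → A` span `H_1(A, ℂ)` -/
def AbVar.IsQuotientOf {J : Type} (A : AbVar) (C : J → AbVar) : Prop :=
  ∀ v : A.H1, v ∈ Submodule.span ℂ {w : A.H1 | ∃ j f u, (C j).IsMor A f ∧ w = f u}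

/-- all Grothendieck classes on the products of powers of the `C_j` are Hodge classes -/
def GrIsHodge {J : Type} (C : J → AbVar) : Prop :=
  ∀ (l : J → ℕ) (p : ℕ) (α : Form C l (2 * p)), IsGrothendieck C l p α → IsHodge C l p α

/-- the `C_j` are simple and pairwise not isogenous; each of them is a surface without
endomorphisms, or has real multiplication, or complex multiplication by a good field (for example
an abelian number field, or if `dim C_j` is a prime number); the fields of two `C_j` with complex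
multiplication, if they are not abelian over `ℚ`, have different normal closures -/
def IsElementary {J : Type} (C : J → AbVar) : Prop :=
  (∀ i j, i ≠ j → ∀ f, (C i).IsMor (C j) f → ∀ v, f v = 0) ∧
  (∀ j, (C j).IsSimple ∧ ((C j).IsGenericSurface ∨
    (∃ (K : Type) (_ : Field K) (_ : NumberField K), IsRMType (C j) K) ∨
    ∃ (K : Type) (_ : Field K) (_ : NumberField K) (ρ : K → (C j).H1 → (C j).H1),
      (C j).HasCM K ρ ∧ IsGoodCM K)) ∧
  ∀ i j, i ≠ j → ∀ (K L : Type) [Field K] [NumberField K] [Field L] [NumberField L]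
    (ρ : K → (C i).H1 → (C i).H1) (ρ' : L → (C j).H1 → (C j).H1), (C i).HasCM K ρ →
    (C j).HasCM L ρ' → ¬ IsAbelianGalois ℚ K → ¬ IsAbelianGalois ℚ L →
      IntermediateField.normalClosure ℚ K ℂ ≠ IntermediateField.normalClosure ℚ L ℂ

end Pool.Agent.GPC
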