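import Pool.Agent.KTW.StN
import Pool.Agent.KTW.TypesQ

/-!
# KTW: Hodge classes on products of K3 surfaces, Kuga-Satake varieties and abelian varieties. Frozen
statements, part four

Every module `Pool/Agent/KTW/<X>.lean` proves `theorem thm_<X> : St_<X>` (with the hypotheses named in
the docstring). The docstrings contain the proofs.
-/

set_option autoImplicit false

namespace Pool.Agent.KTW

open Module Matrix NumberField Pool.Agent.Helper7 Pool.Agent.KS Pool.Agent.Ball Pool.Agent.KSE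
  Pool.Agent.Helper28.GPC Pool.Agent.K3P Pool.Agent.KTP
open Pool.Agent.GPC (AbVar TC IsRatT qf df HU IsGrU Form IsBetti IsDeRham IsGrothendieck H1 IsFilU
  GrIsHodge IsElementary)

/-! ### Part A: Hodge classes on products with arbitrary abelian varieties -/

/-- **SYN.**  The comparison operators on the complementary part.  PROOF.  For a Grothendieck form `α` in
`2 k` variables and `μ = D ϖ / ϖ`: `actForm (lift n (fun j => (P j).N D)) α = k μ α` (`isInv_N`), and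
`actForm (lift n (fun _ => (μ / 2) • 1)) α = k μ α`; the difference of the operators is
`NE b P D + NE b' P D`, so `actForm (lift n (NE b' P D)) α = 0`. (`ϖ ≠ 0`.) -/
def St_Syn : Prop := ∀ (B B' J : Type) [Fintype B] [DecidableEq B] [Fintype B'] [DecidableEq B']
  [Fintype J] [DecidableEq J] (b : B → J) (b' : B' → J),
  (∀ j, (∃ i, b i = j) ↔ ¬ ∃ i, b' i = j) → ∀ (κ : J → Type) [∀ j, Fintype (κ j)]
  [∀ j, DecidableEq (κ j)] (ϖ : ℂ) (P : ∀ j, PData (κ j) ϖ), ϖ ≠ 0 → ∀ n : J → ℕ,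
  KillN b n P → KillN b' n P

/-- **REL.**  Operators on the part `b` of a family of abelian varieties which kill the Grothendieck forms
on this part kill all Grothendieck forms.  PROOF.  Let `α` be a Grothendieck form in `2 k` variables on
`HW κ n`.  `actForm (lift n Z) α` is multilinear; by `Inv_span` it is enough that it vanishes at all `v`
such that each `v r` is rational (`IsRatP`) and supported in the part (`v r j = 0` if `j` is not of the form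
`b i`) or in the complement (`v r (b i) = 0` for all `i`); these vectors span (`FBP_isRatP`, `FBP_apply`).
Fix `v`, let `s` be the set of the `r` such that `v r` is supported in the part, `M = card s`,
`ε : Fin M ≃ s` (`s.equivFin.symm` or `Fintype.equivFin`).  For `x : Fin M → HW (fun i => κ (b i))
(fun i => n (b i))` let `g x = α (v with the slots in s replaced by the extensions by zero of x)`, a
multilinear form, and `G (x, x') = g x * g x' / ϖ ^ (2 k - M)` in `2 M` variables.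
(1) `G` is a Grothendieck form of weight `M`: rational `x, x'`: `g x = ϖ ^ k q`, `g x' = ϖ ^ k q'`,
`ϖ ^ (2 k) / ϖ ^ (2 k - M) = ϖ ^ M`.  Algebraic `x, x'`: let `D` be a derivation, `μ = D ϖ / ϖ`,
`y` the family with `α y = g x` (so `y r` is rational for `r ∉ s` and algebraic for `r ∈ s`).
`D (g x) = ∑ r, α (update y r (∇ y_r))` (`derivForm_of_alg`, de Rham basis `SBP`), and `∇ y_r = 0` for
`r ∈ s`, `∇ y_r = lift n (fun j => (P j).N D) y_r` for `r ∉ s` (`lift_N`, `nabla (FBP n P) D y_r = 0`;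
see the proof of `thm_Mxn`, `Pool/Agent/KTW/Mxn.lean`).  By `isInv_N` the sum over all `r` of
`α (update y r (N y_r))` is `k μ (g x)`; by `KillN b n P` the sum over `r ∈ s` is `M μ / 2 (g x)` (`NE` is
zero on the other slots and `N - μ / 2` on the slots in `s`).  So `D (g x) = (k - M / 2) μ (g x)`,
`D (g x * g x') = (2 k - M) μ g x g x'`, and `D (g x * g x' / ϖ ^ (2 k - M)) = 0`; so it is algebraic
(`isAlgebraic_of_derivation`).
(2) The hypothesis for `G`: with `(T g) x = ∑ r, g (update x r (lift .. x_r))`: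
`(T g) x * g x' + g x * (T g) x' = 0` for all `x, x'`.  If `g = 0`, then `T g = 0`.  Otherwise `g x' ≠ 0` for
some `x'`; `x = x'` gives `(T g) x' = 0`, so `(T g) x * g x' = 0` and `(T g) x = 0` for all `x`.
(3) `T g` at the restrictions of the `v r`, `r ∈ s`, is `∑ r ∈ s, α (update v r (lift n Z (v r)))`, and for
`r ∉ s` `lift n Z (v r) = 0` (`Z j = 0` off the part). -/
def St_Rel : Prop := ∀ (B J : Type) [Fintype B] [DecidableEq B] [Fintype J] [DecidableEq J]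
  (b : B → J), Function.Injective b → ∀ (κ : J → Type) [∀ j, Fintype (κ j)]
  [∀ j, DecidableEq (κ j)] (ϖ : ℂ) (P : ∀ j, PData (κ j) ϖ), ϖ ≠ 0 →
  ∀ Z : ∀ j, Module.End ℂ (κ j → ℂ), (∀ j, (∀ i, b i ≠ j) → Z j = 0) → ∀ n : J → ℕ,
  KillN b n P → KillZ (fun i => P (b i)) (fun i => Z (b i)) (fun i => n (b i)) → KillZ P Z n

/-- **TRF.**  Adding factors which are images of the others.  PROOF.  Let `α` be a Grothendieck form in
`2 k` variables on `HW κ n`.  By `Inv_span` it is enough that `actForm (lift n Z) α` vanishes at the `v` with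
`v r = slot n (j r) (a r) (f r (u r))`, `f r : κ (e (i r)) → κ (j r)` a de Rham-Betti morphism (they span).
Let `n₀ i = 2 k` for all `i`, and `Ψ : HW (fun i => κ (e i)) n₀ →ₗ HW κ n`,
`Ψ w = ∑ r, slot n (j r) (a r) (f r (w (i r) r))`.  `α.compLinearMap (fun _ => Ψ)` is a Grothendieck form
(`f r` respects rational and algebraic vectors), so it is killed; evaluate at
`w r = slot n₀ (i r) r (u r)`: `Ψ (w r) = v r` (in the sum only the term `r` is not zero) and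
`Ψ (lift n₀ (fun i => Z (e i)) (w r)) = lift n Z (v r)` (`Z` commutes with `f r`). -/
def St_Trf : Prop := ∀ (B J : Type) [Fintype B] [DecidableEq B] [Fintype J] [DecidableEq J]
  (e : B → J) (κ : J → Type) [∀ j, Fintype (κ j)] [∀ j, DecidableEq (κ j)] (ϖ : ℂ)
  (P : ∀ j, PData (κ j) ϖ) (Z : ∀ j, Module.End ℂ (κ j → ℂ)),
  (∀ (i j : J) (f : (κ i → ℂ) →ₗ[ℂ] (κ j → ℂ)), IsDRB (P i) (P j) f → ∀ v, Z j (f v) = f (Z i v)) →
  (∀ j, Submodule.span ℂ {v : κ j → ℂ | ∃ (i : B) (f : (κ (e i) → ℂ) →ₗ[ℂ] (κ j → ℂ)),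
    IsDRB (P (e i)) (P j) f ∧ ∃ u, v = f u} = ⊤) →
  (∀ n, KillZ (fun i => P (e i)) (fun i => Z (e i)) n) → ∀ n, KillZ P Z n

/-- **HYM.**  From alternating to multilinear forms.  PROOF.  (1) Let `α` be a Grothendieck class in
`Form C l (2 p)`, so a Hodge class; then `actForm (lift l (fun j => hod (C j))) α = p α` (as multilinear
forms): `α` vanishes if more than `p` of the `v r` are in `F^0` (all components); `conj (α v) =
(-1)^p α (cB v)` (`cB` the conjugation of the Betti structure, both sides agree on Betti vectors), so it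
also vanishes if more than `p` of the `v r` are in `cB (F^0)`. The vectors in `F^0` or in `cB (F^0)` span
(`hod_add_cB`, `fil_sub_hod`, `fil_cB_hod`), `hod = 0` on `F^0` (`hod_fil`) and `hod = 1` on `cB (F^0)`
(`hod_cB_fil`); if `α v ≠ 0` for such `v`, there are exactly `p` vectors of each kind, and both sides are
`p α v`.  (`Inv_span`.)
(2) Let `g` be a multilinear Grothendieck form in `2 k` variables on `HW κ l`.  Let `l' j = (2 k) * l j`,
`Ψ r : HW κ l' → HW κ l` the block `r` (`finProdFinEquiv`), and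
`α w = ∑ π : Perm (Fin (2 k)), sign π * g (fun r => Ψ r (w (π r)))`
(`MultilinearMap.alternatization` of `g.compLinearMap Ψ`), a Grothendieck class on `∏ C_j^{l' j}`. By (1)
`actForm (lift l' hod) α = k α`.  Evaluate at `w r = ι r (v r)`, `ι r` the inclusion of the block `r`:
`α w = g v`, since for `π ≠ 1` there is an `r` with `Ψ r (w (π r)) = 0`; in the same way
`α (update w r (hod (w r))) = g (update v r (hod (v r)))`.  So `∑ r, g (update v r (hod v r)) = k g v`, and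
`actForm (lift l (1/2 - hod)) g = 2 k / 2 g - k g = 0`. -/
def St_Hym : Prop := ∀ {J : Type} [Fintype J] [DecidableEq J] (C : J → AbVar), GrIsHodge C →
  ∀ l, KillZ (fun j => pData (C j)) (fun j => (1 / 2 : ℂ) • 1 - hod (C j)) l

/-- **HYT.**  PROOF.  As in the proof of `Helper7/CM8/Main.lean` (the family is given, `exists_decomp` is
not needed): `S` the `j` of RM type, `G` the generic surfaces (`U = ∅`, so `U ∪ G = G`, `K j = ℚ` there), `T` the
`j` of CM type (`cm_of_hasCM`, the field which it gives is isomorphic to the given one), `CMPair` by its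
last alternative, `hodge_T8`. -/
def St_Hyt : Prop := ∀ {J : Type} [Fintype J] [DecidableEq J] (C : J → AbVar), IsElementary C →
  GrIsHodge C

/-- **MXQ.**  PROOF.  As `thm_Mxz` (`Pool/Agent/KTW/Mxz.lean`), with the index map `e`:
`β i (u (e i) 0) (v (e i) 0)` for `β i (u i 0) (v i 0)` (as in `Pool/Agent/KTW/Mxe.lean`). -/
def St_Mxq : Prop := ∀ (I J : Type) [Fintype I] [DecidableEq I] [Fintype J] [DecidableEq J]
  (e : I → J), Function.Injective e → ∀ (κ : J → Type) [∀ j, Fintype (κ j)]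
  [∀ j, DecidableEq (κ j)], (∀ i, Nonempty (κ (e i))) → ∀ (ϖ : ℂ) (P : ∀ j, PData (κ j) ϖ)
  (K : I → Type) [∀ i, Field (K i)] [∀ i, NumberField (K i)] (c : ∀ i, K i →+* K i) (m : I → ℕ)
  (h : ∀ i, Matrix (Fin (m i)) (Fin (m i)) (K i))
  (t : ∀ i, Fin (m i) → K i → Module.End ℂ (κ (e i) → ℂ)), ϖ ≠ 0 →
  (∀ i, MD (P (e i)) (c i) (h i) (t i)) → ∀ (Z : ∀ j, Module.End ℂ (κ j → ℂ))
  (M : ∀ i, (K i →+* ℂ) → Matrix (Fin (m i)) (Fin (m i)) ℂ), (∀ i, ActM (t i) (Z (e i)) (M i)) →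
  (∀ i, SkewM (h i) (M i)) → ∀ k : J → ℕ, KillZ P Z (fun j => k j + 1) →
  ∀ (n p : ℕ) (F : MultilinearMap ℂ (fun _ : Fin n => TF K m)
    (MultilinearMap ℂ (fun _ : Fin (2 * p) => HW κ k) ℂ)),
  (∀ (y : Fin n → ∀ i, Fin (m i) → K i) (w : Fin (2 * p) → HW κ k), (∀ s, IsRatP k P (w s)) →
    ∃ q : ℚ, F (fun s => embF (y s)) w = ϖ ^ p * q) →
  (∀ (v : Fin n → TF K m) (w : Fin (2 * p) → HW κ k), (∀ s i, DR (t i) (v s i)) →
    (∀ s i l j, IsAlgebraic ℚ (w s i l j)) → IsAlgebraic ℚ (F v w)) →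
  ∀ (v : Fin n → TF K m) (w : Fin (2 * p) → HW κ k),
    ∑ s, F (Function.update v s (fun i => Inv_op (M i) (v s i))) w +
      ∑ s, F v (Function.update w s (lift k Z (w s))) = 0

/-! ### Part B: a better condition on the other abelian varieties -/

/-- **SPX** (from `St_Spd`).  Spectators, by subspaces.  PROOF.  As `thm_Spc` (`Pool/Agent/KTW/Spc.lean`),
with pairs `(j, a)` (the subspaces `U a` of the spectator `j`; if the `π j X.1` commute, one subspace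
`U = ⊤`) for the indices `j`, and `∀ v ∈ U a, π j X.1 v = 0` for `π j X.1 = 0`: this condition is
preserved by brackets with `Y ∈ W`, since `π j Y.1` maps `U a` to itself.  `𝔞 {(j, a)} ≠ 0` by `St_Spd` for the
restrictions of the `π j X.1` to `U a` in coordinates (`finBasis`, `κ = Fin (finrank (U a))`).  In the end
`π j X.1` is zero on all `U a`, so it is zero. -/
def St_Spx : Prop := ∀ (m : ℕ) (H : Matrix (Fin m) (Fin m) ℂ), Hᵀ = H → IsUnit H.det → 3 ≤ m →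
  m ≠ 4 → ∀ (𝓐 : Type) [Ring 𝓐] [Algebra ℂ 𝓐] (J : Type) [Fintype J] (κ : J → Type)
  [∀ j, Fintype (κ j)] [∀ j, DecidableEq (κ j)] (ψ : ∀ j, (κ j → ℂ) →ₗ[ℂ] (κ j → ℂ) →ₗ[ℂ] ℂ),
  (∀ j u v, ψ j u v = -ψ j v u) → ∀ (π : ∀ j, 𝓐 →ₐ[ℂ] Module.End ℂ (κ j → ℂ))
  (W : Submodule ℂ (𝓐 × Matrix (Fin m) (Fin m) ℂ)),
  (∀ X ∈ W, ∀ Y ∈ W, X * Y - Y * X ∈ W) → (∀ X ∈ W, X.2ᵀ * H + H * X.2 = 0) →
  (∀ Z : Matrix (Fin m) (Fin m) ℂ, Zᵀ * H + H * Z = 0 → ∃ X ∈ W, X.2 = Z) →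
  (∀ X ∈ W, ∀ j u v, ψ j (π j X.1 u) v + ψ j u (π j X.1 v) = 0) →
  (∀ j, (∃ (N : ℕ) (U : Fin N → Submodule ℂ (κ j → ℂ)), (⨆ a, U a) = ⊤ ∧ ∀ a,
      (∀ X ∈ W, ∀ v ∈ U a, π j X.1 v ∈ U a) ∧
      (∀ u ∈ U a, (∀ v ∈ U a, ψ j u v = 0) → u = 0) ∧ finrank ℂ (U a) + 2 ≤ m) ∨
    ∀ X ∈ W, ∀ Y ∈ W, π j X.1 * π j Y.1 = π j Y.1 * π j X.1) →
  ∀ Z : Matrix (Fin m) (Fin m) ℂ, Zᵀ * H + H * Z = 0 → ∃ X ∈ W, X.2 = Z ∧ ∀ j, π j X.1 = 0

/-- `H_1` is a sum of small subspaces which are stable under the endomorphisms commuting with the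
de Rham-Betti endomorphisms, or these commute with each other -/
def Sp2 {κ : Type} [Fintype κ] [DecidableEq κ] {ϖ : ℂ} (P : PData κ ϖ) (m : ℕ) : Prop :=
  (∃ (N : ℕ) (U : Fin N → Submodule ℂ (κ → ℂ)), (⨆ a, U a) = ⊤ ∧ ∀ a,
    (∀ X : Module.End ℂ (κ → ℂ), (∀ f, IsDRB P P f → ∀ v, X (f v) = f (X v)) →
      ∀ v ∈ U a, X v ∈ U a) ∧
    (∀ u ∈ U a, (∀ v ∈ U a, P.ψ u v = 0) → u = 0) ∧ finrank ℂ (U a) + 2 ≤ m) ∨
  ∀ X Y : Module.End ℂ (κ → ℂ), (∀ f, IsDRB P P f → ∀ v, X (f v) = f (X v)) →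
    (∀ f, IsDRB P P f → ∀ v, Y (f v) = f (Y v)) → X * Y = Y * X

/-- **EIG.**  PROOF.  If `C` has CM: second alternative (end of the proof of `thm_Kln`,
`Pool/Agent/KTW/Kln.lean`).  Otherwise let `E` act by `ρ`, `σ : E →+* ℂ`,
`U σ = {v | ∀ x, ρ x v = σ x • v}` (numbered by `Fintype.equivFin`).  An `X` which commutes with the
`ρ x` maps `U σ` to itself (`isDRB_of_isEnd`).  The sum of the `U σ` is everything and `finrank (U σ) =
2 dim C / [E : ℚ]`: the projections `∑ k, W σ k • ρ (ε k)`, `ε` a `ℚ`-basis of `E` and `W` the inverse of the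
matrix `(τ (ε k))`; the rational vectors are a free `E`-module (or from the existing lemmas on `Fac`,
`Helper7/HU/Setup.lean`).  `ψ (U σ) (U τ) = 0` for `σ ≠ τ` (`ρ x` is self-adjoint), so `ψ` is nondegenerate on
`U σ`. -/
def St_Eig : Prop := ∀ (C : AbVar) (m : ℕ), C.Fits m → Sp2 (pData C) m

section defs

variable {I J : Type} [Fintype I] [DecidableEq I] [Fintype J] [DecidableEq J] (e : I → J)
  (n : J → ℕ) {κ : J → Type} [∀ j, Fintype (κ j)] [∀ j, DecidableEq (κ j)] {ϖ : ℂ}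
  (P : ∀ j, PData (κ j) ϖ) {K : I → Type} [∀ i, Field (K i)] [∀ i, NumberField (K i)] {m : I → ℕ}
  (h : ∀ i, Matrix (Fin (m i)) (Fin (m i)) (K i))
  (t : ∀ i, Fin (m i) → K i → Module.End ℂ (κ (e i) → ℂ)) {k : ℕ}
  (γ : MultilinearMap ℂ (fun _ : Fin (2 * k) => HW κ n) ℂ) (σ₀ : ∀ i, K i →+* ℂ)

/-- as `FamE`, with the condition `Sp2` on the other abelian varieties -/
structure FamX (c : ∀ i, K i →+* K i) : Prop where
  pi : ϖ ≠ 0
  S : ∀ i, MD (P (e i)) (c i) (h i) (t i)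
  B : ∀ v : Fin (2 * k) → HW κ n, (∀ r, IsRatP n P (v r)) → ∃ q : ℚ, γ v = ϖ ^ k * q
  A : ∀ v : Fin (2 * k) → HW κ n, (∀ r i m j, IsAlgebraic ℚ (v r i m j)) → IsAlgebraic ℚ (γ v)
  nd : ∀ i, HNd (P (e i))
  real : ∀ i (σ : K i →+* ℂ), cj σ = σ
  sig : ∀ i, Sig2 (CoreR.GR (h i) (σ₀ i)) ∨ Sig2 (-(CoreR.GR (h i) (σ₀ i)))
  defi : ∀ i (σ : K i →+* ℂ), σ ≠ σ₀ i → Definite ((h i).map (cj σ))
  T : ∀ X : GG κ, IsInv n P γ X → ∀ i, ∃ M, ActM (t i) (X.1 (e i)) M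
  Tg : ∀ g : (j : J) → Module.End ℂ (κ j → ℂ), IsGrp n P γ g → ∀ i,
    ∃ A : (K i →+* ℂ) → Matrix (Fin (m i)) (Fin (m i)) ℂ, ∀ σ x,
      g (e i) * tau (ts (t i) σ) x = tau (ts (t i) σ) (A σ *ᵥ x) * g (e i)
  inj : Function.Injective e
  m3 : ∀ i, m i = 3 ∨ 6 ≤ m i
  sp : ∀ i j, (∀ i', e i' ≠ j) → Sp2 (P j) (m i)

end defs

/-- **ABX** (helper63; from `St_Rps`, `St_Spx`).  As `St_Abs`. -/
def St_Abx : Prop := ∀ (I J : Type) [Fintype I] [DecidableEq I] [Fintype J] [DecidableEq J]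
  (e : I → J) (n : J → ℕ) (κ : J → Type) [∀ j, Fintype (κ j)] [∀ j, DecidableEq (κ j)] (ϖ : ℂ)
  (P : ∀ j, PData (κ j) ϖ) (K : I → Type) [∀ i, Field (K i)] [∀ i, NumberField (K i)]
  (c : ∀ i, K i →+* K i) (m : I → ℕ) (h : ∀ i, Matrix (Fin (m i)) (Fin (m i)) (K i))
  (t : ∀ i, Fin (m i) → K i → Module.End ℂ (κ (e i) → ℂ)) (k : ℕ)
  (γ : MultilinearMap ℂ (fun _ : Fin (2 * k) => HW κ n) ℂ) (σ₀ : ∀ i, K i →+* ℂ),
  FamX e n P h t γ σ₀ c → ∀ X : GG κ, IsInv n P γ X → X.2 = 0 →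
  ∃ Y : GG κ, IsInv n P γ Y ∧ Y.2 = 0 ∧ (∀ i, Y.1 (e i) = X.1 (e i)) ∧
    ∀ j, (∀ i, e i ≠ j) → Y.1 j = 0

/-- **KLX** (helper63; from `St_Abx`, `St_Eig`).  The comparison operators, zero on the `C_j`, kill all
Grothendieck forms. -/
def St_Klx : Prop := ∀ {I J : Type} [Fintype I] [DecidableEq I] [Fintype J] [DecidableEq J]
  (A : I → AbVar) (C : J → AbVar) {K : I → Type} [∀ i, Field (K i)] [∀ i, NumberField (K i)]
  {c : ∀ i, K i →+* K i} {m : I → ℕ} (S : ∀ i, (A i).KugaSatakeMul (K i) (c i) (m i)),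
  (∀ i, (A i).g ≠ 0) → (∀ i, (S i).IsLarge C) → ∀ n : I ⊕ J → ℕ,
  KillN (κ := fun j => Fin (Sum.elim A C j).g ⊕ Fin (Sum.elim A C j).g) Sum.inl n
    (fun j => pData (Sum.elim A C j))

/-- **HUX** (helper63; from `St_Klx`, `St_Mxn`, `KTP.St_Htu`).  The values at de Rham vectors of the `X_s`
and Betti vectors of `C` are algebraic multiples of `(2πi)^p`. -/
def St_Hux : Prop := ∀ {I J : Type} [Fintype I] [DecidableEq I] [Fintype J] [DecidableEq J]
  (A : I → AbVar) (C : J → AbVar) {K : I → Type} [∀ i, Field (K i)] [∀ i, NumberField (K i)]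
  {c : ∀ i, K i →+* K i} {m : I → ℕ} (S : ∀ i, (A i).KugaSatakeMul (K i) (c i) (m i)),
  (∀ i, (A i).g ≠ 0) → (∀ i, (S i).IsLarge C) →
  ∀ (r n : ℕ) (l : J → ℕ) (p : ℕ)
  (F : MultilinearMap ℂ (fun _ : Fin n => HU r K m) (Form C l (2 * p))),
  (∀ (v : Fin n → HU r K m) (w : Fin (2 * p) → H1 C l),
    (∀ s, (∀ a, ∃ q : ℚ, (v s).1 a = q) ∧ ∀ i, IsRatT ((v s).2 i)) → (∀ s, IsBetti C l (w s)) →
      ∃ q : ℚ, F v w = (2 * Real.pi * Complex.I) ^ p * q) →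
  (∀ (v : Fin n → HU r K m) (w : Fin (2 * p) → H1 C l),
    (∀ s, (∀ a, IsAlgebraic ℚ ((v s).1 a)) ∧ ∀ i, (S i).IsDRT ((v s).2 i)) →
      (∀ s, IsDeRham C l (w s)) → IsAlgebraic ℚ (F v w)) →
  ∀ (v : Fin n → HU r K m) (w : Fin (2 * p) → H1 C l),
    (∀ s, (∀ a, IsAlgebraic ℚ ((v s).1 a)) ∧ ∀ i, (S i).IsDRT ((v s).2 i)) →
      (∀ s, IsBetti C l (w s)) → IsAlgebraic ℚ (F v w / (2 * Real.pi * Complex.I) ^ p)

/-- **ASX** (helper63; from `St_Hux`, `St_Tns`, `St_Spn`).  The Grothendieck classes on `X × C` are the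
sums of products of Grothendieck classes on `X` and on `C`. -/
def St_Asx : Prop := ∀ {I J : Type} [Fintype I] [DecidableEq I] [Fintype J] [DecidableEq J]
  (A : I → AbVar) (C : J → AbVar) {K : I → Type} [∀ i, Field (K i)] [∀ i, NumberField (K i)]
  {c : ∀ i, K i →+* K i} {m : I → ℕ} (S : ∀ i, (A i).KugaSatakeMul (K i) (c i) (m i)),
  (∀ i, (A i).g ≠ 0) → (∀ i, (S i).IsLarge C) →
  ∀ (r n : ℕ) (l : J → ℕ) (p : ℕ)
  (F : MultilinearMap ℂ (fun _ : Fin n => HU r K m) (Form C l (2 * p))),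
  ((∀ (v : Fin n → HU r K m) (w : Fin (2 * p) → H1 C l),
    (∀ s, (∀ a, ∃ q : ℚ, (v s).1 a = q) ∧ ∀ i, IsRatT ((v s).2 i)) → (∀ s, IsBetti C l (w s)) →
      ∃ q : ℚ, F v w = (2 * Real.pi * Complex.I) ^ p * q) ∧
    ∀ (v : Fin n → HU r K m) (w : Fin (2 * p) → H1 C l),
    (∀ s, (∀ a, IsAlgebraic ℚ ((v s).1 a)) ∧ ∀ i, (S i).IsDRT ((v s).2 i)) →
      (∀ s, IsDeRham C l (w s)) → IsAlgebraic ℚ (F v w)) ↔
  ∃ (N : ℕ) (G : Fin N → MultilinearMap ℂ (fun _ : Fin n => HU r K m) ℂ)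
    (γ : Fin N → Form C l (2 * p)),
    (∀ a, IsGrU S r n (G a) ∧ IsGrothendieck C l p (γ a)) ∧
    ∀ v w, F v w = ∑ a, G a v * γ a w

/-! ### Part C: assembly -/

/-- **ALZ** (helper63; from `St_Syn`, `St_Rel`, `St_Trf`, `St_Hym`, `St_Klx`, `St_Klz`).  The Hodge projectors
kill all Grothendieck forms on products of the `A_i` and the `C_j`. -/
def St_Alz : Prop := ∀ {I J : Type} [Fintype I] [DecidableEq I] [Fintype J] [DecidableEq J]
  (A : I → AbVar) (C : J → AbVar) {K : I → Type} [∀ i, Field (K i)] [∀ i, NumberField (K i)]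
  {c : ∀ i, K i →+* K i} {m : I → ℕ} (S : ∀ i, (A i).KugaSatakeMul (K i) (c i) (m i)),
  (∀ i, (A i).g ≠ 0) → GrIsHodge C → (∀ i, (S i).IsLarge C ∨ (A i).IsQuotientOf C) →
  ∀ n : I ⊕ J → ℕ, KillZ (κ := fun j => Fin (Sum.elim A C j).g ⊕ Fin (Sum.elim A C j).g)
    (fun j => pData (Sum.elim A C j)) (fun j => (1 / 2 : ℂ) • 1 - hod (Sum.elim A C j)) n

/-- **HTQ** (helper63; from `St_Mxq`, `KTP.St_Hod`, `KTP.St_Hty`).  Hodge classes from the Hodge projectors. -/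
def St_Htq : Prop := ∀ {I J : Type} [Fintype I] [DecidableEq I] [Fintype J] [DecidableEq J]
  (A : I → AbVar) (C : J → AbVar) {K : I → Type} [∀ i, Field (K i)] [∀ i, NumberField (K i)]
  {c : ∀ i, K i →+* K i} {m : I → ℕ} (S : ∀ i, (A i).KugaSatakeMul (K i) (c i) (m i)),
  (∀ i, (A i).g ≠ 0) →
  (∀ n : I ⊕ J → ℕ, KillZ (κ := fun j => Fin (Sum.elim A C j).g ⊕ Fin (Sum.elim A C j).g)
    (fun j => pData (Sum.elim A C j)) (fun j => (1 / 2 : ℂ) • 1 - hod (Sum.elim A C j)) n) →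
  ∀ (n : ℕ) (k : I ⊕ J → ℕ) (p : ℕ) (F : MultilinearMap ℂ (fun _ : Fin n => TF K m)
    (Form (Sum.elim A C) k (2 * p))),
  (∀ (y : Fin n → ∀ i, Fin (m i) → K i) (w : Fin (2 * p) → H1 (Sum.elim A C) k),
    (∀ s, IsBetti (Sum.elim A C) k (w s)) →
    ∃ q : ℚ, F (fun s => embF (y s)) w = (2 * Real.pi * Complex.I) ^ p * q) →
  (∀ (v : Fin n → TF K m) (w : Fin (2 * p) → H1 (Sum.elim A C) k),
    (∀ s i, DR (lt (A i) (S i)) (v s i)) → (∀ s, IsDeRham (Sum.elim A C) k (w s)) →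
      IsAlgebraic ℚ (F v w)) →
  ∀ (a : Fin n → ℤ) (b : Fin (2 * p) → ℤ) (v : Fin n → TF K m)
    (w : Fin (2 * p) → H1 (Sum.elim A C) k), -(p : ℤ) < ∑ s, a s + ∑ s, b s →
    (∀ s i, (S i).IsFilT (a s) (v s i)) →
    (∀ s i j, (Sum.elim A C i).IsFilAt (b s) (w s i j)) → F v w = 0

/-- **HUQ** (helper63; from `St_Htq`, `KTP.St_Htu`).  The same with `ℂ^r`. -/
def St_Huq : Prop := ∀ {I J : Type} [Fintype I] [DecidableEq I] [Fintype J] [DecidableEq J]
  (A : I → AbVar) (C : J → AbVar) {K : I → Type} [∀ i, Field (K i)] [∀ i, NumberField (K i)]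
  {c : ∀ i, K i →+* K i} {m : I → ℕ} (S : ∀ i, (A i).KugaSatakeMul (K i) (c i) (m i)),
  (∀ i, (A i).g ≠ 0) →
  (∀ n : I ⊕ J → ℕ, KillZ (κ := fun j => Fin (Sum.elim A C j).g ⊕ Fin (Sum.elim A C j).g)
    (fun j => pData (Sum.elim A C j)) (fun j => (1 / 2 : ℂ) • 1 - hod (Sum.elim A C j)) n) →
  ∀ (r n : ℕ) (k : I ⊕ J → ℕ) (p : ℕ)
  (F : MultilinearMap ℂ (fun _ : Fin n => HU r K m) (Form (Sum.elim A C) k (2 * p))),
  (∀ (v : Fin n → HU r K m) (w : Fin (2 * p) → H1 (Sum.elim A C) k),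
    (∀ s, (∀ a, ∃ q : ℚ, (v s).1 a = q) ∧ ∀ i, IsRatT ((v s).2 i)) →
    (∀ s, IsBetti (Sum.elim A C) k (w s)) →
      ∃ q : ℚ, F v w = (2 * Real.pi * Complex.I) ^ p * q) →
  (∀ (v : Fin n → HU r K m) (w : Fin (2 * p) → H1 (Sum.elim A C) k),
    (∀ s, (∀ a, IsAlgebraic ℚ ((v s).1 a)) ∧ ∀ i, (S i).IsDRT ((v s).2 i)) →
      (∀ s, IsDeRham (Sum.elim A C) k (w s)) → IsAlgebraic ℚ (F v w)) →
  ∀ (a : Fin n → ℤ) (b : Fin (2 * p) → ℤ) (v : Fin n → HU r K m)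
    (w : Fin (2 * p) → H1 (Sum.elim A C) k), -(p : ℤ) < ∑ s, a s + ∑ s, b s →
    (∀ s, IsFilU S r (a s) (v s)) → (∀ s i j, (Sum.elim A C i).IsFilAt (b s) (w s i j)) → F v w = 0

end Pool.Agent.KTW
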