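import Pool.Agent.KTP.Mix
import Pool.Agent.KTW.StQ
import Pool.Agent.KTW.Mxe
import Pool.Agent.KTW.Mxz

/-!
# KTW [Mxq]: forms with variables in the `T_i` and in the `H_1` of all abelian varieties, diagonal
operators (helper86; from `KTW/Mxz.lean` and `KTW/Mxe.lean`)
-/

set_option autoImplicit false
set_option linter.unusedSectionVars false

namespace Pool.Agent.KTW

open Module Matrix NumberField Pool.Agent.Helper7 Pool.Agent.KS Pool.Agent.Ball Pool.Agent.KSE
  Pool.Agent.Helper28.GPC Pool.Agent.K3P Pool.Agent.KTP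
open Pool.Agent.GPC (TC)

theorem thm_Mxq (hB : St_Bet) : St_Mxq := by
  intro I J _ _ _ _ e he κ _ _ hne ϖ P K _ _ c m h t hϖ S Z M hZM hM k hK n p F hQ hA v w
  have : ∀ i, Nonempty (κ (e i)) := hne
  choose β hβ hβQ hβA hβS using fun i =>
    hB (κ (e i)) ϖ (P (e i)) (K i) (c i) (m i) (h i) (t i) hϖ (S i)
  obtain ⟨E⟩ : Nonempty ((Fin 2 × Fin n) ⊕ Fin (2 * p) ≃ Fin (2 * (n + p))) := by
    refine ⟨Fintype.equivFinOfCardEq ?_⟩
    rw [Fintype.card_sum, Fintype.card_prod, Fintype.card_fin, Fintype.card_fin, Fintype.card_fin,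
      mul_add]
  -- the forms `ψ`
  have hψ : ∀ i u v, (P (e i)).ψ (Z (e i) u) v + (P (e i)).ψ u (Z (e i) v) = 0 := by
    intro i u v
    have h1 := hK 1 ((Inv_two (P (e i)).ψ).compLinearMap fun _ => Mix_pr κ k (e i)) ?_ ?_
    · have h2 := congrArg (fun G => G (![Pi.single (e i) fun _ => u, Pi.single (e i) fun _ => v] :
        Fin 2 → HW κ (fun j => k j + 1))) h1
      have h3 : actForm (lift (fun j => k j + 1) Z)
          ((Inv_two (P (e i)).ψ).compLinearMap fun _ => Mix_pr κ k (e i))
          (![Pi.single (e i) fun _ => u, Pi.single (e i) fun _ => v] :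
            Fin 2 → HW κ (fun j => k j + 1)) = 0 := h2
      rw [actForm_apply, Fin.sum_univ_two, MultilinearMap.compLinearMap_apply,
        MultilinearMap.compLinearMap_apply, Inv_two_apply, Inv_two_apply] at h3
      simpa [Mix_pr, lift_apply] using h3
    · intro w hw
      obtain ⟨q, hq⟩ := (P (e i)).hψQ _ (hw 0 (e i) 0) _ (hw 1 (e i) 0)
      exact ⟨q, by rw [pow_one]; exact hq⟩
    · intro w hw
      exact psi_alg (P (e i)).ψ (P (e i)).hψalg _ _ (hw 0 (e i) 0) (hw 1 (e i) 0)
  have hL : ∀ u v, Mxe_be e k β (lift (fun j => k j + 1) Z u) v +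
      Mxe_be e k β u (lift (fun j => k j + 1) Z v) = Mxz_L M (Mxe_be e k β u v) := by
    intro u v
    funext i
    show β i (Z (e i) (u (e i) 0)) (v (e i) 0) + β i (u (e i) 0) (Z (e i) (v (e i) 0)) =
      Inv_op (M i) (β i (u (e i) 0) (v (e i) 0))
    exact Inv_beta (hZM i) (hM i) (S i).nd (P (e i)).ψ (β i) (hβ i) (hψ i) _ _
  have h1 := hK (n + p) (MixA_al E (Mxe_be e k β) (Mix_pi κ k) F) ?_ ?_
  · have h2 : actForm (Mxz_L M) ((Mix_ev w).compMultilinearMap F) +
        ∑ s, (Mix_ev (Function.update w s (lift k Z (w s)))).compMultilinearMap F = 0 := by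
      refine Inv_span _ _ (Mix_span (κ := fun i => κ (e i)) β hβS) ?_
      intro v hv
      choose u u' hu using hv
      choose U hU using fun s => Mxe_ext (κ := κ) he (u s)
      choose U' hU' using fun s => Mxe_ext (κ := κ) he (u' s)
      obtain ⟨W, hW0, hW1, hWr⟩ : ∃ W : Fin (2 * (n + p)) → HW κ (fun j => k j + 1),
          (∀ s j, W (E (.inl (0, s))) j 0 = U s j) ∧ (∀ s j, W (E (.inl (1, s))) j 0 = U' s j) ∧
          ∀ s j l, W (E (.inr s)) j l.succ = w s j l := by
        refine ⟨fun r => Sum.elim (fun t : Fin 2 × Fin n => fun j => (Fin.cons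
          (if t.1 = 0 then U t.2 j else U' t.2 j) (fun _ => 0) : Fin (k j + 1) → κ j → ℂ))
          (fun s j => (Fin.cons 0 (w s j) : Fin (k j + 1) → κ j → ℂ)) (E.symm r), ?_, ?_, ?_⟩
        · intro s j
          simp only [Equiv.symm_apply_apply, Sum.elim_inl, Fin.cons_zero, if_pos]
        · intro s j
          simp only [Equiv.symm_apply_apply, Sum.elim_inl, Fin.cons_zero, one_ne_zero, if_false]
        · intro s j l
          simp only [Equiv.symm_apply_apply, Sum.elim_inr, Fin.cons_succ]
      have h3 := MixA_act E (Mxe_be e k β) (Mix_pi κ k) F _ (lift k Z)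
        (Mxz_L M) hL (fun u => rfl) W
      rw [h1] at h3
      have e1 : MixA_v E (Mxe_be e k β) W = v := by
        funext s i
        unfold MixA_v
        rw [Mxe_be_apply, hW0, hW1, hU, hU', hu s]
      have e2 : MixA_w E (Mix_pi κ k) W = w := by
        funext s j l
        exact hWr s j l
      rw [e1, e2] at h3
      rw [_root_.add_apply, _root_.sum_apply, actForm_apply]
      exact h3.symm
    have h3 : (actForm (Mxz_L M) ((Mix_ev w).compMultilinearMap F) +
        ∑ s, (Mix_ev (Function.update w s (lift k Z (w s)))).compMultilinearMap F) v = 0 := by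
      rw [h2]
      rfl
    rw [_root_.add_apply, _root_.sum_apply, actForm_apply] at h3
    exact h3
  · intro u hu
    choose y hy using fun (s : Fin n) (i : I) => hβQ i _ (hu (E (.inl (0, s))) (e i) 0) _
      (hu (E (.inl (1, s))) (e i) 0)
    obtain ⟨q, hq⟩ := hQ y (MixA_w E (Mix_pi κ k) u) (fun s j l => hu (E (.inr s)) j l.succ)
    refine ⟨q, ?_⟩
    rw [MixA_al_apply]
    have e1 : MixA_v E (Mxe_be e k β) u = fun s => ϖ • embF (y s) := by
      funext s i
      exact hy s i
    rw [e1, MultilinearMap.map_smul_univ F (fun _ => ϖ) fun r => embF (y r), Finset.prod_const,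
      Finset.card_univ, Fintype.card_fin, _root_.smul_apply, hq, smul_eq_mul, pow_add]
    ring
  · intro u hu
    exact hA _ _ (fun s i => hβA i _ _ (hu _ (e i) 0) (hu _ (e i) 0)) fun s j l => hu _ j l.succ

end Pool.Agent.KTW
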