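import Pool.Agent.KTW.StQ
import Pool.Agent.KTW.Mxn

/-!
# KTW [Rel]: operators on a part of a family of abelian varieties (helper82)
-/

set_option autoImplicit false
set_option linter.unusedSectionVars false

namespace Pool.Agent.KTW

open Module Matrix NumberField Pool.Agent.Helper7 Pool.Agent.KS Pool.Agent.Ball Pool.Agent.KSE
  Pool.Agent.Helper28.GPC Pool.Agent.K3P Pool.Agent.KTP

section ext

variable {B J : Type} [Fintype B] [DecidableEq J] (b : B → J) (κ : J → Type) (n : J → ℕ)

/-- extension by zero -/
noncomputable def Rel_ext : HW (fun i => κ (b i)) (fun i => n (b i)) →ₗ[ℂ] HW κ n :=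
  ∑ i, (LinearMap.single ℂ (fun j => Fin (n j) → κ j → ℂ) (b i)).comp
    (LinearMap.proj (φ := fun i => Fin (n (b i)) → κ (b i) → ℂ) i)

lemma Rel_ext_apply (x : HW (fun i => κ (b i)) (fun i => n (b i))) (j : J) :
    Rel_ext b κ n x j = ∑ i, (Pi.single (b i) (x i) : HW κ n) j := by
  unfold Rel_ext
  rw [LinearMap.sum_apply, Finset.sum_apply]
  rfl

lemma Rel_ext_in (hb : Function.Injective b) (x : HW (fun i => κ (b i)) (fun i => n (b i)))
    (i : B) : Rel_ext b κ n x (b i) = x i := by
  rw [Rel_ext_apply, Finset.sum_eq_single i]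
  · exact Pi.single_eq_same _ _
  · intro i' _ hi
    exact Pi.single_eq_of_ne (fun h => hi (hb h).symm) _
  · intro h
    exact absurd (Finset.mem_univ i) h

lemma Rel_ext_out (x : HW (fun i => κ (b i)) (fun i => n (b i))) (j : J) (hj : ∀ i, b i ≠ j) :
    Rel_ext b κ n x j = 0 := by
  rw [Rel_ext_apply]
  exact Finset.sum_eq_zero fun i _ => Pi.single_eq_of_ne (fun h => hj i h.symm) _

lemma Rel_ext_res (hb : Function.Injective b) (v : HW κ n) (hv : ∀ j, (∀ i, b i ≠ j) → v j = 0) :
    Rel_ext b κ n (fun i => v (b i)) = v := by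
  funext j
  by_cases hj : ∃ i, b i = j
  · obtain ⟨i, rfl⟩ := hj
    rw [Rel_ext_in b κ n hb]
  · push Not at hj
    rw [Rel_ext_out b κ n _ j hj, hv j hj]

lemma Rel_ext_lift (hb : Function.Injective b) (Z : ∀ j, Module.End ℂ (κ j → ℂ))
    (x : HW (fun i => κ (b i)) (fun i => n (b i))) :
    lift n Z (Rel_ext b κ n x) =
      Rel_ext b κ n (lift (fun i => n (b i)) (fun i => Z (b i)) x) := by
  funext j
  by_cases hj : ∃ i, b i = j
  · obtain ⟨i, rfl⟩ := hj
    rw [Rel_ext_in b κ n hb]
    funext m
    rw [lift_apply, Rel_ext_in b κ n hb]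
    rfl
  · push Not at hj
    rw [Rel_ext_out b κ n _ j hj]
    funext m
    rw [lift_apply, Rel_ext_out b κ n _ j hj]
    show Z j 0 = 0
    exact map_zero _

lemma Rel_ext_alg (hb : Function.Injective b) (x : HW (fun i => κ (b i)) (fun i => n (b i)))
    (hx : ∀ i l a, IsAlgebraic ℚ (x i l a)) (j : J) (l : Fin (n j)) (a : κ j) :
    IsAlgebraic ℚ (Rel_ext b κ n x j l a) := by
  by_cases hj : ∃ i, b i = j
  · obtain ⟨i, rfl⟩ := hj
    rw [Rel_ext_in b κ n hb]
    exact hx i l a
  · push Not at hj
    rw [Rel_ext_out b κ n _ j hj]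
    exact isAlgebraic_zero

lemma Rel_ext_rat [∀ j, Fintype (κ j)] [∀ j, DecidableEq (κ j)] {ϖ : ℂ} (P : ∀ j, PData (κ j) ϖ)
    (hb : Function.Injective b) (x : HW (fun i => κ (b i)) (fun i => n (b i)))
    (hx : IsRatP (fun i => n (b i)) (fun i => P (b i)) x) : IsRatP n P (Rel_ext b κ n x) := by
  intro j l
  by_cases hj : ∃ i, b i = j
  · obtain ⟨i, rfl⟩ := hj
    rw [Rel_ext_in b κ n hb]
    exact hx i l
  · push Not at hj
    rw [Rel_ext_out b κ n _ j hj]
    exact Submodule.zero_mem _

end ext

section prod

variable {V : Type} [AddCommGroup V] [Module ℂ V] {σ : Type} [Fintype σ]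

/-- the product of a form with itself -/
noncomputable def Rel_sq (g : MultilinearMap ℂ (fun _ : σ => V) ℂ) (c : ℂ) {N : ℕ}
    (e : σ ⊕ σ ≃ Fin N) : MultilinearMap ℂ (fun _ : Fin N => V) ℂ :=
  c • MultilinearMap.domDomCongr e ((LinearMap.mul' ℂ ℂ).compMultilinearMap (g.domCoprod g))

lemma Rel_sq_apply (g : MultilinearMap ℂ (fun _ : σ => V) ℂ) (c : ℂ) {N : ℕ} (e : σ ⊕ σ ≃ Fin N)
    (u : Fin N → V) :
    Rel_sq g c e u = c * (g (fun a => u (e (.inl a))) * g (fun a => u (e (.inr a)))) := by
  unfold Rel_sq
  rw [_root_.smul_apply, MultilinearMap.domDomCongr_apply, LinearMap.compMultilinearMap_apply,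
    MultilinearMap.domCoprod_apply, LinearMap.mul'_apply, smul_eq_mul]

lemma Rel_sq_act [DecidableEq σ] (g : MultilinearMap ℂ (fun _ : σ => V) ℂ) (c : ℂ) (hc : c ≠ 0)
    {N : ℕ} (e : σ ⊕ σ ≃ Fin N) (L : Module.End ℂ V) (h : actForm L (Rel_sq g c e) = 0)
    (x x' : σ → V) : actForm L g x * g x' + g x * actForm L g x' = 0 := by
  obtain ⟨u, hu, hu'⟩ : ∃ u : Fin N → V, (∀ a, u (e (.inl a)) = x a) ∧
      ∀ a, u (e (.inr a)) = x' a := by
    refine ⟨fun r => Sum.elim x x' (e.symm r), ?_, ?_⟩
    · intro a
      simp only [Equiv.symm_apply_apply, Sum.elim_inl]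
    · intro a
      simp only [Equiv.symm_apply_apply, Sum.elim_inr]
  have h1 := congrArg (fun G => G u) h
  have h2 : actForm L (Rel_sq g c e) u = 0 := h1
  rw [actForm_apply, ← Equiv.sum_comp e, Fintype.sum_sum_type] at h2
  have e1 : ∀ a : σ, Rel_sq g c e (Function.update u (e (.inl a)) (L (u (e (.inl a))))) =
      c * (g (Function.update x a (L (x a))) * g x') := by
    intro a
    rw [Rel_sq_apply]
    have f1 : (fun a' => Function.update u (e (.inl a)) (L (u (e (.inl a)))) (e (.inl a'))) =
        Function.update x a (L (x a)) := by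
      funext a'
      by_cases ha : a' = a
      · subst ha
        rw [Function.update_self, Function.update_self, hu]
      · rw [Function.update_of_ne ha, Function.update_of_ne, hu]
        intro h3
        exact ha (Sum.inl_injective (e.injective h3))
    have f2 : (fun a' => Function.update u (e (.inl a)) (L (u (e (.inl a)))) (e (.inr a'))) =
        x' := by
      funext a'
      rw [Function.update_of_ne, hu']
      intro h3
      exact Sum.inr_ne_inl (e.injective h3)
    rw [f1, f2]
  have e2 : ∀ a : σ, Rel_sq g c e (Function.update u (e (.inr a)) (L (u (e (.inr a))))) =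
      c * (g x * g (Function.update x' a (L (x' a)))) := by
    intro a
    rw [Rel_sq_apply]
    have f1 : (fun a' => Function.update u (e (.inr a)) (L (u (e (.inr a)))) (e (.inr a'))) =
        Function.update x' a (L (x' a)) := by
      funext a'
      by_cases ha : a' = a
      · subst ha
        rw [Function.update_self, Function.update_self, hu']
      · rw [Function.update_of_ne ha, Function.update_of_ne, hu']
        intro h3
        exact ha (Sum.inr_injective (e.injective h3))
    have f2 : (fun a' => Function.update u (e (.inr a)) (L (u (e (.inr a)))) (e (.inl a'))) =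
        x := by
      funext a'
      rw [Function.update_of_ne, hu]
      intro h3
      exact Sum.inl_ne_inr (e.injective h3)
    rw [f1, f2]
  rw [Finset.sum_congr rfl fun a _ => e1 a, Finset.sum_congr rfl fun a _ => e2 a,
    ← Finset.mul_sum, ← Finset.mul_sum, ← mul_add] at h2
  have h3 := (mul_eq_zero.1 h2).resolve_left hc
  rw [actForm_apply, actForm_apply, Finset.sum_mul, Finset.mul_sum]
  exact h3

/-- (2) of the proof -/
lemma Rel_zero [DecidableEq σ] (g : MultilinearMap ℂ (fun _ : σ => V) ℂ) (L : Module.End ℂ V)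
    (h : ∀ x x' : σ → V, actForm L g x * g x' + g x * actForm L g x' = 0) (x : σ → V) :
    actForm L g x = 0 := by
  by_cases hg : ∃ x', g x' ≠ 0
  · obtain ⟨x', hx'⟩ := hg
    have h1 := h x' x'
    have h2 : g x' * actForm L g x' = 0 := by linear_combination h1 / 2
    have h3 := (mul_eq_zero.1 h2).resolve_left hx'
    have h4 := h x x'
    rw [h3, mul_zero, add_zero] at h4
    exact (mul_eq_zero.1 h4).resolve_right hx'
  · push Not at hg
    rw [actForm_apply]
    exact Finset.sum_eq_zero fun a _ => hg _

end prod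

theorem thm_Rel : St_Rel := by
  classical
  intro B J _ _ _ _ b hb κ _ _ ϖ P hϖ Z hZ n hK hKZ k α hB hA
  refine Inv_span _ {v : HW κ n | IsRatP n P v ∧ ((∀ j, (∀ i, b i ≠ j) → v j = 0) ∨
    ∀ i, v (b i) = 0)} ?_ ?_
  · rw [eq_top_iff, ← (FBP n P).span_eq, Submodule.span_le]
    rintro _ ⟨a, rfl⟩
    refine Submodule.subset_span ⟨FBP_isRatP n P a, ?_⟩
    rw [FBP_apply]
    by_cases ha : ∃ i, b i = a.1
    · left
      intro j hj
      obtain ⟨i, hi⟩ := ha
      unfold slot
      exact Pi.single_eq_of_ne (fun h => hj i (hi.trans h.symm)) _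
    · right
      intro i
      unfold slot
      exact Pi.single_eq_of_ne (fun h => ha ⟨i, h⟩) _
  · intro v hv
    have hvQ : ∀ r, IsRatP n P (v r) := fun r => (hv r).1
    obtain ⟨p, hp⟩ : ∃ p : Fin (2 * k) → Prop, p = fun r => ∀ j, (∀ i, b i ≠ j) → v r j = 0 :=
      ⟨_, rfl⟩
    have hp1 : ∀ r, p r → ∀ j, (∀ i, b i ≠ j) → v r j = 0 := by
      intro r hr
      rw [hp] at hr
      exact hr
    have hp2 : ∀ r, ¬ p r → ∀ i, v r (b i) = 0 := by
      intro r hr
      rcases (hv r).2 with h | h
      · exact absurd (by rw [hp]; exact h) hr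
      · exact h
    -- the form `g`
    obtain ⟨y, hy⟩ : ∃ y : ({r // p r} → HW (fun i => κ (b i)) (fun i => n (b i))) →
        Fin (2 * k) → HW κ n, y = fun x r => if h : p r then Rel_ext b κ n (x ⟨r, h⟩) else v r :=
      ⟨_, rfl⟩
    have hy1 : ∀ x (r : {r // p r}), y x r = Rel_ext b κ n (x r) := by
      intro x r
      rw [hy]
      exact dif_pos r.2
    have hy2 : ∀ x r, ¬ p r → y x r = v r := by
      intro x r hr
      rw [hy]
      exact dif_neg hr
    obtain ⟨g, hg⟩ : ∃ g : MultilinearMap ℂ
        (fun _ : {r // p r} => HW (fun i => κ (b i)) (fun i => n (b i))) ℂ,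
        ∀ x, g x = α (y x) := by
      refine ⟨(α.domDomRestrict p fun r => v r).compLinearMap fun _ => Rel_ext b κ n, ?_⟩
      intro x
      rw [MultilinearMap.compLinearMap_apply, MultilinearMap.domDomRestrict_apply, hy]
    have hyu : ∀ x (a : {r // p r}) c, y (Function.update x a c) =
        Function.update (y x) a (Rel_ext b κ n c) := by
      intro x a c
      funext r
      by_cases hr : p r
      · rw [hy1 _ ⟨r, hr⟩]
        by_cases hra : (⟨r, hr⟩ : {r // p r}) = a
        · subst hra
          rw [Function.update_self, Function.update_self]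
        · rw [Function.update_of_ne hra, Function.update_of_ne, hy1 _ ⟨r, hr⟩]
          intro h
          exact hra (Subtype.ext h)
      · rw [hy2 _ _ hr, Function.update_of_ne, hy2 _ _ hr]
        intro h
        exact hr (h ▸ a.2)
    obtain ⟨M, hM⟩ : ∃ M, M = Fintype.card {r // p r} := ⟨_, rfl⟩
    have hM2 : M ≤ 2 * k := by
      rw [hM]
      exact (Fintype.card_subtype_le p).trans_eq (Fintype.card_fin _)
    obtain ⟨ee⟩ : Nonempty ({r // p r} ⊕ {r // p r} ≃ Fin (2 * M)) := by
      refine ⟨Fintype.equivFinOfCardEq ?_⟩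
      rw [Fintype.card_sum, ← hM, two_mul]
    -- the derivative of the values of `g`
    have hD : ∀ x, (∀ a i l c, IsAlgebraic ℚ (x a i l c)) → ∀ D : Derivation ℚ ℂ ℂ,
        D (g x) = ((k : ℂ) - M / 2) * (D ϖ / ϖ) * g x := by
      intro x hx D
      rw [hg]
      have h1 := derivForm_of_alg (SBP n κ) D α (fun s => hA _ (fun r i m j => by
          rw [SBP_apply]
          apply slot_isAlg
          intro j'
          by_cases h : j' = (s r).2.2
          · subst h; rw [Pi.single_eq_same]; exact isAlgebraic_one
          · rw [Pi.single_eq_of_ne h]; exact isAlgebraic_zero)) (y x)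
      have h4 : actForm (lift n (fun j => (P j).N D)) α (y x) = ((k : ℂ) * (D ϖ / ϖ)) • α (y x) :=
        congrArg (fun G => G (y x)) (isInv_N n P α hϖ hB hA D).form
      have h6 : actForm (lift n (NE b P D)) α (y x) = 0 :=
        congrArg (fun G => G (y x)) (hK D k α hB hA)
      rw [← Fintype.sum_subtype_add_sum_subtype p] at h1
      rw [actForm_apply, ← Fintype.sum_subtype_add_sum_subtype p] at h4 h6
      have h7 : ∑ r : {r // p r}, α (Function.update (y x) r (nabla (SBP n κ) D (y x r))) = 0 := by
        refine Finset.sum_eq_zero fun r _ => ?_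
        rw [hy1 x r, Mxn_alg n D _ (Rel_ext_alg b κ n hb _ (hx r))]
        exact α.map_coord_zero _ (by rw [Function.update_self])
      have h8 : ∑ r : {r // ¬ p r}, α (Function.update (y x) r (nabla (SBP n κ) D (y x r))) =
          ∑ r : {r // ¬ p r},
            α (Function.update (y x) r (lift n (fun j => (P j).N D) (y x r))) := by
        refine Finset.sum_congr rfl fun r _ => ?_
        rw [hy2 x r r.2, Mxn_rat n P D _ (hvQ r)]
      have h9 : ∑ r : {r // ¬ p r}, α (Function.update (y x) r (lift n (NE b P D) (y x r))) = 0 := by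
        refine Finset.sum_eq_zero fun r _ => ?_
        have h10 : lift n (NE b P D) (y x r) = 0 := by
          rw [hy2 x r r.2]
          funext j l
          rw [lift_apply]
          unfold NE
          split_ifs with hj
          · obtain ⟨i, rfl⟩ := hj
            rw [hp2 r r.2 i]
            exact map_zero _
          · rfl
        rw [h10]
        exact α.map_coord_zero _ (by rw [Function.update_self])
      have h11 : ∀ r : {r // p r}, α (Function.update (y x) r (lift n (NE b P D) (y x r))) =
          α (Function.update (y x) r (lift n (fun j => (P j).N D) (y x r))) -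
            (D ϖ / ϖ / 2) * α (y x) := by
        intro r
        have h12 : lift n (NE b P D) (y x r) =
            lift n (fun j => (P j).N D) (y x r) - (D ϖ / ϖ / 2) • y x r := by
          rw [hy1 x r]
          funext j l
          show NE b P D j (Rel_ext b κ n (x r) j l) =
            (P j).N D (Rel_ext b κ n (x r) j l) - (D ϖ / ϖ / 2) • Rel_ext b κ n (x r) j l
          unfold NE
          split_ifs with hj
          · rfl
          · push Not at hj
            rw [Rel_ext_out b κ n _ j hj]
            show (0 : κ j → ℂ) = (P j).N D 0 - (D ϖ / ϖ / 2) • (0 : κ j → ℂ)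
            rw [map_zero, smul_zero, sub_zero]
        rw [h12, MultilinearMap.map_update_sub, MultilinearMap.map_update_smul,
          Function.update_eq_self, smul_eq_mul]
      rw [h7, h8, zero_add] at h1
      rw [h9, add_zero, Finset.sum_congr rfl fun r _ => h11 r, Finset.sum_sub_distrib,
        Finset.sum_const, Finset.card_univ, ← hM, nsmul_eq_mul] at h6
      rw [smul_eq_mul] at h4
      rw [h1]
      linear_combination h4 - h6
    -- the form `G`
    have hG := hKZ M (Rel_sq g ((ϖ ^ (2 * k - M))⁻¹) ee) ?_ ?_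
    · have h1 := Rel_zero g _ (Rel_sq_act g _ (inv_ne_zero (pow_ne_zero _ hϖ)) ee _ hG)
        fun r i => v r (b i)
      rw [actForm_apply] at h1
      rw [actForm_apply, ← Fintype.sum_subtype_add_sum_subtype p]
      have h2 : ∑ r : {r // ¬ p r}, α (Function.update v r (lift n Z (v r))) = 0 := by
        refine Finset.sum_eq_zero fun r _ => ?_
        have h3 : lift n Z (v r) = 0 := by
          funext j l
          rw [lift_apply]
          by_cases hj : ∃ i, b i = j
          · obtain ⟨i, rfl⟩ := hj
            rw [hp2 r r.2 i]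
            exact map_zero _
          · push Not at hj
            rw [hZ j hj]
            rfl
        rw [h3]
        exact α.map_coord_zero _ (by rw [Function.update_self])
      rw [h2, add_zero, ← h1]
      have h5 : y (fun r i => v r (b i)) = v := by
        funext r
        by_cases hr : p r
        · rw [hy1 _ ⟨r, hr⟩]
          exact Rel_ext_res b κ n hb (v r) (hp1 r hr)
        · exact hy2 _ _ hr
      refine Finset.sum_congr rfl fun r _ => ?_
      rw [hg, hyu, ← Rel_ext_lift b κ n hb Z, h5, Rel_ext_res b κ n hb (v r) (hp1 r r.2)]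
    · intro u hu
      obtain ⟨q, hq⟩ := hB (y fun a => u (ee (.inl a))) (fun r => by
        by_cases hr : p r
        · rw [hy1 _ ⟨r, hr⟩]
          exact Rel_ext_rat b κ n P hb _ (hu _)
        · rw [hy2 _ _ hr]
          exact hvQ r)
      obtain ⟨q', hq'⟩ := hB (y fun a => u (ee (.inr a))) (fun r => by
        by_cases hr : p r
        · rw [hy1 _ ⟨r, hr⟩]
          exact Rel_ext_rat b κ n P hb _ (hu _)
        · rw [hy2 _ _ hr]
          exact hvQ r)
      refine ⟨q * q', ?_⟩
      rw [Rel_sq_apply, hg, hg, hq, hq']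
      have h1 : ϖ ^ k * ϖ ^ k = ϖ ^ (2 * k - M) * ϖ ^ M := by
        rw [← pow_add, ← pow_add]
        congr 1
        omega
      have h2 : ϖ ^ (2 * k - M) ≠ 0 := pow_ne_zero _ hϖ
      push_cast
      field_simp
      linear_combination (q : ℂ) * q' * h1
    · intro u hu
      rw [Rel_sq_apply]
      have h1 := Mxn_num ϖ hϖ (2 * k - M)
        (g (fun a => u (ee (.inl a))) * g (fun a => u (ee (.inr a)))) (by
          intro D
          rw [Derivation.leibniz, hD _ (fun a => hu _) D, hD _ (fun a => hu _) D, smul_eq_mul,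
            smul_eq_mul, Nat.cast_sub hM2]
          push_cast
          ring)
      rw [div_eq_inv_mul] at h1
      exact h1

end Pool.Agent.KTW
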