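import Pool.Agent.KTW.StQ
import Pool.Agent.KTW.Spc

/-!
# KTW: SPX, spectators, by subspaces

As `KTW/Spc.lean`: `Spx_core` is the induction, for a family of subspaces `N i` of the algebra (the elements
which act as zero on the subspace number `i`).
-/

set_option autoImplicit false

namespace Pool.Agent.KTW

open Module Matrix

section

variable {m : ℕ} {𝓐 : Type} [Ring 𝓐] [Algebra ℂ 𝓐] {Ι : Type} (N : Ι → Submodule ℂ 𝓐)
    (W : Submodule ℂ (𝓐 × Matrix (Fin m) (Fin m) ℂ))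

/-- the second components of the elements whose first component is in `N i` for `i ∈ s` -/
def Spx_a (s : Finset Ι) : Submodule ℂ (Module.End ℂ (Fin m → ℂ)) where
  carrier := {B | ∃ X ∈ W, (∀ i ∈ s, X.1 ∈ N i) ∧ Matrix.toLin' X.2 = B}
  add_mem' := by
    rintro A B ⟨X, hX, hX0, rfl⟩ ⟨Y, hY, hY0, rfl⟩
    exact ⟨X + Y, W.add_mem hX hY, fun i hi => by
      rw [Prod.fst_add]
      exact (N i).add_mem (hX0 i hi) (hY0 i hi), by rw [Prod.snd_add, map_add]⟩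
  zero_mem' := ⟨0, W.zero_mem, fun i _ => by
      rw [Prod.fst_zero]
      exact (N i).zero_mem,
    by rw [Prod.snd_zero, map_zero]⟩
  smul_mem' := by
    rintro c A ⟨X, hX, hX0, rfl⟩
    exact ⟨c • X, W.smul_mem c hX, fun i hi => by
      rw [Prod.smul_fst]
      exact (N i).smul_mem c (hX0 i hi), by rw [Prod.smul_snd, map_smul]⟩

end

/-- the induction -/
theorem Spx_core {m : ℕ} {H : Matrix (Fin m) (Fin m) ℂ} (hH : Hᵀ = H) (hd : IsUnit H.det)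
    (hm3 : 3 ≤ m) (hm4 : m ≠ 4) {𝓐 : Type} [Ring 𝓐] [Algebra ℂ 𝓐] {Ι : Type} [Fintype Ι]
    (N : Ι → Submodule ℂ 𝓐) (W : Submodule ℂ (𝓐 × Matrix (Fin m) (Fin m) ℂ))
    (hbr : ∀ X ∈ W, ∀ Y ∈ W, X * Y - Y * X ∈ W) (hsk : ∀ X ∈ W, X.2ᵀ * H + H * X.2 = 0)
    (hsur : ∀ Z : Matrix (Fin m) (Fin m) ℂ, Zᵀ * H + H * Z = 0 → ∃ X ∈ W, X.2 = Z)
    (hN : ∀ i, ∀ X ∈ W, ∀ Y ∈ W, X.1 ∈ N i → Y.1 * X.1 - X.1 * Y.1 ∈ N i)
    (hone : ∀ i, ∃ X ∈ W, X.1 ∈ N i ∧ X.2 ≠ 0) :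
    ∀ Z : Matrix (Fin m) (Fin m) ℂ, Zᵀ * H + H * Z = 0 → ∃ X ∈ W, X.2 = Z ∧ ∀ i, X.1 ∈ N i := by
  classical
  have hs : ∀ x y, Matrix.toBilin' H x y = Matrix.toBilin' H y x := Spc_symm hH
  have hn : (Matrix.toBilin' H).Nondegenerate := Spc_nd hd
  have hlift : ∀ B, KSP.Skw (Matrix.toBilin' H) B → ∃ X ∈ W, Matrix.toLin' X.2 = B := by
    intro B hB
    have h1 : KSP.Skw (Matrix.toBilin' H) (Matrix.toLin' (LinearMap.toMatrix' B)) := by
      rw [Matrix.toLin'_toMatrix']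
      exact hB
    obtain ⟨X, hX, hX2⟩ := hsur _ ((Spc_skw H _).1 h1)
    exact ⟨X, hX, by rw [hX2, Matrix.toLin'_toMatrix']⟩
  have hbr2 : ∀ X Y : 𝓐 × Matrix (Fin m) (Fin m) ℂ, Matrix.toLin' (X * Y - Y * X).2 =
      Matrix.toLin' X.2 * Matrix.toLin' Y.2 - Matrix.toLin' Y.2 * Matrix.toLin' X.2 := by
    intro X Y
    rw [Prod.snd_sub, Prod.snd_mul, Prod.snd_mul, map_sub, Matrix.toLin'_mul, Matrix.toLin'_mul]
    rfl
  have hbr1 : ∀ X Y : 𝓐 × Matrix (Fin m) (Fin m) ℂ, (X * Y - Y * X).1 =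
      X.1 * Y.1 - Y.1 * X.1 := fun X Y => rfl
  have top : ∀ s : Finset Ι, (∃ B ∈ Spx_a N W s, B ≠ 0) →
      ∀ M, KSP.Skw (Matrix.toBilin' H) M → M ∈ Spx_a N W s := by
    rintro s ⟨B, hB, hB0⟩ M hM
    refine KSP.ideal_top (by omega) (Matrix.toBilin' H) hs hn (Spx_a N W s) ?_ ?_ B hB hB0 M hM
    · rintro A ⟨X, hX, -, rfl⟩
      exact (Spc_skw H _).2 (hsk X hX)
    · rintro A ⟨X, hX, hX0, rfl⟩ M hM
      obtain ⟨Y, hY, rfl⟩ := hlift M hM
      refine ⟨Y * X - X * Y, hbr Y hY X hX, fun i hi => ?_, hbr2 Y X⟩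
      rw [hbr1]
      exact hN i X hX Y hY (hX0 i hi)
  obtain ⟨B, C, hB, hC, hBC⟩ := KSP.Goursat.exists_noncomm hm3 (Matrix.toBilin' H) hs hn
  have hone' : ∀ i : Ι, ∃ D ∈ Spx_a N W {i}, D ≠ 0 := by
    intro i
    obtain ⟨X, hX, hX1, hX2⟩ := hone i
    refine ⟨Matrix.toLin' X.2, ⟨X, hX, fun k hk => ?_, rfl⟩, fun h0 => hX2 ?_⟩
    · rw [Finset.mem_singleton] at hk
      subst hk
      exact hX1
    · exact (LinearEquiv.map_eq_zero_iff _).1 h0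
  have key : ∀ s : Finset Ι, ∀ M, KSP.Skw (Matrix.toBilin' H) M → M ∈ Spx_a N W s := by
    intro s
    induction s using Finset.induction_on with
    | empty =>
      intro M hM
      obtain ⟨X, hX, rfl⟩ := hlift M hM
      exact ⟨X, hX, fun j hj => absurd hj (Finset.notMem_empty j), rfl⟩
    | insert j s hj ih =>
      apply top
      obtain ⟨X, hX, hX0, rfl⟩ := ih B hB
      obtain ⟨Y, hY, hY0, rfl⟩ := top {j} (hone' j) C hC
      refine ⟨_, ⟨X * Y - Y * X, hbr X hX Y hY, fun k hk => ?_, hbr2 X Y⟩, hBC⟩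
      rw [hbr1]
      rcases Finset.mem_insert.1 hk with rfl | hk
      · exact hN k Y hY X hX (hY0 k (Finset.mem_singleton_self k))
      · rw [← neg_sub]
        exact (N k).neg_mem (hN k X hX Y hY (hX0 k hk))
  intro Z hZ
  obtain ⟨X, hX, hX0, hX2⟩ := key Finset.univ (Matrix.toLin' Z) ((Spc_skw H Z).2 hZ)
  exact ⟨X, hX, Matrix.toLin'.injective hX2, fun i => hX0 i (Finset.mem_univ i)⟩

/-- an element which is zero on a small subspace -/
theorem Spx_one (hSpd : St_Spd) {m : ℕ} {H : Matrix (Fin m) (Fin m) ℂ} (hH : Hᵀ = H)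
    (hd : IsUnit H.det) {𝓐 : Type} [Ring 𝓐] [Algebra ℂ 𝓐] {κ : Type}
    (ψ : (κ → ℂ) →ₗ[ℂ] (κ → ℂ) →ₗ[ℂ] ℂ) (halt : ∀ u v, ψ u v = -ψ v u)
    (π : 𝓐 →ₐ[ℂ] Module.End ℂ (κ → ℂ)) (W : Submodule ℂ (𝓐 × Matrix (Fin m) (Fin m) ℂ))
    (hsur : ∀ Z : Matrix (Fin m) (Fin m) ℂ, Zᵀ * H + H * Z = 0 → ∃ X ∈ W, X.2 = Z)
    (hW : ∀ X ∈ W, ∀ u v, ψ (π X.1 u) v + ψ u (π X.1 v) = 0) [Fintype κ]
    (U : Submodule ℂ (κ → ℂ)) (hU : ∀ X ∈ W, ∀ v ∈ U, π X.1 v ∈ U)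
    (hnd : ∀ u ∈ U, (∀ v ∈ U, ψ u v = 0) → u = 0) (hfin : finrank ℂ U + 2 ≤ m) :
    ∃ X ∈ W, (∀ v ∈ U, π X.1 v = 0) ∧ X.2 ≠ 0 := by
  classical
  set b := finBasis ℂ U with hb
  set ε : U ≃ₗ[ℂ] (Fin (finrank ℂ U) → ℂ) := b.equivFun with hε
  set ψ' : (Fin (finrank ℂ U) → ℂ) →ₗ[ℂ] (Fin (finrank ℂ U) → ℂ) →ₗ[ℂ] ℂ :=
    (ψ.compl₁₂ U.subtype U.subtype).compl₁₂ ε.symm.toLinearMap ε.symm.toLinearMap with hψ'
  have hψa : ∀ u v, ψ' u v = ψ (ε.symm u : κ → ℂ) (ε.symm v : κ → ℂ) := fun u v => rfl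
  let W' : Submodule ℂ (Module.End ℂ (Fin (finrank ℂ U) → ℂ) × Matrix (Fin m) (Fin m) ℂ) :=
    { carrier := {Y | ∃ X ∈ W, (∀ v : U, (ε.symm (Y.1 (ε v)) : κ → ℂ) = π X.1 v) ∧ X.2 = Y.2}
      add_mem' := by
        rintro A B ⟨X, hX, hX0, hX2⟩ ⟨Y, hY, hY0, hY2⟩
        refine ⟨X + Y, W.add_mem hX hY, fun v => ?_, by rw [Prod.snd_add, Prod.snd_add, hX2, hY2]⟩
        rw [Prod.fst_add, Prod.fst_add, map_add, LinearMap.add_apply, LinearMap.add_apply,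
          map_add, Submodule.coe_add, hX0, hY0]
      zero_mem' := ⟨0, W.zero_mem, fun v => by
        rw [Prod.fst_zero, Prod.fst_zero, map_zero, LinearMap.zero_apply, LinearMap.zero_apply,
          map_zero, Submodule.coe_zero], rfl⟩
      smul_mem' := by
        rintro c A ⟨X, hX, hX0, hX2⟩
        refine ⟨c • X, W.smul_mem c hX, fun v => ?_, by rw [Prod.smul_snd, Prod.smul_snd, hX2]⟩
        rw [Prod.smul_fst, Prod.smul_fst, map_smul, LinearMap.smul_apply, LinearMap.smul_apply,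
          map_smul, Submodule.coe_smul, hX0] }
  have key : ∀ X ∈ W, ∃ Y : Module.End ℂ (Fin (finrank ℂ U) → ℂ),
      ∀ v : U, (ε.symm (Y (ε v)) : κ → ℂ) = π X.1 v := by
    intro X hX
    refine ⟨ε.toLinearMap ∘ₗ ((π X.1).restrict (fun v hv => hU X hX v hv)) ∘ₗ
      ε.symm.toLinearMap, fun v => ?_⟩
    simp only [LinearMap.comp_apply, LinearEquiv.coe_coe, LinearEquiv.symm_apply_apply]
    rfl
  obtain ⟨Y, ⟨X, hX, hX1, hX2⟩, hY1, hY2⟩ := hSpd m H hH hd (Fin (finrank ℂ U)) ψ' (by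
      intro u hu
      have h1 : (ε.symm u : κ → ℂ) = 0 := hnd _ (ε.symm u).2 fun v hv => by
        have h2 := hu (ε ⟨v, hv⟩)
        rw [hψa, LinearEquiv.symm_apply_apply] at h2
        exact h2
      have h3 : ε.symm u = 0 := Subtype.ext h1
      exact (LinearEquiv.map_eq_zero_iff _).1 h3) (fun u v => by
      rw [hψa, hψa]
      exact halt _ _) (by rwa [Fintype.card_fin]) W' (by
      rintro Y ⟨X, hX, hX1, hX2⟩ u v
      rw [hψa, hψa]
      have h1 := hX1 (ε.symm u)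
      have h2 := hX1 (ε.symm v)
      rw [LinearEquiv.apply_symm_apply] at h1 h2
      rw [h1, h2]
      exact hW X hX _ _) (by
      intro Z hZ
      obtain ⟨X, hX, hX2⟩ := hsur Z hZ
      obtain ⟨Y, hY⟩ := key X hX
      exact ⟨(Y, Z), ⟨X, hX, hY, hX2⟩, rfl⟩)
  refine ⟨X, hX, fun v hv => ?_, by rwa [hX2]⟩
  rw [← hX1 ⟨v, hv⟩, hY1, LinearMap.zero_apply, map_zero, Submodule.coe_zero]

/-- [SPX] spectators, by subspaces -/
theorem thm_Spx (hSpd : St_Spd) : St_Spx := by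
  classical
  intro m H hH hd hm3 hm4 𝓐 _ _ J _ κ _ _ ψ halt π W hbr hsk hsur hW hor Z hZ
  -- for each spectator a family of subspaces
  have h1 : ∀ j, ∃ (N : ℕ) (U : Fin N → Submodule ℂ (κ j → ℂ)), (⨆ a, U a) = ⊤ ∧ ∀ a,
      (∀ X ∈ W, ∀ v ∈ U a, π j X.1 v ∈ U a) ∧
      ∃ X ∈ W, (∀ v ∈ U a, π j X.1 v = 0) ∧ X.2 ≠ 0 := by
    intro j
    rcases hor j with ⟨N, U, hU, h⟩ | h
    · exact ⟨N, U, hU, fun a => ⟨(h a).1, Spx_one hSpd hH hd (ψ j) (halt j) (π j) W hsur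
        (fun X hX => hW X hX j) (U a) (h a).1 (h a).2.1 (h a).2.2⟩⟩
    · refine ⟨1, fun _ => ⊤, ?_, fun a => ⟨fun X _ v _ => Submodule.mem_top, ?_⟩⟩
      · exact ciSup_const
      · have hs : ∀ x y, Matrix.toBilin' H x y = Matrix.toBilin' H y x := Spc_symm hH
        have hn : (Matrix.toBilin' H).Nondegenerate := Spc_nd hd
        obtain ⟨B, C, hB, hC, hBC⟩ := KSP.Goursat.exists_noncomm hm3 (Matrix.toBilin' H) hs hn
        obtain ⟨X, hX, hX2⟩ := hsur (LinearMap.toMatrix' B) ((Spc_skw H _).1 (by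
          rw [Matrix.toLin'_toMatrix']
          exact hB))
        obtain ⟨Y, hY, hY2⟩ := hsur (LinearMap.toMatrix' C) ((Spc_skw H _).1 (by
          rw [Matrix.toLin'_toMatrix']
          exact hC))
        refine ⟨X * Y - Y * X, hbr X hX Y hY, fun v _ => ?_, fun h0 => hBC ?_⟩
        · have h2 : π j (X * Y - Y * X).1 = 0 := by
            rw [Prod.fst_sub, Prod.fst_mul, Prod.fst_mul, map_sub, map_mul, map_mul, h X hX Y hY,
              sub_self]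
          rw [h2, LinearMap.zero_apply]
        · have h2 := congrArg Matrix.toLin' h0
          rw [Prod.snd_sub, Prod.snd_mul, Prod.snd_mul, map_sub, Matrix.toLin'_mul,
            Matrix.toLin'_mul, hX2, hY2, Matrix.toLin'_toMatrix', Matrix.toLin'_toMatrix',
            map_zero] at h2
          exact h2
  choose N U hU hst hz using h1
  obtain ⟨X, hX, hX2, hX1⟩ := Spx_core (Ι := Σ j, Fin (N j)) hH hd hm3 hm4
    (fun i => { carrier := {a : 𝓐 | ∀ v ∈ U i.1 i.2, π i.1 a v = 0}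
                add_mem' := fun {a b} ha hb v hv => by
                  rw [map_add, LinearMap.add_apply, ha v hv, hb v hv, add_zero]
                zero_mem' := fun v _ => by rw [map_zero, LinearMap.zero_apply]
                smul_mem' := fun c a ha v hv => by
                  rw [map_smul, LinearMap.smul_apply, ha v hv, smul_zero] }) W hbr hsk hsur (by
      intro i X hX Y hY h v hv
      rw [map_sub, map_mul, map_mul, LinearMap.sub_apply, Module.End.mul_apply,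
        Module.End.mul_apply, h v hv, h _ (hst i.1 i.2 Y hY v hv), map_zero, sub_zero]) (by
      intro i
      obtain ⟨X, hX, h1, h2⟩ := hz i.1 i.2
      exact ⟨X, hX, h1, h2⟩) Z hZ
  refine ⟨X, hX, hX2, fun j => ?_⟩
  have h2 : (⊤ : Submodule ℂ (κ j → ℂ)) ≤ LinearMap.ker (π j X.1) := by
    rw [← hU j, iSup_le_iff]
    intro a v hv
    rw [LinearMap.mem_ker]
    exact hX1 ⟨j, a⟩ v hv
  exact LinearMap.ext fun v => LinearMap.mem_ker.1 (h2 Submodule.mem_top)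

end Pool.Agent.KTW
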