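import Pool.Agent.KTW.StQ

/-!
# KTW [Syn]: the comparison operators on the complementary part (helper82)
-/

set_option autoImplicit false
set_option linter.unusedSectionVars false

namespace Pool.Agent.KTW

open Module Matrix NumberField Pool.Agent.Helper7 Pool.Agent.KS Pool.Agent.Ball Pool.Agent.KSE
  Pool.Agent.Helper28.GPC Pool.Agent.K3P Pool.Agent.KTP

private lemma Syn_one {W : Type} [AddCommGroup W] [Module ℂ W] {k : ℕ}
    (α : MultilinearMap ℂ (fun _ : Fin (2 * k) => W) ℂ) (c : ℂ) :
    actForm ((c / 2) • (1 : Module.End ℂ W)) α = ((k : ℂ) * c) • α := by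
  rw [actForm_smul]
  ext v
  rw [_root_.smul_apply, actForm_apply, _root_.smul_apply]
  have h1 : ∀ r : Fin (2 * k), α (Function.update v r ((1 : Module.End ℂ W) (v r))) = α v := by
    intro r
    rw [Module.End.one_apply, Function.update_eq_self]
  rw [Finset.sum_congr rfl fun r _ => h1 r, Finset.sum_const, Finset.card_univ, Fintype.card_fin,
    nsmul_eq_mul, smul_eq_mul, smul_eq_mul]
  push_cast
  ring

theorem thm_Syn : St_Syn := by
  intro B B' J _ _ _ _ _ _ b b' hbb κ _ _ ϖ P hϖ n hK D k α hB hA
  have h1 : actForm (lift n fun j => (P j).N D) α = ((k : ℂ) * (D ϖ / ϖ)) • α :=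
    (isInv_N n P α hϖ hB hA D).form
  have h2 := hK D k α hB hA
  have h3 : lift n (fun j => (P j).N D) =
      lift n (NE b P D) + lift n (NE b' P D) + (D ϖ / ϖ / 2) • (1 : Module.End ℂ (HW κ n)) := by
    refine LinearMap.ext fun v => ?_
    funext j m
    show (P j).N D (v j m) = NE b P D j (v j m) + NE b' P D j (v j m) + (D ϖ / ϖ / 2) • v j m
    by_cases hj : ∃ i, b i = j
    · have hj' : ¬ ∃ i, b' i = j := (hbb j).1 hj
      unfold NE
      rw [if_pos hj, if_neg hj', LinearMap.sub_apply, LinearMap.smul_apply, Module.End.one_apply,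
        LinearMap.zero_apply, add_zero, sub_add_cancel]
    · have hj' : ∃ i, b' i = j := by
        by_contra h
        exact hj ((hbb j).2 h)
      unfold NE
      rw [if_neg hj, if_pos hj', LinearMap.sub_apply, LinearMap.smul_apply, Module.End.one_apply,
        LinearMap.zero_apply, zero_add, sub_add_cancel]
  rw [h3, actForm_add, actForm_add, h2, zero_add, Syn_one] at h1
  exact add_eq_right.1 h1

end Pool.Agent.KTW
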