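import Pool.Agent.KTW.StQ

/-!
# KTW: TRF, adding factors which are images of the others
-/

set_option autoImplicit false

namespace Pool.Agent.KTW

open Module Pool.Agent.Helper7 Pool.Agent.K3P

lemma Trf_lift_slot {I : Type} [DecidableEq I] (n : I → ℕ) {κ : I → Type}
    (N : (i : I) → Module.End ℂ (κ i → ℂ)) (i : I) (m : Fin (n i)) (v : κ i → ℂ) :
    lift n N (slot n i m v) = slot n i m (N i v) := by
  funext i' m'
  rw [lift_apply]
  by_cases h : i' = i
  · subst h
    simp only [slot, Pi.single_eq_same]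
    by_cases h2 : m' = m
    · subst h2
      simp only [Pi.single_eq_same]
    · rw [Pi.single_eq_of_ne h2, Pi.single_eq_of_ne h2, map_zero]
  · simp only [slot, Pi.single_eq_of_ne h]
    exact map_zero _

lemma Trf_sum {α : Type} (t : Finset α) (f : α → ℂ) (h : ∀ x ∈ t, IsAlgebraic ℚ (f x)) :
    IsAlgebraic ℚ (∑ x ∈ t, f x) := by
  classical
  induction t using Finset.induction_on with
  | empty => exact isAlgebraic_zero
  | insert a s ha ih =>
    rw [Finset.sum_insert ha]
    exact (h a (Finset.mem_insert_self _ _)).add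
      (ih fun x hx => h x (Finset.mem_insert_of_mem hx))

/-- morphisms preserve algebraic vectors -/
lemma Trf_alg {κ κ' : Type} [Fintype κ] [DecidableEq κ] {f : (κ → ℂ) →ₗ[ℂ] (κ' → ℂ)}
    (hf : ∀ i j, IsAlgebraic ℚ (f (Pi.single i 1) j)) {v : κ → ℂ}
    (hv : ∀ i, IsAlgebraic ℚ (v i)) (j : κ') : IsAlgebraic ℚ (f v j) := by
  have h1 : v = ∑ i, v i • (Pi.single i 1 : κ → ℂ) := by
    funext j
    rw [Finset.sum_apply, Finset.sum_eq_single j]
    · rw [Pi.smul_apply, Pi.single_eq_same, smul_eq_mul, mul_one]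
    · intro b _ hb
      rw [Pi.smul_apply, Pi.single_eq_of_ne (Ne.symm hb), smul_zero]
    · intro h
      exact absurd (Finset.mem_univ j) h
  rw [h1, map_sum, Finset.sum_apply]
  refine Trf_sum _ _ fun i _ => ?_
  rw [map_smul, Pi.smul_apply, smul_eq_mul]
  exact (hv i).mul (hf i j)

/-- a slot with another number -/
lemma Trf_slot_ne {B : Type} [DecidableEq B] {N : ℕ} {κ : B → Type} {i i' : B} {m m' : Fin N}
    (h : m' ≠ m) (v : κ i → ℂ) : slot (κ := κ) (fun _ => N) i m v i' m' = 0 := by
  by_cases h1 : i' = i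
  · subst h1
    simp only [slot, Pi.single_eq_same]
    exact Pi.single_eq_of_ne (M := fun _ : Fin N => κ i' → ℂ) h v
  · simp only [slot, Pi.single_eq_of_ne h1]
    rfl

lemma Trf_slot_self {B : Type} [DecidableEq B] {N : ℕ} {κ : B → Type} {i : B} {m : Fin N}
    (v : κ i → ℂ) : slot (κ := κ) (fun _ => N) i m v i m = v := by
  simp only [slot, Pi.single_eq_same]

/-- [TRF] adding factors which are images of the others -/
theorem thm_Trf : St_Trf := by
  classical
  intro B J _ _ _ _ e κ _ _ ϖ P Z hcomm hspan hk n k α hQ hA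
  refine Inv_span _ {w : HW κ n | ∃ (j : J) (a : Fin (n j)) (i : B)
    (f : (κ (e i) → ℂ) →ₗ[ℂ] (κ j → ℂ)) (u : κ (e i) → ℂ),
      IsDRB (P (e i)) (P j) f ∧ w = slot n j a (f u)} ?_ ?_
  · rw [eq_top_iff, ← (SBP n κ).span_eq, Submodule.span_le]
    rintro _ ⟨b, rfl⟩
    rw [SBP_apply]
    have h1 : ∀ v : κ b.1 → ℂ, slot n b.1 b.2.1 v ∈ Submodule.span ℂ {w : HW κ n |
        ∃ (j : J) (a : Fin (n j)) (i : B) (f : (κ (e i) → ℂ) →ₗ[ℂ] (κ j → ℂ)) (u : κ (e i) → ℂ),
          IsDRB (P (e i)) (P j) f ∧ w = slot n j a (f u)} := by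
      intro v
      have h2 : v ∈ Submodule.span ℂ {v : κ b.1 → ℂ | ∃ (i : B)
          (f : (κ (e i) → ℂ) →ₗ[ℂ] (κ b.1 → ℂ)), IsDRB (P (e i)) (P b.1) f ∧ ∃ u, v = f u} := by
        rw [hspan b.1]
        exact Submodule.mem_top
      induction h2 using Submodule.span_induction with
      | mem x hx =>
        obtain ⟨i, f, hf, u, rfl⟩ := hx
        exact Submodule.subset_span ⟨b.1, b.2.1, i, f, u, hf, rfl⟩
      | zero =>
        rw [show slot n b.1 b.2.1 (0 : κ b.1 → ℂ) = 0 from (slotL n b.1 b.2.1).map_zero]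
        exact Submodule.zero_mem _
      | add x y _ _ hx hy =>
        rw [slot_add]
        exact Submodule.add_mem _ hx hy
      | smul c x _ hx =>
        rw [slot_smul]
        exact Submodule.smul_mem _ c hx
    exact h1 _
  · intro v hv
    choose j a i f u hf hvr using hv
    set Ψ : HW (fun b => κ (e b)) (fun _ : B => 2 * k) →ₗ[ℂ] HW κ n :=
      ∑ r : Fin (2 * k), (slotL n (j r) (a r)) ∘ₗ (f r) ∘ₗ
        (LinearMap.proj r : (Fin (2 * k) → κ (e (i r)) → ℂ) →ₗ[ℂ] (κ (e (i r)) → ℂ)) ∘ₗ
        (LinearMap.proj (i r) : HW (fun b => κ (e b)) (fun _ : B => 2 * k) →ₗ[ℂ] _) with hΨ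
    have hΨa : ∀ w, Ψ w = ∑ r : Fin (2 * k), slot n (j r) (a r) (f r (w (i r) r)) := by
      intro w
      rw [hΨ, LinearMap.sum_apply]
      rfl
    have hΨs : ∀ (r : Fin (2 * k)) (x : κ (e (i r)) → ℂ),
        Ψ (slot (κ := fun b => κ (e b)) (fun _ : B => 2 * k) (i r) r x) =
          slot n (j r) (a r) (f r x) := by
      intro r x
      rw [hΨa, Finset.sum_eq_single r]
      · rw [Trf_slot_self]
      · intro s _ hs
        rw [Trf_slot_ne (κ := fun b => κ (e b)) hs, map_zero]
        exact (slotL n (j s) (a s)).map_zero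
      · intro h
        exact absurd (Finset.mem_univ r) h
    have h0 := hk (fun _ => 2 * k) k (α.compLinearMap fun _ => Ψ) ?_ ?_
    · have h1 := congrArg (fun G => G fun r => slot (κ := fun b => κ (e b))
        (fun _ : B => 2 * k) (i r) r (u r)) h0
      simp only [actForm_apply, MultilinearMap.compLinearMap_apply, _root_.zero_apply] at h1
      rw [actForm_apply]
      rw [← h1]
      refine Finset.sum_congr rfl fun r _ => ?_
      congr 1
      funext s
      by_cases hs : s = r
      · subst hs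
        rw [Function.update_self, Function.update_self, Trf_lift_slot, hΨs, hvr, Trf_lift_slot,
          hcomm _ _ _ (hf s)]
      · rw [Function.update_of_ne hs, Function.update_of_ne hs, hΨs, hvr]
    · intro w hw
      refine hQ _ fun r => ?_
      rw [hΨa]
      intro i' m'
      rw [Finset.sum_apply, Finset.sum_apply]
      exact Submodule.sum_mem _ fun s _ =>
        slot_isRatP n P (j s) (a s) _ ((hf s).rat _ (hw r (i s) s)) i' m'
    · intro w hw
      refine hA _ fun r i' l' j' => ?_
      rw [hΨa, Finset.sum_apply, Finset.sum_apply, Finset.sum_apply]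
      refine Trf_sum _ _ fun s _ => ?_
      by_cases h : i' = j s
      · subst h
        simp only [slot, Pi.single_eq_same]
        by_cases h2 : l' = a s
        · subst h2
          rw [Pi.single_eq_same]
          exact Trf_alg (hf s).alg (fun i => hw r _ s i) j'
        · rw [Pi.single_eq_of_ne h2]
          exact isAlgebraic_zero
      · simp only [slot, Pi.single_eq_of_ne h]
        exact isAlgebraic_zero

end Pool.Agent.KTW
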