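import Pool.Agent.KTW.All
import Pool.Agent.KTW.Abx
import Pool.Agent.KTW.Klx
import Pool.Agent.KTW.Hux
import Pool.Agent.KTW.Asx
import Pool.Agent.KTW.Htq
import Pool.Agent.KTW.Huq
import Pool.Agent.KTW.Alz
import Pool.Agent.KTW.Syn
import Pool.Agent.KTW.Rel
import Pool.Agent.KTW.Trf
import Pool.Agent.KTW.Hym
import Pool.Agent.KTW.Hyt
import Pool.Agent.KTW.Mxq
import Pool.Agent.KTW.Spx
import Pool.Agent.KTW.Eig

/-!
# KTW: Grothendieck classes on products of K3 surfaces and abelian varieties, with arbitrary abelian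
factors
-/

set_option autoImplicit false

namespace Pool.Agent.KTW

open Pool.Agent.K3P Pool.Agent.KTP
open Pool.Agent.GPC (AbVar ClassY ClassX GrIsHodge IsElementary)

theorem klx : St_Klx := thm_Klx (thm_Abx thm_Rps (thm_Spx thm_Spd)) thm_Eig

theorem mainQ {I J : Type} [Fintype I] [Fintype J] (A : I → AbVar) (hA : ∀ i, (A i).g ≠ 0)
    (K : I → Type) [∀ i, Field (K i)] [∀ i, NumberField (K i)] (c : ∀ i, K i →+* K i) (m : I → ℕ)
    (S : ∀ i, (A i).KugaSatakeMul (K i) (c i) (m i)) (C : J → AbVar) (r n : ℕ) :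
    ((IsElementary C ∨ GrIsHodge C) → (∀ i, (S i).IsLarge C ∨ (A i).IsQuotientOf C) →
      ∀ (k : I ⊕ J → ℕ) (p : ℕ) (F : ClassY K m (Sum.elim A C) r n k p), F.IsGr S → F.IsHodge S) ∧
    ((∀ i, (S i).IsLarge C) →
      ∀ (l : J → ℕ) (p : ℕ) (F : ClassY K m C r n l p), F.IsGr S ↔ F.IsSum S) ∧
    ((∀ i, (S i).IsAdmissible) → (Subsingleton I ∨ ∀ i, c i = RingHom.id (K i) ∧ m i ≠ 4) →
      (∀ (k : I → ℕ) (p : ℕ) (F : ClassY K m A r n k p), F.IsGr S → F.IsHodge S) ∧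
      ((∀ i j, i ≠ j → ∀ f, (A i).IsMor (A j) f → ∀ v, f v = 0) →
        ∀ F : ClassX K m r n, F.IsGr S ↔ F.IsGen c fun i => (S i).h)) := by
  classical
  refine ⟨fun hC hI k p F hF => ?_, fun hL l p F => ?_, fun hK hI => ?_⟩
  · have hC' : GrIsHodge C := hC.elim (fun h => thm_Hyt C h) id
    exact ⟨hF.1, fun a b v w hab hv hw => thm_Huq
      (thm_Htq (thm_Mxq (thm_Bet thm_Drb thm_Rtb)) thm_Hod thm_Hty) thm_Htu A C S hA
      (thm_Alz thm_Syn thm_Rel thm_Trf thm_Hym klx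
        (thm_Klz (thm_Dgm thm_Lnk thm_Fth thm_Rps) thm_Kil)
        A C S hA hC' hI) r n k p F hF.1 hF.2 a b v w hab hv hw⟩
  · exact thm_Asx (thm_Hux klx (thm_Mxn thm_Dsp (thm_Bet thm_Drb thm_Rtb)) thm_Htu) thm_Tns
      (thm_Spn thm_Rtb) A C S hA hL r n l p F
  · exact ⟨fun k p F hF => clause1 A S hA hK hI r n k p F hF,
      fun hHom => (KTP.main A hA K c m S hK hI hHom r n).2⟩

end Pool.Agent.KTW
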