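import Pool.Agent.KTW.StQ
import Pool.Agent.Helper39.AF.Split

/-!
# KTW [Elf]: elementary abelian varieties fit `m ≥ 6`
-/

set_option autoImplicit false

namespace Pool.Agent.KTW

open Module NumberField Pool.Agent.Helper7
open Pool.Agent.GPC (AbVar IsElementary IsRMType)

/-- complex multiplication by a field `K`, `[K : ℚ] = 2 dim C` -/
theorem Elf_cm {C : AbVar} {K : Type} [Field K] [NumberField K] {ρ : K → C.H1 → C.H1}
    (h : C.HasCM K ρ) : C.IsCM := by
  classical
  intro X Y hX hY hXc hYc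
  obtain ⟨P, hP⟩ : ∃ P : PData (Fin C.g ⊕ Fin C.g) (2 * Real.pi * Complex.I), P = pData C :=
    ⟨_, rfl⟩
  have hcard : Fintype.card P.ι = 2 * C.g := by
    have h1 := finrank_eq_card_basis P.bB
    rw [finrank_fintype_fun_eq_card, Fintype.card_sum, Fintype.card_fin] at h1
    omega
  have hg : 0 < C.g := by
    have h1 : 0 < finrank ℚ K := finrank_pos
    rw [h.degree] at h1
    omega
  obtain ⟨i₀⟩ : Nonempty P.ι := Fintype.card_pos_iff.mp (by omega)
  have hρQ : ∀ x, ∀ v ∈ P.Q, ρ x v ∈ P.Q := by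
    intro x v hv
    rw [hP, mem_pData_Q] at hv ⊢
    exact (h.endo x).betti v hv
  let φ₀ : K →+ P.Q :=
    { toFun := fun x => ⟨ρ x (P.bB i₀), hρQ x _ (P.basis_mem i₀)⟩
      map_zero' := by
        apply Subtype.ext
        have h1 := h.add 0 0 (P.bB i₀)
        rw [add_zero] at h1
        exact (left_eq_add.mp h1)
      map_add' := fun x y => Subtype.ext (h.add x y _) }
  let φ : K →ₗ[ℚ] P.Q := φ₀.toRatLinearMap
  have hinj : Function.Injective φ := by
    rw [injective_iff_map_eq_zero]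
    intro x hx
    by_contra hx0
    have h1 : ρ x (P.bB i₀) = 0 := congrArg Subtype.val hx
    have h2 : P.bB i₀ = 0 := by
      rw [← h.one (P.bB i₀), ← inv_mul_cancel₀ hx0, h.mul, h1]
      exact (h.endo x⁻¹).linear.map_zero
    exact P.bB.ne_zero i₀ h2
  have hfin : finrank ℚ P.Q = 2 * C.g := by
    have h1 : LinearIndependent ℚ P.bB := by
      refine P.bB.linearIndependent.restrict_scalars ?_
      intro a b hab
      have h2 : (a : ℂ) = b := by
        have h3 : (algebraMap ℚ ℂ a) = algebraMap ℚ ℂ b := by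
          simpa [Algebra.smul_def] using hab
        exact h3
      exact_mod_cast h2
    have h2 := finrank_span_eq_card h1
    rw [hcard] at h2
    exact h2
  haveI : Module.Finite ℚ P.Q := by
    refine Module.finite_of_finrank_pos ?_
    rw [hfin]
    omega
  have hsur : Function.Surjective φ :=
    (LinearMap.injective_iff_surjective_of_finrank_eq_finrank (by
      rw [hfin, h.degree])).mp hinj
  have hx : ∀ i, ∃ x : K, ρ x (P.bB i₀) = P.bB i := by
    intro i
    obtain ⟨x, hx⟩ := hsur ⟨P.bB i, P.basis_mem i⟩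
    exact ⟨x, congrArg Subtype.val hx⟩
  choose x hx using hx
  -- `X` is a combination of the `ρ (x i)`
  have hlin : ∀ a : P.ι → ℂ, IsLinearMap ℂ fun v => ∑ i, a i • ρ (x i) v := by
    intro a
    constructor
    · intro u v
      rw [← Finset.sum_add_distrib]
      refine Finset.sum_congr rfl fun i _ => ?_
      rw [(h.endo _).linear.map_add, smul_add]
    · intro r v
      rw [Finset.smul_sum]
      refine Finset.sum_congr rfl fun i _ => ?_
      rw [(h.endo _).linear.map_smul, smul_comm]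
  obtain ⟨a, ha⟩ : ∃ a : P.ι → ℂ, X (P.bB i₀) = ∑ i, a i • ρ (x i) (P.bB i₀) := by
    refine ⟨fun i => P.bB.repr (X (P.bB i₀)) i, ?_⟩
    conv_lhs => rw [← P.bB.sum_repr (X (P.bB i₀))]
    refine Finset.sum_congr rfl fun i _ => ?_
    rw [hx]
  have key : ∀ v, X v = ∑ i, a i • ρ (x i) v := by
    have h1 : (IsLinearMap.mk' X hX) = IsLinearMap.mk' _ (hlin a) := by
      refine P.bB.ext fun j => ?_
      show X (P.bB j) = ∑ i, a i • ρ (x i) (P.bB j)
      rw [← hx j, hXc _ (h.endo (x j)), ha]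
      have h3 : ρ (x j) (∑ i, a i • ρ (x i) (P.bB i₀)) =
          ∑ i, a i • ρ (x j) (ρ (x i) (P.bB i₀)) := by
        have h4 := map_sum (IsLinearMap.mk' _ (h.endo (x j)).linear)
          (fun i => a i • ρ (x i) (P.bB i₀)) Finset.univ
        refine h4.trans (Finset.sum_congr rfl fun i _ => ?_)
        exact (h.endo (x j)).linear.map_smul _ _
      rw [h3]
      refine Finset.sum_congr rfl fun i _ => ?_
      rw [← h.mul, ← h.mul, mul_comm (x j) (x i)]
    intro v
    exact congrArg (fun f : C.H1 →ₗ[ℂ] C.H1 => f v) h1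
  intro v
  rw [key (Y v), key v]
  have h6 := map_sum (IsLinearMap.mk' Y hY) (fun i => a i • ρ (x i) v) Finset.univ
  refine Eq.trans ?_ h6.symm
  refine Finset.sum_congr rfl fun i _ => ?_
  show _ = Y (a i • ρ (x i) v)
  rw [hY.map_smul, hYc _ (h.endo (x i))]

/-- the rational numbers, as a field of endomorphisms -/
theorem Elf_rat (C : AbVar) : Nonempty (C.SymField ℚ) := by
  refine ⟨⟨fun q v => (q : ℂ) • v, fun v => ?_, fun x y v => ?_, fun x y v => ?_, fun x => ?_,
    fun x u v => ?_⟩⟩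
  · rw [Rat.cast_one, one_smul]
  · rw [Rat.cast_mul, mul_smul]
  · rw [Rat.cast_add, add_smul]
  · exact Pool.Agent.Helper39.AF.isEnd_ratSmul ((Pool.Agent.Helper39.AF.isEnd_iff C _).mpr
      (Pool.Agent.Helper39.AF.isMor_id C)) x
  · show C.polForm ((x : ℂ) • u) v = C.polForm u ((x : ℂ) • v)
    rw [map_smul, map_smul, LinearMap.smul_apply]

/-- [ELF] elementary abelian varieties fit `m ≥ 6` -/
theorem thm_Elf {J : Type} (C : J → AbVar) (hC : IsElementary C) (m : ℕ) (hm : 6 ≤ m) (j : J) :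
    (C j).Fits m := by
  rcases (hC.2.1 j).2 with h | ⟨K, i1, i2, h, ⟨R⟩⟩ | ⟨K, i1, i2, ρ, h, -⟩
  · refine Or.inr ⟨ℚ, inferInstance, inferInstance, Elf_rat (C j), ?_⟩
    rw [finrank_self, h.1]
    omega
  · refine Or.inr ⟨K, i1, i2, ⟨⟨R.ρ, R.one, R.mul, R.add, R.endo, R.rosati⟩⟩, ?_⟩
    rw [R.degree]
    nlinarith
  · exact Or.inl (Elf_cm h)

end Pool.Agent.KTW
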