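import Pool.Agent.KTW.TypesQ

/-!
The CM part of an abelian variety of Kuga-Satake type with complex multiplication.
-/

set_option autoImplicit false

namespace Pool.Agent.GPC

open NumberField

/-- The CM part of `A` is, up to isogeny, a quotient of a product of powers of the `C_j`.  The CM part
is spanned by the vectors `v` such that for every pair of conjugate embeddings `σ, conj σ` the whole
eigenspace `T_σ` or the whole eigenspace `T_{conj σ}` kills `v`. -/
def AbVar.KugaSatakeMul.IsCenQuotientOf {A : AbVar} {K : Type} [Field K] [NumberField K]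
    {c : K →+* K} {m : ℕ} {J : Type} (S : A.KugaSatakeMul K c m) (C : J → AbVar) : Prop :=
  ∀ v : A.H1, (∀ σ : K →+* ℂ, (∀ a, S.e σ a v = 0) ∨
      ∀ a, S.e (ComplexEmbedding.conjugate σ) a v = 0) →
    v ∈ Submodule.span ℂ {w : A.H1 | ∃ j f u, (C j).IsMor A f ∧ w = f u}

end Pool.Agent.GPC
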