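import Pool.Agent.KTW.TypesV
import Pool.Agent.KTW.TypesU

/-!
Conditions on products of K3 surfaces and of abelian varieties: the Kuga-Satake varieties which are
allowed.
-/

set_option autoImplicit false

namespace Pool.Agent.GPC

open NumberField

/-- `K` is a CM field, `m` is even, and `m ≠ 2` if `K` is quadratic -/
def AbVar.KugaSatakeMul.IsLargeD {A : AbVar} {K : Type} [Field K] [NumberField K] {c : K →+* K}
    {m : ℕ} (_ : A.KugaSatakeMul K c m) : Prop :=
  c ≠ RingHom.id K ∧ Even m ∧ (Module.finrank ℚ K = 2 → m ≠ 2)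

/-- `K` is totally real, `m ≥ 3`, and `m ≠ 5` unless `K = ℚ` and `A` has a factor of dimension two
with `End = ℤ`; or `K` is a CM field which is abelian over `ℚ`, and `m = 1` or `m` is even; or `K` is
a CM field, `m` is even, and the CM part of `A` is, up to isogeny, a quotient of a product of powers
of the `D_l` -/
def AbVar.KugaSatakeMul.IsStandard {A : AbVar} {K : Type} [Field K] [NumberField K] {c : K →+* K}
    {m : ℕ} {L : Type} (S : A.KugaSatakeMul K c m) (D : L → AbVar) : Prop :=
  (c = RingHom.id K ∧ 3 ≤ m ∧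
      (m ≠ 5 ∨ (Module.finrank ℚ K = 1 ∧
        ∃ B : AbVar, B.IsGenericSurface ∧ ∃ f, B.IsMor A f ∧ ∃ v, f v ≠ 0))) ∨
    (c ≠ RingHom.id K ∧ IsAbelianGalois ℚ K ∧ (m = 1 ∨ Even m)) ∨
    (c ≠ RingHom.id K ∧ Even m ∧ S.IsCenQuotientOf D)

end Pool.Agent.GPC
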