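import Pool.Agent.KTW.StV
import Pool.Agent.KTW.Kln
import Pool.Agent.KTW.Elf
import Pool.Agent.KTW.TypesW

/-!
# KTW: the family-level hypotheses from abelian varieties
-/

set_option autoImplicit false
set_option linter.unusedSectionVars false

namespace Pool.Agent.KTW

open Module Matrix NumberField Pool.Agent.Helper7 Pool.Agent.KS Pool.Agent.Ball Pool.Agent.KSE
  Pool.Agent.Helper28.GPC
open Pool.Agent.GPC (AbVar IsRMType)

/-- the places of a Kuga-Satake structure of real type -/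
theorem place_R {A : AbVar} {K : Type} [Field K] [NumberField K] {c : K →+* K} {m : ℕ}
    (S : A.KugaSatakeMul K c m) (hg : A.g ≠ 0) (hL : S.IsLargeR) : ∃ σ₀, RePl S.h σ₀ := by
  obtain ⟨hc, hm3, hm5, hm6⟩ := hL
  obtain ⟨σ₀, x, hx, hx1, hx2⟩ := S.hodge
  have hreal : ∀ σ : K →+* ℂ, cj σ = σ := by
    intro σ
    ext y
    rw [S.conjugation, hc]
    rfl
  have hnd := k3_nd S.conjugation S.hermitian hx
  have M := mde A S hnd
  have hκ : Nonempty (Fin A.g ⊕ Fin A.g) := ⟨Sum.inl ⟨0, Nat.pos_of_ne_zero hg⟩⟩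
  have hxx : pr S.h σ₀ x x = 0 := by
    have h1 := tau_pair M.conj M.cliff σ₀ x x
    rw [hreal σ₀] at h1
    have h3 : tau (ts (lt A S) σ₀) x * tau (ts (lt A S) σ₀) x = 0 := by
      apply LinearMap.ext
      intro v
      have hev : ∀ v, tau (ts (lt A S) σ₀) x v = ∑ a, x a • S.e σ₀ a v := by
        intro v
        rw [tau_apply, LinearMap.sum_apply]
        refine Finset.sum_congr rfl fun a _ => ?_
        rw [LinearMap.smul_apply, ts_lt]
        rfl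
      show tau (ts (lt A S) σ₀) x (tau (ts (lt A S) σ₀) x v) = 0
      rw [hev (tau (ts (lt A S) σ₀) x v)]
      apply hx2
      rw [hev]
      exact hx1 v
    rw [h3, add_zero] at h1
    rcases smul_eq_zero.mp h1.symm with h4 | h4
    · simpa using h4
    · exact absurd h4 one_ne_zero
  refine ⟨σ₀, hreal, k3_sig2 S.conjugation S.hermitian hx (hreal σ₀) hxx, fun σ hσ =>
    k3_def S.conjugation S.hermitian hx σ hσ (by rw [hreal σ₀]; exact hσ), hm3, hm5, fun hm4 => ?_⟩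
  by_contra hcon
  push Not at hcon
  have h1 : Fintype.card (K →+* ℂ) = 1 := Fintype.card_eq_one_iff.2 ⟨σ₀, hcon⟩
  rw [NumberField.Embeddings.card K ℂ] at h1
  have := hm6 h1
  omega

/-- the places of a Kuga-Satake structure of complex type -/
theorem place_D {A : AbVar} {K : Type} [Field K] [NumberField K] {c : K →+* K} {m : ℕ}
    (S : A.KugaSatakeMul K c m) (hL : S.IsLargeD) : ∃ σ₀, CoPl S.h σ₀ ∧
      (m = 2 → ∃ σ : K →+* ℂ, σ ≠ σ₀ ∧ σ ≠ cj σ₀) := by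
  obtain ⟨hc, hme, hm2⟩ := hL
  obtain ⟨σ₀, x, hx, hx1, hx2⟩ := S.hodge
  have hcx : ∀ σ : K →+* ℂ, cj σ ≠ σ := by
    intro σ hσ
    apply hc
    ext y
    apply σ.injective
    have h1 := S.conjugation σ y
    rw [show ComplexEmbedding.conjugate σ = σ from hσ] at h1
    exact h1.symm
  have hm0 : 0 < m := by
    rcases Nat.eq_zero_or_pos m with h0 | h0
    · exfalso
      subst h0
      obtain ⟨s, hs, -⟩ := hx
      rw [Finset.univ_eq_empty, Finset.sum_empty, Complex.zero_re, mul_zero] at hs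
      exact lt_irrefl _ hs
    · exact h0
  refine ⟨σ₀, ⟨hcx, k3_lor S.conjugation S.hermitian hx (hcx σ₀),
    fun σ h1 h2 => k3_def S.conjugation S.hermitian hx σ h1 h2, hm0, hme⟩, fun h2 => ?_⟩
  by_contra hcon
  push Not at hcon
  classical
  have h1 : (Finset.univ : Finset (K →+* ℂ)) = {σ₀, cj σ₀} := by
    ext σ
    rw [Finset.mem_insert, Finset.mem_singleton]
    refine ⟨fun _ => ?_, fun _ => Finset.mem_univ σ⟩
    by_cases h3 : σ = σ₀
    · exact Or.inl h3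
    · exact Or.inr (hcon σ h3)
  have h3 : Fintype.card (K →+* ℂ) = 2 := by
    rw [← Finset.card_univ, h1, Finset.card_pair (hcx σ₀).symm]
  rw [NumberField.Embeddings.card K ℂ] at h3
  exact hm2 h3 h2

/-- the places of a Kuga-Satake structure of complex type -/
theorem place_C {A : AbVar} {K : Type} [Field K] [NumberField K] {c : K →+* K} {m : ℕ}
    (S : A.KugaSatakeMul K c m) (hL : S.IsLargeC) : ∃ σ₀, CoPl S.h σ₀ ∧
      (m = 2 → ∃ σ : K →+* ℂ, σ ≠ σ₀ ∧ σ ≠ cj σ₀) :=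
  place_D S ⟨hL.1, hL.2.2⟩

/-- complex multiplication: the endomorphisms commuting with all de Rham-Betti endomorphisms
commute with each other -/
theorem comm_of_cm {C : AbVar} (h : C.IsCM) :
    ∀ X Y : Module.End ℂ (Fin C.g ⊕ Fin C.g → ℂ),
      (∀ f, IsDRB (pData C) (pData C) f → ∀ v, X (f v) = f (X v)) →
      (∀ f, IsDRB (pData C) (pData C) f → ∀ v, Y (f v) = f (Y v)) → X * Y = Y * X := by
  intro X Y hX hY
  apply LinearMap.ext
  intro v
  exact h X Y X.isLinear Y.isLinear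
    (fun f hf v => hX (IsLinearMap.mk' f hf.linear)
      (isDRB_of_isEnd C (IsLinearMap.mk' f hf.linear) hf) v)
    (fun f hf v => hY (IsLinearMap.mk' f hf.linear)
      (isDRB_of_isEnd C (IsLinearMap.mk' f hf.linear) hf) v) v

/-- the hypotheses of `FamZ` from abelian varieties -/
theorem famZ_ofD (hRmu : St_Rmu) (hGsf : St_Gsf) {I J : Type} [Fintype I] [DecidableEq I]
    [Fintype J] [DecidableEq J] (X : J → AbVar) (e : I → J) (he : Function.Injective e)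
    {K : I → Type} [∀ i, Field (K i)] [∀ i, NumberField (K i)] {c : ∀ i, K i →+* K i} {m : I → ℕ}
    (S : ∀ i, (X (e i)).KugaSatakeMul (K i) (c i) (m i)) (hg : ∀ i, (X (e i)).g ≠ 0)
    (T₀ : I → Prop) (hT₀ : ∀ i, (T₀ i ∧ (S i).IsLargeR) ∨ (S i).IsLargeD)
    (hdR : ∀ i i', T₀ i → ¬ T₀ i' → c i = RingHom.id (K i) →
      m i * m i + 2 ≠ 2 * (m i' * m i') + m i ∧ ¬ (m i = 4 ∧ m i' = 2))
    (hdC : ∀ i i', T₀ i → ¬ T₀ i' → c i ≠ RingHom.id (K i) → m i ≠ m i')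
    (hsp : ∀ j, (∀ i, e i ≠ j) → (X j).IsGenericSurface ∨
      (∃ (K : Type) (_ : Field K) (_ : NumberField K), IsRMType (X j) K) ∨
      ∃ (K : Type) (_ : Field K) (_ : NumberField K) (ρ : K → (X j).H1 → (X j).H1),
        (X j).HasCM K ρ) :
    ∃ σ₀ : ∀ i, K i →+* ℂ, ∀ (n : J → ℕ) (k : ℕ)
    (γ : MultilinearMap ℂ (fun _ : Fin (2 * k) => HW (fun j => Fin (X j).g ⊕ Fin (X j).g) n) ℂ),
    (∀ v : Fin (2 * k) → HW (fun j => Fin (X j).g ⊕ Fin (X j).g) n,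
      (∀ r, IsRatP n (fun j => pData (X j)) (v r)) →
        ∃ q : ℚ, γ v = (2 * Real.pi * Complex.I) ^ k * q) →
    (∀ v : Fin (2 * k) → HW (fun j => Fin (X j).g ⊕ Fin (X j).g) n,
      (∀ r i m j, IsAlgebraic ℚ (v r i m j)) → IsAlgebraic ℚ (γ v)) →
    (∀ Y : GG (fun j => Fin (X j).g ⊕ Fin (X j).g), IsInv n (fun j => pData (X j)) γ Y →
      ∀ i, ∃ M, ActM (lt (X (e i)) (S i)) (Y.1 (e i)) M) →
    (∀ g : (j : J) → Module.End ℂ (Fin (X j).g ⊕ Fin (X j).g → ℂ),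
      IsGrp n (fun j => pData (X j)) γ g → ∀ i,
      ∃ A : (K i →+* ℂ) → Matrix (Fin (m i)) (Fin (m i)) ℂ, ∀ σ x,
        g (e i) * tau (ts (lt (X (e i)) (S i)) σ) x =
          tau (ts (lt (X (e i)) (S i)) σ) (A σ *ᵥ x) * g (e i)) →
    FamZ e n (fun j => pData (X j)) (fun i => (S i).h) (fun i => lt (X (e i)) (S i)) γ σ₀ T₀ c := by
  classical
  have hpl : ∀ i, ∃ σ₀ : K i →+* ℂ, ((T₀ i ∧ RePl (S i).h σ₀) ∨ CoPl (S i).h σ₀) ∧
      (CoPl (S i).h σ₀ → m i = 2 → ∃ σ : K i →+* ℂ, σ ≠ σ₀ ∧ σ ≠ cj σ₀) := by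
    intro i
    rcases hT₀ i with ⟨h1, h2⟩ | h1
    · obtain ⟨σ₀, h3⟩ := place_R (S i) (hg i) h2
      exact ⟨σ₀, Or.inl ⟨h1, h3⟩, fun h4 => absurd (h3.1 σ₀) (h4.1 σ₀)⟩
    · obtain ⟨σ₀, h3, h4⟩ := place_D (S i) h1
      exact ⟨σ₀, Or.inr h3, fun _ => h4⟩
  choose σ₀ hσ₀ hσ₂ using hpl
  have hcR : ∀ i, RePl (S i).h (σ₀ i) → c i = RingHom.id (K i) := by
    intro i h
    ext y
    apply (σ₀ i).injective
    have h1 := (S i).conjugation (σ₀ i) y
    rw [show ComplexEmbedding.conjugate (σ₀ i) = σ₀ i from h.1 (σ₀ i)] at h1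
    exact h1.symm
  have hcC : ∀ i, CoPl (S i).h (σ₀ i) → c i ≠ RingHom.id (K i) := by
    intro i h h0
    apply h.1 (σ₀ i)
    ext y
    rw [(S i).conjugation, h0]
    rfl
  refine ⟨σ₀, fun n k γ hB hA hT hTg => ?_⟩
  have hnd : ∀ i, (S i).h.det ≠ 0 := by
    intro i
    obtain ⟨σ, x, hx, -⟩ := (S i).hodge
    exact k3_nd (S i).conjugation (S i).hermitian hx
  exact
    { pi := Complex.two_pi_I_ne_zero
      S := fun i => mde (X (e i)) (S i) (hnd i)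
      B := hB
      A := hA
      nd := fun i => hnd_pData (X (e i))
      ne := fun i => ⟨Sum.inl ⟨0, Nat.pos_of_ne_zero (hg i)⟩⟩
      T := hT
      Tg := hTg
      inj := he
      typ := hσ₀
      two := fun i _ h => hσ₂ i h
      dR := fun i i' h h' hr => hdR i i' h h' (hcR i hr)
      dC := fun i i' h h' hr => hdC i i' h h' (hcC i hr)
      sp := fun j hj => by
        rcases hsp j hj with h | ⟨L, _, _, h⟩ | ⟨L, _, _, ρ, h⟩
        · refine Or.inr (Or.inr ⟨?_, fun Z hZ => hGsf X n k γ hB hA j h Z hZ⟩)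
          rw [Fintype.card_sum, Fintype.card_fin, h.1]
        · exact Or.inr (Or.inl (hRmu (X j) L h))
        · exact Or.inl (comm_of_cm (Elf_cm h)) }

/-- the hypotheses of `FamZ` from abelian varieties -/
theorem famZ_of (hRmu : St_Rmu) (hGsf : St_Gsf) {I J : Type} [Fintype I] [DecidableEq I]
    [Fintype J] [DecidableEq J] (X : J → AbVar) (e : I → J) (he : Function.Injective e)
    {K : I → Type} [∀ i, Field (K i)] [∀ i, NumberField (K i)] {c : ∀ i, K i →+* K i} {m : I → ℕ}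
    (S : ∀ i, (X (e i)).KugaSatakeMul (K i) (c i) (m i)) (hg : ∀ i, (X (e i)).g ≠ 0)
    (T₀ : I → Prop) (hT₀ : ∀ i, (T₀ i ∧ (S i).IsLargeR) ∨ (S i).IsLargeC)
    (hdR : ∀ i i', T₀ i → ¬ T₀ i' → c i = RingHom.id (K i) →
      m i * m i + 2 ≠ 2 * (m i' * m i') + m i ∧ ¬ (m i = 4 ∧ m i' = 2))
    (hdC : ∀ i i', T₀ i → ¬ T₀ i' → c i ≠ RingHom.id (K i) → m i ≠ m i')
    (hsp : ∀ j, (∀ i, e i ≠ j) → (X j).IsGenericSurface ∨
      (∃ (K : Type) (_ : Field K) (_ : NumberField K), IsRMType (X j) K) ∨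
      ∃ (K : Type) (_ : Field K) (_ : NumberField K) (ρ : K → (X j).H1 → (X j).H1),
        (X j).HasCM K ρ) :
    ∃ σ₀ : ∀ i, K i →+* ℂ, ∀ (n : J → ℕ) (k : ℕ)
    (γ : MultilinearMap ℂ (fun _ : Fin (2 * k) => HW (fun j => Fin (X j).g ⊕ Fin (X j).g) n) ℂ),
    (∀ v : Fin (2 * k) → HW (fun j => Fin (X j).g ⊕ Fin (X j).g) n,
      (∀ r, IsRatP n (fun j => pData (X j)) (v r)) →
        ∃ q : ℚ, γ v = (2 * Real.pi * Complex.I) ^ k * q) →
    (∀ v : Fin (2 * k) → HW (fun j => Fin (X j).g ⊕ Fin (X j).g) n,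
      (∀ r i m j, IsAlgebraic ℚ (v r i m j)) → IsAlgebraic ℚ (γ v)) →
    (∀ Y : GG (fun j => Fin (X j).g ⊕ Fin (X j).g), IsInv n (fun j => pData (X j)) γ Y →
      ∀ i, ∃ M, ActM (lt (X (e i)) (S i)) (Y.1 (e i)) M) →
    (∀ g : (j : J) → Module.End ℂ (Fin (X j).g ⊕ Fin (X j).g → ℂ),
      IsGrp n (fun j => pData (X j)) γ g → ∀ i,
      ∃ A : (K i →+* ℂ) → Matrix (Fin (m i)) (Fin (m i)) ℂ, ∀ σ x,
        g (e i) * tau (ts (lt (X (e i)) (S i)) σ) x =
          tau (ts (lt (X (e i)) (S i)) σ) (A σ *ᵥ x) * g (e i)) →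
    FamZ e n (fun j => pData (X j)) (fun i => (S i).h) (fun i => lt (X (e i)) (S i)) γ σ₀ T₀ c :=
  famZ_ofD hRmu hGsf X e he S hg T₀ (fun i => (hT₀ i).imp id fun h => ⟨h.1, h.2.2⟩) hdR hdC hsp

end Pool.Agent.KTW
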