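import Pool.Agent.KTW.StQ
import Pool.Agent.KTW.TypesU

/-!
# KTW: the centre of the unitary Lie algebra. Frozen statements, part five

Kuga-Satake structures with complex multiplication: the central part of the Lie algebra `u(T)` is seen
on the CM part of `A`.  Every module `Pool/Agent/KTW/<X>.lean` proves `theorem thm_<X> : St_<X>` (with the
hypotheses named in the docstring). The docstrings contain the proofs.
-/

set_option autoImplicit false

namespace Pool.Agent.KTW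

open Module Matrix NumberField Pool.Agent.Helper7 Pool.Agent.KS Pool.Agent.Ball Pool.Agent.KSE
  Pool.Agent.Helper28.GPC Pool.Agent.K3P Pool.Agent.KTP
open Pool.Agent.GPC (AbVar)

/-! ### Definitions -/

section defs

variable {V : Type} [AddCommGroup V] [Module ℂ V] {K : Type} [Field K] [NumberField K] {m : ℕ}

/-- a CM type: exactly one embedding of every pair -/
def IsTyp (Ψ : Set (K →+* ℂ)) : Prop := ∀ σ, σ ∈ Ψ ↔ cj σ ∉ Ψ

open Classical in
/-- `m / 4` on the type, `-m / 4` off the type -/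
noncomputable def sg (m : ℕ) (Ψ : Set (K →+* ℂ)) (σ : K →+* ℂ) : ℂ :=
  if σ ∈ Ψ then (m : ℂ) / 4 else -((m : ℂ) / 4)

/-- `Z` is a combination of commutators of vectors in dual eigenspaces, and acts on the eigenspace
of `σ` by the scalar `z σ` -/
def IsCen (t : Fin m → K → Module.End ℂ V) (Z : Module.End ℂ V) (z : (K →+* ℂ) → ℂ) : Prop :=
  Z ∈ bvS t ∧ ActM t Z fun σ => z σ • (1 : Matrix (Fin m) (Fin m) ℂ)

/-- common eigenvectors of the central operators -/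
def CE (t : Fin m → K → Module.End ℂ V) (a : (K →+* ℂ) → ℂ) (v : V) : Prop :=
  ∀ (Z : Module.End ℂ V) (z : (K →+* ℂ) → ℂ), IsCen t Z z → Z v = (∑ σ, z σ * a σ) • v

/-- the Clifford relations of a Kuga-Satake structure with complex multiplication -/
structure CMR (c : K →+* K) (h : Matrix (Fin m) (Fin m) K) (t : Fin m → K → Module.End ℂ V) :
    Prop where
  conj : ∀ (σ : K →+* ℂ) (x : K), cj σ x = σ (c x)
  cm : ∀ σ : K →+* ℂ, cj σ ≠ σ
  herm : ∀ a b, c (h a b) = h b a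
  nd : h.det ≠ 0
  cliff : ∀ a b x y, t a x * t b y + t b y * t a x =
    (2 * ((Algebra.trace ℚ K (x * c y * h a b) : ℚ) : ℂ)) • 1

/-- the vectors which are killed by all `ts t σ a`, `σ` in the type -/
def IsVac (t : Fin m → K → Module.End ℂ V) (Ψ : Set (K →+* ℂ)) (v : V) : Prop :=
  ∀ σ ∈ Ψ, ∀ a, ts t σ a v = 0

/-- multilinear Grothendieck forms of weight `k` -/
structure GrF {J : Type} {κ : J → Type} [∀ j, Fintype (κ j)] [∀ j, DecidableEq (κ j)] {ϖ : ℂ}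
    (P : ∀ j, PData (κ j) ϖ) (n : J → ℕ) {k : ℕ}
    (α : MultilinearMap ℂ (fun _ : Fin (2 * k) => HW κ n) ℂ) : Prop where
  B : ∀ v : Fin (2 * k) → HW κ n, (∀ r, IsRatP n P (v r)) → ∃ q : ℚ, α v = ϖ ^ k * q
  A : ∀ v : Fin (2 * k) → HW κ n, (∀ r i l j, IsAlgebraic ℚ (v r i l j)) → IsAlgebraic ℚ (α v)

end defs

/-! ### Linear algebra of the Clifford operators -/

/-- **EVA.**  `V` is spanned by common eigenvectors of the central operators.  PROOF.  Let `σ` be a place,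
`e a = ts t σ a`, `f a = tau (ts t (cj σ)) (y a)`, `y a` the column `a` of `(1/2) (h.map σ)⁻¹`, so that
`e a * f b + f b * e a = δ a b` (`tau_pair`), `e a * e b + e b * e a = 0`, the same for `f`
(`tau_anti`, `cj σ ≠ σ`).  The `P σ a = e a * f a` are idempotent and commute with each other
(also for different places `σ, τ` with `τ ≠ σ, cj σ`: `e, f` at `σ` anticommute with `e, f` at `τ`).
Choose a type `Φ` (for example `{σ | Fintype.equivFin _ σ < Fintype.equivFin _ (cj σ)}`).  By induction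
on a finite set of pairs `(σ, a)`, `σ ∈ Φ`, `V` is spanned by the vectors `v` with `P σ a v = v` or
`P σ a v = 0` for these pairs (`v = P v + (v - P v)`).  Let `v` be such a vector for all pairs and
`n σ = #{a | P σ a v = v}` for `σ ∈ Φ`, `n (cj σ) = m - n σ`.  `∑ a, P σ a - (m / 2)` is in `bvS t`
(it is `(1/2) ∑ a, (e a * f a - f a * e a)`) and acts on the places by `1` at `σ`, `-1` at `cj σ`, `0` at the others
(`[∑ a, e a * f a, e b] = e b`, `[∑ a, e a * f a, f b] = -f b`).  If `IsCen t Z z`, then `z (cj σ) = - z σ`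
(`exists_act_of_mem`, `ActM.unique`, `skewM_iff`; if `V` is trivial or `m = 0`, nothing is to show, `m = 0` gives `bvS t = ⊥`), so
`Z = ∑ σ ∈ Φ, z σ • (∑ a, P σ a - m / 2)` by `eq_of_act`, and
`Z v = (∑ σ ∈ Φ, z σ * (n σ - m / 2)) v = (∑ σ, z σ * (n σ / 2 - m / 4)) v`. -/
def St_Eva : Prop := ∀ (V : Type) [AddCommGroup V] [Module ℂ V] [FiniteDimensional ℂ V] (K : Type)
  [Field K] [NumberField K] (c : K →+* K) (m : ℕ) (h : Matrix (Fin m) (Fin m) K)
  (t : Fin m → K → Module.End ℂ V), CMR c h t →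
  Submodule.span ℂ {v : V | ∃ n : (K →+* ℂ) → ℕ, (∀ σ, n σ + n (cj σ) = m) ∧
    CE t (fun σ => (n σ : ℂ) / 2 - (m : ℂ) / 4) v} = ⊤

/-- **EVB.**  (1) There are vacuum vectors.  PROOF.  Start with `v ≠ 0`; by induction on a finite set `s` of
pairs `(σ, a)`, `σ ∈ Ψ`, there is `v ≠ 0` with `ts t σ a v = 0` for all pairs in `s`: if `ts t σ a v ≠ 0` for a
new pair, replace `v` by `ts t σ a v` (the operators `ts t σ a`, `σ ∈ Ψ`, anticommute and have square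
zero, `ts_anti`, since `cj σ ∉ Ψ`).
(2) PROOF.  The set of the `Z ∈ bvS t` such that there is `M` with `ActM t Z M` and
`Z v = (∑ σ, (M σ).trace * sg 1 Ψ σ) • v` is closed under sums and multiples (`M` is unique if `v ≠ 0`,
`ActM.unique`), so it is enough to take `Z = ts σ a * ts (cj σ) b - ts (cj σ) b * ts σ a`: it acts by
`M τ = [τ = σ] (4 σ (h d b) at (a, d)) - [τ = cj σ] (4 σ (h a d) at (b, d))` (see the proof of
`exists_act_of_mem`, `KSE/BvA.lean`), so the traces are `4 σ (h a b)` at `σ` and `- 4 σ (h a b)` at `cj σ`;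
for `σ ∈ Ψ`: `Z v = ts σ a (ts (cj σ) b v) = 2 σ (h a b) v` (`ts_pair`), for `σ ∉ Ψ`, `cj σ ∈ Ψ`:
`Z v = - ts (cj σ) b (ts σ a v) = - 2 σ (h a b) v`.
(3) (from `St_Eva`)  PROOF.  Let `σ ∈ Ψ`, `v' = ts t σ a v`, `Z` central with `z = 1` at `σ`, `-1` at `cj σ`, `0` at
the other places (`exists_bvE`).  `Z v = (m / 2) v`, `Z v' = ts t σ a (Z v) + v' = (m / 2 + 1) v'`, and the
eigenvalues of `Z` on the spanning set of `St_Eva` are `n σ - m / 2` with `n σ ≤ m`; so `v' = 0`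
(`Module.End.eigenspaces_iSupIndep`). -/
def St_Evb : Prop := ∀ (V : Type) [AddCommGroup V] [Module ℂ V] [FiniteDimensional ℂ V] (K : Type)
  [Field K] [NumberField K] (c : K →+* K) (m : ℕ) (h : Matrix (Fin m) (Fin m) K)
  (t : Fin m → K → Module.End ℂ V), CMR c h t → ∀ Ψ : Set (K →+* ℂ), IsTyp Ψ →
  (Nontrivial V → ∃ v : V, v ≠ 0 ∧ IsVac t Ψ v) ∧
  (∀ v : V, IsVac t Ψ v → ∀ (Z : Module.End ℂ V) (M : (K →+* ℂ) → Matrix (Fin m) (Fin m) ℂ),
    Z ∈ bvS t → ActM t Z M → Z v = (∑ σ, (M σ).trace * sg 1 Ψ σ) • v) ∧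
  ∀ v : V, CE t (sg m Ψ) v → IsVac t Ψ v

/-- **DEL.**  (1) The central operators of the `x ∈ K` with `c x = -x` are endomorphisms.  PROOF.  The
explicit element of `bvS t` of the proof of `exists_bvE` (`KSE/BvA.lean`; copy it with the formula) for
`M σ = σ x • 1` is
`∑ σ, ∑ a, ∑ b, (σ (x * (hᵀ)⁻¹ a b) / 8) • (ts t σ a * ts t (cj σ) b - ts t (cj σ) b * ts t σ a)`
`= ∑ a, ∑ b, ∑ d, ∑ e, (Tr (x * (hᵀ)⁻¹ a b * dbas d * c (dbas e)) / 8) • (t a (bas d) * t b (bas e) -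
t b (bas e) * t a (bas d))` (`ts`, `sum_emb`, `conj`), a rational combination of rational operators
(`MD.rat`), so it respects `P.Q`; it commutes with the `ts σ a * ts (cj σ) b` since
`σ x + cj σ x = 0` (`ActM` at `Pi.single a 1`, `tau_single`); use `MD.cent`.
(2) They span.  PROOF.  If `IsCen t Z z`, then `z (cj σ) = - z σ` (or `m = 0` or `κ` is empty, then `Z = 0`),
`z σ = ∑ k, d k * σ (bas k)` with `d k = ∑ τ, z τ * τ (dbas k)` (`sum_dbas_bas`), so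
`z σ = (z σ - z (cj σ)) / 2 = ∑ k, (d k / 2) * σ (bas k - c (bas k))`, and
`Z = ∑ k, (d k / 2) • δ k`, `δ k` the operator of `bas k - c (bas k)` (`eq_of_act`). -/
def St_Del : Prop := ∀ (κ : Type) [Fintype κ] [DecidableEq κ] (ϖ : ℂ) (P : PData κ ϖ) (K : Type)
  [Field K] [NumberField K] (c : K →+* K) (m : ℕ) (h : Matrix (Fin m) (Fin m) K)
  (t : Fin m → K → Module.End ℂ (κ → ℂ)), MD P c h t → (∀ σ : K →+* ℂ, cj σ ≠ σ) →
  (∀ x : K, c x = -x → ∃ δ : Module.End ℂ (κ → ℂ), IsCen t δ (fun σ => σ x) ∧ IsDRB P P δ) ∧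
  ∀ (Z : Module.End ℂ (κ → ℂ)) (z : (K →+* ℂ) → ℂ), IsCen t Z z →
    ∃ (d : Fin (finrank ℚ K) → ℂ) (δ : Fin (finrank ℚ K) → Module.End ℂ (κ → ℂ)),
      (∀ k, IsCen t (δ k) fun σ => σ (bas K k - c (bas K k))) ∧ Z = ∑ k, d k • δ k

/-- **CNB** (from `St_Eva`, `St_Evb`).  PROOF.  Let `w ≠ 0` be a vacuum vector for the type `Ψᶜ` (`St_Evb` (1)).
By `P.hψnd` and `St_Eva` there are `n` and `v` with `CE t (n / 2 - m / 4) v` and `P.ψ w v ≠ 0`.  Let `σ ∈ Ψ`, `Z`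
central with `z = 1` at `σ`, `-1` at `cj σ`, `0` at the other places (`exists_bvE`).  By `St_Evb` (2)
`Z w = - (m / 2) w`, and `Z v = (n σ - m / 2) v`; `0 = ψ (Z w) v + ψ w (Z v) = (n σ - m) ψ w v`, so
`n σ = m`.  So `n / 2 - m / 4 = sg m Ψ`, `v` is a vacuum vector for `Ψ` by `St_Evb` (3), and `v ∈ X`. -/
def St_Cnb : Prop := ∀ (κ : Type) [Fintype κ] [DecidableEq κ] [Nonempty κ] (ϖ : ℂ) (P : PData κ ϖ)
  (K : Type) [Field K] [NumberField K] (c : K →+* K) (m : ℕ) (h : Matrix (Fin m) (Fin m) K)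
  (t : Fin m → K → Module.End ℂ (κ → ℂ)), CMR c h t →
  (∀ (Y : Module.End ℂ (κ → ℂ)) (z : (K →+* ℂ) → ℂ), IsCen t Y z →
    ∀ u v, P.ψ (Y u) v + P.ψ u (Y v) = 0) → ∀ X : Submodule ℂ (κ → ℂ),
  (∀ v, (∀ σ, (∀ a, ts t σ a v = 0) ∨ ∀ a, ts t (cj σ) a v = 0) → v ∈ X) →
  ∀ Ψ : Set (K →+* ℂ), IsTyp Ψ → ∃ w : κ → ℂ, IsVac t Ψᶜ w ∧ ∃ x ∈ X, P.ψ w x ≠ 0

/-- **CNA.**  Combinatorics of types.  PROOF.  Let `Φ` be a type (see `St_Eva`), `M = m * q`, and for
`a : Fin M` let `Ψ a = {σ | (σ ∈ Φ ∧ a < q * n σ) ∨ (σ ∉ Φ ∧ ¬ a < q * n (cj σ))}`.  For odd `z` both sides are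
twice the sums over `σ ∈ Φ`; the number of `a < M` with `a < q * n σ` is `q * n σ` (`n σ ≤ m`), so the sum over
`a` of `sg m (Ψ a) σ` is `(m / 4) (2 q n σ - M) = M (n σ / 2 - m / 4)`. -/
def St_Cna : Prop := ∀ (K : Type) [Field K] [NumberField K] (m M : ℕ) (n : (K →+* ℂ) → ℕ),
  m ∣ M → (∀ σ : K →+* ℂ, cj σ ≠ σ) → (∀ σ, n σ + n (cj σ) = m) →
  ∃ Ψ : Fin M → Set (K →+* ℂ), (∀ a, IsTyp (Ψ a)) ∧ ∀ z : (K →+* ℂ) → ℂ,
    (∀ σ, z (cj σ) = -z σ) →
    (M : ℂ) * ∑ σ, z σ * ((n σ : ℂ) / 2 - (m : ℂ) / 4) = ∑ a, ∑ σ, z σ * sg m (Ψ a) σ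

/-- **PSK** (from `St_Eva`, `St_Del`).  The central operators are skew for the polarisation.  PROOF.  By
`St_Del` (2) it is enough to take the `δ` of `x = bas k - c (bas k)`, an endomorphism (`St_Del` (1); the operator is
unique by `eq_of_act`).  Let `δ'` be the adjoint of `δ` for `ψ` (`ψ` is nondegenerate): `ψ (δ u) v = ψ u (δ' v)`.  `δ'`
is rational and algebraic (the matrix of `ψ` in the Betti basis is `ϖ` times a rational matrix, and
algebraic in the standard basis), so `δ'` is a de Rham-Betti endomorphism (`IsDRB`) and commutes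
with `hod A` (`hod_comm`), with `cB` (`cB_comm'`) and with `δ` (`comm_bvS`, `MD.cent`).  So
`Hf A (δ u) v = Hf A u (δ' v)` and `Hf A (δ' u) v = Hf A u (δ v)` (by `Hf_symm`).  Let `δ v = λ v` with
`λ = ∑ σ, σ x * (n σ / 2 - m / 4)` (`St_Eva`), so `conj λ = -λ` (`conj (σ x) = σ (c x) = - σ x`).
With `u = δ' v + λ v`: `Hf u u = Hf (δ' v) u + λ Hf v u`, `Hf (δ' v) u = Hf v (δ u)` and
`δ u = δ' δ v + λ δ v = λ u`, so `Hf v (δ u) = conj λ * Hf v u = - λ Hf v u`, so `Hf u u = 0` and `u = 0`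
(`Hf_pos`).  So `δ' = - δ` on a spanning set. -/
def St_Psk : Prop := ∀ (A : AbVar) (K : Type) [Field K] [NumberField K] (c : K →+* K) (m : ℕ)
  (h : Matrix (Fin m) (Fin m) K) (t : Fin m → K → Module.End ℂ A.H1), MD (pData A) c h t →
  (∀ σ : K →+* ℂ, cj σ ≠ σ) → ∀ (Y : Module.End ℂ A.H1) (z : (K →+* ℂ) → ℂ), IsCen t Y z →
  ∀ u v, (pData A).ψ (Y u) v + (pData A).ψ u (Y v) = 0

/-! ### Forms -/

/-- **POL.**  Rational polynomials in commuting operators on forms.  PROOF.  Write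
`Δ a G = actForm (L a) G`; the `Δ a` commute (`actForm_bracket`, `actForm_zero`).  If `L a (u r) = z r • u r` for
all `r`, then `(Δ a G) u = (∑ r, z r) * G u` for every form `G`, so for a polynomial
`p : Polynomial ℚ` (`Polynomial.aeval`, or `∑ j, p.coeff j • (Δ a)^j G`) `(p (Δ a) G) u = p (∑ r, z r) * G u`.
Choose a basis `b` of `W` of eigenvectors of `L a` with algebraic eigenvalues `y`
(`exists_linearIndependent`, `Basis.mk`), and `p a = q / q 0` with `q` the product of the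
`minpoly ℚ (∑ r, y (s r))` over all `s : Fin d → ι` with `∑ r, y (s r) ≠ 0` (`minpoly.coeff_zero_ne_zero`).  Then
`Δ a (p a (Δ a) G)` vanishes at all `b ∘ s`, so it is zero (`Basis.ext_multilinear`).  `p a (Δ a)` maps `𝒢` to `𝒢`.
Start with `G` and apply the `p a (Δ a)` one after the other (induction on a finite set of `a`). -/
def St_Pol : Prop := ∀ (W : Type) [AddCommGroup W] [Module ℂ W] [FiniteDimensional ℂ W] (d : ℕ)
  (A : Type) [Fintype A] (𝒢 : Set (MultilinearMap ℂ (fun _ : Fin d => W) ℂ))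
  (L : A → Module.End ℂ W), (∀ G ∈ 𝒢, ∀ G' ∈ 𝒢, G + G' ∈ 𝒢) →
  (∀ q : ℚ, ∀ G ∈ 𝒢, (q : ℂ) • G ∈ 𝒢) → (∀ a, ∀ G ∈ 𝒢, actForm (L a) G ∈ 𝒢) →
  (∀ a b, L a * L b = L b * L a) →
  (∀ a, Submodule.span ℂ {w : W | ∃ z : ℂ, IsAlgebraic ℚ z ∧ L a w = z • w} = ⊤) →
  ∀ G ∈ 𝒢, ∃ G' ∈ 𝒢, (∀ a, actForm (L a) G' = 0) ∧
    ∀ (u : Fin d → W) (z : A → Fin d → ℂ), (∀ a r, L a (u r) = z a r • u r) →
      (∀ a, ∑ r, z a r = 0) → G' u = G u

/-- **PRD.**  Products of forms in separate variables.  PROOF.  `F u = ∏ s, G s (fun r => u (e ⟨s, r⟩))`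
for any `e` (`Fintype.equivFinOfCardEq`, `Finset.mul_sum`); changing the variable `e ⟨s, r⟩` changes only
the factor `s`.  The last assertion: `Fin (2 * ∑ s, k s)` is the union of the `e ⟨s, ·⟩`
(`Equiv.sum_comp`, `Fintype.sum_sigma`). -/
def St_Prd : Prop := ∀ (J : Type) [Fintype J] [DecidableEq J] (κ : J → Type)
  [∀ j, Fintype (κ j)] [∀ j, DecidableEq (κ j)] (ϖ : ℂ) (P : ∀ j, PData (κ j) ϖ) (n : J → ℕ)
  (S : Type) [Fintype S] [DecidableEq S] (k : S → ℕ)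
  (G : ∀ s, MultilinearMap ℂ (fun _ : Fin (2 * k s) => HW κ n) ℂ), (∀ s, GrF P n (G s)) →
  ∃ (F : MultilinearMap ℂ (fun _ : Fin (2 * ∑ s, k s) => HW κ n) ℂ)
    (e : (Σ s, Fin (2 * k s)) ≃ Fin (2 * ∑ s, k s)), GrF P n F ∧
    (∀ u, F u = ∏ s, G s fun r => u (e ⟨s, r⟩)) ∧
    ∀ (L : Module.End ℂ (HW κ n)) (u : Fin (2 * ∑ s, k s) → HW κ n), actForm L F u =
      ∑ s, actForm L (G s) (fun r => u (e ⟨s, r⟩)) *
        ∏ s' ∈ Finset.univ.erase s, G s' fun r => u (e ⟨s', r⟩)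

/-- **RLU.**  As `St_Syn` and `St_Rel`, for a single form.  PROOF.  (1) As `thm_Syn`
(`Pool/Agent/KTW/Syn.lean`), `actForm (lift n (NE b' P D)) α = 0` for all `D`.  (2) The proof of `thm_Rel`
(`Pool/Agent/KTW/Rel.lean`) for `b'`: its hypothesis `KillN` is only used for `α`. -/
def St_Rlu : Prop := ∀ (B B' J : Type) [Fintype B] [DecidableEq B] [Fintype B'] [DecidableEq B']
  [Fintype J] [DecidableEq J] (b : B → J) (b' : B' → J), Function.Injective b' →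
  (∀ j, (∃ i, b i = j) ↔ ¬ ∃ i, b' i = j) → ∀ (κ : J → Type) [∀ j, Fintype (κ j)]
  [∀ j, DecidableEq (κ j)] (ϖ : ℂ) (P : ∀ j, PData (κ j) ϖ), ϖ ≠ 0 →
  ∀ Z : ∀ j, Module.End ℂ (κ j → ℂ), (∀ i, Z (b i) = 0) → ∀ (n : J → ℕ) (k : ℕ)
  (α : MultilinearMap ℂ (fun _ : Fin (2 * k) => HW κ n) ℂ), GrF P n α →
  (∀ D : Derivation ℚ ℂ ℂ, actForm (lift n (NE b P D)) α = 0) →
  KillZ (fun i => P (b' i)) (fun i => Z (b' i)) (fun i => n (b' i)) →
  actForm (lift n Z) α = 0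

section fam

variable {I B J : Type} [Fintype I] [DecidableEq I] [Fintype B] [DecidableEq B] [Fintype J]
  [DecidableEq J] (e : I → J) (b : B → J) {κ : J → Type} [∀ j, Fintype (κ j)]
  [∀ j, DecidableEq (κ j)] {ϖ : ℂ} (P : ∀ j, PData (κ j) ϖ) {K : I → Type} [∀ i, Field (K i)]
  [∀ i, NumberField (K i)] (c : ∀ i, K i →+* K i) {m : I → ℕ}
  (h : ∀ i, Matrix (Fin (m i)) (Fin (m i)) (K i))
  (t : ∀ i, Fin (m i) → K i → Module.End ℂ (κ (e i) → ℂ)) (Z : ∀ j, Module.End ℂ (κ j → ℂ))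

/-- the trace-zero elements, zero on the other members of the family, kill all Grothendieck
forms -/
def KillS (n : J → ℕ) : Prop :=
  ∀ (i : I) (Y : Module.End ℂ (κ (e i) → ℂ))
    (M : (K i →+* ℂ) → Matrix (Fin (m i)) (Fin (m i)) ℂ), Y ∈ bvS (t i) → ActM (t i) Y M →
    (∀ σ, (M σ).trace = 0) → KillZ P (Pi.single (e i) Y) n

/-- a family of Kuga-Satake structures with complex multiplication on the `A_(e i)`, the other
abelian varieties `A_(b j)`, and operators `Z` (the Hodge projectors) which kill the Grothendieck forms on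
the `A_(b j)`; the trace-zero elements kill all Grothendieck forms, and the CM parts of the
`A_(e i)` are quotients of the `A_(b j)` -/
structure FamU : Prop where
  pi : ϖ ≠ 0
  inj : Function.Injective e
  binj : Function.Injective b
  cpl : ∀ j, (∃ i, e i = j) ↔ ¬ ∃ i, b i = j
  S : ∀ i, MD (P (e i)) (c i) (h i) (t i)
  cm : ∀ i (σ : K i →+* ℂ), cj σ ≠ σ
  ne : ∀ i, Nonempty (κ (e i))
  m0 : ∀ i, m i ≠ 0
  N : ∀ i (D : Derivation ℚ ℂ ℂ), (P (e i)).N D - (D ϖ / ϖ / 2) • 1 ∈ bvS (t i)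
  sk : ∀ i (Y : Module.End ℂ (κ (e i) → ℂ)) (z : (K i →+* ℂ) → ℂ), IsCen (t i) Y z →
    ∀ u v, (P (e i)).ψ (Y u) v + (P (e i)).ψ u (Y v) = 0
  Z1 : ∀ i, Z (e i) ∈ bvS (t i)
  Z2 : ∀ i u v, (P (e i)).ψ (Z (e i) u) v + (P (e i)).ψ u (Z (e i) v) = 0
  Z3 : ∀ (i j : J) (f : (κ i → ℂ) →ₗ[ℂ] (κ j → ℂ)), IsDRB (P i) (P j) f →
    ∀ v, Z j (f v) = f (Z i v)
  cen : ∀ i (v : κ (e i) → ℂ),
    (∀ σ : K i →+* ℂ, (∀ a, ts (t i) σ a v = 0) ∨ ∀ a, ts (t i) (cj σ) a v = 0) →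
    v ∈ Submodule.span ℂ {w : κ (e i) → ℂ | ∃ (j : B) (f : (κ (b j) → ℂ) →ₗ[ℂ] (κ (e i) → ℂ)),
      IsDRB (P (b j)) (P (e i)) f ∧ ∃ u, w = f u}
  kilS : ∀ n : J → ℕ, KillS e P t n
  kilC : ∀ n, KillZ (fun j => P (b j)) (fun j => Z (b j)) n

end fam

/-- **NSC.**  PROOF.  Let `ActM (t i) Y M`, `SkewM` (`exists_act_of_mem`), `z σ = (M σ).trace / m i`, `z` odd
(`HMainC.trace_dual`, `HMainC.skew_scalar`).  By `exists_bvE` there are `Y₁, Y₂ ∈ bvS (t i)` with the families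
`M σ - z σ • 1` and `z σ • 1`; `Y = Y₁ + Y₂` (`eq_of_act`, `m i ≠ 0`), `Y₁` kills `α` by `hS`, `Y₂` by `hC`.
The operator `NE e P D` is `∑ i, Pi.single (e i) (N D - μ / 2)` (`e` injective). -/
def St_Nsc : Prop := ∀ (I J : Type) [Fintype I] [DecidableEq I] [Fintype J] [DecidableEq J]
  (e : I → J), Function.Injective e → ∀ (κ : J → Type) [∀ j, Fintype (κ j)]
  [∀ j, DecidableEq (κ j)] (ϖ : ℂ) (P : ∀ j, PData (κ j) ϖ) (K : I → Type) [∀ i, Field (K i)]
  [∀ i, NumberField (K i)] (c : ∀ i, K i →+* K i) (m : I → ℕ)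
  (h : ∀ i, Matrix (Fin (m i)) (Fin (m i)) (K i))
  (t : ∀ i, Fin (m i) → K i → Module.End ℂ (κ (e i) → ℂ)), (∀ i, MD (P (e i)) (c i) (h i) (t i)) →
  (∀ i, m i ≠ 0) → (∀ i, Nonempty (κ (e i))) → ∀ (n : J → ℕ) (k : ℕ)
  (α : MultilinearMap ℂ (fun _ : Fin (2 * k) => HW κ n) ℂ),
  (∀ (i : I) (Y : Module.End ℂ (κ (e i) → ℂ))
    (M : (K i →+* ℂ) → Matrix (Fin (m i)) (Fin (m i)) ℂ), Y ∈ bvS (t i) → ActM (t i) Y M →
    (∀ σ, (M σ).trace = 0) →
    actForm (lift n (Pi.single (e i) Y : ∀ j, Module.End ℂ (κ j → ℂ))) α = 0) →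
  (∀ (i : I) (Y : Module.End ℂ (κ (e i) → ℂ)) (z : (K i →+* ℂ) → ℂ), IsCen (t i) Y z →
    (∀ σ, z (cj σ) = -z σ) →
    actForm (lift n (Pi.single (e i) Y : ∀ j, Module.End ℂ (κ j → ℂ))) α = 0) →
  (∀ (i : I), ∀ Y ∈ bvS (t i),
    actForm (lift n (Pi.single (e i) Y : ∀ j, Module.End ℂ (κ j → ℂ))) α = 0) ∧
  ((∀ i (D : Derivation ℚ ℂ ℂ), (P (e i)).N D - (D ϖ / ϖ / 2) • 1 ∈ bvS (t i)) →
    ∀ D : Derivation ℚ ℂ ℂ, actForm (lift n (NE e P D)) α = 0)

/-- **CEN** (helper7; from `St_Evb`, `St_Eva`, `St_Del`, `St_Cnb`, `St_Cna`, `St_Pol`, `St_Prd`, `St_Rlu`,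
`St_Nsc`).  PROOF.  Let `α` be a Grothendieck form in `2 k` variables on `HW κ n`; we may assume
`n j = n' j + 1`.  By `Inv_span` and `St_Eva` it is enough that `actForm (lift n Z) α` vanishes at the `v`
such that every `v r` is either zero on all `A_(e i)`, or `slot n (e i) l x` with
`CE (t i) (n_r / 2 - m / 4) x` (`r ∈ T`).
Let `M = ∏ i, m i`.  For `r ∈ T` choose types `Ψ (r, a)`, `a < M`, from `St_Cna`, and
`w (r, a) ∈ IsVac (Ψ (r, a))ᶜ`, a morphism `f (r, a)` from some `A_(b j)` to `A_(e i)` and `y (r, a)` with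
`ψ (w, f y) ≠ 0` (`St_Cnb`).  `F = ∏ a, α (v a) * ∏ (r, a), ψ (w' (r, a) (e i) 0, f (r, a) (y' (r, a) (b j) 0))`
(`St_Prd`), a Grothendieck form.  `St_Pol` for the set of Grothendieck forms and the operators
`lift n (Pi.single (e i) (δ i k))`, `δ i k` the operator of `bas k - c (bas k)` (`St_Del`), gives `F'`, killed by all
central operators (`St_Del` (2)), by the trace-zero ones (`kilS`), so by all elements of `bvS (t i)` and by
`NE e P D` (`St_Nsc`), so by `L`, the operator `Z` on the `A_(b j)` and zero on the `A_(e i)` (`St_Rlu`).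
At tuples `u` with `v a r = v r` for `r ∈ T`, arbitrary vectors in the `A_(b j)` for `r ∉ T`, `w' = w`, `y'`
arbitrary, `F' u = F u` (the sum of the eigenvalues is zero by `St_Cna`, `z = σ x`).  So `actForm L F u = 0`.
`ψ (w, f (Z y)) = - ψ (Z w, f y)` and `Z w = - (∑ σ, z σ * sg m Ψ σ) w`, `z σ = trace (M_Z σ) / m` (`St_Evb` (2)).
With `X y = actForm L α (v, y) + Λ α (v, y)`, `Λ = ∑ r ∈ T, ∑ σ, z σ * (n_r σ / 2 - m / 4)` this gives
`∑ a, X (y a) * ∏ a' ≠ a, α (v, y a') = 0` for all families `y a`, hence `X = 0`.  Since `Z (e i) - ` (central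
part) is killed by `kilS` and the central part acts on `v r` by the scalar, `actForm (lift n Z) α v = X = 0`. -/
def St_Cen : Prop := ∀ (I B J : Type) [Fintype I] [DecidableEq I] [Fintype B] [DecidableEq B]
  [Fintype J] [DecidableEq J] (e : I → J) (b : B → J) (κ : J → Type) [∀ j, Fintype (κ j)]
  [∀ j, DecidableEq (κ j)] (ϖ : ℂ) (P : ∀ j, PData (κ j) ϖ) (K : I → Type) [∀ i, Field (K i)]
  [∀ i, NumberField (K i)] (c : ∀ i, K i →+* K i) (m : I → ℕ)
  (h : ∀ i, Matrix (Fin (m i)) (Fin (m i)) (K i))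
  (t : ∀ i, Fin (m i) → K i → Module.End ℂ (κ (e i) → ℂ)) (Z : ∀ j, Module.End ℂ (κ j → ℂ)),
  FamU e b P c h t Z → ∀ n : J → ℕ, KillZ P Z n

/-- **CEU** (from `St_Cen`, `St_Psk`, `KTP.St_Hod`).  The Hodge projectors kill all Grothendieck forms on
products of the `A_i` and the `C_j`.  PROOF.  `FamU` for `e = Sum.inl`, `b = Sum.inr`, `t i = lt (A i) (S i)`,
`Z j = 1/2 - hod`.  `S`: `mde`, as in `thm_Klx`.  `cm`: `c i ≠ id`.  `N`: `KSW.exists_gam_allE` for the form `0` in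
two variables, `X = (N D - μ / 2, 0)` as in `Klx_form`, `mem_bvE`.  `sk`: `St_Psk`.  `Z1`: `KTP.St_Hod`.
`Z2`: `psi_hod`.  `Z3`: `hod_comm`.  `cen`: `isDRB_iff`, `IsMor`. -/
def St_Ceu : Prop := ∀ {I J : Type} [Fintype I] [DecidableEq I] [Fintype J] [DecidableEq J]
  (A : I → AbVar) (C : J → AbVar) {K : I → Type} [∀ i, Field (K i)] [∀ i, NumberField (K i)]
  {c : ∀ i, K i →+* K i} {m : I → ℕ} (S : ∀ i, (A i).KugaSatakeMul (K i) (c i) (m i)),
  (∀ i, (A i).g ≠ 0) → (∀ i, c i ≠ RingHom.id (K i)) → (∀ i, m i ≠ 0) →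
  (∀ i, (S i).IsCenQuotientOf C) →
  (∀ n, KillZ (fun j => pData (C j)) (fun j => (1 / 2 : ℂ) • 1 - hod (C j)) n) →
  (∀ n : I ⊕ J → ℕ, KillS (κ := fun j => Fin (Sum.elim A C j).g ⊕ Fin (Sum.elim A C j).g) Sum.inl
    (fun j => pData (Sum.elim A C j)) (fun i => lt (A i) (S i)) n) →
  ∀ n : I ⊕ J → ℕ, KillZ (κ := fun j => Fin (Sum.elim A C j).g ⊕ Fin (Sum.elim A C j).g)
    (fun j => pData (Sum.elim A C j)) (fun j => (1 / 2 : ℂ) • 1 - hod (Sum.elim A C j)) n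

/-! ### The CM part for abelian fields -/

/-- **CMF.**  The field of endomorphisms generated by a commuting set.  PROOF.  `F = Algebra.adjoin ℚ D`
in `Module.End ℂ B.H1` is commutative, consists of endomorphisms of `B`, so its non-zero elements are
injective (`IsSimple`); it is finite-dimensional over `ℚ` (it acts faithfully on the rational vectors
`(pData B).Q`) and a domain, so a field `L`.  `χ x` is the eigenvalue at `w`.  The span: decomposition of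
`B.H1` under a number field (`Pool/Agent/Helper7/Eigen.lean`, or: `ρ x` for a primitive element `x` is killed
by the separable polynomial `minpoly ℚ x`).  Last assertion: `(pData B).Q` is an `L`-vector space of
`ℚ`-dimension `2 g`.  Let `w₀ ≠ 0` be rational and suppose that `L w₀` is not everything.  Then there is an
`L`-linear map `g` of `(pData B).Q` with `g w₀ = 0`, `g ≠ 0`; extend it to `B.H1` (basis `(pData B).bB`); it
is an endomorphism of `B` by the hypothesis, not zero and not injective: contradiction.  So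
`finrank ℚ L = 2 g`. -/
def St_Cmf : Prop := ∀ (B : AbVar), B.g ≠ 0 → B.IsSimple → ∀ (D : Set (Module.End ℂ B.H1)),
  (∀ f ∈ D, B.IsEnd f) → (∀ f ∈ D, ∀ g ∈ D, f * g = g * f) → ∀ w : B.H1, w ≠ 0 →
  (∀ f ∈ D, ∃ z : ℂ, f w = z • w) →
  ∃ (L : Type) (_ : Field L) (_ : NumberField L) (ρ : L →+* Module.End ℂ B.H1) (χ : L →+* ℂ),
    (∀ x, B.IsEnd (ρ x)) ∧ (∀ f ∈ D, ∃ x, ρ x = f) ∧ (∀ x, ρ x w = χ x • w) ∧
    (∀ x, χ x ∈ Algebra.adjoin ℚ {z : ℂ | ∃ f ∈ D, f w = z • w}) ∧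
    Submodule.span ℂ {u : B.H1 | ∃ χ' : L →+* ℂ, ∀ x, ρ x u = χ' x • u} = ⊤ ∧
    ((∀ g : Module.End ℂ B.H1, (∀ v, B.IsBetti v → B.IsBetti (g v)) →
      (∀ x, g * ρ x = ρ x * g) → B.IsEnd g) → finrank ℚ L = 2 * B.g)

/-- **CMP** (from `St_Cmf`, `St_Del`, `St_Eva`, `St_Evb`).  The CM part comes from simple abelian varieties with
complex multiplication by abelian fields.  PROOF.  Let `t = lt A S`, `v ≠ 0`.  There is a type `Ψ` with
`IsVac t Ψ v`: `Ψ = {σ | (σ ∈ Φ ∧ v is killed at σ) ∨ (σ ∉ Φ ∧ v is not killed at cj σ)}` for a type `Φ`.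
`Helper39.AF.exists_decomp` for `A` gives simple `B_i`, morphisms `p : A → B_i`, `q : B_i → A` (the components of
the isogeny and of its inverse) with `p q = id` and `v = ∑ q (p v)`; it is enough to show that `B = B_i`
has CM by an abelian field if `w = p v ≠ 0`.  `D = {p δ q}`, `δ` the operators of the `x ∈ K` with `c x = -x`
(`St_Del`).  The `δ` are in `bvS t` and commute with the endomorphisms of `A` (`comm_bvS`, `MD.cent`), in
particular with `q p` and with each other, so `p δ = (p δ q) p`, `δ q = q (p δ q)`, the elements of `D` are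
commuting endomorphisms of `B`, and `p δ q w = (∑ σ, m * σ x * sg 1 Ψ σ) • w` (`St_Evb` (2)).
`St_Cmf` gives `L, ρ, χ`.  Let `g` respect the Betti structure and commute with the `ρ x`.  We show
that `q g p` is an endomorphism of `A`; so is `g = p (q g p) q`.  By `S.endo` it must commute with
`X = ts σ a * ts (cj σ) b`.  `X` commutes with `q p` (an endomorphism), so with `X' = p X q`: `p X = X' p`,
`X q = q X'`, and it is enough that `g X' = X' g`.  Let `u` be as in the spanning set of `St_Cmf`, with `χ'`, and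
`τ ∈ Aut ℂ` with `χ' = τ ∘ χ` (`Helper84.exists_aut`); `p δ q u = τ (∑ σ, m * σ x * sg 1 Ψ σ) • u
= (∑ σ, m * σ x * sg 1 Ψ' σ) • u` for the type `Ψ' = {σ | τ⁻¹ ∘ σ ∈ Ψ}`.  So `CE t (sg m Ψ') (q u)`
(`St_Del` (2)), and `IsVac t Ψ' (q u)` (`St_Evb` (3)), so `X (q u)` is `2 σ (h a b) • q u` if `σ ∈ Ψ'`, zero
otherwise, and `X' u` is the same multiple of `u`.  `g u` has the same `χ'`, so `X' (g u) = g (X' u)`.
So `B.HasCM L ρ`.  The eigenvalues at `w` are in the image of `σ₀ : K → ℂ` (`K` is Galois over `ℚ`), so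
`L` is isomorphic to a subfield of `K`, and abelian over `ℚ` (`IsAbelianGalois.of_algHom`). -/
def St_Cmp : Prop := ∀ (A : AbVar) (K : Type) [Field K] [NumberField K] (c : K →+* K) (m : ℕ)
  (S : A.KugaSatakeMul K c m), A.g ≠ 0 → c ≠ RingHom.id K → m ≠ 0 → IsAbelianGalois ℚ K →
  ∀ v : A.H1, (∀ σ : K →+* ℂ, (∀ a, S.e σ a v = 0) ∨
    ∀ a, S.e (ComplexEmbedding.conjugate σ) a v = 0) →
  v ∈ Submodule.span ℂ {w : A.H1 | ∃ (B : AbVar) (f : B.H1 → A.H1) (u : B.H1), B.g ≠ 0 ∧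
    B.IsSimple ∧ (∃ (L : Type) (_ : Field L) (_ : NumberField L) (ρ : L → B.H1 → B.H1),
      B.HasCM L ρ ∧ IsAbelianGalois ℚ L) ∧ B.IsMor A f ∧ w = f u}

end Pool.Agent.KTW
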