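import Pool.Agent.KTW.StV
import Pool.Agent.KTW.StU
import Pool.Agent.KTW.Alz
import Pool.Agent.KTW.Fmz
import Pool.Agent.Helper39.AF.Decomp

/-!
# KTW [Alv]: the Hodge projectors kill all Grothendieck forms
-/

set_option autoImplicit false
set_option linter.unusedSectionVars false

namespace Pool.Agent.KTW

open Module Matrix NumberField Pool.Agent.Helper7 Pool.Agent.KS Pool.Agent.Ball Pool.Agent.KSE
  Pool.Agent.Helper28.GPC Pool.Agent.K3P Pool.Agent.KTP
open Pool.Agent.GPC (AbVar GrIsHodge IsElementary)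

/-- quotients of quotients -/
theorem Alv_trans {L L' : Type} {A : AbVar} {D : L → AbVar} {D' : L' → AbVar}
    (h' : ∀ l, (D l).IsQuotientOf D') (v : A.H1)
    (h : v ∈ Submodule.span ℂ {w : A.H1 | ∃ l f u, (D l).IsMor A f ∧ w = f u}) :
    v ∈ Submodule.span ℂ {w : A.H1 | ∃ l f u, (D' l).IsMor A f ∧ w = f u} := by
  refine Submodule.span_le.2 ?_ h
  rintro _ ⟨l, f, u, hf, rfl⟩
  have h1 := h' l u
  show f u ∈ Submodule.span ℂ {w : A.H1 | ∃ l f u, (D' l).IsMor A f ∧ w = f u}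
  induction h1 using Submodule.span_induction with
  | mem w hw =>
    obtain ⟨l', f', u', hf', rfl⟩ := hw
    exact Submodule.subset_span ⟨l', fun v => f (f' v), u',
      Pool.Agent.Helper39.AF.isMor_comp hf hf', rfl⟩
  | zero =>
    rw [hf.linear.map_zero]
    exact Submodule.zero_mem _
  | add a b _ _ ha hb =>
    rw [hf.linear.map_add]
    exact Submodule.add_mem _ ha hb
  | smul r a _ ha =>
    rw [hf.linear.map_smul]
    exact Submodule.smul_mem _ r ha

/-- [ALV] -/
theorem thm_Alv (hAsv : St_Asv) (hTrf : St_Trf) (hExt : St_Ext) (hEnl : St_Enl) (hRqt : St_Rqt)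
    (hCmp : St_Cmp) (hBsp : St_Bsp) (hCmo : St_Cmo) (hIqt : St_Iqt) : St_Alv := by
  classical
  intro I J L _ _ _ _ _ A C D K _ _ c m S hg hD hCD hI hcl
  -- elementary abelian varieties for the small ones and for the parts with complex multiplication
  have hB : ∀ i, ∃ (X : Type) (_ : Fintype X) (B : X → AbVar), (∀ x, (B x).IsBasic) ∧
      ((S i).IsSmall → (A i).IsQuotientOf B) ∧ ((S i).IsLargeC → (S i).IsCenQuotientOf B) := by
    intro i
    by_cases hs : (S i).IsSmall
    · have h1 : BasicPart (A i) fun _ => True := by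
        rcases hs with ⟨h1, h2, h3⟩ | ⟨h1, h2, h3 | ⟨h3, h4⟩⟩
        · exact hRqt (A i) (K i) (c i) (m i) (S i) h1 h2 h3
        · have key : ∀ (m' : ℕ) (_ : (A i).KugaSatakeMul (K i) (c i) m'), m' = 1 →
              BasicPart (A i) fun _ => True := by
            intro m' S' hm'
            subst hm'
            exact hCmo (A i) (K i) (c i) S' h1 h2
          exact key (m i) (S i) h3
        · have key : ∀ (m' : ℕ) (_ : (A i).KugaSatakeMul (K i) (c i) m'), m' = 2 →
              BasicPart (A i) fun _ => True := by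
            intro m' S' hm'
            subst hm'
            exact hIqt (A i) (K i) (c i) S' h1 h4
          exact key (m i) (S i) h3
      obtain ⟨X, iX, B, hB, hv⟩ := h1
      exact ⟨X, iX, B, hB, fun _ v => hv v trivial, fun _ v _ => hv v trivial⟩
    · by_cases hC : (S i).IsLargeC
      · obtain ⟨σ₀, h, -⟩ := place_C (S i) hC
        obtain ⟨X, iX, B, hB, hv⟩ := hBsp (A i) (fun v => ∀ σ : K i →+* ℂ,
          (∀ a, (S i).e σ a v = 0) ∨ ∀ a, (S i).e (ComplexEmbedding.conjugate σ) a v = 0) (by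
            intro v hv
            refine Submodule.span_mono ?_
              (hCmp (A i) (K i) (c i) (m i) (S i) (hg i) hC.1 h.2.2.2.1.ne' hC.2.1 v hv)
            rintro w ⟨B, f, u, -, h1, h2, h3, h4⟩
            exact ⟨B, f, u, ⟨h1, Or.inr (Or.inr h2)⟩, h3, h4⟩)
        exact ⟨X, iX, B, hB, fun h => absurd h hs, fun _ v hv' => hv v hv'⟩
      · exact ⟨Empty, inferInstance, fun x => x.elim, fun x => x.elim, fun h => absurd h hs,
          fun h => absurd h hC⟩
  choose X iX B hBb hBs hBc using hB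
  obtain ⟨L', iL, iL', D', hD', hDD', hBD'⟩ := hEnl L D hD (Σ i, X i) (fun x => B x.1 x.2)
    (fun x => hBb x.1 x.2)
  have hsm : ∀ i, (S i).IsSmall → (A i).IsQuotientOf D' := fun i hi v =>
    Alv_trans (fun x => hBD' ⟨i, x⟩) v (hBs i hi v)
  have hce : ∀ i, (S i).IsLargeC → (S i).IsCenQuotientOf D' := fun i hi v hv =>
    Alv_trans (fun x => hBD' ⟨i, x⟩) v (hBc i hi v hv)
  -- the large ones
  let IR : Type := {i : I // ¬ (A i).IsQuotientOf D ∧ ¬ (S i).IsSmall ∧ (S i).IsLargeR}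
  let IC : Type := {i : I // ¬ (A i).IsQuotientOf D ∧ ¬ (S i).IsSmall ∧ (S i).IsLargeC}
  have h0 : Alz_K (Sum.elim (fun i : IR => A i.1) (Sum.elim (fun i : IC => A i.1) D')) := by
    refine hAsv (fun i : IR => A i.1) (fun i : IC => A i.1) D' (fun i => S i.1) (fun i => S i.1)
      (fun i => hg i.1) (fun i => hg i.1) (fun i => i.2.2.2) (fun i => i.2.2.2) ?_ ?_ hD'
      (fun i => hce i.1 i.2.2.2)
    · intro i i'
      have hne : i.1 ≠ i'.1 := by
        intro h
        apply i'.2.2.2.1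
        have h1 := i.2.2.2.1
        rw [h] at h1
        exact h1
      have h1 := hcl i.1 i'.1 hne i.2.1 i.2.2.1 i'.2.1 i'.2.2.1
      constructor
      · intro h2
        exact h1 ⟨i'.2.2.2.1, Or.inl ⟨i.2.2.2.1, Or.inl h2⟩⟩
      · intro h2
        exact h1 ⟨i'.2.2.2.1, Or.inl ⟨i.2.2.2.1, Or.inr h2⟩⟩
    · intro i i' hii h2
      have hne : i.1 ≠ i'.1 := fun h => hii (Subtype.ext h)
      exact hcl i.1 i'.1 hne i.2.1 i.2.2.1 i'.2.1 i'.2.2.1
        ⟨i'.2.2.2.1, Or.inr ⟨i.2.2.2.1, h2⟩⟩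
  -- the big family
  let XX : (I ⊕ J) ⊕ L' → AbVar := Sum.elim (Sum.elim A C) D'
  let e : IR ⊕ (IC ⊕ L') → (I ⊕ J) ⊕ L' := Sum.elim (fun i => Sum.inl (Sum.inl i.1))
    (Sum.elim (fun i => Sum.inl (Sum.inl i.1)) Sum.inr)
  have h1 : Alz_K (fun b => XX (e b)) := by
    have e1 : (fun b => XX (e b)) =
        Sum.elim (fun i : IR => A i.1) (Sum.elim (fun i : IC => A i.1) D') := by
      funext b
      rcases b with b | b | b <;> rfl
    rw [e1]
    exact h0
  have h2 : Alz_K XX := by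
    refine hTrf (IR ⊕ (IC ⊕ L')) ((I ⊕ J) ⊕ L') e (fun j => Fin (XX j).g ⊕ Fin (XX j).g) _
      (fun j => pData (XX j)) (fun j => (1 / 2 : ℂ) • 1 - hod (XX j)) ?_ ?_ h1
    · intro i j f hf v
      show (1 / 2 : ℂ) • f v - hod (XX j) (f v) = f ((1 / 2 : ℂ) • v - hod (XX i) v)
      rw [map_sub, map_smul, hod_comm f hf]
    · have hid : ∀ b, Submodule.span ℂ {v : Fin (XX (e b)).g ⊕ Fin (XX (e b)).g → ℂ |
            ∃ (i : IR ⊕ (IC ⊕ L')) (f : (Fin (XX (e i)).g ⊕ Fin (XX (e i)).g → ℂ) →ₗ[ℂ]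
              (Fin (XX (e b)).g ⊕ Fin (XX (e b)).g → ℂ)),
            IsDRB (pData (XX (e i))) (pData (XX (e b))) f ∧ ∃ u, v = f u} = ⊤ := by
        intro b
        rw [eq_top_iff]
        intro v _
        exact Submodule.subset_span ⟨b, LinearMap.id,
          (isDRB_iff _ _ _).mpr ⟨fun v hv => hv, fun v hv => hv⟩, v, rfl⟩
      have hq : ∀ j, (XX j).IsQuotientOf D' → Submodule.span ℂ
          {v : Fin (XX j).g ⊕ Fin (XX j).g → ℂ |
            ∃ (i : IR ⊕ (IC ⊕ L')) (f : (Fin (XX (e i)).g ⊕ Fin (XX (e i)).g → ℂ) →ₗ[ℂ]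
              (Fin (XX j).g ⊕ Fin (XX j).g → ℂ)),
            IsDRB (pData (XX (e i))) (pData (XX j)) f ∧ ∃ u, v = f u} = ⊤ := by
        intro j hj
        rw [eq_top_iff]
        intro v _
        refine Submodule.span_mono ?_ (hj v)
        rintro w ⟨i, f, u, hf, rfl⟩
        exact ⟨Sum.inr (Sum.inr i), IsLinearMap.mk' f hf.linear,
          (isDRB_iff _ _ _).mpr ⟨hf.betti, hf.deRham⟩, u, rfl⟩
      rintro ((j | j) | j)
      · by_cases h3 : (A j).IsQuotientOf D
        · exact hq (Sum.inl (Sum.inl j)) fun v => Alv_trans hDD' v (h3 v)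
        · by_cases h4 : (S j).IsSmall
          · exact hq (Sum.inl (Sum.inl j)) (hsm j h4)
          · rcases hI j with h | h | h | h
            · exact absurd h h3
            · exact absurd h h4
            · exact hid (Sum.inl ⟨j, h3, h4, h⟩)
            · exact hid (Sum.inr (Sum.inl ⟨j, h3, h4, h⟩))
      · exact hq (Sum.inl (Sum.inr j)) fun v => Alv_trans hDD' v (hCD j v)
      · exact hid (Sum.inr (Sum.inr j))
  exact hExt (I ⊕ J) ((I ⊕ J) ⊕ L') Sum.inl Sum.inl_injective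
    (fun j => Fin (XX j).g ⊕ Fin (XX j).g) _ (fun j => pData (XX j))
    (fun j => (1 / 2 : ℂ) • 1 - hod (XX j)) h2

end Pool.Agent.KTW
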