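import Pool.Agent.KTW.StV
import Pool.Agent.KTW.StU
import Pool.Agent.KTW.Alz
import Pool.Agent.KTW.Fmz

/-!
# KTW [Asv]: the Hodge projectors kill the Grothendieck forms, the generating family
-/

set_option autoImplicit false
set_option linter.unusedSectionVars false

namespace Pool.Agent.KTW

open Module Matrix NumberField Pool.Agent.Helper7 Pool.Agent.KS Pool.Agent.Ball Pool.Agent.KSE
  Pool.Agent.Helper28.GPC Pool.Agent.K3P Pool.Agent.KTP
open Pool.Agent.GPC (AbVar GrIsHodge IsElementary)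

/-- the part of complex type together with the elementary abelian varieties -/
theorem Asv_cm (hSlx : St_Slx) (hCeu : St_Ceu) (hHym : St_Hym) (hHyt : St_Hyt)
    {I J : Type} [Fintype I] [DecidableEq I] [Fintype J] [DecidableEq J]
    (A : I → AbVar) (D : J → AbVar) {K : I → Type} [∀ i, Field (K i)] [∀ i, NumberField (K i)]
    {c : ∀ i, K i →+* K i} {m : I → ℕ} (S : ∀ i, (A i).KugaSatakeMul (K i) (c i) (m i))
    (hg : ∀ i, (A i).g ≠ 0) (hC : ∀ i, (S i).IsLargeC) (hmm : ∀ i i', i ≠ i' → m i ≠ m i')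
    (hD : IsElementary D) (hq : ∀ i, (S i).IsCenQuotientOf D) : Alz_K (Sum.elim A D) := by
  classical
  refine hCeu A D S hg (fun i => (hC i).1) (fun i => ?_) hq (hHym D (hHyt D hD)) ?_
  · obtain ⟨σ₀, h, -⟩ := place_C (S i) (hC i)
    exact h.2.2.2.1.ne'
  · intro n i Y M hY hYM ht
    exact hSlx A D S hg hC hmm hD i M Y hY hYM ht (Pi.single (Sum.inl i) Y)
      (Pi.single_eq_same _ _) (fun j hj => Pi.single_eq_of_ne hj _) n

/-- [ASV] -/
theorem thm_Asv (hSyn : St_Syn) (hRel : St_Rel) (hHym : St_Hym) (hHyt : St_Hyt) (hKly : St_Kly)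
    (hSlx : St_Slx) (hCeu : St_Ceu) (hKlr : St_Klr) : St_Asv := by
  classical
  intro I I' J _ _ _ _ _ _ A A' D K _ _ c m S K' _ _ c' m' S' hg hg' hR hC hne hmm hD hq n k α
    hB hA
  have hϖ := Complex.two_pi_I_ne_zero
  have hN := hKly A A' D S S' hg hg' hR hC hne hD n
  have h0 := Asv_cm hSlx hCeu hHym hHyt A' D S' hg' hC hmm hD hq
  let Z : ∀ j : I ⊕ (I' ⊕ J), Module.End ℂ (Fin (Sum.elim A (Sum.elim A' D) j).g ⊕
    Fin (Sum.elim A (Sum.elim A' D) j).g → ℂ) :=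
    fun j => (1 / 2 : ℂ) • 1 - hod (Sum.elim A (Sum.elim A' D) j)
  let Z₁ : ∀ j : I ⊕ (I' ⊕ J), Module.End ℂ (Fin (Sum.elim A (Sum.elim A' D) j).g ⊕
    Fin (Sum.elim A (Sum.elim A' D) j).g → ℂ) :=
    fun j => match j with
      | Sum.inl i => Z (Sum.inl i)
      | Sum.inr _ => 0
  let Z₂ : ∀ j : I ⊕ (I' ⊕ J), Module.End ℂ (Fin (Sum.elim A (Sum.elim A' D) j).g ⊕
    Fin (Sum.elim A (Sum.elim A' D) j).g → ℂ) :=
    fun j => match j with
      | Sum.inl _ => 0
      | Sum.inr j => Z (Sum.inr j)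
  have hZ : (fun j : I ⊕ (I' ⊕ J) => (1 / 2 : ℂ) •
      (1 : Module.End ℂ (Sum.elim A (Sum.elim A' D) j).H1) -
      hod (Sum.elim A (Sum.elim A' D) j)) = Z₁ + Z₂ := by
    funext j
    rcases j with j | j
    · show Z (Sum.inl j) = Z (Sum.inl j) + 0
      rw [add_zero]
    · show Z (Sum.inr j) = 0 + Z (Sum.inr j)
      rw [zero_add]
  have h1 := hRel I (I ⊕ (I' ⊕ J)) Sum.inl Sum.inl_injective
    (fun j => Fin (Sum.elim A (Sum.elim A' D) j).g ⊕ Fin (Sum.elim A (Sum.elim A' D) j).g) _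
    (fun j => pData (Sum.elim A (Sum.elim A' D) j)) hϖ Z₁ (by
      intro j hj
      rcases j with j | j
      · exact absurd rfl (hj j)
      · rfl) n hN (hKlr A S hg (fun i => Or.inl ⟨(hR i).1, (hR i).2.1, Or.inl (hR i).2.2.1⟩)
        (fun i => (hR i).1) _)
  have h2 := hRel (I' ⊕ J) (I ⊕ (I' ⊕ J)) Sum.inr Sum.inr_injective
    (fun j => Fin (Sum.elim A (Sum.elim A' D) j).g ⊕ Fin (Sum.elim A (Sum.elim A' D) j).g) _
    (fun j => pData (Sum.elim A (Sum.elim A' D) j)) hϖ Z₂ (by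
      intro j hj
      rcases j with j | j
      · rfl
      · exact absurd rfl (hj j)) n
    (hSyn I (I' ⊕ J) (I ⊕ (I' ⊕ J)) Sum.inl Sum.inr (by
      intro j
      rcases j with j | j
      · refine iff_of_true ⟨j, rfl⟩ ?_
        rintro ⟨i, hi⟩
        cases hi
      · refine iff_of_false ?_ fun h => h ⟨j, rfl⟩
        rintro ⟨i, hi⟩
        cases hi) _ _ _ hϖ n hN) (h0 _)
  rw [hZ, lift_add, actForm_add, h1 k α hB hA, h2 k α hB hA, add_zero]

end Pool.Agent.KTW
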