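import Pool.Agent.KTW.TypesQ

/-!
Conditions on products of K3 surfaces and of abelian varieties: elementary abelian varieties.
-/

set_option autoImplicit false

namespace Pool.Agent.GPC

open NumberField

/-- `B` is simple, and it is a surface without endomorphisms, or has real multiplication, or complex
multiplication by an abelian number field -/
def AbVar.IsBasic (B : AbVar) : Prop :=
  B.IsSimple ∧ (B.IsGenericSurface ∨
    (∃ (K : Type) (_ : Field K) (_ : NumberField K), IsRMType B K) ∨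
    ∃ (K : Type) (_ : Field K) (_ : NumberField K) (ρ : K → B.H1 → B.H1),
      B.HasCM K ρ ∧ IsAbelianGalois ℚ K)

/-- `K` is totally real, `m ≠ 5`, and `m ≥ 6` if `K = ℚ` -/
def AbVar.KugaSatakeMul.IsLargeR {A : AbVar} {K : Type} [Field K] [NumberField K] {c : K →+* K}
    {m : ℕ} (_ : A.KugaSatakeMul K c m) : Prop :=
  c = RingHom.id K ∧ 3 ≤ m ∧ m ≠ 5 ∧ (Module.finrank ℚ K = 1 → 6 ≤ m)

/-- `K` is an abelian CM field, `m` is even, and `m ≠ 2` if `K` is quadratic -/
def AbVar.KugaSatakeMul.IsLargeC {A : AbVar} {K : Type} [Field K] [NumberField K] {c : K →+* K}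
    {m : ℕ} (_ : A.KugaSatakeMul K c m) : Prop :=
  c ≠ RingHom.id K ∧ IsAbelianGalois ℚ K ∧ Even m ∧ (Module.finrank ℚ K = 2 → m ≠ 2)

/-- the cases in which `A` is a product of elementary abelian varieties up to isogeny -/
def AbVar.KugaSatakeMul.IsSmall {A : AbVar} {K : Type} [Field K] [NumberField K] {c : K →+* K}
    {m : ℕ} (_ : A.KugaSatakeMul K c m) : Prop :=
  (c = RingHom.id K ∧ Module.finrank ℚ K = 1 ∧ (m = 3 ∨ m = 4)) ∨
    (c ≠ RingHom.id K ∧ IsAbelianGalois ℚ K ∧ (m = 1 ∨ (m = 2 ∧ Module.finrank ℚ K = 2)))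

end Pool.Agent.GPC
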