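import Pool.Agent.KTW.StQ
import Pool.Agent.KTW.TypesV
import Pool.Agent.KSE.TwistE

/-!
# KTW: Hodge classes on products of K3 surfaces, Kuga-Satake varieties and elementary abelian
varieties. Frozen statements, part five

Every module `Pool/Agent/KTW/<X>.lean` proves `theorem thm_<X> : St_<X>` (with the hypotheses named in
the docstring). The docstrings contain the proofs.
-/

set_option autoImplicit false

open scoped ComplexConjugate

namespace Pool.Agent.KTW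

open Module Matrix NumberField Pool.Agent.Helper7 Pool.Agent.KS Pool.Agent.Ball Pool.Agent.KSE
  Pool.Agent.Helper28.GPC Pool.Agent.K3P Pool.Agent.KTP
open Pool.Agent.KSR (PL SkP)
open Pool.Agent.GPC (AbVar TC IsRatT qf df HU IsGrU Form IsBetti IsDeRham IsGrothendieck H1 IsFilU
  GrIsHodge IsElementary IsRMType)

/-! ### Part S1: abstract Lie algebras -/

/-- a simple subspace of a ring, for the bracket, which is not commutative -/
structure Smp {𝓑 : Type} [Ring 𝓑] [Algebra ℂ 𝓑] (G : Submodule ℂ 𝓑) : Prop where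
  br : ∀ x ∈ G, ∀ y ∈ G, x * y - y * x ∈ G
  nc : ∃ x ∈ G, ∃ y ∈ G, x * y ≠ y * x
  id : ∀ N : Submodule ℂ 𝓑, N ≤ G → (∀ x ∈ G, ∀ y ∈ N, x * y - y * x ∈ N) → N ≠ ⊥ → N = G

/-- the skew matrices for the symmetric matrix `H` -/
def SO {m : ℕ} (H : Matrix (Fin m) (Fin m) ℂ) : Submodule ℂ (Matrix (Fin m) (Fin m) ℂ) where
  carrier := {Z | Zᵀ * H + H * Z = 0}
  add_mem' := by
    intro Z Z' h h'
    show (Z + Z')ᵀ * H + H * (Z + Z') = 0
    have e : (Z + Z')ᵀ * H + H * (Z + Z') = (Zᵀ * H + H * Z) + (Z'ᵀ * H + H * Z') := by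
      rw [Matrix.transpose_add, add_mul, mul_add]; abel
    rw [e]
    have h1 : Zᵀ * H + H * Z = 0 := h
    have h2 : Z'ᵀ * H + H * Z' = 0 := h'
    rw [h1, h2, add_zero]
  zero_mem' := by
    show (0 : Matrix (Fin m) (Fin m) ℂ)ᵀ * H + H * 0 = 0
    rw [Matrix.transpose_zero, zero_mul, mul_zero, add_zero]
  smul_mem' := by
    intro r Z h
    show (r • Z)ᵀ * H + H * (r • Z) = 0
    have h1 : Zᵀ * H + H * Z = 0 := h
    rw [Matrix.transpose_smul, smul_mul_assoc, mul_smul_comm, ← smul_add, h1, smul_zero]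

/-- the matrices of trace zero -/
def SL (m : ℕ) : Submodule ℂ (Matrix (Fin m) (Fin m) ℂ) where
  carrier := {Z | Z.trace = 0}
  add_mem' := by
    intro Z Z' h h'
    show (Z + Z').trace = 0
    have h1 : Z.trace = 0 := h
    have h2 : Z'.trace = 0 := h'
    rw [Matrix.trace_add, h1, h2, add_zero]
  zero_mem' := Matrix.trace_zero (Fin m) ℂ
  smul_mem' := by
    intro r Z h
    show (r • Z).trace = 0
    have h1 : Z.trace = 0 := h
    rw [Matrix.trace_smul, h1, smul_zero]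

/-- the operators which are skew for the form `ψ` -/
def SP {κ : Type} [Fintype κ] [DecidableEq κ] (ψ : (κ → ℂ) →ₗ[ℂ] (κ → ℂ) →ₗ[ℂ] ℂ) :
    Submodule ℂ (Module.End ℂ (κ → ℂ)) where
  carrier := {X | ∀ u v, ψ (X u) v + ψ u (X v) = 0}
  add_mem' := by
    intro X Y h h' u v
    have h1 := h u v
    have h2 := h' u v
    rw [LinearMap.add_apply, LinearMap.add_apply, map_add, map_add, LinearMap.add_apply]
    linear_combination h1 + h2
  zero_mem' := by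
    intro u v
    rw [LinearMap.zero_apply, LinearMap.zero_apply, map_zero, map_zero, LinearMap.zero_apply,
      add_zero]
  smul_mem' := by
    intro r X h u v
    have h1 := h u v
    rw [LinearMap.smul_apply, LinearMap.smul_apply, map_smul, map_smul, LinearMap.smul_apply,
      smul_eq_mul, smul_eq_mul]
    linear_combination r * h1

/-- **SSO** (helper64).  PROOF.  `KSP.ideal_top`, `KSP.Goursat.exists_noncomm`. -/
def St_Sso : Prop := ∀ (m : ℕ) (H : Matrix (Fin m) (Fin m) ℂ), Hᵀ = H → IsUnit H.det → 3 ≤ m →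
  m ≠ 4 → Smp (SO H) ∧ 2 * finrank ℂ (SO H) + m = m * m

/-- **SSL** (helper64).  PROOF.  Elementary matrices. -/
def St_Ssl : Prop := ∀ m : ℕ, 2 ≤ m → Smp (SL m) ∧ finrank ℂ (SL m) + 1 = m * m

/-- **SSP** (helper64).  PROOF.  Symplectic basis; `KT.Alg.St_Simp`, `KSV.St_SkDim` may help. -/
def St_Ssp : Prop := ∀ (κ : Type) [Fintype κ] [DecidableEq κ]
  (ψ : (κ → ℂ) →ₗ[ℂ] (κ → ℂ) →ₗ[ℂ] ℂ), Fintype.card κ = 4 → (∀ u v, ψ u v = -ψ v u) →
  (∀ u, (∀ v, ψ u v = 0) → u = 0) → Smp (SP ψ) ∧ finrank ℂ (SP ψ) = 10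

/-- **SSH** (helper64).  The two halves of `so(4)`.  PROOF.  `P b Z = (Z ± δ⁻¹ (HZ)^ H) / 2` with the
Hodge dual and a root `δ` of `det H` (helper82's `star_δ`); for `H` real and definite `det H > 0` and `δ`
is real. -/
def St_Ssh : Prop := ∀ H : Matrix (Fin 4) (Fin 4) ℂ, Hᵀ = H → IsUnit H.det →
  ∃ p : Bool → (Matrix (Fin 4) (Fin 4) ℂ →ₗ[ℂ] Matrix (Fin 4) (Fin 4) ℂ),
    (∀ b, Smp ((SO H).map (p b)) ∧ finrank ℂ ((SO H).map (p b)) = 3 ∧
      ∀ Z ∈ SO H, p b Z ∈ SO H) ∧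
    (∀ b, ∀ Z ∈ SO H, ∀ Z' ∈ SO H, p b (Z * Z' - Z' * Z) = p b Z * p b Z' - p b Z' * p b Z) ∧
    (∀ Z ∈ SO H, p true Z + p false Z = Z) ∧
    (Definite H → (∀ a b, conj (H a b) = H a b) →
      ∀ b, ∀ Z ∈ SO H, p b (Z.map conj) = (p b Z).map conj)

/-- **SPZ** (helper63).  `V` is an ideal of `W` which maps onto the simple algebras `G q`.  PROOF.  For
finite sets `T` of indices: for `X ∈ W` there is `Y ∈ V` with `c q Y = c q X` for `q ∈ T`.  Step
`insert q T`: choose `Y` for `T`, the `X' ∈ W` with `c q X' = 0` for all `q ∈ T` form an ideal; its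
image in `G q` is `0` or everything; in the second case also the image of its brackets with `V` is
everything. -/
def St_Spz : Prop := ∀ (𝓐 : Type) [Ring 𝓐] [Algebra ℂ 𝓐] (Q : Type) [Fintype Q] (𝓑 : Q → Type)
  [∀ q, Ring (𝓑 q)] [∀ q, Algebra ℂ (𝓑 q)] (c : ∀ q, 𝓐 →ₗ[ℂ] 𝓑 q)
  (G : ∀ q, Submodule ℂ (𝓑 q)), (∀ q, Smp (G q)) → ∀ (W V : Submodule ℂ 𝓐), V ≤ W →
  (∀ X ∈ W, ∀ Y ∈ W, X * Y - Y * X ∈ W) → (∀ X ∈ W, ∀ Y ∈ V, X * Y - Y * X ∈ V) →
  (∀ X ∈ W, ∀ Y ∈ W, ∀ q, c q (X * Y - Y * X) = c q X * c q Y - c q Y * c q X) →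
  (∀ X ∈ W, ∀ q, c q X ∈ G q) → (∀ q, ∀ Z ∈ G q, ∃ X ∈ V, c q X = Z) →
  ∀ X ∈ W, ∃ Y ∈ V, ∀ q, c q Y = c q X

/-- **SPY** (helper63; from `St_Spz`).  The `N s` are ideals of `W` whose images in all `G q` are not
zero.  PROOF.  The image of the intersection of the `N s` in `G q` is everything (induction, brackets);
`V` is the span of the brackets of two elements of this intersection. -/
def St_Spy : Prop := ∀ (𝓐 : Type) [Ring 𝓐] [Algebra ℂ 𝓐] (Q : Type) [Fintype Q] (𝓑 : Q → Type)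
  [∀ q, Ring (𝓑 q)] [∀ q, Algebra ℂ (𝓑 q)] (c : ∀ q, 𝓐 →ₗ[ℂ] 𝓑 q)
  (G : ∀ q, Submodule ℂ (𝓑 q)), (∀ q, Smp (G q)) → ∀ (W : Submodule ℂ 𝓐),
  (∀ X ∈ W, ∀ Y ∈ W, X * Y - Y * X ∈ W) →
  (∀ X ∈ W, ∀ Y ∈ W, ∀ q, c q (X * Y - Y * X) = c q X * c q Y - c q Y * c q X) →
  (∀ X ∈ W, ∀ q, c q X ∈ G q) → (∀ q, ∀ Z ∈ G q, ∃ X ∈ W, c q X = Z) →
  ∀ (S : Type) [Fintype S] (N : S → Submodule ℂ 𝓐), (∀ s, N s ≤ W) →
  (∀ s, ∀ X ∈ W, ∀ Y ∈ N s, X * Y - Y * X ∈ N s) → (∀ q s, ∃ Y ∈ N s, c q Y ≠ 0) →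
  ∀ X ∈ W, ∃ Y ∈ Submodule.span ℂ {Z : 𝓐 | ∃ A B : 𝓐, (∀ s, A ∈ N s) ∧ (∀ s, B ∈ N s) ∧ A ∈ W ∧
    B ∈ W ∧ Z = A * B - B * A}, ∀ q, c q Y = c q X

section nl

variable {𝓐 : Type} [Ring 𝓐] [Algebra ℂ 𝓐] {𝓑 𝓒 : Type} [Ring 𝓑] [Algebra ℂ 𝓑] [Ring 𝓒]
  [Algebra ℂ 𝓒]

/-- the linear map `d` is compatible with brackets on `W` -/
def Bra (W : Submodule ℂ 𝓐) (d : 𝓐 →ₗ[ℂ] 𝓑) : Prop :=
  ∀ X ∈ W, ∀ Y ∈ W, d (X * Y - Y * X) = d X * d Y - d Y * d X

end nl

/-- **NLK** (helper64).  Four reasons for the existence of an element of `W` which is zero in `d` and not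
zero in `c`.  PROOF.  (1) a bracket.  (2) dimension.  (3) otherwise `c` factors over `d`, the kernel of
`d W → G` is an ideal, so `d W ≅ G` (or `G = 0`).  (4) Suppose `d X = 0 → c X = 0` on `W`. Then
`3 ≤ finrank (d W)`, so `d W = sl_2`; let `d X = e`, `d Y = h` (real matrices, `h e - e h = 2 e`).
`θ X - X` has `d = 0`, so `k (c X) = c (θ X) = c X`, in the same way `k (c Y) = c Y`;
`(Y X - X Y) - 2 X` has `d = 0`, so `[c Y, c X] = 2 c X`, hence `c X = 0`; but `d W → G` is a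
surjective map of spaces of dimension three, so injective, and `e ≠ 0`. -/
def St_Nlk : Prop := ∀ (𝓐 𝓑 : Type) [Ring 𝓐] [Algebra ℂ 𝓐] [Ring 𝓑] [Algebra ℂ 𝓑]
  (W : Submodule ℂ 𝓐) (c : 𝓐 →ₗ[ℂ] 𝓑) (G : Submodule ℂ 𝓑) [FiniteDimensional ℂ G], Smp G →
  (∀ X ∈ W, ∀ Y ∈ W, X * Y - Y * X ∈ W) → Bra W c → (∀ X ∈ W, c X ∈ G) →
  (∀ Z ∈ G, ∃ X ∈ W, c X = Z) →
  (∀ (𝓒 : Type) [Ring 𝓒] [Algebra ℂ 𝓒] (d : 𝓐 →ₗ[ℂ] 𝓒), Bra W d →
    ((∀ X ∈ W, ∀ Y ∈ W, d X * d Y = d Y * d X) ∨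
      (∃ E : Submodule ℂ 𝓒, FiniteDimensional ℂ E ∧ (∀ X ∈ W, d X ∈ E) ∧
        finrank ℂ E < finrank ℂ G) ∨
      (∃ E : Submodule ℂ 𝓒, FiniteDimensional ℂ E ∧ Smp E ∧ (∀ X ∈ W, d X ∈ E) ∧
        (∀ Z ∈ E, ∃ X ∈ W, d X = Z) ∧ finrank ℂ E ≠ finrank ℂ G)) →
    ∃ X ∈ W, d X = 0 ∧ c X ≠ 0) ∧
  ∀ (d : 𝓐 →ₗ[ℂ] Matrix (Fin 2) (Fin 2) ℂ) (θ : 𝓐 → 𝓐) (k : 𝓑 → 𝓑), Bra W d →
    (∀ X ∈ W, (d X).trace = 0) → 3 ≤ finrank ℂ G → (∀ X ∈ W, θ X ∈ W) →
    (∀ X ∈ W, d (θ X) = (d X).map conj) → (∀ X ∈ W, c (θ X) = k (c X)) →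
    (∀ Z ∈ G, ∀ Z' ∈ G, k Z = Z → k Z' = Z' → Z' * Z - Z * Z' = (2 : ℂ) • Z → Z = 0) →
    ∃ X ∈ W, d X = 0 ∧ c X ≠ 0

/-! ### Part S2: families -/

section defs

variable {κ : Type} [Fintype κ] [DecidableEq κ] {ϖ : ℂ}

/-- the sum of planes with real bases, stable under the endomorphisms commuting with the de
Rham-Betti endomorphisms -/
def RmS (P : PData κ ϖ) : Prop :=
  ∃ (N : ℕ) (u : Fin N → Fin 2 → (κ → ℂ)), (∀ a, LinearIndependent ℂ (u a)) ∧
    (∀ a b, TwistE.twV P (starRingAut : ℂ ≃+* ℂ) (u a b) = u a b) ∧ (∀ a, P.ψ (u a 0) (u a 1) ≠ 0) ∧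
    (∀ X : Module.End ℂ (κ → ℂ), (∀ f, IsDRB P P f → ∀ v, X (f v) = f (X v)) →
      ∀ a b, X (u a b) ∈ Submodule.span ℂ (Set.range (u a))) ∧
    ∀ v, v ∈ Submodule.span ℂ {w : κ → ℂ | ∃ a b, w = u a b}

end defs

/-- real places, with a definite place if `m ≤ 4` -/
def RePl {K : Type} [Field K] [NumberField K] {m : ℕ} (h : Matrix (Fin m) (Fin m) K)
    (σ₀ : K →+* ℂ) : Prop :=
  (∀ σ : K →+* ℂ, cj σ = σ) ∧ (Sig2 (CoreR.GR h σ₀) ∨ Sig2 (-(CoreR.GR h σ₀))) ∧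
    (∀ σ : K →+* ℂ, σ ≠ σ₀ → Definite (h.map (cj σ))) ∧ 3 ≤ m ∧ m ≠ 5 ∧
    (m ≤ 4 → ∃ σ : K →+* ℂ, σ ≠ σ₀)

/-- complex places -/
def CoPl {K : Type} [Field K] [NumberField K] {m : ℕ} (h : Matrix (Fin m) (Fin m) K)
    (σ₀ : K →+* ℂ) : Prop :=
  (∀ σ : K →+* ℂ, cj σ ≠ σ) ∧ (Lorentz (h.map (cj σ₀)) ∨ Lorentz (-(h.map (cj σ₀)))) ∧
    (∀ σ : K →+* ℂ, σ ≠ σ₀ → σ ≠ cj σ₀ → Definite (h.map (cj σ))) ∧ 0 < m ∧ Even m

section fam

variable {I J : Type} [Fintype I] [DecidableEq I] [Fintype J] [DecidableEq J] (e : I → J)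
  (n : J → ℕ) {κ : J → Type} [∀ j, Fintype (κ j)] [∀ j, DecidableEq (κ j)] {ϖ : ℂ}
  (P : ∀ j, PData (κ j) ϖ) {K : I → Type} [∀ i, Field (K i)] [∀ i, NumberField (K i)] {m : I → ℕ}
  (h : ∀ i, Matrix (Fin (m i)) (Fin (m i)) (K i))
  (t : ∀ i, Fin (m i) → K i → Module.End ℂ (κ (e i) → ℂ)) {k : ℕ}
  (γ : MultilinearMap ℂ (fun _ : Fin (2 * k) => HW κ n) ℂ) (σ₀ : ∀ i, K i →+* ℂ)

/-- the condition on the other abelian varieties -/
def SpK (j : J) : Prop :=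
  (∀ X Y : Module.End ℂ (κ j → ℂ), (∀ f, IsDRB (P j) (P j) f → ∀ v, X (f v) = f (X v)) →
    (∀ f, IsDRB (P j) (P j) f → ∀ v, Y (f v) = f (Y v)) → X * Y = Y * X) ∨
  RmS (P j) ∨
  (Fintype.card (κ j) = 4 ∧ ∀ Z ∈ SP (P j).ψ, ∃ X : GG κ, IsInv n P γ X ∧ X.2 = 0 ∧ X.1 j = Z)

/-- a family of Kuga-Satake structures on the `A_(e i)`, a Grothendieck form `γ` which controls the
action on the Clifford modules, a set `T₀` of indices `i` which contains all `i` of real type, the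
condition on the dimensions of the Lie algebras, and the condition on the other abelian varieties -/
structure FamZ (T₀ : I → Prop) (c : ∀ i, K i →+* K i) : Prop where
  pi : ϖ ≠ 0
  S : ∀ i, MD (P (e i)) (c i) (h i) (t i)
  B : ∀ v : Fin (2 * k) → HW κ n, (∀ r, IsRatP n P (v r)) → ∃ q : ℚ, γ v = ϖ ^ k * q
  A : ∀ v : Fin (2 * k) → HW κ n, (∀ r i m j, IsAlgebraic ℚ (v r i m j)) → IsAlgebraic ℚ (γ v)
  nd : ∀ i, HNd (P (e i))
  ne : ∀ i, Nonempty (κ (e i))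
  T : ∀ X : GG κ, IsInv n P γ X → ∀ i, ∃ M, ActM (t i) (X.1 (e i)) M
  Tg : ∀ g : (j : J) → Module.End ℂ (κ j → ℂ), IsGrp n P γ g → ∀ i,
    ∃ A : (K i →+* ℂ) → Matrix (Fin (m i)) (Fin (m i)) ℂ, ∀ σ x,
      g (e i) * tau (ts (t i) σ) x = tau (ts (t i) σ) (A σ *ᵥ x) * g (e i)
  inj : Function.Injective e
  typ : ∀ i, (T₀ i ∧ RePl (h i) (σ₀ i)) ∨ CoPl (h i) (σ₀ i)
  two : ∀ i, T₀ i → CoPl (h i) (σ₀ i) → m i = 2 →
    ∃ σ : K i →+* ℂ, σ ≠ σ₀ i ∧ σ ≠ cj (σ₀ i)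
  dR : ∀ i i', T₀ i → ¬ T₀ i' → RePl (h i) (σ₀ i) →
    m i * m i + 2 ≠ 2 * (m i' * m i') + m i ∧ ¬ (m i = 4 ∧ m i' = 2)
  dC : ∀ i i', T₀ i → ¬ T₀ i' → CoPl (h i) (σ₀ i) → m i ≠ m i'
  sp : ∀ j, (∀ i, e i ≠ j) → SpK n P γ j

end fam

open Classical in
/-- the Lie algebra at a place -/
noncomputable def Lg {K : Type} [Field K] [NumberField K] {m : ℕ} (h : Matrix (Fin m) (Fin m) K)
    (σ : K →+* ℂ) : Submodule ℂ (Matrix (Fin m) (Fin m) ℂ) :=
  if cj σ = σ then SO (h.map σ) else SL m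

/-- the part of trace zero -/
noncomputable def trz {m : ℕ} (Z : Matrix (Fin m) (Fin m) ℂ) : Matrix (Fin m) (Fin m) ℂ :=
  Z - (Z.trace / m) • 1

/-- **PRJ** (helper64; from `St_Sso`, `St_Ssl`, `St_Ssp`, `St_Ssh`, `St_Spy`, `St_Nlk`).  Every element
of the Lie algebra at a place of an `i` in `T₀` comes from a symmetry without multiplier which is zero
on all other abelian varieties (also on the `A_(e i')`, `i'` not in `T₀`).
PROOF.  Let `𝓐 = GG κ × (∀ i, (K i →+* ℂ) → Matrix _ _ ℂ)`, `W` the space of the `(X, M)`, `X` a symmetry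
(`IsInv n P γ X`), `X.2 = 0`, `ActM (t i) (X.1 (e i)) (M i)` for all `i` (`SkewM` follows: `ActM.skew`).
(0) The statement for `σ` implies the statement for `τ ∘ σ`, `τ` an automorphism of `ℂ`: `tw P τ X`
(`isInv_tw`, `tw_snd`), `twM τ (M i)` (`KSW.actM_tw`), `X.1 j = 0` implies `(tw P τ X).1 j = 0` (`twV_tw`), and
`Lg` is compatible.  By `exists_aut` it is enough to prove it for one place `σ` of `K i`: a definite
place if there is one (`σ ≠ σ₀ i`, and `σ ≠ cj (σ₀ i)` in the complex case), otherwise any place.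
(1) Onto: for `Z ∈ Lg` there is `(X, M) ∈ W` with `M i σ = Z`: real `i`: `KSW.core_at` for the subfamily of
the real `i` (the index map `e` restricted to it); complex `i`: `KSE.coreC` (at `σ₀ i`) for the single index
`e i` of the family `P`, and `tw` (the conditions `hT`, `hTg` from `T`, `Tg`).
(2) `St_Spy` for the place `(i, σ)`: `Q = Unit` (`Bool` for real `i` with `m i = 4`, with `p` of `St_Ssh`),
`c (X, M) = trz (M i σ)` (`= M i σ` in the real case), resp. `p b (M i σ)`, `G = Lg`, resp. the halves.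
Index set `S` of the spectators: `(i', σ')` for `i'` not in `T₀` (complex, `m i'` even, `≥ 2`): `N` is the
set of the `(X, M) ∈ W` with `trz (M i' σ') = 0`, `St_Nlk` (3) with `E = SL (m i')` (onto by (1)), dimension
`(m i')² - 1` against `m (m - 1) / 2`, `3` (if `m i = 4`), resp. `m² - 1`: `dR`, `dC`.  For `j` not of the form
`e i`, by `SpK`: commuting: `N = {X.1 j = 0}`, `St_Nlk` (1); generic surface: `N = {X.1 j = 0}`, `St_Nlk` (3)
with `E = SP (P j).ψ` (`IsInv.pol`), dimension `10` (`m ≠ 5`; `10 + 1` is not a square); `RmS`: for every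
plane `a` the set `N` of the `(X, M)` with `X.1 j (u a b) = 0` for `b = 0, 1`, `d` the matrix of `X.1 j` in
the basis `u a`, trace zero by `ψ (u a 0) (u a 1) ≠ 0`, so in `SL 2`, dimension `3`: `St_Nlk` (2) if
`3 < finrank G`; otherwise (real `m = 3, 4`; complex `m = 2`) `σ` is a definite place, `St_Nlk` (4) with
`θ (X, M) = (tw P starRingAut X, twM starRingAut M)`, `k Z = Z.map conj` in the real case (`cj σ = σ`; the
last property of `St_Ssh`), `k Z = - (h.map (cj σ))⁻¹ .. ` in the complex case (`M (cj σ)` from `M σ` by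
`SkewM`), and compactness: if `k Z = Z`, `k Z' = Z'`, `[Z', Z] = 2 Z`, then `2 tr (Z²) = tr ([Z', Z] Z) = 0`,
and `tr (Z²) = - ∑ ..` for the definite Hermitian form: `hf H (Z u) v = - hf H u (Z v)`, so `-Z²` is
positive semidefinite self-adjoint with trace `0`, so `hf H (Z u) (Z u) = 0`, `Z = 0`.
(3) For `Z ∈ Lg` take `X` in (1) with `M i σ = Z`; `St_Spy` gives `Y` in the span of the brackets of
elements in all `N`; so `Y.1 j = 0` for the `j` not of the form `e i`, and for `i'` not in `T₀` the matrices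
`M i' σ'` of `Y` are of trace zero (brackets) and scalar, so zero, and `Y.1 (e i') = 0` by `mem_bvE`,
`eq_of_act`; `M i σ` of `Y` is `Z` (trace zero; for `m i = 4` the sum of the halves). -/
def St_Prj : Prop := ∀ (I J : Type) [Fintype I] [DecidableEq I] [Fintype J] [DecidableEq J]
  (e : I → J) (n : J → ℕ) (κ : J → Type) [∀ j, Fintype (κ j)] [∀ j, DecidableEq (κ j)] (ϖ : ℂ)
  (P : ∀ j, PData (κ j) ϖ) (K : I → Type) [∀ i, Field (K i)] [∀ i, NumberField (K i)]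
  (c : ∀ i, K i →+* K i) (m : I → ℕ) (h : ∀ i, Matrix (Fin (m i)) (Fin (m i)) (K i))
  (t : ∀ i, Fin (m i) → K i → Module.End ℂ (κ (e i) → ℂ)) (k : ℕ)
  (γ : MultilinearMap ℂ (fun _ : Fin (2 * k) => HW κ n) ℂ) (σ₀ : ∀ i, K i →+* ℂ) (T₀ : I → Prop),
  FamZ e n P h t γ σ₀ T₀ c → ∀ i, T₀ i → ∀ (σ : K i →+* ℂ), ∀ Z ∈ Lg (h i) σ,
  ∃ (X : GG κ) (M : ∀ i, (K i →+* ℂ) → Matrix (Fin (m i)) (Fin (m i)) ℂ),
    IsInv n P γ X ∧ X.2 = 0 ∧ (∀ i', ActM (t i') (X.1 (e i')) (M i')) ∧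
    (∀ j, (∀ i', T₀ i' → e i' ≠ j) → X.1 j = 0) ∧ M i σ = Z

/-- **ABY** (helper63; from `St_Prj`, `St_Spz`, `St_Sso`, `St_Ssl`, `St_Ssh`).  For every symmetry there is
one with the same trace-zero part on the `A_(e i)`, `i` in `T₀`, and zero on all other abelian
varieties. -/
def St_Aby : Prop := ∀ (I J : Type) [Fintype I] [DecidableEq I] [Fintype J] [DecidableEq J]
  (e : I → J) (n : J → ℕ) (κ : J → Type) [∀ j, Fintype (κ j)] [∀ j, DecidableEq (κ j)] (ϖ : ℂ)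
  (P : ∀ j, PData (κ j) ϖ) (K : I → Type) [∀ i, Field (K i)] [∀ i, NumberField (K i)]
  (c : ∀ i, K i →+* K i) (m : I → ℕ) (h : ∀ i, Matrix (Fin (m i)) (Fin (m i)) (K i))
  (t : ∀ i, Fin (m i) → K i → Module.End ℂ (κ (e i) → ℂ)) (k : ℕ)
  (γ : MultilinearMap ℂ (fun _ : Fin (2 * k) => HW κ n) ℂ) (σ₀ : ∀ i, K i →+* ℂ) (T₀ : I → Prop),
  FamZ e n P h t γ σ₀ T₀ c → ∀ (X : GG κ)
  (M : ∀ i, (K i →+* ℂ) → Matrix (Fin (m i)) (Fin (m i)) ℂ), IsInv n P γ X → X.2 = 0 →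
  (∀ i, ActM (t i) (X.1 (e i)) (M i)) →
  ∃ Y : GG κ, IsInv n P γ Y ∧ Y.2 = 0 ∧ (∀ j, (∀ i', T₀ i' → e i' ≠ j) → Y.1 j = 0) ∧
    ∀ i, T₀ i → Y.1 (e i) ∈ bvS (t i) ∧ ActM (t i) (Y.1 (e i)) (fun σ => trz (M i σ))

/-- **RMU** (helper26).  PROOF.  As `thm_Eig` (`Pool/Agent/KTW/Eig.lean`): the eigenspaces of the
embeddings of `K` are planes, stable under complex conjugation in the rational basis (the embeddings are
real), so they have real bases; `ψ` is nondegenerate on each of them. -/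
def St_Rmu : Prop := ∀ (C : AbVar) (K : Type) [Field K] [NumberField K], IsRMType C K →
  RmS (pData C)

/-- **GSF** (helper26).  At a generic surface the symmetries act by all skew operators.  PROOF.  As
`KSV.thm_Hall5` (`Pool/Agent/KSV/Hall5.lean`) with `κ' = κ j`, `f = g = id`: `KSV.St_D4`, `KSV.St_Ex3`,
`KT.thm_KT`; the irreducibility because every rational endomorphism which commutes with the comparison
operators is a scalar (see `D5/Irr.lean`, `Helper7/HU`). -/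
def St_Gsf : Prop := ∀ {J : Type} [Fintype J] [DecidableEq J] (D : J → AbVar) (n : J → ℕ) (k : ℕ)
  (γ : MultilinearMap ℂ (fun _ : Fin (2 * k) => HW (fun j => Fin (D j).g ⊕ Fin (D j).g) n) ℂ),
  (∀ v : Fin (2 * k) → HW (fun j => Fin (D j).g ⊕ Fin (D j).g) n,
    (∀ r, IsRatP n (fun j => pData (D j)) (v r)) →
      ∃ q : ℚ, γ v = (2 * Real.pi * Complex.I) ^ k * q) →
  (∀ v : Fin (2 * k) → HW (fun j => Fin (D j).g ⊕ Fin (D j).g) n,
    (∀ r i m j, IsAlgebraic ℚ (v r i m j)) → IsAlgebraic ℚ (γ v)) →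
  ∀ j, (D j).IsGenericSurface → ∀ Z ∈ SP (pData (D j)).ψ,
    ∃ X : GG (fun j => Fin (D j).g ⊕ Fin (D j).g),
      IsInv n (fun j => pData (D j)) γ X ∧ X.2 = 0 ∧ X.1 j = Z

/-- **KLY** (helper63; from `St_Aby`, `St_Rmu`, `St_Gsf`).  The comparison operators, zero on the `A_i`
of complex type and on the `D_j`, kill all Grothendieck forms. -/
def St_Kly : Prop := ∀ {I I' J : Type} [Fintype I] [DecidableEq I] [Fintype I'] [DecidableEq I']
  [Fintype J] [DecidableEq J] (A : I → AbVar) (A' : I' → AbVar) (D : J → AbVar)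
  {K : I → Type} [∀ i, Field (K i)] [∀ i, NumberField (K i)] {c : ∀ i, K i →+* K i} {m : I → ℕ}
  (S : ∀ i, (A i).KugaSatakeMul (K i) (c i) (m i))
  {K' : I' → Type} [∀ i, Field (K' i)] [∀ i, NumberField (K' i)] {c' : ∀ i, K' i →+* K' i}
  {m' : I' → ℕ} (S' : ∀ i, (A' i).KugaSatakeMul (K' i) (c' i) (m' i)),
  (∀ i, (A i).g ≠ 0) → (∀ i, (A' i).g ≠ 0) → (∀ i, (S i).IsLargeR) → (∀ i, (S' i).IsLargeC) →
  (∀ i i', m i * m i + 2 ≠ 2 * (m' i' * m' i') + m i ∧ ¬ (m i = 4 ∧ m' i' = 2)) →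
  IsElementary D → ∀ n : I ⊕ (I' ⊕ J) → ℕ,
  KillN (κ := fun j => Fin (Sum.elim A (Sum.elim A' D) j).g ⊕
    Fin (Sum.elim A (Sum.elim A' D) j).g) Sum.inl n (fun j => pData (Sum.elim A (Sum.elim A' D) j))

/-- **SLX** (helper63; from `St_Aby`, `St_Rmu`, `St_Gsf`).  The operators of trace-zero families on one
`A_i` of complex type, zero on everything else, kill all Grothendieck forms. -/
def St_Slx : Prop := ∀ {I J : Type} [Fintype I] [DecidableEq I] [Fintype J] [DecidableEq J]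
  (A : I → AbVar) (D : J → AbVar) {K : I → Type} [∀ i, Field (K i)] [∀ i, NumberField (K i)]
  {c : ∀ i, K i →+* K i} {m : I → ℕ} (S : ∀ i, (A i).KugaSatakeMul (K i) (c i) (m i)),
  (∀ i, (A i).g ≠ 0) → (∀ i, (S i).IsLargeC) → (∀ i i', i ≠ i' → m i ≠ m i') → IsElementary D →
  ∀ (i : I) (M : (K i →+* ℂ) → Matrix (Fin (m i)) (Fin (m i)) ℂ) (Z : Module.End ℂ (A i).H1),
  Z ∈ bvS (lt (A i) (S i)) → ActM (lt (A i) (S i)) Z M → (∀ σ, (M σ).trace = 0) →
  ∀ (Z' : ∀ j : I ⊕ J, Module.End ℂ (Sum.elim A D j).H1), Z' (Sum.inl i) = Z →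
  (∀ j, j ≠ Sum.inl i → Z' j = 0) → ∀ n : I ⊕ J → ℕ,
  KillZ (κ := fun j => Fin (Sum.elim A D j).g ⊕ Fin (Sum.elim A D j).g)
    (fun j => pData (Sum.elim A D j)) Z' n

/-! ### Part E: elementary abelian varieties -/

/-- the vectors in `V` are combinations of images of morphisms from elementary abelian varieties -/
def BasicPart (A : AbVar) (V : A.H1 → Prop) : Prop :=
  ∃ (X : Type) (_ : Fintype X) (B : X → AbVar), (∀ x, (B x).IsBasic) ∧
    ∀ v, V v → v ∈ Submodule.span ℂ {w : A.H1 | ∃ x f u, (B x).IsMor A f ∧ w = f u}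

/-- **ENL** (helper39).  PROOF.  Add one `B x` at a time (induction on `Fintype X`, or on a list): if there
is `l` and a morphism `f ≠ 0` between `D l` and `B x` (in one of the directions), it is bijective (both are
simple: `bijective_of_simple`, `exists_inv_mor`), and `B x` is a quotient of `D`; otherwise take
`Option L` (or `L ⊕ Unit`).  `IsQuotientOf` is transitive (`isMor_comp`). -/
def St_Enl : Prop := ∀ (L : Type) [Fintype L] (D : L → AbVar), IsElementary D →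
  ∀ (X : Type) [Fintype X] (B : X → AbVar), (∀ x, (B x).IsBasic) →
  ∃ (L' : Type) (_ : Fintype L') (_ : DecidableEq L') (D' : L' → AbVar), IsElementary D' ∧
    (∀ l, (D l).IsQuotientOf D') ∧ ∀ x, (B x).IsQuotientOf D'

/-- **QRM**.  Simple abelian varieties whose endomorphisms are the commutant of a quaternion algebra.
`x, y` generate a quaternion algebra, `z` is in the centre.
PROOF.  `GPC.simple_cases` (`Helper71/AF/Cases.lean`).  `z` is an endomorphism, it commutes with all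
endomorphisms and it is symmetric, so in each case `z` is in (the real part of) `K`.  Let `K₀ = K` in the
real case, the real subfield (`cmConj K w = w`) otherwise, `Vσ` the eigenspace of `σ : K₀ → ℂ` (or of `K`
in the real case) in `H_1`; on `Vσ` the operators `x, y` satisfy `x² = a`, `y² = b`, `x y = - y x`, so
`dim Vσ = 2 u` and the commutant of `x, y` in `End Vσ` has dimension `u²`.  The complex span of the
endomorphisms commuting with `K₀` is the commutant of `x, y, z, K₀` (linear equations with rational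
coefficients), so its dimension over `ℂ` is `[K₀ : ℚ] u²`; it is `[K : ℚ]` in the first two cases,
`2 [K : ℚ]` in the quaternion case.  So `u = 1` in the real case (then `dim B = [K : ℚ]`: RM type),
`u² = 2` in the Hermitian case (impossible), `u = 2` in the quaternion case, then `dim B = [K : ℚ]`, which
is impossible by `quat_rank`. -/
def St_Qrm : Prop := ∀ B : AbVar, B.IsSimple → B.g ≠ 0 → ∀ (x y z : Module.End ℂ B.H1) (a b : ℚ),
  a ≠ 0 → b ≠ 0 → x * x = (a : ℂ) • 1 → y * y = (b : ℂ) • 1 → x * y = -(y * x) → x * z = z * x →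
  y * z = z * y → (∀ u v, B.pol (z u) v = B.pol u (z v)) → (∀ v, B.IsBetti v → B.IsBetti (x v)) →
  (∀ v, B.IsBetti v → B.IsBetti (y v)) → (∀ v, B.IsBetti v → B.IsBetti (z v)) →
  (∀ f : B.H1 → B.H1, B.IsEnd f ↔ IsLinearMap ℂ f ∧ (∀ v, B.IsBetti v → B.IsBetti (f v)) ∧
    (∀ v, f (x v) = x (f v)) ∧ (∀ v, f (y v) = y (f v)) ∧ ∀ v, f (z v) = z (f v)) →
  ∃ (K : Type) (_ : Field K) (_ : NumberField K), IsRMType B K

/-- **RQT** (from `St_Qrm`).  `K = ℚ`, `m = 3, 4`.  PROOF.  `exists_decomp` (`Helper39/AF/Decomp.lean`): the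
simple factors `B` with `ι : B → A`, and `π : A → B`, `π ι = 1` (from the isogeny, or `exists_sdecomp`).  Take
an orthogonal basis of `T` (rational), `x = e₁ e₂`, `y = e₂ e₃`, `z = e₁ e₂ e₃ e₄` (`m = 4`), `z = 0` (`m = 3`);
they commute with the endomorphisms of `A` (`endo`), so they act on `B` (`π x ι`); the endomorphisms of
`B` are the rational operators commuting with them (`f ↦ ι f π`).  The `e_a e_b` (`a ≠ b`) are skew for
the polarization (they kill all Grothendieck forms: `KTP.thm_Kil` or `KSW.core_at`), so `z` is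
symmetric. -/
def St_Rqt : Prop := ∀ (A : AbVar) (K : Type) [Field K] [NumberField K] (c : K →+* K) (m : ℕ)
  (_ : A.KugaSatakeMul K c m), c = RingHom.id K → finrank ℚ K = 1 → (m = 3 ∨ m = 4) →
  BasicPart A fun _ => True

/-- **BSP**.  PROOF.  `H_1` is of finite dimension: choose a finite part of the generators
(`exists_linearIndependent`). -/
def St_Bsp : Prop := ∀ (A : AbVar) (V : A.H1 → Prop),
  (∀ v, V v → v ∈ Submodule.span ℂ {w : A.H1 | ∃ (B : AbVar) (f : B.H1 → A.H1) (u : B.H1),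
    B.IsBasic ∧ B.IsMor A f ∧ w = f u}) → BasicPart A V

/-- **CMO** (from `St_Cmp` of `StU.lean`, `St_Bsp`).  `m = 1`.  PROOF.  `e σ e (cj σ) + e (cj σ) e σ = 2 σ(h)`, `e σ e σ = 0`: every
vector is a sum of vectors as in `St_Cmp` (product of the projectors for one `σ` of each pair). -/
def St_Cmo : Prop := ∀ (A : AbVar) (K : Type) [Field K] [NumberField K] (c : K →+* K)
  (_ : A.KugaSatakeMul K c 1), c ≠ RingHom.id K → IsAbelianGalois ℚ K → BasicPart A fun _ => True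

/-- **IQT** (from `St_Qrm`, `St_Cmp` of `StU.lean`, `St_Bsp`).  `K` imaginary quadratic, `m = 2`.  PROOF.  `H_1(A, ℂ)` is the sum of
the eigenspaces `0, 1, 2` of the number operator at `σ`; the first and the last are in the part of
`St_Cmp`.  Let `B` be a simple factor in the middle part (the rational endomorphism `√-d (N - 1)` of `A`
decomposes `A`).  With an orthogonal basis of the Hermitian space `T`: `x = √-d (n₁ - n₂)`,
`y = e_(σ,1) e_(cj σ,2) + e_(cj σ,1) e_(σ,2)`, `z = 0` on the middle part: `x²`, `y²` are rational scalars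
there, `x y = - y x`, and the products of the `e_(σ,a)`, `e_(cj σ,b)` act on it through `1, x, y, x y`
(over `ℂ`). -/
def St_Iqt : Prop := ∀ (A : AbVar) (K : Type) [Field K] [NumberField K] (c : K →+* K)
  (_ : A.KugaSatakeMul K c 2), c ≠ RingHom.id K → finrank ℚ K = 2 → BasicPart A fun _ => True

/-! ### Part R: real fields -/

/-- **KLR** (helper86, in `Pool/Agent/KQ4/`).  Real fields, `m ≥ 3`, also `m = 4`.  -/
def St_Klr : Prop := ∀ {I : Type} [Fintype I] [DecidableEq I] (A : I → AbVar) {K : I → Type}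
  [∀ i, Field (K i)] [∀ i, NumberField (K i)] {c : ∀ i, K i →+* K i} {m : I → ℕ}
  (S : ∀ i, (A i).KugaSatakeMul (K i) (c i) (m i)), (∀ i, (A i).g ≠ 0) → (∀ i, Adm (S i)) →
  (∀ i, c i = RingHom.id (K i)) →
  ∀ n : I → ℕ, KillZ (fun i => pData (A i)) (fun i => (1 / 2 : ℂ) • 1 - hod (A i)) n

/-! ### Part A: assembly -/

/-- **EXT** (helper63).  KillZ for a family implies KillZ for a subfamily. -/
def St_Ext : Prop := ∀ (I J : Type) [Fintype I] [DecidableEq I] [Fintype J] [DecidableEq J]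
  (e : I → J), Function.Injective e → ∀ (κ : J → Type) [∀ j, Fintype (κ j)]
  [∀ j, DecidableEq (κ j)] (ϖ : ℂ) (P : ∀ j, PData (κ j) ϖ)
  (Z : ∀ j, Module.End ℂ (κ j → ℂ)), (∀ n, KillZ P Z n) →
  ∀ n, KillZ (fun i => P (e i)) (fun i => Z (e i)) n

/-- **ASV** (helper63; from `St_Kly`, `St_Slx`, `St_Ceu`, `St_Klr`, `St_Syn`, `St_Rel`).  The generating family. -/
def St_Asv : Prop := ∀ {I I' J : Type} [Fintype I] [DecidableEq I] [Fintype I'] [DecidableEq I']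
  [Fintype J] [DecidableEq J] (A : I → AbVar) (A' : I' → AbVar) (D : J → AbVar)
  {K : I → Type} [∀ i, Field (K i)] [∀ i, NumberField (K i)] {c : ∀ i, K i →+* K i} {m : I → ℕ}
  (S : ∀ i, (A i).KugaSatakeMul (K i) (c i) (m i))
  {K' : I' → Type} [∀ i, Field (K' i)] [∀ i, NumberField (K' i)] {c' : ∀ i, K' i →+* K' i}
  {m' : I' → ℕ} (S' : ∀ i, (A' i).KugaSatakeMul (K' i) (c' i) (m' i)),
  (∀ i, (A i).g ≠ 0) → (∀ i, (A' i).g ≠ 0) → (∀ i, (S i).IsLargeR) → (∀ i, (S' i).IsLargeC) →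
  (∀ i i', m i * m i + 2 ≠ 2 * (m' i' * m' i') + m i ∧ ¬ (m i = 4 ∧ m' i' = 2)) →
  (∀ i i', i ≠ i' → m' i ≠ m' i') → IsElementary D →
  (∀ i v, (∀ σ : K' i →+* ℂ, (∀ a, (S' i).e σ a v = 0) ∨
      ∀ a, (S' i).e (ComplexEmbedding.conjugate σ) a v = 0) →
    v ∈ Submodule.span ℂ {w : (A' i).H1 | ∃ j f u, (D j).IsMor (A' i) f ∧ w = f u}) →
  ∀ n : I ⊕ (I' ⊕ J) → ℕ, KillZ (κ := fun j => Fin (Sum.elim A (Sum.elim A' D) j).g ⊕
    Fin (Sum.elim A (Sum.elim A' D) j).g) (fun j => pData (Sum.elim A (Sum.elim A' D) j))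
    (fun j => (1 / 2 : ℂ) • 1 - hod (Sum.elim A (Sum.elim A' D) j)) n

/-- two `T_i` whose Lie algebras may be linked -/
def Clash {K K' : Type} [Field K] [Field K'] (c : K →+* K) (c' : K' →+* K') (m m' : ℕ) : Prop :=
  c' ≠ RingHom.id K' ∧ ((c = RingHom.id K ∧
      (m * m + 2 = 2 * (m' * m') + m ∨ (m = 4 ∧ m' = 2))) ∨ (c ≠ RingHom.id K ∧ m = m'))

/-- **ALV** (helper63; from `St_Asv`, `St_Trf`, `St_Ext`, `St_Enl`, `St_Rqt`, `St_Cmp`, `St_Cmo`,
`St_Iqt`).  The Hodge projectors kill all Grothendieck forms on products of the `A_i` and the `C_j`. -/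
def St_Alv : Prop := ∀ {I J L : Type} [Fintype I] [DecidableEq I] [Fintype J] [DecidableEq J]
  [Fintype L] (A : I → AbVar) (C : J → AbVar) (D : L → AbVar) {K : I → Type} [∀ i, Field (K i)]
  [∀ i, NumberField (K i)] {c : ∀ i, K i →+* K i} {m : I → ℕ}
  (S : ∀ i, (A i).KugaSatakeMul (K i) (c i) (m i)), (∀ i, (A i).g ≠ 0) → IsElementary D →
  (∀ j, (C j).IsQuotientOf D) →
  (∀ i, (A i).IsQuotientOf D ∨ (S i).IsSmall ∨ (S i).IsLargeR ∨ (S i).IsLargeC) →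
  (∀ i i', i ≠ i' → ¬ (A i).IsQuotientOf D → ¬ (S i).IsSmall → ¬ (A i').IsQuotientOf D →
    ¬ (S i').IsSmall → ¬ Clash (c i) (c i') (m i) (m i')) →
  ∀ n : I ⊕ J → ℕ, KillZ (κ := fun j => Fin (Sum.elim A C j).g ⊕ Fin (Sum.elim A C j).g)
    (fun j => pData (Sum.elim A C j)) (fun j => (1 / 2 : ℂ) • 1 - hod (Sum.elim A C j)) n

end Pool.Agent.KTW
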