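import Pool.Agent.KTW.Asx
import Pool.Agent.KTW.Hux
import Pool.Agent.KTW.StV
import Pool.Agent.KTW.Alv
import Pool.Agent.KTW.Trf

/-!
# KTW [Asw]: Grothendieck classes on `X × C`, assembly
-/

set_option autoImplicit false

namespace Pool.Agent.KTW

open Module Matrix NumberField Pool.Agent.Helper7 Pool.Agent.KS Pool.Agent.Ball Pool.Agent.KSE
  Pool.Agent.Helper28.GPC Pool.Agent.K3P Pool.Agent.KTP
open Pool.Agent.GPC (AbVar TC IsRatT qf df HU IsGrU Form IsBetti IsDeRham IsGrothendieck H1)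

/-- the same for forms in vectors of the `T_i` -/
theorem Asw_T (hMxn : St_Mxn) {I J : Type} [Fintype I] [DecidableEq I]
    [Fintype J] [DecidableEq J] (A : I → AbVar) (C : J → AbVar) {K : I → Type}
    [∀ i, Field (K i)] [∀ i, NumberField (K i)] {c : ∀ i, K i →+* K i} {m : I → ℕ}
    (S : ∀ i, (A i).KugaSatakeMul (K i) (c i) (m i)) (hg : ∀ i, (A i).g ≠ 0)
    (hKN : ∀ n : I ⊕ J → ℕ, KillN (κ := fun j => Fin (Sum.elim A C j).g ⊕
      Fin (Sum.elim A C j).g) Sum.inl n (fun j => pData (Sum.elim A C j)))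
    (n : ℕ) (l : J → ℕ) (p : ℕ)
    (F : MultilinearMap ℂ (fun _ : Fin n => TF K m) (Form C l (2 * p)))
    (hQ : ∀ (y : Fin n → ∀ i, Fin (m i) → K i) (w : Fin (2 * p) → H1 C l),
      (∀ s, IsBetti C l (w s)) →
        ∃ q : ℚ, F (fun s => embF (y s)) w = (2 * Real.pi * Complex.I) ^ p * q)
    (hA : ∀ (v : Fin n → TF K m) (w : Fin (2 * p) → H1 C l),
      (∀ s i, DR (lt (A i) (S i)) (v s i)) → (∀ s, IsDeRham C l (w s)) → IsAlgebraic ℚ (F v w))
    (v : Fin n → TF K m) (w : Fin (2 * p) → H1 C l) (hv : ∀ s i, DR (lt (A i) (S i)) (v s i))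
    (hw : ∀ s, IsBetti C l (w s)) :
    IsAlgebraic ℚ (F v w / (2 * Real.pi * Complex.I) ^ p) := by
  have hκ : ∀ i, Nonempty (Fin (A i).g ⊕ Fin (A i).g) :=
    fun i => ⟨Sum.inl ⟨0, Nat.pos_of_ne_zero (hg i)⟩⟩
  have hϖ := Complex.two_pi_I_ne_zero
  have hnd : ∀ i, (S i).h.det ≠ 0 := by
    intro i
    obtain ⟨σ₀, x, hx, -, -⟩ := (S i).hodge
    exact k3_nd (S i).conjugation (S i).hermitian hx
  have MM := fun i => mde (A i) (S i) (hnd i)
  have h1 := hMxn I (I ⊕ J) Sum.inl Sum.inl_injective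
    (fun j => Fin (Sum.elim A C j).g ⊕ Fin (Sum.elim A C j).g) hκ _
    (fun j => pData (Sum.elim A C j)) K c m (fun i => (S i).h) (fun i => lt (A i) (S i)) hϖ MM
    (Sum.elim (fun _ : I => 0) l) (fun _ => rfl)
    (hKN _) n p ((Ivw_m A C l (2 * p)).compMultilinearMap F)
    (by
      intro y w' hw'
      obtain ⟨r, hr⟩ := hQ y (fun s => Ivw_r A C l (w' s)) (fun s j a =>
        (mem_pData_Q _ _).mp (hw' s (Sum.inr j) a))
      exact ⟨r, hr⟩)
    (by
      intro v w' hv hw'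
      exact hA v (fun s => Ivw_r A C l (w' s)) hv fun s j a => hw' s (Sum.inr j) a)
    v (fun s j => match j with
      | Sum.inl _ => fun a => Fin.elim0 a
      | Sum.inr j => w s j) hv
    (by
      intro s j a
      rcases j with j | j
      · exact Fin.elim0 a
      · exact (mem_pData_Q _ _).mpr (hw s j a))
  exact h1

theorem Asw_hux (hMxn : St_Mxn) (hHtu : St_Htu) {I J : Type} [Fintype I] [DecidableEq I]
    [Fintype J] [DecidableEq J] (A : I → AbVar) (C : J → AbVar) {K : I → Type}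
    [∀ i, Field (K i)] [∀ i, NumberField (K i)] {c : ∀ i, K i →+* K i} {m : I → ℕ}
    (S : ∀ i, (A i).KugaSatakeMul (K i) (c i) (m i)) (hg : ∀ i, (A i).g ≠ 0)
    (hKN : ∀ n : I ⊕ J → ℕ, KillN (κ := fun j => Fin (Sum.elim A C j).g ⊕
      Fin (Sum.elim A C j).g) Sum.inl n (fun j => pData (Sum.elim A C j)))
    (r n : ℕ) (l : J → ℕ) (p : ℕ)
    (F : MultilinearMap ℂ (fun _ : Fin n => HU r K m) (Form C l (2 * p)))
    (h1 : ∀ (v : Fin n → HU r K m) (w : Fin (2 * p) → H1 C l),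
      (∀ s, (∀ a, ∃ q : ℚ, (v s).1 a = q) ∧ ∀ i, IsRatT ((v s).2 i)) → (∀ s, IsBetti C l (w s)) →
        ∃ q : ℚ, F v w = (2 * Real.pi * Complex.I) ^ p * q)
    (h2 : ∀ (v : Fin n → HU r K m) (w : Fin (2 * p) → H1 C l),
      (∀ s, (∀ a, IsAlgebraic ℚ ((v s).1 a)) ∧ ∀ i, (S i).IsDRT ((v s).2 i)) →
        (∀ s, IsDeRham C l (w s)) → IsAlgebraic ℚ (F v w))
    (v : Fin n → HU r K m) (w : Fin (2 * p) → H1 C l)
    (hv : ∀ s, (∀ a, IsAlgebraic ℚ ((v s).1 a)) ∧ ∀ i, (S i).IsDRT ((v s).2 i))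
    (hw : ∀ s, IsBetti C l (w s)) :
    IsAlgebraic ℚ (F v w / (2 * Real.pi * Complex.I) ^ p) := by
  obtain ⟨X, _, d, l', ε, i, G, hG, hF⟩ := hHtu (TF K m) (Form C l (2 * p)) r n F v
  have e1 : F v w = ∑ j, (∏ b, (v (ε j (.inr b))).1 (i j b)) *
      G j (fun a => (v (ε j (.inl a))).2) w := by
    have h3 := congrArg (fun α : Form C l (2 * p) => α w) hF
    rw [h3]
    show Hun_ev w (∑ j, (∏ b, (v (ε j (.inr b))).1 (i j b)) •
      G j (fun a => (v (ε j (.inl a))).2)) = _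
    rw [map_sum]
    rfl
  rw [e1, Finset.sum_div]
  refine asm_alg_sum _ _ fun j _ => ?_
  rw [mul_div_assoc]
  refine (asm_alg_prod _ _ fun b _ => (hv _).1 _).mul ?_
  refine Asw_T hMxn A C S hg hKN (d j) l p (G j) ?_ ?_ _ w
    (fun s i => (asm_dr (S i) _).mp ((hv _).2 i)) hw
  · intro y w hw
    rw [hG]
    refine h1 _ w (fun s => ?_) hw
    obtain ⟨t, rfl⟩ := (ε j).surjective s
    rw [Equiv.symm_apply_apply]
    rcases t with t | t
    · exact ⟨fun _ => ⟨0, by rw [Rat.cast_zero]; rfl⟩, fun i => ⟨y t i, fun _ _ => rfl⟩⟩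
    · refine ⟨fun a' => ?_, fun i' => ?_⟩
      · by_cases ha : a' = i j t
        · subst ha
          exact ⟨1, by
            show (Pi.single (i j t) 1 : Fin r → ℂ) (i j t) = _
            rw [Pi.single_eq_same, Rat.cast_one]⟩
        · exact ⟨0, by
            show (Pi.single (i j t) 1 : Fin r → ℂ) a' = _
            rw [Pi.single_eq_of_ne ha, Rat.cast_zero]⟩
      · refine ⟨0, fun σ l => ?_⟩
        rw [Pi.zero_apply, map_zero]
        rfl
  · intro y w hy hw
    rw [hG]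
    refine h2 _ w (fun s => ?_) hw
    obtain ⟨t, rfl⟩ := (ε j).surjective s
    rw [Equiv.symm_apply_apply]
    rcases t with t | t
    · exact ⟨fun _ => isAlgebraic_zero, fun i => (asm_dr (S i) _).mpr (hy t i)⟩
    · refine ⟨fun a' => ?_, fun i' => ?_⟩
      · by_cases ha : a' = i j t
        · subst ha
          show IsAlgebraic ℚ ((Pi.single (i j t) 1 : Fin r → ℂ) (i j t))
          rw [Pi.single_eq_same]
          exact isAlgebraic_one
        · show IsAlgebraic ℚ ((Pi.single (i j t) 1 : Fin r → ℂ) a')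
          rw [Pi.single_eq_of_ne ha]
          exact isAlgebraic_zero
      · show (S i').IsDRT 0
        rw [asm_dr]
        intro i'' j''
        have h3 : opT (lt (A i') (S i')) (0 : TC (K i') (m i')) = 0 := by
          rw [opT]
          exact Finset.sum_eq_zero fun σ _ => map_zero _
        rw [h3]
        exact isAlgebraic_zero

/-- the Grothendieck classes on `X × C` are sums of products -/
theorem thm_Asw (hMxn : St_Mxn) (hHtu : St_Htu) (hTns : St_Tns) (hSpn : St_Spn) {I J : Type}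
    [Fintype I] [DecidableEq I]
    [Fintype J] [DecidableEq J] (A : I → AbVar) (C : J → AbVar) {K : I → Type}
    [∀ i, Field (K i)] [∀ i, NumberField (K i)] {c : ∀ i, K i →+* K i} {m : I → ℕ}
    (S : ∀ i, (A i).KugaSatakeMul (K i) (c i) (m i)) (hg : ∀ i, (A i).g ≠ 0)
    (hKN : ∀ n : I ⊕ J → ℕ, KillN (κ := fun j => Fin (Sum.elim A C j).g ⊕
      Fin (Sum.elim A C j).g) Sum.inl n (fun j => pData (Sum.elim A C j)))
    (r n : ℕ) (l : J → ℕ) (p : ℕ)
    (F : MultilinearMap ℂ (fun _ : Fin n => HU r K m) (Form C l (2 * p))) :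
    ((∀ (v : Fin n → HU r K m) (w : Fin (2 * p) → H1 C l),
      (∀ s, (∀ a, ∃ q : ℚ, (v s).1 a = q) ∧ ∀ i, IsRatT ((v s).2 i)) →
        (∀ s, IsBetti C l (w s)) → ∃ q : ℚ, F v w = (2 * Real.pi * Complex.I) ^ p * q) ∧
      ∀ (v : Fin n → HU r K m) (w : Fin (2 * p) → H1 C l),
      (∀ s, (∀ a, IsAlgebraic ℚ ((v s).1 a)) ∧ ∀ i, (S i).IsDRT ((v s).2 i)) →
        (∀ s, IsDeRham C l (w s)) → IsAlgebraic ℚ (F v w)) ↔
    ∃ (N : ℕ) (G : Fin N → MultilinearMap ℂ (fun _ : Fin n => HU r K m) ℂ)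
      (γ : Fin N → Form C l (2 * p)),
      (∀ a, IsGrU S r n (G a) ∧ IsGrothendieck C l p (γ a)) ∧
      ∀ v w, F v w = ∑ a, G a v * γ a w := by
  have hϖ := Complex.two_pi_I_ne_zero
  have hϖp : (2 * Real.pi * Complex.I : ℂ) ^ p ≠ 0 := pow_ne_zero _ hϖ
  constructor
  · rintro ⟨h1, h2⟩
    obtain ⟨hQs, hDs⟩ := hSpn A S hg r
    obtain ⟨L, G, γ, hGB, hF, hγQ, hγD⟩ := hTns (HU r K m) (Form C l (2 * p))
      (fun v => (∀ a, ∃ p : ℚ, v.1 a = p) ∧ ∀ i, IsRatT (v.2 i))
      (fun v => (∀ a, IsAlgebraic ℚ (v.1 a)) ∧ ∀ i, (S i).IsDRT (v.2 i)) hQs hDs n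
      {G | IsGrU S r n G} (fun G hG v hv => hG.1 v hv) (fun G hG v hv => hG.2 v hv) F
      {φ | ∃ w : Fin (2 * p) → H1 C l, (∀ s, IsBetti C l (w s)) ∧ φ = Hun_ev w}
      (by
        intro x hx
        apply AlternatingMap.coe_multilinearMap_injective
        refine Inv_span _ _ (Asn_span C l) ?_
        intro w hw
        exact hx _ ⟨w, hw, rfl⟩)
      (by
        rintro _ ⟨w, hw, rfl⟩
        have h3 : (Hun_ev w).compMultilinearMap F = (2 * Real.pi * Complex.I : ℂ) ^ p •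
            (((2 * Real.pi * Complex.I : ℂ) ^ p)⁻¹ • (Hun_ev w).compMultilinearMap F) := by
          rw [smul_smul, mul_inv_cancel₀ hϖp, one_smul]
        rw [h3]
        refine Submodule.smul_mem _ _ (Submodule.subset_span ⟨fun v hv => ?_, fun v hv => ?_⟩)
        · obtain ⟨q, hq⟩ := h1 v w hv hw
          refine ⟨q, ?_⟩
          show ((2 * Real.pi * Complex.I : ℂ) ^ p)⁻¹ * F v w = q
          rw [hq, ← mul_assoc, inv_mul_cancel₀ hϖp, one_mul]
        · have h4 := Asw_hux hMxn hHtu A C S hg hKN r n l p F h1 h2 v w hv hw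
          show IsAlgebraic ℚ (((2 * Real.pi * Complex.I : ℂ) ^ p)⁻¹ * F v w)
          rw [mul_comm, ← div_eq_mul_inv]
          exact h4)
    refine ⟨L, G, γ, fun a => ⟨hGB a, ?_, ?_⟩, fun v w => ?_⟩
    · intro w hw
      obtain ⟨M, q, v, hq, hv, hγ⟩ := hγD a
      have e1 : γ a w = ∑ b, q b * F (v b) w := by
        rw [hγ]
        show Hun_ev w (∑ b, q b • F (v b)) = _
        rw [map_sum]
        rfl
      rw [e1]
      exact asm_alg_sum _ _ fun b _ => (hq b).mul (h2 _ _ (hv b) hw)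
    · intro w hw
      obtain ⟨M, q, v, hv, hγ⟩ := hγQ a
      have e1 : γ a w = ∑ b, (q b : ℂ) * F (v b) w := by
        rw [hγ]
        show Hun_ev w (∑ b, (q b : ℂ) • F (v b)) = _
        rw [map_sum]
        rfl
      choose s hs using fun b => h1 (v b) w (hv b) hw
      refine ⟨∑ b, q b * s b, ?_⟩
      rw [e1]
      push_cast
      rw [Finset.mul_sum]
      refine Finset.sum_congr rfl fun b _ => ?_
      rw [hs]
      ring
    · rw [hF]
      show Hun_ev w (∑ a, G a v • γ a) = _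
      rw [map_sum]
      rfl
  · rintro ⟨N, G, γ, hGγ, hF⟩
    constructor
    · intro v w hv hw
      choose s hs using fun a => (hGγ a).1.1 v hv
      choose s' hs' using fun a => (hGγ a).2.2 w hw
      refine ⟨∑ a, s a * s' a, ?_⟩
      rw [hF]
      push_cast
      rw [Finset.mul_sum]
      refine Finset.sum_congr rfl fun a _ => ?_
      rw [hs, hs']
      ring
    · intro v w hv hw
      rw [hF]
      exact asm_alg_sum _ _ fun a _ => ((hGγ a).1.2 v hv).mul ((hGγ a).2.1 w hw)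

/-- from one family to another one, along morphisms which commute with the operators -/
theorem Asw_trf (B J : Type) [Fintype B] [DecidableEq B] [Fintype J] [DecidableEq J]
    (κB : B → Type) [∀ j, Fintype (κB j)] [∀ j, DecidableEq (κB j)]
    (κ : J → Type) [∀ j, Fintype (κ j)] [∀ j, DecidableEq (κ j)] (ϖ : ℂ)
    (PB : ∀ j, PData (κB j) ϖ) (P : ∀ j, PData (κ j) ϖ) (ZB : ∀ j, Module.End ℂ (κB j → ℂ))
    (Z : ∀ j, Module.End ℂ (κ j → ℂ))
    (hspan : ∀ j, Submodule.span ℂ {v : κ j → ℂ | ∃ (i : B) (f : (κB i → ℂ) →ₗ[ℂ] (κ j → ℂ)),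
      IsDRB (PB i) (P j) f ∧ (∀ u, Z j (f u) = f (ZB i u)) ∧ ∃ u, v = f u} = ⊤)
    (hk : ∀ n, KillZ PB ZB n) (n : J → ℕ) : KillZ P Z n := by
  classical
  intro k α hQ hA
  refine Inv_span _ {w : HW κ n | ∃ (j : J) (a : Fin (n j)) (i : B)
    (f : (κB i → ℂ) →ₗ[ℂ] (κ j → ℂ)) (u : κB i → ℂ),
      (IsDRB (PB i) (P j) f ∧ ∀ u, Z j (f u) = f (ZB i u)) ∧ w = slot n j a (f u)} ?_ ?_
  · rw [eq_top_iff, ← (SBP n κ).span_eq, Submodule.span_le]
    rintro _ ⟨b, rfl⟩
    rw [SBP_apply]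
    have h1 : ∀ v : κ b.1 → ℂ, slot n b.1 b.2.1 v ∈ Submodule.span ℂ {w : HW κ n |
        ∃ (j : J) (a : Fin (n j)) (i : B) (f : (κB i → ℂ) →ₗ[ℂ] (κ j → ℂ)) (u : κB i → ℂ),
          (IsDRB (PB i) (P j) f ∧ ∀ u, Z j (f u) = f (ZB i u)) ∧ w = slot n j a (f u)} := by
      intro v
      have h2 : v ∈ Submodule.span ℂ {v : κ b.1 → ℂ | ∃ (i : B)
          (f : (κB i → ℂ) →ₗ[ℂ] (κ b.1 → ℂ)), IsDRB (PB i) (P b.1) f ∧
            (∀ u, Z b.1 (f u) = f (ZB i u)) ∧ ∃ u, v = f u} := by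
        rw [hspan b.1]
        exact Submodule.mem_top
      induction h2 using Submodule.span_induction with
      | mem x hx =>
        obtain ⟨i, f, hf, hf', u, rfl⟩ := hx
        exact Submodule.subset_span ⟨b.1, b.2.1, i, f, u, ⟨hf, hf'⟩, rfl⟩
      | zero =>
        rw [show slot n b.1 b.2.1 (0 : κ b.1 → ℂ) = 0 from (slotL n b.1 b.2.1).map_zero]
        exact Submodule.zero_mem _
      | add x y _ _ hx hy =>
        rw [slot_add]
        exact Submodule.add_mem _ hx hy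
      | smul c x _ hx =>
        rw [slot_smul]
        exact Submodule.smul_mem _ c hx
    exact h1 _
  · intro v hv
    choose j a i f u hf hvr using hv
    set Ψ : HW κB (fun _ : B => 2 * k) →ₗ[ℂ] HW κ n :=
      ∑ r : Fin (2 * k), (slotL n (j r) (a r)) ∘ₗ (f r) ∘ₗ
        (LinearMap.proj r : (Fin (2 * k) → κB (i r) → ℂ) →ₗ[ℂ] (κB (i r) → ℂ)) ∘ₗ
        (LinearMap.proj (i r) : HW κB (fun _ : B => 2 * k) →ₗ[ℂ] _) with hΨ
    have hΨa : ∀ w, Ψ w = ∑ r : Fin (2 * k), slot n (j r) (a r) (f r (w (i r) r)) := by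
      intro w
      rw [hΨ, LinearMap.sum_apply]
      rfl
    have hΨs : ∀ (r : Fin (2 * k)) (x : κB (i r) → ℂ),
        Ψ (slot (κ := κB) (fun _ : B => 2 * k) (i r) r x) =
          slot n (j r) (a r) (f r x) := by
      intro r x
      rw [hΨa, Finset.sum_eq_single r]
      · rw [Trf_slot_self]
      · intro s _ hs
        rw [Trf_slot_ne (κ := κB) hs, map_zero]
        exact (slotL n (j s) (a s)).map_zero
      · intro h
        exact absurd (Finset.mem_univ r) h
    have h0 := hk (fun _ => 2 * k) k (α.compLinearMap fun _ => Ψ) ?_ ?_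
    · have h1 := congrArg (fun G => G fun r => slot (κ := κB)
        (fun _ : B => 2 * k) (i r) r (u r)) h0
      simp only [actForm_apply, MultilinearMap.compLinearMap_apply, _root_.zero_apply] at h1
      rw [actForm_apply]
      rw [← h1]
      refine Finset.sum_congr rfl fun r _ => ?_
      congr 1
      funext s
      by_cases hs : s = r
      · subst hs
        rw [Function.update_self, Function.update_self, Trf_lift_slot, hΨs, hvr, Trf_lift_slot,
          (hf s).2]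
      · rw [Function.update_of_ne hs, Function.update_of_ne hs, hΨs, hvr]
    · intro w hw
      refine hQ _ fun r => ?_
      rw [hΨa]
      intro i' m'
      rw [Finset.sum_apply, Finset.sum_apply]
      exact Submodule.sum_mem _ fun s _ =>
        slot_isRatP n P (j s) (a s) _ ((hf s).1.rat _ (hw r (i s) s)) i' m'
    · intro w hw
      refine hA _ fun r i' l' j' => ?_
      rw [hΨa, Finset.sum_apply, Finset.sum_apply, Finset.sum_apply]
      refine Trf_sum _ _ fun s _ => ?_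
      by_cases h : i' = j s
      · subst h
        simp only [slot, Pi.single_eq_same]
        by_cases h2 : l' = a s
        · subst h2
          rw [Pi.single_eq_same]
          exact Trf_alg (hf s).1.alg (fun i => hw r _ s i) j'
        · rw [Pi.single_eq_of_ne h2]
          exact isAlgebraic_zero
      · simp only [slot, Pi.single_eq_of_ne h]
        exact isAlgebraic_zero

/-- products with quotients of products of powers of the `D l` -/
theorem Asw_tr {I J L : Type} [Fintype I] [DecidableEq I]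
    [Fintype J] [DecidableEq J] [Fintype L] [DecidableEq L] (A : I → AbVar) (C : J → AbVar)
    (D : L → AbVar) (hCD : ∀ j, (C j).IsQuotientOf D)
    (hKN : ∀ n : I ⊕ L → ℕ, KillN (κ := fun j => Fin (Sum.elim A D j).g ⊕
      Fin (Sum.elim A D j).g) Sum.inl n (fun j => pData (Sum.elim A D j))) (n : I ⊕ J → ℕ) :
    KillN (κ := fun j => Fin (Sum.elim A C j).g ⊕ Fin (Sum.elim A C j).g) Sum.inl n
      (fun j => pData (Sum.elim A C j)) := by
  intro D₀ k α hB hA
  refine Asw_trf (I ⊕ L) (I ⊕ J) _ _ _ (fun j => pData (Sum.elim A D j))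
    (fun j => pData (Sum.elim A C j)) (NE Sum.inl (fun j => pData (Sum.elim A D j)) D₀)
    (NE Sum.inl (fun j => pData (Sum.elim A C j)) D₀) ?_ (fun n k α h h' => hKN n D₀ k α h h')
    n k α hB hA
  rintro (j | j)
  · rw [eq_top_iff]
    intro v _
    refine Submodule.subset_span ⟨Sum.inl j, LinearMap.id,
      (isDRB_iff _ _ _).mpr ⟨fun v hv => hv, fun v hv => hv⟩, fun u => ?_, v, rfl⟩
    have e1 : NE Sum.inl (fun j => pData (Sum.elim A C j)) D₀ (Sum.inl j) =
        (pData (Sum.elim A C (Sum.inl j))).N D₀ -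
          (D₀ (2 * Real.pi * Complex.I) / (2 * Real.pi * Complex.I) / 2) • 1 :=
      if_pos ⟨j, rfl⟩
    have e2 : NE Sum.inl (fun j => pData (Sum.elim A D j)) D₀ (Sum.inl j) =
        (pData (Sum.elim A D (Sum.inl j))).N D₀ -
          (D₀ (2 * Real.pi * Complex.I) / (2 * Real.pi * Complex.I) / 2) • 1 :=
      if_pos ⟨j, rfl⟩
    rw [e1, e2]
    rfl
  · rw [eq_top_iff]
    intro v _
    refine Submodule.span_mono ?_ (hCD j v)
    rintro w ⟨i, f, u, hf, rfl⟩
    refine ⟨Sum.inr i, IsLinearMap.mk' f hf.linear,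
      (isDRB_iff _ _ _).mpr ⟨hf.betti, hf.deRham⟩, fun u => ?_, u, rfl⟩
    have e1 : NE Sum.inl (fun j => pData (Sum.elim A C j)) D₀ (Sum.inr j) = 0 :=
      if_neg (by rintro ⟨i, hi⟩; exact Sum.inl_ne_inr hi)
    have e2 : NE Sum.inl (fun j => pData (Sum.elim A D j)) D₀ (Sum.inr i) = 0 :=
      if_neg (by rintro ⟨i, hi⟩; exact Sum.inl_ne_inr hi)
    rw [e1, e2]
    show (0 : _) = f 0
    exact hf.linear.map_zero.symm

end Pool.Agent.KTW
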