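import Pool.Agent.KTW.StV

/-!
# KTW [Bsp]: finitely many basic abelian varieties are enough
-/

set_option autoImplicit false

namespace Pool.Agent.KTW

open Module Pool.Agent.GPC

/-- [BSP] -/
theorem thm_Bsp : St_Bsp := by
  classical
  intro A V hV
  set S : Set A.H1 := {w : A.H1 | ∃ (B : AbVar) (f : B.H1 → A.H1) (u : B.H1),
    B.IsBasic ∧ B.IsMor A f ∧ w = f u} with hS
  have hfin : FiniteDimensional ℂ A.H1 := by
    show FiniteDimensional ℂ (Fin A.g ⊕ Fin A.g → ℂ)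
    infer_instance
  have hfg : (Submodule.span ℂ S).FG := IsNoetherian.noetherian _
  obtain ⟨t, ht, hts⟩ := (Submodule.fg_span_iff_fg_span_finset_subset S).mp hfg
  have hB : ∀ w : {w // w ∈ t}, ∃ (B : AbVar) (f : B.H1 → A.H1) (u : B.H1),
      B.IsBasic ∧ B.IsMor A f ∧ (w : A.H1) = f u := fun w => ht w.2
  choose B f u hb hf hw using hB
  refine ⟨{w // w ∈ t}, inferInstance, B, hb, fun v hv => ?_⟩
  have h1 := hV v hv
  rw [hts] at h1
  refine Submodule.span_mono ?_ h1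
  intro w hwt
  exact ⟨⟨w, hwt⟩, f ⟨w, hwt⟩, u ⟨w, hwt⟩, hf ⟨w, hwt⟩, hw ⟨w, hwt⟩⟩

end Pool.Agent.KTW
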