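import Pool.Agent.KTW.StU
import Pool.Agent.KTW.Trf

/-!
# KTW [Cen]: the central part of the unitary Lie algebra
-/

set_option autoImplicit false
set_option linter.unusedSectionVars false

namespace Pool.Agent.KTW

open Module Matrix NumberField Pool.Agent.Helper7 Pool.Agent.KS Pool.Agent.Ball Pool.Agent.KSE
  Pool.Agent.Helper28.GPC Pool.Agent.K3P Pool.Agent.KTP

namespace Cenx

section forms

variable {J : Type} [Fintype J] [DecidableEq J] {κ : J → Type} [∀ j, Fintype (κ j)]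
  [∀ j, DecidableEq (κ j)] {ϖ : ℂ} {P : ∀ j, PData (κ j) ϖ} {n : J → ℕ} {k : ℕ}

lemma add {α β : MultilinearMap ℂ (fun _ : Fin (2 * k) => HW κ n) ℂ} (hα : GrF P n α)
    (hβ : GrF P n β) : GrF P n (α + β) where
  B v hv := by
    obtain ⟨p, hp⟩ := hα.B v hv
    obtain ⟨q, hq⟩ := hβ.B v hv
    refine ⟨p + q, ?_⟩
    rw [_root_.add_apply, hp, hq]
    push_cast
    ring
  A v hv := by
    rw [_root_.add_apply]
    exact (hα.A v hv).add (hβ.A v hv)

lemma smul (q : ℚ) {α : MultilinearMap ℂ (fun _ : Fin (2 * k) => HW κ n) ℂ} (hα : GrF P n α) :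
    GrF P n ((q : ℂ) • α) where
  B v hv := by
    obtain ⟨p, hp⟩ := hα.B v hv
    refine ⟨q * p, ?_⟩
    rw [_root_.smul_apply, hp, smul_eq_mul]
    push_cast
    ring
  A v hv := by
    rw [_root_.smul_apply, smul_eq_mul]
    exact (isAlgebraic_ratCast ℚ q).mul (hα.A v hv)

lemma single_apply_self (j : J) (δ : Module.End ℂ (κ j → ℂ)) (v : HW κ n) (l : Fin (n j)) :
    lift n (Pi.single j δ : ∀ j, Module.End ℂ (κ j → ℂ)) v j l = δ (v j l) := by
  rw [lift_apply, Pi.single_eq_same]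

lemma single_apply_ne {j i : J} (hij : i ≠ j) (δ : Module.End ℂ (κ j → ℂ)) (v : HW κ n)
    (l : Fin (n i)) :
    lift n (Pi.single j δ : ∀ j, Module.End ℂ (κ j → ℂ)) v i l = 0 := by
  rw [lift_apply, Pi.single_eq_of_ne hij]
  rfl

lemma act {α : MultilinearMap ℂ (fun _ : Fin (2 * k) => HW κ n) ℂ} (hα : GrF P n α) (j : J)
    (δ : Module.End ℂ (κ j → ℂ)) (hδ : IsDRB (P j) (P j) δ) :
    GrF P n (actForm (lift n (Pi.single j δ : ∀ j, Module.End ℂ (κ j → ℂ))) α) where
  B v hv := by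
    have h1 : ∀ r : Fin (2 * k), ∃ q : ℚ, α (Function.update v r
        (lift n (Pi.single j δ : ∀ j, Module.End ℂ (κ j → ℂ)) (v r))) = ϖ ^ k * q := by
      intro r
      apply hα.B
      intro r'
      by_cases hr : r' = r
      · subst hr
        rw [Function.update_self]
        intro i l
        by_cases hij : i = j
        · subst hij
          rw [single_apply_self]
          exact hδ.rat _ (hv r' i l)
        · rw [single_apply_ne hij]
          exact Submodule.zero_mem _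
      · rw [Function.update_of_ne hr]
        exact hv r'
    choose q hq using h1
    refine ⟨∑ r, q r, ?_⟩
    rw [actForm_apply, Finset.sum_congr rfl fun r _ => hq r, ← Finset.mul_sum]
    push_cast
    rfl
  A v hv := by
    rw [actForm_apply]
    refine Trf_sum _ _ fun r _ => hα.A _ fun r' i l a => ?_
    by_cases hr : r' = r
    · subst hr
      rw [Function.update_self]
      by_cases hij : i = j
      · subst hij
        rw [single_apply_self]
        exact Trf_alg hδ.alg (fun a => hv r' i l a) a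
      · rw [single_apply_ne hij]
        exact isAlgebraic_zero
    · rw [Function.update_of_ne hr]
      exact hv r' i l a

/-- the action of an operator at one member of the family, as a linear map -/
noncomputable def actL (α : MultilinearMap ℂ (fun _ : Fin (2 * k) => HW κ n) ℂ) (j : J) :
    Module.End ℂ (κ j → ℂ) →ₗ[ℂ] MultilinearMap ℂ (fun _ : Fin (2 * k) => HW κ n) ℂ where
  toFun δ := actForm (lift n (Pi.single j δ : ∀ j, Module.End ℂ (κ j → ℂ))) α
  map_add' δ δ' := by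
    rw [Pi.single_add, lift_add, actForm_add]
  map_smul' r δ := by
    rw [RingHom.id_apply, Pi.single_smul, lift_smul, actForm_smul]

lemma actL_apply (α : MultilinearMap ℂ (fun _ : Fin (2 * k) => HW κ n) ℂ) (j : J)
    (δ : Module.End ℂ (κ j → ℂ)) :
    actL α j δ = actForm (lift n (Pi.single j δ : ∀ j, Module.End ℂ (κ j → ℂ))) α := rfl

/-- the bilinear form in the components of index `0` -/
noncomputable def bl (n : J → ℕ) (P : ∀ j, PData (κ j) ϖ) (i j : J)
    (f : (κ j → ℂ) →ₗ[ℂ] (κ i → ℂ)) :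
    HW κ (fun j => n j + 1) →ₗ[ℂ] HW κ (fun j => n j + 1) →ₗ[ℂ] ℂ :=
  LinearMap.mk₂ ℂ (fun u v => (P i).ψ (u i 0) (f (v j 0)))
    (fun u u' v => by
      show (P i).ψ (u i 0 + u' i 0) (f (v j 0)) = _
      rw [map_add, LinearMap.add_apply])
    (fun r u v => by
      show (P i).ψ (r • u i 0) (f (v j 0)) = _
      rw [map_smul, LinearMap.smul_apply])
    (fun u v v' => by
      show (P i).ψ (u i 0) (f (v j 0 + v' j 0)) = _
      rw [map_add, map_add])
    (fun r u v => by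
      show (P i).ψ (u i 0) (f (r • v j 0)) = _
      rw [map_smul, map_smul])

lemma bl_apply (n : J → ℕ) (P : ∀ j, PData (κ j) ϖ) (i j : J)
    (f : (κ j → ℂ) →ₗ[ℂ] (κ i → ℂ)) (u v : HW κ (fun j => n j + 1)) :
    bl n P i j f u v = (P i).ψ (u i 0) (f (v j 0)) := rfl

lemma psi_alg' {κ : Type} [Fintype κ] [DecidableEq κ] (ψ : (κ → ℂ) →ₗ[ℂ] (κ → ℂ) →ₗ[ℂ] ℂ)
    (hψ : ∀ i j, IsAlgebraic ℚ (ψ (Pi.single i 1) (Pi.single j 1))) (u v : κ → ℂ)
    (hu : ∀ i, IsAlgebraic ℚ (u i)) (hv : ∀ i, IsAlgebraic ℚ (v i)) : IsAlgebraic ℚ (ψ u v) := by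
  have h1 : ∀ w : κ → ℂ, w = ∑ i, w i • (Pi.single i (1 : ℂ) : κ → ℂ) := by
    intro w
    funext j
    rw [Finset.sum_apply, Finset.sum_eq_single j]
    · simp
    · intro i _ hi
      simp [Pi.single_eq_of_ne (Ne.symm hi)]
    · intro h1; exact absurd (Finset.mem_univ _) h1
  rw [h1 u, map_sum, LinearMap.sum_apply]
  refine Trf_sum _ _ fun i _ => ?_
  rw [map_smul, LinearMap.smul_apply, smul_eq_mul]
  refine (hu i).mul ?_
  rw [h1 v, map_sum]
  refine Trf_sum _ _ fun j _ => ?_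
  rw [map_smul, smul_eq_mul]
  exact (hv j).mul (hψ i j)

lemma bl_gr (n : J → ℕ) (P : ∀ j, PData (κ j) ϖ) (i j : J)
    (f : (κ j → ℂ) →ₗ[ℂ] (κ i → ℂ)) (hf : IsDRB (P j) (P i) f) :
    GrF P (fun j => n j + 1) (k := 1) (Inv_two (bl n P i j f)) where
  B v hv := by
    obtain ⟨q, hq⟩ := (P i).hψQ _ (hv 0 i 0) _ (hf.rat _ (hv 1 j 0))
    exact ⟨q, by rw [pow_one]; exact hq⟩
  A v hv := psi_alg' (P i).ψ (P i).hψalg _ _ (fun a => hv 0 i 0 a)
    (Trf_alg hf.alg fun a => hv 1 j 0 a)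

end forms

/-- the power trick -/
lemma pow_trick {Y : Type} {M : ℕ} (hM : 0 < M) (g X : Y → ℂ)
    (h : ∀ y : Fin M → Y, ∑ a, X (y a) * ∏ a' ∈ Finset.univ.erase a, g (y a') = 0)
    (h0 : ∃ y, g y ≠ 0) (y : Y) : X y = 0 := by
  have h1 : ∀ y, g y ≠ 0 → X y = 0 := by
    intro y hy
    have h2 := h fun _ => y
    simp only [Finset.prod_const] at h2
    have h3 : ∀ a : Fin M, (Finset.univ.erase a).card = M - 1 := by
      intro a
      rw [Finset.card_erase_of_mem (Finset.mem_univ a), Finset.card_univ, Fintype.card_fin]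
    simp only [h3, Finset.sum_const, Finset.card_univ, Fintype.card_fin, nsmul_eq_mul] at h2
    rcases mul_eq_zero.1 h2 with h4 | h4
    · exact absurd (Nat.cast_eq_zero.1 h4) hM.ne'
    · exact (mul_eq_zero.1 h4).resolve_right (pow_ne_zero _ hy)
  by_cases hy : g y = 0
  · obtain ⟨y₀, hy₀⟩ := h0
    have h2 := h (Function.update (fun _ => y₀) ⟨0, hM⟩ y)
    rw [Finset.sum_eq_single (⟨0, hM⟩ : Fin M)] at h2
    · rw [Function.update_self] at h2
      refine (mul_eq_zero.1 h2).resolve_right ?_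
      refine Finset.prod_ne_zero_iff.2 fun a ha => ?_
      rw [Function.update_of_ne (Finset.ne_of_mem_erase ha)]
      exact hy₀
    · intro a _ ha
      rw [Function.update_of_ne ha, h1 y₀ hy₀, zero_mul]
    · intro h3
      exact absurd (Finset.mem_univ _) h3
  · exact h1 y hy

/-- the product rule for two kinds of factors -/
lemma alg_sum {A Q : Type} [Fintype A] [DecidableEq A] [Fintype Q] [DecidableEq Q]
    (D R : A ⊕ Q → ℂ) (ζ : Q → ℂ) (hD : ∀ q, D (.inr q) = ζ q * R (.inr q))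
    (hR : ∀ q, R (.inr q) ≠ 0) (h : ∑ s, D s * ∏ s' ∈ Finset.univ.erase s, R s' = 0) :
    ∑ a, D (.inl a) * ∏ a' ∈ Finset.univ.erase a, R (.inl a') +
      (∑ q, ζ q) * ∏ a, R (.inl a) = 0 := by
  have h1 : ∀ a : A, ∏ s' ∈ Finset.univ.erase (Sum.inl a : A ⊕ Q), R s' =
      (∏ a' ∈ Finset.univ.erase a, R (.inl a')) * ∏ q, R (.inr q) := by
    intro a
    have h2 : Finset.univ.erase (Sum.inl a : A ⊕ Q) = (Finset.univ.erase a).disjSum Finset.univ := by
      ext s
      rcases s with s | s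
      · simp
      · simp
    rw [h2, Finset.prod_disjSum]
  have h3 : ∀ q : Q, D (.inr q) * ∏ s' ∈ Finset.univ.erase (Sum.inr q : A ⊕ Q), R s' =
      ζ q * ((∏ a, R (.inl a)) * ∏ q, R (.inr q)) := by
    intro q
    rw [hD, mul_assoc, Finset.mul_prod_erase _ _ (Finset.mem_univ _), Fintype.prod_sum_type]
  rw [Fintype.sum_sum_type, Finset.sum_congr rfl fun q _ => h3 q, ← Finset.sum_mul,
    Finset.sum_congr rfl fun a _ => by rw [h1 a]] at h
  have h4 : (∏ q, R (.inr q)) ≠ 0 := Finset.prod_ne_zero_iff.2 fun q _ => hR q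
  refine (mul_eq_zero.1 ?_).resolve_right h4
  rw [← h, add_mul, Finset.sum_mul]
  congr 1
  · exact Finset.sum_congr rfl fun a _ => by ring
  · ring

/-- the sign of the complementary type -/
lemma sg_compl {K : Type} [Field K] (m : ℕ) (Ψ : Set (K →+* ℂ)) (σ : K →+* ℂ) :
    sg m Ψᶜ σ = -sg m Ψ σ := by
  unfold sg
  by_cases h : σ ∈ Ψ
  · rw [if_neg (fun h' : σ ∈ Ψᶜ => h' h), if_pos h]
  · rw [if_pos (show σ ∈ Ψᶜ from h), if_neg h, neg_neg]

lemma typ_compl {K : Type} [Field K] [NumberField K] {Ψ : Set (K →+* ℂ)} (h : IsTyp Ψ) :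
    IsTyp Ψᶜ := by
  intro σ
  rw [Set.mem_compl_iff, Set.mem_compl_iff, not_not]
  constructor
  · intro h1
    by_contra h2
    exact h1 ((h σ).2 h2)
  · intro h1 h2
    exact (h σ).1 h2 h1

section fam

variable {I B J : Type} [Fintype I] [DecidableEq I] [Fintype B] [DecidableEq B] [Fintype J]
  [DecidableEq J] {e : I → J} {b : B → J} {κ : J → Type} [∀ j, Fintype (κ j)]
  [∀ j, DecidableEq (κ j)] {ϖ : ℂ} {P : ∀ j, PData (κ j) ϖ} {K : I → Type} [∀ i, Field (K i)]
  [∀ i, NumberField (K i)] {c : ∀ i, K i →+* K i} {m : I → ℕ}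
  {h : ∀ i, Matrix (Fin (m i)) (Fin (m i)) (K i)}
  {t : ∀ i, Fin (m i) → K i → Module.End ℂ (κ (e i) → ℂ)} {Z : ∀ j, Module.End ℂ (κ j → ℂ)}

lemma cmr (H : FamU e b P c h t Z) (i : I) : CMR (c i) (h i) (t i) where
  conj := (H.S i).conj
  cm := H.cm i
  herm := (H.S i).herm
  nd := (H.S i).nd
  cliff := (H.S i).cliff

lemma cen_unique (H : FamU e b P c h t Z) (i : I) {Y Y' : Module.End ℂ (κ (e i) → ℂ)}
    {z : (K i →+* ℂ) → ℂ} (h1 : IsCen (t i) Y z) (h2 : IsCen (t i) Y' z) : Y = Y' :=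
  eq_of_act (H.S i).conj (H.S i).herm (H.S i).nd (H.S i).cliff h1.1 h2.1 h1.2 h2.2

open Classical in
/-- the operators `Z` on the `A_(b j)`, zero on the others -/
noncomputable def ZC (b : B → J) (Z : ∀ j, Module.End ℂ (κ j → ℂ)) (j : J) :
    Module.End ℂ (κ j → ℂ) := if ∃ i, b i = j then Z j else 0

lemma ZC_in (b : B → J) (Z : ∀ j, Module.End ℂ (κ j → ℂ)) (i : B) : ZC b Z (b i) = Z (b i) := by
  unfold ZC
  rw [if_pos ⟨i, rfl⟩]

lemma ZC_e (H : FamU e b P c h t Z) (i : I) : ZC b Z (e i) = 0 := by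
  unfold ZC
  rw [if_neg]
  exact (H.cpl (e i)).1 ⟨i, rfl⟩

lemma ZC_or (H : FamU e b P c h t Z) (j : J) : (∃ i, e i = j ∧ ZC b Z j = 0) ∨
    ((∀ i, e i ≠ j) ∧ ZC b Z j = Z j) := by
  by_cases hj : ∃ i, e i = j
  · left
    obtain ⟨i, rfl⟩ := hj
    exact ⟨i, rfl, ZC_e H i⟩
  · right
    refine ⟨fun i hi => hj ⟨i, hi⟩, ?_⟩
    have h1 : ∃ i, b i = j := by
      by_contra h1
      exact hj ((H.cpl j).2 h1)
    unfold ZC
    rw [if_pos h1]

/-- the odd elements of the fields -/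
noncomputable def xk (c : ∀ i, K i →+* K i) (a : Σ i, Fin (finrank ℚ (K i))) : K a.1 :=
  bas (K a.1) a.2 - c a.1 (bas (K a.1) a.2)

lemma xk_odd (H : FamU e b P c h t Z) (a : Σ i, Fin (finrank ℚ (K i))) :
    c a.1 (xk c a) = -xk c a := by
  have h1 : ∀ x : K a.1, c a.1 (c a.1 x) = x := by
    intro x
    obtain ⟨σ⟩ : Nonempty (K a.1 →+* ℂ) := inferInstance
    apply σ.injective
    have h2 := (H.S a.1).conj σ (c a.1 x)
    have h3 := (H.S a.1).conj (cj σ) x
    rw [← h2, ← h3, KSE.cj_cj]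
  unfold xk
  rw [map_sub, h1, neg_sub]

lemma cen_xk (H : FamU e b P c h t Z) (a : Σ i, Fin (finrank ℚ (K i))) (σ : K a.1 →+* ℂ) :
    cj σ (xk c a) = -σ (xk c a) := by
  rw [(H.S a.1).conj, xk_odd H, map_neg]

open Classical in
/-- the eigenvalue of a central operator on a common eigenvector -/
noncomputable def ev (c : ∀ i, K i →+* K i) (a : Σ i, Fin (finrank ℚ (K i))) (i : I)
    (g : (K i →+* ℂ) → ℂ) : ℂ :=
  if h : a.1 = i then ∑ σ : K i →+* ℂ, σ (h ▸ xk c a) * g σ else 0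

lemma ev_self (a : Σ i, Fin (finrank ℚ (K i))) (g : (K a.1 →+* ℂ) → ℂ) :
    ev c a a.1 g = ∑ σ : K a.1 →+* ℂ, σ (xk c a) * g σ := by
  unfold ev
  rw [dif_pos rfl]

lemma ev_ne (a : Σ i, Fin (finrank ℚ (K i))) {i : I} (hi : a.1 ≠ i) (g : (K i →+* ℂ) → ℂ) :
    ev c a i g = 0 := by
  unfold ev
  rw [dif_neg hi]

lemma ev_spec (H : FamU e b P c h t Z) (n : J → ℕ)
    {δ : ∀ a : Σ i, Fin (finrank ℚ (K i)), Module.End ℂ (κ (e a.1) → ℂ)}
    (hδ : ∀ a, IsCen (t a.1) (δ a) fun σ => σ (xk c a)) (a : Σ i, Fin (finrank ℚ (K i))) (i : I)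
    (g : (K i →+* ℂ) → ℂ) (x : κ (e i) → ℂ) (hx : CE (t i) g x) (l : Fin (n (e i))) :
    lift n (Pi.single (e a.1) (δ a) : ∀ j, Module.End ℂ (κ j → ℂ)) (slot n (e i) l x) =
      ev c a i g • slot n (e i) l x := by
  rw [Trf_lift_slot]
  by_cases hi : a.1 = i
  · subst hi
    rw [Pi.single_eq_same, ev_self, ← slot_smul]
    congr 1
    exact hx (δ a) _ (hδ a)
  · rw [ev_ne a hi, zero_smul, Pi.single_eq_of_ne (fun h => hi (H.inj h).symm)]
    show slot n (e i) l (0 : κ (e i) → ℂ) = 0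
    rw [← zero_smul ℂ (0 : κ (e i) → ℂ), slot_smul, zero_smul]

lemma ev_out (n : J → ℕ)
    {δ : ∀ a : Σ i, Fin (finrank ℚ (K i)), Module.End ℂ (κ (e a.1) → ℂ)}
    (a : Σ i, Fin (finrank ℚ (K i))) (v : HW κ n) (hv : ∀ i, v (e i) = 0) :
    lift n (Pi.single (e a.1) (δ a) : ∀ j, Module.End ℂ (κ j → ℂ)) v = 0 := by
  funext j l
  rw [lift_apply]
  by_cases hj : j = e a.1
  · subst hj
    rw [hv]
    exact map_zero _
  · rw [Pi.single_eq_of_ne hj]
    rfl

lemma ev_sum (H : FamU e b P c h t Z) {M : ℕ} (i : I) (g : (K i →+* ℂ) → ℂ)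
    (g' : Fin M → (K i →+* ℂ) → ℂ) (hg : ∀ z : (K i →+* ℂ) → ℂ, (∀ σ, z (cj σ) = -z σ) →
      (M : ℂ) * ∑ σ, z σ * g σ = ∑ a, ∑ σ, z σ * g' a σ) (a : Σ i, Fin (finrank ℚ (K i))) :
    (M : ℂ) * ev c a i g = ∑ a', ev c a i (g' a') := by
  by_cases hi : a.1 = i
  · subst hi
    rw [ev_self, hg _ (cen_xk H a)]
    exact Finset.sum_congr rfl fun a' _ => (ev_self a _).symm
  · rw [ev_ne a hi, mul_zero]
    exact (Finset.sum_eq_zero fun a' _ => ev_ne a hi _).symm

lemma ev_neg (a : Σ i, Fin (finrank ℚ (K i))) (i : I) (g g' : (K i →+* ℂ) → ℂ)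
    (hg : ∀ σ, g' σ = -g σ) : ev c a i g' = -ev c a i g := by
  by_cases hi : a.1 = i
  · subst hi
    rw [ev_self, ev_self, ← Finset.sum_neg_distrib]
    refine Finset.sum_congr rfl fun σ _ => ?_
    rw [hg]
    ring
  · rw [ev_ne a hi, ev_ne a hi, neg_zero]

/-- the projectors on the `A_(b j)` and the operators on the `A_(e i)` -/
lemma lift_ZC_e (H : FamU e b P c h t Z) (n : J → ℕ) (i : I) (l : Fin (n (e i)))
    (x : κ (e i) → ℂ) : lift n (ZC b Z) (slot n (e i) l x) = 0 := by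
  rw [Trf_lift_slot, ZC_e H]
  show slot n (e i) l (0 : κ (e i) → ℂ) = 0
  rw [← zero_smul ℂ (0 : κ (e i) → ℂ), slot_smul, zero_smul]

lemma lift_ZC_zero (H : FamU e b P c h t Z) (n : J → ℕ) (v : HW κ n) (i : I) :
    lift n (ZC b Z) v (e i) = 0 := by
  funext l
  rw [lift_apply, ZC_e H]
  rfl

lemma comp_zero (H : FamU e b P c h t Z) (n : J → ℕ) (i : I) (Y : Module.End ℂ (κ (e i) → ℂ))
    (v : HW κ n) : lift n (ZC b Z) (lift n (Pi.single (e i) Y : ∀ j, Module.End ℂ (κ j → ℂ)) v) =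
      0 := by
  funext j l
  rw [lift_apply]
  by_cases hj : j = e i
  · subst hj
    rw [ZC_e H]
    rfl
  · rw [single_apply_ne hj]
    exact map_zero _

/-- the operators `Z` are the sum of the operators on the parts -/
lemma lift_split (H : FamU e b P c h t Z) (n : J → ℕ) :
    lift n Z = lift n (ZC b Z) +
      ∑ i, lift n (Pi.single (e i) (Z (e i)) : ∀ j, Module.End ℂ (κ j → ℂ)) := by
  refine LinearMap.ext fun v => ?_
  funext j l
  rw [LinearMap.add_apply, LinearMap.sum_apply, Pi.add_apply, Pi.add_apply, Finset.sum_apply,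
    Finset.sum_apply]
  rcases ZC_or H j with ⟨i, rfl, -⟩ | ⟨hj, hZ⟩
  · rw [Finset.sum_eq_single i, single_apply_self, lift_ZC_zero H]
    · rw [Pi.zero_apply, zero_add]
      rfl
    · intro i' _ hi
      exact single_apply_ne (fun h => hi (H.inj h).symm) _ _ _
    · intro h1
      exact absurd (Finset.mem_univ _) h1
  · rw [Finset.sum_eq_zero, add_zero, lift_apply, lift_apply, hZ]
    intro i _
    exact single_apply_ne (fun h => hj i h.symm) _ _ _

/-- the central and the trace-zero part of `Z (e i)` -/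
lemma exists_split (H : FamU e b P c h t Z) (i : I) :
    ∃ (Y₁ Y₂ : Module.End ℂ (κ (e i) → ℂ)) (M M₁ : (K i →+* ℂ) → Matrix (Fin (m i)) (Fin (m i)) ℂ)
      (z : (K i →+* ℂ) → ℂ), Z (e i) = Y₁ + Y₂ ∧ Y₁ ∈ bvS (t i) ∧ ActM (t i) Y₁ M₁ ∧
      (∀ σ, (M₁ σ).trace = 0) ∧ IsCen (t i) Y₂ z ∧ (∀ σ, z (cj σ) = -z σ) ∧
      ActM (t i) (Z (e i)) M ∧ ∀ σ, (M σ).trace = m i * z σ := by
  obtain ⟨M, hM, hMs⟩ := exists_act_of_mem (H.S i).conj (H.S i).herm (H.S i).nd (H.S i).cliff
    (Z (e i)) (H.Z1 i)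
  have hm : (m i : ℂ) ≠ 0 := Nat.cast_ne_zero.2 (H.m0 i)
  obtain ⟨z, hz⟩ : ∃ z : (K i →+* ℂ) → ℂ, z = fun σ => (M σ).trace / m i := ⟨_, rfl⟩
  have hzo : ∀ σ, z (cj σ) = -z σ := by
    intro σ
    rw [hz]
    show (M (cj σ)).trace / m i = -((M σ).trace / m i)
    rw [HMainC.trace_dual (H.S i).nd hMs, neg_div]
  have hsc : SkewM (h i) fun σ => z σ • (1 : Matrix (Fin (m i)) (Fin (m i)) ℂ) :=
    HMainC.skew_scalar hzo
  obtain ⟨Y₂, hY₂, hY₂a⟩ := exists_bvE (H.S i).conj (H.S i).herm (H.S i).nd (H.S i).cliff _ hsc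
  refine ⟨Z (e i) - Y₂, Y₂, M, M - fun σ => z σ • 1, z, (sub_add_cancel _ _).symm,
    Submodule.sub_mem _ (H.Z1 i) hY₂, hM.sub hY₂a, ?_, ⟨hY₂, hY₂a⟩, hzo, hM, ?_⟩
  · intro σ
    rw [Pi.sub_apply, Matrix.trace_sub, Matrix.trace_smul, Matrix.trace_one, Fintype.card_fin, hz,
      smul_eq_mul, div_mul_cancel₀ _ hm, sub_self]
  · intro σ
    rw [hz]
    show _ = (m i : ℂ) * ((M σ).trace / m i)
    rw [mul_div_cancel₀ _ hm]

/-- the form is killed by the operators on the `A_(b j)` if it is killed by the central operators -/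
lemma kill_ZC (hDel : St_Del) (hRlu : St_Rlu) (hNsc : St_Nsc) (H : FamU e b P c h t Z)
    {n : J → ℕ} {k : ℕ} (F : MultilinearMap ℂ (fun _ : Fin (2 * k) => HW κ n) ℂ)
    (hF : GrF P n F)
    {δ : ∀ a : Σ i, Fin (finrank ℚ (K i)), Module.End ℂ (κ (e a.1) → ℂ)}
    (hδ : ∀ a, IsCen (t a.1) (δ a) fun σ => σ (xk c a))
    (h0 : ∀ a, actForm (lift n (Pi.single (e a.1) (δ a) : ∀ j, Module.End ℂ (κ j → ℂ))) F = 0) :
    actForm (lift n (ZC b Z)) F = 0 := by
  have h1 := hNsc I J e H.inj κ ϖ P K c m h t H.S H.m0 H.ne n k F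
    (fun i Y M hY hM htr => H.kilS n i Y M hY hM htr k F hF.B hF.A)
    (by
      intro i Y z hY _
      obtain ⟨d, δ', hδ', hYd⟩ := (hDel (κ (e i)) ϖ (P (e i)) (K i) (c i) (m i) (h i) (t i) (H.S i)
        (H.cm i)).2 Y z hY
      have h2 : ∀ k, δ' k = δ ⟨i, k⟩ := fun k => cen_unique H i (hδ' k) (hδ ⟨i, k⟩)
      rw [← actL_apply, hYd, map_sum]
      refine Finset.sum_eq_zero fun k _ => ?_
      rw [map_smul, h2, actL_apply, h0 ⟨i, k⟩, smul_zero])
  have h2 : (fun j => ZC b Z (b j)) = fun j => Z (b j) := funext fun j => ZC_in b Z j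
  refine hRlu I B J e b H.binj H.cpl κ ϖ P H.pi (ZC b Z) (ZC_e H) n k F hF (h1.2 H.N) ?_
  rw [h2]
  exact H.kilC _

/-- a vacuum vector and a morphism -/
lemma exists_gen (hCnb : St_Cnb) (H : FamU e b P c h t Z) (i : I) (Ψ : Set (K i →+* ℂ))
    (hΨ : IsTyp Ψ) :
    ∃ (w : κ (e i) → ℂ) (j : B) (f : (κ (b j) → ℂ) →ₗ[ℂ] (κ (e i) → ℂ)) (y : κ (b j) → ℂ),
      IsVac (t i) Ψᶜ w ∧ IsDRB (P (b j)) (P (e i)) f ∧ (P (e i)).ψ w (f y) ≠ 0 := by
  have := H.ne i
  obtain ⟨w, hw, x, hx, hwx⟩ := hCnb (κ (e i)) ϖ (P (e i)) (K i) (c i) (m i) (h i) (t i)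
    (cmr H i) (H.sk i) _ (H.cen i) Ψ hΨ
  by_contra hcon
  push Not at hcon
  apply hwx
  induction hx using Submodule.span_induction with
  | mem x hx =>
    obtain ⟨j, f, hf, u, rfl⟩ := hx
    exact hcon w j f u hw hf
  | zero => exact map_zero _
  | add x y _ _ hx hy =>
    have hx' : (P (e i)).ψ w x = 0 := by
      by_contra h1
      exact h1 (hx h1)
    have hy' : (P (e i)).ψ w y = 0 := by
      by_contra h1
      exact h1 (hy h1)
    rw [map_add, hx', hy', add_zero]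
  | smul r x _ hx =>
    have hx' : (P (e i)).ψ w x = 0 := by
      by_contra h1
      exact h1 (hx h1)
    rw [map_smul, hx', smul_zero]

/-- the number of pairs of variables of the factors -/
abbrev kk {A Q : Type} (k : ℕ) : A ⊕ Q → ℕ := Sum.elim (fun _ => k) (fun _ => 1)

lemma span_slot (n : J → ℕ) (T : ∀ j, Set (κ j → ℂ)) (hT : ∀ j, Submodule.span ℂ (T j) = ⊤) :
    Submodule.span ℂ {w : HW κ n | ∃ j l, ∃ x ∈ T j, w = slot n j l x} = ⊤ := by
  rw [eq_top_iff, ← (SBP n κ).span_eq, Submodule.span_le]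
  rintro _ ⟨a, rfl⟩
  rw [SBP_apply]
  have h1 : ∀ x ∈ Submodule.span ℂ (T a.1), slot n a.1 a.2.1 x ∈
      Submodule.span ℂ {w : HW κ n | ∃ j l, ∃ x ∈ T j, w = slot n j l x} := by
    intro x hx
    induction hx using Submodule.span_induction with
    | mem x hx => exact Submodule.subset_span ⟨a.1, a.2.1, x, hx, rfl⟩
    | zero =>
      rw [← zero_smul ℂ (0 : κ a.1 → ℂ), slot_smul, zero_smul]
      exact Submodule.zero_mem _
    | add x y _ _ hx hy =>
      rw [slot_add]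
      exact Submodule.add_mem _ hx hy
    | smul r x _ hx =>
      rw [slot_smul]
      exact Submodule.smul_mem _ _ hx
  apply h1
  rw [hT]
  exact Submodule.mem_top

lemma vac_CE (hEvb : St_Evb) (H : FamU e b P c h t Z) (i : I) {Ψ : Set (K i →+* ℂ)}
    (hΨ : IsTyp Ψ) {w : κ (e i) → ℂ} (hw : IsVac (t i) Ψ w) : CE (t i) (sg (m i) Ψ) w := by
  intro Y z hY
  rw [((hEvb (κ (e i) → ℂ) (K i) (c i) (m i) (h i) (t i) (cmr H i) Ψ hΨ).2.1 w hw) Y _ hY.1 hY.2]
  congr 1
  refine Finset.sum_congr rfl fun σ _ => ?_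
  rw [Matrix.trace_smul, Matrix.trace_one, Fintype.card_fin, smul_eq_mul]
  unfold sg
  split_ifs
  · push_cast
    ring
  · push_cast
    ring

lemma comm_single (H : FamU e b P c h t Z) (n : J → ℕ)
    {δ : ∀ a : Σ i, Fin (finrank ℚ (K i)), Module.End ℂ (κ (e a.1) → ℂ)}
    (hδ : ∀ a, IsCen (t a.1) (δ a) fun σ => σ (xk c a))
    (hδD : ∀ a, IsDRB (P (e a.1)) (P (e a.1)) (δ a)) (a a' : Σ i, Fin (finrank ℚ (K i))) :
    lift n (Pi.single (e a.1) (δ a) : ∀ j, Module.End ℂ (κ j → ℂ)) *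
      lift n (Pi.single (e a'.1) (δ a') : ∀ j, Module.End ℂ (κ j → ℂ)) =
    lift n (Pi.single (e a'.1) (δ a') : ∀ j, Module.End ℂ (κ j → ℂ)) *
      lift n (Pi.single (e a.1) (δ a) : ∀ j, Module.End ℂ (κ j → ℂ)) := by
  obtain ⟨i, k⟩ := a
  obtain ⟨i', k'⟩ := a'
  refine LinearMap.ext fun v => ?_
  funext j l
  rw [Module.End.mul_apply, Module.End.mul_apply]
  by_cases hi : i = i'
  · subst hi
    by_cases hj : j = e i
    · subst hj
      rw [single_apply_self, single_apply_self, single_apply_self, single_apply_self]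
      have h1 := BvE.comm_bvS (hδ ⟨i, k⟩).1 (δ ⟨i, k'⟩) (((H.S i).cent _).1 (hδD ⟨i, k'⟩)).2
      exact LinearMap.congr_fun h1 _
    · rw [single_apply_ne hj, single_apply_ne hj]
  · by_cases hj : j = e i
    · subst hj
      rw [single_apply_self, single_apply_ne (fun h => hi (H.inj h)),
        single_apply_ne (fun h => hi (H.inj h))]
      exact map_zero _
    · rw [single_apply_ne hj]
      by_cases hj' : j = e i'
      · subst hj'
        rw [single_apply_self, single_apply_ne hj]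
        exact (map_zero _).symm
      · rw [single_apply_ne hj']

lemma eig_span (hEva : St_Eva) (H : FamU e b P c h t Z) (n : J → ℕ)
    {δ : ∀ a : Σ i, Fin (finrank ℚ (K i)), Module.End ℂ (κ (e a.1) → ℂ)}
    (hδ : ∀ a, IsCen (t a.1) (δ a) fun σ => σ (xk c a)) (a : Σ i, Fin (finrank ℚ (K i))) :
    Submodule.span ℂ {w : HW κ n | ∃ z : ℂ, IsAlgebraic ℚ z ∧
      lift n (Pi.single (e a.1) (δ a) : ∀ j, Module.End ℂ (κ j → ℂ)) w = z • w} = ⊤ := by
  have h1 := span_slot (κ := κ) n (fun j => {x : κ j → ℂ | ∃ z : ℂ, IsAlgebraic ℚ z ∧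
    (Pi.single (e a.1) (δ a) : ∀ j, Module.End ℂ (κ j → ℂ)) j x = z • x}) (by
      intro j
      by_cases hj : j = e a.1
      · subst hj
        rw [eq_top_iff, ← hEva (κ (e a.1) → ℂ) (K a.1) (c a.1) (m a.1) (h a.1) (t a.1)
          (cmr H a.1)]
        refine Submodule.span_mono ?_
        rintro x ⟨nn, -, hx⟩
        refine ⟨∑ σ : K a.1 →+* ℂ, σ (xk c a) * ((nn σ : ℂ) / 2 - (m a.1 : ℂ) / 4),
          Trf_sum _ _ fun σ _ => ?_, ?_⟩
        · refine IsAlgebraic.mul ?_ ?_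
          · have h3 : IsAlgebraic ℚ (xk c a) :=
              (Algebra.IsIntegral.isIntegral (R := ℚ) (xk c a)).isAlgebraic
            exact h3.algHom σ.toRatAlgHom
          · have h2 : ((nn σ : ℂ) / 2 - (m a.1 : ℂ) / 4) =
                (((nn σ : ℚ) / 2 - (m a.1 : ℚ) / 4 : ℚ) : ℂ) := by
              push_cast
              ring
            rw [h2]
            exact isAlgebraic_ratCast ℚ _
        · rw [Pi.single_eq_same]
          exact hx _ _ (hδ a)
      · rw [eq_top_iff]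
        intro x _
        refine Submodule.subset_span ⟨0, isAlgebraic_zero, ?_⟩
        rw [Pi.single_eq_of_ne hj, zero_smul]
        rfl)
  rw [eq_top_iff, ← h1]
  refine Submodule.span_mono ?_
  rintro _ ⟨j, l, x, ⟨z, hz, hx⟩, rfl⟩
  refine ⟨z, hz, ?_⟩
  rw [Trf_lift_slot, hx, slot_smul]

/-- the main step -/
theorem core (hDel : St_Del) (hEvb : St_Evb) (hCnb : St_Cnb) (hCna : St_Cna) (hPol : St_Pol)
    (hEva : St_Eva) (hPrd : St_Prd) (hRlu : St_Rlu) (hNsc : St_Nsc) (H : FamU e b P c h t Z)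
    {n' : J → ℕ} {k : ℕ}
    (α : MultilinearMap ℂ (fun _ : Fin (2 * k) => HW κ (fun j => n' j + 1)) ℂ)
    (hα : GrF P (fun j => n' j + 1) α) (p : Fin (2 * k) → Prop) [DecidablePred p]
    (v : Fin (2 * k) → HW κ (fun j => n' j + 1)) (hv0 : ∀ r, ¬ p r → ∀ i, v r (e i) = 0)
    (i : {r // p r} → I) (l : ∀ r, Fin (n' (e (i r)) + 1)) (x : ∀ r, κ (e (i r)) → ℂ)
    (nn : ∀ r, (K (i r) →+* ℂ) → ℕ) (hnn : ∀ r σ, nn r σ + nn r (cj σ) = m (i r))
    (hx : ∀ r, CE (t (i r)) (fun σ => (nn r σ : ℂ) / 2 - (m (i r) : ℂ) / 4) (x r))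
    (hv : ∀ r : {r // p r}, v r.1 = slot (fun j => n' j + 1) (e (i r)) (l r) (x r))
    (z : ∀ i, (K i →+* ℂ) → ℂ) (hz : ∀ i σ, z i (cj σ) = -z i σ)
    (M : ∀ i, (K i →+* ℂ) → Matrix (Fin (m i)) (Fin (m i)) ℂ)
    (hM : ∀ i, ActM (t i) (Z (e i)) (M i)) (hMz : ∀ i σ, (M i σ).trace = m i * z i σ) :
    actForm (lift (fun j => n' j + 1) (ZC b Z)) α v +
      (∑ r : {r // p r}, ∑ σ, z (i r) σ * ((nn r σ : ℂ) / 2 - (m (i r) : ℂ) / 4)) * α v = 0 := by
  classical
  obtain ⟨N, hN⟩ : ∃ N : ℕ, N = ∏ i, m i := ⟨_, rfl⟩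
  have hN0 : 0 < N := by
    rw [hN]
    exact Nat.pos_of_ne_zero (Finset.prod_ne_zero_iff.2 fun i _ => H.m0 i)
  have hdvd : ∀ i, m i ∣ N := fun i => by
    rw [hN]
    exact Finset.dvd_prod_of_mem _ (Finset.mem_univ i)
  choose Ψ hΨ hΨs using fun r => hCna (K (i r)) (m (i r)) N (nn r) (hdvd _) (H.cm _) (hnn r)
  choose w j f y0 hw hf hψ using fun q : {r // p r} × Fin N =>
    exists_gen hCnb H (i q.1) (Ψ q.1 q.2) (hΨ q.1 q.2)
  -- the central operators
  choose δ hδ hδD using fun a : Σ i, Fin (finrank ℚ (K i)) =>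
    (hDel (κ (e a.1)) ϖ (P (e a.1)) (K a.1) (c a.1) (m a.1) (h a.1) (t a.1) (H.S a.1)
      (H.cm a.1)).1 (xk c a) (xk_odd H a)
  -- the factors
  obtain ⟨G, hG1, hG2⟩ : ∃ G : ∀ s : Fin N ⊕ ({r // p r} × Fin N),
      MultilinearMap ℂ (fun _ : Fin (2 * kk k s) => HW κ (fun j => n' j + 1)) ℂ,
      (∀ a, G (.inl a) = α) ∧
      ∀ q, G (.inr q) = Inv_two (bl n' P (e (i q.1)) (b (j q)) (f q)) :=
    ⟨fun s => match s with
      | .inl _ => α
      | .inr q => Inv_two (bl n' P (e (i q.1)) (b (j q)) (f q)), fun _ => rfl, fun _ => rfl⟩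
  have hG : ∀ s, GrF P (fun j => n' j + 1) (G s) := by
    intro s
    rcases s with a | q
    · rw [hG1]
      exact hα
    · rw [hG2]
      exact bl_gr n' P _ _ _ (hf q)
  obtain ⟨F, eq, hF, hFu, hFact⟩ := hPrd J κ ϖ P (fun j => n' j + 1) _ (kk k) G hG
  obtain ⟨F', hF', hF'0, hF'u⟩ := hPol (HW κ (fun j => n' j + 1)) (2 * ∑ s, kk k s)
    (Σ i, Fin (finrank ℚ (K i))) {G | GrF P (fun j => n' j + 1) G}
    (fun a => lift (fun j => n' j + 1) (Pi.single (e a.1) (δ a) : ∀ j, Module.End ℂ (κ j → ℂ)))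
    (fun G hG G' hG' => add hG hG') (fun q G hG => smul q hG)
    (fun a G hG => act hG _ _ (hδD a)) (comm_single H _ hδ hδD) (eig_span hEva H _ hδ) F hF
  have hkill := kill_ZC hDel hRlu hNsc H F' hF' hδ hF'0
  -- the tuples
  obtain ⟨V0, hV1, hV2, hV3⟩ : ∃ V0 : (Fin N → Fin (2 * k) → HW κ (fun j => n' j + 1)) →
      ∀ s : Fin N ⊕ ({r // p r} × Fin N), Fin (2 * kk k s) → HW κ (fun j => n' j + 1),
      (∀ y a (r : Fin (2 * k)), V0 y (.inl a) r = if p r then v r else y a r) ∧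
      (∀ y q, V0 y (.inr q) (0 : Fin 2) =
        slot (fun j => n' j + 1) (e (i q.1)) 0 (w q)) ∧
      (∀ y q, V0 y (.inr q) (1 : Fin 2) =
        slot (fun j => n' j + 1) (b (j q)) 0 (y0 q)) :=
    ⟨fun y s => match s with
      | .inl a => fun (r : Fin (2 * k)) => if p r then v r else y a r
      | .inr q => (![slot (fun j => n' j + 1) (e (i q.1)) 0 (w q),
          slot (fun j => n' j + 1) (b (j q)) 0 (y0 q)] :
            Fin 2 → HW κ (fun j => n' j + 1)), fun _ _ _ => rfl, fun _ _ => rfl, fun _ _ => rfl⟩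
  obtain ⟨zz, hz1, hz2, hz3⟩ : ∃ zz : (Σ i, Fin (finrank ℚ (K i))) →
      ∀ s : Fin N ⊕ ({r // p r} × Fin N), Fin (2 * kk k s) → ℂ,
      (∀ a a' (r : Fin (2 * k)), zz a (.inl a') r = if hr : p r then ev c a (i ⟨r, hr⟩)
        (fun σ => (nn ⟨r, hr⟩ σ : ℂ) / 2 - (m (i ⟨r, hr⟩) : ℂ) / 4) else 0) ∧
      (∀ a q, zz a (.inr q) (0 : Fin 2) =
        ev c a (i q.1) (sg (m (i q.1)) (Ψ q.1 q.2)ᶜ)) ∧
      (∀ a q, zz a (.inr q) (1 : Fin 2) = 0) :=
    ⟨fun a s => match s with
      | .inl a' => fun (r : Fin (2 * k)) => if hr : p r then ev c a (i ⟨r, hr⟩)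
        (fun σ => (nn ⟨r, hr⟩ σ : ℂ) / 2 - (m (i ⟨r, hr⟩) : ℂ) / 4) else 0
      | .inr q => (![ev c a (i q.1) (sg (m (i q.1)) (Ψ q.1 q.2)ᶜ), 0] : Fin 2 → ℂ),
      fun _ _ _ => rfl, fun _ _ => rfl, fun _ _ => rfl⟩
  -- the sum of the eigenvalues
  have hsum : ∀ a, ∑ x' : Fin (2 * ∑ s, kk k s), zz a (eq.symm x').1 (eq.symm x').2 = 0 := by
    intro a
    have e1 : ∀ a' : Fin N, ∑ r : Fin (2 * kk k (.inl a' : Fin N ⊕ ({r // p r} × Fin N))),
        zz a (.inl a') r = ∑ r : {r // p r}, ev c a (i r)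
          (fun σ => (nn r σ : ℂ) / 2 - (m (i r) : ℂ) / 4) := by
      intro a'
      have e2 : ∑ r : Fin (2 * k), zz a (.inl a') r = ∑ r : {r // p r}, ev c a (i r)
          (fun σ => (nn r σ : ℂ) / 2 - (m (i r) : ℂ) / 4) := by
        have e5 := Fintype.sum_subtype_add_sum_subtype p (fun r : Fin (2 * k) => zz a (.inl a') r)
        have e6 : ∑ r : {r // ¬ p r}, zz a (.inl a') r.1 = 0 := by
          refine Finset.sum_eq_zero fun r _ => ?_
          rw [hz1, dif_neg r.2]
        rw [← e5, e6, add_zero]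
        refine Finset.sum_congr rfl fun r _ => ?_
        rw [hz1, dif_pos r.2]
      exact e2
    have e3 : ∀ q : {r // p r} × Fin N,
        ∑ s : Fin (2 * kk k (.inr q : Fin N ⊕ ({r // p r} × Fin N))), zz a (.inr q) s =
          -ev c a (i q.1) (sg (m (i q.1)) (Ψ q.1 q.2)) := by
      intro q
      have e4 : ∑ s : Fin 2, zz a (.inr q) s =
          -ev c a (i q.1) (sg (m (i q.1)) (Ψ q.1 q.2)) := by
        refine (Fin.sum_univ_two (fun s : Fin 2 => zz a (.inr q) s)).trans ?_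
        rw [hz2, hz3, add_zero]
        exact ev_neg a _ _ _ fun σ => sg_compl _ _ σ
      exact e4
    have e7 : ∀ y : (Σ s : Fin N ⊕ ({r // p r} × Fin N), Fin (2 * kk k s)),
        zz a (eq.symm (eq y)).1 (eq.symm (eq y)).2 = zz a y.1 y.2 := by
      intro y
      rw [Equiv.symm_apply_apply]
    rw [← Equiv.sum_comp eq, Finset.sum_congr rfl fun y _ => e7 y, Fintype.sum_sigma,
      Fintype.sum_sum_type, Finset.sum_congr rfl fun a' _ => e1 a',
      Finset.sum_congr rfl fun q _ => e3 q, Finset.sum_const, Finset.card_univ, Fintype.card_fin,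
      nsmul_eq_mul, Finset.mul_sum, Fintype.sum_prod_type, ← Finset.sum_add_distrib]
    refine Finset.sum_eq_zero fun r _ => ?_
    rw [ev_sum H (i r) _ _ (hΨs r) a, ← Finset.sum_add_distrib]
    exact Finset.sum_eq_zero fun a' _ => add_neg_cancel _
  -- the tuples consist of eigenvectors
  have hgood : ∀ y : Fin N → Fin (2 * k) → HW κ (fun j => n' j + 1),
      (∀ a r, ¬ p r → ∀ i, y a r (e i) = 0) → ∀ a s r,
      lift (fun j => n' j + 1) (Pi.single (e a.1) (δ a) : ∀ j, Module.End ℂ (κ j → ℂ))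
        (V0 y s r) = zz a s r • V0 y s r := by
    intro y hy a s r
    rcases s with a' | q
    · have e1 : ∀ r : Fin (2 * k), lift (fun j => n' j + 1)
          (Pi.single (e a.1) (δ a) : ∀ j, Module.End ℂ (κ j → ℂ)) (V0 y (.inl a') r) =
            zz a (.inl a') r • V0 y (.inl a') r := by
        intro r
        rw [hV1, hz1]
        by_cases hr : p r
        · rw [if_pos hr, dif_pos hr, hv ⟨r, hr⟩]
          exact ev_spec H _ hδ a (i ⟨r, hr⟩) _ (x ⟨r, hr⟩) (hx ⟨r, hr⟩) _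
        · rw [if_neg hr, dif_neg hr, zero_smul]
          exact ev_out _ a _ (hy a' r hr)
      exact e1 r
    · have e1 : ∀ r : Fin 2, lift (fun j => n' j + 1)
          (Pi.single (e a.1) (δ a) : ∀ j, Module.End ℂ (κ j → ℂ)) (V0 y (.inr q) r) =
            zz a (.inr q) r • V0 y (.inr q) r := by
        rw [Fin.forall_fin_two]
        constructor
        · rw [hV2, hz2]
          exact ev_spec H _ hδ a (i q.1) _ (w q)
            (vac_CE hEvb H (i q.1) (typ_compl (hΨ q.1 q.2)) (hw q)) _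
        · rw [hV3, hz3, zero_smul]
          refine ev_out _ a _ fun i' => ?_
          unfold slot
          refine Pi.single_eq_of_ne (fun h1 => ?_) _
          exact (H.cpl (e i')).1 ⟨i', rfl⟩ ⟨j q, h1.symm⟩
      exact e1 r
  -- the form `F` is killed at the tuples
  obtain ⟨U, hU⟩ : ∃ U : (Fin N → Fin (2 * k) → HW κ (fun j => n' j + 1)) →
      Fin (2 * ∑ s, kk k s) → HW κ (fun j => n' j + 1),
      U = fun y x' => V0 y (eq.symm x').1 (eq.symm x').2 := ⟨_, rfl⟩
  have hFL : ∀ y : Fin N → Fin (2 * k) → HW κ (fun j => n' j + 1),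
      (∀ a r, ¬ p r → ∀ i, y a r (e i) = 0) →
      actForm (lift (fun j => n' j + 1) (ZC b Z)) F (U y) = 0 := by
    intro y hy
    have h1 : actForm (lift (fun j => n' j + 1) (ZC b Z)) F' (U y) = 0 :=
      congrArg (fun G => G (U y)) hkill
    rw [← h1, actForm_apply, actForm_apply]
    refine Finset.sum_congr rfl fun x' _ => ?_
    symm
    refine hF'u _ (fun a x' => zz a (eq.symm x').1 (eq.symm x').2) ?_ hsum
    intro a x''
    by_cases hx' : x'' = x'
    · subst hx'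
      rw [Function.update_self]
      have e1 : lift (fun j => n' j + 1)
          (Pi.single (e a.1) (δ a) : ∀ j, Module.End ℂ (κ j → ℂ))
          (lift (fun j => n' j + 1) (ZC b Z) (U y x'')) = 0 :=
        ev_out _ a _ (lift_ZC_zero H _ _)
      have e2 : zz a (eq.symm x'').1 (eq.symm x'').2 •
          lift (fun j => n' j + 1) (ZC b Z) (U y x'') = 0 := by
        rw [← map_smul, hU]
        show lift (fun j => n' j + 1) (ZC b Z) (zz a (eq.symm x'').1 (eq.symm x'').2 •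
          V0 y (eq.symm x'').1 (eq.symm x'').2) = 0
        rw [← hgood y hy a, comp_zero H]
      rw [e1, e2]
    · rw [Function.update_of_ne hx', hU]
      exact hgood y hy a _ _
  -- the product rule
  obtain ⟨ζ, hζ⟩ : ∃ ζ : {r // p r} × Fin N → ℂ,
      ζ = fun q => ∑ σ, z (i q.1) σ * sg (m (i q.1)) (Ψ q.1 q.2) σ := ⟨_, rfl⟩
  have hζs : ∑ q, ζ q =
      N * ∑ r : {r // p r}, ∑ σ, z (i r) σ * ((nn r σ : ℂ) / 2 - (m (i r) : ℂ) / 4) := by
    rw [hζ, Fintype.sum_prod_type, Finset.mul_sum]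
    refine Finset.sum_congr rfl fun r _ => ?_
    rw [hΨs r (z (i r)) (hz (i r))]
  have hD : ∀ (y : Fin N → Fin (2 * k) → HW κ (fun j => n' j + 1)) q,
      actForm (lift (fun j => n' j + 1) (ZC b Z)) (G (.inr q)) (V0 y (.inr q)) =
        ζ q * G (.inr q) (V0 y (.inr q)) := by
    intro y q
    rw [hG2]
    have e1 : ∀ u : Fin 2 → HW κ (fun j => n' j + 1),
        u 0 = slot (fun j => n' j + 1) (e (i q.1)) 0 (w q) →
        u 1 = slot (fun j => n' j + 1) (b (j q)) 0 (y0 q) →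
        actForm (lift (fun j => n' j + 1) (ZC b Z))
          (Inv_two (bl n' P (e (i q.1)) (b (j q)) (f q))) u =
        ζ q * Inv_two (bl n' P (e (i q.1)) (b (j q)) (f q)) u := by
      intro u hu0 hu1
      rw [actForm_apply, Fin.sum_univ_two, Inv_two_apply, Inv_two_apply, Inv_two_apply,
        Function.update_self, Function.update_of_ne one_ne_zero, Function.update_self,
        Function.update_of_ne zero_ne_one, hu0, hu1, lift_ZC_e H, map_zero, LinearMap.zero_apply,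
        zero_add, bl_apply, bl_apply]
      have e2 : slot (fun j => n' j + 1) (e (i q.1)) 0 (w q) (e (i q.1)) 0 = w q := by
        unfold slot
        rw [Pi.single_eq_same, Pi.single_eq_same]
      have e3 : ∀ y : κ (b (j q)) → ℂ,
          slot (fun j => n' j + 1) (b (j q)) 0 y (b (j q)) 0 = y := by
        intro y
        unfold slot
        rw [Pi.single_eq_same, Pi.single_eq_same]
      rw [Trf_lift_slot, e2, e3, e3, ZC_in, ← H.Z3 _ _ _ (hf q)]
      have e4 := H.Z2 (i q.1) (w q) (f q (y0 q))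
      have e5 := ((hEvb (κ (e (i q.1)) → ℂ) (K (i q.1)) (c (i q.1)) (m (i q.1)) (h (i q.1))
        (t (i q.1)) (cmr H (i q.1)) (Ψ q.1 q.2)ᶜ (typ_compl (hΨ q.1 q.2))).2.1 (w q) (hw q))
          (Z (e (i q.1))) (M (i q.1)) (H.Z1 (i q.1)) (hM (i q.1))
      have e6 : ∑ σ, (M (i q.1) σ).trace * sg 1 (Ψ q.1 q.2)ᶜ σ = -ζ q := by
        rw [hζ, ← Finset.sum_neg_distrib]
        refine Finset.sum_congr rfl fun σ _ => ?_
        rw [hMz, sg_compl]
        unfold sg
        split_ifs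
        · push_cast
          ring
        · push_cast
          ring
      rw [e5, e6, map_smul, LinearMap.smul_apply, smul_eq_mul] at e4
      linear_combination e4
    exact e1 _ (hV2 y q) (hV3 y q)
  have hR : ∀ (y : Fin N → Fin (2 * k) → HW κ (fun j => n' j + 1)) q,
      G (.inr q) (V0 y (.inr q)) ≠ 0 := by
    intro y q
    rw [hG2]
    have e1 : ∀ u : Fin 2 → HW κ (fun j => n' j + 1),
        u 0 = slot (fun j => n' j + 1) (e (i q.1)) 0 (w q) →
        u 1 = slot (fun j => n' j + 1) (b (j q)) 0 (y0 q) →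
        Inv_two (bl n' P (e (i q.1)) (b (j q)) (f q)) u ≠ 0 := by
      intro u hu0 hu1
      rw [Inv_two_apply, hu0, hu1, bl_apply]
      have e2 : slot (fun j => n' j + 1) (e (i q.1)) 0 (w q) (e (i q.1)) 0 = w q := by
        unfold slot
        rw [Pi.single_eq_same, Pi.single_eq_same]
      have e3 : slot (fun j => n' j + 1) (b (j q)) 0 (y0 q) (b (j q)) 0 = y0 q := by
        unfold slot
        rw [Pi.single_eq_same, Pi.single_eq_same]
      rw [e2, e3]
      exact hψ q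
    exact e1 _ (hV2 y q) (hV3 y q)
  have key : ∀ y : Fin N → Fin (2 * k) → HW κ (fun j => n' j + 1),
      (∀ a r, ¬ p r → ∀ i, y a r (e i) = 0) →
      ∑ a, actForm (lift (fun j => n' j + 1) (ZC b Z)) α (fun r => if p r then v r else y a r) *
        ∏ a' ∈ Finset.univ.erase a, α (fun r => if p r then v r else y a' r) +
      (∑ q, ζ q) * ∏ a, α (fun r => if p r then v r else y a r) = 0 := by
    intro y hy
    have h1 := hFact (lift (fun j => n' j + 1) (ZC b Z)) (U y)
    rw [hFL y hy] at h1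
    have hUV : ∀ s, (fun r => U y (eq ⟨s, r⟩)) = V0 y s := by
      intro s
      funext r
      rw [hU]
      show V0 y (eq.symm (eq ⟨s, r⟩)).1 (eq.symm (eq ⟨s, r⟩)).2 = V0 y s r
      rw [Equiv.symm_apply_apply]
    have h2 : ∑ s, actForm (lift (fun j => n' j + 1) (ZC b Z)) (G s) (V0 y s) *
        ∏ s' ∈ Finset.univ.erase s, G s' (V0 y s') = 0 := by
      rw [h1]
      refine Finset.sum_congr rfl fun s _ => ?_
      rw [hUV s]
      congr 1
      refine Finset.prod_congr rfl fun s' _ => ?_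
      rw [hUV s']
    have h3 := alg_sum (fun s => actForm (lift (fun j => n' j + 1) (ZC b Z)) (G s) (V0 y s))
      (fun s => G s (V0 y s)) ζ (hD y) (hR y) h2
    have h4 : ∀ a, V0 y (.inl a) = (fun r : Fin (2 * k) => if p r then v r else y a r) :=
      fun a => funext fun r => hV1 y a r
    have h5 : ∀ a, actForm (lift (fun j => n' j + 1) (ZC b Z)) (G (.inl a)) (V0 y (.inl a)) =
        actForm (lift (fun j => n' j + 1) (ZC b Z)) α (fun r => if p r then v r else y a r) := by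
      intro a
      rw [h4, hG1]
      rfl
    have h6 : ∀ a, G (.inl a) (V0 y (.inl a)) = α (fun r => if p r then v r else y a r) := by
      intro a
      rw [h4, hG1]
      rfl
    rw [Finset.sum_congr rfl fun a _ => by rw [h5 a, Finset.prod_congr rfl fun a' _ => h6 a'],
      Finset.prod_congr rfl fun a _ => h6 a] at h3
    exact h3
  -- the power trick
  obtain ⟨Λ, hΛ⟩ : ∃ Λ : ℂ, Λ =
      ∑ r : {r // p r}, ∑ σ, z (i r) σ * ((nn r σ : ℂ) / 2 - (m (i r) : ℂ) / 4) := ⟨_, rfl⟩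
  rw [← hΛ] at hζs ⊢
  have hvv : (fun r => if p r then v r else v r) = v := funext fun r => ite_self _
  by_cases h0 : ∃ y : {y : Fin (2 * k) → HW κ (fun j => n' j + 1) //
      ∀ r, ¬ p r → ∀ i, y r (e i) = 0}, α (fun r => if p r then v r else y.1 r) ≠ 0
  · have h1 := pow_trick hN0
      (fun y : {y : Fin (2 * k) → HW κ (fun j => n' j + 1) // ∀ r, ¬ p r → ∀ i, y r (e i) = 0} =>
        α (fun r => if p r then v r else y.1 r))
      (fun y => actForm (lift (fun j => n' j + 1) (ZC b Z)) α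
        (fun r => if p r then v r else y.1 r) + Λ * α (fun r => if p r then v r else y.1 r))
      (by
        intro y
        have h2 := key (fun a => (y a).1) (fun a => (y a).2)
        rw [hζs] at h2
        rw [← h2]
        have h3 : ∀ a, (actForm (lift (fun j => n' j + 1) (ZC b Z)) α
            (fun r => if p r then v r else (y a).1 r) +
              Λ * α (fun r => if p r then v r else (y a).1 r)) *
            ∏ a' ∈ Finset.univ.erase a, α (fun r => if p r then v r else (y a').1 r) =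
            actForm (lift (fun j => n' j + 1) (ZC b Z)) α
              (fun r => if p r then v r else (y a).1 r) *
            ∏ a' ∈ Finset.univ.erase a, α (fun r => if p r then v r else (y a').1 r) +
            Λ * ∏ a, α (fun r => if p r then v r else (y a).1 r) := by
          intro a
          rw [add_mul, mul_assoc Λ, Finset.mul_prod_erase _
            (fun a => α (fun r => if p r then v r else (y a).1 r)) (Finset.mem_univ a)]
        rw [Finset.sum_congr rfl fun a _ => h3 a, Finset.sum_add_distrib, Finset.sum_const,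
          Finset.card_univ, Fintype.card_fin, nsmul_eq_mul]
        ring) h0 ⟨v, hv0⟩
    simp only [hvv] at h1
    exact h1
  · push Not at h0
    have h1 : ∀ y : Fin (2 * k) → HW κ (fun j => n' j + 1), (∀ r, p r → y r = v r) →
        (∀ r, ¬ p r → ∀ i, y r (e i) = 0) → α y = 0 := by
      intro y hy1 hy2
      rw [← h0 ⟨y, hy2⟩]
      congr 1
      funext r
      by_cases hr : p r
      · rw [if_pos hr]
        exact hy1 r hr
      · rw [if_neg hr]
    rw [h1 v (fun _ _ => rfl) hv0, mul_zero, add_zero, actForm_apply]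
    refine Finset.sum_eq_zero fun r _ => ?_
    by_cases hr : p r
    · rw [hv ⟨r, hr⟩, lift_ZC_e H]
      exact α.map_coord_zero r (by rw [Function.update_self])
    · apply h1
      · intro r' hr'
        rw [Function.update_of_ne]
        intro h2
        exact hr (h2 ▸ hr')
      · intro r' hr' i'
        by_cases h2 : r' = r
        · subst h2
          rw [Function.update_self]
          exact lift_ZC_zero H _ _ i'
        · rw [Function.update_of_ne h2]
          exact hv0 r' hr' i'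

lemma sing_spec (H : FamU e b P c h t Z) (n : J → ℕ)
    {Y : ∀ i, Module.End ℂ (κ (e i) → ℂ)} {z : ∀ i, (K i →+* ℂ) → ℂ}
    (hY : ∀ i, IsCen (t i) (Y i) (z i)) (i' i : I)
    (g : (K i →+* ℂ) → ℂ) (x : κ (e i) → ℂ) (hx : CE (t i) g x) (l : Fin (n (e i))) :
    lift n (Pi.single (e i') (Y i') : ∀ j, Module.End ℂ (κ j → ℂ)) (slot n (e i) l x) =
      (if i = i' then ∑ σ, z i σ * g σ else 0) • slot n (e i) l x := by
  rw [Trf_lift_slot]
  by_cases hi : i = i'
  · subst hi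
    rw [Pi.single_eq_same, if_pos rfl, ← slot_smul]
    congr 1
    exact hx (Y i) _ (hY i)
  · rw [if_neg hi, zero_smul, Pi.single_eq_of_ne (fun h => hi (H.inj h))]
    show slot n (e i) l (0 : κ (e i) → ℂ) = 0
    rw [← zero_smul ℂ (0 : κ (e i) → ℂ), slot_smul, zero_smul]

/-- the first components -/
def pr1 (κ : J → Type) (n : J → ℕ) : HW κ (fun j => n j + 1) →ₗ[ℂ] HW κ n where
  toFun v j l := v j l.castSucc
  map_add' _ _ := rfl
  map_smul' _ _ := rfl

/-- extension by zero -/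
def ex1 (κ : J → Type) (n : J → ℕ) (v : HW κ n) : HW κ (fun j => n j + 1) :=
  fun j l => if h : l.1 < n j then v j ⟨l.1, h⟩ else 0

lemma pr1_ex1 (n : J → ℕ) (v : HW κ n) : pr1 κ n (ex1 κ n v) = v := by
  funext j l
  show (if h : l.castSucc.1 < n j then v j ⟨l.castSucc.1, h⟩ else 0) = v j l
  rw [dif_pos (show l.castSucc.1 < n j from l.2)]
  rfl

lemma kill_succ {n : J → ℕ} (h : KillZ P Z (fun j => n j + 1)) : KillZ P Z n := by
  intro k α hB hA
  have h1 := h k (α.compLinearMap fun _ => pr1 κ n)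
    (fun v hv => hB _ fun r j l => hv r j l.castSucc)
    (fun v hv => hA _ fun r j l a => hv r j l.castSucc a)
  apply MultilinearMap.ext
  intro v
  have h2 : actForm (lift (fun j => n j + 1) Z) (α.compLinearMap fun _ => pr1 κ n)
      (fun r => ex1 κ n (v r)) = 0 := congrArg (fun G => G (fun r => ex1 κ n (v r))) h1
  rw [_root_.zero_apply, ← h2, actForm_apply, actForm_apply]
  refine Finset.sum_congr rfl fun r _ => ?_
  rw [MultilinearMap.compLinearMap_apply]
  congr 1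
  funext r'
  by_cases hr : r' = r
  · subst hr
    rw [Function.update_self, Function.update_self]
    funext j l
    show Z j (v r' j l) = Z j (ex1 κ n (v r') j l.castSucc)
    have h3 := congrFun (congrFun (pr1_ex1 (κ := κ) n (v r')) j) l
    rw [← h3]
    rfl
  · rw [Function.update_of_ne hr, Function.update_of_ne hr, pr1_ex1]

end fam

end Cenx

open Cenx in
theorem thm_Cen (hEva : St_Eva) (hEvb : St_Evb) (hDel : St_Del) (hCnb : St_Cnb) (hCna : St_Cna)
    (hPol : St_Pol) (hPrd : St_Prd) (hRlu : St_Rlu) (hNsc : St_Nsc) : St_Cen := by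
  classical
  intro I B J _ _ _ _ _ _ e b κ _ _ ϖ P K _ _ c m h t Z H n
  choose Y₁ Y₂ M M₁ z hZ hY₁ hY₁a htr hY₂ hz hM hMz using exists_split H
  refine kill_succ ?_
  intro k α hB hA
  have hα : GrF P (fun j => n j + 1) α := ⟨hB, hA⟩
  obtain ⟨S, hS⟩ : ∃ S : Set (HW κ (fun j => n j + 1)), S = {v | (∀ i, v (e i) = 0) ∨
      ∃ (i : I) (l : Fin (n (e i) + 1)) (x : κ (e i) → ℂ) (nn : (K i →+* ℂ) → ℕ),
        v = slot (fun j => n j + 1) (e i) l x ∧ (∀ σ, nn σ + nn (cj σ) = m i) ∧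
        CE (t i) (fun σ => (nn σ : ℂ) / 2 - (m i : ℂ) / 4) x} := ⟨_, rfl⟩
  refine Inv_span _ S ?_ ?_
  · have h1 := span_slot (κ := κ) (fun j => n j + 1)
      (fun j => {x | ∀ l, slot (fun j => n j + 1) j l x ∈ S}) (by
        intro j
        by_cases hj : ∃ i, e i = j
        · obtain ⟨i, rfl⟩ := hj
          rw [eq_top_iff, ← hEva (κ (e i) → ℂ) (K i) (c i) (m i) (h i) (t i) (cmr H i)]
          refine Submodule.span_mono ?_
          rintro x ⟨nn, h1, h2⟩ l
          rw [hS]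
          exact Or.inr ⟨i, l, x, nn, rfl, h1, h2⟩
        · rw [eq_top_iff]
          intro x _
          refine Submodule.subset_span fun l => ?_
          rw [hS]
          left
          intro i
          unfold slot
          exact Pi.single_eq_of_ne (fun h1 => hj ⟨i, h1⟩) _)
    rw [eq_top_iff, ← h1]
    refine Submodule.span_mono ?_
    rintro _ ⟨j, l, x, hx, rfl⟩
    exact hx l
  · intro v hv
    obtain ⟨p, hp⟩ : ∃ p : Fin (2 * k) → Prop, p = fun r => ¬ ∀ i, v r (e i) = 0 := ⟨_, rfl⟩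
    have hp0 : ∀ r, ¬ p r → ∀ i, v r (e i) = 0 := by
      intro r hr
      rw [hp] at hr
      exact not_not.1 hr
    have hp1 : ∀ r, p r → ¬ ∀ i, v r (e i) = 0 := by
      intro r hr
      rw [hp] at hr
      exact hr
    have h1 : ∀ r : {r // p r}, ∃ (i : I) (l : Fin (n (e i) + 1)) (x : κ (e i) → ℂ)
        (nn : (K i →+* ℂ) → ℕ), v r.1 = slot (fun j => n j + 1) (e i) l x ∧
        (∀ σ, nn σ + nn (cj σ) = m i) ∧
        CE (t i) (fun σ => (nn σ : ℂ) / 2 - (m i : ℂ) / 4) x := by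
      intro r
      have h3 := hv r.1
      rw [hS] at h3
      exact h3.resolve_left (hp1 r.1 r.2)
    choose i l x nn hvr hnn hx using h1
    have h2 := core hDel hEvb hCnb hCna hPol hEva hPrd hRlu hNsc H α hα p v hp0 i l x nn hnn hx
      hvr z hz M hM hMz
    have h3 : ∀ i', actForm (lift (fun j => n j + 1)
        (Pi.single (e i') (Z (e i')) : ∀ j, Module.End ℂ (κ j → ℂ))) α v =
        ∑ r : {r // p r}, (if i r = i' then
          ∑ σ, z (i r) σ * ((nn r σ : ℂ) / 2 - (m (i r) : ℂ) / 4) else 0) * α v := by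
      intro i'
      have h4 : actL α (e i') (Y₁ i') = 0 := by
        rw [actL_apply]
        exact H.kilS _ i' _ _ (hY₁ i') (hY₁a i') (htr i') k α hB hA
      rw [← actL_apply, hZ i', map_add, h4, zero_add, actL_apply, actForm_apply,
        ← Fintype.sum_subtype_add_sum_subtype p]
      have h5 : ∑ r : {r // ¬ p r}, α (Function.update v r.1 (lift (fun j => n j + 1)
          (Pi.single (e i') (Y₂ i') : ∀ j, Module.End ℂ (κ j → ℂ)) (v r.1))) = 0 := by
        refine Finset.sum_eq_zero fun r _ => ?_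
        refine α.map_coord_zero r.1 ?_
        rw [Function.update_self]
        funext j l
        rw [lift_apply]
        by_cases hj : j = e i'
        · subst hj
          rw [hp0 r.1 r.2]
          exact map_zero _
        · rw [Pi.single_eq_of_ne hj]
          rfl
      rw [h5, add_zero]
      refine Finset.sum_congr rfl fun r _ => ?_
      have h6 : v r.1 = slot (fun j => n j + 1) (e (i r)) (l r) (x r) := hvr r
      have h7 := sing_spec H (fun j => n j + 1) hY₂ i' (i r) _ (x r) (hx r) (l r)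
      rw [← h6] at h7
      rw [h7, MultilinearMap.map_update_smul, Function.update_eq_self, smul_eq_mul]
    rw [lift_split H, actForm_add, _root_.add_apply]
    have h4 : actForm (∑ i, lift (fun j => n j + 1)
        (Pi.single (e i) (Z (e i)) : ∀ j, Module.End ℂ (κ j → ℂ))) α v =
        ∑ i', actForm (lift (fun j => n j + 1)
          (Pi.single (e i') (Z (e i')) : ∀ j, Module.End ℂ (κ j → ℂ))) α v := by
      simp only [actForm_apply, LinearMap.sum_apply, MultilinearMap.map_update_sum]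
      exact Finset.sum_comm
    rw [h4, Finset.sum_congr rfl fun i' _ => h3 i', Finset.sum_comm]
    simp only [← Finset.sum_mul, Finset.sum_ite_eq, Finset.mem_univ, if_true]
    exact h2

end Pool.Agent.KTW
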