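import Pool.Agent.KTW.StU
import Pool.Agent.KTW.Bsp

/-!
# KTW [Cmo]: complex multiplication, `m = 1`
-/

set_option autoImplicit false

open scoped ComplexConjugate

namespace Pool.Agent.KTW

open Module NumberField Pool.Agent.GPC

/-- every vector is a sum of vectors which are killed by one of `e σ`, `e (conj σ)` for every `σ` -/
lemma cmo_span {A : AbVar} {K : Type} [Field K] [NumberField K] {c : K →+* K}
    (S : A.KugaSatakeMul K c 1) (hc : c ≠ RingHom.id K) (N : Submodule ℂ A.H1)
    (hN : ∀ v : A.H1, (∀ σ : K →+* ℂ, S.e σ 0 v = 0 ∨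
      S.e (ComplexEmbedding.conjugate σ) 0 v = 0) → v ∈ N) (v : A.H1) : v ∈ N := by
  classical
  have hcc : ∀ σ : K →+* ℂ,
      ComplexEmbedding.conjugate (ComplexEmbedding.conjugate σ) = σ := by
    intro σ
    refine RingHom.ext fun x => ?_
    rw [ComplexEmbedding.conjugate_coe_eq, ComplexEmbedding.conjugate_coe_eq, Complex.conj_conj]
  have hne : ∀ σ : K →+* ℂ, σ ≠ ComplexEmbedding.conjugate σ := by
    intro σ h
    apply hc
    refine RingHom.ext fun x => ?_
    apply σ.injective
    rw [← S.conjugation, ← h]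
    rfl
  have hh : S.h 0 0 ≠ 0 := by
    intro h0
    obtain ⟨σ₀, x, ⟨s, hs, -⟩, -⟩ := S.hodge
    rw [Fin.sum_univ_one, Fin.sum_univ_one, h0, map_zero, mul_zero, zero_mul, Complex.zero_re,
      mul_zero] at hs
    exact lt_irrefl _ hs
  let E : (K →+* ℂ) → (A.H1 →ₗ[ℂ] A.H1) := fun σ => (S.linear σ 0).mk' _
  have hE : ∀ σ w, E σ w = S.e σ 0 w := fun _ _ => rfl
  have hor : ∀ σ τ : K →+* ℂ, τ ≠ ComplexEmbedding.conjugate σ → ∀ w, E σ (E τ w) = -(E τ (E σ w)) := by
    intro σ τ h w
    have h1 := S.orthogonal σ τ h 0 0 w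
    rw [← hE, ← hE, ← hE, ← hE] at h1
    exact eq_neg_of_add_eq_zero_left h1
  have hsq : ∀ σ w, E σ (E σ w) = 0 := by
    intro σ w
    have h1 := hor σ σ (hne σ) w
    have h2 : (2 : ℂ) • E σ (E σ w) = 0 := by
      rw [two_smul]
      nth_rewrite 1 [h1]
      exact neg_add_cancel _
    exact (smul_eq_zero.mp h2).resolve_left two_ne_zero
  have hcl : ∀ σ w, E σ (E (ComplexEmbedding.conjugate σ) w) +
      E (ComplexEmbedding.conjugate σ) (E σ w) = (2 * σ (S.h 0 0)) • w :=
    fun σ w => S.clifford σ 0 0 w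
  have key : ∀ s : Finset (K →+* ℂ), ∀ w : A.H1, (∀ σ : K →+* ℂ, σ ∉ s →
      E σ w = 0 ∨ E (ComplexEmbedding.conjugate σ) w = 0) → w ∈ N := by
    intro s
    induction s using Finset.induction_on with
    | empty =>
      intro w hw
      exact hN w fun σ => hw σ (by simp)
    | insert τ s hτ ih =>
      intro w hw
      -- a product of two operators keeps the property
      have step : ∀ ρ : K →+* ℂ, (ρ = τ ∨ ρ = ComplexEmbedding.conjugate τ) →
          E ρ (E (ComplexEmbedding.conjugate ρ) w) ∈ N := by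
        intro ρ hρ
        refine ih _ fun σ hσ => ?_
        by_cases h1 : σ = ρ
        · left; rw [h1]; exact hsq ρ _
        by_cases h2 : σ = ComplexEmbedding.conjugate ρ
        · right
          rw [h2, hcc]
          exact hsq ρ _
        have hστ : σ ≠ τ := by
          rintro rfl
          rcases hρ with h | h
          · exact h1 h.symm
          · exact h2 (by rw [h, hcc])
        have h3 : ComplexEmbedding.conjugate σ ≠ ρ := fun h => h2 (by rw [← h, hcc])
        have h4 : ComplexEmbedding.conjugate σ ≠ ComplexEmbedding.conjugate ρ := fun h =>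
          h1 (by rw [← hcc σ, h, hcc])
        rcases hw σ (by rw [Finset.mem_insert]; push Not; exact ⟨hστ, hσ⟩) with h | h
        · left
          rw [hor σ ρ (fun h => h3 h.symm), hor σ (ComplexEmbedding.conjugate ρ)
            (fun h => h4 h.symm), h, map_zero, neg_zero, map_zero, neg_zero]
        · right
          rw [hor (ComplexEmbedding.conjugate σ) ρ (fun h => h1 (by rw [h, hcc])),
            hor (ComplexEmbedding.conjugate σ) (ComplexEmbedding.conjugate ρ)
              (fun h => h2 (by rw [h, hcc])), h, map_zero, neg_zero, map_zero, neg_zero]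
      have h1 := step τ (Or.inl rfl)
      have h2 := step (ComplexEmbedding.conjugate τ) (Or.inr rfl)
      rw [hcc] at h2
      have h3 := N.add_mem h1 h2
      rw [hcl] at h3
      have h4 : (2 * τ (S.h 0 0)) ≠ 0 := mul_ne_zero two_ne_zero
        (fun h => hh (τ.injective (by rw [h, map_zero])))
      have h5 := N.smul_mem (2 * τ (S.h 0 0))⁻¹ h3
      rwa [smul_smul, inv_mul_cancel₀ h4, one_smul] at h5
  exact key Finset.univ v fun σ hσ => absurd (Finset.mem_univ σ) hσ

/-- [CMO] -/
theorem thm_Cmo (hCmp : St_Cmp) : St_Cmo := by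
  intro A K _ _ c S hc hab
  apply thm_Bsp
  intro v _
  by_cases hg : A.g = 0
  · have hv : v = 0 := by
      funext i
      rcases i with i | i
      · exact absurd i.2 (by omega)
      · exact absurd i.2 (by omega)
    rw [hv]
    exact Submodule.zero_mem _
  refine cmo_span S hc _ (fun w hw => ?_) v
  have h1 := hCmp A K c 1 S hg hc one_ne_zero hab w (fun σ => ?_)
  · refine Submodule.span_mono ?_ h1
    rintro u ⟨B, f, z, -, hs, hCM, hf, hu⟩
    exact ⟨B, f, z, ⟨hs, Or.inr (Or.inr hCM)⟩, hf, hu⟩
  · rcases hw σ with h | h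
    · left; intro a; rw [Subsingleton.elim a 0]; exact h
    · right; intro a; rw [Subsingleton.elim a 0]; exact h

end Pool.Agent.KTW
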