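import Pool.Agent.KTW.StV
import Pool.Agent.Helper8.T1.Simple
import Pool.Agent.Helper39.AF.Mor

/-!
# KTW [Enl]: enlarging an elementary family
-/

set_option autoImplicit false

namespace Pool.Agent.KTW

open Module NumberField Pool.Agent.GPC Pool.Agent.Helper7 Pool.Agent.Helper39.AF

/-- on a simple abelian variety with complex multiplication not all endomorphisms are
self-adjoint -/
lemma enl_adj {B : AbVar} {K : Type} [Field K] [NumberField K] {ρ : K → B.H1 → B.H1}
    (C : B.HasCM K ρ) (hs : B.IsSimple) : ∃ f, B.IsEnd f ∧ ¬ B.IsAdjoint f f := by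
  obtain ⟨L, iF, iN, ⟨hCM, ⟨D⟩⟩, -⟩ := Helper8.T1.cm_of_hasCM C hs
  have hg : 0 < B.g := by
    have h1 : 0 < finrank ℚ K := finrank_pos
    rw [C.degree] at h1
    omega
  obtain ⟨x, hx⟩ : ∃ x : L, cmConj L x ≠ x := by
    by_contra hcon
    push Not at hcon
    have σ : L →+* ℂ := Classical.choice (inferInstance : Nonempty (L →+* ℂ))
    refine IsTotallyComplex.complexEmbedding_not_isReal σ (ComplexEmbedding.isReal_iff.mpr ?_)
    refine RingHom.ext fun x => ?_
    rw [ComplexEmbedding.conjugate_coe_eq,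
      ← IsCMField.complexEmbedding_complexConj L σ x]
    exact congrArg σ (hcon x)
  refine ⟨D.ρ x, D.endo x, fun hadj => ?_⟩
  have hz : ∀ y : L, y ≠ 0 → ∀ w : B.H1, D.ρ y w = 0 → w = 0 := by
    intro y hy w hw
    have h2 : D.ρ (y⁻¹ * y) w = D.ρ y⁻¹ (D.ρ y w) := D.mul _ _ _
    rw [inv_mul_cancel₀ hy, D.one, hw] at h2
    rw [h2]
    have h3 := (D.endo y⁻¹).linear.map_smul 0 (0 : B.H1)
    rwa [zero_smul, zero_smul] at h3
  have h5 : (Pi.single (Sum.inl ⟨0, hg⟩) 1 : B.H1) = 0 := by
    refine hz (cmConj L x - x) (sub_ne_zero.mpr hx) _ ?_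
    have h3 := D.add (cmConj L x - x) x (Pi.single (Sum.inl ⟨0, hg⟩) 1 : B.H1)
    rw [sub_add_cancel] at h3
    have h4 : D.ρ (cmConj L x) (Pi.single (Sum.inl ⟨0, hg⟩) 1 : B.H1) =
        D.ρ x (Pi.single (Sum.inl ⟨0, hg⟩) 1 : B.H1) := by
      have h6 : D.ρ (cmConj L x) (Pi.single (Sum.inl ⟨0, hg⟩) 1 : B.H1) -
          D.ρ x (Pi.single (Sum.inl ⟨0, hg⟩) 1 : B.H1) = 0 := by
        apply Helper71.AF.ndr (pData B)
        intro u
        rw [map_sub, sub_eq_zero]
        have e1 := D.rosati x u (Pi.single (Sum.inl ⟨0, hg⟩) 1 : B.H1)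
        have e2 := hadj u (Pi.single (Sum.inl ⟨0, hg⟩) 1 : B.H1)
        exact e1.symm.trans e2
      exact sub_eq_zero.mp h6
    rw [h4] at h3
    have h7 := congrArg (fun w => w - D.ρ x (Pi.single (Sum.inl ⟨0, hg⟩) 1 : B.H1)) h3
    simpa using h7.symm
  have h6 := congrFun h5 (Sum.inl ⟨0, hg⟩)
  rw [Pi.single_eq_same] at h6
  exact one_ne_zero h6

/-- a field which acts on a basic abelian variety by complex multiplication is abelian -/
lemma enl_ab {B : AbVar} (hB : B.IsBasic) {K : Type} [Field K] [NumberField K]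
    {ρ : K → B.H1 → B.H1} (C : B.HasCM K ρ) : IsAbelianGalois ℚ K := by
  obtain ⟨hs, hg | ⟨K₀, iF, iN, hR, ⟨R⟩⟩ | ⟨K₂, iF, iN, ρ₂, C₂, hab⟩⟩ := hB
  · exfalso
    obtain ⟨f, hf, hn⟩ := enl_adj C hs
    obtain ⟨c, hc⟩ := hg.2 f hf.linear hf.betti hf.hodge
    apply hn
    intro u v
    show (pData B).ψ (f u) v = (pData B).ψ u (f v)
    rw [hc u, hc v, map_smul, LinearMap.smul_apply, map_smul]
  · exfalso
    obtain ⟨f, hf, hn⟩ := enl_adj C hs
    obtain ⟨x, hx⟩ := Helper8.T1.cm_full C hs f hf
    obtain ⟨y, hy⟩ := R.centralizer f hf (fun z v => by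
      obtain ⟨w, hw⟩ := Helper8.T1.cm_full C hs (R.ρ z) (R.endo z)
      rw [hw, hx, hx, hw, ← C.mul, ← C.mul, mul_comm])
    apply hn
    intro u v
    have h1 := R.rosati y u v
    rw [← hy, ← hy] at h1
    exact h1
  · have hinj : ∀ x y : K₂, (∀ v, ρ₂ x v = ρ₂ y v) → x = y := by
      intro x y h
      have h1 : Helper8.T1.cmRho C₂ x = Helper8.T1.cmRho C₂ y := LinearMap.ext h
      have hg : 0 < B.g := by
        have h1 : 0 < finrank ℚ K := finrank_pos
        rw [C.degree] at h1
        omega
      have hnt : Nontrivial (Module.End ℂ B.H1) := by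
        have : Nontrivial B.H1 := by
          refine ⟨⟨Pi.single (Sum.inl ⟨0, hg⟩) 1, 0, fun h => ?_⟩⟩
          have h2 := congrFun h (Sum.inl ⟨0, hg⟩)
          rw [Pi.single_eq_same] at h2
          exact one_ne_zero h2
        infer_instance
      exact (Helper8.T1.cmRho C₂).injective h1
    choose e he using fun x => Helper8.T1.cm_full C₂ hs (ρ x) (C.endo x)
    let E : K →+* K₂ :=
      { toFun := e
        map_one' := hinj _ _ fun v => by rw [← he, C.one, C₂.one]
        map_mul' := fun x y => hinj _ _ fun v => by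
          rw [← he, C.mul, he, he, C₂.mul]
        map_zero' := hinj _ _ fun v => by
          rw [← he]
          have h2 := C.add 0 0 v
          rw [add_zero] at h2
          have h3 := C₂.add 0 0 v
          rw [add_zero] at h3
          have h4 : ρ 0 v = 0 := by
            have := congrArg (fun w => w - ρ 0 v) h2
            simpa using this.symm
          have h5 : ρ₂ 0 v = 0 := by
            have := congrArg (fun w => w - ρ₂ 0 v) h3
            simpa using this.symm
          rw [h4, h5]
        map_add' := fun x y => hinj _ _ fun v => by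
          rw [← he, C.add, he, he, C₂.add] }
    exact IsAbelianGalois.of_algHom (E.toRatAlgHom : K →ₐ[ℚ] K₂)

/-- a simple abelian variety with a morphism, not zero, from a member of the family -/
lemma enl_quot {L : Type} {D : L → AbVar} {B : AbVar} (l : L) {f : (D l).H1 → B.H1}
    (hf : (D l).IsMor B f) (hb : Function.Bijective f) : B.IsQuotientOf D := by
  intro v
  obtain ⟨u, hu⟩ := hb.2 v
  exact Submodule.subset_span ⟨l, f, u, hf, hu.symm⟩

/-- [ENL] -/
theorem thm_Enl : St_Enl := by
  classical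
  intro L _ D hD X _ B hB
  have key : ∀ s : Finset X, ∃ (L' : Type) (_ : Fintype L') (_ : DecidableEq L')
      (D' : L' → AbVar), IsElementary D' ∧ (∀ l, (D l).IsQuotientOf D') ∧
        ∀ x ∈ s, (B x).IsQuotientOf D' := by
    intro s
    induction s using Finset.induction_on with
    | empty =>
      refine ⟨L, inferInstance, Classical.decEq L, D, hD, fun l v => ?_, fun x hx => by simp at hx⟩
      exact Submodule.subset_span ⟨l, fun v => v, v, isMor_id _, rfl⟩
    | insert x s hx ih =>
      obtain ⟨L', i1, i2, D', hE, hl, hs⟩ := ih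
      have hBx := hB x
      by_cases h1 : ∃ (l : L') (f : (D' l).H1 → (B x).H1), (D' l).IsMor (B x) f ∧ ∃ v, f v ≠ 0
      · obtain ⟨l, f, hf, h0⟩ := h1
        refine ⟨L', i1, i2, D', hE, hl, fun y hy => ?_⟩
        rcases Finset.mem_insert.mp hy with rfl | hy
        · exact enl_quot l hf (bijective_of_simple (hE.2.1 l).1 hBx.1 f hf h0)
        · exact hs y hy
      by_cases h2 : ∃ (l : L') (f : (B x).H1 → (D' l).H1), (B x).IsMor (D' l) f ∧ ∃ v, f v ≠ 0
      · obtain ⟨l, f, hf, h0⟩ := h2
        have hb := bijective_of_simple hBx.1 (hE.2.1 l).1 f hf h0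
        obtain ⟨f', hf', e1, e2⟩ := exists_inv_mor _ _ f hf hb
        refine ⟨L', i1, i2, D', hE, hl, fun y hy => ?_⟩
        rcases Finset.mem_insert.mp hy with rfl | hy
        · exact enl_quot l hf' ⟨Function.LeftInverse.injective e2,
            Function.RightInverse.surjective e1⟩
        · exact hs y hy
      push Not at h1 h2
      refine ⟨Option L', inferInstance, inferInstance, fun o => o.elim (B x) D', ⟨?_, ?_, ?_⟩,
        fun l v => ?_, fun y hy v => ?_⟩
      · intro i j hij f hf v
        rcases i with _ | i <;> rcases j with _ | j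
        · exact absurd rfl hij
        · exact h2 j f hf v
        · exact h1 i f hf v
        · exact hE.1 i j (fun h => hij (congrArg some h)) f hf v
      · intro j
        rcases j with _ | j
        · refine ⟨hBx.1, ?_⟩
          rcases hBx.2 with h | h | ⟨K, iK, iN, ρ, hC, hab⟩
          · exact Or.inl h
          · exact Or.inr (Or.inl h)
          · exact Or.inr (Or.inr ⟨K, iK, iN, ρ, hC, Or.inl hab⟩)
        · exact hE.2.1 j
      · intro i j hij K K' _ _ _ _ ρ ρ' hC hC' hn hn'
        rcases i with _ | i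
        · exact absurd (enl_ab hBx hC) hn
        rcases j with _ | j
        · exact absurd (enl_ab hBx hC') hn'
        exact hE.2.2 i j (fun h => hij (congrArg some h)) K K' ρ ρ' hC hC' hn hn'
      · refine Submodule.span_mono ?_ (hl l v)
        rintro w ⟨j, f, u, hf, hw⟩
        exact ⟨some j, f, u, hf, hw⟩
      · rcases Finset.mem_insert.mp hy with rfl | hy
        · exact Submodule.subset_span ⟨none, fun v => v, v, isMor_id _, rfl⟩
        · refine Submodule.span_mono ?_ (hs y hy v)
          rintro w ⟨j, f, u, hf, hw⟩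
          exact ⟨some j, f, u, hf, hw⟩
  obtain ⟨L', i1, i2, D', hE, hl, hs⟩ := key Finset.univ
  exact ⟨L', i1, i2, D', hE, hl, fun x => hs x (Finset.mem_univ x)⟩

end Pool.Agent.KTW
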