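import Pool.Agent.KTW.StV

/-!
# KTW [Ext]: from a family to a subfamily
-/

set_option autoImplicit false

namespace Pool.Agent.KTW

open Module Pool.Agent.Helper7 Pool.Agent.K3P

/-- [EXT] -/
theorem thm_Ext : St_Ext := by
  classical
  intro I J _ _ _ _ e he κ _ _ ϖ P Z hK n' k α hQ hA
  obtain ⟨M, hM⟩ : ∃ M : ℕ, ∀ i, n' i ≤ M :=
    ⟨∑ i, n' i, fun i => Finset.single_le_sum (f := n') (fun _ _ => Nat.zero_le _)
      (Finset.mem_univ i)⟩
  let R : HW κ (fun _ => M) →ₗ[ℂ] HW (fun i => κ (e i)) n' :=
    { toFun := fun w i m => w (e i) (Fin.castLE (hM i) m)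
      map_add' := fun _ _ => rfl
      map_smul' := fun _ _ => rfl }
  have hRl : ∀ w, R (lift (fun _ => M) Z w) = lift n' (fun i => Z (e i)) (R w) := by
    intro w
    funext i m
    rw [lift_apply]
    show lift (fun _ => M) Z w (e i) (Fin.castLE (hM i) m) = Z (e i) (w (e i) (Fin.castLE (hM i) m))
    rw [lift_apply]
  have hRs : ∀ v : HW (fun i => κ (e i)) n', ∃ w, R w = v := by
    intro v
    refine ⟨∑ i, (Pi.single (e i) (fun m : Fin M => if hm : m.1 < n' i then v i ⟨m.1, hm⟩ else 0) :
      HW κ (fun _ => M)), ?_⟩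
    funext i m
    show (∑ i, (Pi.single (e i) (fun m : Fin M => if hm : m.1 < n' i then v i ⟨m.1, hm⟩ else 0) :
      HW κ (fun _ => M))) (e i) (Fin.castLE (hM i) m) = v i m
    rw [Finset.sum_apply, Finset.sum_apply, Finset.sum_eq_single i]
    · rw [Pi.single_eq_same]
      show (if hm : m.1 < n' i then v i ⟨m.1, hm⟩ else 0) = v i m
      rw [dif_pos m.2]
    · intro i' _ hi
      rw [Pi.single_eq_of_ne (he.ne hi.symm)]
      rfl
    · intro h
      exact absurd (Finset.mem_univ i) h
  have h1 := hK (fun _ => M) k (α.compLinearMap (fun _ => R))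
    (fun v hv => hQ _ fun r i m => hv r (e i) _)
    (fun v hv => hA _ fun r i m j => hv r (e i) _ j)
  apply MultilinearMap.ext
  intro v
  choose w hw using fun r => hRs (v r)
  have h2 := congrArg (fun f : MultilinearMap ℂ (fun _ : Fin (2 * k) => HW κ (fun _ => M)) ℂ =>
    f w) h1
  have h3 : actForm (lift (fun _ => M) Z) (α.compLinearMap fun _ => R) w = 0 := h2
  rw [actForm_apply] at h3
  rw [actForm_apply]
  refine Eq.trans (Finset.sum_congr rfl fun r _ => ?_) h3
  show α (Function.update v r (lift n' (fun i => Z (e i)) (v r))) =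
    α (fun s => R (Function.update w r (lift (fun _ => M) Z (w r)) s))
  congr 1
  funext s
  by_cases hs : s = r
  · subst hs
    rw [Function.update_self, Function.update_self, hRl, hw]
  · rw [Function.update_of_ne hs, Function.update_of_ne hs, hw]

end Pool.Agent.KTW
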