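import Pool.Agent.KTW.Htz
import Pool.Agent.KTW.Huz

/-!
# KTW [Huv]: Hodge classes on products of K3 surfaces and Kuga-Satake varieties, from the Hodge
projectors
-/

set_option autoImplicit false

namespace Pool.Agent.KTW

open Module Matrix NumberField Pool.Agent.Helper7 Pool.Agent.KS Pool.Agent.Ball Pool.Agent.KSE
  Pool.Agent.Helper28.GPC Pool.Agent.KSR Pool.Agent.K3P Pool.Agent.KTP
open Pool.Agent.GPC (AbVar TC IsRatT HX HU Form IsBetti IsDeRham H1 IsGrUA IsHodgeUA IsFilU)

/-- forms in the variables `T_i` and `H_1(A_i)` -/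
theorem Huv_t (hMxz : St_Mxz) (hHod : St_Hod) (hHty : St_Hty) {I : Type} [Fintype I]
    [DecidableEq I] (A : I → AbVar) {K : I → Type}
    [∀ i, Field (K i)] [∀ i, NumberField (K i)] {c : ∀ i, K i →+* K i} {m : I → ℕ}
    (S : ∀ i, (A i).KugaSatakeMul (K i) (c i) (m i)) (hg : ∀ i, (A i).g ≠ 0)
    (hKZ : ∀ n : I → ℕ, KillZ (fun i => pData (A i)) (fun i => (1 / 2 : ℂ) • 1 - hod (A i)) n)
    (n : ℕ) (k : I → ℕ) (p : ℕ) (F : MultilinearMap ℂ (fun _ : Fin n => TF K m)
      (Form A k (2 * p)))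
    (hQ : ∀ (y : Fin n → ∀ i, Fin (m i) → K i) (w : Fin (2 * p) → H1 A k),
      (∀ s, IsBetti A k (w s)) →
      ∃ q : ℚ, F (fun s => embF (y s)) w = (2 * Real.pi * Complex.I) ^ p * q)
    (hA : ∀ (v : Fin n → TF K m) (w : Fin (2 * p) → H1 A k),
      (∀ s i, DR (lt (A i) (S i)) (v s i)) → (∀ s, IsDeRham A k (w s)) → IsAlgebraic ℚ (F v w))
    (a : Fin n → ℤ) (b : Fin (2 * p) → ℤ) (v : Fin n → TF K m) (w : Fin (2 * p) → H1 A k)
    (hab : -(p : ℤ) < ∑ s, a s + ∑ s, b s) (hv : ∀ s i, (S i).IsFilT (a s) (v s i))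
    (hw : ∀ s i j, (A i).IsFilAt (b s) (w s i j)) : F v w = 0 := by
  have hκ : ∀ i, Nonempty (Fin (A i).g ⊕ Fin (A i).g) :=
    fun i => ⟨Sum.inl ⟨0, Nat.pos_of_ne_zero (hg i)⟩⟩
  have hϖ := Complex.two_pi_I_ne_zero
  have hnd : ∀ i, (S i).h.det ≠ 0 := by
    intro i
    obtain ⟨σ₀, x, hx, -, -⟩ := (S i).hodge
    exact k3_nd (S i).conjugation (S i).hermitian hx
  have MM := fun i => mde (A i) (S i) (hnd i)
  choose Z hZ M hM hMs hZh hM3 hFil using fun i => hHod (A i) (K i) (c i) (m i) (S i) (hg i)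
  have hZe : ∀ i, Z i = (1 / 2 : ℂ) • 1 - hod (A i) := by
    intro i
    apply LinearMap.ext
    intro u
    have h1 : -(hod (A i) u) = (-(1 / 2 : ℂ)) • u + Z i u := LinearMap.congr_fun (hZh i) u
    show Z i u = (1 / 2 : ℂ) • u - hod (A i) u
    have h2 : (1 / 2 : ℂ) • u + (-(1 / 2 : ℂ)) • u = 0 := by
      rw [← add_smul, add_neg_cancel, zero_smul]
    rw [sub_eq_add_neg, h1, ← add_assoc, h2, zero_add]
  have hinv := hMxz I (fun i => Fin (A i).g ⊕ Fin (A i).g) _ (fun i => pData (A i)) K c m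
    (fun i => (S i).h) (fun i => lt (A i) (S i)) hϖ MM (fun i => (1 / 2 : ℂ) • 1 - hod (A i)) M
    (fun i => by rw [← hZe]; exact hM i) hMs k (hKZ _) n p
    ((Htf_m (HW (fun i => Fin (A i).g ⊕ Fin (A i).g) k) (2 * p)).compMultilinearMap F)
    (fun y w hw => hQ y w fun s i l => (mem_pData_Q _ _).mp (hw s i l))
    (fun v w hv hw => hA v w hv fun s i l => hw s i l)
  refine hHty (TF K m) (HW (fun i => Fin (A i).g ⊕ Fin (A i).g) k) n p (Htf_D M)
    (lift k fun i => - hod (A i)) ?_ ?_
    ((Htf_m (HW (fun i => Fin (A i).g ⊕ Fin (A i).g) k) (2 * p)).compMultilinearMap F) ?_ a b v w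
    hab ?_ ?_
  · intro y
    funext i
    exact hM3 i (y i)
  · intro w
    funext i l
    show -(hod (A i) (-(hod (A i) (w i l)))) = - (-(hod (A i) (w i l)))
    rw [map_neg, hod_idem]
  · intro v w
    obtain ⟨G, hGd⟩ : ∃ G, G = (Htf_m (HW (fun i => Fin (A i).g ⊕ Fin (A i).g) k)
      (2 * p)).compMultilinearMap F := ⟨_, rfl⟩
    rw [← hGd] at hinv ⊢
    have e2 : ∀ s, lift k (fun i => - hod (A i)) (w s) = (-(1 / 2 : ℂ)) • w s +
        lift k (fun i => (1 / 2 : ℂ) • 1 - hod (A i)) (w s) := by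
      intro s
      funext j l
      show -(hod (A j) (w s j l)) = (-(1 / 2 : ℂ)) • w s j l +
        ((1 / 2 : ℂ) • w s j l - hod (A j) (w s j l))
      rw [neg_smul]
      abel
    have e4 : ∀ s, G v (Function.update w s (lift k (fun i => - hod (A i)) (w s))) =
        (-(1 / 2 : ℂ)) * G v w + G v (Function.update w s
          (lift k (fun i => (1 / 2 : ℂ) • 1 - hod (A i)) (w s))) := by
      intro s
      rw [e2, MultilinearMap.map_update_add, MultilinearMap.map_update_smul,
        Function.update_eq_self, smul_eq_mul]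
    rw [Finset.sum_congr rfl fun s _ => e4 s, Finset.sum_add_distrib, Finset.sum_const,
      Finset.card_univ, Fintype.card_fin, nsmul_eq_mul]
    have e5 := hinv v w
    have e6 : (∑ s, G (Function.update v s (Htf_D M (v s))) w) =
        ∑ s, G (Function.update v s (fun i => Inv_op (M i) (v s i))) w := rfl
    rw [e6]
    push_cast
    linear_combination e5
  · intro s
    refine ⟨fun h => ?_, fun h => ?_, fun h => ?_⟩
    · funext i
      exact (hFil i (a s) (v s i) (hv s i)).1 h
    · funext i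
      exact (hFil i (a s) (v s i) (hv s i)).2.1 h
    · funext i
      exact (hFil i (a s) (v s i) (hv s i)).2.2 h
  · intro s
    refine ⟨fun h => ?_, fun h => ?_⟩
    · funext i l
      show -(hod (A i) (w s i l)) = 0
      rw [neg_eq_zero]
      exact (hod_fil (A i)).mp ((hw s i l).1 h)
    · funext i l
      exact (hw s i l).2 h

/-- Hodge classes from the Hodge projectors -/
theorem thm_Huv (hMxz : St_Mxz) (hHod : St_Hod) (hHty : St_Hty) (hHtu : St_Htu) {I : Type}
    [Fintype I] [DecidableEq I] (A : I → AbVar) {K : I → Type}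
    [∀ i, Field (K i)] [∀ i, NumberField (K i)] {c : ∀ i, K i →+* K i} {m : I → ℕ}
    (S : ∀ i, (A i).KugaSatakeMul (K i) (c i) (m i)) (hg : ∀ i, (A i).g ≠ 0)
    (hKZ : ∀ n : I → ℕ, KillZ (fun i => pData (A i)) (fun i => (1 / 2 : ℂ) • 1 - hod (A i)) n)
    (r n : ℕ) (k : I → ℕ) (p : ℕ) (F : MultilinearMap ℂ (fun _ : Fin n => HU r K m)
      (Form A k (2 * p))) (hF : IsGrUA S r n k p F) : IsHodgeUA S r n k p F := by
  refine ⟨hF.1, fun a b v w hab hv hw => ?_⟩
  obtain ⟨J, _, d, l, ε, ix, G, hG, hFv⟩ := hHtu (TF K m) (Form A k (2 * p)) r n F v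
  have h1 : F v w = Hua_e w (F v) := rfl
  rw [h1, hFv, map_sum]
  refine Finset.sum_eq_zero fun j _ => ?_
  rw [map_smul, smul_eq_mul]
  by_cases hc : ∃ b', 0 < a (ε j (.inr b'))
  · obtain ⟨b', hb'⟩ := hc
    rw [Finset.prod_eq_zero (Finset.mem_univ b'), zero_mul]
    rw [(hv (ε j (.inr b'))).1 hb']
    rfl
  · push Not at hc
    have h2 : G j (fun t => (v (ε j (.inl t))).2) w = 0 := by
      refine Huv_t hMxz hHod hHty A S hg hKZ (d j) k p (G j) ?_ ?_ (fun t => a (ε j (.inl t))) b _ w ?_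
        (fun t i => (hv _).2 i) hw
      · intro y w hw
        rw [hG]
        refine hF.1 _ w (fun s => ?_) hw
        obtain ⟨t, rfl⟩ := (ε j).surjective s
        rw [Equiv.symm_apply_apply]
        rcases t with t | t
        · exact ⟨fun _ => ⟨0, by rw [Rat.cast_zero]; rfl⟩, fun i => Hua_ratT (y t i)⟩
        · refine ⟨fun a' => ?_, fun i => ?_⟩
          · by_cases ha : a' = ix j t
            · subst ha
              exact ⟨1, by
                show (Pi.single (ix j t) 1 : Fin r → ℂ) (ix j t) = _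
                rw [Pi.single_eq_same, Rat.cast_one]⟩
            · exact ⟨0, by
                show (Pi.single (ix j t) 1 : Fin r → ℂ) a' = _
                rw [Pi.single_eq_of_ne ha, Rat.cast_zero]⟩
          · refine ⟨0, fun σ l => ?_⟩
            rw [Pi.zero_apply, map_zero]
            rfl
      · intro y w hy hw
        rw [hG]
        refine hF.2 _ w (fun s => ?_) hw
        obtain ⟨t, rfl⟩ := (ε j).surjective s
        rw [Equiv.symm_apply_apply]
        rcases t with t | t
        · exact ⟨fun _ => isAlgebraic_zero, fun i => (asm_dr (S i) _).mpr (hy t i)⟩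
        · refine ⟨fun a' => ?_, fun i => ?_⟩
          · by_cases ha : a' = ix j t
            · subst ha
              show IsAlgebraic ℚ ((Pi.single (ix j t) 1 : Fin r → ℂ) (ix j t))
              rw [Pi.single_eq_same]
              exact isAlgebraic_one
            · show IsAlgebraic ℚ ((Pi.single (ix j t) 1 : Fin r → ℂ) a')
              rw [Pi.single_eq_of_ne ha]
              exact isAlgebraic_zero
          · show (S i).IsDRT 0
            rw [asm_dr]
            intro i' j'
            have h3 : opT (lt (A i) (S i)) (0 : TC (K i) (m i)) = 0 := by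
              rw [opT]
              exact Finset.sum_eq_zero fun σ _ => map_zero _
            rw [h3]
            exact isAlgebraic_zero
      · have h3 : ∑ s, a s = ∑ t, a (ε j (.inl t)) + ∑ t, a (ε j (.inr t)) := by
          rw [← Equiv.sum_comp (ε j), Fintype.sum_sum_type]
        have h4 : ∑ t, a (ε j (.inr t)) ≤ 0 := Finset.sum_nonpos fun t _ => hc t
        omega
    have h3 : Hua_e w (G j fun t => (v (ε j (.inl t))).2) = 0 := h2
    rw [h3, mul_zero]

end Pool.Agent.KTW
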