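import Pool.Agent.KTW.Spd

/-!
# KTW: the classical Lie algebras are simple

`Sim_sl_top`: matrices with trace zero; `Sim_sp_top`: the Lie algebra of a symplectic form (`Sim_sp`); their
dimensions (`Sim_fr_sl`, `Sim_fr_sp0`, `Sim_fr_sp4`) and the dimension of the orthogonal Lie algebra (`Sim_fr_so`).
-/

set_option autoImplicit false
set_option linter.unusedSimpArgs false

namespace Pool.Agent.KTW

open Module Matrix

theorem Sim_sl_top {n : Type} [Fintype n] [DecidableEq n] (R : Submodule ℂ (Matrix n n ℂ))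
    (hR : ∀ A ∈ R, A.trace = 0)
    (hid : ∀ A ∈ R, ∀ M : Matrix n n ℂ, M.trace = 0 → M * A - A * M ∈ R)
    (A : Matrix n n ℂ) (hA : A ∈ R) (hA0 : A ≠ 0) (M : Matrix n n ℂ) (hM : M.trace = 0) : M ∈ R := by
  classical
  set E : n → n → Matrix n n ℂ := fun i j => Matrix.single i j 1 with hE
  have tr0 : ∀ i j, i ≠ j → (E i j).trace = 0 := fun i j h => Matrix.trace_single_eq_of_ne i j 1 h
  have mul1 : ∀ i j k, E i j * E j k = E i k := fun i j k => by
    rw [hE]
    simp
  have mul0 : ∀ i j k l, j ≠ k → E i j * E k l = 0 := fun i j k l h => by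
    rw [hE]
    simp only
    exact Matrix.single_mul_single_of_ne _ _ _ _ h _
  have half : ∀ X : Matrix n n ℂ, ∀ c : ℂ, c ≠ 0 → c • X ∈ R → X ∈ R := fun X c hc h => by
    have := R.smul_mem c⁻¹ h
    rwa [smul_smul, inv_mul_cancel₀ hc, one_smul] at this
  -- the double bracket
  have dbl : ∀ i j, i ≠ j → ∀ B ∈ R, B j i ≠ 0 → E i j ∈ R := by
    intro i j hij B hB hji
    have h1 := hid _ (hid B hB (E i j) (tr0 i j hij)) (E i j) (tr0 i j hij)
    have h2 : E i j * (E i j * B - B * E i j) - (E i j * B - B * E i j) * E i j =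
        (-2 * B j i) • E i j := by
      have hN : E i j * E i j = 0 := mul0 i j i j hij.symm
      have h3 : E i j * B * E i j = B j i • E i j := by
        rw [hE]
        simp only
        ext a b
        by_cases ha : a = i
        · subst ha
          by_cases hb : b = j
          · subst hb
            simp [Matrix.mul_apply, Matrix.single_apply]
          · simp [hb, Matrix.mul_single_apply_of_ne, Matrix.single_apply, Ne.symm hb]
        · rw [Matrix.mul_assoc, Matrix.single_mul_apply_of_ne _ _ _ _ _ ha]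
          simp [Matrix.single_apply, Ne.symm ha]
      calc _ = (E i j * E i j) * B - (2 : ℂ) • (E i j * B * E i j) + B * (E i j * E i j) := by
            rw [two_smul]
            noncomm_ring
        _ = _ := by
            rw [hN, h3, Matrix.zero_mul, Matrix.mul_zero, add_zero, zero_sub, smul_smul, ← neg_smul]
            congr 1
            ring
    rw [h2] at h1
    exact half _ _ (mul_ne_zero (by norm_num) hji) h1
  -- one matrix unit
  have one : ∃ i j, i ≠ j ∧ E i j ∈ R := by
    by_cases h : ∃ i j, i ≠ j ∧ A i j ≠ 0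
    · obtain ⟨i, j, hij, h1⟩ := h
      exact ⟨j, i, hij.symm, dbl j i hij.symm A hA h1⟩
    · push Not at h
      have h2 : ∃ i j, A i i ≠ A j j := by
        by_contra hc
        push Not at hc
        apply hA0
        have hne : ∃ i j, A i j ≠ 0 := by
          by_contra h3
          push Not at h3
          exact hA0 (Matrix.ext fun i j => h3 i j)
        obtain ⟨i0, -, -⟩ := hne
        have h4 : A = A i0 i0 • (1 : Matrix n n ℂ) := by
          ext i j
          by_cases hij : i = j
          · subst hij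
            simp [hc i i0]
          · rw [h i j hij]
            simp [hij]
        have h5 := hR A hA
        rw [h4, Matrix.trace_smul, Matrix.trace_one, smul_eq_mul, mul_eq_zero] at h5
        rcases h5 with h5 | h5
        · rw [h4, h5, zero_smul]
        · exact absurd (Nat.cast_eq_zero.1 h5) (Fintype.card_pos_iff.2 ⟨i0⟩).ne'
      obtain ⟨i, j, hij⟩ := h2
      have hne : i ≠ j := fun h0 => hij (by rw [h0])
      refine ⟨i, j, hne, ?_⟩
      have h3 := hid A hA (E i j) (tr0 i j hne)
      have h4 : E i j * A - A * E i j = (A j j - A i i) • E i j := by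
        rw [hE]
        simp only
        ext a b
        rw [Matrix.sub_apply, Matrix.smul_apply]
        by_cases ha : a = i
        · subst ha
          by_cases hb : b = j
          · subst hb
            simp
          · rw [Matrix.mul_single_apply_of_ne _ _ _ _ _ hb]
            simp [Matrix.single_apply, Ne.symm hb, h j b (Ne.symm hb)]
        · rw [Matrix.single_mul_apply_of_ne _ _ _ _ _ ha]
          by_cases hb : b = j
          · subst hb
            simp [Matrix.single_apply, Ne.symm ha, h a i ha]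
          · rw [Matrix.mul_single_apply_of_ne _ _ _ _ _ hb]
            simp [Matrix.single_apply, Ne.symm ha]
      rw [h4] at h3
      exact half _ _ (sub_ne_zero.2 (Ne.symm hij)) h3
  have right : ∀ i j k, E i j ∈ R → k ≠ i → E i k ∈ R := by
    intro i j k h hk
    by_cases hkj : k = j
    · rwa [hkj]
    · have h1 := hid _ h (E j k) (tr0 j k (Ne.symm hkj))
      rw [mul0 j k i j hk, mul1, zero_sub] at h1
      exact (R.neg_mem_iff).1 h1
  have left : ∀ i j k, E i j ∈ R → k ≠ j → E k j ∈ R := by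
    intro i j k h hk
    by_cases hki : k = i
    · rwa [hki]
    · have h1 := hid _ h (E k i) (tr0 k i hki)
      rwa [mul0 i j k i (Ne.symm hk), mul1, sub_zero] at h1
  have swap : ∀ i j, i ≠ j → E i j ∈ R → E j i ∈ R := by
    intro i j hij h
    exact dbl j i hij.symm _ h (by simp [hE])
  obtain ⟨i, j, hij, h0⟩ := one
  have all : ∀ k l, k ≠ l → E k l ∈ R := by
    intro k l hkl
    by_cases hl : l = i
    · subst hl
      exact left j l k (swap l j hij h0) hkl
    · exact left i l k (right i j l h0 hl) hkl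
  have dia : ∀ k l, E k k - E l l ∈ R := by
    intro k l
    by_cases hkl : k = l
    · rw [hkl, sub_self]
      exact R.zero_mem
    · have h1 := hid _ (all l k (Ne.symm hkl)) (E k l) (tr0 k l hkl)
      rwa [mul1, mul1] at h1
  have key : M = ∑ a, ∑ b, M a b • (if a = b then E a a - E i i else E a b) := by
    have h1 : M = ∑ a, ∑ b, M a b • E a b := by
      conv_lhs => rw [Matrix.matrix_eq_sum_single M]
      refine Finset.sum_congr rfl fun a _ => Finset.sum_congr rfl fun b _ => ?_
      rw [hE]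
      simp [Matrix.smul_single]
    have h2 : ∀ a b, M a b • (if a = b then E a a - E i i else E a b) =
        M a b • E a b - (if a = b then M a b • E i i else 0) := by
      intro a b
      by_cases hab : a = b
      · subst hab
        rw [if_pos rfl, if_pos rfl, smul_sub]
      · rw [if_neg hab, if_neg hab, sub_zero]
    have h3 : ∑ a, ∑ b, (if a = b then M a b • E i i else 0) = 0 := by
      have : ∀ a, ∑ b, (if a = b then M a b • E i i else 0) = M a a • E i i := fun a => by
        rw [Finset.sum_ite_eq Finset.univ a, if_pos (Finset.mem_univ a)]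
      rw [Finset.sum_congr rfl fun a _ => this a, ← Finset.sum_smul]
      have : ∑ a, M a a = 0 := hM
      rw [this, zero_smul]
    calc M = ∑ a, ∑ b, M a b • E a b - 0 := by rw [sub_zero]; exact h1
      _ = ∑ a, ∑ b, M a b • E a b - ∑ a, ∑ b, (if a = b then M a b • E i i else 0) := by rw [h3]
      _ = _ := by
          rw [← Finset.sum_sub_distrib]
          refine Finset.sum_congr rfl fun a _ => ?_
          rw [← Finset.sum_sub_distrib]
          exact Finset.sum_congr rfl fun b _ => (h2 a b).symm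
  rw [key]
  refine R.sum_mem fun a _ => R.sum_mem fun b _ => R.smul_mem _ ?_
  split_ifs with hab
  · exact dia a i
  · exact all a b hab

section sp

variable {V : Type} [AddCommGroup V] [Module ℂ V] (ψ : V →ₗ[ℂ] V →ₗ[ℂ] ℂ)

/-- `x ↦ ψ w x • u` -/
noncomputable def Sim_T (u w : V) : Module.End ℂ V := (ψ w).smulRight u

theorem Sim_T_apply (u w x : V) : Sim_T ψ u w x = ψ w x • u := rfl

/-- two linear forms which are not zero have a common vector where both are not zero -/
theorem Sim_avoid (f g : V →ₗ[ℂ] ℂ) (hf : f ≠ 0) (hg : g ≠ 0) : ∃ x, f x ≠ 0 ∧ g x ≠ 0 := by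
  obtain ⟨x, hx⟩ : ∃ x, f x ≠ 0 := by
    by_contra h
    push Not at h
    exact hf (LinearMap.ext h)
  obtain ⟨y, hy⟩ : ∃ y, g y ≠ 0 := by
    by_contra h
    push Not at h
    exact hg (LinearMap.ext h)
  by_cases h1 : g x = 0
  · by_cases h2 : f y = 0
    · exact ⟨x + y, by rwa [map_add, h2, add_zero], by rwa [map_add, h1, zero_add]⟩
    · exact ⟨y, h2, hy⟩
  · exact ⟨x, hx, h1⟩

/-- the symplectic Lie algebra is simple -/
theorem Sim_sp_top [FiniteDimensional ℂ V] (halt : ∀ u v, ψ u v = -ψ v u)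
    (hnd : ∀ u, (∀ v, ψ u v = 0) → u = 0) (R : Submodule ℂ (Module.End ℂ V))
    (hR : ∀ A ∈ R, ∀ u v, ψ (A u) v + ψ u (A v) = 0)
    (hid : ∀ A ∈ R, ∀ M : Module.End ℂ V, (∀ u v, ψ (M u) v + ψ u (M v) = 0) → M * A - A * M ∈ R)
    (A : Module.End ℂ V) (hA : A ∈ R) (hA0 : A ≠ 0) (M : Module.End ℂ V)
    (hM : ∀ u v, ψ (M u) v + ψ u (M v) = 0) : M ∈ R := by
  classical
  have half : ∀ X : Module.End ℂ V, ∀ c : ℂ, c ≠ 0 → c • X ∈ R → X ∈ R := fun X c hc h => by
    have := R.smul_mem c⁻¹ h
    rwa [smul_smul, inv_mul_cancel₀ hc, one_smul] at this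
  have self : ∀ u, ψ u u = 0 := fun u => by
    have h1 := halt u u
    have h2 : (2 : ℂ) * ψ u u = 0 := by linear_combination h1
    exact (mul_eq_zero.1 h2).resolve_left two_ne_zero
  have hN : ∀ u x y, ψ (Sim_T ψ u u x) y + ψ x (Sim_T ψ u u y) = 0 := by
    intro u x y
    rw [Sim_T_apply, Sim_T_apply, map_smul, map_smul, LinearMap.smul_apply, smul_eq_mul,
      smul_eq_mul, halt x u]
    ring
  have dbl : ∀ u, ∀ B ∈ R, ψ u (B u) ≠ 0 → Sim_T ψ u u ∈ R := by
    intro u B hB h0
    have h1 := hid _ (hid B hB _ (hN u)) _ (hN u)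
    have h2 : Sim_T ψ u u * (Sim_T ψ u u * B - B * Sim_T ψ u u) -
        (Sim_T ψ u u * B - B * Sim_T ψ u u) * Sim_T ψ u u = (-2 * ψ u (B u)) • Sim_T ψ u u := by
      refine LinearMap.ext fun x => ?_
      simp only [LinearMap.sub_apply, Module.End.mul_apply, Sim_T_apply, map_sub, map_smul,
        LinearMap.smul_apply, self u, smul_eq_mul, mul_zero, zero_smul, smul_sub, smul_zero,
        sub_zero, zero_sub, smul_smul, map_zero]
      rw [← neg_smul, ← sub_smul]
      congr 1
      ring
    rw [h2] at h1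
    exact half _ _ (mul_ne_zero (by norm_num) h0) h1
  -- one vector
  have one : ∃ u, ψ u (A u) ≠ 0 := by
    by_contra hc
    push Not at hc
    apply hA0
    have h1 : ∀ u v, ψ u (A v) = 0 := by
      intro u v
      have h2 := hc (u + v)
      rw [map_add, map_add, map_add, LinearMap.add_apply, LinearMap.add_apply, hc u, hc v] at h2
      have h3 := hR A hA u v
      rw [halt (A u) v] at h3
      have h4 : (2 : ℂ) * ψ u (A v) = 0 := by linear_combination h2 + h3
      exact (mul_eq_zero.1 h4).resolve_left two_ne_zero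
    refine LinearMap.ext fun v => ?_
    rw [LinearMap.zero_apply]
    refine hnd _ fun w => ?_
    rw [halt, h1, neg_zero]
  obtain ⟨u, hu⟩ := one
  have hu0 : u ≠ 0 := fun h => hu (by rw [h, map_zero, LinearMap.zero_apply])
  have hψ : ∀ w, w ≠ 0 → ψ w ≠ 0 := fun w hw h => hw (hnd w fun v => by rw [h, LinearMap.zero_apply])
  have step : ∀ x w, Sim_T ψ x x ∈ R → ψ x w ≠ 0 → Sim_T ψ w w ∈ R := by
    intro x w hx hxw
    refine dbl w _ hx ?_
    rw [Sim_T_apply, map_smul, smul_eq_mul, halt w x]
    exact mul_ne_zero hxw (neg_ne_zero.2 hxw)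
  have all : ∀ w, Sim_T ψ w w ∈ R := by
    intro w
    by_cases hw : w = 0
    · have : Sim_T ψ w w = 0 := LinearMap.ext fun x => by
        rw [Sim_T_apply, hw, smul_zero, LinearMap.zero_apply]
      rw [this]
      exact R.zero_mem
    · obtain ⟨x, h1, h2⟩ := Sim_avoid (ψ u) (ψ w) (hψ u hu0) (hψ w hw)
      refine step x w (step u x (dbl u A hA hu) h1) ?_
      rw [halt]
      exact neg_ne_zero.2 h2
  have two : ∀ a b, Sim_T ψ a b + Sim_T ψ b a ∈ R := by
    intro a b
    have h1 : Sim_T ψ a b + Sim_T ψ b a =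
        Sim_T ψ (a + b) (a + b) - Sim_T ψ a a - Sim_T ψ b b := by
      refine LinearMap.ext fun x => ?_
      simp only [LinearMap.sub_apply, LinearMap.add_apply, Sim_T_apply, map_add, smul_add,
        add_smul]
      abel
    rw [h1]
    exact R.sub_mem (R.sub_mem (all _) (all _)) (all _)
  -- the dual basis
  let b := finBasis ℂ V
  have hinj : Function.Injective ψ := by
    rw [injective_iff_map_eq_zero]
    intro v hv
    exact hnd v fun w => by rw [hv, LinearMap.zero_apply]
  have hsurj : Function.Surjective ψ :=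
    (LinearMap.injective_iff_surjective_of_finrank_eq_finrank (Subspace.dual_finrank_eq).symm).1 hinj
  choose e he using fun i => hsurj (b.coord i)
  have hx : ∀ x, x = ∑ i, ψ (e i) x • b i := by
    intro x
    conv_lhs => rw [← b.sum_repr x]
    refine Finset.sum_congr rfl fun i _ => ?_
    rw [he]
    rfl
  have h1 : M = ∑ i, Sim_T ψ (M (b i)) (e i) := by
    refine LinearMap.ext fun x => ?_
    rw [LinearMap.sum_apply]
    conv_lhs => rw [hx x, map_sum]
    exact Finset.sum_congr rfl fun i _ => by rw [map_smul, Sim_T_apply]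
  have hMy : ∀ y, M y = ∑ i, ψ (e i) y • M (b i) := by
    intro y
    conv_lhs => rw [hx y, map_sum]
    exact Finset.sum_congr rfl fun i _ => by rw [map_smul]
  have h2 : M = ∑ i, Sim_T ψ (e i) (M (b i)) := by
    refine LinearMap.ext fun x => ?_
    rw [← sub_eq_zero]
    refine hnd _ fun y => ?_
    rw [map_sub, LinearMap.sub_apply]
    have h3 : ψ (M x) y = -ψ x (M y) := by linear_combination hM x y
    rw [h3, hMy y, LinearMap.sum_apply, map_sum, map_sum, LinearMap.sum_apply,
      ← Finset.sum_neg_distrib, ← Finset.sum_sub_distrib]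
    refine Finset.sum_eq_zero fun i _ => ?_
    rw [Sim_T_apply, map_smul, map_smul, LinearMap.smul_apply, smul_eq_mul,
      smul_eq_mul, halt x (M (b i))]
    ring
  have h3 : (2 : ℂ) • M = ∑ i, (Sim_T ψ (M (b i)) (e i) + Sim_T ψ (e i) (M (b i))) := by
    rw [Finset.sum_add_distrib, two_smul, ← h1, ← h2]
  refine half M 2 two_ne_zero ?_
  rw [h3]
  exact R.sum_mem fun i _ => two _ _

end sp

/-- the space of matrices with trace zero -/
noncomputable def Sim_sl (m : ℕ) : Submodule ℂ (Matrix (Fin m) (Fin m) ℂ) :=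
  LinearMap.ker (Matrix.traceLinearMap (Fin m) ℂ ℂ)

theorem Sim_mem_sl {m : ℕ} {A : Matrix (Fin m) (Fin m) ℂ} : A ∈ Sim_sl m ↔ A.trace = 0 :=
  LinearMap.mem_ker

theorem Sim_fr_sl {m : ℕ} (hm : 1 ≤ m) : finrank ℂ (Sim_sl m) + 1 = m * m := by
  have h1 := LinearMap.finrank_range_add_finrank_ker (Matrix.traceLinearMap (Fin m) ℂ ℂ)
  have h2 : LinearMap.range (Matrix.traceLinearMap (Fin m) ℂ ℂ) = ⊤ := by
    rw [LinearMap.range_eq_top]
    intro c
    refine ⟨Matrix.single ⟨0, hm⟩ ⟨0, hm⟩ c, ?_⟩
    rw [Matrix.traceLinearMap_apply, Matrix.trace_single_eq_same]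
  rw [h2, finrank_top, Module.finrank_self, Module.finrank_matrix, Fintype.card_fin,
    Module.finrank_self, mul_one] at h1
  unfold Sim_sl
  omega

/-- the orthogonal Lie algebra, in matrices -/
noncomputable def Sim_so {m : ℕ} (H : Matrix (Fin m) (Fin m) ℂ) :
    Submodule ℂ (Matrix (Fin m) (Fin m) ℂ) where
  carrier := {A | Aᵀ * H + H * A = 0}
  add_mem' := by
    intro A B hA hB
    show (A + B)ᵀ * H + H * (A + B) = 0
    rw [transpose_add, Matrix.add_mul, Matrix.mul_add]
    calc _ = (Aᵀ * H + H * A) + (Bᵀ * H + H * B) := by abel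
      _ = 0 := by rw [show Aᵀ * H + H * A = 0 from hA, show Bᵀ * H + H * B = 0 from hB, add_zero]
  zero_mem' := by
    show (0 : Matrix (Fin m) (Fin m) ℂ)ᵀ * H + H * 0 = 0
    rw [transpose_zero, Matrix.zero_mul, Matrix.mul_zero, add_zero]
  smul_mem' := by
    intro c A hA
    show (c • A)ᵀ * H + H * (c • A) = 0
    rw [transpose_smul, Matrix.smul_mul, Matrix.mul_smul, ← smul_add,
      show Aᵀ * H + H * A = 0 from hA, smul_zero]

theorem Sim_mem_so {m : ℕ} {H A : Matrix (Fin m) (Fin m) ℂ} :
    A ∈ Sim_so H ↔ Aᵀ * H + H * A = 0 := Iff.rfl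

theorem Sim_so_range {m : ℕ} {H : Matrix (Fin m) (Fin m) ℂ} (hH : Hᵀ = H) (hd : IsUnit H.det) :
    LinearMap.range (Spd_G H) = Sim_so H := by
  have hHi : H⁻¹ᵀ = H⁻¹ := by rw [transpose_nonsing_inv, hH]
  refine le_antisymm ?_ ?_
  · rintro _ ⟨f, rfl⟩
    show (H⁻¹ * Spd_A f)ᵀ * H + H * (H⁻¹ * Spd_A f) = 0
    rw [transpose_mul, hHi, Spd_skew, Matrix.neg_mul, Matrix.neg_mul,
      Matrix.mul_assoc, nonsing_inv_mul _ hd, Matrix.mul_one, ← Matrix.mul_assoc,
      mul_nonsing_inv _ hd, Matrix.one_mul, neg_add_cancel]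
  · intro A hA
    have h1 : (H * A)ᵀ = -(H * A) := by
      rw [transpose_mul, hH]
      exact eq_neg_of_add_eq_zero_left hA
    refine ⟨fun p => (H * A) p.1.1 p.1.2, ?_⟩
    show H⁻¹ * Spd_A _ = A
    have h2 : Spd_A (fun p : Spd_T m => (H * A) p.1.1 p.1.2) = H * A := by
      ext a b
      simp only [Spd_A]
      rcases lt_trichotomy a b with h | h | h
      · rw [dif_pos h]
      · subst h
        rw [dif_neg (lt_irrefl a), dif_neg (lt_irrefl a)]
        have h3 : (H * A) a a = -(H * A) a a := congrFun (congrFun h1 a) a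
        have h4 : (2 : ℂ) * (H * A) a a = 0 := by linear_combination h3
        exact ((mul_eq_zero.1 h4).resolve_left two_ne_zero).symm
      · rw [dif_neg (not_lt_of_gt h), dif_pos h]
        have h3 : (H * A) a b = -(H * A) b a := congrFun (congrFun h1 b) a
        exact h3.symm
    rw [h2, ← Matrix.mul_assoc, nonsing_inv_mul _ hd, Matrix.one_mul]

theorem Sim_G_inj {m : ℕ} {H : Matrix (Fin m) (Fin m) ℂ} (hd : IsUnit H.det) :
    Function.Injective (Spd_G H) := by
  rw [injective_iff_map_eq_zero]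
  intro f hf
  have h2 : Spd_A f = 0 := by
    have h3 : H * (H⁻¹ * Spd_A f) = H * 0 := congrArg (H * ·) hf
    rwa [← Matrix.mul_assoc, mul_nonsing_inv _ hd, Matrix.one_mul, Matrix.mul_zero] at h3
  funext p
  have h3 := congrFun (congrFun h2 p.1.1) p.1.2
  simp only [Spd_A] at h3
  rw [dif_pos p.2] at h3
  exact h3

/-- pairs `a < b` -/
theorem Sim_card_T (m : ℕ) : Fintype.card (Spd_T m) = m * (m - 1) / 2 := by
  have h1 : Fintype.card (Spd_T m) = Fintype.card {p : Fin m × Fin m // p.2 < p.1} :=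
    Fintype.card_congr
      { toFun := fun p => ⟨p.1.swap, p.2⟩
        invFun := fun p => ⟨p.1.swap, p.2⟩
        left_inv := fun p => rfl
        right_inv := fun p => rfl }
  have h2 : Fintype.card {p : Fin m × Fin m // p.1 = p.2} = m := by
    rw [Fintype.card_congr (β := Fin m)
      { toFun := fun p => p.1.1
        invFun := fun a => ⟨(a, a), rfl⟩
        left_inv := fun p => Subtype.ext (Prod.ext rfl p.2)
        right_inv := fun a => rfl }, Fintype.card_fin]
  have h3 : Fintype.card (Spd_T m) + Fintype.card {p : Fin m × Fin m // p.2 < p.1} +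
      Fintype.card {p : Fin m × Fin m // p.1 = p.2} = m * m := by
    have h0 : m * m = Fintype.card (Fin m × Fin m) := by
      rw [Fintype.card_prod, Fintype.card_fin]
    rw [← Fintype.card_sum, ← Fintype.card_sum, h0]
    refine Fintype.card_congr (Equiv.ofBijective (fun x : ((Spd_T m ⊕ {p : Fin m × Fin m // p.2 < p.1}) ⊕
      {p : Fin m × Fin m // p.1 = p.2}) => match x with
        | .inl (.inl p) => p.1
        | .inl (.inr p) => p.1
        | .inr p => p.1) ⟨?_, ?_⟩)
    · rintro ((⟨p, hp⟩ | ⟨p, hp⟩) | ⟨p, hp⟩) ((⟨q, hq⟩ | ⟨q, hq⟩) | ⟨q, hq⟩) h <;>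
        (have h' : p = q := h) <;> subst h'
      · rfl
      · exact absurd hp (not_lt_of_gt hq)
      · exact absurd hq (ne_of_lt hp)
      · exact absurd hp (not_lt_of_gt hq)
      · rfl
      · exact absurd hq.symm (ne_of_lt hp)
      · exact absurd hp (ne_of_lt hq)
      · exact absurd hp.symm (ne_of_lt hq)
      · rfl
    · intro p
      rcases lt_trichotomy p.1 p.2 with h | h | h
      · exact ⟨.inl (.inl ⟨p, h⟩), rfl⟩
      · exact ⟨.inr ⟨p, h⟩, rfl⟩
      · exact ⟨.inl (.inr ⟨p, h⟩), rfl⟩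
  have h4 : 2 * Fintype.card (Spd_T m) = m * (m - 1) := by
    have h5 : m * m = m * (m - 1) + m := by
      rcases m with _ | m
      · rfl
      · rw [Nat.add_sub_cancel]
        ring
    omega
  omega

theorem Sim_fr_so {m : ℕ} {H : Matrix (Fin m) (Fin m) ℂ} (hH : Hᵀ = H) (hd : IsUnit H.det) :
    finrank ℂ (Sim_so H) = m * (m - 1) / 2 := by
  rw [← Sim_so_range hH hd, LinearMap.finrank_range_of_inj (Sim_G_inj hd),
    finrank_fintype_fun_eq_card, Sim_card_T]

section sp

variable {V : Type} [AddCommGroup V] [Module ℂ V] (ψ : V →ₗ[ℂ] V →ₗ[ℂ] ℂ)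

/-- the Lie algebra of a bilinear form -/
noncomputable def Sim_sp : Submodule ℂ (Module.End ℂ V) where
  carrier := {A | ∀ u v, ψ (A u) v + ψ u (A v) = 0}
  add_mem' := by
    intro A B hA hB u v
    rw [LinearMap.add_apply, LinearMap.add_apply, map_add, map_add, LinearMap.add_apply]
    linear_combination hA u v + hB u v
  zero_mem' := by
    intro u v
    rw [LinearMap.zero_apply, LinearMap.zero_apply, map_zero, map_zero, LinearMap.zero_apply,
      add_zero]
  smul_mem' := by
    intro c A hA u v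
    rw [LinearMap.smul_apply, LinearMap.smul_apply, map_smul, map_smul, LinearMap.smul_apply,
      smul_eq_mul, smul_eq_mul]
    linear_combination c * hA u v

theorem Sim_mem_sp {A : Module.End ℂ V} : A ∈ Sim_sp ψ ↔ ∀ u v, ψ (A u) v + ψ u (A v) = 0 :=
  Iff.rfl

theorem Sim_fr_sp0 [FiniteDimensional ℂ V] (halt : ∀ u v, ψ u v = -ψ v u)
    (hnd : ∀ u, (∀ v, ψ u v = 0) → u = 0) :
    finrank ℂ (Sim_sp ψ) = Fintype.card (Spd_S (finrank ℂ V)) := by
  classical
  let b := finBasis ℂ V
  have hinj : Function.Injective ψ := by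
    rw [injective_iff_map_eq_zero]
    intro v hv
    exact hnd v fun w => by rw [hv, LinearMap.zero_apply]
  have hsurj : Function.Surjective ψ :=
    (LinearMap.injective_iff_surjective_of_finrank_eq_finrank (Subspace.dual_finrank_eq).symm).1 hinj
  choose e he using fun i => hsurj (b.coord i)
  have heb : ∀ i k, ψ (e i) (b k) = if i = k then 1 else 0 := by
    intro i k
    rw [he, Basis.coord_apply, Basis.repr_self, Finsupp.single_apply]
    simp only [eq_comm]
  let F : Sim_sp ψ →ₗ[ℂ] (Spd_S (finrank ℂ V) → ℂ) :=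
    { toFun := fun X p => ψ (X.1 (b p.1.1)) (b p.1.2)
      map_add' := fun X Y => by
        funext p
        simp [LinearMap.add_apply, map_add]
      map_smul' := fun c X => by
        funext p
        simp [LinearMap.smul_apply, map_smul] }
  have hsym : ∀ X ∈ Sim_sp ψ, ∀ i j, ψ (X (b i)) (b j) = ψ (X (b j)) (b i) := by
    intro X hX i j
    have h1 := hX (b i) (b j)
    rw [halt (b i) (X (b j))] at h1
    linear_combination h1
  have hF1 : Function.Injective F := by
    rw [injective_iff_map_eq_zero]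
    intro X hX
    have hle : ∀ i j, i ≤ j → ψ (X.1 (b i)) (b j) = 0 := fun i j hij =>
      congrFun hX ⟨(i, j), hij⟩
    have hall : ∀ i j, ψ (X.1 (b i)) (b j) = 0 := by
      intro i j
      rcases le_total i j with h | h
      · exact hle i j h
      · rw [hsym X.1 X.2]
        exact hle j i h
    refine Subtype.ext ?_
    refine b.ext fun i => ?_
    show X.1 (b i) = 0
    refine hnd _ fun v => ?_
    have h3 : ψ (X.1 (b i)) = 0 := b.ext fun j => by rw [hall, LinearMap.zero_apply]
    rw [h3, LinearMap.zero_apply]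
  have hF2 : Function.Surjective F := by
    intro f
    let g : Fin (finrank ℂ V) → Fin (finrank ℂ V) → ℂ := fun i j =>
      if h : i ≤ j then f ⟨(i, j), h⟩ else f ⟨(j, i), le_of_lt (lt_of_not_ge h)⟩
    have hg : ∀ i j, g i j = g j i := by
      intro i j
      rcases lt_trichotomy i j with h | h | h
      · simp only [g]
        rw [dif_pos h.le, dif_neg (not_le_of_gt h)]
      · rw [h]
      · simp only [g]
        rw [dif_neg (not_le_of_gt h), dif_pos h.le]
    let X : Module.End ℂ V := b.constr ℂ fun i => ∑ j, g i j • e j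
    have hX : ∀ i k, ψ (X (b i)) (b k) = g i k := by
      intro i k
      simp only [X]
      rw [Basis.constr_basis, map_sum, LinearMap.sum_apply]
      simp [heb]
    have hXs : X ∈ Sim_sp ψ := by
      let S : V →ₗ[ℂ] V →ₗ[ℂ] ℂ := ψ.comp X + (ψ.compl₂ X)
      have hS : S = 0 := by
        refine b.ext fun i => b.ext fun j => ?_
        show ψ (X (b i)) (b j) + ψ (b i) (X (b j)) = 0
        rw [halt (b i), hX, hX, hg i j]
        ring
      intro u v
      exact congrFun (congrArg (fun T : V →ₗ[ℂ] V →ₗ[ℂ] ℂ => ⇑(T u)) hS) v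
    refine ⟨⟨X, hXs⟩, ?_⟩
    funext p
    show ψ (X (b p.1.1)) (b p.1.2) = f p
    rw [hX]
    simp only [g]
    rw [dif_pos p.2]
  rw [(LinearEquiv.ofBijective F ⟨hF1, hF2⟩).finrank_eq, finrank_fintype_fun_eq_card]

theorem Sim_fr_sp4 [FiniteDimensional ℂ V] (halt : ∀ u v, ψ u v = -ψ v u)
    (hnd : ∀ u, (∀ v, ψ u v = 0) → u = 0) (h4 : finrank ℂ V = 4) :
    finrank ℂ (Sim_sp ψ) = 10 := by
  rw [Sim_fr_sp0 ψ halt hnd, h4]
  decide

end sp

/-- a nonzero subspace of `ℂ³` which is stable under all `y ↦ y × x` is everything -/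
theorem Sim_cross_top (S : Submodule ℂ (Fin 3 → ℂ)) (hS : ∀ x ∈ S, ∀ y, crossProduct y x ∈ S)
    (x : Fin 3 → ℂ) (hx : x ∈ S) (hx0 : x ≠ 0) (y : Fin 3 → ℂ) : y ∈ S := by
  have half : ∀ v : Fin 3 → ℂ, ∀ c : ℂ, c ≠ 0 → c • v ∈ S → v ∈ S := fun v c hc h => by
    have := S.smul_mem c⁻¹ h
    rwa [smul_smul, inv_mul_cancel₀ hc, one_smul] at this
  have h0 : x 0 • (![1, 0, 0] : Fin 3 → ℂ) ∈ S := by
    have h1 := S.add_mem (hS _ (hS x hx ![1, 0, 0]) ![1, 0, 0]) hx
    convert h1 using 1
    funext i
    fin_cases i <;> simp [cross_apply]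
  have h1 : x 1 • (![0, 1, 0] : Fin 3 → ℂ) ∈ S := by
    have h1 := S.add_mem (hS _ (hS x hx ![0, 1, 0]) ![0, 1, 0]) hx
    convert h1 using 1
    funext i
    fin_cases i <;> simp [cross_apply]
  have h2 : x 2 • (![0, 0, 1] : Fin 3 → ℂ) ∈ S := by
    have h1 := S.add_mem (hS _ (hS x hx ![0, 0, 1]) ![0, 0, 1]) hx
    convert h1 using 1
    funext i
    fin_cases i <;> simp [cross_apply]
  have e01 : (![1, 0, 0] : Fin 3 → ℂ) ∈ S → (![0, 1, 0] : Fin 3 → ℂ) ∈ S := fun h => by
    have := hS _ h ![0, 0, 1]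
    convert this using 1
    funext i
    fin_cases i <;> simp [cross_apply]
  have e12 : (![0, 1, 0] : Fin 3 → ℂ) ∈ S → (![0, 0, 1] : Fin 3 → ℂ) ∈ S := fun h => by
    have := hS _ h ![1, 0, 0]
    convert this using 1
    funext i
    fin_cases i <;> simp [cross_apply]
  have e20 : (![0, 0, 1] : Fin 3 → ℂ) ∈ S → (![1, 0, 0] : Fin 3 → ℂ) ∈ S := fun h => by
    have := hS _ h ![0, 1, 0]
    convert this using 1
    funext i
    fin_cases i <;> simp [cross_apply]
  have a0 : (![1, 0, 0] : Fin 3 → ℂ) ∈ S := by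
    by_cases c0 : x 0 = 0
    · by_cases c1 : x 1 = 0
      · by_cases c2 : x 2 = 0
        · refine absurd ?_ hx0
          funext i
          fin_cases i
          · exact c0
          · exact c1
          · exact c2
        · exact e20 (half _ _ c2 h2)
      · exact e20 (e12 (half _ _ c1 h1))
    · exact half _ _ c0 h0
  have a1 := e01 a0
  have a2 := e12 a1
  have hy : y = y 0 • (![1, 0, 0] : Fin 3 → ℂ) + y 1 • (![0, 1, 0] : Fin 3 → ℂ) +
      y 2 • (![0, 0, 1] : Fin 3 → ℂ) := by
    funext i
    fin_cases i <;> simp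
  rw [hy]
  exact S.add_mem (S.add_mem (S.smul_mem _ a0) (S.smul_mem _ a1)) (S.smul_mem _ a2)

end Pool.Agent.KTW
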