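import Pool.Agent.KTW.StV
import Pool.Agent.KTW.Sim

/-!
# KTW [Ssl]: the matrices of trace zero
-/

set_option autoImplicit false

namespace Pool.Agent.KTW

open Module Matrix

theorem Ssl_mem {m : ℕ} {Z : Matrix (Fin m) (Fin m) ℂ} : Z ∈ SL m ↔ Z.trace = 0 :=
  Iff.rfl

theorem Ssl_br {m : ℕ} (X Y : Matrix (Fin m) (Fin m) ℂ) : X * Y - Y * X ∈ SL m := by
  rw [Ssl_mem, Matrix.trace_sub, Matrix.trace_mul_comm, sub_self]

theorem Ssl_eq (m : ℕ) : SL m = Sim_sl m := by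
  ext Z
  rw [Ssl_mem, Sim_mem_sl]

/-- [SSL] -/
theorem thm_Ssl : St_Ssl := by
  intro m hm
  refine ⟨⟨fun x _ y _ => Ssl_br x y, ?_, ?_⟩, ?_⟩
  · have h01 : (⟨0, by omega⟩ : Fin m) ≠ ⟨1, by omega⟩ := by
      intro h
      exact absurd (congrArg Fin.val h) (by norm_num)
    refine ⟨Matrix.single ⟨0, by omega⟩ ⟨1, by omega⟩ 1,
      Matrix.trace_single_eq_of_ne _ _ _ h01,
      Matrix.single ⟨1, by omega⟩ ⟨0, by omega⟩ 1,
      Matrix.trace_single_eq_of_ne _ _ _ h01.symm, fun h => ?_⟩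
    rw [Matrix.single_mul_single_same, Matrix.single_mul_single_same] at h
    have h2 := congrFun (congrFun h ⟨0, by omega⟩) ⟨0, by omega⟩
    rw [Matrix.single_apply_same, Matrix.single_apply_of_ne] at h2
    · norm_num at h2
    · rintro ⟨h3, -⟩
      exact h01 h3.symm
  · intro N hN hid hN0
    refine le_antisymm hN fun M hM => ?_
    obtain ⟨A, hA, hA0⟩ := (Submodule.ne_bot_iff N).1 hN0
    exact Sim_sl_top N (fun A hA => hN hA) (fun A hA M hM => hid M hM A hA) A hA hA0 M hM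
  · rw [Ssl_eq]
    exact Sim_fr_sl (by omega)

end Pool.Agent.KTW
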