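import Pool.Agent.KTW.StV
import Pool.Agent.KTW.Ssl

/-!
# KTW [Nlk]: no links
-/

set_option autoImplicit false

open scoped ComplexConjugate

namespace Pool.Agent.KTW

open Module Matrix

/-- a surjective map which factors -/
theorem Nlk_fac {V E G : Type} [AddCommGroup V] [Module ℂ V] [AddCommGroup E] [Module ℂ E]
    [AddCommGroup G] [Module ℂ G] [FiniteDimensional ℂ E] [FiniteDimensional ℂ G]
    (d : V →ₗ[ℂ] E) (c : V →ₗ[ℂ] G) (hc : Function.Surjective c)
    (hk : ∀ X, d X = 0 → c X = 0) :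
    finrank ℂ G ≤ finrank ℂ E ∧ (finrank ℂ E ≤ finrank ℂ G →
      LinearMap.range d = ⊤ ∧ ∀ X, c X = 0 → d X = 0) := by
  have hker : LinearMap.ker d ≤ LinearMap.ker c := fun X hX => by
    rw [LinearMap.mem_ker] at hX ⊢
    exact hk X hX
  let t : LinearMap.range d →ₗ[ℂ] G :=
    ((LinearMap.ker d).liftQ c hker).comp d.quotKerEquivRange.symm.toLinearMap
  have ht : ∀ X : V, t ⟨d X, ⟨X, rfl⟩⟩ = c X := by
    intro X
    show ((LinearMap.ker d).liftQ c hker) (d.quotKerEquivRange.symm ⟨d X, ⟨X, rfl⟩⟩) = c X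
    have h1 : d.quotKerEquivRange.symm ⟨d X, ⟨X, rfl⟩⟩ = (LinearMap.ker d).mkQ X := by
      rw [LinearEquiv.symm_apply_eq]
      rfl
    rw [h1]
    rfl
  have hts : Function.Surjective t := fun y => by
    obtain ⟨X, rfl⟩ := hc y
    exact ⟨_, ht X⟩
  have h1 : finrank ℂ G ≤ finrank ℂ (LinearMap.range d) :=
    LinearMap.finrank_le_finrank_of_surjective hts
  have h2 : finrank ℂ (LinearMap.range d) ≤ finrank ℂ E := Submodule.finrank_le _
  refine ⟨h1.trans h2, fun h3 => ⟨Submodule.eq_top_of_finrank_eq (le_antisymm h2 (h3.trans h1)),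
    fun X hX => ?_⟩⟩
  have h5 : Function.Injective t := by
    rw [← LinearMap.ker_eq_bot, ← Submodule.finrank_eq_zero (R := ℂ)]
    have e1 := LinearMap.finrank_range_add_finrank_ker t
    have e2 : finrank ℂ (LinearMap.range t) = finrank ℂ G := by
      rw [LinearMap.range_eq_top.2 hts, finrank_top]
    omega
  have h6 : t ⟨d X, ⟨X, rfl⟩⟩ = 0 := by rw [ht, hX]
  exact congrArg Subtype.val (h5 (h6.trans (map_zero t).symm))

section

variable {𝓐 𝓑 : Type} [Ring 𝓐] [Algebra ℂ 𝓐] [Ring 𝓑] [Algebra ℂ 𝓑]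
  {W : Submodule ℂ 𝓐} {c : 𝓐 →ₗ[ℂ] 𝓑} {G : Submodule ℂ 𝓑} [FiniteDimensional ℂ G]

/-- the factorisation for the restrictions to `W` -/
theorem Nlk_fac' (hG : ∀ X ∈ W, c X ∈ G) (hsur : ∀ Z ∈ G, ∃ X ∈ W, c X = Z) {𝓒 : Type} [Ring 𝓒]
    [Algebra ℂ 𝓒] (d : 𝓐 →ₗ[ℂ] 𝓒) (E : Submodule ℂ 𝓒) [FiniteDimensional ℂ E]
    (hE : ∀ X ∈ W, d X ∈ E) (hk : ∀ X ∈ W, d X = 0 → c X = 0) :
    finrank ℂ G ≤ finrank ℂ E ∧ (finrank ℂ E ≤ finrank ℂ G →
      (∀ Z ∈ E, ∃ X ∈ W, d X = Z) ∧ ∀ X ∈ W, c X = 0 → d X = 0) := by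
  let d' : W →ₗ[ℂ] E := (d.comp W.subtype).codRestrict E fun X => hE X.1 X.2
  let c' : W →ₗ[ℂ] G := (c.comp W.subtype).codRestrict G fun X => hG X.1 X.2
  have hc' : Function.Surjective c' := by
    rintro ⟨Z, hZ⟩
    obtain ⟨X, hX, rfl⟩ := hsur Z hZ
    exact ⟨⟨X, hX⟩, rfl⟩
  obtain ⟨h1, h2⟩ := Nlk_fac d' c' hc' (fun X hX => Subtype.ext (hk X.1 X.2
    (congrArg Subtype.val hX)))
  refine ⟨h1, fun h3 => ⟨fun Z hZ => ?_, fun X hX hcX => ?_⟩⟩
  · have h6 : (⟨Z, hZ⟩ : E) ∈ LinearMap.range d' := by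
      rw [(h2 h3).1]
      exact Submodule.mem_top
    obtain ⟨X, hX⟩ := h6
    exact ⟨X.1, X.2, congrArg Subtype.val hX⟩
  · exact congrArg Subtype.val ((h2 h3).2 ⟨X, hX⟩ (Subtype.ext hcX))

end

/-- [NLK] -/
theorem thm_Nlk : St_Nlk := by
  classical
  intro 𝓐 𝓑 _ _ _ _ W c G _ hS hbr hc hG hsur
  refine ⟨?_, ?_⟩
  · intro 𝓒 _ _ d hd hor
    by_contra hcon
    push Not at hcon
    rcases hor with h | ⟨E, hfE, hE, hlt⟩ | ⟨E, hfE, hSE, hE, hsE, hne⟩
    · -- commuting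
      obtain ⟨x, hx, y, hy, hxy⟩ := hS.nc
      obtain ⟨X, hX, rfl⟩ := hsur x hx
      obtain ⟨Y, hY, rfl⟩ := hsur y hy
      have h1 := hcon _ (hbr X hX Y hY) (by rw [hd X hX Y hY, h X hX Y hY, sub_self])
      rw [hc X hX Y hY, sub_eq_zero] at h1
      exact hxy h1
    · -- dimension
      exact absurd (Nlk_fac' hG hsur d E hE hcon).1 (not_le_of_gt hlt)
    · -- two simple algebras
      let N : Submodule ℂ 𝓒 :=
        { carrier := {y | ∃ X ∈ W, c X = 0 ∧ d X = y}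
          add_mem' := by
            rintro _ _ ⟨X, hX, hX0, rfl⟩ ⟨Y, hY, hY0, rfl⟩
            exact ⟨X + Y, W.add_mem hX hY, by rw [map_add, hX0, hY0, add_zero], map_add _ _ _⟩
          zero_mem' := ⟨0, W.zero_mem, map_zero _, map_zero _⟩
          smul_mem' := by
            rintro r _ ⟨X, hX, hX0, rfl⟩
            exact ⟨r • X, W.smul_mem r hX, by rw [map_smul, hX0, smul_zero], map_smul _ _ _⟩ }
      have hNE : N ≤ E := by
        rintro _ ⟨X, hX, -, rfl⟩
        exact hE X hX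
      have hNi : ∀ x ∈ E, ∀ y ∈ N, x * y - y * x ∈ N := by
        rintro x hx _ ⟨X, hX, hX0, rfl⟩
        obtain ⟨Y, hY, rfl⟩ := hsE x hx
        exact ⟨Y * X - X * Y, hbr Y hY X hX, by rw [hc Y hY X hX, hX0, mul_zero, zero_mul, sub_zero],
          hd Y hY X hX⟩
      by_cases hN : N = ⊥
      · -- `c` and `d` have the same kernel
        have h1 : ∀ X ∈ W, c X = 0 → d X = 0 := fun X hX h0 => by
          have : d X ∈ N := ⟨X, hX, h0, rfl⟩
          rwa [hN, Submodule.mem_bot] at this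
        have h2 := (Nlk_fac' hG hsur d E hE hcon).1
        have h3 := (Nlk_fac' (c := d) (G := E) hE hsE c G hG h1).1
        exact hne (le_antisymm h3 h2)
      · have h1 := hSE.id N hNE hNi hN
        obtain ⟨x, hx, y, hy, hxy⟩ := hS.nc
        have hz : ∀ z ∈ G, z = 0 := by
          intro z hz
          obtain ⟨X, hX, rfl⟩ := hsur z hz
          have h2 : d X ∈ N := by
            rw [h1]
            exact hE X hX
          obtain ⟨Y, hY, hY0, hYX⟩ := h2
          have h3 := hcon (X - Y) (W.sub_mem hX hY) (by rw [map_sub, hYX, sub_self])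
          rwa [map_sub, hY0, sub_zero] at h3
        exact hxy (by rw [hz x hx, hz y hy])
  · intro d θ k hd htr h3 hθ hdθ hcθ hk
    by_contra hcon
    push Not at hcon
    have hfin := (thm_Ssl 2 le_rfl).2
    have hE : ∀ X ∈ W, d X ∈ SL 2 := fun X hX => htr X hX
    obtain ⟨h4, h5⟩ := Nlk_fac' hG hsur d (SL 2) hE hcon
    obtain ⟨h6, h7⟩ := h5 (by omega)
    obtain ⟨X, hX, hXe⟩ := h6 !![0, 1; 0, 0] (by
      rw [Ssl_mem]
      simp [Matrix.trace_fin_two])
    obtain ⟨Y, hY, hYh⟩ := h6 !![1, 0; 0, -1] (by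
      rw [Ssl_mem]
      simp [Matrix.trace_fin_two])
    have hXk : k (c X) = c X := by
      rw [← hcθ X hX]
      have := hcon (θ X - X) (W.sub_mem (hθ X hX) hX) (by
        rw [map_sub, hdθ X hX, hXe, sub_eq_zero]
        ext i j
        fin_cases i <;> fin_cases j <;> simp)
      rwa [map_sub, sub_eq_zero] at this
    have hYk : k (c Y) = c Y := by
      rw [← hcθ Y hY]
      have := hcon (θ Y - Y) (W.sub_mem (hθ Y hY) hY) (by
        rw [map_sub, hdθ Y hY, hYh, sub_eq_zero]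
        ext i j
        fin_cases i <;> fin_cases j <;> simp)
      rwa [map_sub, sub_eq_zero] at this
    have hYX : c Y * c X - c X * c Y = (2 : ℂ) • c X := by
      have := hcon ((Y * X - X * Y) - (2 : ℂ) • X)
        (W.sub_mem (hbr Y hY X hX) (W.smul_mem _ hX)) (by
        rw [map_sub, hd Y hY X hX, map_smul, hXe, hYh]
        ext i j
        fin_cases i <;> fin_cases j <;> (simp; try norm_num))
      rwa [map_sub, hc Y hY X hX, map_smul, sub_eq_zero] at this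
    have h0 := hk (c X) (hG X hX) (c Y) (hG Y hY) hXk hYk hYX
    have h8 := h7 X hX h0
    rw [hXe] at h8
    have h9 := congrFun (congrFun h8 0) 1
    simp at h9

end Pool.Agent.KTW
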