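import Pool.Agent.KTW.StV
import Pool.Agent.Helper39.AF.Decomp
import Pool.Agent.K3P.Kil
import Pool.Agent.K3P.Inv

/-!
# KTW [Rqt]: Kuga-Satake varieties of rational quadratic spaces of dimension three and four
(helper82)

`Rqt_abs` is the reduction from an abelian variety whose endomorphisms are the commutant of a
quaternion algebra with centre to its simple factors.
-/

set_option autoImplicit false

namespace Pool.Agent.KTW

open Module Matrix NumberField Pool.Agent.Helper7 Pool.Agent.KS Pool.Agent.Ball Pool.Agent.KSE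
  Pool.Agent.Helper28.GPC Pool.Agent.K3P Pool.Agent.KTP Pool.Agent.Helper39.AF
open Pool.Agent.GPC (AbVar IsRMType)

theorem Rqt_abs (hQrm : St_Qrm) (A : AbVar) (x y z : Module.End ℂ A.H1) (a b : ℚ) (ha : a ≠ 0)
    (hb : b ≠ 0) (hx : x * x = (a : ℂ) • 1) (hy : y * y = (b : ℂ) • 1) (hxy : x * y = -(y * x))
    (hxz : x * z = z * x) (hyz : y * z = z * y) (hzs : ∀ u v, A.pol (z u) v = A.pol u (z v))
    (hxB : ∀ v, A.IsBetti v → A.IsBetti (x v)) (hyB : ∀ v, A.IsBetti v → A.IsBetti (y v))
    (hzB : ∀ v, A.IsBetti v → A.IsBetti (z v))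
    (hEnd : ∀ f : A.H1 → A.H1, A.IsEnd f ↔ IsLinearMap ℂ f ∧ (∀ v, A.IsBetti v → A.IsBetti (f v)) ∧
      (∀ v, f (x v) = x (f v)) ∧ (∀ v, f (y v) = y (f v)) ∧ ∀ v, f (z v) = z (f v)) :
    BasicPart A fun _ => True := by
  obtain ⟨J, iJ, B, ι, π, D⟩ := exists_sdecomp A
  refine ⟨J, iJ, B, ?_, ?_⟩
  · intro j
    refine ⟨D.simple j, Or.inr (Or.inl ?_)⟩
    obtain ⟨il, hil⟩ : ∃ il : (B j).H1 →ₗ[ℂ] A.H1, ∀ v, il v = ι j v :=
      ⟨(D.morι j).linear.mk' _, fun _ => rfl⟩
    obtain ⟨pl, hpl⟩ : ∃ pl : A.H1 →ₗ[ℂ] (B j).H1, ∀ v, pl v = π j v :=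
      ⟨(D.morπ j).linear.mk' _, fun _ => rfl⟩
    have hil' : (il : (B j).H1 → A.H1) = ι j := funext hil
    have hpl' : (pl : A.H1 → (B j).H1) = π j := funext hpl
    have mι : (B j).IsMor A il := by rw [hil']; exact D.morι j
    have mπ : A.IsMor (B j) pl := by rw [hpl']; exact D.morπ j
    have hpi : ∀ v, pl (il v) = v := fun v => by rw [hil, hpl, D.πι]
    have hE : A.IsEnd (fun v => il (pl v)) := (isEnd_iff A _).2 (isMor_comp mι mπ)
    obtain ⟨-, -, hcx, hcy, hcz⟩ := (hEnd _).1 hE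
    have kx : ∀ v, il (pl (x (il v))) = x (il v) := fun v => by
      have h1 := hcx (il v)
      simp only [hpi] at h1
      exact h1
    have ky : ∀ v, il (pl (y (il v))) = y (il v) := fun v => by
      have h1 := hcy (il v)
      simp only [hpi] at h1
      exact h1
    have kz : ∀ v, il (pl (z (il v))) = z (il v) := fun v => by
      have h1 := hcz (il v)
      simp only [hpi] at h1
      exact h1
    have happ : ∀ (w : Module.End ℂ A.H1) v, (pl ∘ₗ w ∘ₗ il) v = pl (w (il v)) := fun _ _ => rfl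
    have hpolι : ∀ u v, A.pol (il u) (il v) = (B j).pol u v := fun u v => by
      rw [hil, hil]
      exact D.pol j u v
    refine hQrm (B j) (D.simple j) (D.pos j) (pl ∘ₗ x ∘ₗ il) (pl ∘ₗ y ∘ₗ il) (pl ∘ₗ z ∘ₗ il) a b
      ha hb ?_ ?_ ?_ ?_ ?_ ?_ ?_ ?_ ?_ ?_
    · apply LinearMap.ext
      intro v
      rw [Module.End.mul_apply, happ, happ, kx]
      have h1 : x (x (il v)) = (a : ℂ) • il v :=
        congrArg (fun t : Module.End ℂ A.H1 => t (il v)) hx
      rw [h1, map_smul, hpi]
      rfl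
    · apply LinearMap.ext
      intro v
      rw [Module.End.mul_apply, happ, happ, ky]
      have h1 : y (y (il v)) = (b : ℂ) • il v :=
        congrArg (fun t : Module.End ℂ A.H1 => t (il v)) hy
      rw [h1, map_smul, hpi]
      rfl
    · apply LinearMap.ext
      intro v
      have h1 : x (y (il v)) = -(y (x (il v))) :=
        congrArg (fun t : Module.End ℂ A.H1 => t (il v)) hxy
      rw [LinearMap.neg_apply, Module.End.mul_apply, Module.End.mul_apply, happ, happ, happ, happ,
        ky, kx, h1, map_neg]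
    · apply LinearMap.ext
      intro v
      have h1 : x (z (il v)) = z (x (il v)) :=
        congrArg (fun t : Module.End ℂ A.H1 => t (il v)) hxz
      rw [Module.End.mul_apply, Module.End.mul_apply, happ, happ, happ, happ, kz, kx, h1]
    · apply LinearMap.ext
      intro v
      have h1 : y (z (il v)) = z (y (il v)) :=
        congrArg (fun t : Module.End ℂ A.H1 => t (il v)) hyz
      rw [Module.End.mul_apply, Module.End.mul_apply, happ, happ, happ, happ, kz, ky, h1]
    · intro u v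
      rw [← hpolι, ← hpolι, happ, happ, kz, kz, hzs]
    · exact fun v hv => mπ.betti _ (hxB _ (mι.betti v hv))
    · exact fun v hv => mπ.betti _ (hyB _ (mι.betti v hv))
    · exact fun v hv => mπ.betti _ (hzB _ (mι.betti v hv))
    · intro f
      constructor
      · intro hf
        have hF : A.IsEnd (fun v => il (f (pl v))) :=
          (isEnd_iff A _).2 (isMor_comp mι (isMor_comp ((isEnd_iff _ _).1 hf) mπ))
        obtain ⟨-, -, gx, gy, gz⟩ := (hEnd _).1 hF
        refine ⟨hf.linear, hf.betti, ?_, ?_, ?_⟩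
        · intro v
          have h1 := congrArg pl (gx (il v))
          simp only [hpi] at h1
          exact h1
        · intro v
          have h1 := congrArg pl (gy (il v))
          simp only [hpi] at h1
          exact h1
        · intro v
          have h1 := congrArg pl (gz (il v))
          simp only [hpi] at h1
          exact h1
      · rintro ⟨hl, hB, fx, fy, fz⟩
        have hpx : ∀ w : Module.End ℂ A.H1, (∀ v, il (pl (w v)) = w (il (pl v))) →
            ∀ v, pl (w (il (pl v))) = pl (w v) := by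
          intro w hw v
          rw [← hw, hpi]
        have hF : A.IsEnd (fun v => il (f (pl v))) := by
          rw [hEnd]
          refine ⟨⟨fun u v => by rw [map_add, hl.map_add, map_add],
            fun r v => by rw [map_smul, hl.map_smul, map_smul]⟩,
            fun v hv => mι.betti _ (hB _ (mπ.betti v hv)), ?_, ?_, ?_⟩
          · intro v
            show il (f (pl (x v))) = x (il (f (pl v)))
            rw [← kx, ← happ, ← fx, happ, hpx x hcx]
          · intro v
            show il (f (pl (y v))) = y (il (f (pl v)))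
            rw [← ky, ← happ, ← fy, happ, hpx y hcy]
          · intro v
            show il (f (pl (z v))) = z (il (f (pl v)))
            rw [← kz, ← happ, ← fz, happ, hpx z hcz]
        have h1 := isMor_comp mπ (isMor_comp ((isEnd_iff _ _).1 hF) mι)
        simp only [hpi] at h1
        exact (isEnd_iff _ _).2 h1
  · intro v _
    rw [← D.sum v]
    exact Submodule.sum_mem _ fun j _ => Submodule.subset_span ⟨j, ι j, π j v, D.morι j, rfl⟩

section alg

variable {𝓐 : Type} [Ring 𝓐] [Algebra ℂ 𝓐]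

private lemma Rqt_cm {f u v : 𝓐} (hu : f * u = u * f) (hv : f * v = v * f) :
    f * (u * v) = u * v * f := by
  rw [← mul_assoc, hu, mul_assoc, hv, mul_assoc]

private lemma Rqt_cs {f u w : 𝓐} {r : ℂ} (hr : r ≠ 0) (hu : f * w = w * f) (h : w = r • u) :
    f * u = u * f := by
  rw [h, mul_smul_comm, smul_mul_assoc] at hu
  exact smul_right_injective _ hr hu

private lemma Rqt_cn {f u v : 𝓐} (hu : f * u = u * f) (h : v = -u) : f * v = v * f := by
  rw [h, mul_neg, neg_mul, hu]

/-- generators of the even Clifford algebra, dimension three -/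
private lemma Rqt_alg3 (T : Fin 3 → 𝓐) (q : Fin 3 → ℂ) (hq : ∀ i, q i ≠ 0)
    (hsq : ∀ i, T i * T i = q i • 1) (hac : ∀ i j, i ≠ j → T i * T j = -(T j * T i)) :
    (T 0 * T 1) * (T 0 * T 1) = (-(q 0 * q 1)) • 1 ∧
    (T 1 * T 2) * (T 1 * T 2) = (-(q 1 * q 2)) • 1 ∧
    (T 0 * T 1) * (T 1 * T 2) = -((T 1 * T 2) * (T 0 * T 1)) ∧
    ∀ f, f * (T 0 * T 1) = T 0 * T 1 * f → f * (T 1 * T 2) = T 1 * T 2 * f →
      ∀ i j, f * (T i * T j) = T i * T j * f := by
  have s : ∀ i t, T i * (T i * t) = q i • t := fun i t => by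
    rw [← mul_assoc, hsq, smul_mul_assoc, one_mul]
  have a10 := hac 1 0 (by decide)
  have a21 := hac 2 1 (by decide)
  have a20 := hac 2 0 (by decide)
  have b10 : ∀ t, T 1 * (T 0 * t) = -(T 0 * (T 1 * t)) := fun t => by
    rw [← mul_assoc, a10, neg_mul, mul_assoc]
  have b21 : ∀ t, T 2 * (T 1 * t) = -(T 1 * (T 2 * t)) := fun t => by
    rw [← mul_assoc, a21, neg_mul, mul_assoc]
  have b20 : ∀ t, T 2 * (T 0 * t) = -(T 0 * (T 2 * t)) := fun t => by
    rw [← mul_assoc, a20, neg_mul, mul_assoc]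
  refine ⟨?_, ?_, ?_, ?_⟩
  · simp only [mul_assoc, b10, hsq, s, mul_neg, mul_smul_comm, mul_one, smul_smul]
    module
  · simp only [mul_assoc, b21, hsq, s, mul_neg, mul_smul_comm, mul_one, smul_smul]
    module
  · simp only [mul_assoc, a10, a21, a20, b10, b21, b20, hsq, s, mul_neg, mul_smul_comm, mul_one,
      smul_smul, neg_neg]
  · intro f h01 h12
    have h02 : f * (T 0 * T 2) = T 0 * T 2 * f := by
      refine Rqt_cs (hq 1) (Rqt_cm h01 h12) ?_
      simp only [mul_assoc, s, mul_smul_comm]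
    have h10 := Rqt_cn h01 a10
    have h21 := Rqt_cn h12 a21
    have h20 := Rqt_cn h02 a20
    have hii : ∀ i, f * (T i * T i) = T i * T i * f := fun i => by
      rw [hsq, mul_smul_comm, smul_mul_assoc, mul_one, one_mul]
    intro i j
    fin_cases i <;> fin_cases j
    · exact hii 0
    · exact h01
    · exact h02
    · exact h10
    · exact hii 1
    · exact h12
    · exact h20
    · exact h21
    · exact hii 2

/-- generators of the even Clifford algebra, dimension four -/
private lemma Rqt_alg4 (T : Fin 4 → 𝓐) (q : Fin 4 → ℂ) (hq : ∀ i, q i ≠ 0)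
    (hsq : ∀ i, T i * T i = q i • 1) (hac : ∀ i j, i ≠ j → T i * T j = -(T j * T i)) :
    (T 0 * T 1) * (T 0 * T 1) = (-(q 0 * q 1)) • 1 ∧
    (T 1 * T 2) * (T 1 * T 2) = (-(q 1 * q 2)) • 1 ∧
    (T 0 * T 1) * (T 1 * T 2) = -((T 1 * T 2) * (T 0 * T 1)) ∧
    (T 0 * T 1) * (T 0 * T 1 * (T 2 * T 3)) = T 0 * T 1 * (T 2 * T 3) * (T 0 * T 1) ∧
    (T 1 * T 2) * (T 0 * T 1 * (T 2 * T 3)) = T 0 * T 1 * (T 2 * T 3) * (T 1 * T 2) ∧
    (T 0 * T 1) * (T 2 * T 3) = (T 2 * T 3) * (T 0 * T 1) ∧
    ∀ f, f * (T 0 * T 1) = T 0 * T 1 * f → f * (T 1 * T 2) = T 1 * T 2 * f →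
      f * (T 0 * T 1 * (T 2 * T 3)) = T 0 * T 1 * (T 2 * T 3) * f →
      ∀ i j, f * (T i * T j) = T i * T j * f := by
  have s : ∀ i t, T i * (T i * t) = q i • t := fun i t => by
    rw [← mul_assoc, hsq, smul_mul_assoc, one_mul]
  have a10 := hac 1 0 (by decide)
  have a21 := hac 2 1 (by decide)
  have a20 := hac 2 0 (by decide)
  have a30 := hac 3 0 (by decide)
  have a31 := hac 3 1 (by decide)
  have a32 := hac 3 2 (by decide)
  have b : ∀ i j, T i * T j = -(T j * T i) → ∀ t, T i * (T j * t) = -(T j * (T i * t)) :=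
    fun i j h t => by rw [← mul_assoc, h, neg_mul, mul_assoc]
  have b10 := b _ _ a10
  have b21 := b _ _ a21
  have b20 := b _ _ a20
  have b30 := b _ _ a30
  have b31 := b _ _ a31
  have b32 := b _ _ a32
  refine ⟨?_, ?_, ?_, ?_, ?_, ?_, ?_⟩
  · simp only [mul_assoc, b10, hsq, s, mul_neg, mul_smul_comm, mul_one, smul_smul]
    module
  · simp only [mul_assoc, b21, hsq, s, mul_neg, mul_smul_comm, mul_one, smul_smul]
    module
  · simp only [mul_assoc, a10, a21, a20, b10, b21, b20, hsq, s, mul_neg, mul_smul_comm, mul_one,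
      smul_smul, neg_neg]
  · simp only [mul_assoc, a10, a21, a20, a30, a31, a32, b10, b21, b20, b30, b31, b32, hsq, s,
      mul_neg, neg_mul, mul_smul_comm, mul_one, smul_smul, neg_neg, smul_neg]
  · simp only [mul_assoc, a10, a21, a20, a30, a31, a32, b10, b21, b20, b30, b31, b32, hsq, s,
      mul_neg, neg_mul, mul_smul_comm, mul_one, smul_smul, neg_neg, smul_neg]
  · simp only [mul_assoc, a10, a21, a20, a30, a31, a32, b10, b21, b20, b30, b31, b32, hsq, s,
      mul_neg, neg_mul, mul_smul_comm, mul_one, smul_smul, neg_neg, smul_neg]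
  · intro f h01 h12 hz
    have h02 : f * (T 0 * T 2) = T 0 * T 2 * f := by
      refine Rqt_cs (hq 1) (Rqt_cm h01 h12) ?_
      simp only [mul_assoc, s, mul_smul_comm]
    have h23 : f * (T 2 * T 3) = T 2 * T 3 * f := by
      refine Rqt_cs (r := -(q 0 * q 1)) (neg_ne_zero.2 (mul_ne_zero (hq 0) (hq 1)))
        (Rqt_cm h01 hz) ?_
      simp only [mul_assoc, b10, hsq, s, mul_neg, mul_smul_comm, mul_one, smul_smul]
      module
    have h03 : f * (T 0 * T 3) = T 0 * T 3 * f := by
      refine Rqt_cs (r := q 2) (hq 2) (Rqt_cm h02 h23) ?_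
      simp only [mul_assoc, s, mul_smul_comm]
    have h13 : f * (T 1 * T 3) = T 1 * T 3 * f := by
      refine Rqt_cs (r := q 2) (hq 2) (Rqt_cm h12 h23) ?_
      simp only [mul_assoc, s, mul_smul_comm]
    have h10 := Rqt_cn h01 a10
    have h21 := Rqt_cn h12 a21
    have h20 := Rqt_cn h02 a20
    have h30 := Rqt_cn h03 a30
    have h31 := Rqt_cn h13 a31
    have h32 := Rqt_cn h23 a32
    have hii : ∀ i, f * (T i * T i) = T i * T i * f := fun i => by
      rw [hsq, mul_smul_comm, smul_mul_assoc, mul_one, one_mul]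
    intro i j
    fin_cases i <;> fin_cases j
    · exact hii 0
    · exact h01
    · exact h02
    · exact h03
    · exact h10
    · exact hii 1
    · exact h12
    · exact h13
    · exact h20
    · exact h21
    · exact hii 2
    · exact h23
    · exact h30
    · exact h31
    · exact h32
    · exact hii 3

private lemma Rqt_lin {n n' : ℕ} (T : Fin n → 𝓐) (L : Fin n' → 𝓐) (r : Fin n' → Fin n → ℂ)
    (hL : ∀ a, L a = ∑ i, r a i • T i) (f : 𝓐) (h : ∀ i j, f * (T i * T j) = T i * T j * f)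
    (a b : Fin n') : f * (L a * L b) = L a * L b * f := by
  rw [hL a, hL b, Finset.sum_mul_sum, Finset.mul_sum, Finset.sum_mul]
  refine Finset.sum_congr rfl fun i _ => ?_
  rw [Finset.mul_sum, Finset.sum_mul]
  refine Finset.sum_congr rfl fun j _ => ?_
  rw [smul_mul_smul_comm, mul_smul_comm, smul_mul_assoc, h]

end alg

/-- orthogonal bases -/
private lemma Rqt_orth {K : Type} [Field K] [CharZero K] {m : ℕ} (h : Matrix (Fin m) (Fin m) K)
    (hs : hᵀ = h) (hdet : h.det ≠ 0) : ∃ v : Basis (Fin m) K (Fin m → K),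
      (∀ i j, i ≠ j → v i ⬝ᵥ (h *ᵥ v j) = 0) ∧ ∀ i, v i ⬝ᵥ (h *ᵥ v i) ≠ 0 := by
  classical
  have hinv : Invertible (2 : K) := invertibleOfNonzero two_ne_zero
  let b : LinearMap.BilinForm K (Fin m → K) := Matrix.toBilin' h
  have hb : ∀ x y, b x y = x ⬝ᵥ (h *ᵥ y) := fun x y => Matrix.toBilin'_apply' h x y
  have hsymm : LinearMap.IsSymm b := by
    refine ⟨fun x y => ?_⟩
    change b x y = b y x
    rw [hb, hb, Matrix.dotProduct_mulVec, ← Matrix.mulVec_transpose, hs, dotProduct_comm]
  obtain ⟨v0, hv0⟩ := LinearMap.BilinForm.exists_orthogonal_basis hsymm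
  have hcard : finrank K (Fin m → K) = m := by simp
  let v : Basis (Fin m) K (Fin m → K) := v0.reindex (finCongr hcard)
  have hv : ∀ i j, i ≠ j → b (v i) (v j) = 0 := by
    intro i j hij
    simp only [v, Basis.reindex_apply]
    exact hv0 (fun h => hij ((finCongr hcard).symm.injective h))
  refine ⟨v, fun i j hij => by rw [← hb]; exact hv i j hij, ?_⟩
  intro i h0
  rw [← hb] at h0
  have h1 : ∀ j, b (v j) (v i) = 0 := fun j => by
    by_cases h : j = i
    · rw [h]
      exact h0
    · exact hv j i h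
  have h2 : b.flip (v i) = 0 := v.ext fun j => by
    rw [LinearMap.zero_apply]
    exact h1 j
  have h3 : h *ᵥ v i = 0 := by
    funext k
    have h4 : b (Pi.single k 1) (v i) = 0 := by
      have := LinearMap.congr_fun h2 (Pi.single k 1)
      rwa [LinearMap.zero_apply] at this
    rw [hb, single_dotProduct, one_mul] at h4
    exact h4
  exact v.ne_zero i (Matrix.eq_zero_of_mulVec_eq_zero hdet h3)

/-- the operators in `bvS` are skew for the polarization -/
private lemma Rqt_skew {A : AbVar} {K : Type} [Field K] [NumberField K] {c : K →+* K} {m : ℕ}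
    (S : A.KugaSatakeMul K c m) (hg : A.g ≠ 0) (hK : Adm S) (Z : Module.End ℂ A.H1)
    (hZ : Z ∈ bvS (lt A S)) (u v : A.H1) : A.pol (Z u) v + A.pol u (Z v) = 0 := by
  have h1 := kil S hg hK 1 (Inv_two (pData A).ψ) ?_ ?_ Z hZ
  · have h2 := congrArg (fun G => G (![u, v] : Fin 2 → A.H1)) h1
    have h3 : actForm Z (Inv_two (pData A).ψ) (![u, v] : Fin 2 → A.H1) = 0 := h2
    rw [actForm_apply, Fin.sum_univ_two, Inv_two_apply, Inv_two_apply] at h3
    rw [← pData_ψ, ← pData_ψ]
    simpa using h3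
  · intro w hw
    obtain ⟨q, hq⟩ := (pData A).hψQ _ (hw 0) _ (hw 1)
    exact ⟨q, by rw [pow_one]; exact hq⟩
  · intro w hw
    exact psi_alg (pData A).ψ (pData A).hψalg _ _ (hw 0) (hw 1)

theorem thm_Rqt (hQrm : St_Qrm) : St_Rqt := by
  intro A K _ _ c m S hc hK hm
  classical
  by_cases hg : A.g = 0
  · exact ⟨Empty, inferInstance, Empty.elim, fun x => x.elim, fun v _ => by
      rw [Pool.Agent.Helper71.AF.H1_subsingleton A hg v 0]
      exact Submodule.zero_mem _⟩
  have hAdm : Adm S := by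
    left
    refine ⟨hc, ?_, Or.inl ?_⟩
    · rcases hm with h | h <;> omega
    · rcases hm with h | h <;> omega
  have hsub : Subsingleton (K →+* ℂ) := by
    rw [← Fintype.card_le_one_iff_subsingleton, NumberField.Embeddings.card K ℂ, hK]
  obtain ⟨σ⟩ : Nonempty (K →+* ℂ) := inferInstance
  have hreal : ∀ τ : K →+* ℂ, cj τ = τ := fun τ => Subsingleton.elim _ _
  have hrat : ∀ w : K, ∃ q : ℚ, σ w = q := by
    intro w
    obtain ⟨q, hq⟩ := (finrank_eq_one_iff_of_nonzero' (1 : K) one_ne_zero).1 hK w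
    exact ⟨q, by rw [← hq, Algebra.smul_def, mul_one, eq_ratCast, map_ratCast]⟩
  obtain ⟨σ₀, x₀, hx₀, -, -⟩ := S.hodge
  have hnd := k3_nd S.conjugation S.hermitian hx₀
  have hsym : S.hᵀ = S.h := by
    ext a b
    have h1 : c (S.h a b) = S.h b a := S.hermitian a b
    have h2 : c (S.h a b) = S.h a b := by
      have h3 := RingHom.congr_fun hc (S.h a b)
      rw [h3, RingHom.id_apply]
    rw [Matrix.transpose_apply, ← h1, h2]
  obtain ⟨v, hv, hv0⟩ := Rqt_orth S.h hsym hnd
  obtain ⟨T, hT⟩ : ∃ T : Fin m → Module.End ℂ A.H1,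
      ∀ i, T i = tau (ts (lt A S) σ) (fun b => σ (v i b)) := ⟨_, fun _ => rfl⟩
  have M := mde A S hnd
  have hpr : ∀ i j, pr S.h σ (fun b => σ (v i b)) (fun b => σ (v j b)) =
      σ (v i ⬝ᵥ (S.h *ᵥ v j)) := by
    intro i j
    simp only [pr, dotProduct, Matrix.mulVec, Matrix.map_apply, map_sum, map_mul]
  have hTT : ∀ i j, T i * T j + T j * T i = (2 * σ (v i ⬝ᵥ (S.h *ᵥ v j))) • 1 := by
    intro i j
    have h1 := tau_pair M.conj M.cliff σ (fun b => σ (v i b)) (fun b => σ (v j b))
    rw [hreal, ← hT, ← hT, hpr] at h1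
    exact h1
  choose q hq using fun i => hrat (v i ⬝ᵥ (S.h *ᵥ v i))
  have hq0 : ∀ i, q i ≠ 0 := by
    intro i h0
    apply hv0 i
    apply σ.injective
    rw [hq, h0, Rat.cast_zero, map_zero]
  have hsq : ∀ i, T i * T i = (q i : ℂ) • 1 := by
    intro i
    have h1 := hTT i i
    rw [hq, ← two_smul ℂ, mul_smul] at h1
    exact smul_right_injective _ (two_ne_zero (α := ℂ)) h1
  have hac : ∀ i j, i ≠ j → T i * T j = -(T j * T i) := by
    intro i j hij
    have h1 := hTT i j
    rw [hv i j hij, map_zero, mul_zero, zero_smul] at h1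
    exact eq_neg_of_add_eq_zero_left h1
  -- the operators in terms of each other
  have hTe : ∀ i, T i = ∑ b, σ (v i b) • le A S σ b := by
    intro i
    rw [hT, tau_apply]
    simp only [ts_lt]
  have heT : ∀ b, ∃ r : Fin m → ℂ, le A S σ b = ∑ i, r i • T i := by
    intro b
    refine ⟨fun i => σ (v.repr (Pi.single b 1) i), ?_⟩
    have e1 : (Pi.single b 1 : Fin m → ℂ) =
        ∑ i, σ (v.repr (Pi.single b 1) i) • (fun d => σ (v i d)) := by
      funext d
      have h1 := congrArg σ (congrFun (v.sum_repr (Pi.single b (1 : K))) d)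
      rw [Finset.sum_apply, map_sum] at h1
      rw [Finset.sum_apply]
      have h2 : (Pi.single b 1 : Fin m → ℂ) d = σ ((Pi.single b 1 : Fin m → K) d) := by
        by_cases hbd : d = b
        · rw [hbd, Pi.single_eq_same, Pi.single_eq_same, map_one]
        · rw [Pi.single_eq_of_ne hbd, Pi.single_eq_of_ne hbd, map_zero]
      rw [h2, ← h1]
      refine Finset.sum_congr rfl fun i _ => ?_
      rw [Pi.smul_apply, Pi.smul_apply, smul_eq_mul, smul_eq_mul, map_mul]
    rw [← ts_lt, ← Pool.Agent.KSR.TransA.tau_single (lt A S) σ b, e1, map_sum]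
    refine Finset.sum_congr rfl fun i _ => ?_
    rw [map_smul, hT]
  choose r hr using heT
  have hTB : ∀ i u, A.IsBetti u → A.IsBetti (T i u) := by
    intro i u hu
    have h1 : T i u = ∑ b, ∑ τ : K →+* ℂ, τ (v i b) • S.e τ b u := by
      rw [hTe, LinearMap.sum_apply]
      refine Finset.sum_congr rfl fun b _ => ?_
      rw [Fintype.sum_subsingleton _ σ]
      rfl
    rw [h1, isBetti_iff]
    exact Submodule.sum_mem _ fun b _ => (isBetti_iff A _).1 (S.betti b (v i b) u hu)
  have hskew : ∀ i j, i ≠ j → ∀ u w, A.pol (T i (T j u)) w = -A.pol u (T i (T j w)) := by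
    intro i j hij u w
    have h1 : T i * T j - T j * T i ∈ bvS (lt A S) := by
      rw [hT, hT]
      exact Pool.Agent.KSR.TransA.mem_bvS hreal (lt A S) σ _ _
    have h2 := Rqt_skew S hg hAdm _ h1 u w
    have h3 : T i * T j - T j * T i = (2 : ℂ) • (T i * T j) := by
      rw [two_smul, hac i j hij]
      abel
    have h4 : ∀ t, ((2 : ℂ) • (T i * T j)) t = (2 : ℂ) • T i (T j t) := fun _ => rfl
    rw [h3, h4, h4, ← pData_ψ, ← pData_ψ, map_smul, map_smul, LinearMap.smul_apply, ← smul_add,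
      smul_eq_zero] at h2
    exact eq_neg_of_add_eq_zero_left (h2.resolve_left two_ne_zero)
  have hend : ∀ f : A.H1 → A.H1, A.IsEnd f ↔ IsLinearMap ℂ f ∧
      (∀ v, A.IsBetti v → A.IsBetti (f v)) ∧ ∀ i j v, f (T i (T j v)) = T i (T j (f v)) := by
    intro f
    rw [S.endo]
    constructor
    · rintro ⟨hl, hB, hf⟩
      refine ⟨hl, hB, fun i j w => ?_⟩
      have h1 := Rqt_lin (le A S σ) T (fun i b => σ (v i b)) hTe (hl.mk' f) (by
        intro a b
        apply LinearMap.ext
        intro w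
        have h2 := hf σ a b w
        rw [show ComplexEmbedding.conjugate σ = σ from hreal σ] at h2
        exact h2) i j
      exact congrArg (fun t : Module.End ℂ A.H1 => t w) h1
    · rintro ⟨hl, hB, hf⟩
      refine ⟨hl, hB, fun τ a b w => ?_⟩
      rw [show ComplexEmbedding.conjugate τ = σ from Subsingleton.elim _ _,
        show τ = σ from Subsingleton.elim _ _]
      have h1 := Rqt_lin T (le A S σ) r hr (hl.mk' f) (by
        intro i j
        apply LinearMap.ext
        intro w
        exact hf i j w) a b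
      exact congrArg (fun t : Module.End ℂ A.H1 => t w) h1
  rcases hm with rfl | rfl
  · obtain ⟨k1, k2, k3, k4⟩ := Rqt_alg3 T (fun i => (q i : ℂ))
      (fun i => Rat.cast_ne_zero.2 (hq0 i)) hsq hac
    refine Rqt_abs hQrm A (T 0 * T 1) (T 1 * T 2) 0 (-(q 0 * q 1)) (-(q 1 * q 2))
      (neg_ne_zero.2 (mul_ne_zero (hq0 0) (hq0 1))) (neg_ne_zero.2 (mul_ne_zero (hq0 1) (hq0 2)))
      (by rw [k1]; push_cast; rfl) (by rw [k2]; push_cast; rfl) k3 (by rw [mul_zero, zero_mul])
      (by rw [mul_zero, zero_mul]) ?_ (fun u hu => hTB 0 _ (hTB 1 u hu))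
      (fun u hu => hTB 1 _ (hTB 2 u hu)) ?_ ?_
    · intro u w
      rw [LinearMap.zero_apply, LinearMap.zero_apply, ← pData_ψ, ← pData_ψ, map_zero, map_zero]
      rfl
    · intro u _
      rw [LinearMap.zero_apply, isBetti_iff]
      exact Submodule.zero_mem _
    · intro f
      rw [hend]
      constructor
      · rintro ⟨hl, hB, hf⟩
        exact ⟨hl, hB, hf 0 1, hf 1 2, fun w => by
          rw [LinearMap.zero_apply, LinearMap.zero_apply, hl.map_zero]⟩
      · rintro ⟨hl, hB, f1, f2, -⟩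
        refine ⟨hl, hB, fun i j w => ?_⟩
        have h1 := k4 (hl.mk' f) (LinearMap.ext f1) (LinearMap.ext f2) i j
        exact congrArg (fun t : Module.End ℂ A.H1 => t w) h1
  · obtain ⟨k1, k2, k3, k4, k5, k6, k7⟩ := Rqt_alg4 T (fun i => (q i : ℂ))
      (fun i => Rat.cast_ne_zero.2 (hq0 i)) hsq hac
    refine Rqt_abs hQrm A (T 0 * T 1) (T 1 * T 2) (T 0 * T 1 * (T 2 * T 3)) (-(q 0 * q 1))
      (-(q 1 * q 2))
      (neg_ne_zero.2 (mul_ne_zero (hq0 0) (hq0 1))) (neg_ne_zero.2 (mul_ne_zero (hq0 1) (hq0 2)))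
      (by rw [k1]; push_cast; rfl) (by rw [k2]; push_cast; rfl) k3 k4 k5 ?_
      (fun u hu => hTB 0 _ (hTB 1 u hu)) (fun u hu => hTB 1 _ (hTB 2 u hu))
      (fun u hu => hTB 0 _ (hTB 1 _ (hTB 2 _ (hTB 3 u hu)))) ?_
    · intro u w
      have h1 : ∀ t, (T 0 * T 1 * (T 2 * T 3)) t = T 2 (T 3 (T 0 (T 1 t))) := by
        intro t
        rw [k6]
        rfl
      have h2 : (T 0 * T 1 * (T 2 * T 3)) u = T 0 (T 1 (T 2 (T 3 u))) := rfl
      rw [h1 w, h2, hskew 0 1 (by decide), hskew 2 3 (by decide), neg_neg]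
    · intro f
      rw [hend]
      constructor
      · rintro ⟨hl, hB, hf⟩
        refine ⟨hl, hB, hf 0 1, hf 1 2, fun w => ?_⟩
        show f (T 0 (T 1 (T 2 (T 3 w)))) = T 0 (T 1 (T 2 (T 3 (f w))))
        rw [hf, hf]
      · rintro ⟨hl, hB, f1, f2, f3⟩
        refine ⟨hl, hB, fun i j w => ?_⟩
        have h1 := k7 (hl.mk' f) (LinearMap.ext f1) (LinearMap.ext f2) (LinearMap.ext f3) i j
        exact congrArg (fun t : Module.End ℂ A.H1 => t w) h1

end Pool.Agent.KTW
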