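import Pool.Agent.KTW.Kly
import Pool.Agent.KSE.CoreC
import Pool.Agent.KSE.HMainC

/-!
# KTW [Slx]: the operators of trace-zero families on one `A_i` of complex type
-/

set_option autoImplicit false
set_option linter.unusedSectionVars false

namespace Pool.Agent.KTW

open Module Matrix NumberField Pool.Agent.Helper7 Pool.Agent.KS Pool.Agent.Ball Pool.Agent.KSE
  Pool.Agent.Helper28.GPC Pool.Agent.K3P Pool.Agent.KTP
open Pool.Agent.GPC (AbVar IsRMType IsElementary)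

/-- all skew families of trace zero (steps (1), (2) of `KSE.skew_memC`) -/
theorem skewT_mem {K : Type} [Field K] [NumberField K] {c : K →+* K} {m : ℕ}
    {h : Matrix (Fin m) (Fin m) K}
    (hconj : ∀ (σ : K →+* ℂ) (x : K), cj σ x = σ (c x)) (hcm : ∀ σ : K →+* ℂ, cj σ ≠ σ)
    (hnd : h.det ≠ 0)
    (H : Set ((K →+* ℂ) → Matrix (Fin m) (Fin m) ℂ)) (h0 : 0 ∈ H)
    (hadd : ∀ M ∈ H, ∀ N ∈ H, M + N ∈ H) (hsmul : ∀ (r : ℂ), ∀ M ∈ H, r • M ∈ H)
    (hskew : ∀ M ∈ H, SkewM h M) (htw : ∀ M ∈ H, ∀ τ : ℂ ≃+* ℂ, twM τ M ∈ H) (σ₀ : K →+* ℂ)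
    (hcore : ∀ Z : Matrix (Fin m) (Fin m) ℂ, Z.trace = 0 →
      ∃ M ∈ H, M σ₀ = Z ∧ ∀ σ, σ ≠ σ₀ → σ ≠ cj σ₀ → M σ = 0)
    (M : (K →+* ℂ) → Matrix (Fin m) (Fin m) ℂ) (hM : SkewM h M) (hMt : ∀ σ, (M σ).trace = 0) :
    M ∈ H := by
  classical
  let HS : Submodule ℂ ((K →+* ℂ) → Matrix (Fin m) (Fin m) ℂ) :=
    { carrier := H
      zero_mem' := h0
      add_mem' := fun {a b} ha hb => hadd a ha b hb
      smul_mem' := fun r a ha => hsmul r a ha }
  have hHS : ∀ N, N ∈ HS ↔ N ∈ H := fun N => Iff.rfl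
  have step1 : ∀ (σ₁ : K →+* ℂ) (Z : Matrix (Fin m) (Fin m) ℂ), Z.trace = 0 →
      ∃ N ∈ H, N σ₁ = Z ∧ ∀ σ, σ ≠ σ₁ → σ ≠ cj σ₁ → N σ = 0 := by
    intro σ₁ Z hZ
    obtain ⟨τ, hτ⟩ := Pool.Agent.Helper84.exists_aut σ₀ σ₁
    have hτx : ∀ x, τ (σ₀ x) = σ₁ x := fun x => RingHom.congr_fun hτ x
    obtain ⟨M₀, hM₀, h1, h2⟩ := hcore (Z.map τ.symm) (by
      have : (Z.map τ.symm).trace = τ.symm Z.trace := by
        simp [Matrix.trace]
      rw [this, hZ, map_zero])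
    refine ⟨twM τ M₀, htw M₀ hM₀ τ, ?_, ?_⟩
    · have e : (τ.symm : ℂ →+* ℂ).comp σ₁ = σ₀ := by
        ext x
        show τ.symm (σ₁ x) = σ₀ x
        rw [← hτx, RingEquiv.symm_apply_apply]
      show (M₀ ((τ.symm : ℂ →+* ℂ).comp σ₁)).map τ = Z
      rw [e, h1]
      ext a b
      simp
    · intro σ hσ1 hσ2
      show (M₀ ((τ.symm : ℂ →+* ℂ).comp σ)).map τ = 0
      rw [h2]
      · ext a b
        simp
      · intro e
        apply hσ1
        ext x
        have h3 : τ.symm (σ x) = σ₀ x := RingHom.congr_fun e x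
        rw [← hτx, ← h3, RingEquiv.apply_symm_apply]
      · intro e
        apply hσ2
        ext x
        have h3 : τ.symm (σ x) = cj σ₀ x := RingHom.congr_fun e x
        rw [hconj] at h3
        rw [hconj, ← hτx, ← h3, RingEquiv.apply_symm_apply]
  choose N hNH hN1 hN2 using fun σ₁ : K →+* ℂ => step1 σ₁ (M σ₁) (hMt σ₁)
  have h1 : ∑ σ₁, N σ₁ ∈ HS := Submodule.sum_mem _ fun σ₁ _ => (hHS _).2 (hNH σ₁)
  have h2 : ∑ σ₁, N σ₁ = (2 : ℂ) • M := by
    funext σ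
    rw [Finset.sum_apply, Pi.smul_apply]
    have hne : cj σ ≠ σ := hcm σ
    have h3 : ∀ σ₁, N σ₁ σ = (if σ₁ = σ then M σ else 0) + (if σ₁ = cj σ then M σ else 0) := by
      intro σ₁
      by_cases e1 : σ₁ = σ
      · subst e1
        rw [if_pos rfl, if_neg (fun e => hne e.symm), add_zero, hN1]
      · by_cases e2 : σ₁ = cj σ
        · rw [if_neg e1, if_pos e2, zero_add]
          have e3 : σ = cj σ₁ := by rw [e2, HMainC.cjcj]
          have h4 := HMainC.dual_eq hnd (hskew _ (hNH σ₁)) hM (hN1 σ₁)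
          rw [← e3] at h4
          exact h4
        · rw [if_neg e1, if_neg e2, add_zero]
          apply hN2 σ₁ σ (fun e => e1 e.symm)
          intro e
          apply e2
          rw [e, HMainC.cjcj]
    rw [Finset.sum_congr rfl fun σ₁ _ => h3 σ₁, Finset.sum_add_distrib, Finset.sum_ite_eq',
      Finset.sum_ite_eq', if_pos (Finset.mem_univ _), if_pos (Finset.mem_univ _), two_smul]
  have h3 : M = (1 / 2 : ℂ) • ∑ σ₁, N σ₁ := by
    rw [h2, smul_smul]
    norm_num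
  rw [h3]
  exact (hHS _).1 (Submodule.smul_mem _ _ h1)

section

variable {I J : Type} [Fintype I] [DecidableEq I] [Fintype J] [DecidableEq J] (X : J → AbVar)
    {e : I → J} {K : I → Type} [∀ i, Field (K i)] [∀ i, NumberField (K i)]
    {c : ∀ i, K i →+* K i} {m : I → ℕ} (S : ∀ i, (X (e i)).KugaSatakeMul (K i) (c i) (m i))
    {σ₀ : ∀ i, K i →+* ℂ}

/-- the operators of the families of trace zero on one factor kill all Grothendieck forms -/
theorem Slx_form (hAby : St_Aby) (hM : ∀ i, MD (pData (X (e i))) (c i) (S i).h (lt (X (e i)) (S i)))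
    (i : I) (hco : ∀ σ : K i →+* ℂ, cj σ ≠ σ)
    (hF : ∀ (n : J → ℕ) (k : ℕ)
    (γ : MultilinearMap ℂ (fun _ : Fin (2 * k) => HW (fun j => Fin (X j).g ⊕ Fin (X j).g) n) ℂ),
    (∀ v : Fin (2 * k) → HW (fun j => Fin (X j).g ⊕ Fin (X j).g) n,
      (∀ r, IsRatP n (fun j => pData (X j)) (v r)) →
        ∃ q : ℚ, γ v = (2 * Real.pi * Complex.I) ^ k * q) →
    (∀ v : Fin (2 * k) → HW (fun j => Fin (X j).g ⊕ Fin (X j).g) n,
      (∀ r i m j, IsAlgebraic ℚ (v r i m j)) → IsAlgebraic ℚ (γ v)) →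
    (∀ Y : GG (fun j => Fin (X j).g ⊕ Fin (X j).g), IsInv n (fun j => pData (X j)) γ Y →
      ∀ i, ∃ M, ActM (lt (X (e i)) (S i)) (Y.1 (e i)) M) →
    (∀ g : (j : J) → Module.End ℂ (Fin (X j).g ⊕ Fin (X j).g → ℂ),
      IsGrp n (fun j => pData (X j)) γ g → ∀ i,
      ∃ A : (K i →+* ℂ) → Matrix (Fin (m i)) (Fin (m i)) ℂ, ∀ σ x,
        g (e i) * tau (ts (lt (X (e i)) (S i)) σ) x =
          tau (ts (lt (X (e i)) (S i)) σ) (A σ *ᵥ x) * g (e i)) →
    FamZ e n (fun j => pData (X j)) (fun i => (S i).h) (fun i => lt (X (e i)) (S i)) γ σ₀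
      (fun i' => i' = i) c)
    (Y : Module.End ℂ (X (e i)).H1) (M : (K i →+* ℂ) → Matrix (Fin (m i)) (Fin (m i)) ℂ)
    (hY : Y ∈ bvS (lt (X (e i)) (S i))) (hYM : ActM (lt (X (e i)) (S i)) Y M)
    (ht : ∀ σ, (M σ).trace = 0) (n : J → ℕ) {k : ℕ}
    (α : MultilinearMap ℂ (fun _ : Fin (2 * k) => HW (fun j => Fin (X j).g ⊕ Fin (X j).g) n) ℂ)
    (hB : ∀ v : Fin (2 * k) → HW (fun j => Fin (X j).g ⊕ Fin (X j).g) n,
      (∀ r, IsRatP n (fun j => pData (X j)) (v r)) →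
        ∃ q : ℚ, α v = (2 * Real.pi * Complex.I) ^ k * q)
    (hA : ∀ v : Fin (2 * k) → HW (fun j => Fin (X j).g ⊕ Fin (X j).g) n,
      (∀ r i m j, IsAlgebraic ℚ (v r i m j)) → IsAlgebraic ℚ (α v))
    (Z : ∀ j, Module.End ℂ (Fin (X j).g ⊕ Fin (X j).g → ℂ)) (hZi : Z (e i) = Y)
    (hZ0 : ∀ j, j ≠ e i → Z j = 0) : actForm (lift n Z) α = 0 := by
  classical
  have hϖ := Complex.two_pi_I_ne_zero
  rcases Nat.eq_zero_or_pos k with rfl | hk
  · apply MultilinearMap.ext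
    intro v
    rw [actForm_apply]
    exact Finset.sum_eq_zero fun r _ => Fin.elim0 r
  obtain ⟨n', k', γ, hγB, hγA, hγ1, hγ2⟩ := KSW.exists_gam_allE (fun j => pData (X j)) hM n hk α
    hB hA
  have H := hF n' k' γ hγB hγA (fun X hX => (hγ1 X hX).2) (fun g hg => (hγ2 g hg).2)
  have hpl : CoPl (S i).h (σ₀ i) := by
    rcases H.typ i with h | h
    · exact absurd (h.2.1 (σ₀ i)) (hco (σ₀ i))
    · exact h
  obtain ⟨-, hL, hdef, hm0, hme⟩ := hpl
  have hsk : SkewM (S i).h M := by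
    have := H.ne i
    rw [skewM_iff]
    intro σ x y
    exact ActM.skew (hM i).conj (hM i).cliff hYM σ x y
  have hmem : M ∈ HH n' (fun j => pData (X j)) (e i) (lt (X (e i)) (S i)) γ :=
    skewT_mem (hM i).conj hco (hM i).nd (HH n' (fun j => pData (X j)) (e i) (lt (X (e i)) (S i)) γ)
      (HH_zero n' (fun j => pData (X j)) (e i) γ)
      (fun M hM N hN => HH_add n' (fun j => pData (X j)) (e i) γ hM hN)
      (fun r M hM => HH_smul n' (fun j => pData (X j)) (e i) γ r hM)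
      (fun N hN => HH_skew n' (fun j => pData (X j)) (e i) (hM i) γ (H.ne i) hN)
      (fun N hN τ => HH_twist n' hϖ (fun j => pData (X j)) (e i) (hM i) γ hγB hN τ) (σ₀ i)
      (fun Z hZ => coreC n' hϖ (fun j => pData (X j)) (e i) (hM i) γ hγB hγA (H.nd i) (H.ne i)
        (fun X hX => H.T X hX i) (fun g hg => H.Tg g hg i) hm0 hme (σ₀ i) (hco (σ₀ i)) hL hdef
        Z hZ) M hsk ht
  obtain ⟨Y₀, hY₀, hY₀2, hY₀M⟩ := hmem
  choose M' hMM using fun i => (hγ1 Y₀ hY₀).2 i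
  have hMi : M' i = M := by
    have := H.ne i
    exact ActM.unique (hM i).conj (hM i).cliff (hM i).nd (hMM i) hY₀M
  obtain ⟨Y', hY', hY'2, hYj, hYi⟩ := hAby I J e n' _ _ (fun j => pData (X j)) K c m
    (fun i => (S i).h) (fun i => lt (X (e i)) (S i)) k' γ σ₀ _ H Y₀ M' hY₀ hY₀2 hMM
  have hYZ : Y'.1 = Z := by
    funext j
    by_cases hj : j = e i
    · subst hj
      rw [hZi]
      obtain ⟨h1, h2⟩ := hYi i rfl
      refine eq_of_act (hM i).conj (hM i).herm (hM i).nd (hM i).cliff h1 hY h2 ?_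
      have e1 : (fun σ => trz (M' i σ)) = M := by
        funext σ
        rw [hMi]
        exact trz_of (ht σ)
      rw [e1]
      exact hYM
    · rw [hZ0 j hj]
      exact hYj j fun i' hi' hij => hj (by rw [← hij, hi'])
  have h3 := ((hγ1 Y' hY').1).form
  rw [hY'2, mul_zero, zero_smul, hYZ] at h3
  exact h3

end

/-- [SLX] -/
theorem thm_Slx (hAby : St_Aby) (hRmu : St_Rmu) (hGsf : St_Gsf) : St_Slx := by
  classical
  intro I J _ _ _ _ A D K _ _ c m S hg hC hmm hD i M Z hZ hZM ht Z' hZ'i hZ'0 n k α hB hA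
  obtain ⟨σ₀, hF⟩ := famZ_of hRmu hGsf (Sum.elim A D) Sum.inl Sum.inl_injective S hg
    (fun i' => i' = i) (fun i' => Or.inr (hC i'))
    (fun i₁ i₂ _ _ h => absurd h (hC i₁).1) (fun i₁ i₂ h1 h2 _ => by
      subst h1
      exact hmm i₁ i₂ (fun h => h2 h.symm))
    (by
      rintro (j | j) hj
      · exact absurd rfl (hj j)
      · rcases (hD.2.1 j).2 with h | h | ⟨K, i1, i2, ρ, h, -⟩
        · exact Or.inl h
        · exact Or.inr (Or.inl h)
        · exact Or.inr (Or.inr ⟨K, i1, i2, ρ, h⟩))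
  have hnd : ∀ i, (S i).h.det ≠ 0 := by
    intro i
    obtain ⟨σ, x, hx, -⟩ := (S i).hodge
    exact k3_nd (S i).conjugation (S i).hermitian hx
  have hco : ∀ σ : K i →+* ℂ, cj σ ≠ σ := by
    intro σ hσ
    apply (hC i).1
    ext y
    apply σ.injective
    have h1 := (S i).conjugation σ y
    rw [show ComplexEmbedding.conjugate σ = σ from hσ] at h1
    exact h1.symm
  have hM : ∀ i, MD (pData (Sum.elim A D (Sum.inl i))) (c i) (S i).h
      (lt (Sum.elim A D (Sum.inl i)) (S i)) := fun i => mde (A i) (S i) (hnd i)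
  exact Slx_form (e := Sum.inl) (K := K) (c := c) (m := m) (σ₀ := σ₀) (Sum.elim A D) S hAby hM i
    hco hF Z M hZ hZM ht n α hB hA Z' hZ'i hZ'0

/-- [KLY] -/
theorem thm_Kly (hAby : St_Aby) (hRmu : St_Rmu) (hGsf : St_Gsf) : St_Kly := by
  classical
  intro I I' J _ _ _ _ _ _ A A' D K _ _ c m S K' _ _ c' m' S' hg hg' hR hC hne hD n D₀ k α hB hA
  let X : I ⊕ (I' ⊕ J) → AbVar := Sum.elim A (Sum.elim A' D)
  let e : I ⊕ I' → I ⊕ (I' ⊕ J) := Sum.elim Sum.inl fun i => Sum.inr (Sum.inl i)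
  have he : Function.Injective e := by
    rintro (i | i) (j | j) h
    · exact congrArg Sum.inl (Sum.inl_injective h)
    · cases h
    · cases h
    · exact congrArg Sum.inr (Sum.inl_injective (Sum.inr_injective h))
  let K₁ : I ⊕ I' → Type := Sum.elim K K'
  let iF : ∀ i, Field (K₁ i) :=
    Sum.rec (fun i => (inferInstance : Field (K i))) fun i => (inferInstance : Field (K' i))
  let iN : ∀ i, NumberField (K₁ i) :=
    Sum.rec (fun i => (inferInstance : NumberField (K i)))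
      fun i => (inferInstance : NumberField (K' i))
  let c₁ : ∀ i, K₁ i →+* K₁ i := Sum.rec (fun i => c i) fun i => c' i
  let m₁ : I ⊕ I' → ℕ := Sum.elim m m'
  let S₁ : ∀ i, (X (e i)).KugaSatakeMul (K₁ i) (c₁ i) (m₁ i) :=
    Sum.rec (fun i => S i) fun i => S' i
  have hg₁ : ∀ i, (X (e i)).g ≠ 0 := by
    rintro (i | i)
    · exact hg i
    · exact hg' i
  let T₀ : I ⊕ I' → Prop := fun i => ∃ a : I, i = Sum.inl a
  obtain ⟨σ₀, hF⟩ := famZ_of hRmu hGsf X e he S₁ hg₁ T₀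
    (by
      rintro (i | i)
      · exact Or.inl ⟨⟨i, rfl⟩, hR i⟩
      · exact Or.inr (hC i))
    (by
      rintro (i | i) (j | j) h1 h2 -
      · exact absurd ⟨j, rfl⟩ h2
      · exact hne i j
      · obtain ⟨a, ha⟩ := h1
        cases ha
      · obtain ⟨a, ha⟩ := h1
        cases ha)
    (by
      rintro (i | i) j h1 h2 h3
      · exact absurd (hR i).1 h3
      · obtain ⟨a, ha⟩ := h1
        cases ha)
    (by
      rintro (j | j | j) hj
      · exact absurd rfl (hj (Sum.inl j))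
      · exact absurd rfl (hj (Sum.inr j))
      · rcases (hD.2.1 j).2 with h | h | ⟨K, i1, i2, ρ, h, -⟩
        · exact Or.inl h
        · exact Or.inr (Or.inl h)
        · exact Or.inr (Or.inr ⟨K, i1, i2, ρ, h⟩))
  have hM : ∀ i, MD (pData (X (e i))) (c₁ i) (S₁ i).h (lt (X (e i)) (S₁ i)) := by
    intro i
    obtain ⟨σ, x, hx, -⟩ := (S₁ i).hodge
    exact mde (X (e i)) (S₁ i) (k3_nd (S₁ i).conjugation (S₁ i).hermitian hx)
  refine Kly_form X S₁ hAby hM ?_ hF Sum.inl ?_ n α hB hA D₀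
  · rintro i ⟨a, rfl⟩ σ
    ext y
    have h1 := (S a).conjugation σ y
    rw [(hR a).1] at h1
    exact h1
  · intro j
    constructor
    · rintro ⟨a, rfl⟩
      exact ⟨Sum.inl a, ⟨a, rfl⟩, rfl⟩
    · rintro ⟨i, ⟨a, rfl⟩, rfl⟩
      exact ⟨a, rfl⟩

end Pool.Agent.KTW
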