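import Pool.Agent.KTW.StV
import Pool.Agent.KQ4.St

/-!
# KTW [Ssh]: the two halves of the orthogonal Lie algebra of dimension four (helper86)
-/

set_option autoImplicit false

open scoped ComplexConjugate ComplexOrder

namespace Pool.Agent.KTW

open Module Matrix Pool.Agent.Ball

/-- the duality of skew matrices -/
def SshS (A : Matrix (Fin 4) (Fin 4) ℂ) : Matrix (Fin 4) (Fin 4) ℂ :=
  !![0, -A 2 3, A 1 3, -A 1 2; A 2 3, 0, -A 0 3, A 0 2; -A 1 3, A 0 3, 0, -A 0 1;
    A 1 2, -A 0 2, A 0 1, 0]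

/-- skew matrices with six parameters -/
lemma Ssh_form {A : Matrix (Fin 4) (Fin 4) ℂ} (hA : Aᵀ = -A) :
    A = !![0, A 0 1, A 0 2, A 0 3; -A 0 1, 0, A 1 2, A 1 3; -A 0 2, -A 1 2, 0, A 2 3;
      -A 0 3, -A 1 3, -A 2 3, 0] := by
  have h : ∀ a b, A a b = -A b a := by
    intro a b
    have h1 := congrFun (congrFun hA b) a
    rw [Matrix.transpose_apply, Matrix.neg_apply] at h1
    exact h1
  have h0 : ∀ a, A a a = 0 := by
    intro a
    have h1 := h a a
    linear_combination (1 / 2 : ℂ) * h1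
  ext a b
  fin_cases a <;> fin_cases b <;> simp [h0, h 1 0, h 2 0, h 3 0, h 2 1, h 3 1, h 3 2]

lemma Ssh_quad (B A : Matrix (Fin 4) (Fin 4) ℂ) (hA : Aᵀ = -A) :
    B * SshS (Bᵀ * A * B) * Bᵀ = B.det • SshS A := by
  rw [Ssh_form hA]
  generalize A 0 1 = a
  generalize A 0 2 = b
  generalize A 0 3 = c
  generalize A 1 2 = d
  generalize A 1 3 = e
  generalize A 2 3 = f
  ext i j
  fin_cases i <;> fin_cases j <;>
  simp [Matrix.mul_apply, SshS, Matrix.det_succ_row_zero, Fin.sum_univ_succ,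
    Fin.succAbove] <;> ring

/-- the component -/
noncomputable def SshC (ε : ℂ) :
    Matrix (Fin 4) (Fin 4) ℂ →ₗ[ℂ] Matrix (Fin 4) (Fin 4) ℂ where
  toFun A := (1 / 2 : ℂ) • (A + ε • SshS A)
  map_add' A A' := by
    ext i j
    fin_cases i <;> fin_cases j <;> simp [SshS] <;> ring
  map_smul' r A := by
    ext i j
    fin_cases i <;> fin_cases j <;> simp [SshS] <;> ring

/-- the parametrisation of the half -/
noncomputable def SshL (ε : ℂ) : (Fin 3 → ℂ) →ₗ[ℂ] Matrix (Fin 4) (Fin 4) ℂ where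
  toFun x := !![0, -x 2, x 1, ε * x 0; x 2, 0, -x 0, ε * x 1; -x 1, x 0, 0, ε * x 2;
    -(ε * x 0), -(ε * x 1), -(ε * x 2), 0]
  map_add' x y := by
    ext i j
    fin_cases i <;> fin_cases j <;> simp <;> ring
  map_smul' r x := by
    ext i j
    fin_cases i <;> fin_cases j <;> simp <;> ring

lemma SshC_apply (ε : ℂ) (A : Matrix (Fin 4) (Fin 4) ℂ) :
    SshC ε A = (1 / 2 : ℂ) • (A + ε • SshS A) := rfl

lemma SshL_apply (ε : ℂ) (x : Fin 3 → ℂ) :
    SshL ε x = !![0, -x 2, x 1, ε * x 0; x 2, 0, -x 0, ε * x 1; -x 1, x 0, 0, ε * x 2;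
    -(ε * x 0), -(ε * x 1), -(ε * x 2), 0] := rfl

lemma SshL_skew (ε : ℂ) (x : Fin 3 → ℂ) : (SshL ε x)ᵀ = -SshL ε x := by
  rw [SshL_apply]
  ext i j
  fin_cases i <;> fin_cases j <;> simp

lemma SshL_inj (ε : ℂ) {x : Fin 3 → ℂ} (h : SshL ε x = 0) : x = 0 := by
  rw [SshL_apply] at h
  funext i
  fin_cases i
  · have := congrFun (congrFun h 2) 1
    simpa using this
  · have := congrFun (congrFun h 0) 2
    simpa using this
  · have := congrFun (congrFun h 1) 0
    simpa using this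

/-- the component is in the half -/
lemma SshC_eq {ε : ℂ} (hε : ε * ε = 1) {A : Matrix (Fin 4) (Fin 4) ℂ} (hA : Aᵀ = -A) :
    SshC ε A = SshL ε ((1 / 2 : ℂ) • ![-A 1 2 + ε * A 0 3, A 0 2 + ε * A 1 3,
      -A 0 1 + ε * A 2 3]) := by
  rw [Ssh_form hA, SshC_apply, SshL_apply]
  generalize A 0 1 = a
  generalize A 0 2 = b
  generalize A 0 3 = c
  generalize A 1 2 = d
  generalize A 1 3 = e
  generalize A 2 3 = f
  rcases mul_self_eq_one_iff.1 hε with rfl | rfl <;> ext i j <;>
    fin_cases i <;> fin_cases j <;> simp [SshS] <;> ring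

lemma SshC_L {ε : ℂ} (hε : ε * ε = 1) (x : Fin 3 → ℂ) : SshC ε (SshL ε x) = SshL ε x := by
  rw [SshC_eq hε (SshL_skew ε x)]
  congr 1
  rw [SshL_apply]
  rcases mul_self_eq_one_iff.1 hε with rfl | rfl <;> funext i <;> fin_cases i <;> simp <;> ring

lemma SshL_br {ε : ℂ} (hε : ε * ε = 1) (x y : Fin 3 → ℂ) :
    SshL ε x * SshL ε y - SshL ε y * SshL ε x = SshL ε ((2 : ℂ) • crossProduct x y) := by
  rw [SshL_apply, SshL_apply, SshL_apply, cross_apply]
  rcases mul_self_eq_one_iff.1 hε with rfl | rfl <;> ext i j <;>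
    fin_cases i <;> fin_cases j <;>
    simp [Matrix.mul_apply, Fin.sum_univ_four] <;> ring

/-- the component is a homomorphism -/
lemma SshC_br {ε : ℂ} (hε : ε * ε = 1) {A A' : Matrix (Fin 4) (Fin 4) ℂ} (hA : Aᵀ = -A)
    (hA' : A'ᵀ = -A') : SshC ε (A * A' - A' * A) = SshC ε A * SshC ε A' - SshC ε A' * SshC ε A := by
  have hs : (A * A' - A' * A)ᵀ = -(A * A' - A' * A) := by
    rw [Matrix.transpose_sub, Matrix.transpose_mul, Matrix.transpose_mul, hA, hA']
    noncomm_ring
  rw [SshC_eq hε hs, SshC_eq hε hA, SshC_eq hε hA', SshL_br hε]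
  congr 1
  rw [Ssh_form hA, Ssh_form hA', cross_apply]
  generalize A 0 1 = a
  generalize A 0 2 = b
  generalize A 0 3 = c
  generalize A 1 2 = d
  generalize A 1 3 = e
  generalize A 2 3 = f
  generalize A' 0 1 = a'
  generalize A' 0 2 = b'
  generalize A' 0 3 = c'
  generalize A' 1 2 = d'
  generalize A' 1 3 = e'
  generalize A' 2 3 = f'
  rcases mul_self_eq_one_iff.1 hε with rfl | rfl <;> funext i <;> fin_cases i <;>
    simp [Matrix.mul_apply, Fin.sum_univ_four] <;> ring

/-- ideals of `ℂ³` -/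
lemma Ssh_ideal (N : Submodule ℂ (Fin 3 → ℂ)) (hN : ∀ x, ∀ y ∈ N, crossProduct x y ∈ N)
    (h0 : N ≠ ⊥) : N = ⊤ := by
  obtain ⟨y, hy, hy0⟩ := (Submodule.ne_bot_iff N).1 h0
  -- the unit vectors
  have hrot : ∀ z ∈ N, ![z 0, 0, 0] ∈ N ∧ ![0, z 1, 0] ∈ N ∧ ![0, 0, z 2] ∈ N := by
    intro z hz
    refine ⟨?_, ?_, ?_⟩
    · have h1 := N.add_mem hz (hN ![1, 0, 0] _ (hN ![1, 0, 0] z hz))
      convert h1 using 1
      rw [cross_apply, cross_apply]
      funext i
      fin_cases i <;> simp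
    · have h1 := N.add_mem hz (hN ![0, 1, 0] _ (hN ![0, 1, 0] z hz))
      convert h1 using 1
      rw [cross_apply, cross_apply]
      funext i
      fin_cases i <;> simp
    · have h1 := N.add_mem hz (hN ![0, 0, 1] _ (hN ![0, 0, 1] z hz))
      convert h1 using 1
      rw [cross_apply, cross_apply]
      funext i
      fin_cases i <;> simp
  have key : (![1, 0, 0] : Fin 3 → ℂ) ∈ N → N = ⊤ := by
    intro h1
    have h2 : (![0, 1, 0] : Fin 3 → ℂ) ∈ N := by
      have := hN ![0, 0, 1] _ h1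
      convert this using 1
      rw [cross_apply]
      funext i
      fin_cases i <;> simp
    have h3 : (![0, 0, 1] : Fin 3 → ℂ) ∈ N := by
      have := N.neg_mem (hN ![0, 1, 0] _ h1)
      convert this using 1
      rw [cross_apply]
      funext i
      fin_cases i <;> simp
    rw [eq_top_iff]
    intro z _
    have h4 := N.add_mem (N.add_mem (N.smul_mem (z 0) h1) (N.smul_mem (z 1) h2))
      (N.smul_mem (z 2) h3)
    convert h4 using 1
    funext i
    fin_cases i <;> simp
  obtain ⟨a, ha⟩ : ∃ a, y a ≠ 0 := by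
    by_contra hcon
    push Not at hcon
    exact hy0 (funext hcon)
  obtain ⟨r0, r1, r2⟩ := hrot y hy
  apply key
  fin_cases a
  · have h1 := N.smul_mem (y 0)⁻¹ r0
    convert h1 using 1
    funext i
    fin_cases i <;> simp at ha ⊢
    rw [inv_mul_cancel₀ ha]
  · have h1 := N.smul_mem (-(y 1)⁻¹) (hN ![0, 0, 1] _ r1)
    convert h1 using 1
    rw [cross_apply]
    funext i
    fin_cases i <;> simp at ha ⊢
    rw [inv_mul_cancel₀ ha]
  · have h1 := N.smul_mem ((y 2)⁻¹) (hN ![0, 1, 0] _ r2)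
    convert h1 using 1
    rw [cross_apply]
    funext i
    fin_cases i <;> simp at ha ⊢
    rw [inv_mul_cancel₀ ha]

/-- the determinant of a definite matrix of size four -/
lemma Ssh_det {H : Matrix (Fin 4) (Fin 4) ℂ} (hH : Definite H) : ∃ r : ℝ, 0 < r ∧ H.det = r := by
  have key : ∀ H : Matrix (Fin 4) (Fin 4) ℂ, H.IsHermitian → (∀ v, v ≠ 0 → 0 < (hf H v v).re) →
      ∃ r : ℝ, 0 < r ∧ H.det = r := by
    intro H h1 h2
    have h3 : H.PosDef := by
      rw [Matrix.posDef_iff_dotProduct_mulVec]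
      refine ⟨h1, fun x hx => ?_⟩
      rw [Complex.pos_iff]
      exact ⟨h2 x hx, (h1.im_star_dotProduct_mulVec_self x).symm⟩
    have h4 := h3.det_pos
    rw [Complex.pos_iff] at h4
    exact ⟨H.det.re, h4.1, Complex.ext rfl h4.2.symm⟩
  rcases hH with ⟨h1, h2 | h2⟩
  · exact key H h1 h2
  · obtain ⟨r, hr, hr'⟩ := key (-H) h1.neg (fun v hv => by
      have e : hf (-H) v v = -hf H v v := by
        rw [hf, hf, Matrix.neg_mulVec, dotProduct_neg]
      rw [e, Complex.neg_re]
      have := h2 v hv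
      linarith)
    refine ⟨r, hr, ?_⟩
    rw [← hr', Matrix.det_neg, Fintype.card_fin]
    ring

/-- the sign -/
def SshB (b : Bool) : ℂ := if b then 1 else -1

lemma SshB_sq (b : Bool) : SshB b * SshB b = 1 := by
  cases b <;> simp [SshB]

lemma SshB_conj (b : Bool) : conj (SshB b) = SshB b := by
  cases b <;> simp [SshB]

/-- the parametrisation of the half, in a frame -/
noncomputable def SshE (B C : Matrix (Fin 4) (Fin 4) ℂ) (ε : ℂ) :
    (Fin 3 → ℂ) →ₗ[ℂ] Matrix (Fin 4) (Fin 4) ℂ where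
  toFun x := B * SshL ε x * C
  map_add' x y := by rw [map_add, Matrix.mul_add, Matrix.add_mul]
  map_smul' r x := by
    rw [map_smul, Matrix.mul_smul, Matrix.smul_mul, RingHom.id_apply]

/-- the projection, in a frame -/
noncomputable def SshP (B C : Matrix (Fin 4) (Fin 4) ℂ) (ε : ℂ) :
    Matrix (Fin 4) (Fin 4) ℂ →ₗ[ℂ] Matrix (Fin 4) (Fin 4) ℂ where
  toFun Z := B * SshC ε (C * Z * B) * C
  map_add' x y := by rw [Matrix.mul_add, Matrix.add_mul, map_add, Matrix.mul_add, Matrix.add_mul]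
  map_smul' r x := by
    rw [Matrix.mul_smul, Matrix.smul_mul, map_smul, Matrix.mul_smul, Matrix.smul_mul,
      RingHom.id_apply]

lemma SshE_apply (B C : Matrix (Fin 4) (Fin 4) ℂ) (ε : ℂ) (x : Fin 3 → ℂ) :
    SshE B C ε x = B * SshL ε x * C := rfl

lemma SshP_apply (B C : Matrix (Fin 4) (Fin 4) ℂ) (ε : ℂ) (Z : Matrix (Fin 4) (Fin 4) ℂ) :
    SshP B C ε Z = B * SshC ε (C * Z * B) * C := rfl

/-- conjugation with a frame -/
lemma Ssh_mul {B C : Matrix (Fin 4) (Fin 4) ℂ} (hCB : C * B = 1) (X Y : Matrix (Fin 4) (Fin 4) ℂ) :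
    B * X * C * (B * Y * C) = B * (X * Y) * C := by
  calc B * X * C * (B * Y * C) = B * X * (C * B) * Y * C := by simp only [Matrix.mul_assoc]
    _ = B * (X * Y) * C := by rw [hCB, Matrix.mul_one, Matrix.mul_assoc B X Y]

lemma SshE_br {B C : Matrix (Fin 4) (Fin 4) ℂ} (hCB : C * B = 1) {ε : ℂ} (hε : ε * ε = 1)
    (x y : Fin 3 → ℂ) : SshE B C ε x * SshE B C ε y - SshE B C ε y * SshE B C ε x =
      SshE B C ε ((2 : ℂ) • crossProduct x y) := by
  rw [SshE_apply, SshE_apply, SshE_apply, Ssh_mul hCB, Ssh_mul hCB, ← SshL_br hε, Matrix.mul_sub,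
    Matrix.sub_mul]

lemma SshE_inj {B C : Matrix (Fin 4) (Fin 4) ℂ} (hCB : C * B = 1) (ε : ℂ) {x : Fin 3 → ℂ}
    (h : SshE B C ε x = 0) : x = 0 := by
  apply SshL_inj ε
  have hBC : C * (SshE B C ε x) * B = SshL ε x := by
    rw [SshE_apply]
    calc C * (B * SshL ε x * C) * B = (C * B) * SshL ε x * (C * B) := by
          simp only [Matrix.mul_assoc]
      _ = SshL ε x := by rw [hCB, Matrix.one_mul, Matrix.mul_one]
  rw [← hBC, h, Matrix.mul_zero, Matrix.zero_mul]

theorem thm_Ssh (hF : Pool.Agent.KQ4.St_Frm) : St_Ssh := by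
  intro H hH hdet
  obtain ⟨B, hB⟩ := hF 4 H hH hdet
  obtain ⟨C, hC⟩ : ∃ C, C = Bᵀ * H := ⟨_, rfl⟩
  have hCB : C * B = 1 := by rw [hC, hB]
  have hBC : B * C = 1 := mul_eq_one_comm.1 hCB
  have hCt : Cᵀ = H * B := by rw [hC, Matrix.transpose_mul, Matrix.transpose_transpose, hH]
  have hSO : ∀ Z, Z ∈ SO H ↔ Zᵀ * H + H * Z = 0 := fun Z => Iff.rfl
  -- the coordinates of skew matrices are skew
  have hsk : ∀ Z ∈ SO H, (C * Z * B)ᵀ = -(C * Z * B) := by
    intro Z hZ
    have h1 : Zᵀ * H = -(H * Z) := eq_neg_of_add_eq_zero_left ((hSO Z).1 hZ)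
    rw [Matrix.transpose_mul, Matrix.transpose_mul, hCt, hC]
    calc Bᵀ * (Zᵀ * (H * B)) = Bᵀ * (Zᵀ * H) * B := by simp only [Matrix.mul_assoc]
      _ = -(Bᵀ * H * Z * B) := by
        rw [h1, Matrix.mul_neg, Matrix.neg_mul]
        simp only [Matrix.mul_assoc]
  have hES : ∀ ε x, SshE B C ε x ∈ SO H := by
    intro ε x
    rw [hSO, SshE_apply, Matrix.transpose_mul, Matrix.transpose_mul, hCt, SshL_skew, hC]
    calc H * B * (-SshL ε x * Bᵀ) * H + H * (B * SshL ε x * (Bᵀ * H)) =
        -(H * B * SshL ε x * Bᵀ * H) + H * B * SshL ε x * Bᵀ * H := by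
          rw [Matrix.neg_mul, Matrix.mul_neg, Matrix.neg_mul]
          simp only [Matrix.mul_assoc]
      _ = 0 := neg_add_cancel _
  have hPE : ∀ ε, ε * ε = 1 → ∀ x, SshP B C ε (SshE B C ε x) = SshE B C ε x := by
    intro ε hε x
    have h1 : C * (SshE B C ε x) * B = SshL ε x := by
      rw [SshE_apply]
      calc C * (B * SshL ε x * C) * B = (C * B) * SshL ε x * (C * B) := by
            simp only [Matrix.mul_assoc]
        _ = SshL ε x := by rw [hCB, Matrix.one_mul, Matrix.mul_one]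
    rw [SshP_apply, h1, SshC_L hε, SshE_apply]
  have hPS : ∀ ε, ε * ε = 1 → ∀ Z ∈ SO H, ∃ x, SshP B C ε Z = SshE B C ε x := by
    intro ε hε Z hZ
    rw [SshP_apply, SshC_eq hε (hsk Z hZ)]
    exact ⟨_, rfl⟩
  have hmap : ∀ ε, ε * ε = 1 → (SO H).map (SshP B C ε) = LinearMap.range (SshE B C ε) := by
    intro ε hε
    ext Z
    rw [Submodule.mem_map, LinearMap.mem_range]
    constructor
    · rintro ⟨W, hW, rfl⟩
      obtain ⟨x, hx⟩ := hPS ε hε W hW
      exact ⟨x, hx.symm⟩
    · rintro ⟨x, rfl⟩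
      exact ⟨_, hES ε x, hPE ε hε x⟩
  refine ⟨fun b => SshP B C (SshB b), fun b => ?_, fun b Z hZ Z' hZ' => ?_, fun Z hZ => ?_,
    fun hD hr b Z hZ => ?_⟩
  · have hε := SshB_sq b
    refine ⟨?_, ?_, fun Z hZ => ?_⟩
    · rw [hmap _ hε]
      refine ⟨?_, ?_, ?_⟩
      · rintro _ ⟨x, rfl⟩ _ ⟨y, rfl⟩
        exact ⟨_, (SshE_br hCB hε x y).symm⟩
      · refine ⟨_, ⟨![1, 0, 0], rfl⟩, _, ⟨![0, 1, 0], rfl⟩, fun h0 => ?_⟩
        have h1 := SshE_br hCB hε ![1, 0, 0] ![0, 1, 0]
        rw [h0, sub_self] at h1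
        have h2 := congrFun (SshE_inj hCB _ h1.symm) 2
        rw [cross_apply] at h2
        simp at h2
      · intro N hN hid hN0
        have h1 : N.comap (SshE B C (SshB b)) = ⊤ := by
          apply Ssh_ideal
          · intro x y hy
            rw [Submodule.mem_comap] at hy ⊢
            have h2 := N.smul_mem (1 / 2 : ℂ) (hid _ ⟨x, rfl⟩ _ hy)
            rw [SshE_br hCB hε, ← map_smul, smul_smul] at h2
            norm_num at h2
            exact h2
          · intro h2
            apply hN0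
            rw [eq_bot_iff]
            intro Z hZ
            obtain ⟨x, rfl⟩ := hN hZ
            have h3 : x ∈ N.comap (SshE B C (SshB b)) := hZ
            rw [h2, Submodule.mem_bot] at h3
            rw [h3, map_zero]
            exact Submodule.zero_mem _
        refine le_antisymm hN ?_
        rintro _ ⟨x, rfl⟩
        have h2 : x ∈ N.comap (SshE B C (SshB b)) := by
          rw [h1]
          exact Submodule.mem_top
        exact h2
    · rw [hmap _ hε, LinearMap.finrank_range_of_inj, Module.finrank_fin_fun]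
      rw [← LinearMap.ker_eq_bot, LinearMap.ker_eq_bot']
      intro x hx
      exact SshE_inj hCB _ hx
    · obtain ⟨x, hx⟩ := hPS _ hε Z hZ
      show SshP B C (SshB b) Z ∈ SO H
      rw [hx]
      exact hES _ x
  · have hε := SshB_sq b
    have h1 : C * (Z * Z' - Z' * Z) * B = (C * Z * B) * (C * Z' * B) -
        (C * Z' * B) * (C * Z * B) := by
      have e : ∀ X Y : Matrix (Fin 4) (Fin 4) ℂ, C * (X * Y) * B = (C * X * B) * (C * Y * B) := by
        intro X Y
        calc C * (X * Y) * B = C * X * 1 * Y * B := by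
              rw [Matrix.mul_one]
              simp only [Matrix.mul_assoc]
          _ = (C * X * B) * (C * Y * B) := by
            rw [← hBC]
            simp only [Matrix.mul_assoc]
      rw [Matrix.mul_sub, Matrix.sub_mul, e, e]
    show SshP B C (SshB b) (Z * Z' - Z' * Z) = _
    rw [SshP_apply, h1, SshC_br hε (hsk Z hZ) (hsk Z' hZ'), SshP_apply, SshP_apply, Ssh_mul hCB,
      Ssh_mul hCB, Matrix.mul_sub, Matrix.sub_mul]
  · show SshP B C (SshB true) Z + SshP B C (SshB false) Z = Z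
    rw [SshP_apply, SshP_apply, SshC_apply, SshC_apply, ← Matrix.add_mul, ← Matrix.mul_add]
    have e : (1 / 2 : ℂ) • (C * Z * B + SshB true • SshS (C * Z * B)) +
        (1 / 2 : ℂ) • (C * Z * B + SshB false • SshS (C * Z * B)) = C * Z * B := by
      have e1 : SshB true = 1 := rfl
      have e2 : SshB false = -1 := rfl
      rw [e1, e2]
      module
    rw [e]
    calc B * (C * Z * B) * C = (B * C) * Z * (B * C) := by simp only [Matrix.mul_assoc]
      _ = Z := by rw [hBC, Matrix.one_mul, Matrix.mul_one]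
  · -- the conjugate
    have hform : ∀ Z ∈ SO H, SshP B C (SshB b) Z = (1 / 2 : ℂ) • (Z + (SshB b * B.det) •
        (SshS (H * Z) * H)) := by
      intro Z hZ
      have h1 : Zᵀ * H = -(H * Z) := eq_neg_of_add_eq_zero_left ((hSO Z).1 hZ)
      have h2 : (H * Z)ᵀ = -(H * Z) := by
        rw [Matrix.transpose_mul, hH, h1]
      have h3 := Ssh_quad B (H * Z) h2
      have h4 : Bᵀ * (H * Z) * B = C * Z * B := by
        rw [hC, Matrix.mul_assoc Bᵀ H Z]
      rw [h4] at h3
      have h5 : B * SshS (C * Z * B) * C = B.det • (SshS (H * Z) * H) := by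
        rw [hC, ← Matrix.mul_assoc, ← hC, h3, Matrix.smul_mul]
      have h6 : B * (C * Z * B) * C = Z := by
        calc B * (C * Z * B) * C = (B * C) * Z * (B * C) := by simp only [Matrix.mul_assoc]
          _ = Z := by rw [hBC, Matrix.one_mul, Matrix.mul_one]
      rw [SshP_apply, SshC_apply, Matrix.mul_smul, Matrix.smul_mul, Matrix.mul_add, Matrix.add_mul,
        Matrix.mul_smul, Matrix.smul_mul, h5, h6, smul_smul]
    have hHc : H.map conj = H := by
      ext i j
      exact hr i j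
    have hdr : conj B.det = B.det := by
      obtain ⟨r, hr0, hr1⟩ := Ssh_det hD
      have h1 : B.det * B.det * H.det = 1 := by
        have h2 := congrArg Matrix.det hB
        rw [Matrix.det_mul, Matrix.det_mul, Matrix.det_transpose, Matrix.det_one] at h2
        linear_combination h2
      have h3 : (B.det * (Real.sqrt r : ℂ)) * (B.det * (Real.sqrt r : ℂ)) = 1 := by
        have h4 : ((Real.sqrt r : ℝ) : ℂ) * ((Real.sqrt r : ℝ) : ℂ) = (r : ℂ) := by
          rw [← Complex.ofReal_mul, Real.mul_self_sqrt hr0.le]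
        rw [hr1, ← h4] at h1
        linear_combination h1
      have hs : ((Real.sqrt r : ℝ) : ℂ) ≠ 0 := by
        rw [Complex.ofReal_ne_zero]
        exact (Real.sqrt_pos.2 hr0).ne'
      have h5 : B.det * (Real.sqrt r : ℂ) = ((1 : ℝ) : ℂ) ∨
          B.det * (Real.sqrt r : ℂ) = ((-1 : ℝ) : ℂ) := by
        rcases mul_self_eq_one_iff.1 h3 with h | h
        · exact Or.inl (by rw [h, Complex.ofReal_one])
        · exact Or.inr (by rw [h, Complex.ofReal_neg, Complex.ofReal_one])
      have h6 : conj (B.det * (Real.sqrt r : ℂ)) = B.det * (Real.sqrt r : ℂ) := by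
        rcases h5 with h | h <;> rw [h, Complex.conj_ofReal]
      rw [map_mul, Complex.conj_ofReal] at h6
      exact mul_right_cancel₀ hs h6
    have hZc : Z.map conj ∈ SO H := by
      rw [hSO]
      have h1 := congrArg (fun M : Matrix (Fin 4) (Fin 4) ℂ => M.map conj) ((hSO Z).1 hZ)
      have h2 : (Zᵀ * H + H * Z).map conj = (Z.map conj)ᵀ * H + H * Z.map conj := by
        rw [Matrix.map_add conj (map_add _), Matrix.map_mul, Matrix.map_mul, hHc,
          Matrix.transpose_map]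
      have h3 : (Zᵀ * H + H * Z).map conj = (0 : Matrix (Fin 4) (Fin 4) ℂ).map conj := h1
      rw [← h2, h3, Matrix.map_zero conj (map_zero _)]
    have hS : ∀ A : Matrix (Fin 4) (Fin 4) ℂ, SshS (A.map conj) = (SshS A).map conj := by
      intro A
      ext i j
      fin_cases i <;> fin_cases j <;> simp [SshS]
    show SshP B C (SshB b) (Z.map conj) = (SshP B C (SshB b) Z).map conj
    rw [hform _ hZc, hform Z hZ]
    have h7 : H * Z.map conj = (H * Z).map conj := by
      rw [Matrix.map_mul, hHc]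
    rw [h7, hS]
    ext i j
    simp only [Matrix.map_apply, Matrix.smul_apply, Matrix.add_apply, smul_eq_mul, map_mul,
      map_add, SshB_conj, hdr, map_div₀, map_one, map_ofNat]
    have h8 : ((SshS (H * Z)).map conj * H) i j = conj ((SshS (H * Z) * H) i j) := by
      have h9 : (SshS (H * Z)).map conj * H = (SshS (H * Z) * H).map conj := by
        rw [Matrix.map_mul, hHc]
      rw [h9, Matrix.map_apply]
    rw [h8]

end Pool.Agent.KTW
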