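import Pool.Agent.KTW.StV
import Pool.Agent.KTW.Sim
import Pool.Agent.KTW.Spc

/-!
# KTW [Sso]: the orthogonal Lie algebra
-/

set_option autoImplicit false

namespace Pool.Agent.KTW

open Module Matrix

theorem Sso_mem {m : ℕ} {H Z : Matrix (Fin m) (Fin m) ℂ} : Z ∈ SO H ↔ Zᵀ * H + H * Z = 0 :=
  Iff.rfl

theorem Sso_br {m : ℕ} {H : Matrix (Fin m) (Fin m) ℂ} {X Y : Matrix (Fin m) (Fin m) ℂ}
    (hX : X ∈ SO H) (hY : Y ∈ SO H) : X * Y - Y * X ∈ SO H := by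
  rw [Sso_mem] at hX hY ⊢
  have h1 : Xᵀ * H = -(H * X) := eq_neg_of_add_eq_zero_left hX
  have h2 : Yᵀ * H = -(H * Y) := eq_neg_of_add_eq_zero_left hY
  rw [transpose_sub, transpose_mul, transpose_mul, Matrix.sub_mul, Matrix.mul_assoc, h1,
    Matrix.mul_assoc, h2, Matrix.mul_neg, Matrix.mul_neg, ← Matrix.mul_assoc, h2,
    ← Matrix.mul_assoc, h1]
  noncomm_ring

theorem Sso_eq {m : ℕ} (H : Matrix (Fin m) (Fin m) ℂ) : SO H = Sim_so H := rfl

/-- [SSO] -/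
theorem thm_Sso : St_Sso := by
  intro m H hH hd hm3 hm4
  have hs : ∀ x y, Matrix.toBilin' H x y = Matrix.toBilin' H y x := Spc_symm hH
  have hn : (Matrix.toBilin' H).Nondegenerate := Spc_nd hd
  refine ⟨⟨fun x hx y hy => Sso_br hx hy, ?_, ?_⟩, ?_⟩
  · obtain ⟨B, C, hB, hC, hBC⟩ := KSP.Goursat.exists_noncomm hm3 (Matrix.toBilin' H) hs hn
    refine ⟨LinearMap.toMatrix' B, (Spc_skw H _).1 (by rwa [Matrix.toLin'_toMatrix']),
      LinearMap.toMatrix' C, (Spc_skw H _).1 (by rwa [Matrix.toLin'_toMatrix']), fun h => hBC ?_⟩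
    rw [← LinearMap.toMatrix'_mul, ← LinearMap.toMatrix'_mul] at h
    rw [LinearMap.toMatrix'.injective h, sub_self]
  · intro N hN hid hN0
    refine le_antisymm hN fun M hM => ?_
    obtain ⟨A, hA, hA0⟩ := (Submodule.ne_bot_iff N).1 hN0
    let 𝔞 : Submodule ℂ (Module.End ℂ (Fin m → ℂ)) :=
      N.map (Matrix.toLin' : Matrix (Fin m) (Fin m) ℂ ≃ₗ[ℂ] _).toLinearMap
    have h1 : Matrix.toLin' M ∈ 𝔞 := by
      refine KSP.ideal_top (by omega) (Matrix.toBilin' H) hs hn 𝔞 ?_ ?_ (Matrix.toLin' A)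
        ⟨A, hA, rfl⟩ (fun h0 => hA0 ((LinearEquiv.map_eq_zero_iff _).1 h0)) (Matrix.toLin' M)
        ((Spc_skw H _).2 hM)
      · rintro _ ⟨X, hX, rfl⟩
        exact (Spc_skw H _).2 (hN hX)
      · rintro _ ⟨X, hX, rfl⟩ M' hM'
        refine ⟨LinearMap.toMatrix' M' * X - X * LinearMap.toMatrix' M',
          hid _ ((Spc_skw H _).1 (by rwa [Matrix.toLin'_toMatrix'])) _ hX, ?_⟩
        show Matrix.toLin' _ = M' * Matrix.toLin' X - Matrix.toLin' X * M'
        rw [map_sub, Matrix.toLin'_mul, Matrix.toLin'_mul, Matrix.toLin'_toMatrix']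
        rfl
    obtain ⟨X, hX, hXM⟩ := h1
    rwa [← Matrix.toLin'.injective hXM]
  · rw [Sso_eq, Sim_fr_so hH hd]
    have h5 : m * m = m * (m - 1) + m := by
      rcases m with _ | m
      · rfl
      · rw [Nat.add_sub_cancel]
        ring
    have h6 : 2 ∣ m * (m - 1) := by
      rcases Nat.even_or_odd m with h | h
      · exact (even_iff_two_dvd.1 h).mul_right _
      · exact (even_iff_two_dvd.1 (Nat.Odd.sub_odd h odd_one)).mul_left _
    rw [h5, Nat.mul_div_cancel' h6]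

end Pool.Agent.KTW
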