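import Pool.Agent.KTW.StV
import Pool.Agent.KTW.Sim

/-!
# KTW [Ssp]: the symplectic Lie algebra in dimension four
-/

set_option autoImplicit false

namespace Pool.Agent.KTW

open Module Matrix

theorem Ssp_eq {κ : Type} [Fintype κ] [DecidableEq κ] (ψ : (κ → ℂ) →ₗ[ℂ] (κ → ℂ) →ₗ[ℂ] ℂ) :
    SP ψ = Sim_sp ψ := rfl

theorem Ssp_mem {κ : Type} [Fintype κ] [DecidableEq κ] {ψ : (κ → ℂ) →ₗ[ℂ] (κ → ℂ) →ₗ[ℂ] ℂ}
    {X : Module.End ℂ (κ → ℂ)} : X ∈ SP ψ ↔ ∀ u v, ψ (X u) v + ψ u (X v) = 0 := Iff.rfl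

theorem Ssp_br {κ : Type} [Fintype κ] [DecidableEq κ] {ψ : (κ → ℂ) →ₗ[ℂ] (κ → ℂ) →ₗ[ℂ] ℂ}
    {X Y : Module.End ℂ (κ → ℂ)} (hX : X ∈ SP ψ) (hY : Y ∈ SP ψ) : X * Y - Y * X ∈ SP ψ := by
  intro u v
  simp only [LinearMap.sub_apply, Module.End.mul_apply, map_sub]
  linear_combination hX (Y u) v - hY u (X v) - hY (X u) v + hX u (Y v)

/-- [SSP] -/
theorem thm_Ssp : St_Ssp := by
  classical
  intro κ _ _ ψ hc halt hnd
  have hf : finrank ℂ (κ → ℂ) = 4 := by rw [finrank_fintype_fun_eq_card, hc]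
  refine ⟨⟨fun x hx y hy => Ssp_br hx hy, ?_, ?_⟩, ?_⟩
  · -- two rank one operators which do not commute
    have hne : Nonempty κ := Fintype.card_pos_iff.1 (by rw [hc]; norm_num)
    obtain ⟨k⟩ := hne
    have self : ∀ u, ψ u u = 0 := fun u => by
      have h1 := halt u u
      have h2 : (2 : ℂ) * ψ u u = 0 := by linear_combination h1
      exact (mul_eq_zero.1 h2).resolve_left two_ne_zero
    obtain ⟨v, hv⟩ : ∃ v, ψ (Pi.single k 1) v ≠ 0 := by
      by_contra h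
      push Not at h
      have h1 := congrFun (hnd _ h) k
      rw [Pi.single_eq_same] at h1
      exact one_ne_zero h1
    set u : κ → ℂ := Pi.single k 1 with hu
    have hN : ∀ w : κ → ℂ, Sim_T ψ w w ∈ SP ψ := by
      intro w x y
      rw [Sim_T_apply, Sim_T_apply, map_smul, map_smul, LinearMap.smul_apply, smul_eq_mul,
        smul_eq_mul, halt x w]
      ring
    refine ⟨Sim_T ψ u u, hN u, Sim_T ψ v v, hN v, fun h => ?_⟩
    have h1 := congrFun (congrArg (fun T : Module.End ℂ (κ → ℂ) => ⇑T) h) u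
    simp only [Module.End.mul_apply, Sim_T_apply, map_smul, self, smul_zero, map_zero,
      zero_smul] at h1
    have h3 : (ψ v u * ψ u v) • u = 0 := by
      rw [← smul_smul]
      exact h1
    have hu0 : u ≠ 0 := fun h0 => hv (by rw [h0, map_zero, LinearMap.zero_apply])
    rcases smul_eq_zero.1 h3 with h4 | h4
    · rw [halt v u] at h4
      rcases mul_eq_zero.1 h4 with h5 | h5
      · exact hv (neg_eq_zero.1 h5)
      · exact hv h5
    · exact hu0 h4
  · intro N hN hid hN0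
    refine le_antisymm hN fun M hM => ?_
    obtain ⟨A, hA, hA0⟩ := (Submodule.ne_bot_iff N).1 hN0
    exact Sim_sp_top ψ halt hnd N (fun A hA => hN hA) (fun A hA M hM => hid M hM A hA) A hA hA0 M hM
  · rw [Ssp_eq]
    exact Sim_fr_sp4 ψ halt hnd hf

end Pool.Agent.KTW
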