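import Pool.Agent.KTW.AllQ
import Pool.Agent.KTW.Alv
import Pool.Agent.KTW.Asv
import Pool.Agent.KTW.Asw
import Pool.Agent.KTW.Huv
import Pool.Agent.KTW.Slx
import Pool.Agent.KTW.Ext
import Pool.Agent.KTW.Sso
import Pool.Agent.KTW.Ssl
import Pool.Agent.KTW.Ssp
import Pool.Agent.KTW.Ssh
import Pool.Agent.KTW.Nlk
import Pool.Agent.KTW.Enl
import Pool.Agent.KTW.Bsp
import Pool.Agent.KTW.Cmo
import Pool.Agent.KTW.Cen
import Pool.Agent.KTW.Rqt
import Pool.Agent.KTW.Gsf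

/-!
# KTW: Grothendieck classes on products of K3 surfaces and abelian varieties, with arbitrary abelian
factors
-/

set_option autoImplicit false

namespace Pool.Agent.KTW

open Pool.Agent.K3P Pool.Agent.KTP
open Pool.Agent.GPC (AbVar ClassY ClassX GrIsHodge IsElementary)

theorem mainV (hAby : St_Aby) (hRmu : St_Rmu) (hGsf : St_Gsf) (hAlv : St_Alv) (hKlr : St_Klr)
    {I J : Type} [Fintype I] [Fintype J] (A : I → AbVar) (hA : ∀ i, (A i).g ≠ 0)
    (K : I → Type) [∀ i, Field (K i)] [∀ i, NumberField (K i)] (c : ∀ i, K i →+* K i) (m : I → ℕ)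
    (S : ∀ i, (A i).KugaSatakeMul (K i) (c i) (m i)) (C : J → AbVar) (r n : ℕ) :
    (∀ {L : Type} [Fintype L] (D : L → AbVar), IsElementary D → (∀ j, (C j).IsQuotientOf D) →
      ((∀ i, (A i).IsQuotientOf D ∨ (S i).IsSmall ∨ (S i).IsLargeR ∨ (S i).IsLargeC) →
        (∀ i i', i ≠ i' → ¬ (A i).IsQuotientOf D → ¬ (S i).IsSmall → ¬ (A i').IsQuotientOf D →
          ¬ (S i').IsSmall → ¬ Clash (c i) (c i') (m i) (m i')) →
        ∀ (k : I ⊕ J → ℕ) (p : ℕ) (F : ClassY K m (Sum.elim A C) r n k p),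
          F.IsGr S → F.IsHodge S) ∧
      ((∀ i, (S i).IsLargeR) →
        ∀ (l : J → ℕ) (p : ℕ) (F : ClassY K m C r n l p), F.IsGr S ↔ F.IsSum S)) ∧
    (GrIsHodge C → (∀ i, (S i).IsLarge C ∨ (A i).IsQuotientOf C) →
      ∀ (k : I ⊕ J → ℕ) (p : ℕ) (F : ClassY K m (Sum.elim A C) r n k p),
        F.IsGr S → F.IsHodge S) ∧
    ((∀ i, (S i).IsLarge C) →
      ∀ (l : J → ℕ) (p : ℕ) (F : ClassY K m C r n l p), F.IsGr S ↔ F.IsSum S) ∧
    ((∀ i, (S i).IsAdmissible) → (Subsingleton I ∨ ∀ i, c i = RingHom.id (K i)) →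
      (∀ (k : I → ℕ) (p : ℕ) (F : ClassY K m A r n k p), F.IsGr S → F.IsHodge S) ∧
      ((Subsingleton I ∨ ∀ i, m i ≠ 4) →
        (∀ i j, i ≠ j → ∀ f, (A i).IsMor (A j) f → ∀ v, f v = 0) →
        ∀ F : ClassX K m r n, F.IsGr S ↔ F.IsGen c fun i => (S i).h)) := by
  classical
  have hMx : St_Mxn := thm_Mxn thm_Dsp (thm_Bet thm_Drb thm_Rtb)
  refine ⟨fun {L} _ D hD hCD => ⟨fun hI hcl k p F hF => ?_, fun hL l p F => ?_⟩,
    fun hC hI k p F hF => ?_, fun hL l p F => ?_, fun hK hI => ⟨fun k p F hF => ?_,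
      fun h4 hHom => ?_⟩⟩
  · exact ⟨hF.1, fun a b v w hab hv hw => thm_Huq
      (thm_Htq (thm_Mxq (thm_Bet thm_Drb thm_Rtb)) thm_Hod thm_Hty) thm_Htu A C S hA
      (hAlv A C D S hA hD hCD hI hcl) r n k p F hF.1 hF.2 a b v w hab hv hw⟩
  · refine thm_Asw hMx thm_Htu thm_Tns (thm_Spn thm_Rtb) A C S hA
      (fun n => Asw_tr A C (Sum.elim (fun x : Empty => x.elim) D) (fun j v => ?_) (fun n => ?_) n)
      r n l p F
    · refine Submodule.span_mono ?_ (hCD j v)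
      rintro w ⟨l, f, u, hf, rfl⟩
      exact ⟨Sum.inr l, f, u, hf, rfl⟩
    · exact thm_Kly hAby hRmu hGsf A (fun x : Empty => x.elim) D S
        (K' := fun _ : Empty => ℚ) (c' := fun x => x.elim) (m' := fun x => x.elim)
        (fun x => x.elim) hA (fun x => x.elim) hL (fun x => x.elim) (fun i x => x.elim) hD n
  · exact (mainQ A hA K c m S C r n).1 (Or.inr hC) hI k p F hF
  · exact (mainQ A hA K c m S C r n).2.1 hL l p F
  · rcases hI with hI | hI
    · exact ((mainQ A hA K c m S C r n).2.2 hK (Or.inl hI)).1 k p F hF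
    · exact thm_Huv (thm_Mxz (thm_Bet thm_Drb thm_Rtb)) thm_Hod thm_Hty thm_Htu A S hA
        (hKlr A S hA hK hI) r n k p F hF
  · refine ((mainQ A hA K c m S C r n).2.2 hK ?_).2 hHom
    rcases hI with hI | hI
    · exact Or.inl hI
    · rcases h4 with h4 | h4
      · exact Or.inl h4
      · exact Or.inr fun i => ⟨hI i, h4 i⟩

end Pool.Agent.KTW
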