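import Pool.Agent.KTW.Fmz
import Pool.Agent.KQ4.Frm
import Pool.Agent.KSV.Surf
import Pool.Agent.Helper39.AF.Decomp

/-!
# KTW [Gq5]: Kuga-Satake varieties for `K = ℚ`, `m = 5`, with a factor of dimension two without
endomorphisms
-/

set_option autoImplicit false
set_option linter.unusedSectionVars false

namespace Pool.Agent.KTW

open Module Matrix NumberField Pool.Agent.Helper7 Pool.Agent.KS Pool.Agent.Ball Pool.Agent.KSE
  Pool.Agent.Helper28.GPC
open Pool.Agent.GPC (AbVar)

/-- commuting up to a scalar with a product -/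
theorem Gq5_mv {R : Type} [Ring R] [Algebra ℂ R] {x y z : R} {e e' : ℂ} (h : x * y = e • (y * x))
    (h' : x * z = e' • (z * x)) : x * (y * z) = (e * e') • (y * z * x) := by
  rw [← mul_assoc, h, smul_mul_assoc, mul_assoc, h', mul_smul_comm, smul_smul, ← mul_assoc]

section alg

variable {V : Type} [AddCommGroup V] [Module ℂ V] [FiniteDimensional ℂ V] {K : Type} [Field K]
  [NumberField K] {c : K →+* K} {m : ℕ} {h : Matrix (Fin m) (Fin m) K}
  {t : Fin m → K → Module.End ℂ V}

/-- an operator of trace zero which commutes with the products of two Clifford operators and with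
everything which commutes with these products is zero -/
theorem Gq5_irr (hconj : ∀ (σ : K →+* ℂ) (x : K), cj σ x = σ (c x))
    (hh : ∀ a b, c (h a b) = h b a) (hnd : h.det ≠ 0)
    (hcl : ∀ a b x y, t a x * t b y + t b y * t a x =
      (2 * ((Algebra.trace ℚ K (x * c y * h a b) : ℚ) : ℂ)) • 1)
    (hre : ∀ σ : K →+* ℂ, cj σ = σ) (hone : ∀ σ τ : K →+* ℂ, σ = τ) (hm : m = 5)
    (D : Module.End ℂ V)
    (hD1 : ∀ σ τ a b, D * (ts t σ a * ts t τ b) = ts t σ a * ts t τ b * D)
    (hD2 : ∀ f : Module.End ℂ V, (∀ σ τ a b, f * (ts t σ a * ts t τ b) = ts t σ a * ts t τ b * f) →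
      D * f = f * D) (hD3 : LinearMap.trace ℂ V D = 0) : D = 0 := by
  classical
  subst hm
  refine eq_zero_of_act hconj hh hnd hcl D ?_ hD2 hD3
  intro σ x
  have hHs : (h.map σ)ᵀ = h.map σ := by
    ext a b
    rw [Matrix.transpose_apply, Matrix.map_apply, Matrix.map_apply, ← hh a b, ← hconj, hre]
  have hHd : IsUnit (h.map σ).det := by
    have h1 : (h.map σ).det = σ h.det := by
      rw [RingHom.map_det, RingHom.mapMatrix_apply]
    rw [h1]
    exact IsUnit.mk0 _ ((map_ne_zero σ).2 hnd)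
  obtain ⟨B, hB⟩ := Pool.Agent.KQ4.thm_Frm 5 (h.map σ) hHs hHd
  obtain ⟨T, hT⟩ : ∃ T : Fin 5 → Module.End ℂ V, ∀ a, T a = tau (ts t σ) (fun b => B b a) :=
    ⟨fun a => tau (ts t σ) (fun b => B b a), fun a => rfl⟩
  -- the relations
  have hTT : ∀ a b, T a * T b + T b * T a = ((if a = b then 2 else 0 : ℂ)) • 1 := by
    intro a b
    have h1 := tau_pair hconj hcl σ (fun d => B d a) (fun d => B d b)
    rw [hre σ] at h1
    rw [hT, hT, h1]
    congr 1
    have h2 : pr h σ (fun d => B d a) (fun d => B d b) = (Bᵀ * h.map σ * B) a b := by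
      rw [pr, Matrix.mul_assoc, Matrix.mul_apply, dotProduct]
      refine Finset.sum_congr rfl fun d _ => ?_
      rw [Matrix.transpose_apply, Matrix.mulVec, dotProduct, Matrix.mul_apply]
    rw [h2, hB, Matrix.one_apply]
    split_ifs <;> norm_num
  have hsq : ∀ a, T a * T a = 1 := by
    intro a
    have h1 := hTT a a
    rw [if_pos rfl, ← two_smul ℂ (T a * T a)] at h1
    exact smul_right_injective _ (two_ne_zero : (2 : ℂ) ≠ 0) h1
  have hac : ∀ a b, T a * T b = ((if a = b then 1 else -1 : ℂ)) • (T b * T a) := by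
    intro a b
    by_cases hab : a = b
    · rw [hab, if_pos rfl, one_smul]
    · have h1 := hTT a b
      rw [if_neg hab, zero_smul] at h1
      rw [if_neg hab, neg_smul, one_smul]
      exact eq_neg_of_add_eq_zero_left h1
  obtain ⟨ω, hω⟩ : ∃ ω, ω = T 0 * (T 1 * (T 2 * (T 3 * T 4))) := ⟨_, rfl⟩
  have hTω : ∀ a, T a * ω = ω * T a := by
    intro a
    have h1 := Gq5_mv (hac a 0) (Gq5_mv (hac a 1) (Gq5_mv (hac a 2) (Gq5_mv (hac a 3) (hac a 4))))
    rw [← hω] at h1
    rw [h1]
    have h2 : ((if a = 0 then 1 else -1 : ℂ) * ((if a = 1 then 1 else -1 : ℂ) *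
        ((if a = 2 then 1 else -1 : ℂ) * ((if a = 3 then 1 else -1 : ℂ) *
          (if a = 4 then 1 else -1 : ℂ))))) = 1 := by
      fin_cases a <;> simp
    rw [h2, one_smul]
  -- every vector is a combination of the columns of `B`
  have htau : ∀ y : Fin 5 → ℂ, tau (ts t σ) y = ∑ a, (B⁻¹ *ᵥ y) a • T a := by
    intro y
    have hBu : IsUnit B.det := by
      have h1 : (Bᵀ * h.map σ * B).det = 1 := by rw [hB, Matrix.det_one]
      rw [Matrix.det_mul] at h1
      exact IsUnit.of_mul_eq_one_right _ h1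
    have h1 : y = ∑ a, (B⁻¹ *ᵥ y) a • (fun d => B d a : Fin 5 → ℂ) := by
      have h2 : y = B *ᵥ (B⁻¹ *ᵥ y) := by
        rw [Matrix.mulVec_mulVec, Matrix.mul_nonsing_inv _ hBu, Matrix.one_mulVec]
      conv_lhs => rw [h2]
      funext d
      rw [Matrix.mulVec, dotProduct, Finset.sum_apply]
      exact Finset.sum_congr rfl fun a _ => mul_comm _ _
    conv_lhs => rw [h1]
    rw [map_sum]
    refine Finset.sum_congr rfl fun a _ => ?_
    rw [map_smul, hT]
  have hωtau : ∀ y : Fin 5 → ℂ, tau (ts t σ) y * ω = ω * tau (ts t σ) y := by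
    intro y
    rw [htau, Finset.sum_mul, Finset.mul_sum]
    refine Finset.sum_congr rfl fun a _ => ?_
    rw [smul_mul_assoc, mul_smul_comm, hTω]
  have hts : ∀ a, ts t σ a = tau (ts t σ) (Pi.single a 1) := by
    intro a
    rw [tau_apply, Finset.sum_eq_single a]
    · rw [Pi.single_eq_same, one_smul]
    · intro b _ hb
      rw [Pi.single_eq_of_ne hb, zero_smul]
    · intro h1
      exact absurd (Finset.mem_univ _) h1
  have hDω : D * ω = ω * D := by
    refine hD2 ω fun σ' τ' a b => ?_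
    obtain rfl := hone σ σ'
    obtain rfl := hone σ τ'
    rw [hts a, hts b, ← mul_assoc, ← hωtau, mul_assoc, ← hωtau, ← mul_assoc]
  have hDtt : ∀ y z, D * (tau (ts t σ) y * tau (ts t σ) z) = tau (ts t σ) y * tau (ts t σ) z * D := by
    intro y z
    rw [tau_apply, tau_apply, Finset.sum_mul_sum, Finset.mul_sum, Finset.sum_mul]
    refine Finset.sum_congr rfl fun a _ => ?_
    rw [Finset.mul_sum, Finset.sum_mul]
    refine Finset.sum_congr rfl fun b _ => ?_
    rw [smul_mul_smul_comm, mul_smul_comm, smul_mul_assoc, hD1]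
  have hDT : ∀ a b, D * (T a * T b) = T a * T b * D := by
    intro a b
    rw [hT, hT]
    exact hDtt _ _
  -- the operators `T a`
  have hDa : ∀ a, D * T a = T a * D := by
    intro a
    have h1 : D * (T a * ω) = T a * ω * D := by
      have e1 : T a * ω = (T a * T 0) * ((T 1 * T 2) * (T 3 * T 4)) := by
        rw [hω]
        simp only [mul_assoc]
      rw [e1, ← mul_assoc, hDT, mul_assoc (T a * T 0) D, ← mul_assoc D, hDT,
        mul_assoc (T 1 * T 2) D, hDT]
      simp only [mul_assoc]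
    have h2 : (D * T a - T a * D) * ω = 0 := by
      rw [sub_mul, mul_assoc, h1, mul_assoc (T a) D, hDω, mul_assoc, sub_self]
    have h3 : ω * (T 4 * (T 3 * (T 2 * (T 1 * T 0)))) = 1 := by
      rw [hω]
      simp only [mul_assoc]
      rw [← mul_assoc (T 4) (T 4), hsq, one_mul, ← mul_assoc (T 3) (T 3), hsq, one_mul,
        ← mul_assoc (T 2) (T 2), hsq, one_mul, ← mul_assoc (T 1) (T 1), hsq, one_mul, hsq]
    have h4 : (D * T a - T a * D) = 0 := by
      rw [← mul_one (D * T a - T a * D), ← h3, ← mul_assoc, h2, zero_mul]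
    exact sub_eq_zero.1 h4
  rw [htau, Finset.mul_sum, Finset.sum_mul]
  refine Finset.sum_congr rfl fun a _ => ?_
  rw [smul_mul_assoc, mul_smul_comm, hDa]

end alg

section dec

variable {κ : Type} [Fintype κ] [DecidableEq κ] {ϖ : ℂ} {P : PData κ ϖ} {K : Type} [Field K]
  [NumberField K] {c : K →+* K} {m : ℕ} {h : Matrix (Fin m) (Fin m) K}
  {t : Fin m → K → Module.End ℂ (κ → ℂ)}

/-- the products of two operators from the rational ones -/
theorem Gq5_rec (σ : K →+* ℂ) (a b : Fin m) : ts t σ a * ts t (cj σ) b =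
    ∑ d, σ (dbas K d) • ∑ τ : K →+* ℂ, τ (bas K d) • (ts t τ a * ts t (cj τ) b) := by
  classical
  simp only [Finset.smul_sum, smul_smul]
  rw [Finset.sum_comm]
  simp only [← Finset.sum_smul, sum_dbas_bas]
  rw [Finset.sum_eq_single σ]
  · rw [if_pos rfl, one_smul]
  · intro τ _ hτ
    rw [if_neg (fun h => hτ h.symm), zero_smul]
  · intro h; exact absurd (Finset.mem_univ _) h

/-- what commutes with all endomorphisms commutes with everything which commutes with the products
of two Clifford operators -/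
theorem Gq5_comm (S : MD P c h t) (D : Module.End ℂ (κ → ℂ))
    (hD : ∀ F : Module.End ℂ (κ → ℂ), IsDRB P P F → D * F = F * D) (f : Module.End ℂ (κ → ℂ))
    (hf : ∀ σ a b, f * (ts t σ a * ts t (cj σ) b) = ts t σ a * ts t (cj σ) b * f) :
    D * f = f * D := by
  obtain ⟨m', c', F, hc, hF, hsum⟩ := cent_decomp P f
  have hFr : ∀ l (x : K) a b, F l * (∑ σ : K →+* ℂ, σ x • (ts t σ a * ts t (cj σ) b)) =
      (∑ σ : K →+* ℂ, σ x • (ts t σ a * ts t (cj σ) b)) * F l := by
    intro l x a b
    refine cent_comm P hc hF ?_ ?_ l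
    · intro v hv
      exact rat_products (fun _ : Unit => P) () S x a b v hv
    · rw [← hsum, Finset.mul_sum, Finset.sum_mul]
      refine Finset.sum_congr rfl fun σ _ => ?_
      rw [mul_smul_comm, smul_mul_assoc, hf]
  have hFc : ∀ l σ a b, F l * (ts t σ a * ts t (cj σ) b) = ts t σ a * ts t (cj σ) b * F l := by
    intro l σ a b
    rw [Gq5_rec σ a b, Finset.mul_sum, Finset.sum_mul]
    refine Finset.sum_congr rfl fun d _ => ?_
    rw [mul_smul_comm, smul_mul_assoc, hFr]
  have hDF : ∀ l, IsDRB P P (F l) := fun l => (S.cent (F l)).2 ⟨hF l, hFc l⟩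
  rw [hsum, Finset.sum_mul, Finset.mul_sum]
  refine Finset.sum_congr rfl fun l _ => ?_
  rw [smul_mul_assoc, mul_smul_comm, hD (F l) (hDF l)]

end dec

/-- surfaces without endomorphisms are simple -/
theorem Gq5_simple {B : AbVar} (hB : B.IsGenericSurface) : B.IsSimple := by
  intro f hf ⟨v, hv⟩
  obtain ⟨q, hq⟩ := Pool.Agent.KT.Alg.Gen_rat B hB f hf
  have hq0 : (q : ℂ) ≠ 0 := by
    intro h0
    apply hv
    rw [hq, h0, zero_smul]
  intro u w huw
  rw [hq, hq] at huw
  exact smul_right_injective _ hq0 huw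

open Pool.Agent.Helper39.AF in
/-- [GQ5] `K = ℚ`, `m = 5`, and there is a homomorphism from a surface `B` without endomorphisms to
`A` which is not zero: `A` is a quotient of a power of `B` -/
theorem thm_Gq5 {A : AbVar} {K : Type} [Field K] [NumberField K] {c : K →+* K} {m : ℕ}
    (S : A.KugaSatakeMul K c m) (hg : A.g ≠ 0) (hc : c = RingHom.id K)
    (h1 : Module.finrank ℚ K = 1) (hm : m = 5) {B : AbVar} (hB : B.IsGenericSurface)
    {f : B.H1 → A.H1} (hf : B.IsMor A f) {v₀ : B.H1} (hv₀ : f v₀ ≠ 0) (v : A.H1) :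
    v ∈ Submodule.span ℂ {w : A.H1 | ∃ (f : B.H1 → A.H1) (u : B.H1), B.IsMor A f ∧ w = f u} := by
  classical
  have hBs := Gq5_simple hB
  have hnd : S.h.det ≠ 0 := by
    obtain ⟨σ, x, hx, -⟩ := S.hodge
    exact k3_nd S.conjugation S.hermitian hx
  have M := mde A S hnd
  have hre : ∀ σ : K →+* ℂ, cj σ = σ := by
    intro σ
    ext y
    rw [S.conjugation, hc]
    rfl
  have hone : ∀ σ τ : K →+* ℂ, σ = τ := by
    have h2 : Fintype.card (K →+* ℂ) = 1 := by rw [NumberField.Embeddings.card K ℂ, h1]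
    have h3 : Subsingleton (K →+* ℂ) := Fintype.card_le_one_iff_subsingleton.1 h2.le
    exact fun σ τ => Subsingleton.elim _ _
  obtain ⟨J, _, Bs, ι, π, D⟩ := exists_sdecomp A
  let il : ∀ j, (Bs j).H1 →ₗ[ℂ] A.H1 := fun j => (D.morι j).linear.mk' _
  let pl : ∀ j, A.H1 →ₗ[ℂ] (Bs j).H1 := fun j => (D.morπ j).linear.mk' _
  let p : Module.End ℂ A.H1 := ∑ j, if Isog B (Bs j) then il j ∘ₗ pl j else 0
  have hp : ∀ x, p x = ∑ j, if Isog B (Bs j) then ι j (π j x) else 0 := by
    intro x
    show (∑ j, if Isog B (Bs j) then il j ∘ₗ pl j else 0 : Module.End ℂ A.H1) x = _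
    rw [LinearMap.sum_apply]
    refine Finset.sum_congr rfl fun j _ => ?_
    split_ifs
    · rfl
    · rfl
  -- morphisms between different isotypic parts
  have hoff : ∀ (F : Module.End ℂ A.H1), IsDRB (pData A) (pData A) F → ∀ j k,
      ¬ (Isog B (Bs j) ↔ Isog B (Bs k)) → ∀ y, π j (F (ι k y)) = 0 := by
    intro F hF j k hjk y
    by_contra hne
    have hFm : A.IsMor A F := by
      have h2 := (isDRB_iff A A F).mp hF
      exact ⟨F.isLinear, h2.1, h2.2, Pool.Agent.GPC.hom_fil A A F F.isLinear h2.1 h2.2⟩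
    have h2 := bijective_of_simple (D.simple k) (D.simple j) (fun y => π j (F (ι k y)))
      (isMor_comp (D.morπ j) (isMor_comp hFm (D.morι k))) ⟨y, hne⟩
    have h3 : Isog (Bs k) (Bs j) :=
      ⟨_, isMor_comp (D.morπ j) (isMor_comp hFm (D.morι k)), h2⟩
    exact hjk ⟨fun h => h.trans h3.symm, fun h => h.trans h3⟩
  have hcomm : ∀ F : Module.End ℂ A.H1, IsDRB (pData A) (pData A) F → p * F = F * p := by
    intro F hF
    apply LinearMap.ext
    intro x
    show p (F x) = F (p x)
    have e1 : p (F x) = ∑ j, ∑ k, if Isog B (Bs j) then ι j (π j (F (ι k (π k x)))) else 0 := by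
      rw [hp]
      refine Finset.sum_congr rfl fun j _ => ?_
      split_ifs
      · conv_lhs => rw [← D.sum x]
        rw [map_sum]
        have e2 : π j (∑ k, F (ι k (π k x))) = ∑ k, π j (F (ι k (π k x))) :=
          map_sum (pl j) (fun k => F (ι k (π k x))) Finset.univ
        rw [e2]
        exact map_sum (il j) (fun k => π j (F (ι k (π k x)))) Finset.univ
      · rw [Finset.sum_const_zero]
    have e2 : F (p x) = ∑ j, ∑ k, if Isog B (Bs k) then ι j (π j (F (ι k (π k x)))) else 0 := by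
      rw [← D.sum (F (p x))]
      refine Finset.sum_congr rfl fun j _ => ?_
      rw [hp, map_sum]
      have e3 : π j (∑ k, F (if Isog B (Bs k) then ι k (π k x) else 0)) =
          ∑ k, π j (F (if Isog B (Bs k) then ι k (π k x) else 0)) :=
        map_sum (pl j) (fun k => F (if Isog B (Bs k) then ι k (π k x) else 0)) Finset.univ
      have e4 : ι j (∑ k, π j (F (if Isog B (Bs k) then ι k (π k x) else 0))) =
          ∑ k, ι j (π j (F (if Isog B (Bs k) then ι k (π k x) else 0))) :=
        map_sum (il j) (fun k => π j (F (if Isog B (Bs k) then ι k (π k x) else 0))) Finset.univ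
      rw [e3, e4]
      refine Finset.sum_congr rfl fun k _ => ?_
      split_ifs
      · rfl
      · rw [map_zero]
        have e5 : π j 0 = 0 := map_zero (pl j)
        have e6 : ι j 0 = 0 := map_zero (il j)
        rw [e5, e6]
    rw [e1, e2]
    refine Finset.sum_congr rfl fun j _ => Finset.sum_congr rfl fun k _ => ?_
    have e6 : ι j 0 = 0 := map_zero (il j)
    by_cases hj : Isog B (Bs j)
    · by_cases hk : Isog B (Bs k)
      · rw [if_pos hj, if_pos hk]
      · rw [if_pos hj, if_neg hk, hoff F hF j k (fun h => hk (h.1 hj)), e6]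
    · by_cases hk : Isog B (Bs k)
      · rw [if_neg hj, if_pos hk, hoff F hF j k (fun h => hj (h.2 hk)), e6]
      · rw [if_neg hj, if_neg hk]
  have hprod : ∀ σ a b, p * (ts (lt A S) σ a * ts (lt A S) (cj σ) b) =
      ts (lt A S) σ a * ts (lt A S) (cj σ) b * p := by
    intro σ a b
    show (∑ j, if Isog B (Bs j) then il j ∘ₗ pl j else 0 : Module.End ℂ A.H1) * _ =
      _ * (∑ j, if Isog B (Bs j) then il j ∘ₗ pl j else 0 : Module.End ℂ A.H1)
    rw [Finset.sum_mul, Finset.mul_sum]
    refine Finset.sum_congr rfl fun j _ => ?_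
    split_ifs
    · have h2 := isMor_comp (D.morι j) (D.morπ j)
      exact ((M.cent (il j ∘ₗ pl j)).1 ((isDRB_iff A A (il j ∘ₗ pl j)).mpr
        ⟨h2.betti, h2.deRham⟩)).2 σ a b
    · rw [zero_mul, mul_zero]
  -- `p` is a scalar
  obtain ⟨z, hz⟩ : ∃ z : ℂ, p = z • (1 : Module.End ℂ A.H1) := by
    have hd : (Module.finrank ℂ A.H1 : ℂ) ≠ 0 := by
      rw [finrank_H1]
      have := hg
      exact_mod_cast (by omega : 2 * A.g ≠ 0)
    refine ⟨LinearMap.trace ℂ A.H1 p / Module.finrank ℂ A.H1, ?_⟩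
    rw [← sub_eq_zero]
    have hre' : ∀ σ τ : K →+* ℂ, τ = cj σ := fun σ τ => hone τ (cj σ)
    refine Gq5_irr M.conj M.herm M.nd M.cliff hre hone hm _ ?_ ?_ ?_
    · intro σ τ a b
      rw [hre' σ τ, sub_mul, mul_sub, hprod, smul_mul_assoc, mul_smul_comm, one_mul, mul_one]
    · intro F hF
      rw [sub_mul, mul_sub, Gq5_comm M p hcomm F fun σ a b => hF σ (cj σ) a b, smul_mul_assoc,
        mul_smul_comm, one_mul, mul_one]
    · rw [map_sub, map_smul, LinearMap.trace_one, smul_eq_mul, div_mul_cancel₀ _ hd, sub_self]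
  have hpf : p (f v₀) = f v₀ := by
    rw [hp]
    conv_rhs => rw [← D.sum (f v₀)]
    refine Finset.sum_congr rfl fun j _ => ?_
    by_cases hj : Isog B (Bs j)
    · rw [if_pos hj]
    · rw [if_neg hj]
      by_contra hne
      apply hj
      have h2 : π j (f v₀) ≠ 0 := by
        intro h3
        apply hne
        rw [h3]
        exact (map_zero (il j)).symm
      exact ⟨_, isMor_comp (D.morπ j) hf,
        bijective_of_simple hBs (D.simple j) _ (isMor_comp (D.morπ j) hf) ⟨v₀, h2⟩⟩
  have hz1 : z = 1 := by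
    rw [hz] at hpf
    have h2 : (z - 1) • f v₀ = 0 := by
      rw [sub_smul, one_smul, sub_eq_zero]
      exact hpf
    rcases smul_eq_zero.1 h2 with h3 | h3
    · exact sub_eq_zero.1 h3
    · exact absurd h3 hv₀
  have hpv : p v = v := by
    rw [hz, hz1, one_smul]
    rfl
  rw [← hpv, hp]
  refine Submodule.sum_mem _ fun j _ => ?_
  by_cases hj : Isog B (Bs j)
  · rw [if_pos hj]
    obtain ⟨g, hg1, hg2⟩ := hj
    obtain ⟨u, hu⟩ := hg2.2 (π j v)
    exact Submodule.subset_span ⟨fun u => ι j (g u), u, isMor_comp (D.morι j) hg1, by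
      show ι j (π j v) = ι j (g u)
      rw [hu]⟩
  · rw [if_neg hj]
    exact Submodule.zero_mem _

end Pool.Agent.KTW
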