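import Pool.Agent.KTW.Alv
import Pool.Agent.KTW.Gq5

/-!
# KTW [Alw]: the Hodge projectors kill all Grothendieck forms, without conditions which relate
different `A_i`
-/

set_option autoImplicit false
set_option linter.unusedSectionVars false

namespace Pool.Agent.KTW

open Module Matrix NumberField Pool.Agent.Helper7 Pool.Agent.KS Pool.Agent.Ball Pool.Agent.KSE
  Pool.Agent.Helper28.GPC Pool.Agent.K3P Pool.Agent.KTP
open Pool.Agent.GPC (AbVar GrIsHodge IsElementary)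

/-- the generating family -/
def St_Asy : Prop := ∀ {I J : Type} [Fintype I] [DecidableEq I] [Fintype J] [DecidableEq J]
  (A : I → AbVar) (D : J → AbVar) {K : I → Type} [∀ i, Field (K i)] [∀ i, NumberField (K i)]
  {c : ∀ i, K i →+* K i} {m : I → ℕ} (S : ∀ i, (A i).KugaSatakeMul (K i) (c i) (m i)),
  (∀ i, (A i).g ≠ 0) → (∀ i, (S i).IsLargeR ∨ (S i).IsLargeD) → IsElementary D →
  (∀ i, (S i).IsLargeD → (S i).IsCenQuotientOf D) → Alz_K (Sum.elim A D)

/-- the Hodge projectors kill all Grothendieck forms on products of the `A_i` and the `C_j`; no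
conditions which relate different `A_i` -/
def St_Alw : Prop := ∀ {I J L : Type} [Fintype I] [DecidableEq I] [Fintype J] [DecidableEq J]
  [Fintype L] (A : I → AbVar) (C : J → AbVar) (D : L → AbVar) {K : I → Type} [∀ i, Field (K i)]
  [∀ i, NumberField (K i)] {c : ∀ i, K i →+* K i} {m : I → ℕ}
  (S : ∀ i, (A i).KugaSatakeMul (K i) (c i) (m i)), (∀ i, (A i).g ≠ 0) → IsElementary D →
  (∀ j, (C j).IsQuotientOf D) → (∀ i, (A i).IsQuotientOf D ∨ (S i).IsStandard D) →
  ∀ n : I ⊕ J → ℕ, KillZ (κ := fun j => Fin (Sum.elim A C j).g ⊕ Fin (Sum.elim A C j).g)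
    (fun j => pData (Sum.elim A C j)) (fun j => (1 / 2 : ℂ) • 1 - hod (Sum.elim A C j)) n

/-- quadratic fields are abelian over `ℚ` -/
theorem Alw_quad {K : Type} [Field K] [NumberField K] (h : Module.finrank ℚ K = 2) :
    IsAbelianGalois ℚ K := by
  have h1 : Algebra.IsQuadraticExtension ℚ K := ⟨h⟩
  have h2 : IsGalois ℚ K := inferInstance
  have h3 : Nat.card (K ≃ₐ[ℚ] K) = 2 := by
    rw [IsGalois.card_aut_eq_finrank, h]
  have : Fact (Nat.Prime 2) := ⟨Nat.prime_two⟩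
  have h4 : IsCyclic (K ≃ₐ[ℚ] K) := isCyclic_of_prime_card h3
  have h5 : IsMulCommutative (K ≃ₐ[ℚ] K) := ⟨⟨fun x y => h4.commGroup.mul_comm x y⟩⟩
  exact { toIsGalois := h2, toIsMulCommutative := h5 }

/-- [ALW] -/
theorem thm_Alw (hAsy : St_Asy) (hTrf : St_Trf) (hExt : St_Ext) (hEnl : St_Enl) (hRqt : St_Rqt)
    (hCmp : St_Cmp) (hBsp : St_Bsp) (hCmo : St_Cmo) (hIqt : St_Iqt) : St_Alw := by
  classical
  intro I J L _ _ _ _ _ A C D K _ _ c m S hg hD hCD hI
  -- elementary abelian varieties for the small ones and for the parts with complex multiplication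
  have hB : ∀ i, ∃ (X : Type) (_ : Fintype X) (B : X → AbVar), (∀ x, (B x).IsBasic) ∧
      ((S i).IsSmall → (A i).IsQuotientOf B) ∧ ((S i).IsLargeC → (S i).IsCenQuotientOf B) ∧
      ((c i = RingHom.id (K i) ∧ m i = 5 ∧ Module.finrank ℚ (K i) = 1 ∧
        ∃ B : AbVar, B.IsGenericSurface ∧ ∃ f, B.IsMor (A i) f ∧ ∃ v, f v ≠ 0) →
        (A i).IsQuotientOf B) := by
    intro i
    by_cases h5 : c i = RingHom.id (K i) ∧ m i = 5 ∧ Module.finrank ℚ (K i) = 1 ∧
        ∃ B : AbVar, B.IsGenericSurface ∧ ∃ f, B.IsMor (A i) f ∧ ∃ v, f v ≠ 0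
    · obtain ⟨hc, hm, hfr, B, hB, f, hf, v₀, hv₀⟩ := h5
      refine ⟨Unit, inferInstance, fun _ => B, fun _ => ⟨Gq5_simple hB, Or.inl hB⟩, fun h => ?_,
        fun h => absurd hc h.1, fun _ v => ?_⟩
      · exfalso
        rcases h with ⟨-, -, h⟩ | ⟨h, -⟩
        · omega
        · exact h hc
      · refine Submodule.span_mono ?_ (thm_Gq5 (S i) (hg i) hc hfr hm hB hf hv₀ v)
        rintro w ⟨g, u, hg, rfl⟩
        exact ⟨(), g, u, hg, rfl⟩
    by_cases hs : (S i).IsSmall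
    · have h1 : BasicPart (A i) fun _ => True := by
        rcases hs with ⟨h1, h2, h3⟩ | ⟨h1, h2, h3 | ⟨h3, h4⟩⟩
        · exact hRqt (A i) (K i) (c i) (m i) (S i) h1 h2 h3
        · have key : ∀ (m' : ℕ) (_ : (A i).KugaSatakeMul (K i) (c i) m'), m' = 1 →
              BasicPart (A i) fun _ => True := by
            intro m' S' hm'
            subst hm'
            exact hCmo (A i) (K i) (c i) S' h1 h2
          exact key (m i) (S i) h3
        · have key : ∀ (m' : ℕ) (_ : (A i).KugaSatakeMul (K i) (c i) m'), m' = 2 →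
              BasicPart (A i) fun _ => True := by
            intro m' S' hm'
            subst hm'
            exact hIqt (A i) (K i) (c i) S' h1 h4
          exact key (m i) (S i) h3
      obtain ⟨X, iX, B, hB, hv⟩ := h1
      exact ⟨X, iX, B, hB, fun _ v => hv v trivial, fun _ v _ => hv v trivial,
        fun h => absurd h h5⟩
    · by_cases hC : (S i).IsLargeC
      · obtain ⟨σ₀, h, -⟩ := place_C (S i) hC
        obtain ⟨X, iX, B, hB, hv⟩ := hBsp (A i) (fun v => ∀ σ : K i →+* ℂ,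
          (∀ a, (S i).e σ a v = 0) ∨ ∀ a, (S i).e (ComplexEmbedding.conjugate σ) a v = 0) (by
            intro v hv
            refine Submodule.span_mono ?_
              (hCmp (A i) (K i) (c i) (m i) (S i) (hg i) hC.1 h.2.2.2.1.ne' hC.2.1 v hv)
            rintro w ⟨B, f, u, -, h1, h2, h3, h4⟩
            exact ⟨B, f, u, ⟨h1, Or.inr (Or.inr h2)⟩, h3, h4⟩)
        exact ⟨X, iX, B, hB, fun h => absurd h hs, fun _ v hv' => hv v hv',
          fun h => absurd h h5⟩
      · exact ⟨Empty, inferInstance, fun x => x.elim, fun x => x.elim, fun h => absurd h hs,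
          fun h => absurd h hC, fun h => absurd h h5⟩
  choose X iX B hBb hBs hBc hB5 using hB
  obtain ⟨L', iL, iL', D', hD', hDD', hBD'⟩ := hEnl L D hD (Σ i, X i) (fun x => B x.1 x.2)
    (fun x => hBb x.1 x.2)
  have hsm : ∀ i, (S i).IsSmall → (A i).IsQuotientOf D' := fun i hi v =>
    Alv_trans (fun x => hBD' ⟨i, x⟩) v (hBs i hi v)
  have hce : ∀ i, (S i).IsLargeC → (S i).IsCenQuotientOf D' := fun i hi v hv =>
    Alv_trans (fun x => hBD' ⟨i, x⟩) v (hBc i hi v hv)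
  have h5q : ∀ i, (c i = RingHom.id (K i) ∧ m i = 5 ∧ Module.finrank ℚ (K i) = 1 ∧
      ∃ B : AbVar, B.IsGenericSurface ∧ ∃ f, B.IsMor (A i) f ∧ ∃ v, f v ≠ 0) →
      (A i).IsQuotientOf D' := fun i hi v => Alv_trans (fun x => hBD' ⟨i, x⟩) v (hB5 i hi v)
  -- the large ones
  have hst : ∀ i, (A i).IsQuotientOf D' ∨ (((S i).IsLargeR ∨ (S i).IsLargeD) ∧
      ((S i).IsLargeD → (S i).IsCenQuotientOf D')) := by
    intro i
    rcases hI i with h | ⟨hc, hm, hm5⟩ | ⟨hc, hab, hm⟩ | ⟨hc, hev, hcq⟩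
    · exact Or.inl fun v => Alv_trans hDD' v (h v)
    · by_cases hm5' : m i = 5
      · rcases hm5 with h | ⟨h, h'⟩
        · exact absurd hm5' h
        · exact Or.inl (h5q i ⟨hc, hm5', h, h'⟩)
      · by_cases h1 : Module.finrank ℚ (K i) = 1
        · by_cases h2 : m i ≤ 4
          · exact Or.inl (hsm i (Or.inl ⟨hc, h1, by omega⟩))
          · exact Or.inr ⟨Or.inl ⟨hc, hm, hm5', fun _ => by omega⟩, fun h => absurd hc h.1⟩
        · exact Or.inr ⟨Or.inl ⟨hc, hm, hm5', fun h => absurd h h1⟩, fun h => absurd hc h.1⟩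
    · rcases hm with hm | hm
      · exact Or.inl (hsm i (Or.inr ⟨hc, hab, Or.inl hm⟩))
      · by_cases h2 : Module.finrank ℚ (K i) = 2 ∧ m i = 2
        · exact Or.inl (hsm i (Or.inr ⟨hc, hab, Or.inr ⟨h2.2, h2.1⟩⟩))
        · have h3 : Module.finrank ℚ (K i) = 2 → m i ≠ 2 := fun h4 h5 => h2 ⟨h4, h5⟩
          exact Or.inr ⟨Or.inr ⟨hc, hm, h3⟩, fun _ => hce i ⟨hc, hab, hm, h3⟩⟩
    · by_cases h2 : Module.finrank ℚ (K i) = 2 ∧ m i = 2
      · exact Or.inl (hsm i (Or.inr ⟨hc, Alw_quad h2.1, Or.inr ⟨h2.2, h2.1⟩⟩))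
      · have h3 : Module.finrank ℚ (K i) = 2 → m i ≠ 2 := fun h4 h5 => h2 ⟨h4, h5⟩
        exact Or.inr ⟨Or.inr ⟨hc, hev, h3⟩, fun _ v hv => Alv_trans hDD' v (hcq v hv)⟩
  let IL : Type := {i : I // ¬ (A i).IsQuotientOf D'}
  have hIL : ∀ i : IL, ((S i.1).IsLargeR ∨ (S i.1).IsLargeD) ∧
      ((S i.1).IsLargeD → (S i.1).IsCenQuotientOf D') := fun i => (hst i.1).resolve_left i.2
  have h0 : Alz_K (Sum.elim (fun i : IL => A i.1) D') :=
    hAsy (fun i : IL => A i.1) D' (fun i => S i.1) (fun i => hg i.1) (fun i => (hIL i).1) hD'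
      (fun i => (hIL i).2)
  -- the big family
  let XX : (I ⊕ J) ⊕ L' → AbVar := Sum.elim (Sum.elim A C) D'
  let e : IL ⊕ L' → (I ⊕ J) ⊕ L' := Sum.elim (fun i => Sum.inl (Sum.inl i.1)) Sum.inr
  have h1 : Alz_K (fun b => XX (e b)) := by
    have e1 : (fun b => XX (e b)) = Sum.elim (fun i : IL => A i.1) D' := by
      funext b
      rcases b with b | b <;> rfl
    rw [e1]
    exact h0
  have h2 : Alz_K XX := by
    refine hTrf (IL ⊕ L') ((I ⊕ J) ⊕ L') e (fun j => Fin (XX j).g ⊕ Fin (XX j).g) _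
      (fun j => pData (XX j)) (fun j => (1 / 2 : ℂ) • 1 - hod (XX j)) ?_ ?_ h1
    · intro i j f hf v
      show (1 / 2 : ℂ) • f v - hod (XX j) (f v) = f ((1 / 2 : ℂ) • v - hod (XX i) v)
      rw [map_sub, map_smul, hod_comm f hf]
    · have hid : ∀ b, Submodule.span ℂ {v : Fin (XX (e b)).g ⊕ Fin (XX (e b)).g → ℂ |
            ∃ (i : IL ⊕ L') (f : (Fin (XX (e i)).g ⊕ Fin (XX (e i)).g → ℂ) →ₗ[ℂ]
              (Fin (XX (e b)).g ⊕ Fin (XX (e b)).g → ℂ)),
            IsDRB (pData (XX (e i))) (pData (XX (e b))) f ∧ ∃ u, v = f u} = ⊤ := by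
        intro b
        rw [eq_top_iff]
        intro v _
        exact Submodule.subset_span ⟨b, LinearMap.id,
          (isDRB_iff _ _ _).mpr ⟨fun v hv => hv, fun v hv => hv⟩, v, rfl⟩
      have hq : ∀ j, (XX j).IsQuotientOf D' → Submodule.span ℂ
          {v : Fin (XX j).g ⊕ Fin (XX j).g → ℂ |
            ∃ (i : IL ⊕ L') (f : (Fin (XX (e i)).g ⊕ Fin (XX (e i)).g → ℂ) →ₗ[ℂ]
              (Fin (XX j).g ⊕ Fin (XX j).g → ℂ)),
            IsDRB (pData (XX (e i))) (pData (XX j)) f ∧ ∃ u, v = f u} = ⊤ := by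
        intro j hj
        rw [eq_top_iff]
        intro v _
        refine Submodule.span_mono ?_ (hj v)
        rintro w ⟨i, f, u, hf, rfl⟩
        exact ⟨Sum.inr i, IsLinearMap.mk' f hf.linear,
          (isDRB_iff _ _ _).mpr ⟨hf.betti, hf.deRham⟩, u, rfl⟩
      rintro ((j | j) | j)
      · by_cases h3 : (A j).IsQuotientOf D'
        · exact hq (Sum.inl (Sum.inl j)) h3
        · exact hid (Sum.inl ⟨j, h3⟩)
      · exact hq (Sum.inl (Sum.inr j)) fun v => Alv_trans hDD' v (hCD j v)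
      · exact hid (Sum.inr j)
  exact hExt (I ⊕ J) ((I ⊕ J) ⊕ L') Sum.inl Sum.inl_injective
    (fun j => Fin (XX j).g ⊕ Fin (XX j).g) _ (fun j => pData (XX j))
    (fun j => (1 / 2 : ℂ) • 1 - hod (XX j)) h2

end Pool.Agent.KTW
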