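import Pool.Agent.KTP.StH
import Pool.Agent.K3P.Asm

/-!
# KTW [Am5]: Grothendieck classes on products of K3 surfaces, assembly

`KTP.thm_Asm`, with the conclusion of `KTP.St_Kil` as a hypothesis.
-/

set_option autoImplicit false

namespace Pool.Agent.KTW

open Module Matrix NumberField Pool.Agent.Helper7 Pool.Agent.KS Pool.Agent.Ball Pool.Agent.KSE
  Pool.Agent.Helper28.GPC Pool.Agent.KSR Pool.Agent.K3P Pool.Agent.KTP
open Pool.Agent.GPC (AbVar TC IsRatT qf df HX HU IsGrU IsBasicU IsGenU)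

/-- [AM5] -/
theorem thm_Am5 (hInw : St_Inw) (hWrd : St_Wrd) (hDsu : St_Dsu) (hMxu : St_Mxu)
    (hRev : St_Rev) (hRvd : St_Rvd) {I : Type} [Fintype I] [DecidableEq I] (A : I → AbVar)
    {K : I → Type} [∀ i, Field (K i)] [∀ i, NumberField (K i)] {c : ∀ i, K i →+* K i}
    {m : I → ℕ} (S : ∀ i, (A i).KugaSatakeMul (K i) (c i) (m i)) (hg : ∀ i, (A i).g ≠ 0)
    (hKill : ∀ n : I → ℕ, KillH (fun i => pData (A i)) (fun i => lt (A i) (S i)) n) (r n : ℕ)
    (F : MultilinearMap ℂ (fun _ : Fin n => HU r K m) ℂ) :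
    IsGrU S r n F ↔ IsGenU c (fun i => (S i).h) r n F := by
  have hκ : ∀ i, Nonempty (Fin (A i).g ⊕ Fin (A i).g) :=
    fun i => ⟨Sum.inl ⟨0, Nat.pos_of_ne_zero (hg i)⟩⟩
  have hϖ := Complex.two_pi_I_ne_zero
  have hnd : ∀ i, (S i).h.det ≠ 0 := by
    intro i
    obtain ⟨σ₀, x, hx, -, -⟩ := (S i).hodge
    exact k3_nd (S i).conjugation (S i).hermitian hx
  have MM := fun i => mde (A i) (S i) (hnd i)
  constructor
  · rintro ⟨h1, h2⟩
    obtain ⟨N, p, ω, hω, hF⟩ := hMxu (TF K m) (fun y => ∃ x : ∀ i, Fin (m i) → K i, y = embF x)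
      (fun y => ∀ i, DR (lt (A i) (S i)) (y i)) (fun d ω => Bas c (fun i => (S i).h) d ω) n
      (by
        intro d F' _ hr ha
        have hr' : ∀ y : Fin d → ∀ i, Fin (m i) → K i, ∃ q : ℚ, F' (fun s => embF (y s)) = q :=
          fun y => hr _ fun s => ⟨y s, rfl⟩
        have hinv := hInw I (fun i => Fin (A i).g ⊕ Fin (A i).g) _ (fun i => pData (A i)) K c m
          (fun i => (S i).h) (fun i => lt (A i) (S i)) hϖ MM (hKill _) d F'
          hr' ha
        exact hDsu I K c m (fun i => (S i).h) d (fun i => (S i).conjugation) F'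
          (hWrd I K c m (fun i => (S i).h) d (fun i => (S i).conjugation)
            (fun i => (S i).hermitian) hnd F' hinv) hr') r F
      ⟨0, by
        funext i σ a
        exact (map_zero σ).symm⟩
      (by
        intro i i' j'
        have h3 : opT (lt (A i) (S i)) (0 : TC (K i) (m i)) = 0 := by
          rw [opT]
          exact Finset.sum_eq_zero fun σ _ => map_zero _
        show IsAlgebraic ℚ (opT (lt (A i) (S i)) (0 : TC (K i) (m i)) (Pi.single i' 1) j')
        rw [h3]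
        exact isAlgebraic_zero)
      (fun v hv => h1 v fun s => ⟨(hv s).1, fun i => by
        obtain ⟨x, hx⟩ := (hv s).2
        rw [hx]
        exact ⟨x i, fun _ _ => rfl⟩⟩)
      (fun v hv => h2 v fun s => ⟨(hv s).1, fun i => (asm_dr (S i) _).mpr ((hv s).2 i)⟩)
    refine ⟨N, p, ω, fun j => ?_, hF⟩
    obtain ⟨d, l, ε, a, ω', ⟨l', l₁, i, j', z, z₁, e, hc, hω'⟩, hj⟩ := hω j
    refine ⟨l', l₁, l, i, j', a, z, z₁, (Equiv.sumCongr e (Equiv.refl _)).trans ε, hc,
      fun v => ?_⟩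
    rw [hj, hω']
    simp only [asm_qz]
    rfl
  · rintro ⟨N, p, ω, hω, hF⟩
    have hq := fun i => hRev _ _ (pData (A i)) (K i) (c i) (m i) (S i).h (lt (A i) (S i)) (MM i)
    have hd := fun i => hRvd _ _ (pData (A i)) (K i) (c i) (m i) (S i).h (lt (A i) (S i)) (MM i)
    constructor
    · intro v hv
      rw [hF]
      refine asm_rat_sum _ _ fun j _ => ?_
      obtain ⟨l, l₁, l₂, i, j', a, z, z₁, e, -, hj⟩ := hω j
      rw [hj]
      choose y hy using fun s i => asm_rat ((v s).2 i) ((hv s).2 i)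
      obtain ⟨a1, ha1⟩ := asm_rat_prod Finset.univ (fun b => qf (S (i b)).h (z b)
        ((v (e (.inl (.inl (b, 0))))).2 (i b)) ((v (e (.inl (.inl (b, 1))))).2 (i b)))
        (fun b _ => by
          rw [hy, hy, ← asm_qz]; exact (hq (i b)).1 _ _ _)
      obtain ⟨a2, ha2⟩ := asm_rat_prod Finset.univ (fun b => df (z₁ b) fun k =>
        (v (e (.inl (.inr ⟨b, k⟩)))).2 (j' b)) (fun b _ => by
          simp only [hy]; exact (hd (j' b)).1 _ _)
      obtain ⟨a3, ha3⟩ := asm_rat_prod Finset.univ (fun b => (v (e (.inr b))).1 (a b))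
        (fun b _ => (hv _).1 _)
      rw [ha1, ha2, ha3]
      exact ⟨p j * (a1 * a2 * a3), by push_cast; ring⟩
    · intro v hv
      rw [hF]
      refine asm_alg_sum _ _ fun j _ => (isAlgebraic_algebraMap (p j)).mul ?_
      obtain ⟨l, l₁, l₂, i, j', a, z, z₁, e, hl, hj⟩ := hω j
      rw [hj]
      refine ((asm_alg_prod _ _ fun b _ => ?_).mul (asm_alg_prod _ _ fun b _ => ?_)).mul
        (asm_alg_prod _ _ fun b _ => (hv _).1 _)
      · rw [← asm_qz]
        exact (hq (i b)).2 _ _ _ ((asm_dr (S (i b)) _).mp ((hv _).2 _))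
          ((asm_dr (S (i b)) _).mp ((hv _).2 _))
      · exact (hd (j' b)).2 (hl b) _ _ fun k => (asm_dr (S (j' b)) _).mp ((hv _).2 _)

end Pool.Agent.KTW
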