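import Pool.Agent.KTW.Fmz
import Pool.Agent.KTW.Aby

/-!
# KTW [Kly, Slx]: operators which kill all Grothendieck forms
-/

set_option autoImplicit false
set_option linter.unusedSectionVars false

namespace Pool.Agent.KTW

open Module Matrix NumberField Pool.Agent.Helper7 Pool.Agent.KS Pool.Agent.Ball Pool.Agent.KSE
  Pool.Agent.Helper28.GPC Pool.Agent.K3P Pool.Agent.KTP
open Pool.Agent.GPC (AbVar IsRMType IsElementary)

section

variable {I J : Type} [Fintype I] [DecidableEq I] [Fintype J] [DecidableEq J] (X : J → AbVar)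
    {e : I → J} {K : I → Type} [∀ i, Field (K i)] [∀ i, NumberField (K i)]
    {c : ∀ i, K i →+* K i} {m : I → ℕ} (S : ∀ i, (X (e i)).KugaSatakeMul (K i) (c i) (m i))
    {T₀ : I → Prop} {σ₀ : ∀ i, K i →+* ℂ}

/-- the comparison operators on the part `T₀` (all of real type), zero on everything else, kill all
Grothendieck forms -/
theorem Kly_form (hAby : St_Aby) (hM : ∀ i, MD (pData (X (e i))) (c i) (S i).h (lt (X (e i)) (S i)))
    (hre : ∀ i, T₀ i → ∀ σ : K i →+* ℂ, cj σ = σ)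
    (hF : ∀ (n : J → ℕ) (k : ℕ)
    (γ : MultilinearMap ℂ (fun _ : Fin (2 * k) => HW (fun j => Fin (X j).g ⊕ Fin (X j).g) n) ℂ),
    (∀ v : Fin (2 * k) → HW (fun j => Fin (X j).g ⊕ Fin (X j).g) n,
      (∀ r, IsRatP n (fun j => pData (X j)) (v r)) →
        ∃ q : ℚ, γ v = (2 * Real.pi * Complex.I) ^ k * q) →
    (∀ v : Fin (2 * k) → HW (fun j => Fin (X j).g ⊕ Fin (X j).g) n,
      (∀ r i m j, IsAlgebraic ℚ (v r i m j)) → IsAlgebraic ℚ (γ v)) →
    (∀ Y : GG (fun j => Fin (X j).g ⊕ Fin (X j).g), IsInv n (fun j => pData (X j)) γ Y →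
      ∀ i, ∃ M, ActM (lt (X (e i)) (S i)) (Y.1 (e i)) M) →
    (∀ g : (j : J) → Module.End ℂ (Fin (X j).g ⊕ Fin (X j).g → ℂ),
      IsGrp n (fun j => pData (X j)) γ g → ∀ i,
      ∃ A : (K i →+* ℂ) → Matrix (Fin (m i)) (Fin (m i)) ℂ, ∀ σ x,
        g (e i) * tau (ts (lt (X (e i)) (S i)) σ) x =
          tau (ts (lt (X (e i)) (S i)) σ) (A σ *ᵥ x) * g (e i)) →
    FamZ e n (fun j => pData (X j)) (fun i => (S i).h) (fun i => lt (X (e i)) (S i)) γ σ₀ T₀ c)
    {B : Type} [Fintype B] [DecidableEq B] (b : B → J) (hb : ∀ j, (∃ a, b a = j) ↔ ∃ i, T₀ i ∧ e i = j) (n : J → ℕ) {k : ℕ}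
    (α : MultilinearMap ℂ (fun _ : Fin (2 * k) => HW (fun j => Fin (X j).g ⊕ Fin (X j).g) n) ℂ)
    (hB : ∀ v : Fin (2 * k) → HW (fun j => Fin (X j).g ⊕ Fin (X j).g) n,
      (∀ r, IsRatP n (fun j => pData (X j)) (v r)) →
        ∃ q : ℚ, α v = (2 * Real.pi * Complex.I) ^ k * q)
    (hA : ∀ v : Fin (2 * k) → HW (fun j => Fin (X j).g ⊕ Fin (X j).g) n,
      (∀ r i m j, IsAlgebraic ℚ (v r i m j)) → IsAlgebraic ℚ (α v))
    (D : Derivation ℚ ℂ ℂ) : actForm (lift n (NE b (fun j => pData (X j)) D)) α = 0 := by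
  classical
  have hϖ := Complex.two_pi_I_ne_zero
  rcases Nat.eq_zero_or_pos k with rfl | hk
  · apply MultilinearMap.ext
    intro v
    rw [actForm_apply]
    exact Finset.sum_eq_zero fun r _ => Fin.elim0 r
  obtain ⟨n', k', γ, hγB, hγA, hγ1, hγ2⟩ := KSW.exists_gam_allE (fun j => pData (X j)) hM n hk α
    hB hA
  have H := hF n' k' γ hγB hγA (fun X hX => (hγ1 X hX).2) (fun g hg => (hγ2 g hg).2)
  obtain ⟨Y₀, hY₀d⟩ : ∃ Y₀ : GG (fun j => Fin (X j).g ⊕ Fin (X j).g), Y₀ =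
      (fun j => (pData (X j)).N D, D (2 * Real.pi * Complex.I) / (2 * Real.pi * Complex.I)) +
        (-(D (2 * Real.pi * Complex.I) / (2 * Real.pi * Complex.I) / 2)) • (1, 2) := ⟨_, rfl⟩
  have hY₀ : IsInv n' (fun j => pData (X j)) γ Y₀ := by
    rw [hY₀d]
    exact (isInv_N n' (fun j => pData (X j)) γ hϖ hγB hγA D).add _ _ _
      ((Kln_id n' (fun j => pData (X j)) γ).smul _ _ _ _)
  have hY₀2 : Y₀.2 = 0 := by
    rw [hY₀d]
    show D (2 * Real.pi * Complex.I) / (2 * Real.pi * Complex.I) +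
      -(D (2 * Real.pi * Complex.I) / (2 * Real.pi * Complex.I) / 2) * 2 = 0
    ring
  have hY₀1 : ∀ j, Y₀.1 j = (pData (X j)).N D -
      (D (2 * Real.pi * Complex.I) / (2 * Real.pi * Complex.I) / 2) • 1 := by
    intro j
    rw [hY₀d]
    refine LinearMap.ext fun v => ?_
    show (pData (X j)).N D v + (-(D (2 * Real.pi * Complex.I) / (2 * Real.pi * Complex.I) / 2)) • v =
      (pData (X j)).N D v - (D (2 * Real.pi * Complex.I) / (2 * Real.pi * Complex.I) / 2) • v
    rw [neg_smul, sub_eq_add_neg]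
  choose M hMM using fun i => (hγ1 Y₀ hY₀).2 i
  obtain ⟨Y, hY, hY2, hYj, hYi⟩ := hAby I J e n' _ _ (fun j => pData (X j)) K c m
    (fun i => (S i).h) (fun i => lt (X (e i)) (S i)) k' γ σ₀ T₀ H Y₀ M hY₀ hY₀2 hMM
  have hYN : Y.1 = NE b (fun j => pData (X j)) D := by
    funext j
    unfold NE
    by_cases hj : ∃ a, b a = j
    · rw [if_pos hj]
      obtain ⟨i, hi, rfl⟩ := (hb j).1 hj
      rw [← hY₀1]
      obtain ⟨h1, h2⟩ := hYi i hi
      refine eq_of_act (hM i).conj (hM i).herm (hM i).nd (hM i).cliff h1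
        (mem_bvE n' (fun j => pData (X j)) (e i) (hM i) γ Y₀ hY₀ hY₀2 _ (hMM i)) h2 ?_
      have e1 : (fun σ => trz (M i σ)) = M i := by
        funext σ
        have := H.ne i
        have hs : M i σ ∈ SO ((S i).h.map σ) := by
          show (M i σ)ᵀ * (S i).h.map σ + (S i).h.map σ * M i σ = 0
          have h3 : Pool.Agent.KSR.SkP (S i).h σ (M i σ) := by
            rw [Pool.Agent.KSR.skP_iff]
            intro x y
            have h3 := ActM.skew (hM i).conj (hM i).cliff (hMM i) σ x y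
            rw [hre i hi σ] at h3
            exact h3
          exact h3
        have hdet : IsUnit ((S i).h.map σ).det := by
          have h3 : ((S i).h.map σ).det = σ (S i).h.det := by
            rw [RingHom.map_det, RingHom.mapMatrix_apply]
          rw [h3]
          exact IsUnit.mk0 _ ((map_ne_zero σ).2 (hM i).nd)
        exact trz_of (trace_SO hdet hs)
      rw [e1]
      exact hMM i
    · rw [if_neg hj]
      exact hYj j fun i hi hij => hj ((hb j).2 ⟨i, hi, hij⟩)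
  have h3 := ((hγ1 Y hY).1).form
  rw [hY2, mul_zero, zero_smul, hYN] at h3
  exact h3

end

end Pool.Agent.KTW
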