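import Pool.Agent.KTW.Uur
import Pool.Agent.KTW.Kl6

/-!
# KTW [Asy]: the Hodge projectors kill the Grothendieck forms, the generating family
-/

set_option autoImplicit false
set_option linter.unusedSectionVars false

namespace Pool.Agent.KTW

open Module Matrix NumberField Pool.Agent.Helper7 Pool.Agent.KS Pool.Agent.Ball Pool.Agent.KSE
  Pool.Agent.Helper28.GPC Pool.Agent.K3P Pool.Agent.KTP
open Pool.Agent.GPC (AbVar GrIsHodge IsElementary)

/-- [ASY] the Hodge projectors kill all Grothendieck forms on the products of the `A_i` and elementary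
abelian varieties; there is no condition which relates different `A_i` -/
theorem thm_Asy (hSyn : St_Syn) (hRel : St_Rel) (hAb6 : St_Ab6) (hAby : St_Aby) (hRmu : St_Rmu)
    (hGsf : St_Gsf) (hSyd : St_Syd) (hDgy : St_Dgy) (hHod : KTP.St_Hod) (hCer : St_Cer)
    (hPsk : St_Psk) (hHym : St_Hym) (hHyt : St_Hyt) (hKlr : St_Klr)
    {I J : Type} [Fintype I] [DecidableEq I] [Fintype J] [DecidableEq J]
    (A : I → AbVar) (D : J → AbVar) {K : I → Type} [∀ i, Field (K i)] [∀ i, NumberField (K i)]
    {c : ∀ i, K i →+* K i} {m : I → ℕ} (S : ∀ i, (A i).KugaSatakeMul (K i) (c i) (m i))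
    (hg : ∀ i, (A i).g ≠ 0) (hRC : ∀ i, (S i).IsLargeR ∨ (S i).IsLargeD)
    (hD : IsElementary D) (hq : ∀ i, (S i).IsLargeD → (S i).IsCenQuotientOf D) :
    Alz_K (Sum.elim A D) := by
  classical
  intro n k α hB hA
  have hϖ := Complex.two_pi_I_ne_zero
  let T : I → Prop := fun i => c i = RingHom.id (K i) ∧ 6 ≤ m i
  have hN := thm_Kl6 hAb6 hRmu hGsf A D S hg hRC hD n
  let b : {i // T i} → I ⊕ J := fun i => Sum.inl i.1
  let b' : {i // ¬ T i} ⊕ J → I ⊕ J := Sum.map Subtype.val id
  have hb : Function.Injective b := fun i i' h => Subtype.ext (Sum.inl_injective h)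
  have hb' : Function.Injective b' := by
    rintro (i | i) (j | j) h
    · exact congrArg Sum.inl (Subtype.ext (Sum.inl_injective h))
    · cases h
    · cases h
    · exact congrArg Sum.inr (Sum.inr_injective h)
  let Z : ∀ j : I ⊕ J, Module.End ℂ (Fin (Sum.elim A D j).g ⊕ Fin (Sum.elim A D j).g → ℂ) :=
    fun j => (1 / 2 : ℂ) • 1 - hod (Sum.elim A D j)
  let Z₁ : ∀ j : I ⊕ J, Module.End ℂ (Fin (Sum.elim A D j).g ⊕ Fin (Sum.elim A D j).g → ℂ) :=
    fun j => match j with
      | Sum.inl i => if T i then Z (Sum.inl i) else 0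
      | Sum.inr _ => 0
  let Z₂ : ∀ j : I ⊕ J, Module.End ℂ (Fin (Sum.elim A D j).g ⊕ Fin (Sum.elim A D j).g → ℂ) :=
    fun j => match j with
      | Sum.inl i => if T i then 0 else Z (Sum.inl i)
      | Sum.inr j => Z (Sum.inr j)
  have hZ : (fun j : I ⊕ J => (1 / 2 : ℂ) • (1 : Module.End ℂ (Sum.elim A D j).H1) -
      hod (Sum.elim A D j)) = Z₁ + Z₂ := by
    funext j
    rcases j with j | j
    · show Z (Sum.inl j) = (if T j then Z (Sum.inl j) else 0) + (if T j then 0 else Z (Sum.inl j))
      by_cases h : T j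
      · rw [if_pos h, if_pos h, add_zero]
      · rw [if_neg h, if_neg h, zero_add]
    · show Z (Sum.inr j) = 0 + Z (Sum.inr j)
      rw [zero_add]
  have h1 := hRel {i // T i} (I ⊕ J) b hb
    (fun j => Fin (Sum.elim A D j).g ⊕ Fin (Sum.elim A D j).g) _
    (fun j => pData (Sum.elim A D j)) hϖ Z₁ (by
      rintro (j | j) hj
      · show (if T j then Z (Sum.inl j) else 0) = 0
        exact if_neg fun h => hj ⟨j, h⟩ rfl
      · rfl) n hN (by
      have e1 : (fun i : {i // T i} => Z₁ (b i)) = fun i : {i // T i} =>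
          (1 / 2 : ℂ) • (1 : Module.End ℂ (A i.1).H1) - hod (A i.1) := by
        funext i
        show (if T i.1 then Z (Sum.inl i.1) else 0) = _
        rw [if_pos i.2]
        rfl
      rw [e1]
      exact hKlr (fun i : {i // T i} => A i.1) (fun i => S i.1) (fun i => hg i.1)
        (fun i => Or.inl ⟨i.2.1, by have := i.2.2; omega, Or.inl (by have := i.2.2; omega)⟩)
        (fun i => i.2.1) _)
  have h3 : Alz_K (fun x => Sum.elim A D (b' x)) := by
    have e1 : (fun x => Sum.elim A D (b' x)) = Sum.elim (fun i : {i // ¬ T i} => A i.1) D := by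
      funext x
      rcases x with x | x <;> rfl
    rw [e1]
    refine thm_Uur hAby hRmu hGsf hSyd hDgy hHod hCer hPsk hHym hHyt
      (fun i : {i // ¬ T i} => A i.1) D (fun i => S i.1) (fun i => hg i.1) (fun i => ?_) hD
      (fun i h => hq i.1 h)
    rcases hRC i.1 with h | h
    · left
      refine ⟨h, ?_⟩
      have h4 := h.2.2.1
      have h5 : ¬ 6 ≤ m i.1 := fun h6 => i.2 ⟨h.1, h6⟩
      omega
    · exact Or.inr h
  have h2 := hRel ({i // ¬ T i} ⊕ J) (I ⊕ J) b' hb'
    (fun j => Fin (Sum.elim A D j).g ⊕ Fin (Sum.elim A D j).g) _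
    (fun j => pData (Sum.elim A D j)) hϖ Z₂ (by
      rintro (j | j) hj
      · show (if T j then 0 else Z (Sum.inl j)) = 0
        refine if_pos ?_
        by_contra h
        exact hj (Sum.inl ⟨j, h⟩) rfl
      · exact absurd rfl (hj (Sum.inr j))) n
    (hSyn {i // T i} ({i // ¬ T i} ⊕ J) (I ⊕ J) b b' (by
      rintro (j | j)
      · by_cases h : T j
        · refine iff_of_true ⟨⟨j, h⟩, rfl⟩ ?_
          rintro ⟨i | i, hi⟩
          · have h4 := Sum.inl_injective hi
            exact i.2 (h4 ▸ h)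
          · cases hi
        · refine iff_of_false ?_ fun h4 => h4 ⟨Sum.inl ⟨j, h⟩, rfl⟩
          rintro ⟨i, hi⟩
          have h4 := Sum.inl_injective hi
          exact h (h4 ▸ i.2)
      · refine iff_of_false ?_ fun h => h ⟨Sum.inr j, rfl⟩
        rintro ⟨i, hi⟩
        cases hi) _ _ _ hϖ n hN) (by
      have e1 : (fun x => Z₂ (b' x)) = fun x =>
          (1 / 2 : ℂ) • (1 : Module.End ℂ (Sum.elim A D (b' x)).H1) -
            hod (Sum.elim A D (b' x)) := by
        funext x
        rcases x with x | x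
        · show (if T x.1 then 0 else Z (Sum.inl x.1)) = _
          rw [if_neg x.2]
          rfl
        · rfl
      rw [e1]
      exact h3 _)
  rw [hZ, lift_add, actForm_add, h1 k α hB hA, h2 k α hB hA, add_zero]

end Pool.Agent.KTW
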