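import Pool.Agent.KQ4.Rs4
import Pool.Agent.KTW.Klz

/-!
# KTW [Rs5, Kh5]: products of Kuga-Satake varieties of real type without homomorphisms
-/

set_option autoImplicit false
set_option linter.unusedSectionVars false

namespace Pool.Agent.KTW

open Module Matrix NumberField Pool.Agent.Helper7 Pool.Agent.KS Pool.Agent.Ball Pool.Agent.KSE
  Pool.Agent.Helper28.GPC Pool.Agent.KSR Pool.Agent.KSV Pool.Agent.K3P Pool.Agent.KTP
  Pool.Agent.KQ4
open Pool.Agent.GPC (AbVar)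

/-- [RS5] without morphisms every skew matrix at every place is the value of a symmetry, also for
`m i = 4` and `m i = 5` -/
theorem thm_Rs5 (hFrm : St_Frm) (hQcq : St_Qcq) (hRpa : St_Rpa) (hLq4 : St_Lq4)
    (hLn4 : St_Ln4) {I : Type} [Fintype I] [DecidableEq I] (n : I → ℕ) {κ : I → Type}
    [∀ i, Fintype (κ i)] [∀ i, DecidableEq (κ i)] {ϖ : ℂ} (P : ∀ i, PData (κ i) ϖ)
    {K : I → Type} [∀ i, Field (K i)] [∀ i, NumberField (K i)] [DecidableEq (PL K)]
    {c : ∀ i, K i →+* K i} {m : I → ℕ} {h : ∀ i, Matrix (Fin (m i)) (Fin (m i)) (K i)}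
    {t : ∀ i, Fin (m i) → K i → Module.End ℂ (κ i → ℂ)} {k : ℕ}
    (γ : MultilinearMap ℂ (fun _ : Fin (2 * k) => HW κ n) ℂ) {σ₀ : ∀ i, K i →+* ℂ}
    (f : FamR n P h t γ σ₀ c)
    (hHom : ∀ i j, i ≠ j → ∀ f : (κ i → ℂ) →ₗ[ℂ] (κ j → ℂ), IsDRB (P i) (P j) f → f = 0)
    (p : PL K) (Z : Matrix (Fin (m p.1)) (Fin (m p.1)) ℂ) (hZ : SkP (h p.1) p.2 Z) :
    (Pi.single p Z : ∀ p : PL K, Matrix (Fin (m p.1)) (Fin (m p.1)) ℂ) ∈ RRE n P h t γ := by
  have hHs : ∀ i, ((h i).map (σ₀ i))ᵀ = (h i).map (σ₀ i) := by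
    intro i
    ext a b
    rw [Matrix.transpose_apply, Matrix.map_apply, Matrix.map_apply, ← (f.S i).herm a b,
      ← (f.S i).conj, f.real i]
  have hHd : ∀ i, IsUnit ((h i).map (σ₀ i)).det := fun i => by
    have h1 : ((h i).map (σ₀ i)).det = σ₀ i (h i).det := by
      rw [RingHom.map_det, RingHom.mapMatrix_apply]
    rw [h1]
    exact IsUnit.mk0 _ ((map_ne_zero (σ₀ i)).2 (f.S i).nd)
  have hfr := fun i => hFrm (m i) ((h i).map (σ₀ i)) (hHs i) (hHd i)
  choose B hB using hfr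
  -- the values at the Hodge places
  let R : Submodule ℂ (∀ i, Matrix (Fin (m i)) (Fin (m i)) ℂ) :=
    { carrier := {x | ∃ M ∈ RRE n P h t γ, (∀ p : PL K, p.2 ≠ σ₀ p.1 → M p = 0) ∧
        ∀ i, M ⟨i, σ₀ i⟩ = x i}
      add_mem' := by
        rintro x y ⟨M, hM, h1, h2⟩ ⟨M', hM', h1', h2'⟩
        exact ⟨M + M', Submodule.add_mem _ hM hM', fun p h3 => by
          rw [Pi.add_apply, h1 p h3, h1' p h3, add_zero], fun i => by
          rw [Pi.add_apply, h2, h2', Pi.add_apply]⟩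
      zero_mem' := ⟨0, Submodule.zero_mem _, fun _ _ => rfl, fun _ => rfl⟩
      smul_mem' := by
        rintro r x ⟨M, hM, h1, h2⟩
        exact ⟨r • M, Submodule.smul_mem _ r hM, fun p h3 => by
          rw [Pi.smul_apply, h1 p h3, smul_zero], fun i => by
          rw [Pi.smul_apply, h2, Pi.smul_apply]⟩ }
  have hbr : ∀ X ∈ R, ∀ Y ∈ R, X * Y - Y * X ∈ R := by
    rintro x ⟨M, hM, h1, h2⟩ y ⟨M', hM', h1', h2'⟩
    refine ⟨M * M' - M' * M, RRE_bracket hM hM', fun p h3 => ?_, fun i => ?_⟩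
    · rw [Pi.sub_apply, Pi.mul_apply, Pi.mul_apply, h1 p h3, h1' p h3, mul_zero, sub_zero]
    · rw [Pi.sub_apply, Pi.mul_apply, Pi.mul_apply, h2, h2', Pi.sub_apply, Pi.mul_apply,
        Pi.mul_apply]
  have hsk : ∀ X ∈ R, ∀ i, (X i)ᵀ * (h i).map (σ₀ i) + (h i).map (σ₀ i) * X i = 0 := by
    rintro x ⟨M, hM, -, h2⟩ i
    have h3 := hM.1 ⟨i, σ₀ i⟩
    rw [h2 i] at h3
    exact h3
  have hc : ∀ i Z, Zᵀ * (h i).map (σ₀ i) + (h i).map (σ₀ i) * Z = 0 → ∃ M ∈ R, M i = Z := by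
    intro i Z hZ
    obtain ⟨M, hM, h1, h2⟩ := coreB n f.pi P f.S γ f.B f.A f.nd f.real σ₀ f.sig f.defi
      f.T f.Tg Pool.Agent.KSV.Hall5_ i (f.ne i) (f.m3 i) (f.m5 i) Z hZ
    exact ⟨fun i => M ⟨i, σ₀ i⟩, ⟨M, hM, h2, fun _ => rfl⟩, h1⟩
  -- the Hodge places
  have main : ∀ (i₀ : I) (Z : Matrix (Fin (m i₀)) (Fin (m i₀)) ℂ), SkP (h i₀) (σ₀ i₀) Z →
      ∃ M ∈ RRE n P h t γ, M ⟨i₀, σ₀ i₀⟩ = Z ∧
        ∀ q : PL K, q ≠ ⟨i₀, σ₀ i₀⟩ → M q = 0 := by
    intro i₀ Z hZ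
    have hN : ∀ i, ((Pi.single i₀ Z : ∀ i, Matrix (Fin (m i)) (Fin (m i)) ℂ) i)ᵀ *
        (h i).map (σ₀ i) + (h i).map (σ₀ i) *
          (Pi.single i₀ Z : ∀ i, Matrix (Fin (m i)) (Fin (m i)) ℂ) i = 0 := by
      intro i
      by_cases hi : i = i₀
      · subst hi
        rw [Pi.single_eq_same]
        exact hZ
      · rw [Pi.single_eq_of_ne hi, Matrix.transpose_zero, Matrix.zero_mul, Matrix.mul_zero,
          add_zero]
    have h1 := Rs4_abs hQcq hRpa (H := fun i => (h i).map (σ₀ i)) (B := B)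
      (fun i => by have := f.m3 i; omega) hHs hHd hB R hbr hsk hc
      (Pi.single i₀ Z : ∀ i, Matrix (Fin (m i)) (Fin (m i)) ℂ) hN (by
        intro i j hij h4 h4' hl
        obtain ⟨g, hg, hg0⟩ := hLn4 I n κ ϖ P K c m h t k γ σ₀ f i j hij h4 h4'
          (fun M hM => hl (fun i => M ⟨i, σ₀ i⟩) ⟨M, hM.1, hM.2, fun _ => rfl⟩)
        exact absurd (hHom i j hij g hg) hg0) (by
        intro i j hij h4 h4' ε ε' hε hε' hl
        obtain ⟨⟨g, hg, hg0⟩, -⟩ := hLq4 I n κ ϖ P K c m h t k γ σ₀ f i j h4 h4' ε ε' hε hε'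
          (B i) (B j) (hB i) (hB j)
          (fun M hM => hl (fun i => M ⟨i, σ₀ i⟩) ⟨M, hM.1, hM.2, fun _ => rfl⟩)
        exact absurd (hHom i j hij g hg) hg0)
    obtain ⟨M, hM, h2, h3⟩ := h1
    refine ⟨M, hM, by rw [h3, Pi.single_eq_same], fun q hq => ?_⟩
    by_cases hq2 : q.2 = σ₀ q.1
    · obtain ⟨i, σ⟩ := q
      simp only at hq2
      subst hq2
      have hi : i ≠ i₀ := by
        rintro rfl
        exact hq rfl
      rw [h3, Pi.single_eq_of_ne hi]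
    · exact h2 q hq2
  -- all places
  obtain ⟨i, σ⟩ := p
  simp only at hZ Z
  obtain ⟨τ, hτ⟩ := Pool.Agent.Helper84.exists_aut (σ₀ i) σ
  have hτ' : (τ.symm : ℂ →+* ℂ).comp σ = σ₀ i := by
    rw [← hτ]
    ext x
    exact τ.symm_apply_apply (σ₀ i x)
  have e2 : SkP (h i) (σ₀ i) (Z.map τ.symm) := by
    have h1 := skP_tw (g := h i) τ.symm (σ₀ i) (Z := Z) (by
      have e : ((τ.symm).symm : ℂ →+* ℂ).comp (σ₀ i) = σ := hτ
      rw [e]
      exact hZ)
    exact h1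
  obtain ⟨M, hM, hM1, hM2⟩ := main i _ e2
  have h1 := RRE_twist f.pi f.S f.B hM τ
  have h2 : twP τ M = Pi.single ⟨i, σ⟩ Z := by
    funext q
    by_cases hq : q = ⟨i, σ⟩
    · subst hq
      rw [Pi.single_eq_same]
      show (M ⟨i, (τ.symm : ℂ →+* ℂ).comp σ⟩).map τ = Z
      rw [hτ', hM1]
      ext a b
      rw [Matrix.map_apply, Matrix.map_apply]
      exact τ.apply_symm_apply (Z a b)
    · rw [Pi.single_eq_of_ne hq]
      show (M ⟨q.1, (τ.symm : ℂ →+* ℂ).comp q.2⟩).map τ = 0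
      rw [hM2]
      · exact Matrix.map_zero τ (map_zero τ)
      · intro h3
        apply hq
        obtain ⟨j, ρ⟩ := q
        have hij : j = i := congrArg Sigma.fst h3
        subst hij
        have h4 : (τ.symm : ℂ →+* ℂ).comp ρ = σ₀ j := eq_of_heq (Sigma.mk.inj h3).2
        have h5 : ρ = σ := by
          rw [← hτ, ← h4]
          ext x
          exact (τ.apply_symm_apply (ρ x)).symm
        rw [h5]
  rw [← h2]
  exact h1

/-- [KH5] the Lie algebras kill all Grothendieck forms; all real fields, no homomorphisms -/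
theorem thm_Kh5 (hFrm : St_Frm) (hQcq : St_Qcq) (hRpa : St_Rpa) (hLq4 : St_Lq4)
    (hLn4 : St_Ln4) {I : Type} [Fintype I] [DecidableEq I] (A : I → AbVar) {K : I → Type}
    [∀ i, Field (K i)] [∀ i, NumberField (K i)] {c : ∀ i, K i →+* K i} {m : I → ℕ}
    (S : ∀ i, (A i).KugaSatakeMul (K i) (c i) (m i)) (hg : ∀ i, (A i).g ≠ 0)
    (hAdm : ∀ i, Adm (S i)) (hI : ∀ i, c i = RingHom.id (K i))
    (hHom : ∀ i j, i ≠ j → ∀ f, (A i).IsMor (A j) f → ∀ v, f v = 0) (n : I → ℕ) :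
    KillH (fun i => pData (A i)) (fun i => lt (A i) (S i)) n := by
  intro k α hB hA i Z hZ
  classical
  have hϖ := Complex.two_pi_I_ne_zero
  have hκ : ∀ i, Nonempty (Fin (A i).g ⊕ Fin (A i).g) := fun i =>
    ⟨Sum.inl ⟨0, Nat.pos_of_ne_zero (hg i)⟩⟩
  choose σ₀ x hx hx1 hx2 using fun i => (S i).hodge
  have hnd := fun i => k3_nd (S i).conjugation (S i).hermitian (hx i)
  have MM := fun i => mde (A i) (S i) (hnd i)
  rcases Nat.eq_zero_or_pos k with rfl | hk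
  · apply MultilinearMap.ext
    intro v
    rw [actForm_apply]
    exact Finset.sum_eq_zero fun r _ => Fin.elim0 r
  have hreal : ∀ i (σ : K i →+* ℂ), cj σ = σ := by
    intro i σ
    ext y
    rw [(S i).conjugation, hI i]
    rfl
  have hxx : ∀ i, pr (S i).h (σ₀ i) (x i) (x i) = 0 := by
    intro i
    have h1 := tau_pair (MM i).conj (MM i).cliff (σ₀ i) (x i) (x i)
    rw [hreal i (σ₀ i)] at h1
    have h3 : tau (ts (lt (A i) (S i)) (σ₀ i)) (x i) * tau (ts (lt (A i) (S i)) (σ₀ i)) (x i) = 0 := by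
      apply LinearMap.ext
      intro v
      have hev : ∀ v, tau (ts (lt (A i) (S i)) (σ₀ i)) (x i) v =
          ∑ a, x i a • (S i).e (σ₀ i) a v := by
        intro v
        rw [tau_apply, LinearMap.sum_apply]
        refine Finset.sum_congr rfl fun a _ => ?_
        rw [LinearMap.smul_apply, ts_lt]
        rfl
      show tau (ts (lt (A i) (S i)) (σ₀ i)) (x i) (tau (ts (lt (A i) (S i)) (σ₀ i)) (x i) v) = 0
      rw [hev (tau (ts (lt (A i) (S i)) (σ₀ i)) (x i) v)]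
      apply hx2
      rw [hev]
      exact hx1 i v
    rw [h3, add_zero] at h1
    rcases smul_eq_zero.mp h1.symm with h4 | h4
    · simpa using h4
    · exact absurd h4 one_ne_zero
  have h35 : ∀ i, 3 ≤ m i ∧ Ok (pData (A i)) (K i) (m i) := by
    intro i
    rcases hAdm i with ⟨-, hm, h5⟩ | ⟨hc', -⟩
    · refine ⟨hm, ?_⟩
      rcases h5 with h1 | ⟨h1, B, hB, f, hf, hf0⟩
      · exact Or.inl h1
      · exact Or.inr ⟨h1, Pool.Agent.KSV.thm_Surf Pool.Agent.KT.thm_KT B (A i) hB f hf hf0⟩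
    · exact absurd (hI i) hc'
  obtain ⟨n', k', γ, hγB, hγA, hγ1, hγ2⟩ := exists_gam_allE (fun i => pData (A i)) MM n hk α hB hA
  have hfam : FamR n' (fun i => pData (A i)) (fun i => (S i).h) (fun i => lt (A i) (S i)) γ σ₀ c :=
    { pi := hϖ
      S := MM
      B := hγB
      A := hγA
      nd := fun i => hnd_pData (A i)
      real := hreal
      sig := fun i => k3_sig2 (S i).conjugation (S i).hermitian (hx i) (hreal i (σ₀ i)) (hxx i)
      defi := fun i σ hσ => k3_def (S i).conjugation (S i).hermitian (hx i) σ hσ (by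
        rw [hreal i (σ₀ i)]; exact hσ)
      T := fun X hX => (hγ1 X hX).2
      Tg := fun g hg => (hγ2 g hg).2
      ne := hκ
      m3 := fun i => (h35 i).1
      m5 := fun i => (h35 i).2 }
  have hHom' : ∀ i j, i ≠ j → ∀ f : (Fin (A i).g ⊕ Fin (A i).g → ℂ) →ₗ[ℂ]
      (Fin (A j).g ⊕ Fin (A j).g → ℂ), IsDRB (pData (A i)) (pData (A j)) f → f = 0 := by
    intro i j hij f hf
    apply LinearMap.ext
    intro v
    have h1 := (isDRB_iff (A i) (A j) f).mp hf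
    exact hHom i j hij f ⟨f.isLinear, h1.1, h1.2,
      Pool.Agent.GPC.hom_fil (A i) (A j) f f.isLinear h1.1 h1.2⟩ v
  obtain ⟨M, hM1, hM2⟩ := exists_act_of_mem (MM i).conj (MM i).herm (MM i).nd (MM i).cliff Z hZ
  obtain ⟨N, hN⟩ : ∃ N : ∀ p : PL K, Matrix (Fin (m p.1)) (Fin (m p.1)) ℂ,
      N = ∑ σ : K i →+* ℂ, Pi.single (⟨i, σ⟩ : PL K) (M σ) := ⟨_, rfl⟩
  have hNm : N ∈ RRE n' (fun i => pData (A i)) (fun i => (S i).h) (fun i => lt (A i) (S i)) γ := by
    rw [hN]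
    refine Submodule.sum_mem _ fun σ _ => ?_
    refine thm_Rs5 hFrm hQcq hRpa hLq4 hLn4 n' (fun i => pData (A i)) γ hfam hHom' ⟨i, σ⟩
      (M σ) ?_
    have h1 := hM2 σ
    rw [hreal i σ] at h1
    exact h1
  have hNi : ∀ σ : K i →+* ℂ, N ⟨i, σ⟩ = M σ := by
    intro σ
    rw [hN, Finset.sum_apply, Finset.sum_eq_single σ]
    · rw [Pi.single_eq_same]
    · intro ρ _ hρ
      rw [Pi.single_eq_of_ne]
      intro h0
      apply hρ
      have h1 : σ = ρ := by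
        simpa using h0
      exact h1.symm
    · intro h0; exact absurd (Finset.mem_univ _) h0
  have hNj : ∀ l, l ≠ i → ∀ σ : K l →+* ℂ, N ⟨l, σ⟩ = 0 := by
    intro l hl σ
    rw [hN, Finset.sum_apply]
    refine Finset.sum_eq_zero fun ρ _ => ?_
    rw [Pi.single_eq_of_ne]
    intro h0
    exact hl (congrArg Sigma.fst h0)
  obtain ⟨-, X, hX, hX2, hXN⟩ := hNm
  have h1 : X.1 = Pi.single i Z := by
    funext l
    have h2 := mem_bvE n' (fun i => pData (A i)) l (MM l) γ X hX hX2 _ (hXN l)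
    by_cases hl : l = i
    · subst hl
      rw [Pi.single_eq_same]
      refine eq_of_act (MM l).conj (MM l).herm (MM l).nd (MM l).cliff h2 hZ (hXN l) ?_
      have e : (fun σ => N ⟨l, σ⟩) = M := funext hNi
      rw [e]
      exact hM1
    · rw [Pi.single_eq_of_ne hl]
      refine eq_of_act (MM l).conj (MM l).herm (MM l).nd (MM l).cliff h2 (Submodule.zero_mem _)
        (hXN l) ?_
      have e : (fun σ => N ⟨l, σ⟩) = 0 := funext (hNj l hl)
      rw [e]
      exact ActM.zero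
  have h3 := ((hγ1 X hX).1).form
  rw [hX2, mul_zero, zero_smul, h1] at h3
  exact h3

end Pool.Agent.KTW
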