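import Pool.Agent.KTW.AllV
import Pool.Agent.KTW.Alw
import Pool.Agent.KTW.Asy
import Pool.Agent.KTW.Kh5
import Pool.Agent.KTW.Am5

/-!
# KTW: Grothendieck classes on products of K3 surfaces, Kuga-Satake varieties and elementary abelian
varieties
-/

set_option autoImplicit false

namespace Pool.Agent.KTW

open Pool.Agent.KSE Pool.Agent.K3P Pool.Agent.KTP Pool.Agent.Helper7
open Pool.Agent.GPC (AbVar ClassY ClassX IsElementary)

/-- the Lie algebras kill all Grothendieck forms, without homomorphisms -/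
def St_Kh5 : Prop := ∀ {I : Type} [Fintype I] [DecidableEq I] (A : I → AbVar) {K : I → Type}
  [∀ i, Field (K i)] [∀ i, NumberField (K i)] {c : ∀ i, K i →+* K i} {m : I → ℕ}
  (S : ∀ i, (A i).KugaSatakeMul (K i) (c i) (m i)), (∀ i, (A i).g ≠ 0) → (∀ i, Adm (S i)) →
  (∀ i, c i = RingHom.id (K i)) → (∀ i j, i ≠ j → ∀ f, (A i).IsMor (A j) f → ∀ v, f v = 0) →
  ∀ n : I → ℕ, KillH (fun i => pData (A i)) (fun i => lt (A i) (S i)) n

theorem mainW (hAby : St_Aby) (hRmu : St_Rmu) (hGsf : St_Gsf) (hAlw : St_Alw) (hKlr : St_Klr)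
    (hKh5 : St_Kh5)
    {I J : Type} [Fintype I] [Fintype J] (A : I → AbVar) (hA : ∀ i, (A i).g ≠ 0)
    (K : I → Type) [∀ i, Field (K i)] [∀ i, NumberField (K i)] (c : ∀ i, K i →+* K i) (m : I → ℕ)
    (S : ∀ i, (A i).KugaSatakeMul (K i) (c i) (m i)) (C : J → AbVar) (r n : ℕ) :
    (∀ {L : Type} [Fintype L] (D : L → AbVar), IsElementary D → (∀ j, (C j).IsQuotientOf D) →
      ((∀ i, (A i).IsQuotientOf D ∨ (S i).IsStandard D) →
        ∀ (k : I ⊕ J → ℕ) (p : ℕ) (F : ClassY K m (Sum.elim A C) r n k p),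
          F.IsGr S → F.IsHodge S) ∧
      ((∀ i, (S i).IsLargeR) →
        ∀ (l : J → ℕ) (p : ℕ) (F : ClassY K m C r n l p), F.IsGr S ↔ F.IsSum S)) ∧
    ((∀ i, (S i).IsLarge C) →
      ∀ (l : J → ℕ) (p : ℕ) (F : ClassY K m C r n l p), F.IsGr S ↔ F.IsSum S) ∧
    ((∀ i, (S i).IsAdmissible) → (Subsingleton I ∨ ∀ i, c i = RingHom.id (K i)) →
      (∀ (k : I → ℕ) (p : ℕ) (F : ClassY K m A r n k p), F.IsGr S → F.IsHodge S) ∧
      ((∀ i j, i ≠ j → ∀ f, (A i).IsMor (A j) f → ∀ v, f v = 0) →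
        ∀ F : ClassX K m r n, F.IsGr S ↔ F.IsGen c fun i => (S i).h)) := by
  classical
  have hMx : St_Mxn := thm_Mxn thm_Dsp (thm_Bet thm_Drb thm_Rtb)
  refine ⟨fun {L} _ D hD hCD => ⟨fun hI k p F hF => ?_, fun hL l p F => ?_⟩,
    fun hL l p F => ?_, fun hK hI => ⟨fun k p F hF => ?_, fun hHom => ?_⟩⟩
  · exact ⟨hF.1, fun a b v w hab hv hw => thm_Huq
      (thm_Htq (thm_Mxq (thm_Bet thm_Drb thm_Rtb)) thm_Hod thm_Hty) thm_Htu A C S hA
      (hAlw A C D S hA hD hCD hI) r n k p F hF.1 hF.2 a b v w hab hv hw⟩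
  · refine thm_Asw hMx thm_Htu thm_Tns (thm_Spn thm_Rtb) A C S hA
      (fun n => Asw_tr A C (Sum.elim (fun x : Empty => x.elim) D) (fun j v => ?_) (fun n => ?_) n)
      r n l p F
    · refine Submodule.span_mono ?_ (hCD j v)
      rintro w ⟨l, f, u, hf, rfl⟩
      exact ⟨Sum.inr l, f, u, hf, rfl⟩
    · exact thm_Kly hAby hRmu hGsf A (fun x : Empty => x.elim) D S
        (K' := fun _ : Empty => ℚ) (c' := fun x => x.elim) (m' := fun x => x.elim)
        (fun x => x.elim) hA (fun x => x.elim) hL (fun x => x.elim) (fun i x => x.elim) hD n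
  · exact (mainQ A hA K c m S C r n).2.1 hL l p F
  · rcases hI with hI | hI
    · exact ((mainQ A hA K c m S C r n).2.2 hK (Or.inl hI)).1 k p F hF
    · exact thm_Huv (thm_Mxz (thm_Bet thm_Drb thm_Rtb)) thm_Hod thm_Hty thm_Htu A S hA
        (hKlr A S hA hK hI) r n k p F hF
  · rcases hI with hI | hI
    · exact ((mainQ A hA K c m S C r n).2.2 hK (Or.inl hI)).2 hHom
    · exact fun F => thm_Am5 (thm_Inw Mix_) Wrd_ (thm_Dsu thm_Mlt) thm_Mxu (thm_Rev thm_Drb)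
        (thm_Rvd thm_Drb) A S hA (hKh5 A S hA hK hI hHom) r n F

end Pool.Agent.KTW
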