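import Pool.Agent.KTW.StU
import Pool.Agent.Helper39.AF.Proj

/-!
# KTW, module Cmf: the field generated by commuting endomorphisms
-/

set_option autoImplicit false

namespace Pool.Agent.KTW

open Module Matrix NumberField Pool.Agent.Helper7 Pool.Agent.KS Pool.Agent.Ball Pool.Agent.KSE
  Pool.Agent.Helper28.GPC Pool.Agent.K3P Pool.Agent.KTP
open Pool.Agent.GPC (AbVar)

namespace Cmfx

/-- a commutative finite-dimensional algebra without zero divisors is a field -/
theorem exists_field {E : Type} [Ring E] [Nontrivial E] [Algebra ℚ E] (S : Subalgebra ℚ E)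
    (hc : ∀ x ∈ S, ∀ y ∈ S, x * y = y * x) (h0 : ∀ x ∈ S, ∀ y ∈ S, x * y = 0 → x = 0 ∨ y = 0)
    (hf : FiniteDimensional ℚ S) :
    ∃ (L : Type) (_ : Field L) (ρ : L →+* E), Function.Injective ρ ∧
      ∀ f, (∃ x, ρ x = f) ↔ f ∈ S := by
  let i1 : CommRing S := { (inferInstance : Ring S) with
    mul_comm := fun a b => Subtype.ext (hc a.1 a.2 b.1 b.2) }
  have i2 : NoZeroDivisors S := ⟨fun {a b} h => by
    rcases h0 a.1 a.2 b.1 b.2 (congrArg Subtype.val h) with h1 | h1
    · exact Or.inl (Subtype.ext h1)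
    · exact Or.inr (Subtype.ext h1)⟩
  have i3 : IsDomain S := NoZeroDivisors.to_isDomain S
  let i4 : Algebra ℚ S := S.algebra
  have i5 : FiniteDimensional ℚ S := hf
  let i6 : Field S := fieldOfFiniteDimensional ℚ S
  refine ⟨S, i6, S.val.toRingHom, Subtype.val_injective, fun f => ?_⟩
  constructor
  · rintro ⟨x, rfl⟩
    exact x.2
  · intro h
    exact ⟨⟨f, h⟩, rfl⟩

/-- rational scalars in the endomorphism ring -/
theorem smulQ {B : AbVar} (q : ℚ) (v : B.H1) :
    (algebraMap ℚ (Module.End ℂ B.H1) q) v = (q : ℂ) • v := by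
  have h1 : (algebraMap ℚ (Module.End ℂ B.H1)) =
      (algebraMap ℂ (Module.End ℂ B.H1)).comp (algebraMap ℚ ℂ) := Subsingleton.elim _ _
  rw [h1, RingHom.comp_apply, eq_ratCast]
  rfl

variable {B : AbVar}

/-- the algebra generated by endomorphisms consists of endomorphisms -/
theorem adjoin_isEnd (D : Set (Module.End ℂ B.H1)) (hD : ∀ f ∈ D, B.IsEnd f) :
    ∀ f ∈ Algebra.adjoin ℚ D, B.IsEnd f := by
  intro f hf
  induction hf using Algebra.adjoin_induction with
  | mem x hx => exact hD x hx
  | algebraMap q =>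
    have h0 : B.IsEnd (fun v => v) :=
      ⟨⟨fun _ _ => rfl, fun _ _ => rfl⟩, fun _ h => h, fun _ h => h, fun _ h => h⟩
    have h1 := Helper39.AF.isEnd_ratSmul h0 q
    have h2 : (fun v => (q : ℂ) • v) = ((algebraMap ℚ (Module.End ℂ B.H1) q : B.H1 →ₗ[ℂ] B.H1) :
        B.H1 → B.H1) := by
      funext v
      rw [smulQ]
    rw [← h2]
    exact h1
  | add x y _ _ hx hy => exact Helper39.AF.isEnd_add hx hy
  | mul x y _ _ hx hy =>
    rw [Helper39.AF.isEnd_iff] at hx hy ⊢
    exact (Helper39.AF.isMor_comp hx hy : B.IsMor B (fun v => x (y v)))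

/-- the algebra generated by commuting elements is commutative -/
theorem adjoin_comm (D : Set (Module.End ℂ B.H1)) (hD : ∀ f ∈ D, ∀ g ∈ D, f * g = g * f) :
    ∀ x ∈ Algebra.adjoin ℚ D, ∀ y ∈ Algebra.adjoin ℚ D, x * y = y * x := by
  intro x hx y hy
  have h1 := Algebra.isMulCommutative_adjoin ℚ hD
  exact congrArg Subtype.val (h1.is_comm.comm (⟨x, hx⟩ : Algebra.adjoin ℚ D) ⟨y, hy⟩)

/-- common eigenvectors -/
theorem adjoin_eig (D : Set (Module.End ℂ B.H1)) (w : B.H1)
    (hD : ∀ f ∈ D, ∃ z : ℂ, f w = z • w) : ∀ f ∈ Algebra.adjoin ℚ D,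
    ∃ z ∈ Algebra.adjoin ℚ {z : ℂ | ∃ f ∈ D, f w = z • w}, f w = z • w := by
  intro f hf
  induction hf using Algebra.adjoin_induction with
  | mem x hx =>
    obtain ⟨z, hz⟩ := hD x hx
    exact ⟨z, Algebra.subset_adjoin ⟨x, hx, hz⟩, hz⟩
  | algebraMap q =>
    refine ⟨algebraMap ℚ ℂ q, Subalgebra.algebraMap_mem _ q, ?_⟩
    rw [smulQ, eq_ratCast]
  | add x y _ _ hx hy =>
    obtain ⟨a, ha, ha'⟩ := hx
    obtain ⟨b, hb, hb'⟩ := hy
    exact ⟨a + b, add_mem ha hb, by rw [LinearMap.add_apply, ha', hb', add_smul]⟩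
  | mul x y _ _ hx hy =>
    obtain ⟨a, ha, ha'⟩ := hx
    obtain ⟨b, hb, hb'⟩ := hy
    refine ⟨a * b, mul_mem ha hb, ?_⟩
    change x (y w) = _
    rw [hb', map_smul, ha', smul_smul, mul_comm]

/-- the dimension of the rational structure -/
theorem finrank_Q (B : AbVar) : FiniteDimensional ℚ (pData B).Q ∧
    finrank ℚ (pData B).Q = 2 * B.g := by
  have h1 : LinearIndependent ℚ (pData B).bB := (pData B).bB.linearIndependent.restrict_scalars
    (R := ℚ) (fun a b h => by simpa [Algebra.smul_def] using h)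
  have h2 : Fintype.card (pData B).ι = 2 * B.g := by
    have h3 := Module.finrank_eq_card_basis (pData B).bB
    rw [Module.finrank_fintype_fun_eq_card, Fintype.card_sum, Fintype.card_fin] at h3
    omega
  refine ⟨?_, ?_⟩
  · exact FiniteDimensional.span_of_finite ℚ (Set.finite_range _)
  · change finrank ℚ (Submodule.span ℚ (Set.range (pData B).bB)) = _
    rw [finrank_span_eq_card h1, h2]

end Cmfx

open Cmfx in
theorem thm_Cmf : St_Cmf := by
  classical
  intro B hg hs D hD hDc w hw hDw
  obtain ⟨hfin, hfr⟩ := finrank_Q B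
  have hEnd := adjoin_isEnd D hD
  have hcomm := adjoin_comm D hDc
  have heig := adjoin_eig D w hDw
  -- a rational vector
  obtain ⟨i0⟩ : Nonempty (pData B).ι := by
    by_contra h
    rw [not_nonempty_iff] at h
    have h3 := Module.finrank_eq_card_basis (pData B).bB
    rw [Module.finrank_fintype_fun_eq_card, Fintype.card_sum, Fintype.card_fin,
      Fintype.card_eq_zero] at h3
    omega
  let w₀ : B.H1 := (pData B).bB i0
  have hw₀ : w₀ ∈ (pData B).Q := (pData B).basis_mem i0
  have hw₀ne : w₀ ≠ 0 := (pData B).bB.ne_zero i0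
  have hinj : ∀ f ∈ Algebra.adjoin ℚ D, f ≠ 0 → Function.Injective f := by
    intro f hf hf0
    refine hs f (hEnd f hf) ?_
    by_contra h
    push Not at h
    exact hf0 (LinearMap.ext h)
  have hQ : ∀ f ∈ Algebra.adjoin ℚ D, ∀ v ∈ (pData B).Q, f v ∈ (pData B).Q := by
    intro f hf v hv
    rw [mem_pData_Q] at hv ⊢
    exact (hEnd f hf).betti v hv
  have : Nontrivial (Module.End ℂ B.H1) := by
    refine ⟨⟨1, 0, fun h => hw ?_⟩⟩
    have h1 := LinearMap.congr_fun h w
    exact h1
  have hSfin : FiniteDimensional ℚ (Algebra.adjoin ℚ D) := by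
    let ev : Algebra.adjoin ℚ D →ₗ[ℚ] (pData B).Q :=
      { toFun := fun x => ⟨x.1 w₀, hQ x.1 x.2 w₀ hw₀⟩
        map_add' := fun x y => rfl
        map_smul' := fun q x => rfl }
    refine Module.Finite.of_injective ev ?_
    rw [injective_iff_map_eq_zero]
    intro x hx
    by_contra hx0
    have h1 : x.1 w₀ = 0 := congrArg Subtype.val hx
    have h2 := hinj x.1 x.2 (fun h => hx0 (Subtype.ext h))
    exact hw₀ne (h2 (by rw [h1, map_zero]))
  obtain ⟨L, iL, ρ, hρi, hρ⟩ := exists_field (Algebra.adjoin ℚ D) hcomm (by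
    intro x hx y hy hxy
    by_contra h
    push Not at h
    apply h.2
    apply LinearMap.ext
    intro v
    have h1 : x (y v) = 0 := LinearMap.congr_fun hxy v
    exact hinj x hx h.1 (by rw [h1]; exact (map_zero x).symm)) hSfin
  have hρS : ∀ x, ρ x ∈ Algebra.adjoin ℚ D := fun x => (hρ _).1 ⟨x, rfl⟩
  have hρQ : ∀ x, ∀ v ∈ (pData B).Q, ρ x v ∈ (pData B).Q := fun x => hQ _ (hρS x)
  have hρinj : ∀ x, x ≠ 0 → Function.Injective (ρ x) := by
    intro x hx
    refine hinj _ (hρS x) fun h => hx (hρi ?_)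
    rw [h, map_zero]
  have : CharZero (Module.End ℂ B.H1) := algebraRat.charZero _
  have : CharZero L := RingHom.charZero ρ
  let evL : L →+ (pData B).Q :=
    { toFun := fun x => ⟨ρ x w₀, hρQ x w₀ hw₀⟩
      map_zero' := Subtype.ext (by
        change ρ 0 w₀ = 0
        rw [map_zero]
        rfl)
      map_add' := fun x y => Subtype.ext (by
        change ρ (x + y) w₀ = ρ x w₀ + ρ y w₀
        rw [map_add]
        rfl) }
  have hevi : Function.Injective evL := by
    rw [injective_iff_map_eq_zero]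
    intro x hx
    by_contra hx0
    have h1 : ρ x w₀ = 0 := congrArg Subtype.val hx
    exact hw₀ne (hρinj x hx0 (by rw [h1, map_zero]))
  have : FiniteDimensional ℚ L := Module.Finite.of_injective evL.toRatLinearMap hevi
  have : NumberField L := {}
  -- the eigenvalue
  choose χ0 hχ1 hχ2 using fun x : L => heig (ρ x) (hρS x)
  have huni : ∀ a b : ℂ, a • w = b • w → a = b := fun a b h => smul_left_injective ℂ hw h
  let χ : L →+* ℂ :=
    { toFun := χ0
      map_one' := huni _ _ (by rw [← hχ2, map_one, one_smul]; rfl)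
      map_mul' := fun x y => huni _ _ (by
        rw [← hχ2, map_mul]
        change ρ x (ρ y w) = _
        rw [hχ2 y, map_smul, hχ2 x, smul_smul, mul_comm])
      map_zero' := huni _ _ (by rw [← hχ2, map_zero, zero_smul]; rfl)
      map_add' := fun x y => huni _ _ (by
        rw [← hχ2, map_add, LinearMap.add_apply, hχ2, hχ2, add_smul]) }
  refine ⟨L, iL, inferInstance, ρ, χ, fun x => hEnd _ (hρS x),
    fun f hf => (hρ f).2 (Algebra.subset_adjoin hf), hχ2, hχ1, ?_, ?_⟩
  · rw [eq_top_iff]
    intro v _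
    have h1 : v = ∑ σ : L →+* ℂ, proj ρ σ v := by
      have h2 := LinearMap.congr_fun (sum_proj ρ) v
      rw [LinearMap.sum_apply] at h2
      exact h2.symm
    rw [h1]
    refine Submodule.sum_mem _ fun σ _ => Submodule.subset_span ⟨σ, fun x => ?_⟩
    have h3 := LinearMap.congr_fun (rho_mul_proj ρ x σ) v
    exact h3
  · intro hyp
    let mod : Module L (pData B).Q :=
      { smul := fun x q => ⟨ρ x q.1, hρQ x q.1 q.2⟩
        one_smul := fun q => Subtype.ext (by
          change ρ 1 q.1 = _
          rw [map_one]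
          rfl)
        mul_smul := fun x y q => Subtype.ext (by
          change ρ (x * y) q.1 = ρ x (ρ y q.1)
          rw [map_mul]
          rfl)
        smul_zero := fun x => Subtype.ext (map_zero (ρ x))
        smul_add := fun x a b => Subtype.ext (map_add (ρ x) a.1 b.1)
        add_smul := fun x y q => Subtype.ext (by
          change ρ (x + y) q.1 = ρ x q.1 + ρ y q.1
          rw [map_add]
          rfl)
        zero_smul := fun q => Subtype.ext (by
          change ρ 0 q.1 = 0
          rw [map_zero]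
          rfl) }
    have hsm : ∀ (x : L) (q : (pData B).Q), ((x • q : (pData B).Q) : B.H1) = ρ x q.1 :=
      fun _ _ => rfl
    have hspan : Submodule.span L {(⟨w₀, hw₀⟩ : (pData B).Q)} = ⊤ := by
      by_contra hne
      obtain ⟨f, hf0, hf⟩ := Submodule.exists_le_ker_of_lt_top _ (lt_top_iff_ne_top.2 hne)
      let G : Module.End ℂ B.H1 := (pData B).bB.constr ℂ
        (fun i => ρ (f ⟨(pData B).bB i, (pData B).basis_mem i⟩) w₀)
      have hG : ∀ v (hv : v ∈ (pData B).Q), G v = ρ (f ⟨v, hv⟩) w₀ := by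
        intro v hv
        have hv' : v ∈ Submodule.span ℚ (Set.range (pData B).bB) := hv
        have h0 : ∀ hv : v ∈ (pData B).Q, G v = ρ (f ⟨v, hv⟩) w₀ := by
          induction hv' using Submodule.span_induction with
          | mem x hx =>
            obtain ⟨i, rfl⟩ := hx
            intro hv
            exact (pData B).bB.constr_basis ℂ _ i
          | zero =>
            intro hv
            have h1 : f ⟨0, hv⟩ = 0 := map_zero f
            rw [h1, map_zero, map_zero]
            rfl
          | add x y hx hy hx' hy' =>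
            intro hv
            have h1 : f ⟨x + y, hv⟩ = f ⟨x, hx⟩ + f ⟨y, hy⟩ := map_add f ⟨x, hx⟩ ⟨y, hy⟩
            rw [h1, map_add, map_add, hx' hx, hy' hy]
            rfl
          | smul q x hx hx' =>
            intro hv
            have h1 : f ⟨q • x, hv⟩ = q • f ⟨x, hx⟩ :=
              map_rat_smul f q (⟨x, hx⟩ : (pData B).Q)
            rw [h1, map_rat_smul ρ, map_rat_smul G, hx' hx]
            rfl
        exact h0 hv
      have hGB : ∀ v, B.IsBetti v → B.IsBetti (G v) := by
        intro v hv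
        rw [← mem_pData_Q] at hv ⊢
        rw [hG v hv]
        exact hρQ _ _ hw₀
      have hGc : ∀ x, G * ρ x = ρ x * G := by
        intro x
        refine (pData B).bB.ext fun i => ?_
        change G (ρ x ((pData B).bB i)) = ρ x (G ((pData B).bB i))
        have hi := (pData B).basis_mem i
        rw [hG _ (hρQ x _ hi), hG _ hi]
        have h1 : f ⟨ρ x ((pData B).bB i), hρQ x _ hi⟩ = x * f ⟨(pData B).bB i, hi⟩ :=
          map_smul f x ⟨(pData B).bB i, hi⟩
        rw [h1, map_mul]
        rfl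
      have hE := hyp G hGB hGc
      have hGw : G w₀ = 0 := by
        rw [hG w₀ hw₀]
        have h1 : f ⟨w₀, hw₀⟩ = 0 := hf (Submodule.mem_span_singleton_self _)
        rw [h1, map_zero]
        rfl
      obtain ⟨q, hq⟩ : ∃ q, f q ≠ 0 := by
        by_contra h
        push Not at h
        exact hf0 (LinearMap.ext h)
      have hGq : G q.1 ≠ 0 := by
        rw [hG q.1 q.2]
        intro h
        exact hw₀ne (hρinj _ hq (by rw [map_zero]; exact h))
      exact hw₀ne (hs G hE ⟨q.1, hGq⟩ (by rw [hGw, map_zero]))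
    have hevs : Function.Surjective evL := by
      intro q
      have h1 : q ∈ Submodule.span L {(⟨w₀, hw₀⟩ : (pData B).Q)} := by
        rw [hspan]
        exact Submodule.mem_top
      obtain ⟨x, hx⟩ := Submodule.mem_span_singleton.1 h1
      exact ⟨x, hx⟩
    have h2 := LinearEquiv.finrank_eq (LinearEquiv.ofBijective evL.toRatLinearMap ⟨hevi, hevs⟩)
    rw [h2, hfr]

end Pool.Agent.KTW
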