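import Pool.Agent.KTW.StU
import Pool.Agent.Helper39.AF.Decomp
import Pool.Agent.Helper84.AutC

/-!
# KTW CMP: the CM part comes from simple abelian varieties with CM by abelian fields

`thm_Cmp (hCmf : St_Cmf) (hDel : St_Del) (hEva : St_Eva) (hEvb : St_Evb) : St_Cmp`.
-/

set_option autoImplicit false

namespace Pool.Agent.KTW

open Module Matrix NumberField Pool.Agent.Helper7 Pool.Agent.KS Pool.Agent.Ball Pool.Agent.KSE
  Pool.Agent.Helper28.GPC Pool.Agent.K3P Pool.Agent.KTP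
open Pool.Agent.GPC (AbVar)

namespace Cmpx

section types

variable {K : Type} [Field K] [NumberField K]

lemma exists_typ (hcm : ∀ σ : K →+* ℂ, cj σ ≠ σ) : ∃ Φ : Set (K →+* ℂ), IsTyp Φ := by
  classical
  let e := Fintype.equivFin (K →+* ℂ)
  refine ⟨{σ | e σ < e (cj σ)}, fun σ => ?_⟩
  show e σ < e (cj σ) ↔ ¬ (e (cj σ) < e (cj (cj σ)))
  rw [KSE.cj_cj, not_lt]
  constructor
  · exact le_of_lt
  · intro h
    exact lt_of_le_of_ne h fun h' => hcm σ (e.injective h').symm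

lemma exists_typ_kill (hcm : ∀ σ : K →+* ℂ, cj σ ≠ σ) (k : (K →+* ℂ) → Prop)
    (hk : ∀ σ, k σ ∨ k (cj σ)) : ∃ Ψ : Set (K →+* ℂ), IsTyp Ψ ∧ ∀ σ ∈ Ψ, k σ := by
  classical
  obtain ⟨Φ, hΦ⟩ := exists_typ hcm
  refine ⟨{σ | (σ ∈ Φ ∧ k σ) ∨ (σ ∉ Φ ∧ ¬ k (cj σ))}, fun σ => ?_, fun σ hσ => ?_⟩
  · have h1 := hΦ σ
    show ((σ ∈ Φ ∧ k σ) ∨ (σ ∉ Φ ∧ ¬ k (cj σ))) ↔
      ¬ ((cj σ ∈ Φ ∧ k (cj σ)) ∨ (cj σ ∉ Φ ∧ ¬ k (cj (cj σ))))
    rw [KSE.cj_cj]
    tauto
  · rcases hσ with ⟨_, h⟩ | ⟨_, h⟩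
    · exact h
    · exact (hk σ).resolve_right h

/-- the action of `Aut ℂ` on the embeddings -/
def twE (τ : ℂ ≃+* ℂ) : (K →+* ℂ) ≃ (K →+* ℂ) where
  toFun σ := (τ : ℂ →+* ℂ).comp σ
  invFun σ := (τ.symm : ℂ →+* ℂ).comp σ
  left_inv σ := by
    ext x
    show τ.symm (τ (σ x)) = σ x
    exact τ.symm_apply_apply _
  right_inv σ := by
    ext x
    show τ (τ.symm (σ x)) = σ x
    exact τ.apply_symm_apply _

/-- the twist of a type -/
def twT (τ : ℂ ≃+* ℂ) (Ψ : Set (K →+* ℂ)) : Set (K →+* ℂ) := {σ | (twE τ).symm σ ∈ Ψ}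

lemma isTyp_twT {c : K →+* K} (hconj : ∀ (σ : K →+* ℂ) (x : K), cj σ x = σ (c x)) (τ : ℂ ≃+* ℂ)
    {Ψ : Set (K →+* ℂ)} (hΨ : IsTyp Ψ) : IsTyp (twT τ Ψ) := by
  intro σ
  have h1 : cj ((twE τ).symm σ) = (twE τ).symm (cj σ) := by
    ext x
    rw [hconj]
    show τ.symm (σ (c x)) = τ.symm (cj σ x)
    rw [hconj]
  show (twE τ).symm σ ∈ Ψ ↔ ¬ ((twE τ).symm (cj σ) ∈ Ψ)
  rw [← h1]
  exact hΨ _

/-- the eigenvalue of the operator of `x` -/
noncomputable def lam (m : ℕ) (Ψ : Set (K →+* ℂ)) (x : K) : ℂ :=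
  ∑ σ : K →+* ℂ, (σ x * m) * sg 1 Ψ σ

lemma sg_twT (τ : ℂ ≃+* ℂ) (Ψ : Set (K →+* ℂ)) (σ : K →+* ℂ) :
    sg 1 (twT τ Ψ) (twE τ σ) = τ (sg 1 Ψ σ) := by
  classical
  have h1 : twE τ σ ∈ twT τ Ψ ↔ σ ∈ Ψ := by
    show (twE τ).symm (twE τ σ) ∈ Ψ ↔ _
    rw [Equiv.symm_apply_apply]
  have h2 : τ (((1 : ℕ) : ℂ) / 4) = ((1 : ℕ) : ℂ) / 4 := by
    rw [map_div₀, map_natCast, map_ofNat]
  unfold sg
  by_cases h : σ ∈ Ψ
  · rw [if_pos (h1.mpr h), if_pos h, h2]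
  · rw [if_neg (fun h' => h (h1.mp h')), if_neg h, map_neg, h2]

lemma lam_twT (m : ℕ) (τ : ℂ ≃+* ℂ) (Ψ : Set (K →+* ℂ)) (x : K) :
    lam m (twT τ Ψ) x = τ (lam m Ψ x) := by
  unfold lam
  rw [map_sum, ← Equiv.sum_comp (twE τ)]
  refine Finset.sum_congr rfl fun σ _ => ?_
  rw [sg_twT, map_mul, map_mul, map_natCast]
  rfl

lemma sg_mul (m : ℕ) (Ψ : Set (K →+* ℂ)) (σ : K →+* ℂ) : sg m Ψ σ = m * sg 1 Ψ σ := by
  classical
  unfold sg
  split_ifs
  · push_cast; ring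
  · push_cast; ring

end types

section av

variable {A : AbVar} {K : Type} [Field K] [NumberField K] {c : K →+* K} {m : ℕ}
  {h : Matrix (Fin m) (Fin m) K} {t : Fin m → K → Module.End ℂ A.H1}
  (M : MD (pData A) c h t)

include M in
lemma cc (x : K) (σ₀ : K →+* ℂ) : c (c x) = x := by
  apply σ₀.injective
  rw [← M.conj, ← M.conj, KSE.cj_cj]

include M in
lemma cen_comm {Z : Module.End ℂ A.H1} (hZ : Z ∈ bvS t) {f : Module.End ℂ A.H1}
    (hf : IsDRB (pData A) (pData A) f) (v : A.H1) : Z (f v) = f (Z v) := by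
  have h1 := KSE.BvE.comm_bvS hZ f ((M.cent f).mp hf).2
  exact LinearMap.congr_fun h1 v

include M in
lemma cen_unique {Z Z' : Module.End ℂ A.H1} {z : (K →+* ℂ) → ℂ} (h1 : IsCen t Z z)
    (h2 : IsCen t Z' z) : Z = Z' :=
  eq_of_act M.conj M.herm M.nd M.cliff h1.1 h2.1 h1.2 h2.2

include M in
lemma cen_scalar [Nontrivial A.H1] (hm : m ≠ 0) {Z : Module.End ℂ A.H1} {z z' : (K →+* ℂ) → ℂ}
    (h1 : IsCen t Z z) (h2 : IsCen t Z z') (σ : K →+* ℂ) : z σ = z' σ := by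
  have h3 := ActM.unique M.conj M.cliff M.nd h1.2 h2.2
  have h4 := congrFun (congrFun (congrFun h3 σ) ⟨0, Nat.pos_of_ne_zero hm⟩) ⟨0, Nat.pos_of_ne_zero hm⟩
  simpa [Matrix.smul_apply] using h4

lemma cen_sum {ι : Type} [Fintype ι] {δ : ι → Module.End ℂ A.H1} {z : ι → (K →+* ℂ) → ℂ}
    (d : ι → ℂ) (h1 : ∀ k, IsCen t (δ k) (z k)) :
    IsCen t (∑ k, d k • δ k) (fun σ => ∑ k, d k * z k σ) := by
  refine ⟨Submodule.sum_mem _ fun k _ => Submodule.smul_mem _ _ (h1 k).1, fun σ x => ?_⟩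
  have h2 := fun k => (h1 k).2 σ x
  rw [Finset.sum_mul, Finset.mul_sum, ← Finset.sum_sub_distrib]
  have h3 : ∀ k, d k • δ k * tau (ts t σ) x - tau (ts t σ) x * d k • δ k =
      tau (ts t σ) ((d k * z k σ) • x) := by
    intro k
    rw [smul_mul_assoc, mul_smul_comm]
    have h5 : d k • (δ k * tau (ts t σ) x) - d k • (tau (ts t σ) x * δ k) =
        d k • (δ k * tau (ts t σ) x - tau (ts t σ) x * δ k) :=
      (smul_sub (d k) (δ k * tau (ts t σ) x) (tau (ts t σ) x * δ k)).symm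
    rw [h5, h2 k, ← map_smul]
    congr 1
    rw [Matrix.smul_mulVec, Matrix.one_mulVec, smul_smul]
  rw [Finset.sum_congr rfl fun k _ => h3 k, ← map_sum, ← Finset.sum_smul]
  congr 1
  rw [Matrix.smul_mulVec, Matrix.one_mulVec]

end av

section main

variable {A : AbVar} {K : Type} [Field K] [NumberField K] {c : K →+* K} {m : ℕ}
  {h : Matrix (Fin m) (Fin m) K} {t : Fin m → K → Module.End ℂ A.H1}
  (M : MD (pData A) c h t) (hcm : ∀ σ : K →+* ℂ, cj σ ≠ σ) (hm : m ≠ 0)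

include M hcm in
lemma cmr : CMR c h t := ⟨M.conj, hcm, M.herm, M.nd, M.cliff⟩

include M hcm in
/-- the eigenvalue at a vacuum vector -/
lemma cen_vac (hEvb : St_Evb) {Ψ : Set (K →+* ℂ)} (hΨ : IsTyp Ψ) {v : A.H1} (hv : IsVac t Ψ v)
    {δ : Module.End ℂ A.H1} {z : (K →+* ℂ) → ℂ} (hδ : IsCen t δ z) :
    δ v = (∑ σ, (z σ * m) * sg 1 Ψ σ) • v := by
  have h1 := (hEvb A.H1 K c m h t (cmr M hcm) Ψ hΨ).2.1 v hv δ _ hδ.1 hδ.2
  rw [h1]
  congr 1
  refine Finset.sum_congr rfl fun σ _ => ?_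
  rw [Matrix.trace_smul, Matrix.trace_one, Fintype.card_fin, smul_eq_mul]

include M hcm hm in
theorem factor [Nontrivial A.H1] [IsAbelianGalois ℚ K] (hCmf : St_Cmf) (hDel : St_Del)
    (hEvb : St_Evb) (B : AbVar) (hB0 : B.g ≠ 0) (hBs : B.IsSimple) (p : A.H1 →ₗ[ℂ] B.H1)
    (q : B.H1 →ₗ[ℂ] A.H1) (hp : A.IsMor B p) (hq : B.IsMor A q) (hpq : ∀ u, p (q u) = u)
    {Ψ : Set (K →+* ℂ)} (hΨ : IsTyp Ψ) {v : A.H1} (hv : IsVac t Ψ v) (hpv : p v ≠ 0) :
    ∃ (L : Type) (_ : Field L) (_ : NumberField L) (ρ : L → B.H1 → B.H1),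
      B.HasCM L ρ ∧ IsAbelianGalois ℚ L := by
  classical
  obtain ⟨hDel1, hDel2⟩ := hDel _ _ (pData A) K c m h t M hcm
  have hqp0 : A.IsMor A (fun v => q (p v)) := Helper39.AF.isMor_comp hq hp
  have hqp : IsDRB (pData A) (pData A) (q ∘ₗ p) :=
    isDRB_of_isEnd A _ ((Helper39.AF.isEnd_iff A _).mpr hqp0)
  have hcomm : ∀ {δ : Module.End ℂ A.H1}, δ ∈ bvS t → ∀ u, δ (q (p u)) = q (p (δ u)) :=
    fun hδ u => cen_comm M hδ hqp u
  set D : Set (Module.End ℂ B.H1) := {f | ∃ (x : K) (δ : Module.End ℂ A.H1), c x = -x ∧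
    IsCen t δ (fun σ => σ x) ∧ IsDRB (pData A) (pData A) δ ∧ f = p ∘ₗ δ ∘ₗ q} with hD
  have hD1 : ∀ f ∈ D, B.IsEnd f := by
    rintro f ⟨x, δ, hx, hδ, hδ', rfl⟩
    have e1 := (Helper39.AF.isEnd_iff A _).mp (isEnd_of_isDRB A δ hδ')
    have e2 : B.IsMor A (fun u => δ (q u)) := Helper39.AF.isMor_comp e1 hq
    have e3 : B.IsMor B (fun u => p (δ (q u))) := Helper39.AF.isMor_comp hp e2
    exact (Helper39.AF.isEnd_iff B _).mpr e3
  have hD2 : ∀ f ∈ D, ∀ g ∈ D, f * g = g * f := by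
    rintro f ⟨x, δ, hx, hδ, hδ', rfl⟩ g ⟨y, ε, hy, hε, hε', rfl⟩
    apply LinearMap.ext
    intro u
    show p (δ (q (p (ε (q u))))) = p (ε (q (p (δ (q u)))))
    rw [hcomm hδ.1, hcomm hε.1, hpq, hpq, cen_comm M hδ.1 hε']
  have hval : ∀ (x : K) (δ : Module.End ℂ A.H1), IsCen t δ (fun σ => σ x) →
      p (δ (q (p v))) = lam m Ψ x • p v := by
    intro x δ hδ
    rw [hcomm hδ.1, hpq, cen_vac M hcm hEvb hΨ hv hδ, map_smul]
    rfl
  have hD3 : ∀ f ∈ D, ∃ z : ℂ, f (p v) = z • p v := by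
    rintro f ⟨x, δ, hx, hδ, hδ', rfl⟩
    exact ⟨lam m Ψ x, hval x δ hδ⟩
  obtain ⟨L, _, _, ρ, χ, hρ1, hρ2, hρ3, hρ4, hρ5, hρ6⟩ := hCmf B hB0 hBs D hD1 hD2 (p v) hpv hD3
  -- the eigenvectors of `L`
  have key : ∀ (χ' : L →+* ℂ) (σ : K →+* ℂ) (a b : Fin m), ∃ s : ℂ, ∀ u : B.H1,
      (∀ x, ρ x u = χ' x • u) → p (ts t σ a (ts t (cj σ) b (q u))) = s • u := by
    intro χ' σ a b
    obtain ⟨τ, hτ⟩ := Helper84.exists_aut χ χ'
    have hΨ' : IsTyp (twT τ Ψ) := isTyp_twT M.conj τ hΨ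
    have hvac : ∀ u : B.H1, (∀ x, ρ x u = χ' x • u) → IsVac t (twT τ Ψ) (q u) := by
      intro u hu
      have hδu : ∀ (x : K) (δ : Module.End ℂ A.H1), c x = -x → IsCen t δ (fun σ => σ x) →
          δ (q u) = lam m (twT τ Ψ) x • q u := by
        intro x δ' hx hδ'
        obtain ⟨δ, hδ, hδr⟩ := hDel1 x hx
        have e0 : δ' = δ := cen_unique M hδ' hδ
        subst e0
        have hf : (p ∘ₗ δ' ∘ₗ q : Module.End ℂ B.H1) ∈ D := ⟨x, δ', hx, hδ', hδr, rfl⟩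
        obtain ⟨y, hy⟩ := hρ2 _ hf
        have e1 : χ y = lam m Ψ x := by
          have e2 := hρ3 y
          rw [hy] at e2
          have e3 : p (δ' (q (p v))) = χ y • p v := e2
          rw [hval x δ' hδ'] at e3
          have e4 : (lam m Ψ x - χ y) • p v = 0 := by rw [sub_smul, e3, sub_self]
          rcases smul_eq_zero.mp e4 with e5 | e5
          · exact (sub_eq_zero.mp e5).symm
          · exact absurd e5 hpv
        have e2 : p (δ' (q u)) = χ' y • u := by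
          have e3 := hu y
          rw [hy] at e3
          exact e3
        have e3 : χ' y = lam m (twT τ Ψ) x := by
          rw [lam_twT, ← e1, ← hτ]
          rfl
        have e4 := hcomm hδ'.1 (q u)
        rw [hpq, e2, e3, map_smul] at e4
        exact e4
      refine (hEvb A.H1 K c m h t (cmr M hcm) _ hΨ').2.2 (q u) ?_
      intro Z z hZ
      obtain ⟨d, δ, hδ, rfl⟩ := hDel2 Z z hZ
      have e1 : ∀ k, c (bas K k - c (bas K k)) = -(bas K k - c (bas K k)) := by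
        intro k
        rw [map_sub, cc M _ σ]
        ring
      have e2 := cen_sum d hδ
      have e3 : ∀ σ', z σ' = ∑ k, d k * σ' (bas K k - c (bas K k)) :=
        fun σ' => cen_scalar M hm hZ e2 σ'
      rw [LinearMap.sum_apply]
      have e4 : ∀ k, (d k • δ k) (q u) =
          (d k * lam m (twT τ Ψ) (bas K k - c (bas K k))) • q u := by
        intro k
        rw [LinearMap.smul_apply, hδu _ _ (e1 k) (hδ k), smul_smul]
      rw [Finset.sum_congr rfl fun k _ => e4 k, ← Finset.sum_smul]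
      congr 1
      have e5 : ∀ k, d k * lam m (twT τ Ψ) (bas K k - c (bas K k)) =
          ∑ σ' : K →+* ℂ, (d k * σ' (bas K k - c (bas K k))) * sg m (twT τ Ψ) σ' := by
        intro k
        rw [lam, Finset.mul_sum]
        refine Finset.sum_congr rfl fun σ' _ => ?_
        rw [sg_mul m]
        ring
      rw [Finset.sum_congr rfl fun k _ => e5 k, Finset.sum_comm]
      refine Finset.sum_congr rfl fun σ' _ => ?_
      rw [← Finset.sum_mul, ← e3]
    by_cases hσ : σ ∈ twT τ Ψ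
    · refine ⟨2 * σ (h a b), fun u hu => ?_⟩
      have e1 := LinearMap.congr_fun (ts_pair M.conj M.cliff σ a b) (q u)
      have e2 : ts t σ a (ts t (cj σ) b (q u)) + ts t (cj σ) b (ts t σ a (q u)) =
          (2 * σ (h a b)) • q u := e1
      rw [hvac u hu σ hσ a, map_zero, add_zero] at e2
      rw [e2, map_smul, hpq]
    · refine ⟨0, fun u hu => ?_⟩
      have hσ' : cj σ ∈ twT τ Ψ := by
        by_contra hno
        exact hσ ((hΨ' σ).mpr hno)
      rw [hvac u hu (cj σ) hσ' b, map_zero, map_zero, zero_smul]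
  -- commuting operators are endomorphisms
  have hend : ∀ g : Module.End ℂ B.H1, (∀ u, B.IsBetti u → B.IsBetti (g u)) →
      (∀ x, g * ρ x = ρ x * g) → B.IsEnd g := by
    intro g hg1 hg2
    have hX : ∀ (σ : K →+* ℂ) (a b : Fin m) (u : B.H1),
        g (p (ts t σ a (ts t (cj σ) b (q u)))) = p (ts t σ a (ts t (cj σ) b (q (g u)))) := by
      intro σ a b u
      have hu : u ∈ Submodule.span ℂ {u : B.H1 | ∃ χ' : L →+* ℂ, ∀ x, ρ x u = χ' x • u} := by
        rw [hρ5]; exact Submodule.mem_top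
      induction hu using Submodule.span_induction with
      | mem u hu =>
        obtain ⟨χ', hχ'⟩ := hu
        obtain ⟨s, hs⟩ := key χ' σ a b
        have e1 : ∀ x, ρ x (g u) = χ' x • g u := by
          intro x
          have e2 := LinearMap.congr_fun (hg2 x) u
          have e3 : g (ρ x u) = ρ x (g u) := e2
          rw [← e3, hχ' x, map_smul]
        rw [hs u hχ', hs (g u) e1, map_smul]
      | zero => simp only [map_zero]
      | add u w _ _ hu hw => simp only [map_add, hu, hw]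
      | smul r u _ hu => simp only [map_smul, hu]
    have hqpX : ∀ (σ : K →+* ℂ) (a b : Fin m) (w : A.H1),
        q (p (ts t σ a (ts t (cj σ) b w))) = ts t σ a (ts t (cj σ) b (q (p w))) := by
      intro σ a b w
      exact LinearMap.congr_fun (((M.cent _).mp hqp).2 σ a b) w
    have hqgp : IsDRB (pData A) (pData A) (q ∘ₗ g ∘ₗ p) := by
      rw [M.cent]
      refine ⟨fun w hw => ?_, fun σ a b => ?_⟩
      · rw [mem_pData_Q] at hw ⊢
        exact hq.betti _ (hg1 _ (hp.betti _ hw))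
      · apply LinearMap.ext
        intro w
        show q (g (p (ts t σ a (ts t (cj σ) b w)))) = ts t σ a (ts t (cj σ) b (q (g (p w))))
        have e1 : p (ts t σ a (ts t (cj σ) b w)) = p (ts t σ a (ts t (cj σ) b (q (p w)))) := by
          rw [← hqpX, hpq]
        rw [e1, hX, hqpX, hpq]
    have e1 := (Helper39.AF.isEnd_iff A _).mp (isEnd_of_isDRB A _ hqgp)
    have e0 : B.IsMor A (fun u => (q ∘ₗ g ∘ₗ p) (q u)) := Helper39.AF.isMor_comp e1 hq
    have e2 : B.IsMor B (fun u => p ((q ∘ₗ g ∘ₗ p) (q u))) := Helper39.AF.isMor_comp hp e0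
    have e3 : (fun u => p ((q ∘ₗ g ∘ₗ p) (q u))) = g := by
      funext u
      show p (q (g (p (q u)))) = g u
      rw [hpq, hpq]
    rw [e3] at e2
    exact (Helper39.AF.isEnd_iff B _).mpr e2
  -- the field is abelian
  have hdeg := hρ6 hend
  refine ⟨L, ‹_›, ‹_›, fun x => ρ x, ⟨hdeg, fun u => ?_, fun x y u => ?_, fun x y u => ?_, hρ1⟩, ?_⟩
  · rw [map_one]; rfl
  · rw [map_mul]; rfl
  · rw [map_add]; rfl
  obtain ⟨σ₀⟩ : Nonempty (K →+* ℂ) := inferInstance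
  have hgal : ∀ (σ : K →+* ℂ) (x : K), ∃ y, σ₀ y = σ x := by
    intro σ x
    obtain ⟨s, hs⟩ := ComplexEmbedding.exists_comp_symm_eq_of_comp_eq (k := ℚ) σ₀ σ
      (Subsingleton.elim _ _)
    exact ⟨s.symm x, RingHom.congr_fun hs x⟩
  let σa : K →ₐ[ℚ] ℂ := σ₀.toRatAlgHom
  have hσa : ∀ x, σa x = σ₀ x := fun _ => rfl
  have hlam : ∀ x, lam m Ψ x ∈ σa.range := by
    intro x
    unfold lam
    refine Subalgebra.sum_mem _ fun σ _ => ?_
    obtain ⟨y, hy⟩ := hgal σ x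
    have e1 : ∀ r : ℚ, (r : ℂ) ∈ σa.range := fun r => ⟨(r : K), by
      show σa (r : K) = (r : ℂ)
      rw [map_ratCast]⟩
    refine Subalgebra.mul_mem _ (Subalgebra.mul_mem _ ⟨y, hy⟩ ?_) ?_
    · have e2 := e1 (m : ℚ)
      rwa [Rat.cast_natCast] at e2
    · unfold sg
      split_ifs
      · have e2 := e1 ((1 : ℚ) / 4)
        push_cast at e2 ⊢
        exact e2
      · have e2 := e1 (-((1 : ℚ) / 4))
        push_cast at e2 ⊢
        exact e2
  have hχ : ∀ x, χ x ∈ σa.range := by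
    intro x
    refine (Algebra.adjoin_le ?_) (hρ4 x)
    rintro z ⟨f, ⟨y, δ, hy, hδ, hδr, rfl⟩, hz⟩
    have e3 : p (δ (q (p v))) = z • p v := hz
    rw [hval y δ hδ] at e3
    have e4 : (lam m Ψ y - z) • p v = 0 := by rw [sub_smul, e3, sub_self]
    rcases smul_eq_zero.mp e4 with e5 | e5
    · rw [← sub_eq_zero.mp e5]
      exact hlam y
    · exact absurd e5 hpv
  let e : K ≃ₐ[ℚ] σa.range := AlgEquiv.ofInjective σa σa.injective
  let χa : L →ₐ[ℚ] ℂ := χ.toRatAlgHom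
  let χr : L →ₐ[ℚ] σa.range := χa.codRestrict σa.range hχ
  exact IsAbelianGalois.of_algHom (e.symm.toAlgHom.comp χr)

end main

end Cmpx

theorem thm_Cmp (hCmf : St_Cmf) (hDel : St_Del) (hEva : St_Eva) (hEvb : St_Evb) : St_Cmp := by
  have _ := hEva
  intro A K _ _ c m S hA hc hm hK v hv
  have hnd : S.h.det ≠ 0 := by
    obtain ⟨σ₀, x, hx, -, -⟩ := S.hodge
    exact k3_nd S.conjugation S.hermitian hx
  have M := mde A S hnd
  have hcm : ∀ σ : K →+* ℂ, cj σ ≠ σ := by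
    intro σ h1
    apply hc
    ext y
    have h2 := S.conjugation σ y
    have h3 : σ y = σ (c y) := by
      rw [← h2]
      exact (RingHom.congr_fun h1 y).symm
    exact (σ.injective h3).symm
  have hnt : Nontrivial A.H1 := by
    have : Nonempty (Fin A.g ⊕ Fin A.g) := ⟨Sum.inl ⟨0, Nat.pos_of_ne_zero hA⟩⟩
    infer_instance
  obtain ⟨Ψ, hΨ, hkill⟩ := Cmpx.exists_typ_kill hcm (fun σ => ∀ a, ts (lt A S) σ a v = 0)
    (fun σ => by
      simp only [ts_lt]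
      exact hv σ)
  have hvac : IsVac (lt A S) Ψ v := hkill
  obtain ⟨J, _, B, ι, π, D⟩ := Helper39.AF.exists_sdecomp A
  rw [← D.sum v]
  refine Submodule.sum_mem _ fun j _ => ?_
  by_cases h0 : π j v = 0
  · rw [h0, (D.morι j).linear.map_zero]
    exact Submodule.zero_mem _
  · refine Submodule.subset_span ⟨B j, ι j, π j v, D.pos j, D.simple j, ?_, D.morι j, rfl⟩
    exact Cmpx.factor M hcm hm hCmf hDel hEvb (B j) (D.pos j) (D.simple j)
      ((D.morπ j).linear.mk' (π j)) ((D.morι j).linear.mk' (ι j)) (D.morπ j) (D.morι j)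
      (D.πι j) hΨ hvac h0

end Pool.Agent.KTW
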