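import Pool.Agent.KTW.StU

/-!
# KTW: CNA, combinatorics of CM types
-/

set_option autoImplicit false

namespace Pool.Agent.KTW

open Module Matrix NumberField Pool.Agent.Helper7 Pool.Agent.KS Pool.Agent.Ball Pool.Agent.KSE
  Pool.Agent.Helper28.GPC Pool.Agent.K3P Pool.Agent.KTP
open Pool.Agent.GPC (AbVar)

namespace Cnax

/-- a sum with a threshold -/
theorem sum_thr (M N : ℕ) (h : N ≤ M) (x : ℂ) :
    ∑ a : Fin M, (if (a : ℕ) < N then x else -x) = (2 * (N : ℂ) - M) * x := by
  have h1 : ∑ a : Fin M, (if (a : ℕ) < N then x else -x) =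
      ∑ i ∈ Finset.range M, (if i < N then x else -x) :=
    (Finset.sum_range (fun i => if i < N then x else -x)).symm
  rw [h1]
  obtain ⟨k, rfl⟩ := Nat.exists_eq_add_of_le h
  rw [Finset.sum_range_add]
  have h2 : ∑ i ∈ Finset.range N, (if i < N then x else -x) = N * x := by
    rw [Finset.sum_congr rfl (fun i hi => if_pos (Finset.mem_range.1 hi)), Finset.sum_const,
      Finset.card_range, nsmul_eq_mul]
  have h3 : ∑ i ∈ Finset.range k, (if N + i < N then x else -x) = k * (-x) := by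
    rw [Finset.sum_congr rfl (fun i _ => if_neg (by omega : ¬ N + i < N)), Finset.sum_const,
      Finset.card_range, nsmul_eq_mul]
  rw [h2, h3]
  push_cast
  ring

end Cnax

theorem thm_Cna : St_Cna := by
  classical
  intro K _ _ m M n hmM hcj hn
  obtain ⟨q, rfl⟩ := hmM
  set e := Fintype.equivFin (K →+* ℂ) with he
  have hcc : ∀ σ : K →+* ℂ, cj (cj σ) = σ := fun σ => Pool.Agent.KSE.cj_cj σ
  let F : (K →+* ℂ) → Prop := fun σ => e σ < e (cj σ)
  have hF : ∀ σ, F σ ↔ ¬ F (cj σ) := by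
    intro σ
    show e σ < e (cj σ) ↔ ¬ e (cj σ) < e (cj (cj σ))
    rw [hcc]
    have h1 : e σ ≠ e (cj σ) := fun h => hcj σ (e.injective h).symm
    constructor
    · intro h h'
      exact lt_asymm h h'
    · intro h
      exact lt_of_le_of_ne (not_lt.1 h) h1
  let Ψ : Fin (m * q) → Set (K →+* ℂ) := fun a =>
    {σ | (F σ ∧ (a : ℕ) < q * n σ) ∨ (¬ F σ ∧ ¬ (a : ℕ) < q * n (cj σ))}
  refine ⟨Ψ, ?_, ?_⟩
  · intro a σ
    show ((F σ ∧ (a : ℕ) < q * n σ) ∨ (¬ F σ ∧ ¬ (a : ℕ) < q * n (cj σ))) ↔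
      ¬ ((F (cj σ) ∧ (a : ℕ) < q * n (cj σ)) ∨ (¬ F (cj σ) ∧ ¬ (a : ℕ) < q * n (cj (cj σ))))
    rw [hcc]
    have h1 := hF σ
    tauto
  · intro z _
    have hk : ∀ σ : K →+* ℂ, ∑ a, sg m (Ψ a) σ = ((m * q : ℕ) : ℂ) * ((n σ : ℂ) / 2 - (m : ℂ) / 4) := by
      intro σ
      have hnm : n σ ≤ m := by
        have := hn σ
        omega
      by_cases hs : F σ
      · have h1 : ∀ a : Fin (m * q), sg m (Ψ a) σ = if (a : ℕ) < q * n σ then (m : ℂ) / 4 else -((m : ℂ) / 4) := by
          intro a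
          have h2 : σ ∈ Ψ a ↔ (a : ℕ) < q * n σ := by
            show ((F σ ∧ (a : ℕ) < q * n σ) ∨ (¬ F σ ∧ ¬ (a : ℕ) < q * n (cj σ))) ↔ _
            tauto
          unfold sg
          by_cases h3 : (a : ℕ) < q * n σ
          · rw [if_pos (h2.2 h3), if_pos h3]
          · rw [if_neg (fun h => h3 (h2.1 h)), if_neg h3]
        rw [Finset.sum_congr rfl (fun a _ => h1 a), Cnax.sum_thr (m * q) (q * n σ) (by
          rw [Nat.mul_comm m q]
          exact Nat.mul_le_mul_left q hnm)]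
        push_cast
        ring
      · have h1 : ∀ a : Fin (m * q), sg m (Ψ a) σ =
            if (a : ℕ) < q * n (cj σ) then (-((m : ℂ) / 4)) else -(-((m : ℂ) / 4)) := by
          intro a
          have h2 : σ ∈ Ψ a ↔ ¬ (a : ℕ) < q * n (cj σ) := by
            show ((F σ ∧ (a : ℕ) < q * n σ) ∨ (¬ F σ ∧ ¬ (a : ℕ) < q * n (cj σ))) ↔ _
            tauto
          unfold sg
          by_cases h3 : (a : ℕ) < q * n (cj σ)
          · rw [if_neg (fun h => (h2.1 h) h3), if_pos h3]
          · rw [if_pos (h2.2 h3), if_neg h3, neg_neg]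
        have hnm' : n (cj σ) ≤ m := by
          have := hn σ
          omega
        rw [Finset.sum_congr rfl (fun a _ => h1 a), Cnax.sum_thr (m * q) (q * n (cj σ)) (by
          rw [Nat.mul_comm m q]
          exact Nat.mul_le_mul_left q hnm')]
        have h4 : (n (cj σ) : ℂ) = m - n σ := by
          have := hn σ
          rw [← this]
          push_cast
          ring
        push_cast
        rw [h4]
        ring
    rw [Finset.sum_comm]
    rw [Finset.mul_sum]
    refine Finset.sum_congr rfl (fun σ _ => ?_)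
    rw [← Finset.mul_sum, hk]
    ring

end Pool.Agent.KTW
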