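import Pool.Agent.KTW.StU

/-!
# KTW, module Cnb: a vacuum vector pairing nontrivially with the CM part (helper80)
-/

set_option autoImplicit false

namespace Pool.Agent.KTW

open Module Matrix NumberField Pool.Agent.Helper7 Pool.Agent.KS Pool.Agent.Ball Pool.Agent.KSE
  Pool.Agent.Helper28.GPC Pool.Agent.K3P Pool.Agent.KTP

namespace Cnbx

open Classical in
/-- `1` at `σ`, `-1` at `cj σ` -/
noncomputable def zz {K : Type} [Field K] (σ τ : K →+* ℂ) : ℂ :=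
  (if τ = σ then 1 else 0) - (if τ = cj σ then 1 else 0)

theorem sum_zz {K : Type} [Field K] [NumberField K] (σ : K →+* ℂ) (g : (K →+* ℂ) → ℂ) :
    ∑ τ, zz σ τ * g τ = g σ - g (cj σ) := by
  classical
  have h1 : ∀ τ : K →+* ℂ, zz σ τ * g τ =
      (if τ = σ then g τ else 0) - (if τ = cj σ then g τ else 0) := by
    intro τ
    unfold zz
    rw [sub_mul, ite_mul, ite_mul, one_mul, zero_mul]
  rw [Finset.sum_congr rfl fun τ _ => h1 τ, Finset.sum_sub_distrib, Finset.sum_ite_eq',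
    Finset.sum_ite_eq', if_pos (Finset.mem_univ _), if_pos (Finset.mem_univ _)]

theorem zz_cj {K : Type} [Field K] [NumberField K] (σ τ : K →+* ℂ) : zz σ τ + zz σ (cj τ) = 0 := by
  have h1 : (cj τ = σ) ↔ (τ = cj σ) :=
    ⟨fun h => by rw [← h]; exact (KSE.cj_cj τ).symm, fun h => by rw [h]; exact KSE.cj_cj σ⟩
  have h2 : (cj τ = cj σ) ↔ (τ = σ) :=
    ⟨fun h => by
      have h3 := congrArg cj h
      rw [show cj (cj τ) = τ from KSE.cj_cj τ, show cj (cj σ) = σ from KSE.cj_cj σ] at h3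
      exact h3, fun h => by rw [h]⟩
  unfold zz
  by_cases k1 : τ = σ
  · by_cases k2 : τ = cj σ
    · rw [if_pos k1, if_pos k2, if_pos (h1.2 k2), if_pos (h2.2 k1)]
      ring
    · rw [if_pos k1, if_neg k2, if_neg (fun h => k2 (h1.1 h)), if_pos (h2.2 k1)]
      ring
  · by_cases k2 : τ = cj σ
    · rw [if_neg k1, if_pos k2, if_pos (h1.2 k2), if_neg (fun h => k1 (h2.1 h))]
      ring
    · rw [if_neg k1, if_neg k2, if_neg (fun h => k2 (h1.1 h)), if_neg (fun h => k1 (h2.1 h))]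
      ring

theorem exists_cen {V : Type} [AddCommGroup V] [Module ℂ V] {K : Type} [Field K] [NumberField K]
    {m : ℕ} {c : K →+* K} {h : Matrix (Fin m) (Fin m) K} {t : Fin m → K → Module.End ℂ V}
    (S : CMR c h t) (σ : K →+* ℂ) : ∃ Z : Module.End ℂ V, IsCen t Z (zz σ) := by
  obtain ⟨Z, hZ, hM⟩ := exists_bvE S.conj S.herm S.nd S.cliff
    (fun τ => zz σ τ • (1 : Matrix (Fin m) (Fin m) ℂ)) (by
      intro τ
      rw [Matrix.transpose_smul, Matrix.transpose_one, Matrix.smul_mul, Matrix.one_mul,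
        Matrix.mul_smul, Matrix.mul_one, ← add_smul, zz_cj, zero_smul])
  exact ⟨Z, hZ, hM⟩

theorem span_pair {V : Type} [AddCommGroup V] [Module ℂ V] (f : V →ₗ[ℂ] ℂ) (hf : ∃ v, f v ≠ 0)
    (S : Set V) (hS : Submodule.span ℂ S = ⊤) : ∃ v ∈ S, f v ≠ 0 := by
  by_contra hc
  push Not at hc
  obtain ⟨v, hv⟩ := hf
  apply hv
  have h1 : Submodule.span ℂ S ≤ LinearMap.ker f := by
    rw [Submodule.span_le]
    intro u hu
    exact hc u hu
  have h2 : v ∈ Submodule.span ℂ S := by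
    rw [hS]
    exact Submodule.mem_top
  exact h1 h2

end Cnbx

open Cnbx

theorem thm_Cnb (hEva : St_Eva) (hEvb : St_Evb) : St_Cnb := by
  intro κ _ _ _ ϖ P K _ _ c m h t S hsk X hX Ψ hΨ
  have hΨc : IsTyp Ψᶜ := by
    intro σ
    constructor
    · intro h1 h2
      exact h2 (by
        by_contra h3
        exact h1 ((hΨ σ).2 h3))
    · intro h1 h2
      exact h1 ((hΨ σ).1 h2)
  obtain ⟨e1, e2, e3⟩ := hEvb (κ → ℂ) K c m h t S Ψᶜ hΨc
  obtain ⟨-, -, f3⟩ := hEvb (κ → ℂ) K c m h t S Ψ hΨ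
  obtain ⟨w, hw0, hw⟩ := e1 inferInstance
  have hne : ∃ v, P.ψ w v ≠ 0 := by
    by_contra hc
    push Not at hc
    exact hw0 (P.hψnd w hc)
  obtain ⟨v, ⟨n, hn, hv⟩, hwv⟩ := span_pair (P.ψ w) hne _ (hEva (κ → ℂ) K c m h t S)
  have hnm : ∀ σ ∈ Ψ, n σ = m := by
    intro σ hσ
    obtain ⟨Z, hZ⟩ := exists_cen S σ
    have g1 := e2 w hw Z _ hZ.1 hZ.2
    have g2 := hv Z _ hZ
    rw [sum_zz] at g2
    have g3 : ∑ τ : K →+* ℂ, (zz σ τ • (1 : Matrix (Fin m) (Fin m) ℂ)).trace * sg 1 Ψᶜ τ =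
        -((m : ℂ) / 2) := by
      have k1 : ∀ τ : K →+* ℂ, (zz σ τ • (1 : Matrix (Fin m) (Fin m) ℂ)).trace * sg 1 Ψᶜ τ =
          zz σ τ * ((m : ℂ) * sg 1 Ψᶜ τ) := by
        intro τ
        rw [Matrix.trace_smul, Matrix.trace_one, Fintype.card_fin, smul_eq_mul]
        ring
      rw [Finset.sum_congr rfl fun τ _ => k1 τ, sum_zz]
      have k2 : sg 1 Ψᶜ σ = -(((1 : ℕ) : ℂ) / 4) := if_neg fun hh => hh hσ
      have k3 : sg 1 Ψᶜ (cj σ) = ((1 : ℕ) : ℂ) / 4 := if_pos ((hΨ σ).1 hσ)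
      rw [k2, k3]
      push_cast
      ring
    rw [g3] at g1
    have g4 := hsk Z _ hZ w v
    rw [g1, g2, map_smul, LinearMap.smul_apply, map_smul, smul_eq_mul, smul_eq_mul, ← add_mul] at g4
    have g5 := (mul_eq_zero.1 g4).resolve_right hwv
    have g6 : ((n σ : ℕ) : ℂ) + ((n (cj σ) : ℕ) : ℂ) = (m : ℂ) := by
      rw [← hn σ]
      push_cast
      ring
    have g7 : ((n σ : ℕ) : ℂ) = (m : ℂ) := by
      linear_combination g5 + (1 / 2 : ℂ) * g6
    exact_mod_cast g7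
  have hn0 : ∀ σ, σ ∉ Ψ → n σ = 0 := by
    intro σ hσ
    have k1 : cj σ ∈ Ψ := by
      by_contra h3
      exact hσ ((hΨ σ).2 h3)
    have k2 := hnm _ k1
    have k3 := hn σ
    omega
  have hv2 : CE t (sg m Ψ) v := by
    have k1 : (fun σ => (n σ : ℂ) / 2 - (m : ℂ) / 4) = sg m Ψ := by
      funext σ
      by_cases hσ : σ ∈ Ψ
      · rw [hnm σ hσ, show sg m Ψ σ = (m : ℂ) / 4 from if_pos hσ]
        ring
      · rw [hn0 σ hσ, show sg m Ψ σ = -((m : ℂ) / 4) from if_neg hσ]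
        push_cast
        ring
    rw [← k1]
    exact hv
  have hv3 := f3 v hv2
  refine ⟨w, hw, v, hX v fun σ => ?_, hwv⟩
  by_cases hσ : σ ∈ Ψ
  · exact Or.inl (hv3 σ hσ)
  · refine Or.inr (hv3 (cj σ) ?_)
    by_contra h3
    exact hσ ((hΨ σ).2 h3)

end Pool.Agent.KTW
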