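import Pool.Agent.KTW.StT

/-!
# KTW: the coordinates of matrices of size two

Proof of `St_Css`.
-/

set_option autoImplicit false

namespace Pool.Agent.KTW

open Module Matrix NumberField Pool.Agent.Helper7 Pool.Agent.KS Pool.Agent.Ball Pool.Agent.KSE
  Pool.Agent.Helper28.GPC Pool.Agent.K3P Pool.Agent.KTP
open Pool.Agent.KQ4 (en cq cf QP)

namespace Cssx

lemma cs_two (A : Matrix (Fin 2) (Fin 2) ℂ) :
    cs A = ![Complex.I * (A 0 1 + A 1 0), A 1 0 - A 0 1, Complex.I * (A 0 0 - A 1 1)] := by
  have h : ∀ a b : Fin 2, en A (a : ℕ) (b : ℕ) = A a b := by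
    intro a b
    unfold en
    rw [dif_pos ⟨a.2, b.2⟩]
  have h00 := h 0 0
  have h01 := h 0 1
  have h10 := h 1 0
  have h11 := h 1 1
  simp only [Fin.val_zero, Fin.val_one] at h00 h01 h10 h11
  unfold cs
  rw [h00, h01, h10, h11]

lemma cs_zero_iff (A : Matrix (Fin 2) (Fin 2) ℂ) :
    cs A = 0 ↔ A 0 1 = 0 ∧ A 1 0 = 0 ∧ A 0 0 = A 1 1 := by
  rw [cs_two]
  have hI : Complex.I ≠ 0 := Complex.I_ne_zero
  constructor
  · intro h
    have h0 : Complex.I * (A 0 1 + A 1 0) = 0 := by simpa using congrFun h 0
    have h1 : A 1 0 - A 0 1 = 0 := by simpa using congrFun h 1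
    have h2 : Complex.I * (A 0 0 - A 1 1) = 0 := by
      have := congrFun h 2
      simpa using this
    have h0' := (mul_eq_zero.1 h0).resolve_left hI
    have h2' := (mul_eq_zero.1 h2).resolve_left hI
    refine ⟨?_, ?_, sub_eq_zero.1 h2'⟩
    · linear_combination (h0' - h1) / 2
    · linear_combination (h0' + h1) / 2
  · rintro ⟨h1, h2, h3⟩
    rw [h1, h2, h3]
    funext k
    fin_cases k <;> simp

theorem css_main : St_Css := by
  intro m hm
  subst hm
  have hI2 : Complex.I * Complex.I = -1 := Complex.I_mul_I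
  refine ⟨?_, ?_, ?_, ?_, ?_, ?_⟩
  · intro A A'
    rw [cs_two, cs_two, cs_two]
    funext k
    fin_cases k <;> simp <;> ring
  · intro r A
    rw [cs_two, cs_two]
    funext k
    fin_cases k <;> simp <;> ring
  · intro A A'
    rw [cs_two, cs_two, cs_two, cross_apply]
    funext k
    fin_cases k
    · simp [Matrix.mul_apply, Fin.sum_univ_two]
      ring
    · simp [Matrix.mul_apply, Fin.sum_univ_two]
      linear_combination (-(A 0 0 - A 1 1) * (A' 0 1 + A' 1 0) + (A 0 1 + A 1 0) * (A' 0 0 - A' 1 1)) * hI2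
    · simp [Matrix.mul_apply, Fin.sum_univ_two]
      ring
  · intro x
    refine ⟨!![-Complex.I * x 2 / 2, (-Complex.I * x 0 - x 1) / 2; (-Complex.I * x 0 + x 1) / 2, Complex.I * x 2 / 2], ?_, ?_⟩
    · show Matrix.trace _ = 0
      simp [Matrix.trace, Fin.sum_univ_two]
      ring
    · rw [cs_two]
      funext k
      fin_cases k
      · simp
        linear_combination (-(x 0)) * hI2
      · simp
        ring
      · simp
        linear_combination (-(x 2)) * hI2
  · intro A
    rw [cs_zero_iff]
    constructor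
    · rintro ⟨h1, h2, h3⟩
      ext i j
      unfold trz
      fin_cases i <;> fin_cases j <;> simp [Matrix.trace, Fin.sum_univ_two, h1, h2, h3]
    · intro h
      have e : ∀ i j, A i j - (A.trace / (2 : ℕ)) * (1 : Matrix (Fin 2) (Fin 2) ℂ) i j = 0 := by
        intro i j
        have := congrFun (congrFun h i) j
        simpa [trz] using this
      have e01 := e 0 1
      have e10 := e 1 0
      have e00 := e 0 0
      have e11 := e 1 1
      simp at e01 e10 e00 e11
      exact ⟨e01, e10, by linear_combination e00 - e11⟩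
  · intro τ A
    rw [cs_zero_iff, cs_zero_iff]
    simp only [Matrix.map_apply]
    rw [map_eq_zero, map_eq_zero, τ.injective.eq_iff]

end Cssx

theorem thm_Css : St_Css := Cssx.css_main

end Pool.Agent.KTW
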