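import Pool.Agent.KTW.StU

/-!
# KTW, module DEL: the central operators of the `x` with `c x = -x` are endomorphisms
-/

set_option autoImplicit false

namespace Pool.Agent.KTW

open Module Matrix NumberField Pool.Agent.Helper7 Pool.Agent.KS Pool.Agent.Ball Pool.Agent.KSE
  Pool.Agent.Helper28.GPC Pool.Agent.K3P Pool.Agent.KTP
open Pool.Agent.GPC (AbVar)

namespace Delx

section aux

variable {V : Type} [AddCommGroup V] [Module ℂ V] {K : Type} [Field K] [NumberField K]
  {c : K →+* K} {m : ℕ} {h : Matrix (Fin m) (Fin m) K} {t : Fin m → K → Module.End ℂ V}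

lemma act_of {X : Module.End ℂ V} {M : (K →+* ℂ) → Matrix (Fin m) (Fin m) ℂ}
    (hX : ∀ σ d, X * ts t σ d - ts t σ d * X = ∑ a, M σ a d • ts t σ a) : ActM t X M := by
  intro σ x
  have h1 : X * tau (ts t σ) x - tau (ts t σ) x * X =
      ∑ d, x d • (X * ts t σ d - ts t σ d * X) := by
    rw [tau_apply, Finset.mul_sum, Finset.sum_mul, ← Finset.sum_sub_distrib]
    refine Finset.sum_congr rfl fun d _ => ?_
    rw [mul_smul_comm, smul_mul_assoc, smul_sub]
  rw [h1, tau_apply, Finset.sum_congr rfl fun d _ => by rw [hX σ d]]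
  simp only [Finset.smul_sum, smul_smul]
  rw [Finset.sum_comm]
  refine Finset.sum_congr rfl fun a _ => ?_
  rw [← Finset.sum_smul]
  congr 1
  rw [Matrix.mulVec, dotProduct]
  exact Finset.sum_congr rfl fun d _ => mul_comm _ _

lemma act_bracket [DecidableEq (K →+* ℂ)]
    (hconj : ∀ (σ : K →+* ℂ) (x : K), cj σ x = σ (c x)) (hh : ∀ a b, c (h a b) = h b a)
    (hcl : ∀ a b x y, t a x * t b y + t b y * t a x =
      (2 * ((Algebra.trace ℚ K (x * c y * h a b) : ℚ) : ℂ)) • 1)
    (σ τ : K →+* ℂ) (a b d : Fin m) :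
    (ts t σ a * ts t (cj σ) b - ts t (cj σ) b * ts t σ a) * ts t τ d -
      ts t τ d * (ts t σ a * ts t (cj σ) b - ts t (cj σ) b * ts t σ a) =
      (if τ = σ then 4 * σ (h d b) else 0 : ℂ) • ts t σ a -
        (if τ = cj σ then 4 * σ (h a d) else 0 : ℂ) • ts t (cj σ) b := by
  have p1 := ts_cliff_sum hconj hcl (cj σ) τ b d
  have p2 := ts_cliff_sum hconj hcl σ τ a d
  have p3 := ts_pair hconj hcl σ a b
  rw [KSE.cj_cj] at p1
  have e1 : (cj σ) (h b d) = σ (h d b) := by
    rw [hconj, hh]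
  rw [e1] at p1
  have e2 : (ts t σ a * ts t (cj σ) b - ts t (cj σ) b * ts t σ a) * ts t τ d -
      ts t τ d * (ts t σ a * ts t (cj σ) b - ts t (cj σ) b * ts t σ a) =
      (ts t σ a * (ts t (cj σ) b * ts t τ d + ts t τ d * ts t (cj σ) b) +
        ts t σ a * (ts t (cj σ) b * ts t τ d + ts t τ d * ts t (cj σ) b)) -
      ((ts t σ a * ts t τ d + ts t τ d * ts t σ a) * ts t (cj σ) b +
        (ts t σ a * ts t τ d + ts t τ d * ts t σ a) * ts t (cj σ) b) -
      ((ts t σ a * ts t (cj σ) b + ts t (cj σ) b * ts t σ a) * ts t τ d -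
        ts t τ d * (ts t σ a * ts t (cj σ) b + ts t (cj σ) b * ts t σ a)) := by
    noncomm_ring
  rw [e2, p1, p2, p3, mul_smul_comm, smul_mul_assoc, smul_mul_assoc, mul_smul_comm, mul_one,
    one_mul, one_mul, mul_one, sub_self, sub_zero, ← add_smul, ← add_smul]
  congr 2
  · split_ifs
    · ring
    · ring
  · split_ifs
    · ring
    · ring

lemma det_map (hnd : h.det ≠ 0) (σ : K →+* ℂ) : (h.map σ).det ≠ 0 := by
  have e : (h.map σ).det = σ h.det := (RingHom.map_det σ h).symm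
  rw [e]
  exact (map_ne_zero σ).mpr hnd

lemma sum_act {ι : Type} (s : Finset ι) (X : ι → Module.End ℂ V)
    (M : ι → (K →+* ℂ) → Matrix (Fin m) (Fin m) ℂ) (hX : ∀ i ∈ s, ActM t (X i) (M i)) :
    ActM t (∑ i ∈ s, X i) (∑ i ∈ s, M i) := by
  classical
  induction s using Finset.induction_on with
  | empty =>
    rw [Finset.sum_empty, Finset.sum_empty]
    exact ActM.zero
  | @insert a s ha ih =>
    rw [Finset.sum_insert ha, Finset.sum_insert ha]
    exact (hX a (Finset.mem_insert_self a s)).add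
      (ih fun i hi => hX i (Finset.mem_insert_of_mem hi))

end aux

section alg

variable {V : Type} [AddCommGroup V] [Module ℂ V] {K : Type} [Field K] [NumberField K]
  {c : K →+* K} {m : ℕ} {h : Matrix (Fin m) (Fin m) K} {t : Fin m → K → Module.End ℂ V}
  (hconj : ∀ (σ : K →+* ℂ) (x : K), cj σ x = σ (c x)) (hh : ∀ a b, c (h a b) = h b a)
  (hnd : h.det ≠ 0)
  (hcl : ∀ a b x y, t a x * t b y + t b y * t a x =
    (2 * ((Algebra.trace ℚ K (x * c y * h a b) : ℚ) : ℂ)) • 1)

include hconj hh hnd hcl in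
lemma act_explicit (M : (K →+* ℂ) → Matrix (Fin m) (Fin m) ℂ) (hM : SkewM h M) :
    ActM t (∑ σ : K →+* ℂ, ∑ a, ∑ b, ((M σ * ((h.map σ)ᵀ)⁻¹) a b / 8) •
      (ts t σ a * ts t (cj σ) b - ts t (cj σ) b * ts t σ a)) M := by
  classical
  let N : (K →+* ℂ) → Matrix (Fin m) (Fin m) ℂ := fun σ => M σ * ((h.map σ)ᵀ)⁻¹
  have hN1 : ∀ τ a d, ∑ b, N τ a b * τ (h d b) = M τ a d := by
    intro τ a d
    have hu : IsUnit ((h.map τ)ᵀ).det := by
      rw [Matrix.det_transpose]
      exact (det_map hnd τ).isUnit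
    have e1 : N τ * (h.map τ)ᵀ = M τ := by
      show M τ * ((h.map τ)ᵀ)⁻¹ * (h.map τ)ᵀ = M τ
      rw [Matrix.mul_assoc, Matrix.nonsing_inv_mul _ hu, Matrix.mul_one]
    have e2 := congrFun (congrFun e1 a) d
    rw [Matrix.mul_apply] at e2
    exact e2
  have hN2 : ∀ τ b d, ∑ a, N (cj τ) a b * (cj τ) (h a d) = -M τ b d := by
    intro τ b d
    have hu : IsUnit (h.map (cj τ)).det := (det_map hnd (cj τ)).isUnit
    have e0 := hM (cj τ)
    rw [KSE.cj_cj] at e0
    have e1 : (N (cj τ))ᵀ * h.map (cj τ) = -M τ := by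
      have e2 : (N (cj τ))ᵀ = (h.map (cj τ))⁻¹ * (M (cj τ))ᵀ := by
        show (M (cj τ) * ((h.map (cj τ))ᵀ)⁻¹)ᵀ = _
        rw [Matrix.transpose_mul, ← Matrix.transpose_nonsing_inv, Matrix.transpose_transpose]
      rw [e2, Matrix.mul_assoc, eq_neg_of_add_eq_zero_left e0, Matrix.mul_neg,
        ← Matrix.mul_assoc, Matrix.nonsing_inv_mul _ hu, Matrix.one_mul]
    have e2 := congrFun (congrFun e1 b) d
    rw [Matrix.mul_apply] at e2
    exact e2
  refine act_of ?_
  intro τ d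
  have e1 : (∑ σ : K →+* ℂ, ∑ a, ∑ b, ((M σ * ((h.map σ)ᵀ)⁻¹) a b / 8) •
      (ts t σ a * ts t (cj σ) b - ts t (cj σ) b * ts t σ a)) * ts t τ d - ts t τ d *
      (∑ σ : K →+* ℂ, ∑ a, ∑ b, ((M σ * ((h.map σ)ᵀ)⁻¹) a b / 8) •
      (ts t σ a * ts t (cj σ) b - ts t (cj σ) b * ts t σ a)) =
      ∑ σ : K →+* ℂ, ∑ a, ∑ b, (N σ a b / 8) •
      ((if τ = σ then 4 * σ (h d b) else 0 : ℂ) • ts t σ a -
        (if τ = cj σ then 4 * σ (h a d) else 0 : ℂ) • ts t (cj σ) b) := by
    rw [Finset.sum_mul, Finset.mul_sum, ← Finset.sum_sub_distrib]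
    refine Finset.sum_congr rfl fun σ _ => ?_
    rw [Finset.sum_mul, Finset.mul_sum, ← Finset.sum_sub_distrib]
    refine Finset.sum_congr rfl fun a _ => ?_
    rw [Finset.sum_mul, Finset.mul_sum, ← Finset.sum_sub_distrib]
    refine Finset.sum_congr rfl fun b _ => ?_
    rw [smul_mul_assoc, mul_smul_comm, ← smul_sub, act_bracket hconj hh hcl]
  have e2 : ∑ σ : K →+* ℂ, ∑ a, ∑ b, (N σ a b / 8) •
      (if τ = σ then 4 * σ (h d b) else 0 : ℂ) • ts t σ a =
      ∑ a, (M τ a d / 2) • ts t τ a := by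
    rw [Finset.sum_eq_single τ]
    · refine Finset.sum_congr rfl fun a _ => ?_
      rw [← hN1 τ a d, Finset.sum_div, Finset.sum_smul]
      refine Finset.sum_congr rfl fun b _ => ?_
      rw [if_pos rfl, smul_smul]
      congr 1
      ring
    · intro σ _ hσ
      refine Finset.sum_eq_zero fun a _ => Finset.sum_eq_zero fun b _ => ?_
      rw [if_neg (fun h => hσ h.symm), zero_smul, smul_zero]
    · intro h; exact absurd (Finset.mem_univ _) h
  have e3 : ∑ σ : K →+* ℂ, ∑ a, ∑ b, (N σ a b / 8) •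
      (if τ = cj σ then 4 * σ (h a d) else 0 : ℂ) • ts t (cj σ) b =
      ∑ b, (-M τ b d / 2) • ts t τ b := by
    rw [Finset.sum_eq_single (cj τ)]
    · rw [Finset.sum_comm]
      refine Finset.sum_congr rfl fun b _ => ?_
      rw [← hN2 τ b d, Finset.sum_div, Finset.sum_smul]
      refine Finset.sum_congr rfl fun a _ => ?_
      rw [KSE.cj_cj, if_pos rfl, smul_smul]
      congr 1
      ring
    · intro σ _ hσ
      refine Finset.sum_eq_zero fun a _ => Finset.sum_eq_zero fun b _ => ?_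
      rw [if_neg (fun h => hσ (by rw [h, KSE.cj_cj])), zero_smul, smul_zero]
    · intro h; exact absurd (Finset.mem_univ _) h
  rw [e1]
  simp only [smul_sub, Finset.sum_sub_distrib]
  rw [e2, e3, ← Finset.sum_sub_distrib]
  refine Finset.sum_congr rfl fun a _ => ?_
  rw [← sub_smul]
  congr 1
  ring

include hconj in
lemma inv_c (x : K) : c (c x) = x := by
  obtain ⟨σ⟩ : Nonempty (K →+* ℂ) := inferInstance
  apply σ.injective
  have e1 : σ (c (c x)) = cj σ (c x) := (hconj σ (c x)).symm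
  have e2 : cj σ (c x) = cj (cj σ) x := (hconj (cj σ) x).symm
  rw [e1, e2, KSE.cj_cj]

include hconj in
lemma skew_of (x : K) (hx : c x = -x) :
    SkewM h (fun σ : K →+* ℂ => σ x • (1 : Matrix (Fin m) (Fin m) ℂ)) := by
  intro σ
  have e1 : cj σ x = -σ x := by rw [hconj, hx, map_neg]
  show (σ x • (1 : Matrix (Fin m) (Fin m) ℂ))ᵀ * h.map σ +
    h.map σ * (cj σ x • (1 : Matrix (Fin m) (Fin m) ℂ)) = 0
  rw [e1, Matrix.transpose_smul, Matrix.transpose_one, Matrix.smul_mul, Matrix.one_mul,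
    Matrix.mul_smul, Matrix.mul_one, neg_smul, add_neg_cancel]

include hnd in
lemma inv_map (σ : K →+* ℂ) : ((h.map σ)ᵀ)⁻¹ = ((hᵀ)⁻¹).map σ := by
  have hu : IsUnit (hᵀ).det := by
    rw [Matrix.det_transpose]
    exact hnd.isUnit
  apply Matrix.inv_eq_left_inv
  rw [← Matrix.transpose_map, ← Matrix.map_mul, Matrix.nonsing_inv_mul _ hu,
    Matrix.map_one σ (map_zero σ) (map_one σ)]

/-- the explicit rational operator -/
noncomputable def op (c : K →+* K) (h : Matrix (Fin m) (Fin m) K)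
    (t : Fin m → K → Module.End ℂ V) (x : K) : Module.End ℂ V :=
  ∑ a, ∑ b, ∑ d, ∑ e,
    (((Algebra.trace ℚ K (x * (hᵀ)⁻¹ a b * dbas K d * c (dbas K e)) / 8 : ℚ)) : ℂ) •
    (t a (bas K d) * t b (bas K e) - t b (bas K e) * t a (bas K d))

include hconj hnd in
lemma op_eq (x : K) : op c h t x = ∑ σ : K →+* ℂ, ∑ a, ∑ b,
    (((fun σ : K →+* ℂ => σ x • (1 : Matrix (Fin m) (Fin m) ℂ)) σ * ((h.map σ)ᵀ)⁻¹) a b / 8) •
      (ts t σ a * ts t (cj σ) b - ts t (cj σ) b * ts t σ a) := by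
  symm
  rw [Finset.sum_comm, op]
  refine Finset.sum_congr rfl fun a _ => ?_
  rw [Finset.sum_comm]
  refine Finset.sum_congr rfl fun b _ => ?_
  have h1 : ∀ σ : K →+* ℂ,
      (((fun σ : K →+* ℂ => σ x • (1 : Matrix (Fin m) (Fin m) ℂ)) σ * ((h.map σ)ᵀ)⁻¹) a b / 8) •
      (ts t σ a * ts t (cj σ) b - ts t (cj σ) b * ts t σ a) =
      ∑ d, ∑ e, (σ (x * (hᵀ)⁻¹ a b * dbas K d * c (dbas K e)) / 8) •
        (t a (bas K d) * t b (bas K e) - t b (bas K e) * t a (bas K d)) := by
    intro σ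
    have e1 : ((fun σ : K →+* ℂ => σ x • (1 : Matrix (Fin m) (Fin m) ℂ)) σ *
        ((h.map σ)ᵀ)⁻¹) a b = σ x * σ ((hᵀ)⁻¹ a b) := by
      show ((σ x • (1 : Matrix (Fin m) (Fin m) ℂ)) * ((h.map σ)ᵀ)⁻¹) a b = _
      rw [inv_map hnd, Matrix.smul_mul, Matrix.one_mul, Matrix.smul_apply, Matrix.map_apply,
        smul_eq_mul]
    have e2 : ts t σ a * ts t (cj σ) b - ts t (cj σ) b * ts t σ a =
        ∑ d, ∑ e, (σ (dbas K d) * σ (c (dbas K e))) •
        (t a (bas K d) * t b (bas K e) - t b (bas K e) * t a (bas K d)) := by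
      rw [ts, ts, Finset.sum_mul_sum, Finset.sum_mul_sum, Finset.sum_comm (f := fun i j =>
        (cj σ) (dbas K i) • t b (bas K i) * σ (dbas K j) • t a (bas K j)),
        ← Finset.sum_sub_distrib]
      refine Finset.sum_congr rfl fun d _ => ?_
      rw [← Finset.sum_sub_distrib]
      refine Finset.sum_congr rfl fun e _ => ?_
      rw [smul_mul_smul_comm, smul_mul_smul_comm, mul_comm ((cj σ) _), smul_sub, hconj]
    rw [e1, e2, Finset.smul_sum]
    refine Finset.sum_congr rfl fun d _ => ?_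
    rw [Finset.smul_sum]
    refine Finset.sum_congr rfl fun e _ => ?_
    rw [smul_smul, map_mul, map_mul, map_mul]
    congr 1
    ring
  rw [Finset.sum_congr rfl fun σ _ => h1 σ, Finset.sum_comm]
  refine Finset.sum_congr rfl fun d _ => ?_
  rw [Finset.sum_comm]
  refine Finset.sum_congr rfl fun e _ => ?_
  rw [← Finset.sum_smul, ← Finset.sum_div, sum_emb]
  congr 1
  push_cast
  ring

end alg

section main

variable {κ : Type} [Fintype κ] [DecidableEq κ] {ϖ : ℂ} {P : PData κ ϖ} {K : Type}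
  [Field K] [NumberField K] {c : K →+* K} {m : ℕ} {h : Matrix (Fin m) (Fin m) K}
  {t : Fin m → K → Module.End ℂ (κ → ℂ)}

lemma op_cen (S : MD P c h t) (x : K) (hx : c x = -x) :
    IsCen t (op c h t x) (fun σ => σ x) := by
  constructor
  · rw [op_eq S.conj S.nd]
    refine Submodule.sum_mem _ fun σ _ => Submodule.sum_mem _ fun a _ =>
      Submodule.sum_mem _ fun b _ => Submodule.smul_mem _ _ (Submodule.subset_span ⟨σ, a, b, rfl⟩)
  · rw [op_eq S.conj S.nd]
    exact act_explicit S.conj S.herm S.nd S.cliff _ (skew_of S.conj x hx)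

lemma op_drb (S : MD P c h t) (x : K) (hx : c x = -x) : IsDRB P P (op c h t x) := by
  rw [S.cent]
  constructor
  · intro v hv
    rw [op, LinearMap.sum_apply]
    refine Submodule.sum_mem _ fun a _ => ?_
    rw [LinearMap.sum_apply]
    refine Submodule.sum_mem _ fun b _ => ?_
    rw [LinearMap.sum_apply]
    refine Submodule.sum_mem _ fun d _ => ?_
    rw [LinearMap.sum_apply]
    refine Submodule.sum_mem _ fun e _ => ?_
    rw [LinearMap.smul_apply]
    refine P.rat_smul_mem _ _ ?_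
    rw [LinearMap.sub_apply]
    exact Submodule.sub_mem _ (S.rat a _ _ (S.rat b _ _ hv)) (S.rat b _ _ (S.rat a _ _ hv))
  · intro σ a b
    have hact := (op_cen S x hx).2
    have key : ∀ (τ : K →+* ℂ) (d : Fin m),
        op c h t x * ts t τ d - ts t τ d * op c h t x = τ x • ts t τ d := by
      intro τ d
      have h1 := hact τ (Pi.single d 1)
      rw [tau_single] at h1
      rw [h1]
      show tau (ts t τ) ((τ x • (1 : Matrix (Fin m) (Fin m) ℂ)) *ᵥ Pi.single d 1) = _
      rw [Matrix.smul_mulVec, Matrix.one_mulVec, map_smul, tau_single]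
    have k1 := key σ a
    have k2 := key (cj σ) b
    have e1 : cj σ x = -σ x := by rw [S.conj, hx, map_neg]
    rw [e1] at k2
    have k1' : op c h t x * ts t σ a = σ x • ts t σ a + ts t σ a * op c h t x :=
      sub_eq_iff_eq_add.mp k1
    have k2' : op c h t x * ts t (cj σ) b = -σ x • ts t (cj σ) b +
      ts t (cj σ) b * op c h t x := sub_eq_iff_eq_add.mp k2
    rw [← mul_assoc, k1', add_mul, mul_assoc (ts t σ a), k2', mul_add, smul_mul_assoc,
      mul_smul_comm, ← mul_assoc, ← add_assoc, ← add_smul, add_neg_cancel, zero_smul, zero_add]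

end main

end Delx

open Delx

theorem thm_Del : St_Del := by
  intro κ _ _ ϖ P K _ _ c m h t S hcm
  refine ⟨fun x hx => ⟨op c h t x, op_cen S x hx, op_drb S x hx⟩, ?_⟩
  classical
  intro Z z hZ
  have hanti : ∀ k, c (bas K k - c (bas K k)) = -(bas K k - c (bas K k)) := by
    intro k
    rw [map_sub, inv_c S.conj]
    ring
  have hcen : ∀ k, IsCen t (op c h t (bas K k - c (bas K k)))
      (fun σ => σ (bas K k - c (bas K k))) := fun k => op_cen S _ (hanti k)
  rcases subsingleton_or_nontrivial (κ → ℂ) with hV | hV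
  · refine ⟨0, fun k => op c h t (bas K k - c (bas K k)), hcen, ?_⟩
    apply LinearMap.ext
    intro v
    exact Subsingleton.elim _ _
  rcases Nat.eq_zero_or_pos m with hm | hm
  · refine ⟨0, fun k => op c h t (bas K k - c (bas K k)), hcen, ?_⟩
    have h1 : bvS t = ⊥ := by
      rw [bvS, Submodule.span_eq_bot]
      rintro Y ⟨σ, a, b, _⟩
      rw [hm] at a
      exact a.elim0
    have h2 := hZ.1
    rw [h1, Submodule.mem_bot] at h2
    rw [h2]
    symm
    refine Finset.sum_eq_zero fun k _ => ?_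
    rw [Pi.zero_apply, zero_smul]
  have hsk : SkewM h (fun σ : K →+* ℂ => z σ • (1 : Matrix (Fin m) (Fin m) ℂ)) :=
    (skewM_iff _).mpr fun σ x y => hZ.2.skew S.conj S.cliff σ x y
  have hodd : ∀ σ, z (cj σ) = -z σ := by
    intro σ
    have e1 : (z σ • (1 : Matrix (Fin m) (Fin m) ℂ))ᵀ * h.map σ +
      h.map σ * (z (cj σ) • (1 : Matrix (Fin m) (Fin m) ℂ)) = 0 := hsk σ
    rw [Matrix.transpose_smul, Matrix.transpose_one, Matrix.smul_mul, Matrix.one_mul,
      Matrix.mul_smul, Matrix.mul_one, ← add_smul] at e1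
    rcases smul_eq_zero.mp e1 with e2 | e2
    · exact eq_neg_of_add_eq_zero_right e2
    · exfalso
      have e3 := det_map S.nd σ
      rw [e2] at e3
      have : Nonempty (Fin m) := ⟨⟨0, hm⟩⟩
      exact e3 Matrix.det_zero
  refine ⟨fun k => (∑ τ : K →+* ℂ, z τ * τ (dbas K k)) / 2,
    fun k => op c h t (bas K k - c (bas K k)), hcen, ?_⟩
  refine eq_of_act S.conj S.herm S.nd S.cliff hZ.1 ?_ hZ.2 ?_
  · exact Submodule.sum_mem _ fun k _ => Submodule.smul_mem _ _ (hcen k).1
  · have h1 := sum_act (t := t) Finset.univ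
      (fun k => ((∑ τ : K →+* ℂ, z τ * τ (dbas K k)) / 2) •
        op c h t (bas K k - c (bas K k)))
      (fun k => ((∑ τ : K →+* ℂ, z τ * τ (dbas K k)) / 2) •
        (fun σ : K →+* ℂ => σ (bas K k - c (bas K k)) • (1 : Matrix (Fin m) (Fin m) ℂ)))
      (fun k _ => (hcen k).2.smul _)
    have h2 : (∑ k, ((∑ τ : K →+* ℂ, z τ * τ (dbas K k)) / 2) •
        (fun σ : K →+* ℂ => σ (bas K k - c (bas K k)) • (1 : Matrix (Fin m) (Fin m) ℂ))) =
        fun σ : K →+* ℂ => z σ • (1 : Matrix (Fin m) (Fin m) ℂ) := by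
      funext σ
      rw [Finset.sum_apply]
      simp only [Pi.smul_apply, smul_smul]
      rw [← Finset.sum_smul]
      congr 1
      have h3 : ∀ k, (∑ τ : K →+* ℂ, z τ * τ (dbas K k)) / 2 * σ (bas K k - c (bas K k)) =
          ∑ τ : K →+* ℂ, (z τ / 2 * (τ (dbas K k) * σ (bas K k)) -
            z τ / 2 * (τ (dbas K k) * (cj σ) (bas K k))) := by
        intro k
        rw [Finset.sum_div, Finset.sum_mul]
        refine Finset.sum_congr rfl fun τ _ => ?_
        rw [S.conj, map_sub]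
        ring
      rw [Finset.sum_congr rfl fun k _ => h3 k, Finset.sum_comm]
      have h4 : ∀ τ : K →+* ℂ, ∑ k, (z τ / 2 * (τ (dbas K k) * σ (bas K k)) -
            z τ / 2 * (τ (dbas K k) * (cj σ) (bas K k))) =
          z τ / 2 * (if τ = σ then 1 else 0) - z τ / 2 * (if τ = cj σ then 1 else 0) := by
        intro τ
        rw [Finset.sum_sub_distrib, ← Finset.mul_sum, ← Finset.mul_sum, sum_dbas_bas,
          sum_dbas_bas]
      rw [Finset.sum_congr rfl fun τ _ => h4 τ, Finset.sum_sub_distrib]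
      simp only [mul_ite, mul_one, mul_zero, Finset.sum_ite_eq', Finset.mem_univ, if_true]
      rw [hodd]
      ring
    rw [h2] at h1
    exact h1

end Pool.Agent.KTW
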