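import Pool.Agent.KTW.StT
import Pool.Agent.KTW.Aby
import Pool.Agent.KQ4.Dg4

/-!
# KTW [Dgy]: the part of trace zero of the operator comes from a symmetry (helper1 for helper63)
-/

set_option autoImplicit false
set_option linter.unusedSectionVars false

namespace Pool.Agent.KTW

open Module Matrix NumberField Pool.Agent.Helper7 Pool.Agent.KS Pool.Agent.Ball Pool.Agent.KSE
  Pool.Agent.Helper28.GPC Pool.Agent.K3P Pool.Agent.KTP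
open Pool.Agent.KQ4 (en cq cf QP Dg4_ep Dg4_ep_or Dg4_en_add Dg4_en_smul Dg4_cq_add Dg4_cq_smul
  Dg4_cross)

namespace Dgyx

/-! ### One place -/

section lin

variable {m : ℕ}

theorem cs_add (A A' : Matrix (Fin m) (Fin m) ℂ) : cs (A + A') = cs A + cs A' := by
  funext i
  fin_cases i <;> simp [cs, Dg4_en_add] <;> ring

theorem cs_smul (r : ℂ) (A : Matrix (Fin m) (Fin m) ℂ) : cs (r • A) = r • cs A := by
  funext i
  fin_cases i <;> simp [cs, Dg4_en_smul] <;> ring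

theorem cs_one (hm : m = 2) : cs (1 : Matrix (Fin m) (Fin m) ℂ) = 0 := by
  subst hm
  funext i
  fin_cases i <;> simp [cs, en]

/-- the coordinates as a linear map -/
noncomputable def czL (ε : ℂ) (B : Matrix (Fin m) (Fin m) ℂ) :
    Matrix (Fin m) (Fin m) ℂ →ₗ[ℂ] (Fin 3 → ℂ) where
  toFun M := cz ε B M
  map_add' M M' := by
    unfold cz
    split_ifs
    · rw [Matrix.mul_add, Matrix.add_mul, cs_add]
    · rw [Matrix.mul_add, Matrix.add_mul, Dg4_cq_add]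
  map_smul' r M := by
    unfold cz
    split_ifs
    · rw [Matrix.mul_smul, Matrix.smul_mul, cs_smul]; rfl
    · rw [Matrix.mul_smul, Matrix.smul_mul, Dg4_cq_smul]; rfl

theorem czL_apply (ε : ℂ) (B M : Matrix (Fin m) (Fin m) ℂ) : czL ε B M = cz ε B M := rfl

theorem trz_zero_iff {Z : Matrix (Fin m) (Fin m) ℂ} : trz Z = 0 ↔ Z = (Z.trace / m) • 1 :=
  sub_eq_zero

theorem trz_smul_one (r : ℂ) : trz (r • (1 : Matrix (Fin m) (Fin m) ℂ)) = 0 := by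
  rcases Nat.eq_zero_or_pos m with hm | hm
  · subst hm
    exact Subsingleton.elim _ _
  · have hm0 : (m : ℂ) ≠ 0 := by exact_mod_cast hm.ne'
    rw [trz_zero_iff, Matrix.trace_smul, Matrix.trace_one, Fintype.card_fin, smul_eq_mul,
      mul_div_assoc, div_self hm0, mul_one]

open Classical in
/-- the components -/
noncomputable def uu (Q : Prop) (b : Bool) (B : Matrix (Fin m) (Fin m) ℂ) :
    Matrix (Fin m) (Fin m) ℂ →ₗ[ℂ] (Matrix (Fin m) (Fin m) ℂ × (Fin 3 → ℂ)) :=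
  if Q then LinearMap.inr ℂ (Matrix (Fin m) (Fin m) ℂ) (Fin 3 → ℂ) ∘ₗ czL (Dg4_ep b) B
  else LinearMap.inl ℂ (Matrix (Fin m) (Fin m) ℂ) (Fin 3 → ℂ) ∘ₗ trzL m

theorem uu_q {Q : Prop} (hQ : Q) (b : Bool) (B Z : Matrix (Fin m) (Fin m) ℂ) :
    uu Q b B Z = (0, cz (Dg4_ep b) B Z) := by
  unfold uu
  rw [if_pos hQ]
  rfl

theorem uu_n {Q : Prop} (hQ : ¬ Q) (b : Bool) (B Z : Matrix (Fin m) (Fin m) ℂ) :
    uu Q b B Z = (trz Z, 0) := by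
  unfold uu
  rw [if_neg hQ]
  rfl

theorem uu_q0 {Q : Prop} (hQ : Q) {b : Bool} {B Z : Matrix (Fin m) (Fin m) ℂ} :
    uu Q b B Z = 0 ↔ cz (Dg4_ep b) B Z = 0 := by
  rw [uu_q hQ, Prod.ext_iff]
  exact ⟨fun h => h.2, fun h => ⟨rfl, h⟩⟩

theorem uu_n0 {Q : Prop} (hQ : ¬ Q) {b : Bool} {B Z : Matrix (Fin m) (Fin m) ℂ} :
    uu Q b B Z = 0 ↔ trz Z = 0 := by
  rw [uu_n hQ, Prod.ext_iff]
  exact ⟨fun h => h.1, fun h => ⟨h, rfl⟩⟩

theorem uu_sub {Q : Prop} {b : Bool} {B Z Z' : Matrix (Fin m) (Fin m) ℂ} :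
    uu Q b B Z = uu Q b B Z' ↔ uu Q b B (Z - Z') = 0 := by
  rw [map_sub, sub_eq_zero]

end lin

section place

variable {K : Type} [Field K] [NumberField K] {c : K →+* K} {m : ℕ}
  {h : Matrix (Fin m) (Fin m) K} {σ₀ σ : K →+* ℂ} {B : Matrix (Fin m) (Fin m) ℂ}

theorem cjcj (σ : K →+* ℂ) : cj (cj σ) = σ := KSE.cj_cj σ

theorem Hsymm (hc : ∀ (σ : K →+* ℂ) x, cj σ x = σ (c x)) (hh : ∀ a b, c (h a b) = h b a)
    (hσ : cj σ = σ) : (h.map σ)ᵀ = h.map σ := by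
  ext a b
  rw [Matrix.transpose_apply, Matrix.map_apply, Matrix.map_apply, ← hh a b, ← hc, hσ]

theorem Hdet (hnd : h.det ≠ 0) (σ : K →+* ℂ) : IsUnit (h.map σ).det := by
  have h1 : (h.map σ).det = σ h.det := (RingHom.map_det σ h).symm
  rw [h1, isUnit_iff_ne_zero]
  exact (map_ne_zero σ).2 hnd

/-- frames exist -/
theorem exists_fra (hFrm : KQ4.St_Frm) (hc : ∀ (σ : K →+* ℂ) x, cj σ x = σ (c x))
    (hh : ∀ a b, c (h a b) = h b a) (hnd : h.det ≠ 0) (σ : K →+* ℂ) :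
    ∃ B : Matrix (Fin m) (Fin m) ℂ, IsFra h σ B := by
  by_cases hσ : cj σ = σ
  · obtain ⟨B, hB⟩ := hFrm m (h.map σ) (Hsymm hc hh hσ) (Hdet hnd σ)
    refine ⟨B, ?_, fun _ => hB⟩
    have h1 := congrArg Matrix.det hB
    rw [Matrix.det_mul, Matrix.det_one] at h1
    exact IsUnit.of_mul_eq_one_right _ h1
  · exact ⟨1, by rw [Matrix.det_one]; exact isUnit_one, fun h1 => absurd h1 hσ⟩

theorem typ_re (ht : RePl h σ₀ ∨ CoPl h σ₀) (hσ : cj σ = σ) : RePl h σ₀ := by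
  rcases ht with h1 | h1
  · exact h1
  · exact absurd hσ (h1.1 σ)

theorem typ_co (ht : RePl h σ₀ ∨ CoPl h σ₀) (hσ : cj σ ≠ σ) : CoPl h σ₀ := by
  rcases ht with h1 | h1
  · exact absurd (h1.1 σ) hσ
  · exact h1

theorem qn_two (hq : IsQn h σ₀) (hσ : cj σ ≠ σ) : m = 2 := by
  rcases hq with h1 | h1
  · exact absurd (h1.1.1 σ) hσ
  · exact h1.2

theorem Lg_re (hσ : cj σ = σ) : Lg h σ = SO (h.map σ) := by
  unfold Lg
  rw [if_pos hσ]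

theorem Lg_co (hσ : cj σ ≠ σ) : Lg h σ = SL m := by
  unfold Lg
  rw [if_neg hσ]

theorem Lg_skw {Z : Matrix (Fin m) (Fin m) ℂ} (hZ : Z ∈ Lg h σ) : IsSkw h σ Z := by
  intro hσ
  rw [Lg_re hσ] at hZ
  exact hZ

theorem skw_sub {Z Z' : Matrix (Fin m) (Fin m) ℂ} (hZ : IsSkw h σ Z) (hZ' : IsSkw h σ Z') :
    IsSkw h σ (Z - Z') := by
  intro hσ
  exact Submodule.sub_mem (SO (h.map σ)) (hZ hσ) (hZ' hσ)

theorem trz_skw (hnd : h.det ≠ 0) (hσ : cj σ = σ) {Z : Matrix (Fin m) (Fin m) ℂ}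
    (hZ : IsSkw h σ Z) : trz Z = Z :=
  trz_of (trace_SO (Hdet hnd σ) (hZ hσ))

/-- all components of a scalar are zero -/
theorem uu_of_trz (hnd : h.det ≠ 0) (b : Bool) (hB : IsFra h σ B) {W : Matrix (Fin m) (Fin m) ℂ}
    (hW : IsSkw h σ W) (h0 : trz W = 0) : uu (IsQn h σ₀) b B W = 0 := by
  by_cases hq : IsQn h σ₀
  · by_cases hσ : cj σ = σ
    · rw [trz_skw hnd hσ hW] at h0
      rw [h0, map_zero]
    · have hm := qn_two hq hσ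
      rw [uu_q0 hq, ← czL_apply, trz_zero_iff.1 h0, map_smul, czL_apply, cz, if_pos hm,
        Matrix.mul_one, Matrix.nonsing_inv_mul _ hB.1, cs_one hm, smul_zero]
  · rw [uu_n0 hq]
    exact h0

/-- a matrix whose components are all zero is a scalar -/
theorem trz_of_uu (hCzp : St_Czp) (hc : ∀ (σ : K →+* ℂ) x, cj σ x = σ (c x))
    (hh : ∀ a b, c (h a b) = h b a) (hnd : h.det ≠ 0) (hB : IsFra h σ B)
    {W : Matrix (Fin m) (Fin m) ℂ} (hW : IsSkw h σ W) (h0 : ∀ b, uu (IsQn h σ₀) b B W = 0) :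
    trz W = 0 := by
  by_cases hq : IsQn h σ₀
  · exact (hCzp K c m h σ₀ hc hh hnd hq 1 (Or.inl rfl) σ B hB).2.2.2.2.1 W hW
      ((uu_q0 hq).1 (h0 true)) (fun _ => (uu_q0 hq).1 (h0 false))
  · exact (uu_n0 hq).1 (h0 true)

/-- the same for one component, complex places -/
theorem trz_of_uu' (hCzp : St_Czp) (hc : ∀ (σ : K →+* ℂ) x, cj σ x = σ (c x))
    (hh : ∀ a b, c (h a b) = h b a) (hnd : h.det ≠ 0) (hB : IsFra h σ B) (hσ : cj σ ≠ σ) {b : Bool}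
    {W : Matrix (Fin m) (Fin m) ℂ} (h0 : uu (IsQn h σ₀) b B W = 0) :
    trz W = 0 := by
  by_cases hq : IsQn h σ₀
  · have hm := qn_two hq hσ
    exact (hCzp K c m h σ₀ hc hh hnd hq _ (Dg4_ep_or b) σ B hB).2.2.2.2.1 W
      (fun h1 => absurd h1 hσ) ((uu_q0 hq).1 h0) (fun h4 => by omega)
  · exact (uu_n0 hq).1 h0

/-- the kernels of the components are ideals -/
theorem ideal0 (hCzp : St_Czp) (hc : ∀ (σ : K →+* ℂ) x, cj σ x = σ (c x))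
    (hh : ∀ a b, c (h a b) = h b a) (hnd : h.det ≠ 0) (hB : IsFra h σ B) (b : Bool)
    {Z Z' : Matrix (Fin m) (Fin m) ℂ} (hZ : IsSkw h σ Z) (hZ' : IsSkw h σ Z')
    (h0 : uu (IsQn h σ₀) b B Z = 0) : uu (IsQn h σ₀) b B (Z' * Z - Z * Z') = 0 := by
  by_cases hq : IsQn h σ₀
  · rw [uu_q0 hq] at h0 ⊢
    rw [(hCzp K c m h σ₀ hc hh hnd hq _ (Dg4_ep_or b) σ B hB).2.2.1 Z' Z hZ' hZ, h0, map_zero]
  · rw [uu_n0 hq] at h0 ⊢
    rw [trz_br, h0, mul_zero, zero_mul, sub_zero]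

theorem co_of_nq (ht : RePl h σ₀ ∨ CoPl h σ₀) (hqn : RePl h σ₀ → m = 3 ∨ m = 4)
    (hq : ¬ IsQn h σ₀) : CoPl h σ₀ ∧ 4 ≤ m := by
  rcases ht with h1 | h1
  · exact absurd (Or.inl ⟨h1, hqn h1⟩) hq
  · refine ⟨h1, ?_⟩
    have h2 : m ≠ 2 := fun h3 => hq (Or.inr ⟨h1, h3⟩)
    obtain ⟨-, -, -, h3, r, hr⟩ := h1
    omega

/-- the images of the components are not commutative -/
theorem noncomm (hCzp : St_Czp) (hSsl : St_Ssl) (hc : ∀ (σ : K →+* ℂ) x, cj σ x = σ (c x))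
    (hh : ∀ a b, c (h a b) = h b a) (hnd : h.det ≠ 0) (ht : RePl h σ₀ ∨ CoPl h σ₀)
    (hqn : RePl h σ₀ → m = 3 ∨ m = 4) (hB : IsFra h σ B) (b : Bool) :
    ∃ Z ∈ Lg h σ, ∃ Z' ∈ Lg h σ, uu (IsQn h σ₀) b B (Z * Z' - Z' * Z) ≠ 0 := by
  by_cases hq : IsQn h σ₀
  · have hz := hCzp K c m h σ₀ hc hh hnd hq _ (Dg4_ep_or b) σ B hB
    obtain ⟨Z, hZ, hZ1, -⟩ := hz.2.2.2.1 ![1, 0, 0]
    obtain ⟨Z', hZ', hZ1', -⟩ := hz.2.2.2.1 ![0, 1, 0]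
    refine ⟨Z, hZ, Z', hZ', fun h0 => ?_⟩
    rw [uu_q0 hq, hz.2.2.1 _ _ (Lg_skw hZ) (Lg_skw hZ'), hZ1, hZ1'] at h0
    have h1 := congrFun h0 2
    simp [cross_apply] at h1
  · obtain ⟨h1, h2⟩ := co_of_nq ht hqn hq
    obtain ⟨Z, hZ, Z', hZ', h3⟩ := (hSsl m (by omega)).1.nc
    refine ⟨Z, by rw [Lg_co (h1.1 σ)]; exact hZ, Z', by rw [Lg_co (h1.1 σ)]; exact hZ', ?_⟩
    rw [Ne, uu_n0 hq, trz_of (trace_br Z Z'), sub_eq_zero]
    exact h3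

/-- the images of the components are simple -/
theorem simple (hCzp : St_Czp) (hSsl : St_Ssl) (hc : ∀ (σ : K →+* ℂ) x, cj σ x = σ (c x))
    (hh : ∀ a b, c (h a b) = h b a) (hnd : h.det ≠ 0) (ht : RePl h σ₀ ∨ CoPl h σ₀)
    (hqn : RePl h σ₀ → m = 3 ∨ m = 4) (hB : IsFra h σ B) (b : Bool)
    (𝔟 : Submodule ℂ (Matrix (Fin m) (Fin m) ℂ)) (hb : ∀ Z ∈ 𝔟, IsSkw h σ Z)
    (hbr : ∀ Z ∈ 𝔟, ∀ Y ∈ Lg h σ, Y * Z - Z * Y ∈ 𝔟) {Z₀ : Matrix (Fin m) (Fin m) ℂ}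
    (hZ₀ : Z₀ ∈ 𝔟) (h0 : uu (IsQn h σ₀) b B Z₀ ≠ 0) (Y : Matrix (Fin m) (Fin m) ℂ) :
    ∃ Z ∈ 𝔟, uu (IsQn h σ₀) b B Z = uu (IsQn h σ₀) b B Y := by
  by_cases hq : IsQn h σ₀
  · have hz := hCzp K c m h σ₀ hc hh hnd hq _ (Dg4_ep_or b) σ B hB
    have h1 : cz (Dg4_ep b) B Z₀ ≠ 0 := fun h2 => h0 ((uu_q0 hq).2 h2)
    obtain ⟨k, hk⟩ : ∃ k, cz (Dg4_ep b) B Z₀ k ≠ 0 := by
      by_contra hcon
      push Not at hcon
      exact h1 (funext hcon)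
    have hzx : (Pi.single k (cz (Dg4_ep b) B Z₀ k)⁻¹ : Fin 3 → ℂ) ⬝ᵥ cz (Dg4_ep b) B Z₀ = 1 := by
      rw [single_dotProduct, inv_mul_cancel₀ hk]
    generalize (Pi.single k (cz (Dg4_ep b) B Z₀ k)⁻¹ : Fin 3 → ℂ) = z at hzx
    obtain ⟨W, hW, hW1, -⟩ := hz.2.2.2.1 z
    obtain ⟨V, hV, hV1, -⟩ := hz.2.2.2.1 (cz (Dg4_ep b) B Y)
    have h2 := hbr _ hZ₀ V hV
    refine ⟨(W * (V * Z₀ - Z₀ * V) - (V * Z₀ - Z₀ * V) * W) +
      (z ⬝ᵥ cz (Dg4_ep b) B Y) • Z₀, 𝔟.add_mem (hbr _ h2 W hW) (𝔟.smul_mem _ hZ₀), ?_⟩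
    rw [uu_q hq, uu_q hq, hz.1, hz.2.1, hz.2.2.1 _ _ (Lg_skw hW) (hb _ h2),
      hz.2.2.1 _ _ (Lg_skw hV) (hb _ hZ₀), hW1, hV1, Dg4_cross, hzx, one_smul, sub_add_cancel]
  · obtain ⟨h1, h2⟩ := co_of_nq ht hqn hq
    have hS := (hSsl m (by omega)).1
    have h3 := hS.id (𝔟.map (trzL m)) (by
      rintro _ ⟨Z, hZ, rfl⟩
      exact trz_trace (by omega) Z) (by
      rintro X hX _ ⟨Z, hZ, rfl⟩
      refine ⟨X * Z - Z * X, hbr Z hZ X (by rw [Lg_co (h1.1 σ)]; exact hX), ?_⟩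
      rw [trzL_apply, trzL_apply, trz_br, trz_of hX]) (by
      intro h4
      apply h0
      rw [uu_n0 hq]
      have h5 : trzL m Z₀ ∈ 𝔟.map (trzL m) := ⟨Z₀, hZ₀, rfl⟩
      rw [h4] at h5
      exact h5)
    have h4 : trz Y ∈ SL m := trz_trace (by omega) Y
    rw [← h3] at h4
    obtain ⟨Z, hZ, hZY⟩ := h4
    refine ⟨Z, hZ, ?_⟩
    rw [uu_n hq, uu_n hq, ← hZY, trzL_apply]

/-- the value at the dual place -/
theorem trz_dual (hnd : h.det ≠ 0) {W : (K →+* ℂ) → Matrix (Fin m) (Fin m) ℂ} (hW : SkewM h W)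
    (h0 : trz (W σ) = 0) : trz (W (cj σ)) = 0 := by
  have h1 := hW σ
  rw [trz_zero_iff.1 h0] at h1
  generalize (W σ).trace / (m : ℂ) = r at h1
  rw [Matrix.transpose_smul, Matrix.transpose_one, Matrix.smul_mul, Matrix.one_mul] at h1
  have h2 : W (cj σ) = (-r) • (1 : Matrix (Fin m) (Fin m) ℂ) := by
    have h3 : (h.map σ)⁻¹ * (r • h.map σ + h.map σ * W (cj σ)) = 0 := by rw [h1, Matrix.mul_zero]
    rw [Matrix.mul_add, Matrix.mul_smul, Matrix.nonsing_inv_mul _ (Hdet hnd σ), ← Matrix.mul_assoc,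
      Matrix.nonsing_inv_mul _ (Hdet hnd σ), Matrix.one_mul] at h3
    rw [neg_smul]
    exact (neg_eq_of_add_eq_zero_right h3).symm
  rw [h2]
  exact trz_smul_one _

end place

/-! ### Families -/

section fam

variable {I J : Type} [Fintype I] [DecidableEq I] [Fintype J] [DecidableEq J] {e : I → J}
  {n : J → ℕ} {κ : J → Type} [∀ j, Fintype (κ j)] [∀ j, DecidableEq (κ j)] {ϖ : ℂ}
  {P : ∀ j, PData (κ j) ϖ} {K : I → Type} [∀ i, Field (K i)] [∀ i, NumberField (K i)] {m : I → ℕ}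
  {h : ∀ i, Matrix (Fin (m i)) (Fin (m i)) (K i)}
  {t : ∀ i, Fin (m i) → K i → Module.End ℂ (κ (e i) → ℂ)} {k : ℕ}
  {γ : MultilinearMap ℂ (fun _ : Fin (2 * k) => HW κ n) ℂ} {c : ∀ i, K i →+* K i}
  {σ₀ : ∀ i, K i →+* ℂ} {Z : ∀ j, Module.End ℂ (κ j → ℂ)}
  {MZ : ∀ i, (K i →+* ℂ) → Matrix (Fin (m i)) (Fin (m i)) ℂ}

/-- the space of the families of the symmetries -/
def RR (H : FamT e n P h t γ c σ₀ Z MZ) :
    Submodule ℂ (∀ i, (K i →+* ℂ) → Matrix (Fin (m i)) (Fin (m i)) ℂ) where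
  carrier := SyM e n P t γ
  add_mem' := fun hM hN => H.sy.add _ hM _ hN
  zero_mem' := ⟨0, IsInv.zero _ _ _, rfl, fun _ => ActM.zero⟩
  smul_mem' := fun r M hM => H.sy.smul r M hM

theorem skMZ (H : FamT e n P h t γ c σ₀ Z MZ) (i : I) : SkewM (h i) (MZ i) := by
  have := H.ne i
  rw [skewM_iff]
  intro σ x y
  exact ActM.skew (H.S i).conj (H.S i).cliff (H.Z2 i) σ x y

theorem skw_of {F : Type} [Field F] [NumberField F] {r : ℕ} {g : Matrix (Fin r) (Fin r) F}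
    {W : (F →+* ℂ) → Matrix (Fin r) (Fin r) ℂ} (hW : SkewM g W) (σ : F →+* ℂ) :
    IsSkw g σ (W σ) := by
  intro hσ
  have h1 := hW σ
  rw [hσ] at h1
  exact h1

theorem m_pos (H : FamT e n P h t γ c σ₀ Z MZ) (i : I) : 0 < m i := by
  rcases H.sy.typ i with h1 | h1
  · have := h1.2.2.2.1
    omega
  · exact h1.2.2.2.1

/-- a symmetry with the family of `Z` on one member, up to scalars -/
theorem exists_fam (H : FamT e n P h t γ c σ₀ Z MZ) (i : I) :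
    ∃ M ∈ SyM e n P t γ, ∀ σ, trz (M i σ - MZ i σ) = 0 := by
  classical
  have hsk := skMZ H i
  let pz : (K i →+* ℂ) → Matrix (Fin (m i)) (Fin (m i)) ℂ := fun σ =>
    if cj σ = σ then MZ i σ else trz (MZ i σ)
  have hpz : ∀ σ, pz σ ∈ Lg (h i) σ := by
    intro σ
    by_cases hσ : cj σ = σ
    · rw [Lg_re hσ]
      show (if cj σ = σ then MZ i σ else trz (MZ i σ)) ∈ _
      rw [if_pos hσ]
      exact skw_of hsk σ hσ
    · rw [Lg_co hσ]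
      show (if cj σ = σ then MZ i σ else trz (MZ i σ)) ∈ _
      rw [if_neg hσ]
      exact trz_trace (m_pos H i) _
  have hpt : ∀ σ, trz (pz σ - MZ i σ) = 0 := by
    intro σ
    show trz ((if cj σ = σ then MZ i σ else trz (MZ i σ)) - MZ i σ) = 0
    split_ifs with hσ
    · rw [sub_self, ← trzL_apply, map_zero]
    · rw [← trzL_apply, map_sub, trzL_apply, trzL_apply, trz_of (trz_trace (m_pos H i) _),
        sub_self]
  choose F hF hF1 hF0 using fun σ => H.sy.one i σ (pz σ) (hpz σ)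
  let ν := Fintype.equivFin (K i →+* ℂ)
  let G : (K i →+* ℂ) → ∀ i, (K i →+* ℂ) → Matrix (Fin (m i)) (Fin (m i)) ℂ := fun ρ =>
    if ν ρ ≤ ν (cj ρ) then F ρ else 0
  have hG : ∀ ρ, G ρ ∈ RR H := by
    intro ρ
    show (if ν ρ ≤ ν (cj ρ) then F ρ else 0) ∈ RR H
    split_ifs
    · exact hF ρ
    · exact Submodule.zero_mem _
  have hM : ∑ ρ, G ρ ∈ RR H := Submodule.sum_mem _ fun ρ _ => hG ρ
  have hv : ∀ σ, ν σ ≤ ν (cj σ) → (∑ ρ, G ρ) i σ = pz σ := by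
    intro σ hσ
    rw [Finset.sum_apply, Finset.sum_apply, Finset.sum_eq_single σ]
    · show (if ν σ ≤ ν (cj σ) then F σ else 0) i σ = pz σ
      rw [if_pos hσ]
      exact hF1 σ
    · intro ρ _ hρ
      show (if ν ρ ≤ ν (cj ρ) then F ρ else 0) i σ = 0
      split_ifs with h1
      · refine hF0 ρ σ (fun h2 => hρ h2.symm) (fun h2 => ?_)
        rw [h2, cjcj] at hσ
        have h3 := ν.injective (le_antisymm h1 hσ)
        rw [← h2] at h3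
        exact hρ h3
      · rfl
    · intro h1
      exact absurd (Finset.mem_univ _) h1
  refine ⟨∑ ρ, G ρ, hM, fun σ => ?_⟩
  have hW : SkewM (h i) ((∑ ρ, G ρ) i - MZ i) :=
    HMainC.skew_sub (H.sy.skew _ hM i) hsk
  by_cases hσ : ν σ ≤ ν (cj σ)
  · rw [hv σ hσ]
    exact hpt σ
  · have h1 : ν (cj σ) ≤ ν (cj (cj σ)) := by
      rw [cjcj]
      exact (not_le.1 hσ).le
    have h2 := trz_dual (σ := cj σ) (H.sy.nd i) hW (by
      rw [Pi.sub_apply, hv _ h1]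
      exact hpt _)
    rw [cjcj] at h2
    exact h2

/-- real places: equality -/
theorem eq_of_re (H : FamT e n P h t γ c σ₀ Z MZ) {i : I} (hi : RePl (h i) (σ₀ i))
    {M : ∀ i, (K i →+* ℂ) → Matrix (Fin (m i)) (Fin (m i)) ℂ} (hM : M ∈ SyM e n P t γ)
    (h0 : ∀ σ, trz (M i σ - MZ i σ) = 0) (σ : K i →+* ℂ) : M i σ = MZ i σ := by
  have h1 := trz_skw (H.sy.nd i) (hi.1 σ) (skw_sub (skw_of (H.sy.skew _ hM i) σ)
    (skw_of (skMZ H i) σ))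
  rw [h0 σ] at h1
  exact (sub_eq_zero.1 h1.symm)

/-- the subfamily of the members with a property -/
theorem syM_sub (H : FamT e n P h t γ c σ₀ Z MZ) (p : I → Prop)
    {M' : ∀ i : {i // p i}, (K i.1 →+* ℂ) → Matrix (Fin (m i.1)) (Fin (m i.1)) ℂ} :
    M' ∈ SyM (fun i : {i // p i} => e i.1) n P (fun i => t i.1) γ ↔
      ∃ M ∈ SyM e n P t γ, ∀ i : {i // p i}, M i.1 = M' i := by
  classical
  constructor
  · rintro ⟨X, hX, hX2, hXM⟩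
    choose N hN using H.T X hX
    refine ⟨fun i => if hi : p i then M' ⟨i, hi⟩ else N i, ⟨X, hX, hX2, fun i => ?_⟩,
      fun i => dif_pos i.2⟩
    show ActM (t i) (X.1 (e i)) (if hi : p i then M' ⟨i, hi⟩ else N i)
    split_ifs with hi
    · exact hXM ⟨i, hi⟩
    · exact hN i
  · rintro ⟨M, ⟨X, hX, hX2, hXM⟩, hM⟩
    exact ⟨X, hX, hX2, fun i => hM i ▸ hXM i.1⟩

/-- complex places -/
def Cx (K : I → Type) [∀ i, Field (K i)] (i : I) : Prop := ∀ σ : K i →+* ℂ, cj σ ≠ σ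

theorem cx_co (H : FamT e n P h t γ c σ₀ Z MZ) {i : I} (hi : Cx K i) : CoPl (h i) (σ₀ i) :=
  typ_co (H.sy.typ i) (hi (σ₀ i))

theorem famQ (H : FamT e n P h t γ c σ₀ Z MZ) :
    FamQ (fun i : {i // Cx K i} => e i.1) n P (fun i => h i.1) (fun i => t i.1) γ
      (fun i => c i.1) Z (fun i => MZ i.1) where
  pi := H.pi
  S := fun i => H.S i.1
  B := H.B
  A := H.A
  ne := fun i => H.ne i.1
  T := fun X hX i => H.T X hX i.1
  sy :=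
    { conj := fun i => H.sy.conj i.1
      cm := fun i => i.2
      herm := fun i => H.sy.herm i.1
      nd := fun i => H.sy.nd i.1
      m2 := fun i => by
        obtain ⟨-, -, -, h3, r, hr⟩ := cx_co H i.2
        omega
      add := fun M' hM' N' hN' => by
        obtain ⟨M, hM, hMM⟩ := (syM_sub H _).1 hM'
        obtain ⟨N, hN, hNN⟩ := (syM_sub H _).1 hN'
        exact (syM_sub H _).2 ⟨M + N, H.sy.add _ hM _ hN, fun i => by
          rw [Pi.add_apply, Pi.add_apply, hMM, hNN]⟩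
      smul := fun r M' hM' => by
        obtain ⟨M, hM, hMM⟩ := (syM_sub H _).1 hM'
        exact (syM_sub H _).2 ⟨r • M, H.sy.smul r _ hM, fun i => by
          rw [Pi.smul_apply, Pi.smul_apply, hMM]⟩
      br := fun M' hM' N' hN' => by
        obtain ⟨M, hM, hMM⟩ := (syM_sub H _).1 hM'
        obtain ⟨N, hN, hNN⟩ := (syM_sub H _).1 hN'
        exact (syM_sub H _).2 ⟨M * N - N * M, H.sy.br _ hM _ hN, fun i => by
          rw [Pi.sub_apply, Pi.sub_apply, Pi.mul_apply, Pi.mul_apply, Pi.mul_apply, Pi.mul_apply,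
            hMM, hNN]⟩
      tw := fun M' hM' τ => by
        obtain ⟨M, hM, hMM⟩ := (syM_sub H _).1 hM'
        exact (syM_sub H _).2 ⟨_, H.sy.tw _ hM τ, fun i => by rw [hMM]⟩
      skew := fun M' hM' i => by
        obtain ⟨M, hM, hMM⟩ := (syM_sub H _).1 hM'
        rw [← hMM i]
        exact H.sy.skew _ hM i.1
      one := fun i σ W hW => by
        obtain ⟨M, hM, hM1, hM0⟩ := H.sy.one i.1 σ W (by rw [Lg_co (i.2 σ)]; exact hW)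
        exact ⟨fun i => M i.1, (syM_sub H _).2 ⟨M, hM, fun _ => rfl⟩, hM1, hM0⟩ }
  ev := fun i => (cx_co H i.2).2.2.2.2
  Z1 := fun i => H.Z1 i.1
  Z2 := fun i => H.Z2 i.1
  Z3 := H.Z3

/-- no links between the two kinds of pieces -/
theorem no_link (hSsl : St_Ssl) (H : FamT e n P h t γ c σ₀ Z MZ) {i j : I}
    (hi : IsQn (h i) (σ₀ i)) (hj : ¬ IsQn (h j) (σ₀ j)) {σ : K i →+* ℂ} {τ : K j →+* ℂ}
    {b b' : Bool} {B : Matrix (Fin (m i)) (Fin (m i)) ℂ} {B' : Matrix (Fin (m j)) (Fin (m j)) ℂ}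
    (hl : ∀ M ∈ SyM e n P t γ, uu (IsQn (h i) (σ₀ i)) b B (M i σ) = 0 →
      uu (IsQn (h j) (σ₀ j)) b' B' (M j τ) = 0) : False := by
  obtain ⟨hco, h4⟩ := co_of_nq (H.sy.typ j) (H.qn j) hj
  let f : RR H →ₗ[ℂ] (Fin 3 → ℂ) := czL (Dg4_ep b) B ∘ₗ
    ((LinearMap.proj σ : ((K i →+* ℂ) → Matrix (Fin (m i)) (Fin (m i)) ℂ) →ₗ[ℂ] _) ∘ₗ
      (LinearMap.proj i : (∀ i, (K i →+* ℂ) → Matrix (Fin (m i)) (Fin (m i)) ℂ) →ₗ[ℂ] _)) ∘ₗ
      (RR H).subtype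
  let g : RR H →ₗ[ℂ] Matrix (Fin (m j)) (Fin (m j)) ℂ := trzL (m j) ∘ₗ
    ((LinearMap.proj τ : ((K j →+* ℂ) → Matrix (Fin (m j)) (Fin (m j)) ℂ) →ₗ[ℂ] _) ∘ₗ
      (LinearMap.proj j : (∀ i, (K i →+* ℂ) → Matrix (Fin (m i)) (Fin (m i)) ℂ) →ₗ[ℂ] _)) ∘ₗ
      (RR H).subtype
  have hker : LinearMap.ker f ≤ LinearMap.ker g := by
    intro M hM
    have h1 : cz (Dg4_ep b) B (M.1 i σ) = 0 := hM
    exact (uu_n0 hj).1 (hl M.1 M.2 ((uu_q0 hi).2 h1))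
  have hrange : SL (m j) ≤ LinearMap.range g := by
    intro W hW
    obtain ⟨M, hM, hM1, -⟩ := H.sy.one j τ W (by rw [Lg_co (hco.1 τ)]; exact hW)
    refine ⟨⟨M, hM⟩, ?_⟩
    show trz (M j τ) = W
    rw [hM1, trz_of hW]
  have h1 := Submodule.finrank_mono hrange
  have h2 := LinearMap.finrank_range_add_finrank_ker f
  have h3 := LinearMap.finrank_range_add_finrank_ker g
  have h5 := Submodule.finrank_mono hker
  have h6 := Submodule.finrank_le (LinearMap.range f)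
  rw [Module.finrank_fin_fun] at h6
  have h7 := (hSsl (m j) (by omega)).2
  have h8 : 4 * 4 ≤ m j * m j := Nat.mul_le_mul h4 h4
  omega

/-- linked pieces: there is a symmetry with the values of `Z` -/
theorem key (hLtx : St_Ltx) (hFtx : St_Ftx) (hCzp : St_Czp) (hSsl : St_Ssl)
    (H : FamT e n P h t γ c σ₀ Z MZ) (i j : I) (σ : K i →+* ℂ) (τ : K j →+* ℂ)
    (b b' : Bool) {B : Matrix (Fin (m i)) (Fin (m i)) ℂ} {B' : Matrix (Fin (m j)) (Fin (m j)) ℂ}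
    (hB : IsFra (h i) σ B) (hB' : IsFra (h j) τ B')
    (hl : ∀ M ∈ SyM e n P t γ, uu (IsQn (h i) (σ₀ i)) b B (M i σ) = 0 ↔
      uu (IsQn (h j) (σ₀ j)) b' B' (M j τ) = 0) :
    ∃ M ∈ SyM e n P t γ, uu (IsQn (h i) (σ₀ i)) b B (M i σ - MZ i σ) = 0 ∧
      uu (IsQn (h j) (σ₀ j)) b' B' (M j τ - MZ j τ) = 0 := by
  classical
  -- one of them of real type
  have main : ∀ (i j : I) (σ : K i →+* ℂ) (τ : K j →+* ℂ) (b b' : Bool)
      (B : Matrix (Fin (m i)) (Fin (m i)) ℂ) (B' : Matrix (Fin (m j)) (Fin (m j)) ℂ),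
      IsFra (h i) σ B → IsFra (h j) τ B' →
      (∀ M ∈ SyM e n P t γ, uu (IsQn (h i) (σ₀ i)) b B (M i σ) = 0 ↔
        uu (IsQn (h j) (σ₀ j)) b' B' (M j τ) = 0) → RePl (h i) (σ₀ i) →
      ∃ M ∈ SyM e n P t γ, uu (IsQn (h i) (σ₀ i)) b B (M i σ - MZ i σ) = 0 ∧
        uu (IsQn (h j) (σ₀ j)) b' B' (M j τ - MZ j τ) = 0 := by
    intro i j σ τ b b' B B' hB hB' hl hi
    have hqi : IsQn (h i) (σ₀ i) := Or.inl ⟨hi, H.qn i hi⟩
    by_cases hqj : IsQn (h j) (σ₀ j)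
    · obtain ⟨M, hM, hM0⟩ := exists_fam H i
      have heq := eq_of_re H hi hM hM0
      have h1 := hLtx I J e n κ ϖ P K c m h t k γ σ₀ Z MZ H i j hi hqj (Dg4_ep b) (Dg4_ep b')
        (Dg4_ep_or b) (Dg4_ep_or b') σ τ B B' hB hB' (fun N hN =>
          ((uu_q0 hqi).symm.trans (hl N hN)).trans (uu_q0 hqj)) M hM heq
      refine ⟨M, hM, by rw [heq σ, sub_self, map_zero], ?_⟩
      rw [uu_q0 hqj, ← czL_apply, map_sub, czL_apply, czL_apply, h1, sub_self]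
    · exact (no_link hSsl H hqi hqj fun M hM => (hl M hM).1).elim
  rcases H.sy.typ i with hi | hi
  · exact main i j σ τ b b' B B' hB hB' hl hi
  · rcases H.sy.typ j with hj | hj
    · obtain ⟨M, hM, h1, h2⟩ := main j i τ σ b' b B' B hB' hB (fun M hM => (hl M hM).symm) hj
      exact ⟨M, hM, h2, h1⟩
    · obtain ⟨M, hM, hM0⟩ := exists_fam H i
      have hiff : ∀ (i : I) (hi : CoPl (h i) (σ₀ i)) (σ : K i →+* ℂ) (b : Bool)
          (B : Matrix (Fin (m i)) (Fin (m i)) ℂ), IsFra (h i) σ B →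
          ∀ W : Matrix (Fin (m i)) (Fin (m i)) ℂ, uu (IsQn (h i) (σ₀ i)) b B W = 0 ↔ trz W = 0 :=
        fun i hi σ b B hB W => ⟨fun h0 => trz_of_uu' hCzp (H.sy.conj i) (H.sy.herm i) (H.sy.nd i)
          hB (hi.1 σ) h0, fun h0 => uu_of_trz (H.sy.nd i) b hB (fun h1 => absurd h1 (hi.1 σ)) h0⟩
      have h1 := hFtx {i // Cx K i} J (fun i => e i.1) n κ ϖ P (fun i => K i.1) (fun i => c i.1)
        (fun i => m i.1) (fun i => h i.1) (fun i => t i.1) k γ Z (fun i => MZ i.1) (famQ H)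
        ⟨i, hi.1⟩ ⟨j, hj.1⟩ σ τ (by
          intro N' hN'
          obtain ⟨N, hN, hNN⟩ := (syM_sub H _).1 hN'
          rw [← hNN, ← hNN]
          exact ((hiff i hi σ b B hB _).symm.trans (hl N hN)).trans (hiff j hj τ b' B' hB' _))
        (fun i => M i.1) ((syM_sub H _).2 ⟨M, hM, fun _ => rfl⟩) (by
          intro ρ
          have h2 := hM0 ρ
          rw [← trzL_apply, map_sub, sub_eq_zero] at h2
          exact h2) τ
      refine ⟨M, hM, (hiff i hi σ b B hB _).2 (hM0 σ), (hiff j hj τ b' B' hB' _).2 ?_⟩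
      rw [← trzL_apply, map_sub, sub_eq_zero]
      exact h1

end fam

end Dgyx

open Dgyx in
/-- [DGY] -/
theorem thm_Dgy (hLtx : St_Ltx) (hFtx : St_Ftx) (hCzp : St_Czp) (hSsl : St_Ssl)
    (hRpa : KQ4.St_Rpa) (hFrm : KQ4.St_Frm) : St_Dgy := by
  classical
  intro I J _ _ _ _ e _ n κ _ _ ϖ P K _ _ c m h t k γ σ₀ Z MZ H
  choose B hB using fun (q : Σ i, (K i →+* ℂ)) =>
    exists_fra hFrm (H.sy.conj q.1) (H.sy.herm q.1) (H.sy.nd q.1) q.2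
  let cc : ∀ q : (Σ i, (K i →+* ℂ)) × Bool,
      (∀ i, (K i →+* ℂ) → Matrix (Fin (m i)) (Fin (m i)) ℂ) →ₗ[ℂ]
        (Matrix (Fin (m q.1.1)) (Fin (m q.1.1)) ℂ × (Fin 3 → ℂ)) := fun q =>
    uu (IsQn (h q.1.1) (σ₀ q.1.1)) q.2 (B q.1) ∘ₗ
      ((LinearMap.proj q.1.2 :
        ((K q.1.1 →+* ℂ) → Matrix (Fin (m q.1.1)) (Fin (m q.1.1)) ℂ) →ₗ[ℂ] _) ∘ₗ
        (LinearMap.proj q.1.1 :
          (∀ i, (K i →+* ℂ) → Matrix (Fin (m i)) (Fin (m i)) ℂ) →ₗ[ℂ] _))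
  have hcc : ∀ q M, cc q M = uu (IsQn (h q.1.1) (σ₀ q.1.1)) q.2 (B q.1) (M q.1.1 q.1.2) :=
    fun _ _ => rfl
  have hsk : ∀ M ∈ RR H, ∀ i σ, IsSkw (h i) σ (M i σ) := fun M hM i σ =>
    skw_of (H.sy.skew M hM i) σ
  have hone : ∀ i σ, ∀ W ∈ Lg (h i) σ, ∃ M ∈ RR H, M i σ = W := by
    intro i σ W hW
    obtain ⟨M, hM, hM1, -⟩ := H.sy.one i σ W hW
    exact ⟨M, hM, hM1⟩
  obtain ⟨M, hM, hMq⟩ := hRpa (∀ i, (K i →+* ℂ) → Matrix (Fin (m i)) (Fin (m i)) ℂ) (RR H)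
    (fun X hX Y hY => H.sy.br X hX Y hY) ((Σ i, (K i →+* ℂ)) × Bool)
    (fun q => Matrix (Fin (m q.1.1)) (Fin (m q.1.1)) ℂ × (Fin 3 → ℂ)) cc
    (by
      rintro ⟨⟨i, σ⟩, b⟩ X hX Y hY h0
      rw [hcc] at h0 ⊢
      exact ideal0 hCzp (H.sy.conj i) (H.sy.herm i) (H.sy.nd i) (hB ⟨i, σ⟩) b (hsk X hX i σ)
        (hsk Y hY i σ) h0)
    (by
      rintro ⟨⟨i, σ⟩, b⟩
      obtain ⟨Z₁, hZ₁, Z₂, hZ₂, h12⟩ := noncomm hCzp hSsl (H.sy.conj i) (H.sy.herm i) (H.sy.nd i)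
        (H.sy.typ i) (H.qn i) (hB ⟨i, σ⟩) b
      obtain ⟨M₁, hM₁, hMZ₁⟩ := hone i σ Z₁ hZ₁
      obtain ⟨M₂, hM₂, hMZ₂⟩ := hone i σ Z₂ hZ₂
      refine ⟨M₁, hM₁, M₂, hM₂, ?_⟩
      rw [hcc]
      show uu (IsQn (h i) (σ₀ i)) b (B ⟨i, σ⟩) (M₁ i σ * M₂ i σ - M₂ i σ * M₁ i σ) ≠ 0
      rw [hMZ₁, hMZ₂]
      exact h12)
    (by
      rintro ⟨⟨i, σ⟩, b⟩ 𝔞 h𝔞 hbr ⟨X, hX, hX0⟩ Y hY
      obtain ⟨W, ⟨M, hM, hMW⟩, hWY⟩ := simple hCzp hSsl (H.sy.conj i) (H.sy.herm i) (H.sy.nd i)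
        (H.sy.typ i) (H.qn i) (hB ⟨i, σ⟩) b (𝔞.map ((LinearMap.proj σ :
        ((K i →+* ℂ) → Matrix (Fin (m i)) (Fin (m i)) ℂ) →ₗ[ℂ] _) ∘ₗ
        (LinearMap.proj i :
          (∀ i, (K i →+* ℂ) → Matrix (Fin (m i)) (Fin (m i)) ℂ) →ₗ[ℂ] _))) (by
          rintro _ ⟨M, hM, rfl⟩
          exact hsk M (h𝔞 hM) i σ) (by
          rintro _ ⟨M, hM, rfl⟩ V hV
          obtain ⟨M', hM', rfl⟩ := hone i σ V hV
          exact ⟨M' * M - M * M', hbr M hM M' hM', rfl⟩) (Z₀ := X i σ) ⟨X, hX, rfl⟩ hX0 (Y i σ)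
      refine ⟨M, hM, ?_⟩
      rw [hcc, hcc]
      rw [← hMW] at hWY
      exact hWY)
    (fun q => uu (IsQn (h q.1.1) (σ₀ q.1.1)) q.2 (B q.1) (MZ q.1.1 q.1.2))
    (by
      rintro ⟨⟨i, σ⟩, b⟩
      obtain ⟨M, hM, hM0⟩ := exists_fam H i
      refine ⟨M, hM, ?_⟩
      rw [hcc, uu_sub]
      exact uu_of_trz (H.sy.nd i) b (hB ⟨i, σ⟩) (skw_sub (hsk M hM i σ) (skw_of (skMZ H i) σ))
        (hM0 σ))
    (by
      rintro ⟨⟨i, σ⟩, b⟩ ⟨⟨j, τ⟩, b'⟩ hl X hX hXD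
      obtain ⟨N, hN, hN1, hN2⟩ := key hLtx hFtx hCzp hSsl H i j σ τ b b' (hB ⟨i, σ⟩) (hB ⟨j, τ⟩)
        (fun M hM => hl M hM)
      rw [hcc] at hXD
      have h1 : cc (⟨i, σ⟩, b) (X - N) = 0 := by
        rw [map_sub, hcc, hcc, hXD, sub_eq_zero]
        exact (uu_sub.2 hN1).symm
      have h2 := (hl (X - N) ((RR H).sub_mem hX hN)).1 h1
      rw [map_sub, sub_eq_zero] at h2
      rw [h2, hcc]
      exact uu_sub.2 hN2)
  refine ⟨M, hM, fun i σ => ?_⟩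
  have h1 := trz_of_uu (σ₀ := σ₀ i) hCzp (H.sy.conj i) (H.sy.herm i) (H.sy.nd i) (hB ⟨i, σ⟩)
    (skw_sub (hsk M hM i σ) (skw_of (skMZ H i) σ)) (fun b => uu_sub.1 (hMq (⟨i, σ⟩, b)))
  rw [← trzL_apply, map_sub, sub_eq_zero] at h1
  exact h1

end Pool.Agent.KTW
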