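import Pool.Agent.KTW.StU
import Pool.Agent.KSE.BvE
import Pool.Agent.KSE.StarC

/-!
# KTW, module EVA: eigenvectors of the central Clifford operators (helper84)
-/

set_option autoImplicit false

namespace Pool.Agent.KTW

open Module Matrix NumberField Pool.Agent.Helper7 Pool.Agent.KS Pool.Agent.KSE

namespace Evax

/-- two pairs of operators which anticommute -/
lemma comm_aux {R : Type*} [Ring R] {e f e' f' : R} (h1 : e * e' + e' * e = 0)
    (h2 : e * f' + f' * e = 0) (h3 : f * e' + e' * f = 0) (h4 : f * f' + f' * f = 0) :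
    (e * f) * (e' * f') = (e' * f') * (e * f) := by
  have a1 : e * e' = -(e' * e) := eq_neg_of_add_eq_zero_left h1
  have a2 : e * f' = -(f' * e) := eq_neg_of_add_eq_zero_left h2
  have a3 : f * e' = -(e' * f) := eq_neg_of_add_eq_zero_left h3
  have a4 : f * f' = -(f' * f) := eq_neg_of_add_eq_zero_left h4
  calc (e * f) * (e' * f') = e * (f * e') * f' := by noncomm_ring
    _ = -(e * e' * (f * f')) := by rw [a3]; noncomm_ring
    _ = -(e' * (e * f') * f) := by rw [a1, a4]; noncomm_ring
    _ = (e' * f') * (e * f) := by rw [a2]; noncomm_ring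

/-- a number operator is idempotent -/
lemma idem_aux {R : Type*} [Ring R] {e f : R} (h1 : e * f + f * e = 1) (h2 : e * e = 0) :
    (e * f) * (e * f) = e * f := by
  have a1 : f * e = 1 - e * f := by rw [← h1]; abel
  calc (e * f) * (e * f) = e * (f * e) * f := by noncomm_ring
    _ = e * f - (e * e) * (f * f) := by rw [a1]; noncomm_ring
    _ = e * f := by rw [h2, zero_mul, sub_zero]

/-- common eigenvectors of commuting idempotents -/
lemma span_aux {V : Type} [AddCommGroup V] [Module ℂ V] {ι : Type} (P : ι → Module.End ℂ V)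
    (hi : ∀ i, P i * P i = P i) (hc : ∀ i j, P i * P j = P j * P i) (s : Finset ι) :
    Submodule.span ℂ {w : V | ∀ i ∈ s, P i w = w ∨ P i w = 0} = ⊤ := by
  classical
  induction s using Finset.induction_on with
  | empty =>
    have h1 : {w : V | ∀ i ∈ (∅ : Finset ι), P i w = w ∨ P i w = 0} = Set.univ := by
      ext w
      simp
    rw [h1, Submodule.span_univ]
  | insert i s _ ih =>
    rw [eq_top_iff, ← ih, Submodule.span_le]
    intro w hw
    have h1 : w = P i w + (w - P i w) := by abel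
    have h2 : ∀ j, P j (P i w) = P i (P j w) := by
      intro j
      rw [← Module.End.mul_apply, ← Module.End.mul_apply, hc]
    have h3 : P i (P i w) = P i w := by
      rw [← Module.End.mul_apply, hi]
    rw [h1]
    refine Submodule.add_mem _ (Submodule.subset_span ?_) (Submodule.subset_span ?_)
    · intro j hj
      rcases Finset.mem_insert.mp hj with rfl | hj
      · exact Or.inl h3
      · rcases hw j hj with h4 | h4
        · left
          rw [h2, h4]
        · right
          rw [h2, h4, map_zero]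
    · intro j hj
      rcases Finset.mem_insert.mp hj with rfl | hj
      · right
        rw [map_sub, h3, sub_self]
      · rcases hw j hj with h4 | h4
        · left
          rw [map_sub, h2, h4]
        · right
          rw [map_sub, h2, h4, map_zero, sub_zero]

section ops

variable {V : Type} [AddCommGroup V] [Module ℂ V] {K : Type} [Field K] [NumberField K] {m : ℕ}
  {c : K →+* K} {h : Matrix (Fin m) (Fin m) K} {t : Fin m → K → Module.End ℂ V}

/-- the dual vectors -/
noncomputable def yv (h : Matrix (Fin m) (Fin m) K) (σ : K →+* ℂ) (a : Fin m) : Fin m → ℂ :=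
  (1 / 2 : ℂ) • ((h.map σ)⁻¹ *ᵥ Pi.single a 1)

/-- the annihilation operators -/
noncomputable def fo (h : Matrix (Fin m) (Fin m) K) (t : Fin m → K → Module.End ℂ V)
    (σ : K →+* ℂ) (a : Fin m) : Module.End ℂ V :=
  tau (ts t (cj σ)) (yv h σ a)

/-- the number operators -/
noncomputable def po (h : Matrix (Fin m) (Fin m) K) (t : Fin m → K → Module.End ℂ V)
    (σ : K →+* ℂ) (a : Fin m) : Module.End ℂ V :=
  ts t σ a * fo h t σ a

lemma det_ne (S : CMR c h t) (σ : K →+* ℂ) : IsUnit (h.map σ).det := by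
  have e : (h.map σ).det = σ h.det := (RingHom.map_det σ h).symm
  rw [e]
  exact ((map_ne_zero σ).mpr S.nd).isUnit

lemma map_yv (S : CMR c h t) (σ : K →+* ℂ) (a : Fin m) :
    (h.map σ) *ᵥ yv h σ a = (1 / 2 : ℂ) • Pi.single a 1 := by
  rw [yv, Matrix.mulVec_smul, Matrix.mulVec_mulVec, Matrix.mul_nonsing_inv _ (det_ne S σ),
    Matrix.one_mulVec]

lemma pr_yv (S : CMR c h t) (σ : K →+* ℂ) (x : Fin m → ℂ) (a : Fin m) :
    2 * pr h σ x (yv h σ a) = x a := by
  rw [pr, map_yv S, dotProduct_smul, dotProduct_single, smul_eq_mul]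
  ring

lemma fo_tau (S : CMR c h t) (σ : K →+* ℂ) (a : Fin m) (x : Fin m → ℂ) :
    tau (ts t σ) x * fo h t σ a + fo h t σ a * tau (ts t σ) x = x a • 1 := by
  rw [fo, tau_pair S.conj S.cliff, pr_yv S]

lemma ts_fo (S : CMR c h t) (σ : K →+* ℂ) (a b : Fin m) :
    ts t σ a * fo h t σ b + fo h t σ b * ts t σ a = if a = b then 1 else 0 := by
  have h1 := fo_tau S σ b (Pi.single a 1)
  rw [tau_single] at h1
  rw [h1]
  split_ifs with hab
  · rw [hab, Pi.single_eq_same, one_smul]
  · rw [Pi.single_eq_of_ne (fun h => hab h.symm), zero_smul]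

lemma cj_ne {σ τ : K →+* ℂ} (hs : τ ≠ σ) : cj τ ≠ cj σ := by
  intro h1
  apply hs
  have h2 := congrArg (fun ρ => cj ρ) h1
  simp only [cj_cj] at h2
  exact h2

lemma cj_ne' {σ τ : K →+* ℂ} (hs : τ ≠ cj σ) : cj τ ≠ cj (cj σ) := cj_ne hs

lemma ts_fo' (S : CMR c h t) {σ τ : K →+* ℂ} (hs : τ ≠ σ) (a b : Fin m) :
    ts t σ a * fo h t τ b + fo h t τ b * ts t σ a = 0 := by
  have h1 := tau_anti S.conj S.cliff (cj_ne hs) (Pi.single a 1) (yv h τ b)
  rw [tau_single] at h1
  exact h1

lemma fo_fo (S : CMR c h t) {σ τ : K →+* ℂ} (hs : τ ≠ cj σ) (a b : Fin m) :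
    fo h t σ a * fo h t τ b + fo h t τ b * fo h t σ a = 0 :=
  tau_anti S.conj S.cliff (cj_ne' hs) _ _

lemma po_idem (S : CMR c h t) (σ : K →+* ℂ) (a : Fin m) : po h t σ a * po h t σ a = po h t σ a := by
  apply idem_aux
  · rw [ts_fo S, if_pos rfl]
  · have h1 := ts_anti S.conj S.cliff (S.cm σ).symm a a (t := t)
    have h2 : (2 : ℂ) • (ts t σ a * ts t σ a) = 0 := by
      rw [two_smul]
      exact h1
    rcases smul_eq_zero.mp h2 with h3 | h3
    · exact absurd h3 two_ne_zero
    · exact h3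

lemma po_comm (S : CMR c h t) {σ τ : K →+* ℂ} (hs : τ ≠ cj σ) (a b : Fin m) :
    po h t σ a * po h t τ b = po h t τ b * po h t σ a := by
  by_cases h1 : τ = σ
  · subst h1
    by_cases h2 : a = b
    · rw [h2]
    · apply comm_aux
      · exact ts_anti S.conj S.cliff hs a b
      · rw [ts_fo S, if_neg h2]
      · rw [add_comm, ts_fo S, if_neg (fun h => h2 h.symm)]
      · exact fo_fo S hs a b
  · apply comm_aux
    · exact ts_anti S.conj S.cliff hs a b
    · exact ts_fo' S h1 a b
    · rw [add_comm]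
      exact ts_fo' S (fun h => h1 h.symm) b a
    · exact fo_fo S hs a b

/-- the central operator of a place -/
noncomputable def so (h : Matrix (Fin m) (Fin m) K) (t : Fin m → K → Module.End ℂ V)
    (σ : K →+* ℂ) : Module.End ℂ V :=
  ∑ a, po h t σ a - ((m : ℂ) / 2) • 1

lemma so_mem (S : CMR c h t) (σ : K →+* ℂ) : so h t σ ∈ bvS t := by
  have h1 : so h t σ = (1 / 2 : ℂ) • ∑ a, ∑ b, yv h σ a b •
      (ts t σ a * ts t (cj σ) b - ts t (cj σ) b * ts t σ a) := by
    have h2 : ∀ a, ∑ b, yv h σ a b • (ts t σ a * ts t (cj σ) b - ts t (cj σ) b * ts t σ a) =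
        (2 : ℂ) • po h t σ a - 1 := by
      intro a
      have h3 := ts_fo S σ a a
      rw [if_pos rfl] at h3
      have h4 : ts t σ a * fo h t σ a - fo h t σ a * ts t σ a = (2 : ℂ) • po h t σ a - 1 := by
        rw [po, two_smul, ← h3]
        abel
      rw [← h4, fo, tau_apply, Finset.mul_sum, Finset.sum_mul, ← Finset.sum_sub_distrib]
      refine Finset.sum_congr rfl fun b _ => ?_
      rw [mul_smul_comm, smul_mul_assoc, smul_sub]
    rw [Finset.sum_congr rfl fun a _ => h2 a, Finset.sum_sub_distrib, ← Finset.smul_sum, smul_sub,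
      smul_smul, so, Finset.sum_const, Finset.card_univ, Fintype.card_fin]
    congr 1
    · norm_num
    · rw [← Nat.cast_smul_eq_nsmul ℂ, smul_smul]
      congr 1
      ring
  rw [h1]
  refine Submodule.smul_mem _ _ (Submodule.sum_mem _ fun a _ => Submodule.sum_mem _ fun b _ =>
    Submodule.smul_mem _ _ (Submodule.subset_span ⟨σ, a, b, rfl⟩))

lemma so_comm (σ : K →+* ℂ) (X : Module.End ℂ V) : so h t σ * X - X * so h t σ =
    ∑ a, (ts t σ a * (X * fo h t σ a + fo h t σ a * X) -
      (ts t σ a * X + X * ts t σ a) * fo h t σ a) := by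
  have h1 : so h t σ * X - X * so h t σ = ∑ a, (po h t σ a * X - X * po h t σ a) := by
    rw [so, sub_mul, mul_sub, smul_mul_assoc, mul_smul_comm, one_mul, mul_one, Finset.sum_mul,
      Finset.mul_sum, Finset.sum_sub_distrib]
    abel
  rw [h1]
  refine Finset.sum_congr rfl fun a _ => ?_
  rw [po]
  noncomm_ring

/-- the action of the central operator -/
lemma so_act [DecidableEq (K →+* ℂ)] (S : CMR c h t) (σ τ : K →+* ℂ) (x : Fin m → ℂ) :
    so h t σ * tau (ts t τ) x - tau (ts t τ) x * so h t σ =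
      ((if τ = σ then 1 else 0) - (if τ = cj σ then 1 else 0) : ℂ) • tau (ts t τ) x := by
  rw [so_comm]
  by_cases h1 : τ = σ
  · subst h1
    rw [if_pos rfl, if_neg (S.cm τ).symm, sub_zero, one_smul]
    have h2 : ∀ a, ts t τ a * (tau (ts t τ) x * fo h t τ a + fo h t τ a * tau (ts t τ) x) -
      (ts t τ a * tau (ts t τ) x + tau (ts t τ) x * ts t τ a) * fo h t τ a = x a • ts t τ a := by
      intro a
      have h3 := tau_anti S.conj S.cliff (S.cm τ).symm (Pi.single a 1) x (t := t)
      rw [tau_single] at h3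
      rw [fo_tau S, h3, zero_mul, sub_zero, mul_smul_comm, mul_one]
    rw [Finset.sum_congr rfl fun a _ => h2 a, tau_apply]
  · by_cases h2 : τ = cj σ
    · subst h2
      rw [if_neg h1, if_pos rfl, zero_sub]
      have h3 : ∀ a, ts t σ a * (tau (ts t (cj σ)) x * fo h t σ a +
          fo h t σ a * tau (ts t (cj σ)) x) -
          (ts t σ a * tau (ts t (cj σ)) x + tau (ts t (cj σ)) x * ts t σ a) * fo h t σ a =
          -tau (ts t (cj σ)) ((2 * ((h.map σ) *ᵥ x) a) • yv h σ a) := by
        intro a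
        have h4 := tau_anti S.conj S.cliff (S.cm (cj σ)).symm x (yv h σ a) (t := t)
        have h5 := tau_pair S.conj S.cliff σ (Pi.single a 1) x (t := t)
        rw [tau_single, pr, single_dotProduct, one_mul] at h5
        rw [h5, fo, h4, mul_zero, zero_sub, smul_mul_assoc, one_mul, map_smul]
      rw [Finset.sum_congr rfl fun a _ => h3 a, Finset.sum_neg_distrib, ← map_sum, neg_smul,
        one_smul]
      congr 2
      have h6 : ∑ a, (2 * ((h.map σ) *ᵥ x) a) • yv h σ a = (h.map σ)⁻¹ *ᵥ ((h.map σ) *ᵥ x) := by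
        have h7 : (h.map σ) *ᵥ x = ∑ a, ((h.map σ) *ᵥ x) a • (Pi.single a 1 : Fin m → ℂ) := by
          funext b
          rw [Finset.sum_apply, Finset.sum_eq_single b]
          · rw [Pi.smul_apply, Pi.single_eq_same, smul_eq_mul, mul_one]
          · intro a _ hab
            rw [Pi.smul_apply, Pi.single_eq_of_ne (fun h => hab h.symm), smul_zero]
          · intro h; exact absurd (Finset.mem_univ _) h
        conv_rhs => rw [h7, Matrix.mulVec_sum]
        refine Finset.sum_congr rfl fun a _ => ?_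
        rw [yv, Matrix.mulVec_smul, smul_smul]
        congr 1
        ring
      rw [h6, Matrix.mulVec_mulVec, Matrix.nonsing_inv_mul _ (det_ne S σ), Matrix.one_mulVec]
    · rw [if_neg h1, if_neg h2, sub_zero, zero_smul]
      refine Finset.sum_eq_zero fun a _ => ?_
      have h3 := tau_anti S.conj S.cliff h2 (Pi.single a 1) x (t := t)
      rw [tau_single] at h3
      have h4 : τ ≠ cj (cj σ) := by rwa [cj_cj]
      have h5 := tau_anti S.conj S.cliff h4 (yv h σ a) x (t := t)
      rw [h3, fo, add_comm, h5, mul_zero, zero_mul, sub_zero]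

/-- the scalars of a central operator are skew -/
lemma z_skew [Nontrivial V] (S : CMR c h t) (hm : 0 < m) {Z : Module.End ℂ V}
    {z : (K →+* ℂ) → ℂ} (hZ : IsCen t Z z) (σ : K →+* ℂ) : z (cj σ) = -z σ := by
  have h1 := ActM.skew S.conj S.cliff hZ.2 σ (Pi.single ⟨0, hm⟩ 1) (yv h σ ⟨0, hm⟩)
  rw [Matrix.smul_mulVec, Matrix.smul_mulVec, Matrix.one_mulVec, Matrix.one_mulVec, pr_smul_left,
    pr_smul_right] at h1
  have h2 := pr_yv S σ (Pi.single ⟨0, hm⟩ 1) ⟨0, hm⟩
  rw [Pi.single_eq_same] at h2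
  linear_combination 2 * h1 - (z σ + z (cj σ)) * h2

/-- a central operator is a combination of the operators of the places of a type -/
lemma cen_eq [Nontrivial V] [FiniteDimensional ℂ V] [DecidableEq (K →+* ℂ)] (S : CMR c h t)
    (hm : 0 < m) (Ψ : Set (K →+* ℂ)) [DecidablePred (· ∈ Ψ)] (hΨ : IsTyp Ψ) {Z : Module.End ℂ V}
    {z : (K →+* ℂ) → ℂ} (hZ : IsCen t Z z) :
    Z = ∑ σ, (if σ ∈ Ψ then z σ else 0) • so h t σ := by
  apply eq_of_act S.conj S.herm S.nd S.cliff hZ.1 _ hZ.2
  · intro τ x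
    rw [Finset.sum_mul, Finset.mul_sum, ← Finset.sum_sub_distrib, Matrix.smul_mulVec,
      Matrix.one_mulVec, map_smul]
    have h1 : ∀ σ, ((if σ ∈ Ψ then z σ else 0) • so h t σ) * tau (ts t τ) x -
        tau (ts t τ) x * ((if σ ∈ Ψ then z σ else 0) • so h t σ) =
        ((if σ ∈ Ψ then z σ else 0) * ((if τ = σ then 1 else 0) - (if τ = cj σ then 1 else 0))) •
          tau (ts t τ) x := by
      intro σ
      rw [smul_mul_assoc, mul_smul_comm, ← smul_sub, so_act S, smul_smul]
    rw [Finset.sum_congr rfl fun σ _ => h1 σ, ← Finset.sum_smul]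
    congr 1
    have h2 : ∑ σ : K →+* ℂ, (if σ ∈ Ψ then z σ else 0) * (if τ = σ then (1 : ℂ) else 0) =
        if τ ∈ Ψ then z τ else 0 := by
      rw [Finset.sum_eq_single τ]
      · rw [if_pos rfl, mul_one]
      · intro σ _ hσ
        rw [if_neg (show ¬ (τ = σ) from fun h' => hσ h'.symm), mul_zero]
      · intro h; exact absurd (Finset.mem_univ _) h
    have h3 : ∑ σ : K →+* ℂ, (if σ ∈ Ψ then z σ else 0) * (if τ = cj σ then (1 : ℂ) else 0) =
        if cj τ ∈ Ψ then z (cj τ) else 0 := by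
      rw [Finset.sum_eq_single (cj τ)]
      · rw [cj_cj, if_pos rfl, mul_one]
      · intro σ _ hσ
        rw [if_neg (show ¬ (τ = cj σ) from fun h' => hσ (by rw [h', cj_cj])), mul_zero]
      · intro h; exact absurd (Finset.mem_univ _) h
    simp only [mul_sub, Finset.sum_sub_distrib]
    rw [h2, h3, z_skew S hm hZ]
    by_cases h4 : τ ∈ Ψ
    · rw [if_pos h4, if_neg ((hΨ τ).mp h4), sub_zero]
    · rw [if_neg h4, if_pos (by by_contra h5; exact h4 ((hΨ τ).mpr h5))]
      ring
  · exact Submodule.sum_mem _ fun σ _ => Submodule.smul_mem _ _ (so_mem S σ)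

end ops

end Evax

open Evax in
/-- **EVA** -/
theorem thm_Eva : St_Eva := by
  classical
  intro V _ _ _ K _ _ c m h t S
  rcases subsingleton_or_nontrivial V with hV | hV
  · exact Subsingleton.elim _ _
  rcases Nat.eq_zero_or_pos m with hm | hm
  · subst hm
    rw [eq_top_iff]
    intro v _
    refine Submodule.subset_span ⟨fun _ => 0, fun _ => rfl, ?_⟩
    intro Z z hZ
    have h1 : Z = 0 := by
      have h2 := hZ.1
      have h3 : {Z : Module.End ℂ V | ∃ σ a b, Z = ts t σ a * ts t (cj σ) b -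
          ts t (cj σ) b * ts t σ a} = ∅ := by
        ext Y
        simp only [Set.mem_setOf_eq, Set.mem_empty_iff_false, iff_false]
        rintro ⟨_, a, _⟩
        exact a.elim0
      rw [bvS, h3, Submodule.span_empty] at h2
      exact (Submodule.mem_bot ℂ).mp h2
    rw [h1, LinearMap.zero_apply]
    simp
  -- a type
  let ν := Fintype.equivFin (K →+* ℂ)
  let Ψ : Set (K →+* ℂ) := {σ | ν σ < ν (cj σ)}
  have hΨ : IsTyp Ψ := by
    intro σ
    show ν σ < ν (cj σ) ↔ ¬ (ν (cj σ) < ν (cj (cj σ)))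
    rw [cj_cj, not_lt]
    constructor
    · intro h1
      exact h1.le
    · intro h1
      refine lt_of_le_of_ne h1 fun h2 => ?_
      exact S.cm σ (ν.injective h2).symm
  let ι := {σ : K →+* ℂ // σ ∈ Ψ} × Fin m
  let P : ι → Module.End ℂ V := fun i => po h t i.1.1 i.2
  have hne : ∀ i j : ι, j.1.1 ≠ cj i.1.1 := by
    intro i j h1
    have h2 := (hΨ i.1.1).mp i.1.2
    rw [← h1] at h2
    exact h2 j.1.2
  have hspan := span_aux P (fun i => po_idem S _ _) (fun i j => po_comm S (hne i j) _ _)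
    Finset.univ
  rw [eq_top_iff, ← hspan, Submodule.span_le]
  intro v hv
  apply Submodule.subset_span
  -- the numbers
  let N : (K →+* ℂ) → ℕ := fun σ => (Finset.univ.filter fun a : Fin m => po h t σ a v = v).card
  have hN : ∀ σ, N σ ≤ m := by
    intro σ
    have h1 := Finset.card_filter_le (Finset.univ : Finset (Fin m)) fun a => po h t σ a v = v
    rw [Finset.card_univ, Fintype.card_fin] at h1
    exact h1
  have hNs : ∀ σ ∈ Ψ, so h t σ v = ((N σ : ℂ) - (m : ℂ) / 2) • v := by
    intro σ hσ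
    rw [so, LinearMap.sub_apply, LinearMap.sum_apply, LinearMap.smul_apply, Module.End.one_apply,
      sub_smul]
    congr 1
    have h1 : ∀ a, po h t σ a v = (if po h t σ a v = v then (1 : ℂ) else 0) • v := by
      intro a
      split_ifs with h2
      · rw [h2, one_smul]
      · rw [zero_smul]
        rcases hv (⟨σ, hσ⟩, a) (Finset.mem_univ _) with h3 | h3
        · exact absurd h3 h2
        · exact h3
    rw [Finset.sum_congr rfl fun a _ => h1 a, ← Finset.sum_smul, Finset.sum_boole]
  let n : (K →+* ℂ) → ℕ := fun σ => if σ ∈ Ψ then N σ else m - N (cj σ)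
  refine ⟨n, ?_, ?_⟩
  · intro σ
    by_cases h1 : σ ∈ Ψ
    · have h2 := (hΨ σ).mp h1
      show (if σ ∈ Ψ then N σ else m - N (cj σ)) +
        (if cj σ ∈ Ψ then N (cj σ) else m - N (cj (cj σ))) = m
      rw [if_pos h1, if_neg h2, cj_cj]
      have := hN σ
      omega
    · have h2 : cj σ ∈ Ψ := by
        by_contra h3
        exact h1 ((hΨ σ).mpr h3)
      show (if σ ∈ Ψ then N σ else m - N (cj σ)) +
        (if cj σ ∈ Ψ then N (cj σ) else m - N (cj (cj σ))) = m
      rw [if_neg h1, if_pos h2]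
      have := hN (cj σ)
      omega
  · intro Z z hZ
    have h1 := cen_eq S hm Ψ hΨ hZ
    have h2 : Z v = ∑ σ, (if σ ∈ Ψ then z σ else 0) • so h t σ v := by
      conv_lhs => rw [h1]
      rw [LinearMap.sum_apply]
      rfl
    have h3 : ∀ σ, (if σ ∈ Ψ then z σ else 0) • so h t σ v =
        ((if σ ∈ Ψ then z σ * ((N σ : ℂ) - (m : ℂ) / 2) else 0)) • v := by
      intro σ
      split_ifs with h4
      · rw [hNs σ h4, smul_smul]
      · rw [zero_smul, zero_smul]
    rw [h2, Finset.sum_congr rfl fun σ _ => h3 σ, ← Finset.sum_smul]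
    congr 1
    -- the sum over the places
    have h5 : ∀ σ, z σ * ((n σ : ℂ) / 2 - (m : ℂ) / 4) =
        (if σ ∈ Ψ then z σ * ((N σ : ℂ) - (m : ℂ) / 2) / 2 else 0) +
        (if cj σ ∈ Ψ then z (cj σ) * ((N (cj σ) : ℂ) - (m : ℂ) / 2) / 2 else 0) := by
      intro σ
      by_cases h6 : σ ∈ Ψ
      · rw [if_pos h6, if_neg ((hΨ σ).mp h6)]
        show z σ * (((if σ ∈ Ψ then N σ else m - N (cj σ) : ℕ) : ℂ) / 2 - (m : ℂ) / 4) = _
        rw [if_pos h6]
        ring
      · have h7 : cj σ ∈ Ψ := by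
          by_contra h8
          exact h6 ((hΨ σ).mpr h8)
        rw [if_neg h6, if_pos h7]
        show z σ * (((if σ ∈ Ψ then N σ else m - N (cj σ) : ℕ) : ℂ) / 2 - (m : ℂ) / 4) = _
        rw [if_neg h6, Nat.cast_sub (hN _), z_skew S hm hZ]
        ring
    rw [Finset.sum_congr rfl fun σ _ => h5 σ, Finset.sum_add_distrib]
    have h6 : ∑ σ : K →+* ℂ, (if cj σ ∈ Ψ then z (cj σ) * ((N (cj σ) : ℂ) - (m : ℂ) / 2) / 2
        else 0) = ∑ σ : K →+* ℂ, (if σ ∈ Ψ then z σ * ((N σ : ℂ) - (m : ℂ) / 2) / 2 else 0) := by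
      have h7 : Function.Involutive (fun σ : K →+* ℂ => cj σ) := fun σ => cj_cj σ
      exact Equiv.sum_comp h7.toPerm
        (fun σ => if σ ∈ Ψ then z σ * ((N σ : ℂ) - (m : ℂ) / 2) / 2 else 0)
    rw [h6, ← Finset.sum_add_distrib]
    refine Finset.sum_congr rfl fun σ _ => ?_
    split_ifs
    · ring
    · ring

end Pool.Agent.KTW
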