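import Pool.Agent.KTW.StU

/-!
KTW, module EVB: vacuum vectors of a CM type.
-/

set_option autoImplicit false

namespace Pool.Agent.KTW

open Module Matrix NumberField Pool.Agent.Helper7 Pool.Agent.KS Pool.Agent.Ball Pool.Agent.KSE
  Pool.Agent.Helper28.GPC Pool.Agent.K3P Pool.Agent.KTP

namespace Evbx

section

variable {V : Type} [AddCommGroup V] [Module ℂ V] {K : Type} [Field K] [NumberField K]
  {c : K →+* K} {m : ℕ} {h : Matrix (Fin m) (Fin m) K} {t : Fin m → K → Module.End ℂ V}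

/-- existence of vacuum vectors, by induction on the pairs -/
lemma exists_vac (H : CMR c h t) (Ψ : Set (K →+* ℂ)) (hΨ : IsTyp Ψ) (hV : Nontrivial V)
    (s : Finset ((K →+* ℂ) × Fin m)) :
    ∃ v : V, v ≠ 0 ∧ ∀ p ∈ s, p.1 ∈ Ψ → ts t p.1 p.2 v = 0 := by
  classical
  induction s using Finset.induction_on with
  | empty =>
    obtain ⟨v, hv⟩ := exists_ne (0 : V)
    exact ⟨v, hv, fun p hp => absurd hp (Finset.notMem_empty p)⟩
  | insert p s hp ih =>
    obtain ⟨v, hv, hs⟩ := ih
    by_cases h1 : p.1 ∈ Ψ ∧ ts t p.1 p.2 v ≠ 0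
    · obtain ⟨h2, h3⟩ := h1
      refine ⟨ts t p.1 p.2 v, h3, ?_⟩
      intro q hq hqΨ
      have hne : p.1 ≠ cj q.1 := by
        intro he
        apply (hΨ q.1).mp hqΨ
        rw [← he]
        exact h2
      have h4 := LinearMap.congr_fun (ts_anti H.conj H.cliff hne q.2 p.2) v
      rw [LinearMap.add_apply, Module.End.mul_apply, Module.End.mul_apply,
        LinearMap.zero_apply] at h4
      rcases Finset.mem_insert.mp hq with he | hq'
      · subst he
        have h5 : (2 : ℂ) • ts t q.1 q.2 (ts t q.1 q.2 v) = 0 := by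
          rw [two_smul]
          exact h4
        exact (smul_eq_zero.mp h5).resolve_left two_ne_zero
      · rw [hs q hq' hqΨ, map_zero, add_zero] at h4
        exact h4
    · refine ⟨v, hv, ?_⟩
      intro q hq hqΨ
      rcases Finset.mem_insert.mp hq with he | hq'
      · subst he
        by_contra h3
        exact h1 ⟨hqΨ, h3⟩
      · exact hs q hq' hqΨ

/-- an operator acts if it acts on the generators -/
lemma act_of {X : Module.End ℂ V} {M : (K →+* ℂ) → Matrix (Fin m) (Fin m) ℂ}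
    (hX : ∀ σ d, X * ts t σ d - ts t σ d * X = ∑ a, M σ a d • ts t σ a) : ActM t X M := by
  intro σ x
  have h1 : X * tau (ts t σ) x - tau (ts t σ) x * X =
      ∑ d, x d • (X * ts t σ d - ts t σ d * X) := by
    rw [tau_apply, Finset.mul_sum, Finset.sum_mul, ← Finset.sum_sub_distrib]
    refine Finset.sum_congr rfl fun d _ => ?_
    rw [mul_smul_comm, smul_mul_assoc, smul_sub]
  rw [h1, tau_apply, Finset.sum_congr rfl fun d _ => by rw [hX σ d]]
  simp only [Finset.smul_sum, smul_smul]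
  rw [Finset.sum_comm]
  refine Finset.sum_congr rfl fun a _ => ?_
  rw [← Finset.sum_smul]
  congr 1
  rw [Matrix.mulVec, dotProduct]
  exact Finset.sum_congr rfl fun d _ => mul_comm _ _

/-- the action of the commutators -/
lemma bracket_act (H : CMR c h t) (σ : K →+* ℂ) (a b : Fin m) :
    ∃ M : (K →+* ℂ) → Matrix (Fin m) (Fin m) ℂ,
      ActM t (ts t σ a * ts t (cj σ) b - ts t (cj σ) b * ts t σ a) M ∧
      (M σ).trace = 4 * σ (h a b) ∧ (M (cj σ)).trace = -(4 * σ (h a b)) ∧
      ∀ τ, τ ≠ σ → τ ≠ cj σ → (M τ).trace = 0 := by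
  classical
  have hcs : cj σ ≠ σ := H.cm σ
  refine ⟨fun τ => Matrix.of fun e d => (if τ = σ then (if e = a then 4 * σ (h d b) else 0) else 0) -
      (if τ = cj σ then (if e = b then 4 * σ (h a d) else 0) else 0), ?_, ?_, ?_, ?_⟩
  · refine act_of fun τ d => ?_
    have p1 := ts_cliff_sum H.conj H.cliff (cj σ) τ b d
    have p2 := ts_cliff_sum H.conj H.cliff σ τ a d
    have p3 := ts_pair H.conj H.cliff σ a b
    rw [KSE.cj_cj] at p1
    have e1 : (cj σ) (h b d) = σ (h d b) := by
      rw [H.conj, H.herm]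
    rw [e1] at p1
    have e2 : (ts t σ a * ts t (cj σ) b - ts t (cj σ) b * ts t σ a) * ts t τ d -
        ts t τ d * (ts t σ a * ts t (cj σ) b - ts t (cj σ) b * ts t σ a) =
        (ts t σ a * (ts t (cj σ) b * ts t τ d + ts t τ d * ts t (cj σ) b) +
          ts t σ a * (ts t (cj σ) b * ts t τ d + ts t τ d * ts t (cj σ) b)) -
        ((ts t σ a * ts t τ d + ts t τ d * ts t σ a) * ts t (cj σ) b +
          (ts t σ a * ts t τ d + ts t τ d * ts t σ a) * ts t (cj σ) b) -
        ((ts t σ a * ts t (cj σ) b + ts t (cj σ) b * ts t σ a) * ts t τ d -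
          ts t τ d * (ts t σ a * ts t (cj σ) b + ts t (cj σ) b * ts t σ a)) := by
      noncomm_ring
    have key : (ts t σ a * ts t (cj σ) b - ts t (cj σ) b * ts t σ a) * ts t τ d -
        ts t τ d * (ts t σ a * ts t (cj σ) b - ts t (cj σ) b * ts t σ a) =
        (if τ = σ then 4 * σ (h d b) else 0 : ℂ) • ts t σ a -
          (if τ = cj σ then 4 * σ (h a d) else 0 : ℂ) • ts t (cj σ) b := by
      rw [e2, p1, p2, p3, mul_smul_comm, smul_mul_assoc, smul_mul_assoc, mul_smul_comm, mul_one,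
        one_mul, one_mul, mul_one, sub_self, sub_zero, ← add_smul, ← add_smul]
      congr 2
      · split_ifs
        · ring
        · ring
      · split_ifs
        · ring
        · ring
    rw [key]
    simp only [Matrix.of_apply, sub_smul, Finset.sum_sub_distrib]
    congr 1
    · by_cases hτ : τ = σ
      · subst hτ
        simp only [if_pos]
        rw [Finset.sum_eq_single a]
        · rw [if_pos rfl]
        · intro e _ he
          rw [if_neg he, zero_smul]
        · intro h; exact absurd (Finset.mem_univ _) h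
      · simp only [if_neg hτ, zero_smul, Finset.sum_const_zero]
    · by_cases hτ : τ = cj σ
      · rw [if_pos hτ, ← hτ]
        simp only [if_pos]
        rw [Finset.sum_eq_single b]
        · rw [if_pos rfl]
        · intro e _ he
          rw [if_neg he, zero_smul]
        · intro h; exact absurd (Finset.mem_univ _) h
      · simp only [if_neg hτ, zero_smul, Finset.sum_const_zero]
  · rw [Matrix.trace]
    simp only [Matrix.diag_apply, Matrix.of_apply, if_true]
    rw [Finset.sum_eq_single a]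
    · rw [if_pos rfl, if_neg hcs.symm, sub_zero]
    · intro e _ he
      rw [if_neg he, if_neg hcs.symm, sub_zero]
    · intro h; exact absurd (Finset.mem_univ _) h
  · rw [Matrix.trace]
    simp only [Matrix.diag_apply, Matrix.of_apply, if_true]
    rw [Finset.sum_eq_single b]
    · rw [if_pos rfl, if_neg hcs, zero_sub]
    · intro e _ he
      rw [if_neg he, if_neg hcs, sub_zero]
    · intro h; exact absurd (Finset.mem_univ _) h
  · intro τ h1 h2
    rw [Matrix.trace]
    simp only [Matrix.diag_apply, Matrix.of_apply, if_neg h1, if_neg h2, sub_zero,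
      Finset.sum_const_zero]

omit [NumberField K] in
lemma sg_pos (n : ℕ) {Ψ : Set (K →+* ℂ)} {σ : K →+* ℂ} (hσ : σ ∈ Ψ) : sg n Ψ σ = (n : ℂ) / 4 := by
  unfold sg
  rw [if_pos hσ]

omit [NumberField K] in
lemma sg_neg (n : ℕ) {Ψ : Set (K →+* ℂ)} {σ : K →+* ℂ} (hσ : σ ∉ Ψ) :
    sg n Ψ σ = -((n : ℂ) / 4) := by
  unfold sg
  rw [if_neg hσ]

/-- sums over two conjugate places -/
lemma sum_two {σ : K →+* ℂ} (hσ : cj σ ≠ σ) (f : (K →+* ℂ) → ℂ)
    (hf : ∀ τ, τ ≠ σ → τ ≠ cj σ → f τ = 0) : ∑ τ, f τ = f σ + f (cj σ) := by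
  classical
  rw [← Finset.sum_subset (Finset.subset_univ ({σ, cj σ} : Finset (K →+* ℂ))),
    Finset.sum_pair hσ.symm]
  intro τ _ hτ
  rw [Finset.mem_insert, Finset.mem_singleton, not_or] at hτ
  exact hf τ hτ.1 hτ.2

/-- the action on vacuum vectors -/
lemma act_vac (H : CMR c h t) {Ψ : Set (K →+* ℂ)} (hΨ : IsTyp Ψ) {v : V}
    (hv : IsVac t Ψ v) (Z : Module.End ℂ V) (hZ : Z ∈ bvS t) :
    ∃ M, ActM t Z M ∧ Z v = (∑ σ, (M σ).trace * sg 1 Ψ σ) • v := by
  classical
  unfold bvS at hZ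
  induction hZ using Submodule.span_induction with
  | mem Z hZ =>
    obtain ⟨σ, a, b, rfl⟩ := hZ
    obtain ⟨M, hM, h1, h2, h3⟩ := bracket_act H σ a b
    refine ⟨M, hM, ?_⟩
    rw [sum_two (H.cm σ) (fun τ => (M τ).trace * sg 1 Ψ τ)
      (fun τ hτ hτ' => by rw [h3 τ hτ hτ', zero_mul]), h1, h2]
    have h4 := LinearMap.congr_fun (ts_pair H.conj H.cliff σ a b) v
    rw [LinearMap.add_apply, Module.End.mul_apply, Module.End.mul_apply,
      LinearMap.smul_apply, Module.End.one_apply] at h4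
    rw [LinearMap.sub_apply, Module.End.mul_apply, Module.End.mul_apply]
    by_cases hσ : σ ∈ Ψ
    · have hσ' : cj σ ∉ Ψ := (hΨ σ).mp hσ
      rw [hv σ hσ a, map_zero, add_zero] at h4
      rw [hv σ hσ a, map_zero, sub_zero, h4, sg_pos 1 hσ, sg_neg 1 hσ']
      congr 1
      push_cast
      ring
    · have hσ' : cj σ ∈ Ψ := by
        by_contra h5
        exact hσ ((hΨ σ).mpr h5)
      rw [hv (cj σ) hσ' b, map_zero, zero_add] at h4
      rw [hv (cj σ) hσ' b, map_zero, zero_sub, h4, sg_neg 1 hσ, sg_pos 1 hσ', ← neg_smul]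
      congr 1
      push_cast
      ring
  | zero =>
    refine ⟨0, ActM.zero, ?_⟩
    simp
  | add x y _ _ hx hy =>
    obtain ⟨M, hM, h1⟩ := hx
    obtain ⟨N, hN, h2⟩ := hy
    refine ⟨M + N, hM.add hN, ?_⟩
    rw [LinearMap.add_apply, h1, h2, ← add_smul, ← Finset.sum_add_distrib]
    congr 1
    refine Finset.sum_congr rfl fun σ _ => ?_
    rw [Pi.add_apply, Matrix.trace_add, add_mul]
  | smul r x _ hx =>
    obtain ⟨M, hM, h1⟩ := hx
    refine ⟨r • M, hM.smul r, ?_⟩
    rw [LinearMap.smul_apply, h1, smul_smul, Finset.mul_sum]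
    congr 1
    refine Finset.sum_congr rfl fun σ _ => ?_
    rw [Pi.smul_apply, Matrix.trace_smul, smul_eq_mul, mul_assoc]

/-- eigenvalues of an operator with a spanning set of eigenvectors -/
lemma eig_zero (Z : Module.End ℂ V) (S : Finset ℂ) (T : Set V) (hT : Submodule.span ℂ T = ⊤)
    (hS : ∀ v ∈ T, ∃ μ ∈ S, Z v = μ • v) (μ : ℂ) (hμ : μ ∉ S) (w : V) (hw : Z w = μ • w) :
    w = 0 := by
  classical
  have h1 : ∀ (v : V) (ν : ℂ), Z v = ν • v → ∀ p : Polynomial ℂ,
      Polynomial.aeval Z p v = p.eval ν • v := by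
    intro v ν hv p
    by_cases h0 : v = 0
    · rw [h0, map_zero, smul_zero]
    · exact Module.End.aeval_apply_of_hasEigenvector
        ⟨Module.End.mem_eigenspace_iff.mpr hv, h0⟩
  obtain ⟨p, hp⟩ : ∃ p : Polynomial ℂ, p = ∏ ν ∈ S, (Polynomial.X - Polynomial.C ν) := ⟨_, rfl⟩
  have h2 : Polynomial.aeval Z p = 0 := by
    apply LinearMap.ext
    intro v
    have h3 : v ∈ Submodule.span ℂ T := by
      rw [hT]
      exact Submodule.mem_top
    rw [LinearMap.zero_apply]
    induction h3 using Submodule.span_induction with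
    | mem v hv =>
      obtain ⟨ν, hν, hZ⟩ := hS v hv
      rw [h1 v ν hZ p, hp, Polynomial.eval_prod, Finset.prod_eq_zero hν, zero_smul]
      rw [Polynomial.eval_sub, Polynomial.eval_X, Polynomial.eval_C, sub_self]
    | zero => rw [map_zero]
    | add x y _ _ hx hy => rw [map_add, hx, hy, add_zero]
    | smul r x _ hx => rw [map_smul, hx, smul_zero]
  have h3 := h1 w μ hw p
  rw [h2, LinearMap.zero_apply] at h3
  refine (smul_eq_zero.mp h3.symm).resolve_left ?_
  rw [hp, Polynomial.eval_prod]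
  refine Finset.prod_ne_zero_iff.mpr fun ν hν => ?_
  rw [Polynomial.eval_sub, Polynomial.eval_X, Polynomial.eval_C]
  intro h4
  exact hμ (by rw [sub_eq_zero.mp h4]; exact hν)

end

end Evbx

open Evbx

/-- **EVB** -/
theorem thm_Evb (hEva : St_Eva) : St_Evb := by
  classical
  intro V _ _ _ K _ _ c m h t H Ψ hΨ
  refine ⟨?_, ?_, ?_⟩
  · intro hV
    obtain ⟨v, hv, hv'⟩ := exists_vac H Ψ hΨ hV Finset.univ
    exact ⟨v, hv, fun σ hσ a => hv' (σ, a) (Finset.mem_univ _) hσ⟩
  · intro v hv Z M hZ hM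
    by_cases hv0 : v = 0
    · rw [hv0, map_zero, smul_zero]
    · have : Nontrivial V := ⟨⟨v, 0, hv0⟩⟩
      obtain ⟨N, hN, h1⟩ := act_vac H hΨ hv Z hZ
      rw [ActM.unique H.conj H.cliff H.nd hM hN]
      exact h1
  · intro v hv σ hσ a
    have hcs := H.cm σ
    have hσ' : cj σ ∉ Ψ := (hΨ σ).mp hσ
    obtain ⟨z, hz⟩ : ∃ z : (K →+* ℂ) → ℂ, z = fun τ => if τ = σ then 1 else if τ = cj σ then -1
      else 0 := ⟨_, rfl⟩
    have hz1 : z σ = 1 := by rw [hz]; simp only [if_true]
    have hz2 : z (cj σ) = -1 := by rw [hz]; simp only [if_true, if_neg hcs]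
    have hz3 : ∀ τ, τ ≠ σ → τ ≠ cj σ → z τ = 0 := by
      intro τ h1 h2
      rw [hz]
      simp only [if_neg h1, if_neg h2]
    have hzs : ∀ τ, z (cj τ) = -z τ := by
      intro τ
      by_cases h1 : τ = σ
      · rw [h1, hz1, hz2]
      · by_cases h2 : τ = cj σ
        · rw [h2, KSE.cj_cj, hz1, hz2, neg_neg]
        · rw [hz3 τ h1 h2, hz3, neg_zero]
          · intro h3
            apply h2
            rw [← h3, KSE.cj_cj]
          · intro h3
            apply h1
            rw [← KSE.cj_cj τ, h3, KSE.cj_cj]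
    have hskew : SkewM h fun τ => z τ • (1 : Matrix (Fin m) (Fin m) ℂ) := by
      intro τ
      show (z τ • (1 : Matrix (Fin m) (Fin m) ℂ))ᵀ * h.map τ +
        h.map τ * (z (cj τ) • (1 : Matrix (Fin m) (Fin m) ℂ)) = 0
      rw [hzs τ, Matrix.transpose_smul, Matrix.transpose_one, smul_mul_assoc, one_mul,
        mul_smul_comm, mul_one, neg_smul, add_neg_cancel]
    obtain ⟨Z, hZ, hZM⟩ := exists_bvE H.conj H.herm H.nd H.cliff _ hskew
    have hcen : IsCen t Z z := ⟨hZ, hZM⟩
    have h1 : Z v = ((m : ℂ) / 2) • v := by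
      rw [hv Z z hcen, sum_two hcs (fun τ => z τ * sg m Ψ τ)
        (fun τ h2 h3 => by rw [hz3 τ h2 h3, zero_mul]), hz1, hz2, sg_pos m hσ, sg_neg m hσ']
      congr 1
      ring
    have h2 : Z (ts t σ a v) = ((m : ℂ) / 2 + 1) • ts t σ a v := by
      have h3 := LinearMap.congr_fun (hZM σ (Pi.single a 1)) v
      have h4 : (fun τ => z τ • (1 : Matrix (Fin m) (Fin m) ℂ)) σ *ᵥ Pi.single a (1 : ℂ) =
          Pi.single a 1 := by
        show (z σ • (1 : Matrix (Fin m) (Fin m) ℂ)) *ᵥ Pi.single a (1 : ℂ) = Pi.single a 1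
        rw [hz1, one_smul, Matrix.one_mulVec]
      rw [h4, KS.tau_single, LinearMap.sub_apply,
        Module.End.mul_apply, Module.End.mul_apply, h1, map_smul] at h3
      rw [add_smul, one_smul]
      exact (sub_eq_iff_eq_add'.mp h3)
    refine eig_zero Z ((Finset.range (m + 1)).image fun k : ℕ => (k : ℂ) - (m : ℂ) / 2) _
      (hEva V K c m h t H) ?_ ((m : ℂ) / 2 + 1) ?_ _ h2
    · rintro w ⟨n, hn, hw⟩
      refine ⟨(n σ : ℂ) - (m : ℂ) / 2, ?_, ?_⟩
      · refine Finset.mem_image.mpr ⟨n σ, ?_, rfl⟩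
        rw [Finset.mem_range]
        have := hn σ
        omega
      · rw [hw Z z hcen, sum_two hcs (fun τ => z τ * ((n τ : ℂ) / 2 - (m : ℂ) / 4))
          (fun τ h2 h3 => by rw [hz3 τ h2 h3, zero_mul]), hz1, hz2]
        congr 1
        have h5 : (n σ : ℂ) + (n (cj σ) : ℂ) = (m : ℂ) := by
          rw [← Nat.cast_add, hn σ]
        linear_combination (-(1 : ℂ) / 2) * h5
    · intro h3
      obtain ⟨k, hk, hk'⟩ := Finset.mem_image.mp h3
      rw [Finset.mem_range] at hk
      have h4 : (k : ℂ) = ((m + 1 : ℕ) : ℂ) := by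
        push_cast
        linear_combination hk'
      have h5 : k = m + 1 := Nat.cast_injective h4
      omega

end Pool.Agent.KTW
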