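import Pool.Agent.KTW.StX

/-!
Module FLX. A map of Clifford modules. The proof is in the docstring of `St_Flx`.
-/

set_option autoImplicit false

namespace Pool.Agent.KTW

open Module Matrix NumberField Pool.Agent.Helper7 Pool.Agent.KS Pool.Agent.Ball Pool.Agent.KSE
  Pool.Agent.KSE.BvE

namespace Flxx

/-- `z ↦ 4 (u, z) w`, `z` at the place `cj σ` -/
noncomputable def RM {K : Type} [Field K] {m : ℕ} (h : Matrix (Fin m) (Fin m) K) (σ : K →+* ℂ)
    (u w : Fin m → ℂ) : Matrix (Fin m) (Fin m) ℂ :=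
  Matrix.of fun a b => 4 * (w a * (u ᵥ* h.map σ) b)

lemma RM_mulVec {K : Type} [Field K] {m : ℕ} (h : Matrix (Fin m) (Fin m) K) (σ : K →+* ℂ)
    (u w z : Fin m → ℂ) : RM h σ u w *ᵥ z = (4 * pr h σ u z) • w := by
  have e : pr h σ u z = ∑ b, (u ᵥ* h.map σ) b * z b := by
    rw [pr, Matrix.dotProduct_mulVec]
    rfl
  funext a
  rw [Matrix.mulVec, dotProduct, Pi.smul_apply, smul_eq_mul, e]
  simp only [RM, Matrix.of_apply, Finset.mul_sum, Finset.sum_mul]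
  refine Finset.sum_congr rfl fun b _ => ?_
  ring

section one

variable {V : Type} [AddCommGroup V] [Module ℂ V] {K : Type} [Field K] [NumberField K]
  {c : K →+* K} {m : ℕ} {h : Matrix (Fin m) (Fin m) K} {t : Fin m → K → Module.End ℂ V}

lemma act_gen [DecidableEq (K →+* ℂ)] (C : CMR c h t) (σ : K →+* ℂ) (x y : Fin m → ℂ) :
    ActM t (tau (ts t σ) x * tau (ts t (cj σ)) y - tau (ts t (cj σ)) y * tau (ts t σ) x)
      (fun τ => if τ = σ then RM h (cj σ) y x else if τ = cj σ then -RM h σ x y else 0) := by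
  intro τ z
  rw [KSR.TransA.comm_id]
  show _ = tau (ts t τ) ((if τ = σ then RM h (cj σ) y x else
    if τ = cj σ then -RM h σ x y else 0) *ᵥ z)
  by_cases h1 : τ = σ
  · subst h1
    have e1 := tau_pair C.conj C.cliff (cj τ) y z
    rw [KSE.cj_cj] at e1
    have e2 := tau_anti C.conj C.cliff (σ := τ) (τ := τ) (fun h => C.cm τ h.symm) x z
    rw [e1, e2, if_pos rfl, RM_mulVec, map_smul, mul_smul_comm, smul_mul_assoc, mul_one, one_mul,
      zero_mul, mul_zero]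
    module
  · rw [if_neg h1]
    have e1 := tau_anti C.conj C.cliff (σ := cj σ) (τ := τ) (by rw [KSE.cj_cj]; exact h1) y z
    by_cases h2 : τ = cj σ
    · subst h2
      have e2 := tau_pair C.conj C.cliff σ x z
      rw [e1, e2, if_pos rfl, Matrix.neg_mulVec, RM_mulVec, map_neg, map_smul, mul_smul_comm,
        smul_mul_assoc, mul_one, one_mul, zero_mul, mul_zero]
      module
    · have e2 := tau_anti C.conj C.cliff (σ := σ) (τ := τ) h2 x z
      rw [e1, e2, if_neg h2, Matrix.zero_mulVec, map_zero, zero_mul, mul_zero, zero_mul, mul_zero]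
      simp

lemma mem_bvS (t : Fin m → K → Module.End ℂ V) (σ : K →+* ℂ) (x y : Fin m → ℂ) :
    tau (ts t σ) x * tau (ts t (cj σ)) y - tau (ts t (cj σ)) y * tau (ts t σ) x ∈ bvS t := by
  have e2 : tau (ts t σ) x * tau (ts t (cj σ)) y - tau (ts t (cj σ)) y * tau (ts t σ) x =
      ∑ a, ∑ b, (x a * y b) • (ts t σ a * ts t (cj σ) b - ts t (cj σ) b * ts t σ a) := by
    rw [tau_apply, tau_apply, Finset.sum_mul_sum, Finset.sum_mul_sum,
      Finset.sum_comm (f := fun i j => y i • ts t (cj σ) i * x j • ts t σ j),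
      ← Finset.sum_sub_distrib]
    refine Finset.sum_congr rfl fun a _ => ?_
    rw [← Finset.sum_sub_distrib]
    refine Finset.sum_congr rfl fun b _ => ?_
    rw [smul_mul_smul_comm, smul_mul_smul_comm, mul_comm (y b), smul_sub]
  rw [e2]
  exact Submodule.sum_mem _ fun a _ => Submodule.sum_mem _ fun b _ =>
    Submodule.smul_mem _ _ (Submodule.subset_span ⟨σ, a, b, rfl⟩)

/-- there is a vector of square one -/
lemma exists_unit (C : CMR c h t) (hm : 0 < m) : ∃ x : Fin (NN K m) → ℂ, qq h x x = 1 := by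
  have h1 : ∃ x : Fin (NN K m) → ℂ, qq h x x ≠ 0 := by
    by_contra hcon
    push Not at hcon
    have h2 : ∀ x y : Fin (NN K m) → ℂ, qq h x y = 0 := by
      intro x y
      have e1 := hcon (x + y)
      rw [map_add, map_add, LinearMap.add_apply, LinearMap.add_apply, hcon x, hcon y,
        qq_symm C.conj C.herm y x] at e1
      linear_combination e1 / 2
    obtain ⟨σ⟩ : Nonempty (K →+* ℂ) := inferInstance
    obtain ⟨v, hv, -⟩ := exists_pc (K := K) σ (Pi.single (⟨0, hm⟩ : Fin m) 1)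
    have h3 : v = 0 := (qq_nd C.conj C.herm C.nd).1 v (h2 v)
    rw [h3, map_zero] at hv
    have h4 := congrFun hv ⟨0, hm⟩
    rw [Pi.single_eq_same, Pi.zero_apply] at h4
    exact zero_ne_one h4
  obtain ⟨x, hx⟩ := h1
  obtain ⟨r, hr⟩ := IsAlgClosed.exists_pow_nat_eq (qq h x x)⁻¹ (n := 2) (by norm_num)
  refine ⟨r • x, ?_⟩
  rw [map_smul, map_smul, LinearMap.smul_apply, smul_eq_mul, smul_eq_mul, ← mul_assoc, ← pow_two,
    hr, inv_mul_cancel₀ hx]

end one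

section two

variable {V V' : Type} [AddCommGroup V] [Module ℂ V] [AddCommGroup V'] [Module ℂ V']
  {K K' : Type} [Field K] [NumberField K] [Field K'] [NumberField K'] {c : K →+* K}
  {c' : K' →+* K'} {m m' : ℕ} {h : Matrix (Fin m) (Fin m) K} {h' : Matrix (Fin m') (Fin m') K'}
  {t : Fin m → K → Module.End ℂ V} {t' : Fin m' → K' → Module.End ℂ V'}
  {θ : (K →+* ℂ) → (K' →+* ℂ)} {g : (K →+* ℂ) → Matrix (Fin m') (Fin m) ℂ}

omit [NumberField K] [NumberField K'] in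
lemma pr_iso
    (hg : ∀ σ, (g σ)ᵀ * h'.map (θ σ) * g (cj σ) = h.map σ) (σ : K →+* ℂ) (u v : Fin m → ℂ) :
    pr h' (θ σ) (g σ *ᵥ u) (g (cj σ) *ᵥ v) = pr h σ u v := by
  rw [pr, pr, ← hg σ, Matrix.dotProduct_mulVec, ← Matrix.mulVec_mulVec,
    ← Matrix.mulVec_mulVec, Matrix.dotProduct_mulVec u, Matrix.vecMul_transpose,
    Matrix.dotProduct_mulVec (g σ *ᵥ u)]

/-- the operators of the images of the vectors -/
noncomputable def tt' (t' : Fin m' → K' → Module.End ℂ V') (θ : (K →+* ℂ) → (K' →+* ℂ))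
    (g : (K →+* ℂ) → Matrix (Fin m') (Fin m) ℂ) : (Fin (NN K m) → ℂ) →ₗ[ℂ] Module.End ℂ V' :=
  ∑ σ : K →+* ℂ, tau (ts t' (θ σ)) ∘ₗ (g σ).mulVecLin ∘ₗ pc σ

omit [NumberField K'] in
lemma tt'_apply [NumberField K'] (x : Fin (NN K m) → ℂ) :
    tt' t' θ g x = ∑ σ : K →+* ℂ, tau (ts t' (θ σ)) (g σ *ᵥ pc σ x) := by
  rw [tt', LinearMap.sum_apply]
  rfl

lemma tt'_cliff (C' : CMR c' h' t') (hθb : Function.Injective θ)
    (hθ : ∀ σ, θ (cj σ) = cj (θ σ))
    (hg : ∀ σ, (g σ)ᵀ * h'.map (θ σ) * g (cj σ) = h.map σ) (x y : Fin (NN K m) → ℂ) :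
    tt' t' θ g x * tt' t' θ g y + tt' t' θ g y * tt' t' θ g x = (2 * qq h x y) • 1 := by
  rw [tt'_apply, tt'_apply, Finset.sum_mul_sum, Finset.sum_mul_sum, Finset.sum_comm (f := fun i j =>
    tau (ts t' (θ i)) (g i *ᵥ pc i y) * tau (ts t' (θ j)) (g j *ᵥ pc j x)),
    ← Finset.sum_add_distrib, qq_apply, Finset.mul_sum, Finset.sum_smul]
  refine Finset.sum_congr rfl fun σ _ => ?_
  rw [← Finset.sum_add_distrib, Finset.sum_eq_single (cj σ)]
  · rw [hθ, tau_pair C'.conj C'.cliff, pr_iso hg]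
  · intro τ _ hτ
    exact tau_anti C'.conj C'.cliff (fun e => hτ (hθb (by rw [e, hθ]))) _ _
  · intro h; exact absurd (Finset.mem_univ _) h

/-- the map -/
lemma exists_F [Nontrivial V] [Nontrivial V'] (C : CMR c h t) (C' : CMR c' h' t') (hm : 0 < m)
    (hθb : Function.Injective θ) (hθ : ∀ σ, θ (cj σ) = cj (θ σ))
    (hg : ∀ σ, (g σ)ᵀ * h'.map (θ σ) * g (cj σ) = h.map σ) :
    ∃ (F : V →ₗ[ℂ] V') (ε : ℂ), F ≠ 0 ∧ ε * ε = 1 ∧
      ∀ σ x, F ∘ₗ tau (ts t σ) x = ε • (tau (ts t' (θ σ)) (g σ *ᵥ x) ∘ₗ F) := by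
  obtain ⟨f, hf, hf0⟩ := KSP.avg (qq h) (qq_symm C.conj C.herm) (qq_nd C.conj C.herm C.nd)
    (tt t) (tt' t' θ g) (tt_cliff C.conj C.cliff) (tt'_cliff C' hθb hθ hg) LinearMap.id
    (fun _ _ => rfl) (fun _ _ => rfl) (by
      intro h0
      obtain ⟨v, hv⟩ := exists_ne (0 : V)
      obtain ⟨w, hw⟩ := exists_ne (0 : V')
      obtain ⟨φ, hφ⟩ : ∃ φ : V →ₗ[ℂ] ℂ, φ v ≠ 0 := by
        by_contra hcon
        push Not at hcon
        exact hv ((Module.forall_dual_apply_eq_zero_iff ℂ v).mp hcon)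
      have h1 := LinearMap.congr_fun (LinearMap.congr_fun h0 (φ.smulRight w)) v
      have h2 : φ v • w = 0 := h1
      exact (smul_ne_zero hφ hw) h2)
  obtain ⟨x, hx⟩ := exists_unit C hm
  have hsq : ∀ {W : Type} [AddCommGroup W] [Module ℂ W] (A : Module.End ℂ W),
      A * A + A * A = (2 * qq h x x) • 1 → A * A = 1 := by
    intro W _ _ A hA
    rw [hx, mul_one, ← two_smul ℂ] at hA
    exact smul_right_injective _ (two_ne_zero (α := ℂ)) hA
  have e1 : tt t x * tt t x = 1 := hsq _ (tt_cliff C.conj C.cliff x x)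
  have e2 : tt' t' θ g x * tt' t' θ g x = 1 := hsq _ (tt'_cliff C' hθb hθ hg x x)
  have hf' : ∀ y z (v : V), f (tt t y (tt t z v)) = tt' t' θ g y (tt' t' θ g z (f v)) :=
    fun y z v => LinearMap.congr_fun (hf y z) v
  have e1' : ∀ v, tt t x (tt t x v) = v := fun v => LinearMap.congr_fun e1 v
  have e2' : ∀ v, tt' t' θ g x (tt' t' θ g x v) = v := fun v => LinearMap.congr_fun e2 v
  -- both signs at once
  have key : ∀ ε : ℂ, ε * ε = 1 → ∀ y (v : V),
      (f + ε • (tt' t' θ g x ∘ₗ f ∘ₗ tt t x)) (tt t y v) =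
        ε • tt' t' θ g y ((f + ε • (tt' t' θ g x ∘ₗ f ∘ₗ tt t x)) v) := by
    intro ε hε y v
    have a1 : (f + ε • (tt' t' θ g x ∘ₗ f ∘ₗ tt t x)) (tt t y v) =
        f (tt t y v) + ε • tt' t' θ g x (f (tt t x (tt t y v))) := rfl
    have a2 : (f + ε • (tt' t' θ g x ∘ₗ f ∘ₗ tt t x)) v =
        f v + ε • tt' t' θ g x (f (tt t x v)) := rfl
    rw [a1, a2, hf', e2', map_add, map_smul, ← hf' y x, e1', smul_add, smul_smul, hε, one_smul,
      add_comm]
  have main : ∃ (F : V →ₗ[ℂ] V') (ε : ℂ), F ≠ 0 ∧ ε * ε = 1 ∧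
      ∀ y (v : V), F (tt t y v) = ε • tt' t' θ g y (F v) := by
    by_cases hA : f + (1 : ℂ) • (tt' t' θ g x ∘ₗ f ∘ₗ tt t x) = 0
    · refine ⟨f + (-1 : ℂ) • (tt' t' θ g x ∘ₗ f ∘ₗ tt t x), -1, ?_, by ring, key (-1) (by ring)⟩
      intro hB
      apply hf0
      have h1 : (2 : ℂ) • f = 0 := by
        have h2 := congrArg₂ (· + ·) hA hB
        simp only [add_zero] at h2
        rw [← h2]
        module
      exact (smul_eq_zero.mp h1).resolve_left two_ne_zero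
    · exact ⟨_, 1, hA, by ring, key 1 (by ring)⟩
  obtain ⟨F, ε, hF0, hε, hF⟩ := main
  refine ⟨F, ε, hF0, hε, fun σ y => ?_⟩
  obtain ⟨v, hv1, hv2⟩ := exists_pc (K := K) σ y
  have b1 : tt t v = tau (ts t σ) y := by
    rw [tt_apply, Finset.sum_eq_single σ, hv1]
    · intro τ _ hτ
      rw [hv2 τ hτ, map_zero]
    · intro h; exact absurd (Finset.mem_univ _) h
  have b2 : tt' t' θ g v = tau (ts t' (θ σ)) (g σ *ᵥ y) := by
    rw [tt'_apply, Finset.sum_eq_single σ, hv1]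
    · intro τ _ hτ
      rw [hv2 τ hτ, Matrix.mulVec_zero, map_zero]
    · intro h; exact absurd (Finset.mem_univ _) h
  apply LinearMap.ext
  intro w
  have h1 := hF v w
  rw [b1, b2] at h1
  exact h1

/-- transport of the Lie algebra -/
lemma trans [Nontrivial V] (C : CMR c h t) (C' : CMR c' h' t')
    (hθb : Function.Injective θ) (hθ : ∀ σ, θ (cj σ) = cj (θ σ))
    (hg : ∀ σ, (g σ)ᵀ * h'.map (θ σ) * g (cj σ) = h.map σ) (F : V →ₗ[ℂ] V') (ε : ℂ)
    (hε : ε * ε = 1)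
    (hF : ∀ σ x, F ∘ₗ tau (ts t σ) x = ε • (tau (ts t' (θ σ)) (g σ *ᵥ x) ∘ₗ F))
    (Z : Module.End ℂ V) (hZ : Z ∈ bvS t) (M : (K →+* ℂ) → Matrix (Fin m) (Fin m) ℂ)
    (hM : ActM t Z M) :
    ∃ (Z' : Module.End ℂ V') (M' : (K' →+* ℂ) → Matrix (Fin m') (Fin m') ℂ), Z' ∈ bvS t' ∧
      F ∘ₗ Z = Z' ∘ₗ F ∧ ActM t' Z' M' ∧ ∀ σ, M' (θ σ) * g σ = g σ * M σ := by
  classical
  have hF2 : ∀ σ τ x y, F ∘ₗ (tau (ts t σ) x * tau (ts t τ) y) =
      (tau (ts t' (θ σ)) (g σ *ᵥ x) * tau (ts t' (θ τ)) (g τ *ᵥ y)) ∘ₗ F := by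
    intro σ τ x y
    have h1 : ∀ σ x v, F (tau (ts t σ) x v) = ε • tau (ts t' (θ σ)) (g σ *ᵥ x) (F v) :=
      fun σ x v => LinearMap.congr_fun (hF σ x) v
    apply LinearMap.ext
    intro v
    show F (tau (ts t σ) x (tau (ts t τ) y v)) =
      tau (ts t' (θ σ)) (g σ *ᵥ x) (tau (ts t' (θ τ)) (g τ *ᵥ y) (F v))
    rw [h1, h1, map_smul, smul_smul, hε, one_smul]
  have key : ∀ Z ∈ bvS t, ∃ (M : (K →+* ℂ) → Matrix (Fin m) (Fin m) ℂ) (Z' : Module.End ℂ V')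
      (M' : (K' →+* ℂ) → Matrix (Fin m') (Fin m') ℂ), ActM t Z M ∧ Z' ∈ bvS t' ∧
      F ∘ₗ Z = Z' ∘ₗ F ∧ ActM t' Z' M' ∧ ∀ σ, M' (θ σ) * g σ = g σ * M σ := by
    intro Z hZ
    rw [bvS] at hZ
    induction hZ using Submodule.span_induction with
    | mem Z hZ =>
      obtain ⟨σ, a, b, hab⟩ := hZ
      obtain ⟨x, hx⟩ : ∃ x : Fin m → ℂ, x = Pi.single a 1 := ⟨_, rfl⟩
      obtain ⟨y, hy⟩ : ∃ y : Fin m → ℂ, y = Pi.single b 1 := ⟨_, rfl⟩
      have hab' : Z = tau (ts t σ) x * tau (ts t (cj σ)) y -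
          tau (ts t (cj σ)) y * tau (ts t σ) x := by
        rw [hab, hx, hy, KSR.TransA.tau_single, KSR.TransA.tau_single]
      refine ⟨_, tau (ts t' (θ σ)) (g σ *ᵥ x) * tau (ts t' (cj (θ σ))) (g (cj σ) *ᵥ y) -
        tau (ts t' (cj (θ σ))) (g (cj σ) *ᵥ y) * tau (ts t' (θ σ)) (g σ *ᵥ x), _,
        hab' ▸ act_gen C σ x y, mem_bvS t' (θ σ) _ _, ?_, act_gen C' (θ σ) _ _, ?_⟩
      · rw [hab', LinearMap.comp_sub, LinearMap.sub_comp, hF2, hF2, hθ]
      · intro τ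
        by_cases hτ : τ = σ
        · rw [if_pos (congrArg θ hτ), if_pos hτ, hτ]
          apply Matrix.toLin'.injective
          apply LinearMap.ext
          intro z
          have e1 := pr_iso hg (cj σ) y z
          rw [KSE.cj_cj, hθ] at e1
          rw [Matrix.toLin'_apply, Matrix.toLin'_apply, ← Matrix.mulVec_mulVec,
            ← Matrix.mulVec_mulVec, RM_mulVec, RM_mulVec, e1, Matrix.mulVec_smul]
        · rw [if_neg (fun h => hτ (hθb h)), if_neg hτ]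
          by_cases hτ2 : τ = cj σ
          · rw [if_pos (by rw [hτ2, hθ]), if_pos hτ2, hτ2]
            apply Matrix.toLin'.injective
            apply LinearMap.ext
            intro z
            have e1 := pr_iso hg σ x z
            rw [Matrix.toLin'_apply, Matrix.toLin'_apply, ← Matrix.mulVec_mulVec,
              ← Matrix.mulVec_mulVec, Matrix.neg_mulVec, Matrix.neg_mulVec, RM_mulVec, RM_mulVec,
              e1, Matrix.mulVec_neg, Matrix.mulVec_smul]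
          · rw [if_neg (fun h => hτ2 (hθb (by rw [h, hθ]))), if_neg hτ2, Matrix.zero_mul,
              Matrix.mul_zero]
    | zero =>
      refine ⟨0, 0, 0, ActM.zero, Submodule.zero_mem _, ?_, ActM.zero, ?_⟩
      · rw [LinearMap.comp_zero, LinearMap.zero_comp]
      · intro σ
        rw [Pi.zero_apply, Pi.zero_apply, Matrix.zero_mul, Matrix.mul_zero]
    | add Z₁ Z₂ _ _ h1 h2 =>
      obtain ⟨M₁, Z₁', M₁', a1, a2, a3, a4, a5⟩ := h1
      obtain ⟨M₂, Z₂', M₂', b1, b2, b3, b4, b5⟩ := h2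
      refine ⟨M₁ + M₂, Z₁' + Z₂', M₁' + M₂', a1.add b1, Submodule.add_mem _ a2 b2, ?_,
        a4.add b4, ?_⟩
      · rw [LinearMap.comp_add, LinearMap.add_comp, a3, b3]
      · intro σ
        rw [Pi.add_apply, Pi.add_apply, Matrix.add_mul, Matrix.mul_add, a5, b5]
    | smul r Z _ h1 =>
      obtain ⟨M₁, Z₁', M₁', a1, a2, a3, a4, a5⟩ := h1
      refine ⟨r • M₁, r • Z₁', r • M₁', a1.smul r, Submodule.smul_mem _ _ a2, ?_, a4.smul r, ?_⟩
      · rw [LinearMap.comp_smul, LinearMap.smul_comp, a3]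
      · intro σ
        rw [Pi.smul_apply, Pi.smul_apply, Matrix.smul_mul, Matrix.mul_smul, a5]
  obtain ⟨M₁, Z', M', h1, h2, h3, h4, h5⟩ := key Z hZ
  have hMM : M₁ = M := ActM.unique C.conj C.cliff C.nd h1 hM
  rw [hMM] at h5
  exact ⟨Z', M', h2, h3, h4, h5⟩

end two

end Flxx

theorem thm_Flx : St_Flx := by
  intro V V' _ _ _ _ _ _ _ _ K K' _ _ _ _ c c' m m' h h' t t' C C' hm θ g g' hθb hθ hgg' hg'g hg
  obtain ⟨F, ε, hF0, hε, hF⟩ := Flxx.exists_F C C' hm hθb.1 hθ hg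
  refine ⟨F, ε, hF0, hF, ?_⟩
  intro Z M Z' M' hZ hZM hZ' hZM' hMM
  obtain ⟨Z'', M'', h1, h2, h3, h4⟩ := Flxx.trans C C' hθb.1 hθ hg F ε hε hF Z hZ M hZM
  have h5 : M'' = M' := by
    funext ρ
    obtain ⟨σ, rfl⟩ := hθb.2 ρ
    have e1 : M'' (θ σ) * (g σ * g' σ) = M' (θ σ) * (g σ * g' σ) := by
      rw [← Matrix.mul_assoc, ← Matrix.mul_assoc, h4, hMM]
    rw [hgg', Matrix.mul_one, Matrix.mul_one] at e1
    exact e1
  rw [h5] at h3
  rw [h2, eq_of_act C'.conj C'.herm C'.nd C'.cliff h1 hZ' h3 hZM']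

end Pool.Agent.KTW
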