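import Pool.Agent.KTW.StT

/-!
# KTW [Frc]: change of frames for skew matrices of size four (helper56)
-/

set_option autoImplicit false

namespace Pool.Agent.KTW.Frcx

open Matrix
open Pool.Agent.KQ4 (en cq)

/-- the dual of a skew matrix of size four -/
private noncomputable def sd (A : Matrix (Fin 4) (Fin 4) ℂ) : Matrix (Fin 4) (Fin 4) ℂ :=
  !![0, A 2 3, -A 1 3, A 1 2; -A 2 3, 0, A 0 3, -A 0 2; A 1 3, -A 0 3, 0, A 0 1;
    -A 1 2, A 0 2, -A 0 1, 0]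

private theorem c4 (ε : ℂ) (A : Matrix (Fin 4) (Fin 4) ℂ) :
    cq ε A = ![A 2 1 + ε * A 0 3, A 0 2 + ε * A 1 3, A 1 0 + ε * A 2 3] := by
  have h1 : en A 2 1 = A 2 1 := by simp [en]
  have h2 : en A 0 2 = A 0 2 := by simp [en]
  have h3 : en A 1 0 = A 1 0 := by simp [en]
  have h4 : en A 0 3 = A 0 3 := by simp [en]
  have h5 : en A 1 3 = A 1 3 := by simp [en]
  have h6 : en A 2 3 = A 2 3 := by simp [en]
  rw [cq, h1, h2, h3, h4, h5, h6]

private theorem sk {A : Matrix (Fin 4) (Fin 4) ℂ} (h : Aᵀ = -A) (i j : Fin 4) :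
    A i j = -A j i := by
  have h1 := congrFun (congrFun h j) i
  rw [Matrix.transpose_apply, Matrix.neg_apply] at h1
  exact h1

private theorem dg {A : Matrix (Fin 4) (Fin 4) ℂ} (h : Aᵀ = -A) (i : Fin 4) :
    A i i = 0 := by
  have h1 := sk h i i
  have h2 : (2 : ℂ) * A i i = 0 := by linear_combination h1
  rcases mul_eq_zero.mp h2 with h3 | h3
  · norm_num at h3
  · exact h3

/-- the self-dual matrices -/
private theorem cz_iff {A : Matrix (Fin 4) (Fin 4) ℂ} (h : Aᵀ = -A) {ε : ℂ} (hε : ε * ε = 1) :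
    cq ε A = 0 ↔ A = ε • sd A := by
  rw [c4]
  have e10 := sk h 1 0
  have e20 := sk h 2 0
  have e30 := sk h 3 0
  have e21 := sk h 2 1
  have e31 := sk h 3 1
  have e32 := sk h 3 2
  have d0 := dg h 0
  have d1 := dg h 1
  have d2 := dg h 2
  have d3 := dg h 3
  constructor
  · intro h0
    have h1 := congrFun h0 0
    have h2 := congrFun h0 1
    have h3 := congrFun h0 2
    simp at h1 h2 h3
    ext i j
    fin_cases i <;> fin_cases j <;> simp [sd]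
    · exact d0
    · linear_combination (-1 : ℂ) * h3 + e10
    · linear_combination h2
    · linear_combination ε * h1 - ε * e21 - A 0 3 * hε
    · linear_combination h3
    · exact d1
    · linear_combination (-1 : ℂ) * h1 + e21
    · linear_combination ε * h2 - A 1 3 * hε
    · linear_combination (-1 : ℂ) * h2 + e20
    · linear_combination h1
    · exact d2
    · linear_combination ε * h3 - ε * e10 - A 2 3 * hε
    · linear_combination (-ε) * h1 + e30 + ε * e21 + A 0 3 * hε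
    · linear_combination (-ε) * h2 + e31 + A 1 3 * hε
    · linear_combination (-ε) * h3 + e32 + ε * e10 + A 2 3 * hε
    · exact d3
  · intro h0
    have h1 := congrFun (congrFun h0 2) 1
    have h2 := congrFun (congrFun h0 0) 2
    have h3 := congrFun (congrFun h0 1) 0
    simp [sd] at h1 h2 h3
    ext i
    fin_cases i <;> simp
    · linear_combination h1
    · linear_combination h2
    · linear_combination h3

private theorem det4 (M : Matrix (Fin 4) (Fin 4) ℂ) : M.det =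
    M 0 0 * (M 1 1 * (M 2 2 * M 3 3 - M 2 3 * M 3 2) - M 1 2 * (M 2 1 * M 3 3 - M 2 3 * M 3 1)
      + M 1 3 * (M 2 1 * M 3 2 - M 2 2 * M 3 1))
    - M 0 1 * (M 1 0 * (M 2 2 * M 3 3 - M 2 3 * M 3 2) - M 1 2 * (M 2 0 * M 3 3 - M 2 3 * M 3 0)
      + M 1 3 * (M 2 0 * M 3 2 - M 2 2 * M 3 0))
    + M 0 2 * (M 1 0 * (M 2 1 * M 3 3 - M 2 3 * M 3 1) - M 1 1 * (M 2 0 * M 3 3 - M 2 3 * M 3 0)
      + M 1 3 * (M 2 0 * M 3 1 - M 2 1 * M 3 0))
    - M 0 3 * (M 1 0 * (M 2 1 * M 3 2 - M 2 2 * M 3 1) - M 1 1 * (M 2 0 * M 3 2 - M 2 2 * M 3 0)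
      + M 1 2 * (M 2 0 * M 3 1 - M 2 1 * M 3 0)) := by
  rw [Matrix.det_succ_row_zero]
  simp [Fin.sum_univ_succ, Matrix.det_fin_three, Fin.succAbove, Matrix.submatrix_apply]
  ring


private theorem ent (O A : Matrix (Fin 4) (Fin 4) ℂ) (h : Aᵀ = -A) (c d : Fin 4) :
    (Oᵀ * A * O) c d = A 0 1 * (O 0 c * O 1 d - O 1 c * O 0 d)
      + A 0 2 * (O 0 c * O 2 d - O 2 c * O 0 d) + A 0 3 * (O 0 c * O 3 d - O 3 c * O 0 d)
      + A 1 2 * (O 1 c * O 2 d - O 2 c * O 1 d) + A 1 3 * (O 1 c * O 3 d - O 3 c * O 1 d)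
      + A 2 3 * (O 2 c * O 3 d - O 3 c * O 2 d) := by
  simp only [Matrix.mul_apply, Fin.sum_univ_four, Matrix.transpose_apply]
  rw [sk h 1 0, sk h 2 0, sk h 3 0, sk h 2 1, sk h 3 1, sk h 3 2, dg h 0, dg h 1, dg h 2, dg h 3]
  ring

private theorem sds (M : Matrix (Fin 4) (Fin 4) ℂ) : (sd M)ᵀ = -sd M := by
  ext i j
  fin_cases i <;> fin_cases j <;> simp [sd]

private theorem key (O A : Matrix (Fin 4) (Fin 4) ℂ) (h : Aᵀ = -A) :
    O * sd (Oᵀ * A * O) * Oᵀ = O.det • sd A := by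
  have hE : ∀ i j, (O * sd (Oᵀ * A * O) * Oᵀ) i j =
      sd (Oᵀ * A * O) 0 1 * (O i 0 * O j 1 - O i 1 * O j 0)
      + sd (Oᵀ * A * O) 0 2 * (O i 0 * O j 2 - O i 2 * O j 0)
      + sd (Oᵀ * A * O) 0 3 * (O i 0 * O j 3 - O i 3 * O j 0)
      + sd (Oᵀ * A * O) 1 2 * (O i 1 * O j 2 - O i 2 * O j 1)
      + sd (Oᵀ * A * O) 1 3 * (O i 1 * O j 3 - O i 3 * O j 1)
      + sd (Oᵀ * A * O) 2 3 * (O i 2 * O j 3 - O i 3 * O j 2) := by
    intro i j
    have h1 := ent Oᵀ (sd (Oᵀ * A * O)) (sds _) i j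
    rw [Matrix.transpose_transpose] at h1
    rw [h1]
    simp only [Matrix.transpose_apply]
  have s01 : ∀ M : Matrix (Fin 4) (Fin 4) ℂ, sd M 0 1 = M 2 3 := fun M => by simp [sd]
  have s02 : ∀ M : Matrix (Fin 4) (Fin 4) ℂ, sd M 0 2 = -M 1 3 := fun M => by simp [sd]
  have s03 : ∀ M : Matrix (Fin 4) (Fin 4) ℂ, sd M 0 3 = M 1 2 := fun M => by simp [sd]
  have s12 : ∀ M : Matrix (Fin 4) (Fin 4) ℂ, sd M 1 2 = M 0 3 := fun M => by simp [sd]
  have s13 : ∀ M : Matrix (Fin 4) (Fin 4) ℂ, sd M 1 3 = -M 0 2 := fun M => by simp [sd]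
  have s23 : ∀ M : Matrix (Fin 4) (Fin 4) ℂ, sd M 2 3 = M 0 1 := fun M => by simp [sd]
  have hf : ∀ i j : Fin 4, (O * sd (Oᵀ * A * O) * Oᵀ) i j =
      (Oᵀ * A * O) 2 3 * (O i 0 * O j 1 - O i 1 * O j 0)
      + -(Oᵀ * A * O) 1 3 * (O i 0 * O j 2 - O i 2 * O j 0)
      + (Oᵀ * A * O) 1 2 * (O i 0 * O j 3 - O i 3 * O j 0)
      + (Oᵀ * A * O) 0 3 * (O i 1 * O j 2 - O i 2 * O j 1)
      + -(Oᵀ * A * O) 0 2 * (O i 1 * O j 3 - O i 3 * O j 1)
      + (Oᵀ * A * O) 0 1 * (O i 2 * O j 3 - O i 3 * O j 2) := by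
    intro i j
    rw [hE, s01, s02, s03, s12, s13, s23]
  have hup : ∀ i j : Fin 4, (i = 0 ∧ j = 1) ∨ (i = 0 ∧ j = 2) ∨ (i = 0 ∧ j = 3) ∨
      (i = 1 ∧ j = 2) ∨ (i = 1 ∧ j = 3) ∨ (i = 2 ∧ j = 3) →
      (O * sd (Oᵀ * A * O) * Oᵀ) i j = O.det * sd A i j := by
    intro i j hij
    rw [hf, det4]
    rcases hij with ⟨rfl, rfl⟩ | ⟨rfl, rfl⟩ | ⟨rfl, rfl⟩ | ⟨rfl, rfl⟩ | ⟨rfl, rfl⟩ | ⟨rfl, rfl⟩
    · rw [s01]; simp only [ent O A h]; ring
    · rw [s02]; simp only [ent O A h]; ring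
    · rw [s03]; simp only [ent O A h]; ring
    · rw [s12]; simp only [ent O A h]; ring
    · rw [s13]; simp only [ent O A h]; ring
    · rw [s23]; simp only [ent O A h]; ring
  have hs : (O * sd (Oᵀ * A * O) * Oᵀ)ᵀ = -(O * sd (Oᵀ * A * O) * Oᵀ) := by
    rw [Matrix.transpose_mul, Matrix.transpose_mul, Matrix.transpose_transpose, sds,
      Matrix.neg_mul, Matrix.mul_neg, Matrix.mul_assoc O (sd (Oᵀ * A * O)) Oᵀ]
  ext i j
  rw [Matrix.smul_apply, smul_eq_mul]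
  have hdn : ∀ i, (O * sd (Oᵀ * A * O) * Oᵀ) i i = O.det * sd A i i := by
    intro i
    rw [dg hs i, dg (sds A) i, mul_zero]
  have hlo : ∀ i j : Fin 4, (i = 0 ∧ j = 1) ∨ (i = 0 ∧ j = 2) ∨ (i = 0 ∧ j = 3) ∨
      (i = 1 ∧ j = 2) ∨ (i = 1 ∧ j = 3) ∨ (i = 2 ∧ j = 3) →
      (O * sd (Oᵀ * A * O) * Oᵀ) j i = O.det * sd A j i := by
    intro i j hij
    rw [sk hs j i, sk (sds A) j i, hup i j hij]
    ring
  rcases lt_trichotomy i j with hij | hij | hij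
  · apply hup
    revert hij
    revert i j
    decide
  · rw [hij]
    exact hdn j
  · apply hlo
    revert hij
    revert i j
    decide

private theorem main4 (O A : Matrix (Fin 4) (Fin 4) ℂ) (hO : Oᵀ * O = 1) (h : Aᵀ = -A) (ε : ℂ)
    (hε : ε = 1 ∨ ε = -1) :
    (O.det = 1 ∨ O.det = -1) ∧ (cq ε (Oᵀ * A * O) = 0 ↔ cq (ε * O.det) A = 0) := by
  have hd : O.det * O.det = 1 := by
    have h1 := congrArg Matrix.det hO
    rwa [Matrix.det_mul, Matrix.det_transpose, Matrix.det_one] at h1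
  have hee : ε * ε = 1 := by rcases hε with rfl | rfl <;> norm_num
  have hde : ε * O.det * (ε * O.det) = 1 := by linear_combination O.det * O.det * hee + hd
  refine ⟨mul_self_eq_one_iff.mp hd, ?_⟩
  have hO2 : O * Oᵀ = 1 := mul_eq_one_comm.mp hO
  have hM : (Oᵀ * A * O)ᵀ = -(Oᵀ * A * O) := by
    rw [Matrix.transpose_mul, Matrix.transpose_mul, Matrix.transpose_transpose, h,
      Matrix.neg_mul, Matrix.mul_neg, Matrix.mul_assoc]
  rw [cz_iff hM hee, cz_iff h hde]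
  have hA : O * (Oᵀ * A * O) * Oᵀ = A := by
    rw [Matrix.mul_assoc, Matrix.mul_assoc, Matrix.mul_assoc, hO2, Matrix.mul_one,
      ← Matrix.mul_assoc, hO2, Matrix.one_mul]
  constructor
  · intro h1
    have h2 : O * (Oᵀ * A * O) * Oᵀ = O * (ε • sd (Oᵀ * A * O)) * Oᵀ := by rw [← h1]
    rw [hA, Matrix.mul_smul, Matrix.smul_mul, key O A h, smul_smul] at h2
    exact h2
  · intro h1
    have h2 : O * (Oᵀ * A * O) * Oᵀ = ε • (O * sd (Oᵀ * A * O) * Oᵀ) := by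
      rw [hA, key O A h, smul_smul]
      exact h1
    have h3 : Oᵀ * (O * (Oᵀ * A * O) * Oᵀ) * O =
        Oᵀ * (ε • (O * sd (Oᵀ * A * O) * Oᵀ)) * O := by rw [h2]
    have h4 : ∀ N : Matrix (Fin 4) (Fin 4) ℂ, Oᵀ * (O * N * Oᵀ) * O = N := by
      intro N
      rw [Matrix.mul_assoc, Matrix.mul_assoc, Matrix.mul_assoc, hO, Matrix.mul_one,
        ← Matrix.mul_assoc, hO, Matrix.one_mul]
    rw [h4, Matrix.mul_smul, Matrix.smul_mul, h4] at h3
    exact h3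

end Pool.Agent.KTW.Frcx

namespace Pool.Agent.KTW

open Matrix

/-- **FRC.**  Change of frames for `m = 4`. -/
theorem thm_Frc : St_Frc := by
  intro m hm
  subst hm
  intro O A hO hA ε hε
  exact Frcx.main4 O A hO hA ε hε

end Pool.Agent.KTW
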