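import Pool.Agent.KTW.StX
import Pool.Agent.KTW.Spz
import Pool.Agent.KSE.HMainC

/-!
# KTW [Ftx]: linked places and the operators `Z`
-/

set_option autoImplicit false
set_option linter.unusedSectionVars false

namespace Pool.Agent.KTW

open Module Matrix NumberField Pool.Agent.Helper7 Pool.Agent.KS Pool.Agent.Ball Pool.Agent.KSE
  Pool.Agent.Helper28.GPC Pool.Agent.K3P Pool.Agent.KTP

namespace Ftxx

section cl

variable {V : Type} [AddCommGroup V] [Module ℂ V] [FiniteDimensional ℂ V] [Nontrivial V]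
  {K : Type} [Field K] [NumberField K] {c : K →+* K} {m : ℕ} {h : Matrix (Fin m) (Fin m) K}
  {t : Fin m → K → Module.End ℂ V}

theorem skew_of (S : CMR c h t) {X : Module.End ℂ V}
    {M : (K →+* ℂ) → Matrix (Fin m) (Fin m) ℂ} (hX : ActM t X M) : SkewM h M :=
  (skewM_iff M).2 fun σ x y => ActM.skew S.conj S.cliff hX σ x y

theorem det_unit (S : CMR c h t) (σ : K →+* ℂ) : IsUnit (h.map σ).det := by
  have e : (h.map σ).det = σ h.det := (RingHom.map_det σ h).symm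
  rw [e]
  exact IsUnit.mk0 _ ((map_ne_zero σ).2 S.nd)

theorem trace_cj (S : CMR c h t) {M : (K →+* ℂ) → Matrix (Fin m) (Fin m) ℂ} (hM : SkewM h M)
    (σ : K →+* ℂ) : (M (cj σ)).trace = -(M σ).trace := by
  have h1 := hM σ
  have h2 : M (cj σ) = -((h.map σ)⁻¹ * (M σ)ᵀ * h.map σ) := by
    have h3 : (h.map σ)⁻¹ * ((M σ)ᵀ * h.map σ + h.map σ * M (cj σ)) = 0 := by rw [h1, mul_zero]
    rw [mul_add, ← mul_assoc, ← mul_assoc, Matrix.nonsing_inv_mul _ (det_unit S σ), one_mul] at h3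
    rw [eq_neg_iff_add_eq_zero, add_comm]
    exact h3
  rw [h2, Matrix.trace_neg, Matrix.trace_mul_comm, ← mul_assoc,
    Matrix.mul_nonsing_inv _ (det_unit S σ), one_mul, Matrix.trace_transpose]

theorem skew_scal {z : (K →+* ℂ) → ℂ} (hz : ∀ σ, z (cj σ) = -z σ) :
    SkewM h fun σ => z σ • (1 : Matrix (Fin m) (Fin m) ℂ) := by
  intro σ
  show (z σ • (1 : Matrix (Fin m) (Fin m) ℂ))ᵀ * h.map σ + h.map σ * (z (cj σ) • 1) = 0
  rw [hz, Matrix.transpose_smul, Matrix.transpose_one, smul_mul_assoc, one_mul, mul_smul_comm,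
    mul_one, neg_smul, add_neg_cancel]

theorem skew_sub {M N : (K →+* ℂ) → Matrix (Fin m) (Fin m) ℂ} (hM : SkewM h M)
    (hN : SkewM h N) : SkewM h (M - N) := by
  intro σ
  show (M σ - N σ)ᵀ * h.map σ + h.map σ * (M (cj σ) - N (cj σ)) = 0
  have h1 := hM σ
  have h2 := hN σ
  rw [Matrix.transpose_sub, sub_mul, mul_sub]
  have e : (M σ)ᵀ * h.map σ - (N σ)ᵀ * h.map σ + (h.map σ * M (cj σ) - h.map σ * N (cj σ)) =
      ((M σ)ᵀ * h.map σ + h.map σ * M (cj σ)) - ((N σ)ᵀ * h.map σ + h.map σ * N (cj σ)) := by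
    abel
  rw [e, h1, h2, sub_zero]

theorem sub_trz (M : (K →+* ℂ) → Matrix (Fin m) (Fin m) ℂ) :
    (M - fun σ => trz (M σ)) = fun σ => ((M σ).trace / m) • (1 : Matrix (Fin m) (Fin m) ℂ) := by
  funext σ
  show M σ - trz (M σ) = _
  unfold trz
  rw [sub_sub_cancel]

theorem skew_trz (S : CMR c h t) {M : (K →+* ℂ) → Matrix (Fin m) (Fin m) ℂ} (hM : SkewM h M) :
    SkewM h fun σ => trz (M σ) := by
  have h1 : (fun σ => trz (M σ)) =
      M - fun σ => ((M σ).trace / m) • (1 : Matrix (Fin m) (Fin m) ℂ) := by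
    rw [← sub_trz]
    abel
  rw [h1]
  refine skew_sub hM (skew_scal fun σ => ?_)
  rw [trace_cj S hM, neg_div]

/-- the part of trace zero of an operator -/
theorem tz_part (S : CMR c h t) {X : Module.End ℂ V}
    {M : (K →+* ℂ) → Matrix (Fin m) (Fin m) ℂ} (hX : X ∈ bvS t) (hXM : ActM t X M) :
    ∃ Y ∈ bvS t, ActM t Y (fun σ => trz (M σ)) ∧ ∀ v, CE t (fun _ => 0) v → X v = Y v := by
  obtain ⟨Y, hY, hYM⟩ := exists_bvE S.conj S.herm S.nd S.cliff _ (skew_trz S (skew_of S hXM))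
  refine ⟨Y, hY, hYM, fun v hv => ?_⟩
  have h1 : IsCen t (X - Y) (fun σ => (M σ).trace / m) := by
    refine ⟨Submodule.sub_mem _ hX hY, ?_⟩
    rw [← sub_trz]
    exact hXM.sub hYM
  have h2 := hv _ _ h1
  rw [LinearMap.sub_apply] at h2
  simp only [mul_zero, Finset.sum_const_zero, zero_smul] at h2
  exact sub_eq_zero.1 h2

theorem bvS_br (S : CMR c h t) {A B : Module.End ℂ V} (hA : A ∈ bvS t) (hB : B ∈ bvS t) :
    A * B - B * A ∈ bvS t := by
  obtain ⟨M, hM, -⟩ := exists_act_of_mem S.conj S.herm S.nd S.cliff A hA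
  obtain ⟨N, hN, -⟩ := exists_act_of_mem S.conj S.herm S.nd S.cliff B hB
  have h1 := hM.bracket hN
  obtain ⟨Z, hZ, hZM⟩ := exists_bvE S.conj S.herm S.nd S.cliff _ (skew_of S h1)
  have h0 : (A * B - B * A) - Z = 0 := by
    refine eq_zero_of_act S.conj S.herm S.nd S.cliff _ ?_ ?_ ?_
    · intro σ x
      have e1 := h1 σ x
      have e2 := hZM σ x
      rw [← e2, sub_eq_sub_iff_add_eq_add] at e1
      rw [sub_mul, mul_sub, sub_eq_sub_iff_add_eq_add, e1, add_comm]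
    · intro f hf
      have hAf := BvE.comm_bvS hA f fun σ a b => hf σ (cj σ) a b
      have hBf := BvE.comm_bvS hB f fun σ a b => hf σ (cj σ) a b
      have hZf := BvE.comm_bvS hZ f fun σ a b => hf σ (cj σ) a b
      have e1 : (A * B) * f = f * (A * B) := by
        rw [mul_assoc, hBf, ← mul_assoc, hAf, mul_assoc]
      have e2 : (B * A) * f = f * (B * A) := by
        rw [mul_assoc, hAf, ← mul_assoc, hBf, mul_assoc]
      rw [sub_mul, mul_sub, sub_mul, mul_sub, e1, e2, hZf]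
    · rw [map_sub, map_sub, LinearMap.trace_mul_comm, sub_self, BvE.trace_bvS hZ, sub_zero]
  rw [sub_eq_zero.1 h0]
  exact hZ

end cl

section drb

variable {κ κ' κ'' : Type} [Fintype κ] [DecidableEq κ] [Fintype κ'] [DecidableEq κ'] [Fintype κ'']
  [DecidableEq κ''] {ϖ : ℂ}

theorem drb_comp {P : PData κ ϖ} {P' : PData κ' ϖ} {P'' : PData κ'' ϖ}
    {f : (κ → ℂ) →ₗ[ℂ] (κ' → ℂ)} {g : (κ' → ℂ) →ₗ[ℂ] (κ'' → ℂ)} (hf : IsDRB P P' f)
    (hg : IsDRB P' P'' g) : IsDRB P P'' (g ∘ₗ f) where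
  rat v hv := hg.rat _ (hf.rat v hv)
  alg i j := by
    have h1 : f (Pi.single i 1) = ∑ k, f (Pi.single i 1) k • (Pi.single k 1 : κ' → ℂ) := by
      funext l
      rw [Finset.sum_apply, Finset.sum_eq_single l]
      · rw [Pi.smul_apply, Pi.single_eq_same, smul_eq_mul, mul_one]
      · intro k _ hk
        rw [Pi.smul_apply, Pi.single_eq_of_ne hk.symm, smul_zero]
      · intro hl
        exact absurd (Finset.mem_univ _) hl
    have h2 : (g ∘ₗ f) (Pi.single i 1) j =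
        ∑ k, f (Pi.single i 1) k * g (Pi.single k 1) j := by
      rw [LinearMap.comp_apply]
      conv_lhs => rw [h1]
      rw [map_sum, Finset.sum_apply]
      refine Finset.sum_congr rfl fun k _ => ?_
      rw [map_smul, Pi.smul_apply, smul_eq_mul]
    rw [h2]
    exact Finset.sum_induction _ (IsAlgebraic ℚ) (fun _ _ ha hb => ha.add hb) isAlgebraic_zero
      fun k _ => (hf.alg i k).mul (hg.alg k j)

end drb

end Ftxx

open Ftxx in
/-- [FTX] -/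
theorem thm_Ftx (hLkx : St_Lkx) (hFlx : St_Flx) (hMdv : St_Mdv) (hMdf : St_Mdf) (hPmd : St_Pmd)
    (hHmf : St_Hmf) (hSsl : St_Ssl) : St_Ftx := by
  classical
  intro I J _ _ _ _ e n κ _ _ ϖ P K _ _ c m h t k γ Z MZ H i j σ₁ τ₁ hl M hM hMi τ
  have hS : ∀ i, CMR (c i) (h i) (t i) := fun i =>
    ⟨(H.S i).conj, H.sy.cm i, (H.S i).herm, (H.S i).nd, (H.S i).cliff⟩
  have hm2 := H.sy.m2
  have hni := H.ne i
  have hnj := H.ne j
  obtain ⟨θ, g, g', hθ, hθc, hgg', hg'g, hgh, hgM⟩ :=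
    hLkx I K c m h (SyM e n P t γ) H.sy i j σ₁ τ₁ hl
  obtain ⟨F, ε, hF0, hFtau, hFZ⟩ := hFlx (κ (e i) → ℂ) (κ (e j) → ℂ) (K i) (K j) (c i) (c j)
    (m i) (m j) (h i) (h j) (t i) (t j) (hS i) (hS j) (by have := hm2 i; omega) θ g g' hθ hθc
    hgg' hg'g hgh
  -- (1) a vector of the middle part
  obtain ⟨v₀, hv₀, hFv₀⟩ : ∃ v, CE (t i) (fun _ => 0) v ∧ F v ≠ 0 := by
    by_contra hcon
    have hcon' : ∀ v, CE (t i) (fun _ => 0) v → F v = 0 := by
      intro v hv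
      by_contra h1
      exact hcon ⟨v, hv, h1⟩
    have hU := hMdv (κ (e i) → ℂ) (K i) (c i) (m i) (h i) (t i) (hS i) (H.ev i)
      (LinearMap.ker F) (by
        intro σ a v hv
        rw [LinearMap.mem_ker] at hv ⊢
        have h2 := LinearMap.congr_fun (hFtau σ (Pi.single a 1)) v
        rw [LinearMap.comp_apply, LinearMap.smul_apply, LinearMap.comp_apply, hv, map_zero,
          smul_zero, tau_single] at h2
        exact h2) (fun v hv => LinearMap.mem_ker.2 (hcon' v hv))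
    exact hF0 (LinearMap.ker_eq_top.1 hU)
  have hmid : ∀ v, CE (t i) (fun _ => 0) v → CE (t j) (fun _ => 0) (F v) := by
    intro v hv Z' z' hZ'
    have hsk : SkewM (h j) fun σ => z' σ • (1 : Matrix (Fin (m j)) (Fin (m j)) ℂ) :=
      skew_of (hS j) hZ'.2
    have hmj : (m j : ℂ) ≠ 0 := by
      have := hm2 j
      exact_mod_cast (by omega : m j ≠ 0)
    have hodd : ∀ ρ, z' (cj ρ) = -z' ρ := by
      intro ρ
      have h1 := trace_cj (hS j) hsk ρ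
      rw [Matrix.trace_smul, Matrix.trace_smul, Matrix.trace_one, Fintype.card_fin, smul_eq_mul,
        smul_eq_mul, ← neg_mul] at h1
      exact mul_right_cancel₀ hmj h1
    obtain ⟨Z'', hZ''1, hZ''2⟩ := exists_bvE (hS i).conj (hS i).herm (hS i).nd (hS i).cliff
      (fun σ => z' (θ σ) • (1 : Matrix (Fin (m i)) (Fin (m i)) ℂ))
      (skew_scal fun σ => by rw [hθc, hodd])
    have h3 := hFZ Z'' _ Z' _ hZ''1 hZ''2 hZ'.1 hZ'.2 (by
      intro σ
      rw [Matrix.smul_mul, Matrix.one_mul, Matrix.mul_smul, Matrix.mul_one])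
    have h4 := LinearMap.congr_fun h3 v
    rw [LinearMap.comp_apply, LinearMap.comp_apply, hv Z'' (fun σ => z' (θ σ)) ⟨hZ''1, hZ''2⟩] at h4
    simp only [mul_zero, Finset.sum_const_zero, zero_smul, map_zero] at h4 ⊢
    exact h4.symm
  obtain ⟨p, hp1, hp2, hp3⟩ := hPmd (κ (e i)) ϖ (P (e i)) (K i) (c i) (m i) (h i) (t i) (H.S i)
    (H.sy.cm i)
  obtain ⟨p', hp'1, hp'2, hp'3⟩ := hPmd (κ (e j)) ϖ (P (e j)) (K j) (c j) (m j) (h j) (t j)
    (H.S j) (H.sy.cm j)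
  have hpp : ∀ v, p (p v) = p v := fun v => hp3 _ (hp2 v)
  have hpp' : ∀ v, p' (p' v) = p' v := fun v => hp'3 _ (hp'2 v)
  -- symmetries
  have hsym : ∀ X : GG κ, IsInv n P γ X → X.2 = 0 → ∃ M' ∈ SyM e n P t γ, ∀ i,
      ActM (t i) (X.1 (e i)) (M' i) := by
    intro X hX hX2
    choose M' hM' using H.T X hX
    exact ⟨M', ⟨X, hX, hX2, hM'⟩, hM'⟩
  -- (2)
  let F' : (κ (e i) → ℂ) →ₗ[ℂ] (κ (e j) → ℂ) := p' ∘ₗ F ∘ₗ p
  have hF' : ∀ v, F' v = p' (F (p v)) := fun v => rfl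
  have hF'X : ∀ X : GG κ, IsInv n P γ X → X.2 = 0 → F' ∘ₗ X.1 (e i) = X.1 (e j) ∘ₗ F' := by
    intro X hX hX2
    obtain ⟨M', hM'R, hM'⟩ := hsym X hX hX2
    obtain ⟨Yi, hYi, hYiM, hYiv⟩ := tz_part (hS i)
      (mem_bvE n P (e i) (H.S i) γ X hX hX2 _ (hM' i)) (hM' i)
    obtain ⟨Yj, hYj, hYjM, hYjv⟩ := tz_part (hS j)
      (mem_bvE n P (e j) (H.S j) γ X hX hX2 _ (hM' j)) (hM' j)
    have h1 := hFZ Yi _ Yj _ hYi hYiM hYj hYjM (hgM M' hM'R)
    apply LinearMap.ext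
    intro u
    show F' (X.1 (e i) u) = X.1 (e j) (F' u)
    rw [hF', hF', ← hX.comm _ _ p hp1, hYiv _ (hp2 u)]
    have h2 := LinearMap.congr_fun h1 (p u)
    rw [LinearMap.comp_apply, LinearMap.comp_apply] at h2
    rw [h2, ← hYjv _ (hmid _ (hp2 u)), ← hX.comm _ _ p' hp'1]
  have hspan := hHmf J n κ ϖ H.pi P k γ H.B H.A (e i) (e j) F' hF'X
  obtain ⟨f, hf, hf0, hfp, hpf⟩ : ∃ f : (κ (e i) → ℂ) →ₗ[ℂ] (κ (e j) → ℂ),
      IsDRB (P (e i)) (P (e j)) f ∧ f ≠ 0 ∧ (∀ v, f (p v) = f v) ∧ ∀ v, p' (f v) = f v := by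
    by_contra hcon
    have h1 : ∀ G ∈ Submodule.span ℂ {f : (κ (e i) → ℂ) →ₗ[ℂ] (κ (e j) → ℂ) |
        IsDRB (P (e i)) (P (e j)) f}, ∀ v, p' (G (p v)) = 0 := by
      intro G hG
      induction hG using Submodule.span_induction with
      | mem f₀ hf₀ =>
        have hf₀' : IsDRB (P (e i)) (P (e j)) f₀ := hf₀
        by_contra h2
        apply hcon
        refine ⟨p' ∘ₗ (f₀ ∘ₗ p), drb_comp (drb_comp hp1 hf₀') hp'1, ?_, ?_, ?_⟩
        · intro h3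
          apply h2
          intro v
          exact LinearMap.congr_fun h3 v
        · intro v
          show p' (f₀ (p (p v))) = p' (f₀ (p v))
          rw [hpp]
        · intro v
          show p' (p' (f₀ (p v))) = p' (f₀ (p v))
          rw [hpp']
      | zero => intro v; rw [LinearMap.zero_apply, map_zero]
      | add a b _ _ ha hb => intro v; rw [LinearMap.add_apply, map_add, ha, hb, add_zero]
      | smul r a _ ha => intro v; rw [LinearMap.smul_apply, map_smul, ha, smul_zero]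
    have h2 := h1 F' hspan v₀
    rw [hF', hpp, hpp', hp3 _ hv₀, hp'3 _ (hmid _ hv₀)] at h2
    exact hFv₀ h2
  have hfmid : ∀ v, CE (t j) (fun _ => 0) (f v) := by
    intro v
    rw [← hpf]
    exact hp'2 _
  -- (3)
  obtain ⟨X, hX, hX2, hXM⟩ := hM
  obtain ⟨Xi, hXi, hXiM, hXiv⟩ := tz_part (hS i)
    (mem_bvE n P (e i) (H.S i) γ X hX hX2 _ (hXM i)) (hXM i)
  obtain ⟨Xj, hXj, hXjM, hXjv⟩ := tz_part (hS j)
    (mem_bvE n P (e j) (H.S j) γ X hX hX2 _ (hXM j)) (hXM j)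
  obtain ⟨Zi, hZi, hZiM, hZiv⟩ := tz_part (hS i) (H.Z1 i) (H.Z2 i)
  obtain ⟨Zj, hZj, hZjM, hZjv⟩ := tz_part (hS j) (H.Z1 j) (H.Z2 j)
  have hXZ : Xi = Zi := by
    have e1 : (fun σ => trz (M i σ)) = fun σ => trz (MZ i σ) := funext hMi
    rw [e1] at hXiM
    exact eq_of_act (hS i).conj (hS i).herm (hS i).nd (hS i).cliff hXi hZi hXiM hZiM
  have hW : ∀ v, (Xj - Zj) (f v) = 0 := by
    intro v
    rw [LinearMap.sub_apply, ← hXjv _ (hfmid v), ← hZjv _ (hfmid v), sub_eq_zero,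
      H.Z3 _ _ f hf, hX.comm _ _ f hf]
    rw [← hfp (Z (e i) v), ← hfp (X.1 (e i) v), ← H.Z3 _ _ p hp1, ← hX.comm _ _ p hp1,
      hXiv _ (hp2 v), hZiv _ (hp2 v), hXZ]
  -- (4)
  by_contra hne
  let Nf : (K j →+* ℂ) → Matrix (Fin (m j)) (Fin (m j)) ℂ :=
    (fun σ => trz (M j σ)) - fun σ => trz (MZ j σ)
  have hNf : Nf τ ≠ 0 := fun h1 => hne (sub_eq_zero.1 h1)
  have hNft : Nf τ ∈ SL (m j) := by
    have h1 : ∀ A : Matrix (Fin (m j)) (Fin (m j)) ℂ, trz A ∈ SL (m j) := by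
      intro A
      show (trz A).trace = 0
      have hm0 : (m j : ℂ) ≠ 0 := by
        have := hm2 j
        exact_mod_cast (by omega : m j ≠ 0)
      unfold trz
      rw [Matrix.trace_sub, Matrix.trace_smul, Matrix.trace_one, Fintype.card_fin, smul_eq_mul,
        div_mul_cancel₀ _ hm0, sub_self]
    exact Submodule.sub_mem _ (h1 _) (h1 _)
  have hsmp := (hSsl (m j) (hm2 j)).1
  -- families whose operators kill the image of `f`
  let IsK : ((K j →+* ℂ) → Matrix (Fin (m j)) (Fin (m j)) ℂ) → Prop := fun N =>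
    ∃ W ∈ bvS (t j), ActM (t j) W N ∧ ∀ v, W (f v) = 0
  have hKN : IsK Nf := ⟨Xj - Zj, Submodule.sub_mem _ hXj hZj, hXjM.sub hZjM, hW⟩
  have hKbr : ∀ M' ∈ SyM e n P t γ, ∀ N, IsK N → IsK (M' j * N - N * M' j) := by
    rintro M' ⟨X', hX', hX'2, hX'M⟩ N ⟨W, hW1, hW2, hW3⟩
    refine ⟨X'.1 (e j) * W - W * X'.1 (e j), bvS_br (hS j)
      (mem_bvE n P (e j) (H.S j) γ X' hX' hX'2 _ (hX'M j)) hW1, (hX'M j).bracket hW2, ?_⟩
    intro v
    rw [LinearMap.sub_apply, Module.End.mul_apply, Module.End.mul_apply, hW3, map_zero,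
      hX'.comm _ _ f hf, hW3, sub_zero]
  -- the value at `τ` of the families supported at `τ`, `cj τ`
  let 𝒩 : Submodule ℂ (Matrix (Fin (m j)) (Fin (m j)) ℂ) :=
    { carrier := {A | A ∈ SL (m j) ∧ ∃ N, IsK N ∧ N τ = A ∧ ∀ ρ, ρ ≠ τ → ρ ≠ cj τ → N ρ = 0}
      add_mem' := by
        rintro A B ⟨hA, N, ⟨W, hW1, hW2, hW3⟩, hN, hN'⟩ ⟨hB, N', ⟨W', hW'1, hW'2, hW'3⟩, hN2, hN2'⟩
        refine ⟨Submodule.add_mem _ hA hB, N + N', ⟨W + W', Submodule.add_mem _ hW1 hW'1,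
          hW2.add hW'2, fun v => ?_⟩, ?_, fun ρ h1 h2 => ?_⟩
        · rw [LinearMap.add_apply, hW3, hW'3, add_zero]
        · rw [Pi.add_apply, hN, hN2]
        · rw [Pi.add_apply, hN' ρ h1 h2, hN2' ρ h1 h2, add_zero]
      zero_mem' := ⟨Submodule.zero_mem _, 0, ⟨0, Submodule.zero_mem _, ActM.zero,
        fun v => LinearMap.zero_apply _⟩, rfl, fun _ _ _ => rfl⟩
      smul_mem' := by
        rintro r A ⟨hA, N, ⟨W, hW1, hW2, hW3⟩, hN, hN'⟩
        refine ⟨Submodule.smul_mem _ r hA, r • N, ⟨r • W, Submodule.smul_mem _ r hW1,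
          hW2.smul r, fun v => ?_⟩, ?_, fun ρ h1 h2 => ?_⟩
        · rw [LinearMap.smul_apply, hW3, smul_zero]
        · rw [Pi.smul_apply, hN]
        · rw [Pi.smul_apply, hN' ρ h1 h2, smul_zero] }
  have h𝒩 : ∀ A, A ∈ 𝒩 ↔ A ∈ SL (m j) ∧ ∃ N, IsK N ∧ N τ = A ∧
      ∀ ρ, ρ ≠ τ → ρ ≠ cj τ → N ρ = 0 := fun _ => Iff.rfl
  have hbr : ∀ x ∈ SL (m j), ∀ N, IsK N → N τ ∈ SL (m j) → x * N τ - N τ * x ∈ 𝒩 := by
    intro x hx N hN hNt
    obtain ⟨M', hM', hM'1, hM'2⟩ := H.sy.one j τ x hx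
    refine (h𝒩 _).2 ⟨hsmp.br x hx _ hNt, M' j * N - N * M' j, hKbr M' hM' N hN, ?_, ?_⟩
    · show M' j τ * N τ - N τ * M' j τ = _
      rw [hM'1]
    · intro ρ h1 h2
      show M' j ρ * N ρ - N ρ * M' j ρ = 0
      rw [hM'2 ρ h1 h2, zero_mul, mul_zero, sub_zero]
  have h𝒩top : 𝒩 = SL (m j) := by
    refine hsmp.id 𝒩 (fun A hA => ((h𝒩 A).1 hA).1) ?_ ?_
    · intro x hx y hy
      obtain ⟨hy1, N, hN, rfl, -⟩ := (h𝒩 y).1 hy
      exact hbr x hx N hN hy1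
    · intro hbot
      apply hNf
      refine hsmp.cent _ hNft fun x hx => ?_
      have h1 := hbr x hx Nf hKN hNft
      rw [hbot, Submodule.mem_bot] at h1
      exact sub_eq_zero.1 h1
  -- a vector in the image of `f`
  obtain ⟨v₁, hv₁⟩ : ∃ v, f v ≠ 0 := by
    by_contra h1
    apply hf0
    apply LinearMap.ext
    intro v
    by_contra h2
    exact h1 ⟨v, h2⟩
  obtain ⟨Y, MY, hY, hYM, hYt, hYs, hYv⟩ := hMdf (κ (e j) → ℂ) (K j) (c j) (m j) (h j) (t j)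
    (hS j) (by have := hm2 j; omega) (f v₁) (hfmid v₁) hv₁ τ
  have h5 : MY τ ∈ 𝒩 := by
    rw [h𝒩top]
    exact hYt τ
  obtain ⟨-, N, ⟨W, hW1, hW2, hW3⟩, hN1, hN2⟩ := (h𝒩 _).1 h5
  have h6 : N = MY := by
    funext ρ
    by_cases h7 : ρ = τ
    · rw [h7, hN1]
    · by_cases h8 : ρ = cj τ
      · rw [h8]
        exact HMainC.dual_eq (hS j).nd (skew_of (hS j) hW2) (skew_of (hS j) hYM) hN1
      · rw [hN2 ρ h7 h8, hYs ρ h7 h8]
  rw [h6] at hW2
  have h7 := eq_of_act (hS j).conj (hS j).herm (hS j).nd (hS j).cliff hW1 hY hW2 hYM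
  apply hYv
  rw [← h7]
  exact hW3 v₁

end Pool.Agent.KTW
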