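import Pool.Agent.KTW.StV
import Pool.Agent.KSV.Hall5
import Pool.Agent.KT.Alg.Gen
import Pool.Agent.Helper7.Bridge3

/-!
# KTW: GSF, the symmetries at a generic surface

`gsf_scal`: the operators which commute with all symmetries are scalars; `gsf_irr`: so the subspaces
stable under the symmetries are trivial.  Then as in `KSV/Hall5.lean`.
-/

set_option autoImplicit false

namespace Pool.Agent.KTW

open Module Matrix NumberField Pool.Agent.Helper7 Pool.Agent.KS Pool.Agent.Ball Pool.Agent.KSE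
  Pool.Agent.Helper28.GPC Pool.Agent.K3P Pool.Agent.KTP
open Pool.Agent.GPC (AbVar TC IsRatT qf df HU IsGrU Form IsBetti IsDeRham IsGrothendieck H1 IsFilU
  GrIsHodge IsElementary IsRMType)
open Pool.Agent.KT.Alg (gg St_KT IsAlgl thm_AlgS)

section irr

variable {I : Type} [Fintype I] [DecidableEq I] (n : I → ℕ) {κ : I → Type}
    [∀ i, Fintype (κ i)] [∀ i, DecidableEq (κ i)] {ϖ : ℂ} (hϖ : ϖ ≠ 0) (P : ∀ i, PData (κ i) ϖ)
    (i : I) {k : ℕ} (γ : MultilinearMap ℂ (fun _ : Fin (2 * k) => HW κ n) ℂ)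
    (hB : ∀ v : Fin (2 * k) → HW κ n, (∀ r, IsRatP n P (v r)) → ∃ q : ℚ, γ v = ϖ ^ k * q)
    (hA : ∀ v : Fin (2 * k) → HW κ n, (∀ r i m j, IsAlgebraic ℚ (v r i m j)) →
      IsAlgebraic ℚ (γ v))
    (hs : ∀ F : Module.End ℂ (κ i → ℂ), IsDRB (P i) (P i) F → ∃ c : ℂ, ∀ v, F v = c • v)

include hϖ hB hA hs in
theorem gsf_scal (f : Module.End ℂ (κ i → ℂ))
    (hf : ∀ X : GG κ, IsInv n P γ X → X.1 i * f = f * X.1 i) : ∃ c : ℂ, ∀ v, f v = c • v := by
  obtain ⟨m, c, F, hF, hβ⟩ := bilin_of_inv n P γ hϖ hB hA i i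
    ((P i).ψ ∘ₗ f) (by
      intro X hX u v
      have h1 := hX.pol i (f u) v
      have h2 : X.1 i (f u) = f (X.1 i u) := LinearMap.congr_fun (hf X hX) u
      rw [h2] at h1
      exact h1)
  have hsum : ∀ u, f u = ∑ l, c l • F l u := by
    intro u
    rw [← sub_eq_zero]
    apply (P i).hψnd
    intro v
    have h3 : (P i).ψ (f u) v = ∑ l, c l * (P i).ψ (F l u) v := hβ u v
    rw [map_sub, LinearMap.sub_apply, h3, map_sum, LinearMap.sum_apply]
    simp only [LinearMap.smul_apply, map_smul, smul_eq_mul, sub_self]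
  choose d hd using fun l => hs (F l) (hF l)
  refine ⟨∑ l, c l * d l, fun v => ?_⟩
  rw [hsum, Finset.sum_smul]
  refine Finset.sum_congr rfl fun l _ => ?_
  rw [hd, smul_smul]

include hϖ hB hA hs in
theorem gsf_irr (hP : HNd (P i)) (U : Submodule ℂ (κ i → ℂ))
    (hU : ∀ X : GG κ, IsInv n P γ X → ∀ v ∈ U, X.1 i v ∈ U) : U = ⊥ ∨ U = ⊤ := by
  classical
  by_cases h0 : U = ⊥
  · exact Or.inl h0
  right
  obtain ⟨v, hv, hv0⟩ := (Submodule.ne_bot_iff U).1 h0
  obtain ⟨j0, hj0⟩ : ∃ j, (P i).bB.repr v j ≠ 0 := by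
    by_contra hcon
    push Not at hcon
    apply hv0
    apply (P i).bB.repr.injective
    rw [map_zero]
    ext j
    exact hcon j
  have hrat : ∀ w ∈ (P i).Q, ∃ q : ℚ, (P i).bB.repr w j0 = q := by
    intro w hw
    have hw' : w ∈ Submodule.span ℚ (Set.range (P i).bB) := hw
    induction hw' using Submodule.span_induction with
    | mem x hx =>
      obtain ⟨j, rfl⟩ := hx
      rw [Basis.repr_self, Finsupp.single_apply]
      by_cases h : j = j0
      · exact ⟨1, by rw [if_pos h, Rat.cast_one]⟩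
      · exact ⟨0, by rw [if_neg h, Rat.cast_zero]⟩
    | zero => exact ⟨0, by rw [map_zero, Finsupp.zero_apply, Rat.cast_zero]⟩
    | add x y hx hy ihx ihy =>
      obtain ⟨a, ha⟩ := ihx hx
      obtain ⟨b, hb⟩ := ihy hy
      exact ⟨a + b, by rw [map_add, Finsupp.add_apply, ha, hb, Rat.cast_add]⟩
    | smul r x hx ihx =>
      obtain ⟨a, ha⟩ := ihx hx
      refine ⟨r * a, ?_⟩
      have e : r • x = (r : ℂ) • x := by
        funext s
        simp [Pi.smul_apply, Rat.smul_def]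
      rw [e, map_smul, Finsupp.smul_apply, ha, smul_eq_mul, Rat.cast_mul]
  have hb : ∀ l, (P i).bB l ∈ U := by
    intro l
    let T : Module.End ℂ (κ i → ℂ) := ((P i).bB.coord j0).smulRight ((P i).bB l)
    have hT : ∀ w, T w = (P i).bB.repr w j0 • (P i).bB l := fun w => rfl
    have h1 : T v ∈ U := by
      refine DenseE.stable_of_comm n hϖ P i γ hB hA hP U hU T ?_ ?_ v hv
      · intro w hw
        obtain ⟨q, hq⟩ := hrat w hw
        rw [hT, hq]
        exact (P i).rat_smul_mem _ _ ((P i).basis_mem l)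
      · intro f hf
        obtain ⟨c, hc⟩ := gsf_scal n hϖ P i γ hB hA hs f hf
        apply LinearMap.ext
        intro w
        show f (T w) = T (f w)
        rw [hc, hc, map_smul]
    rw [hT] at h1
    have h2 := U.smul_mem ((P i).bB.repr v j0)⁻¹ h1
    rw [smul_smul, inv_mul_cancel₀ hj0, one_smul] at h2
    exact h2
  rw [eq_top_iff, ← (P i).bB.span_eq, Submodule.span_le]
  rintro _ ⟨l, rfl⟩
  exact hb l

end irr

/-- [GSF] -/
theorem thm_Gsf (h1 : KSV.St_D4) (h2 : KSV.St_Ex3) (h3 : St_KT) : St_Gsf := by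
  intro J _ _ D n k γ hB hA j hgen Z hZ
  classical
  have hϖ := Complex.two_pi_I_ne_zero
  have hcard : Fintype.card (Fin (D j).g ⊕ Fin (D j).g) = 4 := by
    rw [Fintype.card_sum, Fintype.card_fin, hgen.1]
  -- the operators at `j`
  let Th : GG (fun j => Fin (D j).g ⊕ Fin (D j).g) →ₗ[ℂ] Module.End ℂ (Fin (D j).g ⊕ Fin (D j).g → ℂ) :=
    { toFun := fun X => X.1 j - (X.2 / 2) • (1 : Module.End ℂ (Fin (D j).g ⊕ Fin (D j).g → ℂ))
      map_add' := by
        intro X Y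
        apply LinearMap.ext
        intro v
        show X.1 j v + Y.1 j v - ((X.2 + Y.2) / 2) • v =
          (X.1 j v - (X.2 / 2) • v) + (Y.1 j v - (Y.2 / 2) • v)
        module
      map_smul' := by
        intro r X
        apply LinearMap.ext
        intro v
        show r • X.1 j v - ((r * X.2) / 2) • v = r • (X.1 j v - (X.2 / 2) • v)
        rw [smul_sub, smul_smul, mul_div_assoc] }
  have hTh : ∀ X v, Th X v = X.1 j v - (X.2 / 2) • v := fun _ _ => rfl
  let Inv : Submodule ℂ (GG (fun j => Fin (D j).g ⊕ Fin (D j).g)) :=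
    { carrier := {X | IsInv n (fun j => pData (D j)) γ X}
      add_mem' := fun hX hY => hX.add n _ γ hY
      zero_mem' := IsInv.zero n _ γ
      smul_mem' := fun c _ hX => hX.smul n _ γ c }
  let 𝔪 : Submodule ℂ (Module.End ℂ (Fin (D j).g ⊕ Fin (D j).g → ℂ)) := Inv.map Th
  have hmem : ∀ X, IsInv n (fun j => pData (D j)) γ X → Th X ∈ 𝔪 := fun X hX => ⟨X, hX, rfl⟩
  -- brackets
  have hbr : ∀ Y ∈ 𝔪, ∀ Y' ∈ 𝔪, Y * Y' - Y' * Y ∈ 𝔪 := by
    rintro _ ⟨X, hX, rfl⟩ _ ⟨X', hX', rfl⟩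
    refine ⟨X * X' - X' * X, IsInv.bracket n _ γ hX hX', ?_⟩
    apply LinearMap.ext
    intro v
    have e2 : (X * X' - X' * X).2 = 0 := by
      show X.2 * X'.2 - X'.2 * X.2 = 0
      ring
    have e1 : ∀ w, (X * X' - X' * X).1 j w = X.1 j (X'.1 j w) - X'.1 j (X.1 j w) := fun _ => rfl
    rw [hTh, e2, e1]
    show _ = Th X (Th X' v) - Th X' (Th X v)
    rw [hTh X (Th X' v), hTh X' (Th X v), hTh X v, hTh X' v]
    simp only [map_sub, map_smul, smul_sub, zero_div, zero_smul, sub_zero]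
    module
  -- the form
  have halt : ∀ u v, (pData (D j)).ψ u v = - (pData (D j)).ψ v u := fun u v =>
    (pData (D j)).hψalt _ _
  have hsk : 𝔪 ≤ KSV.Sk (pData (D j)).ψ := by
    rintro _ ⟨X, hX, rfl⟩ u v
    rw [hTh, hTh]
    have e1 := IsInv.pol hX j u v
    simp only [map_sub, map_smul, LinearMap.sub_apply, LinearMap.smul_apply, smul_eq_mul]
    linear_combination e1
  -- irreducibility
  have hirr : ∀ W : Submodule ℂ (Fin (D j).g ⊕ Fin (D j).g → ℂ),
      (∀ X ∈ 𝔪, ∀ w ∈ W, X w ∈ W) → W = ⊥ ∨ W = ⊤ := by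
    intro W hW
    refine gsf_irr n hϖ (fun j => pData (D j)) j γ hB hA ?_ (hnd_pData (D j)) W ?_
    · intro F hF
      obtain ⟨q, hq⟩ := Pool.Agent.KT.Alg.Gen_rat (D j) hgen F (isEnd_of_isDRB (D j) F hF)
      exact ⟨q, hq⟩
    · intro X hX v hv
      have e1 := hW _ (hmem X hX) v hv
      rw [hTh] at e1
      have e2 := W.add_mem e1 (W.smul_mem (X.2 / 2) hv)
      rw [sub_add_cancel] at e2
      exact e2
  have hfin : finrank ℂ (Fin (D j).g ⊕ Fin (D j).g → ℂ) = 4 := by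
    rw [Module.finrank_fintype_fun_eq_card, hcard]
  rcases h1 _ hfin (pData (D j)).ψ halt (pData (D j)).hψnd 𝔪 hbr hsk hirr with hall | ⟨A, hA1, hA2⟩
  · obtain ⟨X, hX, hXZ⟩ := hall (show Z ∈ KSV.Sk (pData (D j)).ψ from hZ)
    refine ⟨X + (-X.2) • ((fun _ => (1 / 2 : ℂ) • (1 : Module.End ℂ _), 1) :
        GG (fun j => Fin (D j).g ⊕ Fin (D j).g)),
      IsInv.add n _ γ hX (IsInv.smul n _ γ _ (Helper98.Ball.isInv_homothety n _ γ)), ?_, ?_⟩
    · show X.2 + (-X.2) * 1 = 0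
      ring
    · rw [← hXZ]
      show X.1 j + (-X.2) • ((1 / 2 : ℂ) • (1 : Module.End ℂ (Fin (D j).g ⊕ Fin (D j).g → ℂ))) =
        X.1 j - (X.2 / 2) • (1 : Module.End ℂ (Fin (D j).g ⊕ Fin (D j).g → ℂ))
      module
  · -- the third symmetric power
    exfalso
    have hs1 : 𝔪 ≤ Submodule.span ℂ {Y | Y ∈ 𝔪 ∧ ∀ v ∈ (pData (D j)).Q, Y v ∈ (pData (D j)).Q} := by
      rintro _ ⟨X, hX, rfl⟩
      have h6 : Th X ∈ (Submodule.span ℂ {Y | IsInv n (fun j => pData (D j)) γ Y ∧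
          IsRatl (fun j => pData (D j)) Y}).map Th :=
        ⟨X, mem_span_of_isInv n _ γ hϖ hB X hX, rfl⟩
      rw [Submodule.map_span] at h6
      refine Submodule.span_mono ?_ h6
      rintro _ ⟨Y, ⟨hY, hY1, q, hq⟩, rfl⟩
      refine ⟨hmem Y hY, fun v hv => ?_⟩
      rw [hTh, hq]
      refine Submodule.sub_mem _ (hY1 j _ hv) ?_
      have h7 : ((q : ℂ) / 2) • v = (q / 2 : ℚ) • v := by
        funext s
        simp [Pi.smul_apply, Rat.smul_def]
      rw [h7]
      exact Submodule.smul_mem _ _ hv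
    have hs2 : 𝔪 ≤ Submodule.span ℂ {Y | Y ∈ 𝔪 ∧ ∀ v : Fin (D j).g ⊕ Fin (D j).g → ℂ,
        (∀ l, IsAlgebraic ℚ (v l)) → ∀ l, IsAlgebraic ℚ (Y v l)} := by
      rintro _ ⟨X, hX, rfl⟩
      have h6 : Th X ∈ (Submodule.span ℂ {Y | IsInv n (fun j => pData (D j)) γ Y ∧ IsAlgl Y}).map Th :=
        ⟨X, thm_AlgS _ n _ _ (fun j => pData (D j)) k γ hA X hX, rfl⟩
      rw [Submodule.map_span] at h6
      refine Submodule.span_mono ?_ h6
      rintro _ ⟨Y, ⟨hY, hY1, hY2⟩, rfl⟩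
      refine ⟨hmem Y hY, fun v hv => ?_⟩
      rw [hTh]
      intro l
      have h7 : IsAlgebraic ℚ (Y.2 / 2) := by
        rw [div_eq_mul_inv]
        exact hY2.mul (isAlgebraic_algebraMap (2 : ℚ)).inv
      rw [Pi.sub_apply, Pi.smul_apply, smul_eq_mul]
      exact (hY1 j _ hv l).sub (h7.mul (hv l))
    obtain ⟨v, hv, hv0, x, c, p, hp, hcurve⟩ := h2 _ _ (pData (D j)) hcard 𝔪 hs1 hs2 A hA1 hA2
    obtain ⟨N, hN, l, hl, hNl⟩ := (mem_pData_Q _ _).mp hv
    have hl0 : l ≠ 0 := by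
      rintro rfl
      rw [Pool.Agent.GPC.period_zero, smul_eq_zero] at hNl
      rcases hNl with h | h
      · exact hN (by exact_mod_cast h)
      · exact hv0 h
    refine h3 (D j) hgen l hl hl0 x (N * c) p hp ?_
    intro s
    rw [← hNl, Pi.smul_apply, smul_eq_mul, hcurve s]
    ring

end Pool.Agent.KTW
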