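import Pool.Agent.KTW.StX

/-!
# KTW [Hmf]: maps which commute with the symmetries
-/

set_option autoImplicit false

namespace Pool.Agent.KTW

open Module Matrix NumberField Pool.Agent.Helper7 Pool.Agent.KS Pool.Agent.Ball Pool.Agent.KSE
  Pool.Agent.Helper28.GPC Pool.Agent.K3P Pool.Agent.KTP

theorem thm_Hmf : St_Hmf := by
  intro J _ _ n κ _ _ ϖ hϖ P k γ hB hA i j F hF
  have hFI : ∀ X : GG κ, IsInv n P γ X → F ∘ₗ X.1 i = X.1 j ∘ₗ F := by
    intro X hX
    have h1 := hF (X + (-X.2) • ((fun _ => (1 / 2 : ℂ) • (1 : Module.End ℂ _), 1) : GG κ))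
      (hX.add _ _ _ ((Helper98.Ball.isInv_homothety _ _ _).smul _ _ _ _)) (by
        show X.2 + (-X.2) * 1 = 0
        ring)
    apply LinearMap.ext
    intro v
    have h2 := LinearMap.congr_fun h1 v
    have h3 : F (X.1 i v + (-X.2) • ((1 / 2 : ℂ) • v)) =
      X.1 j (F v) + (-X.2) • ((1 / 2 : ℂ) • F v) := h2
    rw [map_add, map_smul, map_smul] at h3
    exact add_right_cancel h3
  obtain ⟨m', c', F', hF', hβ⟩ := bilin_of_inv n P γ hϖ hB hA i j ((P j).ψ ∘ₗ F) (by
    intro X hX u v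
    have h1 : F (X.1 i u) = X.1 j (F u) := LinearMap.congr_fun (hFI X hX) u
    show (P j).ψ (F (X.1 i u)) v + (P j).ψ (F u) (X.1 j v) = X.2 * (P j).ψ (F u) v
    rw [h1]
    exact hX.pol j (F u) v)
  have h4 : F = ∑ l, c' l • F' l := by
    apply LinearMap.ext
    intro u
    rw [← sub_eq_zero]
    apply (P j).hψnd
    intro v
    have h1 : (P j).ψ (F u) v = ∑ l, c' l * (P j).ψ (F' l u) v := hβ u v
    rw [map_sub, LinearMap.sub_apply, h1, LinearMap.sum_apply, map_sum, LinearMap.sum_apply,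
      sub_eq_zero]
    refine Finset.sum_congr rfl fun l _ => ?_
    rw [LinearMap.smul_apply, map_smul, LinearMap.smul_apply, smul_eq_mul]
  rw [h4]
  exact Submodule.sum_mem _ fun l _ => Submodule.smul_mem _ _ (Submodule.subset_span (hF' l))

end Pool.Agent.KTW
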