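import Pool.Agent.KTW.StU
import Pool.Agent.KTW.StV
import Pool.Agent.Helper39.AF.Decomp
import Pool.Agent.K3P.Inv

/-!
# KTW [Iqt]: Kuga-Satake varieties of Hermitian planes over imaginary quadratic fields (helper82)

`Iqt_abs` is the reduction to simple factors of the part of an abelian variety cut out by a central
idempotent `E`, when the endomorphisms of this part are the commutant of a quaternion algebra.
-/

set_option autoImplicit false
set_option linter.unusedSimpArgs false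
set_option linter.unusedSectionVars false

namespace Pool.Agent.KTW

open Module Matrix NumberField Pool.Agent.Helper7 Pool.Agent.KS Pool.Agent.Ball Pool.Agent.KSE
  Pool.Agent.Helper28.GPC Pool.Agent.K3P Pool.Agent.KTP Pool.Agent.Helper39.AF
open Pool.Agent.GPC (AbVar IsRMType)

theorem Iqt_abs (hQrm : St_Qrm) (A : AbVar) (E x y : Module.End ℂ A.H1) (a b : ℚ) (ha : a ≠ 0)
    (hb : b ≠ 0) (hEE : E * E = E) (hEx : E * x = x) (hEy : E * y = y)
    (hx : x * x = (a : ℂ) • E) (hy : y * y = (b : ℂ) • E) (hxy : x * y = -(y * x))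
    (hxB : ∀ v, A.IsBetti v → A.IsBetti (x v)) (hyB : ∀ v, A.IsBetti v → A.IsBetti (y v))
    (hEnd0 : A.IsEnd E)
    (hEnd1 : ∀ f : A.H1 → A.H1, A.IsEnd f →
      (∀ v, f (E v) = E (f v)) ∧ (∀ v, f (x v) = x (f v)) ∧ ∀ v, f (y v) = y (f v))
    (hEnd2 : ∀ f : A.H1 → A.H1, IsLinearMap ℂ f → (∀ v, A.IsBetti v → A.IsBetti (f v)) →
      (∀ v, f (E v) = f v) → (∀ v, E (f v) = f v) → (∀ v, f (x v) = x (f v)) →
      (∀ v, f (y v) = y (f v)) → A.IsEnd f) (v : A.H1) :
    E v ∈ Submodule.span ℂ {w : A.H1 | ∃ (B : AbVar) (f : B.H1 → A.H1) (u : B.H1),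
      B.IsBasic ∧ B.IsMor A f ∧ w = f u} := by
  obtain ⟨J, iJ, B, ι, π, D⟩ := exists_sdecomp A
  have hv : E v = ∑ j, E (ι j (π j v)) := by
    rw [← map_sum, D.sum v]
  rw [hv]
  refine Submodule.sum_mem _ fun j _ => ?_
  obtain ⟨il, hil⟩ : ∃ il : (B j).H1 →ₗ[ℂ] A.H1, ∀ v, il v = ι j v :=
    ⟨(D.morι j).linear.mk' _, fun _ => rfl⟩
  obtain ⟨pl, hpl⟩ : ∃ pl : A.H1 →ₗ[ℂ] (B j).H1, ∀ v, pl v = π j v :=
    ⟨(D.morπ j).linear.mk' _, fun _ => rfl⟩
  have hil' : (il : (B j).H1 → A.H1) = ι j := funext hil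
  have hpl' : (pl : A.H1 → (B j).H1) = π j := funext hpl
  have mι : (B j).IsMor A il := by rw [hil']; exact D.morι j
  have mπ : A.IsMor (B j) pl := by rw [hpl']; exact D.morπ j
  have hpi : ∀ v, pl (il v) = v := fun v => by rw [hil, hpl, D.πι]
  have hE : A.IsEnd (fun v => il (pl v)) := (isEnd_iff A _).2 (isMor_comp mι mπ)
  obtain ⟨hcE, hcx, hcy⟩ := hEnd1 _ hE
  have kE : ∀ v, il (pl (E (il v))) = E (il v) := fun v => by
    have h1 := hcE (il v)
    simp only [hpi] at h1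
    exact h1
  have kx : ∀ v, il (pl (x (il v))) = x (il v) := fun v => by
    have h1 := hcx (il v)
    simp only [hpi] at h1
    exact h1
  have ky : ∀ v, il (pl (y (il v))) = y (il v) := fun v => by
    have h1 := hcy (il v)
    simp only [hpi] at h1
    exact h1
  have hEE' : ∀ v, E (E v) = E v := fun v => congrArg (fun t : Module.End ℂ A.H1 => t v) hEE
  rw [← hil, ← hpl]
  have mE : (B j).IsMor (B j) (fun v => pl (E (il v))) :=
    isMor_comp mπ (isMor_comp ((isEnd_iff _ _).1 hEnd0) mι)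
  by_cases h0 : ∀ v, pl (E (il v)) = 0
  · rw [← kE, h0, map_zero]
    exact Submodule.zero_mem _
  push Not at h0
  have hbij := bijective_of_simple (D.simple j) (D.simple j) _ mE h0
  have hone : ∀ v, pl (E (il v)) = v := fun v => by
    apply hbij.1
    show pl (E (il (pl (E (il v))))) = pl (E (il v))
    rw [kE, hEE']
  have hEi : ∀ v, E (il v) = il v := fun v => by rw [← kE, hone]
  rw [hEi]
  refine Submodule.subset_span ⟨B j, il, pl v, ⟨D.simple j, Or.inr (Or.inl ?_)⟩, mι, rfl⟩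
  have happ : ∀ (w : Module.End ℂ A.H1) v, (pl ∘ₗ w ∘ₗ il) v = pl (w (il v)) := fun _ _ => rfl
  refine hQrm (B j) (D.simple j) (D.pos j) (pl ∘ₗ x ∘ₗ il) (pl ∘ₗ y ∘ₗ il) 0 a b
    ha hb ?_ ?_ ?_ (by rw [mul_zero, zero_mul]) (by rw [mul_zero, zero_mul]) ?_ ?_ ?_ ?_ ?_
  · apply LinearMap.ext
    intro v
    rw [Module.End.mul_apply, happ, happ, kx]
    have h1 : x (x (il v)) = (a : ℂ) • E (il v) :=
      congrArg (fun t : Module.End ℂ A.H1 => t (il v)) hx
    rw [h1, hEi, map_smul, hpi]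
    rfl
  · apply LinearMap.ext
    intro v
    rw [Module.End.mul_apply, happ, happ, ky]
    have h1 : y (y (il v)) = (b : ℂ) • E (il v) :=
      congrArg (fun t : Module.End ℂ A.H1 => t (il v)) hy
    rw [h1, hEi, map_smul, hpi]
    rfl
  · apply LinearMap.ext
    intro v
    have h1 : x (y (il v)) = -(y (x (il v))) :=
      congrArg (fun t : Module.End ℂ A.H1 => t (il v)) hxy
    rw [LinearMap.neg_apply, Module.End.mul_apply, Module.End.mul_apply, happ, happ, happ, happ,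
      ky, kx, h1, map_neg]
  · intro u w
    rw [LinearMap.zero_apply, LinearMap.zero_apply, ← pData_ψ, ← pData_ψ, map_zero, map_zero]
    rfl
  · exact fun v hv => mπ.betti _ (hxB _ (mι.betti v hv))
  · exact fun v hv => mπ.betti _ (hyB _ (mι.betti v hv))
  · intro u _
    rw [LinearMap.zero_apply, isBetti_iff]
    exact Submodule.zero_mem _
  · intro f
    constructor
    · intro hf
      have hF : A.IsEnd (fun v => il (f (pl v))) :=
        (isEnd_iff A _).2 (isMor_comp mι (isMor_comp ((isEnd_iff _ _).1 hf) mπ))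
      obtain ⟨-, gx, gy⟩ := hEnd1 _ hF
      refine ⟨hf.linear, hf.betti, ?_, ?_, ?_⟩
      · intro v
        have h1 := congrArg pl (gx (il v))
        simp only [hpi] at h1
        exact h1
      · intro v
        have h1 := congrArg pl (gy (il v))
        simp only [hpi] at h1
        exact h1
      · intro v
        rw [LinearMap.zero_apply, LinearMap.zero_apply, hf.linear.map_zero]
    · rintro ⟨hl, hB, fx, fy, -⟩
      have hpx : ∀ w : Module.End ℂ A.H1, (∀ v, il (pl (w v)) = w (il (pl v))) →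
          ∀ v, pl (w (il (pl v))) = pl (w v) := by
        intro w hw v
        rw [← hw, hpi]
      have hF : A.IsEnd (fun v => il (f (pl v))) := by
        refine hEnd2 _ ⟨fun u v => by rw [map_add, hl.map_add, map_add],
          fun r v => by rw [map_smul, hl.map_smul, map_smul]⟩
          (fun v hv => mι.betti _ (hB _ (mπ.betti v hv))) ?_ ?_ ?_ ?_
        · intro v
          show il (f (pl (E v))) = il (f (pl v))
          rw [← hpx E hcE, hEi, hpi]
        · intro v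
          exact hEi _
        · intro v
          show il (f (pl (x v))) = x (il (f (pl v)))
          rw [← kx, ← happ, ← fx, happ, hpx x hcx]
        · intro v
          show il (f (pl (y v))) = y (il (f (pl v)))
          rw [← ky, ← happ, ← fy, happ, hpx y hcy]
      have h1 := isMor_comp mπ (isMor_comp ((isEnd_iff _ _).1 hF) mι)
      simp only [hpi] at h1
      exact (isEnd_iff _ _).2 h1

section alg

variable {𝓐 : Type} [Ring 𝓐] [Algebra ℂ 𝓐]

private lemma Iqt_cm {f u v : 𝓐} (hu : f * u = u * f) (hv : f * v = v * f) :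
    f * (u * v) = u * v * f := by
  rw [← mul_assoc, hu, mul_assoc, hv, mul_assoc]

private lemma Iqt_ca {f u v : 𝓐} (hu : f * u = u * f) (hv : f * v = v * f) :
    f * (u + v) = (u + v) * f := by
  rw [mul_add, add_mul, hu, hv]

private lemma Iqt_cb {f u v : 𝓐} (hu : f * u = u * f) (hv : f * v = v * f) :
    f * (u - v) = (u - v) * f := by
  rw [mul_sub, sub_mul, hu, hv]

private lemma Iqt_cr {f u : 𝓐} (r : ℂ) (hu : f * u = u * f) : f * (r • u) = (r • u) * f := by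
  rw [mul_smul_comm, smul_mul_assoc, hu]

private lemma Iqt_cs {f u w : 𝓐} {r : ℂ} (hr : r ≠ 0) (hu : f * w = w * f) (h : w = r • u) :
    f * u = u * f := by
  rw [h, mul_smul_comm, smul_mul_assoc] at hu
  exact smul_right_injective _ hr hu

private lemma Iqt_cn {f u v : 𝓐} (hu : f * u = u * f) (h : v = -u) : f * v = v * f := by
  rw [h, mul_neg, neg_mul, hu]

private lemma Iqt_lin {n n' : ℕ} (T U : Fin n → 𝓐) (L M : Fin n' → 𝓐) (r s : Fin n' → Fin n → ℂ)
    (hL : ∀ a, L a = ∑ i, r a i • T i) (hM : ∀ a, M a = ∑ i, s a i • U i) (f : 𝓐)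
    (h : ∀ i j, f * (T i * U j) = T i * U j * f)
    (a b : Fin n') : f * (L a * M b) = L a * M b * f := by
  rw [hL a, hM b, Finset.sum_mul_sum, Finset.mul_sum, Finset.sum_mul]
  refine Finset.sum_congr rfl fun i _ => ?_
  rw [Finset.mul_sum, Finset.sum_mul]
  refine Finset.sum_congr rfl fun j _ => ?_
  rw [smul_mul_smul_comm, mul_smul_comm, smul_mul_assoc, h]

/-- normal forms -/
private lemma Iqt_nf (p₀ m₀ p₁ m₁ : 𝓐) (a00 : p₀ * p₀ = 0) (b00 : m₀ * m₀ = 0)
    (a11 : p₁ * p₁ = 0) (b11 : m₁ * m₁ = 0) (c0 : m₀ * p₀ = 1 - p₀ * m₀)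
    (c1 : m₁ * p₁ = 1 - p₁ * m₁) (a10 : p₁ * p₀ = -(p₀ * p₁)) (b10 : m₁ * m₀ = -(m₀ * m₁))
    (d10 : p₁ * m₀ = -(m₀ * p₁)) (e10 : m₁ * p₀ = -(p₀ * m₁)) :
    ∃ E X : 𝓐, E = p₀ * m₀ + p₁ * m₁ - (2 : ℂ) • (p₀ * m₀ * (p₁ * m₁)) ∧
      X = p₀ * m₀ - p₁ * m₁ ∧
      E = 1 - (p₀ * m₀ + p₁ * m₁ - 1) * (p₀ * m₀ + p₁ * m₁ - 1) ∧
      E * E = E ∧ E * X = X ∧ X * E = X ∧ X * X = E ∧
      E * (p₀ * m₁) = p₀ * m₁ ∧ (p₀ * m₁) * E = p₀ * m₁ ∧
      E * (m₀ * p₁) = m₀ * p₁ ∧ (m₀ * p₁) * E = m₀ * p₁ ∧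
      X * (p₀ * m₁) = p₀ * m₁ ∧ (p₀ * m₁) * X = -(p₀ * m₁) ∧
      X * (m₀ * p₁) = -(m₀ * p₁) ∧ (m₀ * p₁) * X = m₀ * p₁ ∧
      (p₀ * m₁) * (p₀ * m₁) = 0 ∧ (m₀ * p₁) * (m₀ * p₁) = 0 ∧
      (p₀ * m₁) * (m₀ * p₁) + (m₀ * p₁) * (p₀ * m₁) = -E ∧
      E * (p₀ * m₀) = p₀ * m₀ * E ∧ E * (p₁ * m₁) = p₁ * m₁ * E ∧
      E + X = (2 : ℂ) • (p₀ * m₀ * E) ∧ E - X = (2 : ℂ) • (p₁ * m₁ * E) ∧
      1 - E = m₀ * (p₀ * (m₁ * p₁)) + p₀ * (m₀ * (p₁ * m₁)) ∧
      m₀ * (m₀ * (p₀ * (m₁ * p₁))) = 0 ∧ m₁ * (m₀ * (p₀ * (m₁ * p₁))) = 0 ∧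
      p₀ * (p₀ * (m₀ * (p₁ * m₁))) = 0 ∧ p₁ * (p₀ * (m₀ * (p₁ * m₁))) = 0 := by
  have ta00 : ∀ t, p₀ * (p₀ * t) = 0 := fun t => by rw [← mul_assoc, a00, zero_mul]
  have tb00 : ∀ t, m₀ * (m₀ * t) = 0 := fun t => by rw [← mul_assoc, b00, zero_mul]
  have ta11 : ∀ t, p₁ * (p₁ * t) = 0 := fun t => by rw [← mul_assoc, a11, zero_mul]
  have tb11 : ∀ t, m₁ * (m₁ * t) = 0 := fun t => by rw [← mul_assoc, b11, zero_mul]
  have tc0 : ∀ t, m₀ * (p₀ * t) = t - p₀ * (m₀ * t) := fun t => by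
    rw [← mul_assoc, c0, sub_mul, one_mul, mul_assoc]
  have tc1 : ∀ t, m₁ * (p₁ * t) = t - p₁ * (m₁ * t) := fun t => by
    rw [← mul_assoc, c1, sub_mul, one_mul, mul_assoc]
  have ta10 : ∀ t, p₁ * (p₀ * t) = -(p₀ * (p₁ * t)) := fun t => by
    rw [← mul_assoc, a10, neg_mul, mul_assoc]
  have tb10 : ∀ t, m₁ * (m₀ * t) = -(m₀ * (m₁ * t)) := fun t => by
    rw [← mul_assoc, b10, neg_mul, mul_assoc]
  have td10 : ∀ t, p₁ * (m₀ * t) = -(m₀ * (p₁ * t)) := fun t => by
    rw [← mul_assoc, d10, neg_mul, mul_assoc]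
  have te10 : ∀ t, m₁ * (p₀ * t) = -(p₀ * (m₁ * t)) := fun t => by
    rw [← mul_assoc, e10, neg_mul, mul_assoc]
  refine ⟨_, _, rfl, rfl, ?_, ?_, ?_, ?_, ?_, ?_, ?_, ?_, ?_, ?_, ?_, ?_, ?_, ?_, ?_, ?_, ?_, ?_,
    ?_, ?_, ?_, ?_, ?_, ?_, ?_⟩
  all_goals
    simp only [mul_assoc, mul_add, add_mul, mul_sub, sub_mul, mul_smul_comm, smul_mul_assoc,
      mul_neg, neg_mul, mul_one, one_mul, mul_zero, zero_mul, neg_neg, smul_neg, smul_zero,
      neg_zero, sub_zero, add_zero, zero_add, a00, b00, a11, b11, c0, c1, a10, b10, d10, e10,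
      ta00, tb00, ta11, tb11, tc0, tc1, ta10, tb10, td10, te10, sub_self]
  all_goals try module

/-- the operators of an orthogonal basis of a Hermitian plane -/
private lemma Iqt_alg (p n : Fin 2 → 𝓐) (d : Fin 2 → ℂ) (hd : ∀ i, d i ≠ 0) (s : ℂ) (hs : s ≠ 0)
    (pp : ∀ i j, p i * p j + p j * p i = 0) (nn : ∀ i j, n i * n j + n j * n i = 0)
    (pn : ∀ i, p i * n i + n i * p i = (2 * d i) • 1)
    (pm : ∀ i j, i ≠ j → p i * n j + n j * p i = 0) :
    ∃ E x y : 𝓐,
      (E = 1 - ((4 * d 0)⁻¹ • (p 0 * n 0 - n 0 * p 0) + (4 * d 1)⁻¹ • (p 1 * n 1 - n 1 * p 1)) *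
        ((4 * d 0)⁻¹ • (p 0 * n 0 - n 0 * p 0) + (4 * d 1)⁻¹ • (p 1 * n 1 - n 1 * p 1))) ∧
      (x = (4 * d 0)⁻¹ • s • (p 0 * n 0 - n 0 * p 0) -
        (4 * d 1)⁻¹ • s • (p 1 * n 1 - n 1 * p 1)) ∧
      (y = p 0 * n 1 + n 0 * p 1) ∧
      E * E = E ∧ E * x = x ∧ E * y = y ∧ x * x = (s * s) • E ∧ y * y = (-(4 * d 0 * d 1)) • E ∧
      x * y = -(y * x) ∧ (∀ i j, E * (p i * n j) = p i * n j * E) ∧
      (∀ i j, E * (n i * p j) = n i * p j * E) ∧
      (∀ f, f * E = f → E * f = f → f * x = x * f → f * y = y * f →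
        (∀ i j, f * (p i * n j) = p i * n j * f) ∧ ∀ i j, f * (n i * p j) = n i * p j * f) ∧
      ∃ u v, 1 - E = u + v ∧ (∀ i, n i * u = 0) ∧ ∀ i, p i * v = 0 := by
  have sq0 : ∀ t : 𝓐, t * t + t * t = 0 → t * t = 0 := fun t h => by
    rw [← two_smul ℂ, smul_eq_zero] at h
    exact h.resolve_left two_ne_zero
  have h2d : ∀ i, (2 * d i) ≠ 0 := fun i => mul_ne_zero two_ne_zero (hd i)
  obtain ⟨m, hm⟩ : ∃ m : Fin 2 → 𝓐, ∀ i, n i = (2 * d i) • m i :=
    ⟨fun i => (2 * d i)⁻¹ • n i, fun i => by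
      rw [smul_smul, mul_inv_cancel₀ (h2d i), one_smul]⟩
  have mm : ∀ i j, m i * m j + m j * m i = 0 := fun i j => by
    have h1 := nn i j
    rw [hm i, hm j, smul_mul_smul_comm, smul_mul_smul_comm, mul_comm (2 * d j), ← smul_add,
      smul_eq_zero] at h1
    exact h1.resolve_left (mul_ne_zero (h2d i) (h2d j))
  have pm1 : ∀ i, m i * p i = 1 - p i * m i := fun i => by
    have h1 := pn i
    rw [hm i, mul_smul_comm, smul_mul_assoc, ← smul_add] at h1
    have h2 := smul_right_injective _ (h2d i) h1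
    exact eq_sub_of_add_eq' h2
  have pm0 : ∀ i j, i ≠ j → p i * m j + m j * p i = 0 := fun i j hij => by
    have h1 := pm i j hij
    rw [hm j, mul_smul_comm, smul_mul_assoc, ← smul_add, smul_eq_zero] at h1
    exact h1.resolve_left (h2d j)
  obtain ⟨E, X, hE, hX, hE2, EE, EX, XE, XX, EU, UE, EV, VE, XU, UX, XV, VX, UU, VV, UV, k1, k2,
    k3, k4, k5, k6, k7, k8, k9⟩ := Iqt_nf (p 0) (m 0) (p 1) (m 1) (sq0 _ (pp 0 0))
    (sq0 _ (mm 0 0)) (sq0 _ (pp 1 1)) (sq0 _ (mm 1 1)) (pm1 0) (pm1 1)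
    (eq_neg_of_add_eq_zero_left (pp 1 0)) (eq_neg_of_add_eq_zero_left (mm 1 0))
    (eq_neg_of_add_eq_zero_left (pm0 1 0 (by decide)))
    (eq_neg_of_add_eq_zero_right (pm0 0 1 (by decide)))
  have hM : ∀ i, (4 * d i)⁻¹ • (p i * n i - n i * p i) = p i * m i - (2 : ℂ)⁻¹ • 1 := fun i => by
    rw [hm i, mul_smul_comm, smul_mul_assoc, pm1, ← smul_sub, smul_smul]
    have h1 : (4 * d i)⁻¹ * (2 * d i) = (2 : ℂ)⁻¹ := by
      field_simp [hd i]
      norm_num
    rw [h1]
    match_scalars <;> norm_num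
  have hY : p 0 * n 1 + n 0 * p 1 = (2 * d 1) • (p 0 * m 1) + (2 * d 0) • (m 0 * p 1) := by
    rw [hm 1, hm 0, mul_smul_comm, smul_mul_assoc]
  have hm10 : m 1 * p 0 = -(p 0 * m 1) := eq_neg_of_add_eq_zero_right (pm0 0 1 (by decide))
  have hp10 : p 1 * m 0 = -(m 0 * p 1) := eq_neg_of_add_eq_zero_left (pm0 1 0 (by decide))
  -- commutation with the products of degree zero
  have hcomm : ∀ f, f * (p 0 * m 0) = p 0 * m 0 * f → f * (p 1 * m 1) = p 1 * m 1 * f →
      f * (p 0 * m 1) = p 0 * m 1 * f → f * (m 0 * p 1) = m 0 * p 1 * f →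
      (∀ i j, f * (p i * n j) = p i * n j * f) ∧ ∀ i j, f * (n i * p j) = n i * p j * f := by
    intro f f0 f1 f2 f3
    have g0 : f * (m 0 * p 0) = m 0 * p 0 * f := by
      rw [pm1]
      exact Iqt_cb (by rw [mul_one, one_mul]) f0
    have g1 : f * (m 1 * p 1) = m 1 * p 1 * f := by
      rw [pm1]
      exact Iqt_cb (by rw [mul_one, one_mul]) f1
    have g2 := Iqt_cn f2 hm10
    have g3 := Iqt_cn f3 hp10
    constructor
    · intro i j
      rw [hm j, mul_smul_comm]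
      apply Iqt_cr
      fin_cases i <;> fin_cases j
      · exact f0
      · exact f2
      · exact g3
      · exact f1
    · intro i j
      rw [hm i, smul_mul_assoc]
      apply Iqt_cr
      fin_cases i <;> fin_cases j
      · exact g0
      · exact f3
      · exact g2
      · exact g1
  refine ⟨E, s • X, p 0 * n 1 + n 0 * p 1, ?_, ?_, rfl, EE, ?_, ?_, ?_, ?_, ?_, ?_, ?_, ?_, ?_⟩
  · rw [hM, hM, hE2]
    have h1 : p 0 * m 0 - (2 : ℂ)⁻¹ • 1 + (p 1 * m 1 - (2 : ℂ)⁻¹ • 1) = p 0 * m 0 + p 1 * m 1 - 1 := by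
      match_scalars <;> norm_num
    rw [h1]
  · rw [smul_comm _ s, smul_comm _ s, ← smul_sub, hM, hM, hX]
    congr 1
    abel
  · rw [mul_smul_comm, EX]
  · rw [hY, mul_add, mul_smul_comm, mul_smul_comm, EU, EV]
  · rw [smul_mul_smul_comm, XX]
  · rw [hY, mul_add, add_mul, add_mul, smul_mul_smul_comm, smul_mul_smul_comm, smul_mul_smul_comm,
      smul_mul_smul_comm, UU, VV, smul_zero, smul_zero, zero_add, add_zero,
      mul_comm (2 * d 0) (2 * d 1), ← smul_add, add_comm (m 0 * p 1 * (p 0 * m 1)), UV]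
    module
  · rw [hY, mul_add, add_mul, smul_mul_smul_comm, smul_mul_smul_comm, smul_mul_smul_comm,
      smul_mul_smul_comm, XU, XV, UX, VX]
    module
  · exact (hcomm E k1 k2 (by rw [EU, UE]) (by rw [EV, VE])).1
  · exact (hcomm E k1 k2 (by rw [EU, UE]) (by rw [EV, VE])).2
  · intro f fE Ef fx fy
    have fX : f * X = X * f := Iqt_cs hs fx rfl
    have fEE : f * E = E * f := by rw [fE, Ef]
    have fXy := Iqt_cm fX fy
    have hXy : X * (p 0 * n 1 + n 0 * p 1) =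
        (2 * d 1) • (p 0 * m 1) - (2 * d 0) • (m 0 * p 1) := by
      rw [hY, mul_add, mul_smul_comm, mul_smul_comm, XU, XV]
      module
    apply hcomm
    · have h1 := Iqt_ca fEE fX
      rw [k3, mul_smul_comm, smul_mul_assoc] at h1
      have h2 := smul_right_injective _ (two_ne_zero (α := ℂ)) h1
      rw [mul_assoc _ E f, Ef, ← k1, ← mul_assoc, fE] at h2
      exact h2
    · have h1 := Iqt_cb fEE fX
      rw [k4, mul_smul_comm, smul_mul_assoc] at h1
      have h2 := smul_right_injective _ (two_ne_zero (α := ℂ)) h1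
      rw [mul_assoc _ E f, Ef, ← k2, ← mul_assoc, fE] at h2
      exact h2
    · refine Iqt_cs (r := 4 * d 1) (mul_ne_zero (by norm_num) (hd 1)) (Iqt_ca fy fXy) ?_
      rw [hXy, hY]
      module
    · refine Iqt_cs (r := 4 * d 0) (mul_ne_zero (by norm_num) (hd 0)) (Iqt_cb fy fXy) ?_
      rw [hXy, hY]
      module
  · refine ⟨_, _, k5, ?_, ?_⟩
    · intro i
      rw [hm i, smul_mul_assoc]
      fin_cases i
      · exact (congrArg _ k6).trans (smul_zero _)
      · exact (congrArg _ k7).trans (smul_zero _)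
    · intro i
      fin_cases i
      · exact k8
      · exact k9

end alg

/-- the fixed elements of the conjugation of a quadratic field are rational -/
private lemma Iqt_fld {K : Type} [Field K] [NumberField K] (c : K →+* K) (hcc : ∀ x, c (c x) = x)
    (hc : c ≠ RingHom.id K) (h2 : finrank ℚ K = 2) :
    ∃ δ : K, δ ≠ 0 ∧ c δ = -δ ∧ ∀ w, c w = w → ∃ q : ℚ, w = q := by
  obtain ⟨w₀, hw₀⟩ : ∃ w, c w ≠ w := by
    by_contra hcon
    push Not at hcon
    exact hc (RingHom.ext hcon)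
  have hδ : w₀ - c w₀ ≠ 0 := fun h => hw₀ (sub_eq_zero.1 h).symm
  have hcδ : c (w₀ - c w₀) = -(w₀ - c w₀) := by
    rw [map_sub, hcc]
    ring
  generalize w₀ - c w₀ = δ at hδ hcδ
  refine ⟨δ, hδ, hcδ, ?_⟩
  have hli : LinearIndependent ℚ ![(1 : K), δ] := by
    rw [LinearIndependent.pair_iff]
    intro s t hst
    have h1 : (s : K) + (t : K) * δ = 0 := by
      rw [Algebra.smul_def, Algebra.smul_def, mul_one, eq_ratCast, eq_ratCast] at hst
      exact hst
    have h3 : (s : K) - (t : K) * δ = 0 := by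
      have h4 := congrArg c h1
      rw [map_add, map_mul, map_ratCast, map_ratCast, hcδ, map_zero] at h4
      rw [← h4]
      ring
    have h5 : (2 : K) * s = 0 := by linear_combination h1 + h3
    have h6 : (s : K) = 0 := (mul_eq_zero.1 h5).resolve_left two_ne_zero
    have h7 : (t : K) * δ = 0 := by rw [h6, zero_add] at h1; exact h1
    have h8 : (t : K) = 0 := (mul_eq_zero.1 h7).resolve_right hδ
    exact ⟨by exact_mod_cast h6, by exact_mod_cast h8⟩
  intro w hw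
  have hcard : Fintype.card (Fin 2) = finrank ℚ K := by rw [h2, Fintype.card_fin]
  let B := basisOfLinearIndependentOfCardEqFinrank hli hcard
  have hB : ∀ i, B i = ![(1 : K), δ] i := fun i => by
    rw [coe_basisOfLinearIndependentOfCardEqFinrank]
  have h1 := B.sum_repr w
  rw [Fin.sum_univ_two, hB, hB, Algebra.smul_def, Algebra.smul_def, eq_ratCast, eq_ratCast] at h1
  have h1' : ((B.repr w 0 : ℚ) : K) + ((B.repr w 1 : ℚ) : K) * δ = w := by
    simpa using h1
  have h3 := congrArg c h1'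
  rw [map_add, map_mul, map_ratCast, map_ratCast, hcδ, hw] at h3
  refine ⟨B.repr w 0, ?_⟩
  have h4 : (2 : K) * w = 2 * ((B.repr w 0 : ℚ) : K) := by linear_combination -h1' - h3
  exact mul_left_cancel₀ two_ne_zero h4

/-- orthogonal bases of Hermitian planes -/
private lemma Iqt_orth {K : Type} [Field K] [CharZero K] (c : K →+* K) (hcc : ∀ x, c (c x) = x)
    (h : Matrix (Fin 2) (Fin 2) K) (hs : ∀ a b, c (h a b) = h b a) (hdet : h.det ≠ 0) :
    ∃ (v r : Matrix (Fin 2) (Fin 2) K) (D : Fin 2 → K), r * v = 1 ∧ (∀ a, D a ≠ 0) ∧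
      (∀ a, c (D a) = D a) ∧ ∀ a b, v a ⬝ᵥ (h *ᵥ fun j => c (v b j)) = if a = b then D a else 0 := by
  obtain ⟨u, hu⟩ : ∃ u : Fin 2 → K, u ⬝ᵥ (h *ᵥ fun j => c (u j)) ≠ 0 := by
    by_contra hcon
    push Not at hcon
    have h0 := hcon ![1, 0]
    have h1 := hcon ![0, 1]
    have h3 := hcon ![1, h 0 1]
    simp only [dotProduct, Matrix.mulVec, Fin.sum_univ_two, Matrix.cons_val_zero,
      Matrix.cons_val_one, map_one, map_zero, mul_one, mul_zero, one_mul, zero_mul, add_zero,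
      zero_add, hs] at h0 h1 h3
    rw [h0, h1] at h3
    rw [Matrix.det_fin_two, h0, h1] at hdet
    apply hdet
    have h5 : (2 : K) * (h 0 1 * h 1 0) = 0 := by linear_combination h3
    have h6 := (mul_eq_zero.1 h5).resolve_left two_ne_zero
    rw [h6]
    ring
  have hD0 : u ⬝ᵥ (h *ᵥ fun j => c (u j)) =
      u 0 * (h 0 0 * c (u 0) + h 0 1 * c (u 1)) + u 1 * (h 1 0 * c (u 0) + h 1 1 * c (u 1)) := by
    simp only [dotProduct, Matrix.mulVec, Fin.sum_univ_two]
  obtain ⟨v, hv0, hv1⟩ : ∃ v : Matrix (Fin 2) (Fin 2) K, v 0 = u ∧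
      v 1 = ![-(h 1 0 * c (u 0) + h 1 1 * c (u 1)), h 0 0 * c (u 0) + h 0 1 * c (u 1)] :=
    ⟨![u, ![-(h 1 0 * c (u 0) + h 1 1 * c (u 1)), h 0 0 * c (u 0) + h 0 1 * c (u 1)]], rfl, rfl⟩
  have hdv : v.det = u ⬝ᵥ (h *ᵥ fun j => c (u j)) := by
    rw [Matrix.det_fin_two, hv0, hv1, hD0]
    simp only [Matrix.cons_val_zero, Matrix.cons_val_one]
    ring
  have hcD : c (u ⬝ᵥ (h *ᵥ fun j => c (u j))) = u ⬝ᵥ (h *ᵥ fun j => c (u j)) := by
    rw [hD0]
    simp only [map_add, map_mul, hs, hcc]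
    ring
  have hcdet : c h.det = h.det := by
    rw [Matrix.det_fin_two]
    simp only [map_sub, map_mul, hs]
    ring
  refine ⟨v, v⁻¹, ![u ⬝ᵥ (h *ᵥ fun j => c (u j)), h.det * (u ⬝ᵥ (h *ᵥ fun j => c (u j)))],
    ?_, ?_, ?_, ?_⟩
  · exact Matrix.nonsing_inv_mul _ (by rw [hdv]; exact isUnit_iff_ne_zero.2 hu)
  · intro a
    fin_cases a
    · exact hu
    · exact mul_ne_zero hdet hu
  · intro a
    fin_cases a
    · exact hcD
    · show c (h.det * (u ⬝ᵥ (h *ᵥ fun j => c (u j)))) = h.det * (u ⬝ᵥ (h *ᵥ fun j => c (u j)))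
      rw [map_mul, hcD, hcdet]
  · intro a b
    fin_cases a <;> fin_cases b
    · show v 0 ⬝ᵥ (h *ᵥ fun j => c (v 0 j)) = u ⬝ᵥ (h *ᵥ fun j => c (u j))
      rw [hv0]
    · show v 0 ⬝ᵥ (h *ᵥ fun j => c (v 1 j)) = 0
      rw [hv0, hv1]
      simp only [dotProduct, Matrix.mulVec, Fin.sum_univ_two, Matrix.cons_val_zero,
        Matrix.cons_val_one, map_neg, map_add, map_mul, hs, hcc]
      ring
    · show v 1 ⬝ᵥ (h *ᵥ fun j => c (v 0 j)) = 0
      rw [hv0, hv1]
      simp only [dotProduct, Matrix.mulVec, Fin.sum_univ_two, Matrix.cons_val_zero,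
        Matrix.cons_val_one]
      ring
    · show v 1 ⬝ᵥ (h *ᵥ fun j => c (v 1 j)) = h.det * (u ⬝ᵥ (h *ᵥ fun j => c (u j)))
      rw [hv1, hD0, Matrix.det_fin_two]
      simp only [dotProduct, Matrix.mulVec, Fin.sum_univ_two, Matrix.cons_val_zero,
        Matrix.cons_val_one, map_neg, map_add, map_mul, hs, hcc]
      ring

private lemma Iqt_gal {K : Type} [Field K] [NumberField K] (h2 : finrank ℚ K = 2) :
    IsAbelianGalois ℚ K := by
  have : Algebra.IsQuadraticExtension ℚ K := ⟨h2⟩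
  have hG : IsGalois ℚ K := Algebra.IsQuadraticExtension.isGalois ℚ K
  have hcard : Nat.card (K ≃ₐ[ℚ] K) = 2 := by
    rw [IsGalois.card_aut_eq_finrank, h2]
  have : Fact (Nat.Prime 2) := ⟨Nat.prime_two⟩
  have hcyc : IsCyclic (K ≃ₐ[ℚ] K) := isCyclic_of_prime_card hcard
  have : IsMulCommutative (K ≃ₐ[ℚ] K) := IsCyclic.isMulCommutative
  exact {}

theorem thm_Iqt (hQrm : St_Qrm) (hCmp : St_Cmp) (hBsp : St_Bsp) : St_Iqt := by
  intro A K _ _ c S hc h2
  classical
  by_cases hg : A.g = 0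
  · exact ⟨Empty, inferInstance, Empty.elim, fun x => x.elim, fun v _ => by
      rw [Pool.Agent.Helper71.AF.H1_subsingleton A hg v 0]
      exact Submodule.zero_mem _⟩
  apply hBsp
  intro v₁ _
  have hcc : ∀ x, c (c x) = x := by
    intro x
    obtain ⟨σ⟩ : Nonempty (K →+* ℂ) := inferInstance
    apply σ.injective
    rw [← S.conjugation σ (c x)]
    have h1 := S.conjugation σ x
    have h3 : ComplexEmbedding.conjugate σ (c x) = star (σ (c x)) := rfl
    have h4 : ComplexEmbedding.conjugate σ x = star (σ x) := rfl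
    rw [h3, ← h1, h4, star_star]
  obtain ⟨δ, hδ, hcδ, hrat⟩ := Iqt_fld c hcc hc h2
  obtain ⟨σ₀, x₀, hx₀, -, -⟩ := S.hodge
  have hnd := k3_nd S.conjugation S.hermitian hx₀
  obtain ⟨v, r, D, hrv, hD0, hcD, hH⟩ := Iqt_orth c hcc S.h S.hermitian hnd
  obtain ⟨σ⟩ : Nonempty (K →+* ℂ) := inferInstance
  have hσc : ∀ x, cj σ x = σ (c x) := S.conjugation σ
  have hne : cj σ ≠ σ := by
    intro h
    apply hδ
    have h1 := hσc δ
    rw [h, hcδ, map_neg] at h1
    have h3 : (2 : ℂ) * σ δ = 0 := by linear_combination h1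
    exact (map_eq_zero σ).1 ((mul_eq_zero.1 h3).resolve_left two_ne_zero)
  have hτ : ∀ τ : K →+* ℂ, τ = σ ∨ τ = cj σ := by
    intro τ
    have h1 : ({σ, cj σ} : Finset (K →+* ℂ)) = Finset.univ := by
      apply Finset.eq_univ_of_card
      rw [Finset.card_pair hne.symm, NumberField.Embeddings.card K ℂ, h2]
    have h3 := Finset.mem_univ τ
    rw [← h1, Finset.mem_insert, Finset.mem_singleton] at h3
    exact h3
  have hcjcj : cj (cj σ) = σ := by
    apply RingHom.ext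
    intro x
    rw [S.conjugation (cj σ) x, hσc, hcc]
  have hsum : ∀ F : (K →+* ℂ) → A.H1, ∑ τ, F τ = F σ + F (cj σ) := fun F =>
    Fintype.sum_eq_add σ (cj σ) hne.symm fun τ hτ' => absurd (hτ τ) (by
      rintro (h | h)
      · exact hτ'.1 h
      · exact hτ'.2 h)
  obtain ⟨p, hp⟩ : ∃ p : Fin 2 → Module.End ℂ A.H1,
      ∀ i, p i = tau (ts (lt A S) σ) (fun b => σ (v i b)) := ⟨_, fun _ => rfl⟩
  obtain ⟨n, hn⟩ : ∃ n : Fin 2 → Module.End ℂ A.H1,
      ∀ i, n i = tau (ts (lt A S) (cj σ)) (fun b => cj σ (v i b)) := ⟨_, fun _ => rfl⟩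
  have M := mde A S hnd
  choose q hq using fun i => hrat (D i) (hcD i)
  have hq0 : ∀ i, q i ≠ 0 := by
    intro i h0
    apply hD0 i
    rw [hq, h0, Rat.cast_zero]
  have hσD : ∀ i, σ (D i) = q i := fun i => by rw [hq, map_ratCast]
  have hpr : ∀ i j, pr S.h σ (fun b => σ (v i b)) (fun b => cj σ (v j b)) =
      σ (v i ⬝ᵥ (S.h *ᵥ fun b => c (v j b))) := by
    intro i j
    simp only [pr, dotProduct, Matrix.mulVec, Matrix.map_apply, map_sum, map_mul, hσc]
  have hpn : ∀ i j, p i * n j + n j * p i =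
      (2 * σ (v i ⬝ᵥ (S.h *ᵥ fun b => c (v j b)))) • 1 := by
    intro i j
    have h1 := tau_pair M.conj M.cliff σ (fun b => σ (v i b)) (fun b => cj σ (v j b))
    rw [← hp, ← hn, hpr] at h1
    exact h1
  have hpp : ∀ i j, p i * p j + p j * p i = 0 := by
    intro i j
    rw [hp, hp]
    exact tau_anti M.conj M.cliff hne.symm _ _
  have hnn : ∀ i j, n i * n j + n j * n i = 0 := by
    intro i j
    rw [hn, hn]
    exact tau_anti M.conj M.cliff (by rw [hcjcj]; exact hne) _ _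
  -- the operators in terms of each other
  have hpe : ∀ i, p i = ∑ b, σ (v i b) • le A S σ b := by
    intro i
    rw [hp, tau_apply]
    simp only [ts_lt]
  have hne' : ∀ i, n i = ∑ b, cj σ (v i b) • le A S (cj σ) b := by
    intro i
    rw [hn, tau_apply]
    simp only [ts_lt]
  have hinv : ∀ (τ : K →+* ℂ) (P : Fin 2 → Module.End ℂ A.H1),
      (∀ i, P i = ∑ b, τ (v i b) • le A S τ b) → ∀ b, le A S τ b = ∑ i, τ (r b i) • P i := by
    intro τ P hP b
    have h1 : ∀ d, ∑ i, τ (r b i) * τ (v i d) = if b = d then 1 else 0 := by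
      intro d
      have h3 := congrArg τ (congrFun (congrFun hrv b) d)
      rw [Matrix.mul_apply, map_sum] at h3
      simp only [map_mul] at h3
      rw [h3, Matrix.one_apply]
      split_ifs
      · rw [map_one]
      · rw [map_zero]
    have h4 : ∀ i, τ (r b i) • P i = ∑ d, (τ (r b i) * τ (v i d)) • le A S τ d := by
      intro i
      rw [hP, Finset.smul_sum]
      refine Finset.sum_congr rfl fun d _ => ?_
      rw [smul_smul]
    rw [Finset.sum_congr rfl fun i _ => h4 i, Finset.sum_comm]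
    have h5 : ∀ d, ∑ i, (τ (r b i) * τ (v i d)) • le A S τ d =
        (if b = d then 1 else 0 : ℂ) • le A S τ d := by
      intro d
      rw [← Finset.sum_smul, h1]
    rw [Finset.sum_congr rfl fun d _ => h5 d, Finset.sum_eq_single b]
    · rw [if_pos rfl, one_smul]
    · intro d _ hd
      rw [if_neg (Ne.symm hd), zero_smul]
    · intro h
      exact absurd (Finset.mem_univ _) h
  have hep := hinv σ p hpe
  have hen := hinv (cj σ) n hne'
  -- rational operators
  have hVB : ∀ x i u, A.IsBetti u → A.IsBetti ((σ x • p i + cj σ x • n i) u) := by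
    intro x i u hu
    have h1 : (σ x • p i + cj σ x • n i) u = ∑ b, ∑ τ : K →+* ℂ, τ (x * v i b) • S.e τ b u := by
      rw [LinearMap.add_apply, LinearMap.smul_apply, LinearMap.smul_apply, hpe, hne',
        LinearMap.sum_apply, LinearMap.sum_apply, Finset.smul_sum, Finset.smul_sum,
        ← Finset.sum_add_distrib]
      refine Finset.sum_congr rfl fun b _ => ?_
      rw [hsum, LinearMap.smul_apply, LinearMap.smul_apply, smul_smul, smul_smul, map_mul, map_mul]
      rfl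
    rw [h1, isBetti_iff]
    exact Submodule.sum_mem _ fun b _ => (isBetti_iff A _).1 (S.betti b (x * v i b) u hu)
  obtain ⟨q2, hq2⟩ := hrat (δ * δ) (by rw [map_mul, hcδ]; ring)
  have hq20 : q2 ≠ 0 := by
    intro h0
    rw [h0, Rat.cast_zero] at hq2
    exact mul_ne_zero hδ hδ hq2
  have hs2 : σ δ * σ δ = q2 := by rw [← map_mul, hq2, map_ratCast]
  have hsδ : σ δ ≠ 0 := (map_ne_zero σ).2 hδ
  have hcjδ : cj σ δ = -σ δ := by rw [hσc, hcδ, map_neg]
  have hRB : ∀ x i j u, A.IsBetti u →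
      A.IsBetti ((σ x • (p i * n j) + cj σ x • (n i * p j)) u) := by
    intro x i j u hu
    have h1 : σ x • (p i * n j) + cj σ x • (n i * p j) =
        ((1 / 2 : ℚ) : ℂ) • ((σ x • p i + cj σ x • n i) * (σ 1 • p j + cj σ 1 • n j)) -
        ((1 / 2 * q2⁻¹ : ℚ) : ℂ) • ((σ (δ * x) • p i + cj σ (δ * x) • n i) *
          (σ δ • p j + cj σ δ • n j)) := by
      have hq2' : (q2 : ℂ) ≠ 0 := Rat.cast_ne_zero.2 hq20
      rw [map_mul, map_mul, hcjδ, map_one, map_one, one_smul, one_smul]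
      push_cast
      rw [← hs2]
      simp only [mul_add, add_mul, smul_mul_smul_comm, smul_mul_assoc, mul_smul_comm]
      match_scalars <;> field_simp <;> ring
    rw [h1, LinearMap.sub_apply, LinearMap.smul_apply, LinearMap.smul_apply, isBetti_iff]
    have hsm : ∀ (t : ℚ) w, A.IsBetti w → ((t : ℂ) • w) ∈ A.betti := by
      intro t w hw
      have h3 := A.betti.smul_mem t ((isBetti_iff A w).1 hw)
      rwa [← Rat.cast_smul_eq_qsmul ℂ] at h3
    exact Submodule.sub_mem _ (hsm _ _ (hVB _ _ _ (hVB _ _ _ hu)))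
      (hsm _ _ (hVB _ _ _ (hVB _ _ _ hu)))
  obtain ⟨E, x, y, hE, hx, hy, EE, Ex, Ey, xx, yy, xy, Epn, Enp, hcomm, U, W, hUW, hnU, hpW⟩ :=
    Iqt_alg p n (fun i => (q i : ℂ)) (fun i => Rat.cast_ne_zero.2 (hq0 i)) (σ δ) hsδ hpp hnn
      (by intro i; rw [hpn, hH, if_pos rfl, hσD])
      (by intro i j hij; rw [hpn, hH, if_neg hij, map_zero, mul_zero, zero_smul])
  have hsm : ∀ (t : ℚ) w, A.IsBetti w → A.IsBetti ((t : ℂ) • w) := by
    intro t w hw
    rw [isBetti_iff]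
    have h3 := A.betti.smul_mem t ((isBetti_iff A w).1 hw)
    rwa [← Rat.cast_smul_eq_qsmul ℂ] at h3
  have had : ∀ w w', A.IsBetti w → A.IsBetti w' → A.IsBetti (w + w') := by
    intro w w' hw hw'
    rw [isBetti_iff] at hw hw' ⊢
    exact Submodule.add_mem _ hw hw'
  have hsb : ∀ w w', A.IsBetti w → A.IsBetti w' → A.IsBetti (w - w') := by
    intro w w' hw hw'
    rw [isBetti_iff] at hw hw' ⊢
    exact Submodule.sub_mem _ hw hw'
  have hWB : ∀ i u, A.IsBetti u →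
      A.IsBetti (((4 * (q i : ℂ))⁻¹ • σ δ • (p i * n i - n i * p i)) u) := by
    intro i u hu
    have h1 : (4 * (q i : ℂ))⁻¹ • σ δ • (p i * n i - n i * p i) =
        (((4 * q i)⁻¹ : ℚ) : ℂ) • (σ δ • (p i * n i) + cj σ δ • (n i * p i)) := by
      rw [hcjδ]
      push_cast
      module
    rw [h1, LinearMap.smul_apply]
    exact hsm _ _ (hRB _ _ _ _ hu)
  have hxB : ∀ u, A.IsBetti u → A.IsBetti (x u) := by
    intro u hu
    rw [hx, LinearMap.sub_apply]
    exact hsb _ _ (hWB 0 u hu) (hWB 1 u hu)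
  have hyB : ∀ u, A.IsBetti u → A.IsBetti (y u) := by
    intro u hu
    have h1 := hRB 1 0 1 u hu
    rw [map_one, map_one, one_smul, one_smul, ← hy] at h1
    exact h1
  have hEB : ∀ u, A.IsBetti u → A.IsBetti (E u) := by
    intro u hu
    have h1 : E = 1 - ((q2⁻¹ : ℚ) : ℂ) •
        (((4 * (q 0 : ℂ))⁻¹ • σ δ • (p 0 * n 0 - n 0 * p 0) +
          (4 * (q 1 : ℂ))⁻¹ • σ δ • (p 1 * n 1 - n 1 * p 1)) *
        ((4 * (q 0 : ℂ))⁻¹ • σ δ • (p 0 * n 0 - n 0 * p 0) +
          (4 * (q 1 : ℂ))⁻¹ • σ δ • (p 1 * n 1 - n 1 * p 1))) := by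
      rw [hE, smul_comm _ (σ δ), smul_comm _ (σ δ), ← smul_add, smul_mul_smul_comm, smul_smul,
        hs2]
      push_cast
      rw [inv_mul_cancel₀ (Rat.cast_ne_zero.2 hq20), one_smul]
    rw [h1, LinearMap.sub_apply, LinearMap.smul_apply, Module.End.mul_apply, Module.End.one_apply]
    refine hsb _ _ hu (hsm _ _ ?_)
    have h3 : ∀ u, A.IsBetti u → A.IsBetti (((4 * (q 0 : ℂ))⁻¹ • σ δ • (p 0 * n 0 - n 0 * p 0) +
          (4 * (q 1 : ℂ))⁻¹ • σ δ • (p 1 * n 1 - n 1 * p 1)) u) := by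
      intro u hu
      rw [LinearMap.add_apply]
      exact had _ _ (hWB 0 u hu) (hWB 1 u hu)
    exact h3 _ (h3 _ hu)
  -- the endomorphisms
  have hend : ∀ F : Module.End ℂ A.H1, A.IsEnd F ↔ (∀ v, A.IsBetti v → A.IsBetti (F v)) ∧
      (∀ i j, F * (p i * n j) = p i * n j * F) ∧ ∀ i j, F * (n i * p j) = n i * p j * F := by
    intro F
    rw [S.endo]
    constructor
    · rintro ⟨-, hB, hf⟩
      have h1 : ∀ a b, F * (le A S σ a * le A S (cj σ) b) = le A S σ a * le A S (cj σ) b * F :=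
        fun a b => LinearMap.ext fun w => hf σ a b w
      have h3 : ∀ a b, F * (le A S (cj σ) a * le A S σ b) = le A S (cj σ) a * le A S σ b * F :=
        fun a b => LinearMap.ext fun w => by
          have h4 := hf (cj σ) a b w
          rw [show ComplexEmbedding.conjugate (cj σ) = σ from hcjcj] at h4
          exact h4
      exact ⟨hB, Iqt_lin _ _ p n _ _ hpe hne' F h1, Iqt_lin _ _ n p _ _ hne' hpe F h3⟩
    · rintro ⟨hB, hf1, hf2⟩
      have h1 := Iqt_lin _ _ (le A S σ) (le A S (cj σ)) _ _ hep hen F hf1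
      have h3 := Iqt_lin _ _ (le A S (cj σ)) (le A S σ) _ _ hen hep F hf2
      refine ⟨⟨F.map_add, F.map_smul⟩, hB, fun τ a b w => ?_⟩
      rcases hτ τ with rfl | rfl
      · exact congrArg (fun t : Module.End ℂ A.H1 => t w) (h1 a b)
      · rw [show ComplexEmbedding.conjugate (cj σ) = σ from hcjcj]
        exact congrArg (fun t : Module.End ℂ A.H1 => t w) (h3 a b)
  have hEend : A.IsEnd E := (hend E).2 ⟨hEB, Epn, Enp⟩
  have hmain := Iqt_abs hQrm A E x y q2 (-(4 * q 0 * q 1)) hq20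
    (neg_ne_zero.2 (mul_ne_zero (mul_ne_zero (by norm_num) (hq0 0)) (hq0 1))) EE Ex Ey
    (by rw [xx, hs2]) (by rw [yy]; push_cast; rfl) xy hxB hyB hEend ?_ ?_
  · have hab : IsAbelianGalois ℚ K := Iqt_gal h2
    have hmono : ∀ u : A.H1, (∀ τ : K →+* ℂ, (∀ a, S.e τ a u = 0) ∨
        ∀ a, S.e (ComplexEmbedding.conjugate τ) a u = 0) →
        u ∈ Submodule.span ℂ {w : A.H1 | ∃ (B : AbVar) (f : B.H1 → A.H1) (u : B.H1),
          B.IsBasic ∧ B.IsMor A f ∧ w = f u} := by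
      intro u hu
      refine Submodule.span_mono ?_ (hCmp A K c 2 S hg hc two_ne_zero hab u hu)
      rintro _ ⟨B, f, u', -, hs, ⟨L, iL, iL', ρ, hL, hLab⟩, hf, rfl⟩
      exact ⟨B, f, u', ⟨hs, Or.inr (Or.inr ⟨L, iL, iL', ρ, hL, hLab⟩)⟩, hf, rfl⟩
    have hv : v₁ = E v₁ + (U v₁ + W v₁) := by
      have h1 := congrArg (fun t : Module.End ℂ A.H1 => t v₁) hUW
      have h3 : v₁ - E v₁ = U v₁ + W v₁ := h1
      rw [← h3]
      abel
    have hU : ∀ a, S.e (cj σ) a (U v₁) = 0 := by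
      intro a
      have h1 : le A S (cj σ) a (U v₁) = 0 := by
        rw [hen a, LinearMap.sum_apply]
        refine Finset.sum_eq_zero fun i _ => ?_
        have h3 : n i (U v₁) = 0 := congrArg (fun t : Module.End ℂ A.H1 => t v₁) (hnU i)
        rw [LinearMap.smul_apply, h3, smul_zero]
      exact h1
    have hW : ∀ a, S.e σ a (W v₁) = 0 := by
      intro a
      have h1 : le A S σ a (W v₁) = 0 := by
        rw [hep a, LinearMap.sum_apply]
        refine Finset.sum_eq_zero fun i _ => ?_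
        have h3 : p i (W v₁) = 0 := congrArg (fun t : Module.End ℂ A.H1 => t v₁) (hpW i)
        rw [LinearMap.smul_apply, h3, smul_zero]
      exact h1
    rw [hv]
    refine Submodule.add_mem _ (hmain v₁) (Submodule.add_mem _ (hmono _ ?_) (hmono _ ?_))
    · intro τ
      rcases hτ τ with rfl | rfl
      · exact Or.inr hU
      · exact Or.inl hU
    · intro τ
      rcases hτ τ with rfl | rfl
      · exact Or.inl hW
      · right
        rw [show ComplexEmbedding.conjugate (cj σ) = σ from hcjcj]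
        exact hW
  · intro f hf
    obtain ⟨F, hF⟩ : ∃ F : Module.End ℂ A.H1, ∀ v, F v = f v := ⟨hf.linear.mk' f, fun _ => rfl⟩
    have hF' : (F : A.H1 → A.H1) = f := funext hF
    rw [← hF'] at hf
    obtain ⟨hB, h1, h3⟩ := (hend F).1 hf
    have h0 : ∀ i, F * (p i * n i - n i * p i) = (p i * n i - n i * p i) * F := fun i =>
      Iqt_cb (h1 i i) (h3 i i)
    have hFE : F * E = E * F := by
      rw [hE]
      refine Iqt_cb (by rw [mul_one, one_mul]) (Iqt_cm ?_ ?_) <;>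
      exact Iqt_ca (Iqt_cr _ (h0 0)) (Iqt_cr _ (h0 1))
    have hFx : F * x = x * F := by
      rw [hx]
      exact Iqt_cb (Iqt_cr _ (Iqt_cr _ (h0 0))) (Iqt_cr _ (Iqt_cr _ (h0 1)))
    have hFy : F * y = y * F := by
      rw [hy]
      exact Iqt_ca (h1 0 1) (h3 0 1)
    refine ⟨fun v => ?_, fun v => ?_, fun v => ?_⟩ <;> rw [← hF, ← hF]
    · exact congrArg (fun t : Module.End ℂ A.H1 => t v) hFE
    · exact congrArg (fun t : Module.End ℂ A.H1 => t v) hFx
    · exact congrArg (fun t : Module.End ℂ A.H1 => t v) hFy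
  · intro f hl hB hfE hEf hfx hfy
    obtain ⟨F, hF⟩ : ∃ F : Module.End ℂ A.H1, ∀ v, F v = f v := ⟨hl.mk' f, fun _ => rfl⟩
    have hF' : (F : A.H1 → A.H1) = f := funext hF
    rw [← hF', hend]
    obtain ⟨h1, h3⟩ := hcomm F (LinearMap.ext fun v => by
        rw [Module.End.mul_apply, hF, hF, hfE]) (LinearMap.ext fun v => by
        rw [Module.End.mul_apply, hF, hEf]) (LinearMap.ext fun v => by
        rw [Module.End.mul_apply, Module.End.mul_apply, hF, hF, hfx]) (LinearMap.ext fun v => by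
        rw [Module.End.mul_apply, Module.End.mul_apply, hF, hF, hfy])
    exact ⟨fun v hv => by rw [hF]; exact hB v hv, h1, h3⟩

end Pool.Agent.KTW
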