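import Pool.Agent.KTW.StV
import Pool.Agent.KQ4.All

/-!
# KTW [Klr]: the Hodge projectors kill the Grothendieck forms, all real fields (helper86)
-/

set_option autoImplicit false

namespace Pool.Agent.KTW

/-- **KLR** -/
theorem thm_Klr : St_Klr := by
  intro I _ _ A K _ _ c m S hg hAdm hc n
  exact Pool.Agent.KQ4.kz4 A S hg hAdm (Or.inr hc) n

end Pool.Agent.KTW
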