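import Pool.Agent.KTW.StT

/-!
# KTW [Lal]: a link gives links at all places (helper25)
-/

set_option autoImplicit false

namespace Pool.Agent.KTW

open Module Matrix NumberField Pool.Agent.Helper7 Pool.Agent.KS Pool.Agent.Ball Pool.Agent.KSE
  Pool.Agent.Helper28.GPC Pool.Agent.K3P Pool.Agent.KTP
open Pool.Agent.KQ4 (en cq cf QP)

namespace Lalx

/-! ### One place -/

lemma cs_one {m : ℕ} (hm : m = 2) (r : ℂ) : cs (r • (1 : Matrix (Fin m) (Fin m) ℂ)) = 0 := by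
  subst hm
  funext k
  fin_cases k
  · show Complex.I * (en (r • (1 : Matrix (Fin 2) (Fin 2) ℂ)) 0 1 +
      en (r • (1 : Matrix (Fin 2) (Fin 2) ℂ)) 1 0) = 0
    simp [en]
  · show en (r • (1 : Matrix (Fin 2) (Fin 2) ℂ)) 1 0 -
      en (r • (1 : Matrix (Fin 2) (Fin 2) ℂ)) 0 1 = 0
    simp [en]
  · show Complex.I * (en (r • (1 : Matrix (Fin 2) (Fin 2) ℂ)) 0 0 -
      en (r • (1 : Matrix (Fin 2) (Fin 2) ℂ)) 1 1) = 0
    simp [en]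

lemma cz_scal {m : ℕ} (hm : m = 2) (ε : ℂ) {B : Matrix (Fin m) (Fin m) ℂ} (hB : IsUnit B.det)
    (r : ℂ) : cz ε B (r • (1 : Matrix (Fin m) (Fin m) ℂ)) = 0 := by
  unfold cz
  rw [if_pos hm, Matrix.mul_smul, Matrix.smul_mul, Matrix.mul_one, Matrix.nonsing_inv_mul _ hB,
    cs_one hm]

lemma comp_cj {K : Type} [Field K] {c : K →+* K} (hc : ∀ (σ : K →+* ℂ) x, cj σ x = σ (c x))
    (s : ℂ ≃+* ℂ) (τ : K →+* ℂ) :
    (s : ℂ →+* ℂ).comp (cj τ) = cj ((s : ℂ →+* ℂ).comp τ) := by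
  refine RingHom.ext fun x => ?_
  rw [hc]
  show s (cj τ x) = s (τ (c x))
  rw [hc]

lemma comp_symm {K : Type} [Field K] {s : ℂ ≃+* ℂ} {σ τ : K →+* ℂ}
    (h : (s : ℂ →+* ℂ).comp σ = τ) : (s.symm : ℂ →+* ℂ).comp τ = σ := by
  subst h
  exact RingHom.ext fun x => s.symm_apply_apply (σ x)

lemma map_symm {m : ℕ} (s : ℂ ≃+* ℂ) (A : Matrix (Fin m) (Fin m) ℂ) :
    (A.map s).map s.symm = A := by
  ext a b
  exact s.symm_apply_apply (A a b)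

lemma qn_cases {K : Type} [Field K] [NumberField K] {m : ℕ} {h : Matrix (Fin m) (Fin m) K}
    {σ₀ : K →+* ℂ} (hq : IsQn h σ₀) :
    ((∀ σ : K →+* ℂ, cj σ = σ) ∧ RePl h σ₀ ∧ (m = 3 ∨ m = 4)) ∨
      ((∀ σ : K →+* ℂ, cj σ ≠ σ) ∧ m = 2) := by
  rcases hq with ⟨h1, h2⟩ | ⟨h1, h2⟩
  · exact Or.inl ⟨h1.1, h1, h2⟩
  · exact Or.inr ⟨h1.1, h2⟩

/-! ### Links -/

section lk

variable {I : Type} {K : I → Type} [∀ i, Field (K i)] [∀ i, NumberField (K i)]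
  {c : ∀ i, K i →+* K i} {m : I → ℕ} {h : ∀ i, Matrix (Fin (m i)) (Fin (m i)) (K i)}
  {σ₀ : ∀ i, K i →+* ℂ} {R : Set (∀ i, (K i →+* ℂ) → Matrix (Fin (m i)) (Fin (m i)) ℂ)}

/-- a link -/
def Lk (R : Set (∀ i, (K i →+* ℂ) → Matrix (Fin (m i)) (Fin (m i)) ℂ)) (i j : I) (ε ε' : ℂ)
    (σ : K i →+* ℂ) (B : Matrix (Fin (m i)) (Fin (m i)) ℂ) (τ : K j →+* ℂ)
    (C : Matrix (Fin (m j)) (Fin (m j)) ℂ) : Prop :=
  ∀ M ∈ R, cz ε B (M i σ) = 0 ↔ cz ε' C (M j τ) = 0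

lemma skw (H : SyB c h σ₀ R) {M : ∀ i, (K i →+* ℂ) → Matrix (Fin (m i)) (Fin (m i)) ℂ}
    (hM : M ∈ R) (i : I) (σ : K i →+* ℂ) : IsSkw (h i) σ (M i σ) := by
  intro hσ
  have h1 := H.skew M hM i σ
  rw [hσ] at h1
  exact h1

/-- the properties of the coordinates -/
lemma czp (hCzp : St_Czp) (H : SyB c h σ₀ R) {i : I} (hi : IsQn (h i) (σ₀ i)) {ε : ℂ}
    (hε : ε = 1 ∨ ε = -1) {σ : K i →+* ℂ} {B : Matrix (Fin (m i)) (Fin (m i)) ℂ}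
    (hB : IsFra (h i) σ B) :
    (∀ M M' : Matrix (Fin (m i)) (Fin (m i)) ℂ, cz ε B (M + M') = cz ε B M + cz ε B M') ∧
    (∀ (r : ℂ) (M : Matrix (Fin (m i)) (Fin (m i)) ℂ), cz ε B (r • M) = r • cz ε B M) ∧
    (∀ M M' : Matrix (Fin (m i)) (Fin (m i)) ℂ, IsSkw (h i) σ M → IsSkw (h i) σ M' →
      cz ε B (M * M' - M' * M) = crossProduct (cz ε B M) (cz ε B M')) ∧
    (∀ x : Fin 3 → ℂ, ∃ Z ∈ Lg (h i) σ, cz ε B Z = x ∧ (m i = 4 → cz (-ε) B Z = 0)) ∧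
    (∀ M : Matrix (Fin (m i)) (Fin (m i)) ℂ, IsSkw (h i) σ M → cz ε B M = 0 →
      (m i = 4 → cz (-ε) B M = 0) → trz M = 0) ∧
    ∀ τ : ℂ ≃+* ℂ, IsFra (h i) ((τ : ℂ →+* ℂ).comp σ) (B.map τ) ∧
      ∀ M : Matrix (Fin (m i)) (Fin (m i)) ℂ, cz ε (B.map τ) (M.map τ) = 0 ↔ cz ε B M = 0 :=
  hCzp (K i) (c i) (m i) (h i) (σ₀ i) (H.conj i) (H.herm i) (H.nd i) hi ε hε σ B hB

lemma cz_zero (hCzp : St_Czp) (H : SyB c h σ₀ R) {i : I} (hi : IsQn (h i) (σ₀ i)) {ε : ℂ}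
    (hε : ε = 1 ∨ ε = -1) {σ : K i →+* ℂ} {B : Matrix (Fin (m i)) (Fin (m i)) ℂ}
    (hB : IsFra (h i) σ B) : cz ε B 0 = 0 := by
  have h1 := (czp hCzp H hi hε hB).2.1 0 0
  rw [zero_smul, zero_smul] at h1
  exact h1

lemma tw_map (s : ℂ ≃+* ℂ) (M : ∀ i, (K i →+* ℂ) → Matrix (Fin (m i)) (Fin (m i)) ℂ) (i : I)
    (σ : K i →+* ℂ) : (twM s.symm (M i) σ).map s = M i ((s : ℂ →+* ℂ).comp σ) := by
  ext a b
  show s (s.symm (M i ((s.symm.symm : ℂ →+* ℂ).comp σ) a b)) = _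
  rw [RingEquiv.apply_symm_apply]
  rfl

/-- links are transported by automorphisms -/
lemma tr (hCzp : St_Czp) (H : SyB c h σ₀ R) {i j : I} (hi : IsQn (h i) (σ₀ i))
    (hj : IsQn (h j) (σ₀ j)) {ε ε' : ℂ} (hε : ε = 1 ∨ ε = -1) (hε' : ε' = 1 ∨ ε' = -1)
    {σ : K i →+* ℂ} {τ : K j →+* ℂ} {B : Matrix (Fin (m i)) (Fin (m i)) ℂ}
    {C : Matrix (Fin (m j)) (Fin (m j)) ℂ} (hB : IsFra (h i) σ B) (hC : IsFra (h j) τ C)
    (hL : Lk R i j ε ε' σ B τ C) (s : ℂ ≃+* ℂ) :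
    Lk R i j ε ε' ((s : ℂ →+* ℂ).comp σ) (B.map s) ((s : ℂ →+* ℂ).comp τ) (C.map s) := by
  intro M hM
  have h1 := hL _ (H.tw M hM s.symm)
  have h2 := ((czp hCzp H hi hε hB).2.2.2.2.2 s).2 (twM s.symm (M i) σ)
  have h3 := ((czp hCzp H hj hε' hC).2.2.2.2.2 s).2 (twM s.symm (M j) τ)
  rw [tw_map] at h2 h3
  exact h2.trans (h1.trans h3.symm)

lemma fra (hCzp : St_Czp) (H : SyB c h σ₀ R) {i : I} (hi : IsQn (h i) (σ₀ i)) {σ : K i →+* ℂ}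
    {B : Matrix (Fin (m i)) (Fin (m i)) ℂ} (hB : IsFra (h i) σ B) (s : ℂ ≃+* ℂ) :
    IsFra (h i) ((s : ℂ →+* ℂ).comp σ) (B.map s) :=
  ((czp hCzp H hi (Or.inl rfl : (1 : ℂ) = 1 ∨ (1 : ℂ) = -1) hB).2.2.2.2.2 s).1

/-- complex type: a scalar at a place is a scalar at the conjugate place -/
lemma scal (hCzp : St_Czp) (H : SyB c h σ₀ R) {j : I} (hj : IsQn (h j) (σ₀ j))
    (hm : m j = 2) {ε : ℂ} (hε : ε = 1 ∨ ε = -1) {τ : K j →+* ℂ}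
    {C C' : Matrix (Fin (m j)) (Fin (m j)) ℂ} (hτ : cj τ ≠ τ) (hC : IsFra (h j) τ C)
    (hC' : IsUnit C'.det) {M : ∀ i, (K i →+* ℂ) → Matrix (Fin (m i)) (Fin (m i)) ℂ} (hM : M ∈ R)
    (h0 : cz ε C (M j τ) = 0) : cz ε C' (M j (cj τ)) = 0 := by
  have h1 : trz (M j τ) = 0 := (czp hCzp H hj hε hC).2.2.2.2.1 (M j τ) (skw H hM j τ) h0
    (fun h4 => by omega)
  have h2 : M j τ = ((M j τ).trace / (m j : ℂ)) • 1 := sub_eq_zero.1 h1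
  obtain ⟨r, hr⟩ : ∃ r : ℂ, M j τ = r • 1 := ⟨_, h2⟩
  have h3 := H.skew M hM j τ
  rw [hr, Matrix.transpose_smul, Matrix.transpose_one, Matrix.smul_mul, Matrix.one_mul] at h3
  have hu : IsUnit ((h j).map τ).det := by
    have e : ((h j).map τ).det = τ (h j).det := (RingHom.map_det τ (h j)).symm
    rw [e, isUnit_iff_ne_zero]
    exact (map_ne_zero τ).mpr (H.nd j)
  have h4 : M j (cj τ) = (-r) • 1 := by
    have h5 : (h j).map τ * M j (cj τ) = -(r • (h j).map τ) := by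
      rw [eq_neg_iff_add_eq_zero, add_comm]
      exact h3
    have h6 : ((h j).map τ)⁻¹ * ((h j).map τ * M j (cj τ)) = M j (cj τ) := by
      rw [← Matrix.mul_assoc, Matrix.nonsing_inv_mul _ hu, Matrix.one_mul]
    rw [← h6, h5, Matrix.mul_neg, Matrix.mul_smul, Matrix.nonsing_inv_mul _ hu, neg_smul]
  rw [h4]
  exact cz_scal hm ε hC' (-r)

lemma Lk_cj (hCzp : St_Czp) (H : SyB c h σ₀ R) {i j : I} (hj : IsQn (h j) (σ₀ j))
    (hm : m j = 2) (hcp : ∀ τ : K j →+* ℂ, cj τ ≠ τ) {ε ε' : ℂ} (hε' : ε' = 1 ∨ ε' = -1)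
    {σ : K i →+* ℂ} {τ : K j →+* ℂ} {B : Matrix (Fin (m i)) (Fin (m i)) ℂ}
    {C C' : Matrix (Fin (m j)) (Fin (m j)) ℂ} (hC : IsFra (h j) τ C) (hC' : IsFra (h j) (cj τ) C')
    (hL : Lk R i j ε ε' σ B τ C) : Lk R i j ε ε' σ B (cj τ) C' := by
  intro M hM
  refine (hL M hM).trans ⟨fun h0 => scal hCzp H hj hm hε' (hcp τ) hC hC'.1 hM h0, fun h0 => ?_⟩
  have h1 := scal hCzp H hj hm hε' (hcp (cj τ)) hC' hC.1 hM h0
  rw [KSE.cj_cj] at h1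
  exact h1

lemma fra_one {j : I} (hcp : ∀ τ : K j →+* ℂ, cj τ ≠ τ) (τ : K j →+* ℂ) :
    IsFra (h j) τ (1 : Matrix (Fin (m j)) (Fin (m j)) ℂ) :=
  ⟨by rw [Matrix.det_one]; exact isUnit_one, fun h1 => absurd h1 (hcp τ)⟩

/-- the linear map of a link -/
lemma lin (hCzp : St_Czp) (H : SyB c h σ₀ R) {i j : I} (hi : IsQn (h i) (σ₀ i))
    (hj : IsQn (h j) (σ₀ j)) {ε ε' : ℂ} (hε : ε = 1 ∨ ε = -1) (hε' : ε' = 1 ∨ ε' = -1)
    {σ : K i →+* ℂ} {τ : K j →+* ℂ} {B : Matrix (Fin (m i)) (Fin (m i)) ℂ}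
    {C : Matrix (Fin (m j)) (Fin (m j)) ℂ} (hB : IsFra (h i) σ B) (hC : IsFra (h j) τ C)
    (hL : Lk R i j ε ε' σ B τ C) :
    ∃ g : (Fin 3 → ℂ) →ₗ[ℂ] (Fin 3 → ℂ), Function.Bijective g ∧
      (∀ x y, g (crossProduct x y) = crossProduct (g x) (g y)) ∧
      ∀ M ∈ R, cz ε' C (M j τ) = g (cz ε B (M i σ)) := by
  obtain ⟨a1, a2, a3, a4, -, -⟩ := czp hCzp H hi hε hB
  obtain ⟨b1, b2, b3, -, -, -⟩ := czp hCzp H hj hε' hC
  have onto : ∀ x : Fin 3 → ℂ, ∃ M ∈ R, cz ε B (M i σ) = x := by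
    intro x
    obtain ⟨Z, hZ, hZx, -⟩ := a4 x
    obtain ⟨M, hM, hMZ, -⟩ := H.one i σ Z hZ
    exact ⟨M, hM, by rw [hMZ, hZx]⟩
  choose Me hMe hMex using fun k : Fin 3 => onto (Pi.single k 1)
  obtain ⟨g, hg⟩ : ∃ g : (Fin 3 → ℂ) →ₗ[ℂ] (Fin 3 → ℂ),
      ∀ x, g x = ∑ k, x k • cz ε' C (Me k j τ) :=
    ⟨{ toFun := fun x => ∑ k, x k • cz ε' C (Me k j τ)
       map_add' := fun x y => by
        simp only [Pi.add_apply, add_smul, Finset.sum_add_distrib]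
       map_smul' := fun r x => by
        simp only [Pi.smul_apply, smul_eq_mul, mul_smul, Finset.smul_sum, RingHom.id_apply] },
      fun _ => rfl⟩
  obtain ⟨N, hN⟩ : ∃ N : (Fin 3 → ℂ) → (∀ i, (K i →+* ℂ) → Matrix (Fin (m i)) (Fin (m i)) ℂ),
      ∀ x, N x = x 0 • Me 0 + x 1 • Me 1 + x 2 • Me 2 := ⟨_, fun _ => rfl⟩
  have hNR : ∀ x, N x ∈ R := by
    intro x
    rw [hN]
    exact H.add _ (H.add _ (H.smul _ _ (hMe 0)) _ (H.smul _ _ (hMe 1))) _ (H.smul _ _ (hMe 2))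
  have hNi : ∀ x, cz ε B (N x i σ) = x := by
    intro x
    have e : N x i σ = x 0 • Me 0 i σ + x 1 • Me 1 i σ + x 2 • Me 2 i σ := by
      rw [hN]
      rfl
    rw [e, a1, a1, a2, a2, a2, hMex, hMex, hMex]
    funext k
    fin_cases k <;> simp
  have hNj : ∀ x, cz ε' C (N x j τ) = g x := by
    intro x
    have e : N x j τ = x 0 • Me 0 j τ + x 1 • Me 1 j τ + x 2 • Me 2 j τ := by
      rw [hN]
      rfl
    rw [e, b1, b1, b2, b2, b2, hg, Fin.sum_univ_three]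
  have hgM : ∀ M ∈ R, cz ε' C (M j τ) = g (cz ε B (M i σ)) := by
    intro M hM
    have h1 : M + (-1 : ℂ) • N (cz ε B (M i σ)) ∈ R := H.add _ hM _ (H.smul _ _ (hNR _))
    have h2 : cz ε B ((M + (-1 : ℂ) • N (cz ε B (M i σ))) i σ) = 0 := by
      have e : (M + (-1 : ℂ) • N (cz ε B (M i σ))) i σ =
          M i σ + (-1 : ℂ) • N (cz ε B (M i σ)) i σ := rfl
      rw [e, a1, a2, hNi, neg_one_smul, add_neg_cancel]
    have h3 := (hL _ h1).1 h2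
    have e : (M + (-1 : ℂ) • N (cz ε B (M i σ))) j τ =
          M j τ + (-1 : ℂ) • N (cz ε B (M i σ)) j τ := rfl
    rw [e, b1, b2, hNj, neg_one_smul, add_neg_eq_zero] at h3
    exact h3
  have hinj : Function.Injective g := by
    rw [← LinearMap.ker_eq_bot, LinearMap.ker_eq_bot']
    intro x hx
    rw [← hNi x]
    apply (hL _ (hNR x)).2
    rw [hNj, hx]
  refine ⟨g, ⟨hinj, LinearMap.injective_iff_surjective.1 hinj⟩, ?_, hgM⟩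
  intro x y
  have h1 := H.br _ (hNR x) _ (hNR y)
  have h2 := hgM _ h1
  have e1 : (N x * N y - N y * N x) i σ = N x i σ * N y i σ - N y i σ * N x i σ := rfl
  have e2 : (N x * N y - N y * N x) j τ = N x j τ * N y j τ - N y j τ * N x j τ := rfl
  rw [e1, e2, a3 _ _ (skw H (hNR x) i σ) (skw H (hNR y) i σ),
    b3 _ _ (skw H (hNR x) j τ) (skw H (hNR y) j τ), hNi, hNi, hNj, hNj] at h2
  exact h2.symm

end lk

end Lalx

open Lalx in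
theorem thm_Lal (hNcl : St_Ncl) (hCzp : St_Czp) : St_Lal := by
  intro I K _ _ c m h σ₀ R H i j hi hmi hj ε ε' hε hε' σ₁ τ₁ B₁ C₁ hB₁ hC₁ hL₁
  have hiq : IsQn (h i) (σ₀ i) := Or.inl ⟨hi, hmi⟩
  have hir : ∀ σ : K i →+* ℂ, cj σ = σ := hi.1
  have hjc := qn_cases hj
  -- links from the Hodge place of `i`
  have ncl : ∀ {B : Matrix (Fin (m i)) (Fin (m i)) ℂ} {τ : K j →+* ℂ}
      {C : Matrix (Fin (m j)) (Fin (m j)) ℂ}, IsFra (h i) (σ₀ i) B → IsFra (h j) τ C →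
      Lk R i j ε ε' (σ₀ i) B τ C → τ = σ₀ j ∨ τ = cj (σ₀ j) := by
    intro B τ C hB hC hL
    by_contra hcon
    rw [not_or] at hcon
    exact hNcl I K c m h σ₀ R H i j hi hmi hj ε ε' hε hε' B τ C hB hC hcon.1 hcon.2 hL
  -- (1)
  obtain ⟨s₁, hs₁⟩ := Helper84.exists_aut σ₁ (σ₀ i)
  obtain ⟨B₀, hB₀e⟩ : ∃ B₀, B₀ = B₁.map s₁ := ⟨_, rfl⟩
  have hB₀ : IsFra (h i) (σ₀ i) B₀ := by
    have h1 := fra hCzp H hiq hB₁ s₁
    rw [hs₁, ← hB₀e] at h1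
    exact h1
  have hC₁' := fra hCzp H hj hC₁ s₁
  have hL₁' : Lk R i j ε ε' (σ₀ i) B₀ ((s₁ : ℂ →+* ℂ).comp τ₁) (C₁.map s₁) := by
    have h1 := tr hCzp H hiq hj hε hε' hB₁ hC₁ hL₁ s₁
    rw [hs₁, ← hB₀e] at h1
    exact h1
  obtain ⟨C₀, hC₀, hL₀, hC₀e⟩ : ∃ C₀, IsFra (h j) (σ₀ j) C₀ ∧ Lk R i j ε ε' (σ₀ i) B₀ (σ₀ j) C₀ ∧
      (cj τ₁ = τ₁ → (s₁ : ℂ →+* ℂ).comp τ₁ = σ₀ j ∧ C₀ = C₁.map s₁) := by
    rcases ncl hB₀ hC₁' hL₁' with h1 | h1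
    · rw [h1] at hC₁' hL₁'
      exact ⟨C₁.map s₁, hC₁', hL₁', fun _ => ⟨h1, rfl⟩⟩
    · rcases hjc with ⟨hr, -, -⟩ | ⟨hcp, hm2⟩
      · rw [hr] at h1
        rw [h1] at hC₁' hL₁'
        exact ⟨C₁.map s₁, hC₁', hL₁', fun _ => ⟨h1, rfl⟩⟩
      · refine ⟨1, fra_one hcp _, ?_, fun h2 => absurd h2 (hcp τ₁)⟩
        have h2 : cj ((s₁ : ℂ →+* ℂ).comp τ₁) = σ₀ j := by rw [h1, KSE.cj_cj]
        have h3 := Lk_cj hCzp H hj hm2 hcp hε' hC₁' (fra_one hcp _) hL₁'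
        rw [h2] at h3
        exact h3
  -- (2)
  have hex : ∀ σ : K i →+* ℂ, ∃ s : ℂ ≃+* ℂ, (s : ℂ →+* ℂ).comp (σ₀ i) = σ ∧
      (σ = σ₁ → s = s₁.symm) := by
    intro σ
    by_cases h1 : σ = σ₁
    · exact ⟨s₁.symm, by rw [h1]; exact comp_symm hs₁, fun _ => rfl⟩
    · obtain ⟨s, hs⟩ := Helper84.exists_aut (σ₀ i) σ
      exact ⟨s, hs, fun h2 => absurd h2 h1⟩
  choose s hs hs1 using hex
  have hBf : ∀ σ, IsFra (h i) σ (B₀.map (s σ)) := by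
    intro σ
    have h1 := fra hCzp H hiq hB₀ (s σ)
    rw [hs] at h1
    exact h1
  have hCf : ∀ σ, IsFra (h j) ((s σ : ℂ →+* ℂ).comp (σ₀ j)) (C₀.map (s σ)) := fun σ =>
    fra hCzp H hj hC₀ (s σ)
  have hLf : ∀ σ, Lk R i j ε ε' σ (B₀.map (s σ)) ((s σ : ℂ →+* ℂ).comp (σ₀ j))
      (C₀.map (s σ)) := by
    intro σ
    have h1 := tr hCzp H hiq hj hε hε' hB₀ hC₀ hL₀ (s σ)
    rw [hs] at h1
    exact h1
  choose g hg1 hg2 hg3 using fun σ =>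
    lin hCzp H hiq hj hε hε' (hBf σ) (hCf σ) (hLf σ)
  have conjj : ∀ (u : ℂ ≃+* ℂ) (τ : K j →+* ℂ),
      (u : ℂ →+* ℂ).comp (cj τ) = cj ((u : ℂ →+* ℂ).comp τ) := comp_cj (H.conj j)
  -- comparison of two automorphisms
  have key : ∀ {F : Type} [Field F] (ρ ρ' : F →+* ℂ) (u u' : ℂ ≃+* ℂ),
      ((u.trans u'.symm : ℂ ≃+* ℂ) : ℂ →+* ℂ).comp ρ = ρ' ↔
        (u : ℂ →+* ℂ).comp ρ = (u' : ℂ →+* ℂ).comp ρ' := by
    intro F _ ρ ρ' u u'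
    constructor
    · intro h1
      ext x
      have h2 : u'.symm (u (ρ x)) = ρ' x := RingHom.congr_fun h1 x
      show u (ρ x) = u' (ρ' x)
      rw [← h2, RingEquiv.apply_symm_apply]
    · intro h1
      ext x
      have h2 : u (ρ x) = u' (ρ' x) := RingHom.congr_fun h1 x
      show u'.symm (u (ρ x)) = ρ' x
      rw [h2, RingEquiv.symm_apply_apply]
  refine ⟨fun σ => (s σ : ℂ →+* ℂ).comp (σ₀ j), fun σ => B₀.map (s σ), fun σ => C₀.map (s σ), g,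
    ⟨?_, ?_⟩, hBf, hCf, hg1, hg2, fun M hM σ => hg3 σ M hM, ?_⟩
  · -- injective
    intro σ σ' hσ
    rcases hjc with ⟨hr, hRj, hmj⟩ | ⟨hcp, hm2⟩
    · have h1 : (s σ : ℂ →+* ℂ).comp (σ₀ j) = (s σ' : ℂ →+* ℂ).comp (σ₀ j) := by
        rcases hσ with h1 | h1
        · exact h1
        · rw [hr] at h1
          exact h1
      obtain ⟨u, hu⟩ : ∃ u : ℂ ≃+* ℂ, u = (s σ).trans (s σ').symm := ⟨_, rfl⟩
      have hu1 : (u : ℂ →+* ℂ).comp (σ₀ j) = σ₀ j := by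
        rw [hu]
        exact (key _ _ _ _).2 h1
      have h2 := tr hCzp H hiq hj hε hε' hB₀ hC₀ hL₀ u
      have h3 := fra hCzp H hiq hB₀ u
      have h4 := fra hCzp H hj hC₀ u
      rw [hu1] at h2 h4
      have h5 : (u : ℂ →+* ℂ).comp (σ₀ i) = σ₀ i := by
        by_contra hcon
        exact hNcl I K c m h σ₀ R H j i hRj hmj hiq ε' ε hε' hε _ _ _ h4 h3 hcon
          (by rw [hir]; exact hcon) (fun M hM => (h2 M hM).symm)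
      rw [hu, key, hs, hs] at h5
      exact h5
    · -- a link between the two places of `i`
      have h1 : Lk R i j ε ε' σ' (B₀.map (s σ')) ((s σ : ℂ →+* ℂ).comp (σ₀ j))
          (C₀.map (s σ)) := by
        rcases hσ with h1 | h1
        · -- the same place, two frames: pass through the conjugate place
          have h2 := Lk_cj hCzp H hj hm2 hcp hε' (hCf σ') (fra_one hcp _) (hLf σ')
          have h3 : IsFra (h j) (cj (cj ((s σ' : ℂ →+* ℂ).comp (σ₀ j)))) (C₀.map (s σ)) := by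
            rw [KSE.cj_cj]
            have h4 := hCf σ
            rw [show (s σ : ℂ →+* ℂ).comp (σ₀ j) = (s σ' : ℂ →+* ℂ).comp (σ₀ j) from h1] at h4
            exact h4
          have h5 := Lk_cj hCzp H hj hm2 hcp hε' (fra_one hcp _) h3 h2
          rw [KSE.cj_cj] at h5
          rw [show (s σ : ℂ →+* ℂ).comp (σ₀ j) = (s σ' : ℂ →+* ℂ).comp (σ₀ j) from h1]
          exact h5
        · have h3 : IsFra (h j) (cj ((s σ' : ℂ →+* ℂ).comp (σ₀ j))) (C₀.map (s σ)) := by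
            have h4 := hCf σ
            rw [show (s σ : ℂ →+* ℂ).comp (σ₀ j) = cj ((s σ' : ℂ →+* ℂ).comp (σ₀ j)) from h1] at h4
            exact h4
          have h5 := Lk_cj hCzp H hj hm2 hcp hε' (hCf σ') h3 (hLf σ')
          rw [show (s σ : ℂ →+* ℂ).comp (σ₀ j) = cj ((s σ' : ℂ →+* ℂ).comp (σ₀ j)) from h1]
          exact h5
      by_contra hne
      obtain ⟨Z, hZ, hZx, -⟩ := (czp hCzp H hiq hε (hBf σ)).2.2.2.1 (Pi.single 0 1)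
      obtain ⟨M, hM, hMZ, hM0⟩ := H.one i σ Z hZ
      have h2 : M i σ' = 0 := hM0 σ' (Ne.symm hne) (by rw [hir]; exact Ne.symm hne)
      have h3 : cz ε (B₀.map (s σ)) (M i σ) = 0 := by
        rw [hLf σ M hM, ← h1 M hM, h2]
        exact cz_zero hCzp H hiq hε (hBf σ')
      rw [hMZ, hZx] at h3
      have h4 := congrFun h3 0
      rw [Pi.single_eq_same] at h4
      exact one_ne_zero h4
  · -- surjective
    intro τ
    obtain ⟨v, hv⟩ := Helper84.exists_aut (σ₀ j) τ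
    obtain ⟨σ, hσ⟩ : ∃ σ, σ = (v : ℂ →+* ℂ).comp (σ₀ i) := ⟨_, rfl⟩
    obtain ⟨u, hu⟩ : ∃ u : ℂ ≃+* ℂ, u = v.trans (s σ).symm := ⟨_, rfl⟩
    have hu1 : (u : ℂ →+* ℂ).comp (σ₀ i) = σ₀ i := by
      rw [hu, key, hs]
      exact hσ.symm
    have h2 := tr hCzp H hiq hj hε hε' hB₀ hC₀ hL₀ u
    have h3 := fra hCzp H hiq hB₀ u
    have h4 := fra hCzp H hj hC₀ u
    rw [hu1] at h2 h3
    refine ⟨σ, ?_⟩
    rcases ncl h3 h4 h2 with h5 | h5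
    · left
      rw [hu, key, hv] at h5
      exact h5.symm
    · right
      rw [hu, key, hv] at h5
      show (s σ : ℂ →+* ℂ).comp (σ₀ j) = cj τ
      rw [h5, conjj, KSE.cj_cj]
  · intro hτ
    obtain ⟨h1, h2⟩ := hC₀e hτ
    refine ⟨σ₁, ?_, ?_⟩
    · show (s σ₁ : ℂ →+* ℂ).comp (σ₀ j) = τ₁
      rw [hs1 _ rfl]
      exact comp_symm h1
    · show C₀.map (s σ₁) = C₁
      rw [hs1 _ rfl, h2]
      exact map_symm s₁ C₁

end Pool.Agent.KTW
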