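import Pool.Agent.KTW.StX
import Pool.Agent.KTW.Aby
import Pool.Agent.KSW.Iso
import Pool.Agent.Helper84.AutC

/-!
# KTW [Lkx]: linked places (after a file of helper1)
-/

set_option autoImplicit false
set_option linter.unusedSectionVars false

namespace Pool.Agent.KTW

open Module Matrix NumberField Pool.Agent.Helper7 Pool.Agent.KS Pool.Agent.Ball Pool.Agent.KSE
  Pool.Agent.Helper28.GPC Pool.Agent.K3P Pool.Agent.KTP

namespace Lkxx

theorem cc {F : Type} [Field F] (s : F →+* ℂ) : cj (cj s) = s :=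
  ComplexEmbedding.involutive_conjugate F s

/-- linear maps factor -/
theorem fac {V W W' : Type} [AddCommGroup V] [Module ℂ V] [AddCommGroup W] [Module ℂ W]
    [AddCommGroup W'] [Module ℂ W'] (p : V →ₗ[ℂ] W) (q : V →ₗ[ℂ] W')
    (hpq : ∀ v, p v = 0 → q v = 0) : ∃ φ : W →ₗ[ℂ] W', ∀ v, φ (p v) = q v := by
  have hk : LinearMap.ker p ≤ LinearMap.ker q := fun v hv => hpq v hv
  obtain ⟨ρ, hρ⟩ := LinearMap.exists_leftInverse_of_injective
    ((LinearMap.ker p).liftQ p le_rfl) (Submodule.ker_liftQ_eq_bot _ _ _ le_rfl)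
  refine ⟨((LinearMap.ker p).liftQ q hk) ∘ₗ ρ, fun v => ?_⟩
  have h1 := LinearMap.congr_fun hρ (Submodule.Quotient.mk v)
  rw [LinearMap.comp_apply, Submodule.liftQ_apply, LinearMap.id_apply] at h1
  rw [LinearMap.comp_apply, h1, Submodule.liftQ_apply]

/-- the dual of an isomorphism -/
theorem dual {p q : ℕ} {Hi : Matrix (Fin p) (Fin p) ℂ} {Hj : Matrix (Fin q) (Fin q) ℂ}
    (hj : IsUnit Hj.det) {G : Matrix (Fin q) (Fin p) ℂ} {G' : Matrix (Fin p) (Fin q) ℂ}
    (h1 : G * G' = 1) (h2 : G' * G = 1) {a a' : Matrix (Fin p) (Fin p) ℂ}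
    {b b' : Matrix (Fin q) (Fin q) ℂ} (ha : aᵀ * Hi + Hi * a' = 0) (hb : bᵀ * Hj + Hj * b' = 0)
    (hab : b' * G = G * a') : b * (Hi * G' * Hj⁻¹)ᵀ = (Hi * G' * Hj⁻¹)ᵀ * a := by
  have e0 : aᵀ * Hi = -(Hi * a') := eq_neg_of_add_eq_zero_left ha
  have e1 : Hj⁻¹ * bᵀ = -(b' * Hj⁻¹) := by
    have e3 : bᵀ * Hj = -(Hj * b') := eq_neg_of_add_eq_zero_left hb
    calc Hj⁻¹ * bᵀ = Hj⁻¹ * (bᵀ * Hj) * Hj⁻¹ := by
          rw [Matrix.mul_assoc, Matrix.mul_assoc bᵀ, Matrix.mul_nonsing_inv _ hj, Matrix.mul_one]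
      _ = -((Hj⁻¹ * Hj) * b' * Hj⁻¹) := by
          rw [e3, Matrix.mul_neg, Matrix.neg_mul, ← Matrix.mul_assoc]
      _ = -(b' * Hj⁻¹) := by rw [Matrix.nonsing_inv_mul _ hj, Matrix.one_mul]
  have e2 : G' * b' = a' * G' := by
    calc G' * b' = G' * (b' * (G * G')) := by rw [h1, Matrix.mul_one]
      _ = G' * ((b' * G) * G') := by rw [Matrix.mul_assoc b' G G']
      _ = (G' * G) * a' * G' := by rw [hab]; simp only [Matrix.mul_assoc]
      _ = a' * G' := by rw [h2, Matrix.one_mul]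
  have e4 : Hi * G' * Hj⁻¹ * bᵀ = aᵀ * (Hi * G' * Hj⁻¹) := by
    calc Hi * G' * Hj⁻¹ * bᵀ = Hi * G' * (Hj⁻¹ * bᵀ) := by rw [Matrix.mul_assoc]
      _ = -(Hi * (G' * b') * Hj⁻¹) := by rw [e1, Matrix.mul_neg]; simp only [Matrix.mul_assoc]
      _ = -(Hi * a') * G' * Hj⁻¹ := by
          rw [e2, Matrix.neg_mul, Matrix.neg_mul]; simp only [Matrix.mul_assoc]
      _ = aᵀ * (Hi * G' * Hj⁻¹) := by rw [← e0]; simp only [Matrix.mul_assoc]
  have e5 := congrArg Matrix.transpose e4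
  rw [Matrix.transpose_mul, Matrix.transpose_transpose, Matrix.transpose_mul aᵀ,
    Matrix.transpose_transpose] at e5
  exact e5

/-- the part of trace zero of skew matrices -/
theorem trz_skew {p : ℕ} {H a a' : Matrix (Fin p) (Fin p) ℂ} (hH : IsUnit H.det)
    (ha : aᵀ * H + H * a' = 0) : (trz a)ᵀ * H + H * trz a' = 0 := by
  have h1 : a' = -(H⁻¹ * (aᵀ * H)) := by
    have h2 : H * a' = -(aᵀ * H) := eq_neg_of_add_eq_zero_right ha
    calc a' = H⁻¹ * H * a' := by rw [Matrix.nonsing_inv_mul _ hH, Matrix.one_mul]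
      _ = -(H⁻¹ * (aᵀ * H)) := by rw [Matrix.mul_assoc, h2, Matrix.mul_neg]
  have h3 : a'.trace = -a.trace := by
    rw [h1, Matrix.trace_neg, Matrix.trace_mul_comm, Matrix.mul_assoc,
      Matrix.mul_nonsing_inv _ hH, Matrix.mul_one, Matrix.trace_transpose]
  unfold trz
  rw [Matrix.transpose_sub, Matrix.transpose_smul, Matrix.transpose_one, Matrix.sub_mul,
    Matrix.mul_sub, Matrix.smul_mul, Matrix.one_mul, Matrix.mul_smul, Matrix.mul_one, h3]
  have h4 : aᵀ * H - (a.trace / p) • H + (H * a' - (-a.trace / p) • H) =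
      (aᵀ * H + H * a') + (-(a.trace / p) • H + (a.trace / p) • H) := by
    rw [neg_div, neg_smul]
    abel
  rw [h4, ha, neg_smul, neg_add_cancel, add_zero]

theorem trz_map {p : ℕ} (α : ℂ ≃+* ℂ) (A : Matrix (Fin p) (Fin p) ℂ) :
    trz (A.map α) = (trz A).map α := by
  ext a b
  have h1 : (A.map α).trace = α A.trace := by
    unfold Matrix.trace
    rw [map_sum]
    rfl
  unfold trz
  rw [h1, Matrix.map_apply, Matrix.sub_apply, Matrix.sub_apply, Matrix.map_apply,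
    Matrix.smul_apply, Matrix.smul_apply, map_sub, smul_eq_mul, smul_eq_mul, map_mul, map_div₀,
    map_natCast]
  congr 2
  by_cases hab : a = b
  · rw [hab, Matrix.one_apply_eq, map_one]
  · rw [Matrix.one_apply_ne hab, map_zero]

section

variable {I : Type} {K : I → Type} [∀ i, Field (K i)]
  [∀ i, NumberField (K i)] {c : ∀ i, K i →+* K i} {m : I → ℕ}
  {h : ∀ i, Matrix (Fin (m i)) (Fin (m i)) (K i)}
  {R : Set (∀ i, (K i →+* ℂ) → Matrix (Fin (m i)) (Fin (m i)) ℂ)}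

theorem hu (H : SyA c h R) (i : I) (s : K i →+* ℂ) : IsUnit ((h i).map s).det := by
  have h1 : ((h i).map s).det = s (h i).det := (RingHom.map_det s (h i)).symm
  rw [h1, isUnit_iff_ne_zero]
  exact (map_ne_zero s).2 (H.nd i)

theorem ht (H : SyA c h R) (i : I) (s : K i →+* ℂ) :
    ((h i).map s)ᵀ = (h i).map (cj s) := by
  ext a b
  rw [Matrix.transpose_apply, Matrix.map_apply, Matrix.map_apply, H.conj, H.herm]

theorem sk (H : SyA c h R) {M : ∀ i, (K i →+* ℂ) → Matrix (Fin (m i)) (Fin (m i)) ℂ}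
    (hM : M ∈ R) (i : I) (s : K i →+* ℂ) :
    (trz (M i s))ᵀ * (h i).map s + (h i).map s * trz (M i (cj s)) = 0 :=
  trz_skew (hu H i s) (H.skew M hM i s)

theorem z1 (H : SyA c h R) {M : ∀ i, (K i →+* ℂ) → Matrix (Fin (m i)) (Fin (m i)) ℂ}
    (hM : M ∈ R) (i : I) (s : K i →+* ℂ) (h0 : trz (M i s) = 0) : trz (M i (cj s)) = 0 := by
  have h1 := sk H hM i s
  rw [h0, Matrix.transpose_zero, Matrix.zero_mul, zero_add] at h1
  have h2 : ((h i).map s)⁻¹ * ((h i).map s * trz (M i (cj s))) = 0 := by rw [h1, Matrix.mul_zero]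
  rwa [← Matrix.mul_assoc, Matrix.nonsing_inv_mul _ (hu H i s), Matrix.one_mul] at h2

theorem z (H : SyA c h R) {M : ∀ i, (K i →+* ℂ) → Matrix (Fin (m i)) (Fin (m i)) ℂ}
    (hM : M ∈ R) (i : I) (s : K i →+* ℂ) : trz (M i s) = 0 ↔ trz (M i (cj s)) = 0 := by
  refine ⟨z1 H hM i s, fun h0 => ?_⟩
  have h1 := z1 H hM i (cj s) h0
  rwa [cc] at h1

/-- linked places -/
def L (R : Set (∀ i, (K i →+* ℂ) → Matrix (Fin (m i)) (Fin (m i)) ℂ)) (i j : I)
    (s : K i →+* ℂ) (t : K j →+* ℂ) : Prop := ∀ M ∈ R, trz (M i s) = 0 ↔ trz (M j t) = 0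

theorem Ls {i j : I} {s : K i →+* ℂ} {t : K j →+* ℂ} (hl : L R i j s t) :
    L R j i t s := fun M hM => (hl M hM).symm

theorem Lc (H : SyA c h R) {i j : I} {s : K i →+* ℂ} {t : K j →+* ℂ}
    (hl : L R i j s t) : L R i j s (cj t) := fun M hM => (hl M hM).trans (z H hM j t)

theorem Lc' (H : SyA c h R) {i j : I} {s : K i →+* ℂ} {t : K j →+* ℂ}
    (hl : L R i j (cj s) t) : L R i j s t := fun M hM => (z H hM i s).trans (hl M hM)

theorem Lt (H : SyA c h R) {i j : I} {s : K i →+* ℂ} {t : K j →+* ℂ} (α : ℂ ≃+* ℂ)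
    (hl : L R i j s t) :
    L R i j ((α : ℂ →+* ℂ).comp s) ((α : ℂ →+* ℂ).comp t) := by
  intro M hM
  have h1 := hl _ (H.tw M hM α.symm)
  have key : ∀ (l : I) (u : K l →+* ℂ),
      trz (twM α.symm (M l) u) = 0 ↔ trz (M l ((α : ℂ →+* ℂ).comp u)) = 0 := by
    intro l u
    have h2 : twM α.symm (M l) u = (M l ((α : ℂ →+* ℂ).comp u)).map α.symm := rfl
    rw [h2, trz_map]
    exact KSW.IsoA.map_eq_zero' α.symm _
  exact (key i s).symm.trans (h1.trans (key j t))

theorem sep (H : SyA c h R) {i j : I} {s : K i →+* ℂ} {t t' : K j →+* ℂ}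
    (hl : L R i j s t) (hl' : L R i j s t') : t' = t ∨ t' = cj t := by
  by_contra hcon
  push Not at hcon
  have hm := H.m2 j
  have hab : (⟨0, by omega⟩ : Fin (m j)) ≠ ⟨1, by omega⟩ := by
    intro h0
    have h1 := congrArg Fin.val h0
    simp at h1
  have hSL : (Matrix.single ⟨0, by omega⟩ ⟨1, by omega⟩ 1 : Matrix (Fin (m j)) (Fin (m j)) ℂ) ∈
      SL (m j) := Matrix.trace_single_eq_of_ne _ _ _ hab
  obtain ⟨M, hM, hMZ, hM0⟩ := H.one j t' _ hSL
  have h1 : M j t = 0 := hM0 t (fun h0 => hcon.1 h0.symm) (fun h0 => hcon.2 (by rw [h0, cc]))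
  have h1' : trz (M j t) = 0 := by
    rw [h1, trz_of (Matrix.trace_zero _ _)]
  have h2 := (hl' M hM).1 ((hl M hM).2 h1')
  rw [hMZ, trz_of hSL] at h2
  have h3 := congrFun (congrFun h2 ⟨0, by omega⟩) ⟨1, by omega⟩
  rw [Matrix.single_apply_same, Matrix.zero_apply] at h3
  exact one_ne_zero h3

/-- the space -/
def Rs (H : SyA c h R) (hne : R.Nonempty) :
    Submodule ℂ (∀ i, (K i →+* ℂ) → Matrix (Fin (m i)) (Fin (m i)) ℂ) where
  carrier := R
  add_mem' := fun {a b} ha hb => H.add a ha b hb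
  zero_mem' := by
    obtain ⟨M, hM⟩ := hne
    have h1 := H.smul 0 M hM
    rwa [zero_smul] at h1
  smul_mem' := fun r M hM => H.smul r M hM

theorem on (H : SyA c h R) (i : I) (s : K i →+* ℂ) :
    ∀ Z ∈ SL (m i), ∃ M ∈ R, trz (M i s) = Z := by
  intro Z hZ
  obtain ⟨M, hM, hMZ, -⟩ := H.one i s Z hZ
  exact ⟨M, hM, by rw [hMZ, trz_of hZ]⟩

theorem tr (H : SyA c h R) (i : I) (s : K i →+* ℂ)
    (M : ∀ i, (K i →+* ℂ) → Matrix (Fin (m i)) (Fin (m i)) ℂ) : trz (M i s) ∈ SL (m i) :=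
  trz_trace (by have := H.m2 i; omega) _

/-- the map between linked places -/
theorem phi (H : SyA c h R) {i j : I} {s : K i →+* ℂ} {t : K j →+* ℂ}
    (hl : L R i j s t) : ∃ φ : Matrix (Fin (m i)) (Fin (m i)) ℂ →ₗ[ℂ]
      Matrix (Fin (m j)) (Fin (m j)) ℂ, ∀ M ∈ R, φ (trz (M i s)) = trz (M j t) := by
  have hne : R.Nonempty := by
    obtain ⟨M, hM, -⟩ := H.one i s 0 (Submodule.zero_mem _)
    exact ⟨M, hM⟩
  let p : Rs H hne →ₗ[ℂ] Matrix (Fin (m i)) (Fin (m i)) ℂ :=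
    { toFun := fun M => trzL (m i) (M.1 i s)
      map_add' := fun M N => (trzL (m i)).map_add _ _
      map_smul' := fun r M => (trzL (m i)).map_smul _ _ }
  let q : Rs H hne →ₗ[ℂ] Matrix (Fin (m j)) (Fin (m j)) ℂ :=
    { toFun := fun M => trzL (m j) (M.1 j t)
      map_add' := fun M N => (trzL (m j)).map_add _ _
      map_smul' := fun r M => (trzL (m j)).map_smul _ _ }
  obtain ⟨φ, hφ⟩ := fac p q (fun v hv => (hl v.1 v.2).1 hv)
  exact ⟨φ, fun M hM => hφ ⟨M, hM⟩⟩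

theorem le (H : SyA c h R) {i j : I} {s : K i →+* ℂ} {t : K j →+* ℂ}
    (hl : L R i j s t) : finrank ℂ (SL (m i)) ≤ finrank ℂ (SL (m j)) := by
  obtain ⟨φ, hφ⟩ := phi H hl
  have h1 : ∀ Z ∈ SL (m i), φ Z ∈ SL (m j) := by
    intro Z hZ
    obtain ⟨M, hM, rfl⟩ := on H i s Z hZ
    rw [hφ M hM]
    exact tr H j t M
  have h2 : Function.Injective (φ.restrict h1) := by
    rw [injective_iff_map_eq_zero]
    rintro ⟨Z, hZ⟩ h0
    obtain ⟨M, hM, rfl⟩ := on H i s Z hZ
    have h3 := congrArg Subtype.val h0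
    have h4 : trz (M j t) = 0 := by
      rw [← hφ M hM]
      exact h3
    exact Subtype.ext ((hl M hM).2 h4)
  exact LinearMap.finrank_le_finrank_of_injective h2

/-- every place has an isomorphic one -/
theorem P (hSla : St_Sla) (hSsl : St_Ssl) (H : SyA c h R) {i j : I} {s : K i →+* ℂ}
    {t : K j →+* ℂ} (hl : L R i j s t) :
    ∃ (t' : K j →+* ℂ) (G : Matrix (Fin (m j)) (Fin (m i)) ℂ)
      (G' : Matrix (Fin (m i)) (Fin (m j)) ℂ), L R i j s t' ∧ G * G' = 1 ∧ G' * G = 1 ∧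
      ∀ M ∈ R, trz (M j t') * G = G * trz (M i s) := by
  obtain ⟨φ, hφ⟩ := phi H hl
  have hmm : m i = m j := by
    have h1 := le_antisymm (le H hl) (le H (Ls hl))
    have h2 := (hSsl (m i) (H.m2 i)).2
    have h3 := (hSsl (m j) (H.m2 j)).2
    have h4 : m i * m i = m j * m j := by omega
    exact Nat.mul_self_inj.1 h4
  obtain ⟨G, G', h1, h2, h3⟩ := hSla (m i) (m j) (H.m2 i) hmm φ (by
      intro Z hZ
      obtain ⟨M, hM, rfl⟩ := on H i s Z hZ
      rw [hφ M hM]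
      exact tr H j t M) (by
      intro Z hZ h0
      obtain ⟨M, hM, rfl⟩ := on H i s Z hZ
      rw [hφ M hM] at h0
      exact (hl M hM).2 h0) (by
      intro Z hZ Z' hZ'
      obtain ⟨M, hM, rfl⟩ := on H i s Z hZ
      obtain ⟨M', hM', rfl⟩ := on H i s Z' hZ'
      rw [hφ M hM, hφ M' hM', ← trz_br, ← trz_br]
      exact hφ _ (H.br M hM M' hM'))
  have h3' : (∀ M ∈ R, trz (M j t) * G = G * trz (M i s)) ∨
      ∀ M ∈ R, trz (M j t) * G = -(G * (trz (M i s))ᵀ) := by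
    rcases h3 with h3 | h3
    · left
      intro M hM
      rw [← hφ M hM, h3 _ (tr H i s M), Matrix.mul_assoc, h2, Matrix.mul_one]
    · right
      intro M hM
      rw [← hφ M hM, h3 _ (tr H i s M), Matrix.neg_mul, Matrix.mul_assoc, h2, Matrix.mul_one]
  rcases h3' with h3 | h3
  · exact ⟨t, G, G', hl, h1, h2, h3⟩
  · have hu := hu H j t
    have h1' : G'ᵀ * Gᵀ = 1 := by rw [← Matrix.transpose_mul, h1, Matrix.transpose_one]
    have h2' : Gᵀ * G'ᵀ = 1 := by rw [← Matrix.transpose_mul, h2, Matrix.transpose_one]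
    refine ⟨cj t, ((h j).map t)⁻¹ * G'ᵀ, Gᵀ * (h j).map t, Lc H hl, ?_, ?_, fun M hM => ?_⟩
    · calc ((h j).map t)⁻¹ * G'ᵀ * (Gᵀ * (h j).map t)
          = ((h j).map t)⁻¹ * (G'ᵀ * Gᵀ) * (h j).map t := by simp only [Matrix.mul_assoc]
        _ = 1 := by rw [h1', Matrix.mul_one, Matrix.nonsing_inv_mul _ hu]
    · calc Gᵀ * (h j).map t * (((h j).map t)⁻¹ * G'ᵀ)
          = Gᵀ * ((h j).map t * ((h j).map t)⁻¹) * G'ᵀ := by simp only [Matrix.mul_assoc]
        _ = 1 := by rw [Matrix.mul_nonsing_inv _ hu, Matrix.mul_one, h2']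
    · have hB : trz (M j t) * G = -(G * (trz (M i s))ᵀ) := h3 M hM
      have e1 : (h j).map t * trz (M j (cj t)) = -((trz (M j t))ᵀ * (h j).map t) :=
        eq_neg_of_add_eq_zero_right (sk H hM j t)
      have e2 : G' * trz (M j t) = -((trz (M i s))ᵀ * G') := by
        calc G' * trz (M j t) = G' * (trz (M j t) * (G * G')) := by rw [h1, Matrix.mul_one]
          _ = G' * ((trz (M j t) * G) * G') := by rw [Matrix.mul_assoc (trz (M j t)) G G']
          _ = -((G' * G) * (trz (M i s))ᵀ * G') := by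
              rw [hB, Matrix.neg_mul, Matrix.mul_neg]
              simp only [Matrix.mul_assoc]
          _ = -((trz (M i s))ᵀ * G') := by rw [h2, Matrix.one_mul]
      have e3 : (trz (M j t))ᵀ * G'ᵀ = -(G'ᵀ * trz (M i s)) := by
        have e4 := congrArg Matrix.transpose e2
        rw [Matrix.transpose_mul, Matrix.transpose_neg, Matrix.transpose_mul,
          Matrix.transpose_transpose] at e4
        exact e4
      calc trz (M j (cj t)) * (((h j).map t)⁻¹ * G'ᵀ)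
          = (((h j).map t)⁻¹ * (h j).map t) * trz (M j (cj t)) * (((h j).map t)⁻¹ * G'ᵀ) := by
            rw [Matrix.nonsing_inv_mul _ hu, Matrix.one_mul]
        _ = ((h j).map t)⁻¹ * ((h j).map t * trz (M j (cj t))) * (((h j).map t)⁻¹ * G'ᵀ) := by
            rw [Matrix.mul_assoc ((h j).map t)⁻¹]
        _ = -(((h j).map t)⁻¹ * ((trz (M j t))ᵀ * ((h j).map t * ((h j).map t)⁻¹) * G'ᵀ)) := by
            rw [e1, Matrix.mul_neg, Matrix.neg_mul]
            simp only [Matrix.mul_assoc]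
        _ = -(((h j).map t)⁻¹ * ((trz (M j t))ᵀ * G'ᵀ)) := by
            rw [Matrix.mul_nonsing_inv _ hu, Matrix.mul_one]
        _ = ((h j).map t)⁻¹ * G'ᵀ * trz (M i s) := by
            rw [e3, Matrix.mul_neg, neg_neg, Matrix.mul_assoc]

end

end Lkxx

open Lkxx in
/-- **LKX** -/
theorem thm_Lkx (hSla : St_Sla) (hSsl : St_Ssl) : St_Lkx := by
  intro I K _ _ c m h R H i j σ τ hl0
  classical
  have hl0' : L R i j σ τ := hl0
  have hlink : ∀ s : K i →+* ℂ, ∃ t : K j →+* ℂ, L R i j s t := by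
    intro s
    obtain ⟨α, hα⟩ := Helper84.exists_aut σ s
    have h1 := Lt H α hl0'
    rw [hα] at h1
    exact ⟨_, h1⟩
  have hP : ∀ s : K i →+* ℂ, ∃ (t' : K j →+* ℂ) (G : Matrix (Fin (m j)) (Fin (m i)) ℂ)
      (G' : Matrix (Fin (m i)) (Fin (m j)) ℂ), L R i j s t' ∧ G * G' = 1 ∧ G' * G = 1 ∧
      ∀ M ∈ R, trz (M j t') * G = G * trz (M i s) := by
    intro s
    obtain ⟨t, ht⟩ := hlink s
    exact P hSla hSsl H ht
  choose f G G' hfL hG1 hG2 hfG using hP
  -- a set of representatives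
  let e := Fintype.equivFin (K i →+* ℂ)
  let Φ : (K i →+* ℂ) → Prop := fun s => e s < e (cj s)
  have hΦ1 : ∀ s, Φ s → ¬ Φ (cj s) := by
    intro s hs hs'
    have h1 : e (cj s) < e (cj (cj s)) := hs'
    rw [cc] at h1
    exact lt_asymm hs h1
  have hΦ2 : ∀ s, ¬ Φ s → Φ (cj s) := by
    intro s hs
    show e (cj s) < e (cj (cj s))
    rw [cc]
    rcases lt_trichotomy (e s) (e (cj s)) with h1 | h1 | h1
    · exact absurd h1 hs
    · exact absurd (e.injective h1).symm (H.cm i s)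
    · exact h1
  let φ : (K i →+* ℂ) → (K j →+* ℂ) := fun s => if Φ s then f s else cj (f (cj s))
  let g : (K i →+* ℂ) → Matrix (Fin (m j)) (Fin (m i)) ℂ := fun s => if Φ s then G s else
    ((h i).map s * G' (cj s) * ((h j).map (cj (f (cj s))))⁻¹)ᵀ
  have hφ1 : ∀ s, Φ s → φ s = f s := fun s hs => if_pos hs
  have hφ2 : ∀ s, ¬ Φ s → φ s = cj (f (cj s)) := fun s hs => if_neg hs
  have hg1 : ∀ s, Φ s → g s = G s := fun s hs => if_pos hs
  have hg2 : ∀ s, ¬ Φ s → g s = ((h i).map s * G' (cj s) * ((h j).map (cj (f (cj s))))⁻¹)ᵀ :=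
    fun s hs => if_neg hs
  have hφc : ∀ s, φ (cj s) = cj (φ s) := by
    intro s
    by_cases hs : Φ s
    · rw [hφ1 s hs, hφ2 _ (hΦ1 s hs), cc s]
    · rw [hφ2 s hs, hφ1 _ (hΦ2 s hs), cc]
  have hφL : ∀ s, L R i j s (φ s) := by
    intro s
    by_cases hs : Φ s
    · rw [hφ1 s hs]
      exact hfL s
    · rw [hφ2 s hs]
      exact Lc' H (Lc H (hfL (cj s)))
  have hpair0 : ∀ s, ¬ Φ s → (g s)ᵀ * (h j).map (φ s) * g (cj s) = (h i).map s := by
    intro s hs
    have hu := hu H j (cj (f (cj s)))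
    rw [hg2 s hs, hφ2 s hs, hg1 _ (hΦ2 s hs), Matrix.transpose_transpose]
    calc (h i).map s * G' (cj s) * ((h j).map (cj (f (cj s))))⁻¹ * (h j).map (cj (f (cj s))) *
          G (cj s) = (h i).map s * (G' (cj s) * (((h j).map (cj (f (cj s))))⁻¹ *
            (h j).map (cj (f (cj s))) * G (cj s))) := by simp only [Matrix.mul_assoc]
      _ = (h i).map s := by
          rw [Matrix.nonsing_inv_mul _ hu, Matrix.one_mul, hG2, Matrix.mul_one]
  have hinv : ∀ s, ∃ g' : Matrix (Fin (m i)) (Fin (m j)) ℂ, g s * g' = 1 ∧ g' * g s = 1 := by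
    intro s
    by_cases hs : Φ s
    · rw [hg1 s hs]
      exact ⟨G' s, hG1 s, hG2 s⟩
    · have hu' := hu H j (cj (f (cj s)))
      have hi := hu H i s
      rw [hg2 s hs]
      refine ⟨((h j).map (cj (f (cj s))) * G (cj s) * ((h i).map s)⁻¹)ᵀ, ?_, ?_⟩
      · rw [← Matrix.transpose_mul]
        have e1 : (h j).map (cj (f (cj s))) * G (cj s) * ((h i).map s)⁻¹ *
            ((h i).map s * G' (cj s) * ((h j).map (cj (f (cj s))))⁻¹) = 1 := by
          calc (h j).map (cj (f (cj s))) * G (cj s) * ((h i).map s)⁻¹ *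
                ((h i).map s * G' (cj s) * ((h j).map (cj (f (cj s))))⁻¹)
              = (h j).map (cj (f (cj s))) * (G (cj s) * ((((h i).map s)⁻¹ * (h i).map s) *
                G' (cj s))) * ((h j).map (cj (f (cj s))))⁻¹ := by simp only [Matrix.mul_assoc]
            _ = 1 := by
                rw [Matrix.nonsing_inv_mul _ hi, Matrix.one_mul, hG1, Matrix.mul_one,
                  Matrix.mul_nonsing_inv _ hu']
        rw [e1, Matrix.transpose_one]
      · rw [← Matrix.transpose_mul]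
        have e1 : (h i).map s * G' (cj s) * ((h j).map (cj (f (cj s))))⁻¹ *
            ((h j).map (cj (f (cj s))) * G (cj s) * ((h i).map s)⁻¹) = 1 := by
          calc (h i).map s * G' (cj s) * ((h j).map (cj (f (cj s))))⁻¹ *
                ((h j).map (cj (f (cj s))) * G (cj s) * ((h i).map s)⁻¹)
              = (h i).map s * (G' (cj s) * ((((h j).map (cj (f (cj s))))⁻¹ *
                (h j).map (cj (f (cj s)))) * G (cj s))) * ((h i).map s)⁻¹ := by
                  simp only [Matrix.mul_assoc]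
            _ = 1 := by
                rw [Matrix.nonsing_inv_mul _ hu', Matrix.one_mul, hG2, Matrix.mul_one,
                  Matrix.mul_nonsing_inv _ hi]
        rw [e1, Matrix.transpose_one]
  choose g' hg'1 hg'2 using hinv
  refine ⟨φ, g, g', ⟨?_, ?_⟩, hφc, hg'1, hg'2, ?_, ?_⟩
  · -- injective
    intro s s' hss
    have h1 := hφL s
    rw [hss] at h1
    rcases sep H (Ls h1) (Ls (hφL s')) with h2 | h2
    · exact h2.symm
    · exfalso
      have h3 : φ s' = cj (φ s) := by rw [h2, hφc]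
      rw [hss] at h3
      exact H.cm j (φ s') h3.symm
  · -- surjective
    intro ρ
    obtain ⟨α, hα⟩ := Helper84.exists_aut τ ρ
    have h1 := Lt H α hl0'
    rw [hα] at h1
    rcases sep H (hφL ((α : ℂ →+* ℂ).comp σ)) h1 with h2 | h2
    · exact ⟨_, h2.symm⟩
    · exact ⟨_, (hφc _).trans h2.symm⟩
  · intro s
    by_cases hs : Φ s
    · have h1 := hpair0 (cj s) (hΦ1 s hs)
      have h2 := congrArg Matrix.transpose h1
      rw [Matrix.transpose_mul, Matrix.transpose_mul, Matrix.transpose_transpose, ht H, ht H,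
        hφc s, cc, cc, ← Matrix.mul_assoc] at h2
      exact h2
    · exact hpair0 s hs
  · intro M hM s
    by_cases hs : Φ s
    · rw [hφ1 s hs, hg1 s hs]
      exact hfG s M hM
    · rw [hφ2 s hs, hg2 s hs]
      refine dual (hu H j _) (hG1 (cj s)) (hG2 (cj s)) (sk H hM i s)
        (sk H hM j (cj (f (cj s)))) ?_
      rw [cc]
      exact hfG (cj s) M hM

end Pool.Agent.KTW
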