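import Pool.Agent.KTW.StT
import Pool.Agent.KSE.BvE
import Pool.Agent.KSE.BvA

/-!
# KTW [LTX]: linked pieces and the operators `Z` (helper51)
-/

set_option autoImplicit false
set_option linter.unusedSectionVars false

namespace Pool.Agent.KTW

open Module Matrix NumberField Pool.Agent.Helper7 Pool.Agent.KS Pool.Agent.Ball Pool.Agent.KSE
  Pool.Agent.Helper28.GPC Pool.Agent.K3P Pool.Agent.KTP

namespace Ltxx

/-- the coordinates of a scalar matrix of size two are zero -/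
theorem cs_scalar {m : ℕ} (hm : m = 2) (r : ℂ) : cs (r • (1 : Matrix (Fin m) (Fin m) ℂ)) = 0 := by
  subst hm
  ext k
  fin_cases k <;> simp [cs, Pool.Agent.KQ4.en]

/-- the coordinates of a scalar matrix of size two with respect to a frame are zero -/
theorem cz_scalar {m : ℕ} (hm : m = 2) (ε r : ℂ) (B : Matrix (Fin m) (Fin m) ℂ)
    (hB : IsUnit B.det) : cz ε B (r • (1 : Matrix (Fin m) (Fin m) ℂ)) = 0 := by
  have e1 : B⁻¹ * (r • (1 : Matrix (Fin m) (Fin m) ℂ)) * B = r • 1 := by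
    rw [Matrix.mul_smul, Matrix.smul_mul, Matrix.mul_one, Matrix.nonsing_inv_mul B hB]
  unfold cz
  rw [if_pos hm, e1, cs_scalar hm]

/-- the dual of a scalar is a scalar -/
theorem dual_scalar {K : Type} [Field K] [NumberField K] {m : ℕ} {h : Matrix (Fin m) (Fin m) K}
    (hnd : h.det ≠ 0) {σ : K →+* ℂ} {A : Matrix (Fin m) (Fin m) ℂ} {r : ℂ}
    (hA : Aᵀ * h.map σ + h.map σ * (r • (1 : Matrix (Fin m) (Fin m) ℂ)) = 0) :
    A = (-r) • (1 : Matrix (Fin m) (Fin m) ℂ) := by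
  have hd : IsUnit (h.map σ).det := by
    have e : (h.map σ).det = σ h.det := (RingHom.map_det σ h).symm
    rw [e]
    exact ((map_ne_zero σ).mpr hnd).isUnit
  have e1 : Aᵀ * h.map σ = (-r) • h.map σ := by
    rw [Matrix.mul_smul, Matrix.mul_one] at hA
    rw [neg_smul]
    exact eq_neg_of_add_eq_zero_left hA
  have e2 : Aᵀ = (-r) • (1 : Matrix (Fin m) (Fin m) ℂ) := by
    have e3 : Aᵀ * h.map σ * (h.map σ)⁻¹ = (-r) • h.map σ * (h.map σ)⁻¹ := by rw [e1]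
    rwa [Matrix.mul_assoc, Matrix.mul_nonsing_inv _ hd, Matrix.mul_one, Matrix.smul_mul,
      Matrix.mul_nonsing_inv _ hd] at e3
  rw [← Matrix.transpose_transpose A, e2, Matrix.transpose_smul, Matrix.transpose_one]

end Ltxx

/-- [LTX] linked pieces and the operators `Z` -/
theorem thm_Ltx (hLal : St_Lal) (hPsy : St_Psy) (hQhx : St_Qhx) (hCzp : St_Czp)
    (hHmf : St_Hmf) : St_Ltx := by
  intro I J _ _ _ _ e n κ _ _ ϖ P K _ _ c m h t k γ σ₀ Z MZ H i j hR hQ ε ε' hε hε' σ₁ τ₁ B₁ C₁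
    hB₁ hC₁ hlink M hM hMi
  classical
  obtain ⟨φ, B, C, g, hφ, hB, hC, hgb, hgc, hgl, hlast⟩ := hLal I K c m h σ₀ (SyM e n P t γ) H.sy
    i j hR (H.qn i hR) hQ ε ε' hε hε' σ₁ τ₁ B₁ C₁ hB₁ hC₁ hlink
  have := H.ne i
  have := H.ne j
  have hPi : IsPls (id : (K i →+* ℂ) → (K i →+* ℂ)) := by
    refine ⟨fun σ σ' h1 => ?_, fun τ => ⟨τ, Or.inl rfl⟩⟩
    rcases h1 with h1 | h1
    · exact h1
    · rw [id, id, hR.1] at h1
      exact h1
  obtain ⟨s, p, hsp, hX1⟩ := hPsy (κ (e i)) ϖ (P (e i)) (K i) (c i) (m i) (h i) (t i) (σ₀ i)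
    (H.S i) (Or.inl ⟨hR, H.qn i hR⟩) ε hε (K i →+* ℂ) id hPi B hB
  obtain ⟨s', p', hsp', hX2⟩ := hPsy (κ (e j)) ϖ (P (e j)) (K j) (c j) (m j) (h j) (t j) (σ₀ j)
    (H.S j) hQ ε' hε' (K i →+* ℂ) φ hφ C hC
  obtain ⟨F, hF0, hF1, hF2⟩ := hQhx (K i →+* ℂ) (κ (e i) → ℂ) (κ (e j) → ℂ) s p s' p' hsp hsp' g
    hgb hgc
  -- the map `F` commutes with the symmetries
  have hcomm : ∀ X : GG κ, IsInv n P γ X → X.2 = 0 → F ∘ₗ X.1 (e i) = X.1 (e j) ∘ₗ F := by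
    intro X hX hX0
    choose N hN using H.T X hX
    have hNS : N ∈ SyM e n P t γ := ⟨X, hX, hX0, hN⟩
    obtain ⟨h1, h2⟩ := hX1 (X.1 (e i)) (mem_bvE n P (e i) (H.S i) γ X hX hX0 (N i) (hN i)) (N i)
      (hN i)
    obtain ⟨-, h3⟩ := hX2 (X.1 (e j)) (mem_bvE n P (e j) (H.S j) γ X hX hX0 (N j) (hN j)) (N j)
      (hN j)
    exact hF1 (X.1 (e i)) (X.1 (e j)) (fun σ => cz ε (B σ) (N i (id σ)))
      (fun σ => cz ε' (C σ) (N j (φ σ))) h1 h2 h3 (fun σ => hgl N hNS σ)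
  -- so it is a combination of de Rham-Betti morphisms, and commutes with `Z`
  have hspan := hHmf J n κ ϖ H.pi P k γ H.B H.A (e i) (e j) F hcomm
  have hFZ : F ∘ₗ Z (e i) = Z (e j) ∘ₗ F := by
    refine Submodule.span_induction (p := fun F _ => F ∘ₗ Z (e i) = Z (e j) ∘ₗ F) ?_ ?_ ?_ ?_ hspan
    · intro f hf
      apply LinearMap.ext
      intro v
      exact (H.Z3 (e i) (e j) f hf v).symm
    · rw [LinearMap.zero_comp, LinearMap.comp_zero]
    · intro f f' _ _ h1 h2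
      rw [LinearMap.add_comp, LinearMap.comp_add, h1, h2]
    · intro a f _ h1
      rw [LinearMap.smul_comp, LinearMap.comp_smul, h1]
  -- the symmetry of `M`
  obtain ⟨X, hX, hX0, hXM⟩ := hM
  have hMe : M i = MZ i := funext hMi
  have hXi : X.1 (e i) = Z (e i) := by
    have h1 := mem_bvE n P (e i) (H.S i) γ X hX hX0 (M i) (hXM i)
    have h2 := H.Z2 i
    rw [← hMe] at h2
    exact eq_of_act (H.S i).conj (H.S i).herm (H.S i).nd (H.S i).cliff h1 (H.Z1 i) (hXM i) h2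
  have hXj := mem_bvE n P (e j) (H.S j) γ X hX hX0 (M j) (hXM j)
  have hW0 : (X.1 (e j) - Z (e j)) ∘ₗ F = 0 := by
    rw [LinearMap.sub_comp, ← hcomm X hX hX0, ← hFZ, hXi, sub_self]
  have hW1 : X.1 (e j) - Z (e j) ∈ bvS (t j) := Submodule.sub_mem _ hXj (H.Z1 j)
  have hW2 : ActM (t j) (X.1 (e j) - Z (e j)) (M j - MZ j) := ActM.sub (hXM j) (H.Z2 j)
  obtain ⟨-, h3⟩ := hX2 _ hW1 _ hW2
  have hcz : ∀ σ, cz ε' (C σ) ((M j - MZ j) (φ σ)) = 0 := hF2 _ _ h3 hW0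
  -- the conclusion
  have hcj := (H.S j).conj
  have hskew : SkewM (h j) (M j - MZ j) :=
    (skewM_iff _).mpr (ActM.skew (H.S j).conj (H.S j).cliff hW2)
  obtain ⟨hadd, -, -, -, -, -⟩ := hCzp (K j) (c j) (m j) (h j) (σ₀ j) hcj (H.S j).herm (H.S j).nd
    hQ ε' hε' τ₁ C₁ hC₁
  suffices hgoal : cz ε' C₁ ((M j - MZ j) τ₁) = 0 by
    have e1 : M j τ₁ = (M j - MZ j) τ₁ + MZ j τ₁ := by
      rw [Pi.sub_apply, sub_add_cancel]
    rw [e1, hadd, hgoal, zero_add]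
  by_cases hτ : cj τ₁ = τ₁
  · obtain ⟨σ, h4, h5⟩ := hlast hτ
    rw [← h4, ← h5]
    exact hcz σ
  · have hm2 : m j = 2 := by
      rcases hQ with hQ | hQ
      · exact absurd (hQ.1.1 τ₁) hτ
      · exact hQ.2
    have hcx : ∀ τ : K j →+* ℂ, cj τ ≠ τ := by
      rcases hQ with hQ | hQ
      · exact absurd (hQ.1.1 τ₁) hτ
      · exact hQ.1.1
    obtain ⟨σ, h4⟩ := hφ.2 τ₁
    have htr : trz ((M j - MZ j) (φ σ)) = 0 := by
      obtain ⟨-, -, -, -, h5, -⟩ := hCzp (K j) (c j) (m j) (h j) (σ₀ j) hcj (H.S j).herm (H.S j).nd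
        hQ ε' hε' (φ σ) (C σ) (hC σ)
      exact h5 _ (fun h6 => absurd h6 (hcx _)) (hcz σ) (fun h6 => by omega)
    have hsc : (M j - MZ j) (φ σ) =
        (((M j - MZ j) (φ σ)).trace / (m j : ℂ)) • (1 : Matrix (Fin (m j)) (Fin (m j)) ℂ) := by
      unfold trz at htr
      exact sub_eq_zero.mp htr
    rcases h4 with h4 | h4
    · rw [h4] at hsc
      rw [hsc]
      exact Ltxx.cz_scalar hm2 _ _ _ hC₁.1
    · have h7 := hskew τ₁
      rw [← h4, hsc] at h7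
      rw [Ltxx.dual_scalar (H.S j).nd h7]
      exact Ltxx.cz_scalar hm2 _ _ _ hC₁.1

end Pool.Agent.KTW
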