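import Pool.Agent.KTW.StX
import Pool.Agent.KTW.Eva

/-!
# KTW: the trace-zero part acts faithfully on the middle part
-/

set_option autoImplicit false

namespace Pool.Agent.KTW

open Module Matrix NumberField Pool.Agent.Helper7 Pool.Agent.KS Pool.Agent.KSE

namespace Mdfx

open Evax

section ops

variable {V : Type} [AddCommGroup V] [Module ℂ V] {K : Type} [Field K] [NumberField K] {m : ℕ}
  {c : K →+* K} {h : Matrix (Fin m) (Fin m) K} {t : Fin m → K → Module.End ℂ V}

private lemma vmv (u w x : Fin m → ℂ) : Matrix.vecMulVec u w *ᵥ x = (w ⬝ᵥ x) • u := by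
  funext i
  rw [Matrix.mulVec, dotProduct, Pi.smul_apply, smul_eq_mul, dotProduct, Finset.sum_mul]
  refine Finset.sum_congr rfl fun j _ => ?_
  rw [Matrix.vecMulVec_apply]
  ring

/-- the matrices of a number operator -/
noncomputable def Mo [DecidableEq (K →+* ℂ)] (h : Matrix (Fin m) (Fin m) K) (σ : K →+* ℂ)
    (a : Fin m) (τ : K →+* ℂ) : Matrix (Fin m) (Fin m) ℂ :=
  (if τ = σ then Matrix.vecMulVec (Pi.single a 1) (Pi.single a 1) else 0) -
    (if τ = cj σ then Matrix.vecMulVec (yv h σ a) ((2 : ℂ) • (h.map σ) a) else 0)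

/-- the action of a number operator -/
lemma po_act [DecidableEq (K →+* ℂ)] (S : CMR c h t) (σ : K →+* ℂ) (a : Fin m) (τ : K →+* ℂ)
    (x : Fin m → ℂ) : po h t σ a * tau (ts t τ) x - tau (ts t τ) x * po h t σ a =
      tau (ts t τ) (Mo h σ a τ *ᵥ x) := by
  have h0 : po h t σ a * tau (ts t τ) x - tau (ts t τ) x * po h t σ a =
      ts t σ a * (tau (ts t τ) x * fo h t σ a + fo h t σ a * tau (ts t τ) x) -
      (ts t σ a * tau (ts t τ) x + tau (ts t τ) x * ts t σ a) * fo h t σ a := by
    rw [po]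
    noncomm_ring
  rw [h0, Mo]
  by_cases h1 : τ = σ
  · subst h1
    rw [if_pos rfl, if_neg (S.cm τ).symm, sub_zero, vmv, single_dotProduct, one_mul, map_smul,
      tau_single]
    have h3 := tau_anti S.conj S.cliff (S.cm τ).symm (Pi.single a 1) x (t := t)
    rw [tau_single] at h3
    rw [fo_tau S, h3, zero_mul, sub_zero, mul_smul_comm, mul_one]
  · by_cases h2 : τ = cj σ
    · subst h2
      rw [if_neg h1, if_pos rfl, zero_sub, Matrix.neg_mulVec, vmv, map_neg, smul_dotProduct]
      have h4 := tau_anti S.conj S.cliff (S.cm (cj σ)).symm x (yv h σ a) (t := t)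
      have h5 := tau_pair S.conj S.cliff σ (Pi.single a 1) x (t := t)
      rw [tau_single, pr, single_dotProduct, one_mul] at h5
      rw [h5, fo, h4, mul_zero, zero_sub, smul_mul_assoc, one_mul, map_smul]
      rfl
    · rw [if_neg h1, if_neg h2, sub_zero, Matrix.zero_mulVec, map_zero]
      have h3 := tau_anti S.conj S.cliff h2 (Pi.single a 1) x (t := t)
      rw [tau_single] at h3
      have h4 : τ ≠ cj (cj σ) := by rwa [cj_cj]
      have h5 := tau_anti S.conj S.cliff h4 (yv h σ a) x (t := t)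
      rw [h3, fo, add_comm, h5, mul_zero, zero_mul, sub_zero]

/-- the trace of the matrices of a number operator does not depend on the index -/
lemma mo_trace [DecidableEq (K →+* ℂ)] (S : CMR c h t) (σ : K →+* ℂ) (a : Fin m)
    (τ : K →+* ℂ) : (Mo h σ a τ).trace = (if τ = σ then 1 else 0) - (if τ = cj σ then 1 else 0) := by
  rw [Mo, Matrix.trace_sub]
  congr 1
  · split_ifs
    · rw [Matrix.trace_vecMulVec, single_dotProduct, one_mul, Pi.single_eq_same]
    · exact Matrix.trace_zero _ _
  · split_ifs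
    · rw [Matrix.trace_vecMulVec, dotProduct_smul, dotProduct_comm]
      have h1 : (h.map σ) a ⬝ᵥ yv h σ a = ((h.map σ) *ᵥ yv h σ a) a := rfl
      rw [h1, map_yv S, Pi.smul_apply, Pi.single_eq_same, smul_eq_mul, smul_eq_mul]
      norm_num
    · exact Matrix.trace_zero _ _

/-- differences of number operators are in `bvS` -/
lemma po_sub_mem (S : CMR c h t) (σ : K →+* ℂ) (a b : Fin m) :
    po h t σ a - po h t σ b ∈ bvS t := by
  have h2 : ∀ a, ∑ b, yv h σ a b • (ts t σ a * ts t (cj σ) b - ts t (cj σ) b * ts t σ a) =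
      (2 : ℂ) • po h t σ a - 1 := by
    intro a
    have h3 := ts_fo S σ a a
    rw [if_pos rfl] at h3
    have h4 : ts t σ a * fo h t σ a - fo h t σ a * ts t σ a = (2 : ℂ) • po h t σ a - 1 := by
      rw [po, two_smul, ← h3]
      abel
    rw [← h4, fo, tau_apply, Finset.mul_sum, Finset.sum_mul, ← Finset.sum_sub_distrib]
    refine Finset.sum_congr rfl fun b _ => ?_
    rw [mul_smul_comm, smul_mul_assoc, smul_sub]
  have h3 : ∀ a, (2 : ℂ) • po h t σ a - 1 ∈ bvS t := by
    intro a
    rw [← h2 a]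
    exact Submodule.sum_mem _ fun b _ => Submodule.smul_mem _ _
      (Submodule.subset_span ⟨σ, a, b, rfl⟩)
  have h4 := Submodule.smul_mem (bvS t) (1 / 2 : ℂ) (Submodule.sub_mem _ (h3 a) (h3 b))
  have h5 : (1 / 2 : ℂ) • ((2 : ℂ) • po h t σ a - 1 - ((2 : ℂ) • po h t σ b - 1)) =
      po h t σ a - po h t σ b := by
    rw [sub_sub_sub_cancel_right, smul_sub, smul_smul, smul_smul]
    norm_num
  rw [h5] at h4
  exact h4

/-- the operator `so` is central -/
lemma so_cen [DecidableEq (K →+* ℂ)] (S : CMR c h t) (σ : K →+* ℂ) :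
    IsCen t (so h t σ) fun τ => (if τ = σ then 1 else 0) - (if τ = cj σ then 1 else 0) := by
  refine ⟨so_mem S σ, ?_⟩
  intro τ x
  rw [so_act S σ τ x, Matrix.smul_mulVec, Matrix.one_mulVec, map_smul]

end ops

end Mdfx

open Evax Mdfx in
/-- **MDF** -/
theorem thm_Mdf : St_Mdf := by
  classical
  intro V _ _ _ K _ _ c m h t S hm v hv hv0 σ
  by_contra hcon
  push Not at hcon
  -- all differences kill the vector
  have h1 : ∀ a b : Fin m, po h t σ a v = po h t σ b v := by
    intro a b
    have h2 := hcon (po h t σ a - po h t σ b) (fun τ => Mo h σ a τ - Mo h σ b τ)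
      (po_sub_mem S σ a b) ?_ ?_ ?_
    · rw [LinearMap.sub_apply, sub_eq_zero] at h2
      exact h2
    · intro τ x
      rw [Matrix.sub_mulVec, map_sub, ← po_act S, ← po_act S, sub_mul, mul_sub]
      abel
    · intro ρ
      rw [Matrix.trace_sub, mo_trace S, mo_trace S, sub_self]
    · intro ρ h3 h4
      show Mo h σ a ρ - Mo h σ b ρ = 0
      rw [Mo, Mo, if_neg h3, if_neg h4, if_neg h3, if_neg h4, sub_self]
  -- the middle part
  have h2 := hv _ _ (so_cen S σ)
  simp only [mul_zero, Finset.sum_const_zero, zero_smul] at h2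
  rw [so, LinearMap.sub_apply, LinearMap.sum_apply, LinearMap.smul_apply, Module.End.one_apply,
    sub_eq_zero] at h2
  let a : Fin m := ⟨0, Nat.pos_of_ne_zero hm⟩
  rw [Finset.sum_congr rfl fun b _ => h1 b a, Finset.sum_const, Finset.card_univ,
    Fintype.card_fin, ← Nat.cast_smul_eq_nsmul ℂ] at h2
  have hm' : (m : ℂ) ≠ 0 := Nat.cast_ne_zero.mpr hm
  have h3 : po h t σ a v = (1 / 2 : ℂ) • v := by
    have h4 := congrArg (fun w => (m : ℂ)⁻¹ • w) h2
    simp only [smul_smul] at h4
    rw [inv_mul_cancel₀ hm', one_smul] at h4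
    rw [h4]
    congr 1
    field_simp
  have h4 : po h t σ a (po h t σ a v) = po h t σ a v := by
    have h5 := congrArg (fun F : Module.End ℂ V => F v) (po_idem S σ a)
    exact h5
  rw [h3, map_smul, h3, smul_smul] at h4
  have h5 : ((1 / 2 : ℂ) * (1 / 2) - 1 / 2) • v = 0 := by
    rw [sub_smul, h4, sub_self]
  rcases smul_eq_zero.mp h5 with h6 | h6
  · norm_num at h6
  · exact hv0 h6

end Pool.Agent.KTW
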