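import Pool.Agent.KTW.StX
import Pool.Agent.KTW.Eva

/-!
# KTW, module MDV: the middle part generates (helper1)

`thm_Mdv`: a subspace of a Clifford module which is stable under the operators of the eigenspaces and
contains the middle part (the common kernel of the central operators) is the whole module.
-/

set_option autoImplicit false

namespace Pool.Agent.KTW

open Module Matrix NumberField Pool.Agent.Helper7 Pool.Agent.KS Pool.Agent.KSE

namespace Mdvx

open Evax

section dn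

variable {K : Type} [Field K] [NumberField K]

/-- one step towards the middle -/
def dn [DecidableEq (K →+* ℂ)] (n : (K →+* ℂ) → ℕ) (σ : K →+* ℂ) : (K →+* ℂ) → ℕ :=
  fun τ => if τ = σ then n σ - 1 else if τ = cj σ then n (cj σ) + 1 else n τ

lemma dn_self [DecidableEq (K →+* ℂ)] (n : (K →+* ℂ) → ℕ) (σ : K →+* ℂ) :
    dn n σ σ = n σ - 1 := if_pos rfl

lemma dn_cj [DecidableEq (K →+* ℂ)] (n : (K →+* ℂ) → ℕ) {σ : K →+* ℂ} (hσ : cj σ ≠ σ) :
    dn n σ (cj σ) = n (cj σ) + 1 := by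
  rw [dn, if_neg hσ, if_pos rfl]

lemma dn_other [DecidableEq (K →+* ℂ)] (n : (K →+* ℂ) → ℕ) {σ τ : K →+* ℂ} (h1 : τ ≠ σ)
    (h2 : τ ≠ cj σ) : dn n σ τ = n τ := by
  rw [dn, if_neg h1, if_neg h2]

lemma dn_add [DecidableEq (K →+* ℂ)] {n : (K →+* ℂ) → ℕ} {m : ℕ}
    (hn : ∀ σ, n σ + n (cj σ) = m) {σ : K →+* ℂ} (hσ : cj σ ≠ σ) (h0 : 0 < n σ) (τ : K →+* ℂ) :
    dn n σ τ + dn n σ (cj τ) = m := by
  have h1 := hn σ
  by_cases h2 : τ = σ
  · subst h2
    rw [dn_self, dn_cj n hσ]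
    omega
  · by_cases h3 : τ = cj σ
    · subst h3
      rw [cj_cj, dn_self, dn_cj n hσ]
      omega
    · have h4 : cj τ ≠ σ := by
        intro h5
        exact h3 (by rw [← h5, cj_cj])
      have h5 : cj τ ≠ cj σ := Evax.cj_ne h2
      rw [dn_other n h2 h3, dn_other n h4 h5]
      exact hn τ

lemma dn_sum [DecidableEq (K →+* ℂ)] {n : (K →+* ℂ) → ℕ} {m : ℕ}
    (hn : ∀ σ, n σ + n (cj σ) = m) {σ : K →+* ℂ} (hσ : cj σ ≠ σ) (h0 : m / 2 < n σ)
    (hm : Even m) : ∑ τ, (dn n σ τ - m / 2) < ∑ τ, (n τ - m / 2) := by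
  have h1 := hn σ
  obtain ⟨r, hr⟩ := hm
  refine Finset.sum_lt_sum (fun τ _ => ?_) ⟨σ, Finset.mem_univ _, ?_⟩
  · by_cases h2 : τ = σ
    · subst h2
      rw [dn_self]
      omega
    · by_cases h3 : τ = cj σ
      · subst h3
        rw [dn_cj n hσ]
        omega
      · rw [dn_other n h2 h3]
  · rw [dn_self]
    omega

lemma dn_scal [DecidableEq (K →+* ℂ)] {n : (K →+* ℂ) → ℕ} {m : ℕ} {σ : K →+* ℂ}
    (hσ : cj σ ≠ σ) (h0 : 0 < n σ) {z : (K →+* ℂ) → ℂ} (hz : z (cj σ) = -z σ) :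
    ∑ τ, z τ * ((dn n σ τ : ℂ) / 2 - (m : ℂ) / 4) =
      ∑ τ, z τ * ((n τ : ℂ) / 2 - (m : ℂ) / 4) + z (cj σ) := by
  have h1 : ∀ τ, z τ * ((dn n σ τ : ℂ) / 2 - (m : ℂ) / 4) =
      z τ * ((n τ : ℂ) / 2 - (m : ℂ) / 4) + ((if τ = σ then -(z σ / 2) else 0) +
        (if τ = cj σ then z (cj σ) / 2 else 0)) := by
    intro τ
    by_cases h2 : τ = σ
    · subst h2
      rw [dn_self, if_pos rfl, if_neg hσ.symm, Nat.cast_sub h0, Nat.cast_one]
      ring
    · by_cases h3 : τ = cj σ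
      · subst h3
        rw [dn_cj n hσ, if_neg h2, if_pos rfl, Nat.cast_add, Nat.cast_one]
        ring
      · rw [dn_other n h2 h3, if_neg h2, if_neg h3]
        ring
  rw [Finset.sum_congr rfl fun τ _ => h1 τ, Finset.sum_add_distrib, Finset.sum_add_distrib,
    Finset.sum_ite_eq' Finset.univ σ, Finset.sum_ite_eq' Finset.univ (cj σ),
    if_pos (Finset.mem_univ _), if_pos (Finset.mem_univ _), hz]
  ring

end dn

section ops

variable {V : Type} [AddCommGroup V] [Module ℂ V] {K : Type} [Field K] [NumberField K] {m : ℕ}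
  {c : K →+* K} {h : Matrix (Fin m) (Fin m) K} {t : Fin m → K → Module.End ℂ V}

lemma so_cen [DecidableEq (K →+* ℂ)] (S : CMR c h t) (σ : K →+* ℂ) : IsCen t (so h t σ)
    (fun τ => (if τ = σ then 1 else 0) - (if τ = cj σ then 1 else 0)) := by
  refine ⟨so_mem S σ, fun τ x => ?_⟩
  rw [so_act S, Matrix.smul_mulVec, Matrix.one_mulVec, map_smul]

/-- the eigenvalue of the number operator -/
lemma sum_po [DecidableEq (K →+* ℂ)] (S : CMR c h t) {n : (K →+* ℂ) → ℕ}
    (hn : ∀ σ, n σ + n (cj σ) = m) {v : V}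
    (hv : CE t (fun σ => (n σ : ℂ) / 2 - (m : ℂ) / 4) v) (σ : K →+* ℂ) :
    ∑ a, ts t σ a (fo h t σ a v) = (n σ : ℂ) • v := by
  have h1 := hv _ _ (so_cen S σ)
  have h2 : ∑ τ : K →+* ℂ, (((if τ = σ then (1 : ℂ) else 0) - (if τ = cj σ then 1 else 0)) *
      ((n τ : ℂ) / 2 - (m : ℂ) / 4)) = (n σ : ℂ) - (m : ℂ) / 2 := by
    simp only [sub_mul, ite_mul, one_mul, zero_mul]
    rw [Finset.sum_sub_distrib, Finset.sum_ite_eq' Finset.univ σ,
      Finset.sum_ite_eq' Finset.univ (cj σ), if_pos (Finset.mem_univ _),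
      if_pos (Finset.mem_univ _)]
    have h3 : ((n σ : ℂ)) + (n (cj σ) : ℂ) = m := by
      rw [← Nat.cast_add, hn σ]
    rw [← h3]
    ring
  have h4 : ∑ a, ts t σ a (fo h t σ a v) = so h t σ v + ((m : ℂ) / 2) • v := by
    rw [so, LinearMap.sub_apply, LinearMap.smul_apply, Module.End.one_apply, sub_add_cancel,
      LinearMap.sum_apply]
    rfl
  rw [h4, h1, ← add_smul]
  congr 1
  rw [h2]
  ring

/-- the operators of the dual place lower the type -/
lemma ce_dn [Nontrivial V] [DecidableEq (K →+* ℂ)] (S : CMR c h t) (hm : 0 < m)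
    {n : (K →+* ℂ) → ℕ} {v : V} (hv : CE t (fun σ => (n σ : ℂ) / 2 - (m : ℂ) / 4) v)
    {σ : K →+* ℂ} (h0 : 0 < n σ) (b : Fin m) :
    CE t (fun τ => (dn n σ τ : ℂ) / 2 - (m : ℂ) / 4) (ts t (cj σ) b v) := by
  intro Z z hZ
  have h1 := hZ.2 (cj σ) (Pi.single b 1)
  rw [Matrix.smul_mulVec, Matrix.one_mulVec, map_smul, tau_single] at h1
  have h2 : Z (ts t (cj σ) b v) = ts t (cj σ) b (Z v) + z (cj σ) • ts t (cj σ) b v := by
    have h3 := LinearMap.congr_fun h1 v
    rw [LinearMap.sub_apply, Module.End.mul_apply, Module.End.mul_apply,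
      LinearMap.smul_apply] at h3
    rw [← h3]
    abel
  rw [h2, hv Z z hZ, map_smul, ← add_smul,
    dn_scal (S.cm σ) h0 (z_skew S hm hZ σ)]

end ops

end Mdvx

open Mdvx Evax in
/-- **MDV** -/
theorem thm_Mdv (hEva : St_Eva) : St_Mdv := by
  classical
  intro V _ _ _ K _ _ c m h t S hm U hU hmid
  rcases subsingleton_or_nontrivial V with hV | hV
  · exact Subsingleton.elim _ _
  have key : ∀ (N : ℕ) (n : (K →+* ℂ) → ℕ), (∀ σ, n σ + n (cj σ) = m) →
      ∑ σ, (n σ - m / 2) = N → ∀ v : V, CE t (fun σ => (n σ : ℂ) / 2 - (m : ℂ) / 4) v →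
      v ∈ U := by
    intro N
    induction N using Nat.strong_induction_on with
    | _ N ih =>
      intro n hn hN v hv
      by_cases h1 : ∀ σ, n σ ≤ m / 2
      · apply hmid
        intro Z z hZ
        rw [hv Z z hZ]
        congr 1
        refine Finset.sum_congr rfl fun σ _ => ?_
        have h2 : n σ + n σ = m := by
          have h3 := h1 σ
          have h4 := h1 (cj σ)
          have h5 := hn σ
          obtain ⟨r, hr⟩ := hm
          omega
        have h3 : (n σ : ℂ) + (n σ : ℂ) = (m : ℂ) := by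
          rw [← Nat.cast_add, h2]
        rw [← h3]
        ring
      · push Not at h1
        obtain ⟨σ, hσ⟩ := h1
        have h0 : 0 < n σ := lt_of_le_of_lt (Nat.zero_le _) hσ
        have hm0 : 0 < m := by
          have := hn σ
          omega
        have h2 : ∀ b, ts t (cj σ) b v ∈ U := by
          intro b
          exact ih _ (by rw [← hN]; exact dn_sum hn (S.cm σ) hσ hm) (dn n σ)
            (dn_add hn (S.cm σ) h0) rfl _ (ce_dn S hm0 hv h0 b)
        have h3 : ∀ a, fo h t σ a v ∈ U := by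
          intro a
          rw [fo, tau_apply, LinearMap.sum_apply]
          exact Submodule.sum_mem _ fun b _ => Submodule.smul_mem _ _ (h2 b)
        have h4 : (n σ : ℂ) • v ∈ U := by
          rw [← sum_po S hn hv σ]
          exact Submodule.sum_mem _ fun a _ => hU _ _ _ (h3 a)
        have h5 : v = (n σ : ℂ)⁻¹ • ((n σ : ℂ) • v) := by
          rw [smul_smul, inv_mul_cancel₀ (Nat.cast_ne_zero.mpr h0.ne'), one_smul]
        rw [h5]
        exact Submodule.smul_mem _ _ h4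
  rw [eq_top_iff, ← hEva V K c m h t S, Submodule.span_le]
  rintro v ⟨n, hn, hv⟩
  exact key _ n hn rfl v hv

end Pool.Agent.KTW
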