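import Pool.Agent.KTW.StT
import Pool.Agent.KSE.HMainC

/-!
# KTW [Ncl]: a non-compact piece is not linked with a compact one
-/

set_option autoImplicit false

open scoped ComplexConjugate

namespace Pool.Agent.KTW

open Module Matrix NumberField Pool.Agent.Helper7 Pool.Agent.KS Pool.Agent.Ball Pool.Agent.KSE
  Pool.Agent.Helper28.GPC Pool.Agent.K3P Pool.Agent.KTP
open Pool.Agent.KQ4 (en cq cf QP)

namespace Nclx

section mat

variable {m : ℕ}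

lemma mapR_brk (Z' Z : Matrix (Fin m) (Fin m) ℝ) :
    (Z' * Z - Z * Z' - (2 : ℝ) • Z).map ((↑) : ℝ → ℂ) =
      Z'.map ((↑) : ℝ → ℂ) * Z.map ((↑) : ℝ → ℂ) - Z.map ((↑) : ℝ → ℂ) * Z'.map ((↑) : ℝ → ℂ) -
        (2 : ℂ) • Z.map ((↑) : ℝ → ℂ) := by
  ext a b
  simp [Matrix.mul_apply]

lemma mapR_skw (Z G : Matrix (Fin m) (Fin m) ℝ) :
    (Zᵀ * G + G * Z).map ((↑) : ℝ → ℂ) =
      (Z.map ((↑) : ℝ → ℂ))ᵀ * G.map ((↑) : ℝ → ℂ) + G.map ((↑) : ℝ → ℂ) * Z.map ((↑) : ℝ → ℂ) := by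
  ext a b
  simp [Matrix.mul_apply]

lemma mapR_inj {A : Matrix (Fin m) (Fin m) ℝ} (h : A.map ((↑) : ℝ → ℂ) = 0) : A = 0 := by
  ext a b
  have h1 := congrFun (congrFun h a) b
  simpa using h1

lemma real_of_conj {X : Matrix (Fin m) (Fin m) ℂ} (h : X = X.map conj) :
    (X.map Complex.re).map ((↑) : ℝ → ℂ) = X := by
  ext a b
  have h1 : X a b = conj (X a b) := congrFun (congrFun h a) b
  show (((X a b).re : ℝ) : ℂ) = X a b
  exact Complex.conj_eq_iff_re.1 h1.symm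

lemma conj_map_real (Z : Matrix (Fin m) (Fin m) ℝ) :
    (Z.map ((↑) : ℝ → ℂ)).map conj = Z.map ((↑) : ℝ → ℂ) := by
  ext a b
  show conj ((Z a b : ℝ) : ℂ) = ((Z a b : ℝ) : ℂ)
  exact Complex.conj_ofReal _

lemma cs_scalar (hm : m = 2) (r : ℂ) : cs (r • (1 : Matrix (Fin m) (Fin m) ℂ)) = 0 := by
  subst hm
  funext k
  fin_cases k <;> simp [cs, en]

lemma scalar_of_trz {X : Matrix (Fin m) (Fin m) ℂ} (h : trz X = 0) :
    X = (X.trace / m) • (1 : Matrix (Fin m) (Fin m) ℂ) := sub_eq_zero.1 h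

lemma conj_scalar {C X : Matrix (Fin m) (Fin m) ℂ} (hC : IsUnit C.det) {r : ℂ}
    (h : X = r • (1 : Matrix (Fin m) (Fin m) ℂ)) : C⁻¹ * X * C = r • 1 := by
  rw [h, mul_smul_comm, mul_one, smul_mul_assoc, Matrix.nonsing_inv_mul _ hC]

end mat

section av

variable {K : Type} [Field K] {m : ℕ}

/-- the average of a family and its complex conjugate -/
noncomputable def av (M : (K →+* ℂ) → Matrix (Fin m) (Fin m) ℂ) (σ : K →+* ℂ) :
    Matrix (Fin m) (Fin m) ℂ := (1 / 2 : ℂ) • (M σ + (M (cj σ)).map conj)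

lemma cjcj' (σ : K →+* ℂ) : cj (cj σ) = σ := by
  ext x
  show conj (conj (σ x)) = σ x
  exact Complex.conj_conj _

lemma av_cj (M : (K →+* ℂ) → Matrix (Fin m) (Fin m) ℂ) (σ : K →+* ℂ) :
    av M (cj σ) = (av M σ).map conj := by
  unfold av
  rw [cjcj']
  ext a b
  simp only [Matrix.smul_apply, Matrix.add_apply, Matrix.map_apply, smul_eq_mul, map_mul, map_add,
    Complex.conj_conj, map_div₀, map_one]
  have h2 : conj (2 : ℂ) = 2 := Complex.conj_ofNat 2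
  rw [h2]
  ring

lemma av_val {M : (K →+* ℂ) → Matrix (Fin m) (Fin m) ℂ} {σ : K →+* ℂ} (hσ : cj σ = σ)
    {Z : Matrix (Fin m) (Fin m) ℝ} (h : M σ = Z.map ((↑) : ℝ → ℂ)) :
    av M σ = Z.map ((↑) : ℝ → ℂ) := by
  unfold av
  rw [hσ, h, conj_map_real, ← two_smul ℂ (Z.map ((↑) : ℝ → ℂ)), smul_smul]
  norm_num

end av

end Nclx

open Nclx in
/-- [NCL] -/
theorem thm_Ncl (hRfn : St_Rfn) (hRfc : St_Rfc) (hCzp : St_Czp) : St_Ncl := by
  classical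
  intro I K _ _ c m h σ₀ R hS i j hRe hmi hQ ε ε' hε hε' B τ C hB hC hτ1 hτ2 hlink
  have hr : cj (σ₀ i) = σ₀ i := hRe.1 _
  have hGtr : (CoreR.GR (h i) (σ₀ i))ᵀ = CoreR.GR (h i) (σ₀ i) :=
    CoreR.GR_tr (hS.conj i) (hS.herm i) hr
  have hGmap : ∀ (l : I) (σ : K l →+* ℂ), cj σ = σ →
      (CoreR.GR (h l) σ).map ((↑) : ℝ → ℂ) = (h l).map σ := by
    intro l σ hσ
    ext a b
    exact CoreR.real_val hσ _
  have hBG : Bᵀ * (CoreR.GR (h i) (σ₀ i)).map ((↑) : ℝ → ℂ) * B = 1 := by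
    rw [hGmap i _ hr]
    exact hB.2 hr
  obtain ⟨Z', Z, hZ', hZ, hZ1, hZ2⟩ := hRfn (m i) hmi _ hGtr hRe.2.1 B hBG ε hε
  -- elements of the Lie algebra
  have hmem : ∀ Y : Matrix (Fin (m i)) (Fin (m i)) ℝ,
      Yᵀ * CoreR.GR (h i) (σ₀ i) + CoreR.GR (h i) (σ₀ i) * Y = 0 →
      Y.map ((↑) : ℝ → ℂ) ∈ Lg (h i) (σ₀ i) := by
    intro Y hY
    unfold Lg
    rw [if_pos hr]
    show (Y.map ((↑) : ℝ → ℂ))ᵀ * (h i).map (σ₀ i) + (h i).map (σ₀ i) * Y.map ((↑) : ℝ → ℂ) = 0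
    rw [← hGmap i _ hr, ← mapR_skw, hY]
    ext a b
    simp
  -- real elements of `R`
  have hel : ∀ Y : Matrix (Fin (m i)) (Fin (m i)) ℝ,
      Yᵀ * CoreR.GR (h i) (σ₀ i) + CoreR.GR (h i) (σ₀ i) * Y = 0 →
      ∃ M ∈ R, M i (σ₀ i) = Y.map ((↑) : ℝ → ℂ) ∧
        ∀ (l : I) (σ : K l →+* ℂ), M l (cj σ) = (M l σ).map conj := by
    intro Y hY
    obtain ⟨M₀, hM₀, h1, -⟩ := hS.one i (σ₀ i) _ (hmem Y hY)
    refine ⟨fun l => av (M₀ l), ?_, av_val hr h1, fun l σ => av_cj _ _⟩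
    exact hS.smul (1 / 2 : ℂ) _ (hS.add _ hM₀ _ (hS.tw _ hM₀ starRingAut))
  obtain ⟨M', hM', hMi', hMc'⟩ := hel Z' hZ'
  obtain ⟨M, hM, hMi, hMc⟩ := hel Z hZ
  have hN : M' * M - M * M' + (-2 : ℂ) • M ∈ R :=
    hS.add _ (hS.br _ hM' _ hM) _ (hS.smul (-2) _ hM)
  have hNv : ∀ (l : I) (σ : K l →+* ℂ), (M' * M - M * M' + (-2 : ℂ) • M) l σ =
      M' l σ * M l σ - M l σ * M' l σ - (2 : ℂ) • M l σ := by
    intro l σ
    show M' l σ * M l σ - M l σ * M' l σ + (-2 : ℂ) • M l σ = _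
    rw [neg_smul, sub_eq_add_neg _ ((2 : ℂ) • M l σ)]
  have hmi2 : m i ≠ 2 := by omega
  have hczi : ∀ X : Matrix (Fin (m i)) (Fin (m i)) ℂ, cz ε B X = cq ε (B⁻¹ * X * B) := by
    intro X
    unfold cz
    rw [if_neg hmi2]
  have hN0 : cz ε' C ((M' * M - M * M' + (-2 : ℂ) • M) j τ) = 0 := by
    rw [← hlink _ hN, hczi, hNv, hMi', hMi, ← mapR_brk]
    exact hZ1
  rw [hNv] at hN0
  have hfin : cz ε' C (M j τ) ≠ 0 := by
    intro h0
    rw [← hlink _ hM, hczi, hMi] at h0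
    exact hZ2 h0
  apply hfin
  rcases hQ with ⟨hRj, hmj⟩ | ⟨hCj, hmj⟩
  · -- the real case
    have hrj : cj τ = τ := hRj.1 τ
    have hmj2 : m j ≠ 2 := by omega
    have hczj : ∀ X : Matrix (Fin (m j)) (Fin (m j)) ℂ, cz ε' C X = cq ε' (C⁻¹ * X * C) := by
      intro X
      unfold cz
      rw [if_neg hmj2]
    have hre : ∀ M₁ ∈ R, (∀ (l : I) (σ : K l →+* ℂ), M₁ l (cj σ) = (M₁ l σ).map conj) →
        ((M₁ j τ).map Complex.re).map ((↑) : ℝ → ℂ) = M₁ j τ ∧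
        ((M₁ j τ).map Complex.re)ᵀ * CoreR.GR (h j) τ +
          CoreR.GR (h j) τ * (M₁ j τ).map Complex.re = 0 := by
      intro M₁ hM₁ hc
      have h1 : ((M₁ j τ).map Complex.re).map ((↑) : ℝ → ℂ) = M₁ j τ := by
        apply real_of_conj
        have h2 := hc j τ
        rw [hrj] at h2
        exact h2
      refine ⟨h1, ?_⟩
      apply mapR_inj
      rw [mapR_skw, h1, hGmap j τ hrj]
      have h3 := hS.skew M₁ hM₁ j τ
      rw [hrj] at h3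
      exact h3
    obtain ⟨a1, a2⟩ := hre M hM hMc
    obtain ⟨b1, b2⟩ := hre M' hM' hMc'
    have hdef : Definite ((CoreR.GR (h j) τ).map ((↑) : ℝ → ℂ)) := by
      rw [hGmap j τ hrj]
      have h4 := hRj.2.2.1 τ hτ1
      rw [hrj] at h4
      exact h4
    have hCG : Cᵀ * (CoreR.GR (h j) τ).map ((↑) : ℝ → ℂ) * C = 1 := by
      rw [hGmap j τ hrj]
      exact hC.2 hrj
    have h5 := hRfc.1 (m j) hmj _ (CoreR.GR_tr (hS.conj j) (hS.herm j) hrj) hdef C hCG ε' hε'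
      _ _ b2 a2 (by
        rw [mapR_brk, a1, b1, ← hczj]
        exact hN0)
    rw [a1, ← hczj] at h5
    exact h5
  · -- the complex case
    have hczj : ∀ (D X : Matrix (Fin (m j)) (Fin (m j)) ℂ), cz ε' D X = cs (D⁻¹ * X * D) := by
      intro D X
      unfold cz
      rw [if_pos hmj]
    have hne : cj τ ≠ τ := hCj.1 τ
    have hm4 : m j ≠ 4 := by omega
    have hsk : ∀ X : Matrix (Fin (m j)) (Fin (m j)) ℂ, IsSkw (h j) τ X := fun X hX =>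
      absurd hX hne
    have hfr1 : IsFra (h j) τ (1 : Matrix (Fin (m j)) (Fin (m j)) ℂ) :=
      ⟨by rw [Matrix.det_one]; exact isUnit_one, fun hX => absurd hX hne⟩
    have hsc : ∀ D X : Matrix (Fin (m j)) (Fin (m j)) ℂ, IsFra (h j) τ D → cz ε' D X = 0 →
        X = (X.trace / (m j : ℂ)) • (1 : Matrix (Fin (m j)) (Fin (m j)) ℂ) := by
      intro D X hD hX
      obtain ⟨-, -, -, -, h5, -⟩ := hCzp (K j) (c j) (m j) (h j) (σ₀ j) (hS.conj j) (hS.herm j)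
        (hS.nd j) (Or.inr ⟨hCj, hmj⟩) ε' hε' τ D hD
      exact scalar_of_trz (h5 X (hsk X) hX fun h6 => absurd h6 hm4)
    have hN1 := hsc C _ hC hN0
    have hN2 : cs (M' j τ * M j τ - M j τ * M' j τ - (2 : ℂ) • M j τ) = 0 := by
      rw [hN1]
      exact cs_scalar hmj _
    have hsH : ∀ M₁ ∈ R, (∀ (l : I) (σ : K l →+* ℂ), M₁ l (cj σ) = (M₁ l σ).map conj) →
        (M₁ j τ)ᴴ * (h j).map (cj τ) + (h j).map (cj τ) * M₁ j τ = 0 := by
      intro M₁ hM₁ hc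
      have h3 := hS.skew M₁ hM₁ j (cj τ)
      rw [cjcj', hc j τ] at h3
      exact h3
    have h6 := hRfc.2 (m j) hmj ((h j).map (cj τ)) (hCj.2.2.1 τ hτ1 hτ2) (M' j τ) (M j τ)
      (hsH M' hM' hMc') (hsH M hM hMc) hN2
    have h7 : cz ε' (1 : Matrix (Fin (m j)) (Fin (m j)) ℂ) (M j τ) = 0 := by
      rw [hczj, inv_one, one_mul, mul_one]
      exact h6
    rw [hczj, conj_scalar hC.1 (hsc 1 _ hfr1 h7)]
    exact cs_scalar hmj _

end Pool.Agent.KTW
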