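import Pool.Agent.KTW.StX

/-!
# KTW PMD: the projector onto the middle part is a de Rham-Betti endomorphism
-/

set_option autoImplicit false

open scoped ComplexConjugate

namespace Pool.Agent.KTW

open Module Matrix NumberField Pool.Agent.Helper7 Pool.Agent.KS Pool.Agent.Ball Pool.Agent.KSE
  Pool.Agent.Helper28.GPC Pool.Agent.K3P Pool.Agent.KTP
open Pool.Agent.GPC (AbVar)

namespace Pmdx

/-- a polynomial with value one at zero which kills the nonzero elements of a finite set of algebraic numbers -/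
lemma exists_q (F : Finset ℂ) (hF : ∀ l ∈ F, IsAlgebraic ℚ l) :
    ∃ q : Polynomial ℚ, q.eval 0 = 1 ∧ ∀ l ∈ F, l ≠ 0 → Polynomial.aeval l q = 0 := by
  classical
  let G : Finset ℂ := F.filter (fun l => l ≠ 0)
  let Q : Polynomial ℚ := ∏ l ∈ G, minpoly ℚ l
  have hQ : Q.eval 0 ≠ 0 := by
    rw [Polynomial.eval_prod]
    refine Finset.prod_ne_zero_iff.2 fun l hl => ?_
    obtain ⟨h1, h2⟩ := Finset.mem_filter.1 hl
    intro h3
    have h4 : (minpoly ℚ l).coeff 0 ≠ 0 := minpoly.coeff_zero_ne_zero (hF l h1).isIntegral h2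
    rw [Polynomial.coeff_zero_eq_eval_zero] at h4
    exact h4 h3
  refine ⟨Polynomial.C (Q.eval 0)⁻¹ * Q, ?_, ?_⟩
  · rw [Polynomial.eval_mul, Polynomial.eval_C, inv_mul_cancel₀ hQ]
  · intro l hl h0
    have h1 : Polynomial.aeval l Q = 0 := by
      show Polynomial.aeval l (∏ l ∈ G, minpoly ℚ l) = 0
      rw [map_prod]
      exact Finset.prod_eq_zero (Finset.mem_filter.2 ⟨hl, h0⟩) (minpoly.aeval ℚ l)
    rw [map_mul, h1, mul_zero]

/-- polynomials in an operator on an eigenvector -/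
lemma aeval_eig {κ : Type} (f : Module.End ℂ (κ → ℂ)) (v : κ → ℂ) (l : ℂ)
    (h : f v = l • v) (q : Polynomial ℚ) :
    (Polynomial.aeval f q) v = (Polynomial.aeval l q) • v := by
  induction q using Polynomial.induction_on' with
  | add p q hp hq => rw [map_add, map_add, LinearMap.add_apply, hp, hq, add_smul]
  | monomial n a =>
    rw [Polynomial.aeval_monomial, Polynomial.aeval_monomial]
    have h1 : ∀ n : ℕ, (f ^ n) v = l ^ n • v := by
      intro n
      induction n with
      | zero => rw [pow_zero, pow_zero, one_smul]; rfl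
      | succ n ih =>
        rw [pow_succ', Module.End.mul_apply, ih, map_smul, h, smul_smul, pow_succ]
    rw [Module.End.mul_apply, h1, map_smul]
    have h2 : (algebraMap ℚ (Module.End ℂ (κ → ℂ)) a) v = (algebraMap ℚ ℂ a) • v := by
      rw [IsScalarTower.algebraMap_apply ℚ ℂ (Module.End ℂ (κ → ℂ))]
      rfl
    rw [h2, smul_smul, mul_comm]

/-- products of operators on a common eigenvector -/
lemma prod_one {V : Type} [AddCommGroup V] [Module ℂ V] (l : List (Module.End ℂ V)) (v : V)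
    (h : ∀ f ∈ l, f v = v) : l.prod v = v := by
  induction l with
  | nil => rfl
  | cons f l ih =>
    rw [List.prod_cons, Module.End.mul_apply, ih fun g hg => h g (List.mem_cons_of_mem _ hg)]
    exact h f List.mem_cons_self

lemma prod_zero {V : Type} [AddCommGroup V] [Module ℂ V] (l : List (Module.End ℂ V)) (v : V)
    (h : ∀ f ∈ l, ∃ c : ℂ, f v = c • v) (h0 : ∃ f ∈ l, f v = 0) : l.prod v = 0 := by
  induction l with
  | nil =>
    obtain ⟨f, hf, -⟩ := h0
    exact absurd hf List.not_mem_nil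
  | cons f l ih =>
    rw [List.prod_cons, Module.End.mul_apply]
    have key : ∀ l : List (Module.End ℂ V), (∀ f ∈ l, ∃ c : ℂ, f v = c • v) →
        ∃ c : ℂ, l.prod v = c • v := by
      intro l hl
      induction l with
      | nil => exact ⟨1, by rw [one_smul]; rfl⟩
      | cons g l ih =>
        obtain ⟨c, hc⟩ := ih fun f hf => hl f (List.mem_cons_of_mem _ hf)
        obtain ⟨d, hd⟩ := hl g List.mem_cons_self
        exact ⟨c * d, by rw [List.prod_cons, Module.End.mul_apply, hc, map_smul, hd, smul_smul]⟩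
    obtain ⟨g, hg, hg0⟩ := h0
    rcases List.mem_cons.1 hg with rfl | hg
    · obtain ⟨c, hc⟩ := key l fun f hf => h f (List.mem_cons_of_mem _ hf)
      rw [hc, map_smul, hg0, smul_zero]
    · rw [ih (fun f hf => h f (List.mem_cons_of_mem _ hf)) ⟨g, hg, hg0⟩, map_zero]

end Pmdx

open Pmdx

theorem thm_Pmd (hEva : St_Eva) (hDel : St_Del) : St_Pmd := by
  classical
  intro κ _ _ ϖ P K _ _ c m h t S hcm
  obtain ⟨hD1, hD2⟩ := hDel κ ϖ P K c m h t S hcm
  have hcc : ∀ y : K, c (c y) = y := by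
    intro y
    obtain ⟨σ⟩ : Nonempty (K →+* ℂ) := inferInstance
    apply σ.injective
    rw [← S.conj σ (c y)]
    have h1 : cj σ (c y) = conj (σ (c y)) := rfl
    have h2 : cj σ y = conj (σ y) := rfl
    rw [h1, ← S.conj σ y, h2, Complex.conj_conj]
  let x : Fin (finrank ℚ K) → K := fun k => bas K k - c (bas K k)
  have hx : ∀ k, c (x k) = -x k := fun k => by
    show c (bas K k - c (bas K k)) = -(bas K k - c (bas K k))
    rw [map_sub, hcc, neg_sub]
  choose δ hδ hδE using fun k => hD1 (x k) (hx k)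
  -- the eigenvalues
  let ev : Fin (finrank ℚ K) → ((K →+* ℂ) → ℕ) → ℂ := fun k n =>
    ∑ σ : K →+* ℂ, σ (x k) * ((n σ : ℂ) / 2 - (m : ℂ) / 4)
  have hev : ∀ k n, IsAlgebraic ℚ (ev k n) := by
    intro k n
    have h1 : ∀ (σ : K →+* ℂ) (z : K), IsAlgebraic ℚ (σ z) := fun σ z =>
      (Algebra.IsAlgebraic.isAlgebraic (R := ℚ) z).algHom σ.toRatAlgHom
    refine (IsIntegral.sum _ fun σ _ => ((h1 σ _).mul ?_).isIntegral).isAlgebraic
    have h2 : ((n σ : ℂ) / 2 - (m : ℂ) / 4) = algebraMap ℚ ℂ ((n σ : ℚ) / 2 - (m : ℚ) / 4) := by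
      push_cast
      simp
    rw [h2]
    exact isAlgebraic_algebraMap _
  let F : Fin (finrank ℚ K) → Finset ℂ := fun k =>
    Finset.univ.image (fun n : (K →+* ℂ) → Fin (m + 1) => ev k (fun σ => (n σ : ℕ)))
  have hF : ∀ k, ∀ n : (K →+* ℂ) → ℕ, (∀ σ, n σ + n (cj σ) = m) → ev k n ∈ F k := by
    intro k n hn
    refine Finset.mem_image.2 ⟨fun σ => ⟨n σ, by have := hn σ; omega⟩, Finset.mem_univ _, rfl⟩
  choose q hq0 hq using fun k => exists_q (F k) (by
    intro l hl
    obtain ⟨n, -, rfl⟩ := Finset.mem_image.1 hl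
    exact hev k _)
  let f : Fin (finrank ℚ K) → Module.End ℂ (κ → ℂ) := fun k => Polynomial.aeval (δ k) (q k)
  let p : Module.End ℂ (κ → ℂ) := (List.ofFn f).prod
  -- endomorphisms form an algebra
  let E : Subalgebra ℚ (Module.End ℂ (κ → ℂ)) :=
    { carrier := {g | (∀ v ∈ P.Q, g v ∈ P.Q) ∧ ∀ σ a b,
        g * (ts t σ a * ts t (cj σ) b) = ts t σ a * ts t (cj σ) b * g}
      mul_mem' := by
        rintro g g' ⟨h1, h2⟩ ⟨h3, h4⟩
        exact ⟨fun v hv => h1 _ (h3 v hv), fun σ a b => by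
          rw [mul_assoc, h4, ← mul_assoc, h2, mul_assoc]⟩
      one_mem' := ⟨fun v hv => hv, fun σ a b => by rw [one_mul, mul_one]⟩
      add_mem' := by
        rintro g g' ⟨h1, h2⟩ ⟨h3, h4⟩
        exact ⟨fun v hv => P.Q.add_mem (h1 v hv) (h3 v hv), fun σ a b => by
          rw [add_mul, mul_add, h2, h4]⟩
      zero_mem' := ⟨fun v hv => P.Q.zero_mem, fun σ a b => by rw [zero_mul, mul_zero]⟩
      algebraMap_mem' := by
        intro r
        have e : algebraMap ℚ (Module.End ℂ (κ → ℂ)) r = (r : ℂ) • 1 := by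
          rw [IsScalarTower.algebraMap_apply ℚ ℂ (Module.End ℂ (κ → ℂ)), Algebra.algebraMap_eq_smul_one]
          rfl
        refine ⟨fun v hv => ?_, fun σ a b => ?_⟩
        · rw [e]
          exact P.rat_smul_mem r v hv
        · exact (Algebra.commutes r _) }
  have hδm : ∀ k, δ k ∈ E := fun k => (S.cent (δ k)).1 (hδE k)
  have hfm : ∀ k, f k ∈ E := by
    intro k
    have h1 : Polynomial.aeval (δ k) (q k) =
        ((Polynomial.aeval (⟨δ k, hδm k⟩ : E) (q k) : E) : Module.End ℂ (κ → ℂ)) := by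
      rw [← Subalgebra.coe_val E, ← Polynomial.aeval_algHom_apply]
      rfl
    show Polynomial.aeval (δ k) (q k) ∈ E
    rw [h1]
    exact Subtype.coe_prop _
  have hpm : p ∈ E := by
    refine Subalgebra.list_prod_mem E fun g hg => ?_
    obtain ⟨k, rfl⟩ := (List.mem_ofFn' f g).1 hg
    exact hfm k
  -- eigenvectors
  have hfe : ∀ k v l, δ k v = l • v → f k v = (Polynomial.aeval l (q k)) • v := fun k v l hl =>
    aeval_eig (δ k) v l hl (q k)
  have h00 : ∀ k, Polynomial.aeval (0 : ℂ) (q k) = 1 := by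
    intro k
    have h1 := Polynomial.aeval_algebraMap_apply ℂ (0 : ℚ) (q k)
    rw [map_zero] at h1
    rw [h1, Polynomial.coe_aeval_eq_eval, hq0, map_one]
  have hf0 : ∀ k v, δ k v = 0 → f k v = v := fun k v hv => by
    rw [hfe k v 0 (by rw [hv, zero_smul]), h00, one_smul]
  have hmid : ∀ v, (∀ k, δ k v = 0) → p v = v := fun v hv => by
    refine prod_one _ v fun g hg => ?_
    obtain ⟨k, rfl⟩ := (List.mem_ofFn' f g).1 hg
    exact hf0 k v (hv k)
  -- the middle part is a subspace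
  let W : Submodule ℂ (κ → ℂ) :=
    { carrier := {v | CE t (fun _ => 0) v}
      add_mem' := by
        intro u v hu hv Z z hZ
        rw [map_add, hu Z z hZ, hv Z z hZ, smul_add]
      zero_mem' := by
        intro Z z hZ
        rw [map_zero, smul_zero]
      smul_mem' := by
        intro a v hv Z z hZ
        rw [map_smul, hv Z z hZ, smul_comm] }
  refine ⟨p, (S.cent p).2 hpm, fun v => ?_, fun v hv => ?_⟩
  · have hspan := hEva (κ → ℂ) K c m h t ⟨S.conj, hcm, S.herm, S.nd, S.cliff⟩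
    have h1 : Submodule.span ℂ {v : κ → ℂ | ∃ n : (K →+* ℂ) → ℕ, (∀ σ, n σ + n (cj σ) = m) ∧
        CE t (fun σ => (n σ : ℂ) / 2 - (m : ℂ) / 4) v} ≤ W.comap p := by
      refine Submodule.span_le.2 ?_
      rintro v ⟨n, hn, hv⟩
      show CE t (fun _ => 0) (p v)
      have hδv : ∀ k, δ k v = ev k n • v := fun k => hv (δ k) _ (hδ k)
      by_cases h0 : ∀ k, ev k n = 0
      · have h2 : ∀ k, δ k v = 0 := fun k => by rw [hδv, h0, zero_smul]
        rw [hmid v h2]
        intro Z z hZ
        obtain ⟨d, δ', hδ', hZs⟩ := hD2 Z z hZ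
        have h3 : ∀ k, δ' k v = 0 := fun k => by
          have h4 : δ' k v = ev k n • v := hv (δ' k) _ (hδ' k)
          rw [h4, h0, zero_smul]
        rw [hZs, LinearMap.sum_apply]
        simp [h3]
      · push Not at h0
        obtain ⟨k, hk⟩ := h0
        have h2 : p v = 0 := by
          refine prod_zero _ v (fun g hg => ?_) ⟨f k, (List.mem_ofFn' f _).2 ⟨k, rfl⟩, ?_⟩
          · obtain ⟨j, rfl⟩ := (List.mem_ofFn' f g).1 hg
            exact ⟨_, hfe j v _ (hδv j)⟩
          · rw [hfe k v _ (hδv k), hq k _ (hF k n hn) hk, zero_smul]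
        rw [h2]
        exact W.zero_mem
    exact h1 (by rw [hspan]; exact Submodule.mem_top)
  · refine hmid v fun k => ?_
    rw [hv (δ k) _ (hδ k)]
    simp

end Pool.Agent.KTW
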