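import Pool.Agent.KTW.StU

/-!
# KTW, module POL: rational polynomials in commuting operators on forms (MP_bf54cf_ag)
-/

set_option autoImplicit false

namespace Pool.Agent.KTW

open Module Pool.Agent.Helper7

namespace Polx

variable {W : Type} [AddCommGroup W] [Module ℂ W] {d : ℕ}

/-- forms -/
abbrev MF (W : Type) [AddCommGroup W] [Module ℂ W] (d : ℕ) : Type :=
  MultilinearMap ℂ (fun _ : Fin d => W) ℂ

/-- the action on forms as a linear map -/
noncomputable def Dl (L : Module.End ℂ W) : Module.End ℂ (MF W d) where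
  toFun G := actForm L G
  map_add' G G' := by
    ext v
    rw [_root_.add_apply, actForm_apply, actForm_apply, actForm_apply, ← Finset.sum_add_distrib]
    rfl
  map_smul' c G := actForm_smul_right c L G

lemma Dl_apply (L : Module.End ℂ W) (G : MF W d) : Dl L G = actForm L G := rfl

lemma Dl_comm (L M : Module.End ℂ W) (h : L * M = M * L) :
    (Dl L : Module.End ℂ (MF W d)) * Dl M = Dl M * Dl L := by
  refine LinearMap.ext fun G => ?_
  have h1 := actForm_bracket L M G
  rw [← h, sub_self, actForm_zero] at h1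
  exact (sub_eq_zero.1 h1.symm)

lemma aeval_mono {X : Type} [AddCommGroup X] [Module ℂ X] (T : Module.End ℂ X) (n : ℕ) (c : ℂ)
    (G : X) : Polynomial.aeval T (Polynomial.monomial n c) G = c • (T ^ n) G := by
  rw [Polynomial.aeval_monomial]
  rfl

lemma aeval_mem {X : Type} [AddCommGroup X] [Module ℂ X] (𝒢 : Set X) (T : Module.End ℂ X)
    (h1 : ∀ G ∈ 𝒢, ∀ G' ∈ 𝒢, G + G' ∈ 𝒢) (h2 : ∀ q : ℚ, ∀ G ∈ 𝒢, (q : ℂ) • G ∈ 𝒢)
    (h3 : ∀ G ∈ 𝒢, T G ∈ 𝒢) (p : Polynomial ℚ) (G : X) (hG : G ∈ 𝒢) :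
    Polynomial.aeval T (p.map (algebraMap ℚ ℂ)) G ∈ 𝒢 := by
  have hpow : ∀ n : ℕ, (T ^ n) G ∈ 𝒢 := by
    intro n
    induction n with
    | zero => simpa using hG
    | succ n ih =>
      rw [pow_succ']
      exact h3 _ ih
  induction p using Polynomial.induction_on' with
  | add p q hp hq =>
    rw [Polynomial.map_add, map_add, LinearMap.add_apply]
    exact h1 _ hp _ hq
  | monomial n c =>
    rw [Polynomial.map_monomial, aeval_mono]
    exact h2 c _ (hpow n)

lemma aeval_comm {X : Type} [AddCommGroup X] [Module ℂ X] (T S : Module.End ℂ X)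
    (h : S * T = T * S) (P : Polynomial ℂ) :
    S * Polynomial.aeval T P = Polynomial.aeval T P * S := by
  induction P using Polynomial.induction_on' with
  | add p q hp hq => rw [map_add, mul_add, add_mul, hp, hq]
  | monomial n c =>
    rw [Polynomial.aeval_monomial]
    have h1 : Commute S (T ^ n) := (show Commute S T from h).pow_right n
    have h2 : Commute S (algebraMap ℂ (Module.End ℂ X) c) := (Algebra.commutes c S).symm
    exact h2.mul_right h1

lemma eig (L : Module.End ℂ W) (u : Fin d → W) (z : Fin d → ℂ) (hu : ∀ r, L (u r) = z r • u r)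
    (G : MF W d) : (Dl L G) u = (∑ r, z r) * G u := by
  rw [Dl_apply, actForm_apply, Finset.sum_mul]
  refine Finset.sum_congr rfl fun r _ => ?_
  rw [hu r, MultilinearMap.map_update_smul, Function.update_eq_self, smul_eq_mul]

lemma eig_pow (L : Module.End ℂ W) (u : Fin d → W) (z : Fin d → ℂ)
    (hu : ∀ r, L (u r) = z r • u r) (n : ℕ) (G : MF W d) :
    ((Dl L ^ n : Module.End ℂ (MF W d)) G) u = (∑ r, z r) ^ n * G u := by
  induction n with
  | zero => simp
  | succ n ih =>
    rw [pow_succ', pow_succ', mul_assoc, ← ih]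
    exact eig L u z hu _

lemma eig_aeval (L : Module.End ℂ W) (u : Fin d → W) (z : Fin d → ℂ)
    (hu : ∀ r, L (u r) = z r • u r) (P : Polynomial ℂ) (G : MF W d) :
    (Polynomial.aeval (Dl L : Module.End ℂ (MF W d)) P G) u = P.eval (∑ r, z r) * G u := by
  induction P using Polynomial.induction_on' with
  | add p q hp hq =>
    rw [map_add, LinearMap.add_apply, _root_.add_apply, hp, hq, Polynomial.eval_add, add_mul]
  | monomial n c =>
    rw [aeval_mono, _root_.smul_apply, eig_pow L u z hu, Polynomial.eval_monomial, smul_eq_mul,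
      mul_assoc]

/-- a rational polynomial with value one at zero, vanishing at finitely many given nonzero
algebraic numbers -/
lemma exists_pol (E : Finset ℂ) (h : ∀ x ∈ E, IsAlgebraic ℚ x) (h0 : (0 : ℂ) ∉ E) :
    ∃ p : Polynomial ℚ, p.coeff 0 = 1 ∧ ∀ x ∈ E, (p.map (algebraMap ℚ ℂ)).eval x = 0 := by
  classical
  have hq0 : (∏ x ∈ E, minpoly ℚ x).coeff 0 ≠ 0 := by
    rw [Polynomial.coeff_zero_eq_eval_zero, Polynomial.eval_prod]
    refine Finset.prod_ne_zero_iff.2 fun x hx => ?_
    rw [← Polynomial.coeff_zero_eq_eval_zero]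
    refine minpoly.coeff_zero_ne_zero (h x hx).isIntegral ?_
    intro h1
    exact h0 (h1 ▸ hx)
  refine ⟨Polynomial.C ((∏ x ∈ E, minpoly ℚ x).coeff 0)⁻¹ * ∏ x ∈ E, minpoly ℚ x, ?_, ?_⟩
  · rw [Polynomial.coeff_C_mul, inv_mul_cancel₀ hq0]
  · intro x hx
    rw [Polynomial.map_mul, Polynomial.eval_mul, Polynomial.map_prod, Polynomial.eval_prod]
    have h1 : ((minpoly ℚ x).map (algebraMap ℚ ℂ)).eval x = 0 := by
      rw [Polynomial.eval_map_algebraMap]
      exact minpoly.aeval ℚ x
    have h2 : ∏ y ∈ E, ((minpoly ℚ y).map (algebraMap ℚ ℂ)).eval x = 0 :=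
      Finset.prod_eq_zero (f := fun y => ((minpoly ℚ y).map (algebraMap ℚ ℂ)).eval x) hx h1
    rw [h2, mul_zero]

lemma step [FiniteDimensional ℂ W] (L : Module.End ℂ W)
    (hL : Submodule.span ℂ {w : W | ∃ z : ℂ, IsAlgebraic ℚ z ∧ L w = z • w} = ⊤) :
    ∃ p : Polynomial ℚ, p.coeff 0 = 1 ∧ ∀ G : MF W d,
      Dl L (Polynomial.aeval (Dl L : Module.End ℂ (MF W d)) (p.map (algebraMap ℚ ℂ)) G) = 0 := by
  classical
  obtain ⟨ι, hι, b, hb⟩ : ∃ (ι : Type) (_ : Fintype ι) (b : Basis ι ℂ W),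
      ∀ i, ∃ z : ℂ, IsAlgebraic ℚ z ∧ L (b i) = z • b i := by
    have hb' := Basis.ofSpan_subset (K := ℂ) (V := W) hL.ge
    refine ⟨_, FiniteDimensional.fintypeBasisIndex (Basis.ofSpan (K := ℂ) (V := W) hL.ge),
      Basis.ofSpan (K := ℂ) (V := W) hL.ge, fun i => ?_⟩
    exact hb' (Set.mem_range_self i)
  choose y hy1 hy2 using hb
  obtain ⟨p, hp0, hp⟩ := exists_pol
    (((Finset.univ : Finset (Fin d → ι)).image fun s => ∑ r, y (s r)).erase 0)
    (fun x hx => by
      obtain ⟨s, -, rfl⟩ := Finset.mem_image.1 (Finset.mem_of_mem_erase hx)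
      refine Finset.sum_induction _ (fun x : ℂ => IsAlgebraic ℚ x) (fun _ _ h h' => h.add h')
        (isAlgebraic_zero) fun r _ => hy1 (s r))
    (fun hx => (Finset.ne_of_mem_erase hx) rfl)
  refine ⟨p, hp0, fun G => ?_⟩
  refine Basis.ext_multilinear (fun _ => b) fun s => ?_
  rw [eig L (fun r => b (s r)) (fun r => y (s r)) (fun r => hy2 (s r)),
    eig_aeval L (fun r => b (s r)) (fun r => y (s r)) (fun r => hy2 (s r))]
  by_cases h0 : ∑ r, y (s r) = 0
  · rw [h0, zero_mul]
    rfl
  · rw [hp _ (Finset.mem_erase.2 ⟨h0, Finset.mem_image.2 ⟨s, Finset.mem_univ _, rfl⟩⟩), zero_mul,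
      mul_zero]
    rfl

end Polx

/-- rational polynomials in commuting operators on forms -/
theorem thm_Pol : St_Pol := by
  intro W _ _ _ d A _ 𝒢 L hadd hsmul hact hcomm hspan G hG
  classical
  have key : ∀ S : Finset A, ∃ G' ∈ 𝒢, (∀ a ∈ S, actForm (L a) G' = 0) ∧
      ∀ (u : Fin d → W) (z : A → Fin d → ℂ), (∀ a r, L a (u r) = z a r • u r) →
        (∀ a, ∑ r, z a r = 0) → G' u = G u := by
    intro S
    induction S using Finset.induction_on with
    | empty => exact ⟨G, hG, fun a ha => absurd ha (Finset.notMem_empty a), fun _ _ _ _ => rfl⟩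
    | insert a S _ ih =>
      obtain ⟨G', hG', h1, h2⟩ := ih
      obtain ⟨p, hp0, hp⟩ := Polx.step (d := d) (L a) (hspan a)
      refine ⟨Polynomial.aeval (Polx.Dl (L a) : Module.End ℂ (Polx.MF W d))
        (p.map (algebraMap ℚ ℂ)) G', Polx.aeval_mem 𝒢 _ hadd hsmul (hact a) p G' hG', ?_, ?_⟩
      · intro a' ha'
        rcases Finset.mem_insert.1 ha' with rfl | ha'
        · exact hp G'
        · have h3 := Polx.aeval_comm (Polx.Dl (L a) : Module.End ℂ (Polx.MF W d))
            (Polx.Dl (L a')) (Polx.Dl_comm _ _ (hcomm a' a)) (p.map (algebraMap ℚ ℂ))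
          have h4 := LinearMap.congr_fun h3 G'
          have h5 : Polx.Dl (L a') G' = 0 := h1 a' ha'
          have h6 : ((Polynomial.aeval (Polx.Dl (L a) : Module.End ℂ (Polx.MF W d))
              (p.map (algebraMap ℚ ℂ)) : Module.End ℂ (Polx.MF W d)) *
                (Polx.Dl (L a') : Module.End ℂ (Polx.MF W d))) G' = 0 := by
            rw [Module.End.mul_apply, h5, map_zero]
          rw [h6] at h4
          exact h4
      · intro u z hz hz0
        rw [Polx.eig_aeval (L a) u (z a) (hz a), hz0 a, ← Polynomial.coeff_zero_eq_eval_zero,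
          Polynomial.coeff_map, hp0, map_one, one_mul]
        exact h2 u z hz hz0
  obtain ⟨G', hG', h1, h2⟩ := key Finset.univ
  exact ⟨G', hG', fun a => h1 a (Finset.mem_univ a), h2⟩

end Pool.Agent.KTW
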