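import Pool.Agent.KTW.StU

/-!
# KTW: products of multilinear forms in separate variables (helper98)

Module `Prd`: `thm_Prd : St_Prd`.
-/

set_option autoImplicit false
set_option linter.unusedSectionVars false

namespace Pool.Agent.KTW

open Module Matrix NumberField Pool.Agent.Helper7 Pool.Agent.KS Pool.Agent.Ball Pool.Agent.KSE
  Pool.Agent.Helper28.GPC Pool.Agent.K3P Pool.Agent.KTP

namespace Prdx

section gen

variable {W : Type} [AddCommGroup W] [Module ℂ W] {S : Type} [Fintype S] [DecidableEq S]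
  {κ : S → Type} {ι : Type} (e : (Σ s, κ s) ≃ ι)

/-- Changing the variable `e ⟨s, r⟩` changes only the block `s`. -/
theorem upd_same [DecidableEq ι] [∀ s, DecidableEq (κ s)] (u : ι → W) (s : S) (r : κ s) (x : W) :
    (fun r' => Function.update u (e ⟨s, r⟩) x (e ⟨s, r'⟩)) =
      Function.update (fun r' => u (e ⟨s, r'⟩)) r x := by
  funext r'
  by_cases h : r' = r
  · subst h; rw [Function.update_self, Function.update_self]
  · rw [Function.update_of_ne h, Function.update_of_ne]
    intro h1
    exact h (by simpa using e.injective h1)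

theorem upd_ne [DecidableEq ι] (u : ι → W) (s s' : S) (r : κ s) (x : W) (h : s' ≠ s) :
    (fun r' : κ s' => Function.update u (e ⟨s, r⟩) x (e ⟨s', r'⟩)) =
      fun r' => u (e ⟨s', r'⟩) := by
  funext r'
  rw [Function.update_of_ne]
  intro h1
  exact h (congrArg Sigma.fst (e.injective h1))

theorem prod_upd [DecidableEq ι] [∀ s, DecidableEq (κ s)]
    (G : ∀ s, MultilinearMap ℂ (fun _ : κ s => W) ℂ) (u : ι → W) (s : S) (r : κ s) (x : W) :
    ∏ s', G s' (fun r' => Function.update u (e ⟨s, r⟩) x (e ⟨s', r'⟩)) =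
      G s (Function.update (fun r' => u (e ⟨s, r'⟩)) r x) *
        ∏ s' ∈ Finset.univ.erase s, G s' fun r' => u (e ⟨s', r'⟩) := by
  rw [← Finset.mul_prod_erase Finset.univ _ (Finset.mem_univ s), upd_same]
  congr 1
  refine Finset.prod_congr rfl fun s' hs' => ?_
  rw [upd_ne e u s s' r x (Finset.ne_of_mem_erase hs')]

/-- The product of forms in separate variables. -/
noncomputable def prodF (G : ∀ s, MultilinearMap ℂ (fun _ : κ s => W) ℂ) :
    MultilinearMap ℂ (fun _ : ι => W) ℂ where
  toFun u := ∏ s, G s fun r => u (e ⟨s, r⟩)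
  map_update_add' := by
    intro _ u i x y
    classical
    obtain ⟨⟨s, r⟩, rfl⟩ := e.surjective i
    rw [prod_upd, prod_upd, prod_upd, MultilinearMap.map_update_add, add_mul]
  map_update_smul' := by
    intro _ u i c x
    classical
    obtain ⟨⟨s, r⟩, rfl⟩ := e.surjective i
    rw [prod_upd, prod_upd, MultilinearMap.map_update_smul, smul_eq_mul, smul_eq_mul, mul_assoc]

theorem prodF_apply (G : ∀ s, MultilinearMap ℂ (fun _ : κ s => W) ℂ) (u : ι → W) :
    prodF e G u = ∏ s, G s fun r => u (e ⟨s, r⟩) := rfl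

theorem actForm_prodF [Fintype ι] [DecidableEq ι] [∀ s, Fintype (κ s)] [∀ s, DecidableEq (κ s)]
    (G : ∀ s, MultilinearMap ℂ (fun _ : κ s => W) ℂ) (L : Module.End ℂ W) (u : ι → W) :
    actForm L (prodF e G) u = ∑ s, actForm L (G s) (fun r => u (e ⟨s, r⟩)) *
      ∏ s' ∈ Finset.univ.erase s, G s' fun r => u (e ⟨s', r⟩) := by
  rw [actForm_apply, ← Equiv.sum_comp e, Fintype.sum_sigma]
  refine Finset.sum_congr rfl fun s _ => ?_
  rw [actForm_apply, Finset.sum_mul]
  refine Finset.sum_congr rfl fun r _ => ?_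
  rw [prodF_apply, prod_upd]

end gen

theorem isAlgebraic_prod {S : Type} (T : Finset S) (f : S → ℂ) (h : ∀ s ∈ T, IsAlgebraic ℚ (f s)) :
    IsAlgebraic ℚ (∏ s ∈ T, f s) := by
  classical
  induction T using Finset.induction_on with
  | empty => rw [Finset.prod_empty]; exact isAlgebraic_one
  | @insert a T ha ih =>
    rw [Finset.prod_insert ha]
    exact (h a (Finset.mem_insert_self a T)).mul
      (ih fun s hs => h s (Finset.mem_insert_of_mem hs))

end Prdx

open Prdx in
theorem thm_Prd : St_Prd := by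
  intro J _ _ κ _ _ ϖ P n S _ _ k G hG
  have hcard : Fintype.card (Σ s, Fin (2 * k s)) = 2 * ∑ s, k s := by
    rw [Fintype.card_sigma, Finset.mul_sum]
    exact Finset.sum_congr rfl fun s _ => Fintype.card_fin _
  let e : (Σ s, Fin (2 * k s)) ≃ Fin (2 * ∑ s, k s) := Fintype.equivFinOfCardEq hcard
  refine ⟨prodF e G, e, ⟨?_, ?_⟩, fun u => rfl, fun L u => actForm_prodF e G L u⟩
  · intro v hv
    choose q hq using fun s => (hG s).B (fun r => v (e ⟨s, r⟩)) fun r => hv _
    refine ⟨∏ s, q s, ?_⟩
    rw [prodF_apply, Finset.prod_congr rfl fun s _ => hq s, Finset.prod_mul_distrib,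
      Finset.prod_pow_eq_pow_sum, Rat.cast_prod]
  · intro v hv
    rw [prodF_apply]
    exact isAlgebraic_prod _ _ fun s _ => (hG s).A _ fun r i l j => hv _ i l j

end Pool.Agent.KTW
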