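import Pool.Agent.KTW.PrjB

/-!
# KTW [Prj]: projections to the Lie algebras at the places
-/

set_option autoImplicit false
set_option linter.unusedSectionVars false

open scoped ComplexConjugate

namespace Pool.Agent.KTW

open Module Matrix NumberField Pool.Agent.Helper7 Pool.Agent.KS Pool.Agent.Ball Pool.Agent.KSE
  Pool.Agent.Helper28.GPC Pool.Agent.KSE.TwistE
open Pool.Agent.KSR (PL SkP)

/-! ### Compactness -/

/-- skew matrices of a definite Hermitian form with `[B, A] = 2 A` -/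
theorem Prj_cpt {m : ℕ} {H A B : Matrix (Fin m) (Fin m) ℂ} (hH : Definite H)
    (hsB : Bᴴ * H + H * B = 0) (hAB : B * A - A * B = (2 : ℂ) • A) : A = 0 := by
  classical
  have hre : ∀ (ν : ℂ) (y : Fin m → ℂ), y ≠ 0 → B *ᵥ y = ν • y → ν.re = 0 := by
    intro ν y hy0 hy
    have h1 : (hf H y y).re ≠ 0 := by
      rcases hH.2 with h2 | h2
      · exact (h2 y hy0).ne'
      · exact (h2 y hy0).ne
    have h2 : hf H y y ≠ 0 := by
      intro h0
      rw [h0, Complex.zero_re] at h1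
      exact h1 rfl
    have h3 : star y ⬝ᵥ ((Bᴴ * H + H * B) *ᵥ y) = 0 := by
      rw [hsB, Matrix.zero_mulVec, dotProduct_zero]
    have h4 : star y ⬝ᵥ ((Bᴴ * H) *ᵥ y) = hf H (B *ᵥ y) y := by
      rw [hf, star_mulVec, ← Matrix.mulVec_mulVec, Matrix.dotProduct_mulVec]
    have h5 : star y ⬝ᵥ ((H * B) *ᵥ y) = hf H y (B *ᵥ y) := by
      rw [hf, ← Matrix.mulVec_mulVec]
    rw [Matrix.add_mulVec, dotProduct_add, h4, h5, hy, hf_smul_left, hf_smul_right,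
      ← add_mul] at h3
    rcases mul_eq_zero.mp h3 with h4 | h4
    · have h5 := congrArg Complex.re h4
      rw [Complex.add_re, Complex.conj_re, Complex.zero_re] at h5
      linarith
    · exact absurd h4 h2
  set f : Module.End ℂ (Fin m → ℂ) := Matrix.toLin' B with hf
  set g : Module.End ℂ (Fin m → ℂ) := Matrix.toLin' A with hg
  have hfg : ∀ (ν : ℂ) (k : ℕ) (v : Fin m → ℂ),
      ((f - (ν + 2) • (1 : Module.End ℂ (Fin m → ℂ))) ^ k) (g v) =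
        g (((f - ν • (1 : Module.End ℂ (Fin m → ℂ))) ^ k) v) := by
    intro ν k
    induction k with
    | zero => intro v; rfl
    | succ k ih =>
      intro v
      rw [pow_succ, Module.End.mul_apply, pow_succ, Module.End.mul_apply, ← ih]
      congr 1
      have h1 : f (g v) - g (f v) = (2 : ℂ) • g v := by
        have h2 := congrFun (congrArg (fun T : Module.End ℂ (Fin m → ℂ) => ⇑T)
          (congrArg Matrix.toLin' hAB)) v
        rw [map_sub, Matrix.toLin'_mul, Matrix.toLin'_mul, map_smul] at h2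
        exact h2
      simp only [LinearMap.sub_apply, LinearMap.smul_apply, Module.End.one_apply, map_sub, map_smul]
      rw [add_smul]
      have h3 : f (g v) = g (f v) + (2 : ℂ) • g v := by rw [← h1]; abel
      rw [h3]
      abel
  have hev : ∀ (ν : ℂ) (v : Fin m → ℂ), v ∈ f.maxGenEigenspace ν → v ≠ 0 → ν.re = 0 := by
    intro ν v hv hv0
    obtain ⟨y, hy0, hy⟩ := KSE.HypE.exists_eig hv hv0
    rw [hf, Matrix.toLin'_apply] at hy
    exact hre ν y hy0 hy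
  have key : ∀ ν : ℂ, f.maxGenEigenspace ν ≤ LinearMap.ker g := by
    intro ν v hv
    rw [LinearMap.mem_ker]
    by_contra hgv
    have hv0 : v ≠ 0 := fun h => hgv (by rw [h, map_zero])
    obtain ⟨k, hk⟩ := (Module.End.mem_maxGenEigenspace _ _ _).mp hv
    have h4 : g v ∈ f.maxGenEigenspace (ν + 2) :=
      (Module.End.mem_maxGenEigenspace _ _ _).mpr ⟨k, by rw [hfg, hk, map_zero]⟩
    have h1 := hev _ _ h4 hgv
    rw [Complex.add_re, hev _ _ hv hv0] at h1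
    norm_num at h1
  have h1 : (⊤ : Submodule ℂ (Fin m → ℂ)) ≤ LinearMap.ker g := by
    rw [← Module.End.iSup_maxGenEigenspace_eq_top f]
    exact iSup_le key
  have h2 : g = 0 := LinearMap.ext fun v => LinearMap.mem_ker.1 (h1 Submodule.mem_top)
  exact (LinearEquiv.map_eq_zero_iff Matrix.toLin').1 h2

/-- the real case -/
theorem Prj_cpr {m : ℕ} {H A B : Matrix (Fin m) (Fin m) ℂ} (hH : Definite H) (hB : B ∈ SO H)
    (hBr : B.map conj = B) (hAB : B * A - A * B = (2 : ℂ) • A) : A = 0 := by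
  refine Prj_cpt hH ?_ hAB
  have h1 : Bᴴ = Bᵀ := by
    ext a b
    exact congrFun (congrFun hBr b) a
  rw [h1]
  exact hB

/-! ### The conclusion from targets -/

section fin

variable {I J : Type} [Fintype I] [DecidableEq I] [Fintype J] [DecidableEq J] {e : I → J}
  {n : J → ℕ} {κ : J → Type} [∀ j, Fintype (κ j)] [∀ j, DecidableEq (κ j)] {ϖ : ℂ}
  {P : ∀ j, PData (κ j) ϖ} {K : I → Type} [∀ i, Field (K i)] [∀ i, NumberField (K i)] {m : I → ℕ}
  {h : ∀ i, Matrix (Fin (m i)) (Fin (m i)) (K i)}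
  {t : ∀ i, Fin (m i) → K i → Module.End ℂ (κ (e i) → ℂ)} {k : ℕ}
  {γ : MultilinearMap ℂ (fun _ : Fin (2 * k) => HW κ n) ℂ} {σ₀ : ∀ i, K i →+* ℂ}
  {T₀ : I → Prop} {c : ∀ i, K i →+* K i}

theorem Prj_fin (hSpy : St_Spy) (H : FamZ e n P h t γ σ₀ T₀ c) (Q : Type) [Fintype Q]
    (𝓑 : Q → Type) [∀ q, Ring (𝓑 q)] [∀ q, Algebra ℂ (𝓑 q)] (d : ∀ q, PrA κ K m →ₗ[ℂ] 𝓑 q)
    (G : ∀ q, Submodule ℂ (𝓑 q))
    (hG : ∀ q, PrG (PrW e n P t γ) (PrT P (starRingAut : ℂ ≃+* ℂ)) (d q) (G q))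
    (hD : ∀ q, PrD T₀ m (finrank ℂ (G q))) (X : PrA κ K m) (hX : X ∈ PrW e n P t γ) :
    ∃ Y ∈ PrW e n P t γ, (∀ j, (∀ i, T₀ i → e i ≠ j) → Y.1.1 j = 0) ∧
      (∀ i σ, (Y.2 i σ).trace = 0) ∧ ∀ q, d q Y = d q X := by
  classical
  choose R hR N hN hz using fun j : {j : J // ∀ i, T₀ i → e i ≠ j} => Prj_s H j.1 j.2
  obtain ⟨Y, hY, hYd⟩ := hSpy (PrA κ K m) Q 𝓑 d G (fun q => (hG q).sm) (PrW e n P t γ)
    (fun X hX Y hY => PrW_br hX hY) (fun X hX Y hY q => (hG q).br X hX Y hY)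
    (fun X hX q => (hG q).im X hX) (fun q Z hZ => (hG q).on Z hZ)
    (Σ j : {j : J // ∀ i, T₀ i → e i ≠ j}, R j) (fun s => N s.1 s.2)
    (fun s => (hN s.1 s.2).le) (fun s => (hN s.1 s.2).id)
    (fun q s => (hN s.1 s.2).nz (𝓑 q) (d q) (G q) (hG q) (hD q)) X hX
  refine ⟨Y, ?_, ?_, ?_, hYd⟩
  · refine (Submodule.span_le (p := PrW e n P t γ)).2 ?_ hY
    rintro _ ⟨A, B, -, -, hA, hB, rfl⟩
    exact PrW_br hA hB
  · intro j hj
    have h1 : Y ∈ LinearMap.ker (PrE (κ := κ) K m j) := by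
      refine (Submodule.span_le (p := LinearMap.ker (PrE (κ := κ) K m j))).2 ?_ hY
      rintro _ ⟨A, B, hA', hB', hA, hB, rfl⟩
      exact hz ⟨j, hj⟩ A B hA hB (fun a => hA' ⟨⟨j, hj⟩, a⟩) fun a => hB' ⟨⟨j, hj⟩, a⟩
    exact h1
  · intro i σ
    refine Submodule.span_induction (p := fun Y _ => (Y.2 i σ).trace = 0) ?_ ?_ ?_ ?_ hY
    · rintro _ ⟨A, B, -, -, -, -, rfl⟩
      show (A.2 i σ * B.2 i σ - B.2 i σ * A.2 i σ).trace = 0
      rw [Matrix.trace_sub, Matrix.trace_mul_comm, sub_self]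
    · exact Matrix.trace_zero _ _
    · intro A B _ _ hA hB
      show (A.2 i σ + B.2 i σ).trace = 0
      rw [Matrix.trace_add, hA, hB, add_zero]
    · intro r A _ hA
      show (r • A.2 i σ).trace = 0
      rw [Matrix.trace_smul, hA, smul_zero]

end fin

/-! ### The targets -/

theorem Pr_a1 {f m : ℕ} (h : 2 * f + m = m * m) (hm : m = 3) : f = 3 := by
  subst hm
  omega

theorem Pr_a2 {f m : ℕ} (h : 2 * f + m = m * m) (hf : f = 10) : m = 5 := by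
  subst hf
  have h2 : m ≤ 5 := by nlinarith
  interval_cases m <;> omega

theorem Pr_a3 {f m : ℕ} (h : f + 1 = m * m) (hf : f = 10) : False := by
  subst hf
  have h2 : m ≤ 5 := by nlinarith
  interval_cases m <;> omega

theorem Pr_a4 {f m : ℕ} (h : f + 1 = m * m) (hf : f = 3) : m = 2 := by
  subst hf
  have h2 : m ≤ 5 := by nlinarith
  interval_cases m <;> omega

theorem Pr_a5 {f m : ℕ} (h : f + 1 = m * m) (hm : m = 2) : f = 3 := by
  subst hm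
  omega

/-- the trace-zero part of the adjoint -/
theorem Pr_trz_k {m : ℕ} {H Z N : Matrix (Fin m) (Fin m) ℂ} (hdet : IsUnit H.det)
    (h3 : N = -(H⁻¹ * Zᴴ * H)) : trz N = -(H⁻¹ * (trz Z)ᴴ * H) := by
  have h5 : N.trace = -conj Z.trace := by
    rw [h3, Matrix.trace_neg, Matrix.trace_mul_cycle, mul_nonsing_inv _ hdet, Matrix.one_mul,
      Matrix.trace_conjTranspose]
    rfl
  have h6 : star (Z.trace / (m : ℂ)) = conj Z.trace / (m : ℂ) := by
    rw [Complex.star_def, map_div₀, Complex.conj_natCast]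
  rw [trz, h5, h3, trz, Matrix.conjTranspose_sub, Matrix.conjTranspose_smul,
    Matrix.conjTranspose_one, Matrix.mul_sub, Matrix.sub_mul, Matrix.mul_smul,
    Matrix.mul_one, Matrix.smul_mul, nonsing_inv_mul _ hdet, h6, neg_div, neg_smul]
  abel

section tgt

variable {I J : Type} [Fintype I] [DecidableEq I] [Fintype J] [DecidableEq J] {e : I → J}
  {n : J → ℕ} {κ : J → Type} [∀ j, Fintype (κ j)] [∀ j, DecidableEq (κ j)] {ϖ : ℂ}
  {P : ∀ j, PData (κ j) ϖ} {K : I → Type} [∀ i, Field (K i)] [∀ i, NumberField (K i)] {m : I → ℕ}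
  {h : ∀ i, Matrix (Fin (m i)) (Fin (m i)) (K i)}
  {t : ∀ i, Fin (m i) → K i → Module.End ℂ (κ (e i) → ℂ)} {k : ℕ}
  {γ : MultilinearMap ℂ (fun _ : Fin (2 * k) => HW κ n) ℂ} {σ₀ : ∀ i, K i →+* ℂ}
  {T₀ : I → Prop} {c : ∀ i, K i →+* K i}

/-- the matrix at a place -/
def PrM (κ : J → Type) (m : I → ℕ) (i : I) (σ : K i →+* ℂ) :
    PrA κ K m →ₗ[ℂ] Matrix (Fin (m i)) (Fin (m i)) ℂ where
  toFun X := X.2 i σ
  map_add' _ _ := rfl
  map_smul' _ _ := rfl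

theorem PrM_apply (i : I) (σ : K i →+* ℂ) (X : PrA κ K m) : PrM κ m i σ X = X.2 i σ := rfl

/-- the matrices at a real place are skew -/
theorem Prj_so (H : FamZ e n P h t γ σ₀ T₀ c) (i : I) {σ : K i →+* ℂ} (hσ : cj σ = σ)
    {X : PrA κ K m} (hX : X ∈ PrW e n P t γ) : X.2 i σ ∈ SO ((h i).map σ) := by
  have h1 := Prj_skM H i hX σ
  rw [hσ] at h1
  exact h1

theorem PrT_two (i : I) (σ : K i →+* ℂ) (X : PrA κ K m) :
    (PrT P (starRingAut : ℂ ≃+* ℂ) X).2 i σ = (X.2 i (cj σ)).map conj := rfl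

theorem Prj_real (i : I) {σ : K i →+* ℂ} (hσ : cj σ = σ) (a b : Fin (m i)) :
    conj ((h i).map σ a b) = (h i).map σ a b :=
  RingHom.congr_fun hσ (h i a b)

/-- target: a real place, `m ≠ 4` -/
theorem Prj_g1 (H : FamZ e n P h t γ σ₀ T₀ c) (i : I) (hT : T₀ i) (hi : RePl (h i) (σ₀ i))
    (hm : m i ≠ 4) (σ : K i →+* ℂ) (hσ : m i ≤ 4 → Definite ((h i).map (cj σ))) :
    PrG (PrW e n P t γ) (PrT P (starRingAut : ℂ ≃+* ℂ)) (PrM κ m i σ) (SO ((h i).map σ)) ∧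
      PrD T₀ m (finrank ℂ (SO ((h i).map σ))) := by
  obtain ⟨hs, hd, hcj⟩ := Prj_re H i hi σ
  have hm3 : 3 ≤ m i := hi.2.2.2.1
  have hm5 : m i ≠ 5 := hi.2.2.2.2.1
  obtain ⟨hS, hdim⟩ := thm_Sso (m i) ((h i).map σ) hs hd hm3 hm
  refine ⟨⟨inferInstance, hS, fun _ _ _ _ => rfl, fun X hX => Prj_so H i hcj hX,
    fun Z hZ => Prj_on H i σ Z (by rw [Lg_re hcj]; exact hZ), ?_⟩, ?_, ?_⟩
  · by_cases h4 : m i = 3
    · refine Or.inr ⟨(Pr_a1 hdim h4).ge, fun Z => Z.map conj, fun X _ => ?_,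
        fun Z _ Z' hZ' hk hk' hZZ => ?_⟩
      · rw [PrM_apply, PrT_two, hcj]
        rfl
      · have hdef := hσ (by omega)
        rw [hcj] at hdef
        exact Prj_cpr hdef hZ' hk' hZZ
    · left
      have h5 : 6 ≤ m i := by omega
      have h6 : 6 * m i ≤ m i * m i := Nat.mul_le_mul_right _ h5
      omega
  · exact fun h1 => hm5 (Pr_a2 hdim h1)
  · intro i' hi' h1
    have h2 := (H.dR i i' hT hi' hi).1
    omega

/-- target: a real place, `m = 4` -/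
theorem Prj_g2 (H : FamZ e n P h t γ σ₀ T₀ c) (i : I) (hT : T₀ i) (hi : RePl (h i) (σ₀ i))
    (hm : m i = 4) (σ : K i →+* ℂ) (hσ : Definite ((h i).map (cj σ)))
    (p : Matrix (Fin (m i)) (Fin (m i)) ℂ →ₗ[ℂ] Matrix (Fin (m i)) (Fin (m i)) ℂ)
    (hS : Smp ((SO ((h i).map σ)).map p)) (hf : finrank ℂ ((SO ((h i).map σ)).map p) = 3)
    (hp : ∀ Z ∈ SO ((h i).map σ), p Z ∈ SO ((h i).map σ))
    (hbr : ∀ Z ∈ SO ((h i).map σ), ∀ Z' ∈ SO ((h i).map σ),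
      p (Z * Z' - Z' * Z) = p Z * p Z' - p Z' * p Z)
    (hc : ∀ Z ∈ SO ((h i).map σ), p (Z.map conj) = (p Z).map conj) :
    PrG (PrW e n P t γ) (PrT P (starRingAut : ℂ ≃+* ℂ)) (p.comp (PrM κ m i σ))
      ((SO ((h i).map σ)).map p) ∧ PrD T₀ m (finrank ℂ ((SO ((h i).map σ)).map p)) := by
  have hcj : cj σ = σ := hi.1 σ
  refine ⟨⟨inferInstance, hS, fun X hX Y hY => ?_, fun X hX => ?_, ?_, ?_⟩, ?_, ?_⟩
  · exact hbr _ (Prj_so H i hcj hX) _ (Prj_so H i hcj hY)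
  · exact ⟨_, Prj_so H i hcj hX, rfl⟩
  · rintro _ ⟨Z, hZ, rfl⟩
    obtain ⟨X, hX, hXZ⟩ := Prj_on H i σ Z (by rw [Lg_re hcj]; exact hZ)
    exact ⟨X, hX, congrArg p hXZ⟩
  · refine Or.inr ⟨hf.ge, fun Z => Z.map conj, fun X hX => ?_, fun Z _ Z' hZ' hk hk' hZZ => ?_⟩
    · have h1 : (p.comp (PrM κ m i σ)) (PrT P (starRingAut : ℂ ≃+* ℂ) X) =
          p ((X.2 i (cj σ)).map conj) := rfl
      rw [h1, hcj, hc _ (Prj_so H i hcj hX)]
      rfl
    · rw [hcj] at hσ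
      obtain ⟨Z'', hZ'', rfl⟩ := hZ'
      exact Prj_cpr hσ (hp _ hZ'') hk' hZZ
  · rw [hf]
    norm_num
  · intro i' hi' h1
    exact (H.dR i i' hT hi' hi).2 ⟨hm, Pr_a4 h1 hf⟩

/-- target: a complex place -/
theorem Prj_g3 (H : FamZ e n P h t γ σ₀ T₀ c) (i : I) (hT : T₀ i) (hi : CoPl (h i) (σ₀ i))
    (σ : K i →+* ℂ) (hσ : m i = 2 → Definite ((h i).map (cj σ))) :
    PrG (PrW e n P t γ) (PrT P (starRingAut : ℂ ≃+* ℂ)) (PrC κ m i σ) (SL (m i)) ∧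
      PrD T₀ m (finrank ℂ (SL (m i))) := by
  have hm0 : 0 < m i := hi.2.2.2.1
  have hm2 : 2 ≤ m i := by
    obtain ⟨r, hr⟩ := hi.2.2.2.2
    omega
  obtain ⟨hS, hdim⟩ := thm_Ssl (m i) hm2
  refine ⟨⟨inferInstance, hS, PrC_bra _ i σ, fun X hX => Pr_trz_tr hm0 _, ?_, ?_⟩, ?_, ?_⟩
  · intro Z hZ
    obtain ⟨X, hX, hXZ⟩ := Prj_on H i σ Z (by rw [Lg_co (hi.1 σ)]; exact hZ)
    refine ⟨X, hX, ?_⟩
    rw [PrC_apply, hXZ, Pr_trz_of hZ]
  · by_cases h4 : m i = 2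
    · have hdef := hσ h4
      have hdet : IsUnit ((h i).map (cj σ)).det := by
        have h1 : ((h i).map (cj σ)).det = cj σ (h i).det := by
          rw [RingHom.map_det, RingHom.mapMatrix_apply]
        rw [h1]
        exact IsUnit.mk0 _ ((map_ne_zero (cj σ)).2 (H.S i).nd)
      set H' := (h i).map (cj σ) with hH'
      refine Or.inr ⟨(Pr_a5 hdim h4).ge, fun Z => -(H'⁻¹ * Zᴴ * H'), fun X hX => ?_,
        fun Z _ Z' hZ' hk hk' hZZ => ?_⟩
      · have h2 : ((X.2 i σ)ᴴ) * H' + H' * (X.2 i (cj σ)).map conj = 0 := by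
          have e1 : ((X.2 i σ)ᵀ * (h i).map σ + (h i).map σ * X.2 i (cj σ)).map conj =
              (X.2 i σ)ᴴ * H' + H' * (X.2 i (cj σ)).map conj := by
            rw [Matrix.map_add (conj : ℂ → ℂ) (map_add _), Matrix.map_mul, Matrix.map_mul]
            rfl
          rw [← e1, Prj_skM H i hX σ]
          exact Matrix.map_zero (conj : ℂ → ℂ) (map_zero _)
        have h3 : (X.2 i (cj σ)).map conj = -(H'⁻¹ * (X.2 i σ)ᴴ * H') := by
          have h5 : H'⁻¹ * (H' * (X.2 i (cj σ)).map conj) = H'⁻¹ * -((X.2 i σ)ᴴ * H') := by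
            rw [eq_neg_of_add_eq_zero_right h2]
          rw [← Matrix.mul_assoc, nonsing_inv_mul _ hdet, Matrix.one_mul, Matrix.mul_neg,
            ← Matrix.mul_assoc] at h5
          exact h5
        exact Pr_trz_k hdet h3
      · refine Prj_cpt (H := H') hdef ?_ hZZ
        have h1 : H' * Z' = -(Z'ᴴ * H') := by
          have h2 : H' * -(H'⁻¹ * Z'ᴴ * H') = H' * Z' := congrArg (fun A => H' * A) hk'
          rw [Matrix.mul_neg, Matrix.mul_assoc, ← Matrix.mul_assoc H', mul_nonsing_inv _ hdet,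
            Matrix.one_mul] at h2
          exact h2.symm
        rw [h1, add_neg_cancel]
    · left
      have h5 : 3 ≤ m i := by omega
      have h6 : 3 * m i ≤ m i * m i := Nat.mul_le_mul_right _ h5
      omega
  · exact fun h1 => Pr_a3 hdim h1
  · intro i' hi' h1
    have h2 := H.dC i i' hT hi' hi
    rw [hdim] at h1
    exact h2 (Nat.mul_self_inj.1 h1)

end tgt

/-- [PRJ] -/
theorem thm_Prj (hSpy : St_Spy) (hSsh : St_Ssh) : St_Prj := by
  classical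
  intro I J _ _ _ _ e n κ _ _ ϖ P K _ _ c m h t k γ σ₀ T₀ H i hT σ Z hZ
  have key : ∃ σ₁ : K i →+* ℂ, ∀ Z ∈ Lg (h i) σ₁, ∃ X ∈ PrW (m := m) e n P t γ,
      (∀ j, (∀ i', T₀ i' → e i' ≠ j) → X.1.1 j = 0) ∧ X.2 i σ₁ = Z := by
    rcases H.typ i with ⟨-, hi⟩ | hi
    · -- a real place
      obtain ⟨σ₁, hσ⟩ : ∃ σ₁ : K i →+* ℂ, m i ≤ 4 → Definite ((h i).map (cj σ₁)) := by
        by_cases h4 : m i ≤ 4
        · obtain ⟨σ₁, h1⟩ := hi.2.2.2.2.2 h4
          exact ⟨σ₁, fun _ => hi.2.2.1 σ₁ h1⟩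
        · exact ⟨σ₀ i, fun h => absurd h h4⟩
      have hcj : cj σ₁ = σ₁ := hi.1 σ₁
      refine ⟨σ₁, fun Z hZ => ?_⟩
      obtain ⟨X, hX, hXZ⟩ := Prj_on H i σ₁ Z hZ
      rw [Lg_re hcj] at hZ
      by_cases h4 : m i = 4
      · have hdef := hσ h4.le
        obtain ⟨hs, hd, -⟩ := Prj_re H i hi σ₁
        obtain ⟨p, h1, h2, h3, h5⟩ : ∃ p : Bool → (Matrix (Fin (m i)) (Fin (m i)) ℂ →ₗ[ℂ]
            Matrix (Fin (m i)) (Fin (m i)) ℂ),
            (∀ b, Smp ((SO ((h i).map σ₁)).map (p b)) ∧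
              finrank ℂ ((SO ((h i).map σ₁)).map (p b)) = 3 ∧
              ∀ Z ∈ SO ((h i).map σ₁), p b Z ∈ SO ((h i).map σ₁)) ∧
            (∀ b, ∀ Z ∈ SO ((h i).map σ₁), ∀ Z' ∈ SO ((h i).map σ₁),
              p b (Z * Z' - Z' * Z) = p b Z * p b Z' - p b Z' * p b Z) ∧
            (∀ Z ∈ SO ((h i).map σ₁), p true Z + p false Z = Z) ∧
            (Definite ((h i).map σ₁) → (∀ a b, conj ((h i).map σ₁ a b) = (h i).map σ₁ a b) →
              ∀ b, ∀ Z ∈ SO ((h i).map σ₁), p b (Z.map conj) = (p b Z).map conj) := by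
          have key : ∀ (M : ℕ) (_ : M = 4) (A : Matrix (Fin M) (Fin M) ℂ), Aᵀ = A →
              IsUnit A.det → ∃ p : Bool → (Matrix (Fin M) (Fin M) ℂ →ₗ[ℂ]
              Matrix (Fin M) (Fin M) ℂ),
              (∀ b, Smp ((SO A).map (p b)) ∧ finrank ℂ ((SO A).map (p b)) = 3 ∧
                ∀ Z ∈ SO A, p b Z ∈ SO A) ∧
              (∀ b, ∀ Z ∈ SO A, ∀ Z' ∈ SO A,
                p b (Z * Z' - Z' * Z) = p b Z * p b Z' - p b Z' * p b Z) ∧
              (∀ Z ∈ SO A, p true Z + p false Z = Z) ∧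
              (Definite A → (∀ a b, conj (A a b) = A a b) →
                ∀ b, ∀ Z ∈ SO A, p b (Z.map conj) = (p b Z).map conj) := by
            intro M hM A hA hd
            subst hM
            exact hSsh A hA hd
          exact key (m i) h4 ((h i).map σ₁) hs hd
        have hdef' : Definite ((h i).map σ₁) := by rwa [hcj] at hdef
        have hG : ∀ b, PrG (PrW (m := m) e n P t γ) (PrT P (starRingAut : ℂ ≃+* ℂ))
            ((p b).comp (PrM κ m i σ₁)) ((SO ((h i).map σ₁)).map (p b)) ∧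
            PrD T₀ m (finrank ℂ ((SO ((h i).map σ₁)).map (p b))) := fun b =>
          Prj_g2 H i hT hi h4 σ₁ hdef (p b) (h1 b).1 (h1 b).2.1 (h1 b).2.2 (h2 b)
            (h5 hdef' (Prj_real i hcj) b)
        obtain ⟨Y, hY, hYj, -, hYc⟩ := Prj_fin hSpy H Bool _ (fun b => (p b).comp (PrM κ m i σ₁))
          (fun b => (SO ((h i).map σ₁)).map (p b)) (fun b => (hG b).1) (fun b => (hG b).2) X hX
        refine ⟨Y, hY, hYj, ?_⟩
        have e1 : ∀ b, p b (Y.2 i σ₁) = p b (X.2 i σ₁) := fun b => hYc b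
        rw [← h3 _ (Prj_so H i hcj hY), e1, e1, hXZ, h3 Z hZ]
      · obtain ⟨h1, h2⟩ := Prj_g1 H i hT hi h4 σ₁ hσ
        obtain ⟨Y, hY, hYj, -, hYc⟩ := Prj_fin hSpy H Unit _ (fun _ => PrM κ m i σ₁)
          (fun _ => SO ((h i).map σ₁)) (fun _ => h1) (fun _ => h2) X hX
        exact ⟨Y, hY, hYj, (hYc ()).trans hXZ⟩
    · -- a complex place
      obtain ⟨σ₁, hσ⟩ : ∃ σ₁ : K i →+* ℂ, m i = 2 → Definite ((h i).map (cj σ₁)) := by
        by_cases h4 : m i = 2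
        · obtain ⟨σ₁, h1, h2⟩ := H.two i hT hi h4
          exact ⟨σ₁, fun _ => hi.2.2.1 σ₁ h1 h2⟩
        · exact ⟨σ₀ i, fun h => absurd h h4⟩
      refine ⟨σ₁, fun Z hZ => ?_⟩
      obtain ⟨X, hX, hXZ⟩ := Prj_on H i σ₁ Z hZ
      rw [Lg_co (hi.1 σ₁)] at hZ
      obtain ⟨h1, h2⟩ := Prj_g3 H i hT hi σ₁ hσ
      obtain ⟨Y, hY, hYj, hYt, hYc⟩ := Prj_fin hSpy H Unit _ (fun _ => PrC κ m i σ₁)
        (fun _ => SL (m i)) (fun _ => h1) (fun _ => h2) X hX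
      refine ⟨Y, hY, hYj, ?_⟩
      have e1 : trz (Y.2 i σ₁) = trz (X.2 i σ₁) := hYc ()
      rw [Pr_trz_of (hYt i σ₁), hXZ, Pr_trz_of hZ] at e1
      exact e1
  obtain ⟨σ₁, h1⟩ := key
  obtain ⟨X, hX, hXj, hXZ⟩ := Prj_tr H i σ₁ σ (fun j => ∀ i', T₀ i' → e i' ≠ j) h1 Z hZ
  exact ⟨X.1, X.2, hX.1, hX.2.1, hX.2.2, hXj, hXZ⟩

end Pool.Agent.KTW
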