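import Pool.Agent.KTW.PryB

/-!
# KTW [Pry]: projections to the Lie algebras at the places, for `FamZ2`
-/

set_option autoImplicit false
set_option linter.unusedSectionVars false

open scoped ComplexConjugate

namespace Pool.Agent.KTW.Pry

open Module Matrix NumberField Pool.Agent.Helper7 Pool.Agent.KS Pool.Agent.Ball Pool.Agent.KSE
  Pool.Agent.Helper28.GPC Pool.Agent.KSE.TwistE
open Pool.Agent.KSR (PL SkP)

section fin

variable {I J : Type} [Fintype I] [DecidableEq I] [Fintype J] [DecidableEq J] {e : I → J}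
  {n : J → ℕ} {κ : J → Type} [∀ j, Fintype (κ j)] [∀ j, DecidableEq (κ j)] {ϖ : ℂ}
  {P : ∀ j, PData (κ j) ϖ} {K : I → Type} [∀ i, Field (K i)] [∀ i, NumberField (K i)] {m : I → ℕ}
  {h : ∀ i, Matrix (Fin (m i)) (Fin (m i)) (K i)}
  {t : ∀ i, Fin (m i) → K i → Module.End ℂ (κ (e i) → ℂ)} {k : ℕ}
  {γ : MultilinearMap ℂ (fun _ : Fin (2 * k) => HW κ n) ℂ} {σ₀ : ∀ i, K i →+* ℂ}
  {T₀ : I → Prop} {c : ∀ i, K i →+* K i}

theorem Prj_fin (hSpy : St_Spy) (H : FamZ2 e n P h t γ σ₀ T₀ c) (Q : Type) [Fintype Q]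
    (𝓑 : Q → Type) [∀ q, Ring (𝓑 q)] [∀ q, Algebra ℂ (𝓑 q)] (d : ∀ q, PrA κ K m →ₗ[ℂ] 𝓑 q)
    (G : ∀ q, Submodule ℂ (𝓑 q))
    (hG : ∀ q, PrG (PrW e n P t γ) (PrT P (starRingAut : ℂ ≃+* ℂ)) (PrD h σ₀ T₀)
      (PrR h σ₀ T₀) (d q) (G q)) (X : PrA κ K m) (hX : X ∈ PrW e n P t γ) :
    ∃ Y ∈ PrW e n P t γ, (∀ j, (∀ i, T₀ i → e i ≠ j) → Y.1.1 j = 0) ∧
      (∀ i σ, (Y.2 i σ).trace = 0) ∧ ∀ q, d q Y = d q X := by
  classical
  choose R hR N hN hz using fun j : {j : J // ∀ i, T₀ i → e i ≠ j} => Prj_s H j.1 j.2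
  obtain ⟨Y, hY, hYd⟩ := hSpy (PrA κ K m) Q 𝓑 d G (fun q => (hG q).sm) (PrW e n P t γ)
    (fun X hX Y hY => PrW_br hX hY) (fun X hX Y hY q => (hG q).br X hX Y hY)
    (fun X hX q => (hG q).im X hX) (fun q Z hZ => (hG q).on Z hZ)
    (Σ j : {j : J // ∀ i, T₀ i → e i ≠ j}, R j) (fun s => N s.1 s.2)
    (fun s => (hN s.1 s.2).le) (fun s => (hN s.1 s.2).id)
    (fun q s => (hN s.1 s.2).nz (𝓑 q) (d q) (G q) (hG q)) X hX
  refine ⟨Y, ?_, ?_, ?_, hYd⟩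
  · refine (Submodule.span_le (p := PrW e n P t γ)).2 ?_ hY
    rintro _ ⟨A, B, -, -, hA, hB, rfl⟩
    exact PrW_br hA hB
  · intro j hj
    have h1 : Y ∈ LinearMap.ker (PrE (κ := κ) K m j) := by
      refine (Submodule.span_le (p := LinearMap.ker (PrE (κ := κ) K m j))).2 ?_ hY
      rintro _ ⟨A, B, hA', hB', hA, hB, rfl⟩
      exact hz ⟨j, hj⟩ A B hA hB (fun a => hA' ⟨⟨j, hj⟩, a⟩) fun a => hB' ⟨⟨j, hj⟩, a⟩
    exact h1
  · intro i σ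
    refine Submodule.span_induction (p := fun Y _ => (Y.2 i σ).trace = 0) ?_ ?_ ?_ ?_ hY
    · rintro _ ⟨A, B, -, -, -, -, rfl⟩
      show (A.2 i σ * B.2 i σ - B.2 i σ * A.2 i σ).trace = 0
      rw [Matrix.trace_sub, Matrix.trace_mul_comm, sub_self]
    · exact Matrix.trace_zero _ _
    · intro A B _ _ hA hB
      show (A.2 i σ + B.2 i σ).trace = 0
      rw [Matrix.trace_add, hA, hB, add_zero]
    · intro r A _ hA
      show (r • A.2 i σ).trace = 0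
      rw [Matrix.trace_smul, hA, smul_zero]

/-! ### The targets -/

/-- the real `i` in `T₀` with `m i ≤ 4`: critical dimensions do not occur -/
theorem Prj_nd (H : FamZ2 e n P h t γ σ₀ T₀ c) (i : I) (hT : T₀ i) (hi : RePl (h i) (σ₀ i))
    (hm : m i = 3 ∨ m i = 4) {r : ℕ} (hr : r = 3) : ¬ PrD h σ₀ T₀ r ∧ ¬ PrR h σ₀ T₀ := by
  refine ⟨?_, ?_⟩
  · rintro (h1 | ⟨i', hi', hco, h1⟩)
    · omega
    · exact H.dR i i' hT hi' hi hco ⟨Pr_a4 h1 hr, hm⟩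
  · rintro ⟨i', hi', hre⟩
    have h2 := (H.dRR i i' hT hi' hre).2
    omega

/-- target: a real place, `m = 3` -/
theorem Prj_g1 (H : FamZ2 e n P h t γ σ₀ T₀ c) (i : I) (hT : T₀ i) (hi : RePl (h i) (σ₀ i))
    (hm : m i = 3) (σ : K i →+* ℂ) (hσ : Definite ((h i).map (cj σ))) :
    PrG (PrW e n P t γ) (PrT P (starRingAut : ℂ ≃+* ℂ)) (PrD h σ₀ T₀) (PrR h σ₀ T₀)
      (PrM κ m i σ) (SO ((h i).map σ)) := by
  obtain ⟨hs, hd, hcj⟩ := Prj_re H i hi σ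
  obtain ⟨hS, hdim⟩ := thm_Sso (m i) ((h i).map σ) hs hd (by omega) (by omega)
  have h3 := Pr_a1 hdim hm
  obtain ⟨n1, n2⟩ := Prj_nd H i hT hi (Or.inl hm) h3
  refine ⟨inferInstance, hS, fun _ _ _ _ => rfl, fun X hX => Prj_so H i hcj hX,
    fun Z hZ => Prj_on H i σ Z (by rw [Lg_re hcj]; exact hZ), ?_, fun h => absurd h n1,
    fun h => absurd h n2⟩
  refine Or.inr ⟨h3.ge, fun Z => Z.map conj, fun X _ => ?_, fun Z _ Z' hZ' hk hk' hZZ => ?_⟩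
  · rw [PrM_apply, PrT_two, hcj]
    rfl
  · rw [hcj] at hσ
    exact Prj_cpr hσ hZ' hk' hZZ

/-- target: the real place `σ₀`, `m ≥ 6` -/
theorem Prj_g6 (H : FamZ2 e n P h t γ σ₀ T₀ c) (i : I) (hi : RePl (h i) (σ₀ i)) (hm : 6 ≤ m i) :
    PrG (PrW e n P t γ) (PrT P (starRingAut : ℂ ≃+* ℂ)) (PrD h σ₀ T₀) (PrR h σ₀ T₀)
      (PrM κ m i (σ₀ i)) (SO ((h i).map (σ₀ i))) := by
  obtain ⟨hs, hd, hcj⟩ := Prj_re H i hi (σ₀ i)
  obtain ⟨hS, hdim⟩ := thm_Sso (m i) ((h i).map (σ₀ i)) hs hd (by omega) (by omega)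
  have h6 : 6 * m i ≤ m i * m i := Nat.mul_le_mul_right _ hm
  refine ⟨inferInstance, hS, fun _ _ _ _ => rfl, fun X hX => Prj_so H i hcj hX,
    fun Z hZ => Prj_on H i (σ₀ i) Z (by rw [Lg_re hcj]; exact hZ), Or.inl (by omega),
    fun _ => ⟨by omega, by omega, fun Z => Z.map conj, fun X _ => ?_, ?_⟩, fun _ => by omega⟩
  · rw [PrM_apply, PrT_two, hcj]
    rfl
  · have hG : (CoreR.GR (h i) (σ₀ i))ᵀ = CoreR.GR (h i) (σ₀ i) :=
      CoreR.GR_tr (H.S i).conj (H.S i).herm hcj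
    have hH : ∀ a b, (h i).map (σ₀ i) a b = ((CoreR.GR (h i) (σ₀ i)) a b : ℂ) := by
      intro a b
      rw [Matrix.map_apply, CoreR.GR_apply, CoreR.real_val hcj]
    obtain ⟨⟨p, hp⟩, w, hw⟩ : (∃ v : Fin (m i) → ℝ, 0 < v ⬝ᵥ (CoreR.GR (h i) (σ₀ i) *ᵥ v)) ∧
        ∃ v : Fin (m i) → ℝ, v ⬝ᵥ (CoreR.GR (h i) (σ₀ i) *ᵥ v) < 0 := by
      rcases hi.2.1 with h1 | h1
      · exact CoreR.exists_sign (by omega) _ h1
      · obtain ⟨⟨p, hp⟩, w, hw⟩ := CoreR.exists_sign (by omega) _ h1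
        rw [Matrix.neg_mulVec, dotProduct_neg] at hp hw
        exact ⟨⟨w, by linarith⟩, p, by linarith⟩
    exact Pry_pos hG hp hw hH

/-- target: a real place, `m = 4` -/
theorem Prj_g2 (H : FamZ2 e n P h t γ σ₀ T₀ c) (i : I) (hT : T₀ i) (hi : RePl (h i) (σ₀ i))
    (hm : m i = 4) (σ : K i →+* ℂ) (hσ : Definite ((h i).map (cj σ)))
    (p : Matrix (Fin (m i)) (Fin (m i)) ℂ →ₗ[ℂ] Matrix (Fin (m i)) (Fin (m i)) ℂ)
    (hS : Smp ((SO ((h i).map σ)).map p)) (hf : finrank ℂ ((SO ((h i).map σ)).map p) = 3)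
    (hp : ∀ Z ∈ SO ((h i).map σ), p Z ∈ SO ((h i).map σ))
    (hbr : ∀ Z ∈ SO ((h i).map σ), ∀ Z' ∈ SO ((h i).map σ),
      p (Z * Z' - Z' * Z) = p Z * p Z' - p Z' * p Z)
    (hc : ∀ Z ∈ SO ((h i).map σ), p (Z.map conj) = (p Z).map conj) :
    PrG (PrW e n P t γ) (PrT P (starRingAut : ℂ ≃+* ℂ)) (PrD h σ₀ T₀) (PrR h σ₀ T₀)
      (p.comp (PrM κ m i σ)) ((SO ((h i).map σ)).map p) := by
  have hcj : cj σ = σ := hi.1 σ
  obtain ⟨n1, n2⟩ := Prj_nd H i hT hi (Or.inr hm) hf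
  refine ⟨inferInstance, hS, fun X hX Y hY => ?_, fun X hX => ?_, ?_, ?_, fun h => absurd h n1,
    fun h => absurd h n2⟩
  · exact hbr _ (Prj_so H i hcj hX) _ (Prj_so H i hcj hY)
  · exact ⟨_, Prj_so H i hcj hX, rfl⟩
  · rintro _ ⟨Z, hZ, rfl⟩
    obtain ⟨X, hX, hXZ⟩ := Prj_on H i σ Z (by rw [Lg_re hcj]; exact hZ)
    exact ⟨X, hX, congrArg p hXZ⟩
  · refine Or.inr ⟨hf.ge, fun Z => Z.map conj, fun X hX => ?_, fun Z _ Z' hZ' hk hk' hZZ => ?_⟩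
    · have h1 : (p.comp (PrM κ m i σ)) (PrT P (starRingAut : ℂ ≃+* ℂ) X) =
          p ((X.2 i (cj σ)).map conj) := rfl
      rw [h1, hcj, hc _ (Prj_so H i hcj hX)]
      rfl
    · rw [hcj] at hσ
      obtain ⟨Z'', hZ'', rfl⟩ := hZ'
      exact Prj_cpr hσ (hp _ hZ'') hk' hZZ

/-- target: a complex place -/
theorem Prj_g3 (H : FamZ2 e n P h t γ σ₀ T₀ c) (i : I) (hT : T₀ i) (hi : CoPl (h i) (σ₀ i))
    (σ : K i →+* ℂ) (hσ : m i = 2 → Definite ((h i).map (cj σ))) :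
    PrG (PrW e n P t γ) (PrT P (starRingAut : ℂ ≃+* ℂ)) (PrD h σ₀ T₀) (PrR h σ₀ T₀)
      (PrC κ m i σ) (SL (m i)) := by
  have hm0 : 0 < m i := hi.2.2.2.1
  have hm2 : 2 ≤ m i := by
    obtain ⟨r, hr⟩ := hi.2.2.2.2
    omega
  obtain ⟨hS, hdim⟩ := thm_Ssl (m i) hm2
  refine ⟨inferInstance, hS, PrC_bra _ i σ, fun X hX => Pr_trz_tr hm0 _, ?_, ?_, ?_, ?_⟩
  · intro Z hZ
    obtain ⟨X, hX, hXZ⟩ := Prj_on H i σ Z (by rw [Lg_co (hi.1 σ)]; exact hZ)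
    refine ⟨X, hX, ?_⟩
    rw [PrC_apply, hXZ, Pr_trz_of hZ]
  · by_cases h4 : m i = 2
    · have hdef := hσ h4
      have hdet := Prj_det H i (cj σ)
      refine Or.inr ⟨(Pr_a5 hdim h4).ge,
        fun Z => -(((h i).map (cj σ))⁻¹ * Zᴴ * (h i).map (cj σ)), fun X hX => ?_,
        fun Z _ Z' hZ' hk hk' hZZ => ?_⟩
      · rw [PrC_apply, PrC_apply, PrT_two]
        exact Pr_trz_k hdet (Prj_adj H i σ hX hdet)
      · exact Prj_cpt hdef (k_skew hdet hk') hZZ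
    · left
      have h5 : 3 ≤ m i := by omega
      have h6 : 3 * m i ≤ m i * m i := Nat.mul_le_mul_right _ h5
      omega
  · rintro (h1 | ⟨i', hi', hco, h1⟩)
    · exact (Pr_a3 hdim h1).elim
    · have h2 := H.dC i i' hT hi' hi hco
      rw [hdim] at h1
      exact absurd (Nat.mul_self_inj.1 h1) h2
  · rintro ⟨i', hi', hre⟩
    exact absurd ((H.dRR i i' hT hi' hre).1.1 (σ₀ i)) (hi.1 (σ₀ i))

end fin

/-- [PRY] -/
theorem thm_Pry' (hSpy : St_Spy) (hSsh : St_Ssh) : St_Pry := by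
  classical
  intro I J _ _ _ _ e n κ _ _ ϖ P K _ _ c m h t k γ σ₀ T₀ H i hT σ Z hZ
  have key : ∃ σ₁ : K i →+* ℂ, ∀ Z ∈ Lg (h i) σ₁, ∃ X ∈ PrW (m := m) e n P t γ,
      (∀ j, (∀ i', T₀ i' → e i' ≠ j) → X.1.1 j = 0) ∧ X.2 i σ₁ = Z := by
    rcases H.typ i with ⟨hi, -⟩ | hi
    · -- a real place
      have hm3 : 3 ≤ m i := hi.2.2.2.1
      have hm5 : m i ≠ 5 := hi.2.2.2.2.1
      by_cases h6 : 6 ≤ m i
      · have hcj : cj (σ₀ i) = σ₀ i := hi.1 _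
        refine ⟨σ₀ i, fun Z hZ => ?_⟩
        obtain ⟨X, hX, hXZ⟩ := Prj_on H i (σ₀ i) Z hZ
        rw [Lg_re hcj] at hZ
        have h1 := Prj_g6 H i hi h6
        obtain ⟨Y, hY, hYj, -, hYc⟩ := Prj_fin hSpy H Unit _ (fun _ => PrM κ m i (σ₀ i))
          (fun _ => SO ((h i).map (σ₀ i))) (fun _ => h1) X hX
        exact ⟨Y, hY, hYj, (hYc ()).trans hXZ⟩
      obtain ⟨σ₁, hσ1⟩ := hi.2.2.2.2.2 (by omega)
      have hdef : Definite ((h i).map (cj σ₁)) := hi.2.2.1 σ₁ hσ1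
      have hcj : cj σ₁ = σ₁ := hi.1 σ₁
      refine ⟨σ₁, fun Z hZ => ?_⟩
      obtain ⟨X, hX, hXZ⟩ := Prj_on H i σ₁ Z hZ
      rw [Lg_re hcj] at hZ
      by_cases h4 : m i = 4
      · obtain ⟨hs, hd, -⟩ := Prj_re H i hi σ₁
        obtain ⟨p, h1, h2, h3, h5⟩ : ∃ p : Bool → (Matrix (Fin (m i)) (Fin (m i)) ℂ →ₗ[ℂ]
            Matrix (Fin (m i)) (Fin (m i)) ℂ),
            (∀ b, Smp ((SO ((h i).map σ₁)).map (p b)) ∧
              finrank ℂ ((SO ((h i).map σ₁)).map (p b)) = 3 ∧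
              ∀ Z ∈ SO ((h i).map σ₁), p b Z ∈ SO ((h i).map σ₁)) ∧
            (∀ b, ∀ Z ∈ SO ((h i).map σ₁), ∀ Z' ∈ SO ((h i).map σ₁),
              p b (Z * Z' - Z' * Z) = p b Z * p b Z' - p b Z' * p b Z) ∧
            (∀ Z ∈ SO ((h i).map σ₁), p true Z + p false Z = Z) ∧
            (Definite ((h i).map σ₁) → (∀ a b, conj ((h i).map σ₁ a b) = (h i).map σ₁ a b) →
              ∀ b, ∀ Z ∈ SO ((h i).map σ₁), p b (Z.map conj) = (p b Z).map conj) := by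
          have key : ∀ (M : ℕ) (_ : M = 4) (A : Matrix (Fin M) (Fin M) ℂ), Aᵀ = A →
              IsUnit A.det → ∃ p : Bool → (Matrix (Fin M) (Fin M) ℂ →ₗ[ℂ]
              Matrix (Fin M) (Fin M) ℂ),
              (∀ b, Smp ((SO A).map (p b)) ∧ finrank ℂ ((SO A).map (p b)) = 3 ∧
                ∀ Z ∈ SO A, p b Z ∈ SO A) ∧
              (∀ b, ∀ Z ∈ SO A, ∀ Z' ∈ SO A,
                p b (Z * Z' - Z' * Z) = p b Z * p b Z' - p b Z' * p b Z) ∧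
              (∀ Z ∈ SO A, p true Z + p false Z = Z) ∧
              (Definite A → (∀ a b, conj (A a b) = A a b) →
                ∀ b, ∀ Z ∈ SO A, p b (Z.map conj) = (p b Z).map conj) := by
            intro M hM A hA hd
            subst hM
            exact hSsh A hA hd
          exact key (m i) h4 ((h i).map σ₁) hs hd
        have hdef' : Definite ((h i).map σ₁) := by rwa [hcj] at hdef
        have hG := fun b : Bool => Prj_g2 H i hT hi h4 σ₁ hdef (p b) (h1 b).1 (h1 b).2.1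
          (h1 b).2.2 (h2 b) (h5 hdef' (Prj_real i hcj) b)
        obtain ⟨Y, hY, hYj, -, hYc⟩ := Prj_fin hSpy H Bool _ (fun b => (p b).comp (PrM κ m i σ₁))
          (fun b => (SO ((h i).map σ₁)).map (p b)) hG X hX
        refine ⟨Y, hY, hYj, ?_⟩
        have e1 : ∀ b, p b (Y.2 i σ₁) = p b (X.2 i σ₁) := fun b => hYc b
        rw [← h3 _ (Prj_so H i hcj hY), e1, e1, hXZ, h3 Z hZ]
      · have h1 := Prj_g1 H i hT hi (by omega) σ₁ hdef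
        obtain ⟨Y, hY, hYj, -, hYc⟩ := Prj_fin hSpy H Unit _ (fun _ => PrM κ m i σ₁)
          (fun _ => SO ((h i).map σ₁)) (fun _ => h1) X hX
        exact ⟨Y, hY, hYj, (hYc ()).trans hXZ⟩
    · -- a complex place
      obtain ⟨σ₁, hσ⟩ : ∃ σ₁ : K i →+* ℂ, m i = 2 → Definite ((h i).map (cj σ₁)) := by
        by_cases h4 : m i = 2
        · obtain ⟨σ₁, h1, h2⟩ := H.two i hT hi h4
          exact ⟨σ₁, fun _ => hi.2.2.1 σ₁ h1 h2⟩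
        · exact ⟨σ₀ i, fun h => absurd h h4⟩
      refine ⟨σ₁, fun Z hZ => ?_⟩
      obtain ⟨X, hX, hXZ⟩ := Prj_on H i σ₁ Z hZ
      rw [Lg_co (hi.1 σ₁)] at hZ
      have h1 := Prj_g3 H i hT hi σ₁ hσ
      obtain ⟨Y, hY, hYj, hYt, hYc⟩ := Prj_fin hSpy H Unit _ (fun _ => PrC κ m i σ₁)
        (fun _ => SL (m i)) (fun _ => h1) X hX
      refine ⟨Y, hY, hYj, ?_⟩
      have e1 : trz (Y.2 i σ₁) = trz (X.2 i σ₁) := hYc ()
      rw [Pr_trz_of (hYt i σ₁), hXZ, Pr_trz_of hZ] at e1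
      exact e1
  obtain ⟨σ₁, h1⟩ := key
  obtain ⟨X, hX, hXj, hXZ⟩ := Prj_tr H i σ₁ σ (fun j => ∀ i', T₀ i' → e i' ≠ j) h1 Z hZ
  exact ⟨X.1, X.2, hX.1, hX.2.1, hX.2.2, hXj, hXZ⟩

end Pool.Agent.KTW.Pry

namespace Pool.Agent.KTW

/-- [PRY] -/
theorem thm_Pry (hSpy : St_Spy) (hSsh : St_Ssh) : St_Pry := Pry.thm_Pry' hSpy hSsh

end Pool.Agent.KTW
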