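import Pool.Agent.KTW.StU
import Pool.Agent.KSE.BvE
import Pool.Agent.Helper71.AF.Alg
import Pool.Agent.Helper20.Hodge

/-!
# KTW PSK: the central operators are skew for the polarisation
-/

set_option autoImplicit false

open scoped ComplexConjugate

namespace Pool.Agent.KTW

open Module Matrix NumberField Pool.Agent.Helper7 Pool.Agent.KS Pool.Agent.Ball Pool.Agent.KSE
  Pool.Agent.Helper28.GPC Pool.Agent.K3P Pool.Agent.KTP
open Pool.Agent.GPC (AbVar)

namespace Pskx

variable (A : AbVar)

lemma Hf_smul_right (c : ℂ) (u v : A.H1) : Hf A u (c • v) = conj c * Hf A u v := by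
  rw [Hf_symm, Hf_smul_left, map_mul, ← Hf_symm]

/-- the adjoint for the Hermitian form -/
lemma Hf_move (f f' : Module.End ℂ A.H1) (hf' : IsDRB (pData A) (pData A) f')
    (h : ∀ u v, (pData A).ψ (f u) v = (pData A).ψ u (f' v)) (u v : A.H1) :
    Hf A (f u) v = Hf A u (f' v) := by
  unfold Hf
  rw [h, ← cB_comm' (pData A) (pData A) f' hf'.rat, refl'_apply, refl'_apply, map_sub, map_smul,
    hod_comm f' hf']

end Pskx

open Pskx

theorem thm_Psk (hEva : St_Eva) (hDel : St_Del) : St_Psk := by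
  intro A K _ _ c m h t S hcm Y z hY
  obtain ⟨hD1, hD2⟩ := hDel _ _ (pData A) K c m h t S hcm
  obtain ⟨d, δ, hδ, hYs⟩ := hD2 Y z hY
  have hcc : ∀ y : K, c (c y) = y := by
    intro y
    obtain ⟨σ⟩ : Nonempty (K →+* ℂ) := inferInstance
    apply σ.injective
    rw [← S.conj σ (c y)]
    have h1 : cj σ (c y) = conj (σ (c y)) := rfl
    have h2 : cj σ y = conj (σ y) := rfl
    rw [h1, ← S.conj σ y, h2, Complex.conj_conj]
  have hϖ : (2 * Real.pi * Complex.I : ℂ) ≠ 0 := Complex.two_pi_I_ne_zero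
  have key : ∀ x : K, c x = -x → ∀ Z : Module.End ℂ A.H1, IsCen t Z (fun σ => σ x) →
      ∀ u v, (pData A).ψ (Z u) v + (pData A).ψ u (Z v) = 0 := by
    intro x hx Z hZ
    obtain ⟨Z0, hZ0, hdrb0⟩ := hD1 x hx
    have hZeq : Z = Z0 := eq_of_act S.conj S.herm S.nd S.cliff hZ.1 hZ0.1 hZ.2 hZ0.2
    have hdrb : IsDRB (pData A) (pData A) Z := by rw [hZeq]; exact hdrb0
    obtain ⟨Z', hdrb', hadj⟩ := Pool.Agent.Helper71.AF.exists_adj (pData A) hϖ Z hdrb
    have hcomm : Z * Z' = Z' * Z := BvE.comm_bvS hZ.1 Z' ((S.cent Z').mp hdrb').2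
    have m1 : ∀ u v : A.H1, Hf A (Z u) v = Hf A u (Z' v) := Hf_move A Z Z' hdrb' hadj
    have m2 : ∀ u v : A.H1, Hf A (Z' u) v = Hf A u (Z v) := by
      intro u v
      rw [Hf_symm, ← m1, ← Hf_symm]
    have hspan := hEva A.H1 K c m h t ⟨S.conj, hcm, S.herm, S.nd, S.cliff⟩
    have hzero : Z' + Z = 0 := by
      apply LinearMap.ext_on_range (v := fun v : {v : A.H1 | ∃ n : (K →+* ℂ) → ℕ,
        (∀ σ, n σ + n (cj σ) = m) ∧ CE t (fun σ => (n σ : ℂ) / 2 - (m : ℂ) / 4) v} => (v : A.H1))
      · rw [Subtype.range_coe]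
        exact hspan
      · rintro ⟨v, n, _, hv⟩
        show (Z' + Z) v = (0 : Module.End ℂ A.H1) v
        set l : ℂ := ∑ σ : K →+* ℂ, σ x * ((n σ : ℂ) / 2 - (m : ℂ) / 4) with hl
        have hZv : Z v = l • v := hv Z _ hZ
        have hlc : conj l = -l := by
          rw [hl, map_sum, ← Finset.sum_neg_distrib]
          refine Finset.sum_congr rfl fun σ _ => ?_
          rw [map_mul, map_sub, map_div₀, map_div₀, map_natCast, map_natCast, map_ofNat, map_ofNat]
          have h1 : cj σ x = conj (σ x) := rfl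
          rw [← h1, S.conj, hx, map_neg, neg_mul]
        set u : A.H1 := Z' v + l • v with hu
        have hZu : Z u = l • u := by
          have h1 : Z (Z' v) = Z' (Z v) := LinearMap.congr_fun hcomm v
          rw [hu, map_add, map_smul, h1, hZv, map_smul, smul_add]
        have h0 : Hf A u u = 0 := by
          have h1 : Hf A u u = Hf A (Z' v) u + l * Hf A v u := by
            conv_lhs => rw [hu]
            rw [Hf_add_left, Hf_smul_left]
          rw [h1, m2, hZu, Hf_smul_right, hlc]
          ring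
        have hu0 : u = 0 := by
          by_contra hne
          have h1 := (Hf_pos A u hne).1
          rw [h0, Complex.zero_re] at h1
          exact lt_irrefl _ h1
        rw [LinearMap.add_apply, hZv, LinearMap.zero_apply]
        exact hu0
    intro u v
    rw [hadj, ← map_add]
    have h1 := LinearMap.congr_fun hzero v
    rw [LinearMap.add_apply, LinearMap.zero_apply] at h1
    rw [h1, map_zero]
  intro u v
  rw [hYs, LinearMap.sum_apply, LinearMap.sum_apply, map_sum, LinearMap.sum_apply, map_sum,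
    ← Finset.sum_add_distrib]
  refine Finset.sum_eq_zero fun k _ => ?_
  rw [LinearMap.smul_apply, LinearMap.smul_apply, map_smul, LinearMap.smul_apply, map_smul,
    ← smul_add, key _ _ (δ k) (hδ k), smul_zero]
  rw [map_sub, hcc, neg_sub]

end Pool.Agent.KTW
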