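import Pool.Agent.KTW.StT

/-!
# KTW: the middle part, real and complex type
-/

set_option autoImplicit false

namespace Pool.Agent.KTW

open Module Matrix NumberField Pool.Agent.Helper7 Pool.Agent.KS Pool.Agent.Ball Pool.Agent.KSE
  Pool.Agent.Helper28.GPC Pool.Agent.K3P Pool.Agent.KTP
open Pool.Agent.KQ4 (en cq cf QP)

namespace Psyx

/-- the coordinates in the complex case -/
theorem cz_two (ε : ℂ) {m : ℕ} (hm : m = 2) (B M : Matrix (Fin m) (Fin m) ℂ) :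
    cz ε B M = cs (B⁻¹ * M * B) := by
  unfold cz
  rw [if_pos hm]

/-- the coordinates in the real case -/
theorem cz_real (ε : ℂ) {K : Type} [Field K] [NumberField K] {m : ℕ} (hm : m ≠ 2)
    (h : Matrix (Fin m) (Fin m) K) (σ : K →+* ℂ) (B M : Matrix (Fin m) (Fin m) ℂ)
    (hB : Bᵀ * h.map σ * B = 1) : cf ε h σ B M = cz ε B M := by
  have h1 : B⁻¹ = Bᵀ * h.map σ := Matrix.inv_eq_left_inv hB
  unfold cz cf
  rw [if_neg hm, h1]

/-- transport of a system along a bijection -/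
theorem qp_comp {S T V : Type} [AddCommGroup V] [Module ℂ V]
    (s : T → (Fin 3 → ℂ) →ₗ[ℂ] Module.End ℂ V) (p : Module.End ℂ V) (φ : S → T)
    (hφ : Function.Injective φ) (h : QP s p) : QP (fun σ => s (φ σ)) p where
  pp := h.pp
  ne := h.ne
  ps := fun σ x => h.ps (φ σ) x
  mul := fun σ x y => h.mul (φ σ) x y
  cc := fun σ ρ hσ x y => h.cc (φ σ) (φ ρ) (fun e => hσ (hφ e)) x y

end Psyx

theorem thm_Psy (hQcm : St_Qcm) (hQcl : KQ4.St_Qcl) : St_Psy := by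
  intro κ _ _ _ ϖ P K _ _ c m h t σ₀ hMD hQn ε hε S _ _ φ hφ C hC
  rcases hQn with ⟨hre, hm⟩ | ⟨hco, hm⟩
  · -- real case
    have hcj : ∀ σ : K →+* ℂ, cj σ = σ := hre.1
    have hm2 : m ≠ 2 := by rcases hm with hm | hm <;> omega
    have hinj : Function.Injective φ := fun σ σ' e => hφ.1 σ σ' (Or.inl e)
    have hsurj : Function.Surjective φ := by
      intro τ
      obtain ⟨σ, hσ⟩ := hφ.2 τ
      refine ⟨σ, ?_⟩
      rcases hσ with hσ | hσ
      · exact hσ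
      · rw [hσ, hcj]
    let e : S ≃ (K →+* ℂ) := Equiv.ofBijective φ ⟨hinj, hsurj⟩
    have he : ∀ σ, e σ = φ σ := fun σ => rfl
    have hεε : ε * ε = 1 := by
      rcases hε with hε | hε <;> rw [hε] <;> norm_num
    have hfr : ∀ σ : S, (C σ)ᵀ * h.map (φ σ) * C σ = 1 := fun σ => (hC σ).2 (hcj (φ σ))
    have hB : ∀ τ : K →+* ℂ, (C (e.symm τ))ᵀ * h.map τ * C (e.symm τ) = 1 := by
      intro τ
      have h1 := hfr (e.symm τ)
      rw [← he, Equiv.apply_symm_apply] at h1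
      exact h1
    obtain ⟨s, p, hQP, hX⟩ := hQcl κ K c m h t hMD.conj hMD.herm hMD.nd hMD.cliff hcj hm ε hεε
      (fun τ => C (e.symm τ)) hB
    refine ⟨fun σ => s (φ σ), p, Psyx.qp_comp s p φ hinj hQP, ?_⟩
    intro X hXb M hM
    obtain ⟨h1, h2⟩ := hX X hXb M hM
    refine ⟨h1, ?_⟩
    rw [h2]
    have h3 : (∑ τ : K →+* ℂ, s τ (cf ε h τ (C (e.symm τ)) (M τ)))
        = ∑ σ : S, s (φ σ) (cz ε (C σ) (M (φ σ))) := by
      rw [← Equiv.sum_comp e (fun τ => s τ (cf ε h τ (C (e.symm τ)) (M τ)))]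
      refine Finset.sum_congr rfl fun σ _ => ?_
      rw [Equiv.symm_apply_apply, he, Psyx.cz_real ε hm2 h (φ σ) (C σ) (M (φ σ)) (hfr σ)]
    rw [h3]
  · -- complex case
    have hCM : CMR c h t := ⟨hMD.conj, hco.1, hMD.herm, hMD.nd, hMD.cliff⟩
    obtain ⟨s, p, hQP, hX⟩ := hQcm (κ → ℂ) K c m h t hCM hm S φ hφ C (fun σ => (hC σ).1)
    refine ⟨s, p, hQP, ?_⟩
    intro X hXb M hM
    obtain ⟨h1, h2⟩ := hX X hXb M hM
    refine ⟨h1, ?_⟩
    rw [h2]
    have h3 : (∑ σ : S, s σ (cs ((C σ)⁻¹ * M (φ σ) * C σ)))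
        = ∑ σ : S, s σ (cz ε (C σ) (M (φ σ))) :=
      Finset.sum_congr rfl fun σ _ => by rw [Psyx.cz_two ε hm]
    rw [h3]

end Pool.Agent.KTW
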