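import Pool.Agent.KTW.StT
import Pool.Agent.KTW.Flx

/-!
# KTW, module QCM: commuting actions of the quaternions, complex type, `m = 2` (helper67)
-/

set_option autoImplicit false
set_option linter.unusedSimpArgs false

namespace Pool.Agent.KTW

open Module Matrix NumberField Pool.Agent.Helper7 Pool.Agent.KS Pool.Agent.Ball Pool.Agent.KSE
open Pool.Agent.KQ4 (en QP)

namespace Qcmx

section one

variable {𝓐 : Type} [Ring 𝓐]

/-- the relations of two pairs of creation and annihilation operators -/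
structure Car (e f : Fin 2 → 𝓐) : Prop where
  ef : ∀ a b, e a * f b + f b * e a = if a = b then 1 else 0
  ee : ∀ a b, e a * e b + e b * e a = 0
  ff : ∀ a b, f a * f b + f b * f a = 0
  e_sq : ∀ a, e a * e a = 0
  f_sq : ∀ a, f a * f a = 0

/-- the projector to the vectors with exactly one particle -/
def qn (e f : Fin 2 → 𝓐) : 𝓐 :=
  e 0 * f 0 + e 1 * f 1 - (e 0 * f 0 * (e 1 * f 1) + e 0 * f 0 * (e 1 * f 1))

variable {e f : Fin 2 → 𝓐} (H : Car e f)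

include H

lemma Car.e_sq' (a : Fin 2) (z : 𝓐) : e a * (e a * z) = 0 := by
  rw [← mul_assoc, H.e_sq, zero_mul]

lemma Car.f_sq' (a : Fin 2) (z : 𝓐) : f a * (f a * z) = 0 := by
  rw [← mul_assoc, H.f_sq, zero_mul]

lemma Car.e10 : e 1 * e 0 = -(e 0 * e 1) := eq_neg_of_add_eq_zero_left (H.ee 1 0)

lemma Car.f10 : f 1 * f 0 = -(f 0 * f 1) := eq_neg_of_add_eq_zero_left (H.ff 1 0)

lemma Car.e10' (z : 𝓐) : e 1 * (e 0 * z) = -(e 0 * (e 1 * z)) := by
  rw [← mul_assoc, H.e10, neg_mul, mul_assoc]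

lemma Car.f10' (z : 𝓐) : f 1 * (f 0 * z) = -(f 0 * (f 1 * z)) := by
  rw [← mul_assoc, H.f10, neg_mul, mul_assoc]

lemma Car.fe (a : Fin 2) : f a * e a = 1 - e a * f a := by
  have h1 := H.ef a a
  rw [if_pos rfl] at h1
  rw [← h1]
  abel

lemma Car.fe' (a : Fin 2) (z : 𝓐) : f a * (e a * z) = z - e a * (f a * z) := by
  rw [← mul_assoc, H.fe, sub_mul, one_mul, mul_assoc]

lemma Car.f0e1 : f 0 * e 1 = -(e 1 * f 0) := by
  have h1 := H.ef 1 0
  rw [if_neg (by decide)] at h1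
  exact eq_neg_of_add_eq_zero_right h1

lemma Car.f1e0 : f 1 * e 0 = -(e 0 * f 1) := by
  have h1 := H.ef 0 1
  rw [if_neg (by decide)] at h1
  exact eq_neg_of_add_eq_zero_right h1

lemma Car.f0e1' (z : 𝓐) : f 0 * (e 1 * z) = -(e 1 * (f 0 * z)) := by
  rw [← mul_assoc, H.f0e1, neg_mul, mul_assoc]

lemma Car.f1e0' (z : 𝓐) : f 1 * (e 0 * z) = -(e 0 * (f 1 * z)) := by
  rw [← mul_assoc, H.f1e0, neg_mul, mul_assoc]

/-- the projector is idempotent -/
lemma Car.qq : qn e f * qn e f = qn e f := by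
  simp only [qn, mul_assoc, mul_add, add_mul, mul_sub, sub_mul, mul_neg, neg_mul, H.e_sq, H.f_sq,
    H.e_sq', H.f_sq', H.e10, H.f10, H.e10', H.f10', H.fe, H.fe', H.f0e1, H.f1e0, H.f0e1', H.f1e0',
    mul_zero, zero_mul, mul_one, one_mul, neg_zero, neg_neg, sub_zero, zero_sub]
  abel

/-- the projector commutes with the operators which preserve the number of particles -/
lemma Car.Eq (a b : Fin 2) : e a * f b * qn e f = qn e f * (e a * f b) := by
  fin_cases a <;> fin_cases b <;>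
  · simp only [Fin.zero_eta, Fin.mk_one, Fin.isValue, qn, mul_assoc, mul_add, add_mul, mul_sub,
      sub_mul, mul_neg, neg_mul, H.e_sq, H.f_sq,
      H.e_sq', H.f_sq', H.e10, H.f10, H.e10', H.f10', H.fe, H.fe', H.f0e1, H.f1e0, H.f0e1', H.f1e0',
      mul_zero, zero_mul, mul_one, one_mul, neg_zero, neg_neg, sub_zero, zero_sub]
    try abel

/-- there is exactly one particle -/
lemma Car.num : (e 0 * f 0 + e 1 * f 1) * qn e f = qn e f := by
  simp only [qn, mul_assoc, mul_add, add_mul, mul_sub, sub_mul, mul_neg, neg_mul, H.e_sq, H.f_sq,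
    H.e_sq', H.f_sq', H.e10, H.f10, H.e10', H.f10', H.fe, H.fe', H.f0e1, H.f1e0, H.f0e1', H.f1e0',
    mul_zero, zero_mul, mul_one, one_mul, neg_zero, neg_neg, sub_zero, zero_sub]
  abel

/-- matrix units -/
lemma Car.EE (a b c d : Fin 2) : e a * f b * (e c * f d * qn e f) =
    if b = c then e a * f d * qn e f else 0 := by
  fin_cases a <;> fin_cases b <;> fin_cases c <;> fin_cases d <;>
  · simp only [Fin.zero_eta, Fin.mk_one, Fin.isValue, qn, mul_assoc, mul_add, add_mul, mul_sub,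
      sub_mul, mul_neg, neg_mul, H.e_sq, H.f_sq,
      H.e_sq', H.f_sq', H.e10, H.f10, H.e10', H.f10', H.fe, H.fe', H.f0e1, H.f1e0, H.f0e1', H.f1e0',
      mul_zero, zero_mul, mul_one, one_mul, neg_zero, neg_neg, sub_zero, zero_sub, if_true,
      zero_ne_one, one_ne_zero, if_false]
    try abel

lemma Car.T1 : qn e f * (e 0 * ((1 - e 0 * f 0) * (1 - e 1 * f 1))) =
    e 0 * ((1 - e 0 * f 0) * (1 - e 1 * f 1)) := by
  simp only [qn, mul_assoc, mul_add, add_mul, mul_sub, sub_mul, mul_neg, neg_mul, H.e_sq, H.f_sq,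
    H.e_sq', H.f_sq', H.e10, H.f10, H.e10', H.f10', H.fe, H.fe', H.f0e1, H.f1e0, H.f0e1', H.f1e0',
    mul_zero, zero_mul, mul_one, one_mul, neg_zero, neg_neg, sub_zero, zero_sub]
  abel

lemma Car.T2 : qn e f * (f 0 * (e 0 * f 0 * (e 1 * f 1))) = f 0 * (e 0 * f 0 * (e 1 * f 1)) := by
  simp only [qn, mul_assoc, mul_add, add_mul, mul_sub, sub_mul, mul_neg, neg_mul, H.e_sq, H.f_sq,
    H.e_sq', H.f_sq', H.e10, H.f10, H.e10', H.f10', H.fe, H.fe', H.f0e1, H.f1e0, H.f0e1', H.f1e0',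
    mul_zero, zero_mul, mul_one, one_mul, neg_zero, neg_neg, sub_zero, zero_sub]
  try abel

lemma Car.T3 : f 0 * (e 0 * ((1 - e 0 * f 0) * (1 - e 1 * f 1))) +
    e 0 * (f 0 * (e 0 * f 0 * (e 1 * f 1))) = 1 - qn e f := by
  simp only [qn, mul_assoc, mul_add, add_mul, mul_sub, sub_mul, mul_neg, neg_mul, H.e_sq, H.f_sq,
    H.e_sq', H.f_sq', H.e10, H.f10, H.e10', H.f10', H.fe, H.fe', H.f0e1, H.f1e0, H.f0e1', H.f1e0',
    mul_zero, zero_mul, mul_one, one_mul, neg_zero, neg_neg, sub_zero, zero_sub]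
  abel

omit H

/-- elements which commute with everything -/
lemma comm_qn (y : 𝓐) (hy : ∀ a b, e a * f b * y = y * (e a * f b)) :
    qn e f * y = y * qn e f := by
  have h2 : e 0 * f 0 * (e 1 * f 1) * y = y * (e 0 * f 0 * (e 1 * f 1)) := by
    rw [mul_assoc, hy, ← mul_assoc, hy, mul_assoc]
  rw [qn, sub_mul, mul_sub, add_mul, add_mul, mul_add, mul_add, h2, hy, hy]

lemma anti_ef (y : 𝓐) (he : ∀ a, e a * y = -(y * e a)) (hf : ∀ a, f a * y = -(y * f a))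
    (a b : Fin 2) : e a * f b * y = y * (e a * f b) := by
  rw [mul_assoc, hf, mul_neg, ← mul_assoc, he, neg_mul, neg_neg, mul_assoc]

lemma sq0 [Algebra ℂ 𝓐] {z : 𝓐} (hz : z * z + z * z = 0) : z * z = 0 := by
  have h2 : (2 : ℂ) • (z * z) = 0 := by
    rw [two_smul]
    exact hz
  exact (smul_eq_zero.mp h2).resolve_left two_ne_zero

end one

section two

variable {𝓐 : Type} [Ring 𝓐] [Algebra ℂ 𝓐] {e f : Fin 2 → 𝓐}

/-- the action of the matrices -/
noncomputable def en2 (e f : Fin 2 → 𝓐) : Matrix (Fin 2) (Fin 2) ℂ →ₗ[ℂ] 𝓐 where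
  toFun A := ∑ a, ∑ b, A a b • (e a * f b)
  map_add' A B := by
    simp only [Matrix.add_apply, add_smul, Finset.sum_add_distrib]
  map_smul' r A := by
    simp only [Matrix.smul_apply, smul_eq_mul, mul_smul, Finset.smul_sum, RingHom.id_apply]

lemma en2_apply (A : Matrix (Fin 2) (Fin 2) ℂ) :
    en2 e f A = ∑ a, ∑ b, A a b • (e a * f b) := rfl

lemma en2_one : en2 e f 1 = e 0 * f 0 + e 1 * f 1 := by
  rw [en2_apply]
  simp [Fin.sum_univ_two]

lemma en2_mul (H : Car e f) (A B : Matrix (Fin 2) (Fin 2) ℂ) :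
    en2 e f A * (en2 e f B * qn e f) = en2 e f (A * B) * qn e f := by
  rw [en2_apply, en2_apply, en2_apply]
  simp only [Fin.sum_univ_two, Matrix.mul_apply, add_mul, mul_add, smul_mul_assoc, mul_smul_comm,
    H.EE, if_true, zero_ne_one, one_ne_zero, if_false, smul_zero, add_zero, zero_add, Fin.isValue]
  module

/-- the matrices of trace zero -/
noncomputable def Tm : (Fin 3 → ℂ) →ₗ[ℂ] Matrix (Fin 2) (Fin 2) ℂ where
  toFun x := !![-Complex.I * x 2 / 2, (-Complex.I * x 0 - x 1) / 2;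
    (-Complex.I * x 0 + x 1) / 2, Complex.I * x 2 / 2]
  map_add' x y := by
    ext i j
    fin_cases i <;> fin_cases j <;> simp <;> ring
  map_smul' r x := by
    ext i j
    fin_cases i <;> fin_cases j <;> simp <;> ring

lemma Tm_apply (x : Fin 3 → ℂ) : Tm x =
    !![-Complex.I * x 2 / 2, (-Complex.I * x 0 - x 1) / 2;
    (-Complex.I * x 0 + x 1) / 2, Complex.I * x 2 / 2] := rfl

lemma Tm_mul (x y : Fin 3 → ℂ) : Tm x * Tm y =
    (-(x ⬝ᵥ y) / 4) • (1 : Matrix (Fin 2) (Fin 2) ℂ) + (1 / 2 : ℂ) • Tm (crossProduct x y) := by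
  have hI : Complex.I * Complex.I = -1 := Complex.I_mul_I
  rw [Tm_apply, Tm_apply, Tm_apply, cross_apply]
  ext i j
  fin_cases i <;> fin_cases j <;>
    simp [Matrix.mul_apply, Fin.sum_univ_two, dotProduct, Fin.sum_univ_three]
  · linear_combination ((x 2 * y 2 + x 0 * y 0) / 4) * hI
  · linear_combination ((x 2 * y 0 - x 0 * y 2) / 4) * hI
  · linear_combination ((x 0 * y 2 - x 2 * y 0) / 4) * hI
  · linear_combination ((x 2 * y 2 + x 0 * y 0) / 4) * hI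

lemma Tm_cs (A : Matrix (Fin 2) (Fin 2) ℂ) :
    Tm (cs A) = A - ((A 0 0 + A 1 1) / 2) • (1 : Matrix (Fin 2) (Fin 2) ℂ) := by
  have hI : Complex.I * Complex.I = -1 := Complex.I_mul_I
  rw [Tm_apply, cs]
  ext i j
  fin_cases i <;> fin_cases j <;> simp [en]
  · linear_combination (-(A 0 0 - A 1 1) / 2) * hI
  · linear_combination (-(A 0 1 + A 1 0) / 2) * hI
  · linear_combination (-(A 0 1 + A 1 0) / 2) * hI
  · linear_combination ((A 0 0 - A 1 1) / 2) * hI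

lemma en2_comm (A : Matrix (Fin 2) (Fin 2) ℂ) (y : 𝓐)
    (hy : ∀ a b, e a * f b * y = y * (e a * f b)) : en2 e f A * y = y * en2 e f A := by
  rw [en2_apply]
  simp only [Finset.sum_mul, Finset.mul_sum, smul_mul_assoc, mul_smul_comm, hy]

end two

section proj

variable {S V : Type} [AddCommGroup V] [Module ℂ V]

/-- the product of commuting projectors -/
lemma proj [Nontrivial V] (q T T' R R' : S → Module.End ℂ V) (hq : ∀ σ, q σ * q σ = q σ)
    (hc : ∀ σ ρ, q σ * q ρ = q ρ * q σ) (hT : ∀ σ, q σ * T σ = T σ) (hR : ∀ σ, q σ * R σ = R σ)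
    (h1 : ∀ σ, T' σ * T σ + R' σ * R σ = 1 - q σ)
    (hTc : ∀ σ ρ, ρ ≠ σ → q ρ * T σ = T σ * q ρ) (hRc : ∀ σ ρ, ρ ≠ σ → q ρ * R σ = R σ * q ρ)
    (F : Finset S) :
    ∃ p : Module.End ℂ V, p * p = p ∧ (∀ σ ∈ F, q σ * p = p) ∧
      (∀ y : Module.End ℂ V, (∀ σ ∈ F, q σ * y = y * q σ) → p * y = y * p) ∧
      ∃ v : V, v ≠ 0 ∧ p v = v := by
  classical
  induction F using Finset.induction_on with
  | empty =>
    obtain ⟨v, hv⟩ := exists_ne (0 : V)
    refine ⟨1, one_mul _, ?_, ?_, v, hv, rfl⟩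
    · intro σ hσ
      exact absurd hσ (Finset.notMem_empty σ)
    · intro y _
      rw [one_mul, mul_one]
  | insert σ F hσ ih =>
    obtain ⟨p, k1, k2, k3, v, hv, hpv⟩ := ih
    have hp : p * q σ = q σ * p := k3 (q σ) fun ρ _ => hc ρ σ
    have hfix : ∀ Y : Module.End ℂ V, q σ * Y = Y → (∀ ρ, ρ ≠ σ → q ρ * Y = Y * q ρ) →
        Y v ≠ 0 → ∃ w : V, w ≠ 0 ∧ (q σ * p) w = w := by
      intro Y hY hYc hY0
      refine ⟨Y v, hY0, ?_⟩
      have k5 : p * Y = Y * p := k3 Y fun ρ hρ => hYc ρ fun h => hσ (h ▸ hρ)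
      have k8 : p (Y v) = Y v := by
        rw [← Module.End.mul_apply, k5, Module.End.mul_apply, hpv]
      rw [Module.End.mul_apply, k8, ← Module.End.mul_apply, hY]
    refine ⟨q σ * p, ?_, ?_, ?_, ?_⟩
    · rw [mul_assoc, ← mul_assoc p (q σ) p, hp, mul_assoc (q σ) p p, k1, ← mul_assoc, hq]
    · intro ρ hρ
      rcases Finset.mem_insert.1 hρ with h | h
      · rw [h, ← mul_assoc, hq]
      · rw [← mul_assoc, hc ρ σ, mul_assoc, k2 ρ h]
    · intro y hy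
      rw [mul_assoc, k3 y fun ρ hρ => hy ρ (Finset.mem_insert_of_mem hρ), ← mul_assoc,
        hy σ (Finset.mem_insert_self σ F), mul_assoc]
    · by_cases hz : q σ v = 0
      · by_cases h3 : T σ v = 0
        · by_cases h4 : R σ v = 0
          · exfalso
            apply hv
            have h5 := LinearMap.congr_fun (h1 σ) v
            rw [LinearMap.add_apply, Module.End.mul_apply, Module.End.mul_apply, h3, h4, map_zero,
              map_zero, add_zero, LinearMap.sub_apply, hz, sub_zero, Module.End.one_apply] at h5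
            exact h5.symm
          · exact hfix _ (hR σ) (hRc σ) h4
        · exact hfix _ (hT σ) (hTc σ) h3
      · exact hfix (q σ) (hq σ) (fun ρ _ => hc ρ σ) hz

/-- all places -/
lemma multi [Fintype S] [Nontrivial V] (e f : S → Fin 2 → Module.End ℂ V)
    (H : ∀ σ, Car (e σ) (f σ)) (hee : ∀ σ ρ, σ ≠ ρ → ∀ a b, e σ a * e ρ b = -(e ρ b * e σ a))
    (hef : ∀ σ ρ, σ ≠ ρ → ∀ a b, e σ a * f ρ b = -(f ρ b * e σ a))
    (hff : ∀ σ ρ, σ ≠ ρ → ∀ a b, f σ a * f ρ b = -(f ρ b * f σ a)) :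
    ∃ (s : S → (Fin 3 → ℂ) →ₗ[ℂ] Module.End ℂ V) (p : Module.End ℂ V), QP s p ∧
      (∀ σ A, en2 (e σ) (f σ) A * p = p * en2 (e σ) (f σ) A) ∧
      ∀ σ (A : Matrix (Fin 2) (Fin 2) ℂ), s σ (cs A) * p =
        (en2 (e σ) (f σ) A - ((A 0 0 + A 1 1) / 2) • 1) * p := by
  classical
  have hfe : ∀ σ ρ, σ ≠ ρ → ∀ a b, f σ a * e ρ b = -(e ρ b * f σ a) := by
    intro σ ρ hne a b
    rw [hef ρ σ hne.symm b a, neg_neg]
  have hEe : ∀ σ ρ, σ ≠ ρ → ∀ a b c, e σ a * f σ b * e ρ c = e ρ c * (e σ a * f σ b) :=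
    fun σ ρ hne a b c => anti_ef (e ρ c) (fun a => hee σ ρ hne a c) (fun a => hfe σ ρ hne a c) a b
  have hEf : ∀ σ ρ, σ ≠ ρ → ∀ a b c, e σ a * f σ b * f ρ c = f ρ c * (e σ a * f σ b) :=
    fun σ ρ hne a b c => anti_ef (f ρ c) (fun a => hef σ ρ hne a c) (fun a => hff σ ρ hne a c) a b
  have hEE : ∀ σ ρ, σ ≠ ρ → ∀ a b c d, e σ a * f σ b * (e ρ c * f ρ d) =
      e ρ c * f ρ d * (e σ a * f σ b) := by
    intro σ ρ hne a b c d
    rw [← mul_assoc, hEe σ ρ hne, mul_assoc, hEf σ ρ hne, ← mul_assoc]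
  have hqe : ∀ σ ρ, σ ≠ ρ → ∀ c, qn (e σ) (f σ) * e ρ c = e ρ c * qn (e σ) (f σ) :=
    fun σ ρ hne c => comm_qn _ fun a b => hEe σ ρ hne a b c
  have hqf : ∀ σ ρ, σ ≠ ρ → ∀ c, qn (e σ) (f σ) * f ρ c = f ρ c * qn (e σ) (f σ) :=
    fun σ ρ hne c => comm_qn _ fun a b => hEf σ ρ hne a b c
  have hqE : ∀ σ ρ c d, e ρ c * f ρ d * qn (e σ) (f σ) = qn (e σ) (f σ) * (e ρ c * f ρ d) := by
    intro σ ρ c d
    by_cases hne : σ = ρ
    · rw [hne]
      exact (H ρ).Eq c d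
    · rw [← mul_assoc, hqe σ ρ hne, mul_assoc, mul_assoc, hqf σ ρ hne]
  have hqq : ∀ σ ρ, qn (e σ) (f σ) * qn (e ρ) (f ρ) = qn (e ρ) (f ρ) * qn (e σ) (f σ) :=
    fun σ ρ => comm_qn _ fun a b => hqE ρ σ a b
  obtain ⟨p, hpp, hqp, hpc, v, hv, hpv⟩ := proj (fun σ => qn (e σ) (f σ))
    (fun σ => e σ 0 * ((1 - e σ 0 * f σ 0) * (1 - e σ 1 * f σ 1))) (fun σ => f σ 0)
    (fun σ => f σ 0 * (e σ 0 * f σ 0 * (e σ 1 * f σ 1))) (fun σ => e σ 0)
    (fun σ => (H σ).qq) hqq (fun σ => (H σ).T1) (fun σ => (H σ).T2) (fun σ => (H σ).T3)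
    (by
      intro σ ρ hne
      have k1 := hqe ρ σ hne 0
      have k2 := hqE ρ σ 0 0
      have k3 := hqE ρ σ 1 1
      have k4 : qn (e ρ) (f ρ) * ((1 - e σ 0 * f σ 0) * (1 - e σ 1 * f σ 1)) =
          (1 - e σ 0 * f σ 0) * (1 - e σ 1 * f σ 1) * qn (e ρ) (f ρ) := by
        have k5 : qn (e ρ) (f ρ) * (1 - e σ 0 * f σ 0) = (1 - e σ 0 * f σ 0) * qn (e ρ) (f ρ) := by
          rw [mul_sub, sub_mul, mul_one, one_mul, k2]
        have k6 : qn (e ρ) (f ρ) * (1 - e σ 1 * f σ 1) = (1 - e σ 1 * f σ 1) * qn (e ρ) (f ρ) := by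
          rw [mul_sub, sub_mul, mul_one, one_mul, k3]
        rw [← mul_assoc, k5, mul_assoc, k6, mul_assoc]
      show qn (e ρ) (f ρ) * (e σ 0 * ((1 - e σ 0 * f σ 0) * (1 - e σ 1 * f σ 1))) =
        e σ 0 * ((1 - e σ 0 * f σ 0) * (1 - e σ 1 * f σ 1)) * qn (e ρ) (f ρ)
      rw [← mul_assoc, k1, mul_assoc, k4, ← mul_assoc])
    (by
      intro σ ρ hne
      have k1 := hqf ρ σ hne 0
      have k2 := hqE ρ σ 0 0
      have k3 := hqE ρ σ 1 1
      show qn (e ρ) (f ρ) * (f σ 0 * (e σ 0 * f σ 0 * (e σ 1 * f σ 1))) =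
        f σ 0 * (e σ 0 * f σ 0 * (e σ 1 * f σ 1)) * qn (e ρ) (f ρ)
      rw [← mul_assoc, k1, mul_assoc, ← mul_assoc (qn (e ρ) (f ρ)), ← k2, mul_assoc (e σ 0 * f σ 0),
        ← k3, ← mul_assoc (e σ 0 * f σ 0), ← mul_assoc (f σ 0)]) Finset.univ
  have hqp' : ∀ σ, qn (e σ) (f σ) * p = p := fun σ => hqp σ (Finset.mem_univ σ)
  have hEp : ∀ σ a b, e σ a * f σ b * p = p * (e σ a * f σ b) :=
    fun σ a b => (hpc _ fun ρ _ => (hqE ρ σ a b).symm).symm
  have hnum : ∀ σ, (e σ 0 * f σ 0 + e σ 1 * f σ 1) * p = p := by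
    intro σ
    have k1 := congrArg (fun z => z * p) (H σ).num
    simp only [mul_assoc, hqp'] at k1
    exact k1
  have hAp : ∀ σ A, en2 (e σ) (f σ) A * p = p * en2 (e σ) (f σ) A :=
    fun σ A => en2_comm A p fun a b => hEp σ a b
  refine ⟨fun σ => en2 (e σ) (f σ) ∘ₗ Tm, p, ⟨hpp, ?_, ?_, ?_, ?_⟩, hAp, ?_⟩
  · intro h0
    rw [h0, LinearMap.zero_apply] at hpv
    exact hv hpv.symm
  · intro σ x
    exact (hAp σ (Tm x)).symm
  · intro σ x y
    show en2 (e σ) (f σ) (Tm x) * en2 (e σ) (f σ) (Tm y) * p =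
      (-(x ⬝ᵥ y) / 4) • p + (1 / 2 : ℂ) • (en2 (e σ) (f σ) (Tm (crossProduct x y)) * p)
    have k1 := congrArg (fun z => z * p) (en2_mul (H σ) (Tm x) (Tm y))
    simp only [mul_assoc, hqp'] at k1
    rw [mul_assoc, k1, Tm_mul, map_add, map_smul, map_smul, en2_one, add_mul, smul_mul_assoc,
      smul_mul_assoc, hnum]
  · intro σ ρ hne x y
    refine en2_comm _ _ fun a b => ?_
    exact (en2_comm _ _ fun c d => hEE ρ σ hne.symm c d a b).symm
  · intro σ A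
    show en2 (e σ) (f σ) (Tm (cs A)) * p = _
    rw [Tm_cs, map_sub, map_smul, en2_one, sub_mul, sub_mul, smul_mul_assoc, smul_mul_assoc, hnum,
      one_mul]

end proj

section act

variable {V : Type} [AddCommGroup V] [Module ℂ V] {K : Type} [Field K] [NumberField K]
  {m : ℕ} {t : Fin m → K → Module.End ℂ V}

lemma actsum {ι : Type} (s : Finset ι) (X : ι → Module.End ℂ V)
    (M : ι → (K →+* ℂ) → Matrix (Fin m) (Fin m) ℂ) (hX : ∀ i, ActM t (X i) (M i)) :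
    ActM t (∑ i ∈ s, X i) (∑ i ∈ s, M i) := by
  classical
  induction s using Finset.induction_on with
  | empty => rw [Finset.sum_empty, Finset.sum_empty]; exact ActM.zero
  | insert i s hi ih =>
    rw [Finset.sum_insert hi, Finset.sum_insert hi]
    exact ActM.add (hX i) ih

end act

end Qcmx

theorem thm_Qcm (hCss : St_Css) : St_Qcm := by
  intro V _ _ _ _ K _ _ c m h t C hm S _ _ φ hφ B hB
  have _h := hCss
  subst hm
  classical
  have hφne : ∀ σ ρ, σ ≠ ρ → φ ρ ≠ φ σ := fun σ ρ hne h1 => hne (hφ.1 ρ σ (Or.inl h1)).symm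
  have hφcj : ∀ σ ρ, σ ≠ ρ → φ ρ ≠ cj (φ σ) := fun σ ρ hne h1 => hne (hφ.1 ρ σ (Or.inr h1)).symm
  have hH : ∀ σ : K →+* ℂ, IsUnit (h.map σ).det := by
    intro σ
    have e : (h.map σ).det = σ h.det := (RingHom.map_det σ h).symm
    rw [e]
    exact ((map_ne_zero σ).mpr C.nd).isUnit
  obtain ⟨D, hD⟩ : ∃ D : S → Matrix (Fin 2) (Fin 2) ℂ,
      ∀ σ, D σ = (1 / 2 : ℂ) • ((B σ)ᵀ * h.map (φ σ))⁻¹ := ⟨_, fun _ => rfl⟩
  have hBD : ∀ σ, (B σ)ᵀ * h.map (φ σ) * D σ = (1 / 2 : ℂ) • (1 : Matrix (Fin 2) (Fin 2) ℂ) := by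
    intro σ
    rw [hD, Matrix.mul_smul, Matrix.mul_nonsing_inv]
    rw [Matrix.det_mul, Matrix.det_transpose]
    exact (hB σ).mul (hH (φ σ))
  have hpr : ∀ σ a b, 2 * pr h (φ σ) (fun d => B σ d a) (fun d => D σ d b) =
      (1 : Matrix (Fin 2) (Fin 2) ℂ) a b := by
    intro σ a b
    have k1 : pr h (φ σ) (fun d => B σ d a) (fun d => D σ d b) =
        ((B σ)ᵀ * h.map (φ σ) * D σ) a b := by
      rw [pr, Matrix.mul_assoc]
      rfl
    rw [k1, hBD, Matrix.smul_apply, smul_eq_mul]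
    ring
  obtain ⟨e, he⟩ : ∃ e : S → Fin 2 → Module.End ℂ V,
      ∀ σ a, e σ a = tau (ts t (φ σ)) (fun d => B σ d a) := ⟨_, fun _ _ => rfl⟩
  obtain ⟨f, hf⟩ : ∃ f : S → Fin 2 → Module.End ℂ V,
      ∀ σ a, f σ a = tau (ts t (cj (φ σ))) (fun d => D σ d a) := ⟨_, fun _ _ => rfl⟩
  have hef : ∀ σ a b, e σ a * f σ b + f σ b * e σ a = if a = b then 1 else 0 := by
    intro σ a b
    have k1 := tau_pair C.conj C.cliff (φ σ) (fun d => B σ d a) (fun d => D σ d b)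
    rw [hpr, ← he, ← hf, Matrix.one_apply] at k1
    rw [k1]
    split_ifs
    · rw [one_smul]
    · rw [zero_smul]
  have hee : ∀ σ ρ, φ ρ ≠ cj (φ σ) → ∀ a b, e σ a * e ρ b + e ρ b * e σ a = 0 := by
    intro σ ρ hne a b
    rw [he, he]
    exact tau_anti C.conj C.cliff hne _ _
  have hff : ∀ σ ρ, cj (φ ρ) ≠ φ σ → ∀ a b, f σ a * f ρ b + f ρ b * f σ a = 0 := by
    intro σ ρ hne a b
    rw [hf, hf]
    exact tau_anti C.conj C.cliff (by rw [KSE.cj_cj]; exact hne) _ _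
  have hef' : ∀ σ ρ, σ ≠ ρ → ∀ a b, e σ a * f ρ b + f ρ b * e σ a = 0 := by
    intro σ ρ hne a b
    rw [he, hf]
    refine tau_anti C.conj C.cliff ?_ _ _
    intro h1
    apply hφne σ ρ hne
    have h2 := congrArg (fun τ => cj τ) h1
    simp only [KSE.cj_cj] at h2
    exact h2
  have hcm : ∀ σ, φ σ ≠ cj (φ σ) := fun σ => (C.cm (φ σ)).symm
  have hcm' : ∀ σ, cj (φ σ) ≠ φ σ := fun σ => C.cm (φ σ)
  have hCar : ∀ σ, Qcmx.Car (e σ) (f σ) := fun σ =>
    ⟨hef σ, hee σ σ (hcm σ), hff σ σ (hcm' σ), fun a => Qcmx.sq0 (hee σ σ (hcm σ) a a),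
      fun a => Qcmx.sq0 (hff σ σ (hcm' σ) a a)⟩
  have hcc : ∀ σ ρ, σ ≠ ρ → cj (φ ρ) ≠ φ σ := fun σ ρ hne h1 => hφcj ρ σ hne.symm h1.symm
  obtain ⟨s, p, hQP, hcom, hcs⟩ := Qcmx.multi e f hCar
    (fun σ ρ hne a b => eq_neg_of_add_eq_zero_left (hee σ ρ (hφcj σ ρ hne) a b))
    (fun σ ρ hne a b => eq_neg_of_add_eq_zero_left (hef' σ ρ hne a b))
    (fun σ ρ hne a b => eq_neg_of_add_eq_zero_left (hff σ ρ (hcc σ ρ hne) a b))
  refine ⟨s, p, hQP, ?_⟩
  intro X hX M hM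
  obtain ⟨A, hA⟩ : ∃ A : S → Matrix (Fin 2) (Fin 2) ℂ,
      ∀ σ, A σ = (B σ)⁻¹ * M (φ σ) * B σ := ⟨_, fun _ => rfl⟩
  have hBA : ∀ σ, B σ * A σ * (B σ)⁻¹ = M (φ σ) := by
    intro σ
    have k1 : B σ * A σ * (B σ)⁻¹ = (B σ * (B σ)⁻¹) * M (φ σ) * (B σ * (B σ)⁻¹) := by
      rw [hA]
      simp only [Matrix.mul_assoc]
    rw [k1, Matrix.mul_nonsing_inv _ (hB σ), Matrix.one_mul, Matrix.mul_one]
  have hHD : ∀ σ j b, (h.map (φ σ) * D σ) j b = (1 / 2) * (B σ)⁻¹ b j := by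
    intro σ j b
    have k1 : h.map (φ σ) * D σ = (1 / 2 : ℂ) • ((B σ)ᵀ)⁻¹ := by
      have k2 : ((B σ)ᵀ)⁻¹ * ((B σ)ᵀ * h.map (φ σ) * D σ) = h.map (φ σ) * D σ := by
        rw [Matrix.mul_assoc, ← Matrix.mul_assoc, Matrix.nonsing_inv_mul, Matrix.one_mul]
        rw [Matrix.det_transpose]
        exact hB σ
      rw [← k2, hBD, Matrix.mul_smul, Matrix.mul_one]
    rw [k1, ← Matrix.transpose_nonsing_inv, Matrix.smul_apply, Matrix.transpose_apply, smul_eq_mul]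
  -- the operator of the family
  obtain ⟨M', hM'⟩ : ∃ M' : (K →+* ℂ) → Matrix (Fin 2) (Fin 2) ℂ,
      M' = ∑ σ, ∑ a, ∑ b, (A σ a b / 2) • fun τ : K →+* ℂ =>
        if τ = φ σ then Flxx.RM h (cj (φ σ)) (fun d => D σ d b) (fun d => B σ d a)
        else if τ = cj (φ σ) then -Flxx.RM h (φ σ) (fun d => B σ d a) (fun d => D σ d b)
        else 0 := ⟨_, rfl⟩
  have hact : ActM t (∑ σ, ∑ a, ∑ b, (A σ a b / 2) • (e σ a * f σ b - f σ b * e σ a)) M' := by
    rw [hM']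
    refine Qcmx.actsum _ _ _ fun σ => Qcmx.actsum _ _ _ fun a => Qcmx.actsum _ _ _ fun b => ?_
    refine ActM.smul _ ?_
    rw [he, hf]
    exact Flxx.act_gen C (φ σ) _ _
  have hφM : ∀ ρ, M' (φ ρ) = M (φ ρ) := by
    intro ρ
    rw [hM']
    simp only [Finset.sum_apply, Pi.smul_apply]
    rw [Finset.sum_eq_single ρ]
    · simp only [if_true]
      rw [← hBA ρ]
      ext i j
      have k1 : ∀ b, ((fun d => D ρ d b) ᵥ* h.map (cj (φ ρ))) j = (1 / 2) * (B ρ)⁻¹ b j := by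
        intro b
        rw [← hHD, Matrix.vecMul, dotProduct, Matrix.mul_apply]
        refine Finset.sum_congr rfl fun d _ => ?_
        rw [Matrix.map_apply, Matrix.map_apply, C.conj, C.herm, mul_comm]
      simp only [Matrix.add_apply, Matrix.smul_apply, Flxx.RM, Matrix.of_apply, k1, smul_eq_mul,
        Matrix.mul_apply, Fin.sum_univ_two]
      ring
    · intro σ _ hσ
      refine Finset.sum_eq_zero fun a _ => Finset.sum_eq_zero fun b _ => ?_
      rw [if_neg (hφne σ ρ hσ), if_neg (hφcj σ ρ hσ), smul_zero]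
    · intro h11
      exact absurd (Finset.mem_univ _) h11
  have hMM : M' = M := by
    have k1 := (skewM_iff M').2 (ActM.skew C.conj C.cliff hact)
    have k2 := (skewM_iff M).2 (ActM.skew C.conj C.cliff hM)
    funext τ
    obtain ⟨ρ, hρ | hρ⟩ := hφ.2 τ
    · rw [← hρ, hφM]
    · have k3 := k1 (φ ρ)
      have k4 := k2 (φ ρ)
      have k5 : cj (φ ρ) = τ := by rw [hρ, KSE.cj_cj]
      rw [hφM, k5] at k3
      rw [k5] at k4
      have k6 : h.map (φ ρ) * M' τ = h.map (φ ρ) * M τ := by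
        rw [← neg_eq_of_add_eq_zero_right k3, ← neg_eq_of_add_eq_zero_right k4]
      have k7 := congrArg (fun Z => (h.map (φ ρ))⁻¹ * Z) k6
      simp only [← Matrix.mul_assoc, Matrix.nonsing_inv_mul _ (hH (φ ρ)), Matrix.one_mul] at k7
      exact k7
  rw [hMM] at hact
  have hXX : X = ∑ σ, ∑ a, ∑ b, (A σ a b / 2) • (e σ a * f σ b - f σ b * e σ a) := by
    refine eq_of_act C.conj C.herm C.nd C.cliff hX ?_ hM hact
    refine Submodule.sum_mem _ fun σ _ => Submodule.sum_mem _ fun a _ =>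
      Submodule.sum_mem _ fun b _ => Submodule.smul_mem _ _ ?_
    rw [he, hf]
    exact Flxx.mem_bvS t (φ σ) _ _
  have hXE : X = ∑ σ, (Qcmx.en2 (e σ) (f σ) (A σ) - ((A σ 0 0 + A σ 1 1) / 2) • 1) := by
    rw [hXX]
    refine Finset.sum_congr rfl fun σ _ => ?_
    rw [Qcmx.en2_apply]
    simp only [Fin.sum_univ_two, (hCar σ).fe, (hCar σ).f0e1, (hCar σ).f1e0, Fin.isValue]
    module
  constructor
  · rw [hXE, Finset.sum_mul, Finset.mul_sum]
    refine Finset.sum_congr rfl fun σ _ => ?_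
    rw [sub_mul, mul_sub, hcom, smul_mul_assoc, mul_smul_comm, one_mul, mul_one]
  · rw [hXE, Finset.sum_mul, Finset.sum_mul]
    refine Finset.sum_congr rfl fun σ _ => ?_
    rw [← hA, hcs]

end Pool.Agent.KTW
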