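import Pool.Agent.KTW.StT

/-!
# KTW, module QHX: the map of Clifford modules, abstract version
-/

set_option autoImplicit false

namespace Pool.Agent.KTW

open Module Matrix NumberField Pool.Agent.Helper7 Pool.Agent.KS Pool.Agent.Ball Pool.Agent.KSE
  Pool.Agent.Helper28.GPC Pool.Agent.K3P Pool.Agent.KTP
open Pool.Agent.KQ4 (en cq cf QP)

namespace Qhxx

/-- the actions after orthogonal maps -/
theorem qp_comp {S V : Type} [AddCommGroup V] [Module ℂ V]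
    {s' : S → (Fin 3 → ℂ) →ₗ[ℂ] Module.End ℂ V} {p' : Module.End ℂ V} (hQ : QP s' p')
    {g : S → (Fin 3 → ℂ) →ₗ[ℂ] (Fin 3 → ℂ)}
    (hd : ∀ σ x y, g σ x ⬝ᵥ g σ y = x ⬝ᵥ y)
    (hg : ∀ σ x y, g σ (crossProduct x y) = crossProduct (g σ x) (g σ y)) :
    QP (fun σ => s' σ ∘ₗ g σ) p' where
  pp := hQ.pp
  ne := hQ.ne
  ps := fun σ x => hQ.ps σ (g σ x)
  mul := fun σ x y => by
    simp only [LinearMap.comp_apply]
    rw [hQ.mul σ (g σ x) (g σ y), hd, hg]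
  cc := fun σ ρ hne x y => hQ.cc σ ρ hne (g σ x) (g ρ y)

theorem cross_zero (y : Fin 3 → ℂ) (h : ∀ w : Fin 3 → ℂ, crossProduct w y = 0) : y = 0 := by
  have h1 := h ![1, 0, 0]
  have h2 := h ![0, 1, 0]
  rw [cross_apply] at h1 h2
  have a1 := congrFun h1 1
  have a2 := congrFun h1 2
  have a3 := congrFun h2 2
  simp at a1 a2 a3
  funext i
  fin_cases i
  · exact a3
  · exact a2
  · exact a1

theorem dot_zero (z : Fin 3 → ℂ) (h : ∀ w : Fin 3 → ℂ, w ⬝ᵥ z = 0) : z = 0 := by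
  funext i
  have h1 := h (Pi.single i 1)
  rw [single_dotProduct, one_mul] at h1
  exact h1

/-- the second part: the coordinates vanish -/
theorem coord_zero {S V V' : Type} [Fintype S] [AddCommGroup V] [Module ℂ V]
    [AddCommGroup V'] [Module ℂ V'] {s : S → (Fin 3 → ℂ) →ₗ[ℂ] Module.End ℂ V}
    {s' : S → (Fin 3 → ℂ) →ₗ[ℂ] Module.End ℂ V'} {p' : Module.End ℂ V'} (hQ : QP s' p')
    {g : S → (Fin 3 → ℂ) →ₗ[ℂ] (Fin 3 → ℂ)}
    (hgs : ∀ σ, Function.Surjective (g σ)) {F : V →ₗ[ℂ] V'} (hF : F ≠ 0)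
    (hpF : ∀ v, p' (F v) = F v) (hFs : ∀ σ x v, F (s σ x v) = s' σ (g σ x) (F v))
    (y : S → (Fin 3 → ℂ)) (h0 : ∀ v, ∑ σ, s' σ (y σ) (F v) = 0) (ρ : S) : y ρ = 0 := by
  classical
  have hmul : ∀ (a b : Fin 3 → ℂ) (v : V), s' ρ a (s' ρ b (F v)) =
      (-(a ⬝ᵥ b) / 4) • F v + (1 / 2 : ℂ) • s' ρ (crossProduct a b) (F v) := by
    intro a b v
    have h1 := LinearMap.congr_fun (hQ.mul ρ a b) (F v)
    simp only [Module.End.mul_apply, LinearMap.add_apply, LinearMap.smul_apply, hpF v] at h1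
    exact h1
  -- brackets
  have h1 : ∀ (a : Fin 3 → ℂ) (v : V), s' ρ (crossProduct a (y ρ)) (F v) = 0 := by
    intro a v
    obtain ⟨x, rfl⟩ := hgs ρ a
    have e1 : ∑ σ, s' ρ (g ρ x) (s' σ (y σ) (F v)) = 0 := by
      rw [← map_sum, h0 v, map_zero]
    have e2 : ∑ σ, s' σ (y σ) (s' ρ (g ρ x) (F v)) = 0 := by
      rw [← hFs]
      exact h0 _
    have e3 : ∑ σ, (s' ρ (g ρ x) (s' σ (y σ) (F v)) -
        s' σ (y σ) (s' ρ (g ρ x) (F v))) = 0 := by
      rw [Finset.sum_sub_distrib, e1, e2, sub_zero]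
    rw [Finset.sum_eq_single ρ (by
      intro σ _ hne
      have h2 := LinearMap.congr_fun (hQ.cc ρ σ (fun h => hne h.symm) (g ρ x) (y σ)) (F v)
      simp only [Module.End.mul_apply] at h2
      rw [h2, sub_self]) (fun h => absurd (Finset.mem_univ _) h)] at e3
    rw [hmul, hmul, dotProduct_comm (y ρ) (g ρ x), ← cross_anticomm (g ρ x) (y ρ), map_neg,
      LinearMap.neg_apply] at e3
    have e4 : s' ρ (crossProduct (g ρ x) (y ρ)) (F v) =
        ((-(g ρ x ⬝ᵥ y ρ) / 4) • F v + (1 / 2 : ℂ) • s' ρ (crossProduct (g ρ x) (y ρ)) (F v)) -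
        ((-(g ρ x ⬝ᵥ y ρ) / 4) • F v + (1 / 2 : ℂ) •
          -(s' ρ (crossProduct (g ρ x) (y ρ)) (F v))) := by
      rw [smul_neg]
      module
    rw [e4]
    exact e3
  have h2 : ∀ z : Fin 3 → ℂ, (∀ v, s' ρ z (F v) = 0) → z = 0 := by
    intro z hz
    refine dot_zero z fun a => ?_
    obtain ⟨x, rfl⟩ := hgs ρ a
    by_contra hne
    refine hF (LinearMap.ext fun v => ?_)
    have e1 : s' ρ (g ρ x) (s' ρ z (F v)) = 0 := by rw [hz v, map_zero]
    have e2 : s' ρ z (s' ρ (g ρ x) (F v)) = 0 := by rw [← hFs]; exact hz _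
    rw [hmul] at e1 e2
    rw [dotProduct_comm z (g ρ x), ← cross_anticomm (g ρ x) z, map_neg, LinearMap.neg_apply] at e2
    have e3 : (g ρ x ⬝ᵥ z) • F v = 0 := by
      have e4 : (g ρ x ⬝ᵥ z) • F v = (-2 : ℂ) •
          (((-(g ρ x ⬝ᵥ z) / 4) • F v + (1 / 2 : ℂ) • s' ρ (crossProduct (g ρ x) z) (F v)) +
          ((-(g ρ x ⬝ᵥ z) / 4) • F v + (1 / 2 : ℂ) •
            -(s' ρ (crossProduct (g ρ x) z) (F v)))) := by
        rw [smul_neg]
        module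
      rw [e4, e1, e2, add_zero, smul_zero]
    rw [LinearMap.zero_apply]
    exact (smul_eq_zero.1 e3).resolve_left hne
  exact cross_zero _ fun w => h2 _ (h1 w)

end Qhxx

theorem thm_Qhx (hQav : KQ4.St_Qav) (hQso : KQ4.St_Qso) : St_Qhx := by
  classical
  intro S V V' _ _ _ _ _ _ s p s' p' hQ hQ' g hg hgc
  have hdot : ∀ σ x y, g σ x ⬝ᵥ g σ y = x ⬝ᵥ y := fun σ => hQso (g σ) (hg σ) (hgc σ)
  obtain ⟨F, hF, hFp, hpF, hFs⟩ := hQav S V V' s p (fun σ => s' σ ∘ₗ g σ) p' hQ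
    (Qhxx.qp_comp hQ' hdot hgc)
  have hFp' : ∀ v, F (p v) = F v := fun v => LinearMap.congr_fun hFp v
  have hpF' : ∀ v, p' (F v) = F v := fun v => LinearMap.congr_fun hpF v
  have hFs' : ∀ σ x v, F (s σ x v) = s' σ (g σ x) (F v) := fun σ x v =>
    LinearMap.congr_fun (hFs σ x) v
  have hYF : ∀ (Y : Module.End ℂ V') (y : S → (Fin 3 → ℂ)),
      Y * p' = (∑ σ, s' σ (y σ)) * p' → ∀ v, Y (F v) = ∑ σ, s' σ (y σ) (F v) := by
    intro Y y h v
    have h1 := LinearMap.congr_fun h (F v)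
    simp only [Module.End.mul_apply, hpF' v, LinearMap.sum_apply] at h1
    exact h1
  refine ⟨F, hF, ?_, ?_⟩
  · intro X Y x y x1 x2 hY hl
    refine LinearMap.ext fun v => ?_
    rw [LinearMap.comp_apply, LinearMap.comp_apply, hYF Y y hY v]
    have h1 := LinearMap.congr_fun x1 v
    have h2 := LinearMap.congr_fun x2 v
    simp only [Module.End.mul_apply, LinearMap.sum_apply] at h1 h2
    rw [← hFp' (X v), ← h1, h2, map_sum]
    refine Finset.sum_congr rfl fun σ _ => ?_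
    rw [hFs', hFp' v, hl σ]
  · intro Y y hY h0 σ
    refine Qhxx.coord_zero hQ' (fun σ => (hg σ).2) hF hpF' hFs' y (fun v => ?_) σ
    rw [← hYF Y y hY v]
    exact LinearMap.congr_fun h0 v

end Pool.Agent.KTW
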