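import Pool.Agent.KTW.StV
import Pool.Agent.Helper71.AF.Ranks

/-!
# KTW [Qrm]: simple abelian varieties whose endomorphisms are the commutant of a quaternion algebra
(helper82)
-/

set_option autoImplicit false

namespace Pool.Agent.KTW

open Module Matrix NumberField Pool.Agent.Helper7 Pool.Agent.Helper71.AF
open Pool.Agent.GPC (AbVar IsRMType RealMult RM IsRealType cmConj simple_cases quat_rank)

section quat

variable {F 𝓐 : Type} [Field F] [CharZero F] [Ring 𝓐] [Algebra F 𝓐]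

/-- the commutant of two elements -/
def Qrm_C (F : Type) {𝓐 : Type} [Field F] [Ring 𝓐] [Algebra F 𝓐] (x y : 𝓐) :
    Submodule F 𝓐 where
  carrier := {f | f * x = x * f ∧ f * y = y * f}
  add_mem' := by
    rintro f g ⟨h1, h2⟩ ⟨h3, h4⟩
    exact ⟨by rw [add_mul, mul_add, h1, h3], by rw [add_mul, mul_add, h2, h4]⟩
  zero_mem' := ⟨by rw [zero_mul, mul_zero], by rw [zero_mul, mul_zero]⟩
  smul_mem' := by
    rintro r f ⟨h1, h2⟩
    exact ⟨by rw [smul_mul_assoc, mul_smul_comm, h1], by rw [smul_mul_assoc, mul_smul_comm, h2]⟩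

/-- the average -/
private def Qrm_P (a b : F) (x y f : 𝓐) : 𝓐 :=
  (a * b) • f + b • (x * (f * x)) + a • (y * (f * y)) - x * (y * (f * (x * y)))

section rel

variable {x y : 𝓐} {a b : F} (hx : x * x = a • 1) (hy : y * y = b • 1) (hxy : y * x = -(x * y))

include hx in
omit [CharZero F] in
private lemma Qrm_xx (t : 𝓐) : x * (x * t) = a • t := by
  rw [← mul_assoc, hx, smul_mul_assoc, one_mul]

include hxy in
omit [CharZero F] [Algebra F 𝓐] in
private lemma Qrm_yx (t : 𝓐) : y * (x * t) = -(x * (y * t)) := by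
  rw [← mul_assoc, hxy, neg_mul, mul_assoc]

include hx hy hxy in
omit [CharZero F] in
private lemma Qrm_Px (f : 𝓐) : Qrm_P a b x y f * x = x * Qrm_P a b x y f := by
  simp only [Qrm_P, mul_add, add_mul, mul_sub, sub_mul, mul_assoc, mul_smul_comm, smul_mul_assoc,
    Qrm_xx hx, Qrm_xx hy, hx, hy, hxy, Qrm_yx hxy, mul_neg, neg_mul, mul_one, smul_neg]
  module

include hx hy hxy in
omit [CharZero F] in
private lemma Qrm_Py (f : 𝓐) : Qrm_P a b x y f * y = y * Qrm_P a b x y f := by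
  simp only [Qrm_P, mul_add, add_mul, mul_sub, sub_mul, mul_assoc, mul_smul_comm, smul_mul_assoc,
    Qrm_xx hx, Qrm_xx hy, hx, hy, hxy, Qrm_yx hxy, mul_neg, neg_mul, mul_one, smul_neg]
  module

include hx hy hxy in
omit [CharZero F] in
private lemma Qrm_key (f : 𝓐) : (4 * (a * b) * (a * b)) • f = (a * b) • Qrm_P a b x y f +
    b • (Qrm_P a b x y (f * x) * x) + a • (Qrm_P a b x y (f * y) * y) -
    Qrm_P a b x y (f * (x * y)) * (x * y) := by
  simp only [Qrm_P, mul_add, add_mul, mul_sub, sub_mul, mul_assoc, mul_smul_comm, smul_mul_assoc,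
    Qrm_xx hx, Qrm_xx hy, hx, hy, hxy, Qrm_yx hxy, mul_neg, neg_mul, mul_one, smul_neg]
  module

end rel

private lemma Qrm_dim [FiniteDimensional F 𝓐] (x y : 𝓐) (a b : F) (ha : a ≠ 0) (hb : b ≠ 0)
    (hx : x * x = a • 1) (hy : y * y = b • 1) (hxy : y * x = -(x * y)) :
    finrank F 𝓐 = 4 * finrank F (Qrm_C F x y) := by
  obtain ⟨Φ, hΦ⟩ : ∃ Φ : (Qrm_C F x y × Qrm_C F x y) × (Qrm_C F x y × Qrm_C F x y) →ₗ[F] 𝓐,
      ∀ c, Φ c = (c.1.1 : 𝓐) + c.1.2 * x + c.2.1 * y + c.2.2 * (x * y) :=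
    ⟨{ toFun := fun c => (c.1.1 : 𝓐) + c.1.2 * x + c.2.1 * y + c.2.2 * (x * y)
       map_add' := by
        intro c d
        simp only [Prod.fst_add, Prod.snd_add, Submodule.coe_add, add_mul]
        abel
       map_smul' := by
        intro r c
        simp only [Prod.smul_fst, Prod.smul_snd, Submodule.coe_smul, smul_mul_assoc, smul_add,
          RingHom.id_apply] }, fun _ => rfl⟩
  have hxinj : ∀ t : 𝓐, t * x = 0 → t = 0 := by
    intro t ht
    have h1 : a • t = 0 := by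
      have h2 : t * x * x = a • t := by rw [mul_assoc, hx, mul_smul_comm, mul_one]
      rw [← h2, ht, zero_mul]
    exact (smul_eq_zero.1 h1).resolve_left ha
  have hyinj : ∀ t : 𝓐, t * y = 0 → t = 0 := by
    intro t ht
    have h1 : b • t = 0 := by
      have h2 : t * y * y = b • t := by rw [mul_assoc, hy, mul_smul_comm, mul_one]
      rw [← h2, ht, zero_mul]
    exact (smul_eq_zero.1 h1).resolve_left hb
  have hinj : Function.Injective Φ := by
    rw [injective_iff_map_eq_zero]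
    rintro ⟨⟨⟨c0, h0x, h0y⟩, ⟨c1, h1x, h1y⟩⟩, ⟨⟨c2, h2x, h2y⟩, ⟨c3, h3x, h3y⟩⟩⟩ hc
    rw [hΦ] at hc
    replace hc : c0 + c1 * x + c2 * y + c3 * (x * y) = 0 := hc
    have hxc : ∀ c : 𝓐, c * x = x * c → ∀ t, x * (c * t) = c * (x * t) := by
      intro c h t
      rw [← mul_assoc, ← h, mul_assoc]
    have hyc : ∀ c : 𝓐, c * y = y * c → ∀ t, y * (c * t) = c * (y * t) := by
      intro c h t
      rw [← mul_assoc, ← h, mul_assoc]
    have e1 : x * (c0 + c1 * x + c2 * y + c3 * (x * y)) * x =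
        a • (c0 + c1 * x - (c2 * y + c3 * (x * y))) := by
      simp only [mul_add, add_mul, mul_assoc, hxc c1 h1x, hxc c2 h2x, hxc c3 h3x,
        h0x.symm, hx, hxy, Qrm_xx hx, mul_neg, mul_smul_comm, smul_mul_assoc, mul_one]
      module
    rw [hc, mul_zero, zero_mul] at e1
    have e2 := (smul_eq_zero.1 e1.symm).resolve_left ha
    have e3 : (2 : F) • (c0 + c1 * x) = 0 := by
      rw [show (2 : F) • (c0 + c1 * x) = (c0 + c1 * x + c2 * y + c3 * (x * y)) +
        (c0 + c1 * x - (c2 * y + c3 * (x * y))) by module, hc, e2, add_zero]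
    have e4 := (smul_eq_zero.1 e3).resolve_left two_ne_zero
    have e5 : c2 * y + c3 * (x * y) = 0 := by
      rw [e4, zero_sub, neg_eq_zero] at e2
      exact e2
    have e6 : (c2 + c3 * x) * y = 0 := by
      rw [add_mul, mul_assoc]
      exact e5
    have e7 := hyinj _ e6
    have key : ∀ c d : 𝓐, c * y = y * c → d * y = y * d → c + d * x = 0 → c = 0 ∧ d = 0 := by
      intro c d hcy hdy h
      have f1 : y * (c + d * x) * y = b • (c - d * x) := by
        simp only [mul_add, add_mul, mul_assoc, hyc c hcy, hyc d hdy, hy, Qrm_yx hxy, mul_neg,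
          mul_smul_comm, mul_one]
        module
      rw [h, mul_zero, zero_mul] at f1
      have f2 := (smul_eq_zero.1 f1.symm).resolve_left hb
      have f3 : (2 : F) • c = 0 := by
        rw [show (2 : F) • c = (c + d * x) + (c - d * x) by module, h, f2, add_zero]
      have f4 := (smul_eq_zero.1 f3).resolve_left two_ne_zero
      refine ⟨f4, ?_⟩
      rw [f4, zero_add] at h
      exact hxinj d h
    obtain ⟨g0, g1⟩ := key c0 c1 h0y h1y e4
    obtain ⟨g2, g3⟩ := key c2 c3 h2y h3y e7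
    subst g0 g1 g2 g3
    rfl
  have hsur : Function.Surjective Φ := by
    intro f
    have hmem : ∀ g, Qrm_P a b x y g ∈ Qrm_C F x y := fun g =>
      ⟨Qrm_Px hx hy hxy g, Qrm_Py hx hy hxy g⟩
    have hs : (4 * (a * b) * (a * b)) ≠ 0 :=
      mul_ne_zero (mul_ne_zero (OfNat.ofNat_ne_zero 4) (mul_ne_zero ha hb)) (mul_ne_zero ha hb)
    refine ⟨((((4 * (a * b) * (a * b))⁻¹ * (a * b)) • ⟨_, hmem f⟩,
      ((4 * (a * b) * (a * b))⁻¹ * b) • ⟨_, hmem (f * x)⟩),
      (((4 * (a * b) * (a * b))⁻¹ * a) • ⟨_, hmem (f * y)⟩,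
      (-(4 * (a * b) * (a * b))⁻¹) • ⟨_, hmem (f * (x * y))⟩)), ?_⟩
    have h1 := congrArg (fun t => (4 * (a * b) * (a * b))⁻¹ • t) (Qrm_key hx hy hxy f)
    simp only [smul_smul, inv_mul_cancel₀ hs, one_smul, smul_add, smul_sub] at h1
    refine Eq.trans (b := ((4 * (a * b) * (a * b))⁻¹ * (a * b)) • Qrm_P a b x y f +
      ((4 * (a * b) * (a * b))⁻¹ * b) • Qrm_P a b x y (f * x) * x +
      ((4 * (a * b) * (a * b))⁻¹ * a) • Qrm_P a b x y (f * y) * y +
      (-(4 * (a * b) * (a * b))⁻¹) • Qrm_P a b x y (f * (x * y)) * (x * y)) (hΦ _) ?_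
    refine Eq.trans ?_ h1.symm
    simp only [smul_mul_assoc]
    module
  have h := (LinearEquiv.ofBijective Φ ⟨hinj, hsur⟩).finrank_eq
  rw [Module.finrank_prod, Module.finrank_prod] at h
  omega

end quat

section rel2

private lemma Qrm_rel {F E C : Type} [Field F] [AddCommGroup E] [Module F E]
    [FiniteDimensional F E] [AddCommGroup C] [Module F C] [FiniteDimensional F C]
    (R : E → C → Prop) (hadd : ∀ e g e' g', R e g → R e' g' → R (e + e') (g + g'))
    (hsm : ∀ (u : F) e g, R e g → R (u • e) (u • g)) (h0 : ∀ g, R 0 g → g = 0)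
    (hex : ∀ g, ∃ e, R e g) : finrank F C ≤ finrank F E := by
  classical
  obtain ⟨c⟩ : Nonempty (Basis (Fin (finrank F C)) F C) := ⟨Module.finBasis F _⟩
  choose e he using fun i => hex (c i)
  have hsum : ∀ (u : Fin (finrank F C) → F) (T : Finset (Fin (finrank F C))),
      R (∑ i ∈ T, u i • e i) (∑ i ∈ T, u i • c i) := by
    intro u T
    induction T using Finset.induction_on with
    | empty =>
      obtain ⟨e0, he0⟩ := hex 0
      have h1 := hsm 0 e0 0 he0
      rw [zero_smul, zero_smul] at h1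
      rw [Finset.sum_empty, Finset.sum_empty]
      exact h1
    | insert i T hi ih =>
      rw [Finset.sum_insert hi, Finset.sum_insert hi]
      exact hadd _ _ _ _ (hsm _ _ _ (he i)) ih
  have hli : LinearIndependent F e := by
    rw [Fintype.linearIndependent_iff]
    intro u hu
    refine Fintype.linearIndependent_iff.1 c.linearIndependent u ?_
    apply h0
    have h1 := hsum u Finset.univ
    rw [hu] at h1
    exact h1
  have h4 := hli.fintype_card_le_finrank
  rw [Fintype.card_fin] at h4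
  exact h4

end rel2

section rat

variable {κ : Type} [Fintype κ] [DecidableEq κ] {ϖ : ℂ} (P : PData κ ϖ)

/-- extension of scalars -/
private lemma Qrm_ext (G : (κ → ℂ) → (κ → ℂ)) (hadd : ∀ u ∈ P.Q, ∀ v ∈ P.Q, G (u + v) = G u + G v)
    (hsm : ∀ q : ℚ, ∀ v ∈ P.Q, G ((q : ℂ) • v) = (q : ℂ) • G v) :
    ∃ f : Module.End ℂ (κ → ℂ), ∀ v ∈ P.Q, f v = G v := by
  classical
  obtain ⟨f, hf⟩ : ∃ f : Module.End ℂ (κ → ℂ), ∀ i, f (P.bB i) = G (P.bB i) :=
    ⟨P.bB.constr ℂ (fun i => G (P.bB i)), fun i => Basis.constr_basis _ _ _ _⟩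
  refine ⟨f, ?_⟩
  intro v hv
  unfold PData.Q at hv
  induction hv using Submodule.span_induction with
  | mem w hw =>
    obtain ⟨i, rfl⟩ := hw
    exact hf i
  | zero =>
    have h1 := hsm 0 0 (Submodule.zero_mem _)
    rw [Rat.cast_zero, zero_smul, zero_smul] at h1
    rw [map_zero, h1]
  | add u w hu hw ihu ihw =>
    rw [map_add, hadd u hu w hw, ihu, ihw]
  | smul q w hw ihw =>
    have h2 : q • w = (q : ℂ) • w := by
      funext j
      simp [Algebra.smul_def]
    rw [h2, map_smul, hsm q w hw, ihw]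

private lemma Qrm_main1 {F : Type} [Field F] [NumberField F]
    (ρ : F →+* Module.End ℂ (κ → ℂ)) {Q : Type} [AddCommGroup Q] [Module F Q] (ι : Q →+ (κ → ℂ))
    (hι : ∀ w, ι w = 0 → w = 0) (hQ : ∀ w, ι w ∈ P.Q) (hQ' : ∀ v ∈ P.Q, ∃ w, ι w = v)
    (hsmul : ∀ (u : F) (w : Q), ι (u • w) = ρ u (ι w)) [FiniteDimensional F Q]
    (x y : Module.End ℂ (κ → ℂ))
    (hxQ : ∀ v ∈ P.Q, x v ∈ P.Q) (hyQ : ∀ v ∈ P.Q, y v ∈ P.Q) (a b : ℚ) (ha : a ≠ 0)
    (hb : b ≠ 0) (hx : x * x = (a : ℂ) • 1) (hy : y * y = (b : ℂ) • 1) (hxy : x * y = -(y * x))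
    (hρx : ∀ u, x * ρ u = ρ u * x) (hρy : ∀ u, y * ρ u = ρ u * y)
    (E : Type) [AddCommGroup E] [Module F E] [FiniteDimensional F E]
    (φ : E →+ Module.End ℂ (κ → ℂ)) (hφ : ∀ u e, φ (u • e) = ρ u * φ e) :
    ((∀ f : Module.End ℂ (κ → ℂ), (∀ v ∈ P.Q, f v ∈ P.Q) → (∀ u, f * ρ u = ρ u * f) →
      f * x = x * f → f * y = y * f → ∃ e, φ e = f) →
        finrank F Q * finrank F Q ≤ 4 * finrank F E) ∧
    ((∀ e, φ e = 0 → e = 0) → (∀ e, (∀ v ∈ P.Q, φ e v ∈ P.Q) ∧ (∀ u, φ e * ρ u = ρ u * φ e) ∧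
      φ e * x = x * φ e ∧ φ e * y = y * φ e) →
        4 * finrank F E ≤ finrank F Q * finrank F Q) := by
  classical
  have hinj : Function.Injective ι := (injective_iff_map_eq_zero ι).2 hι
  have hrat : ∀ (q : ℚ) (v : Q), ι ((q : F) • v) = (q : ℂ) • ι v := by
    intro q v
    have h1 := rho_ratsmul ρ q 1
    rw [map_one, Algebra.smul_def, mul_one, eq_ratCast] at h1
    rw [hsmul, h1]
    rfl
  have hres : ∀ f : Module.End ℂ (κ → ℂ), (∀ v ∈ P.Q, f v ∈ P.Q) → (∀ u, f * ρ u = ρ u * f) →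
      ∃ g : Module.End F Q, ∀ v : Q, ι (g v) = f (ι v) := by
    intro f hf hfu
    choose g hg using fun v : Q => hQ' (f (ι v)) (hf _ (hQ v))
    exact ⟨{ toFun := g
             map_add' := fun u v => hinj (by rw [map_add, hg, hg, hg, map_add, map_add])
             map_smul' := fun u v => hinj (by
              rw [RingHom.id_apply, hsmul, hg, hg, hsmul]
              exact congrArg (fun t : Module.End ℂ (κ → ℂ) => t (ι v)) (hfu u)) }, hg⟩
  have hext : ∀ g : Module.End F Q, ∃ f : Module.End ℂ (κ → ℂ), ∀ v : Q, f (ι v) = ι (g v) := by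
    intro g
    obtain ⟨G, hG⟩ : ∃ G : (κ → ℂ) → (κ → ℂ), ∀ w, G (ι w) = ι (g w) := by
      refine ⟨fun v => if h : ∃ w, ι w = v then ι (g h.choose) else 0, fun w => ?_⟩
      have h : ∃ w', ι w' = ι w := ⟨w, rfl⟩
      show (if h : ∃ w', ι w' = ι w then ι (g h.choose) else 0) = ι (g w)
      rw [dif_pos h, hinj h.choose_spec]
    obtain ⟨f, hf⟩ := Qrm_ext P G (by
      intro u hu v hv
      obtain ⟨u', rfl⟩ := hQ' u hu
      obtain ⟨v', rfl⟩ := hQ' v hv
      rw [← map_add, hG, hG, hG, map_add, map_add]) (by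
      intro q v hv
      obtain ⟨v', rfl⟩ := hQ' v hv
      rw [← hrat, hG, hG, map_smul, hrat])
    exact ⟨f, fun v => by rw [hf _ (hQ v), hG]⟩
  obtain ⟨xQ, hxQ'⟩ := hres x hxQ hρx
  obtain ⟨yQ, hyQ'⟩ := hres y hyQ hρy
  have hd := Qrm_dim (𝓐 := Module.End F Q) xQ yQ (a : F) (b : F) (Rat.cast_ne_zero.2 ha)
    (Rat.cast_ne_zero.2 hb) (by
      apply LinearMap.ext
      intro v
      apply hinj
      rw [Module.End.mul_apply, hxQ', hxQ', LinearMap.smul_apply, Module.End.one_apply, hrat]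
      exact congrArg (fun t : Module.End ℂ (κ → ℂ) => t (ι v)) hx) (by
      apply LinearMap.ext
      intro v
      apply hinj
      rw [Module.End.mul_apply, hyQ', hyQ', LinearMap.smul_apply, Module.End.one_apply, hrat]
      exact congrArg (fun t : Module.End ℂ (κ → ℂ) => t (ι v)) hy) (by
      apply LinearMap.ext
      intro v
      apply hinj
      have h2 : x (y (ι v)) = - y (x (ι v)) :=
        congrArg (fun t : Module.End ℂ (κ → ℂ) => t (ι v)) hxy
      rw [LinearMap.neg_apply, map_neg, Module.End.mul_apply, Module.End.mul_apply, hxQ', hyQ',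
        hyQ', hxQ', h2, neg_neg])
  rw [Module.finrank_linearMap] at hd
  rw [hd]
  constructor
  · intro hsur
    refine Nat.mul_le_mul_left 4 ?_
    refine Qrm_rel (C := Qrm_C F xQ yQ) (fun e g => ∀ v : Q, φ e (ι v) =
      ι ((g : Module.End F Q) v)) ?_ ?_ ?_ ?_
    · intro e g e' g' h h' v
      rw [map_add, LinearMap.add_apply, h, h', ← map_add]
      rfl
    · intro u e g h v
      rw [hφ, Module.End.mul_apply, h]
      exact (hsmul _ _).symm
    · intro g h
      apply Subtype.ext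
      apply LinearMap.ext
      intro v
      apply hι
      have h1 := h v
      rw [map_zero] at h1
      exact h1.symm
    · rintro ⟨g, hg1, hg2⟩
      obtain ⟨f, hf⟩ := hext g
      have hfQ : ∀ v ∈ P.Q, f v ∈ P.Q := by
        intro v hv
        obtain ⟨w, rfl⟩ := hQ' v hv
        rw [hf]
        exact hQ _
      obtain ⟨e, he⟩ := hsur f hfQ (by
        intro u
        apply ext_Q P
        intro v hv
        obtain ⟨w, rfl⟩ := hQ' v hv
        rw [Module.End.mul_apply, Module.End.mul_apply, ← hsmul, hf, hf, map_smul, hsmul]) (by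
        apply ext_Q P
        intro v hv
        obtain ⟨w, rfl⟩ := hQ' v hv
        rw [Module.End.mul_apply, Module.End.mul_apply, ← hxQ', hf, hf, ← hxQ']
        exact congrArg (fun t : Module.End F Q => ι (t w)) hg1) (by
        apply ext_Q P
        intro v hv
        obtain ⟨w, rfl⟩ := hQ' v hv
        rw [Module.End.mul_apply, Module.End.mul_apply, ← hyQ', hf, hf, ← hyQ']
        exact congrArg (fun t : Module.End F Q => ι (t w)) hg2)
      exact ⟨e, fun v => by rw [he, hf]⟩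
  · intro hinj' hmem
    refine Nat.mul_le_mul_left 4 ?_
    refine Qrm_rel (E := Qrm_C F xQ yQ) (fun g e => ∀ v : Q, φ e (ι v) =
      ι ((g : Module.End F Q) v)) ?_ ?_ ?_ ?_
    · intro g e g' e' h h' v
      rw [map_add, LinearMap.add_apply, h, h', ← map_add]
      rfl
    · intro u g e h v
      rw [hφ, Module.End.mul_apply, h]
      exact (hsmul _ _).symm
    · intro e h
      apply hinj'
      apply ext_Q P
      intro v hv
      obtain ⟨w, rfl⟩ := hQ' v hv
      rw [h w]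
      exact map_zero ι
    · intro e
      obtain ⟨m1, m2, m3, m4⟩ := hmem e
      obtain ⟨g, hg⟩ := hres (φ e) m1 m2
      refine ⟨⟨g, ?_, ?_⟩, fun v => (hg v).symm⟩
      · apply LinearMap.ext
        intro v
        apply hinj
        rw [Module.End.mul_apply, Module.End.mul_apply, hg, hxQ', hxQ', hg]
        exact congrArg (fun t : Module.End ℂ (κ → ℂ) => t (ι v)) m3
      · apply LinearMap.ext
        intro v
        apply hinj
        rw [Module.End.mul_apply, Module.End.mul_apply, hg, hyQ', hyQ', hg]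
        exact congrArg (fun t : Module.End ℂ (κ → ℂ) => t (ι v)) m4

private lemma Qrm_main {F : Type} [Field F] [NumberField F] (ρ : F →+* Module.End ℂ (κ → ℂ))
    (hρQ : ∀ u, ∀ v ∈ P.Q, ρ u v ∈ P.Q) (x y : Module.End ℂ (κ → ℂ))
    (hxQ : ∀ v ∈ P.Q, x v ∈ P.Q) (hyQ : ∀ v ∈ P.Q, y v ∈ P.Q) (a b : ℚ) (ha : a ≠ 0)
    (hb : b ≠ 0) (hx : x * x = (a : ℂ) • 1) (hy : y * y = (b : ℂ) • 1) (hxy : x * y = -(y * x))
    (hρx : ∀ u, x * ρ u = ρ u * x) (hρy : ∀ u, y * ρ u = ρ u * y) :
    ∃ r : ℕ, finrank ℚ F * r = Fintype.card κ ∧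
      ∀ (E : Type) [AddCommGroup E] [Module F E] [FiniteDimensional F E]
        (φ : E →+ Module.End ℂ (κ → ℂ)), (∀ u e, φ (u • e) = ρ u * φ e) →
      ((∀ f : Module.End ℂ (κ → ℂ), (∀ v ∈ P.Q, f v ∈ P.Q) → (∀ u, f * ρ u = ρ u * f) →
        f * x = x * f → f * y = y * f → ∃ e, φ e = f) → r * r ≤ 4 * finrank F E) ∧
      ((∀ e, φ e = 0 → e = 0) → (∀ e, (∀ v ∈ P.Q, φ e v ∈ P.Q) ∧ (∀ u, φ e * ρ u = ρ u * φ e) ∧
        φ e * x = x * φ e ∧ φ e * y = y * φ e) → 4 * finrank F E ≤ r * r) := by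
  classical
  let _ : Module F P.Q := kmod P ρ hρQ
  have hsmul : ∀ (u : F) (v : P.Q), ((u • v : P.Q) : κ → ℂ) = ρ u v := fun _ _ => rfl
  have hst : IsScalarTower ℚ F P.Q := ⟨fun q u v => Subtype.ext (by
    rw [hsmul, SetLike.val_smul, hsmul, rho_ratsmul, LinearMap.smul_apply]
    funext j; simp [Algebra.smul_def])⟩
  have hcardι : Fintype.card P.ι = Fintype.card κ := by
    have h1 := Module.finrank_eq_card_basis P.bB
    rw [Module.finrank_fintype_fun_eq_card] at h1
    exact h1.symm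
  have hfin : finrank ℚ P.Q = Fintype.card κ := by
    rw [← hcardι]
    apply finrank_span_eq_card
    exact P.bB.linearIndependent.restrict_scalars (by
      intro a b h
      simpa using h)
  have hQfin : Module.Finite ℚ P.Q := Module.Finite.span_of_finite ℚ (Set.finite_range P.bB)
  have hF : Module.Finite F P.Q := Module.Finite.of_restrictScalars_finite ℚ F P.Q
  refine ⟨finrank F P.Q, by rw [Module.finrank_mul_finrank ℚ F P.Q, hfin], ?_⟩
  intro E _ _ _ φ hφ
  exact Qrm_main1 P ρ (Q := P.Q) P.Q.subtype.toAddMonoidHom (fun w hw => Subtype.ext hw)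
    (fun w => w.2) (fun v hv => ⟨⟨v, hv⟩, rfl⟩) hsmul x y hxQ hyQ a b ha hb hx hy hxy hρx hρy E φ hφ

end rat

section cm

variable {B : AbVar} {x y z : Module.End ℂ B.H1} {K : Type} [Field K] [NumberField K]
  [IsCMField K]

/-- the case of a CM field: the operator `z` is in the real subfield, and bounds -/
private lemma Qrm_cm (hg : B.g ≠ 0) {a b : ℚ} (ha : a ≠ 0) (hb : b ≠ 0)
    (hx : x * x = (a : ℂ) • 1) (hy : y * y = (b : ℂ) • 1) (hxy : x * y = -(y * x))
    (hzs : ∀ u v, B.pol (z u) v = B.pol u (z v)) (hxB : ∀ v, B.IsBetti v → B.IsBetti (x v))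
    (hyB : ∀ v, B.IsBetti v → B.IsBetti (y v))
    (hEnd : ∀ f : B.H1 → B.H1, B.IsEnd f ↔ IsLinearMap ℂ f ∧ (∀ v, B.IsBetti v → B.IsBetti (f v)) ∧
      (∀ v, f (x v) = x (f v)) ∧ (∀ v, f (y v) = y (f v)) ∧ ∀ v, f (z v) = z (f v))
    (ρ : K →+* Module.End ℂ B.H1) (hρE : ∀ u, B.IsEnd (ρ u))
    (hros : ∀ w u v, B.pol (ρ w u) v = B.pol u (ρ (cmConj K w) v)) (w : K) (hzw : z = ρ w)
    (E : Type) [AddCommGroup E] [Module (maximalRealSubfield K) E]
    [FiniteDimensional (maximalRealSubfield K) E]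
    (φ : E →+ Module.End ℂ B.H1) (hφ : ∀ (u : maximalRealSubfield K) e,
      φ (u • e) = ρ (u : K) * φ e)
    (hcen : ∀ f : Module.End ℂ B.H1, B.IsEnd f → (∀ u, cmConj K u = u → ∀ v, f (ρ u v) = ρ u (f v)) →
      ∃ e, φ e = f) :
    ∃ r, finrank ℚ (maximalRealSubfield K) * r = 2 * B.g ∧
      r * r ≤ 4 * finrank (maximalRealSubfield K) E ∧
      ((∀ e, φ e = 0 → e = 0) → (∀ e, B.IsEnd (φ e)) →
        (∀ (u : maximalRealSubfield K) e, φ e * ρ (u : K) = ρ (u : K) * φ e) →
        4 * finrank (maximalRealSubfield K) E ≤ r * r) := by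
  classical
  have hne : Nonempty (Fin B.g ⊕ Fin B.g) := ⟨Sum.inl ⟨0, Nat.pos_of_ne_zero hg⟩⟩
  have hinj : Function.Injective ρ := ρ.injective
  have hw : cmConj K w = w := by
    apply hinj
    apply LinearMap.ext
    intro v
    rw [← sub_eq_zero]
    apply ndr (pData B)
    intro u
    have h1 := hzs u v
    rw [hzw, hros] at h1
    rw [map_sub, pData_ψ, pData_ψ, h1, sub_self]
  have hQ : ∀ f : Module.End ℂ B.H1, (∀ v, B.IsBetti v → B.IsBetti (f v)) →
      ∀ v ∈ (pData B).Q, f v ∈ (pData B).Q := by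
    intro f hf v hv
    rw [mem_pData_Q] at hv ⊢
    exact hf v hv
  have hcomm : ∀ f : Module.End ℂ B.H1, B.IsEnd f → f * x = x * f ∧ f * y = y * f ∧
      ∀ v ∈ (pData B).Q, f v ∈ (pData B).Q := by
    intro f hf
    obtain ⟨h1, h2, h3, h4, h5⟩ := (hEnd f).1 hf
    exact ⟨LinearMap.ext h3, LinearMap.ext h4, hQ f h2⟩
  obtain ⟨r, hr, h⟩ := Qrm_main (pData B) (F := maximalRealSubfield K)
    (ρ.comp (algebraMap (maximalRealSubfield K) K)) (fun u => (hcomm _ (hρE u)).2.2) x y
    (hQ x hxB) (hQ y hyB) a b ha hb hx hy hxy (fun u => (hcomm _ (hρE u)).1.symm)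
    (fun u => (hcomm _ (hρE u)).2.1.symm)
  obtain ⟨h1, h2⟩ := h E φ hφ
  refine ⟨r, by rw [hr, card_index], ?_, ?_⟩
  · refine h1 fun f hfQ hfρ hfx hfy => ?_
    have hK : ∀ u, cmConj K u = u → ∀ v, f (ρ u v) = ρ u (f v) := by
      intro u hu v
      have hu' : u ∈ maximalRealSubfield K := (IsCMField.complexConj_eq_self_iff K u).1 hu
      exact congrArg (fun t : Module.End ℂ B.H1 => t v) (hfρ ⟨u, hu'⟩)
    refine hcen f ?_ hK
    refine (hEnd f).2 ⟨f.isLinear, ?_, ?_, ?_, ?_⟩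
    · intro v hv
      rw [← mem_pData_Q] at hv ⊢
      exact hfQ v hv
    · exact fun v => congrArg (fun t : Module.End ℂ B.H1 => t v) hfx
    · exact fun v => congrArg (fun t : Module.End ℂ B.H1 => t v) hfy
    · intro v
      rw [hzw]
      exact hK w hw v
  · intro hi hE hc
    refine h2 hi fun e => ?_
    obtain ⟨k1, k2, k3⟩ := hcomm _ (hE e)
    exact ⟨k3, fun u => hc u e, k1, k2⟩

end cm

theorem thm_Qrm : St_Qrm := by
  intro B hs hg x y z a b ha hb hx hy hxy hxz hyz hzs hxB hyB hzB hEnd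
  classical
  have hne : Nonempty (Fin B.g ⊕ Fin B.g) := ⟨Sum.inl ⟨0, Nat.pos_of_ne_zero hg⟩⟩
  have hzE : B.IsEnd z := (hEnd z).2 ⟨z.isLinear, hzB,
    fun v => congrArg (fun t : Module.End ℂ B.H1 => t v) hxz.symm,
    fun v => congrArg (fun t : Module.End ℂ B.H1 => t v) hyz.symm, fun _ => rfl⟩
  have hEz : ∀ f, B.IsEnd f → ∀ v, z (f v) = f (z v) := fun f hf v =>
    (((hEnd f).1 hf).2.2.2.2 v).symm
  have hQ : ∀ f : Module.End ℂ B.H1, (∀ v, B.IsBetti v → B.IsBetti (f v)) →
      ∀ v ∈ (pData B).Q, f v ∈ (pData B).Q := by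
    intro f hf v hv
    rw [mem_pData_Q] at hv ⊢
    exact hf v hv
  have hcomm : ∀ f : Module.End ℂ B.H1, B.IsEnd f → f * x = x * f ∧ f * y = y * f ∧
      ∀ v ∈ (pData B).Q, f v ∈ (pData B).Q := by
    intro f hf
    obtain ⟨h1, h2, h3, h4, h5⟩ := (hEnd f).1 hf
    exact ⟨LinearMap.ext h3, LinearMap.ext h4, hQ f h2⟩
  obtain ⟨K, iF, iN, h⟩ := simple_cases B hs
  rcases h with ⟨hreal, ⟨C⟩⟩ | ⟨iCM, ρ', C⟩ | ⟨iCM, ρ', j, b', C⟩
  · -- the real case
    obtain ⟨ρ, hρ⟩ : ∃ ρ : K →+* Module.End ℂ B.H1, ∀ u v, ρ u v = C.ρ u v :=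
      ⟨mkRho C.ρ C.one C.mul C.add C.endo, fun _ _ => rfl⟩
    have hρE : ∀ u, B.IsEnd (ρ u) := by
      intro u
      have e : (ρ u : B.H1 → B.H1) = C.ρ u := funext (hρ u)
      rw [e]
      exact C.endo u
    obtain ⟨w, hw⟩ := C.centralizer z hzE fun u v => hEz _ (C.endo u) v
    obtain ⟨r, hr, h⟩ := Qrm_main (pData B) ρ (fun u => (hcomm _ (hρE u)).2.2) x y
      (hQ x hxB) (hQ y hyB) a b ha hb hx hy hxy (fun u => (hcomm _ (hρE u)).1.symm)
      (fun u => (hcomm _ (hρE u)).2.1.symm)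
    obtain ⟨h1, h2⟩ := h K ρ.toAddMonoidHom (fun u e => map_mul ρ u e)
    have h3 := h1 (by
      intro f hfQ hfρ hfx hfy
      have hK : ∀ u v, f (C.ρ u v) = C.ρ u (f v) := by
        intro u v
        rw [← hρ, ← hρ]
        exact congrArg (fun t : Module.End ℂ B.H1 => t v) (hfρ u)
      have hfE : B.IsEnd f := by
        refine (hEnd f).2 ⟨f.isLinear, ?_, ?_, ?_, ?_⟩
        · intro v hv
          rw [← mem_pData_Q] at hv ⊢
          exact hfQ v hv
        · exact fun v => congrArg (fun t : Module.End ℂ B.H1 => t v) hfx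
        · exact fun v => congrArg (fun t : Module.End ℂ B.H1 => t v) hfy
        · intro v
          rw [hw, hw]
          exact hK w v
      obtain ⟨e, he⟩ := C.centralizer f hfE hK
      refine ⟨e, LinearMap.ext fun v => ?_⟩
      rw [he]
      exact hρ e v)
    have h4 := h2 (fun e he => ρ.injective (he.trans (map_zero ρ).symm)) (by
      intro e
      obtain ⟨k1, k2, k3⟩ := hcomm _ (hρE e)
      refine ⟨k3, fun u => ?_, k1, k2⟩
      show ρ e * ρ u = ρ u * ρ e
      rw [← map_mul, ← map_mul, mul_comm])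
    rw [Module.finrank_self] at h3 h4
    have h5 : r = 2 := by nlinarith
    refine ⟨K, iF, iN, hreal, ⟨{
      ρ := C.ρ
      one := C.one
      mul := C.mul
      add := C.add
      degree := ?_
      endo := C.endo
      rosati := C.rosati
      centralizer := C.centralizer }⟩⟩
    rw [h5, card_index] at hr
    omega
  · -- the Hermitian case
    exfalso
    obtain ⟨ρ, hρ⟩ : ∃ ρ : K →+* Module.End ℂ B.H1, ∀ u v, ρ u v = ρ' u v :=
      ⟨mkRho ρ' C.one C.mul C.add C.endo, fun _ _ => rfl⟩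
    have hρE : ∀ u, B.IsEnd (ρ u) := by
      intro u
      have e : (ρ u : B.H1 → B.H1) = ρ' u := funext (hρ u)
      rw [e]
      exact C.endo u
    obtain ⟨w, hw⟩ := C.centralizer z hzE fun u _ v => hEz _ (C.endo u) v
    obtain ⟨r, -, hr1, hr2⟩ := Qrm_cm hg ha hb hx hy hxy hzs hxB hyB hEnd ρ hρE
      (fun w u v => by rw [hρ, hρ]; exact C.rosati w u v) w
      (LinearMap.ext fun v => by rw [hw, hρ]) K ρ.toAddMonoidHom
      (fun u e => by
        show ρ (u • e) = ρ u * ρ e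
        rw [← map_mul]
        rfl) (by
      intro f hf hfu
      obtain ⟨e, he⟩ := C.centralizer f hf fun u hu v => by
        rw [← hρ, ← hρ]
        exact hfu u hu v
      refine ⟨e, LinearMap.ext fun v => ?_⟩
      rw [he]
      exact hρ e v)
    have h3 := hr2 (fun e he => ρ.injective (he.trans (map_zero ρ).symm)) hρE (by
      intro u e
      show ρ e * ρ u = ρ u * ρ e
      rw [← map_mul, ← map_mul, mul_comm])
    rw [Algebra.IsQuadraticExtension.finrank_eq_two] at hr1 h3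
    have h4 : r * r = 8 := le_antisymm hr1 h3
    have h5 : r ≤ 2 ∨ 3 ≤ r := by omega
    rcases h5 with h5 | h5 <;> nlinarith
  · -- the quaternion case
    exfalso
    obtain ⟨ρ, hρ⟩ : ∃ ρ : K →+* Module.End ℂ B.H1, ∀ u v, ρ u v = ρ' u v :=
      ⟨mkRho ρ' C.one C.mul C.add C.endo, fun _ _ => rfl⟩
    have hρE : ∀ u, B.IsEnd (ρ u) := by
      intro u
      have e : (ρ u : B.H1 → B.H1) = ρ' u := funext (hρ u)
      rw [e]
      exact C.endo u
    obtain ⟨J, hJ⟩ : ∃ J : Module.End ℂ B.H1, ∀ v, J v = j v :=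
      ⟨IsLinearMap.mk' j C.endo_j.linear, fun _ => rfl⟩
    have hJJ : ∀ v, J (J v) = ρ b' v := by
      intro v
      rw [hJ, hJ, hρ]
      exact C.sq_j v
    have hJinj : Function.Injective J := J_inj B K ρ J b' hJJ C.ne_zero
    -- `z` commutes with an element which is not real
    obtain ⟨i, hi⟩ : ∃ i : K, cmConj K i ≠ i := by
      by_contra hall
      push Not at hall
      apply IsCMField.complexConj_ne_one K
      ext u
      exact hall u
    obtain ⟨w, w', hw⟩ := C.centralizer z hzE fun u _ v => hEz _ (C.endo u) v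
    have hw' : w' = 0 := by
      by_contra h0
      obtain ⟨v, hv⟩ := exists_ne (0 : B.H1)
      have h1 := hEz _ (hρE i) v
      rw [hw, hw, ← hρ, ← hρ, ← hρ, ← hρ, ← hJ, ← hJ] at h1
      have h2 : J (ρ i v) = ρ (cmConj K i) (J v) := by
        rw [hJ, hJ, hρ, hρ]
        exact C.conj_j i v
      have h3 : ρ w (ρ i v) = ρ i (ρ w v) := by
        rw [← Module.End.mul_apply, ← map_mul, mul_comm, map_mul, Module.End.mul_apply]
      rw [h2, map_add, h3] at h1
      have h4 : ρ (w' * (cmConj K i - i)) (J v) = 0 := by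
        rw [mul_sub, mul_comm w' i, map_sub, map_mul, map_mul, LinearMap.sub_apply,
          Module.End.mul_apply, Module.End.mul_apply, sub_eq_zero]
        exact add_left_cancel h1
      have h5 : w' * (cmConj K i - i) ≠ 0 := mul_ne_zero h0 (sub_ne_zero.2 hi)
      have h6 := rho_inj B K ρ _ h5 h4
      exact hv (hJinj (h6.trans (map_zero J).symm))
    obtain ⟨r, hr, hr1, -⟩ := Qrm_cm hg ha hb hx hy hxy hzs hxB hyB hEnd ρ hρE
      (fun w u v => by rw [hρ, hρ]; exact C.rosati w u v) w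
      (LinearMap.ext fun v => by rw [hw, hw', hρ, ← hρ 0, map_zero]; simp) (K × K)
      { toFun := fun p => ρ p.1 + ρ p.2 * J
        map_zero' := by simp
        map_add' := fun p q => by
          simp only [Prod.fst_add, Prod.snd_add, map_add, add_mul]
          abel }
      (fun u e => by
        show ρ (u • e.1) + ρ (u • e.2) * J = ρ u * (ρ e.1 + ρ e.2 * J)
        rw [mul_add, ← mul_assoc, ← map_mul, ← map_mul]
        rfl) (by
      intro f hf hfu
      obtain ⟨e, e', he⟩ := C.centralizer f hf fun u hu v => by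
        rw [← hρ, ← hρ]
        exact hfu u hu v
      refine ⟨(e, e'), LinearMap.ext fun v => ?_⟩
      rw [he, ← hρ, ← hρ, ← hJ]
      rfl)
    rw [Module.finrank_prod, Algebra.IsQuadraticExtension.finrank_eq_two] at hr1
    obtain ⟨m, hm, hm1⟩ := quat_rank B K ρ' j b' C
    have hq : finrank (maximalRealSubfield K) K = 2 :=
      Algebra.IsQuadraticExtension.finrank_eq_two _ _
    have h1 := Module.finrank_mul_finrank ℚ (maximalRealSubfield K) K
    rw [hq] at h1
    have h2 : 0 < finrank ℚ (maximalRealSubfield K) := Module.finrank_pos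
    have h3 : finrank ℚ (maximalRealSubfield K) * r = finrank ℚ (maximalRealSubfield K) * (4 * m) := by
      rw [hr, ← hm, ← h1]
      ring
    have h4 := Nat.eq_of_mul_eq_mul_left h2 h3
    rcases m with _ | _ | m
    · rw [mul_zero] at hm
      exact hg hm.symm
    · exact hm1 rfl
    · nlinarith

end Pool.Agent.KTW
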