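import Pool.Agent.KTW.StT

/-! # KTW, module RFC -/

set_option autoImplicit false

namespace Pool.Agent.KTW

open Module Matrix NumberField Pool.Agent.Helper7 Pool.Agent.KS Pool.Agent.Ball Pool.Agent.KSE
  Pool.Agent.Helper28.GPC Pool.Agent.K3P Pool.Agent.KTP
open Pool.Agent.KQ4 (en cq cf QP)

namespace Rfcx

open scoped ComplexConjugate ComplexOrder MatrixOrder

lemma root {𝕜 : Type} [RCLike 𝕜] {m : ℕ} (M : Matrix (Fin m) (Fin m) 𝕜) (hM : M.PosDef) :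
    ∃ R : Matrix (Fin m) (Fin m) 𝕜, Rᴴ * M * R = 1 ∧ IsUnit R.det := by
  classical
  obtain ⟨P, hP⟩ := CStarAlgebra.nonneg_iff_eq_star_mul_self.mp hM.posSemidef.nonneg
  rw [Matrix.star_eq_conjTranspose] at hP
  have hd : IsUnit P.det := by
    have h1 : M.det ≠ 0 := hM.det_pos.ne'
    rw [hP, Matrix.det_mul] at h1
    exact isUnit_iff_ne_zero.2 (right_ne_zero_of_mul h1)
  refine ⟨P⁻¹, ?_, Matrix.isUnit_nonsing_inv_det P hd⟩
  rw [hP, Matrix.conjTranspose_nonsing_inv]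
  have hd' : IsUnit (Pᴴ).det := by rw [Matrix.det_conjTranspose]; exact hd.star
  rw [← Matrix.mul_assoc, Matrix.nonsing_inv_mul _ hd', Matrix.one_mul,
    Matrix.mul_nonsing_inv _ hd]

/-- real vectors with `y' × y = 2 y` are zero -/
lemma cross (y' y : Fin 3 → ℂ) (h : crossProduct y' y = (2 : ℂ) • y)
    (hr : ∀ k, conj (y k) = y k) : y = 0 := by
  have h1 : y ⬝ᵥ y = 0 := by
    have h2 : y ⬝ᵥ crossProduct y' y = 0 := by
      simp only [cross_apply, dotProduct, Fin.sum_univ_three, Matrix.cons_val_zero,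
        Matrix.cons_val_one, Matrix.cons_val]
      ring
    rw [h, dotProduct_smul] at h2
    simpa using h2
  have h3 : ∑ k, ‖y k‖ ^ 2 = 0 := by
    have h4 : ((∑ k, ‖y k‖ ^ 2 : ℝ) : ℂ) = y ⬝ᵥ y := by
      rw [dotProduct]
      push_cast
      refine Finset.sum_congr rfl fun k _ => ?_
      rw [← Complex.conj_mul', hr]
    rw [h1] at h4
    exact_mod_cast h4
  funext k
  have h5 := (Finset.sum_eq_zero_iff_of_nonneg (fun k _ => by positivity)).1 h3 k (Finset.mem_univ k)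
  simpa using h5

lemma en_real {m : ℕ} (A : Matrix (Fin m) (Fin m) ℝ) (a b : ℕ) :
    conj (en (A.map ((↑) : ℝ → ℂ)) a b) = en (A.map ((↑) : ℝ → ℂ)) a b := by
  unfold en
  split_ifs
  · simp
  · simp

lemma cq_real {m : ℕ} (ε : ℂ) (hε : ε = 1 ∨ ε = -1) (A : Matrix (Fin m) (Fin m) ℝ) (k : Fin 3) :
    conj (cq ε (A.map ((↑) : ℝ → ℂ)) k) = cq ε (A.map ((↑) : ℝ → ℂ)) k := by
  have he : conj ε = ε := by rcases hε with rfl | rfl <;> simp
  fin_cases k <;> simp [cq, en_real, he]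

/-- the case of a standard frame -/
lemma real_std (hQ : KQ4.St_Qcq) {m : ℕ} (hm : m = 3 ∨ m = 4) (ε : ℂ) (hε : ε = 1 ∨ ε = -1)
    (A' A : Matrix (Fin m) (Fin m) ℝ) (hA' : A'ᵀ = -A') (hA : Aᵀ = -A)
    (h : cq ε ((A' * A - A * A' - (2 : ℝ) • A).map ((↑) : ℝ → ℂ)) = 0) :
    cq ε (A.map ((↑) : ℝ → ℂ)) = 0 := by
  have he : ε * ε = 1 := by rcases hε with rfl | rfl <;> simp
  obtain ⟨q1, q2, q3, -, -⟩ := hQ m hm ε he
  refine cross (cq ε (A'.map ((↑) : ℝ → ℂ))) _ ?_ (cq_real ε hε A)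
  have t1 : (A'.map ((↑) : ℝ → ℂ))ᵀ = -(A'.map ((↑) : ℝ → ℂ)) := by
    rw [← Matrix.transpose_map, hA']; ext i j; simp
  have t2 : (A.map ((↑) : ℝ → ℂ))ᵀ = -(A.map ((↑) : ℝ → ℂ)) := by
    rw [← Matrix.transpose_map, hA]; ext i j; simp
  rw [← q3 _ _ t1 t2]
  have h1 : (A' * A - A * A' - (2 : ℝ) • A).map ((↑) : ℝ → ℂ)
      = (A'.map ((↑) : ℝ → ℂ) * A.map ((↑) : ℝ → ℂ) - A.map ((↑) : ℝ → ℂ) * A'.map ((↑) : ℝ → ℂ))
        + (-2 : ℂ) • A.map ((↑) : ℝ → ℂ) := by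
    ext i j
    simp [Matrix.mul_apply, sub_eq_add_neg]
  rw [h1, q1, q2] at h
  have h2 := eq_neg_of_add_eq_zero_left h
  rw [h2]
  simp

lemma cq_zero (hQ : KQ4.St_Qcq) {m : ℕ} (hm : m = 3 ∨ m = 4) (ε : ℂ) (hε : ε = 1 ∨ ε = -1) :
    cq ε (0 : Matrix (Fin m) (Fin m) ℂ) = 0 := by
  have he : ε * ε = 1 := by rcases hε with rfl | rfl <;> simp
  have := (hQ m hm ε he).2.1 0 0
  simpa using this

lemma std (hF : St_Frc) (hQ : KQ4.St_Qcq) {m : ℕ} (hm : m = 3 ∨ m = 4) (ε : ℂ) (hε : ε = 1 ∨ ε = -1)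
    (O : Matrix (Fin m) (Fin m) ℂ) (hO : Oᵀ * O = 1) :
    ∃ ε' : ℂ, (ε' = 1 ∨ ε' = -1) ∧ ∀ A : Matrix (Fin m) (Fin m) ℂ, Aᵀ = -A →
      (cq ε (Oᵀ * A * O) = 0 ↔ cq ε' A = 0) := by
  rcases hm with hm | hm
  · refine ⟨ε, hε, ?_⟩
    intro A hA
    have he : ε * ε = 1 := by rcases hε with rfl | rfl <;> simp
    have hz := cq_zero hQ (Or.inl hm) ε hε
    have h5 := (hQ m (Or.inl hm) ε he).2.2.2.2
    have hO' : O * Oᵀ = 1 := mul_eq_one_comm.1 hO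
    constructor
    · intro h
      have h1 : (Oᵀ * A * O)ᵀ = -(Oᵀ * A * O) := by
        rw [transpose_mul, transpose_mul, transpose_transpose, hA]
        simp [Matrix.mul_assoc]
      have h2 := h5 _ h1 h (fun h4 => by omega)
      have h3 : A = O * (Oᵀ * A * O) * Oᵀ := by
        rw [← Matrix.mul_assoc, ← Matrix.mul_assoc, hO', Matrix.one_mul, Matrix.mul_assoc, hO',
          Matrix.mul_one]
      rw [h3, h2]
      simpa using hz
    · intro h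
      have h2 := h5 _ hA h (fun h4 => by omega)
      rw [h2]
      simpa using hz
  · obtain ⟨hd, -⟩ := hF m hm O 0 hO (by simp) ε hε
    refine ⟨ε * O.det, ?_, fun A hA => (hF m hm O A hO hA ε hε).2⟩
    rcases hε with rfl | rfl <;> rcases hd with h | h <;> rw [h] <;> simp

lemma posdef_real {m : ℕ} (G : Matrix (Fin m) (Fin m) ℝ) (hG : Gᵀ = G)
    (h : ∀ v : Fin m → ℂ, v ≠ 0 → 0 < (hf (G.map ((↑) : ℝ → ℂ)) v v).re) : G.PosDef := by
  refine Matrix.PosDef.of_dotProduct_mulVec_pos ?_ ?_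
  · rw [Matrix.IsHermitian, Matrix.conjTranspose_eq_transpose_of_trivial, hG]
  · intro v hv
    have h1 := h (fun i => (v i : ℂ)) (by
      intro h2
      apply hv
      funext i
      have := congrFun h2 i
      simpa using this)
    have h3 : hf (G.map ((↑) : ℝ → ℂ)) (fun i => (v i : ℂ)) (fun i => (v i : ℂ))
        = ((star v ⬝ᵥ (G *ᵥ v) : ℝ) : ℂ) := by
      unfold hf
      simp only [dotProduct, mulVec, Pi.star_apply, Matrix.map_apply, star_trivial]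
      push_cast
      refine Finset.sum_congr rfl fun i _ => ?_
      simp
    rw [h3] at h1
    simpa using h1

lemma posdef_complex {m : ℕ} (H : Matrix (Fin m) (Fin m) ℂ) (hH : H.IsHermitian)
    (h : ∀ v : Fin m → ℂ, v ≠ 0 → 0 < (hf H v v).re) : H.PosDef := by
  refine Matrix.PosDef.of_dotProduct_mulVec_pos hH ?_
  intro v hv
  have h1 := h v hv
  rw [Complex.pos_iff]
  refine ⟨h1, ?_⟩
  have h2 : star (star v ⬝ᵥ (H *ᵥ v)) = star v ⬝ᵥ (H *ᵥ v) := by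
    rw [← Matrix.star_dotProduct, Matrix.star_mulVec, hH.eq, ← Matrix.dotProduct_mulVec]
  have h3 : (starRingEnd ℂ) (star v ⬝ᵥ (H *ᵥ v)) = star v ⬝ᵥ (H *ᵥ v) := h2
  rw [Complex.conj_eq_iff_im] at h3
  exact h3.symm

lemma frame_real {m : ℕ} (G : Matrix (Fin m) (Fin m) ℝ) (hG : Gᵀ = G)
    (h : Definite (G.map ((↑) : ℝ → ℂ))) :
    ∃ (R : Matrix (Fin m) (Fin m) ℝ) (s : ℝ), (s = 1 ∨ s = -1) ∧ Rᵀ * G * R = s • 1 ∧
      IsUnit R.det := by
  rcases h.2 with h | h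
  · obtain ⟨R, h1, h2⟩ := root G (posdef_real G hG h)
    refine ⟨R, 1, Or.inl rfl, ?_, h2⟩
    rw [Matrix.conjTranspose_eq_transpose_of_trivial] at h1
    simpa using h1
  · obtain ⟨R, h1, h2⟩ := root (-G) (posdef_real (-G) (by rw [transpose_neg, hG]) (by
      intro v hv
      have h3 := h v hv
      have h4 : (-G).map ((↑) : ℝ → ℂ) = -(G.map ((↑) : ℝ → ℂ)) := by ext i j; simp
      rw [h4]
      have h5 : hf (-(G.map ((↑) : ℝ → ℂ))) v v = -hf (G.map ((↑) : ℝ → ℂ)) v v := by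
        unfold hf
        rw [neg_mulVec, dotProduct_neg]
      rw [h5, Complex.neg_re]
      linarith))
    refine ⟨R, -1, Or.inr rfl, ?_, h2⟩
    rw [Matrix.conjTranspose_eq_transpose_of_trivial] at h1
    rw [mul_neg, neg_mul] at h1
    rw [← neg_eq_iff_eq_neg.2 h1.symm]
    simp

lemma frame_complex {m : ℕ} (H : Matrix (Fin m) (Fin m) ℂ) (h : Definite H) :
    ∃ (R : Matrix (Fin m) (Fin m) ℂ) (s : ℂ), (s = 1 ∨ s = -1) ∧ Rᴴ * H * R = s • 1 ∧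
      IsUnit R.det := by
  rcases h.2 with h' | h'
  · obtain ⟨R, h1, h2⟩ := root H (posdef_complex H h.1 h')
    exact ⟨R, 1, Or.inl rfl, by simpa using h1, h2⟩
  · obtain ⟨R, h1, h2⟩ := root (-H) (posdef_complex (-H) h.1.neg (by
      intro v hv
      have h3 := h' v hv
      have h5 : hf (-H) v v = -hf H v v := by
        unfold hf
        rw [neg_mulVec, dotProduct_neg]
      rw [h5, Complex.neg_re]
      linarith))
    refine ⟨R, -1, Or.inr rfl, ?_, h2⟩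
    rw [mul_neg, neg_mul] at h1
    rw [← neg_eq_iff_eq_neg.2 h1.symm]
    simp

theorem part1 (hF : St_Frc) (hQ : KQ4.St_Qcq) (m : ℕ) (hm : m = 3 ∨ m = 4)
    (G : Matrix (Fin m) (Fin m) ℝ) (hG : Gᵀ = G)
    (hD : Definite (G.map ((↑) : ℝ → ℂ))) (B : Matrix (Fin m) (Fin m) ℂ)
    (hB : Bᵀ * G.map ((↑) : ℝ → ℂ) * B = 1) (ε : ℂ) (hε : ε = 1 ∨ ε = -1)
    (Z' Z : Matrix (Fin m) (Fin m) ℝ) (hZ' : Z'ᵀ * G + G * Z' = 0) (hZ : Zᵀ * G + G * Z = 0)
    (hc : cq ε (B⁻¹ * (Z' * Z - Z * Z' - (2 : ℝ) • Z).map ((↑) : ℝ → ℂ) * B) = 0) :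
    cq ε (B⁻¹ * Z.map ((↑) : ℝ → ℂ) * B) = 0 := by
  obtain ⟨R, s, hs, hR, hRd⟩ := frame_real G hG hD
  obtain ⟨c, hc0, hcs⟩ : ∃ c : ℂ, c ≠ 0 ∧ c * c * (s : ℂ) = 1 := by
    rcases hs with rfl | rfl
    · exact ⟨1, one_ne_zero, by simp⟩
    · exact ⟨Complex.I, Complex.I_ne_zero, by simp⟩
  have hss : s * s = 1 := by rcases hs with rfl | rfl <;> norm_num
  set f : ℝ → ℂ := ((↑) : ℝ → ℂ) with hf
  have fm : ∀ X Y : Matrix (Fin m) (Fin m) ℝ, (X * Y).map f = X.map f * Y.map f := fun X Y =>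
    Matrix.map_mul (f := Complex.ofRealHom)
  have f1 : (1 : Matrix (Fin m) (Fin m) ℝ).map f = 1 := by
    ext i j; simp [hf, Matrix.one_apply]; split_ifs <;> simp
  set B₀ : Matrix (Fin m) (Fin m) ℂ := c • R.map f with hB0
  -- the inverse of `B₀`
  set Bi : Matrix (Fin m) (Fin m) ℂ := c⁻¹ • (R⁻¹).map f with hBi
  have hi1 : Bi * B₀ = 1 := by
    rw [hBi, hB0, smul_mul_smul_comm, ← fm, nonsing_inv_mul _ hRd, f1, inv_mul_cancel₀ hc0, one_smul]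
  have hi2 : B₀ * Bi = 1 := mul_eq_one_comm.1 hi1
  have hG0 : B₀ᵀ * G.map f * B₀ = 1 := by
    rw [hB0, transpose_smul, ← transpose_map, smul_mul, smul_mul_smul_comm, ← fm, ← fm, hR]
    ext i j
    simp only [hf, Matrix.smul_apply, Matrix.map_apply, Matrix.one_apply, smul_eq_mul]
    split_ifs
    · push_cast
      rw [mul_one]
      exact hcs
    · simp
  have hconj : ∀ X : Matrix (Fin m) (Fin m) ℝ, Bi * X.map f * B₀ = (R⁻¹ * X * R).map f := by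
    intro X
    rw [hBi, hB0, smul_mul, smul_mul_smul_comm, ← fm, ← fm, inv_mul_cancel₀ hc0, one_smul]
  set O : Matrix (Fin m) (Fin m) ℂ := Bi * B with hO
  have hBO : B = B₀ * O := by rw [hO, ← Matrix.mul_assoc, hi2, Matrix.one_mul]
  have hOO : Oᵀ * O = 1 := by
    have h1 : Biᵀ * Bi = G.map f := by
      have h2 : Biᵀ * (B₀ᵀ * G.map f * B₀) * Bi = Biᵀ * Bi := by rw [hG0, Matrix.mul_one]
      rw [← h2, ← Matrix.mul_assoc, ← Matrix.mul_assoc, ← transpose_mul, hi2, transpose_one,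
        Matrix.one_mul, Matrix.mul_assoc, hi2, Matrix.mul_one]
    rw [hO, transpose_mul, Matrix.mul_assoc, ← Matrix.mul_assoc Biᵀ, h1, ← Matrix.mul_assoc, hB]
  have hBinv : B⁻¹ = Oᵀ * Bi := by
    apply inv_eq_left_inv
    rw [hBO, Matrix.mul_assoc, ← Matrix.mul_assoc Bi, hi1, Matrix.one_mul, hOO]
  obtain ⟨ε', hε', hstd⟩ := std hF hQ hm ε hε O hOO
  have hRi : R⁻¹ = s • (Rᵀ * G) := by
    apply inv_eq_left_inv
    rw [smul_mul, hR, smul_smul, hss, one_smul]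
  have hsk : ∀ X : Matrix (Fin m) (Fin m) ℝ, Xᵀ * G + G * X = 0 →
      (R⁻¹ * X * R)ᵀ = -(R⁻¹ * X * R) := by
    intro X hX
    have h1 : Xᵀ * G = -(G * X) := eq_neg_of_add_eq_zero_left hX
    rw [hRi, smul_mul, smul_mul, transpose_smul, ← smul_neg]
    congr 1
    rw [transpose_mul, transpose_mul, transpose_mul, transpose_transpose, hG,
      ← Matrix.mul_assoc Xᵀ, h1]
    simp only [neg_mul, mul_neg, Matrix.mul_assoc]
  have hkey : ∀ X : Matrix (Fin m) (Fin m) ℝ, (R⁻¹ * X * R)ᵀ = -(R⁻¹ * X * R) →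
      (cq ε (B⁻¹ * X.map f * B) = 0 ↔ cq ε' ((R⁻¹ * X * R).map f) = 0) := by
    intro X hX
    have h1 : B⁻¹ * X.map f * B = Oᵀ * ((R⁻¹ * X * R).map f) * O := by
      rw [← hconj, hBinv, hBO]
      simp only [Matrix.mul_assoc]
    rw [h1]
    apply hstd
    rw [← transpose_map, hX]
    ext i j
    simp [hf]
  have hR2 : R * R⁻¹ = 1 := mul_nonsing_inv _ hRd
  have hbr : R⁻¹ * (Z' * Z - Z * Z' - (2 : ℝ) • Z) * R
      = (R⁻¹ * Z' * R) * (R⁻¹ * Z * R) - (R⁻¹ * Z * R) * (R⁻¹ * Z' * R)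
        - (2 : ℝ) • (R⁻¹ * Z * R) := by
    have h1 : ∀ X Y : Matrix (Fin m) (Fin m) ℝ,
        (R⁻¹ * X * R) * (R⁻¹ * Y * R) = R⁻¹ * (X * Y) * R := by
      intro X Y
      calc (R⁻¹ * X * R) * (R⁻¹ * Y * R) = R⁻¹ * X * (R * R⁻¹) * Y * R := by
            simp only [Matrix.mul_assoc]
        _ = R⁻¹ * (X * Y) * R := by rw [hR2, Matrix.mul_one]; simp only [Matrix.mul_assoc]
    rw [h1, h1]
    simp only [Matrix.mul_sub, Matrix.sub_mul, Matrix.mul_smul, Matrix.smul_mul]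
  have hs1 := hsk Z' hZ'
  have hs2 := hsk Z hZ
  have hs3 : (R⁻¹ * (Z' * Z - Z * Z' - (2 : ℝ) • Z) * R)ᵀ
      = -(R⁻¹ * (Z' * Z - Z * Z' - (2 : ℝ) • Z) * R) := by
    rw [hbr]
    generalize R⁻¹ * Z' * R = A' at *
    generalize R⁻¹ * Z * R = A at *
    rw [transpose_sub, transpose_sub, transpose_mul, transpose_mul, transpose_smul, hs1, hs2,
      neg_mul_neg, neg_mul_neg, smul_neg]
    abel
  rw [hkey _ hs3, hbr] at hc
  rw [hkey _ hs2]
  exact real_std hQ hm ε' hε' _ _ hs1 hs2 hc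

/-- the entries when `cs` vanishes, `m = 2` -/
lemma cs_conj (X P Q : Matrix (Fin 2) (Fin 2) ℂ) (hPQ : P * Q = 1) (h : cs X = 0) :
    cs (P * X * Q) = 0 := by
  have h0 := congrFun h 0
  have h1 := congrFun h 1
  have h2 := congrFun h 2
  simp [cs, en] at h0 h1 h2
  have e01 : X 0 1 = 0 := by linear_combination (1 / 2 : ℂ) * h0 - (1 / 2 : ℂ) * h1
  have e10 : X 1 0 = 0 := by linear_combination (1 / 2 : ℂ) * h0 + (1 / 2 : ℂ) * h1
  have e11 : X 1 1 = X 0 0 := by linear_combination - h2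
  have hX : X = X 0 0 • (1 : Matrix (Fin 2) (Fin 2) ℂ) := by
    ext i j
    fin_cases i <;> fin_cases j <;> simp [e01, e10, e11]
  rw [hX, Matrix.mul_smul, Matrix.smul_mul, Matrix.mul_one, hPQ]
  funext k
  fin_cases k <;> simp [cs, en]

lemma cs_real (A : Matrix (Fin 2) (Fin 2) ℂ) (hA : Aᴴ = -A) (k : Fin 3) :
    conj (cs A k) = cs A k := by
  have h : ∀ i j, conj (A j i) = - A i j := by
    intro i j
    have := congrFun (congrFun hA i) j
    simpa [Matrix.conjTranspose_apply] using this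
  fin_cases k
  · simp [cs, en, h]; ring
  · simp [cs, en, h]; ring
  · simp [cs, en, h]; ring

lemma cs_cross (A' A : Matrix (Fin 2) (Fin 2) ℂ) :
    cs (A' * A - A * A' - (2 : ℂ) • A) = crossProduct (cs A') (cs A) - (2 : ℂ) • cs A := by
  have hI : Complex.I * Complex.I = -1 := Complex.I_mul_I
  funext k
  fin_cases k
  · simp [cs, en, Matrix.mul_apply, Fin.sum_univ_two, cross_apply]; ring
  · simp [cs, en, Matrix.mul_apply, Fin.sum_univ_two, cross_apply]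
    linear_combination (-(A' 0 0 - A' 1 1) * (A 0 1 + A 1 0) + (A' 0 1 + A' 1 0) * (A 0 0 - A 1 1)) * hI
  · simp [cs, en, Matrix.mul_apply, Fin.sum_univ_two, cross_apply]; ring

theorem part2 (H : Matrix (Fin 2) (Fin 2) ℂ) (hH : Definite H) (Z' Z : Matrix (Fin 2) (Fin 2) ℂ)
    (hZ' : Z'ᴴ * H + H * Z' = 0) (hZ : Zᴴ * H + H * Z = 0)
    (hc : cs (Z' * Z - Z * Z' - (2 : ℂ) • Z) = 0) : cs Z = 0 := by
  obtain ⟨R, s, hs, hR, hRd⟩ := frame_complex H hH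
  have hss : s * s = 1 := by rcases hs with rfl | rfl <;> norm_num
  have hsc : star s = s := by rcases hs with rfl | rfl <;> simp
  have hR1 : R⁻¹ * R = 1 := nonsing_inv_mul _ hRd
  have hR2 : R * R⁻¹ = 1 := mul_nonsing_inv _ hRd
  have hRi : R⁻¹ = s • (Rᴴ * H) := by
    apply inv_eq_left_inv
    rw [smul_mul, hR, smul_smul, hss, one_smul]
  have hsk : ∀ X : Matrix (Fin 2) (Fin 2) ℂ, Xᴴ * H + H * X = 0 →
      (R⁻¹ * X * R)ᴴ = -(R⁻¹ * X * R) := by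
    intro X hX
    have h1 : Xᴴ * H = -(H * X) := eq_neg_of_add_eq_zero_left hX
    rw [hRi, smul_mul, smul_mul, conjTranspose_smul, hsc, ← smul_neg]
    congr 1
    rw [conjTranspose_mul, conjTranspose_mul, conjTranspose_mul, conjTranspose_conjTranspose,
      hH.1.eq, ← Matrix.mul_assoc Xᴴ, h1]
    simp only [neg_mul, mul_neg, Matrix.mul_assoc]
  have h1 : ∀ X Y : Matrix (Fin 2) (Fin 2) ℂ,
      (R⁻¹ * X * R) * (R⁻¹ * Y * R) = R⁻¹ * (X * Y) * R := by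
    intro X Y
    calc (R⁻¹ * X * R) * (R⁻¹ * Y * R) = R⁻¹ * X * (R * R⁻¹) * Y * R := by
          simp only [Matrix.mul_assoc]
      _ = R⁻¹ * (X * Y) * R := by rw [hR2, Matrix.mul_one]; simp only [Matrix.mul_assoc]
  have hbr : R⁻¹ * (Z' * Z - Z * Z' - (2 : ℂ) • Z) * R
      = (R⁻¹ * Z' * R) * (R⁻¹ * Z * R) - (R⁻¹ * Z * R) * (R⁻¹ * Z' * R)
        - (2 : ℂ) • (R⁻¹ * Z * R) := by
    rw [h1, h1]
    simp only [Matrix.mul_sub, Matrix.sub_mul, Matrix.mul_smul, Matrix.smul_mul]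
  have h2 := cs_conj _ R⁻¹ R hR1 hc
  rw [hbr, cs_cross] at h2
  have h3 := cross (cs (R⁻¹ * Z' * R)) (cs (R⁻¹ * Z * R)) (sub_eq_zero.1 h2) (cs_real _ (hsk Z hZ))
  have h4 := cs_conj _ R R⁻¹ hR2 h3
  have h5 : R * (R⁻¹ * Z * R) * R⁻¹ = Z := by
    rw [← Matrix.mul_assoc, ← Matrix.mul_assoc, hR2, Matrix.one_mul, Matrix.mul_assoc, hR2,
      Matrix.mul_one]
  rwa [h5] at h4

end Rfcx

theorem thm_Rfc (hFrc : St_Frc) (_hCss : St_Css) (hQcq : KQ4.St_Qcq) : St_Rfc := by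
  refine ⟨?_, ?_⟩
  · intro m hm G hG hD B hB ε hε Z' Z hZ' hZ hc
    exact Rfcx.part1 hFrc hQcq m hm G hG hD B hB ε hε Z' Z hZ' hZ hc
  · intro m hm H hH Z' Z hZ' hZ hc
    subst hm
    exact Rfcx.part2 H hH Z' Z hZ' hZ hc

end Pool.Agent.KTW
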