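import Pool.Agent.KTW.StT
import Pool.Agent.KS.Witt

/-!
# KTW: RFN, the non-compact real form (helper77)
-/

set_option autoImplicit false
set_option linter.unusedVariables false

namespace Pool.Agent.KTW

open Module Matrix NumberField Pool.Agent.Helper7 Pool.Agent.KS Pool.Agent.Ball Pool.Agent.KSE
  Pool.Agent.Helper28.GPC Pool.Agent.K3P Pool.Agent.KTP
open Pool.Agent.KQ4 (en cq cf QP)
open Pool.Agent.KS.WittAux (wbil wbil_apply wbil_symm sig2_dim sig2_rad)

namespace Rfnx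

/-- the signs -/
def dl (m : ℕ) : Fin m → ℝ := fun i => if i.val < 2 then 1 else -1

/-- an orthogonal basis with values `1, 1, -1, ..` -/
theorem basis {m : ℕ} (G : Matrix (Fin m) (Fin m) ℝ) (hG : Gᵀ = G) (h : Sig2 G) :
    ∃ R : Matrix (Fin m) (Fin m) ℝ, Rᵀ * G * R = diagonal (dl m) := by
  classical
  have hsymm : LinearMap.IsSymm (wbil G) := ⟨fun x y => wbil_symm G hG x y⟩
  obtain ⟨v0, hv0⟩ := LinearMap.BilinForm.exists_orthogonal_basis hsymm
  have hcard : finrank ℝ (Fin m → ℝ) = m := by simp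
  let v : Basis (Fin m) ℝ (Fin m → ℝ) := v0.reindex (finCongr hcard)
  have hv : ∀ i j, i ≠ j → wbil G (v i) (v j) = 0 := by
    intro i j hij
    simp only [v, Basis.reindex_apply]
    exact hv0 (fun h => hij ((finCongr hcard).symm.injective h))
  have hne : ∀ i, wbil G (v i) (v i) ≠ 0 := by
    intro i h0
    have h1 : ∀ j, wbil G (v i) (v j) = 0 := fun j => by
      by_cases h : i = j
      · rw [← h]
        exact h0
      · exact hv i j h
    have h2 : wbil G (v i) = 0 := v.ext fun j => by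
      rw [LinearMap.zero_apply]
      exact h1 j
    exact v.ne_zero i (sig2_rad hG h (v i) fun y => by rw [h2, LinearMap.zero_apply])
  -- sums
  have hsum : ∀ (T : Finset (Fin m)) (c : T → ℝ),
      wbil G (∑ i, c i • v i) (∑ i, c i • v i) = ∑ i, c i ^ 2 * wbil G (v i) (v i) := by
    intro T c
    rw [map_sum]
    refine Finset.sum_congr rfl fun i _ => ?_
    rw [map_sum, LinearMap.sum_apply, Finset.sum_eq_single i]
    · rw [map_smul, map_smul, LinearMap.smul_apply, smul_eq_mul, smul_eq_mul]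
      ring
    · intro j _ hji
      rw [map_smul, map_smul, LinearMap.smul_apply, hv j i (fun h => hji (Subtype.ext h)), smul_zero,
        smul_zero]
    · intro h
      exact absurd (Finset.mem_univ _) h
  have hfr : ∀ T : Finset (Fin m), finrank ℝ (Submodule.span ℝ (Set.range fun i : T => v i)) = T.card := by
    intro T
    have h1 : LinearIndependent ℝ (fun i : T => v i) :=
      v.linearIndependent.comp (fun i : T => (i : Fin m)) Subtype.val_injective
    rw [finrank_span_eq_card h1]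
    simp
  let P : Finset (Fin m) := Finset.univ.filter fun i => 0 < wbil G (v i) (v i)
  have hPle : P.card ≤ 2 := by
    rw [← hfr P]
    refine sig2_dim h _ fun x hx => ?_
    obtain ⟨c, rfl⟩ := (Submodule.mem_span_range_iff_exists_fun ℝ).1 hx
    rw [hsum]
    refine Finset.sum_nonneg fun i _ => mul_nonneg (sq_nonneg _) ?_
    exact (Finset.mem_filter.1 i.2).2.le
  have hNle : Pᶜ.card + 2 ≤ m := by
    obtain ⟨W, W', h1, h2, h3, h4⟩ := id h
    have hinf : W ⊓ Submodule.span ℝ (Set.range fun i : (Pᶜ : Finset (Fin m)) => v i) = ⊥ := by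
      rw [Submodule.eq_bot_iff]
      rintro x ⟨hx1, hx2⟩
      by_contra hx0
      have h5 := h3 x hx1 hx0
      rw [← wbil_apply] at h5
      obtain ⟨c, rfl⟩ := (Submodule.mem_span_range_iff_exists_fun ℝ).1 hx2
      rw [hsum] at h5
      have h6 : ∑ i : (Pᶜ : Finset (Fin m)), c i ^ 2 * wbil G (v i) (v i) ≤ 0 := by
        refine Finset.sum_nonpos fun i _ => mul_nonpos_of_nonneg_of_nonpos (sq_nonneg _) ?_
        have h7 := i.2
        rw [Finset.mem_compl, Finset.mem_filter] at h7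
        exact not_lt.1 fun h8 => h7 ⟨Finset.mem_univ _, h8⟩
      linarith
    have h7 := Submodule.finrank_sup_add_finrank_inf_eq W
      (Submodule.span ℝ (Set.range fun i : (Pᶜ : Finset (Fin m)) => v i))
    rw [hinf, finrank_bot, add_zero, h1, hfr] at h7
    have h8 := Submodule.finrank_le (W ⊔ Submodule.span ℝ (Set.range fun i : (Pᶜ : Finset (Fin m)) => v i))
    rw [hcard] at h8
    omega
  have hPc : P.card + Pᶜ.card = m := by
    rw [Finset.card_add_card_compl, Fintype.card_fin]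
  have hP : P.card = 2 := by omega
  have hm2 : 2 ≤ m := by omega
  -- the permutation
  have hq : Fintype.card {i : Fin m // i.val < 2} = Fintype.card {i : Fin m // 0 < wbil G (v i) (v i)} := by
    rw [Fintype.card_subtype, Fintype.card_subtype]
    have e : (Finset.univ.filter fun i : Fin m => 0 < wbil G (v i) (v i)).card = 2 := hP
    rw [e]
    have e2 : (Finset.univ.filter fun i : Fin m => i.val < 2) =
        {(⟨0, by omega⟩ : Fin m), (⟨1, by omega⟩ : Fin m)} := by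
      ext i
      simp only [Finset.mem_filter, Finset.mem_univ, true_and, Finset.mem_insert, Finset.mem_singleton,
        Fin.ext_iff]
      omega
    rw [e2, Finset.card_pair]
    intro h
    simp [Fin.ext_iff] at h
  obtain ⟨e0⟩ := Fintype.card_eq.1 hq
  let e : Equiv.Perm (Fin m) := e0.extendSubtype
  have he1 : ∀ i : Fin m, i.val < 2 → 0 < wbil G (v (e i)) (v (e i)) := fun i hi =>
    e0.extendSubtype_mem i hi
  have he2 : ∀ i : Fin m, ¬ i.val < 2 → wbil G (v (e i)) (v (e i)) < 0 := fun i hi =>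
    lt_of_le_of_ne (not_lt.1 (e0.extendSubtype_not_mem i hi)) (hne _)
  let q : Fin m → ℝ := fun i => |wbil G (v (e i)) (v (e i))|
  have hq0 : ∀ i, 0 < q i := fun i => abs_pos.2 (hne _)
  refine ⟨Matrix.of fun a i => (Real.sqrt (q i))⁻¹ * v (e i) a, ?_⟩
  ext i j
  have h1 : ((Matrix.of fun a i => (Real.sqrt (q i))⁻¹ * v (e i) a)ᵀ * G *
      (Matrix.of fun a i => (Real.sqrt (q i))⁻¹ * v (e i) a)) i j =
      ((Real.sqrt (q i))⁻¹ • v (e i)) ⬝ᵥ (G *ᵥ ((Real.sqrt (q j))⁻¹ • v (e j))) := by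
    rw [Matrix.mul_assoc]
    rfl
  rw [h1, Matrix.mulVec_smul, smul_dotProduct, dotProduct_smul, ← wbil_apply]
  by_cases hij : i = j
  · subst hij
    rw [diagonal_apply_eq, smul_eq_mul, smul_eq_mul, ← mul_assoc, ← mul_inv, Real.mul_self_sqrt (hq0 i).le]
    unfold dl
    by_cases hi : i.val < 2
    · rw [if_pos hi]
      have h2 : q i = wbil G (v (e i)) (v (e i)) := abs_of_pos (he1 i hi)
      rw [h2, inv_mul_cancel₀ (hne _)]
    · rw [if_neg hi]
      have h2 : q i = -wbil G (v (e i)) (v (e i)) := abs_of_neg (he2 i hi)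
      rw [h2, inv_neg, neg_mul, inv_mul_cancel₀ (hne _)]
  · rw [diagonal_apply_ne _ hij, hv _ _ (fun h => hij (e.injective h)), smul_zero, smul_zero]

/-- the real element -/
def Sm (m : ℕ) : Matrix (Fin m) (Fin m) ℝ := Matrix.of fun i j =>
  if (i.val = 2 ∧ j.val = 1) ∨ (i.val = 1 ∧ j.val = 2) ∨ (i.val = 0 ∧ j.val = 1) then 1
  else if i.val = 1 ∧ j.val = 0 then -1 else 0

/-- the real element -/
def Sm' (m : ℕ) : Matrix (Fin m) (Fin m) ℝ := Matrix.of fun i j =>
  if (i.val = 2 ∧ j.val = 0) ∨ (i.val = 0 ∧ j.val = 2) then 2 else 0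

theorem rel {m : ℕ} (hm : m = 3 ∨ m = 4) : Sm' m * Sm m - Sm m * Sm' m = (2 : ℝ) • Sm m := by
  rcases hm with rfl | rfl
  · ext i j
    simp only [Matrix.sub_apply, Matrix.mul_apply, Matrix.smul_apply, smul_eq_mul, Fin.sum_univ_three, Sm, Sm', of_apply]
    fin_cases i <;> fin_cases j <;> norm_num
  · ext i j
    simp only [Matrix.sub_apply, Matrix.mul_apply, Matrix.smul_apply, smul_eq_mul, Fin.sum_univ_four, Sm, Sm', of_apply]
    fin_cases i <;> fin_cases j <;> norm_num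

theorem skw {m : ℕ} (hm : m = 3 ∨ m = 4) : (Sm m)ᵀ * diagonal (dl m) + diagonal (dl m) * Sm m = 0 := by
  rcases hm with rfl | rfl
  · ext i j
    rw [Matrix.add_apply, mul_diagonal, diagonal_mul, transpose_apply]
    simp only [Sm, of_apply, dl]
    fin_cases i <;> fin_cases j <;> norm_num
  · ext i j
    rw [Matrix.add_apply, mul_diagonal, diagonal_mul, transpose_apply]
    simp only [Sm, of_apply, dl]
    fin_cases i <;> fin_cases j <;> norm_num

theorem skw' {m : ℕ} (hm : m = 3 ∨ m = 4) : (Sm' m)ᵀ * diagonal (dl m) + diagonal (dl m) * Sm' m = 0 := by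
  rcases hm with rfl | rfl
  · ext i j
    rw [Matrix.add_apply, mul_diagonal, diagonal_mul, transpose_apply]
    simp only [Sm', of_apply, dl]
    fin_cases i <;> fin_cases j <;> norm_num
  · ext i j
    rw [Matrix.add_apply, mul_diagonal, diagonal_mul, transpose_apply]
    simp only [Sm', of_apply, dl]
    fin_cases i <;> fin_cases j <;> norm_num

/-- the complex diagonal entries -/
def dd (m : ℕ) (η : ℂ) : Fin m → ℂ := fun i => if i.val < 2 then 1 else η

/-- the matrix in the orthonormal frame -/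
noncomputable def Am (m : ℕ) (η : ℂ) : Matrix (Fin m) (Fin m) ℂ :=
  Matrix.of fun i j => (dd m η i)⁻¹ * ((Sm m i j : ℝ) : ℂ) * dd m η j

theorem dd_ne {m : ℕ} {η : ℂ} (hη : η * η = -1) (i : Fin m) : dd m η i ≠ 0 := by
  unfold dd
  split_ifs
  · exact one_ne_zero
  · intro h
    rw [h, mul_zero] at hη
    exact one_ne_zero (neg_eq_zero.1 hη.symm)

theorem Am_mul {m : ℕ} {η : ℂ} (hη : η * η = -1) :
    diagonal (dd m η) * Am m η = (Sm m).map ((↑) : ℝ → ℂ) * diagonal (dd m η) := by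
  ext i j
  rw [diagonal_mul, mul_diagonal, map_apply]
  unfold Am
  rw [of_apply, ← mul_assoc, ← mul_assoc, mul_inv_cancel₀ (dd_ne hη i), one_mul]

theorem Am_skew {m : ℕ} (hm : m = 3 ∨ m = 4) {η : ℂ} (hη : η * η = -1) : (Am m η)ᵀ = -Am m η := by
  have hinv : η⁻¹ = -η := inv_eq_of_mul_eq_one_right (by rw [mul_neg, hη, neg_neg])
  rcases hm with rfl | rfl
  · ext i j
    simp only [transpose_apply, Matrix.neg_apply, Am, of_apply, dd, Sm]
    fin_cases i <;> fin_cases j <;> norm_num [hinv]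
  · ext i j
    simp only [transpose_apply, Matrix.neg_apply, Am, of_apply, dd, Sm]
    fin_cases i <;> fin_cases j <;> norm_num [hinv]

theorem Am_cq {m : ℕ} (hm : m = 3 ∨ m = 4) {η : ℂ} (ε : ℂ) : cq ε (Am m η) ≠ 0 := by
  intro h
  have h2 := congrFun h 2
  rcases hm with rfl | rfl
  · simp [cq, en, Am, dd, Sm] at h2
  · simp [cq, en, Am, dd, Sm] at h2

theorem dd_dl {m : ℕ} {η : ℂ} (hη : η * η = -1) :
    diagonal (dd m η) * (diagonal (dl m)).map ((↑) : ℝ → ℂ) * diagonal (dd m η) = 1 := by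
  ext i j
  rw [mul_diagonal, diagonal_mul, map_apply]
  by_cases hij : i = j
  · subst hij
    rw [diagonal_apply_eq, one_apply_eq]
    unfold dd dl
    by_cases hi : i.val < 2
    · rw [if_pos hi, if_pos hi]
      simp
    · rw [if_neg hi, if_neg hi]
      push_cast
      linear_combination -hη
  · rw [diagonal_apply_ne _ hij, one_apply_ne hij]
    simp

theorem mapmul {m : ℕ} (A B : Matrix (Fin m) (Fin m) ℝ) :
    (A * B).map ((↑) : ℝ → ℂ) = A.map ((↑) : ℝ → ℂ) * B.map ((↑) : ℝ → ℂ) :=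
  Matrix.map_mul (f := Complex.ofRealHom)

theorem main (hFrc : St_Frc) (hQcq : KQ4.St_Qcq) {m : ℕ} (hm : m = 3 ∨ m = 4)
    (G : Matrix (Fin m) (Fin m) ℝ) (hG : Gᵀ = G) (B : Matrix (Fin m) (Fin m) ℂ)
    (hB : Bᵀ * G.map ((↑) : ℝ → ℂ) * B = 1) (ε : ℂ) (hε : ε = 1 ∨ ε = -1)
    (R : Matrix (Fin m) (Fin m) ℝ) (s : ℝ) (κ η : ℂ) (hη : η * η = -1) (hκ : κ * κ = (s : ℂ))
    (hs : s * s = 1) (hR : Rᵀ * G * R = s • diagonal (dl m)) :
    ∃ Z' Z : Matrix (Fin m) (Fin m) ℝ, Z'ᵀ * G + G * Z' = 0 ∧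
    Zᵀ * G + G * Z = 0 ∧
    cq ε (B⁻¹ * (Z' * Z - Z * Z' - (2 : ℝ) • Z).map ((↑) : ℝ → ℂ) * B) = 0 ∧
    cq ε (B⁻¹ * Z.map ((↑) : ℝ → ℂ) * B) ≠ 0 := by
  have hdl : diagonal (dl m) * diagonal (dl m) = 1 := by
    rw [diagonal_mul_diagonal, ← diagonal_one]
    congr 1
    funext i
    unfold dl
    split_ifs <;> norm_num
  obtain ⟨Λ, hΛdef⟩ : ∃ Λ : Matrix (Fin m) (Fin m) ℝ, Λ = s • diagonal (dl m) * Rᵀ * G := ⟨_, rfl⟩
  have hLR : Λ * R = 1 := by
    rw [hΛdef, Matrix.mul_assoc, Matrix.mul_assoc, ← Matrix.mul_assoc Rᵀ, hR, smul_mul_smul_comm, hs, hdl, one_smul]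
  have hRL : R * Λ = 1 := mul_eq_one_comm.1 hLR
  have hRLt : Λᵀ * Rᵀ = 1 := by rw [← transpose_mul, hRL, transpose_one]
  have hGR : G * R = s • (Λᵀ * diagonal (dl m)) := by
    calc G * R = (Λᵀ * Rᵀ) * (G * R) := by rw [hRLt, Matrix.one_mul]
      _ = Λᵀ * (Rᵀ * G * R) := by simp only [Matrix.mul_assoc]
      _ = s • (Λᵀ * diagonal (dl m)) := by rw [hR, Matrix.mul_smul]
  have hRG : Rᵀ * G = s • (diagonal (dl m) * Λ) := by
    have h1 := congrArg transpose hGR
    rw [transpose_mul, hG, transpose_smul, transpose_mul, diagonal_transpose, transpose_transpose] at h1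
    exact h1
  -- real elements
  have hskew : ∀ S : Matrix (Fin m) (Fin m) ℝ, Sᵀ * diagonal (dl m) + diagonal (dl m) * S = 0 →
      (R * S * Λ)ᵀ * G + G * (R * S * Λ) = 0 := by
    intro S hS
    have h1 : (R * S * Λ)ᵀ * G = s • (Λᵀ * (Sᵀ * diagonal (dl m)) * Λ) := by
      calc (R * S * Λ)ᵀ * G = Λᵀ * Sᵀ * (Rᵀ * G) := by
            rw [transpose_mul, transpose_mul]
            simp only [Matrix.mul_assoc]
        _ = s • (Λᵀ * (Sᵀ * diagonal (dl m)) * Λ) := by
            rw [hRG, Matrix.mul_smul]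
            simp only [Matrix.mul_assoc]
    have h2 : G * (R * S * Λ) = s • (Λᵀ * (diagonal (dl m) * S) * Λ) := by
      calc G * (R * S * Λ) = (G * R) * S * Λ := by simp only [Matrix.mul_assoc]
        _ = s • (Λᵀ * (diagonal (dl m) * S) * Λ) := by
            rw [hGR, Matrix.smul_mul, Matrix.smul_mul]
            simp only [Matrix.mul_assoc]
    rw [h1, h2, ← smul_add, ← Matrix.add_mul, ← Matrix.mul_add, hS, Matrix.mul_zero, Matrix.zero_mul, smul_zero]
  refine ⟨R * Sm' m * Λ, R * Sm m * Λ, hskew _ (skw' hm), hskew _ (skw hm), ?_, ?_⟩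
  · have h1 : (R * Sm' m * Λ) * (R * Sm m * Λ) - (R * Sm m * Λ) * (R * Sm' m * Λ) -
        (2 : ℝ) • (R * Sm m * Λ) = 0 := by
      have h2 : ∀ S T : Matrix (Fin m) (Fin m) ℝ, (R * S * Λ) * (R * T * Λ) = R * (S * T) * Λ := by
        intro S T
        calc (R * S * Λ) * (R * T * Λ) = R * S * (Λ * R) * (T * Λ) := by simp only [Matrix.mul_assoc]
          _ = R * (S * T) * Λ := by
            rw [hLR, Matrix.mul_one]
            simp only [Matrix.mul_assoc]
      rw [h2, h2, ← Matrix.sub_mul, ← Matrix.mul_sub, rel hm, Matrix.mul_smul, Matrix.smul_mul, sub_self]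
    rw [h1]
    have h3 : (0 : Matrix (Fin m) (Fin m) ℝ).map ((↑) : ℝ → ℂ) = 0 := by
      ext i j
      simp
    rw [h3, Matrix.mul_zero, Matrix.zero_mul]
    have h4 := (hQcq m hm ε (by rcases hε with h | h <;> rw [h] <;> norm_num)).2.1 0 0
    rw [zero_smul, zero_smul] at h4
    exact h4
  · obtain ⟨Gc, hGc⟩ : ∃ Gc, Gc = G.map ((↑) : ℝ → ℂ) := ⟨_, rfl⟩
    obtain ⟨Rc, hRc⟩ : ∃ Rc, Rc = R.map ((↑) : ℝ → ℂ) := ⟨_, rfl⟩
    obtain ⟨Dc, hDc⟩ : ∃ Dc, Dc = diagonal (dd m η) := ⟨_, rfl⟩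
    obtain ⟨A, hA⟩ : ∃ A, A = Am m η := ⟨_, rfl⟩
    obtain ⟨B₀, hB₀⟩ : ∃ B₀, B₀ = κ • (Rc * Dc) := ⟨_, rfl⟩
    have hGct : Gcᵀ = Gc := by
      rw [hGc, ← transpose_map, hG]
    have hRGc : Rcᵀ * Gc * Rc = (s : ℂ) • (diagonal (dl m)).map ((↑) : ℝ → ℂ) := by
      have h1 := congrArg (fun M : Matrix (Fin m) (Fin m) ℝ => M.map ((↑) : ℝ → ℂ)) hR
      simp only [mapmul] at h1
      rw [hRc, hGc, ← transpose_map, h1]
      ext i j
      change (((s • diagonal (dl m)) i j : ℝ) : ℂ) = (s : ℂ) * ((diagonal (dl m) i j : ℝ) : ℂ)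
      rw [Matrix.smul_apply, smul_eq_mul, Complex.ofReal_mul]
    have hDt : Dcᵀ = Dc := by rw [hDc, diagonal_transpose]
    have hfr : B₀ᵀ * Gc * B₀ = 1 := by
      have h1 : B₀ᵀ * Gc * B₀ = (κ * κ) • (Dc * (Rcᵀ * Gc * Rc) * Dc) := by
        rw [hB₀, transpose_smul, transpose_mul, hDt, Matrix.smul_mul, Matrix.smul_mul, Matrix.mul_smul, smul_smul]
        simp only [Matrix.mul_assoc]
      rw [h1, hRGc, Matrix.mul_smul, Matrix.smul_mul, smul_smul, hκ, hDc, dd_dl hη]
      have h2 : (s : ℂ) * (s : ℂ) = 1 := by exact_mod_cast hs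
      rw [h2, one_smul]
    have hfr' : B₀ * (B₀ᵀ * Gc) = 1 := mul_eq_one_comm.1 hfr
    obtain ⟨O, hO⟩ : ∃ O, O = B₀ᵀ * Gc * B := ⟨_, rfl⟩
    have hBO : B₀ * O = B := by
      rw [hO, ← Matrix.mul_assoc, hfr', Matrix.one_mul]
    have hB' : Bᵀ * Gc * B = 1 := by rw [hGc]; exact hB
    have hOO : Oᵀ * O = 1 := by
      calc Oᵀ * O = Bᵀ * Gc * (B₀ * (B₀ᵀ * Gc)) * B := by
            rw [hO, transpose_mul, transpose_mul, transpose_transpose, hGct]
            simp only [Matrix.mul_assoc]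
        _ = 1 := by rw [hfr', Matrix.mul_one, hB']
    have hOO' : O * Oᵀ = 1 := mul_eq_one_comm.1 hOO
    obtain ⟨Zc, hZc⟩ : ∃ Zc, Zc = (R * Sm m * Λ).map ((↑) : ℝ → ℂ) := ⟨_, rfl⟩
    have hZR : Zc * Rc = Rc * (Sm m).map ((↑) : ℝ → ℂ) := by
      rw [hZc, hRc, ← mapmul, ← mapmul]
      congr 1
      rw [Matrix.mul_assoc, hLR, Matrix.mul_one]
    have hZB₀ : Zc * B₀ = B₀ * A := by
      rw [hB₀, Matrix.mul_smul, Matrix.smul_mul]
      congr 1
      rw [← Matrix.mul_assoc, hZR, Matrix.mul_assoc, hDc, ← Am_mul hη, ← hA, Matrix.mul_assoc]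
    have hinv : B⁻¹ = Bᵀ * Gc := Matrix.inv_eq_left_inv hB'
    have hfin : B⁻¹ * Zc * B = Oᵀ * A * O := by
      have h1 : Zc * B = B * (Oᵀ * A * O) := by
        calc Zc * B = Zc * B₀ * O := by rw [Matrix.mul_assoc, hBO]
          _ = B₀ * A * O := by rw [hZB₀]
          _ = B₀ * (O * Oᵀ) * A * O := by rw [hOO', Matrix.mul_one]
          _ = (B₀ * O) * (Oᵀ * A * O) := by simp only [Matrix.mul_assoc]
          _ = B * (Oᵀ * A * O) := by rw [hBO]
      rw [Matrix.mul_assoc, h1, hinv, ← Matrix.mul_assoc, hB', Matrix.one_mul]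
    have hAs : Aᵀ = -A := by
      rw [hA]
      exact Am_skew hm hη
    rw [← hZc, hfin]
    intro h0
    rcases hm with hm3 | hm4
    · have h1 := hQcq m (Or.inl hm3) ε (by rcases hε with h | h <;> rw [h] <;> norm_num)
      have h2 : (Oᵀ * A * O)ᵀ = -(Oᵀ * A * O) := by
        rw [transpose_mul, transpose_mul, transpose_transpose, hAs, Matrix.neg_mul, Matrix.mul_neg, Matrix.mul_assoc]
      have h3 := h1.2.2.2.2 _ h2 h0 (fun h => absurd (hm3.symm.trans h) (by norm_num))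
      have h4 : A = 0 := by
        calc A = (O * Oᵀ) * A * (O * Oᵀ) := by rw [hOO', Matrix.one_mul, Matrix.mul_one]
          _ = O * (Oᵀ * A * O) * Oᵀ := by simp only [Matrix.mul_assoc]
          _ = 0 := by rw [h3, Matrix.mul_zero, Matrix.zero_mul]
      refine Am_cq (Or.inl hm3) (η := η) ε ?_
      rw [← hA, h4]
      have h5 := h1.2.1 0 0
      rw [zero_smul, zero_smul] at h5
      exact h5
    · have h1 := (hFrc m hm4 O A hOO hAs ε hε).2
      refine Am_cq (Or.inr hm4) (η := η) (ε * O.det) ?_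
      rw [← hA]
      exact h1.1 h0

end Rfnx

theorem thm_Rfn (hFrc : St_Frc) (hQcq : KQ4.St_Qcq) : St_Rfn := by
  intro m hm G hG hsig B hB ε hε
  have hI : Complex.I * Complex.I = -1 := Complex.I_mul_I
  rcases hsig with hsig | hsig
  · obtain ⟨R, hR⟩ := Rfnx.basis G hG hsig
    exact Rfnx.main hFrc hQcq hm G hG B hB ε hε R 1 1 Complex.I hI (by norm_num) (by norm_num)
      (by rw [hR, one_smul])
  · have hG' : (-G)ᵀ = -G := by rw [transpose_neg, hG]
    obtain ⟨R, hR⟩ := Rfnx.basis (-G) hG' hsig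
    refine Rfnx.main hFrc hQcq hm G hG B hB ε hε R (-1) Complex.I (-Complex.I) (by rw [neg_mul_neg, hI])
      (by rw [hI]; norm_num) (by norm_num) ?_
    rw [Matrix.mul_neg, Matrix.neg_mul] at hR
    rw [neg_smul, one_smul, ← hR, neg_neg]

end Pool.Agent.KTW
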