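import Pool.Agent.KTW.StU
import Pool.Agent.KTW.Rel

/-!
# KTW [Rlu]: operators on a part of a family, for a single form (helper93)
-/

set_option autoImplicit false
set_option linter.unusedSectionVars false

namespace Pool.Agent.KTW

open Module Matrix NumberField Pool.Agent.Helper7 Pool.Agent.KS Pool.Agent.Ball Pool.Agent.KSE
  Pool.Agent.Helper28.GPC Pool.Agent.K3P Pool.Agent.KTP

private lemma Rlu_one {W : Type} [AddCommGroup W] [Module ℂ W] {k : ℕ}
    (α : MultilinearMap ℂ (fun _ : Fin (2 * k) => W) ℂ) (c : ℂ) :
    actForm ((c / 2) • (1 : Module.End ℂ W)) α = ((k : ℂ) * c) • α := by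
  rw [actForm_smul]
  ext v
  rw [_root_.smul_apply, actForm_apply, _root_.smul_apply]
  have h1 : ∀ r : Fin (2 * k), α (Function.update v r ((1 : Module.End ℂ W) (v r))) = α v := by
    intro r
    rw [Module.End.one_apply, Function.update_eq_self]
  rw [Finset.sum_congr rfl fun r _ => h1 r, Finset.sum_const, Finset.card_univ, Fintype.card_fin,
    nsmul_eq_mul, smul_eq_mul, smul_eq_mul]
  push_cast
  ring

theorem thm_Rlu : St_Rlu := by
  classical
  intro B B' J _ _ _ _ _ _ b b' hb hbb κ _ _ ϖ P hϖ Z hZb n k α hα hN hKZ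
  have hB := hα.B
  have hA := hα.A
  have hZ : ∀ j, (∀ i, b' i ≠ j) → Z j = 0 := by
    intro j hj
    obtain ⟨i, rfl⟩ := (hbb j).2 (fun ⟨i, hi⟩ => hj i hi)
    exact hZb i
  have hK : ∀ D : Derivation ℚ ℂ ℂ, actForm (lift n (NE b' P D)) α = 0 := by
    intro D
    have h1 : actForm (lift n fun j => (P j).N D) α = ((k : ℂ) * (D ϖ / ϖ)) • α :=
      (isInv_N n P α hϖ hB hA D).form
    have h2 := hN D
    have h3 : lift n (fun j => (P j).N D) =
        lift n (NE b P D) + lift n (NE b' P D) + (D ϖ / ϖ / 2) • (1 : Module.End ℂ (HW κ n)) := by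
      refine LinearMap.ext fun v => ?_
      funext j m
      show (P j).N D (v j m) = NE b P D j (v j m) + NE b' P D j (v j m) + (D ϖ / ϖ / 2) • v j m
      by_cases hj : ∃ i, b i = j
      · have hj' : ¬ ∃ i, b' i = j := (hbb j).1 hj
        unfold NE
        rw [if_pos hj, if_neg hj', LinearMap.sub_apply, LinearMap.smul_apply, Module.End.one_apply,
          LinearMap.zero_apply, add_zero, sub_add_cancel]
      · have hj' : ∃ i, b' i = j := by
          by_contra h
          exact hj ((hbb j).2 h)
        unfold NE
        rw [if_neg hj, if_pos hj', LinearMap.sub_apply, LinearMap.smul_apply, Module.End.one_apply,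
          LinearMap.zero_apply, zero_add, sub_add_cancel]
    rw [h3, actForm_add, actForm_add, h2, zero_add, Rlu_one] at h1
    exact add_eq_right.1 h1
  refine Inv_span _ {v : HW κ n | IsRatP n P v ∧ ((∀ j, (∀ i, b' i ≠ j) → v j = 0) ∨
    ∀ i, v (b' i) = 0)} ?_ ?_
  · rw [eq_top_iff, ← (FBP n P).span_eq, Submodule.span_le]
    rintro _ ⟨a, rfl⟩
    refine Submodule.subset_span ⟨FBP_isRatP n P a, ?_⟩
    rw [FBP_apply]
    by_cases ha : ∃ i, b' i = a.1
    · left
      intro j hj
      obtain ⟨i, hi⟩ := ha
      unfold slot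
      exact Pi.single_eq_of_ne (fun h => hj i (hi.trans h.symm)) _
    · right
      intro i
      unfold slot
      exact Pi.single_eq_of_ne (fun h => ha ⟨i, h⟩) _
  · intro v hv
    have hvQ : ∀ r, IsRatP n P (v r) := fun r => (hv r).1
    obtain ⟨p, hp⟩ : ∃ p : Fin (2 * k) → Prop, p = fun r => ∀ j, (∀ i, b' i ≠ j) → v r j = 0 :=
      ⟨_, rfl⟩
    have hp1 : ∀ r, p r → ∀ j, (∀ i, b' i ≠ j) → v r j = 0 := by
      intro r hr
      rw [hp] at hr
      exact hr
    have hp2 : ∀ r, ¬ p r → ∀ i, v r (b' i) = 0 := by
      intro r hr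
      rcases (hv r).2 with h | h
      · exact absurd (by rw [hp]; exact h) hr
      · exact h
    -- the form `g`
    obtain ⟨y, hy⟩ : ∃ y : ({r // p r} → HW (fun i => κ (b' i)) (fun i => n (b' i))) →
        Fin (2 * k) → HW κ n, y = fun x r => if h : p r then Rel_ext b' κ n (x ⟨r, h⟩) else v r :=
      ⟨_, rfl⟩
    have hy1 : ∀ x (r : {r // p r}), y x r = Rel_ext b' κ n (x r) := by
      intro x r
      rw [hy]
      exact dif_pos r.2
    have hy2 : ∀ x r, ¬ p r → y x r = v r := by
      intro x r hr
      rw [hy]
      exact dif_neg hr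
    obtain ⟨g, hg⟩ : ∃ g : MultilinearMap ℂ
        (fun _ : {r // p r} => HW (fun i => κ (b' i)) (fun i => n (b' i))) ℂ,
        ∀ x, g x = α (y x) := by
      refine ⟨(α.domDomRestrict p fun r => v r).compLinearMap fun _ => Rel_ext b' κ n, ?_⟩
      intro x
      rw [MultilinearMap.compLinearMap_apply, MultilinearMap.domDomRestrict_apply, hy]
    have hyu : ∀ x (a : {r // p r}) c, y (Function.update x a c) =
        Function.update (y x) a (Rel_ext b' κ n c) := by
      intro x a c
      funext r
      by_cases hr : p r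
      · rw [hy1 _ ⟨r, hr⟩]
        by_cases hra : (⟨r, hr⟩ : {r // p r}) = a
        · subst hra
          rw [Function.update_self, Function.update_self]
        · rw [Function.update_of_ne hra, Function.update_of_ne, hy1 _ ⟨r, hr⟩]
          intro h
          exact hra (Subtype.ext h)
      · rw [hy2 _ _ hr, Function.update_of_ne, hy2 _ _ hr]
        intro h
        exact hr (h ▸ a.2)
    obtain ⟨M, hM⟩ : ∃ M, M = Fintype.card {r // p r} := ⟨_, rfl⟩
    have hM2 : M ≤ 2 * k := by
      rw [hM]
      exact (Fintype.card_subtype_le p).trans_eq (Fintype.card_fin _)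
    obtain ⟨ee⟩ : Nonempty ({r // p r} ⊕ {r // p r} ≃ Fin (2 * M)) := by
      refine ⟨Fintype.equivFinOfCardEq ?_⟩
      rw [Fintype.card_sum, ← hM, two_mul]
    -- the derivative of the values of `g`
    have hD : ∀ x, (∀ a i l c, IsAlgebraic ℚ (x a i l c)) → ∀ D : Derivation ℚ ℂ ℂ,
        D (g x) = ((k : ℂ) - M / 2) * (D ϖ / ϖ) * g x := by
      intro x hx D
      rw [hg]
      have h1 := derivForm_of_alg (SBP n κ) D α (fun s => hA _ (fun r i m j => by
          rw [SBP_apply]
          apply slot_isAlg
          intro j'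
          by_cases h : j' = (s r).2.2
          · subst h; rw [Pi.single_eq_same]; exact isAlgebraic_one
          · rw [Pi.single_eq_of_ne h]; exact isAlgebraic_zero)) (y x)
      have h4 : actForm (lift n (fun j => (P j).N D)) α (y x) = ((k : ℂ) * (D ϖ / ϖ)) • α (y x) :=
        congrArg (fun G => G (y x)) (isInv_N n P α hϖ hB hA D).form
      have h6 : actForm (lift n (NE b' P D)) α (y x) = 0 :=
        congrArg (fun G => G (y x)) (hK D)
      rw [← Fintype.sum_subtype_add_sum_subtype p] at h1
      rw [actForm_apply, ← Fintype.sum_subtype_add_sum_subtype p] at h4 h6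
      have h7 : ∑ r : {r // p r}, α (Function.update (y x) r (nabla (SBP n κ) D (y x r))) = 0 := by
        refine Finset.sum_eq_zero fun r _ => ?_
        rw [hy1 x r, Mxn_alg n D _ (Rel_ext_alg b' κ n hb _ (hx r))]
        exact α.map_coord_zero _ (by rw [Function.update_self])
      have h8 : ∑ r : {r // ¬ p r}, α (Function.update (y x) r (nabla (SBP n κ) D (y x r))) =
          ∑ r : {r // ¬ p r},
            α (Function.update (y x) r (lift n (fun j => (P j).N D) (y x r))) := by
        refine Finset.sum_congr rfl fun r _ => ?_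
        rw [hy2 x r r.2, Mxn_rat n P D _ (hvQ r)]
      have h9 : ∑ r : {r // ¬ p r}, α (Function.update (y x) r (lift n (NE b' P D) (y x r))) = 0 := by
        refine Finset.sum_eq_zero fun r _ => ?_
        have h10 : lift n (NE b' P D) (y x r) = 0 := by
          rw [hy2 x r r.2]
          funext j l
          rw [lift_apply]
          unfold NE
          split_ifs with hj
          · obtain ⟨i, rfl⟩ := hj
            rw [hp2 r r.2 i]
            exact map_zero _
          · rfl
        rw [h10]
        exact α.map_coord_zero _ (by rw [Function.update_self])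
      have h11 : ∀ r : {r // p r}, α (Function.update (y x) r (lift n (NE b' P D) (y x r))) =
          α (Function.update (y x) r (lift n (fun j => (P j).N D) (y x r))) -
            (D ϖ / ϖ / 2) * α (y x) := by
        intro r
        have h12 : lift n (NE b' P D) (y x r) =
            lift n (fun j => (P j).N D) (y x r) - (D ϖ / ϖ / 2) • y x r := by
          rw [hy1 x r]
          funext j l
          show NE b' P D j (Rel_ext b' κ n (x r) j l) =
            (P j).N D (Rel_ext b' κ n (x r) j l) - (D ϖ / ϖ / 2) • Rel_ext b' κ n (x r) j l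
          unfold NE
          split_ifs with hj
          · rfl
          · push Not at hj
            rw [Rel_ext_out b' κ n _ j hj]
            show (0 : κ j → ℂ) = (P j).N D 0 - (D ϖ / ϖ / 2) • (0 : κ j → ℂ)
            rw [map_zero, smul_zero, sub_zero]
        rw [h12, MultilinearMap.map_update_sub, MultilinearMap.map_update_smul,
          Function.update_eq_self, smul_eq_mul]
      rw [h7, h8, zero_add] at h1
      rw [h9, add_zero, Finset.sum_congr rfl fun r _ => h11 r, Finset.sum_sub_distrib,
        Finset.sum_const, Finset.card_univ, ← hM, nsmul_eq_mul] at h6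
      rw [smul_eq_mul] at h4
      rw [h1]
      linear_combination h4 - h6
    -- the form `G`
    have hG := hKZ M (Rel_sq g ((ϖ ^ (2 * k - M))⁻¹) ee) ?_ ?_
    · have h1 := Rel_zero g _ (Rel_sq_act g _ (inv_ne_zero (pow_ne_zero _ hϖ)) ee _ hG)
        fun r i => v r (b' i)
      rw [actForm_apply] at h1
      rw [actForm_apply, ← Fintype.sum_subtype_add_sum_subtype p]
      have h2 : ∑ r : {r // ¬ p r}, α (Function.update v r (lift n Z (v r))) = 0 := by
        refine Finset.sum_eq_zero fun r _ => ?_
        have h3 : lift n Z (v r) = 0 := by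
          funext j l
          rw [lift_apply]
          by_cases hj : ∃ i, b' i = j
          · obtain ⟨i, rfl⟩ := hj
            rw [hp2 r r.2 i]
            exact map_zero _
          · push Not at hj
            rw [hZ j hj]
            rfl
        rw [h3]
        exact α.map_coord_zero _ (by rw [Function.update_self])
      rw [h2, add_zero, ← h1]
      have h5 : y (fun r i => v r (b' i)) = v := by
        funext r
        by_cases hr : p r
        · rw [hy1 _ ⟨r, hr⟩]
          exact Rel_ext_res b' κ n hb (v r) (hp1 r hr)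
        · exact hy2 _ _ hr
      refine Finset.sum_congr rfl fun r _ => ?_
      rw [hg, hyu, ← Rel_ext_lift b' κ n hb Z, h5, Rel_ext_res b' κ n hb (v r) (hp1 r r.2)]
    · intro u hu
      obtain ⟨q, hq⟩ := hB (y fun a => u (ee (.inl a))) (fun r => by
        by_cases hr : p r
        · rw [hy1 _ ⟨r, hr⟩]
          exact Rel_ext_rat b' κ n P hb _ (hu _)
        · rw [hy2 _ _ hr]
          exact hvQ r)
      obtain ⟨q', hq'⟩ := hB (y fun a => u (ee (.inr a))) (fun r => by
        by_cases hr : p r
        · rw [hy1 _ ⟨r, hr⟩]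
          exact Rel_ext_rat b' κ n P hb _ (hu _)
        · rw [hy2 _ _ hr]
          exact hvQ r)
      refine ⟨q * q', ?_⟩
      rw [Rel_sq_apply, hg, hg, hq, hq']
      have h1 : ϖ ^ k * ϖ ^ k = ϖ ^ (2 * k - M) * ϖ ^ M := by
        rw [← pow_add, ← pow_add]
        congr 1
        omega
      have h2 : ϖ ^ (2 * k - M) ≠ 0 := pow_ne_zero _ hϖ
      push_cast
      field_simp
      linear_combination (q : ℂ) * q' * h1
    · intro u hu
      rw [Rel_sq_apply]
      have h1 := Mxn_num ϖ hϖ (2 * k - M)
        (g (fun a => u (ee (.inl a))) * g (fun a => u (ee (.inr a)))) (by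
          intro D
          rw [Derivation.leibniz, hD _ (fun a => hu _) D, hD _ (fun a => hu _) D, smul_eq_mul,
            smul_eq_mul, Nat.cast_sub hM2]
          push_cast
          ring)
      rw [div_eq_inv_mul] at h1
      exact h1

end Pool.Agent.KTW
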