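import Pool.Agent.KTW.StV
import Pool.Agent.Helper7.Bridge3

/-!
# KTW: RMU, the eigenplanes of the embeddings of a totally real field
-/

set_option autoImplicit false

open scoped ComplexConjugate

namespace Pool.Agent.KTW

open Module Matrix NumberField Pool.Agent.Helper7 Pool.Agent.KS Pool.Agent.Ball Pool.Agent.KSE
open Pool.Agent.GPC (AbVar IsRMType)

/-- the action as ring homomorphism -/
noncomputable def rmuRho {C : AbVar} {K : Type} [Field K] [NumberField K] (S : Pool.Agent.GPC.RM C K) :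
    K →+* Module.End ℂ C.H1 where
  toFun x := IsLinearMap.mk' _ (S.endo x).linear
  map_one' := LinearMap.ext S.one
  map_mul' x y := LinearMap.ext (S.mul x y)
  map_add' x y := LinearMap.ext (S.add x y)
  map_zero' := LinearMap.ext fun v => by
    have h := S.add 0 0 v
    rw [add_zero] at h
    have h2 : S.ρ 0 v = 0 := by
      have h3 := congrArg (fun w => w - S.ρ 0 v) h
      simp only [sub_self, add_sub_cancel_right] at h3
      exact h3.symm
    exact h2

/-- [RMU] -/
theorem thm_Rmu : St_Rmu := by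
  classical
  intro C K _ _ hC
  obtain ⟨hreal, ⟨S⟩⟩ := hC
  obtain ⟨ρ, hρ⟩ : ∃ ρ : K →+* Module.End ℂ C.H1, ρ = rmuRho S := ⟨_, rfl⟩
  have hD : ∀ x, IsDRB (pData C) (pData C) (ρ x) := fun x => by
    rw [hρ]
    exact isDRB_of_isEnd C _ (S.endo x)
  have hQ : ∀ x, ∀ v ∈ (pData C).Q, ρ x v ∈ (pData C).Q := fun x v hv => (hD x).rat v hv
  obtain ⟨lam, hlam, -, eb, heb⟩ := exists_Kbasis (pData C) ρ hQ 2 (by
    rw [S.degree, Fintype.card_sum, Fintype.card_fin]
    ring)
  have hadj : ∀ x u v, (pData C).ψ (ρ x u) v = (pData C).ψ u (ρ x v) := fun x u v => by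
    rw [hρ]
    exact S.rosati x u v
  have hpadj : ∀ σ u v, (pData C).ψ (proj ρ σ u) v = (pData C).ψ u (proj ρ σ v) := by
    intro σ u v
    rw [proj, LinearMap.sum_apply, LinearMap.sum_apply, map_sum, map_sum, LinearMap.sum_apply]
    refine Finset.sum_congr rfl fun b _ => ?_
    rw [LinearMap.smul_apply, LinearMap.smul_apply, map_smul, map_smul, LinearMap.smul_apply, hadj]
  have hconj : ∀ (σ : K →+* ℂ) (x : K), conj (σ x) = σ x := by
    intro σ x
    have h1 : ComplexEmbedding.IsReal σ :=
      NumberField.IsTotallyReal.complexEmbedding_isReal σ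
    have h2 := RingHom.congr_fun h1 x
    exact h2
  let ε : Fin (Fintype.card (K →+* ℂ)) ≃ (K →+* ℂ) := (Fintype.equivFin _).symm
  have hli : ∀ σ : K →+* ℂ, LinearIndependent ℂ (fun j : Fin 2 => eb (σ, j)) := fun σ =>
    eb.linearIndependent.comp (fun j => (σ, j)) (fun a b h => (Prod.mk.inj h).2)
  have hrange : ∀ (σ : K →+* ℂ) (v : C.H1),
      proj ρ σ v ∈ Submodule.span ℂ (Set.range fun j : Fin 2 => eb (σ, j)) := by
    intro σ v
    rw [← eb.sum_repr v, map_sum]
    refine Submodule.sum_mem _ fun t _ => ?_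
    rw [map_smul]
    refine Submodule.smul_mem _ _ ?_
    obtain ⟨τ, j⟩ := t
    rw [heb]
    have h4 := congrArg (fun f : Module.End ℂ C.H1 => f (lam j)) (proj_mul_proj ρ σ τ)
    simp only [Module.End.mul_apply] at h4
    rw [h4]
    split_ifs with h5
    · rw [h5, ← heb]
      exact Submodule.subset_span ⟨j, rfl⟩
    · exact Submodule.zero_mem _
  have hfix : ∀ (σ : K →+* ℂ) (j : Fin 2), proj ρ σ (eb (σ, j)) = eb (σ, j) := by
    intro σ j
    rw [heb]
    have h4 := congrArg (fun f : Module.End ℂ C.H1 => f (lam j)) (proj_mul_proj ρ σ σ)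
    simp only [Module.End.mul_apply, if_true] at h4
    exact h4
  refine ⟨Fintype.card (K →+* ℂ), fun a j => eb (ε a, j), fun a => hli (ε a), ?_, ?_, ?_, ?_⟩
  · intro a j
    show TwistE.twV (pData C) (starRingAut : ℂ ≃+* ℂ) (eb (ε a, j)) = eb (ε a, j)
    rw [heb, proj, LinearMap.sum_apply, TwistE.twV_sum]
    refine Finset.sum_congr rfl fun b _ => ?_
    rw [LinearMap.smul_apply, TwistE.twV_smul, TwistE.twV_of_mem _ _ (hQ _ _ (hlam j))]
    congr 1
    exact hconj (ε a) _
  · intro a h0
    have h1 : ∀ v, (pData C).ψ (eb (ε a, 0)) v = 0 := by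
      intro v
      have h2 : (pData C).ψ (eb (ε a, 0)) v = (pData C).ψ (eb (ε a, 0)) (proj ρ (ε a) v) := by
        rw [← hpadj, hfix]
      rw [h2]
      have h3 := hrange (ε a) v
      obtain ⟨w, hw⟩ : ∃ w, w = proj ρ (ε a) v := ⟨_, rfl⟩
      rw [← hw] at h3 ⊢
      clear hw h2
      induction h3 using Submodule.span_induction with
      | mem x hx =>
        obtain ⟨j, rfl⟩ := hx
        fin_cases j
        · have h4 := (pData C).hψalt (eb (ε a, 0)) (eb (ε a, 0))
          have h5 : (2 : ℂ) * (pData C).ψ (eb (ε a, 0)) (eb (ε a, 0)) = 0 := by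
            linear_combination h4
          exact (mul_eq_zero.1 h5).resolve_left two_ne_zero
        · exact h0
      | zero => exact map_zero _
      | add x y _ _ hx hy => rw [map_add, hx, hy, add_zero]
      | smul c x _ hx => rw [map_smul, hx, smul_zero]
    exact eb.ne_zero (ε a, 0) ((pData C).hψnd _ h1)
  · intro X hX a j
    have h1 : X (eb (ε a, j)) = proj ρ (ε a) (X (eb (ε a, j))) := by
      conv_lhs => rw [← hfix]
      rw [proj, LinearMap.sum_apply, LinearMap.sum_apply, map_sum]
      refine Finset.sum_congr rfl fun b _ => ?_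
      rw [LinearMap.smul_apply, LinearMap.smul_apply, map_smul, hX _ (hD _)]
    rw [h1]
    exact hrange _ _
  · intro v
    rw [← eb.sum_repr v]
    refine Submodule.sum_mem _ fun t _ => Submodule.smul_mem _ _ (Submodule.subset_span ?_)
    obtain ⟨τ, j⟩ := t
    refine ⟨ε.symm τ, j, ?_⟩
    show eb (τ, j) = eb (ε (ε.symm τ), j)
    rw [ε.apply_symm_apply]

end Pool.Agent.KTW
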