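import Pool.Agent.KTW.StX

/-!
# KTW SLE: extremal elements of `sl_m` are the nilpotent matrices of rank one
-/

set_option autoImplicit false

namespace Pool.Agent.KTW

open Module Matrix

namespace Slex

variable {m : ℕ}

/-- the double bracket -/
theorem expand (x y : Matrix (Fin m) (Fin m) ℂ) :
    x * (x * y - y * x) - (x * y - y * x) * x = x * x * y - (2 : ℂ) • (x * y * x) + y * (x * x) := by
  rw [two_smul]
  noncomm_ring

theorem ext_all (x : Matrix (Fin m) (Fin m) ℂ) (hx : IsExtr x) (y : Matrix (Fin m) (Fin m) ℂ) :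
    ∃ c : ℂ, x * (x * y - y * x) - (x * y - y * x) * x = c • x := by
  obtain ⟨h1, h2, h3⟩ := hx
  have hm : (m : ℂ) ≠ 0 := by
    intro h
    have h4 : m = 0 := by exact_mod_cast h
    subst h4
    exact h2 (Subsingleton.elim _ _)
  obtain ⟨c, hc⟩ := h3 (y - (y.trace / m) • (1 : Matrix (Fin m) (Fin m) ℂ)) (by
    show (y - (y.trace / m) • (1 : Matrix (Fin m) (Fin m) ℂ)).trace = 0
    rw [Matrix.trace_sub, Matrix.trace_smul, Matrix.trace_one, Fintype.card_fin, smul_eq_mul,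
      div_mul_cancel₀ _ hm, sub_self])
  refine ⟨c, ?_⟩
  rw [← hc]
  have e1 : x * (y - (y.trace / m) • (1 : Matrix (Fin m) (Fin m) ℂ)) -
      (y - (y.trace / m) • (1 : Matrix (Fin m) (Fin m) ℂ)) * x = x * y - y * x := by
    rw [mul_sub, sub_mul, mul_smul_comm, smul_mul_assoc, mul_one, one_mul]
    abel
  rw [e1]

theorem rank_one_of (x : Matrix (Fin m) (Fin m) ℂ) (hx : x ≠ 0) (ht : x.trace = 0)
    (v ξ : Fin m → ℂ) (c : ℂ) (h : Matrix.vecMulVec v ξ = c • x) (hc : Matrix.vecMulVec v ξ ≠ 0) :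
    ∃ v ξ : Fin m → ℂ, v ≠ 0 ∧ ξ ≠ 0 ∧ x = Matrix.vecMulVec v ξ ∧ ξ ⬝ᵥ v = 0 := by
  have hc0 : c ≠ 0 := by
    intro h0
    rw [h0, zero_smul] at h
    exact hc h
  have e : x = Matrix.vecMulVec (c⁻¹ • v) ξ := by
    rw [Matrix.smul_vecMulVec, h, smul_smul, inv_mul_cancel₀ hc0, one_smul]
  refine ⟨c⁻¹ • v, ξ, ?_, ?_, e, ?_⟩
  · intro h0
    rw [h0, Matrix.zero_vecMulVec] at e
    exact hx e
  · intro h0
    rw [h0, Matrix.vecMulVec_zero] at e
    exact hx e
  · rw [e, Matrix.trace_vecMulVec] at ht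
    rw [dotProduct_comm]
    exact ht

theorem third (v ξ : Fin m → ℂ) (h : ξ ⬝ᵥ v = 0) (y : Matrix (Fin m) (Fin m) ℂ) :
    Matrix.vecMulVec v ξ * (Matrix.vecMulVec v ξ * y - y * Matrix.vecMulVec v ξ) -
      (Matrix.vecMulVec v ξ * y - y * Matrix.vecMulVec v ξ) * Matrix.vecMulVec v ξ =
      (-2 * (Matrix.vecMulVec v ξ * y).trace) • Matrix.vecMulVec v ξ := by
  rw [expand]
  have h1 : Matrix.vecMulVec v ξ * Matrix.vecMulVec v ξ = 0 := by
    rw [Matrix.vecMulVec_mul_vecMulVec, h, zero_smul, Matrix.vecMulVec_zero]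
  have h2 : Matrix.vecMulVec v ξ * y * Matrix.vecMulVec v ξ =
      (Matrix.vecMulVec v ξ * y).trace • Matrix.vecMulVec v ξ := by
    rw [Matrix.vecMulVec_mul, Matrix.vecMulVec_mul_vecMulVec, Matrix.trace_vecMulVec,
      Matrix.vecMulVec_smul, dotProduct_comm]
  rw [h1, h2, zero_mul, mul_zero, zero_sub, add_zero, smul_smul, ← neg_smul, neg_mul]

theorem first (x : Matrix (Fin m) (Fin m) ℂ) (hx : IsExtr x) :
    ∃ v ξ : Fin m → ℂ, v ≠ 0 ∧ ξ ≠ 0 ∧ x = Matrix.vecMulVec v ξ ∧ ξ ⬝ᵥ v = 0 := by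
  have hall := ext_all x hx
  obtain ⟨h1, h2, -⟩ := hx
  have ht : x.trace = 0 := h1
  have hm : (m : ℂ) ≠ 0 := by
    intro h
    have h4 : m = 0 := by exact_mod_cast h
    subst h4
    exact h2 (Subsingleton.elim _ _)
  have hm' : m ≠ 0 := by
    intro h
    rw [h] at hm
    exact hm Nat.cast_zero
  have : Nonempty (Fin m) := ⟨⟨0, Nat.pos_of_ne_zero hm'⟩⟩
  obtain ⟨a, ha⟩ := Module.End.exists_eigenvalue (Matrix.toLin' x)
  obtain ⟨u, hu⟩ := ha.exists_hasEigenvector
  have hu0 : u ≠ 0 := hu.2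
  have hu1 : x *ᵥ u = a • u := by
    have := hu.apply_eq_smul
    rwa [Matrix.toLin'_apply] at this
  -- the matrix `x - a`
  obtain ⟨z, hz⟩ : ∃ z : Matrix (Fin m) (Fin m) ℂ, z = x - a • 1 := ⟨_, rfl⟩
  have hzu : z *ᵥ u = 0 := by
    rw [hz, Matrix.sub_mulVec, Matrix.smul_mulVec, Matrix.one_mulVec, hu1, sub_self]
  have hbr : ∀ y : Matrix (Fin m) (Fin m) ℂ, z * y - y * z = x * y - y * x := by
    intro y
    rw [hz, sub_mul, mul_sub, smul_mul_assoc, mul_smul_comm, one_mul, mul_one]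
    abel
  have hallz : ∀ y : Matrix (Fin m) (Fin m) ℂ, ∃ c : ℂ,
      z * z * y - (2 : ℂ) • (z * y * z) + y * (z * z) = c • x := by
    intro y
    obtain ⟨c, hc⟩ := hall y
    refine ⟨c, ?_⟩
    rw [← expand, hbr, hbr, hc]
  by_cases hzz : z * z = 0
  · -- nilpotent
    have hnil : IsNilpotent z := ⟨2, by rw [pow_two, hzz]⟩
    have htz : z.trace = 0 := (Matrix.isNilpotent_trace_of_isNilpotent hnil).eq_zero
    have ha0 : a = 0 := by
      rw [hz, Matrix.trace_sub, Matrix.trace_smul, Matrix.trace_one, Fintype.card_fin, ht,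
        smul_eq_mul, zero_sub, neg_eq_zero] at htz
      exact (mul_eq_zero.1 htz).resolve_right hm
    have hzx : z = x := by rw [hz, ha0, zero_smul, sub_zero]
    rw [hzx] at hallz hzz
    obtain ⟨i, j, hij⟩ : ∃ i j, x i j ≠ 0 := by
      by_contra hcon
      push Not at hcon
      exact h2 (by ext i j; exact hcon i j)
    obtain ⟨c, hc⟩ := hallz (Matrix.vecMulVec (Pi.single j 1) (Pi.single i 1))
    rw [hzz, zero_mul, mul_zero, add_zero, zero_sub] at hc
    have e1 : x * Matrix.vecMulVec (Pi.single j 1) (Pi.single i 1) * x =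
        Matrix.vecMulVec (x *ᵥ Pi.single j 1) (Pi.single i 1 ᵥ* x) := by
      rw [Matrix.mul_vecMulVec, Matrix.vecMulVec_mul]
    rw [e1, ← neg_smul, ← Matrix.smul_vecMulVec] at hc
    refine rank_one_of x h2 ht _ _ c hc ?_
    intro h0
    have h5 := congrFun (congrFun h0 i) j
    rw [Matrix.vecMulVec_apply] at h5
    simp at h5
    exact hij h5
  · -- rank one
    obtain ⟨i, j, hij⟩ : ∃ i j, (z * z) i j ≠ 0 := by
      by_contra hcon
      push Not at hcon
      exact hzz (by ext i j; exact hcon i j)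
    obtain ⟨c, hc⟩ := hallz (Matrix.vecMulVec u (Pi.single i 1))
    have e1 : z * Matrix.vecMulVec u (Pi.single i 1) = 0 := by
      rw [Matrix.mul_vecMulVec, hzu, Matrix.zero_vecMulVec]
    rw [mul_assoc, e1, mul_zero, zero_mul, smul_zero, sub_zero, zero_add, Matrix.vecMulVec_mul] at hc
    refine rank_one_of x h2 ht _ _ c hc ?_
    intro h0
    obtain ⟨k, hk⟩ : ∃ k, u k ≠ 0 := by
      by_contra hcon
      push Not at hcon
      exact hu0 (funext hcon)
    have h5 := congrFun (congrFun h0 k) j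
    rw [Matrix.vecMulVec_apply] at h5
    simp at h5
    rcases h5 with h5 | h5
    · exact hk h5
    · exact hij h5

end Slex

/-- **SLE.** -/
theorem thm_Sle : St_Sle := by
  intro m x
  refine ⟨Slex.first x, ?_, fun v ξ h y => Slex.third v ξ h y⟩
  intro v ξ hv hξ h
  refine ⟨?_, ?_, ?_⟩
  · show (Matrix.vecMulVec v ξ).trace = 0
    rw [Matrix.trace_vecMulVec, dotProduct_comm, h]
  · intro h0
    obtain ⟨k, hk⟩ : ∃ k, v k ≠ 0 := by
      by_contra hcon
      push Not at hcon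
      exact hv (funext hcon)
    obtain ⟨l, hl⟩ : ∃ k, ξ k ≠ 0 := by
      by_contra hcon
      push Not at hcon
      exact hξ (funext hcon)
    have h5 := congrFun (congrFun h0 k) l
    rw [Matrix.vecMulVec_apply] at h5
    exact mul_ne_zero hk hl h5
  · intro y _
    exact ⟨_, Slex.third v ξ h y⟩

end Pool.Agent.KTW
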