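import Pool.Agent.KTW.Spx
import Pool.Agent.KTW.Sim
import Pool.Agent.KSR.HypA

/-!
# KTW: a real plane against a compact orthogonal Lie algebra
-/

set_option autoImplicit false

namespace Pool.Agent.KTW

open Module Matrix
open Pool.Agent.Ball (Definite)
open scoped ComplexConjugate

/-- real skew matrices of a definite form with `[A, B] = -2 A` -/
theorem Spr_def {m : ℕ} {H A B : Matrix (Fin m) (Fin m) ℂ} (hH : Definite H)
    (hB : ∀ a b, star (B a b) = B a b) (hsB : Bᵀ * H + H * B = 0)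
    (hAB : A * B - B * A = (-2 : ℂ) • A) : A = 0 := by
  classical
  have hH' : Definite (H.map (RingHom.id ℂ)) := by
    have : H.map (RingHom.id ℂ) = H := by
      ext a b
      rfl
    rwa [this]
  set f : Module.End ℂ (Fin m → ℂ) := Matrix.toLin' B with hf
  set g : Module.End ℂ (Fin m → ℂ) := Matrix.toLin' A with hg
  have hfg : ∀ (ν : ℂ) (k : ℕ) (v : Fin m → ℂ),
      ((f - (ν + 2) • (1 : Module.End ℂ (Fin m → ℂ))) ^ k) (g v) =
        g (((f - ν • (1 : Module.End ℂ (Fin m → ℂ))) ^ k) v) := by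
    intro ν k
    induction k with
    | zero => intro v; rfl
    | succ k ih =>
      intro v
      rw [pow_succ, Module.End.mul_apply, pow_succ, Module.End.mul_apply, ← ih]
      congr 1
      have h1 : g (f v) - f (g v) = (-2 : ℂ) • g v := by
        have h2 := congrFun (congrArg (fun T : Module.End ℂ (Fin m → ℂ) => ⇑T)
          (congrArg Matrix.toLin' hAB)) v
        rw [map_sub, Matrix.toLin'_mul, Matrix.toLin'_mul, map_smul] at h2
        exact h2
      simp only [LinearMap.sub_apply, LinearMap.smul_apply, Module.End.one_apply, map_sub, map_smul]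
      rw [add_smul]
      have h3 : g (f v) = f (g v) + (-2 : ℂ) • g v := by rw [← h1]; abel
      rw [h3, neg_smul]
      abel
  have hev : ∀ (ν : ℂ) (v : Fin m → ℂ), v ∈ f.maxGenEigenspace ν → v ≠ 0 → ν.re = 0 := by
    intro ν v hv hv0
    obtain ⟨y, hy0, hy⟩ := KSE.HypE.exists_eig hv hv0
    rw [hf, Matrix.toLin'_apply] at hy
    exact KSR.HypA.re_zero (h := H) (σ := RingHom.id ℂ) hH' hB hsB hy0 hy
  have key : ∀ ν : ℂ, f.maxGenEigenspace ν ≤ LinearMap.ker g := by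
    intro ν v hv
    rw [LinearMap.mem_ker]
    by_contra hgv
    have hv0 : v ≠ 0 := fun h => hgv (by rw [h, map_zero])
    obtain ⟨k, hk⟩ := (Module.End.mem_maxGenEigenspace _ _ _).mp hv
    have h4 : g v ∈ f.maxGenEigenspace (ν + 2) :=
      (Module.End.mem_maxGenEigenspace _ _ _).mpr ⟨k, by rw [hfg, hk, map_zero]⟩
    have h1 := hev _ _ h4 hgv
    rw [Complex.add_re, hev _ _ hv hv0] at h1
    norm_num at h1
  have h1 : (⊤ : Submodule ℂ (Fin m → ℂ)) ≤ LinearMap.ker g := by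
    rw [← Module.End.iSup_maxGenEigenspace_eq_top f]
    exact iSup_le key
  have h2 : g = 0 := LinearMap.ext fun v => LinearMap.mem_ker.1 (h1 Submodule.mem_top)
  exact (LinearEquiv.map_eq_zero_iff Matrix.toLin').1 h2

/-- an element which is zero on a real plane -/
theorem Spr_one {m : ℕ} {H : Matrix (Fin m) (Fin m) ℂ} (hH : Hᵀ = H)
    (hd : IsUnit H.det) (hm : 3 ≤ m) (hdef : Definite H) {𝓐 : Type} [Ring 𝓐] [Algebra ℂ 𝓐]
    {V : Type} [AddCommGroup V] [Module ℂ V] (ψ : V →ₗ[ℂ] V →ₗ[ℂ] ℂ)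
    (halt : ∀ u v, ψ u v = -ψ v u)
    (π : 𝓐 →ₐ[ℂ] Module.End ℂ V) (W : Submodule ℂ (𝓐 × Matrix (Fin m) (Fin m) ℂ))
    (hbr : ∀ X ∈ W, ∀ Y ∈ W, X * Y - Y * X ∈ W)
    (hsk : ∀ X ∈ W, X.2ᵀ * H + H * X.2 = 0)
    (hsur : ∀ Z : Matrix (Fin m) (Fin m) ℂ, Zᵀ * H + H * Z = 0 → ∃ X ∈ W, X.2 = Z)
    (hW : ∀ X ∈ W, ∀ u v, ψ (π X.1 u) v + ψ u (π X.1 v) = 0)
    (U : Submodule ℂ V) (hU : ∀ X ∈ W, ∀ v ∈ U, π X.1 v ∈ U)
    (hnd : ∀ u ∈ U, (∀ v ∈ U, ψ u v = 0) → u = 0) (hfin : finrank ℂ U = 2)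
    (c : V → V) (hca : ∀ u v, c (u + v) = c u + c v) (hcs : ∀ (z : ℂ) u, c (z • u) = star z • c u)
    (hcc : ∀ u, c (c u) = u) (hcU : ∀ u ∈ U, c u ∈ U)
    (hcW : ∀ X ∈ W, ∃ X' ∈ W, (∀ a b, X'.2 a b = star (X.2 a b)) ∧ ∀ v, π X'.1 v = c (π X.1 (c v))) :
    ∃ X ∈ W, (∀ v ∈ U, π X.1 v = 0) ∧ X.2 ≠ 0 := by
  classical
  by_contra hcon
  push Not at hcon
  -- a real basis of the plane
  have hspan : ∀ u ∈ U, ∃ a b : V, a ∈ U ∧ b ∈ U ∧ c a = a ∧ c b = b ∧ u = a + Complex.I • b := by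
    intro u hu
    refine ⟨(1 / 2 : ℂ) • (u + c u), (-Complex.I / 2 : ℂ) • (u - c u),
      U.smul_mem _ (U.add_mem hu (hcU u hu)), U.smul_mem _ (U.sub_mem hu (hcU u hu)), ?_, ?_, ?_⟩
    · rw [hcs, hca, hcc, add_comm (c u)]
      congr 1
      simp
    · have hneg : ∀ w, c (-w) = -c w := fun w => by
        have := hcs (-1) w
        simpa using this
      have e0 : c (u - c u) = -(u - c u) := by
        rw [sub_eq_add_neg, hca, hneg, hcc]
        abel
      have e : -star (-Complex.I / 2 : ℂ) = (-Complex.I / 2 : ℂ) := by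
        rw [star_div₀, star_neg, Complex.star_def, Complex.conj_I]
        have : star (2 : ℂ) = 2 := by simp
        rw [Complex.star_def] at this
        rw [this]
        ring
      rw [hcs, e0, smul_neg, ← neg_smul, e]
    · rw [smul_smul]
      have e : Complex.I * (-Complex.I / 2) = 1 / 2 := by
        have := Complex.I_mul_I
        linear_combination (-1 / 2 : ℂ) * this
      rw [e, ← smul_add]
      have : u + c u + (u - c u) = (2 : ℂ) • u := by rw [two_smul]; abel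
      rw [this, smul_smul]
      norm_num
  -- two real vectors u₁, u₂ with ψ u₁ u₂ ≠ 0
  obtain ⟨u₁, u₂, hu1, hu2, hc1, hc2, hψ⟩ : ∃ u₁ u₂ : V, u₁ ∈ U ∧ u₂ ∈ U ∧ c u₁ = u₁ ∧ c u₂ = u₂ ∧
      ψ u₁ u₂ ≠ 0 := by
    by_contra h0
    push Not at h0
    have h1 : ∀ u ∈ U, ∀ v ∈ U, ψ u v = 0 := by
      intro u hu v hv
      obtain ⟨a, b, ha, hb, hca', hcb', rfl⟩ := hspan u hu
      obtain ⟨a', b', ha', hb', hca'', hcb'', rfl⟩ := hspan v hv
      simp only [map_add, map_smul, LinearMap.add_apply, LinearMap.smul_apply]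
      rw [h0 a a' ha ha' hca' hca'', h0 a b' ha hb' hca' hcb'', h0 b a' hb ha' hcb' hca'',
        h0 b b' hb hb' hcb' hcb'']
      simp
    have h2 : U = ⊥ := by
      rw [Submodule.eq_bot_iff]
      exact fun u hu => hnd u hu fun v hv => h1 u hu v hv
    rw [h2, finrank_bot] at hfin
    omega
  have self : ∀ u, ψ u u = 0 := fun u => by
    have h1 := halt u u
    have h2 : (2 : ℂ) * ψ u u = 0 := by linear_combination h1
    exact (mul_eq_zero.1 h2).resolve_left two_ne_zero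
  have h21 : ψ u₂ u₁ = -ψ u₁ u₂ := halt _ _
  -- coordinates
  have hco : ∀ u ∈ U, u = (ψ u u₂ / ψ u₁ u₂) • u₁ + (-ψ u u₁ / ψ u₁ u₂) • u₂ := by
    have hli : LinearIndependent ℂ ![(⟨u₁, hu1⟩ : U), ⟨u₂, hu2⟩] := by
      rw [LinearIndependent.pair_iff]
      intro s t hst
      have h1 : s • u₁ + t • u₂ = 0 := congrArg Subtype.val hst
      have h2 := congrArg (fun x => ψ x u₂) h1
      have h3 := congrArg (fun x => ψ x u₁) h1
      simp only [map_add, map_smul, LinearMap.add_apply, LinearMap.smul_apply, self, smul_eq_mul,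
        mul_zero, add_zero, zero_add, map_zero, LinearMap.zero_apply, h21] at h2 h3
      exact ⟨(mul_eq_zero.1 h2).resolve_right hψ,
        (mul_eq_zero.1 h3).resolve_right (neg_ne_zero.2 hψ)⟩
    have hcard : Fintype.card (Fin 2) = finrank ℂ U := by rw [hfin, Fintype.card_fin]
    let b := basisOfLinearIndependentOfCardEqFinrank hli hcard
    intro u hu
    have h1 := b.sum_repr ⟨u, hu⟩
    rw [Fin.sum_univ_two] at h1
    have h2 := congrArg Subtype.val h1
    simp only [b, coe_basisOfLinearIndependentOfCardEqFinrank, Matrix.cons_val_zero,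
      Matrix.cons_val_one] at h2
    set s := (basisOfLinearIndependentOfCardEqFinrank hli hcard).repr ⟨u, hu⟩ 0
    set t := (basisOfLinearIndependentOfCardEqFinrank hli hcard).repr ⟨u, hu⟩ 1
    have h3 : s • u₁ + t • u₂ = u := h2
    have h4 : ψ u u₂ = s * ψ u₁ u₂ := by
      rw [← h3]
      simp [self]
    have h5 : ψ u u₁ = -(t * ψ u₁ u₂) := by
      rw [← h3]
      simp [self, h21]
    rw [h4, h5, neg_neg, mul_div_assoc, div_self hψ, mul_one, mul_div_assoc, div_self hψ, mul_one,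
      h3]
  -- the coordinates of the operators
  let ρ : W →ₗ[ℂ] (Fin 3 → ℂ) :=
    { toFun := fun X => ![ψ (π X.1.1 u₁) u₂, ψ (π X.1.1 u₁) u₁, ψ (π X.1.1 u₂) u₂]
      map_add' := fun X Y => by
        funext i
        fin_cases i <;> simp [map_add, LinearMap.add_apply]
      map_smul' := fun z X => by
        funext i
        fin_cases i <;> simp [map_smul, LinearMap.smul_apply] }
  have hzero : ∀ X ∈ W, ψ (π X.1 u₁) u₂ = 0 → ψ (π X.1 u₁) u₁ = 0 → ψ (π X.1 u₂) u₂ = 0 →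
      ∀ v ∈ U, π X.1 v = 0 := by
    intro X hX h1 h2 h3
    have h4 : ψ (π X.1 u₂) u₁ = 0 := by
      have h5 := hW X hX u₁ u₂
      rw [h1, zero_add, halt] at h5
      exact neg_eq_zero.1 h5
    have e1 : π X.1 u₁ = 0 := by
      rw [hco _ (hU X hX u₁ hu1), h1, h2]
      simp
    have e2 : π X.1 u₂ = 0 := by
      rw [hco _ (hU X hX u₂ hu2), h3, h4]
      simp
    intro v hv
    rw [hco v hv, map_add, map_smul, map_smul, e1, e2, smul_zero, smul_zero, add_zero]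
  let s : W →ₗ[ℂ] Matrix (Fin m) (Fin m) ℂ := (LinearMap.snd ℂ _ _).comp W.subtype
  have hker : LinearMap.ker ρ ≤ LinearMap.ker s := by
    intro X hX
    rw [LinearMap.mem_ker] at hX ⊢
    have h0 : ∀ i, ρ X i = 0 := fun i => by rw [hX]; rfl
    exact hcon X.1 X.2 (hzero X.1 X.2 (h0 0) (h0 1) (h0 2))
  -- the map from the coordinates to the matrices
  let t : LinearMap.range ρ →ₗ[ℂ] Matrix (Fin m) (Fin m) ℂ :=
    ((LinearMap.ker ρ).liftQ s hker).comp ρ.quotKerEquivRange.symm.toLinearMap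
  have ht : ∀ X : W, t ⟨ρ X, ⟨X, rfl⟩⟩ = s X := by
    intro X
    show ((LinearMap.ker ρ).liftQ s hker) (ρ.quotKerEquivRange.symm ⟨ρ X, ⟨X, rfl⟩⟩) = s X
    have h1 : ρ.quotKerEquivRange.symm ⟨ρ X, ⟨X, rfl⟩⟩ = (LinearMap.ker ρ).mkQ X := by
      rw [LinearEquiv.symm_apply_eq]
      rfl
    rw [h1]
    rfl
  have hrs : LinearMap.range (Spd_G H) ≤ LinearMap.range t := by
    rintro _ ⟨f, rfl⟩
    have hHi : H⁻¹ᵀ = H⁻¹ := by rw [transpose_nonsing_inv, hH]
    obtain ⟨X, hX, hXZ⟩ := hsur (Spd_G H f) (by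
      show (H⁻¹ * Spd_A f)ᵀ * H + H * (H⁻¹ * Spd_A f) = 0
      rw [transpose_mul, hHi, Spd_skew, Matrix.neg_mul, Matrix.neg_mul,
        Matrix.mul_assoc, nonsing_inv_mul _ hd, Matrix.mul_one, ← Matrix.mul_assoc,
        mul_nonsing_inv _ hd, Matrix.one_mul, neg_add_cancel])
    exact ⟨⟨ρ ⟨X, hX⟩, ⟨⟨X, hX⟩, rfl⟩⟩, (ht ⟨X, hX⟩).trans hXZ⟩
  have hGinj : Function.Injective (Spd_G H) := Sim_G_inj hd
  have hcT : 3 ≤ Fintype.card (Spd_T m) := by
    rw [Sim_card_T, Nat.le_div_iff_mul_le (by omega)]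
    exact Nat.mul_le_mul hm (show 2 ≤ m - 1 by omega)
  have hr3 : 3 ≤ finrank ℂ (LinearMap.range t) := by
    have h1 : finrank ℂ (LinearMap.range (Spd_G H)) = Fintype.card (Spd_T m) := by
      rw [LinearMap.finrank_range_of_inj hGinj, finrank_fintype_fun_eq_card]
    exact hcT.trans (h1 ▸ Submodule.finrank_mono hrs)
  have hρ3 : finrank ℂ (LinearMap.range ρ) = 3 := by
    refine le_antisymm ?_ (hr3.trans (LinearMap.finrank_range_le t))
    have := Submodule.finrank_le (LinearMap.range ρ)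
    rwa [finrank_fintype_fun_eq_card, Fintype.card_fin] at this
  have hρ : LinearMap.range ρ = ⊤ :=
    Submodule.eq_top_of_finrank_eq (by rw [hρ3, finrank_fintype_fun_eq_card, Fintype.card_fin])
  have htinj : Function.Injective t := by
    rw [← LinearMap.ker_eq_bot]
    have h1 := LinearMap.finrank_range_add_finrank_ker t
    rw [← Submodule.finrank_eq_zero (R := ℂ)]
    omega
  -- the two elements
  obtain ⟨X, hX⟩ : (![0, 0, ψ u₁ u₂] : Fin 3 → ℂ) ∈ LinearMap.range ρ := hρ ▸ Submodule.mem_top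
  obtain ⟨Y, hY⟩ : (![ψ u₁ u₂, 0, 0] : Fin 3 → ℂ) ∈ LinearMap.range ρ := hρ ▸ Submodule.mem_top
  have hX0 : ψ (π X.1.1 u₁) u₂ = 0 := congrFun hX 0
  have hX1 : ψ (π X.1.1 u₁) u₁ = 0 := congrFun hX 1
  have hX2 : ψ (π X.1.1 u₂) u₂ = ψ u₁ u₂ := congrFun hX 2
  have hY0 : ψ (π Y.1.1 u₁) u₂ = ψ u₁ u₂ := congrFun hY 0
  have hY1 : ψ (π Y.1.1 u₁) u₁ = 0 := congrFun hY 1
  have hY2 : ψ (π Y.1.1 u₂) u₂ = 0 := congrFun hY 2
  have hX3 : ψ (π X.1.1 u₂) u₁ = 0 := by
    have h5 := hW X.1 X.2 u₁ u₂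
    rw [hX0, zero_add, halt] at h5
    exact neg_eq_zero.1 h5
  have hY3 : ψ (π Y.1.1 u₂) u₁ = ψ u₁ u₂ := by
    have h5 := hW Y.1 Y.2 u₁ u₂
    rw [hY0, halt u₁ (π Y.1.1 u₂)] at h5
    linear_combination -h5
  have X1 : π X.1.1 u₁ = 0 := by
    rw [hco _ (hU X.1 X.2 u₁ hu1), hX0, hX1]
    simp
  have X2 : π X.1.1 u₂ = u₁ := by
    rw [hco _ (hU X.1 X.2 u₂ hu2), hX2, hX3, div_self hψ]
    simp
  have Y1 : π Y.1.1 u₁ = u₁ := by
    rw [hco _ (hU Y.1 Y.2 u₁ hu1), hY0, hY1, div_self hψ]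
    simp
  have Y2 : π Y.1.1 u₂ = -u₂ := by
    rw [hco _ (hU Y.1 Y.2 u₂ hu2), hY2, hY3, neg_div, div_self hψ]
    simp
  have c0 : c 0 = 0 := by
    have := hcs 0 0
    simpa using this
  have cneg : ∀ w, c (-w) = -c w := fun w => by
    have := hcs (-1) w
    simpa using this
  -- they are real
  have real : ∀ Z : W, (π Z.1.1 u₁ = c (π Z.1.1 u₁)) → (π Z.1.1 u₂ = c (π Z.1.1 u₂)) →
      ∀ a b, star (Z.1.2 a b) = Z.1.2 a b := by
    intro Z h1 h2 a b
    obtain ⟨Z', hZ', hZ2, hZ1⟩ := hcW Z.1 Z.2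
    have h3 : (Z' - Z.1).2 = 0 := by
      refine hcon _ (W.sub_mem hZ' Z.2) fun v hv => ?_
      rw [hco v hv, Prod.fst_sub, map_sub, LinearMap.sub_apply, map_add, map_smul, map_smul,
        map_add, map_smul, map_smul, hZ1, hZ1, hc1, hc2, ← h1, ← h2, sub_self]
    rw [← hZ2]
    exact sub_eq_zero.1 (congrFun (congrFun h3 a) b)
  have hXr := real X (by rw [X1, c0]) (by rw [X2, hc1])
  have hYr := real Y (by rw [Y1, hc1]) (by rw [Y2, cneg, hc2])
  have hXY : X.1.2 * Y.1.2 - Y.1.2 * X.1.2 = (-2 : ℂ) • X.1.2 := by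
    have h3 : ((X.1 * Y.1 - Y.1 * X.1) + (2 : ℂ) • X.1).2 = 0 := by
      refine hcon _ (W.add_mem (hbr _ X.2 _ Y.2) (W.smul_mem _ X.2)) fun v hv => ?_
      have e1 : π ((X.1 * Y.1 - Y.1 * X.1) + (2 : ℂ) • X.1).1 u₁ = 0 := by
        rw [Prod.fst_add, Prod.fst_sub, Prod.fst_mul, Prod.fst_mul, Prod.smul_fst, map_add, map_sub,
          map_mul, map_mul, map_smul, LinearMap.add_apply, LinearMap.sub_apply,
          Module.End.mul_apply, Module.End.mul_apply, LinearMap.smul_apply, Y1, X1, map_zero,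
          smul_zero, sub_zero, add_zero]
      have e2 : π ((X.1 * Y.1 - Y.1 * X.1) + (2 : ℂ) • X.1).1 u₂ = 0 := by
        rw [Prod.fst_add, Prod.fst_sub, Prod.fst_mul, Prod.fst_mul, Prod.smul_fst, map_add, map_sub,
          map_mul, map_mul, map_smul, LinearMap.add_apply, LinearMap.sub_apply,
          Module.End.mul_apply, Module.End.mul_apply, LinearMap.smul_apply, Y2, X2, map_neg, X2,
          Y1, two_smul]
        abel
      rw [hco v hv, map_add, map_smul, map_smul, e1, e2, smul_zero, smul_zero, add_zero]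
    rw [neg_smul]
    exact eq_neg_of_add_eq_zero_left h3
  have h0 : X.1.2 = 0 := Spr_def hdef hYr (hsk _ Y.2) hXY
  have h1 : t ⟨ρ X, ⟨X, rfl⟩⟩ = 0 := (ht X).trans h0
  have h2 : (⟨ρ X, ⟨X, rfl⟩⟩ : LinearMap.range ρ) = 0 := htinj (h1.trans (map_zero t).symm)
  have h3 : ρ X = 0 := congrArg Subtype.val h2
  rw [hX] at h3
  exact hψ (congrFun h3 2)

end Pool.Agent.KTW
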