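import Pool.Agent.KTW.StV
import Pool.Agent.KTW.Ssl
import Pool.Agent.KTW.Sso
import Pool.Agent.KTW.Ssp
import Pool.Agent.KTW.Nlk
import Pool.Agent.KTW.Spr
import Pool.Agent.KSE.CoreC
import Pool.Agent.KSW.Fin

/-!
# KTW [PrjA]: projections to the Lie algebras at the places, first part
-/

set_option autoImplicit false
set_option linter.unusedSectionVars false

open scoped ComplexConjugate

namespace Pool.Agent.KTW

open Module Matrix NumberField Pool.Agent.Helper7 Pool.Agent.KS Pool.Agent.Ball Pool.Agent.KSE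
  Pool.Agent.Helper28.GPC Pool.Agent.KSE.TwistE
open Pool.Agent.KSR (PL SkP)

/-- pairs of a symmetry and families of matrices -/
def PrA {J : Type} (κ : J → Type) {I : Type} (K : I → Type) [∀ i, Field (K i)]
    (m : I → ℕ) : Type :=
  GG κ × (∀ i, (K i →+* ℂ) → Matrix (Fin (m i)) (Fin (m i)) ℂ)

noncomputable instance PrA.ring {J : Type} (κ : J → Type) {I : Type} (K : I → Type)
    [∀ i, Field (K i)] (m : I → ℕ) : Ring (PrA κ K m) :=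
  inferInstanceAs (Ring (GG κ × (∀ i, (K i →+* ℂ) → Matrix (Fin (m i)) (Fin (m i)) ℂ)))

noncomputable instance PrA.algebra {J : Type} (κ : J → Type) {I : Type} (K : I → Type)
    [∀ i, Field (K i)] (m : I → ℕ) : Algebra ℂ (PrA κ K m) :=
  inferInstanceAs (Algebra ℂ (GG κ × (∀ i, (K i →+* ℂ) → Matrix (Fin (m i)) (Fin (m i)) ℂ)))

section W

variable {I J : Type} [Fintype I] [DecidableEq I] [Fintype J] [DecidableEq J] (e : I → J)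
  (n : J → ℕ) {κ : J → Type} [∀ j, Fintype (κ j)] [∀ j, DecidableEq (κ j)] {ϖ : ℂ}
  (P : ∀ j, PData (κ j) ϖ) {K : I → Type} [∀ i, Field (K i)] [∀ i, NumberField (K i)] {m : I → ℕ}
  (t : ∀ i, Fin (m i) → K i → Module.End ℂ (κ (e i) → ℂ)) {k : ℕ}
  (γ : MultilinearMap ℂ (fun _ : Fin (2 * k) => HW κ n) ℂ)

/-- the symmetries without multiplier and their families of matrices -/
def PrW : Submodule ℂ (PrA κ K m) where
  carrier := {X | IsInv n P γ X.1 ∧ X.1.2 = 0 ∧ ∀ i, ActM (t i) (X.1.1 (e i)) (X.2 i)}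
  add_mem' := by
    rintro X Y ⟨h1, h2, h3⟩ ⟨h1', h2', h3'⟩
    refine ⟨h1.add _ _ _ h1', ?_, fun i => (h3 i).add (h3' i)⟩
    show X.1.2 + Y.1.2 = 0
    rw [h2, h2', add_zero]
  zero_mem' := ⟨IsInv.zero _ _ _, rfl, fun i => ActM.zero⟩
  smul_mem' := by
    rintro r X ⟨h1, h2, h3⟩
    refine ⟨h1.smul _ _ _ r, ?_, fun i => (h3 i).smul r⟩
    show r * X.1.2 = 0
    rw [h2, mul_zero]

variable {e n P t γ}

theorem PrW_mem {X : PrA κ K m} : X ∈ PrW e n P t γ ↔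
    IsInv n P γ X.1 ∧ X.1.2 = 0 ∧ ∀ i, ActM (t i) (X.1.1 (e i)) (X.2 i) := Iff.rfl

theorem PrW_br {X Y : PrA κ K m} (hX : X ∈ PrW e n P t γ) (hY : Y ∈ PrW e n P t γ) :
    X * Y - Y * X ∈ PrW e n P t γ := by
  obtain ⟨h1, h2, h3⟩ := hX
  obtain ⟨h1', h2', h3'⟩ := hY
  refine ⟨h1.bracket _ _ _ h1', ?_, fun i => (h3 i).bracket (h3' i)⟩
  show X.1.2 * Y.1.2 - Y.1.2 * X.1.2 = 0
  rw [h2, h2']
  ring

/-- the twist -/
noncomputable def PrT (P : ∀ j, PData (κ j) ϖ) (τ : ℂ ≃+* ℂ) (X : PrA κ K m) : PrA κ K m :=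
  (tw P τ X.1, fun i => twM τ (X.2 i))

theorem PrT_mem (hϖ : ϖ ≠ 0) {c : ∀ i, K i →+* K i} {h : ∀ i, Matrix (Fin (m i)) (Fin (m i)) (K i)}
    (S : ∀ i, MD (P (e i)) (c i) (h i) (t i))
    (hB : ∀ v : Fin (2 * k) → HW κ n, (∀ r, IsRatP n P (v r)) → ∃ q : ℚ, γ v = ϖ ^ k * q)
    (τ : ℂ ≃+* ℂ) {X : PrA κ K m} (hX : X ∈ PrW e n P t γ) : PrT P τ X ∈ PrW e n P t γ := by
  obtain ⟨h1, h2, h3⟩ := hX
  refine ⟨isInv_tw n P γ hϖ hB τ X.1 h1, ?_, fun i => KSW.actM_tw S i X.1 (h3 i) τ⟩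
  show (tw P τ X.1).2 = 0
  rw [tw_snd, h2, map_zero]

theorem PrT_zero (τ : ℂ ≃+* ℂ) {X : PrA κ K m} {j : J} (hX : X.1.1 j = 0) :
    (PrT P τ X).1.1 j = 0 := by
  refine LinearMap.ext fun w => ?_
  have h1 := twV_tw P τ X.1 j (twV (P j) τ.symm w)
  rw [twV_symm, hX, LinearMap.zero_apply, twV_zero] at h1
  exact h1

end W


/-! ### The Lie algebra at a place -/

section lg

variable {K : Type} [Field K] [NumberField K] {m : ℕ} {h : Matrix (Fin m) (Fin m) K}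

theorem Lg_re {σ : K →+* ℂ} (hσ : cj σ = σ) : Lg h σ = SO (h.map σ) := if_pos hσ

theorem Lg_co {σ : K →+* ℂ} (hσ : cj σ ≠ σ) : Lg h σ = SL m := if_neg hσ

theorem Pr_trz_tr (hm : 0 < m) (Z : Matrix (Fin m) (Fin m) ℂ) : (trz Z).trace = 0 := by
  have h0 : (m : ℂ) ≠ 0 := Nat.cast_ne_zero.2 hm.ne'
  rw [trz, Matrix.trace_sub, Matrix.trace_smul, Matrix.trace_one, Fintype.card_fin, smul_eq_mul,
    div_mul_cancel₀ _ h0, sub_self]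

theorem Pr_trz_of {Z : Matrix (Fin m) (Fin m) ℂ} (hZ : Z.trace = 0) : trz Z = Z := by
  rw [trz, hZ, zero_div, zero_smul, sub_zero]

theorem Pr_trz_add (Z Z' : Matrix (Fin m) (Fin m) ℂ) : trz (Z + Z') = trz Z + trz Z' := by
  rw [trz, trz, trz, Matrix.trace_add, add_div, add_smul]
  abel

theorem Pr_trz_smul (r : ℂ) (Z : Matrix (Fin m) (Fin m) ℂ) : trz (r • Z) = r • trz Z := by
  rw [trz, trz, Matrix.trace_smul, smul_sub, smul_smul, smul_eq_mul, mul_div_assoc]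

theorem Pr_trz_br (Z Z' : Matrix (Fin m) (Fin m) ℂ) :
    trz (Z * Z' - Z' * Z) = trz Z * trz Z' - trz Z' * trz Z := by
  rw [Pr_trz_of (by rw [Matrix.trace_sub, Matrix.trace_mul_comm, sub_self]), trz, trz]
  simp only [sub_mul, mul_sub, smul_mul_assoc, mul_smul_comm, one_mul, mul_one, smul_sub, smul_smul]
  rw [mul_comm (Z.trace / m) (Z'.trace / m)]
  abel

/-- the trace-zero part as a linear map -/
noncomputable def Pr_trzL (m : ℕ) : Matrix (Fin m) (Fin m) ℂ →ₗ[ℂ] Matrix (Fin m) (Fin m) ℂ where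
  toFun := trz
  map_add' := Pr_trz_add
  map_smul' := Pr_trz_smul

theorem Pr_trzL_apply (Z : Matrix (Fin m) (Fin m) ℂ) : Pr_trzL m Z = trz Z := rfl

/-- skew matrices have trace zero -/
theorem SO_tr {H Z : Matrix (Fin m) (Fin m) ℂ} (hd : IsUnit H.det) (hZ : Z ∈ SO H) :
    Z.trace = 0 := by
  have h1 : Zᵀ * H = -(H * Z) := eq_neg_of_add_eq_zero_left hZ
  have h2 : Zᵀ = -(H * Z * H⁻¹) := by
    have h3 : Zᵀ * H * H⁻¹ = -(H * Z) * H⁻¹ := by rw [h1]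
    rw [Matrix.mul_assoc, mul_nonsing_inv _ hd, Matrix.mul_one, Matrix.neg_mul] at h3
    exact h3
  have h3 : Z.trace = -Z.trace := by
    have h5 : (H * Z * H⁻¹).trace = Z.trace := by
      rw [Matrix.mul_assoc, Matrix.trace_mul_comm, Matrix.mul_assoc, nonsing_inv_mul _ hd,
        Matrix.mul_one]
    have h6 := Matrix.trace_transpose Z
    rw [h2, Matrix.trace_neg, h5] at h6
    exact h6.symm
  have h4 : (2 : ℂ) * Z.trace = 0 := by linear_combination h3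
  exact (mul_eq_zero.1 h4).resolve_left two_ne_zero

end lg

section fam

variable {I J : Type} [Fintype I] [DecidableEq I] [Fintype J] [DecidableEq J] {e : I → J}
  {n : J → ℕ} {κ : J → Type} [∀ j, Fintype (κ j)] [∀ j, DecidableEq (κ j)] {ϖ : ℂ}
  {P : ∀ j, PData (κ j) ϖ} {K : I → Type} [∀ i, Field (K i)] [∀ i, NumberField (K i)] {m : I → ℕ}
  {h : ∀ i, Matrix (Fin (m i)) (Fin (m i)) (K i)}
  {t : ∀ i, Fin (m i) → K i → Module.End ℂ (κ (e i) → ℂ)} {k : ℕ}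
  {γ : MultilinearMap ℂ (fun _ : Fin (2 * k) => HW κ n) ℂ} {σ₀ : ∀ i, K i →+* ℂ}
  {T₀ : I → Prop} {c : ∀ i, K i →+* K i}

/-- the real indices -/
theorem Prj_re (H : FamZ e n P h t γ σ₀ T₀ c) (i : I) (hi : RePl (h i) (σ₀ i)) (σ : K i →+* ℂ) :
    (h i |>.map σ)ᵀ = (h i).map σ ∧ IsUnit ((h i).map σ).det ∧ cj σ = σ := by
  refine ⟨?_, ?_, hi.1 σ⟩
  · ext a b
    rw [Matrix.transpose_apply, Matrix.map_apply, Matrix.map_apply, ← (H.S i).herm a b,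
      ← (H.S i).conj, hi.1 σ]
  · have h1 : ((h i).map σ).det = σ (h i).det := by
      rw [RingHom.map_det, RingHom.mapMatrix_apply]
    rw [h1]
    exact IsUnit.mk0 _ ((map_ne_zero σ).2 (H.S i).nd)

/-- a symmetry with given matrices at one index -/
theorem Prj_ext (H : FamZ e n P h t γ σ₀ T₀ c) (i : I) {X : GG κ} (hX : IsInv n P γ X)
    (hX2 : X.2 = 0) {M : (K i →+* ℂ) → Matrix (Fin (m i)) (Fin (m i)) ℂ}
    (hM : ActM (t i) (X.1 (e i)) M) : ∃ Y ∈ PrW e n P t γ, Y.1 = X ∧ Y.2 i = M := by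
  choose N hN using H.T X hX
  refine ⟨(X, N), ⟨hX, hX2, hN⟩, rfl, ?_⟩
  have := H.ne i
  exact ActM.unique (H.S i).conj (H.S i).cliff (H.S i).nd (hN i) hM

end fam

section onto

variable {I J : Type} [Fintype I] [DecidableEq I] [Fintype J] [DecidableEq J] {e : I → J}
  {n : J → ℕ} {κ : J → Type} [∀ j, Fintype (κ j)] [∀ j, DecidableEq (κ j)] {ϖ : ℂ}
  {P : ∀ j, PData (κ j) ϖ} {K : I → Type} [∀ i, Field (K i)] [∀ i, NumberField (K i)] {m : I → ℕ}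
  {h : ∀ i, Matrix (Fin (m i)) (Fin (m i)) (K i)}
  {t : ∀ i, Fin (m i) → K i → Module.End ℂ (κ (e i) → ℂ)} {k : ℕ}
  {γ : MultilinearMap ℂ (fun _ : Fin (2 * k) => HW κ n) ℂ} {σ₀ : ∀ i, K i →+* ℂ}
  {T₀ : I → Prop} {c : ∀ i, K i →+* K i}

theorem Prj_skM (H : FamZ e n P h t γ σ₀ T₀ c) (i : I) {X : PrA κ K m}
    (hX : X ∈ PrW e n P t γ) : SkewM (h i) (X.2 i) := by
  have := H.ne i
  rw [skewM_iff]
  intro σ x y
  exact ActM.skew (H.S i).conj (H.S i).cliff (hX.2.2 i) σ x y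

theorem Prj_oR (H : FamZ e n P h t γ σ₀ T₀ c) (i : I) (hi : RePl (h i) (σ₀ i)) (σ : K i →+* ℂ)
    (Z : Matrix (Fin (m i)) (Fin (m i)) ℂ) (hZ : Z ∈ SO ((h i).map σ)) :
    ∃ X ∈ PrW e n P t γ, X.2 i σ = Z := by
  classical
  obtain ⟨τ, hτ⟩ := Pool.Agent.Helper84.exists_aut (σ₀ i) σ
  obtain ⟨M, ⟨hM1, X, hX, hX2, hXM⟩, hMp, -⟩ := KSW.core_at
    (I := {i // RePl (h i) (σ₀ i)}) (ε := fun i => e i.1) n H.pi P (fun i => H.S i.1) γ H.B H.A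
    (fun i => H.nd i.1) (fun i => i.2.1) (fun i => σ₀ i.1) (fun i => i.2.2.1)
    (fun i => i.2.2.2.1) (fun X hX i => H.T X hX i.1) (fun g hg i => H.Tg g hg i.1)
    ⟨⟨i, hi⟩, σ⟩ hi.2.2.2.1 hi.2.2.2.2.1 τ hτ Z hZ
  obtain ⟨Y, hY, -, h2⟩ := Prj_ext H i hX hX2 (hXM ⟨i, hi⟩)
  exact ⟨Y, hY, by rw [h2]; exact hMp⟩

theorem Prj_oC0 (H : FamZ e n P h t γ σ₀ T₀ c) (i : I) (hi : CoPl (h i) (σ₀ i))
    (Z : Matrix (Fin (m i)) (Fin (m i)) ℂ) (hZ : Z.trace = 0) :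
    ∃ X ∈ PrW e n P t γ, X.2 i (σ₀ i) = Z := by
  obtain ⟨M, ⟨X, hX, hX2, hXM⟩, hM, -⟩ := coreC n H.pi P (e i) (H.S i) γ H.B H.A (H.nd i) (H.ne i)
    (fun X hX => H.T X hX i) (fun g hg => H.Tg g hg i) hi.2.2.2.1 hi.2.2.2.2 (σ₀ i) (hi.1 _) hi.2.1
    hi.2.2.1 Z hZ
  obtain ⟨Y, hY, -, h2⟩ := Prj_ext H i hX hX2 hXM
  exact ⟨Y, hY, by rw [h2, hM]⟩

theorem Prj_symm {F : Type} [Field F] {τ : ℂ ≃+* ℂ} {σ₁ σ : F →+* ℂ}
    (hτ : (τ : ℂ →+* ℂ).comp σ₁ = σ) : (τ.symm : ℂ →+* ℂ).comp σ = σ₁ := by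
  rw [← hτ]
  ext x
  exact τ.symm_apply_apply (σ₁ x)

theorem Prj_mm {m : ℕ} (τ : ℂ ≃+* ℂ) (Z : Matrix (Fin m) (Fin m) ℂ) :
    (Z.map τ.symm).map τ = Z := by
  ext a b
  rw [Matrix.map_apply, Matrix.map_apply]
  exact τ.apply_symm_apply (Z a b)

/-- the Lie algebras at two places correspond -/
theorem Prj_Lg {F : Type} [Field F] [NumberField F] {d : ℕ} {g : Matrix (Fin d) (Fin d) F}
    (hF : (∀ σ : F →+* ℂ, cj σ = σ) ∨ (∀ σ : F →+* ℂ, cj σ ≠ σ)) {τ : ℂ ≃+* ℂ} {σ₁ σ : F →+* ℂ}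
    (hτ : (τ : ℂ →+* ℂ).comp σ₁ = σ) {Z : Matrix (Fin d) (Fin d) ℂ} (hZ : Z ∈ Lg g σ) :
    Z.map τ.symm ∈ Lg g σ₁ := by
  rcases hF with hF | hF
  · rw [Lg_re (hF σ)] at hZ
    rw [Lg_re (hF σ₁)]
    refine KSR.skP_tw (g := g) τ.symm σ₁ (Z := Z) ?_
    have e : ((τ.symm).symm : ℂ →+* ℂ).comp σ₁ = σ := hτ
    rw [e]
    exact hZ
  · rw [Lg_co (hF σ)] at hZ
    rw [Lg_co (hF σ₁)]
    have h1 : Z.trace = 0 := hZ
    show (Z.map τ.symm).trace = 0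
    have h2 : (Z.map τ.symm).trace = τ.symm Z.trace := by
      rw [Matrix.trace, Matrix.trace, map_sum]
      rfl
    rw [h2, h1, map_zero]

/-- transport of the surjectivity, with an additional condition -/
theorem Prj_tr (H : FamZ e n P h t γ σ₀ T₀ c) (i : I) (σ₁ σ : K i →+* ℂ) (R : J → Prop)
    (h1 : ∀ Z ∈ Lg (h i) σ₁, ∃ X ∈ PrW e n P t γ, (∀ j, R j → X.1.1 j = 0) ∧ X.2 i σ₁ = Z)
    (Z : Matrix (Fin (m i)) (Fin (m i)) ℂ) (hZ : Z ∈ Lg (h i) σ) :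
    ∃ X ∈ PrW e n P t γ, (∀ j, R j → X.1.1 j = 0) ∧ X.2 i σ = Z := by
  obtain ⟨τ, hτ⟩ := Pool.Agent.Helper84.exists_aut σ₁ σ
  have hF : (∀ σ : K i →+* ℂ, cj σ = σ) ∨ (∀ σ : K i →+* ℂ, cj σ ≠ σ) :=
    (H.typ i).imp (fun h => h.2.1) fun h => h.1
  obtain ⟨X, hX, hXj, hXZ⟩ := h1 _ (Prj_Lg hF hτ hZ)
  refine ⟨PrT P τ X, PrT_mem H.pi H.S H.B τ hX, fun j hj => PrT_zero τ (hXj j hj), ?_⟩
  show (X.2 i ((τ.symm : ℂ →+* ℂ).comp σ)).map τ = Z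
  rw [Prj_symm hτ, hXZ, Prj_mm]

/-- everything at all places -/
theorem Prj_on (H : FamZ e n P h t γ σ₀ T₀ c) (i : I) (σ : K i →+* ℂ)
    (Z : Matrix (Fin (m i)) (Fin (m i)) ℂ) (hZ : Z ∈ Lg (h i) σ) :
    ∃ X ∈ PrW e n P t γ, X.2 i σ = Z := by
  rcases H.typ i with ⟨-, hi⟩ | hi
  · rw [Lg_re (hi.1 σ)] at hZ
    exact Prj_oR H i hi σ Z hZ
  · obtain ⟨X, h1, -, h2⟩ := Prj_tr H i (σ₀ i) σ (fun _ => False) (fun Z hZ => by
      rw [Lg_co (hi.1 _)] at hZ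
      obtain ⟨X, h1, h2⟩ := Prj_oC0 H i hi Z hZ
      exact ⟨X, h1, fun _ h => h.elim, h2⟩) Z hZ
    exact ⟨X, h1, h2⟩

end onto

end Pool.Agent.KTW
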