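import Pool.Agent.KTW.StX
import Pool.Agent.KSE.CoreC
import Pool.Agent.KSW.Fin

/-!
# KTW [Syc]: the properties of the set of the families of matrices of the symmetries
-/

set_option autoImplicit false
set_option linter.unusedSectionVars false

namespace Pool.Agent.KTW.Sycx

open Module Matrix NumberField Pool.Agent.Helper7 Pool.Agent.KS Pool.Agent.Ball Pool.Agent.KSE
  Pool.Agent.Helper28.GPC Pool.Agent.KSE.TwistE

theorem symm {F : Type} [Field F] {τ : ℂ ≃+* ℂ} {σ₁ σ : F →+* ℂ}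
    (hτ : (τ : ℂ →+* ℂ).comp σ₁ = σ) : (τ.symm : ℂ →+* ℂ).comp σ = σ₁ := by
  rw [← hτ]
  ext x
  exact τ.symm_apply_apply (σ₁ x)

theorem mm {m : ℕ} (τ : ℂ ≃+* ℂ) (Z : Matrix (Fin m) (Fin m) ℂ) :
    (Z.map τ.symm).map τ = Z := by
  ext a b
  rw [Matrix.map_apply, Matrix.map_apply]
  exact τ.apply_symm_apply (Z a b)

section fam

variable {I J : Type} [Fintype I] [DecidableEq I] [Fintype J] [DecidableEq J] {e : I → J}
  {n : J → ℕ} {κ : J → Type} [∀ j, Fintype (κ j)] [∀ j, DecidableEq (κ j)] {ϖ : ℂ}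
  {P : ∀ j, PData (κ j) ϖ} {K : I → Type} [∀ i, Field (K i)] [∀ i, NumberField (K i)] {m : I → ℕ}
  {h : ∀ i, Matrix (Fin (m i)) (Fin (m i)) (K i)}
  {t : ∀ i, Fin (m i) → K i → Module.End ℂ (κ (e i) → ℂ)} {k : ℕ}
  {γ : MultilinearMap ℂ (fun _ : Fin (2 * k) => HW κ n) ℂ} {σ₀ : ∀ i, K i →+* ℂ}
  {T₀ : I → Prop} {c : ∀ i, K i →+* K i}

theorem tw_mem (H : FamZ e n P h t γ σ₀ T₀ c)
    {M : ∀ i, (K i →+* ℂ) → Matrix (Fin (m i)) (Fin (m i)) ℂ} (hM : M ∈ SyM e n P t γ)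
    (τ : ℂ ≃+* ℂ) : (fun i => twM τ (M i)) ∈ SyM e n P t γ := by
  obtain ⟨X, h1, h2, h3⟩ := hM
  refine ⟨tw P τ X, isInv_tw n P γ H.pi H.B τ X h1, ?_, fun i => KSW.actM_tw H.S i X (h3 i) τ⟩
  rw [tw_snd, h2, map_zero]

/-- elements supported at the place `σ₀ i` -/
theorem one₀ (H : FamZ e n P h t γ σ₀ T₀ c) (i : I) (hi : CoPl (h i) (σ₀ i))
    (Z : Matrix (Fin (m i)) (Fin (m i)) ℂ) (hZ : Z.trace = 0) :
    ∃ M ∈ SyM e n P t γ, M i (σ₀ i) = Z ∧ ∀ τ, τ ≠ σ₀ i → τ ≠ cj (σ₀ i) → M i τ = 0 := by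
  obtain ⟨M, ⟨X, hX, hX2, hXM⟩, hM, hM0⟩ := coreC n H.pi P (e i) (H.S i) γ H.B H.A (H.nd i) (H.ne i)
    (fun X hX => H.T X hX i) (fun g hg => H.Tg g hg i) hi.2.2.2.1 hi.2.2.2.2 (σ₀ i) (hi.1 _) hi.2.1
    hi.2.2.1 Z hZ
  choose N hN using H.T X hX
  have hne := H.ne i
  have h1 : N i = M := ActM.unique (H.S i).conj (H.S i).cliff (H.S i).nd (hN i) hXM
  exact ⟨N, ⟨X, hX, hX2, hN⟩, by rw [h1, hM], fun τ h2 h3 => by rw [h1, hM0 τ h2 h3]⟩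

theorem one (H : FamZ e n P h t γ σ₀ T₀ c) (i : I) (hi : CoPl (h i) (σ₀ i)) (σ : K i →+* ℂ)
    (Z : Matrix (Fin (m i)) (Fin (m i)) ℂ) (hZ : Z.trace = 0) :
    ∃ M ∈ SyM e n P t γ, M i σ = Z ∧ ∀ τ, τ ≠ σ → τ ≠ cj σ → M i τ = 0 := by
  obtain ⟨s, hs⟩ := Pool.Agent.Helper84.exists_aut (σ₀ i) σ
  have hsx : ∀ x, s (σ₀ i x) = σ x := fun x => RingHom.congr_fun hs x
  obtain ⟨M, hM, h1, h2⟩ := one₀ H i hi (Z.map s.symm) (by
    have h3 : (Z.map s.symm).trace = s.symm Z.trace := by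
      rw [Matrix.trace, Matrix.trace, map_sum]
      rfl
    rw [h3, hZ, map_zero])
  refine ⟨_, tw_mem H hM s, ?_, fun τ hτ1 hτ2 => ?_⟩
  · show (M i ((s.symm : ℂ →+* ℂ).comp σ)).map s = Z
    rw [symm hs, h1, mm]
  · show (M i ((s.symm : ℂ →+* ℂ).comp τ)).map s = 0
    rw [h2]
    · ext a b
      simp
    · intro e₁
      apply hτ1
      ext x
      have h3 : s.symm (τ x) = σ₀ i x := RingHom.congr_fun e₁ x
      rw [← hsx, ← h3, RingEquiv.apply_symm_apply]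
    · intro e₁
      apply hτ2
      ext x
      have h3 : s.symm (τ x) = cj (σ₀ i) x := RingHom.congr_fun e₁ x
      rw [(H.S i).conj] at h3
      rw [(H.S i).conj, ← hsx, ← h3, RingEquiv.apply_symm_apply]

end fam

end Pool.Agent.KTW.Sycx

namespace Pool.Agent.KTW

open Module Matrix NumberField Pool.Agent.Helper7 Pool.Agent.KS Pool.Agent.Ball Pool.Agent.KSE
  Pool.Agent.Helper28.GPC Pool.Agent.KSE.TwistE

/-- [SYC] -/
theorem thm_Syc : St_Syc := by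
  intro I J _ _ _ _ e n κ _ _ ϖ P K _ _ c m h t k γ σ₀ T₀ H hcm
  have hco : ∀ i, CoPl (h i) (σ₀ i) := by
    intro i
    rcases H.typ i with ⟨-, h1⟩ | h1
    · exact absurd (h1.1 (σ₀ i)) (hcm i (σ₀ i))
    · exact h1
  refine
    { conj := fun i => (H.S i).conj
      cm := hcm
      herm := fun i => (H.S i).herm
      nd := fun i => (H.S i).nd
      m2 := fun i => ?_
      add := ?_
      smul := ?_
      br := ?_
      tw := fun M hM τ => Sycx.tw_mem H hM τ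
      skew := ?_
      one := fun i σ Z hZ => Sycx.one H i (hco i) σ Z hZ }
  · obtain ⟨-, -, -, h0, r, hr⟩ := hco i
    omega
  · rintro M ⟨X, h1, h2, h3⟩ N ⟨Y, h1', h2', h3'⟩
    refine ⟨X + Y, h1.add _ _ _ h1', ?_, fun i => (h3 i).add (h3' i)⟩
    show X.2 + Y.2 = 0
    rw [h2, h2', add_zero]
  · rintro r M ⟨X, h1, h2, h3⟩
    refine ⟨r • X, h1.smul _ _ _ r, ?_, fun i => (h3 i).smul r⟩
    show r * X.2 = 0
    rw [h2, mul_zero]
  · rintro M ⟨X, h1, h2, h3⟩ N ⟨Y, h1', h2', h3'⟩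
    refine ⟨X * Y - Y * X, h1.bracket _ _ _ h1', ?_, fun i => (h3 i).bracket (h3' i)⟩
    show X.2 * Y.2 - Y.2 * X.2 = 0
    rw [h2, h2']
    ring
  · rintro M ⟨X, h1, h2, h3⟩ i
    have := H.ne i
    rw [skewM_iff]
    intro σ x y
    exact ActM.skew (H.S i).conj (H.S i).cliff (h3 i) σ x y

end Pool.Agent.KTW
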