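import Pool.Agent.KTW.StT
import Pool.Agent.KTW.Syc
import Pool.Agent.KTW.PrjA

/-!
# KTW [Syd]: the properties of the set of the families of matrices of the symmetries, real and complex
-/

set_option autoImplicit false
set_option linter.unusedSectionVars false

namespace Pool.Agent.KTW.Sydx

open Module Matrix NumberField Pool.Agent.Helper7 Pool.Agent.KS Pool.Agent.Ball Pool.Agent.KSE
  Pool.Agent.Helper28.GPC Pool.Agent.KSE.TwistE
open Pool.Agent.KSR (PL SkP)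

section fam

variable {I J : Type} [Fintype I] [DecidableEq I] [Fintype J] [DecidableEq J] {e : I → J}
  {n : J → ℕ} {κ : J → Type} [∀ j, Fintype (κ j)] [∀ j, DecidableEq (κ j)] {ϖ : ℂ}
  {P : ∀ j, PData (κ j) ϖ} {K : I → Type} [∀ i, Field (K i)] [∀ i, NumberField (K i)] {m : I → ℕ}
  {h : ∀ i, Matrix (Fin (m i)) (Fin (m i)) (K i)}
  {t : ∀ i, Fin (m i) → K i → Module.End ℂ (κ (e i) → ℂ)} {k : ℕ}
  {γ : MultilinearMap ℂ (fun _ : Fin (2 * k) => HW κ n) ℂ} {σ₀ : ∀ i, K i →+* ℂ}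
  {T₀ : I → Prop} {c : ∀ i, K i →+* K i}

/-- elements supported at one real place -/
theorem oneR (H : FamZ e n P h t γ σ₀ T₀ c) (i : I) (hi : RePl (h i) (σ₀ i)) (σ : K i →+* ℂ)
    (Z : Matrix (Fin (m i)) (Fin (m i)) ℂ) (hZ : Z ∈ SO ((h i).map σ)) :
    ∃ M ∈ SyM e n P t γ, M i σ = Z ∧ ∀ τ, τ ≠ σ → τ ≠ cj σ → M i τ = 0 := by
  classical
  obtain ⟨s, hs⟩ := Pool.Agent.Helper84.exists_aut (σ₀ i) σ
  obtain ⟨M, ⟨hM1, X, hX, hX2, hXM⟩, hMp, hM0⟩ := KSW.core_at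
    (I := {i // RePl (h i) (σ₀ i)}) (ε := fun i => e i.1) n H.pi P (fun i => H.S i.1) γ H.B H.A
    (fun i => H.nd i.1) (fun i => i.2.1) (fun i => σ₀ i.1) (fun i => i.2.2.1)
    (fun i => i.2.2.2.1) (fun X hX i => H.T X hX i.1) (fun g hg i => H.Tg g hg i.1)
    ⟨⟨i, hi⟩, σ⟩ hi.2.2.2.1 hi.2.2.2.2.1 s hs Z hZ
  choose N hN using H.T X hX
  have hne := H.ne i
  have h1 : N i = fun σ => M ⟨⟨i, hi⟩, σ⟩ :=
    ActM.unique (H.S i).conj (H.S i).cliff (H.S i).nd (hN i) (hXM ⟨i, hi⟩)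
  refine ⟨N, ⟨X, hX, hX2, hN⟩, by rw [h1]; exact hMp, fun τ hτ _ => ?_⟩
  rw [h1]
  refine hM0 ⟨⟨i, hi⟩, τ⟩ ?_ ?_
  · intro h2
    rw [Sigma.mk.injEq] at h2
    exact hτ (eq_of_heq h2.2)
  · intro h2
    exact hτ (h2.trans hs)

end fam

end Pool.Agent.KTW.Sydx

namespace Pool.Agent.KTW

open Module Matrix NumberField Pool.Agent.Helper7 Pool.Agent.KS Pool.Agent.Ball Pool.Agent.KSE
  Pool.Agent.Helper28.GPC Pool.Agent.KSE.TwistE

/-- [SYD] -/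
theorem thm_Syd : St_Syd := by
  intro I J _ _ _ _ e n κ _ _ ϖ P K _ _ c m h t k γ σ₀ T₀ H
  have htyp : ∀ i, RePl (h i) (σ₀ i) ∨ CoPl (h i) (σ₀ i) := by
    intro i
    rcases H.typ i with ⟨-, h1⟩ | h1
    · exact Or.inl h1
    · exact Or.inr h1
  refine
    { conj := fun i => (H.S i).conj
      herm := fun i => (H.S i).herm
      nd := fun i => (H.S i).nd
      typ := htyp
      add := ?_
      smul := ?_
      br := ?_
      tw := fun M hM τ => Sycx.tw_mem H hM τ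
      skew := ?_
      one := fun i σ Z hZ => ?_ }
  · rintro M ⟨X, h1, h2, h3⟩ N ⟨Y, h1', h2', h3'⟩
    refine ⟨X + Y, h1.add _ _ _ h1', ?_, fun i => (h3 i).add (h3' i)⟩
    show X.2 + Y.2 = 0
    rw [h2, h2', add_zero]
  · rintro r M ⟨X, h1, h2, h3⟩
    refine ⟨r • X, h1.smul _ _ _ r, ?_, fun i => (h3 i).smul r⟩
    show r * X.2 = 0
    rw [h2, mul_zero]
  · rintro M ⟨X, h1, h2, h3⟩ N ⟨Y, h1', h2', h3'⟩
    refine ⟨X * Y - Y * X, h1.bracket _ _ _ h1', ?_, fun i => (h3 i).bracket (h3' i)⟩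
    show X.2 * Y.2 - Y.2 * X.2 = 0
    rw [h2, h2']
    ring
  · rintro M ⟨X, h1, h2, h3⟩ i
    have := H.ne i
    rw [skewM_iff]
    intro σ x y
    exact ActM.skew (H.S i).conj (H.S i).cliff (h3 i) σ x y
  · rcases htyp i with hi | hi
    · rw [Lg_re (hi.1 σ)] at hZ
      exact Sydx.oneR H i hi σ Z hZ
    · rw [Lg_co (hi.1 σ)] at hZ
      exact Sycx.one H i hi σ Z hZ

end Pool.Agent.KTW
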