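import Pool.Agent.KTW.AllW
import Pool.Agent.KTW.Klr
import Pool.Agent.KTW.Rmu
import Pool.Agent.KTW.Gsf
import Pool.Agent.KTW.Prj
import Pool.Agent.KTW.Pry
import Pool.Agent.KTW.Spz
import Pool.Agent.KTW.Syd
import Pool.Agent.KTW.Dgy
import Pool.Agent.KTW.Ltx
import Pool.Agent.KTW.Lal
import Pool.Agent.KTW.Ncl
import Pool.Agent.KTW.Rfc
import Pool.Agent.KTW.Rfn
import Pool.Agent.KTW.Frc
import Pool.Agent.KTW.Css
import Pool.Agent.KTW.Czp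
import Pool.Agent.KTW.Qcm
import Pool.Agent.KTW.Qhx
import Pool.Agent.KTW.Hmf
import Pool.Agent.KTW.Cer
import Pool.Agent.KTW.Eva
import Pool.Agent.KTW.Evb
import Pool.Agent.KTW.Del
import Pool.Agent.KTW.Cnb
import Pool.Agent.KTW.Cna
import Pool.Agent.KTW.Pol
import Pool.Agent.KTW.Prd
import Pool.Agent.KTW.Rlu
import Pool.Agent.KTW.Psk
import Pool.Agent.KTW.Ftx
import Pool.Agent.KTW.Psy
import Pool.Agent.KTW.Lkx
import Pool.Agent.KTW.Sla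
import Pool.Agent.KTW.Sle
import Pool.Agent.KTW.Flx
import Pool.Agent.KTW.Mdv
import Pool.Agent.KTW.Mdf
import Pool.Agent.KTW.Pmd
import Pool.Agent.KTW.Cmp
import Pool.Agent.KTW.Cmf
import Pool.Agent.KTW.Iqt
import Pool.Agent.KTW.Qrm
import Pool.Agent.KTW.Trf
import Pool.Agent.KTW.Syn
import Pool.Agent.KTW.Rel
import Pool.Agent.KTW.Hym
import Pool.Agent.KTW.Hyt
import Pool.Agent.KSV.D4
import Pool.Agent.KSV.Ex3

/-!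
# KTW: all hypotheses of `mainW`
-/

set_option autoImplicit false

namespace Pool.Agent.KTW

open Pool.Agent.KSE Pool.Agent.K3P Pool.Agent.KTP
open Pool.Agent.GPC (AbVar ClassY ClassX IsElementary)

theorem AllX_Ssh : St_Ssh := thm_Ssh KQ4.thm_Frm

theorem AllX_Gsf : St_Gsf := thm_Gsf KSV.thm_D4 KSV.thm_Ex3 KT.thm_KT

theorem AllX_Aby : St_Aby := thm_Aby (thm_Prj (thm_Spy thm_Spz) AllX_Ssh) thm_Spz thm_Sso thm_Ssl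
  AllX_Ssh

theorem AllX_Ab6 : St_Ab6 := thm_Ab6 (thm_Pry (thm_Spy thm_Spz) AllX_Ssh) thm_Spz thm_Sso thm_Ssl
  AllX_Ssh

theorem AllX_Evb : St_Evb := thm_Evb thm_Eva

theorem AllX_Cer : St_Cer := thm_Cer thm_Eva AllX_Evb thm_Del (thm_Cnb thm_Eva AllX_Evb) thm_Cna
  thm_Pol thm_Prd thm_Rlu

theorem AllX_Cmp : St_Cmp := thm_Cmp thm_Cmf thm_Del thm_Eva AllX_Evb

theorem AllX_Kh5 : St_Kh5 := by
  intro I _ _ A K _ _ c m S hg hAdm hI hHom n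
  exact thm_Kh5 KQ4.thm_Frm KQ4.thm_Qcq KQ4.thm_Rpa
    (KQ4.thm_Lq4 (KQ4.thm_Qlk KQ4.thm_Qcq) (KQ4.thm_Qhm (KQ4.thm_Qcl KQ4.thm_Qc1) KQ4.thm_Qav
      KQ4.thm_Qso) KQ4.thm_Qdr) KQ4.thm_Ln4 A S hg hAdm hI hHom n

theorem AllX_Ftx : St_Ftx := thm_Ftx (thm_Lkx (thm_Sla thm_Sle) thm_Ssl) thm_Flx (thm_Mdv thm_Eva)
  thm_Mdf (thm_Pmd thm_Eva thm_Del) thm_Hmf thm_Ssl

theorem AllX_Psy : St_Psy := thm_Psy (thm_Qcm thm_Css) (KQ4.thm_Qcl KQ4.thm_Qc1)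

theorem AllX_Dgy : St_Dgy :=
  thm_Dgy (thm_Ltx (thm_Lal (thm_Ncl (thm_Rfn thm_Frc KQ4.thm_Qcq) (thm_Rfc thm_Frc thm_Css KQ4.thm_Qcq)
    (thm_Czp thm_Css KQ4.thm_Qcq)) (thm_Czp thm_Css KQ4.thm_Qcq)) AllX_Psy
    (thm_Qhx KQ4.thm_Qav KQ4.thm_Qso) (thm_Czp thm_Css KQ4.thm_Qcq) thm_Hmf) AllX_Ftx
    (thm_Czp thm_Css KQ4.thm_Qcq) thm_Ssl KQ4.thm_Rpa KQ4.thm_Frm

theorem AllX_Asy : St_Asy := by
  intro I J _ _ _ _ A D K _ _ c m S hg hRC hD hq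
  exact thm_Asy thm_Syn thm_Rel AllX_Ab6 AllX_Aby thm_Rmu AllX_Gsf
    thm_Syd AllX_Dgy KTP.thm_Hod AllX_Cer (thm_Psk thm_Eva thm_Del) thm_Hym
    thm_Hyt thm_Klr A D S hg hRC hD hq

theorem AllX_Alw : St_Alw :=
  thm_Alw AllX_Asy thm_Trf thm_Ext thm_Enl (thm_Rqt thm_Qrm) AllX_Cmp thm_Bsp
    (thm_Cmo AllX_Cmp) (thm_Iqt thm_Qrm AllX_Cmp thm_Bsp)

theorem mainX {I J : Type} [Fintype I] [Fintype J] (A : I → AbVar) (hA : ∀ i, (A i).g ≠ 0)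
    (K : I → Type) [∀ i, Field (K i)] [∀ i, NumberField (K i)] (c : ∀ i, K i →+* K i) (m : I → ℕ)
    (S : ∀ i, (A i).KugaSatakeMul (K i) (c i) (m i)) (C : J → AbVar) (r n : ℕ) :
    (∀ {L : Type} [Fintype L] (D : L → AbVar), IsElementary D → (∀ j, (C j).IsQuotientOf D) →
      ((∀ i, (A i).IsQuotientOf D ∨ (S i).IsStandard D) →
        ∀ (k : I ⊕ J → ℕ) (p : ℕ) (F : ClassY K m (Sum.elim A C) r n k p),
          F.IsGr S → F.IsHodge S) ∧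
      ((∀ i, (S i).IsLargeR) →
        ∀ (l : J → ℕ) (p : ℕ) (F : ClassY K m C r n l p), F.IsGr S ↔ F.IsSum S)) ∧
    ((∀ i, (S i).IsLarge C) →
      ∀ (l : J → ℕ) (p : ℕ) (F : ClassY K m C r n l p), F.IsGr S ↔ F.IsSum S) ∧
    ((∀ i, (S i).IsAdmissible) → (Subsingleton I ∨ ∀ i, c i = RingHom.id (K i)) →
      (∀ (k : I → ℕ) (p : ℕ) (F : ClassY K m A r n k p), F.IsGr S → F.IsHodge S) ∧
      ((∀ i j, i ≠ j → ∀ f, (A i).IsMor (A j) f → ∀ v, f v = 0) →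
        ∀ F : ClassX K m r n, F.IsGr S ↔ F.IsGen c fun i => (S i).h)) :=
  mainW AllX_Aby thm_Rmu AllX_Gsf AllX_Alw thm_Klr AllX_Kh5 A hA K c m S C r n

end Pool.Agent.KTW
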