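import Pool.Agent.KTW.AllX

/-!
# KTW: one theorem on Grothendieck classes on products of K3 surfaces and abelian varieties
-/

set_option autoImplicit false

namespace Pool.Agent.KTW

open Pool.Agent.Helper7 Pool.Agent.K3P Pool.Agent.KTP Pool.Agent.KSE Pool.Agent.Helper28.GPC
open Pool.Agent.GPC (AbVar ClassY IsElementary)

/-- adding quotients -/
theorem AllY_trf {B I J : Type} [Fintype B] [DecidableEq B] [Fintype I] [DecidableEq I]
    [Fintype J] [DecidableEq J] (A : I → AbVar) (C : J → AbVar) (E : B → AbVar)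
    (hA : ∀ i, (A i).IsQuotientOf E) (hC : ∀ j, (C j).IsQuotientOf E) (h : Alz_K E) :
    Alz_K (Sum.elim A C) := by
  have h1 : Alz_K (Sum.elim E (Sum.elim A C)) := by
    refine thm_Trf B (B ⊕ (I ⊕ J)) Sum.inl
      (fun j => Fin (Sum.elim E (Sum.elim A C) j).g ⊕ Fin (Sum.elim E (Sum.elim A C) j).g) _
      (fun j => pData (Sum.elim E (Sum.elim A C) j))
      (fun j => (1 / 2 : ℂ) • 1 - hod (Sum.elim E (Sum.elim A C) j)) ?_ ?_ h
    · intro i j f hf v
      show (1 / 2 : ℂ) • f v - hod (Sum.elim E (Sum.elim A C) j) (f v) =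
        f ((1 / 2 : ℂ) • v - hod (Sum.elim E (Sum.elim A C) i) v)
      rw [map_sub, map_smul, hod_comm f hf]
    · have key : ∀ (X : AbVar), X.IsQuotientOf E →
          Submodule.span ℂ {v : Fin X.g ⊕ Fin X.g → ℂ | ∃ (i : B)
            (f : (Fin (E i).g ⊕ Fin (E i).g → ℂ) →ₗ[ℂ] (Fin X.g ⊕ Fin X.g → ℂ)),
            IsDRB (pData (E i)) (pData X) f ∧ ∃ u, v = f u} = ⊤ := by
        intro X hX
        rw [eq_top_iff]
        intro v _
        refine Submodule.span_mono ?_ (hX v)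
        rintro w ⟨i, f, u, hf, rfl⟩
        exact ⟨i, IsLinearMap.mk' f hf.linear, (isDRB_iff _ _ _).mpr ⟨hf.betti, hf.deRham⟩, u, rfl⟩
      rintro (j | j | j)
      · rw [eq_top_iff]
        intro v _
        exact Submodule.subset_span ⟨j, LinearMap.id,
          (isDRB_iff _ _ _).mpr ⟨fun v hv => hv, fun v hv => hv⟩, v, rfl⟩
      · exact key (A j) (hA j)
      · exact key (C j) (hC j)
  exact thm_Ext (I ⊕ J) (B ⊕ (I ⊕ J)) Sum.inr Sum.inr_injective
    (fun j => Fin (Sum.elim E (Sum.elim A C) j).g ⊕ Fin (Sum.elim E (Sum.elim A C) j).g) _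
    (fun j => pData (Sum.elim E (Sum.elim A C) j))
    (fun j => (1 / 2 : ℂ) • 1 - hod (Sum.elim E (Sum.elim A C) j)) h1

/-- a member of a family is a quotient -/
theorem AllY_mem {B : Type} (E : B → AbVar) (b : B) : (E b).IsQuotientOf E :=
  fun v => Submodule.subset_span ⟨b, id, v, ⟨⟨fun _ _ => rfl, fun _ _ => rfl⟩, fun _ h => h,
    fun _ h => h, fun _ h => h⟩, rfl⟩

theorem mainY {I J L : Type} [Fintype I] [Fintype J] [Fintype L] (A : I → AbVar)
    (hA : ∀ i, (A i).g ≠ 0) (K : I → Type) [∀ i, Field (K i)] [∀ i, NumberField (K i)]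
    (c : ∀ i, K i →+* K i) (m : I → ℕ) (S : ∀ i, (A i).KugaSatakeMul (K i) (c i) (m i))
    (D : L → AbVar) (hD : IsElementary D)
    (hS : (∀ i, (A i).IsQuotientOf D ∨ (S i).IsStandard D) ∨
      IsEmpty L ∧ Subsingleton I ∧ ∀ i, (S i).IsAdmissible)
    (C : J → AbVar) (hC : ∀ j, (C j).IsQuotientOf (Sum.elim A D)) (r n : ℕ) (k : I ⊕ J → ℕ)
    (p : ℕ) (F : ClassY K m (Sum.elim A C) r n k p) (hF : F.IsGr S) : F.IsHodge S := by
  classical
  have hAD : Alz_K (Sum.elim A D) := by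
    rcases hS with h | ⟨h1, h2, h3⟩
    · exact AllX_Alw A D D S hA hD (AllY_mem D) h
    · have h4 : Alz_K A := thm_Klz (thm_Dgm thm_Lnk thm_Fth thm_Rps) thm_Kil A S hA h3 (Or.inl h2)
      exact AllY_trf A D A (AllY_mem A) (fun l => isEmptyElim l) h4
  have hAC : Alz_K (Sum.elim A C) :=
    AllY_trf A C (Sum.elim A D) (fun i => AllY_mem (Sum.elim A D) (Sum.inl i)) hC hAD
  exact ⟨hF.1, fun a b v w hab hv hw => thm_Huq
    (thm_Htq (thm_Mxq (thm_Bet thm_Drb thm_Rtb)) thm_Hod thm_Hty) thm_Htu A C S hA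
    hAC r n k p F hF.1 hF.2 a b v w hab hv hw⟩

end Pool.Agent.KTW
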