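import Pool.Agent.KTW.StW

/-!
# KTW [Bmv]: basic classes are multilinear, rational and algebraic
-/

set_option autoImplicit false

namespace Pool.Agent.KTW

open Module Matrix NumberField Pool.Agent.Helper7 Pool.Agent.KS Pool.Agent.Ball Pool.Agent.KSE
  Pool.Agent.Helper28.GPC Pool.Agent.KSR Pool.Agent.K3P Pool.Agent.KTP
open Pool.Agent.GPC (AbVar TC IsRatT qf df HU IsBasicU Form IsBetti IsDeRham IsGrothendieck H1)

/-- A multilinear form in the second components of some slots times coordinates of the first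
components of the other slots is multilinear. -/
theorem Bmv_mul {W : Type} [AddCommGroup W] [Module ℂ W] {r n d l : ℕ}
    (ε : Fin d ⊕ Fin l ≃ Fin n) (a : Fin l → Fin r)
    (G₀ : MultilinearMap ℂ (fun _ : Fin d => W) ℂ) :
    ∃ G : MultilinearMap ℂ (fun _ : Fin n => (Fin r → ℂ) × W) ℂ,
      ∀ v, G v = G₀ (fun s => (v (ε (.inl s))).2) * ∏ b, (v (ε (.inr b))).1 (a b) := by
  let G1 : MultilinearMap ℂ (fun _ : Fin d => (Fin r → ℂ) × W) ℂ :=
    G₀.compLinearMap fun _ => LinearMap.snd ℂ (Fin r → ℂ) W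
  let G2 : MultilinearMap ℂ (fun _ : Fin l => (Fin r → ℂ) × W) ℂ :=
    (MultilinearMap.mkPiAlgebra ℂ (Fin l) ℂ).compLinearMap
      fun b => (LinearMap.proj (a b)).comp (LinearMap.fst ℂ (Fin r → ℂ) W)
  refine ⟨((LinearMap.mul' ℂ ℂ).compMultilinearMap (G1.domCoprod G2)).domDomCongr ε,
    fun v => ?_⟩
  rfl

theorem thm_Bmv (hMlt : St_Mlt) (hRev : St_Rev) (hRvd : St_Rvd) : St_Bmv := by
  intro I _ _ A K _ _ c m S hg r n ω hω
  have hκ : ∀ i, Nonempty (Fin (A i).g ⊕ Fin (A i).g) :=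
    fun i => ⟨Sum.inl ⟨0, Nat.pos_of_ne_zero (hg i)⟩⟩
  have hnd : ∀ i, (S i).h.det ≠ 0 := by
    intro i
    obtain ⟨σ₀, x, hx, -, -⟩ := (S i).hodge
    exact k3_nd (S i).conjugation (S i).hermitian hx
  have MM := fun i => mde (A i) (S i) (hnd i)
  have hq := fun i => hRev _ _ (pData (A i)) (K i) (c i) (m i) (S i).h (lt (A i) (S i)) (MM i)
  have hd := fun i => hRvd _ _ (pData (A i)) (K i) (c i) (m i) (S i).h (lt (A i) (S i)) (MM i)
  obtain ⟨l, l₁, l₂, i, j', a, z, z₁, e, hl, hj⟩ := hω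
  refine ⟨?_, ?_, ?_⟩
  · let f := Fintype.equivFin ((Fin l × Fin 2) ⊕ (Σ b : Fin l₁, Fin (m (j' b))))
    obtain ⟨⟨G₀, hG₀⟩, -⟩ := hMlt I K c m (fun i => (S i).h) _ (fun i => (S i).conjugation)
      (fun y => (∏ b, qz (S (i b)).h (z b) (y (f (.inl (b, 0))) (i b))
        (y (f (.inl (b, 1))) (i b))) *
          ∏ b, df (z₁ b) fun k => y (f (.inr ⟨b, k⟩)) (j' b))
      ⟨l, l₁, i, j', z, z₁, f, hl, fun _ => rfl⟩
    obtain ⟨G, hG⟩ := Bmv_mul ((f.symm.sumCongr (Equiv.refl (Fin l₂))).trans e) a G₀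
    refine ⟨G, fun v => ?_⟩
    rw [hj, hG, ← hG₀]
    simp only [asm_qz, Equiv.trans_apply, Equiv.sumCongr_apply, Sum.map_inl, Sum.map_inr,
      Equiv.symm_apply_apply, Equiv.refl_apply]
  · intro v hv
    rw [hj]
    choose y hy using fun s i => asm_rat ((v s).2 i) ((hv s).2 i)
    obtain ⟨a1, ha1⟩ := asm_rat_prod Finset.univ (fun b => qf (S (i b)).h (z b)
      ((v (e (.inl (.inl (b, 0))))).2 (i b)) ((v (e (.inl (.inl (b, 1))))).2 (i b)))
      (fun b _ => by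
        rw [hy, hy, ← asm_qz]; exact (hq (i b)).1 _ _ _)
    obtain ⟨a2, ha2⟩ := asm_rat_prod Finset.univ (fun b => df (z₁ b) fun k =>
      (v (e (.inl (.inr ⟨b, k⟩)))).2 (j' b)) (fun b _ => by
        simp only [hy]; exact (hd (j' b)).1 _ _)
    obtain ⟨a3, ha3⟩ := asm_rat_prod Finset.univ (fun b => (v (e (.inr b))).1 (a b))
      (fun b _ => (hv _).1 _)
    rw [ha1, ha2, ha3]
    exact ⟨a1 * a2 * a3, by push_cast; ring⟩
  · intro v hv
    rw [hj]
    refine ((asm_alg_prod _ _ fun b _ => ?_).mul (asm_alg_prod _ _ fun b _ => ?_)).mul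
      (asm_alg_prod _ _ fun b _ => (hv _).1 _)
    · rw [← asm_qz]
      exact (hq (i b)).2 _ _ _ ((asm_dr (S (i b)) _).mp ((hv _).2 _))
        ((asm_dr (S (i b)) _).mp ((hv _).2 _))
    · exact (hd (j' b)).2 (hl b) _ _ fun k => (asm_dr (S (j' b)) _).mp ((hv _).2 _)

end Pool.Agent.KTW
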