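import Pool.Agent.KTW.StU
import Pool.Agent.KTW.Kln
import Pool.Agent.KTP.Hod

/-!
# KTW [Ceu]: the Hodge projectors kill all Grothendieck forms on the products (helper43)
-/

set_option autoImplicit false
set_option linter.unusedSectionVars false

namespace Pool.Agent.KTW

open Module Matrix NumberField Pool.Agent.Helper7 Pool.Agent.KS Pool.Agent.Ball Pool.Agent.KSE
  Pool.Agent.Helper28.GPC Pool.Agent.K3P Pool.Agent.KTP
open Pool.Agent.GPC (AbVar)

section

variable {I J : Type} [Fintype I] [DecidableEq I] [Fintype J] [DecidableEq J]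
    {ε : I → J} {κ : J → Type}
    [∀ j, Fintype (κ j)] [∀ j, DecidableEq (κ j)] {ϖ : ℂ} (hϖ : ϖ ≠ 0) (P : ∀ j, PData (κ j) ϖ)
    {K : I → Type} [∀ i, Field (K i)] [∀ i, NumberField (K i)] {c : ∀ i, K i →+* K i} {m : I → ℕ}
    {h : ∀ i, Matrix (Fin (m i)) (Fin (m i)) (K i)}
    {t : ∀ i, Fin (m i) → K i → Module.End ℂ (κ (ε i) → ℂ)}
    (S : ∀ i, MD (P (ε i)) (c i) (h i) (t i))

include hϖ S in
/-- the comparison operators without multiplier are in the Lie algebra of the structure -/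
private theorem Ceu_N (i : I) (D : Derivation ℚ ℂ ℂ) :
    (P (ε i)).N D - (D ϖ / ϖ / 2) • 1 ∈ bvS (t i) := by
  classical
  obtain ⟨n', k', γ, hγB, hγA, hγ1, hγ2⟩ := KSW.exists_gam_allE P S (fun _ => 1)
    (k := 1) one_pos (0 : MultilinearMap ℂ (fun _ : Fin (2 * 1) => HW κ (fun _ : J => 1)) ℂ)
    (fun v _ => ⟨0, by
      rw [_root_.zero_apply, Rat.cast_zero, mul_zero]⟩)
    (fun v _ => by
      rw [_root_.zero_apply]
      exact isAlgebraic_zero)
  obtain ⟨X, hXd⟩ : ∃ X : GG κ, X = (fun j => (P j).N D, D ϖ / ϖ) + (-(D ϖ / ϖ / 2)) • (1, 2) :=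
    ⟨_, rfl⟩
  have hX : IsInv n' P γ X := by
    rw [hXd]
    exact (isInv_N n' P γ hϖ hγB hγA D).add _ _ _ ((Kln_id n' P γ).smul _ _ _ _)
  have hX2 : X.2 = 0 := by
    rw [hXd]
    show D ϖ / ϖ + -(D ϖ / ϖ / 2) * 2 = 0
    ring
  have hX1 : X.1 (ε i) = (P (ε i)).N D - (D ϖ / ϖ / 2) • 1 := by
    rw [hXd]
    refine LinearMap.ext fun v => ?_
    show (P (ε i)).N D v + (-(D ϖ / ϖ / 2)) • v = (P (ε i)).N D v - (D ϖ / ϖ / 2) • v
    rw [neg_smul, sub_eq_add_neg]
  obtain ⟨M, hM⟩ := (hγ1 X hX).2 i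
  rw [← hX1]
  exact mem_bvE n' P (ε i) (S i) γ X hX hX2 M hM

end

/-- **CEU** -/
theorem thm_Ceu (hCen : St_Cen) (hPsk : St_Psk) : St_Ceu := by
  intro I J _ _ _ _ A C K _ _ c m S hg hc hm hcen hkC hkS n
  have hϖ := Complex.two_pi_I_ne_zero
  choose σ₀ x hx hx1 hx2 using fun i => (S i).hodge
  have hnd := fun i => k3_nd (S i).conjugation (S i).hermitian (hx i)
  have M := fun i => mde (A i) (S i) (hnd i)
  have hκ : ∀ i, Nonempty (Fin (A i).g ⊕ Fin (A i).g) := fun i =>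
    ⟨Sum.inl ⟨0, Nat.pos_of_ne_zero (hg i)⟩⟩
  have hcm : ∀ i (σ : K i →+* ℂ), cj σ ≠ σ := by
    intro i σ hσ
    apply hc i
    ext y
    apply σ.injective
    rw [RingHom.id_apply, ← (S i).conjugation]
    exact congrArg (fun τ : K i →+* ℂ => τ y) hσ
  have hZ1 : ∀ i, (1 / 2 : ℂ) • (1 : Module.End ℂ (A i).H1) - hod (A i) ∈ bvS (lt (A i) (S i)) := by
    intro i
    obtain ⟨Z, hZ, -, -, -, h1, -⟩ := KTP.thm_Hod (A i) (K i) (c i) (m i) (S i) (hg i)
    have h2 : (1 / 2 : ℂ) • (1 : Module.End ℂ (A i).H1) - hod (A i) = Z := by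
      rw [sub_eq_add_neg, h1]
      module
    rw [h2]
    exact hZ
  have hZ2 : ∀ (B : AbVar) (u v : B.H1),
      (pData B).ψ (((1 / 2 : ℂ) • (1 : Module.End ℂ B.H1) - hod B) u) v +
        (pData B).ψ u (((1 / 2 : ℂ) • (1 : Module.End ℂ B.H1) - hod B) v) = 0 := by
    intro B u v
    have h1 : ∀ w : B.H1, ((1 / 2 : ℂ) • (1 : Module.End ℂ B.H1) - hod B) w =
        (1 / 2 : ℂ) • w - hod B w := fun w => rfl
    rw [h1, h1, map_sub, map_sub, map_smul, map_smul, LinearMap.sub_apply, LinearMap.smul_apply,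
      ← psi_hod B u v, smul_eq_mul]
    ring
  have hZ3 : ∀ (B B' : AbVar) (f : B.H1 →ₗ[ℂ] B'.H1), IsDRB (pData B) (pData B') f →
      ∀ v, ((1 / 2 : ℂ) • (1 : Module.End ℂ B'.H1) - hod B') (f v) =
        f (((1 / 2 : ℂ) • (1 : Module.End ℂ B.H1) - hod B) v) := by
    intro B B' f hf v
    show (1 / 2 : ℂ) • f v - hod B' (f v) = f ((1 / 2 : ℂ) • v - hod B v)
    rw [map_sub, map_smul, hod_comm f hf]
  have F : FamU (κ := fun j => Fin (Sum.elim A C j).g ⊕ Fin (Sum.elim A C j).g) Sum.inl Sum.inr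
      (fun j => pData (Sum.elim A C j)) c (fun i => (S i).h) (fun i => lt (A i) (S i))
      (fun j => (1 / 2 : ℂ) • 1 - hod (Sum.elim A C j)) :=
    { pi := hϖ
      inj := Sum.inl_injective
      binj := Sum.inr_injective
      cpl := by
        intro j
        rcases j with j | j
        · exact ⟨fun _ ⟨i, hi⟩ => Sum.inl_ne_inr hi.symm, fun _ => ⟨j, rfl⟩⟩
        · exact ⟨fun ⟨i, hi⟩ _ => Sum.inl_ne_inr hi, fun h => absurd ⟨j, rfl⟩ h⟩
      S := M
      cm := hcm
      ne := hκ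
      m0 := hm
      N := fun i D => Ceu_N (ε := Sum.inl) (t := fun i => lt (A i) (S i)) hϖ
        (fun j => pData (Sum.elim A C j)) M i D
      sk := fun i Y z hY => hPsk (A i) (K i) (c i) (m i) (S i).h (lt (A i) (S i)) (M i) (hcm i) Y
        z hY
      Z1 := hZ1
      Z2 := fun i => hZ2 (A i)
      Z3 := fun i j f hf v => hZ3 (Sum.elim A C i) (Sum.elim A C j) f hf v
      cen := by
        intro i v hv
        have h1 : ∀ σ : K i →+* ℂ, (∀ a, (S i).e σ a v = 0) ∨
            ∀ a, (S i).e (ComplexEmbedding.conjugate σ) a v = 0 := by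
          intro σ
          rcases hv σ with h2 | h2
          · refine Or.inl fun a => ?_
            have h3 : (le (A i) (S i) σ a) v = 0 := by
              rw [← ts_lt]
              exact h2 a
            exact h3
          · refine Or.inr fun a => ?_
            have h3 : (le (A i) (S i) (cj σ) a) v = 0 := by
              rw [← ts_lt]
              exact h2 a
            exact h3
        have h2 := hcen i v h1
        refine Submodule.span_mono ?_ h2
        rintro w ⟨j, f, u, hf, hw⟩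
        refine ⟨j, hf.linear.mk' f, ?_, u, hw⟩
        exact (isDRB_iff (C j) (A i) _).mpr ⟨hf.betti, hf.deRham⟩
      kilS := hkS
      kilC := hkC }
  exact hCen I J (I ⊕ J) Sum.inl Sum.inr
    (fun j => Fin (Sum.elim A C j).g ⊕ Fin (Sum.elim A C j).g) _ _ K c m _ _ _ F n

end Pool.Agent.KTW
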