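import Pool.Agent.KTW.StT

/-!
# KTW / CZP: properties of the coordinates, real and complex case (module by helper18)
-/

set_option autoImplicit false

namespace Pool.Agent.KTW

open Module Matrix NumberField Pool.Agent.Helper7 Pool.Agent.KS Pool.Agent.Ball Pool.Agent.KSE
  Pool.Agent.Helper28.GPC Pool.Agent.K3P Pool.Agent.KTP
open Pool.Agent.KQ4 (en cq cf QP)

namespace Czpx

theorem cz_two {m : ℕ} (hm : m = 2) (ε : ℂ) (B M : Matrix (Fin m) (Fin m) ℂ) :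
    cz ε B M = cs (B⁻¹ * M * B) := if_pos hm

theorem cz_ne {m : ℕ} (hm : m ≠ 2) (ε : ℂ) (B M : Matrix (Fin m) (Fin m) ℂ) :
    cz ε B M = cq ε (B⁻¹ * M * B) := if_neg hm

theorem con_add {m : ℕ} (B M M' : Matrix (Fin m) (Fin m) ℂ) :
    B⁻¹ * (M + M') * B = B⁻¹ * M * B + B⁻¹ * M' * B := by
  rw [mul_add, add_mul]

theorem con_smul {m : ℕ} (B M : Matrix (Fin m) (Fin m) ℂ) (r : ℂ) :
    B⁻¹ * (r • M) * B = r • (B⁻¹ * M * B) := by
  rw [mul_smul_comm, smul_mul_assoc]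

theorem con_mul {m : ℕ} {B : Matrix (Fin m) (Fin m) ℂ} (hB : IsUnit B.det)
    (M M' : Matrix (Fin m) (Fin m) ℂ) :
    B⁻¹ * (M * M') * B = (B⁻¹ * M * B) * (B⁻¹ * M' * B) := by
  have h1 : B * B⁻¹ = 1 := mul_nonsing_inv B hB
  calc B⁻¹ * (M * M') * B = B⁻¹ * M * 1 * M' * B := by
        rw [mul_one]
        simp only [mul_assoc]
    _ = B⁻¹ * M * (B * B⁻¹) * M' * B := by rw [h1]
    _ = (B⁻¹ * M * B) * (B⁻¹ * M' * B) := by simp only [mul_assoc]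

theorem con_br {m : ℕ} {B : Matrix (Fin m) (Fin m) ℂ} (hB : IsUnit B.det)
    (M M' : Matrix (Fin m) (Fin m) ℂ) :
    B⁻¹ * (M * M' - M' * M) * B =
      (B⁻¹ * M * B) * (B⁻¹ * M' * B) - (B⁻¹ * M' * B) * (B⁻¹ * M * B) := by
  rw [mul_sub, sub_mul, con_mul hB, con_mul hB]

/-- the inverse conjugation -/
theorem con_inv {m : ℕ} {B : Matrix (Fin m) (Fin m) ℂ} (hB : IsUnit B.det)
    (A : Matrix (Fin m) (Fin m) ℂ) : B⁻¹ * (B * A * B⁻¹) * B = A := by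
  have h2 : B⁻¹ * B = 1 := nonsing_inv_mul B hB
  calc B⁻¹ * (B * A * B⁻¹) * B = (B⁻¹ * B) * A * (B⁻¹ * B) := by simp only [mul_assoc]
    _ = A := by rw [h2, one_mul, mul_one]

theorem con_inv' {m : ℕ} {B : Matrix (Fin m) (Fin m) ℂ} (hB : IsUnit B.det)
    (M : Matrix (Fin m) (Fin m) ℂ) : B * (B⁻¹ * M * B) * B⁻¹ = M := by
  have h1 : B * B⁻¹ = 1 := mul_nonsing_inv B hB
  calc B * (B⁻¹ * M * B) * B⁻¹ = (B * B⁻¹) * M * (B * B⁻¹) := by simp only [mul_assoc]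
    _ = M := by rw [h1, one_mul, mul_one]

theorem map_inv {m : ℕ} {B : Matrix (Fin m) (Fin m) ℂ} (hB : IsUnit B.det) (τ : ℂ ≃+* ℂ) :
    (B.map τ)⁻¹ = (B⁻¹).map τ := by
  apply Matrix.inv_eq_right_inv
  have h1 : B * B⁻¹ = 1 := mul_nonsing_inv B hB
  have h2 : (B * B⁻¹).map (τ : ℂ →+* ℂ) = B.map (τ : ℂ →+* ℂ) * (B⁻¹).map (τ : ℂ →+* ℂ) :=
    Matrix.map_mul
  rw [h1] at h2
  have h3 : (1 : Matrix (Fin m) (Fin m) ℂ).map (τ : ℂ →+* ℂ) = 1 :=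
    Matrix.map_one _ (map_zero _) (map_one _)
  rw [h3] at h2
  exact h2.symm

theorem map_con {m : ℕ} {B : Matrix (Fin m) (Fin m) ℂ} (hB : IsUnit B.det)
    (M : Matrix (Fin m) (Fin m) ℂ) (τ : ℂ ≃+* ℂ) :
    (B.map τ)⁻¹ * M.map τ * B.map τ = (B⁻¹ * M * B).map τ := by
  rw [map_inv hB]
  have h1 : (B⁻¹ * M * B).map (τ : ℂ →+* ℂ) =
      (B⁻¹ * M).map (τ : ℂ →+* ℂ) * B.map (τ : ℂ →+* ℂ) := Matrix.map_mul
  have h2 : (B⁻¹ * M).map (τ : ℂ →+* ℂ) = (B⁻¹).map (τ : ℂ →+* ℂ) * M.map (τ : ℂ →+* ℂ) :=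
    Matrix.map_mul
  rw [h2] at h1
  exact h1.symm

theorem map_det_unit {m : ℕ} {B : Matrix (Fin m) (Fin m) ℂ} (hB : IsUnit B.det) (τ : ℂ ≃+* ℂ) :
    IsUnit (B.map τ).det := by
  have h1 : (B.map τ).det = τ B.det := (RingHom.map_det (τ : ℂ →+* ℂ) B).symm
  rw [h1]
  exact hB.map (τ : ℂ →+* ℂ)

theorem en_map {m : ℕ} (A : Matrix (Fin m) (Fin m) ℂ) (τ : ℂ ≃+* ℂ) (a b : ℕ) :
    en (A.map τ) a b = τ (en A a b) := by
  unfold en
  split_ifs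
  · rfl
  · exact (map_zero τ).symm

theorem cq_map {m : ℕ} {ε : ℂ} (hε : ε = 1 ∨ ε = -1) (A : Matrix (Fin m) (Fin m) ℂ)
    (τ : ℂ ≃+* ℂ) : cq ε (A.map τ) = 0 ↔ cq ε A = 0 := by
  have hτ : τ ε = ε := by
    rcases hε with rfl | rfl
    · exact map_one τ
    · rw [map_neg, map_one]
  have key : cq ε (A.map τ) = fun k => τ (cq ε A k) := by
    funext k
    unfold cq
    simp only [en_map]
    fin_cases k
    · change τ (en A 2 1) + ε * τ (en A 0 3) = τ (en A 2 1 + ε * en A 0 3)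
      rw [map_add, map_mul, hτ]
    · change τ (en A 0 2) + ε * τ (en A 1 3) = τ (en A 0 2 + ε * en A 1 3)
      rw [map_add, map_mul, hτ]
    · change τ (en A 1 0) + ε * τ (en A 2 3) = τ (en A 1 0 + ε * en A 2 3)
      rw [map_add, map_mul, hτ]
  rw [key]
  constructor
  · intro h
    funext k
    have h1 : τ (cq ε A k) = 0 := congrFun h k
    exact (map_eq_zero_iff τ τ.injective).1 h1
  · intro h
    funext k
    rw [h]
    exact map_zero τ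

section re

variable {K : Type} [Field K] [NumberField K] {c : K →+* K} {m : ℕ}
  {h : Matrix (Fin m) (Fin m) K}

theorem hsym (hc : ∀ (σ : K →+* ℂ) x, cj σ x = σ (c x)) (hh : ∀ a b, c (h a b) = h b a)
    {σ : K →+* ℂ} (hσ : cj σ = σ) : (h.map σ)ᵀ = h.map σ := by
  ext i j
  change σ (h j i) = σ (h i j)
  have h1 := hc σ (h i j)
  rw [hσ, hh] at h1
  exact h1.symm

theorem inv_eq {σ : K →+* ℂ} {B : Matrix (Fin m) (Fin m) ℂ} (hB : Bᵀ * h.map σ * B = 1) :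
    B⁻¹ = Bᵀ * h.map σ := Matrix.inv_eq_left_inv hB

theorem skw (hc : ∀ (σ : K →+* ℂ) x, cj σ x = σ (c x)) (hh : ∀ a b, c (h a b) = h b a)
    {σ : K →+* ℂ} (hσ : cj σ = σ) {B : Matrix (Fin m) (Fin m) ℂ} (hB : Bᵀ * h.map σ * B = 1)
    {M : Matrix (Fin m) (Fin m) ℂ} (hM : IsSkw h σ M) : (B⁻¹ * M * B)ᵀ = -(B⁻¹ * M * B) := by
  have h1 : Mᵀ * h.map σ + h.map σ * M = 0 := hM hσ
  have h2 : Mᵀ * h.map σ = -(h.map σ * M) := eq_neg_of_add_eq_zero_left h1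
  rw [inv_eq hB, transpose_mul, transpose_mul, transpose_mul, transpose_transpose, hsym hc hh hσ]
  calc Bᵀ * (Mᵀ * (h.map σ * B)) = Bᵀ * (Mᵀ * h.map σ) * B := by simp only [mul_assoc]
    _ = Bᵀ * (-(h.map σ * M)) * B := by rw [h2]
    _ = -(Bᵀ * h.map σ * M * B) := by
        rw [mul_neg, neg_mul]
        simp only [mul_assoc]

theorem skw_inv (hc : ∀ (σ : K →+* ℂ) x, cj σ x = σ (c x)) (hh : ∀ a b, c (h a b) = h b a)
    {σ : K →+* ℂ} (hσ : cj σ = σ) {B : Matrix (Fin m) (Fin m) ℂ} (hB : Bᵀ * h.map σ * B = 1)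
    {A : Matrix (Fin m) (Fin m) ℂ} (hA : Aᵀ = -A) : B * A * B⁻¹ ∈ Lg h σ := by
  have h1 : Lg h σ = SO (h.map σ) := if_pos hσ
  rw [h1]
  change (B * A * B⁻¹)ᵀ * h.map σ + h.map σ * (B * A * B⁻¹) = 0
  rw [inv_eq hB, transpose_mul, transpose_mul, transpose_mul, transpose_transpose,
    hsym hc hh hσ, hA]
  have h2 : h.map σ * B * (-A * Bᵀ) * h.map σ = -(h.map σ * (B * A * (Bᵀ * h.map σ))) := by
    rw [neg_mul, mul_neg, neg_mul]
    simp only [mul_assoc]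
  rw [h2, neg_add_cancel]

end re

theorem trz_con {m : ℕ} {B : Matrix (Fin m) (Fin m) ℂ} (hB : IsUnit B.det)
    {M : Matrix (Fin m) (Fin m) ℂ} (h : trz (B⁻¹ * M * B) = 0) : trz M = 0 := by
  have h1 : B * B⁻¹ = 1 := mul_nonsing_inv B hB
  have htr : (B⁻¹ * M * B).trace = M.trace := by
    rw [Matrix.trace_mul_comm, ← mul_assoc, h1, one_mul]
  unfold trz at h ⊢
  rw [htr, sub_eq_zero] at h
  have h2 := con_inv' hB M
  rw [h, mul_smul_comm, mul_one, smul_mul_assoc, h1] at h2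
  rw [← h2]
  rw [h2, sub_eq_zero]
  exact h2.symm

end Czpx

open Czpx in
theorem thm_Czp (hCss : St_Css) (hQcq : KQ4.St_Qcq) : St_Czp := by
  intro K _ _ c m h σ₀ hc hh hnd hQ ε hε σ B hB
  obtain ⟨hBu, hBf⟩ := hB
  have hee : ∀ {e : ℂ}, (e = 1 ∨ e = -1) → e * e = 1 := by
    rintro e (rfl | rfl) <;> norm_num
  rcases hQ with ⟨hR, hm⟩ | ⟨hC, hm⟩
  · have hm2 : m ≠ 2 := by
      rcases hm with h | h <;> omega
    have hre : ∀ σ : K →+* ℂ, cj σ = σ := hR.1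
    have hBσ := hBf (hre σ)
    obtain ⟨q1, q2, q3, q4, q5⟩ := hQcq m hm ε (hee hε)
    refine ⟨fun M M' => ?_, fun r M => ?_, fun M M' hM hM' => ?_, fun x => ?_,
      fun M hM h0 h0' => ?_, fun τ => ⟨⟨map_det_unit hBu τ, fun _ => ?_⟩, fun M => ?_⟩⟩
    · rw [cz_ne hm2, cz_ne hm2, cz_ne hm2, con_add, q1]
    · rw [cz_ne hm2, cz_ne hm2, con_smul, q2]
    · rw [cz_ne hm2, cz_ne hm2, cz_ne hm2, con_br hBu]
      exact q3 _ _ (skw hc hh (hre σ) hBσ hM) (skw hc hh (hre σ) hBσ hM')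
    · obtain ⟨A, hA, hx, hx'⟩ := q4 x
      refine ⟨B * A * B⁻¹, skw_inv hc hh (hre σ) hBσ hA, ?_, fun h4 => ?_⟩
      · rw [cz_ne hm2, con_inv hBu, hx]
      · rw [cz_ne hm2, con_inv hBu, hx' h4]
    · rw [cz_ne hm2] at h0
      have hA := q5 _ (skw hc hh (hre σ) hBσ hM) h0 (fun h4 => by
        have h5 := h0' h4
        rw [cz_ne hm2] at h5
        exact h5)
      have h6 := con_inv' hBu M
      rw [hA, mul_zero, zero_mul] at h6
      rw [← h6]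
      unfold trz
      rw [Matrix.trace_zero, zero_div, zero_smul, sub_zero]
    · have h7 : (Bᵀ * h.map σ * B).map (τ : ℂ →+* ℂ) =
          (Bᵀ).map (τ : ℂ →+* ℂ) * (h.map σ).map (τ : ℂ →+* ℂ) * B.map (τ : ℂ →+* ℂ) := by
        rw [Matrix.map_mul, Matrix.map_mul]
      rw [hBσ] at h7
      have h8 : (1 : Matrix (Fin m) (Fin m) ℂ).map (τ : ℂ →+* ℂ) = 1 :=
        Matrix.map_one _ (map_zero _) (map_one _)
      rw [h8] at h7
      exact h7.symm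
    · rw [cz_ne hm2, cz_ne hm2, map_con hBu]
      exact cq_map hε _ τ
  · have hco : ∀ σ : K →+* ℂ, cj σ ≠ σ := hC.1
    obtain ⟨q1, q2, q3, q4, q5, q6⟩ := hCss m hm
    refine ⟨fun M M' => ?_, fun r M => ?_, fun M M' hM hM' => ?_, fun x => ?_,
      fun M hM h0 h0' => ?_, fun τ => ⟨⟨map_det_unit hBu τ, fun hh' => absurd hh' (hco _)⟩,
        fun M => ?_⟩⟩
    · rw [cz_two hm, cz_two hm, cz_two hm, con_add, q1]
    · rw [cz_two hm, cz_two hm, con_smul, q2]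
    · rw [cz_two hm, cz_two hm, cz_two hm, con_br hBu, q3]
    · obtain ⟨A, hA, hx⟩ := q4 x
      refine ⟨B * A * B⁻¹, ?_, ?_, fun h4 => by omega⟩
      · have h1 : Lg h σ = SL m := if_neg (hco σ)
        rw [h1]
        change (B * A * B⁻¹).trace = 0
        have hA' : A.trace = 0 := hA
        rw [Matrix.trace_mul_comm, ← mul_assoc, nonsing_inv_mul B hBu, one_mul, hA']
      · rw [cz_two hm, con_inv hBu, hx]
    · rw [cz_two hm] at h0
      exact trz_con hBu ((q5 _).1 h0)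
    · rw [cz_two hm, cz_two hm, map_con hBu]
      exact q6 τ _

end Pool.Agent.KTW
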