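import Pool.Agent.KTW.StX
import Pool.Agent.KTW.Aby
import Pool.Agent.KSE.HMainC

/-!
# KTW [Dgx]: the part of trace zero of `Z` comes from a symmetry
-/

set_option autoImplicit false
set_option linter.unusedSectionVars false

namespace Pool.Agent.KTW

open Module Matrix NumberField Pool.Agent.Helper7 Pool.Agent.KS Pool.Agent.Ball Pool.Agent.KSE
  Pool.Agent.Helper28.GPC Pool.Agent.K3P Pool.Agent.KTP
open Pool.Agent.GPC (AbVar IsElementary)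

namespace Dgxx

/-- all skew families of trace zero (steps (1), (2) of `KSE.skew_memC`) -/
theorem skewT_mem {K : Type} [Field K] [NumberField K] {c : K →+* K} {m : ℕ}
    {h : Matrix (Fin m) (Fin m) K}
    (hconj : ∀ (σ : K →+* ℂ) (x : K), cj σ x = σ (c x)) (hcm : ∀ σ : K →+* ℂ, cj σ ≠ σ)
    (hnd : h.det ≠ 0)
    (H : Set ((K →+* ℂ) → Matrix (Fin m) (Fin m) ℂ)) (h0 : 0 ∈ H)
    (hadd : ∀ M ∈ H, ∀ N ∈ H, M + N ∈ H) (hsmul : ∀ (r : ℂ), ∀ M ∈ H, r • M ∈ H)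
    (hskew : ∀ M ∈ H, SkewM h M) (htw : ∀ M ∈ H, ∀ τ : ℂ ≃+* ℂ, twM τ M ∈ H) (σ₀ : K →+* ℂ)
    (hcore : ∀ Z : Matrix (Fin m) (Fin m) ℂ, Z.trace = 0 →
      ∃ M ∈ H, M σ₀ = Z ∧ ∀ σ, σ ≠ σ₀ → σ ≠ cj σ₀ → M σ = 0)
    (M : (K →+* ℂ) → Matrix (Fin m) (Fin m) ℂ) (hM : SkewM h M) (hMt : ∀ σ, (M σ).trace = 0) :
    M ∈ H := by
  classical
  let HS : Submodule ℂ ((K →+* ℂ) → Matrix (Fin m) (Fin m) ℂ) :=
    { carrier := H
      zero_mem' := h0
      add_mem' := fun {a b} ha hb => hadd a ha b hb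
      smul_mem' := fun r a ha => hsmul r a ha }
  have hHS : ∀ N, N ∈ HS ↔ N ∈ H := fun N => Iff.rfl
  have step1 : ∀ (σ₁ : K →+* ℂ) (Z : Matrix (Fin m) (Fin m) ℂ), Z.trace = 0 →
      ∃ N ∈ H, N σ₁ = Z ∧ ∀ σ, σ ≠ σ₁ → σ ≠ cj σ₁ → N σ = 0 := by
    intro σ₁ Z hZ
    obtain ⟨τ, hτ⟩ := Pool.Agent.Helper84.exists_aut σ₀ σ₁
    have hτx : ∀ x, τ (σ₀ x) = σ₁ x := fun x => RingHom.congr_fun hτ x
    obtain ⟨M₀, hM₀, h1, h2⟩ := hcore (Z.map τ.symm) (by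
      have : (Z.map τ.symm).trace = τ.symm Z.trace := by
        simp [Matrix.trace]
      rw [this, hZ, map_zero])
    refine ⟨twM τ M₀, htw M₀ hM₀ τ, ?_, ?_⟩
    · have e : (τ.symm : ℂ →+* ℂ).comp σ₁ = σ₀ := by
        ext x
        show τ.symm (σ₁ x) = σ₀ x
        rw [← hτx, RingEquiv.symm_apply_apply]
      show (M₀ ((τ.symm : ℂ →+* ℂ).comp σ₁)).map τ = Z
      rw [e, h1]
      ext a b
      simp
    · intro σ hσ1 hσ2
      show (M₀ ((τ.symm : ℂ →+* ℂ).comp σ)).map τ = 0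
      rw [h2]
      · ext a b
        simp
      · intro e
        apply hσ1
        ext x
        have h3 : τ.symm (σ x) = σ₀ x := RingHom.congr_fun e x
        rw [← hτx, ← h3, RingEquiv.apply_symm_apply]
      · intro e
        apply hσ2
        ext x
        have h3 : τ.symm (σ x) = cj σ₀ x := RingHom.congr_fun e x
        rw [hconj] at h3
        rw [hconj, ← hτx, ← h3, RingEquiv.apply_symm_apply]
  choose N hNH hN1 hN2 using fun σ₁ : K →+* ℂ => step1 σ₁ (M σ₁) (hMt σ₁)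
  have h1 : ∑ σ₁, N σ₁ ∈ HS := Submodule.sum_mem _ fun σ₁ _ => (hHS _).2 (hNH σ₁)
  have h2 : ∑ σ₁, N σ₁ = (2 : ℂ) • M := by
    funext σ
    rw [Finset.sum_apply, Pi.smul_apply]
    have hne : cj σ ≠ σ := hcm σ
    have h3 : ∀ σ₁, N σ₁ σ = (if σ₁ = σ then M σ else 0) + (if σ₁ = cj σ then M σ else 0) := by
      intro σ₁
      by_cases e1 : σ₁ = σ
      · subst e1
        rw [if_pos rfl, if_neg (fun e => hne e.symm), add_zero, hN1]
      · by_cases e2 : σ₁ = cj σ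
        · rw [if_neg e1, if_pos e2, zero_add]
          have e3 : σ = cj σ₁ := by rw [e2, HMainC.cjcj]
          have h4 := HMainC.dual_eq hnd (hskew _ (hNH σ₁)) hM (hN1 σ₁)
          rw [← e3] at h4
          exact h4
        · rw [if_neg e1, if_neg e2, add_zero]
          apply hN2 σ₁ σ (fun e => e1 e.symm)
          intro e
          apply e2
          rw [e, HMainC.cjcj]
    rw [Finset.sum_congr rfl fun σ₁ _ => h3 σ₁, Finset.sum_add_distrib, Finset.sum_ite_eq',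
      Finset.sum_ite_eq', if_pos (Finset.mem_univ _), if_pos (Finset.mem_univ _), two_smul]
  have h3 : M = (1 / 2 : ℂ) • ∑ σ₁, N σ₁ := by
    rw [h2, smul_smul]
    norm_num
  rw [h3]
  exact (hHS _).1 (Submodule.smul_mem _ _ h1)

/-- the part of trace zero of a skew family is skew -/
theorem skew_trz {K : Type} [Field K] [NumberField K] {m : ℕ} {h : Matrix (Fin m) (Fin m) K}
    (hnd : h.det ≠ 0) {M : (K →+* ℂ) → Matrix (Fin m) (Fin m) ℂ} (hM : SkewM h M) :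
    SkewM h fun σ => trz (M σ) := by
  intro σ
  have h1 := hM σ
  have h2 := HMainC.trace_dual hnd hM σ
  show (trz (M σ))ᵀ * h.map σ + h.map σ * trz (M (cj σ)) = 0
  unfold trz
  rw [h2, Matrix.transpose_sub, Matrix.transpose_smul, Matrix.transpose_one, sub_mul, mul_sub,
    smul_mul_assoc, mul_smul_comm, one_mul, mul_one, neg_div, neg_smul]
  rw [← h1]
  abel

section fam

variable {I J : Type} [Fintype I] [DecidableEq I] [Fintype J] [DecidableEq J] {e : I → J}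
  {n : J → ℕ} {κ : J → Type} [∀ j, Fintype (κ j)] [∀ j, DecidableEq (κ j)] {ϖ : ℂ}
  {P : ∀ j, PData (κ j) ϖ} {K : I → Type} [∀ i, Field (K i)] [∀ i, NumberField (K i)] {m : I → ℕ}
  {h : ∀ i, Matrix (Fin (m i)) (Fin (m i)) (K i)}
  {t : ∀ i, Fin (m i) → K i → Module.End ℂ (κ (e i) → ℂ)} {k : ℕ}
  {γ : MultilinearMap ℂ (fun _ : Fin (2 * k) => HW κ n) ℂ} {c : ∀ i, K i →+* K i}

theorem zero_mem : (0 : ∀ i, (K i →+* ℂ) → Matrix (Fin (m i)) (Fin (m i)) ℂ) ∈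
    SyM e n P t γ :=
  ⟨0, IsInv.zero _ _ _, rfl, fun _ => ActM.zero⟩

/-- the index set of the places -/
abbrev Pl (K : I → Type) [∀ i, Field (K i)] : Type := Σ i : I, (K i →+* ℂ)

/-- the algebra at a place -/
abbrev Bp (K : I → Type) [∀ i, Field (K i)] (m : I → ℕ) (p : Pl K) : Type :=
  Matrix (Fin (m p.1)) (Fin (m p.1)) ℂ

/-- the space of the parts of trace zero of the families of the symmetries -/
def RR (H : SyA c h (SyM e n P t γ)) : Submodule ℂ (∀ p : Pl K, Bp K m p) where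
  carrier := {Y | ∃ M ∈ SyM e n P t γ, ∀ p : Pl K, Y p = trz (M p.1 p.2)}
  zero_mem' := ⟨0, zero_mem, fun p => ((trzL (m p.1)).map_zero).symm⟩
  add_mem' := by
    rintro Y Y' ⟨M, hM, h1⟩ ⟨M', hM', h2⟩
    refine ⟨M + M', H.add M hM M' hM', fun p => ?_⟩
    rw [Pi.add_apply, h1, h2]
    exact ((trzL (m p.1)).map_add _ _).symm
  smul_mem' := by
    rintro r Y ⟨M, hM, h1⟩
    refine ⟨r • M, H.smul r M hM, fun p => ?_⟩
    rw [Pi.smul_apply, h1]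
    exact ((trzL (m p.1)).map_smul _ _).symm

theorem mem_RR (H : SyA c h (SyM e n P t γ)) (Y : ∀ p : Pl K, Bp K m p) :
    Y ∈ RR H ↔ ∃ M ∈ SyM e n P t γ, ∀ p : Pl K, Y p = trz (M p.1 p.2) := Iff.rfl

theorem of_mem (H : SyA c h (SyM e n P t γ))
    {M : ∀ i, (K i →+* ℂ) → Matrix (Fin (m i)) (Fin (m i)) ℂ} (hM : M ∈ SyM e n P t γ) :
    (fun p : Pl K => trz (M p.1 p.2)) ∈ RR H := ⟨M, hM, fun _ => rfl⟩

/-- the family with the given part of trace zero on one member -/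
theorem exists_fam (H : SyA c h (SyM e n P t γ)) (i : I) (σ₁ : K i →+* ℂ)
    (N : (K i →+* ℂ) → Matrix (Fin (m i)) (Fin (m i)) ℂ) (hN : SkewM (h i) N)
    (hNt : ∀ σ, (N σ).trace = 0) : ∃ M ∈ SyM e n P t γ, M i = N := by
  have h1 : N ∈ {N' : (K i →+* ℂ) → Matrix (Fin (m i)) (Fin (m i)) ℂ |
      ∃ M ∈ SyM e n P t γ, M i = N'} := by
    have h00 : (0 : (K i →+* ℂ) → Matrix (Fin (m i)) (Fin (m i)) ℂ) ∈
        {N' : (K i →+* ℂ) → Matrix (Fin (m i)) (Fin (m i)) ℂ |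
          ∃ M ∈ SyM e n P t γ, M i = N'} := ⟨0, zero_mem, rfl⟩
    refine skewT_mem (H.conj i) (H.cm i) (H.nd i) _ h00 ?_ ?_ ?_ ?_ σ₁ ?_ N hN hNt
    · rintro _ ⟨M, hM, rfl⟩ _ ⟨M', hM', rfl⟩
      exact ⟨M + M', H.add M hM M' hM', rfl⟩
    · rintro r _ ⟨M, hM, rfl⟩
      exact ⟨r • M, H.smul r M hM, rfl⟩
    · rintro _ ⟨M, hM, rfl⟩
      exact H.skew M hM i
    · rintro _ ⟨M, hM, rfl⟩ τ
      exact ⟨_, H.tw M hM τ, rfl⟩
    · intro Z hZ
      obtain ⟨M, hM, h2, h3⟩ := H.one i σ₁ Z hZ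
      exact ⟨M i, ⟨M, hM, rfl⟩, h2, h3⟩
  exact h1

end fam

end Dgxx

open Dgxx in
theorem thm_Dgx (hRpx : St_Rpx) (hFtx : St_Ftx) (hSsl : St_Ssl) : St_Dgx := by
  classical
  intro I J _ _ _ _ e n κ _ _ ϖ P K _ _ c m h t k γ Z MZ F
  have H := F.sy
  have hm : ∀ i, 0 < m i := fun i => lt_of_lt_of_le Nat.zero_lt_two (H.m2 i)
  have hsk : ∀ i, SkewM (h i) (MZ i) := by
    intro i
    have := F.ne i
    rw [skewM_iff]
    intro σ x y
    exact ActM.skew (F.S i).conj (F.S i).cliff (F.Z2 i) σ x y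
  have key := hRpx (Pl K) (Bp K m) (fun p => SL (m p.1)) (fun p => (hSsl (m p.1) (H.m2 p.1)).1)
    (RR H) ?_ ?_ ?_ (fun p => trz (MZ p.1 p.2)) (fun p => trz_trace (hm p.1) _) ?_
  · obtain ⟨M, hM, h1⟩ := key
    exact ⟨M, hM, fun i σ => (h1 ⟨i, σ⟩).symm⟩
  · rintro X ⟨M, hM, h1⟩ Y ⟨N, hN, h2⟩
    refine ⟨M * N - N * M, H.br M hM N hN, fun p => ?_⟩
    rw [Pi.sub_apply, Pi.mul_apply, Pi.mul_apply, h1, h2]
    exact (trz_br (M p.1 p.2) (N p.1 p.2)).symm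
  · rintro X ⟨M, hM, h1⟩ p
    rw [h1]
    exact trz_trace (hm p.1) _
  · intro p Z' hZ'
    obtain ⟨M, hM, h1, -⟩ := H.one p.1 p.2 Z' hZ'
    exact ⟨_, of_mem H hM, by rw [h1]; exact trz_of hZ'⟩
  · rintro ⟨i, σ₁⟩ ⟨j, τ₁⟩ hl X ⟨M, hM, h1⟩ h2
    have hl' : ∀ M ∈ SyM e n P t γ, trz (M i σ₁) = 0 ↔ trz (M j τ₁) = 0 :=
      fun M hM => hl _ (of_mem H hM)
    obtain ⟨M', hM', h3⟩ := exists_fam H i σ₁ (fun σ => trz (MZ i σ))
      (skew_trz (H.nd i) (hsk i)) (fun σ => trz_trace (hm i) _)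
    have h4 : ∀ σ, trz (M' i σ) = trz (MZ i σ) := by
      intro σ
      rw [h3]
      exact trz_of (trz_trace (hm i) _)
    have h5 := hFtx I J e n κ ϖ P K c m h t k γ Z MZ F i j σ₁ τ₁ hl' M' hM' h4 τ₁
    have h6 : trz (M i σ₁) = trz (MZ i σ₁) := (h1 ⟨i, σ₁⟩).symm.trans h2
    have h7 : M + (-1 : ℂ) • M' ∈ SyM e n P t γ := H.add M hM _ (H.smul _ M' hM')
    have e1 : ∀ (i : I) (σ : K i →+* ℂ), trz ((M + (-1 : ℂ) • M') i σ) =
        trz (M i σ) - trz (M' i σ) := by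
      intro i σ
      have h8 : (M + (-1 : ℂ) • M') i σ = M i σ - M' i σ := by
        show M i σ + (-1 : ℂ) • M' i σ = _
        rw [neg_one_smul, ← sub_eq_add_neg]
      rw [h8]
      exact (trzL (m i)).map_sub _ _
    have h8 : trz ((M + (-1 : ℂ) • M') i σ₁) = 0 := by
      rw [e1, h6, h4, sub_self]
    have h9 := (hl' _ h7).1 h8
    rw [e1, sub_eq_zero] at h9
    rw [h1]
    exact h9.trans h5

end Pool.Agent.KTW
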