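import Pool.Agent.KTW.Fmz
import Pool.Agent.KTW.StY

/-!
# KTW: the hypotheses of `FamZ2` from abelian varieties
-/

set_option autoImplicit false
set_option linter.unusedSectionVars false

namespace Pool.Agent.KTW

open Module Matrix NumberField Pool.Agent.Helper7 Pool.Agent.KS Pool.Agent.Ball Pool.Agent.KSE
  Pool.Agent.Helper28.GPC
open Pool.Agent.GPC (AbVar IsRMType)

/-- the hypotheses of `FamZ2` from abelian varieties; `T₀` is of real type with `m i ≥ 6` -/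
theorem famZ2_of (hRmu : St_Rmu) (hGsf : St_Gsf) {I J : Type} [Fintype I] [DecidableEq I]
    [Fintype J] [DecidableEq J] (X : J → AbVar) (e : I → J) (he : Function.Injective e)
    {K : I → Type} [∀ i, Field (K i)] [∀ i, NumberField (K i)] {c : ∀ i, K i →+* K i} {m : I → ℕ}
    (S : ∀ i, (X (e i)).KugaSatakeMul (K i) (c i) (m i)) (hg : ∀ i, (X (e i)).g ≠ 0)
    (T₀ : I → Prop) (hT₀ : ∀ i, ((S i).IsLargeR ∧ (T₀ i ∨ m i ≤ 4)) ∨ (S i).IsLargeD)
    (hT : ∀ i, T₀ i → c i = RingHom.id (K i) ∧ 6 ≤ m i)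
    (hsp : ∀ j, (∀ i, e i ≠ j) → (X j).IsGenericSurface ∨
      (∃ (K : Type) (_ : Field K) (_ : NumberField K), IsRMType (X j) K) ∨
      ∃ (K : Type) (_ : Field K) (_ : NumberField K) (ρ : K → (X j).H1 → (X j).H1),
        (X j).HasCM K ρ) :
    ∃ σ₀ : ∀ i, K i →+* ℂ, ∀ (n : J → ℕ) (k : ℕ)
    (γ : MultilinearMap ℂ (fun _ : Fin (2 * k) => HW (fun j => Fin (X j).g ⊕ Fin (X j).g) n) ℂ),
    (∀ v : Fin (2 * k) → HW (fun j => Fin (X j).g ⊕ Fin (X j).g) n,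
      (∀ r, IsRatP n (fun j => pData (X j)) (v r)) →
        ∃ q : ℚ, γ v = (2 * Real.pi * Complex.I) ^ k * q) →
    (∀ v : Fin (2 * k) → HW (fun j => Fin (X j).g ⊕ Fin (X j).g) n,
      (∀ r i m j, IsAlgebraic ℚ (v r i m j)) → IsAlgebraic ℚ (γ v)) →
    (∀ Y : GG (fun j => Fin (X j).g ⊕ Fin (X j).g), IsInv n (fun j => pData (X j)) γ Y →
      ∀ i, ∃ M, ActM (lt (X (e i)) (S i)) (Y.1 (e i)) M) →
    (∀ g : (j : J) → Module.End ℂ (Fin (X j).g ⊕ Fin (X j).g → ℂ),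
      IsGrp n (fun j => pData (X j)) γ g → ∀ i,
      ∃ A : (K i →+* ℂ) → Matrix (Fin (m i)) (Fin (m i)) ℂ, ∀ σ x,
        g (e i) * tau (ts (lt (X (e i)) (S i)) σ) x =
          tau (ts (lt (X (e i)) (S i)) σ) (A σ *ᵥ x) * g (e i)) →
    FamZ2 e n (fun j => pData (X j)) (fun i => (S i).h) (fun i => lt (X (e i)) (S i)) γ σ₀ T₀ c := by
  classical
  have hpl : ∀ i, ∃ σ₀ : K i →+* ℂ, (RePl (S i).h σ₀ ∧ (T₀ i ∨ m i ≤ 4)) ∨ CoPl (S i).h σ₀ := by
    intro i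
    rcases hT₀ i with ⟨h1, h2⟩ | h1
    · obtain ⟨σ₀, h3⟩ := place_R (S i) (hg i) h1
      exact ⟨σ₀, Or.inl ⟨h3, h2⟩⟩
    · obtain ⟨σ₀, h3, h4⟩ := place_D (S i) h1
      exact ⟨σ₀, Or.inr h3⟩
  choose σ₀ hσ₀ using hpl
  have hcC : ∀ i, CoPl (S i).h (σ₀ i) → c i ≠ RingHom.id (K i) := by
    intro i h h0
    apply h.1 (σ₀ i)
    ext y
    rw [(S i).conjugation, h0]
    rfl
  have hTr : ∀ i, T₀ i → RePl (S i).h (σ₀ i) := by
    intro i hi
    rcases hσ₀ i with h | h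
    · exact h.1
    · exact absurd (hT i hi).1 (hcC i h)
  refine ⟨σ₀, fun n k γ hB hA hT' hTg => ?_⟩
  have hnd : ∀ i, (S i).h.det ≠ 0 := by
    intro i
    obtain ⟨σ, x, hx, -⟩ := (S i).hodge
    exact k3_nd (S i).conjugation (S i).hermitian hx
  exact
    { pi := Complex.two_pi_I_ne_zero
      S := fun i => mde (X (e i)) (S i) (hnd i)
      B := hB
      A := hA
      nd := fun i => hnd_pData (X (e i))
      ne := fun i => ⟨Sum.inl ⟨0, Nat.pos_of_ne_zero (hg i)⟩⟩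
      T := hT'
      Tg := hTg
      inj := he
      typ := hσ₀
      two := fun i h h' _ => absurd (hT i h).1 (hcC i h')
      dR := fun i i' h _ _ _ h3 => by
        have := (hT i h).2
        omega
      dRR := fun i i' h _ _ => ⟨hTr i h, (hT i h).2⟩
      dC := fun i i' h _ h1 _ => absurd (hT i h).1 (hcC i h1)
      sp := fun j hj => by
        rcases hsp j hj with h | ⟨L, _, _, h⟩ | ⟨L, _, _, ρ, h⟩
        · refine Or.inr (Or.inr ⟨?_, fun Z hZ => hGsf X n k γ hB hA j h Z hZ⟩)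
          rw [Fintype.card_sum, Fintype.card_fin, h.1]
        · exact Or.inr (Or.inl (hRmu (X j) L h))
        · exact Or.inl (comm_of_cm (Elf_cm h)) }

end Pool.Agent.KTW
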