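import Pool.Agent.KTW.StW

/-!
# KTW [Htv]: coordinates and spans
-/

set_option autoImplicit false

namespace Pool.Agent.KTW

open Pool.Agent.KTP

/-- The product with the coordinates of the other slots, as a linear map. -/
noncomputable def Htv_map {W : Type} [AddCommGroup W] [Module ℂ W] {r n d l : ℕ}
    (ε : Fin d ⊕ Fin l ≃ Fin n) (i : Fin l → Fin r) :
    ((Fin d → W) → ℂ) →ₗ[ℂ] ((Fin n → (Fin r → ℂ) × W) → ℂ) where
  toFun ω := fun v => ω (fun s => (v (ε (.inl s))).2) * ∏ b, (v (ε (.inr b))).1 (i b)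
  map_add' ω ω' := by
    funext v
    exact add_mul _ _ _
  map_smul' c ω := by
    funext v
    exact mul_assoc c _ _

theorem thm_Htv : St_Htv := by
  intro W _ _ r n B G hG
  have hF : (fun v => G v) =
      ∑ f : Fin n → Option (Fin r), fun v => G (fun s => Mxu_c (f s) (v s)) := by
    funext v
    rw [Finset.sum_apply]
    have h1 := G.map_sum (fun s o => Mxu_c o (v s))
    rw [← h1]
    congr 1
    funext s
    exact Mxu_sum (v s)
  rw [hF]
  refine Submodule.sum_mem _ fun f _ => ?_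
  obtain ⟨d, l, ε, i, h1, h2⟩ := Mxu_enum f
  have h3 := hG d l ε i
  have h4 : (fun v => G (fun s => Mxu_c (f s) (v s))) =
      Htv_map ε i (fun y => G (Mxu_W ε i y)) := by
    funext v
    exact Mxu_term ε i G f h1 h2 v
  rw [h4]
  have h5 : Htv_map ε i (fun y => G (Mxu_W ε i y)) ∈
      (Submodule.span ℂ {ω : (Fin d → W) → ℂ | B d ω}).map (Htv_map ε i) :=
    Submodule.mem_map_of_mem h3
  rw [Submodule.map_span] at h5
  refine Submodule.span_mono ?_ h5
  rintro _ ⟨ω, hω, rfl⟩
  exact ⟨d, l, ε, i, ω, hω, fun v => rfl⟩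

end Pool.Agent.KTW
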