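import Pool.Agent.KTW.StW
import Pool.Agent.KSW.Fin

/-!
# KTW [Kle]: the Lie algebras of the Kuga-Satake structures kill all Grothendieck forms, also with
other abelian varieties
-/

set_option autoImplicit false
set_option linter.unusedSectionVars false

namespace Pool.Agent.KTW

open Module Matrix NumberField Pool.Agent.Helper7 Pool.Agent.KS Pool.Agent.Ball Pool.Agent.KSE
  Pool.Agent.Helper28.GPC
open Pool.Agent.KSR (PL SkP)
open Pool.Agent.GPC (AbVar)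

section

variable {I J : Type} [Fintype I] [DecidableEq I] [Fintype J] [DecidableEq J]
    {ε : I → J} (n : J → ℕ) {κ : J → Type}
    [∀ j, Fintype (κ j)] [∀ j, DecidableEq (κ j)] {ϖ : ℂ} (hϖ : ϖ ≠ 0) (P : ∀ j, PData (κ j) ϖ)
    {K : I → Type} [∀ i, Field (K i)] [∀ i, NumberField (K i)] {c : ∀ i, K i →+* K i} {m : I → ℕ}
    {h : ∀ i, Matrix (Fin (m i)) (Fin (m i)) (K i)}
    {t : ∀ i, Fin (m i) → K i → Module.End ℂ (κ (ε i) → ℂ)}
    (S : ∀ i, MD (P (ε i)) (c i) (h i) (t i)) {k : ℕ}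
    (γ : MultilinearMap ℂ (fun _ : Fin (2 * k) => HW κ n) ℂ)
    (hB : ∀ v : Fin (2 * k) → HW κ n, (∀ r, IsRatP n P (v r)) → ∃ q : ℚ, γ v = ϖ ^ k * q)
    (hA : ∀ v : Fin (2 * k) → HW κ n, (∀ r i m j, IsAlgebraic ℚ (v r i m j)) →
      IsAlgebraic ℚ (γ v))
    (hP : ∀ i, HNd (P (ε i)))
    (hreal : ∀ i (σ : K i →+* ℂ), cj σ = σ)
    (σ₀ : ∀ i, K i →+* ℂ)
    (hsig : ∀ i, Sig2 (CoreR.GR (h i) (σ₀ i)) ∨ Sig2 (-(CoreR.GR (h i) (σ₀ i))))
    (hdef : ∀ i (σ : K i →+* ℂ), σ ≠ σ₀ i → Definite ((h i).map (cj σ)))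
    (hT : ∀ X : GG κ, IsInv n P γ X → ∀ i, ∃ M, ActM (t i) (X.1 (ε i)) M)
    (hTg : ∀ g : (j : J) → Module.End ℂ (κ j → ℂ), IsGrp n P γ g → ∀ i,
      ∃ A : (K i →+* ℂ) → Matrix (Fin (m i)) (Fin (m i)) ℂ, ∀ σ x,
        g (ε i) * tau (ts (t i) σ) x = tau (ts (t i) σ) (A σ *ᵥ x) * g (ε i))
    (hHom : ∀ i j, i ≠ j → ∀ f : (κ (ε i) → ℂ) →ₗ[ℂ] (κ (ε j) → ℂ),
      IsDRB (P (ε i)) (P (ε j)) f → f = 0)

include hϖ S hB hA hP hreal hsig hdef hT hTg hHom in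
theorem Kle_single (hSpc : St_Spc) (hm : ∀ i, m i = 3 ∨ 6 ≤ m i)
    (hsp : ∀ i j, (∀ i', ε i' ≠ j) → Fintype.card (κ j) + 2 ≤ m i ∨
      ∀ X Y : Module.End ℂ (κ j → ℂ), (∀ f, IsDRB (P j) (P j) f → ∀ v, X (f v) = f (X v)) →
        (∀ f, IsDRB (P j) (P j) f → ∀ v, Y (f v) = f (Y v)) → X * Y = Y * X)
    [DecidableEq (PL K)]
    (p : PL K) (Z : Matrix (Fin (m p.1)) (Fin (m p.1)) ℂ) (hZ : SkP (h p.1) p.2 Z) :
    ∃ X : GG κ, IsInv n P γ X ∧ X.2 = 0 ∧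
      (∀ i, ActM (t i) (X.1 (ε i)) (fun σ => (Pi.single p Z :
        ∀ p : PL K, Matrix (Fin (m p.1)) (Fin (m p.1)) ℂ) ⟨i, σ⟩)) ∧
      ∀ j, (∀ i', ε i' ≠ j) → X.1 j = 0 := by
  classical
  have hsym : ((h p.1).map p.2)ᵀ = (h p.1).map p.2 := by
    ext a b
    rw [Matrix.transpose_apply, Matrix.map_apply, Matrix.map_apply, ← (S p.1).herm a b,
      ← (S p.1).conj, hreal]
  have hdet : IsUnit ((h p.1).map p.2).det := by
    have h1 : ((h p.1).map p.2).det = p.2 (h p.1).det := by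
      rw [RingHom.map_det, RingHom.mapMatrix_apply]
    rw [h1]
    exact IsUnit.mk0 _ ((map_ne_zero p.2).2 (S p.1).nd)
  obtain ⟨F, hF⟩ : ∃ F : Matrix (Fin (m p.1)) (Fin (m p.1)) ℂ →
      (∀ p : PL K, Matrix (Fin (m p.1)) (Fin (m p.1)) ℂ), ∀ Z, F Z = Pi.single p Z :=
    ⟨fun Z => Pi.single p Z, fun _ => rfl⟩
  have hFa : ∀ Z Z', F (Z + Z') = F Z + F Z' := fun Z Z' => by
    rw [hF, hF, hF, Pi.single_add]
  have hF0 : F 0 = 0 := by
    rw [hF, Pi.single_zero]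
  have hFs : ∀ (r : ℂ) Z, F (r • Z) = r • F Z := fun r Z => by
    rw [hF, hF, Pi.single_smul]
  have hFm : ∀ Z Z', F (Z * Z' - Z' * Z) = F Z * F Z' - F Z' * F Z := fun Z Z' => by
    rw [hF, hF, hF, Pi.single_sub, Pi.single_mul, Pi.single_mul]
  let W : Submodule ℂ (GG κ × Matrix (Fin (m p.1)) (Fin (m p.1)) ℂ) :=
    { carrier := {X | IsInv n P γ X.1 ∧ X.1.2 = 0 ∧ X.2ᵀ * (h p.1).map p.2 +
        (h p.1).map p.2 * X.2 = 0 ∧
        ∀ i, ActM (t i) (X.1.1 (ε i)) (fun σ => F X.2 ⟨i, σ⟩)}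
      add_mem' := by
        rintro ⟨X, Z⟩ ⟨X', Z'⟩ ⟨h1, h2, h3, h4⟩ ⟨h1', h2', h3', h4'⟩
        refine ⟨h1.add _ _ _ h1', ?_, SkP.add h3 h3', fun i => ?_⟩
        · show X.2 + X'.2 = 0
          rw [h2, h2', add_zero]
        · show ActM (t i) (X.1 (ε i) + X'.1 (ε i)) (fun σ => F (Z + Z') ⟨i, σ⟩)
          rw [hFa]
          exact (h4 i).add (h4' i)
      zero_mem' := by
        refine ⟨IsInv.zero _ _ _, rfl, SkP.zero, fun i => ?_⟩
        show ActM (t i) 0 (fun σ => F 0 ⟨i, σ⟩)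
        rw [hF0]
        exact ActM.zero
      smul_mem' := by
        rintro r ⟨X, Z⟩ ⟨h1, h2, h3, h4⟩
        refine ⟨h1.smul _ _ _ r, ?_, SkP.smul r h3, fun i => ?_⟩
        · show r * X.2 = 0
          rw [h2, mul_zero]
        · show ActM (t i) (r • X.1 (ε i)) (fun σ => F (r • Z) ⟨i, σ⟩)
          rw [hFs]
          exact (h4 i).smul r }
  have hW : ∀ X, X ∈ W ↔ IsInv n P γ X.1 ∧ X.1.2 = 0 ∧ X.2ᵀ * (h p.1).map p.2 +
        (h p.1).map p.2 * X.2 = 0 ∧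
        ∀ i, ActM (t i) (X.1.1 (ε i)) (fun σ => F X.2 ⟨i, σ⟩) := fun _ => Iff.rfl
  obtain ⟨X, hX, hXZ, hXj⟩ := hSpc (m p.1) ((h p.1).map p.2) hsym hdet (by have := hm p.1; omega)
    (by have := hm p.1; omega) (GG κ) {j : J // ∀ i', ε i' ≠ j} (fun j => κ j.1)
    (fun j => (P j.1).ψ) (fun j => (P j.1).hψnd) (fun j => (P j.1).hψalt)
    (fun j => (Pi.evalAlgHom ℂ (fun j : J => Module.End ℂ (κ j → ℂ)) j.1).comp
      (AlgHom.fst ℂ _ _)) W
    (by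
      rintro ⟨X, Z⟩ hX ⟨X', Z'⟩ hX'
      rw [hW] at hX hX' ⊢
      obtain ⟨h1, h2, h3, h4⟩ := hX
      obtain ⟨h1', h2', h3', h4'⟩ := hX'
      refine ⟨h1.bracket _ _ _ h1', ?_, SkP.bracket h3 h3', fun i => ?_⟩
      · show X.2 * X'.2 - X'.2 * X.2 = 0
        rw [mul_comm, sub_self]
      · show ActM (t i) (X.1 (ε i) * X'.1 (ε i) - X'.1 (ε i) * X.1 (ε i))
          (fun σ => F (Z * Z' - Z' * Z) ⟨i, σ⟩)
        rw [hFm]
        exact (h4 i).bracket (h4' i))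
    (fun X hX => ((hW X).1 hX).2.2.1)
    (by
      intro Z hZ
      obtain ⟨-, X, hX, hX2, hXM⟩ := KSW.RRE_single n hϖ P S γ hB hA hP hreal σ₀ hsig hdef hT hTg
        hHom (fun i => by have := hm i; omega) (fun i => by have := hm i; omega)
        (Or.inl fun i => by have := hm i; omega) p Z hZ
      refine ⟨(X, Z), (hW _).2 ⟨hX, hX2, hZ, fun i => ?_⟩, rfl⟩
      rw [hF]
      exact hXM i)
    (by
      intro X hX j u v
      obtain ⟨h1, h2, -, -⟩ := (hW X).1 hX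
      have h3 := h1.pol j.1 u v
      rw [h2, zero_mul] at h3
      exact h3)
    (fun j => (hsp p.1 j.1 j.2).imp id fun h1 X hX Y hY => h1 _ _
      (((hW X).1 hX).1.comm j.1 j.1) (((hW Y).1 hY).1.comm j.1 j.1)) Z hZ
  obtain ⟨h1, h2, h3, h4⟩ := (hW X).1 hX
  refine ⟨X.1, h1, h2, fun i => ?_, fun j hj => hXj ⟨j, hj⟩⟩
  have h5 := h4 i
  rw [hXZ, hF] at h5
  exact h5

end

section

variable {I J : Type} [Fintype I] [DecidableEq I] [Fintype J] [DecidableEq J]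
    {ε : I → J} (hε : Function.Injective ε) (n : J → ℕ) {κ : J → Type}
    [∀ j, Fintype (κ j)] [∀ j, DecidableEq (κ j)] {ϖ : ℂ} (hϖ : ϖ ≠ 0) (P : ∀ j, PData (κ j) ϖ)
    {K : I → Type} [∀ i, Field (K i)] [∀ i, NumberField (K i)] {c : ∀ i, K i →+* K i} {m : I → ℕ}
    {h : ∀ i, Matrix (Fin (m i)) (Fin (m i)) (K i)}
    {t : ∀ i, Fin (m i) → K i → Module.End ℂ (κ (ε i) → ℂ)}
    (S : ∀ i, MD (P (ε i)) (c i) (h i) (t i)) {k : ℕ}
    (α : MultilinearMap ℂ (fun _ : Fin (2 * k) => HW κ n) ℂ)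
    (hB : ∀ v : Fin (2 * k) → HW κ n, (∀ r, IsRatP n P (v r)) → ∃ q : ℚ, α v = ϖ ^ k * q)
    (hA : ∀ v : Fin (2 * k) → HW κ n, (∀ r i m j, IsAlgebraic ℚ (v r i m j)) →
      IsAlgebraic ℚ (α v))
    (hP : ∀ i, HNd (P (ε i)))
    (hreal : ∀ i (σ : K i →+* ℂ), cj σ = σ)
    (σ₀ : ∀ i, K i →+* ℂ)
    (hsig : ∀ i, Sig2 (CoreR.GR (h i) (σ₀ i)) ∨ Sig2 (-(CoreR.GR (h i) (σ₀ i))))
    (hdef : ∀ i (σ : K i →+* ℂ), σ ≠ σ₀ i → Definite ((h i).map (cj σ)))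
    (hHom : ∀ i j, i ≠ j → ∀ f : (κ (ε i) → ℂ) →ₗ[ℂ] (κ (ε j) → ℂ),
      IsDRB (P (ε i)) (P (ε j)) f → f = 0)

include hε hϖ S hB hA hP hreal hsig hdef hHom in
/-- the Lie algebras of the factors kill the class -/
theorem Kle_form (hSpc : St_Spc) (hm : ∀ i, m i = 3 ∨ 6 ≤ m i)
    (hsp : ∀ i j, (∀ i', ε i' ≠ j) → Fintype.card (κ j) + 2 ≤ m i ∨
      ∀ X Y : Module.End ℂ (κ j → ℂ), (∀ f, IsDRB (P j) (P j) f → ∀ v, X (f v) = f (X v)) →
        (∀ f, IsDRB (P j) (P j) f → ∀ v, Y (f v) = f (Y v)) → X * Y = Y * X) (i : I)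
    (Z : Module.End ℂ (κ (ε i) → ℂ)) (hZ : Z ∈ bvS (t i)) :
    actForm (lift n (Pi.single (ε i) Z)) α = 0 := by
  classical
  rcases Nat.eq_zero_or_pos k with rfl | hk
  · apply MultilinearMap.ext
    intro v
    rw [actForm_apply]
    exact Finset.sum_eq_zero fun r _ => Fin.elim0 r
  obtain ⟨n', k', γ, hγB, hγA, hγ1, hγ2⟩ := KSW.exists_gam_allE P S n hk α hB hA
  obtain ⟨M, hM1, hM2⟩ := exists_act_of_mem (S i).conj (S i).herm (S i).nd (S i).cliff Z hZ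
  choose X hX hX2 hXM hXj using fun σ : K i →+* ℂ => Kle_single n' hϖ P S γ hγB hγA hP hreal σ₀
    hsig hdef (fun X hX => (hγ1 X hX).2) (fun g hg => (hγ2 g hg).2) hHom hSpc hm hsp ⟨i, σ⟩ (M σ)
    (by
      have h1 := hM2 σ
      rw [hreal i σ] at h1
      exact h1)
  obtain ⟨Y, hYd⟩ : ∃ Y : GG κ, Y = ∑ σ, X σ := ⟨_, rfl⟩
  have hsum : ∀ s : Finset (K i →+* ℂ), IsInv n' P γ (∑ σ ∈ s, X σ) ∧ (∑ σ ∈ s, X σ).2 = 0 ∧
      (∀ l, ActM (t l) ((∑ σ ∈ s, X σ).1 (ε l)) (fun ρ => (∑ σ ∈ s, (Pi.single (⟨i, σ⟩ : PL K)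
        (M σ) : ∀ p : PL K, Matrix (Fin (m p.1)) (Fin (m p.1)) ℂ)) ⟨l, ρ⟩)) ∧
      ∀ j, (∀ i', ε i' ≠ j) → (∑ σ ∈ s, X σ).1 j = 0 := by
    intro s
    induction s using Finset.induction_on with
    | empty =>
      exact ⟨IsInv.zero _ _ _, rfl, fun l => ActM.zero, fun j _ => rfl⟩
    | insert a s ha ih =>
      obtain ⟨i1, i2, i3, i4⟩ := ih
      rw [Finset.sum_insert ha, Finset.sum_insert ha]
      refine ⟨(hX a).add _ _ _ i1, ?_, fun l => (hXM a l).add (i3 l), fun j hj => ?_⟩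
      · show (X a).2 + (∑ σ ∈ s, X σ).2 = 0
        rw [hX2, i2, add_zero]
      · show (X a).1 j + (∑ σ ∈ s, X σ).1 j = 0
        rw [hXj a j hj, i4 j hj, add_zero]
  obtain ⟨hY1, hY2, hY3, hY4⟩ := hsum Finset.univ
  rw [← hYd] at hY1 hY2 hY3 hY4
  obtain ⟨N, hN⟩ : ∃ N : ∀ p : PL K, Matrix (Fin (m p.1)) (Fin (m p.1)) ℂ,
      N = ∑ σ : K i →+* ℂ, Pi.single (⟨i, σ⟩ : PL K) (M σ) := ⟨_, rfl⟩
  rw [← hN] at hY3
  have hNi : ∀ σ : K i →+* ℂ, N ⟨i, σ⟩ = M σ := by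
    intro σ
    rw [hN, Finset.sum_apply, Finset.sum_eq_single σ]
    · rw [Pi.single_eq_same]
    · intro ρ _ hρ
      rw [Pi.single_eq_of_ne]
      intro h0
      apply hρ
      have h1 : σ = ρ := by
        simpa using h0
      exact h1.symm
    · intro h0; exact absurd (Finset.mem_univ _) h0
  have hNj : ∀ l, l ≠ i → ∀ σ : K l →+* ℂ, N ⟨l, σ⟩ = 0 := by
    intro l hl σ
    rw [hN, Finset.sum_apply]
    refine Finset.sum_eq_zero fun ρ _ => ?_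
    rw [Pi.single_eq_of_ne]
    intro h0
    exact hl (congrArg Sigma.fst h0)
  have h1 : Y.1 = Pi.single (ε i) Z := by
    funext j
    by_cases hj : ∃ l, ε l = j
    · obtain ⟨l, rfl⟩ := hj
      have h2 := mem_bvE n' P (ε l) (S l) γ Y hY1 hY2 _ (hY3 l)
      by_cases hl : l = i
      · subst hl
        rw [Pi.single_eq_same]
        refine eq_of_act (S l).conj (S l).herm (S l).nd (S l).cliff h2 hZ (hY3 l) ?_
        have e : (fun σ => N ⟨l, σ⟩) = M := funext hNi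
        rw [e]
        exact hM1
      · rw [Pi.single_eq_of_ne (hε.ne hl)]
        refine eq_of_act (S l).conj (S l).herm (S l).nd (S l).cliff h2 (Submodule.zero_mem _)
          (hY3 l) ?_
        have e : (fun σ => N ⟨l, σ⟩) = 0 := funext (hNj l hl)
        rw [e]
        exact ActM.zero
    · have hj' : ∀ l, ε l ≠ j := fun l hl => hj ⟨l, hl⟩
      rw [hY4 j hj', Pi.single_eq_of_ne (hj' i).symm]
  have h3 := ((hγ1 Y hY1).1).form
  rw [hY2, mul_zero, zero_smul, h1] at h3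
  exact h3

end

theorem thm_Kle (hSpc : St_Spc) : St_Kle := by
  intro I J _ _ _ _ A C K _ _ c m S hg hc hm hHom hC n k α hB hA i Z hZ
  have hϖ := Complex.two_pi_I_ne_zero
  choose σ₀ x hx hx1 hx2 using fun i => (S i).hodge
  have hreal : ∀ i (σ : K i →+* ℂ), cj σ = σ := by
    intro i σ
    ext y
    rw [(S i).conjugation, hc i]
    rfl
  have hnd := fun i => k3_nd (S i).conjugation (S i).hermitian (hx i)
  have M := fun i => mde (A i) (S i) (hnd i)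
  have hκ : ∀ i, Nonempty (Fin (A i).g ⊕ Fin (A i).g) := fun i =>
    ⟨Sum.inl ⟨0, Nat.pos_of_ne_zero (hg i)⟩⟩
  have hxx : ∀ i, pr (S i).h (σ₀ i) (x i) (x i) = 0 := by
    intro i
    have h1 := tau_pair (M i).conj (M i).cliff (σ₀ i) (x i) (x i)
    rw [hreal i (σ₀ i)] at h1
    have h3 : tau (ts (lt (A i) (S i)) (σ₀ i)) (x i) * tau (ts (lt (A i) (S i)) (σ₀ i)) (x i) = 0 := by
      apply LinearMap.ext
      intro v
      have hev : ∀ v, tau (ts (lt (A i) (S i)) (σ₀ i)) (x i) v =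
          ∑ a, x i a • (S i).e (σ₀ i) a v := by
        intro v
        rw [tau_apply, LinearMap.sum_apply]
        refine Finset.sum_congr rfl fun a _ => ?_
        rw [LinearMap.smul_apply, ts_lt]
        rfl
      show tau (ts (lt (A i) (S i)) (σ₀ i)) (x i) (tau (ts (lt (A i) (S i)) (σ₀ i)) (x i) v) = 0
      rw [hev (tau (ts (lt (A i) (S i)) (σ₀ i)) (x i) v)]
      apply hx2
      rw [hev]
      exact hx1 i v
    rw [h3, add_zero] at h1
    rcases smul_eq_zero.mp h1.symm with h4 | h4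
    · simpa using h4
    · exact absurd h4 one_ne_zero
  refine Kle_form (ε := Sum.inl) Sum.inl_injective n hϖ (fun j => pData (Sum.elim A C j)) M α hB
    hA (fun i => hnd_pData (A i)) hreal σ₀
    (fun i => k3_sig2 (S i).conjugation (S i).hermitian (hx i) (hreal i (σ₀ i)) (hxx i))
    (fun i σ hσ => k3_def (S i).conjugation (S i).hermitian (hx i) σ hσ (by
      rw [hreal i (σ₀ i)]; exact hσ)) ?_ hSpc hm ?_ i Z hZ
  · intro i j hij f hf
    apply LinearMap.ext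
    intro v
    have h1 := (isDRB_iff (A i) (A j) f).mp hf
    exact hHom i j hij f ⟨f.isLinear, h1.1, h1.2,
      Pool.Agent.GPC.hom_fil (A i) (A j) f f.isLinear h1.1 h1.2⟩ v
  · intro i j hj
    rcases j with j | j
    · exact absurd rfl (hj j)
    · have h1 : Fintype.card (Fin (C j).g ⊕ Fin (C j).g) = 2 * (C j).g := by
        rw [Fintype.card_sum, Fintype.card_fin]
        ring
      refine (hC i j).imp (fun h2 => ?_) fun h2 X Y hX hY => ?_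
      · show Fintype.card (Fin (C j).g ⊕ Fin (C j).g) + 2 ≤ m i
        rw [h1]
        exact h2
      · apply LinearMap.ext
        intro v
        exact h2 X Y X.isLinear Y.isLinear
          (fun f hf v => hX (IsLinearMap.mk' f hf.linear)
            (isDRB_of_isEnd (C j) (IsLinearMap.mk' f hf.linear) hf) v)
          (fun f hf v => hY (IsLinearMap.mk' f hf.linear)
            (isDRB_of_isEnd (C j) (IsLinearMap.mk' f hf.linear) hf) v) v

end Pool.Agent.KTW
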