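import Pool.Agent.KTW.StU
import Pool.Agent.KSE.BvE
import Pool.Agent.KSE.HMainC

/-!
# KTW [Nsc]: splitting an element of `bvS` into its trace-zero part and its scalar part
-/

set_option autoImplicit false

namespace Pool.Agent.KTW

open Module Matrix NumberField Pool.Agent.Helper7 Pool.Agent.KS Pool.Agent.Ball Pool.Agent.KSE
  Pool.Agent.Helper28.GPC Pool.Agent.K3P Pool.Agent.KTP

namespace Nscx

/-- sums of operators which kill a form -/
lemma kill_sum {I : Type} [Fintype I] [DecidableEq I] {κ : I → Type} [∀ i, Fintype (κ i)]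
    [∀ i, DecidableEq (κ i)] (n : I → ℕ) {q : ℕ}
    (α : MultilinearMap ℂ (fun _ : Fin q => HW κ n) ℂ) (Z : ∀ i, Module.End ℂ (κ i → ℂ))
    (h : ∀ i, actForm (lift n (Pi.single i (Z i))) α = 0) : actForm (lift n Z) α = 0 := by
  have h1 : ∀ s : Finset I, actForm (lift n (∑ i ∈ s, Pi.single i (Z i))) α = 0 := by
    intro s
    induction s using Finset.cons_induction with
    | empty => rw [Finset.sum_empty, lift_zero, actForm_zero]
    | cons a s ha ih => rw [Finset.sum_cons, lift_add, actForm_add, h a, ih, add_zero]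
  have h2 : Z = ∑ i, Pi.single i (Z i) := (Finset.univ_sum_single Z).symm
  rw [h2]
  exact h1 Finset.univ

end Nscx

/-- [NSC] -/
theorem thm_Nsc : St_Nsc := by
  classical
  intro I J _ _ _ _ e he κ _ _ ϖ P K _ _ c m h t hMD hm hne n k α hS hC
  have key : ∀ (i : I), ∀ Y ∈ bvS (t i),
      actForm (lift n (Pi.single (e i) Y : ∀ j, Module.End ℂ (κ j → ℂ))) α = 0 := by
    intro i Y hY
    have hM := hMD i
    obtain ⟨M, hA, hsk⟩ := exists_act_of_mem hM.conj hM.herm hM.nd hM.cliff Y hY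
    have hm0 : (m i : ℂ) ≠ 0 := Nat.cast_ne_zero.mpr (hm i)
    let z : (K i →+* ℂ) → ℂ := fun σ => (M σ).trace / m i
    have hz : ∀ σ, z (cj σ) = -z σ := by
      intro σ
      show (M (cj σ)).trace / (m i : ℂ) = -((M σ).trace / (m i : ℂ))
      rw [HMainC.trace_dual hM.nd hsk, neg_div]
    have hsc : SkewM (h i) (fun σ => z σ • (1 : Matrix (Fin (m i)) (Fin (m i)) ℂ)) :=
      HMainC.skew_scalar hz
    obtain ⟨Y₂, hY₂, hA₂⟩ := exists_bvE hM.conj hM.herm hM.nd hM.cliff _ hsc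
    obtain ⟨Y₁, hY₁, hA₁⟩ :=
      exists_bvE hM.conj hM.herm hM.nd hM.cliff _ (HMainC.skew_sub hsk hsc)
    have hYY : Y = Y₁ + Y₂ := by
      refine eq_of_act hM.conj hM.herm hM.nd hM.cliff hY (Submodule.add_mem _ hY₁ hY₂) hA ?_
      have h3 := hA₁.add hA₂
      rwa [sub_add_cancel] at h3
    have e1 : (Pi.single (e i) Y : ∀ j, Module.End ℂ (κ j → ℂ)) =
        Pi.single (e i) Y₁ + Pi.single (e i) Y₂ := by
      rw [hYY, Pi.single_add]
    have htr : ∀ σ, ((M - fun σ => z σ • (1 : Matrix (Fin (m i)) (Fin (m i)) ℂ)) σ).trace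
        = 0 := by
      intro σ
      rw [Pi.sub_apply, Matrix.trace_sub, Matrix.trace_smul, Matrix.trace_one, Fintype.card_fin,
        smul_eq_mul]
      show (M σ).trace - (M σ).trace / (m i : ℂ) * (m i : ℂ) = 0
      rw [div_mul_cancel₀ _ hm0, sub_self]
    rw [e1, lift_add, actForm_add, hS i Y₁ _ hY₁ hA₁ htr, hC i Y₂ z ⟨hY₂, hA₂⟩ hz, add_zero]
  refine ⟨key, fun hN D => ?_⟩
  apply Nscx.kill_sum
  intro j
  by_cases hj : ∃ i, e i = j
  · obtain ⟨i, rfl⟩ := hj
    have h1 : NE e P D (e i) = (P (e i)).N D - (D ϖ / ϖ / 2) • 1 := if_pos ⟨i, rfl⟩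
    rw [h1]
    exact key i _ (hN i D)
  · have h1 : NE e P D j = 0 := if_neg hj
    rw [h1, Pi.single_zero, lift_zero, actForm_zero]

end Pool.Agent.KTW
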