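import Pool.Agent.KTW.PrjA

/-!
# KTW [PrjB]: the spectators
-/

set_option autoImplicit false
set_option linter.unusedSectionVars false

open scoped ComplexConjugate

namespace Pool.Agent.KTW

open Module Matrix NumberField Pool.Agent.Helper7 Pool.Agent.KS Pool.Agent.Ball Pool.Agent.KSE
  Pool.Agent.Helper28.GPC Pool.Agent.KSE.TwistE
open Pool.Agent.KSR (PL SkP)

section spec

variable {𝓐 : Type} [Ring 𝓐] [Algebra ℂ 𝓐]

/-- targets -/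
structure PrG (W : Submodule ℂ 𝓐) (θ : 𝓐 → 𝓐) {𝓑 : Type} [Ring 𝓑] [Algebra ℂ 𝓑] (c : 𝓐 →ₗ[ℂ] 𝓑)
    (G : Submodule ℂ 𝓑) : Prop where
  fd : FiniteDimensional ℂ G
  sm : Smp G
  br : Bra W c
  im : ∀ X ∈ W, c X ∈ G
  on : ∀ Z ∈ G, ∃ X ∈ W, c X = Z
  d3 : 3 < finrank ℂ G ∨ (3 ≤ finrank ℂ G ∧ ∃ k : 𝓑 → 𝓑, (∀ X ∈ W, c (θ X) = k (c X)) ∧
    ∀ Z ∈ G, ∀ Z' ∈ G, k Z = Z → k Z' = Z' → Z' * Z - Z * Z' = (2 : ℂ) • Z → Z = 0)

/-- the ideal `N` does not vanish in the targets -/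
structure PrN (W : Submodule ℂ 𝓐) (θ : 𝓐 → 𝓐) (D : ℕ → Prop) (N : Submodule ℂ 𝓐) : Prop where
  le : N ≤ W
  id : ∀ X ∈ W, ∀ Y ∈ N, X * Y - Y * X ∈ N
  nz : ∀ (𝓑 : Type) [Ring 𝓑] [Algebra ℂ 𝓑] (c : 𝓐 →ₗ[ℂ] 𝓑) (G : Submodule ℂ 𝓑), PrG W θ c G →
    D (finrank ℂ G) → ∃ Y ∈ N, c Y ≠ 0

variable {W : Submodule ℂ 𝓐} {θ : 𝓐 → 𝓐} {D : ℕ → Prop} {𝓒 : Type} [Ring 𝓒] [Algebra ℂ 𝓒]

theorem PrN_of (hW : ∀ X ∈ W, ∀ Y ∈ W, X * Y - Y * X ∈ W) {d : 𝓐 →ₗ[ℂ] 𝓒} (hd : Bra W d)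
    (h1 : ∀ (𝓑 : Type) [Ring 𝓑] [Algebra ℂ 𝓑] (c : 𝓐 →ₗ[ℂ] 𝓑) (G : Submodule ℂ 𝓑),
      PrG W θ c G → D (finrank ℂ G) → ∃ X ∈ W, d X = 0 ∧ c X ≠ 0) :
    PrN W θ D (W ⊓ LinearMap.ker d) where
  le := inf_le_left
  id X hX Y hY := by
    obtain ⟨h2, h3⟩ := Submodule.mem_inf.1 hY
    refine Submodule.mem_inf.2 ⟨hW X hX Y h2, ?_⟩
    rw [LinearMap.mem_ker] at h3 ⊢
    rw [hd X hX Y h2, h3, mul_zero, zero_mul, sub_zero]
  nz 𝓑 _ _ c G hG hD := by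
    obtain ⟨X, h2, h3, h4⟩ := h1 𝓑 c G hG hD
    exact ⟨X, Submodule.mem_inf.2 ⟨h2, LinearMap.mem_ker.2 h3⟩, h4⟩

/-- commuting -/
theorem PrN_co (hW : ∀ X ∈ W, ∀ Y ∈ W, X * Y - Y * X ∈ W) {d : 𝓐 →ₗ[ℂ] 𝓒} (hd : Bra W d)
    (h1 : ∀ X ∈ W, ∀ Y ∈ W, d X * d Y = d Y * d X) : PrN W θ D (W ⊓ LinearMap.ker d) :=
  PrN_of hW hd fun 𝓑 _ _ c G hG _ => by
    have := hG.fd
    exact (thm_Nlk 𝓐 𝓑 W c G hG.sm hW hG.br hG.im hG.on).1 𝓒 d hd (Or.inl h1)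

/-- simple, of another dimension -/
theorem PrN_si (hW : ∀ X ∈ W, ∀ Y ∈ W, X * Y - Y * X ∈ W) {d : 𝓐 →ₗ[ℂ] 𝓒} (hd : Bra W d)
    (E : Submodule ℂ 𝓒) (hE : FiniteDimensional ℂ E) (hS : Smp E) (h1 : ∀ X ∈ W, d X ∈ E)
    (h2 : ∀ Z ∈ E, ∃ X ∈ W, d X = Z) (h3 : ∀ r, D r → finrank ℂ E ≠ r) :
    PrN W θ D (W ⊓ LinearMap.ker d) :=
  PrN_of hW hd fun 𝓑 _ _ c G hG hD => by
    have := hG.fd
    exact (thm_Nlk 𝓐 𝓑 W c G hG.sm hW hG.br hG.im hG.on).1 𝓒 d hd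
      (Or.inr (Or.inr ⟨E, hE, hS, h1, h2, h3 _ hD⟩))

/-- real planes -/
theorem PrN_pl (hW : ∀ X ∈ W, ∀ Y ∈ W, X * Y - Y * X ∈ W)
    {d : 𝓐 →ₗ[ℂ] Matrix (Fin 2) (Fin 2) ℂ} (hd : Bra W d) (h1 : ∀ X ∈ W, (d X).trace = 0)
    (h2 : ∀ X ∈ W, θ X ∈ W) (h3 : ∀ X ∈ W, d (θ X) = (d X).map conj) :
    PrN W θ D (W ⊓ LinearMap.ker d) :=
  PrN_of hW hd fun 𝓑 _ _ c G hG _ => by
    have := hG.fd
    rcases hG.d3 with h4 | ⟨h4, k, h5, h6⟩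
    · refine (thm_Nlk 𝓐 𝓑 W c G hG.sm hW hG.br hG.im hG.on).1 _ d hd
        (Or.inr (Or.inl ⟨SL 2, inferInstance, h1, ?_⟩))
      have h7 := (thm_Ssl 2 le_rfl).2
      omega
    · exact (thm_Nlk 𝓐 𝓑 W c G hG.sm hW hG.br hG.im hG.on).2 d θ k hd h1 h4 h2 h3 h5 h6

end spec

/-! ### The spectators -/

section spe

variable {I J : Type} [Fintype I] [DecidableEq I] [Fintype J] [DecidableEq J] {e : I → J}
  {n : J → ℕ} {κ : J → Type} [∀ j, Fintype (κ j)] [∀ j, DecidableEq (κ j)] {ϖ : ℂ}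
  {P : ∀ j, PData (κ j) ϖ} {K : I → Type} [∀ i, Field (K i)] [∀ i, NumberField (K i)] {m : I → ℕ}
  {h : ∀ i, Matrix (Fin (m i)) (Fin (m i)) (K i)}
  {t : ∀ i, Fin (m i) → K i → Module.End ℂ (κ (e i) → ℂ)} {k : ℕ}
  {γ : MultilinearMap ℂ (fun _ : Fin (2 * k) => HW κ n) ℂ} {σ₀ : ∀ i, K i →+* ℂ}
  {T₀ : I → Prop} {c : ∀ i, K i →+* K i}

/-- the operator on `κ j` -/
def PrE (K : I → Type) [∀ i, Field (K i)] (m : I → ℕ) (j : J) :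
    PrA κ K m →ₗ[ℂ] Module.End ℂ (κ j → ℂ) where
  toFun X := X.1.1 j
  map_add' _ _ := rfl
  map_smul' _ _ := rfl

/-- the trace-zero part of the matrix at a place -/
noncomputable def PrC (κ : J → Type) (m : I → ℕ) (i : I) (σ : K i →+* ℂ) :
    PrA κ K m →ₗ[ℂ] Matrix (Fin (m i)) (Fin (m i)) ℂ where
  toFun X := trz (X.2 i σ)
  map_add' X Y := Pr_trz_add (X.2 i σ) (Y.2 i σ)
  map_smul' r X := Pr_trz_smul r (X.2 i σ)

theorem PrC_apply (i : I) (σ : K i →+* ℂ) (X : PrA κ K m) : PrC κ m i σ X = trz (X.2 i σ) := rfl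

/-- the dimensions which are allowed -/
def PrD (T₀ : I → Prop) (m : I → ℕ) (r : ℕ) : Prop :=
  r ≠ 10 ∧ ∀ i, ¬ T₀ i → r + 1 ≠ m i * m i

theorem PrE_bra (W : Submodule ℂ (PrA κ K m)) (j : J) : Bra W (PrE (κ := κ) K m j) :=
  fun _ _ _ _ => rfl

theorem PrC_bra (W : Submodule ℂ (PrA κ K m)) (i : I) (σ : K i →+* ℂ) : Bra W (PrC κ m i σ) :=
  fun X _ Y _ => Pr_trz_br (X.2 i σ) (Y.2 i σ)

/-- the ideals for an `i'` not in `T₀` -/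
theorem Prj_s1 (H : FamZ e n P h t γ σ₀ T₀ c) (i' : I) (hi : ¬ T₀ i') (σ' : K i' →+* ℂ) :
    PrN (PrW e n P t γ) (PrT P (starRingAut : ℂ ≃+* ℂ)) (PrD T₀ m)
      (PrW e n P t γ ⊓ LinearMap.ker (PrC κ m i' σ')) := by
  have hco : CoPl (h i') (σ₀ i') := (H.typ i').resolve_left fun h => hi h.1
  have hm0 : 0 < m i' := hco.2.2.2.1
  have hm2 : 2 ≤ m i' := by
    obtain ⟨r, hr⟩ := hco.2.2.2.2
    omega
  obtain ⟨hS, hdim⟩ := thm_Ssl (m i') hm2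
  refine PrN_si (fun X hX Y hY => PrW_br hX hY) (PrC_bra _ i' σ') (SL (m i')) inferInstance hS
    (fun X hX => Pr_trz_tr hm0 _) ?_ ?_
  · intro Z hZ
    obtain ⟨X, hX, hXZ⟩ := Prj_on H i' σ' Z (by rw [Lg_co (hco.1 σ')]; exact hZ)
    refine ⟨X, hX, ?_⟩
    rw [PrC_apply, hXZ, Pr_trz_of hZ]
  · intro r hr h1
    have h2 := hr.2 i' hi
    omega

theorem Prj_s1' (H : FamZ e n P h t γ σ₀ T₀ c) (i' : I) {A B : PrA κ K m}
    (hA : A ∈ PrW e n P t γ) (hB : B ∈ PrW e n P t γ)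
    (hA' : ∀ σ' : K i' →+* ℂ, A ∈ PrW e n P t γ ⊓ LinearMap.ker (PrC κ m i' σ'))
    (hB' : ∀ σ' : K i' →+* ℂ, B ∈ PrW e n P t γ ⊓ LinearMap.ker (PrC κ m i' σ')) :
    (A * B - B * A).1.1 (e i') = 0 := by
  have hsc : ∀ X : PrA κ K m, (∀ σ' : K i' →+* ℂ,
      X ∈ PrW e n P t γ ⊓ LinearMap.ker (PrC κ m i' σ')) →
      ∀ σ', X.2 i' σ' = ((X.2 i' σ').trace / m i') • 1 := by
    intro X hX σ'
    have h1 : trz (X.2 i' σ') = 0 := LinearMap.mem_ker.1 (Submodule.mem_inf.1 (hX σ')).2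
    exact sub_eq_zero.1 h1
  have h1 := PrW_br hA hB
  have h2 : (A * B - B * A).2 i' = 0 := by
    funext σ'
    have h5 : (A * B - B * A).2 i' σ' = A.2 i' σ' * B.2 i' σ' - B.2 i' σ' * A.2 i' σ' := rfl
    rw [h5, hsc A hA' σ', hsc B hB' σ', smul_mul_assoc, smul_mul_assoc, one_mul, one_mul,
      smul_comm, sub_self]
    rfl
  have h3 := h1.2.2 i'
  rw [h2] at h3
  have h4 := mem_bvE n P (e i') (H.S i') γ _ h1.1 h1.2.1 _ h3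
  exact eq_of_act (H.S i').conj (H.S i').herm (H.S i').nd (H.S i').cliff h4
    (Submodule.zero_mem _) h3 ActM.zero

end spe

/-! ### Planes -/

section plane

variable {κ : Type} [Fintype κ] [DecidableEq κ]

/-- the coordinates in the plane -/
noncomputable def PrF (ψ : (κ → ℂ) →ₗ[ℂ] (κ → ℂ) →ₗ[ℂ] ℂ) (u : Fin 2 → (κ → ℂ)) :
    Fin 2 → (κ → ℂ) →ₗ[ℂ] ℂ :=
  ![(ψ (u 0) (u 1))⁻¹ • ψ.flip (u 1), (ψ (u 0) (u 1))⁻¹ • ψ (u 0)]

variable {ψ : (κ → ℂ) →ₗ[ℂ] (κ → ℂ) →ₗ[ℂ] ℂ} {u : Fin 2 → (κ → ℂ)}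

theorem PrF_zero (w : κ → ℂ) : PrF ψ u 0 w = (ψ (u 0) (u 1))⁻¹ * ψ w (u 1) := rfl

theorem PrF_one (w : κ → ℂ) : PrF ψ u 1 w = (ψ (u 0) (u 1))⁻¹ * ψ (u 0) w := rfl

theorem Pr_alt (hψ : ∀ u v, ψ u v = -ψ v u) (v : κ → ℂ) : ψ v v = 0 := by
  have h1 := hψ v v
  have h2 : (2 : ℂ) * ψ v v = 0 := by linear_combination h1
  exact (mul_eq_zero.1 h2).resolve_left two_ne_zero

theorem PrF_self (hψ : ∀ u v, ψ u v = -ψ v u) (hu : ψ (u 0) (u 1) ≠ 0) (a b : Fin 2) :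
    PrF ψ u a (u b) = if a = b then 1 else 0 := by
  fin_cases a <;> fin_cases b
  · simpa [PrF_zero] using inv_mul_cancel₀ hu
  · simpa [PrF_zero] using Or.inr (Pr_alt hψ (u 1))
  · simpa [PrF_one] using Or.inr (Pr_alt hψ (u 0))
  · simpa [PrF_one] using inv_mul_cancel₀ hu

theorem PrF_exp (hψ : ∀ u v, ψ u v = -ψ v u) (hu : ψ (u 0) (u 1) ≠ 0) {w : κ → ℂ}
    (hw : w ∈ Submodule.span ℂ (Set.range u)) : w = ∑ a, PrF ψ u a w • u a := by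
  obtain ⟨r, rfl⟩ := (Submodule.mem_span_range_iff_exists_fun ℂ).1 hw
  refine Finset.sum_congr rfl fun a _ => ?_
  congr 1
  rw [map_sum, Finset.sum_eq_single a]
  · rw [map_smul, PrF_self hψ hu, if_pos rfl, smul_eq_mul, mul_one]
  · intro b _ hb
    rw [map_smul, PrF_self hψ hu, if_neg (Ne.symm hb), smul_zero]
  · intro h
    exact absurd (Finset.mem_univ a) h

end plane

section planes

variable {I J : Type} [Fintype I] [DecidableEq I] [Fintype J] [DecidableEq J] {e : I → J}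
  {n : J → ℕ} {κ : J → Type} [∀ j, Fintype (κ j)] [∀ j, DecidableEq (κ j)] {ϖ : ℂ}
  {P : ∀ j, PData (κ j) ϖ} {K : I → Type} [∀ i, Field (K i)] [∀ i, NumberField (K i)] {m : I → ℕ}
  {h : ∀ i, Matrix (Fin (m i)) (Fin (m i)) (K i)}
  {t : ∀ i, Fin (m i) → K i → Module.End ℂ (κ (e i) → ℂ)} {k : ℕ}
  {γ : MultilinearMap ℂ (fun _ : Fin (2 * k) => HW κ n) ℂ} {σ₀ : ∀ i, K i →+* ℂ}
  {T₀ : I → Prop} {c : ∀ i, K i →+* K i}

/-- the matrix of the operator on `κ j` in the plane `u` -/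
noncomputable def PrX (P : ∀ j, PData (κ j) ϖ) (K : I → Type) [∀ i, Field (K i)] (m : I → ℕ) (j : J)
    (u : Fin 2 → (κ j → ℂ)) : PrA κ K m →ₗ[ℂ] Matrix (Fin 2) (Fin 2) ℂ where
  toFun X := Matrix.of fun a b => PrF (P j).ψ u a (X.1.1 j (u b))
  map_add' X Y := by
    ext a b
    exact map_add (PrF (P j).ψ u a) (X.1.1 j (u b)) (Y.1.1 j (u b))
  map_smul' r X := by
    ext a b
    exact map_smul (PrF (P j).ψ u a) r (X.1.1 j (u b))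

theorem PrX_apply (j : J) (u : Fin 2 → (κ j → ℂ)) (X : PrA κ K m) (a b : Fin 2) :
    PrX P K m j u X a b = PrF (P j).ψ u a (X.1.1 j (u b)) := rfl

variable {W : Submodule ℂ (PrA κ K m)} {j : J} {u : Fin 2 → (κ j → ℂ)}

theorem PrX_exp (hu : (P j).ψ (u 0) (u 1) ≠ 0) {X : PrA κ K m} {b : Fin 2}
    (hs : X.1.1 j (u b) ∈ Submodule.span ℂ (Set.range u)) :
    X.1.1 j (u b) = ∑ a, PrX P K m j u X a b • u a :=
  PrF_exp (P j).hψalt hu hs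

theorem PrX_bra (hu : (P j).ψ (u 0) (u 1) ≠ 0)
    (hs : ∀ X ∈ W, ∀ b, X.1.1 j (u b) ∈ Submodule.span ℂ (Set.range u)) :
    Bra W (PrX P K m j u) := by
  have h1 : ∀ X ∈ W, ∀ Y ∈ W, ∀ a b, PrF (P j).ψ u a (X.1.1 j (Y.1.1 j (u b))) =
      (PrX P K m j u X * PrX P K m j u Y) a b := by
    intro X _ Y hY a b
    rw [PrX_exp hu (hs Y hY b), map_sum, map_sum, Matrix.mul_apply]
    refine Finset.sum_congr rfl fun r _ => ?_
    rw [map_smul, map_smul, smul_eq_mul, ← PrX_apply, mul_comm]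
  intro X hX Y hY
  ext a b
  rw [Matrix.sub_apply, ← h1 X hX Y hY a b, ← h1 Y hY X hX a b, ← map_sub]
  rfl

theorem PrX_tr {X : PrA κ K m} (hX : ∀ v w, (P j).ψ (X.1.1 j v) w + (P j).ψ v (X.1.1 j w) = 0) :
    (PrX P K m j u X).trace = 0 := by
  rw [Matrix.trace_fin_two, PrX_apply, PrX_apply, PrF_zero, PrF_one, ← mul_add, hX, mul_zero]

theorem PrX_cj (hu : (P j).ψ (u 0) (u 1) ≠ 0)
    (hr : ∀ b, twV (P j) (starRingAut : ℂ ≃+* ℂ) (u b) = u b) {X : PrA κ K m}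
    (hs : ∀ b, X.1.1 j (u b) ∈ Submodule.span ℂ (Set.range u)) :
    PrX P K m j u (PrT P (starRingAut : ℂ ≃+* ℂ) X) = (PrX P K m j u X).map conj := by
  ext a b
  have h1 : (PrT P (starRingAut : ℂ ≃+* ℂ) X).1.1 j (u b) =
      ∑ r, conj (PrX P K m j u X r b) • u r := by
    have h2 := twV_tw P (starRingAut : ℂ ≃+* ℂ) X.1 j (u b)
    rw [hr b, PrX_exp hu (hs b), twV_sum] at h2
    refine h2.trans (Finset.sum_congr rfl fun r _ => ?_)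
    rw [twV_smul, hr r]
    rfl
  rw [PrX_apply, h1, map_sum, Matrix.map_apply, Finset.sum_eq_single a]
  · rw [map_smul, PrF_self (P j).hψalt hu, if_pos rfl, smul_eq_mul, mul_one]
  · intro r _ hr
    rw [map_smul, PrF_self (P j).hψalt hu, if_neg (Ne.symm hr), smul_zero]
  · intro h
    exact absurd (Finset.mem_univ a) h

/-- the ideals of the other abelian varieties -/
theorem Prj_s2 (H : FamZ e n P h t γ σ₀ T₀ c) (j : J) (hj : ∀ i, e i ≠ j) :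
    ∃ (R : Type) (_ : Fintype R) (N : R → Submodule ℂ (PrA κ K m)),
      (∀ a, PrN (PrW e n P t γ) (PrT P (starRingAut : ℂ ≃+* ℂ)) (PrD T₀ m) (N a)) ∧
      ∀ A B : PrA κ K m, A ∈ PrW e n P t γ → B ∈ PrW e n P t γ → (∀ a, A ∈ N a) →
        (∀ a, B ∈ N a) → (A * B - B * A).1.1 j = 0 := by
  have hbr : ∀ X ∈ PrW (m := m) e n P t γ, ∀ Y ∈ PrW (m := m) e n P t γ,
      X * Y - Y * X ∈ PrW (m := m) e n P t γ := fun X hX Y hY => PrW_br hX hY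
  have hz : ∀ A B : PrA κ K m, A ∈ PrW e n P t γ ⊓ LinearMap.ker (PrE K m j) →
      (A * B - B * A).1.1 j = 0 := by
    intro A B hA
    have h1 : A.1.1 j = 0 := LinearMap.mem_ker.1 (Submodule.mem_inf.1 hA).2
    show A.1.1 j * B.1.1 j - B.1.1 j * A.1.1 j = 0
    rw [h1, zero_mul, mul_zero, sub_zero]
  rcases H.sp j hj with h1 | ⟨N, u, -, hr, hu, hs, hsp⟩ | ⟨hc, h1⟩
  · exact ⟨Unit, inferInstance, fun _ => PrW e n P t γ ⊓ LinearMap.ker (PrE K m j),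
      fun _ => PrN_co hbr (PrE_bra _ j) fun X hX Y hY => h1 _ _ (hX.1.comm j j) (hY.1.comm j j),
      fun A B _ _ hA _ => hz A B (hA ())⟩
  · have hs' : ∀ X ∈ PrW (m := m) e n P t γ, ∀ a b,
        X.1.1 j (u a b) ∈ Submodule.span ℂ (Set.range (u a)) := fun X hX => hs _ (hX.1.comm j j)
    refine ⟨Fin N, inferInstance, fun a => PrW e n P t γ ⊓ LinearMap.ker (PrX P K m j (u a)),
      fun a => PrN_pl hbr (PrX_bra (hu a) fun X hX b => hs' X hX a b) ?_ ?_ ?_, ?_⟩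
    · intro X hX
      refine PrX_tr fun v w => ?_
      have h2 := hX.1.pol j v w
      rw [hX.2.1, zero_mul] at h2
      exact h2
    · exact fun X hX => PrT_mem H.pi H.S H.B _ hX
    · exact fun X hX => PrX_cj (hu a) (hr a) fun b => hs' X hX a b
    · intro A B hA hB hA' hB'
      have hz' : ∀ X ∈ PrW (m := m) e n P t γ,
          (∀ a, X ∈ PrW e n P t γ ⊓ LinearMap.ker (PrX P K m j (u a))) → X.1.1 j = 0 := by
        intro X hX hX'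
        refine LinearMap.ext fun v => ?_
        have h3 := hsp v
        rw [LinearMap.zero_apply]
        refine Submodule.span_induction (p := fun v _ => X.1.1 j v = 0) ?_ (map_zero _) ?_ ?_ h3
        · rintro _ ⟨a, b, rfl⟩
          have h4 : PrX P K m j (u a) X = 0 := LinearMap.mem_ker.1 (Submodule.mem_inf.1 (hX' a)).2
          rw [PrX_exp (hu a) (hs' X hX a b), h4]
          exact Finset.sum_eq_zero fun r _ => zero_smul ℂ _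
        · intro x y _ _ hx hy
          rw [map_add, hx, hy, add_zero]
        · intro r x _ hx
          rw [map_smul, hx, smul_zero]
      show A.1.1 j * B.1.1 j - B.1.1 j * A.1.1 j = 0
      rw [hz' A hA hA', zero_mul, mul_zero, sub_zero]
  · obtain ⟨h2, h3⟩ := thm_Ssp (κ j) (P j).ψ hc (P j).hψalt (P j).hψnd
    refine ⟨Unit, inferInstance, fun _ => PrW e n P t γ ⊓ LinearMap.ker (PrE K m j),
      fun _ => PrN_si hbr (PrE_bra _ j) (SP (P j).ψ) inferInstance h2 ?_ ?_ ?_,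
      fun A B _ _ hA _ => hz A B (hA ())⟩
    · intro X hX v w
      have h2 := hX.1.pol j v w
      rw [hX.2.1, zero_mul] at h2
      exact h2
    · intro Z hZ
      obtain ⟨X, hX, hX2, hXZ⟩ := h1 Z hZ
      choose M hM using H.T X hX
      exact ⟨(X, M), ⟨hX, hX2, hM⟩, hXZ⟩
    · intro r hr h4
      exact hr.1 (h4.symm.trans h3)

/-- the ideals for one `j` -/
theorem Prj_s (H : FamZ e n P h t γ σ₀ T₀ c) (j : J) (hj : ∀ i, T₀ i → e i ≠ j) :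
    ∃ (R : Type) (_ : Fintype R) (N : R → Submodule ℂ (PrA κ K m)),
      (∀ a, PrN (PrW e n P t γ) (PrT P (starRingAut : ℂ ≃+* ℂ)) (PrD T₀ m) (N a)) ∧
      ∀ A B : PrA κ K m, A ∈ PrW e n P t γ → B ∈ PrW e n P t γ → (∀ a, A ∈ N a) →
        (∀ a, B ∈ N a) → (A * B - B * A).1.1 j = 0 := by
  by_cases h1 : ∃ i, e i = j
  · obtain ⟨i, rfl⟩ := h1
    have h2 : ¬ T₀ i := fun h => hj i h rfl
    exact ⟨K i →+* ℂ, Fintype.ofFinite _, fun σ => PrW e n P t γ ⊓ LinearMap.ker (PrC κ m i σ),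
      fun σ => Prj_s1 H i h2 σ, fun A B hA hB hA' hB' => Prj_s1' H i hA hB hA' hB'⟩
  · exact Prj_s2 H j fun i hi => h1 ⟨i, hi⟩

end planes

end Pool.Agent.KTW
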