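import Pool.Agent.KTW.StY

/-!
# KTW [PryN]: `so(2,4)` against `su(1,3)` and `su(4)`
-/

set_option autoImplicit false

open scoped ComplexConjugate

namespace Pool.Agent.KTW

open Module Matrix
open Pool.Agent.Ball

/-- `(ad Z)^3 X = (ad Z) X` -/
def Cub {𝓑 : Type} [Ring 𝓑] (Z X : 𝓑) : Prop :=
  Z * (Z * (Z * X - X * Z) - (Z * X - X * Z) * Z) -
    (Z * (Z * X - X * Z) - (Z * X - X * Z) * Z) * Z = Z * X - X * Z

/-! ### Lorentz forms -/

theorem Pry_iso {m : ℕ} {H : Matrix (Fin m) (Fin m) ℂ} (hH : Definite H ∨ Lorentz H ∨ Lorentz (-H))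
    (W : Submodule ℂ (Fin m → ℂ)) (hW : ∀ u ∈ W, hf H u u = 0) : finrank ℂ W ≤ 1 := by
  have key : ∀ H' : Matrix (Fin m) (Fin m) ℂ, Lorentz H' → (∀ u ∈ W, hf H' u u = 0) →
      finrank ℂ W ≤ 1 := by
    rintro H' ⟨-, e, -, he⟩ h0
    let f : W →ₗ[ℂ] ℂ :=
      { toFun := fun v => hf H' e v.1
        map_add' := fun u v => hf_add_right H' e u.1 v.1
        map_smul' := fun a v => hf_smul_right H' a e v.1 }
    have h2 : Function.Injective f := by
      rw [injective_iff_map_eq_zero]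
      intro v hv
      by_contra hv0
      have h3 := he v.1 hv fun h => hv0 (Subtype.ext h)
      rw [h0 v.1 v.2, Complex.zero_re] at h3
      exact lt_irrefl _ h3
    have h3 := LinearMap.finrank_le_finrank_of_injective h2
    rwa [Module.finrank_self] at h3
  rcases hH with hH | hH | hH
  · have h1 : W = ⊥ := by
      rw [Submodule.eq_bot_iff]
      intro v hv
      by_contra hv0
      rcases hH.2 with h2 | h2
      · have h3 := h2 v hv0
        rw [hW v hv, Complex.zero_re] at h3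
        exact lt_irrefl _ h3
      · have h3 := h2 v hv0
        rw [hW v hv, Complex.zero_re] at h3
        exact lt_irrefl _ h3
    rw [h1, finrank_bot]
    omega
  · exact key H hH hW
  · refine key (-H) hH fun u hu => ?_
    rw [hf, Matrix.neg_mulVec, dotProduct_neg]
    have h1 := hW u hu
    rw [hf] at h1
    rw [h1, neg_zero]

/-- the conjugate form -/
theorem Pry_lo {m : ℕ} {H : Matrix (Fin m) (Fin m) ℂ} (hH : Lorentz H) : Lorentz (H.map conj) := by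
  obtain ⟨h1, e, h2, h3⟩ := hH
  have key : ∀ u v : Fin m → ℂ, hf (H.map conj) u v = conj (hf H (star u) (star v)) := by
    intro u v
    rw [hf, hf, dotProduct, dotProduct, map_sum]
    refine Finset.sum_congr rfl fun a _ => ?_
    rw [map_mul, Matrix.mulVec, Matrix.mulVec, dotProduct, dotProduct, map_sum, star_star]
    congr 1
    refine Finset.sum_congr rfl fun b _ => ?_
    rw [Matrix.map_apply, map_mul]
    congr 1
    exact (Complex.conj_conj (v b)).symm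
  refine ⟨?_, star e, ?_, fun v hv hv0 => ?_⟩
  · ext a b
    have h4 := congrFun (congrFun h1 a) b
    rw [Matrix.conjTranspose_apply] at h4 ⊢
    rw [Matrix.map_apply, Matrix.map_apply, ← h4]
    rfl
  · rw [key, star_star, Complex.conj_re]
    exact h2
  · rw [key, Complex.conj_re]
    refine h3 _ ?_ fun h => hv0 ?_
    · rw [key, star_star] at hv
      exact (map_eq_zero conj).1 hv
    · rw [← star_star v, h, star_zero]

/-! ### No cubes -/

section neg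

variable {m : ℕ} {Z : Matrix (Fin m) (Fin m) ℂ}

/-- `(Z - l)^3 = Z - l` for every eigenvalue `l` -/
theorem Pry_cube (hZ : ∀ X : Matrix (Fin m) (Fin m) ℂ, Cub Z X) {l : ℂ} {v : Fin m → ℂ}
    (hv : v ≠ 0) (hvl : Z *ᵥ v = l • v) :
    (Z - l • 1) * (Z - l • 1) * (Z - l • 1) = Z - l • 1 := by
  set B := Z - l • (1 : Matrix (Fin m) (Fin m) ℂ) with hB
  have h1 : ∀ w : Fin m → ℂ, Z * vecMulVec v w - vecMulVec v w * Z = -vecMulVec v (w ᵥ* B) := by
    intro w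
    rw [Matrix.mul_vecMulVec, hvl, Matrix.vecMulVec_mul, hB, Matrix.vecMul_sub, Matrix.vecMul_smul,
      Matrix.vecMul_one, Matrix.vecMulVec_sub, Matrix.smul_vecMulVec, Matrix.vecMulVec_smul]
    abel
  have h2 : ∀ w : Fin m → ℂ, w ᵥ* (B * B * B) = w ᵥ* B := by
    intro w
    have h3 := hZ (vecMulVec v w)
    unfold Cub at h3
    have h6 : Z * -vecMulVec v (w ᵥ* B) - -vecMulVec v (w ᵥ* B) * Z =
        vecMulVec v (w ᵥ* B ᵥ* B) := by
      have h7 := h1 (w ᵥ* B)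
      rw [mul_neg, neg_mul, sub_neg_eq_add, neg_add_eq_sub, ← neg_sub, h7, neg_neg]
    rw [h1 w, h6, h1, Matrix.vecMul_vecMul, Matrix.vecMul_vecMul] at h3
    have h4 := neg_injective h3
    funext b
    obtain ⟨a, ha⟩ := Function.ne_iff.1 hv
    have h5 := congrFun (congrFun h4 a) b
    rw [Matrix.vecMulVec_apply, Matrix.vecMulVec_apply] at h5
    have h6 := mul_left_cancel₀ ha h5
    rw [Matrix.mul_assoc]
    simpa only [Matrix.mul_assoc] using h6
  have h8 : (B * B * B) = B := by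
    refine Matrix.ext fun a b => ?_
    have h3 := congrFun (h2 (Pi.single a 1)) b
    rw [Matrix.single_one_vecMul, Matrix.single_one_vecMul] at h3
    exact h3
  exact h8

theorem Pry_eig {Z : Matrix (Fin m) (Fin m) ℂ} {l μ : ℂ}
    (h : (Z - l • 1) * (Z - l • 1) * (Z - l • 1) = Z - l • 1) {u : Fin m → ℂ} (hu : u ≠ 0)
    (huμ : Z *ᵥ u = μ • u) : μ = l ∨ μ = l + 1 ∨ μ = l - 1 := by
  have h1 : (Z - l • 1) *ᵥ u = (μ - l) • u := by
    rw [Matrix.sub_mulVec, Matrix.smul_mulVec, Matrix.one_mulVec, huμ, sub_smul]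
  have h2 := congrArg (fun A => A *ᵥ u) h
  have h3 : ((Z - l • 1) * (Z - l • 1) * (Z - l • 1)) *ᵥ u = (μ - l) • u := h2.trans h1
  rw [← Matrix.mulVec_mulVec, h1, Matrix.mulVec_smul, ← Matrix.mulVec_mulVec, h1,
    Matrix.mulVec_smul, h1, smul_smul, smul_smul] at h3
  obtain ⟨a, ha⟩ := Function.ne_iff.1 hu
  have h4 := congrFun h3 a
  rw [Pi.smul_apply, Pi.smul_apply, smul_eq_mul, smul_eq_mul] at h4
  have h5 := mul_right_cancel₀ ha h4
  have h6 : (μ - l) * ((μ - l - 1) * (μ - l + 1)) = 0 := by linear_combination h5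
  rcases mul_eq_zero.1 h6 with h7 | h7
  · left
    linear_combination h7
  · rcases mul_eq_zero.1 h7 with h8 | h8
    · right; left
      linear_combination h8
    · right; right
      linear_combination h8

/-- a matrix which kills a nonzero vector or is injective -/
theorem Pry_ker (A : Matrix (Fin m) (Fin m) ℂ) (h : ∀ u, A *ᵥ u = 0 → u = 0) : IsUnit A.det := by
  rw [isUnit_iff_ne_zero]
  intro h0
  obtain ⟨u, hu, hu0⟩ := Matrix.exists_mulVec_eq_zero_iff.2 h0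
  exact hu (h u hu0)

/-- the adjoint eigenvalue -/
theorem Pry_adj {H : Matrix (Fin m) (Fin m) ℂ} (hd : IsUnit H.det) (hsk : Zᴴ * H + H * Z = 0)
    {l : ℂ} {v : Fin m → ℂ} (hv : v ≠ 0) (hvl : Z *ᵥ v = l • v) :
    ∃ u : Fin m → ℂ, u ≠ 0 ∧ Z *ᵥ u = (-conj l) • u := by
  by_contra hcon
  push Not at hcon
  have h1 : IsUnit (Z + conj l • 1).det := by
    refine Pry_ker _ fun u hu => ?_
    by_contra hu0
    refine hcon u hu0 ?_
    rw [Matrix.add_mulVec, Matrix.smul_mulVec, Matrix.one_mulVec] at hu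
    rw [neg_smul]
    exact eq_neg_of_add_eq_zero_left hu
  have h2 : H * (Z + conj l • 1) = -((Z - l • 1)ᴴ * H) := by
    rw [Matrix.conjTranspose_sub, Matrix.conjTranspose_smul, Matrix.conjTranspose_one, sub_mul,
      mul_add, mul_smul_comm, smul_mul_assoc, mul_one, one_mul, eq_neg_of_add_eq_zero_right hsk]
    have h3 : star l = conj l := rfl
    rw [h3]
    abel
  have h3 : IsUnit (H * (Z + conj l • 1)).det := by
    rw [Matrix.det_mul]
    exact hd.mul h1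
  have h4 : (Z - l • 1).det = 0 := by
    refine Matrix.exists_mulVec_eq_zero_iff.1 ⟨v, hv, ?_⟩
    rw [Matrix.sub_mulVec, Matrix.smul_mulVec, Matrix.one_mulVec, hvl, sub_self]
  rw [h2, Matrix.det_neg, Matrix.det_mul, Matrix.det_conjTranspose, h4, star_zero, zero_mul,
    mul_zero] at h3
  exact h3.ne_zero rfl

/-- a matrix with one eigenvalue -/
theorem Pry_one {l : ℂ} (h : (Z - l • 1) * (Z - l • 1) * (Z - l • 1) = Z - l • 1)
    (h1 : ∀ (μ : ℂ) (u : Fin m → ℂ), u ≠ 0 → Z *ᵥ u = μ • u → μ ≠ l - 1) :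
    (Z - l • 1) * (Z - l • 1) = Z - l • 1 := by
  set B := Z - l • (1 : Matrix (Fin m) (Fin m) ℂ) with hB
  have hu : IsUnit (B + 1).det := by
    refine Pry_ker _ fun u hu => ?_
    by_contra hu0
    refine h1 (l - 1) u hu0 ?_ rfl
    rw [hB, Matrix.add_mulVec, Matrix.sub_mulVec, Matrix.smul_mulVec, Matrix.one_mulVec] at hu
    rw [sub_smul, one_smul, eq_sub_iff_add_eq, ← sub_eq_zero, ← hu]
    abel
  have h2 : (B + 1) * (B * B - B) = 0 := by
    have h3 : (B + 1) * (B * B - B) = B * B * B - B := by noncomm_ring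
    rw [h3, h, sub_self]
  have h3 : (B + 1)⁻¹ * ((B + 1) * (B * B - B)) = B * B - B := by
    rw [← Matrix.mul_assoc, nonsing_inv_mul _ hu, Matrix.one_mul]
  rw [h2, Matrix.mul_zero] at h3
  exact (sub_eq_zero.1 h3.symm)

/-- forms with small isotropic subspaces: `(ad Z)^3 = ad Z` implies `Z = 0` -/
theorem Pry_neg {H : Matrix (Fin m) (Fin m) ℂ} (hm : 3 ≤ m)
    (hH : Definite H ∨ Lorentz H ∨ Lorentz (-H)) (hd : IsUnit H.det) (hsk : Zᴴ * H + H * Z = 0)
    (htr : Z.trace = 0) (hZ : ∀ X : Matrix (Fin m) (Fin m) ℂ, Cub Z X) : Z = 0 := by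
  have : Nonempty (Fin m) := ⟨⟨0, by omega⟩⟩
  have hiso : ∀ (l l' : ℂ) (u v : Fin m → ℂ), Z *ᵥ u = l • u → Z *ᵥ v = l' • v →
      conj l + l' ≠ 0 → hf H u v = 0 := by
    intro l l' u v hu hv hl
    have h3 : star u ⬝ᵥ ((Zᴴ * H + H * Z) *ᵥ v) = 0 := by
      rw [hsk, Matrix.zero_mulVec, dotProduct_zero]
    have h4 : star u ⬝ᵥ ((Zᴴ * H) *ᵥ v) = hf H (Z *ᵥ u) v := by
      rw [hf, star_mulVec, ← Matrix.mulVec_mulVec, Matrix.dotProduct_mulVec]
    have h5 : star u ⬝ᵥ ((H * Z) *ᵥ v) = hf H u (Z *ᵥ v) := by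
      rw [hf, ← Matrix.mulVec_mulVec]
    rw [Matrix.add_mulVec, dotProduct_add, h4, h5, hu, hv, hf_smul_left, hf_smul_right,
      ← add_mul] at h3
    exact (mul_eq_zero.1 h3).resolve_left hl
  obtain ⟨l₀, hl₀⟩ := Module.End.exists_eigenvalue (Matrix.toLin' Z)
  obtain ⟨v₀, hv₀⟩ := hl₀.exists_hasEigenvector
  have hv0 : v₀ ≠ 0 := hv₀.2
  have hvl : Z *ᵥ v₀ = l₀ • v₀ := by
    have h1 := hv₀.apply_eq_smul
    rwa [Matrix.toLin'_apply] at h1
  obtain ⟨u₀, hu0, hul⟩ := Pry_adj hd hsk hv0 hvl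
  -- real parts of the eigenvalues
  have hre : ∀ (μ : ℂ) (u : Fin m → ℂ), u ≠ 0 → Z *ᵥ u = μ • u → μ.re = 0 ∨ μ.re = 1 / 2 ∨
      μ.re = -1 / 2 := by
    intro μ u hu huμ
    obtain ⟨w, hw, hwμ⟩ := Pry_adj hd hsk hu huμ
    have h1 := Pry_eig (Pry_cube hZ hu huμ) hw hwμ
    rcases h1 with h1 | h1 | h1
    · left
      have h2 := congrArg Complex.re h1
      rw [Complex.neg_re, Complex.conj_re] at h2
      linarith
    · right; right
      have h2 := congrArg Complex.re h1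
      rw [Complex.neg_re, Complex.conj_re, Complex.add_re, Complex.one_re] at h2
      linarith
    · right; left
      have h2 := congrArg Complex.re h1
      rw [Complex.neg_re, Complex.conj_re, Complex.sub_re, Complex.one_re] at h2
      linarith
  have hdif : ∀ (μ : ℂ) (u : Fin m → ℂ), u ≠ 0 → Z *ᵥ u = μ • u → μ = l₀ ∨ μ = l₀ + 1 ∨
      μ = l₀ - 1 := fun μ u hu huμ => Pry_eig (Pry_cube hZ hv0 hvl) hu huμ
  by_cases h0 : l₀.re = 0
  · -- one eigenvalue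
    have h1 : ∀ (μ : ℂ) (u : Fin m → ℂ), u ≠ 0 → Z *ᵥ u = μ • u → μ = l₀ := by
      intro μ u hu huμ
      rcases hdif μ u hu huμ with h2 | h2 | h2
      · exact h2
      · exfalso
        have h3 := hre μ u hu huμ
        rw [h2, Complex.add_re, h0, Complex.one_re] at h3
        rcases h3 with h3 | h3 | h3 <;> norm_num at h3
      · exfalso
        have h3 := hre μ u hu huμ
        rw [h2, Complex.sub_re, h0, Complex.one_re] at h3
        rcases h3 with h3 | h3 | h3 <;> norm_num at h3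
    have h2 := Pry_one (Pry_cube hZ hv0 hvl) fun μ u hu huμ h3 => by
      rw [h1 μ u hu huμ] at h3
      have h4 := congrArg Complex.re h3
      rw [Complex.sub_re, Complex.one_re] at h4
      linarith
    -- `B (B - 1) = 0` and `B - 1` is injective
    set B := Z - l₀ • (1 : Matrix (Fin m) (Fin m) ℂ) with hB
    have hB0 : B = 0 := by
      have h3 : ∀ x, B *ᵥ x = 0 := by
        intro x
        by_contra hx
        have h4 := h1 (l₀ + 1) (B *ᵥ x) hx (by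
          have h5 : B *ᵥ (B *ᵥ x) = B *ᵥ x := by rw [Matrix.mulVec_mulVec, h2]
          have h6 : Z = B + l₀ • 1 := by rw [hB]; abel
          conv_lhs => rw [h6]
          rw [Matrix.add_mulVec, Matrix.smul_mulVec, Matrix.one_mulVec, h5, add_smul, one_smul,
            add_comm])
        have h5 := congrArg Complex.re h4
        rw [Complex.add_re, Complex.one_re] at h5
        linarith
      apply Matrix.toLin'.injective
      rw [map_zero]
      exact LinearMap.ext h3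
    have hZl : Z = l₀ • 1 := sub_eq_zero.1 hB0
    rw [hZl, Matrix.trace_smul, Matrix.trace_one, Fintype.card_fin, smul_eq_mul] at htr
    have h4 : (m : ℂ) ≠ 0 := Nat.cast_ne_zero.2 (by omega)
    rw [hZl, (mul_eq_zero.1 htr).resolve_right h4, zero_smul]
  · -- an eigenvalue with real part `-1/2`
    exfalso
    obtain ⟨l, v, hv, hvl, hl⟩ : ∃ (l : ℂ) (v : Fin m → ℂ), v ≠ 0 ∧ Z *ᵥ v = l • v ∧
        l.re = -1 / 2 := by
      rcases hre l₀ v₀ hv0 hvl with h1 | h1 | h1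
      · exact absurd h1 h0
      · refine ⟨_, u₀, hu0, hul, ?_⟩
        rw [Complex.neg_re, Complex.conj_re, h1]
        norm_num
      · exact ⟨l₀, v₀, hv0, hvl, h1⟩
    have h2 := Pry_one (Pry_cube hZ hv hvl) fun μ u hu huμ h3 => by
      have h4 := hre μ u hu huμ
      rw [h3, Complex.sub_re, Complex.one_re, hl] at h4
      rcases h4 with h4 | h4 | h4 <;> norm_num at h4
    set B := Z - l • (1 : Matrix (Fin m) (Fin m) ℂ) with hB
    have hZB : Z = B + l • 1 := by rw [hB]; abel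
    have e1 : ∀ x, Z *ᵥ (B *ᵥ x) = (l + 1) • (B *ᵥ x) := by
      intro x
      have h5 : B *ᵥ (B *ᵥ x) = B *ᵥ x := by rw [Matrix.mulVec_mulVec, h2]
      conv_lhs => rw [hZB]
      rw [Matrix.add_mulVec, Matrix.smul_mulVec, Matrix.one_mulVec, h5, add_smul, one_smul,
        add_comm]
    have e2 : ∀ x, Z *ᵥ ((1 - B) *ᵥ x) = l • ((1 - B) *ᵥ x) := by
      intro x
      have h5 : B *ᵥ ((1 - B) *ᵥ x) = 0 := by
        rw [Matrix.mulVec_mulVec, Matrix.mul_sub, Matrix.mul_one, h2, sub_self,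
          Matrix.zero_mulVec]
      conv_lhs => rw [hZB]
      rw [Matrix.add_mulVec, Matrix.smul_mulVec, Matrix.one_mulVec, h5, zero_add]
    have f1 : finrank ℂ (LinearMap.range (Matrix.toLin' B)) ≤ 1 := by
      refine Pry_iso hH _ ?_
      rintro _ ⟨x, rfl⟩
      rw [Matrix.toLin'_apply]
      refine hiso _ _ _ _ (e1 x) (e1 x) fun h => ?_
      have h5 := congrArg Complex.re h
      rw [Complex.add_re, Complex.conj_re, Complex.add_re, Complex.one_re, hl,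
        Complex.zero_re] at h5
      norm_num at h5
    have f2 : finrank ℂ (LinearMap.range (Matrix.toLin' (1 - B))) ≤ 1 := by
      refine Pry_iso hH _ ?_
      rintro _ ⟨x, rfl⟩
      rw [Matrix.toLin'_apply]
      refine hiso _ _ _ _ (e2 x) (e2 x) fun h => ?_
      have h5 := congrArg Complex.re h
      rw [Complex.add_re, Complex.conj_re, hl, Complex.zero_re] at h5
      norm_num at h5
    have f3 : LinearMap.range (Matrix.toLin' B) ⊔ LinearMap.range (Matrix.toLin' (1 - B)) = ⊤ := by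
      rw [eq_top_iff]
      intro x _
      have h5 : x = Matrix.toLin' B x + Matrix.toLin' (1 - B) x := by
        rw [Matrix.toLin'_apply, Matrix.toLin'_apply, ← Matrix.add_mulVec, add_sub_cancel,
          Matrix.one_mulVec]
      rw [h5]
      exact Submodule.add_mem_sup ⟨x, rfl⟩ ⟨x, rfl⟩
    have f4 := Submodule.finrank_add_le_finrank_add_finrank (LinearMap.range (Matrix.toLin' B))
      (LinearMap.range (Matrix.toLin' (1 - B)))
    rw [f3, finrank_top, Module.finrank_fin_fun] at f4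
    omega

end neg


/-! ### The real element of `so(2, n)` -/

section pos

variable {m : ℕ}

theorem Pry_alg {Z₀ Z : Matrix (Fin m) (Fin m) ℂ} {s : ℂ} (h1 : Z₀ * Z₀ * Z₀ = Z₀)
    (h2 : Z₀ * Z * Z₀ = s • Z₀) : Cub Z₀ Z := by
  unfold Cub
  have e1 : Z₀ * (Z₀ * (Z₀ * Z - Z * Z₀) - (Z₀ * Z - Z * Z₀) * Z₀) -
      (Z₀ * (Z₀ * Z - Z * Z₀) - (Z₀ * Z - Z * Z₀) * Z₀) * Z₀ =
      (Z₀ * Z₀ * Z₀) * Z - 3 • (Z₀ * (Z₀ * Z * Z₀)) + 3 • ((Z₀ * Z * Z₀) * Z₀) -
        Z * (Z₀ * Z₀ * Z₀) := by noncomm_ring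
  rw [e1, h1, h2, mul_smul_comm, smul_mul_assoc]
  abel

/-- the element of two isotropic vectors -/
theorem Pry_hyp {H : Matrix (Fin m) (Fin m) ℂ} (hH : Hᵀ = H) {x y : Fin m → ℂ}
    (hxx : x ⬝ᵥ (H *ᵥ x) = 0) (hyy : y ⬝ᵥ (H *ᵥ y) = 0) (hxy : x ⬝ᵥ (H *ᵥ y) = 1) :
    vecMulVec x (H *ᵥ y) - vecMulVec y (H *ᵥ x) ∈ SO H ∧
      vecMulVec x (H *ᵥ y) - vecMulVec y (H *ᵥ x) ≠ 0 ∧
      ∀ Z ∈ SO H, Cub (vecMulVec x (H *ᵥ y) - vecMulVec y (H *ᵥ x)) Z := by
  have hsw : ∀ u v : Fin m → ℂ, u ⬝ᵥ (H *ᵥ v) = v ⬝ᵥ (H *ᵥ u) := by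
    intro u v
    rw [Matrix.dotProduct_mulVec, ← Matrix.mulVec_transpose, hH, dotProduct_comm]
  have hyx : y ⬝ᵥ (H *ᵥ x) = 1 := by rw [hsw, hxy]
  set a := H *ᵥ x with ha
  set b := H *ᵥ y with hb
  have hax : a ⬝ᵥ x = 0 := by rw [dotProduct_comm]; exact hxx
  have hby : b ⬝ᵥ y = 0 := by rw [dotProduct_comm]; exact hyy
  have hay : a ⬝ᵥ y = 1 := by rw [dotProduct_comm]; exact hyx
  have hbx : b ⬝ᵥ x = 1 := by rw [dotProduct_comm]; exact hxy
  have hvH : ∀ u : Fin m → ℂ, u ᵥ* H = H *ᵥ u := by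
    intro u
    rw [← Matrix.mulVec_transpose, hH]
  refine ⟨?_, ?_, fun Z hZ => ?_⟩
  · show (vecMulVec x b - vecMulVec y a)ᵀ * H + H * (vecMulVec x b - vecMulVec y a) = 0
    rw [Matrix.transpose_sub, Matrix.transpose_vecMulVec, Matrix.transpose_vecMulVec, sub_mul,
      mul_sub, Matrix.vecMulVec_mul, Matrix.vecMulVec_mul, Matrix.mul_vecMulVec,
      Matrix.mul_vecMulVec, hvH, hvH, ← ha, ← hb]
    abel
  · intro h0
    have h1 := congrArg (fun A => A *ᵥ x) h0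
    have h2 : (vecMulVec x b - vecMulVec y a) *ᵥ x = x := by
      rw [Matrix.sub_mulVec, Matrix.vecMulVec_mulVec, Matrix.vecMulVec_mulVec, hbx, hax]
      simp
    have h3 : x = 0 := by
      rw [← h2]
      exact h1.trans (Matrix.zero_mulVec x)
    rw [h3, zero_dotProduct] at hxy
    exact zero_ne_one hxy
  · have hZ1 : Zᵀ * H = -(H * Z) := eq_neg_of_add_eq_zero_left hZ
    -- `u (H Z) v` is antisymmetric
    have hsk : ∀ u v : Fin m → ℂ, (H *ᵥ u) ⬝ᵥ (Z *ᵥ v) = -((H *ᵥ v) ⬝ᵥ (Z *ᵥ u)) := by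
      intro u v
      have e1 : ∀ u v : Fin m → ℂ, (H *ᵥ u) ⬝ᵥ (Z *ᵥ v) = u ⬝ᵥ ((H * Z) *ᵥ v) := by
        intro u v
        rw [← Matrix.mulVec_mulVec, Matrix.dotProduct_mulVec u H, hvH]
      rw [e1, e1]
      have e2 : (H * Z)ᵀ = -(H * Z) := by rw [Matrix.transpose_mul, hH, hZ1]
      rw [Matrix.dotProduct_mulVec, ← Matrix.mulVec_transpose, e2, Matrix.neg_mulVec,
        neg_dotProduct, dotProduct_comm]
    have haa : a ⬝ᵥ (Z *ᵥ x) = 0 := by
      have h1 := hsk x x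
      have h2 : (2 : ℂ) * (a ⬝ᵥ (Z *ᵥ x)) = 0 := by linear_combination h1
      exact (mul_eq_zero.1 h2).resolve_left two_ne_zero
    have hbb : b ⬝ᵥ (Z *ᵥ y) = 0 := by
      have h1 := hsk y y
      have h2 : (2 : ℂ) * (b ⬝ᵥ (Z *ᵥ y)) = 0 := by linear_combination h1
      exact (mul_eq_zero.1 h2).resolve_left two_ne_zero
    have hab : a ⬝ᵥ (Z *ᵥ y) = -(b ⬝ᵥ (Z *ᵥ x)) := hsk x y
    refine Pry_alg (s := b ⬝ᵥ (Z *ᵥ x)) ?_ ?_
    · have e1 : (vecMulVec x b - vecMulVec y a) * (vecMulVec x b - vecMulVec y a) =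
          vecMulVec x b + vecMulVec y a := by
        rw [sub_mul, mul_sub, mul_sub, Matrix.vecMulVec_mul_vecMulVec,
          Matrix.vecMulVec_mul_vecMulVec, Matrix.vecMulVec_mul_vecMulVec,
          Matrix.vecMulVec_mul_vecMulVec, hbx, hby, hax, hay, one_smul, one_smul, zero_smul,
          zero_smul, Matrix.vecMulVec_zero, Matrix.vecMulVec_zero, sub_zero, zero_sub, sub_neg_eq_add]
      rw [e1, add_mul, mul_sub, mul_sub, Matrix.vecMulVec_mul_vecMulVec,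
          Matrix.vecMulVec_mul_vecMulVec, Matrix.vecMulVec_mul_vecMulVec,
          Matrix.vecMulVec_mul_vecMulVec, hbx, hby, hax, hay, one_smul, one_smul, zero_smul,
          zero_smul, Matrix.vecMulVec_zero, Matrix.vecMulVec_zero, sub_zero, zero_sub,
          ← sub_eq_add_neg]
    · have e2 : ∀ u v p q : Fin m → ℂ, vecMulVec u v * Z * vecMulVec p q =
          (v ⬝ᵥ (Z *ᵥ p)) • vecMulVec u q := by
        intro u v p q
        rw [Matrix.mul_assoc, Matrix.mul_vecMulVec, Matrix.vecMulVec_mul_vecMulVec,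
          Matrix.vecMulVec_smul]
      rw [sub_mul, sub_mul, mul_sub, mul_sub, e2, e2, e2, e2, haa, hbb, hab, zero_smul, zero_smul,
        sub_zero, zero_sub, neg_smul, smul_sub, sub_neg_eq_add, ← sub_eq_add_neg]

/-- two real isotropic vectors -/
theorem Pry_iso2 {G : Matrix (Fin m) (Fin m) ℝ} (hG : Gᵀ = G) {p w : Fin m → ℝ}
    (hp : 0 < p ⬝ᵥ (G *ᵥ p)) (hw : w ⬝ᵥ (G *ᵥ w) < 0) :
    ∃ x y : Fin m → ℝ, x ⬝ᵥ (G *ᵥ x) = 0 ∧ y ⬝ᵥ (G *ᵥ y) = 0 ∧ x ⬝ᵥ (G *ᵥ y) = 1 := by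
  have hsw : ∀ u v : Fin m → ℝ, u ⬝ᵥ (G *ᵥ v) = v ⬝ᵥ (G *ᵥ u) := by
    intro u v
    rw [Matrix.dotProduct_mulVec, ← Matrix.mulVec_transpose, hG, dotProduct_comm]
  have hbi : ∀ (r s r' s' : ℝ) (u v : Fin m → ℝ), (r • u + s • v) ⬝ᵥ (G *ᵥ (r' • u + s' • v)) =
      r * r' * (u ⬝ᵥ (G *ᵥ u)) + (r * s' + s * r') * (u ⬝ᵥ (G *ᵥ v)) +
        s * s' * (v ⬝ᵥ (G *ᵥ v)) := by
    intro r s r' s' u v
    rw [Matrix.mulVec_add, Matrix.mulVec_smul, Matrix.mulVec_smul, add_dotProduct, dotProduct_add,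
      dotProduct_add, smul_dotProduct, smul_dotProduct, smul_dotProduct, smul_dotProduct,
      dotProduct_smul, dotProduct_smul, dotProduct_smul, dotProduct_smul, hsw v u]
    simp only [smul_eq_mul]
    ring
  set P := p ⬝ᵥ (G *ᵥ p) with hP
  set n : Fin m → ℝ := (-((p ⬝ᵥ (G *ᵥ w)) / P)) • p + (1 : ℝ) • w with hn
  have hnn : n ⬝ᵥ (G *ᵥ n) < 0 := by
    rw [hn, hbi, ← hP]
    have h1 : -((p ⬝ᵥ (G *ᵥ w)) / P) * -((p ⬝ᵥ (G *ᵥ w)) / P) * P +
        (-((p ⬝ᵥ (G *ᵥ w)) / P) * 1 + 1 * -((p ⬝ᵥ (G *ᵥ w)) / P)) * (p ⬝ᵥ (G *ᵥ w)) +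
        1 * 1 * (w ⬝ᵥ (G *ᵥ w)) = (w ⬝ᵥ (G *ᵥ w)) - (p ⬝ᵥ (G *ᵥ w)) ^ 2 / P := by
      field_simp
      ring
    rw [h1]
    have h2 : 0 ≤ (p ⬝ᵥ (G *ᵥ w)) ^ 2 / P := by positivity
    linarith
  have hpn : p ⬝ᵥ (G *ᵥ n) = 0 := by
    rw [hn, Matrix.mulVec_add, Matrix.mulVec_smul, Matrix.mulVec_smul, dotProduct_add,
      dotProduct_smul, dotProduct_smul, ← hP, smul_eq_mul, smul_eq_mul]
    field_simp
    ring
  set N := n ⬝ᵥ (G *ᵥ n) with hN
  have ha : Real.sqrt P * Real.sqrt P = P := Real.mul_self_sqrt hp.le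
  have hb : Real.sqrt (-N) * Real.sqrt (-N) = -N := Real.mul_self_sqrt (by linarith)
  have ha0 : Real.sqrt P ≠ 0 := (Real.sqrt_pos.2 hp).ne'
  have hb0 : Real.sqrt (-N) ≠ 0 := (Real.sqrt_pos.2 (by linarith)).ne'
  set a := Real.sqrt P
  set b := Real.sqrt (-N)
  have hN' : N = -(b * b) := by rw [hb, neg_neg]
  refine ⟨(2 * a)⁻¹ • p + (2 * b)⁻¹ • n, a⁻¹ • p + (-b⁻¹) • n, ?_, ?_, ?_⟩
  · rw [hbi, ← hP, ← hN, hpn, hN', ← ha]
    field_simp
    ring
  · rw [hbi, ← hP, ← hN, hpn, hN', ← ha]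
    field_simp
    ring
  · rw [hbi, ← hP, ← hN, hpn, hN', ← ha]
    field_simp
    ring

/-- the real element -/
theorem Pry_pos {G : Matrix (Fin m) (Fin m) ℝ} (hG : Gᵀ = G) {p w : Fin m → ℝ}
    (hp : 0 < p ⬝ᵥ (G *ᵥ p)) (hw : w ⬝ᵥ (G *ᵥ w) < 0) {H : Matrix (Fin m) (Fin m) ℂ}
    (hH : ∀ a b, H a b = (G a b : ℂ)) :
    ∃ Z₀ ∈ SO H, Z₀.map conj = Z₀ ∧ Z₀ ≠ 0 ∧ ∀ Z ∈ SO H, Cub Z₀ Z := by
  obtain ⟨x, y, hxx, hyy, hxy⟩ := Pry_iso2 hG hp hw
  have hHt : Hᵀ = H := by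
    ext a b
    rw [Matrix.transpose_apply, hH, hH, ← hG, Matrix.transpose_apply, hG]
  have hc : ∀ v : Fin m → ℝ, (H *ᵥ fun i => (v i : ℂ)) = fun i => ((G *ᵥ v) i : ℂ) := by
    intro v
    funext a
    rw [Matrix.mulVec, dotProduct, Matrix.mulVec, dotProduct]
    push_cast
    exact Finset.sum_congr rfl fun b _ => by rw [hH]
  have hd : ∀ u v : Fin m → ℝ, ((fun i => (u i : ℂ)) : Fin m → ℂ) ⬝ᵥ (H *ᵥ fun i => (v i : ℂ)) =
      ((u ⬝ᵥ (G *ᵥ v) : ℝ) : ℂ) := by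
    intro u v
    rw [hc, dotProduct, dotProduct]
    push_cast
    rfl
  obtain ⟨h1, h2, h3⟩ := Pry_hyp hHt (x := fun i => (x i : ℂ)) (y := fun i => (y i : ℂ))
    (by rw [hd, hxx, Complex.ofReal_zero]) (by rw [hd, hyy, Complex.ofReal_zero])
    (by rw [hd, hxy, Complex.ofReal_one])
  refine ⟨_, h1, ?_, h2, h3⟩
  ext a b
  rw [Matrix.map_apply, Matrix.sub_apply, Matrix.vecMulVec_apply, Matrix.vecMulVec_apply, hc, hc,
    map_sub, map_mul, map_mul, Complex.conj_ofReal, Complex.conj_ofReal, Complex.conj_ofReal,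
    Complex.conj_ofReal]

end pos

end Pool.Agent.KTW
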