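import Pool.Agent.KTW.StY
import Pool.Agent.KTW.PrjB
import Pool.Agent.KTW.PryN

/-!
# KTW [PryA]: as `PrjA`, for `FamZ2`
-/

set_option autoImplicit false
set_option linter.unusedSectionVars false

open scoped ComplexConjugate

namespace Pool.Agent.KTW.Pry

open Module Matrix NumberField Pool.Agent.Helper7 Pool.Agent.KS Pool.Agent.Ball Pool.Agent.KSE
  Pool.Agent.Helper28.GPC Pool.Agent.KSE.TwistE
open Pool.Agent.KSR (PL SkP)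

section fam

variable {I J : Type} [Fintype I] [DecidableEq I] [Fintype J] [DecidableEq J] {e : I → J}
  {n : J → ℕ} {κ : J → Type} [∀ j, Fintype (κ j)] [∀ j, DecidableEq (κ j)] {ϖ : ℂ}
  {P : ∀ j, PData (κ j) ϖ} {K : I → Type} [∀ i, Field (K i)] [∀ i, NumberField (K i)] {m : I → ℕ}
  {h : ∀ i, Matrix (Fin (m i)) (Fin (m i)) (K i)}
  {t : ∀ i, Fin (m i) → K i → Module.End ℂ (κ (e i) → ℂ)} {k : ℕ}
  {γ : MultilinearMap ℂ (fun _ : Fin (2 * k) => HW κ n) ℂ} {σ₀ : ∀ i, K i →+* ℂ}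
  {T₀ : I → Prop} {c : ∀ i, K i →+* K i}

/-- the real indices -/
theorem Prj_re (H : FamZ2 e n P h t γ σ₀ T₀ c) (i : I) (hi : RePl (h i) (σ₀ i)) (σ : K i →+* ℂ) :
    (h i |>.map σ)ᵀ = (h i).map σ ∧ IsUnit ((h i).map σ).det ∧ cj σ = σ := by
  refine ⟨?_, ?_, hi.1 σ⟩
  · ext a b
    rw [Matrix.transpose_apply, Matrix.map_apply, Matrix.map_apply, ← (H.S i).herm a b,
      ← (H.S i).conj, hi.1 σ]
  · have h1 : ((h i).map σ).det = σ (h i).det := by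
      rw [RingHom.map_det, RingHom.mapMatrix_apply]
    rw [h1]
    exact IsUnit.mk0 _ ((map_ne_zero σ).2 (H.S i).nd)

/-- a symmetry with given matrices at one index -/
theorem Prj_ext (H : FamZ2 e n P h t γ σ₀ T₀ c) (i : I) {X : GG κ} (hX : IsInv n P γ X)
    (hX2 : X.2 = 0) {M : (K i →+* ℂ) → Matrix (Fin (m i)) (Fin (m i)) ℂ}
    (hM : ActM (t i) (X.1 (e i)) M) : ∃ Y ∈ PrW e n P t γ, Y.1 = X ∧ Y.2 i = M := by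
  choose N hN using H.T X hX
  refine ⟨(X, N), ⟨hX, hX2, hN⟩, rfl, ?_⟩
  have := H.ne i
  exact ActM.unique (H.S i).conj (H.S i).cliff (H.S i).nd (hN i) hM

end fam

section onto

variable {I J : Type} [Fintype I] [DecidableEq I] [Fintype J] [DecidableEq J] {e : I → J}
  {n : J → ℕ} {κ : J → Type} [∀ j, Fintype (κ j)] [∀ j, DecidableEq (κ j)] {ϖ : ℂ}
  {P : ∀ j, PData (κ j) ϖ} {K : I → Type} [∀ i, Field (K i)] [∀ i, NumberField (K i)] {m : I → ℕ}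
  {h : ∀ i, Matrix (Fin (m i)) (Fin (m i)) (K i)}
  {t : ∀ i, Fin (m i) → K i → Module.End ℂ (κ (e i) → ℂ)} {k : ℕ}
  {γ : MultilinearMap ℂ (fun _ : Fin (2 * k) => HW κ n) ℂ} {σ₀ : ∀ i, K i →+* ℂ}
  {T₀ : I → Prop} {c : ∀ i, K i →+* K i}

theorem Prj_skM (H : FamZ2 e n P h t γ σ₀ T₀ c) (i : I) {X : PrA κ K m}
    (hX : X ∈ PrW e n P t γ) : SkewM (h i) (X.2 i) := by
  have := H.ne i
  rw [skewM_iff]
  intro σ x y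
  exact ActM.skew (H.S i).conj (H.S i).cliff (hX.2.2 i) σ x y

theorem Prj_oR (H : FamZ2 e n P h t γ σ₀ T₀ c) (i : I) (hi : RePl (h i) (σ₀ i)) (σ : K i →+* ℂ)
    (Z : Matrix (Fin (m i)) (Fin (m i)) ℂ) (hZ : Z ∈ SO ((h i).map σ)) :
    ∃ X ∈ PrW e n P t γ, X.2 i σ = Z := by
  classical
  obtain ⟨τ, hτ⟩ := Pool.Agent.Helper84.exists_aut (σ₀ i) σ
  obtain ⟨M, ⟨hM1, X, hX, hX2, hXM⟩, hMp, -⟩ := KSW.core_at
    (I := {i // RePl (h i) (σ₀ i)}) (ε := fun i => e i.1) n H.pi P (fun i => H.S i.1) γ H.B H.A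
    (fun i => H.nd i.1) (fun i => i.2.1) (fun i => σ₀ i.1) (fun i => i.2.2.1)
    (fun i => i.2.2.2.1) (fun X hX i => H.T X hX i.1) (fun g hg i => H.Tg g hg i.1)
    ⟨⟨i, hi⟩, σ⟩ hi.2.2.2.1 hi.2.2.2.2.1 τ hτ Z hZ
  obtain ⟨Y, hY, -, h2⟩ := Prj_ext H i hX hX2 (hXM ⟨i, hi⟩)
  exact ⟨Y, hY, by rw [h2]; exact hMp⟩

theorem Prj_oC0 (H : FamZ2 e n P h t γ σ₀ T₀ c) (i : I) (hi : CoPl (h i) (σ₀ i))
    (Z : Matrix (Fin (m i)) (Fin (m i)) ℂ) (hZ : Z.trace = 0) :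
    ∃ X ∈ PrW e n P t γ, X.2 i (σ₀ i) = Z := by
  obtain ⟨M, ⟨X, hX, hX2, hXM⟩, hM, -⟩ := coreC n H.pi P (e i) (H.S i) γ H.B H.A (H.nd i) (H.ne i)
    (fun X hX => H.T X hX i) (fun g hg => H.Tg g hg i) hi.2.2.2.1 hi.2.2.2.2 (σ₀ i) (hi.1 _) hi.2.1
    hi.2.2.1 Z hZ
  obtain ⟨Y, hY, -, h2⟩ := Prj_ext H i hX hX2 hXM
  exact ⟨Y, hY, by rw [h2, hM]⟩

/-- transport of the surjectivity, with an additional condition -/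
theorem Prj_tr (H : FamZ2 e n P h t γ σ₀ T₀ c) (i : I) (σ₁ σ : K i →+* ℂ) (R : J → Prop)
    (h1 : ∀ Z ∈ Lg (h i) σ₁, ∃ X ∈ PrW e n P t γ, (∀ j, R j → X.1.1 j = 0) ∧ X.2 i σ₁ = Z)
    (Z : Matrix (Fin (m i)) (Fin (m i)) ℂ) (hZ : Z ∈ Lg (h i) σ) :
    ∃ X ∈ PrW e n P t γ, (∀ j, R j → X.1.1 j = 0) ∧ X.2 i σ = Z := by
  obtain ⟨τ, hτ⟩ := Pool.Agent.Helper84.exists_aut σ₁ σ
  have hF : (∀ σ : K i →+* ℂ, cj σ = σ) ∨ (∀ σ : K i →+* ℂ, cj σ ≠ σ) :=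
    (H.typ i).imp (fun h => h.1.1) fun h => h.1
  obtain ⟨X, hX, hXj, hXZ⟩ := h1 _ (Prj_Lg hF hτ hZ)
  refine ⟨PrT P τ X, PrT_mem H.pi H.S H.B τ hX, fun j hj => PrT_zero τ (hXj j hj), ?_⟩
  show (X.2 i ((τ.symm : ℂ →+* ℂ).comp σ)).map τ = Z
  rw [Prj_symm hτ, hXZ, Prj_mm]

/-- everything at all places -/
theorem Prj_on (H : FamZ2 e n P h t γ σ₀ T₀ c) (i : I) (σ : K i →+* ℂ)
    (Z : Matrix (Fin (m i)) (Fin (m i)) ℂ) (hZ : Z ∈ Lg (h i) σ) :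
    ∃ X ∈ PrW e n P t γ, X.2 i σ = Z := by
  rcases H.typ i with ⟨hi, -⟩ | hi
  · rw [Lg_re (hi.1 σ)] at hZ
    exact Prj_oR H i hi σ Z hZ
  · obtain ⟨X, h1, -, h2⟩ := Prj_tr H i (σ₀ i) σ (fun _ => False) (fun Z hZ => by
      rw [Lg_co (hi.1 _)] at hZ
      obtain ⟨X, h1, h2⟩ := Prj_oC0 H i hi Z hZ
      exact ⟨X, h1, fun _ h => h.elim, h2⟩) Z hZ
    exact ⟨X, h1, h2⟩

end onto

end Pool.Agent.KTW.Pry
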