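import Pool.Agent.KTW.PryA
import Pool.Agent.KTW.Prj

/-!
# KTW [PryB]: the spectators, for `FamZ2`
-/

set_option autoImplicit false
set_option linter.unusedSectionVars false

open scoped ComplexConjugate

namespace Pool.Agent.KTW.Pry

open Module Matrix NumberField Pool.Agent.Helper7 Pool.Agent.KS Pool.Agent.Ball Pool.Agent.KSE
  Pool.Agent.Helper28.GPC Pool.Agent.KSE.TwistE
open Pool.Agent.KSR (PL SkP)

section spec

variable {𝓐 : Type} [Ring 𝓐] [Algebra ℂ 𝓐]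

/-- targets -/
structure PrG (W : Submodule ℂ 𝓐) (θ : 𝓐 → 𝓐) (D : ℕ → Prop) (E : Prop) {𝓑 : Type} [Ring 𝓑]
    [Algebra ℂ 𝓑] (c : 𝓐 →ₗ[ℂ] 𝓑) (G : Submodule ℂ 𝓑) : Prop where
  fd : FiniteDimensional ℂ G
  sm : Smp G
  br : Bra W c
  im : ∀ X ∈ W, c X ∈ G
  on : ∀ Z ∈ G, ∃ X ∈ W, c X = Z
  d3 : 3 < finrank ℂ G ∨ (3 ≤ finrank ℂ G ∧ ∃ k : 𝓑 → 𝓑, (∀ X ∈ W, c (θ X) = k (c X)) ∧
    ∀ Z ∈ G, ∀ Z' ∈ G, k Z = Z → k Z' = Z' → Z' * Z - Z * Z' = (2 : ℂ) • Z → Z = 0)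
  dd : D (finrank ℂ G) → finrank ℂ G ≠ 10 ∧ 3 < finrank ℂ G ∧ ∃ k : 𝓑 → 𝓑,
    (∀ X ∈ W, c (θ X) = k (c X)) ∧ ∃ Z₀ ∈ G, k Z₀ = Z₀ ∧ Z₀ ≠ 0 ∧ ∀ Z ∈ G, Cub Z₀ Z
  d6 : E → 6 < finrank ℂ G

/-- the ideal `N` does not vanish in the targets -/
structure PrN (W : Submodule ℂ 𝓐) (θ : 𝓐 → 𝓐) (D : ℕ → Prop) (E : Prop) (N : Submodule ℂ 𝓐) :
    Prop where
  le : N ≤ W
  id : ∀ X ∈ W, ∀ Y ∈ N, X * Y - Y * X ∈ N
  nz : ∀ (𝓑 : Type) [Ring 𝓑] [Algebra ℂ 𝓑] (c : 𝓐 →ₗ[ℂ] 𝓑) (G : Submodule ℂ 𝓑),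
    PrG W θ D E c G → ∃ Y ∈ N, c Y ≠ 0

variable {W : Submodule ℂ 𝓐} {θ : 𝓐 → 𝓐} {D : ℕ → Prop} {E : Prop} {𝓒 : Type} [Ring 𝓒]
  [Algebra ℂ 𝓒]

theorem PrN_of (hW : ∀ X ∈ W, ∀ Y ∈ W, X * Y - Y * X ∈ W) {d : 𝓐 →ₗ[ℂ] 𝓒} (hd : Bra W d)
    (h1 : ∀ (𝓑 : Type) [Ring 𝓑] [Algebra ℂ 𝓑] (c : 𝓐 →ₗ[ℂ] 𝓑) (G : Submodule ℂ 𝓑),
      PrG W θ D E c G → ∃ X ∈ W, d X = 0 ∧ c X ≠ 0) :
    PrN W θ D E (W ⊓ LinearMap.ker d) where
  le := inf_le_left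
  id X hX Y hY := by
    obtain ⟨h2, h3⟩ := Submodule.mem_inf.1 hY
    refine Submodule.mem_inf.2 ⟨hW X hX Y h2, ?_⟩
    rw [LinearMap.mem_ker] at h3 ⊢
    rw [hd X hX Y h2, h3, mul_zero, zero_mul, sub_zero]
  nz 𝓑 _ _ c G hG := by
    obtain ⟨X, h2, h3, h4⟩ := h1 𝓑 c G hG
    exact ⟨X, Submodule.mem_inf.2 ⟨h2, LinearMap.mem_ker.2 h3⟩, h4⟩

/-- commuting -/
theorem PrN_co (hW : ∀ X ∈ W, ∀ Y ∈ W, X * Y - Y * X ∈ W) {d : 𝓐 →ₗ[ℂ] 𝓒} (hd : Bra W d)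
    (h1 : ∀ X ∈ W, ∀ Y ∈ W, d X * d Y = d Y * d X) : PrN W θ D E (W ⊓ LinearMap.ker d) :=
  PrN_of hW hd fun 𝓑 _ _ c G hG => by
    have := hG.fd
    exact (thm_Nlk 𝓐 𝓑 W c G hG.sm hW hG.br hG.im hG.on).1 𝓒 d hd (Or.inl h1)

/-- of small dimension -/
theorem PrN_sm (hW : ∀ X ∈ W, ∀ Y ∈ W, X * Y - Y * X ∈ W) {d : 𝓐 →ₗ[ℂ] 𝓒} (hd : Bra W d)
    (F : Submodule ℂ 𝓒) (hF : FiniteDimensional ℂ F) (h1 : ∀ X ∈ W, d X ∈ F)
    (h2 : finrank ℂ F ≤ 6) (hE : E) : PrN W θ D E (W ⊓ LinearMap.ker d) :=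
  PrN_of hW hd fun 𝓑 _ _ c G hG => by
    have := hG.fd
    exact (thm_Nlk 𝓐 𝓑 W c G hG.sm hW hG.br hG.im hG.on).1 𝓒 d hd
      (Or.inr (Or.inl ⟨F, hF, h1, lt_of_le_of_lt h2 (hG.d6 hE)⟩))

theorem Cub_iff {𝓑 : Type} [Ring 𝓑] (Z X : 𝓑) : Cub Z X ↔
    Z * (Z * (Z * X - X * Z) - (Z * X - X * Z) * Z) -
      (Z * (Z * X - X * Z) - (Z * X - X * Z) * Z) * Z - (Z * X - X * Z) = 0 :=
  sub_eq_zero.symm

/-- simple -/
theorem PrN_si (hW : ∀ X ∈ W, ∀ Y ∈ W, X * Y - Y * X ∈ W) (hθ : ∀ X ∈ W, θ X ∈ W)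
    {d : 𝓐 →ₗ[ℂ] 𝓒} (hd : Bra W d)
    (F : Submodule ℂ 𝓒) (hF : FiniteDimensional ℂ F) (hS : Smp F) (h1 : ∀ X ∈ W, d X ∈ F)
    (h2 : ∀ Z ∈ F, ∃ X ∈ W, d X = Z) (h3 : D (finrank ℂ F))
    (h4 : finrank ℂ F ≠ 10 → 3 < finrank ℂ F → ∃ k' : 𝓒 → 𝓒, (∀ X ∈ W, d (θ X) = k' (d X)) ∧
      ∀ Z ∈ F, k' Z = Z → (∀ Z' ∈ F, Cub Z Z') → Z = 0) :
    PrN W θ D E (W ⊓ LinearMap.ker d) :=
  PrN_of hW hd fun 𝓑 _ _ c G hG => by
    have := hG.fd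
    by_cases h5 : finrank ℂ F = finrank ℂ G
    · have h6 := hG.dd (h5 ▸ h3)
      obtain ⟨h7, h8, k, hk, Z₀, hZ, hkZ, hZ0, hcub⟩ := h6
      obtain ⟨k', hk', hno⟩ := h4 (h5 ▸ h7) (h5 ▸ h8)
      by_contra hcon
      push Not at hcon
      obtain ⟨-, h9⟩ := Nlk_fac' hG.im hG.on d F h1 hcon
      obtain ⟨-, h10⟩ := h9 h5.le
      obtain ⟨X, hX, hXZ⟩ := hG.on Z₀ hZ
      refine hZ0 ?_
      rw [← hXZ]
      refine hcon X hX (hno _ (h1 X hX) ?_ ?_)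
      · have h11 : c (θ X - X) = 0 := by
          rw [map_sub, hk X hX, hXZ, hkZ, sub_self]
        have h12 := h10 _ (W.sub_mem (hθ X hX) hX) h11
        rw [map_sub, hk' X hX, sub_eq_zero] at h12
        exact h12
      · intro Z' hZ'
        obtain ⟨Y, hY, rfl⟩ := h2 Z' hZ'
        have b1 := hW X hX Y hY
        have b2 := hW X hX _ b1
        have b3 := hW X hX _ b2
        have h13 := h10 _ (W.sub_mem b3 b1) (by
          rw [map_sub, hG.br X hX _ b2, hG.br X hX _ b1, hG.br X hX Y hY, hXZ]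
          exact (Cub_iff Z₀ (c Y)).1 (hcub (c Y) (hG.im Y hY)))
        rw [map_sub, hd X hX _ b2, hd X hX _ b1, hd X hX Y hY] at h13
        exact (Cub_iff (d X) (d Y)).2 h13
    · exact (thm_Nlk 𝓐 𝓑 W c G hG.sm hW hG.br hG.im hG.on).1 𝓒 d hd
        (Or.inr (Or.inr ⟨F, hF, hS, h1, h2, h5⟩))

/-- real planes -/
theorem PrN_pl (hW : ∀ X ∈ W, ∀ Y ∈ W, X * Y - Y * X ∈ W)
    {d : 𝓐 →ₗ[ℂ] Matrix (Fin 2) (Fin 2) ℂ} (hd : Bra W d) (h1 : ∀ X ∈ W, (d X).trace = 0)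
    (h2 : ∀ X ∈ W, θ X ∈ W) (h3 : ∀ X ∈ W, d (θ X) = (d X).map conj) :
    PrN W θ D E (W ⊓ LinearMap.ker d) :=
  PrN_of hW hd fun 𝓑 _ _ c G hG => by
    have := hG.fd
    rcases hG.d3 with h4 | ⟨h4, k, h5, h6⟩
    · refine (thm_Nlk 𝓐 𝓑 W c G hG.sm hW hG.br hG.im hG.on).1 _ d hd
        (Or.inr (Or.inl ⟨SL 2, inferInstance, h1, ?_⟩))
      have h7 := (thm_Ssl 2 le_rfl).2
      omega
    · exact (thm_Nlk 𝓐 𝓑 W c G hG.sm hW hG.br hG.im hG.on).2 d θ k hd h1 h4 h2 h3 h5 h6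

end spec

/-! ### Matrices at complex places -/

/-- the trace-zero part of the adjoint -/
theorem Pr_trz_k {m : ℕ} {H Z N : Matrix (Fin m) (Fin m) ℂ} (hdet : IsUnit H.det)
    (h3 : N = -(H⁻¹ * Zᴴ * H)) : trz N = -(H⁻¹ * (trz Z)ᴴ * H) := by
  have h5 : N.trace = -conj Z.trace := by
    rw [h3, Matrix.trace_neg, Matrix.trace_mul_cycle, mul_nonsing_inv _ hdet, Matrix.one_mul,
      Matrix.trace_conjTranspose]
    rfl
  have h6 : star (Z.trace / (m : ℂ)) = conj Z.trace / (m : ℂ) := by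
    rw [Complex.star_def, map_div₀, Complex.conj_natCast]
  rw [trz, h5, h3, trz, Matrix.conjTranspose_sub, Matrix.conjTranspose_smul,
    Matrix.conjTranspose_one, Matrix.mul_sub, Matrix.sub_mul, Matrix.mul_smul,
    Matrix.mul_one, Matrix.smul_mul, nonsing_inv_mul _ hdet, h6, neg_div, neg_smul]
  abel

theorem k_skew {m : ℕ} {H Z : Matrix (Fin m) (Fin m) ℂ} (hdet : IsUnit H.det)
    (hk : -(H⁻¹ * Zᴴ * H) = Z) : Zᴴ * H + H * Z = 0 := by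
  have h1 : H * Z = -(Zᴴ * H) := by
    have h2 : H * -(H⁻¹ * Zᴴ * H) = H * Z := by rw [hk]
    rw [Matrix.mul_neg, Matrix.mul_assoc, ← Matrix.mul_assoc H, mul_nonsing_inv _ hdet,
      Matrix.one_mul] at h2
    exact h2.symm
  rw [h1, add_neg_cancel]

theorem Cub_trz {m : ℕ} {Z X : Matrix (Fin m) (Fin m) ℂ} (h : Cub Z (trz X)) : Cub Z X := by
  have h1 : Z * trz X - trz X * Z = Z * X - X * Z := by
    rw [trz, mul_sub, sub_mul, mul_smul_comm, smul_mul_assoc, mul_one, one_mul]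
    abel
  unfold Cub at h ⊢
  rw [h1] at h
  exact h

/-! ### The spectators -/

section spe

variable {I J : Type} [Fintype I] [DecidableEq I] [Fintype J] [DecidableEq J] {e : I → J}
  {n : J → ℕ} {κ : J → Type} [∀ j, Fintype (κ j)] [∀ j, DecidableEq (κ j)] {ϖ : ℂ}
  {P : ∀ j, PData (κ j) ϖ} {K : I → Type} [∀ i, Field (K i)] [∀ i, NumberField (K i)] {m : I → ℕ}
  {h : ∀ i, Matrix (Fin (m i)) (Fin (m i)) (K i)}
  {t : ∀ i, Fin (m i) → K i → Module.End ℂ (κ (e i) → ℂ)} {k : ℕ}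
  {γ : MultilinearMap ℂ (fun _ : Fin (2 * k) => HW κ n) ℂ} {σ₀ : ∀ i, K i →+* ℂ}
  {T₀ : I → Prop} {c : ∀ i, K i →+* K i}

/-- the matrix at a place -/
def PrM (κ : J → Type) (m : I → ℕ) (i : I) (σ : K i →+* ℂ) :
    PrA κ K m →ₗ[ℂ] Matrix (Fin (m i)) (Fin (m i)) ℂ where
  toFun X := X.2 i σ
  map_add' _ _ := rfl
  map_smul' _ _ := rfl

theorem PrM_apply (i : I) (σ : K i →+* ℂ) (X : PrA κ K m) : PrM κ m i σ X = X.2 i σ := rfl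

/-- the critical dimensions -/
def PrD (h : ∀ i, Matrix (Fin (m i)) (Fin (m i)) (K i)) (σ₀ : ∀ i, K i →+* ℂ) (T₀ : I → Prop)
    (r : ℕ) : Prop :=
  r = 10 ∨ ∃ i, ¬ T₀ i ∧ CoPl (h i) (σ₀ i) ∧ r + 1 = m i * m i

/-- there is a real spectator -/
def PrR (h : ∀ i, Matrix (Fin (m i)) (Fin (m i)) (K i)) (σ₀ : ∀ i, K i →+* ℂ) (T₀ : I → Prop) :
    Prop :=
  ∃ i, ¬ T₀ i ∧ RePl (h i) (σ₀ i)

theorem PrT_two (i : I) (σ : K i →+* ℂ) (X : PrA κ K m) :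
    (PrT P (starRingAut : ℂ ≃+* ℂ) X).2 i σ = (X.2 i (cj σ)).map conj := rfl

/-- the adjoint at a complex place -/
theorem Prj_adj (H : FamZ2 e n P h t γ σ₀ T₀ c) (i : I) (σ : K i →+* ℂ) {X : PrA κ K m}
    (hX : X ∈ PrW e n P t γ) (hdet : IsUnit ((h i).map (cj σ)).det) :
    (X.2 i (cj σ)).map conj = -(((h i).map (cj σ))⁻¹ * (X.2 i σ)ᴴ * (h i).map (cj σ)) := by
  set H' := (h i).map (cj σ) with hH'
  have h2 : ((X.2 i σ)ᴴ) * H' + H' * (X.2 i (cj σ)).map conj = 0 := by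
    have e1 : ((X.2 i σ)ᵀ * (h i).map σ + (h i).map σ * X.2 i (cj σ)).map conj =
        (X.2 i σ)ᴴ * H' + H' * (X.2 i (cj σ)).map conj := by
      rw [Matrix.map_add (conj : ℂ → ℂ) (map_add _), Matrix.map_mul, Matrix.map_mul]
      rfl
    rw [← e1, Prj_skM H i hX σ]
    exact Matrix.map_zero (conj : ℂ → ℂ) (map_zero _)
  have h5 : H'⁻¹ * (H' * (X.2 i (cj σ)).map conj) = H'⁻¹ * -((X.2 i σ)ᴴ * H') := by
    rw [eq_neg_of_add_eq_zero_right h2]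
  rw [← Matrix.mul_assoc, nonsing_inv_mul _ hdet, Matrix.one_mul, Matrix.mul_neg,
    ← Matrix.mul_assoc] at h5
  exact h5

theorem Prj_det (H : FamZ2 e n P h t γ σ₀ T₀ c) (i : I) (σ : K i →+* ℂ) :
    IsUnit ((h i).map σ).det := by
  have h1 : ((h i).map σ).det = σ (h i).det := by
    rw [RingHom.map_det, RingHom.mapMatrix_apply]
  rw [h1]
  exact IsUnit.mk0 _ ((map_ne_zero σ).2 (H.S i).nd)

/-- the forms at the complex places -/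
theorem Prj_form {F : Type} [Field F] [NumberField F] {d : ℕ} {g : Matrix (Fin d) (Fin d) F}
    {σ₀ : F →+* ℂ} (hg : CoPl g σ₀) (σ : F →+* ℂ) :
    Definite (g.map (cj σ)) ∨ Lorentz (g.map (cj σ)) ∨ Lorentz (-(g.map (cj σ))) := by
  by_cases h1 : σ = σ₀
  · rw [h1]
    exact Or.inr hg.2.1
  by_cases h2 : σ = cj σ₀
  · right
    have e1 : g.map (cj σ) = (g.map (cj σ₀)).map conj := by
      rw [h2]
      ext a b
      rfl
    rw [e1]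
    refine hg.2.1.imp Pry_lo fun h3 => ?_
    have h4 := Pry_lo h3
    have e2 : (-(g.map (cj σ₀))).map conj = -((g.map (cj σ₀)).map conj) := by
      ext a b
      exact map_neg conj _
    rwa [e2] at h4
  · exact Or.inl (hg.2.2.1 σ h1 h2)

/-- the ideals for a complex `i'` not in `T₀` -/
theorem Prj_s1 (H : FamZ2 e n P h t γ σ₀ T₀ c) (i' : I) (hi : ¬ T₀ i')
    (hco : CoPl (h i') (σ₀ i')) (σ' : K i' →+* ℂ) :
    PrN (PrW e n P t γ) (PrT P (starRingAut : ℂ ≃+* ℂ)) (PrD h σ₀ T₀) (PrR h σ₀ T₀)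
      (PrW e n P t γ ⊓ LinearMap.ker (PrC κ m i' σ')) := by
  have hm0 : 0 < m i' := hco.2.2.2.1
  have hm2 : 2 ≤ m i' := by
    obtain ⟨r, hr⟩ := hco.2.2.2.2
    omega
  obtain ⟨hS, hdim⟩ := thm_Ssl (m i') hm2
  refine PrN_si (fun X hX Y hY => PrW_br hX hY) (fun X hX => PrT_mem H.pi H.S H.B _ hX)
    (PrC_bra _ i' σ') (SL (m i')) inferInstance hS (fun X hX => Pr_trz_tr hm0 _) ?_
    (Or.inr ⟨i', hi, hco, hdim⟩) fun _ h3 => ?_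
  · intro Z hZ
    obtain ⟨X, hX, hXZ⟩ := Prj_on H i' σ' Z (by rw [Lg_co (hco.1 σ')]; exact hZ)
    refine ⟨X, hX, ?_⟩
    rw [PrC_apply, hXZ, Pr_trz_of hZ]
  · have hdet := Prj_det H i' (cj σ')
    have hm3 : 3 ≤ m i' := by
      by_contra h4
      have h5 := Pr_a5 hdim (by omega)
      omega
    refine ⟨fun Z => -(((h i').map (cj σ'))⁻¹ * Zᴴ * (h i').map (cj σ')), fun X hX => ?_,
      fun Z hZ hk hcub => ?_⟩
    · rw [PrC_apply, PrC_apply, PrT_two]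
      exact Pr_trz_k hdet (Prj_adj H i' σ' hX hdet)
    · exact Pry_neg hm3 (Prj_form hco σ') hdet (k_skew hdet hk) hZ
        fun X => Cub_trz (hcub _ (Pr_trz_tr hm0 X))

theorem Prj_s1' (H : FamZ2 e n P h t γ σ₀ T₀ c) (i' : I) {A B : PrA κ K m}
    (hA : A ∈ PrW e n P t γ) (hB : B ∈ PrW e n P t γ)
    (hA' : ∀ σ' : K i' →+* ℂ, A ∈ PrW e n P t γ ⊓ LinearMap.ker (PrC κ m i' σ'))
    (hB' : ∀ σ' : K i' →+* ℂ, B ∈ PrW e n P t γ ⊓ LinearMap.ker (PrC κ m i' σ')) :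
    (A * B - B * A).1.1 (e i') = 0 := by
  have hsc : ∀ X : PrA κ K m, (∀ σ' : K i' →+* ℂ,
      X ∈ PrW e n P t γ ⊓ LinearMap.ker (PrC κ m i' σ')) →
      ∀ σ', X.2 i' σ' = ((X.2 i' σ').trace / m i') • 1 := by
    intro X hX σ'
    have h1 : trz (X.2 i' σ') = 0 := LinearMap.mem_ker.1 (Submodule.mem_inf.1 (hX σ')).2
    exact sub_eq_zero.1 h1
  have h1 := PrW_br hA hB
  have h2 : (A * B - B * A).2 i' = 0 := by
    funext σ'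
    have h5 : (A * B - B * A).2 i' σ' = A.2 i' σ' * B.2 i' σ' - B.2 i' σ' * A.2 i' σ' := rfl
    rw [h5, hsc A hA' σ', hsc B hB' σ', smul_mul_assoc, smul_mul_assoc, one_mul, one_mul,
      smul_comm, sub_self]
    rfl
  have h3 := h1.2.2 i'
  rw [h2] at h3
  have h4 := mem_bvE n P (e i') (H.S i') γ _ h1.1 h1.2.1 _ h3
  exact eq_of_act (H.S i').conj (H.S i').herm (H.S i').nd (H.S i').cliff h4
    (Submodule.zero_mem _) h3 ActM.zero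

/-- the matrices at a real place are skew -/
theorem Prj_so (H : FamZ2 e n P h t γ σ₀ T₀ c) (i : I) {σ : K i →+* ℂ} (hσ : cj σ = σ)
    {X : PrA κ K m} (hX : X ∈ PrW e n P t γ) : X.2 i σ ∈ SO ((h i).map σ) := by
  have h1 := Prj_skM H i hX σ
  rw [hσ] at h1
  exact h1

/-- the ideals for a real `i'` not in `T₀` -/
theorem Prj_s3 (H : FamZ2 e n P h t γ σ₀ T₀ c) (i' : I) (hi : ¬ T₀ i')
    (hre : RePl (h i') (σ₀ i')) (hm : m i' ≤ 4) (σ' : K i' →+* ℂ) :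
    PrN (PrW e n P t γ) (PrT P (starRingAut : ℂ ≃+* ℂ)) (PrD h σ₀ T₀) (PrR h σ₀ T₀)
      (PrW e n P t γ ⊓ LinearMap.ker (PrM κ m i' σ')) := by
  obtain ⟨hs, hd, hcj⟩ := Prj_re H i' hre σ'
  refine PrN_sm (fun X hX Y hY => PrW_br hX hY) (fun _ _ _ _ => rfl) (SO ((h i').map σ'))
    inferInstance (fun X hX => Prj_so H i' hcj hX) ?_ ⟨i', hi, hre⟩
  rw [Sso_eq, Sim_fr_so hs hd]
  have h3 : 3 ≤ m i' := hre.2.2.2.1
  have h4 : m i' = 3 ∨ m i' = 4 := by omega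
  rcases h4 with h4 | h4 <;> rw [h4]
  norm_num

theorem Prj_s3' (H : FamZ2 e n P h t γ σ₀ T₀ c) (i' : I) {A B : PrA κ K m}
    (hA : A ∈ PrW e n P t γ) (hB : B ∈ PrW e n P t γ)
    (hA' : ∀ σ' : K i' →+* ℂ, A ∈ PrW e n P t γ ⊓ LinearMap.ker (PrM κ m i' σ')) :
    (A * B - B * A).1.1 (e i') = 0 := by
  have h1 := PrW_br hA hB
  have h2 : (A * B - B * A).2 i' = 0 := by
    funext σ'
    have h5 : (A * B - B * A).2 i' σ' = A.2 i' σ' * B.2 i' σ' - B.2 i' σ' * A.2 i' σ' := rfl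
    have h6 : A.2 i' σ' = 0 := LinearMap.mem_ker.1 (Submodule.mem_inf.1 (hA' σ')).2
    rw [h5, h6, zero_mul, mul_zero, sub_zero]
    rfl
  have h3 := h1.2.2 i'
  rw [h2] at h3
  have h4 := mem_bvE n P (e i') (H.S i') γ _ h1.1 h1.2.1 _ h3
  exact eq_of_act (H.S i').conj (H.S i').herm (H.S i').nd (H.S i').cliff h4
    (Submodule.zero_mem _) h3 ActM.zero

/-- the ideals of the other abelian varieties -/
theorem Prj_s2 (H : FamZ2 e n P h t γ σ₀ T₀ c) (j : J) (hj : ∀ i, e i ≠ j) :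
    ∃ (R : Type) (_ : Fintype R) (N : R → Submodule ℂ (PrA κ K m)),
      (∀ a, PrN (PrW e n P t γ) (PrT P (starRingAut : ℂ ≃+* ℂ)) (PrD h σ₀ T₀) (PrR h σ₀ T₀)
        (N a)) ∧
      ∀ A B : PrA κ K m, A ∈ PrW e n P t γ → B ∈ PrW e n P t γ → (∀ a, A ∈ N a) →
        (∀ a, B ∈ N a) → (A * B - B * A).1.1 j = 0 := by
  have hbr : ∀ X ∈ PrW (m := m) e n P t γ, ∀ Y ∈ PrW (m := m) e n P t γ,
      X * Y - Y * X ∈ PrW (m := m) e n P t γ := fun X hX Y hY => PrW_br hX hY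
  have hz : ∀ A B : PrA κ K m, A ∈ PrW e n P t γ ⊓ LinearMap.ker (PrE K m j) →
      (A * B - B * A).1.1 j = 0 := by
    intro A B hA
    have h1 : A.1.1 j = 0 := LinearMap.mem_ker.1 (Submodule.mem_inf.1 hA).2
    show A.1.1 j * B.1.1 j - B.1.1 j * A.1.1 j = 0
    rw [h1, zero_mul, mul_zero, sub_zero]
  rcases H.sp j hj with h1 | ⟨N, u, -, hr, hu, hs, hsp⟩ | ⟨hc, h1⟩
  · exact ⟨Unit, inferInstance, fun _ => PrW e n P t γ ⊓ LinearMap.ker (PrE K m j),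
      fun _ => PrN_co hbr (PrE_bra _ j) fun X hX Y hY => h1 _ _ (hX.1.comm j j) (hY.1.comm j j),
      fun A B _ _ hA _ => hz A B (hA ())⟩
  · have hs' : ∀ X ∈ PrW (m := m) e n P t γ, ∀ a b,
        X.1.1 j (u a b) ∈ Submodule.span ℂ (Set.range (u a)) := fun X hX => hs _ (hX.1.comm j j)
    refine ⟨Fin N, inferInstance, fun a => PrW e n P t γ ⊓ LinearMap.ker (PrX P K m j (u a)),
      fun a => PrN_pl hbr (PrX_bra (hu a) fun X hX b => hs' X hX a b) ?_ ?_ ?_, ?_⟩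
    · intro X hX
      refine PrX_tr fun v w => ?_
      have h2 := hX.1.pol j v w
      rw [hX.2.1, zero_mul] at h2
      exact h2
    · exact fun X hX => PrT_mem H.pi H.S H.B _ hX
    · exact fun X hX => PrX_cj (hu a) (hr a) fun b => hs' X hX a b
    · intro A B hA hB hA' hB'
      have hz' : ∀ X ∈ PrW (m := m) e n P t γ,
          (∀ a, X ∈ PrW e n P t γ ⊓ LinearMap.ker (PrX P K m j (u a))) → X.1.1 j = 0 := by
        intro X hX hX'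
        refine LinearMap.ext fun v => ?_
        have h3 := hsp v
        rw [LinearMap.zero_apply]
        refine Submodule.span_induction (p := fun v _ => X.1.1 j v = 0) ?_ (map_zero _) ?_ ?_ h3
        · rintro _ ⟨a, b, rfl⟩
          have h4 : PrX P K m j (u a) X = 0 := LinearMap.mem_ker.1 (Submodule.mem_inf.1 (hX' a)).2
          rw [PrX_exp (hu a) (hs' X hX a b), h4]
          exact Finset.sum_eq_zero fun r _ => zero_smul ℂ _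
        · intro x y _ _ hx hy
          rw [map_add, hx, hy, add_zero]
        · intro r x _ hx
          rw [map_smul, hx, smul_zero]
      show A.1.1 j * B.1.1 j - B.1.1 j * A.1.1 j = 0
      rw [hz' A hA hA', zero_mul, mul_zero, sub_zero]
  · obtain ⟨h2, h3⟩ := thm_Ssp (κ j) (P j).ψ hc (P j).hψalt (P j).hψnd
    refine ⟨Unit, inferInstance, fun _ => PrW e n P t γ ⊓ LinearMap.ker (PrE K m j),
      fun _ => PrN_si hbr (fun X hX => PrT_mem H.pi H.S H.B _ hX) (PrE_bra _ j) (SP (P j).ψ)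
        inferInstance h2 ?_ ?_ (Or.inl h3) (fun h4 => absurd h3 h4),
      fun A B _ _ hA _ => hz A B (hA ())⟩
    · intro X hX v w
      have h2 := hX.1.pol j v w
      rw [hX.2.1, zero_mul] at h2
      exact h2
    · intro Z hZ
      obtain ⟨X, hX, hX2, hXZ⟩ := h1 Z hZ
      choose M hM using H.T X hX
      exact ⟨(X, M), ⟨hX, hX2, hM⟩, hXZ⟩

/-- the ideals for one `j` -/
theorem Prj_s (H : FamZ2 e n P h t γ σ₀ T₀ c) (j : J) (hj : ∀ i, T₀ i → e i ≠ j) :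
    ∃ (R : Type) (_ : Fintype R) (N : R → Submodule ℂ (PrA κ K m)),
      (∀ a, PrN (PrW e n P t γ) (PrT P (starRingAut : ℂ ≃+* ℂ)) (PrD h σ₀ T₀) (PrR h σ₀ T₀)
        (N a)) ∧
      ∀ A B : PrA κ K m, A ∈ PrW e n P t γ → B ∈ PrW e n P t γ → (∀ a, A ∈ N a) →
        (∀ a, B ∈ N a) → (A * B - B * A).1.1 j = 0 := by
  by_cases h1 : ∃ i, e i = j
  · obtain ⟨i, rfl⟩ := h1
    have h2 : ¬ T₀ i := fun h => hj i h rfl
    rcases H.typ i with ⟨hre, h3⟩ | hco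
    · exact ⟨K i →+* ℂ, Fintype.ofFinite _, fun σ => PrW e n P t γ ⊓ LinearMap.ker (PrM κ m i σ),
        fun σ => Prj_s3 H i h2 hre (h3.resolve_left h2) σ,
        fun A B hA hB hA' _ => Prj_s3' H i hA hB hA'⟩
    · exact ⟨K i →+* ℂ, Fintype.ofFinite _, fun σ => PrW e n P t γ ⊓ LinearMap.ker (PrC κ m i σ),
        fun σ => Prj_s1 H i h2 hco σ, fun A B hA hB hA' hB' => Prj_s1' H i hA hB hA' hB'⟩
  · exact Prj_s2 H j fun i hi => h1 ⟨i, hi⟩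

end spe

end Pool.Agent.KTW.Pry
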