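import Pool.Agent.KTW.StX

/-!
# KTW, module RPX: Goursat's lemma with links, arbitrary simple algebras (helper84)
-/

set_option autoImplicit false

namespace Pool.Agent.KTW

namespace Rpxx

section

variable {I : Type} {𝓑 : I → Type} [∀ i, Ring (𝓑 i)] [∀ i, Algebra ℂ (𝓑 i)]

/-- the values at `i` of the elements of `R` which vanish on `S` -/
def cp (R : Submodule ℂ (∀ i, 𝓑 i)) (i : I) (S : Finset I) : Submodule ℂ (𝓑 i) where
  carrier := {A | ∃ X ∈ R, (∀ j ∈ S, X j = 0) ∧ X i = A}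
  add_mem' := by
    rintro _ _ ⟨X, hX, hX0, rfl⟩ ⟨Y, hY, hY0, rfl⟩
    refine ⟨X + Y, R.add_mem hX hY, fun j hj => ?_, rfl⟩
    rw [Pi.add_apply, hX0 j hj, hY0 j hj, add_zero]
  zero_mem' := ⟨0, R.zero_mem, fun _ _ => rfl, rfl⟩
  smul_mem' := by
    rintro r _ ⟨X, hX, hX0, rfl⟩
    refine ⟨r • X, R.smul_mem r hX, fun j hj => ?_, rfl⟩
    rw [Pi.smul_apply, hX0 j hj, smul_zero]

variable {G : ∀ i, Submodule ℂ (𝓑 i)} (hG : ∀ i, Smp (G i)) {R : Submodule ℂ (∀ i, 𝓑 i)}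
  (hbr : ∀ X ∈ R, ∀ Y ∈ R, X * Y - Y * X ∈ R) (hsk : ∀ X ∈ R, ∀ i, X i ∈ G i)
  (hpr : ∀ i, ∀ Z ∈ G i, ∃ X ∈ R, X i = Z)

include hG hbr hsk hpr

lemma top (i : I) (S : Finset I) (hB : ∃ B ∈ cp R i S, B ≠ 0) (M : 𝓑 i) (hM : M ∈ G i) :
    M ∈ cp R i S := by
  have h1 : cp R i S = G i := by
    refine (hG i).id _ ?_ ?_ ?_
    · rintro _ ⟨X, hX, _, rfl⟩
      exact hsk X hX i
    · rintro N hN _ ⟨X, hX, hX0, rfl⟩
      obtain ⟨Y, hY, rfl⟩ := hpr i N hN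
      refine ⟨Y * X - X * Y, hbr Y hY X hX, fun j hj => ?_, rfl⟩
      rw [Pi.sub_apply, Pi.mul_apply, Pi.mul_apply, hX0 j hj, mul_zero, zero_mul, sub_zero]
    · intro h0
      obtain ⟨B, hB1, hB0⟩ := hB
      rw [h0, Submodule.mem_bot] at hB1
      exact hB0 hB1
  rw [h1]
  exact hM

lemma key [DecidableEq I] (i : I) (S : Finset I)
    (hnl : ∀ j ∈ S, ∃ X ∈ R, X j = 0 ∧ X i ≠ 0) (M : 𝓑 i) (hM : M ∈ G i) : M ∈ cp R i S := by
  induction S using Finset.induction_on generalizing M with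
  | empty =>
    obtain ⟨X, hX, rfl⟩ := hpr i M hM
    exact ⟨X, hX, fun j hj => absurd hj (Finset.notMem_empty j), rfl⟩
  | insert j S hj ih =>
    apply top hG hbr hsk hpr i (insert j S) _ M hM
    obtain ⟨B, hB, C, hC, hBC⟩ := (hG i).nc
    obtain ⟨X, hX, hX0, rfl⟩ := ih (fun j hj => hnl j (Finset.mem_insert_of_mem hj)) B hB
    have h1 : ∃ D ∈ cp R i {j}, D ≠ 0 := by
      obtain ⟨Z, hZ, hZ0, hZi⟩ := hnl j (Finset.mem_insert_self _ _)
      refine ⟨Z i, ⟨Z, hZ, fun k hk => ?_, rfl⟩, hZi⟩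
      rw [Finset.mem_singleton] at hk
      subst hk
      exact hZ0
    obtain ⟨Y, hY, hY0, rfl⟩ := top hG hbr hsk hpr i {j} h1 C hC
    refine ⟨X i * Y i - Y i * X i, ⟨X * Y - Y * X, hbr X hX Y hY, fun k hk => ?_, rfl⟩,
      sub_ne_zero.mpr hBC⟩
    rcases Finset.mem_insert.1 hk with rfl | hk
    · rw [Pi.sub_apply, Pi.mul_apply, Pi.mul_apply, hY0 k (Finset.mem_singleton_self k),
        mul_zero, zero_mul, sub_zero]
    · rw [Pi.sub_apply, Pi.mul_apply, Pi.mul_apply, hX0 k hk, mul_zero, zero_mul, sub_zero]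

/-- one direction of a link gives the other one -/
lemma link (i j : I) (h : ∀ Y ∈ R, Y i = 0 → Y j = 0) : ∀ Y ∈ R, Y j = 0 → Y i = 0 := by
  intro Y hY hYj
  by_contra hYi
  obtain ⟨A, hA, B, hB, hAB⟩ := (hG j).nc
  have hA0 : A ≠ 0 := by
    rintro rfl
    exact hAB (by rw [zero_mul, mul_zero])
  obtain ⟨Y', hY', rfl⟩ := hpr j A hA
  have h0 : ∃ B ∈ cp R i {j}, B ≠ 0 := by
    refine ⟨Y i, ⟨Y, hY, fun k hk => ?_, rfl⟩, hYi⟩
    rw [Finset.mem_singleton] at hk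
    subst hk
    exact hYj
  obtain ⟨Z, hZ, hZ0, hZi⟩ := top hG hbr hsk hpr i {j} h0 (Y' i) (hsk Y' hY' i)
  have h1 := h (Y' - Z) (R.sub_mem hY' hZ) (by rw [Pi.sub_apply, hZi, sub_self])
  rw [Pi.sub_apply, hZ0 j (Finset.mem_singleton_self j), sub_zero] at h1
  exact hA0 h1

end

end Rpxx

open Rpxx in
/-- **RPX**: Goursat's lemma with links for arbitrary simple algebras -/
theorem thm_Rpx : St_Rpx := by
  classical
  intro I _ 𝓑 _ _ G hG R hbr hsk hpr D hD hl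
  have h0 : ∀ S : Finset I, ∃ X ∈ R, ∀ i ∈ S, X i = D i := by
    intro S
    induction S using Finset.induction_on with
    | empty => exact ⟨0, R.zero_mem, fun i hi => absurd hi (Finset.notMem_empty i)⟩
    | insert j S hj ih =>
      obtain ⟨X, hX, hXD⟩ := ih
      by_cases hex : ∃ i ∈ S, ∀ Y ∈ R, Y i = 0 → Y j = 0
      · obtain ⟨i, hi, h1⟩ := hex
        have h2 := link hG hbr hsk hpr i j h1
        refine ⟨X, hX, fun k hk => ?_⟩
        rcases Finset.mem_insert.1 hk with rfl | hk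
        · exact hl i k (fun Y hY => ⟨h1 Y hY, h2 Y hY⟩) X hX (hXD i hi)
        · exact hXD k hk
      · push Not at hex
        obtain ⟨Y, hY, hY0, hYj⟩ := key hG hbr hsk hpr j S hex (D j - X j)
          ((G j).sub_mem (hD j) (hsk X hX j))
        refine ⟨X + Y, R.add_mem hX hY, fun k hk => ?_⟩
        rw [Pi.add_apply]
        rcases Finset.mem_insert.1 hk with rfl | hk
        · rw [hYj, add_sub_cancel]
        · rw [hXD k hk, hY0 k hk, add_zero]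
  obtain ⟨X, hX, hXD⟩ := h0 Finset.univ
  have h1 : D = X := funext fun i => (hXD i (Finset.mem_univ i)).symm
  rw [h1]
  exact hX

end Pool.Agent.KTW
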