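import Pool.Agent.KTW.Sle

/-!
# KTW SLA: automorphisms of `sl_m`

Every injective endomorphism of the Lie algebra of the matrices of trace zero is `X ↦ g X g⁻¹` or
`X ↦ -(g Xᵀ g⁻¹)`.  The matrices `E i m`, `i < m`, span a space of matrices of rank one; so its image has a
common row or a common column.
-/

set_option autoImplicit false

namespace Pool.Agent.KTW

open Module Matrix

namespace Slax

variable {m : ℕ}

/-- proportional vectors -/
def Pr (v w : Fin m → ℂ) : Prop := ∀ i j, v i * w j = v j * w i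

theorem Pr.smul {v w : Fin m → ℂ} (h : Pr v w) (hv : v ≠ 0) : ∃ c : ℂ, w = c • v := by
  obtain ⟨i, hi⟩ : ∃ i, v i ≠ 0 := by
    by_contra h0
    push Not at h0
    exact hv (funext h0)
  refine ⟨w i / v i, funext fun j => ?_⟩
  have h1 := h i j
  rw [Pi.smul_apply, smul_eq_mul, div_mul_eq_mul_div, eq_div_iff hi]
  linear_combination h1

theorem Pr.symm {v w : Fin m → ℂ} (h : Pr v w) : Pr w v := by
  intro i j
  have := h j i
  linear_combination this

theorem pr_smul (v : Fin m → ℂ) (c : ℂ) : Pr v (c • v) := by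
  intro i j
  rw [Pi.smul_apply, Pi.smul_apply, smul_eq_mul, smul_eq_mul]
  ring

theorem Pr.trans {u v w : Fin m → ℂ} (h : Pr u v) (h' : Pr v w) (hv : v ≠ 0) : Pr u w := by
  obtain ⟨c, hc⟩ := h.symm.smul hv
  obtain ⟨d, hd⟩ := h'.smul hv
  intro i j
  rw [hc, hd, Pi.smul_apply, Pi.smul_apply, Pi.smul_apply, Pi.smul_apply, smul_eq_mul, smul_eq_mul,
    smul_eq_mul, smul_eq_mul]
  ring

theorem pr_or {v₁ v₂ ξ₁ ξ₂ v ξ : Fin m → ℂ}
    (h : vecMulVec v₁ ξ₁ + vecMulVec v₂ ξ₂ = vecMulVec v ξ) : Pr v₁ v₂ ∨ Pr ξ₁ ξ₂ := by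
  have key : ∀ i j k l, (v₁ i * v₂ j - v₁ j * v₂ i) * (ξ₁ k * ξ₂ l - ξ₁ l * ξ₂ k) = 0 := by
    intro i j k l
    have e : ∀ r s, v₁ r * ξ₁ s + v₂ r * ξ₂ s = v r * ξ s := by
      intro r s
      have h0 := congrFun (congrFun h r) s
      rw [Matrix.add_apply, vecMulVec_apply, vecMulVec_apply, vecMulVec_apply] at h0
      exact h0
    have e0 : (v₁ i * v₂ j - v₁ j * v₂ i) * (ξ₁ k * ξ₂ l - ξ₁ l * ξ₂ k) =
        (v₁ i * ξ₁ k + v₂ i * ξ₂ k) * (v₁ j * ξ₁ l + v₂ j * ξ₂ l) -
          (v₁ i * ξ₁ l + v₂ i * ξ₂ l) * (v₁ j * ξ₁ k + v₂ j * ξ₂ k) := by ring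
    rw [e0, e i k, e j l, e i l, e j k]
    ring
  by_cases h1 : Pr v₁ v₂
  · exact Or.inl h1
  · right
    unfold Pr at h1
    push Not at h1
    obtain ⟨i, j, hij⟩ := h1
    intro k l
    rcases mul_eq_zero.1 (key i j k l) with h2 | h2
    · exact absurd (sub_eq_zero.1 h2) hij
    · exact sub_eq_zero.1 h2

/-- injective endomorphisms of `SL m` -/
structure Hp (φ : Matrix (Fin m) (Fin m) ℂ →ₗ[ℂ] Matrix (Fin m) (Fin m) ℂ) : Prop where
  mem : ∀ X ∈ SL m, φ X ∈ SL m
  inj : ∀ X ∈ SL m, φ X = 0 → X = 0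
  br : ∀ X ∈ SL m, ∀ Y ∈ SL m, φ (X * Y - Y * X) = φ X * φ Y - φ Y * φ X

theorem comm_mem (X Y : Matrix (Fin m) (Fin m) ℂ) : X * Y - Y * X ∈ SL m := by
  show (X * Y - Y * X).trace = 0
  rw [Matrix.trace_sub, Matrix.trace_mul_comm, sub_self]

section hp

variable {φ : Matrix (Fin m) (Fin m) ℂ →ₗ[ℂ] Matrix (Fin m) (Fin m) ℂ} (h : Hp φ)

include h

theorem surj : ∀ Y ∈ SL m, ∃ X ∈ SL m, φ X = Y := by
  intro Y hY
  have h1 : Function.Injective (φ.restrict h.mem) := by
    rw [← LinearMap.ker_eq_bot, LinearMap.ker_eq_bot']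
    intro X hX
    apply Subtype.ext
    apply h.inj X.1 X.2
    have := congrArg Subtype.val hX
    exact this
  have h2 : Function.Surjective (φ.restrict h.mem) := LinearMap.injective_iff_surjective.1 h1
  obtain ⟨X, hX⟩ := h2 ⟨Y, hY⟩
  exact ⟨X.1, X.2, congrArg Subtype.val hX⟩

theorem br2 (x y : Matrix (Fin m) (Fin m) ℂ) (hx : x ∈ SL m) (hy : y ∈ SL m) :
    φ (x * (x * y - y * x) - (x * y - y * x) * x) =
      φ x * (φ x * φ y - φ y * φ x) - (φ x * φ y - φ y * φ x) * φ x := by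
  rw [h.br x hx _ (comm_mem x y), h.br x hx y hy]

theorem ext_map (x : Matrix (Fin m) (Fin m) ℂ) (hx : IsExtr x) : IsExtr (φ x) := by
  refine ⟨h.mem x hx.1, fun h0 => hx.2.1 (h.inj x hx.1 h0), ?_⟩
  intro y' hy'
  obtain ⟨y, hy, rfl⟩ := surj h y' hy'
  obtain ⟨c, hc⟩ := hx.2.2 y hy
  refine ⟨c, ?_⟩
  rw [← br2 h x y hx.1 hy, hc, map_smul]

theorem tr_map (hSle : St_Sle) (x y : Matrix (Fin m) (Fin m) ℂ) (hx : IsExtr x) (hy : y ∈ SL m) :
    (φ x * φ y).trace = (x * y).trace := by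
  obtain ⟨v, ξ, hv, hξ, e, e0⟩ := (hSle m x).1 hx
  obtain ⟨v', ξ', hv', hξ', e', e0'⟩ := (hSle m (φ x)).1 (ext_map h x hx)
  have h1 := (hSle m x).2.2 v ξ e0 y
  rw [← e] at h1
  have h2 := (hSle m x).2.2 v' ξ' e0' (φ y)
  rw [← e'] at h2
  have h3 := br2 h x y hx.1 hy
  rw [h1, h2, map_smul] at h3
  have h4 : φ x ≠ 0 := fun h0 => hx.2.1 (h.inj x hx.1 h0)
  have h5 := smul_left_injective ℂ h4 h3
  have h6 : (-2 : ℂ) * (x * y).trace = -2 * (φ x * φ y).trace := h5
  linear_combination (1 / 2 : ℂ) * h6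

end hp

/-- elementary matrices -/
abbrev E (i j : Fin m) : Matrix (Fin m) (Fin m) ℂ :=
  vecMulVec (Pi.single i 1) (Pi.single j 1)

theorem sg_ne (i : Fin m) : (Pi.single i 1 : Fin m → ℂ) ≠ 0 := by
  intro h0
  have h1 := congrFun h0 i
  rw [Pi.single_eq_same] at h1
  exact one_ne_zero h1

theorem sg_add_ne {i j : Fin m} (hij : i ≠ j) :
    (Pi.single i 1 + Pi.single j 1 : Fin m → ℂ) ≠ 0 := by
  intro h0
  have h1 := congrFun h0 i
  rw [Pi.add_apply, Pi.single_eq_same, Pi.single_eq_of_ne hij, add_zero] at h1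
  exact one_ne_zero h1

theorem sg_dot {i j : Fin m} (hij : i ≠ j) :
    (Pi.single i 1 : Fin m → ℂ) ⬝ᵥ Pi.single j 1 = 0 := by
  rw [single_dotProduct, one_mul, Pi.single_eq_of_ne hij]

theorem extr_E (hSle : St_Sle) {i j : Fin m} (hij : i ≠ j) : IsExtr (E i j) :=
  (hSle m (E i j)).2.1 _ _ (sg_ne i) (sg_ne j) (sg_dot hij.symm)

theorem extr_col (hSle : St_Sle) {i j l : Fin m} (hij : i ≠ j) (hi : i ≠ l) (hj : j ≠ l) :
    IsExtr (E i l + E j l) := by
  rw [← add_vecMulVec]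
  refine (hSle m 0).2.1 _ _ (sg_add_ne hij) (sg_ne l) ?_
  rw [dotProduct_add, sg_dot hi.symm, sg_dot hj.symm, add_zero]

theorem extr_row (hSle : St_Sle) {i j l : Fin m} (hij : i ≠ j) (hi : i ≠ l) (hj : j ≠ l) :
    IsExtr (E l i + E l j) := by
  rw [← vecMulVec_add]
  refine (hSle m 0).2.1 _ _ (sg_ne l) (sg_add_ne hij) ?_
  rw [add_dotProduct, sg_dot hi, sg_dot hj, add_zero]

theorem E_mul (i j k l : Fin m) : E i j * E k l = (if j = k then (1 : ℂ) else 0) • E i l := by
  rw [vecMulVec_mul_vecMulVec]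
  by_cases hjk : j = k
  · subst hjk
    rw [if_pos rfl, single_dotProduct, one_mul, Pi.single_eq_same]
    simp
  · rw [if_neg hjk, sg_dot hjk]
    simp

theorem tr_E (i j k l : Fin m) : (E i j * E k l).trace =
    (if j = k then (1 : ℂ) else 0) * (if i = l then 1 else 0) := by
  rw [E_mul, Matrix.trace_smul, smul_eq_mul, trace_vecMulVec, single_dotProduct, one_mul,
    Pi.single_apply]

/-- decomposition of the matrices of trace zero -/
theorem decomp {n : ℕ} (X : Matrix (Fin (n + 1)) (Fin (n + 1)) ℂ) (hX : X ∈ SL (n + 1)) :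
    X = (∑ i : Fin n, ∑ j : Fin n, X i.castSucc j.castSucc •
        (E i.castSucc (Fin.last n) * E (Fin.last n) j.castSucc -
          E (Fin.last n) j.castSucc * E i.castSucc (Fin.last n))) +
      (∑ i : Fin n, X i.castSucc (Fin.last n) • E i.castSucc (Fin.last n)) +
      ∑ j : Fin n, X (Fin.last n) j.castSucc • E (Fin.last n) j.castSucc := by
  have ht : (∑ i : Fin n, X i.castSucc i.castSucc) + X (Fin.last n) (Fin.last n) = 0 := by
    have h0 : X.trace = 0 := hX
    rw [Matrix.trace, Fin.sum_univ_castSucc] at h0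
    exact h0
  have e1 : ∀ i j : Fin n, X i.castSucc j.castSucc •
        (E i.castSucc (Fin.last n) * E (Fin.last n) j.castSucc -
          E (Fin.last n) j.castSucc * E i.castSucc (Fin.last n)) =
      X i.castSucc j.castSucc • E i.castSucc j.castSucc -
        (if j = i then X i.castSucc j.castSucc else 0) • E (Fin.last n) (Fin.last n) := by
    intro i j
    rw [E_mul, E_mul, if_pos rfl, one_smul, smul_sub, smul_smul]
    by_cases hij : j = i
    · rw [if_pos (by rw [hij]), if_pos hij, mul_one]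
    · rw [if_neg (fun h => hij (Fin.castSucc_injective _ h)), if_neg hij, mul_zero]
  have e2 : X = ∑ i, ∑ j, X i j • (E i j : Matrix (Fin (n + 1)) (Fin (n + 1)) ℂ) := by
    ext r s
    rw [Matrix.sum_apply]
    simp only [Matrix.sum_apply, Matrix.smul_apply, vecMulVec_apply, Pi.single_apply, smul_eq_mul]
    rw [Finset.sum_eq_single r, Finset.sum_eq_single s]
    · rw [if_pos rfl, if_pos rfl, mul_one, mul_one]
    · intro b _ hb
      rw [if_neg (Ne.symm hb), mul_zero, mul_zero]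
    · intro h0
      exact absurd (Finset.mem_univ _) h0
    · intro b _ hb
      refine Finset.sum_eq_zero fun c _ => ?_
      rw [if_neg (Ne.symm hb), zero_mul, mul_zero]
    · intro h0
      exact absurd (Finset.mem_univ _) h0
  have e3 : ∀ i : Fin n, (∑ j : Fin n, X i.castSucc j.castSucc •
        (E i.castSucc (Fin.last n) * E (Fin.last n) j.castSucc -
          E (Fin.last n) j.castSucc * E i.castSucc (Fin.last n))) =
      (∑ j : Fin n, X i.castSucc j.castSucc • E i.castSucc j.castSucc) -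
        X i.castSucc i.castSucc • E (Fin.last n) (Fin.last n) := by
    intro i
    rw [Finset.sum_congr rfl fun j _ => e1 i j, Finset.sum_sub_distrib, ← Finset.sum_smul,
      Finset.sum_ite_eq' Finset.univ i (fun j => X i.castSucc j.castSucc),
      if_pos (Finset.mem_univ _)]
  rw [Finset.sum_congr rfl fun i _ => e3 i, Finset.sum_sub_distrib, ← Finset.sum_smul]
  conv_lhs => rw [e2, Fin.sum_univ_castSucc]
  have e4 : (∑ i : Fin n, X i.castSucc i.castSucc) = -X (Fin.last n) (Fin.last n) := by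
    linear_combination ht
  rw [e4, Fin.sum_univ_castSucc, Finset.sum_congr rfl fun (i : Fin n) _ => Fin.sum_univ_castSucc
    (fun j => X i.castSucc j • (E i.castSucc j : Matrix (Fin (n + 1)) (Fin (n + 1)) ℂ)),
    Finset.sum_add_distrib, neg_smul]
  abel

theorem conj_br {g g' : Matrix (Fin m) (Fin m) ℂ} (hg : g' * g = 1) (X Y : Matrix (Fin m) (Fin m) ℂ) :
    g * (X * Y - Y * X) * g' = g * X * g' * (g * Y * g') - g * Y * g' * (g * X * g') := by
  have e : ∀ A B : Matrix (Fin m) (Fin m) ℂ, g * A * g' * (g * B * g') = g * (A * B) * g' := by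
    intro A B
    have e1 : g * A * g' * (g * B * g') = g * A * (g' * g) * B * g' := by noncomm_ring
    rw [e1, hg]
    noncomm_ring
  rw [e, e]
  noncomm_ring

theorem conj_E (g g' : Matrix (Fin m) (Fin m) ℂ) (i j : Fin m) :
    g * E i j * g' = vecMulVec (fun r => g r i) (g' j) := by
  ext r s
  rw [Matrix.mul_apply]
  simp only [Matrix.mul_apply, vecMulVec_apply, Pi.single_apply]
  rw [Finset.sum_eq_single j, Finset.sum_eq_single i]
  · rw [if_pos rfl, if_pos rfl, mul_one, mul_one]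
  · intro b _ hb
    rw [if_neg hb, zero_mul, mul_zero]
  · intro h0
    exact absurd (Finset.mem_univ _) h0
  · intro b _ hb
    rw [Finset.sum_eq_zero, zero_mul]
    intro c _
    rw [if_neg hb, mul_zero, mul_zero]
  · intro h0
    exact absurd (Finset.mem_univ _) h0

/-- the case of a common row -/
theorem caseI (hSle : St_Sle) {n : ℕ}
    {φ : Matrix (Fin (n + 1)) (Fin (n + 1)) ℂ →ₗ[ℂ] Matrix (Fin (n + 1)) (Fin (n + 1)) ℂ}
    (h : Hp φ) (hn : 0 < n) (a : Fin n → Fin (n + 1) → ℂ) (ξ : Fin (n + 1) → ℂ)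
    (ha : ∀ i : Fin n, φ (E i.castSucc (Fin.last n)) = vecMulVec (a i) ξ) :
    ∃ g g' : Matrix (Fin (n + 1)) (Fin (n + 1)) ℂ, g * g' = 1 ∧ g' * g = 1 ∧
      ∀ X ∈ SL (n + 1), φ X = g * X * g' := by
  have hne : ∀ i : Fin n, i.castSucc ≠ Fin.last n := fun i => (Fin.castSucc_lt_last i).ne
  have h1 : ∀ j : Fin n, ∃ w η : Fin (n + 1) → ℂ,
      φ (E (Fin.last n) j.castSucc) = vecMulVec w η ∧ ξ ⬝ᵥ w = 1 ∧ η ⬝ᵥ w = 0 ∧
      ∀ i, η ⬝ᵥ a i = if i = j then 1 else 0 := by
    intro j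
    obtain ⟨w, η, hw, hη, e, e0⟩ := (hSle _ _).1 (ext_map h _ (extr_E hSle (hne j).symm))
    have e1 : ∀ i : Fin n, (ξ ⬝ᵥ w) * (η ⬝ᵥ a i) = if i = j then 1 else 0 := by
      intro i
      have e2 := tr_map h hSle (E i.castSucc (Fin.last n)) (E (Fin.last n) j.castSucc)
        (extr_E hSle (hne i)) (extr_E hSle (hne j).symm).1
      rw [ha i, e, tr_E, if_pos rfl, one_mul, vecMulVec_mul_vecMulVec, trace_vecMulVec,
        dotProduct_smul, smul_eq_mul, dotProduct_comm (a i)] at e2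
      rw [e2]
      by_cases hij : i = j
      · rw [if_pos hij, if_pos (by rw [hij])]
      · rw [if_neg hij, if_neg fun h0 => hij (Fin.castSucc_injective _ h0)]
    have e3 : ξ ⬝ᵥ w ≠ 0 := by
      intro h0
      have e4 := e1 j
      rw [h0, zero_mul, if_pos rfl] at e4
      exact zero_ne_one e4
    refine ⟨(ξ ⬝ᵥ w)⁻¹ • w, (ξ ⬝ᵥ w) • η, ?_, ?_, ?_, ?_⟩
    · rw [e, smul_vecMulVec, vecMulVec_smul, smul_smul, inv_mul_cancel₀ e3, one_smul]
    · rw [dotProduct_smul, smul_eq_mul, inv_mul_cancel₀ e3]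
    · rw [dotProduct_smul, smul_dotProduct, e0, smul_zero, smul_zero]
    · intro i
      rw [smul_dotProduct, smul_eq_mul, e1 i]
  choose w η h2 h3 h4 h5 using h1
  have hw : ∀ j, w j ≠ 0 := by
    intro j h0
    have e1 := h3 j
    rw [h0, dotProduct_zero] at e1
    exact zero_ne_one e1
  have hη : ∀ j, η j ≠ 0 := by
    intro j h0
    have e1 := h5 j j
    rw [h0, zero_dotProduct, if_pos rfl] at e1
    exact zero_ne_one e1
  have h6 : ∀ j k, w j = w k := by
    intro j k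
    by_cases hjk : j = k
    · rw [hjk]
    have hjk' : j.castSucc ≠ k.castSucc := fun h0 => hjk (Fin.castSucc_injective _ h0)
    obtain ⟨v, ζ, _, _, e, _⟩ := (hSle _ _).1 (ext_map h _ (extr_row hSle hjk' (hne j) (hne k)))
    rw [map_add, h2 j, h2 k] at e
    rcases pr_or e with hp | hp
    · obtain ⟨c, hc⟩ := hp.smul (hw j)
      have e1 := h3 k
      rw [hc, dotProduct_smul, h3 j, smul_eq_mul, mul_one] at e1
      rw [hc, e1, one_smul]
    · exfalso
      obtain ⟨c, hc⟩ := hp.smul (hη j)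
      have e1 := h5 k j
      rw [hc, smul_dotProduct, h5 j j, if_pos rfl, smul_eq_mul, mul_one, if_neg hjk] at e1
      rw [e1, zero_smul] at hc
      exact hη k hc
  have h7 : ∀ i, ξ ⬝ᵥ a i = 0 := by
    intro i
    have e1 : (φ (E i.castSucc (Fin.last n))).trace = 0 :=
      h.mem _ (extr_E hSle (hne i)).1
    rw [ha i, trace_vecMulVec] at e1
    rw [dotProduct_comm]
    exact e1
  obtain ⟨W, hW⟩ : ∃ W, ∀ j, w j = W := ⟨w ⟨0, hn⟩, fun j => h6 _ _⟩
  let g : Matrix (Fin (n + 1)) (Fin (n + 1)) ℂ := Matrix.of fun r s =>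
    (Fin.snoc a W : Fin (n + 1) → Fin (n + 1) → ℂ) s r
  let g' : Matrix (Fin (n + 1)) (Fin (n + 1)) ℂ := Matrix.of fun r s =>
    (Fin.snoc η ξ : Fin (n + 1) → Fin (n + 1) → ℂ) r s
  have hg : g' * g = 1 := by
    ext r s
    have e1 : (g' * g) r s = (Fin.snoc η ξ : Fin (n + 1) → Fin (n + 1) → ℂ) r ⬝ᵥ
        (Fin.snoc a W : Fin (n + 1) → Fin (n + 1) → ℂ) s := by
      rw [Matrix.mul_apply]
      rfl
    rw [e1]
    refine Fin.lastCases ?_ (fun j => ?_) r <;> refine Fin.lastCases ?_ (fun i => ?_) s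
    · rw [Fin.snoc_last, Fin.snoc_last, Matrix.one_apply_eq, ← hW ⟨0, hn⟩, h3]
    · rw [Fin.snoc_last, Fin.snoc_castSucc, h7, Matrix.one_apply_ne (hne i).symm]
    · rw [Fin.snoc_last, Fin.snoc_castSucc, Matrix.one_apply_ne (hne j), ← hW j, h4]
    · rw [Fin.snoc_castSucc, Fin.snoc_castSucc, h5, Matrix.one_apply]
      by_cases hij : i = j
      · rw [if_pos hij, if_pos (by rw [hij])]
      · rw [if_neg hij, if_neg fun h0 => hij (Fin.castSucc_injective _ h0).symm]
  have hg2 : g * g' = 1 := mul_eq_one_comm.1 hg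
  have e1 : ∀ i : Fin n, φ (E i.castSucc (Fin.last n)) = g * E i.castSucc (Fin.last n) * g' := by
    intro i
    rw [ha i, conj_E]
    congr 1
    · funext r
      show a i r = (Fin.snoc a W : Fin (n + 1) → Fin (n + 1) → ℂ) i.castSucc r
      rw [Fin.snoc_castSucc]
    · show ξ = (Fin.snoc η ξ : Fin (n + 1) → Fin (n + 1) → ℂ) (Fin.last n)
      rw [Fin.snoc_last]
  have e2 : ∀ j : Fin n, φ (E (Fin.last n) j.castSucc) = g * E (Fin.last n) j.castSucc * g' := by
    intro j
    rw [h2 j, conj_E, hW j]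
    congr 1
    · funext r
      show W r = (Fin.snoc a W : Fin (n + 1) → Fin (n + 1) → ℂ) (Fin.last n) r
      rw [Fin.snoc_last]
    · show η j = (Fin.snoc η ξ : Fin (n + 1) → Fin (n + 1) → ℂ) j.castSucc
      rw [Fin.snoc_castSucc]
  have e3 : ∀ i j : Fin n, φ (E i.castSucc (Fin.last n) * E (Fin.last n) j.castSucc -
          E (Fin.last n) j.castSucc * E i.castSucc (Fin.last n)) =
      g * (E i.castSucc (Fin.last n) * E (Fin.last n) j.castSucc -
          E (Fin.last n) j.castSucc * E i.castSucc (Fin.last n)) * g' := by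
    intro i j
    rw [h.br _ (extr_E hSle (hne i)).1 _ (extr_E hSle (hne j).symm).1, e1, e2, conj_br hg]
  refine ⟨g, g', hg2, hg, fun X hX => ?_⟩
  rw [decomp X hX]
  simp only [map_add, map_sum, map_smul, mul_add, add_mul, Finset.mul_sum, Finset.sum_mul,
    mul_smul_comm, smul_mul_assoc]
  simp only [e1, e2, e3]

end Slax

open Slax in
theorem thm_Sla (hSle : St_Sle) : St_Sla := by
  intro m m' hm e φ h1 h2 h3
  subst e
  obtain ⟨n, rfl⟩ : ∃ n, m = n + 1 := ⟨m - 1, by omega⟩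
  have hn : 0 < n := by omega
  have h : Hp φ := ⟨h1, h2, h3⟩
  have hne : ∀ i : Fin n, i.castSucc ≠ Fin.last n := fun i => (Fin.castSucc_lt_last i).ne
  have hcol : ∀ i : Fin n, ∃ v ξ : Fin (n + 1) → ℂ, v ≠ 0 ∧ ξ ≠ 0 ∧
      φ (E i.castSucc (Fin.last n)) = vecMulVec v ξ ∧ ξ ⬝ᵥ v = 0 := fun i =>
    (hSle _ _).1 (ext_map h _ (extr_E hSle (hne i)))
  choose v ξ hv hξ e e0 using hcol
  have hp : ∀ i j, i ≠ j → Pr (v i) (v j) ∨ Pr (ξ i) (ξ j) := by
    intro i j hij
    have hij' : i.castSucc ≠ j.castSucc := fun h0 => hij (Fin.castSucc_injective _ h0)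
    obtain ⟨u, ζ, _, _, e2, _⟩ := (hSle _ _).1 (ext_map h _ (extr_col hSle hij' (hne i) (hne j)))
    rw [map_add, e i, e j] at e2
    exact pr_or e2
  by_cases hA : ∀ i j, Pr (ξ i) (ξ j)
  · choose c hc using fun i => (hA ⟨0, hn⟩ i).smul (hξ ⟨0, hn⟩)
    obtain ⟨g, g', hg, hg', hX⟩ := caseI hSle h hn (fun i => c i • v i) (ξ ⟨0, hn⟩) (by
      intro i
      rw [e i, hc i, vecMulVec_smul, smul_vecMulVec])
    exact ⟨g, g', hg, hg', Or.inl hX⟩
  · push Not at hA
    obtain ⟨i, j, hij⟩ := hA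
    have hB : ∀ k, Pr (v i) (v k) := by
      intro k
      by_cases hik : i = k
      · rw [hik]
        intro r s
        ring
      by_contra h0
      have hik2 : Pr (ξ i) (ξ k) := (hp i k hik).resolve_left h0
      by_cases hjk : j = k
      · exact hij (hjk ▸ hik2)
      have hne2 : i ≠ j := by
        intro h6
        apply hij
        rw [h6]
        intro r s
        ring
      have hvij : Pr (v i) (v j) := (hp i j hne2).resolve_right hij
      have hjk2 : Pr (ξ j) (ξ k) := (hp j k hjk).resolve_left fun h7 =>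
        h0 (hvij.trans h7 (hv j))
      exact hij (hik2.trans hjk2.symm (hξ k))
    choose c hc using fun k => (hB k).smul (hv i)
    let φ' : Matrix (Fin (n + 1)) (Fin (n + 1)) ℂ →ₗ[ℂ] Matrix (Fin (n + 1)) (Fin (n + 1)) ℂ :=
      { toFun := fun X => -(φ X)ᵀ
        map_add' := by
          intro X Y
          rw [map_add, Matrix.transpose_add, neg_add]
        map_smul' := by
          intro r X
          rw [map_smul, Matrix.transpose_smul, RingHom.id_apply, smul_neg] }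
    have hφ' : ∀ X, φ' X = -(φ X)ᵀ := fun X => rfl
    have h' : Hp φ' := by
      refine ⟨?_, ?_, ?_⟩
      · intro X hX
        have e1 : (φ X).trace = 0 := h1 X hX
        show (-(φ X)ᵀ).trace = 0
        rw [Matrix.trace_neg, Matrix.trace_transpose, e1, neg_zero]
      · intro X hX hX0
        apply h2 X hX
        rw [hφ', neg_eq_zero] at hX0
        rw [← Matrix.transpose_transpose (φ X), hX0, Matrix.transpose_zero]
      · intro X hX Y hY
        rw [hφ', hφ', hφ', h3 X hX Y hY, Matrix.transpose_sub, Matrix.transpose_mul,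
          Matrix.transpose_mul, neg_mul_neg, neg_mul_neg, neg_sub]
    obtain ⟨g, g', hg, hg', hX⟩ := caseI hSle h' hn (fun k => -(c k • ξ k)) (v i) (by
      intro k
      rw [hφ', e k, hc k, smul_vecMulVec, Matrix.transpose_smul, transpose_vecMulVec,
        neg_vecMulVec, smul_vecMulVec])
    refine ⟨g'ᵀ, gᵀ, ?_, ?_, Or.inr fun X hXX => ?_⟩
    · rw [← Matrix.transpose_mul, hg, Matrix.transpose_one]
    · rw [← Matrix.transpose_mul, hg', Matrix.transpose_one]
    · have e1 := hX X hXX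
      rw [hφ'] at e1
      have e2 : (φ X)ᵀ = -(g * X * g') := by rw [← e1, neg_neg]
      rw [← Matrix.transpose_transpose (φ X), e2, Matrix.transpose_neg, Matrix.transpose_mul,
        Matrix.transpose_mul, Matrix.mul_assoc]

end Pool.Agent.KTW
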