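import Pool.Agent.KTW.StX
import Pool.Agent.KQ4.St

/-!
# KTW: pieces of dimension three. Frozen statements, part eight

Kuga-Satake structures of real type with `m = 3, 4` and of complex type with `m = 2`: the simple
factors of the Lie algebras are `sl_2`, and there may be links between the real and the complex ones.
Every module `Pool/Agent/KTW/<X>.lean` proves `theorem thm_<X> : St_<X>` (with the hypotheses named in the
docstring). The docstrings contain the proofs.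
-/

set_option autoImplicit false

namespace Pool.Agent.KTW

open Module Matrix NumberField Pool.Agent.Helper7 Pool.Agent.KS Pool.Agent.Ball Pool.Agent.KSE
  Pool.Agent.Helper28.GPC Pool.Agent.K3P Pool.Agent.KTP
open Pool.Agent.KQ4 (en cq cf QP)
open Pool.Agent.GPC (AbVar IsElementary)

/-! ### Coordinates -/

/-- the coordinates of the part of trace zero of a matrix of size two -/
noncomputable def cs {m : ℕ} (A : Matrix (Fin m) (Fin m) ℂ) : Fin 3 → ℂ :=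
  ![Complex.I * (en A 0 1 + en A 1 0), en A 1 0 - en A 0 1, Complex.I * (en A 0 0 - en A 1 1)]

/-- the coordinates of a matrix with respect to the frame `B`; `m = 2` in the complex case, `m = 3` or
`m = 4` in the real case (`ε = 1, -1`: the two components if `m = 4`) -/
noncomputable def cz (ε : ℂ) {m : ℕ} (B M : Matrix (Fin m) (Fin m) ℂ) : Fin 3 → ℂ :=
  if m = 2 then cs (B⁻¹ * M * B) else cq ε (B⁻¹ * M * B)

section pl

variable {K : Type} [Field K] [NumberField K] {m : ℕ} (h : Matrix (Fin m) (Fin m) K)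
  (σ : K →+* ℂ)

/-- a frame at the place `σ`: orthonormal in the real case, any basis in the complex case -/
def IsFra (B : Matrix (Fin m) (Fin m) ℂ) : Prop :=
  IsUnit B.det ∧ (cj σ = σ → Bᵀ * h.map σ * B = 1)

/-- skew at a real place -/
def IsSkw (M : Matrix (Fin m) (Fin m) ℂ) : Prop := cj σ = σ → Mᵀ * h.map σ + h.map σ * M = 0

/-- the Lie algebras are sums of copies of `sl_2` -/
def IsQn : Prop := (RePl h σ ∧ (m = 3 ∨ m = 4)) ∨ (CoPl h σ ∧ m = 2)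

end pl

/-- **CSS.**  PROOF.  `subst`, explicit entries (`cs A = 0` gives `A 0 1 = A 1 0 = 0`, `A 0 0 = A 1 1`).
With `T₁ = [[0,1],[1,0]] / (2 i)`, `T₂ = [[0,-i],[i,0]] / (2 i)`, `T₃ = [[1,0],[0,-1]] / (2 i)` the part of trace
zero of `A` is `∑ k, cs A k • T_k`, `T₁ T₂ = T₃ / 2` etc., `T_k T_k = -1/4`. -/
def St_Css : Prop := ∀ m : ℕ, m = 2 →
  (∀ A A' : Matrix (Fin m) (Fin m) ℂ, cs (A + A') = cs A + cs A') ∧
  (∀ (r : ℂ) (A : Matrix (Fin m) (Fin m) ℂ), cs (r • A) = r • cs A) ∧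
  (∀ A A' : Matrix (Fin m) (Fin m) ℂ, cs (A * A' - A' * A) = crossProduct (cs A) (cs A')) ∧
  (∀ x : Fin 3 → ℂ, ∃ A ∈ SL m, cs A = x) ∧
  (∀ A : Matrix (Fin m) (Fin m) ℂ, cs A = 0 ↔ trz A = 0) ∧
  ∀ (τ : ℂ ≃+* ℂ) (A : Matrix (Fin m) (Fin m) ℂ), cs (A.map τ) = 0 ↔ cs A = 0

/-- **CZP** (from `St_Css`, `KQ4.St_Qcq`).  Properties of the coordinates.  PROOF.  Complex case
(`m = 2`, `cj σ ≠ σ`): `St_Css` for `B⁻¹ * M * B` (and `trz (B⁻¹ * M * B) = B⁻¹ * trz M * B`).  Real case: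
`B⁻¹ = Bᵀ * h.map σ`, `A = B⁻¹ * M * B` is skew for `M` skew: `Aᵀ = Bᵀ Mᵀ H B = - Bᵀ H M B`
(`(h.map σ)ᵀ = h.map σ` by `herm`, `conj` and `cj σ = σ`), every skew `A` is of this form
(`M = B * A * B⁻¹`), and `KQ4.St_Qcq`; a skew `M` has trace `0`, so `trz M = M`.  (5) In the real case
`cj (τ ∘ σ) = τ ∘ σ` (`conj`), `(B.map τ)ᵀ * h.map (τ ∘ σ) * B.map τ = 1`, and `cz ε (B.map τ) (M.map τ)` is
the image of `cz ε B M` under `τ` (`τ ε = ε`). -/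
def St_Czp : Prop := ∀ (K : Type) [Field K] [NumberField K] (c : K →+* K) (m : ℕ)
  (h : Matrix (Fin m) (Fin m) K) (σ₀ : K →+* ℂ), (∀ (σ : K →+* ℂ) x, cj σ x = σ (c x)) →
  (∀ a b, c (h a b) = h b a) → h.det ≠ 0 → IsQn h σ₀ → ∀ ε : ℂ, (ε = 1 ∨ ε = -1) →
  ∀ (σ : K →+* ℂ) (B : Matrix (Fin m) (Fin m) ℂ), IsFra h σ B →
  (∀ M M' : Matrix (Fin m) (Fin m) ℂ, cz ε B (M + M') = cz ε B M + cz ε B M') ∧
  (∀ (r : ℂ) (M : Matrix (Fin m) (Fin m) ℂ), cz ε B (r • M) = r • cz ε B M) ∧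
  (∀ M M' : Matrix (Fin m) (Fin m) ℂ, IsSkw h σ M → IsSkw h σ M' →
    cz ε B (M * M' - M' * M) = crossProduct (cz ε B M) (cz ε B M')) ∧
  (∀ x : Fin 3 → ℂ, ∃ Z ∈ Lg h σ, cz ε B Z = x ∧ (m = 4 → cz (-ε) B Z = 0)) ∧
  (∀ M : Matrix (Fin m) (Fin m) ℂ, IsSkw h σ M → cz ε B M = 0 → (m = 4 → cz (-ε) B M = 0) →
    trz M = 0) ∧
  ∀ τ : ℂ ≃+* ℂ, IsFra h ((τ : ℂ →+* ℂ).comp σ) (B.map τ) ∧
    ∀ M : Matrix (Fin m) (Fin m) ℂ, cz ε (B.map τ) (M.map τ) = 0 ↔ cz ε B M = 0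

/-- **FRC.**  Change of frames for `m = 4`.  PROOF.  Let `⋆A` be the skew matrix with the entries
`(⋆A) 0 1 = A 2 3`, `(⋆A) 0 2 = - A 1 3`, `(⋆A) 0 3 = A 1 2`, `(⋆A) 1 2 = A 0 3`, `(⋆A) 1 3 = - A 0 2`,
`(⋆A) 2 3 = A 0 1`.  For skew `A`: `cq ε A = 0` iff `A = ε • ⋆A` (`ε = ± 1`).  For every `O`:
`O * ⋆(Oᵀ * A * O) * Oᵀ = O.det • ⋆A` (polynomial identity, `Matrix.det_succ_row_zero`, `ring`; it is enough to
take the six elementary skew matrices `A`).  If `Oᵀ O = 1`, then `⋆(Oᵀ A O) = O.det • Oᵀ (⋆A) O`. -/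
def St_Frc : Prop := ∀ (m : ℕ), m = 4 → ∀ O A : Matrix (Fin m) (Fin m) ℂ, Oᵀ * O = 1 → Aᵀ = -A →
  ∀ ε : ℂ, (ε = 1 ∨ ε = -1) →
  (O.det = 1 ∨ O.det = -1) ∧ (cq ε (Oᵀ * A * O) = 0 ↔ cq (ε * O.det) A = 0)

/-- **RFN** (from `St_Frc`, `KQ4.St_Qcq`).  The non-compact real form.  PROOF.  There is a real matrix `R`
with `Rᵀ * G * R = diag (1, 1, -1, ..)` or `diag (-1, -1, 1, ..)` (bases of `W`, `W'` in `Sig2`, Gram-Schmidt;
or an orthogonal basis of the form, as in `KQ4/Frm.lean` over `ℝ`); let `B₀ = R * D`, `D = diag (1, 1, i, ..)`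
resp. `diag (i, i, 1, ..)`, a frame.  (1) `B = B₀`, any `ε`: for a real `S` which is skew for the diagonal
form `Z = R * S * R⁻¹` is real and skew for `G`, and `A = B₀⁻¹ Z B₀ = D⁻¹ S D`.  For `S = (s 2 1)`-type
matrices: take `S' 0 2 = S' 2 0 = 2`, all other entries `0`, and `S 2 1 = S 1 2 = 1`, `S 1 0 = 1`,
`S 0 1 = -1`, other entries `0` (the signs have to be adapted for the second diagonal form).  Then
`cq ε (D⁻¹ S' D) = (0, 2 i, 0)` and `cq ε (D⁻¹ S D) = (- i, 0, 1)` up to signs; choose the signs of the entries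
of `S', S` such that `x' × x = 2 x` for `x' = (0, ± 2 i, 0)`, `x = (± i, 0, 1)`
(`(0, t, 0) × (a, 0, c) = (t c, 0, - t a)`, `t = 2 i`, `a = i c`).  `cq ε` of a bracket is the cross product
(`KQ4.St_Qcq`).  (2) Arbitrary `B`: `O = B₀⁻¹ * B` is orthogonal, `B⁻¹ X B = Oᵀ (B₀⁻¹ X B₀) O`.  `m = 3`:
`cq ε A = 0` iff `A = 0` for `A` skew (`KQ4.St_Qcq`).  `m = 4`: `St_Frc`, and (1) for `ε * O.det`. -/
def St_Rfn : Prop := ∀ (m : ℕ), (m = 3 ∨ m = 4) → ∀ G : Matrix (Fin m) (Fin m) ℝ, Gᵀ = G →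
  (Sig2 G ∨ Sig2 (-G)) → ∀ B : Matrix (Fin m) (Fin m) ℂ, Bᵀ * G.map ((↑) : ℝ → ℂ) * B = 1 →
  ∀ ε : ℂ, (ε = 1 ∨ ε = -1) → ∃ Z' Z : Matrix (Fin m) (Fin m) ℝ, Z'ᵀ * G + G * Z' = 0 ∧
    Zᵀ * G + G * Z = 0 ∧
    cq ε (B⁻¹ * (Z' * Z - Z * Z' - (2 : ℝ) • Z).map ((↑) : ℝ → ℂ) * B) = 0 ∧
    cq ε (B⁻¹ * Z.map ((↑) : ℝ → ℂ) * B) ≠ 0

/-- **RFC** (from `St_Frc`, `St_Css`, `KQ4.St_Qcq`).  The compact real forms.  PROOF.  (1) There is a real `R`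
with `Rᵀ * G * R = ± 1`; `B₀ = R` or `B₀ = i • R` is a frame, `A = B₀⁻¹ X B₀ = R⁻¹ X R` is real for
`X` real, so `y' = cq ε A'`, `y = cq ε A` are real for all `ε = ± 1`, and `y' × y = 2 y` (`KQ4.St_Qcq`), so
`2 y · y = (y' × y) · y = 0` and `y = 0`.  For `B` arbitrary as in `St_Rfn`.  (2) Let `B` be invertible with
`Bᴴ * H * B = ± 1`, `A = B⁻¹ X B` is skew-Hermitian for `X = Z', Z` (`Bᴴ H = ± B⁻¹`), so `cs A` is real:
`A 1 0 = - conj (A 0 1)`, the diagonal is imaginary.  `cs (B⁻¹ X B) = 0` iff `cs X = 0` (`St_Css`, both say that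
`X` is scalar).  Then as in (1). -/
def St_Rfc : Prop :=
  (∀ (m : ℕ), (m = 3 ∨ m = 4) → ∀ G : Matrix (Fin m) (Fin m) ℝ, Gᵀ = G →
    Definite (G.map ((↑) : ℝ → ℂ)) → ∀ B : Matrix (Fin m) (Fin m) ℂ,
    Bᵀ * G.map ((↑) : ℝ → ℂ) * B = 1 → ∀ ε : ℂ, (ε = 1 ∨ ε = -1) →
    ∀ Z' Z : Matrix (Fin m) (Fin m) ℝ, Z'ᵀ * G + G * Z' = 0 → Zᵀ * G + G * Z = 0 →
    cq ε (B⁻¹ * (Z' * Z - Z * Z' - (2 : ℝ) • Z).map ((↑) : ℝ → ℂ) * B) = 0 →
    cq ε (B⁻¹ * Z.map ((↑) : ℝ → ℂ) * B) = 0) ∧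
  ∀ (m : ℕ), m = 2 → ∀ H : Matrix (Fin m) (Fin m) ℂ, Definite H →
    ∀ Z' Z : Matrix (Fin m) (Fin m) ℂ, Z'ᴴ * H + H * Z' = 0 → Zᴴ * H + H * Z = 0 →
    cs (Z' * Z - Z * Z' - (2 : ℂ) • Z) = 0 → cs Z = 0

/-! ### Modules over products of quaternion algebras -/

/-- the values of `φ` are the places, one of every pair in the complex case -/
def IsPls {K : Type} [Field K] [NumberField K] {S : Type} (φ : S → (K →+* ℂ)) : Prop :=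
  (∀ σ σ', φ σ = φ σ' ∨ φ σ = cj (φ σ') → σ = σ') ∧ ∀ τ, ∃ σ, φ σ = τ ∨ φ σ = cj τ

/-- **QCM** (from `St_Css`).  Complex type, `m = 2`: the middle part.  PROOF.  For `σ ∈ S` let
`e a = tau (ts t (φ σ))` of the column `a` of `C σ` and `f b = tau (ts t (cj (φ σ)))` of the column `b` of
`(1/2) ((C σ)ᵀ * h.map (φ σ))⁻¹`, so that `e a f b + f b e a = δ a b` (`tau_pair`), `e a e b + e b e a = 0`,
`f a f b + f b f a = 0` (`tau_anti`, `cj (φ σ) ≠ φ σ`), and all of them anticommute with those of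
`σ' ≠ σ`.  `P a = e a f a` are commuting idempotents, `q σ = P 0 + P 1 - 2 P 0 P 1` is idempotent,
`s σ x = ∑ a b, (∑ k, x k • T_k) a b • e a f b` (`T_k` as in `St_Css`).  On the image of `q σ`:
`(P 0 + P 1) = 1` and `f b f d = 0`, so `(e a f b) (e c f d) = δ b c e a f d`, hence
`s σ x s σ y q σ = -(x · y) / 4 q σ + (1/2) s σ (x × y) q σ` (products of the `T_k`).  `p` is the product of the
commuting `q σ` (they commute with everything even, and with the `e, f` of other places), as in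
`KQ4/Qcl.lean`, `p ≠ 0`: for every finite set `F` of places there is `v ≠ 0` with `q σ v = v` for
`σ ∈ F`: for a new place, if `q σ v ≠ 0` take it; otherwise `v = P 0 P 1 v + (1 - P 0) (1 - P 1) v`; if
`w = (1 - P 0) (1 - P 1) v ≠ 0` take `e 0 w` (`f 0 w = 0`, `f 0 e 0 w = w`), if `w = P 0 P 1 v ≠ 0` take
`f 0 w` (`e 0 f 0 w = w`).
The formula: let `A σ = (C σ)⁻¹ * M (φ σ) * C σ`.  `X' = ∑ σ, ∑ a b, A σ a b • (1/2) (e a f b - f b e a)` is in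
`bvS t` and acts by `M` at the places `φ σ` (`[e a f b, e c] = δ b c e a`), so everywhere (both families are
skew), so `X = X'` (`eq_of_act`).  `(1/2) (e a f b - f b e a) = e a f b - (1/2) δ a b`, and the scalar part
`r` of `A σ` gives `r (P 0 + P 1 - 1)`, which is zero on the image of `q σ`. -/
def St_Qcm : Prop := ∀ (V : Type) [AddCommGroup V] [Module ℂ V] [FiniteDimensional ℂ V]
  [Nontrivial V] (K : Type) [Field K] [NumberField K] (c : K →+* K) (m : ℕ)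
  (h : Matrix (Fin m) (Fin m) K) (t : Fin m → K → Module.End ℂ V), CMR c h t → m = 2 →
  ∀ (S : Type) [Fintype S] [DecidableEq S] (φ : S → (K →+* ℂ)), IsPls φ →
  ∀ C : S → Matrix (Fin m) (Fin m) ℂ, (∀ σ, IsUnit (C σ).det) →
  ∃ (s : S → (Fin 3 → ℂ) →ₗ[ℂ] Module.End ℂ V) (p : Module.End ℂ V), QP s p ∧
    ∀ X ∈ bvS t, ∀ M, ActM t X M → X * p = p * X ∧
      X * p = (∑ σ, s σ (cs ((C σ)⁻¹ * M (φ σ) * C σ))) * p

/-- **PSY** (from `St_Qcm`, `KQ4.St_Qcl`).  PROOF.  Complex case: `St_Qcm` (`cz = cs`).  Real case: `φ` is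
bijective (`cj τ = τ`); `KQ4.St_Qcl` for the frames `C (φ⁻¹ τ)`, `s (φ σ)` for `s σ`; `cf = cz` since
`Bᵀ * h.map σ = B⁻¹`. -/
def St_Psy : Prop := ∀ (κ : Type) [Fintype κ] [DecidableEq κ] [Nonempty κ] (ϖ : ℂ)
  (P : PData κ ϖ) (K : Type) [Field K] [NumberField K] (c : K →+* K) (m : ℕ)
  (h : Matrix (Fin m) (Fin m) K) (t : Fin m → K → Module.End ℂ (κ → ℂ)) (σ₀ : K →+* ℂ),
  MD P c h t → IsQn h σ₀ → ∀ ε : ℂ, (ε = 1 ∨ ε = -1) → ∀ (S : Type) [Fintype S] [DecidableEq S]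
  (φ : S → (K →+* ℂ)), IsPls φ → ∀ C : S → Matrix (Fin m) (Fin m) ℂ,
  (∀ σ, IsFra h (φ σ) (C σ)) →
  ∃ (s : S → (Fin 3 → ℂ) →ₗ[ℂ] Module.End ℂ (κ → ℂ)) (p : Module.End ℂ (κ → ℂ)), QP s p ∧
    ∀ X ∈ bvS t, ∀ M, ActM t X M → X * p = p * X ∧ X * p = (∑ σ, s σ (cz ε (C σ) (M (φ σ)))) * p

/-- **QHX** (from `KQ4.St_Qav`, `KQ4.St_Qso`).  PROOF.  The proof of `KQ4.thm_Qhm`
(`Pool/Agent/KQ4/Qhm.lean`) with `φ = id`: `F` from `KQ4.St_Qav` for `s` and `s' σ ∘ₗ g σ`. -/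
def St_Qhx : Prop := ∀ (S V V' : Type) [Fintype S] [DecidableEq S] [AddCommGroup V] [Module ℂ V]
  [AddCommGroup V'] [Module ℂ V'] (s : S → (Fin 3 → ℂ) →ₗ[ℂ] Module.End ℂ V) (p : Module.End ℂ V)
  (s' : S → (Fin 3 → ℂ) →ₗ[ℂ] Module.End ℂ V') (p' : Module.End ℂ V'), QP s p → QP s' p' →
  ∀ g : S → (Fin 3 → ℂ) →ₗ[ℂ] (Fin 3 → ℂ), (∀ σ, Function.Bijective (g σ)) →
  (∀ σ x y, g σ (crossProduct x y) = crossProduct (g σ x) (g σ y)) →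
  ∃ F : V →ₗ[ℂ] V', F ≠ 0 ∧
    (∀ (X : Module.End ℂ V) (Y : Module.End ℂ V') (x y : S → (Fin 3 → ℂ)), X * p = p * X →
      X * p = (∑ σ, s σ (x σ)) * p → Y * p' = (∑ σ, s' σ (y σ)) * p' →
      (∀ σ, y σ = g σ (x σ)) → F ∘ₗ X = Y ∘ₗ F) ∧
    ∀ (Y : Module.End ℂ V') (y : S → (Fin 3 → ℂ)), Y * p' = (∑ σ, s' σ (y σ)) * p' →
      Y ∘ₗ F = 0 → ∀ σ, y σ = 0

/-! ### Links -/

section sy

variable {I : Type} {K : I → Type} [∀ i, Field (K i)] [∀ i, NumberField (K i)]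
  (c : ∀ i, K i →+* K i) {m : I → ℕ} (h : ∀ i, Matrix (Fin (m i)) (Fin (m i)) (K i))
  (σ₀ : ∀ i, K i →+* ℂ)

/-- as `SyA`, for families of real and of complex type -/
structure SyB (R : Set (∀ i, (K i →+* ℂ) → Matrix (Fin (m i)) (Fin (m i)) ℂ)) : Prop where
  conj : ∀ i (σ : K i →+* ℂ) x, cj σ x = σ (c i x)
  herm : ∀ i a b, c i (h i a b) = h i b a
  nd : ∀ i, (h i).det ≠ 0
  typ : ∀ i, RePl (h i) (σ₀ i) ∨ CoPl (h i) (σ₀ i)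
  add : ∀ M ∈ R, ∀ N ∈ R, M + N ∈ R
  smul : ∀ (r : ℂ), ∀ M ∈ R, r • M ∈ R
  br : ∀ M ∈ R, ∀ N ∈ R, M * N - N * M ∈ R
  tw : ∀ M ∈ R, ∀ τ : ℂ ≃+* ℂ, (fun i => twM τ (M i)) ∈ R
  skew : ∀ M ∈ R, ∀ i, SkewM (h i) (M i)
  one : ∀ i (σ : K i →+* ℂ), ∀ Z ∈ Lg (h i) σ, ∃ M ∈ R, M i σ = Z ∧
    ∀ τ, τ ≠ σ → τ ≠ cj σ → M i τ = 0

end sy

/-- **NCL** (from `St_Rfn`, `St_Rfc`, `St_Czp`).  A non-compact piece is not linked with a compact one.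
PROOF.  `h i` at `σ₀ i` is a real symmetric matrix `G = CoreR.GR (h i) (σ₀ i)` (`conj`, `herm`).  Let
`Z', Z` be as in `St_Rfn` for `B`; by `one` there are `M', M ∈ R` with the values `Z', Z` at `(i, σ₀ i)`.
Replace `M'` by `(1/2) • (M' + twM starRingAut M')`, and `M` in the same way (`tw`; the values at the real
place `σ₀ i` do not change, because `Z', Z` are real).  Let `N = M' * M - M * M' - 2 • M ∈ R`;
`cz ε B (N i (σ₀ i)) = 0`.  Suppose that the link exists; then `cz ε' C (N j τ) = 0`, and by `St_Rfc`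
`cz ε' C (M j τ) = 0`, so `cz ε B (M i (σ₀ i)) = 0`, a contradiction.  `St_Rfc` can be used: for `j` of real
type `M' j τ`, `M j τ` are real and skew for the definite real form `(h j).map τ`; for `j` of complex type
`M' j (cj τ)` is the complex conjugate of `M' j τ`, so `skew` at `cj τ` says
`(M' j τ)ᴴ * (h j).map (cj τ) + (h j).map (cj τ) * M' j τ = 0`, and `(h j).map (cj τ)` is definite;
`cs (C⁻¹ * X * C) = 0` iff `cs X = 0` (`X` scalar). -/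
def St_Ncl : Prop := ∀ (I : Type) (K : I → Type) [∀ i, Field (K i)] [∀ i, NumberField (K i)]
  (c : ∀ i, K i →+* K i) (m : I → ℕ) (h : ∀ i, Matrix (Fin (m i)) (Fin (m i)) (K i))
  (σ₀ : ∀ i, K i →+* ℂ) (R : Set (∀ i, (K i →+* ℂ) → Matrix (Fin (m i)) (Fin (m i)) ℂ)),
  SyB c h σ₀ R → ∀ i j : I, RePl (h i) (σ₀ i) → (m i = 3 ∨ m i = 4) → IsQn (h j) (σ₀ j) →
  ∀ ε ε' : ℂ, (ε = 1 ∨ ε = -1) → (ε' = 1 ∨ ε' = -1) →
  ∀ (B : Matrix (Fin (m i)) (Fin (m i)) ℂ) (τ : K j →+* ℂ) (C : Matrix (Fin (m j)) (Fin (m j)) ℂ),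
  IsFra (h i) (σ₀ i) B → IsFra (h j) τ C → τ ≠ σ₀ j → τ ≠ cj (σ₀ j) →
  ¬ ∀ M ∈ R, cz ε B (M i (σ₀ i)) = 0 ↔ cz ε' C (M j τ) = 0

/-- **LAL** (from `St_Ncl`, `St_Czp`).  A link gives links at all places.  PROOF.  A link between `(i, σ, B)` and
`(j, τ, C)` means `∀ M ∈ R, cz ε B (M i σ) = 0 ↔ cz ε' C (M j τ) = 0`.
(0) For `s ∈ Aut ℂ` it gives a link between `(i, s σ, B.map s)` and `(j, s τ, C.map s)`: use it for
`twM s.symm M` (`tw`), `(twM s.symm M) i σ = (M i (s σ)).map s.symm`, and (6) of `St_Czp`.  If `j` is of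
complex type, a link with `(j, τ, C)` is a link with `(j, cj τ, C')` for every frame `C'`: `cz = 0` says
that the matrix is a scalar (`St_Czp` (5)), and by `skew` `M j τ` is a scalar iff `M j (cj τ)` is one.
(1) Choose `s₁` with `s₁ σ₁ = σ₀ i` (`Helper84.exists_aut`).  By (0) and `St_Ncl` `s₁ τ₁` is `σ₀ j` or
`cj (σ₀ j)`.  So there is a link between `(i, σ₀ i, B₀)` and `(j, σ₀ j, C₀)`, `B₀ = B₁.map s₁`, and
`C₀ = C₁.map s₁` if `s₁ τ₁ = σ₀ j` (if `cj τ₁ = τ₁` this is the case), otherwise `C₀ = 1`.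
(2) For `σ` choose `s_σ` with `s_σ σ₀ i = σ`, and `s_σ₁ = s₁⁻¹`.  Let `φ σ = s_σ σ₀ j`,
`B σ = B₀.map s_σ`, `C σ = C₀.map s_σ`; by (0) there are links between `(i, σ, B σ)` and `(j, φ σ, C σ)`.
(3) `IsPls φ`.  Injective: let `φ σ' = φ σ` or `cj (φ σ)`.  `u = s_σ⁻¹ s_σ'` maps `σ₀ j` to `σ₀ j` or
`cj (σ₀ j)` (`s ∘ cj τ = cj (s ∘ τ)` by `conj`).  If `j` is of real type, `u σ₀ j = σ₀ j`, and by (0) there is a link
between `(i, u σ₀ i, ..)` and `(j, σ₀ j, ..)`, so by `St_Ncl` (with `i` and `j` exchanged) `u σ₀ i = σ₀ i`,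
and `σ' = s_σ u σ₀ i = σ`.  If `j` is of complex type, there are links of `(i, σ, B σ)` and of
`(i, σ', B σ')` with `(j, φ σ, C σ)`, so between each other; if `σ' ≠ σ`, the `M` of `one` for
`(i, σ)` and `Z` with `cz ε (B σ) Z ≠ 0` (`St_Czp` (4)) is a contradiction (`M i σ' = 0`).
Surjective: let `τ = s σ₀ j` (`exists_aut`), `σ = s σ₀ i`, `u = s_σ⁻¹ s`, `u σ₀ i = σ₀ i`; by (0) there is a
link between `(i, σ₀ i, ..)` and `(j, u σ₀ j, ..)`, so `u σ₀ j` is `σ₀ j` or `cj (σ₀ j)` by `St_Ncl`, and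
`τ = s_σ u σ₀ j` is `φ σ` or `cj (φ σ)`.
(4) `g σ`: `M ↦ cz ε (B σ) (M i σ)` and `M ↦ cz ε' (C σ) (M j (φ σ))` are linear maps from the space `R`
onto `ℂ³` (`one`, `St_Czp` (4)) with the same kernel; brackets: `St_Czp` (3) (`skew` gives `IsSkw`). -/
def St_Lal : Prop := ∀ (I : Type) (K : I → Type) [∀ i, Field (K i)] [∀ i, NumberField (K i)]
  (c : ∀ i, K i →+* K i) (m : I → ℕ) (h : ∀ i, Matrix (Fin (m i)) (Fin (m i)) (K i))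
  (σ₀ : ∀ i, K i →+* ℂ) (R : Set (∀ i, (K i →+* ℂ) → Matrix (Fin (m i)) (Fin (m i)) ℂ)),
  SyB c h σ₀ R → ∀ i j : I, RePl (h i) (σ₀ i) → (m i = 3 ∨ m i = 4) → IsQn (h j) (σ₀ j) →
  ∀ ε ε' : ℂ, (ε = 1 ∨ ε = -1) → (ε' = 1 ∨ ε' = -1) →
  ∀ (σ₁ : K i →+* ℂ) (τ₁ : K j →+* ℂ) (B₁ : Matrix (Fin (m i)) (Fin (m i)) ℂ)
    (C₁ : Matrix (Fin (m j)) (Fin (m j)) ℂ), IsFra (h i) σ₁ B₁ → IsFra (h j) τ₁ C₁ →
  (∀ M ∈ R, cz ε B₁ (M i σ₁) = 0 ↔ cz ε' C₁ (M j τ₁) = 0) →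
  ∃ (φ : (K i →+* ℂ) → (K j →+* ℂ)) (B : (K i →+* ℂ) → Matrix (Fin (m i)) (Fin (m i)) ℂ)
    (C : (K i →+* ℂ) → Matrix (Fin (m j)) (Fin (m j)) ℂ)
    (g : (K i →+* ℂ) → (Fin 3 → ℂ) →ₗ[ℂ] (Fin 3 → ℂ)), IsPls φ ∧
    (∀ σ, IsFra (h i) σ (B σ)) ∧ (∀ σ, IsFra (h j) (φ σ) (C σ)) ∧
    (∀ σ, Function.Bijective (g σ)) ∧
    (∀ σ x y, g σ (crossProduct x y) = crossProduct (g σ x) (g σ y)) ∧
    (∀ M ∈ R, ∀ σ, cz ε' (C σ) (M j (φ σ)) = g σ (cz ε (B σ) (M i σ))) ∧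
    (cj τ₁ = τ₁ → ∃ σ, φ σ = τ₁ ∧ C σ = C₁)

/-! ### Families -/

section fam

variable {I J : Type} [Fintype I] [DecidableEq I] [Fintype J] [DecidableEq J] (e : I → J)
  (n : J → ℕ) {κ : J → Type} [∀ j, Fintype (κ j)] [∀ j, DecidableEq (κ j)] {ϖ : ℂ}
  (P : ∀ j, PData (κ j) ϖ) {K : I → Type} [∀ i, Field (K i)] [∀ i, NumberField (K i)] {m : I → ℕ}
  (h : ∀ i, Matrix (Fin (m i)) (Fin (m i)) (K i))
  (t : ∀ i, Fin (m i) → K i → Module.End ℂ (κ (e i) → ℂ)) {k : ℕ}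
  (γ : MultilinearMap ℂ (fun _ : Fin (2 * k) => HW κ n) ℂ)

/-- as `FamQ`, for `A_(e i)` of real type with `m i ≤ 4` and of complex type -/
structure FamT (c : ∀ i, K i →+* K i) (σ₀ : ∀ i, K i →+* ℂ) (Z : ∀ j, Module.End ℂ (κ j → ℂ))
    (MZ : ∀ i, (K i →+* ℂ) → Matrix (Fin (m i)) (Fin (m i)) ℂ) : Prop where
  pi : ϖ ≠ 0
  S : ∀ i, MD (P (e i)) (c i) (h i) (t i)
  B : ∀ v : Fin (2 * k) → HW κ n, (∀ r, IsRatP n P (v r)) → ∃ q : ℚ, γ v = ϖ ^ k * q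
  A : ∀ v : Fin (2 * k) → HW κ n, (∀ r i m j, IsAlgebraic ℚ (v r i m j)) → IsAlgebraic ℚ (γ v)
  ne : ∀ i, Nonempty (κ (e i))
  T : ∀ X : GG κ, IsInv n P γ X → ∀ i, ∃ M, ActM (t i) (X.1 (e i)) M
  sy : SyB c h σ₀ (SyM e n P t γ)
  qn : ∀ i, RePl (h i) (σ₀ i) → m i = 3 ∨ m i = 4
  Z1 : ∀ i, Z (e i) ∈ bvS (t i)
  Z2 : ∀ i, ActM (t i) (Z (e i)) (MZ i)
  Z3 : ∀ (i j : J) (f : (κ i → ℂ) →ₗ[ℂ] (κ j → ℂ)), IsDRB (P i) (P j) f →
    ∀ v, Z j (f v) = f (Z i v)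

end fam

/-- **SYD.**  PROOF.  As `St_Syc` (`Pool/Agent/KTW/Syc.lean`); `one` for `i` of real type at `σ₀ i`:
`KSW.RRE_core0` for the subfamily of the `i` of real type (see `Prj_oR` in `Pool/Agent/KTW/PrjA.lean`). -/
def St_Syd : Prop := ∀ (I J : Type) [Fintype I] [DecidableEq I] [Fintype J] [DecidableEq J]
  (e : I → J) (n : J → ℕ) (κ : J → Type) [∀ j, Fintype (κ j)] [∀ j, DecidableEq (κ j)] (ϖ : ℂ)
  (P : ∀ j, PData (κ j) ϖ) (K : I → Type) [∀ i, Field (K i)] [∀ i, NumberField (K i)]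
  (c : ∀ i, K i →+* K i) (m : I → ℕ) (h : ∀ i, Matrix (Fin (m i)) (Fin (m i)) (K i))
  (t : ∀ i, Fin (m i) → K i → Module.End ℂ (κ (e i) → ℂ)) (k : ℕ)
  (γ : MultilinearMap ℂ (fun _ : Fin (2 * k) => HW κ n) ℂ) (σ₀ : ∀ i, K i →+* ℂ) (T₀ : I → Prop),
  FamZ e n P h t γ σ₀ T₀ c → SyB c h σ₀ (SyM e n P t γ)

/-- **LTX** (from `St_Lal`, `St_Psy`, `St_Qhx`, `St_Czp`, `St_Hmf`).  Linked pieces and the operators `Z`.
PROOF.  `φ, B, C, g` from `St_Lal` for `R = SyM`; `s, p` from `St_Psy` for `i`, `φ = id`, the frames `B`;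
`s', p'` for `j`, `φ`, `C`; `F` from `St_Qhx`.  Let `X` be a symmetry with `X.2 = 0` and `M` its family
(`T`; `mem_bvE`).  `X.1 (e i)`, `X.1 (e j)` satisfy the formulas of `St_Psy` with the coordinates of
`M i σ`, `M j (φ σ)`, so `F ∘ₗ X.1 (e i) = X.1 (e j) ∘ₗ F` by `St_Qhx`.  So `F` is a combination of `IsDRB` maps
(`St_Hmf`), and `F ∘ₗ Z (e i) = Z (e j) ∘ₗ F` (`Z3`).  Now let `M ∈ SyM` be the family of `X` with
`M i = MZ i`; so `X.1 (e i) = Z (e i)` (`eq_of_act`), and `(X.1 (e j) - Z (e j)) ∘ₗ F = 0`.  Its family is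
`M j - MZ j`, so `cz ε' (C σ) (M j (φ σ) - MZ j (φ σ)) = 0` for all `σ` by `St_Qhx`.  If `cj τ₁ = τ₁`, take the
`σ` with `φ σ = τ₁`, `C σ = C₁`.  Otherwise `φ σ = τ₁` or `φ σ = cj τ₁` for some `σ`; the matrix
`M j τ - MZ j τ` is a scalar for `τ = φ σ`, and by skewness also for `τ = cj (φ σ)` (`St_Czp` (5)). -/
def St_Ltx : Prop := ∀ (I J : Type) [Fintype I] [DecidableEq I] [Fintype J] [DecidableEq J]
  (e : I → J) (n : J → ℕ) (κ : J → Type) [∀ j, Fintype (κ j)] [∀ j, DecidableEq (κ j)] (ϖ : ℂ)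
  (P : ∀ j, PData (κ j) ϖ) (K : I → Type) [∀ i, Field (K i)] [∀ i, NumberField (K i)]
  (c : ∀ i, K i →+* K i) (m : I → ℕ) (h : ∀ i, Matrix (Fin (m i)) (Fin (m i)) (K i))
  (t : ∀ i, Fin (m i) → K i → Module.End ℂ (κ (e i) → ℂ)) (k : ℕ)
  (γ : MultilinearMap ℂ (fun _ : Fin (2 * k) => HW κ n) ℂ) (σ₀ : ∀ i, K i →+* ℂ)
  (Z : ∀ j, Module.End ℂ (κ j → ℂ))
  (MZ : ∀ i, (K i →+* ℂ) → Matrix (Fin (m i)) (Fin (m i)) ℂ), FamT e n P h t γ c σ₀ Z MZ →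
  ∀ i j : I, RePl (h i) (σ₀ i) → IsQn (h j) (σ₀ j) →
  ∀ ε ε' : ℂ, (ε = 1 ∨ ε = -1) → (ε' = 1 ∨ ε' = -1) →
  ∀ (σ₁ : K i →+* ℂ) (τ₁ : K j →+* ℂ) (B₁ : Matrix (Fin (m i)) (Fin (m i)) ℂ)
    (C₁ : Matrix (Fin (m j)) (Fin (m j)) ℂ), IsFra (h i) σ₁ B₁ → IsFra (h j) τ₁ C₁ →
  (∀ M ∈ SyM e n P t γ, cz ε B₁ (M i σ₁) = 0 ↔ cz ε' C₁ (M j τ₁) = 0) →
  ∀ M ∈ SyM e n P t γ, (∀ σ, M i σ = MZ i σ) → cz ε' C₁ (M j τ₁) = cz ε' C₁ (MZ j τ₁)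

/-- **DGY** (from `St_Ltx`, `St_Ftx`, `St_Czp`, `St_Ssl`, `KQ4.St_Rpa`, `KQ4.St_Frm`).  The part of trace zero of
`Z` comes from a symmetry.  PROOF.  As `KQ4.St_Dg4` and `St_Dgx`.  Frames `B i σ` at all places
(`KQ4.St_Frm`; `1` in the complex case).  `KQ4.St_Rpa` for `𝓐 = ∀ i, (K i →+* ℂ) → Matrix ..`, `R = SyM`,
`Q = (Σ i, (K i →+* ℂ)) × Bool`, `E (i, σ, b) = Matrix .. × (Fin 3 → ℂ)`,
`c (i, σ, b) M = (0, cz (±1) (B i σ) (M i σ))` if `IsQn (h i) (σ₀ i)` (`+1` for `b = true`), otherwise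
(`i` complex, `m i ≥ 4`) `(trz (M i σ), 0)`; `D` the values of `c` at `MZ`.  The conditions: brackets and
surjectivity by `SyB.one`, `St_Czp`, `St_Ssl`, `trz_br` (a subspace of `ℂ³` stable under `x ↦ y × x` for all `y`
and not zero is everything; `Smp.id`).  `∃ X ∈ R, c q X = D q`: `SyB.one`, with `MZ i` skew (`Z1`, `ActM.skew`).
Links `q = (i, σ, b)`, `q' = (j, σ', b')`:
(1) `i = j`.  `σ' ≠ σ, cj σ`: no link by `one`.  `σ' = cj σ ≠ σ`: both values are determined by each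
other (`skew`), and `X`, `MZ` are both skew.  `σ' = σ`, `b ≠ b'`: `m = 4` real: no link (`St_Czp` (4)); otherwise the
kernels and values agree (`m = 3`: `cz ε = 0` iff the matrix is zero).
(2) `i ≠ j`, one of them `IsQn`, the other complex with `m ≥ 4`: no link, because it gives an
isomorphism of vector spaces `ℂ³ = SL m`, of dimension `m² - 1 ≥ 15`.
(3) `i ≠ j`, both complex: `St_Ftx` for the subfamily of the `i` of complex type (`SyM` of the subfamily is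
the set of the restrictions, by `T`; `FamQ`, `SyA` from `FamT`, `SyB`); for `m = 2` `cz = 0` iff `trz = 0`.
Let `M₀ ∈ SyM` with `trz (M₀ i σ) = trz (MZ i σ)` for all `σ` (sum over one place of every pair of the
families of `one`, and skewness); by `St_Ftx` `trz (M₀ j τ) = trz (MZ j τ)` for all `τ`.  `X - M₀` has
`c q = 0`, so `c q' = 0`, so `c q' X = c q' M₀ = D q'`.
(4) `i ≠ j`, both `IsQn`, `i` of real type: the same with `St_Ltx` (`M₀ i σ = MZ i σ`).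
(5) `i ≠ j`, both `IsQn`, `i` complex, `j` of real type: `M₀` with `M₀ j τ = MZ j τ` for all `τ`; by `St_Ltx` for
`(j, i)` `c q M₀ = D q`; so `c q (X - M₀) = 0`, `c q' (X - M₀) = 0` and `c q' X = c q' M₀ = D q'`.
Conclusion: `X ∈ SyM` with `c q X = D q` for all `q`, so `trz (X i σ) = trz (MZ i σ)` by `St_Czp` (5). -/
def St_Dgy : Prop := ∀ (I J : Type) [Fintype I] [DecidableEq I] [Fintype J] [DecidableEq J]
  (e : I → J), Function.Injective e → ∀ (n : J → ℕ) (κ : J → Type) [∀ j, Fintype (κ j)]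
  [∀ j, DecidableEq (κ j)] (ϖ : ℂ)
  (P : ∀ j, PData (κ j) ϖ) (K : I → Type) [∀ i, Field (K i)] [∀ i, NumberField (K i)]
  (c : ∀ i, K i →+* K i) (m : I → ℕ) (h : ∀ i, Matrix (Fin (m i)) (Fin (m i)) (K i))
  (t : ∀ i, Fin (m i) → K i → Module.End ℂ (κ (e i) → ℂ)) (k : ℕ)
  (γ : MultilinearMap ℂ (fun _ : Fin (2 * k) => HW κ n) ℂ) (σ₀ : ∀ i, K i →+* ℂ)
  (Z : ∀ j, Module.End ℂ (κ j → ℂ))
  (MZ : ∀ i, (K i →+* ℂ) → Matrix (Fin (m i)) (Fin (m i)) ℂ), FamT e n P h t γ c σ₀ Z MZ →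
  ∃ M ∈ SyM e n P t γ, ∀ i σ, trz (M i σ) = trz (MZ i σ)

end Pool.Agent.KTW
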