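import Pool.Agent.KTW.Kly
import Pool.Agent.KTW.StT

/-!
# KTW [Slr]: the parts of trace zero on the `A_i` with small simple factors and of complex type
-/

set_option autoImplicit false
set_option linter.unusedSectionVars false

namespace Pool.Agent.KTW

open Module Matrix NumberField Pool.Agent.Helper7 Pool.Agent.KS Pool.Agent.Ball Pool.Agent.KSE
  Pool.Agent.Helper28.GPC Pool.Agent.K3P Pool.Agent.KTP
open Pool.Agent.GPC (AbVar IsRMType IsElementary)

/-- the trace of the dual matrix -/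
theorem Slr_tr {m : ℕ} {H M N : Matrix (Fin m) (Fin m) ℂ} (hH : IsUnit H.det)
    (h : Mᵀ * H + H * N = 0) : N.trace = -M.trace := by
  have h1 : N = -(H⁻¹ * (Mᵀ * H)) := by
    have h2 : H⁻¹ * (Mᵀ * H + H * N) = 0 := by rw [h, mul_zero]
    rw [mul_add, ← mul_assoc H⁻¹ H N, Matrix.nonsing_inv_mul _ hH, one_mul] at h2
    exact eq_neg_of_add_eq_zero_right h2
  rw [h1, Matrix.trace_neg, Matrix.trace_mul_comm, mul_assoc, Matrix.mul_nonsing_inv _ hH, mul_one,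
    Matrix.trace_transpose]

/-- the family of the parts of trace zero is skew -/
theorem Slr_skew {K : Type} [Field K] [NumberField K] {m : ℕ} {h : Matrix (Fin m) (Fin m) K}
    (hnd : h.det ≠ 0) {M : (K →+* ℂ) → Matrix (Fin m) (Fin m) ℂ} (hM : SkewM h M) :
    SkewM h fun σ => trz (M σ) := by
  intro σ
  have hdet : IsUnit (h.map σ).det := by
    have h3 : (h.map σ).det = σ h.det := by
      rw [RingHom.map_det, RingHom.mapMatrix_apply]
    rw [h3]
    exact IsUnit.mk0 _ ((map_ne_zero σ).2 hnd)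
  have h1 := hM σ
  have h2 := Slr_tr hdet h1
  show (trz (M σ))ᵀ * h.map σ + h.map σ * trz (M (cj σ)) = 0
  unfold trz
  rw [h2, Matrix.transpose_sub, Matrix.transpose_smul, Matrix.transpose_one, sub_mul, mul_sub,
    smul_mul_assoc, mul_smul_comm, one_mul, mul_one, neg_div, neg_smul]
  rw [← h1]
  abel

section

variable {I J : Type} [Fintype I] [DecidableEq I] [Fintype J] [DecidableEq J] (X : J → AbVar)
    {e : I → J} {K : I → Type} [∀ i, Field (K i)] [∀ i, NumberField (K i)]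
    {c : ∀ i, K i →+* K i} {m : I → ℕ} (S : ∀ i, (X (e i)).KugaSatakeMul (K i) (c i) (m i))
    {σ₀ : ∀ i, K i →+* ℂ}

/-- the operators of the families of trace zero which come from symmetries kill all Grothendieck
forms -/
theorem Slr_form (hAby : St_Aby) (hM : ∀ i, MD (pData (X (e i))) (c i) (S i).h (lt (X (e i)) (S i)))
    (MX : ∀ i, (K i →+* ℂ) → Matrix (Fin (m i)) (Fin (m i)) ℂ)
    (hF : ∀ (n : J → ℕ) (k : ℕ)
    (γ : MultilinearMap ℂ (fun _ : Fin (2 * k) => HW (fun j => Fin (X j).g ⊕ Fin (X j).g) n) ℂ),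
    (∀ v : Fin (2 * k) → HW (fun j => Fin (X j).g ⊕ Fin (X j).g) n,
      (∀ r, IsRatP n (fun j => pData (X j)) (v r)) →
        ∃ q : ℚ, γ v = (2 * Real.pi * Complex.I) ^ k * q) →
    (∀ v : Fin (2 * k) → HW (fun j => Fin (X j).g ⊕ Fin (X j).g) n,
      (∀ r i m j, IsAlgebraic ℚ (v r i m j)) → IsAlgebraic ℚ (γ v)) →
    (∀ Y : GG (fun j => Fin (X j).g ⊕ Fin (X j).g), IsInv n (fun j => pData (X j)) γ Y →
      ∀ i, ∃ M, ActM (lt (X (e i)) (S i)) (Y.1 (e i)) M) →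
    (∀ g : (j : J) → Module.End ℂ (Fin (X j).g ⊕ Fin (X j).g → ℂ),
      IsGrp n (fun j => pData (X j)) γ g → ∀ i,
      ∃ A : (K i →+* ℂ) → Matrix (Fin (m i)) (Fin (m i)) ℂ, ∀ σ x,
        g (e i) * tau (ts (lt (X (e i)) (S i)) σ) x =
          tau (ts (lt (X (e i)) (S i)) σ) (A σ *ᵥ x) * g (e i)) →
    FamZ e n (fun j => pData (X j)) (fun i => (S i).h) (fun i => lt (X (e i)) (S i)) γ σ₀
      (fun _ => True) c)
    (hX : ∀ (n : J → ℕ) (k : ℕ)
    (γ : MultilinearMap ℂ (fun _ : Fin (2 * k) => HW (fun j => Fin (X j).g ⊕ Fin (X j).g) n) ℂ),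
    FamZ e n (fun j => pData (X j)) (fun i => (S i).h) (fun i => lt (X (e i)) (S i)) γ σ₀
      (fun _ => True) c →
    ∃ M ∈ SyM e n (fun j => pData (X j)) (fun i => lt (X (e i)) (S i)) γ,
      ∀ i σ, trz (M i σ) = trz (MX i σ))
    (W : ∀ i, Module.End ℂ (X (e i)).H1) (hW : ∀ i, W i ∈ bvS (lt (X (e i)) (S i)))
    (hWM : ∀ i, ActM (lt (X (e i)) (S i)) (W i) fun σ => trz (MX i σ)) (n : J → ℕ) {k : ℕ}
    (α : MultilinearMap ℂ (fun _ : Fin (2 * k) => HW (fun j => Fin (X j).g ⊕ Fin (X j).g) n) ℂ)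
    (hB : ∀ v : Fin (2 * k) → HW (fun j => Fin (X j).g ⊕ Fin (X j).g) n,
      (∀ r, IsRatP n (fun j => pData (X j)) (v r)) →
        ∃ q : ℚ, α v = (2 * Real.pi * Complex.I) ^ k * q)
    (hA : ∀ v : Fin (2 * k) → HW (fun j => Fin (X j).g ⊕ Fin (X j).g) n,
      (∀ r i m j, IsAlgebraic ℚ (v r i m j)) → IsAlgebraic ℚ (α v))
    (Z : ∀ j, Module.End ℂ (Fin (X j).g ⊕ Fin (X j).g → ℂ)) (hZi : ∀ i, Z (e i) = W i)
    (hZ0 : ∀ j, (∀ i, e i ≠ j) → Z j = 0) : actForm (lift n Z) α = 0 := by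
  classical
  rcases Nat.eq_zero_or_pos k with rfl | hk
  · apply MultilinearMap.ext
    intro v
    rw [actForm_apply]
    exact Finset.sum_eq_zero fun r _ => Fin.elim0 r
  obtain ⟨n', k', γ, hγB, hγA, hγ1, hγ2⟩ := KSW.exists_gam_allE (fun j => pData (X j)) hM n hk α
    hB hA
  have H := hF n' k' γ hγB hγA (fun X hX => (hγ1 X hX).2) (fun g hg => (hγ2 g hg).2)
  obtain ⟨M, ⟨Y₀, hY₀, hY₀2, hMM⟩, hMX⟩ := hX n' k' γ H
  obtain ⟨Y, hY, hY2, hYj, hYi⟩ := hAby I J e n' _ _ (fun j => pData (X j)) K c m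
    (fun i => (S i).h) (fun i => lt (X (e i)) (S i)) k' γ σ₀ _ H Y₀ M hY₀ hY₀2 hMM
  have hYZ : Y.1 = Z := by
    funext j
    by_cases hj : ∃ i, e i = j
    · obtain ⟨i, rfl⟩ := hj
      rw [hZi]
      obtain ⟨h1, h2⟩ := hYi i trivial
      refine eq_of_act (hM i).conj (hM i).herm (hM i).nd (hM i).cliff h1 (hW i) h2 ?_
      have e1 : (fun σ => trz (M i σ)) = fun σ => trz (MX i σ) := by
        funext σ
        exact hMX i σ
      rw [e1]
      exact hWM i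
    · rw [hZ0 j fun i hi => hj ⟨i, hi⟩]
      exact hYj j fun i _ hi => hj ⟨i, hi⟩
  have h3 := ((hγ1 Y hY).1).form
  rw [hY2, mul_zero, zero_smul, hYZ] at h3
  exact h3

end

section

variable {I J : Type} [Fintype I] [DecidableEq I] [Fintype J] [DecidableEq J]
  (A : I → AbVar) (D : J → AbVar) {K : I → Type} [∀ i, Field (K i)] [∀ i, NumberField (K i)]
  {c : ∀ i, K i →+* K i} {m : I → ℕ} (S : ∀ i, (A i).KugaSatakeMul (K i) (c i) (m i))

/-- the operators `X i` on the `A_i`: their parts of trace zero, and zero on the `D_j` -/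
theorem Slr_kill (hAby : St_Aby) (hRmu : St_Rmu) (hGsf : St_Gsf) (hg : ∀ i, (A i).g ≠ 0)
    (hRC : ∀ i, (S i).IsLargeR ∨ (S i).IsLargeD) (hD : IsElementary D)
    (X : ∀ i, Module.End ℂ (A i).H1) (hX : ∀ i, X i ∈ bvS (lt (A i) (S i)))
    (MX : ∀ i, (K i →+* ℂ) → Matrix (Fin (m i)) (Fin (m i)) ℂ)
    (hXM : ∀ i, ActM (lt (A i) (S i)) (X i) (MX i))
    (hsy : ∀ (σ₀ : ∀ i, K i →+* ℂ) (n : I ⊕ J → ℕ) (k : ℕ)
      (γ : MultilinearMap ℂ (fun _ : Fin (2 * k) => HW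
        (fun j => Fin (Sum.elim A D j).g ⊕ Fin (Sum.elim A D j).g) n) ℂ),
      FamZ (e := fun i => Sum.inl i) n (fun j => pData (Sum.elim A D j)) (fun i => (S i).h)
        (fun i => lt (A i) (S i)) γ σ₀ (fun _ => True) c →
      ∃ M ∈ SyM (fun i => Sum.inl i) n (fun j => pData (Sum.elim A D j))
        (fun i => lt (A i) (S i)) γ, ∀ i σ, trz (M i σ) = trz (MX i σ)) :
    ∃ W : ∀ i, Module.End ℂ (A i).H1, (∀ i, IsTz (lt (A i) (S i)) (X i) (W i)) ∧
      (∀ i, c i = RingHom.id (K i) → W i = X i) ∧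
      ∀ Z : ∀ j : I ⊕ J, Module.End ℂ (Fin (Sum.elim A D j).g ⊕ Fin (Sum.elim A D j).g → ℂ),
        (∀ i, Z (Sum.inl i) = W i) → (∀ j, Z (Sum.inr j) = 0) → ∀ n : I ⊕ J → ℕ,
        KillZ (κ := fun j => Fin (Sum.elim A D j).g ⊕ Fin (Sum.elim A D j).g)
          (fun j => pData (Sum.elim A D j)) Z n := by
  classical
  obtain ⟨σ₀, hF⟩ := famZ_ofD hRmu hGsf (Sum.elim A D) (fun i => Sum.inl i) Sum.inl_injective S hg
    (fun _ => True)
    (fun i => by
      rcases hRC i with h | h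
      · exact Or.inl ⟨trivial, h⟩
      · exact Or.inr h)
    (fun i₁ i₂ _ h _ => absurd trivial h) (fun i₁ i₂ _ h _ => absurd trivial h)
    (by
      rintro (j | j) hj
      · exact absurd rfl (hj j)
      · rcases (hD.2.1 j).2 with h | h | ⟨K, i1, i2, ρ, h, -⟩
        · exact Or.inl h
        · exact Or.inr (Or.inl h)
        · exact Or.inr (Or.inr ⟨K, i1, i2, ρ, h⟩))
  have hnd : ∀ i, (S i).h.det ≠ 0 := by
    intro i
    obtain ⟨σ, x, hx, -⟩ := (S i).hodge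
    exact k3_nd (S i).conjugation (S i).hermitian hx
  have hM : ∀ i, MD (pData (A i)) (c i) (S i).h (lt (A i) (S i)) :=
    fun i => mde (A i) (S i) (hnd i)
  have hsk : ∀ i, SkewM (S i).h (MX i) := by
    intro i
    have : Nonempty (Fin (A i).g ⊕ Fin (A i).g) := ⟨Sum.inl ⟨0, Nat.pos_of_ne_zero (hg i)⟩⟩
    rw [skewM_iff]
    intro σ x y
    exact ActM.skew (hM i).conj (hM i).cliff (hXM i) σ x y
  choose W hW hWM using fun i => exists_bvE (hM i).conj (hM i).herm (hM i).nd (hM i).cliff _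
    (Slr_skew (hnd i) (hsk i))
  refine ⟨W, fun i => ⟨hW i, MX i, hXM i, hWM i⟩, fun i hi => ?_, ?_⟩
  · refine eq_of_act (hM i).conj (hM i).herm (hM i).nd (hM i).cliff (hW i) (hX i) (hWM i) ?_
    have e1 : (fun σ => trz (MX i σ)) = MX i := by
      funext σ
      have h1 := hsk i σ
      have hre : cj σ = σ := by
        ext y
        have h1 := (S i).conjugation σ y
        rw [hi] at h1
        exact h1
      rw [hre] at h1
      have hdet : IsUnit ((S i).h.map σ).det := by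
        have h3 : ((S i).h.map σ).det = σ (S i).h.det := by
          rw [RingHom.map_det, RingHom.mapMatrix_apply]
        rw [h3]
        exact IsUnit.mk0 _ ((map_ne_zero σ).2 (hnd i))
      exact trz_of (trace_SO hdet h1)
    rw [e1]
    exact hXM i
  · intro Z hZ1 hZ2 n k α hB hA
    refine Slr_form (e := fun i => Sum.inl i) (K := K) (c := c) (m := m) (σ₀ := σ₀)
      (Sum.elim A D) S hAby hM MX hF (fun n k γ H => hsy σ₀ n k γ H) W hW hWM n α hB hA Z hZ1 ?_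
    rintro (j | j) hj
    · exact absurd rfl (hj j)
    · exact hZ2 j

/-- [SLR] (1) the comparison operators -/
theorem Slr_N (hAby : St_Aby) (hRmu : St_Rmu) (hGsf : St_Gsf) (hg : ∀ i, (A i).g ≠ 0)
    (hRC : ∀ i, (S i).IsLargeR ∨ (S i).IsLargeD) (hD : IsElementary D)
    (D' : Derivation ℚ ℂ ℂ) :
    (∀ i, (pData (A i)).N D' - (D' (2 * Real.pi * Complex.I) / (2 * Real.pi * Complex.I) / 2) • 1 ∈
      bvS (lt (A i) (S i))) ∧
    ∃ W : ∀ i, Module.End ℂ (A i).H1, (∀ i, IsTz (lt (A i) (S i)) ((pData (A i)).N D' -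
        (D' (2 * Real.pi * Complex.I) / (2 * Real.pi * Complex.I) / 2) • 1) (W i)) ∧
      (∀ i, c i = RingHom.id (K i) → W i = (pData (A i)).N D' -
        (D' (2 * Real.pi * Complex.I) / (2 * Real.pi * Complex.I) / 2) • 1) ∧
      ∀ Z : ∀ j : I ⊕ J, Module.End ℂ (Fin (Sum.elim A D j).g ⊕ Fin (Sum.elim A D j).g → ℂ),
        (∀ i, Z (Sum.inl i) = W i) → (∀ j, Z (Sum.inr j) = 0) → ∀ n : I ⊕ J → ℕ,
        KillZ (κ := fun j => Fin (Sum.elim A D j).g ⊕ Fin (Sum.elim A D j).g)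
          (fun j => pData (Sum.elim A D j)) Z n := by
  classical
  have hϖ := Complex.two_pi_I_ne_zero
  have hnd : ∀ i, (S i).h.det ≠ 0 := by
    intro i
    obtain ⟨σ, x, hx, -⟩ := (S i).hodge
    exact k3_nd (S i).conjugation (S i).hermitian hx
  have hM : ∀ i, MD (pData (A i)) (c i) (S i).h (lt (A i) (S i)) :=
    fun i => mde (A i) (S i) (hnd i)
  -- the operators as a symmetry of every form
  obtain ⟨Y₀, hY₀d⟩ : ∃ Y₀ : GG (fun j : I ⊕ J => Fin (Sum.elim A D j).g ⊕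
      Fin (Sum.elim A D j).g), Y₀ =
      (fun j => (pData (Sum.elim A D j)).N D',
        D' (2 * Real.pi * Complex.I) / (2 * Real.pi * Complex.I)) +
        (-(D' (2 * Real.pi * Complex.I) / (2 * Real.pi * Complex.I) / 2)) • (1, 2) := ⟨_, rfl⟩
  have hY₀ : ∀ (n' : I ⊕ J → ℕ) (k' : ℕ) (γ : MultilinearMap ℂ (fun _ : Fin (2 * k') => HW
      (fun j => Fin (Sum.elim A D j).g ⊕ Fin (Sum.elim A D j).g) n') ℂ),
      (∀ v, (∀ r, IsRatP n' (fun j => pData (Sum.elim A D j)) (v r)) →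
        ∃ q : ℚ, γ v = (2 * Real.pi * Complex.I) ^ k' * q) →
      (∀ v : Fin (2 * k') → HW (fun j => Fin (Sum.elim A D j).g ⊕ Fin (Sum.elim A D j).g) n',
        (∀ r i m j, IsAlgebraic ℚ (v r i m j)) → IsAlgebraic ℚ (γ v)) →
      IsInv n' (fun j => pData (Sum.elim A D j)) γ Y₀ := by
    intro n' k' γ hγB hγA
    rw [hY₀d]
    exact (isInv_N n' (fun j => pData (Sum.elim A D j)) γ hϖ hγB hγA D').add _ _ _
      ((Kln_id n' (fun j => pData (Sum.elim A D j)) γ).smul _ _ _ _)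
  have hY₀2 : Y₀.2 = 0 := by
    rw [hY₀d]
    show D' (2 * Real.pi * Complex.I) / (2 * Real.pi * Complex.I) +
      -(D' (2 * Real.pi * Complex.I) / (2 * Real.pi * Complex.I) / 2) * 2 = 0
    ring
  have hY₀1 : ∀ j, Y₀.1 j = (pData (Sum.elim A D j)).N D' -
      (D' (2 * Real.pi * Complex.I) / (2 * Real.pi * Complex.I) / 2) • 1 := by
    intro j
    rw [hY₀d]
    refine LinearMap.ext fun v => ?_
    show (pData (Sum.elim A D j)).N D' v +
      (-(D' (2 * Real.pi * Complex.I) / (2 * Real.pi * Complex.I) / 2)) • v =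
      (pData (Sum.elim A D j)).N D' v -
        (D' (2 * Real.pi * Complex.I) / (2 * Real.pi * Complex.I) / 2) • v
    rw [neg_smul, sub_eq_add_neg]
  obtain ⟨n₁, k₁, γ₁, hγB₁, hγA₁, hγ₁, -⟩ := KSW.exists_gam_allE (ε := fun i : I => Sum.inl i)
    (fun j : I ⊕ J => pData (Sum.elim A D j)) (t := fun i => lt (A i) (S i)) hM (fun _ => 1)
    (k := 1) Nat.one_pos 0
    (fun v _ => ⟨0, by rw [_root_.zero_apply, Rat.cast_zero, mul_zero]⟩)
    (fun v _ => by rw [_root_.zero_apply]; exact isAlgebraic_zero)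
  choose MX hMX using (hγ₁ Y₀ (hY₀ n₁ k₁ γ₁ hγB₁ hγA₁)).2
  have hmem : ∀ i, (pData (A i)).N D' -
      (D' (2 * Real.pi * Complex.I) / (2 * Real.pi * Complex.I) / 2) • 1 ∈
      bvS (lt (A i) (S i)) := by
    intro i
    have h1 := mem_bvE n₁ (fun j : I ⊕ J => pData (Sum.elim A D j)) (Sum.inl i) (hM i) γ₁ Y₀
      (hY₀ n₁ k₁ γ₁ hγB₁ hγA₁) hY₀2 _ (hMX i)
    rw [hY₀1] at h1
    exact h1
  have hMX' : ∀ i, ActM (lt (A i) (S i)) ((pData (A i)).N D' -
      (D' (2 * Real.pi * Complex.I) / (2 * Real.pi * Complex.I) / 2) • 1) (MX i) := by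
    intro i
    have h1 := hMX i
    rw [hY₀1] at h1
    exact h1
  refine ⟨hmem, Slr_kill A D S hAby hRmu hGsf hg hRC hD _ hmem MX hMX' ?_⟩
  intro σ₀ n k γ H
  refine ⟨MX, ⟨Y₀, hY₀ n k γ H.B H.A, hY₀2, fun i => ?_⟩, fun i σ => rfl⟩
  rw [hY₀1]
  exact hMX' i

/-- [SLR] (2) the Hodge projectors -/
theorem Slr_Z (hAby : St_Aby) (hRmu : St_Rmu) (hGsf : St_Gsf) (hSyd : St_Syd) (hDgy : St_Dgy)
    (hHod : KTP.St_Hod) (hg : ∀ i, (A i).g ≠ 0)
    (hRC : ∀ i, ((S i).IsLargeR ∧ m i ≤ 4) ∨ (S i).IsLargeD) (hD : IsElementary D) :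
    (∀ i, (1 / 2 : ℂ) • 1 - hod (A i) ∈ bvS (lt (A i) (S i))) ∧
    ∃ W : ∀ i, Module.End ℂ (A i).H1,
      (∀ i, IsTz (lt (A i) (S i)) ((1 / 2 : ℂ) • 1 - hod (A i)) (W i)) ∧
      (∀ i, c i = RingHom.id (K i) → W i = (1 / 2 : ℂ) • 1 - hod (A i)) ∧
      ∀ Z : ∀ j : I ⊕ J, Module.End ℂ (Fin (Sum.elim A D j).g ⊕ Fin (Sum.elim A D j).g → ℂ),
        (∀ i, Z (Sum.inl i) = W i) → (∀ j, Z (Sum.inr j) = 0) → ∀ n : I ⊕ J → ℕ,
        KillZ (κ := fun j => Fin (Sum.elim A D j).g ⊕ Fin (Sum.elim A D j).g)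
          (fun j => pData (Sum.elim A D j)) Z n := by
  classical
  choose Z₀ hZ₀ MX hMX hsk hhod h5 h6 using fun i => hHod (A i) (K i) (c i) (m i) (S i) (hg i)
  have hZe : ∀ i, Z₀ i = (1 / 2 : ℂ) • 1 - hod (A i) := by
    intro i
    rw [sub_eq_add_neg, hhod i, ← add_assoc, ← add_smul, add_neg_cancel, zero_smul, zero_add]
  have hmem : ∀ i, (1 / 2 : ℂ) • 1 - hod (A i) ∈ bvS (lt (A i) (S i)) := by
    intro i
    rw [← hZe]
    exact hZ₀ i
  have hact : ∀ i, ActM (lt (A i) (S i)) ((1 / 2 : ℂ) • 1 - hod (A i)) (MX i) := by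
    intro i
    rw [← hZe]
    exact hMX i
  refine ⟨hmem, Slr_kill A D S hAby hRmu hGsf hg (fun i => (hRC i).imp And.left id) hD _ hmem MX
    hact ?_⟩
  intro σ₀ n k γ H
  have hcC : ∀ i, RePl (S i).h (σ₀ i) → c i = RingHom.id (K i) := by
    intro i h
    ext y
    apply (σ₀ i).injective
    have h1 := (S i).conjugation (σ₀ i) y
    rw [show ComplexEmbedding.conjugate (σ₀ i) = σ₀ i from h.1 (σ₀ i)] at h1
    exact h1.symm
  refine hDgy I (I ⊕ J) (fun i => Sum.inl i) Sum.inl_injective n _ _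
    (fun j => pData (Sum.elim A D j)) K c m
    (fun i => (S i).h) (fun i => lt (A i) (S i)) k γ σ₀
    (fun j => (1 / 2 : ℂ) • 1 - hod (Sum.elim A D j)) MX ?_
  exact
    { pi := H.pi
      S := H.S
      B := H.B
      A := H.A
      ne := H.ne
      T := H.T
      sy := hSyd I (I ⊕ J) (fun i => Sum.inl i) n _ _ (fun j => pData (Sum.elim A D j)) K c m
        (fun i => (S i).h) (fun i => lt (A i) (S i)) k γ σ₀ _ H
      qn := fun i h => by
        rcases hRC i with h1 | h1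
        · have h2 := h.2.2.2.1
          have h3 := h1.2
          omega
        · exact absurd (hcC i h) h1.1
      Z1 := hmem
      Z2 := hact
      Z3 := fun i j f hf v => by
        show (1 / 2 : ℂ) • f v - hod (Sum.elim A D j) (f v) =
          f ((1 / 2 : ℂ) • v - hod (Sum.elim A D i) v)
        rw [map_sub, map_smul, hod_comm f hf] }

end

end Pool.Agent.KTW
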