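import Pool.Agent.KTW.StW

/-!
# KTW, module SPD: the dimension count
-/

set_option autoImplicit false

namespace Pool.Agent.KTW

open Module Matrix

/-- pairs `a ≤ b` -/
abbrev Spd_S (g : ℕ) : Type := {p : Fin g × Fin g // p.1 ≤ p.2}

/-- pairs `a < b` -/
abbrev Spd_T (m : ℕ) : Type := {p : Fin m × Fin m // p.1 < p.2}

theorem Spd_card {g m : ℕ} (h : g + 2 ≤ m) :
    Fintype.card (Spd_S g) < Fintype.card (Spd_T m) := by
  have key : ∀ p : Spd_S g, (p.1.1 : ℕ) ≤ p.1.2 := fun p => p.2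
  let f : Spd_S g → Spd_T m := fun p =>
    ⟨(⟨p.1.1, by have := p.1.1.2; omega⟩, ⟨p.1.2 + 1, by have := p.1.2.2; omega⟩), by
      show (p.1.1 : ℕ) < p.1.2 + 1
      have := key p
      omega⟩
  have hz : (⟨0, by omega⟩ : Fin m) < ⟨g + 1, by omega⟩ := by
    show 0 < g + 1
    omega
  refine Fintype.card_lt_of_injective_of_notMem f (b := ⟨(⟨0, by omega⟩, ⟨g + 1, by omega⟩), hz⟩)
    ?_ ?_
  · intro p q hpq
    have h1 : (p.1.1 : ℕ) = q.1.1 := congrArg (fun x : Spd_T m => (x.1.1 : ℕ)) hpq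
    have h2 : (p.1.2 : ℕ) + 1 = q.1.2 + 1 := congrArg (fun x : Spd_T m => (x.1.2 : ℕ)) hpq
    exact Subtype.ext (Prod.ext (Fin.ext h1) (Fin.ext (by omega)))
  · rintro ⟨p, hp⟩
    have h2 : (p.1.2 : ℕ) + 1 = g + 1 := congrArg (fun x : Spd_T m => (x.1.2 : ℕ)) hp
    have := p.1.2.2
    omega

/-- the skew-symmetric matrix with entries `f` above the diagonal -/
def Spd_A {m : ℕ} (f : Spd_T m → ℂ) : Matrix (Fin m) (Fin m) ℂ := fun a b =>
  if h : a < b then f ⟨(a, b), h⟩ else if h' : b < a then -f ⟨(b, a), h'⟩ else 0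

theorem Spd_skew {m : ℕ} (f : Spd_T m → ℂ) : (Spd_A f)ᵀ = -Spd_A f := by
  ext a b
  show Spd_A f b a = -Spd_A f a b
  simp only [Spd_A]
  rcases lt_trichotomy a b with h | h | h
  · rw [dif_neg (not_lt_of_gt h), dif_pos h, dif_pos h]
  · subst h
    rw [dif_neg (lt_irrefl a), dif_neg (lt_irrefl a), neg_zero]
  · rw [dif_pos h, dif_neg (not_lt_of_gt h), dif_pos h, neg_neg]

/-- `f ↦ H⁻¹ * A_f` -/
noncomputable def Spd_G {m : ℕ} (H : Matrix (Fin m) (Fin m) ℂ) :
    (Spd_T m → ℂ) →ₗ[ℂ] Matrix (Fin m) (Fin m) ℂ where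
  toFun f := H⁻¹ * Spd_A f
  map_add' f g := by
    rw [← Matrix.mul_add]
    congr 1
    ext a b
    show Spd_A (f + g) a b = Spd_A f a b + Spd_A g a b
    simp only [Spd_A, Pi.add_apply]
    split_ifs <;> ring
  map_smul' c f := by
    rw [RingHom.id_apply, ← Matrix.mul_smul]
    congr 1
    ext a b
    show Spd_A (c • f) a b = c * Spd_A f a b
    simp only [Spd_A, Pi.smul_apply, smul_eq_mul]
    split_ifs <;> ring

theorem thm_Spd : St_Spd := by
  intro m H hH hdet κ _ _ ψ hnd halt hcard W hW hZ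
  by_contra hcon
  push Not at hcon
  have hWz : ∀ X ∈ W, X.1 = 0 → X = 0 := fun X hX h => Prod.ext h (hcon X hX h)
  -- the first dimension count
  let e : κ ≃ Fin (Fintype.card κ) := Fintype.equivFin κ
  let E : Fin (Fintype.card κ) → (κ → ℂ) := fun a => Pi.single (e.symm a) 1
  let F : W →ₗ[ℂ] (Spd_S (Fintype.card κ) → ℂ) :=
    { toFun := fun X p => ψ (X.1.1 (E p.1.1)) (E p.1.2)
      map_add' := fun X Y => by
        funext p
        simp [Prod.fst_add, LinearMap.add_apply, map_add]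
      map_smul' := fun c X => by
        funext p
        simp [LinearMap.smul_apply, map_smul] }
  have hFinj : Function.Injective F := by
    rw [injective_iff_map_eq_zero]
    intro X hX
    have hle : ∀ a b, a ≤ b → ψ (X.1.1 (E a)) (E b) = 0 := fun a b hab =>
      congrFun hX ⟨(a, b), hab⟩
    have hall : ∀ a b, ψ (X.1.1 (E a)) (E b) = 0 := by
      intro a b
      rcases le_total a b with h | h
      · exact hle a b h
      · have h1 := hW X.1 X.2 (E a) (E b)
        have h2 : ψ (E a) (X.1.1 (E b)) = 0 := by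
          rw [halt, hle b a h, neg_zero]
        rwa [h2, add_zero] at h1
    have hzero : X.1.1 = 0 := by
      refine (Pi.basisFun ℂ κ).ext fun k => ?_
      rw [Pi.basisFun_apply, LinearMap.zero_apply]
      refine hnd _ fun v => ?_
      have hk : E (e k) = Pi.single k 1 := by simp [E]
      have h3 : ψ (X.1.1 (Pi.single k 1)) = 0 := by
        refine (Pi.basisFun ℂ κ).ext fun l => ?_
        have hl : E (e l) = Pi.single l 1 := by simp [E]
        rw [Pi.basisFun_apply, LinearMap.zero_apply, ← hk, ← hl]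
        exact hall _ _
      rw [h3, LinearMap.zero_apply]
    exact Subtype.ext (hWz X.1 X.2 hzero)
  have h1 : finrank ℂ W ≤ Fintype.card (Spd_S (Fintype.card κ)) := by
    have := LinearMap.finrank_le_finrank_of_injective hFinj
    rwa [finrank_fintype_fun_eq_card] at this
  -- the second dimension count
  have hHi : H⁻¹ᵀ = H⁻¹ := by rw [transpose_nonsing_inv, hH]
  have hGskew : ∀ f : Spd_T m → ℂ, (Spd_G H f)ᵀ * H + H * Spd_G H f = 0 := by
    intro f
    show (H⁻¹ * Spd_A f)ᵀ * H + H * (H⁻¹ * Spd_A f) = 0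
    rw [transpose_mul, hHi, Spd_skew, Matrix.neg_mul, Matrix.neg_mul,
      Matrix.mul_assoc, nonsing_inv_mul _ hdet, Matrix.mul_one, ← Matrix.mul_assoc,
      mul_nonsing_inv _ hdet, Matrix.one_mul, neg_add_cancel]
  have hGinj : Function.Injective (Spd_G H) := by
    rw [injective_iff_map_eq_zero]
    intro f hf
    have h2 : Spd_A f = 0 := by
      have h3 : H * (H⁻¹ * Spd_A f) = H * 0 := congrArg (H * ·) hf
      rwa [← Matrix.mul_assoc, mul_nonsing_inv _ hdet, Matrix.one_mul, Matrix.mul_zero] at h3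
    funext p
    have h3 := congrFun (congrFun h2 p.1.1) p.1.2
    simp only [Spd_A] at h3
    rw [dif_pos p.2] at h3
    exact h3
  let P : W →ₗ[ℂ] Matrix (Fin m) (Fin m) ℂ := (LinearMap.snd ℂ _ _).comp W.subtype
  have h2 : Fintype.card (Spd_T m) ≤ finrank ℂ W := by
    have h3 : LinearMap.range (Spd_G H) ≤ LinearMap.range P := by
      rintro _ ⟨f, rfl⟩
      obtain ⟨X, hX, hXZ⟩ := hZ _ (hGskew f)
      exact ⟨⟨X, hX⟩, hXZ⟩
    have h4 : finrank ℂ (LinearMap.range (Spd_G H)) = Fintype.card (Spd_T m) := by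
      rw [LinearMap.finrank_range_of_inj hGinj, finrank_fintype_fun_eq_card]
    rw [← h4]
    exact (Submodule.finrank_mono h3).trans (LinearMap.finrank_range_le P)
  have h5 := Spd_card hcard
  omega

end Pool.Agent.KTW
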