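import Pool.Agent.KTW.StX

/-!
# KTW: the central part of the unitary Lie algebra, with a third class. Frozen statement

As `St_Cex`, with a third class of abelian varieties `A_(r i)` (the Kuga-Satake varieties of real type).
-/

set_option autoImplicit false

namespace Pool.Agent.KTW

open Module Matrix NumberField Pool.Agent.Helper7 Pool.Agent.KS Pool.Agent.Ball Pool.Agent.KSE
  Pool.Agent.Helper28.GPC Pool.Agent.K3P Pool.Agent.KTP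
open Pool.Agent.GPC (AbVar IsElementary)

section famr

variable {I R B J : Type} [Fintype I] [DecidableEq I] [Fintype R] [DecidableEq R] [Fintype B]
  [DecidableEq B] [Fintype J] [DecidableEq J] (e : I → J) (r : R → J) (b : B → J) {κ : J → Type}
  [∀ j, Fintype (κ j)] [∀ j, DecidableEq (κ j)] {ϖ : ℂ} (P : ∀ j, PData (κ j) ϖ) {K : I → Type}
  [∀ i, Field (K i)] [∀ i, NumberField (K i)] (c : ∀ i, K i →+* K i) {m : I → ℕ}
  (h : ∀ i, Matrix (Fin (m i)) (Fin (m i)) (K i))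
  (t : ∀ i, Fin (m i) → K i → Module.End ℂ (κ (e i) → ℂ)) (Z : ∀ j, Module.End ℂ (κ j → ℂ))

/-- as `FamW`, with the third class `A_(r i)`: the parts of trace zero on the `A_(e i)` together with the
operators on the `A_(r i)` are known to kill the Grothendieck forms -/
structure FamR : Prop where
  pi : ϖ ≠ 0
  inj : Function.Injective e
  rinj : Function.Injective r
  binj : Function.Injective b
  dis : ∀ i i', e i ≠ r i'
  cpl : ∀ j, (∃ i, b i = j) ↔ ¬ ((∃ i, e i = j) ∨ ∃ i, r i = j)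
  S : ∀ i, MD (P (e i)) (c i) (h i) (t i)
  cm : ∀ i (σ : K i →+* ℂ), cj σ ≠ σ
  ne : ∀ i, Nonempty (κ (e i))
  m0 : ∀ i, m i ≠ 0
  N : ∀ i (D : Derivation ℚ ℂ ℂ), (P (e i)).N D - (D ϖ / ϖ / 2) • 1 ∈ bvS (t i)
  sk : ∀ i (Y : Module.End ℂ (κ (e i) → ℂ)) (z : (K i →+* ℂ) → ℂ), IsCen (t i) Y z →
    ∀ u v, (P (e i)).ψ (Y u) v + (P (e i)).ψ u (Y v) = 0
  Z1 : ∀ i, Z (e i) ∈ bvS (t i)
  Z2 : ∀ i u v, (P (e i)).ψ (Z (e i) u) v + (P (e i)).ψ u (Z (e i) v) = 0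
  Z3 : ∀ (i j : J) (f : (κ i → ℂ) →ₗ[ℂ] (κ j → ℂ)), IsDRB (P i) (P j) f →
    ∀ v, Z j (f v) = f (Z i v)
  cen : ∀ i (v : κ (e i) → ℂ),
    (∀ σ : K i →+* ℂ, (∀ a, ts (t i) σ a v = 0) ∨ ∀ a, ts (t i) (cj σ) a v = 0) →
    v ∈ Submodule.span ℂ {w : κ (e i) → ℂ | ∃ (j : B) (f : (κ (b j) → ℂ) →ₗ[ℂ] (κ (e i) → ℂ)),
      IsDRB (P (b j)) (P (e i)) f ∧ ∃ u, w = f u}
  kN : ∀ D : Derivation ℚ ℂ ℂ, ∃ Y : ∀ i, Module.End ℂ (κ (e i) → ℂ),
    (∀ i, IsTz (t i) ((P (e i)).N D - (D ϖ / ϖ / 2) • 1) (Y i)) ∧ ∀ n : J → ℕ, KillZ P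
      ((∑ i, (Pi.single (e i) (Y i) : ∀ j, Module.End ℂ (κ j → ℂ))) +
        ∑ i, (Pi.single (r i) ((P (r i)).N D - (D ϖ / ϖ / 2) • 1) :
          ∀ j, Module.End ℂ (κ j → ℂ))) n
  kZ : ∃ Y : ∀ i, Module.End ℂ (κ (e i) → ℂ), (∀ i, IsTz (t i) (Z (e i)) (Y i)) ∧ ∀ n : J → ℕ,
    KillZ P ((∑ i, (Pi.single (e i) (Y i) : ∀ j, Module.End ℂ (κ j → ℂ))) +
      ∑ i, (Pi.single (r i) (Z (r i)) : ∀ j, Module.End ℂ (κ j → ℂ))) n
  kC : ∀ n, KillZ (fun j => P (b j)) (fun j => Z (b j)) n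

end famr

/-- **CER** (helper7; from `St_Evb`, `St_Eva`, `St_Del`, `St_Cnb`, `St_Cna`, `St_Pol`, `St_Prd`,
`St_Rlu`).  PROOF.  As `St_Cen`, `St_Cex`.  The vectors in the `A_(r i)` are treated as those in the
`A_(b j)`, the operator `L` is zero on the `A_(r i)`, and `St_Rlu` is used for the index map
`Sum.elim e r`. -/
def St_Cer : Prop := ∀ (I R B J : Type) [Fintype I] [DecidableEq I] [Fintype R] [DecidableEq R]
  [Fintype B] [DecidableEq B] [Fintype J] [DecidableEq J] (e : I → J) (r : R → J) (b : B → J)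
  (κ : J → Type) [∀ j, Fintype (κ j)] [∀ j, DecidableEq (κ j)] (ϖ : ℂ) (P : ∀ j, PData (κ j) ϖ)
  (K : I → Type) [∀ i, Field (K i)] [∀ i, NumberField (K i)] (c : ∀ i, K i →+* K i) (m : I → ℕ)
  (h : ∀ i, Matrix (Fin (m i)) (Fin (m i)) (K i))
  (t : ∀ i, Fin (m i) → K i → Module.End ℂ (κ (e i) → ℂ)) (Z : ∀ j, Module.End ℂ (κ j → ℂ)),
  FamR e r b P c h t Z → ∀ n : J → ℕ, KillZ P Z n

end Pool.Agent.KTW
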