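import Pool.Agent.KTW.StU
import Pool.Agent.KTW.StV

/-!
# KTW: links between Kuga-Satake structures with complex multiplication. Frozen statements, part six

No condition `m i ≠ m j` for `T_i`, `T_j` with complex multiplication.  Every module
`Pool/Agent/KTW/<X>.lean` proves `theorem thm_<X> : St_<X>` (with the hypotheses named in the docstring).
The docstrings contain the proofs.
-/

set_option autoImplicit false

namespace Pool.Agent.KTW

open Module Matrix NumberField Pool.Agent.Helper7 Pool.Agent.KS Pool.Agent.Ball Pool.Agent.KSE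
  Pool.Agent.Helper28.GPC Pool.Agent.K3P Pool.Agent.KTP
open Pool.Agent.GPC (AbVar IsElementary)

/-! ### Lie algebras of matrices -/

/-- `x` is not zero and `[x, [x, y]]` is a multiple of `x` for all `y` of trace zero -/
def IsExtr {m : ℕ} (x : Matrix (Fin m) (Fin m) ℂ) : Prop :=
  x ∈ SL m ∧ x ≠ 0 ∧ ∀ y ∈ SL m, ∃ c : ℂ,
    x * (x * y - y * x) - (x * y - y * x) * x = c • x

/-- **SLE.**  Extremal elements of `sl_m`.  PROOF.  Let `x` be extremal; the identity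
`x² y - 2 x y x + y x² = c x` holds for all matrices `y` (add a scalar matrix).  Let `a` be an eigenvalue of
`x`, `x' = x - a`, `u ≠ 0` with `x' u = 0`.  The identity holds also with `x'` for `x` on the left (`ad x' = ad x`).
For `y = u η` (column times row): `u (η x'²) = c x`.  If `c ≠ 0` for some `η`, `x` has rank one.  Otherwise
`x'² = 0`, so `x'` is nilpotent, `0 = trace x = m a`, `a = 0`, `x² = 0`, and `- 2 x y x = c x` for all `y`; for a
matrix `y = u η` of rank one with `x y x ≠ 0` this shows that `x` has rank one.  So `x = v ξ`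
(`vecMulVec v ξ`), `ξ v = trace x = 0`.  Last statement: `x² = 0`, `x y x = (ξ y v) x`. -/
def St_Sle : Prop := ∀ (m : ℕ) (x : Matrix (Fin m) (Fin m) ℂ),
  (IsExtr x → ∃ v ξ : Fin m → ℂ, v ≠ 0 ∧ ξ ≠ 0 ∧ x = Matrix.vecMulVec v ξ ∧ ξ ⬝ᵥ v = 0) ∧
  (∀ v ξ : Fin m → ℂ, v ≠ 0 → ξ ≠ 0 → ξ ⬝ᵥ v = 0 → IsExtr (Matrix.vecMulVec v ξ)) ∧
  ∀ v ξ : Fin m → ℂ, ξ ⬝ᵥ v = 0 → ∀ y : Matrix (Fin m) (Fin m) ℂ,
    Matrix.vecMulVec v ξ * (Matrix.vecMulVec v ξ * y - y * Matrix.vecMulVec v ξ) -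
      (Matrix.vecMulVec v ξ * y - y * Matrix.vecMulVec v ξ) * Matrix.vecMulVec v ξ =
      (-2 * (Matrix.vecMulVec v ξ * y).trace) • Matrix.vecMulVec v ξ

/-- **SLA** (from `St_Sle`).  Automorphisms of `sl_m`.  PROOF.  `subst` the equality `m = m'`.  `φ` is bijective on
`SL m`, so it maps extremal elements to extremal elements, and `trace (φ x * φ y) = trace (x * y)` for
`x` extremal, `y ∈ SL m` (`St_Sle`, third statement, for `x` and `φ x`).  Write `E i j` for the elementary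
matrices, `1` and `m` for the first and last index, `k, l` for the others.
(1) `φ (E 1 m) = v ξ`, `φ (E m 1) = w η`, `ξ v = 0 = η w`, `ξ w * η v = 1`.  So `v, w` and a basis of
`ker ξ ∩ ker η` are a basis; let `g₁` have the columns `v`, a basis of `ker ξ ∩ ker η`, `w / ξ w`: then
`g₁ (E 1 m) g₁⁻¹ = v ξ` and `g₁ (E m 1) g₁⁻¹ = w η`.  Replace `φ` by `g₁⁻¹ φ g₁`: `φ` fixes `E 1 m`, `E m 1` and
their bracket `h = E 1 1 - E m m`.  If `m = 2` these span `SL m`.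
(2) `φ` preserves the eigenspace `ad h = 1`, which is the sum of `A = {e_1 α}` (row `1`, columns `k`) and
`B = {u e_m}` (column `m`, rows `k`).  The extremal elements in `A + B` are the non-zero elements of `A` and
of `B`, so `φ A` and `φ B` are contained in `A ∪ B`, hence each of them in `A` or in `B`; since `φ` is
injective on `A + B`, either `φ A = A`, `φ B = B` or `φ A = B`, `φ B = A`.  In the second case compose `φ`
with `Z ↦ -(J Zᵀ J⁻¹)`, `J = E 1 m - E m 1 + ∑ k, E k k`, which fixes `E 1 m`, `E m 1` and exchanges `E 1 k` and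
`E k m`.
(3) `φ (E k m) = u_k e_m`, `φ (E 1 k) = e_1 α_k`, `[E 1 k, E l m] = δ k l E 1 m` gives `α_k u_l = δ k l`; conjugate with the
matrix with the columns `e_1, u_k, e_m`: now `φ` fixes `E 1 k`, `E k m`, `E 1 m`, `E m 1`, which generate `SL m`
(`E k 1 = [E k m, E m 1]`, `E m k = [E m 1, E 1 k]`, `E k l = [E k 1, E 1 l]` for `k ≠ l`,
`E k k - E 1 1 = [E k 1, E 1 k]`). -/
def St_Sla : Prop := ∀ m m' : ℕ, 2 ≤ m → m = m' →
  ∀ φ : Matrix (Fin m) (Fin m) ℂ →ₗ[ℂ] Matrix (Fin m') (Fin m') ℂ,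
  (∀ X ∈ SL m, φ X ∈ SL m') → (∀ X ∈ SL m, φ X = 0 → X = 0) →
  (∀ X ∈ SL m, ∀ Y ∈ SL m, φ (X * Y - Y * X) = φ X * φ Y - φ Y * φ X) →
  ∃ (g : Matrix (Fin m') (Fin m) ℂ) (g' : Matrix (Fin m) (Fin m') ℂ), g * g' = 1 ∧ g' * g = 1 ∧
    ((∀ X ∈ SL m, φ X = g * X * g') ∨ ∀ X ∈ SL m, φ X = -(g * Xᵀ * g'))

/-- **RPX.**  As `St_Rps`, for arbitrary simple algebras.  PROOF.  Call `i, j` linked if
`∀ Y ∈ R, Y i = 0 ↔ Y j = 0`.  (1) If `a, b` are not linked, there is `Y ∈ R` with `Y b = 0`, `Y a ≠ 0`: otherwise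
`Y b = 0` implies `Y a = 0`, so there is `Y` with `Y a = 0`, `Y b ≠ 0`, the `Y b`, `Y ∈ R`, `Y a = 0`, form a
non-zero ideal of `G b`, so `G b`; take `Y ∈ R` with `Y a ≠ 0` and `Y' ∈ R` with `Y' a = 0`, `Y' b = Y b`, then
`(Y - Y') b = 0` and `(Y - Y') a ≠ 0`.  So the ideal `{Y a | Y ∈ R, Y b = 0}` is `G a`.
(2) For a finite set `s` of indices which are not linked to `a`, `{Y a | Y ∈ R, Y b = 0 for all b ∈ s} = G a`
(induction; brackets of two such elements, `Smp.nc`).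
(3) Let `s₀` be a set of representatives of the classes of linked indices.  By (2) there is `X ∈ R`
with `X a = D a` for all `a ∈ s₀` (sum of elements for every `a`), and `X i = D i` for all `i` by the
hypothesis. -/
def St_Rpx : Prop := ∀ (I : Type) [Fintype I] (𝓑 : I → Type) [∀ i, Ring (𝓑 i)]
  [∀ i, Algebra ℂ (𝓑 i)] (G : ∀ i, Submodule ℂ (𝓑 i)), (∀ i, Smp (G i)) →
  ∀ R : Submodule ℂ (∀ i, 𝓑 i), (∀ X ∈ R, ∀ Y ∈ R, X * Y - Y * X ∈ R) →
  (∀ X ∈ R, ∀ i, X i ∈ G i) → (∀ i, ∀ Z ∈ G i, ∃ X ∈ R, X i = Z) →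
  ∀ D : ∀ i, 𝓑 i, (∀ i, D i ∈ G i) →
  (∀ i j, (∀ Y ∈ R, Y i = 0 ↔ Y j = 0) → ∀ X ∈ R, X i = D i → X j = D j) → D ∈ R

section sy

variable {I : Type} {K : I → Type} [∀ i, Field (K i)] [∀ i, NumberField (K i)]
  (c : ∀ i, K i →+* K i) {m : I → ℕ} (h : ∀ i, Matrix (Fin (m i)) (Fin (m i)) (K i))

/-- the properties of the set of the families of matrices of the symmetries -/
structure SyA (R : Set (∀ i, (K i →+* ℂ) → Matrix (Fin (m i)) (Fin (m i)) ℂ)) : Prop where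
  conj : ∀ i (σ : K i →+* ℂ) x, cj σ x = σ (c i x)
  cm : ∀ i (σ : K i →+* ℂ), cj σ ≠ σ
  herm : ∀ i a b, c i (h i a b) = h i b a
  nd : ∀ i, (h i).det ≠ 0
  m2 : ∀ i, 2 ≤ m i
  add : ∀ M ∈ R, ∀ N ∈ R, M + N ∈ R
  smul : ∀ (r : ℂ), ∀ M ∈ R, r • M ∈ R
  br : ∀ M ∈ R, ∀ N ∈ R, M * N - N * M ∈ R
  tw : ∀ M ∈ R, ∀ τ : ℂ ≃+* ℂ, (fun i => twM τ (M i)) ∈ R
  skew : ∀ M ∈ R, ∀ i, SkewM (h i) (M i)
  one : ∀ i (σ : K i →+* ℂ), ∀ Z ∈ SL (m i), ∃ M ∈ R, M i σ = Z ∧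
    ∀ τ, τ ≠ σ → τ ≠ cj σ → M i τ = 0

end sy

/-- **LKX** (from `St_Sla`, `St_Ssl`).  Linked places.  PROOF.  (1) By `one` the maps `M ↦ trz (M i σ₁)`,
`M ↦ trz (M j τ₁)` from `R` to `SL (m i)`, `SL (m j)` are onto, and they have the same kernel; so there is a
linear map `φ` of all matrices with `φ (trz (M i σ₁)) = trz (M j τ₁)` for `M ∈ R`, injective on `SL (m i)`, onto
`SL (m j)`, compatible with brackets (`trz (X Y - Y X) = [trz X, trz Y]`, `trz_br` in `KTW/Aby.lean`).  So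
`m i = m j` (`St_Ssl`), and `St_Sla` gives `g₁`.  In the second case replace `τ₁` by `cj τ₁` (the hypothesis on
the kernels remains true, `HMainC.dual_eq`; by skewness
`trz (M j (cj τ₁)) = -(H⁻¹ (trz (M j τ₁))ᵀ H)`, `H = (h j).map τ₁`).  So `trz (M j τ₁) = g₁ (trz (M i σ₁)) g₁'`.
(2) For `s ∈ Aut ℂ` and `M ∈ R` the family `twM s⁻¹ M` is in `R`, so
`trz (M j (s τ₁)) = s(g₁) (trz (M i (s σ₁))) s(g₁')`.  For every `σ` choose `s` with `s σ₁ = σ`
(`Helper84.exists_aut`), `θ₀ σ = s τ₁`, `g₀ σ = s(g₁)`.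
(3) Let `Φ` be a CM type of `K i` (as in `St_Eva`).  `θ σ = θ₀ σ`, `g σ = g₀ σ` for `σ ∈ Φ`; for `σ ∉ Φ`, `σ' = cj σ`:
`θ σ = cj (θ σ')`, `g σ = ((g σ')ᵀ * (h j).map (θ σ'))⁻¹ * (h i).map σ'`.  `((h i).map σ)ᵀ = (h i).map (cj σ)`
gives the duality for `σ ∉ Φ` and, transposed, for `σ ∈ Φ`.  The last relation for `σ ∉ Φ` follows from skewness.
(4) `θ` is injective: let `θ σ = θ σ'`; the `M` of `one` for `σ` and `Z ≠ 0` has `trz (M j (θ σ)) ≠ 0`, so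
`trz (M i σ') ≠ 0`, `σ' = σ` or `σ' = cj σ`; `θ (cj σ) = cj (θ σ) ≠ θ σ`.  Bijective: the same
construction for `j, i` shows `[K j : ℚ] ≤ [K i : ℚ]` (`NumberField.Embeddings.card`). -/
def St_Lkx : Prop := ∀ (I : Type) (K : I → Type) [∀ i, Field (K i)] [∀ i, NumberField (K i)]
  (c : ∀ i, K i →+* K i) (m : I → ℕ) (h : ∀ i, Matrix (Fin (m i)) (Fin (m i)) (K i))
  (R : Set (∀ i, (K i →+* ℂ) → Matrix (Fin (m i)) (Fin (m i)) ℂ)), SyA c h R →
  ∀ (i j : I) (σ₁ : K i →+* ℂ) (τ₁ : K j →+* ℂ),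
  (∀ M ∈ R, trz (M i σ₁) = 0 ↔ trz (M j τ₁) = 0) →
  ∃ (θ : (K i →+* ℂ) → (K j →+* ℂ)) (g : (K i →+* ℂ) → Matrix (Fin (m j)) (Fin (m i)) ℂ)
    (g' : (K i →+* ℂ) → Matrix (Fin (m i)) (Fin (m j)) ℂ), Function.Bijective θ ∧
    (∀ σ, θ (cj σ) = cj (θ σ)) ∧ (∀ σ, g σ * g' σ = 1) ∧ (∀ σ, g' σ * g σ = 1) ∧
    (∀ σ, (g σ)ᵀ * (h j).map (θ σ) * g (cj σ) = (h i).map σ) ∧
    ∀ M ∈ R, ∀ σ, trz (M j (θ σ)) * g σ = g σ * trz (M i σ)

/-! ### Clifford modules -/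

/-- **FLX.**  A map of Clifford modules.  PROOF.  Let `τ = BvE.tt t` on `T = ℂ^(BvE.NN K m)` with the form
`BvE.qq h` (nondegenerate, symmetric), and `τ' y = BvE.tt t' (G y)`, `G` the isometry with
`pc (θ σ) (G y) = g σ *ᵥ pc σ y`.  `KSP.avg` with `Φ = id` gives `f ≠ 0` with `f (τ x τ y) = (τ' x τ' y) f`.  Choose
`x` with `τ x * τ x = 1` (`0 < m`, the form is not zero).  `F = f + τ' x f τ x` satisfies
`F τ y = τ' y F`; if `F = 0`, then `F = f - τ' x f τ x = 2 f` satisfies `F τ y = - τ' y F`.  So `ε = ± 1`.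
(2) `Z` is a combination of the `[ts t σ a, ts t (cj σ) b]`; let `Z''` be the same combination of the
`[tau (ts t' (θ σ)) (g σ *ᵥ e_a), tau (ts t' (cj (θ σ))) (g (cj σ) *ᵥ e_b)]`.  Then `Z'' ∈ bvS t'`, `F Z = Z'' F`
(the signs cancel), and `Z''` acts by `M''` with `M'' (θ σ) * g σ = g σ * M σ` (the same computation as for
`Z`; compare `KSR.trans_bvS`), so `M'' = M'` (`θ` onto, `g σ` invertible) and `Z'' = Z'` (`eq_of_act`). -/
def St_Flx : Prop := ∀ (V V' : Type) [AddCommGroup V] [Module ℂ V] [FiniteDimensional ℂ V]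
  [Nontrivial V] [AddCommGroup V'] [Module ℂ V'] [FiniteDimensional ℂ V'] [Nontrivial V']
  (K K' : Type) [Field K] [NumberField K] [Field K'] [NumberField K'] (c : K →+* K)
  (c' : K' →+* K') (m m' : ℕ) (h : Matrix (Fin m) (Fin m) K) (h' : Matrix (Fin m') (Fin m') K')
  (t : Fin m → K → Module.End ℂ V) (t' : Fin m' → K' → Module.End ℂ V'), CMR c h t →
  CMR c' h' t' → 0 < m → ∀ (θ : (K →+* ℂ) → (K' →+* ℂ))
  (g : (K →+* ℂ) → Matrix (Fin m') (Fin m) ℂ) (g' : (K →+* ℂ) → Matrix (Fin m) (Fin m') ℂ),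
  Function.Bijective θ → (∀ σ, θ (cj σ) = cj (θ σ)) → (∀ σ, g σ * g' σ = 1) →
  (∀ σ, g' σ * g σ = 1) → (∀ σ, (g σ)ᵀ * h'.map (θ σ) * g (cj σ) = h.map σ) →
  ∃ (F : V →ₗ[ℂ] V') (ε : ℂ), F ≠ 0 ∧
    (∀ σ x, F ∘ₗ tau (ts t σ) x = ε • (tau (ts t' (θ σ)) (g σ *ᵥ x) ∘ₗ F)) ∧
    ∀ (Z : Module.End ℂ V) (M : (K →+* ℂ) → Matrix (Fin m) (Fin m) ℂ) (Z' : Module.End ℂ V')
      (M' : (K' →+* ℂ) → Matrix (Fin m') (Fin m') ℂ), Z ∈ bvS t → ActM t Z M → Z' ∈ bvS t' →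
      ActM t' Z' M' → (∀ σ, M' (θ σ) * g σ = g σ * M σ) → F ∘ₗ Z = Z' ∘ₗ F

/-- **MDV** (from `St_Eva`).  The middle part generates.  PROOF.  By `St_Eva` it is enough that `v ∈ U` for `v`
with `CE t (n / 2 - m / 4) v`, `n σ + n (cj σ) = m`; induction on `∑ σ, |n σ - m / 2|`.  If it is zero, `v` is in
the middle part.  Otherwise there is `σ` with `n σ > m / 2` (for `σ` or `cj σ`).  With `e, f` as in `St_Eva`:
`∑ a, e a (f a v) = n σ v` (`∑ a, e a * f a - m / 2` is central with `z = 1` at `σ`, `-1` at `cj σ`), and `f a v`, a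
combination of the `ts t (cj σ) b v`, is of type `n σ - 1`, `n (cj σ) + 1` (for central `Z`:
`Z (ts t (cj σ) b v) = ts t (cj σ) b (Z v) + z (cj σ) • ts t (cj σ) b v`, `z` odd), so it is in `U`. -/
def St_Mdv : Prop := ∀ (V : Type) [AddCommGroup V] [Module ℂ V] [FiniteDimensional ℂ V] (K : Type)
  [Field K] [NumberField K] (c : K →+* K) (m : ℕ) (h : Matrix (Fin m) (Fin m) K)
  (t : Fin m → K → Module.End ℂ V), CMR c h t → Even m → ∀ U : Submodule ℂ V,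
  (∀ σ a, ∀ v ∈ U, ts t σ a v ∈ U) → (∀ v, CE t (fun _ => 0) v → v ∈ U) → U = ⊤

/-- **MDF.**  The trace-zero part at a place acts faithfully on vectors of the middle part.  PROOF.  With
`e, f` as in `St_Eva`, `P a = e a * f a` (idempotent): for `a ≠ b` the operator `P a - P b` is in `bvS t`
(`(1/2) ([e a, f a] - [e b, f b])`), it acts by trace-zero matrices at `σ`, `cj σ` and by zero elsewhere.  If all
of them kill `v`, then `P a v = P b v` for all `a, b`, `∑ a, P a v = (m / 2) v` (`v` is in the middle part), so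
`P a v = v / 2 = P a (P a v) = v / 4` and `v = 0`. -/
def St_Mdf : Prop := ∀ (V : Type) [AddCommGroup V] [Module ℂ V] [FiniteDimensional ℂ V] (K : Type)
  [Field K] [NumberField K] (c : K →+* K) (m : ℕ) (h : Matrix (Fin m) (Fin m) K)
  (t : Fin m → K → Module.End ℂ V), CMR c h t → m ≠ 0 → ∀ v : V, CE t (fun _ => 0) v → v ≠ 0 →
  ∀ σ : K →+* ℂ, ∃ (Y : Module.End ℂ V) (M : (K →+* ℂ) → Matrix (Fin m) (Fin m) ℂ), Y ∈ bvS t ∧
    ActM t Y M ∧ (∀ ρ, (M ρ).trace = 0) ∧ (∀ ρ, ρ ≠ σ → ρ ≠ cj σ → M ρ = 0) ∧ Y v ≠ 0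

/-- **PMD** (from `St_Eva`, `St_Del`).  The projector onto the middle part is an endomorphism.  PROOF.  Let
`x k = bas k - c (bas k)` and `δ k` its operator (`St_Del`).  `q k ∈ ℚ[T]` with `q k (0) = 1` and
`q k (λ) = 0` for all non-zero `λ = ∑ σ, σ (x k) * (n σ / 2 - m / 4)`, `n σ ≤ m` (product of the minimal
polynomials of these algebraic numbers, divided by its value at `0`; only the `n` with
`n σ + n (cj σ) = m` are needed).  `p = ∏ k, q k (δ k)` (the `δ k` commute, `BvE.comm_bvS`), an endomorphism.  If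
`v` is in the middle part, `δ k v = 0` and `p v = v`.  If `CE t (n / 2 - m / 4) v`, then
`p v = (∏ k, q k (λ k)) v`; if it is not zero, all `λ k = 0`, so `Z v = 0` for all central `Z` (`St_Del` (2)) and
`v`, `p v` are in the middle part.  `St_Eva`. -/
def St_Pmd : Prop := ∀ (κ : Type) [Fintype κ] [DecidableEq κ] (ϖ : ℂ) (P : PData κ ϖ) (K : Type)
  [Field K] [NumberField K] (c : K →+* K) (m : ℕ) (h : Matrix (Fin m) (Fin m) K)
  (t : Fin m → K → Module.End ℂ (κ → ℂ)), MD P c h t → (∀ σ : K →+* ℂ, cj σ ≠ σ) →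
  ∃ p : Module.End ℂ (κ → ℂ), IsDRB P P p ∧ (∀ v, CE t (fun _ => 0) (p v)) ∧
    ∀ v, CE t (fun _ => 0) v → p v = v

/-! ### Families -/

/-- **HMF.**  A map which commutes with the symmetries is a combination of de Rham-Betti morphisms.
PROOF.  End of `KSW.hom_of_F` (`Pool/Agent/KSW/Hom.lean`): homotheties give `F ∘ₗ X.1 i = X.1 j ∘ₗ F` for all
symmetries, `bilin_of_inv` for `(P j).ψ ∘ₗ F`, and `(P j).hψnd`. -/
def St_Hmf : Prop := ∀ (J : Type) [Fintype J] [DecidableEq J] (n : J → ℕ) (κ : J → Type)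
  [∀ j, Fintype (κ j)] [∀ j, DecidableEq (κ j)] (ϖ : ℂ), ϖ ≠ 0 → ∀ (P : ∀ j, PData (κ j) ϖ) (k : ℕ)
  (γ : MultilinearMap ℂ (fun _ : Fin (2 * k) => HW κ n) ℂ),
  (∀ v : Fin (2 * k) → HW κ n, (∀ r, IsRatP n P (v r)) → ∃ q : ℚ, γ v = ϖ ^ k * q) →
  (∀ v : Fin (2 * k) → HW κ n, (∀ r i m j, IsAlgebraic ℚ (v r i m j)) → IsAlgebraic ℚ (γ v)) →
  ∀ (i j : J) (F : (κ i → ℂ) →ₗ[ℂ] (κ j → ℂ)),
  (∀ X : GG κ, IsInv n P γ X → X.2 = 0 → F ∘ₗ X.1 i = X.1 j ∘ₗ F) →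
  F ∈ Submodule.span ℂ {f : (κ i → ℂ) →ₗ[ℂ] (κ j → ℂ) | IsDRB (P i) (P j) f}

section fam

variable {I J : Type} [Fintype I] [DecidableEq I] [Fintype J] [DecidableEq J] (e : I → J)
  (n : J → ℕ) {κ : J → Type} [∀ j, Fintype (κ j)] [∀ j, DecidableEq (κ j)] {ϖ : ℂ}
  (P : ∀ j, PData (κ j) ϖ) {K : I → Type} [∀ i, Field (K i)] [∀ i, NumberField (K i)] {m : I → ℕ}
  (h : ∀ i, Matrix (Fin (m i)) (Fin (m i)) (K i))
  (t : ∀ i, Fin (m i) → K i → Module.End ℂ (κ (e i) → ℂ)) {k : ℕ}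
  (γ : MultilinearMap ℂ (fun _ : Fin (2 * k) => HW κ n) ℂ)

/-- the families of matrices of the symmetries without multiplier -/
def SyM : Set (∀ i, (K i →+* ℂ) → Matrix (Fin (m i)) (Fin (m i)) ℂ) :=
  {M | ∃ X : GG κ, IsInv n P γ X ∧ X.2 = 0 ∧ ∀ i, ActM (t i) (X.1 (e i)) (M i)}

/-- the family of the `A_(e i)`, all of complex type, the form `γ`, and the operators `Z` -/
structure FamQ (c : ∀ i, K i →+* K i) (Z : ∀ j, Module.End ℂ (κ j → ℂ))
    (MZ : ∀ i, (K i →+* ℂ) → Matrix (Fin (m i)) (Fin (m i)) ℂ) : Prop where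
  pi : ϖ ≠ 0
  S : ∀ i, MD (P (e i)) (c i) (h i) (t i)
  B : ∀ v : Fin (2 * k) → HW κ n, (∀ r, IsRatP n P (v r)) → ∃ q : ℚ, γ v = ϖ ^ k * q
  A : ∀ v : Fin (2 * k) → HW κ n, (∀ r i m j, IsAlgebraic ℚ (v r i m j)) → IsAlgebraic ℚ (γ v)
  ne : ∀ i, Nonempty (κ (e i))
  T : ∀ X : GG κ, IsInv n P γ X → ∀ i, ∃ M, ActM (t i) (X.1 (e i)) M
  sy : SyA c h (SyM e n P t γ)
  ev : ∀ i, Even (m i)
  Z1 : ∀ i, Z (e i) ∈ bvS (t i)
  Z2 : ∀ i, ActM (t i) (Z (e i)) (MZ i)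
  Z3 : ∀ (i j : J) (f : (κ i → ℂ) →ₗ[ℂ] (κ j → ℂ)), IsDRB (P i) (P j) f →
    ∀ v, Z j (f v) = f (Z i v)

/-- `Y` is the part of trace zero of `X` -/
def IsTz {V : Type} [AddCommGroup V] [Module ℂ V] {K : Type} [Field K] [NumberField K] {m : ℕ}
    (t : Fin m → K → Module.End ℂ V) (X Y : Module.End ℂ V) : Prop :=
  Y ∈ bvS t ∧ ∃ M, ActM t X M ∧ ActM t Y fun σ => trz (M σ)

/-- the parts of trace zero of the operators `X i`, zero on the other members of the family, kill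
all Grothendieck forms -/
def KillT (X : ∀ i, Module.End ℂ (κ (e i) → ℂ)) : Prop :=
  ∃ Y : ∀ i, Module.End ℂ (κ (e i) → ℂ), (∀ i, IsTz (t i) (X i) (Y i)) ∧ ∀ n : J → ℕ,
    KillZ P (∑ i, (Pi.single (e i) (Y i) : ∀ j, Module.End ℂ (κ j → ℂ))) n

end fam

/-- **SYC.**  PROOF.  `conj, herm, nd`: `MD`.  `m2`: `Even`, `0 < m`.  `add, smul, br`: `IsInv.add`, `IsInv.smul`,
`IsInv.bracket`, `ActM.add`, `ActM.smul`, `ActM.bracket`.  `tw`: `tw P τ X`, `KSW.actM_tw`, as in (0) of `St_Prj`.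
`skew`: `ActM.skew` (`ne`).  `one`: for `σ₀ i` by `KSE.coreC` for the index `e i` (as in (1) of `St_Prj`; the
other members of the family act by some matrices, by `T`), for `σ = s ∘ σ₀ i` by `tw`
(`Helper84.exists_aut`). -/
def St_Syc : Prop := ∀ (I J : Type) [Fintype I] [DecidableEq I] [Fintype J] [DecidableEq J]
  (e : I → J) (n : J → ℕ) (κ : J → Type) [∀ j, Fintype (κ j)] [∀ j, DecidableEq (κ j)] (ϖ : ℂ)
  (P : ∀ j, PData (κ j) ϖ) (K : I → Type) [∀ i, Field (K i)] [∀ i, NumberField (K i)]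
  (c : ∀ i, K i →+* K i) (m : I → ℕ) (h : ∀ i, Matrix (Fin (m i)) (Fin (m i)) (K i))
  (t : ∀ i, Fin (m i) → K i → Module.End ℂ (κ (e i) → ℂ)) (k : ℕ)
  (γ : MultilinearMap ℂ (fun _ : Fin (2 * k) => HW κ n) ℂ) (σ₀ : ∀ i, K i →+* ℂ) (T₀ : I → Prop),
  FamZ e n P h t γ σ₀ T₀ c → (∀ i (σ : K i →+* ℂ), cj σ ≠ σ) → SyA c h (SyM e n P t γ)

/-- **FTX** (from `St_Lkx`, `St_Flx`, `St_Mdv`, `St_Mdf`, `St_Pmd`, `St_Hmf`, `St_Ssl`).  Linked places and the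
operators `Z`.  PROOF.  Write `V i = κ (e i) → ℂ`, `p i` for the projector of `St_Pmd`, `X i` for `X.1 (e i)`.  For
every `M` skew let `M = trz M + ` scalars; by `exists_bvE`, `eq_of_act` an element of `bvS (t i)` with the
family `M` is the sum of its part of trace zero and its central part, and the central part kills the
image of `p i` (`CE` with `0`).
(1) `θ, g` from `St_Lkx`, `F` from `St_Flx`.  There is `v` in the middle part of `V i` with `F v ≠ 0`: otherwise the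
kernel `U` of `F` contains the middle part and is stable under the `ts (t i) σ a`, `U = ⊤` by `St_Mdv`.
`F v` is in the middle part of `V j`: a central `Z'` of `V j` with `z'` (odd) and the central `Z''` of `V i` with
`z'' σ = z' (θ σ)` satisfy `F Z'' = Z' F` (`St_Flx`).  Let `F' = p j F p i`; `F' v = F v ≠ 0`.
(2) `F' X i = X j F'` for all symmetries with `X.2 = 0`: `mem_bvE` and `T` give the families; the parts of
trace zero satisfy `F X i = X j F` by `St_Lkx`, `St_Flx`; `p` commutes with `X` (`IsInv.comm`) and kills the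
central parts.  By `St_Hmf` `F' = ∑ c_k f_k`, `f_k` de Rham-Betti, `F' = p j F' p i = ∑ c_k (p j f_k p i)`; so
`f = p j f_k p i ≠ 0` for some `k`, a de Rham-Betti morphism with `f = f p i = p j f`.
(3) Let `M` be the family of the symmetry `X` with `trz (M i σ) = trz (MZ i σ)` for all `σ`.  For `v ∈ V i`:
`f Z v = f Z p v = f X p v = X j f v` (the parts of trace zero on `V i` agree), and `f Z v = Z f v`; so
`W = (X j)₀ - (Z j)₀` (parts of trace zero) kills all `f v`.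
(4) Let `N = trz (M j) - trz (MZ j)` be the family of `W`, and suppose `N τ ≠ 0`.  The set of the skew
trace-zero families whose operators kill all `f v` is a space stable under brackets with the
`trz (M' j)`, `M'` from a symmetry `X'` (`X' j f v = f X' i v`).  With the `M'` of `SyA.one` for `(j, τ)` and
`Z ∈ SL (m j)` with `[Z, N τ] ≠ 0` (`St_Ssl`, `Smp`: the centre is zero) it contains a non-zero family supported
at `τ, cj τ`, and by simplicity (`Smp.id`) all trace-zero skew families supported at `τ, cj τ` (they are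
determined by their value at `τ`, `HMainC.dual_eq`).  This contradicts `St_Mdf` for a vector
`f v ≠ 0` in the middle part. -/
def St_Ftx : Prop := ∀ (I J : Type) [Fintype I] [DecidableEq I] [Fintype J] [DecidableEq J]
  (e : I → J) (n : J → ℕ) (κ : J → Type) [∀ j, Fintype (κ j)] [∀ j, DecidableEq (κ j)] (ϖ : ℂ)
  (P : ∀ j, PData (κ j) ϖ) (K : I → Type) [∀ i, Field (K i)] [∀ i, NumberField (K i)]
  (c : ∀ i, K i →+* K i) (m : I → ℕ) (h : ∀ i, Matrix (Fin (m i)) (Fin (m i)) (K i))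
  (t : ∀ i, Fin (m i) → K i → Module.End ℂ (κ (e i) → ℂ)) (k : ℕ)
  (γ : MultilinearMap ℂ (fun _ : Fin (2 * k) => HW κ n) ℂ) (Z : ∀ j, Module.End ℂ (κ j → ℂ))
  (MZ : ∀ i, (K i →+* ℂ) → Matrix (Fin (m i)) (Fin (m i)) ℂ), FamQ e n P h t γ c Z MZ →
  ∀ (i j : I) (σ₁ : K i →+* ℂ) (τ₁ : K j →+* ℂ),
  (∀ M ∈ SyM e n P t γ, trz (M i σ₁) = 0 ↔ trz (M j τ₁) = 0) →
  ∀ M ∈ SyM e n P t γ, (∀ σ, trz (M i σ) = trz (MZ i σ)) → ∀ τ, trz (M j τ) = trz (MZ j τ)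

/-- **DGX** (from `St_Rpx`, `St_Ftx`, `St_Ssl`).  The part of trace zero of `Z` comes from a symmetry.  PROOF.
`St_Rpx` for the index set of the pairs `p = (i, σ)`, `G p = SL (m i)` (`Smp` by `St_Ssl`), `R` the space of the
`fun p => trz (M p.1 p.2)`, `M ∈ SyM`, and `D p = trz (MZ p.1 p.2)` (`trz_br`, `trz_trace` in `KTW/Aby.lean`; onto:
`SyA.one`).  The hypothesis on linked `(i, σ₁)`, `(j, τ₁)`: let `X ∈ R` come from `M`, `trz (M i σ₁) = D (i, σ₁)`.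
By `SyA.one` (sum over a CM type of `K i`, and skewness for the dual places) there is `M' ∈ SyM` with
`trz (M' i σ) = D (i, σ)` for all `σ`; by `St_Ftx` `trz (M' j τ) = D (j, τ)` for all `τ`; `M - M'` has
`trz = 0` at `(i, σ₁)`, so at `(j, τ₁)`. -/
def St_Dgx : Prop := ∀ (I J : Type) [Fintype I] [DecidableEq I] [Fintype J] [DecidableEq J]
  (e : I → J) (n : J → ℕ) (κ : J → Type) [∀ j, Fintype (κ j)] [∀ j, DecidableEq (κ j)] (ϖ : ℂ)
  (P : ∀ j, PData (κ j) ϖ) (K : I → Type) [∀ i, Field (K i)] [∀ i, NumberField (K i)]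
  (c : ∀ i, K i →+* K i) (m : I → ℕ) (h : ∀ i, Matrix (Fin (m i)) (Fin (m i)) (K i))
  (t : ∀ i, Fin (m i) → K i → Module.End ℂ (κ (e i) → ℂ)) (k : ℕ)
  (γ : MultilinearMap ℂ (fun _ : Fin (2 * k) => HW κ n) ℂ) (Z : ∀ j, Module.End ℂ (κ j → ℂ))
  (MZ : ∀ i, (K i →+* ℂ) → Matrix (Fin (m i)) (Fin (m i)) ℂ), FamQ e n P h t γ c Z MZ →
  ∃ M ∈ SyM e n P t γ, ∀ i σ, trz (M i σ) = trz (MZ i σ)

section famw

variable {I B J : Type} [Fintype I] [DecidableEq I] [Fintype B] [DecidableEq B] [Fintype J]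
  [DecidableEq J] (e : I → J) (b : B → J) {κ : J → Type} [∀ j, Fintype (κ j)]
  [∀ j, DecidableEq (κ j)] {ϖ : ℂ} (P : ∀ j, PData (κ j) ϖ) {K : I → Type} [∀ i, Field (K i)]
  [∀ i, NumberField (K i)] (c : ∀ i, K i →+* K i) {m : I → ℕ}
  (h : ∀ i, Matrix (Fin (m i)) (Fin (m i)) (K i))
  (t : ∀ i, Fin (m i) → K i → Module.End ℂ (κ (e i) → ℂ)) (Z : ∀ j, Module.End ℂ (κ j → ℂ))

/-- as `FamU`; only the parts of trace zero of the comparison operators and of `Z`, on all `A_(e i)`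
together, are known to kill the Grothendieck forms -/
structure FamW : Prop where
  pi : ϖ ≠ 0
  inj : Function.Injective e
  binj : Function.Injective b
  cpl : ∀ j, (∃ i, e i = j) ↔ ¬ ∃ i, b i = j
  S : ∀ i, MD (P (e i)) (c i) (h i) (t i)
  cm : ∀ i (σ : K i →+* ℂ), cj σ ≠ σ
  ne : ∀ i, Nonempty (κ (e i))
  m0 : ∀ i, m i ≠ 0
  N : ∀ i (D : Derivation ℚ ℂ ℂ), (P (e i)).N D - (D ϖ / ϖ / 2) • 1 ∈ bvS (t i)
  sk : ∀ i (Y : Module.End ℂ (κ (e i) → ℂ)) (z : (K i →+* ℂ) → ℂ), IsCen (t i) Y z →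
    ∀ u v, (P (e i)).ψ (Y u) v + (P (e i)).ψ u (Y v) = 0
  Z1 : ∀ i, Z (e i) ∈ bvS (t i)
  Z2 : ∀ i u v, (P (e i)).ψ (Z (e i) u) v + (P (e i)).ψ u (Z (e i) v) = 0
  Z3 : ∀ (i j : J) (f : (κ i → ℂ) →ₗ[ℂ] (κ j → ℂ)), IsDRB (P i) (P j) f →
    ∀ v, Z j (f v) = f (Z i v)
  cen : ∀ i (v : κ (e i) → ℂ),
    (∀ σ : K i →+* ℂ, (∀ a, ts (t i) σ a v = 0) ∨ ∀ a, ts (t i) (cj σ) a v = 0) →
    v ∈ Submodule.span ℂ {w : κ (e i) → ℂ | ∃ (j : B) (f : (κ (b j) → ℂ) →ₗ[ℂ] (κ (e i) → ℂ)),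
      IsDRB (P (b j)) (P (e i)) f ∧ ∃ u, w = f u}
  kN : ∀ D : Derivation ℚ ℂ ℂ, KillT e P t fun i => (P (e i)).N D - (D ϖ / ϖ / 2) • 1
  kZ : KillT e P t fun i => Z (e i)
  kC : ∀ n, KillZ (fun j => P (b j)) (fun j => Z (b j)) n

end famw

/-- **CEX** (helper7).  As `St_Cen`. -/
def St_Cex : Prop := ∀ (I B J : Type) [Fintype I] [DecidableEq I] [Fintype B] [DecidableEq B]
  [Fintype J] [DecidableEq J] (e : I → J) (b : B → J) (κ : J → Type) [∀ j, Fintype (κ j)]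
  [∀ j, DecidableEq (κ j)] (ϖ : ℂ) (P : ∀ j, PData (κ j) ϖ) (K : I → Type) [∀ i, Field (K i)]
  [∀ i, NumberField (K i)] (c : ∀ i, K i →+* K i) (m : I → ℕ)
  (h : ∀ i, Matrix (Fin (m i)) (Fin (m i)) (K i))
  (t : ∀ i, Fin (m i) → K i → Module.End ℂ (κ (e i) → ℂ)) (Z : ∀ j, Module.End ℂ (κ j → ℂ)),
  FamW e b P c h t Z → ∀ n : J → ℕ, KillZ P Z n

/-- **SLU** (from `St_Aby`, `St_Rmu`, `St_Gsf`, `St_Dgx`, `St_Syc`, `KTP.St_Hod`).  PROOF.  As `thm_Slx`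
(`Pool/Agent/KTW/Slx.lean`) and `Klx_form`, with `T₀ = fun _ => True`.  `Y i` is the element of `bvS (t i)` with the
family `trz (M i σ)`, `M i` the family of `X i ∈ bvS (t i)` (`exists_act_of_mem`, `exists_bvE`).  Let `α` be a
Grothendieck form (of positive degree), `γ` from `KSW.exists_gam_allE`.  (1) `X i = N D - μ / 2`: `St_Aby` for
the symmetry of `Klx_form`; the result `Y'` is zero on the `D_j` and `Y'.1 (inl i) = Y i` (`eq_of_act`).
(2) `X i = 1/2 - hod`: `St_Dgx` for `Z = 1/2 - hod` (`FamQ`: `sy` from `St_Syc`, `Z1` from `KTP.St_Hod`, `Z3` from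
`hod_comm`) gives a symmetry `X` with the same part of trace zero, and `St_Aby` for `X`. -/
def St_Slu : Prop := ∀ {I J : Type} [Fintype I] [DecidableEq I] [Fintype J] [DecidableEq J]
  (A : I → AbVar) (D : J → AbVar) {K : I → Type} [∀ i, Field (K i)] [∀ i, NumberField (K i)]
  {c : ∀ i, K i →+* K i} {m : I → ℕ} (S : ∀ i, (A i).KugaSatakeMul (K i) (c i) (m i)),
  (∀ i, (A i).g ≠ 0) → (∀ i, (S i).IsLargeC) → IsElementary D →
  (∀ D' : Derivation ℚ ℂ ℂ, KillT (J := I ⊕ J)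
    (κ := fun j => Fin (Sum.elim A D j).g ⊕ Fin (Sum.elim A D j).g) Sum.inl
    (fun j => pData (Sum.elim A D j)) (fun i => lt (A i) (S i))
    (fun i => ((pData (A i)).N D' -
      (D' (2 * Real.pi * Complex.I) / (2 * Real.pi * Complex.I) / 2) • 1 : Module.End ℂ (A i).H1))) ∧
  KillT (J := I ⊕ J) (κ := fun j => Fin (Sum.elim A D j).g ⊕ Fin (Sum.elim A D j).g) Sum.inl
    (fun j => pData (Sum.elim A D j)) (fun i => lt (A i) (S i))
    (fun i => ((1 / 2 : ℂ) • 1 - hod (A i) : Module.End ℂ (A i).H1))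

/-- **UUX** (from `St_Slu`, `St_Cex`, `St_Psk`, `St_Hym`, `St_Hyt`, `KTP.St_Hod`).  The Hodge projectors kill all
Grothendieck forms on products of `A_i` with complex multiplication and elementary abelian
varieties.  PROOF.  As `St_Ceu` (`Pool/Agent/KTW/Ceu.lean`), with `FamW`; `kC` from `St_Hyt`, `St_Hym`; `kN`, `kZ` from
`St_Slu`. -/
def St_Uux : Prop := ∀ {I J : Type} [Fintype I] [DecidableEq I] [Fintype J] [DecidableEq J]
  (A : I → AbVar) (D : J → AbVar) {K : I → Type} [∀ i, Field (K i)] [∀ i, NumberField (K i)]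
  {c : ∀ i, K i →+* K i} {m : I → ℕ} (S : ∀ i, (A i).KugaSatakeMul (K i) (c i) (m i)),
  (∀ i, (A i).g ≠ 0) → (∀ i, (S i).IsLargeC) → (∀ i, (S i).IsCenQuotientOf D) →
  IsElementary D → ∀ n : I ⊕ J → ℕ,
  KillZ (κ := fun j => Fin (Sum.elim A D j).g ⊕ Fin (Sum.elim A D j).g)
    (fun j => pData (Sum.elim A D j)) (fun j => (1 / 2 : ℂ) • 1 - hod (Sum.elim A D j)) n

end Pool.Agent.KTW
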