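import Pool.Agent.KTW.StW

/-!
# KTW: Hodge classes on products of arbitrary K3 surfaces. Frozen statements, part two

Without the hypothesis `Hom(A_i, A_j) = 0`. Every module `Pool/Agent/KTW/<X>.lean` proves
`theorem thm_<X> : St_<X>` (with the hypotheses named in the docstring). The docstrings contain the
proofs.
-/

set_option autoImplicit false

namespace Pool.Agent.KTW

open Module Matrix NumberField Pool.Agent.Helper7 Pool.Agent.KS Pool.Agent.Ball Pool.Agent.KSE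
  Pool.Agent.Helper28.GPC Pool.Agent.KSR Pool.Agent.KSV Pool.Agent.K3P Pool.Agent.KTP
open Pool.Agent.GPC (AbVar TC IsRatT qf df HU IsGrUA IsHodgeUA Form IsBetti IsDeRham H1)

section defs

variable {I : Type} [Fintype I] [DecidableEq I] (n : I → ℕ) {κ : I → Type}
    [∀ i, Fintype (κ i)] [∀ i, DecidableEq (κ i)] {ϖ : ℂ} (P : ∀ i, PData (κ i) ϖ)
    {K : I → Type} [∀ i, Field (K i)] [∀ i, NumberField (K i)] {m : I → ℕ}
    (h : ∀ i, Matrix (Fin (m i)) (Fin (m i)) (K i))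
    (t : ∀ i, Fin (m i) → K i → Module.End ℂ (κ i → ℂ)) {k : ℕ}
    (γ : MultilinearMap ℂ (fun _ : Fin (2 * k) => HW κ n) ℂ) (σ₀ : ∀ i, K i →+* ℂ)

/-- the families of symmetries which are zero at all definite places -/
def RR0 : Set (∀ p : PL K, Matrix (Fin (m p.1)) (Fin (m p.1)) ℂ) :=
  {M | M ∈ RRE n P h t γ ∧ ∀ p : PL K, p.2 ≠ σ₀ p.1 → M p = 0}

/-- all hypotheses on a family of Kuga-Satake structures of real type and a Grothendieck form `γ`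
which controls the action on the Clifford modules -/
structure Fam (c : ∀ i, K i →+* K i) : Prop where
  pi : ϖ ≠ 0
  S : ∀ i, MD (P i) (c i) (h i) (t i)
  B : ∀ v : Fin (2 * k) → HW κ n, (∀ r, IsRatP n P (v r)) → ∃ q : ℚ, γ v = ϖ ^ k * q
  A : ∀ v : Fin (2 * k) → HW κ n, (∀ r i m j, IsAlgebraic ℚ (v r i m j)) → IsAlgebraic ℚ (γ v)
  nd : ∀ i, HNd (P i)
  real : ∀ i (σ : K i →+* ℂ), cj σ = σ
  sig : ∀ i, Sig2 (CoreR.GR (h i) (σ₀ i)) ∨ Sig2 (-(CoreR.GR (h i) (σ₀ i)))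
  defi : ∀ i (σ : K i →+* ℂ), σ ≠ σ₀ i → Definite ((h i).map (cj σ))
  T : ∀ X : GG κ, IsInv n P γ X → ∀ i, ∃ M, ActM (t i) (X.1 i) M
  Tg : ∀ g : (i : I) → Module.End ℂ (κ i → ℂ), IsGrp n P γ g → ∀ i,
    ∃ A : (K i →+* ℂ) → Matrix (Fin (m i)) (Fin (m i)) ℂ, ∀ σ x,
      g i * tau (ts (t i) σ) x = tau (ts (t i) σ) (A σ *ᵥ x) * g i
  ne : ∀ i, Nonempty (κ i)
  m3 : ∀ i, m i = 3 ∨ 5 ≤ m i
  m5 : ∀ i, Ok (P i) (K i) (m i)

end defs

/-- **LNK** (from `KSV/FinalB.lean`, `hHall5 : St_Hall5` is `KSV.Hall5_`).  Linked factors have a common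
isogeny factor.  PROOF.  This is the second half of the proof of `KSV.not_linkedB`.  Write `M_i` for
`M ⟨i, σ₀ i⟩`.  (1) `hl` for all of `RRE`: let `M ∈ RRE`, `M_i = 0`, and suppose `M_j ≠ 0`.  The set
`𝔟 = {N_j : N ∈ RRE, N_i = 0}` (as operators, `toLin'`) is stable under the brackets with all skew
operators (`coreB`, `RRE_bracket`), so it contains all skew operators (`KSP.ideal_top`).  Take skew
`B, C` with `[B, C] ≠ 0` (`KSP.exists_noncomm`), `N ∈ RRE` with `N_i = 0`, `N_j = C`, and `N' ∈ RR0` with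
`N'_j = B` (`coreB`); `[N', N] ∈ RR0` has the value `[N'_i, 0] = 0` at `i` and `[B, C] ≠ 0` at `j`,
contradiction to the hypothesis.  The other direction is the same with `i, j` exchanged.
(2) `exists_isoB`, `exists_F`, `hom_of_F` as at the end of the proof of `not_linkedB`. -/
def St_Lnk : Prop := ∀ (I : Type) [Fintype I] [DecidableEq I] (n : I → ℕ) (κ : I → Type)
  [∀ i, Fintype (κ i)] [∀ i, DecidableEq (κ i)] (ϖ : ℂ) (P : ∀ i, PData (κ i) ϖ)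
  (K : I → Type) [∀ i, Field (K i)] [∀ i, NumberField (K i)] (c : ∀ i, K i →+* K i) (m : I → ℕ)
  (h : ∀ i, Matrix (Fin (m i)) (Fin (m i)) (K i))
  (t : ∀ i, Fin (m i) → K i → Module.End ℂ (κ i → ℂ)) (k : ℕ)
  (γ : MultilinearMap ℂ (fun _ : Fin (2 * k) => HW κ n) ℂ) (σ₀ : ∀ i, K i →+* ℂ),
  Fam n P h t γ σ₀ c → ∀ i j : I, i ≠ j →
  (∀ M ∈ RR0 n P h t γ σ₀, M ⟨i, σ₀ i⟩ = 0 ↔ M ⟨j, σ₀ j⟩ = 0) →
  ∃ f : (κ i → ℂ) →ₗ[ℂ] (κ j → ℂ), IsDRB (P i) (P j) f ∧ f ≠ 0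

/-- **FTH.**  A morphism determines the value at a linked place.  `N i` is a family of matrices with
value zero off `σ₀ i` and `Z i ∈ bvS (t i)` its operator (later: the Hodge projector, up to
homotheties).  PROOF.  Let `X` be a symmetry of `M` (`mem_RRE`): `X.1 i ∈ bvS (t i)` by `mem_bvE`, and
`X.1 i = Z i` by `eq_of_act` (both families of matrices are `M ⟨i, σ₀ i⟩` at `σ₀ i` and `0` elsewhere).
`X.1 j (f v) = f (X.1 i v)` (`IsInv.comm`), so `W = X.1 j - Z j` satisfies `W ∘ f = 0`; `W ∈ bvS (t j)`, and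
its family of matrices is `N' = M ⟨j, σ₀ j⟩ - N j (σ₀ j)` at `σ₀ j` and `0` elsewhere.  Suppose `N' ≠ 0`.
Let `𝔞` be the space of the operators `toLin' B`, `B` skew at `(j, σ₀ j)`, such that there is
`W ∈ bvS (t j)` with `ActM (t j) W (fun σ => if σ = σ₀ j then B else 0)` (classical) and `W ∘ f = 0`.  It is
stable under brackets with skew `C`: by `coreB` there is `M' ∈ RR0` with the value `C` at `(j, σ₀ j)`, with
symmetry `X'`; `(X'.1 j * W - W * X'.1 j) (f v) = X'.1 j (W (f v)) - W (f (X'.1 i v)) = 0`, it is in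
`bvS (t j)` (it is the `j`-component of ... or: by `exists_bvE` and `eq_of_act`-type uniqueness; simplest:
let `𝔞` use symmetries `X ∈ RR0` instead: `𝔞 = {toLin' (M ⟨j, σ₀ j⟩) : M ∈ RR0, X.1 j ∘ f = 0}`, then
brackets are clear by `RRE_bracket`, and `W` is the `j`-component of the symmetry of `M - M₁`, `M₁ ∈ RR0`
with `M₁ ⟨j, σ₀ j⟩ = N j (σ₀ j)` by `coreB`, whose symmetry has the `j`-component `Z j` by `eq_of_act`).
By `KSP.ideal_top` it contains all skew operators, in particular that of `N j (σ₀ j)`: the symmetry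
`X` of it has `X.1 j = Z j` by `eq_of_act` and `Z j ∘ f = 0`, so `f = 0` (`Z j` is injective). -/
def St_Fth : Prop := ∀ (I : Type) [Fintype I] [DecidableEq I] (n : I → ℕ) (κ : I → Type)
  [∀ i, Fintype (κ i)] [∀ i, DecidableEq (κ i)] (ϖ : ℂ) (P : ∀ i, PData (κ i) ϖ)
  (K : I → Type) [∀ i, Field (K i)] [∀ i, NumberField (K i)] (c : ∀ i, K i →+* K i) (m : I → ℕ)
  (h : ∀ i, Matrix (Fin (m i)) (Fin (m i)) (K i))
  (t : ∀ i, Fin (m i) → K i → Module.End ℂ (κ i → ℂ)) (k : ℕ)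
  (γ : MultilinearMap ℂ (fun _ : Fin (2 * k) => HW κ n) ℂ) (σ₀ : ∀ i, K i →+* ℂ),
  Fam n P h t γ σ₀ c → ∀ (Z : ∀ i, Module.End ℂ (κ i → ℂ))
  (N : ∀ i, (K i →+* ℂ) → Matrix (Fin (m i)) (Fin (m i)) ℂ),
  (∀ i, Z i ∈ bvS (t i)) → (∀ i, ActM (t i) (Z i) (N i)) → (∀ i σ, SkP (h i) σ (N i σ)) →
  (∀ i σ, σ ≠ σ₀ i → N i σ = 0) → (∀ i u, Z i u = 0 → u = 0) →
  ∀ (i j : I) (f : (κ i → ℂ) →ₗ[ℂ] (κ j → ℂ)), IsDRB (P i) (P j) f → f ≠ 0 →
  (∀ v, Z j (f v) = f (Z i v)) → ∀ M ∈ RR0 n P h t γ σ₀, M ⟨i, σ₀ i⟩ = N i (σ₀ i) →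
  M ⟨j, σ₀ j⟩ = N j (σ₀ j)

/-- **RPS.**  Goursat's lemma with links.  PROOF.  `i ~ j` if `∀ Y ∈ R, Y i = 0 ↔ Y j = 0`; an equivalence
relation (`Setoid`); `r : I → I` with `r i ~ i` and `r i = r j` for `i ~ j` (`Quotient.out`), `I₀ = {i // r i = i}`
(for `a, b ∈ I₀`, `a ~ b` implies `a = b`).  Let `R₀` be the image of `R` under the restriction to `I₀`.
`KSP.goursat` for `I₀`: brackets, skew, projections are clear.  Not linked: let `a ≠ b` in `I₀`; suppose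
`∀ X ∈ R, X b = 0 → X a = 0`.  Then also `X a = 0 → X b = 0`: otherwise
`𝔞 = {Y b : Y ∈ R, Y a = 0}` is not zero and stable under brackets with all skew operators, so it
contains all skew operators (`KSP.ideal_top`); take `Y ∈ R` with `Y a ≠ 0` (`hpr`, `KSP.exists_skw`) and
`Y' ∈ R` with `Y' a = 0`, `Y' b = Y b`: `(Y - Y') b = 0`, so `Y a = (Y - Y') a = 0`, contradiction.  So
`a ~ b`, contradiction.  Hence `∑_{a ∈ I₀} Pi.single a (D a) ∈ R₀`: there is `X ∈ R` with `X a = D a` for all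
`a ∈ I₀`, and by the hypothesis (`r i ~ i`) `X i = D i` for all `i`. -/
def St_Rps : Prop := ∀ (I : Type) [Fintype I] [DecidableEq I] (d : I → ℕ),
  (∀ i, d i = 3 ∨ 5 ≤ d i) → ∀ (q : ∀ i, LinearMap.BilinForm ℂ (Fin (d i) → ℂ)),
  (∀ i x y, q i x y = q i y x) → (∀ i, (q i).Nondegenerate) →
  ∀ (R : Submodule ℂ (∀ i, Module.End ℂ (Fin (d i) → ℂ))),
  (∀ X ∈ R, ∀ Y ∈ R, X * Y - Y * X ∈ R) → (∀ X ∈ R, ∀ i, KSP.Skw (q i) (X i)) →
  (∀ i A, KSP.Skw (q i) A → ∃ X ∈ R, X i = A) →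
  ∀ D : ∀ i, Module.End ℂ (Fin (d i) → ℂ), (∀ i, KSP.Skw (q i) (D i)) →
  (∀ i j, (∀ Y ∈ R, Y i = 0 ↔ Y j = 0) → ∀ X ∈ R, X i = D i → X j = D j) → D ∈ R

/-- **DGM** (from `St_Lnk`, `St_Fth`, `St_Rps`).  The diagonal operator is a symmetry.  PROOF.  `St_Rps` for
`d = m`, `q i = bil (CoreR.GR (h i) (σ₀ i))`, `R` the space of the `fun i => toLin' (M ⟨i, σ₀ i⟩)`, `M ∈ RR0`,
`D i = toLin' (N i (σ₀ i))` (`coreB`, `RRE_bracket`, `skw_of_skP`, as in `KSV/FinalB.lean`).  The hypothesis on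
linked indices: for `i = j` trivial, for `i ≠ j` by `St_Lnk` and `St_Fth`.  So there is `M ∈ RR0` with
`M ⟨i, σ₀ i⟩ = N i (σ₀ i)` for all `i`; its symmetry `X` has `X.1 = Z` by `mem_bvE`, `eq_of_act`. -/
def St_Dgm : Prop := ∀ (I : Type) [Fintype I] [DecidableEq I] (n : I → ℕ) (κ : I → Type)
  [∀ i, Fintype (κ i)] [∀ i, DecidableEq (κ i)] (ϖ : ℂ) (P : ∀ i, PData (κ i) ϖ)
  (K : I → Type) [∀ i, Field (K i)] [∀ i, NumberField (K i)] (c : ∀ i, K i →+* K i) (m : I → ℕ)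
  (h : ∀ i, Matrix (Fin (m i)) (Fin (m i)) (K i))
  (t : ∀ i, Fin (m i) → K i → Module.End ℂ (κ i → ℂ)) (k : ℕ)
  (γ : MultilinearMap ℂ (fun _ : Fin (2 * k) => HW κ n) ℂ) (σ₀ : ∀ i, K i →+* ℂ),
  Fam n P h t γ σ₀ c → ∀ (Z : ∀ i, Module.End ℂ (κ i → ℂ))
  (N : ∀ i, (K i →+* ℂ) → Matrix (Fin (m i)) (Fin (m i)) ℂ),
  (∀ i, Z i ∈ bvS (t i)) → (∀ i, ActM (t i) (Z i) (N i)) → (∀ i σ, SkP (h i) σ (N i σ)) →
  (∀ i σ, σ ≠ σ₀ i → N i σ = 0) → (∀ i u, Z i u = 0 → u = 0) →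
  (∀ (i j : I) (f : (κ i → ℂ) →ₗ[ℂ] (κ j → ℂ)), IsDRB (P i) (P j) f →
    ∀ v, Z j (f v) = f (Z i v)) →
  ∃ X : GG κ, IsInv n P γ X ∧ X.2 = 0 ∧ X.1 = Z

/-- the operators `Z i` kill all Grothendieck forms -/
def KillZ {I : Type} {κ : I → Type} [∀ i, Fintype (κ i)]
    [∀ i, DecidableEq (κ i)] {ϖ : ℂ} (P : ∀ i, PData (κ i) ϖ)
    (Z : ∀ i, Module.End ℂ (κ i → ℂ)) (n : I → ℕ) : Prop :=
  ∀ (k : ℕ) (α : MultilinearMap ℂ (fun _ : Fin (2 * k) => HW κ n) ℂ),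
    (∀ v : Fin (2 * k) → HW κ n, (∀ r, IsRatP n P (v r)) → ∃ q : ℚ, α v = ϖ ^ k * q) →
    (∀ v : Fin (2 * k) → HW κ n, (∀ r i l j, IsAlgebraic ℚ (v r i l j)) → IsAlgebraic ℚ (α v)) →
    actForm (lift n Z) α = 0

/-- **KLZ** (from `St_Dgm`, `KTP.St_Kil`).  The Hodge projectors kill the Grothendieck forms.  PROOF.  If
`I` is `Subsingleton`: `KTP.St_Kil` (its hypothesis on morphisms is empty), since
`1/2 - hod (A i) ∈ bvS` (`KTP.St_Hod`).  Otherwise all `c i = id`; as `KSV.kill_avB`, `KSV.kill_formB`: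
`exists_gam_allE` gives `γ`, and `St_Dgm` for `Z i = 1/2 - hod (A i)`, `N i` from `exists_act_of_mem`,
`N i σ = 0` for `σ ≠ σ₀ i` because `Z i` is a combination of products of two Clifford operators at `σ₀ i`,
which commute with those at `σ` (`hod_eq`, `tau_anti`, `tau_injE`), `Z i` injective because `hod` is
idempotent, and `hod_comm` (`Helper20/Hodge.lean`). -/
def St_Klz : Prop := ∀ {I : Type} [Fintype I] [DecidableEq I] (A : I → AbVar) {K : I → Type}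
  [∀ i, Field (K i)] [∀ i, NumberField (K i)] {c : ∀ i, K i →+* K i} {m : I → ℕ}
  (S : ∀ i, (A i).KugaSatakeMul (K i) (c i) (m i)), (∀ i, (A i).g ≠ 0) → (∀ i, Adm (S i)) →
  (Subsingleton I ∨ ∀ i, c i = RingHom.id (K i) ∧ m i ≠ 4) →
  ∀ n : I → ℕ, KillZ (fun i => pData (A i)) (fun i => (1 / 2 : ℂ) • 1 - hod (A i)) n

/-- **MXZ.**  PROOF.  As `KTP.thm_Mix` (copy the proof), with the family `Z` for `Pi.single i₀ Z` and the
operator `y ↦ fun i => Inv_op (M i) (y i)` for `Mix_L i₀ M`; the equality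
`β_i (Z_i u) v + β_i u (Z_i v) = M_i (β_i u v)` holds for every `i` (`K3P.Inv_beta`; the hypothesis on
`(P i).ψ` from `KillZ` for the form `(P i).ψ (w 0 i 0) (w 1 i 0)`, evaluated at vectors `Pi.single i _`). -/
def St_Mxz : Prop := ∀ (I : Type) [Fintype I] [DecidableEq I] (κ : I → Type) [∀ i, Fintype (κ i)]
  [∀ i, DecidableEq (κ i)] [∀ i, Nonempty (κ i)] (ϖ : ℂ) (P : ∀ i, PData (κ i) ϖ) (K : I → Type)
  [∀ i, Field (K i)] [∀ i, NumberField (K i)] (c : ∀ i, K i →+* K i) (m : I → ℕ)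
  (h : ∀ i, Matrix (Fin (m i)) (Fin (m i)) (K i))
  (t : ∀ i, Fin (m i) → K i → Module.End ℂ (κ i → ℂ)), ϖ ≠ 0 →
  (∀ i, MD (P i) (c i) (h i) (t i)) → ∀ (Z : ∀ i, Module.End ℂ (κ i → ℂ))
  (M : ∀ i, (K i →+* ℂ) → Matrix (Fin (m i)) (Fin (m i)) ℂ), (∀ i, ActM (t i) (Z i) (M i)) →
  (∀ i, SkewM (h i) (M i)) → ∀ k : I → ℕ, KillZ P Z (fun i => k i + 1) →
  ∀ (n p : ℕ) (F : MultilinearMap ℂ (fun _ : Fin n => TF K m)
    (MultilinearMap ℂ (fun _ : Fin (2 * p) => HW κ k) ℂ)),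
  (∀ (y : Fin n → ∀ i, Fin (m i) → K i) (w : Fin (2 * p) → HW κ k), (∀ s, IsRatP k P (w s)) →
    ∃ q : ℚ, F (fun s => embF (y s)) w = ϖ ^ p * q) →
  (∀ (v : Fin n → TF K m) (w : Fin (2 * p) → HW κ k), (∀ s i, DR (t i) (v s i)) →
    (∀ s i l j, IsAlgebraic ℚ (w s i l j)) → IsAlgebraic ℚ (F v w)) →
  ∀ (v : Fin n → TF K m) (w : Fin (2 * p) → HW κ k),
    ∑ s, F (Function.update v s (fun i => Inv_op (M i) (v s i))) w +
      ∑ s, F v (Function.update w s (lift k Z (w s))) = 0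

/-- **HTZ** (from `St_Klz`, `St_Mxz`, `KTP.St_Hod`, `KTP.St_Hty`).  PROOF.  As `KTP.thm_Htf`
(`Pool/Agent/KTP/Htf.lean`); the sum over `i` in its proof is now the conclusion of `St_Mxz`
(`Z i = 1/2 - hod (A i)` by `St_Hod`). -/
def St_Htz : Prop := ∀ {I : Type} [Fintype I] [DecidableEq I] (A : I → AbVar) {K : I → Type}
  [∀ i, Field (K i)] [∀ i, NumberField (K i)] {c : ∀ i, K i →+* K i} {m : I → ℕ}
  (S : ∀ i, (A i).KugaSatakeMul (K i) (c i) (m i)), (∀ i, (A i).g ≠ 0) → (∀ i, Adm (S i)) →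
  (Subsingleton I ∨ ∀ i, c i = RingHom.id (K i) ∧ m i ≠ 4) →
  ∀ (n : ℕ) (k : I → ℕ) (p : ℕ) (F : MultilinearMap ℂ (fun _ : Fin n => TF K m)
    (Form A k (2 * p))),
  (∀ (y : Fin n → ∀ i, Fin (m i) → K i) (w : Fin (2 * p) → H1 A k), (∀ s, IsBetti A k (w s)) →
    ∃ q : ℚ, F (fun s => embF (y s)) w = (2 * Real.pi * Complex.I) ^ p * q) →
  (∀ (v : Fin n → TF K m) (w : Fin (2 * p) → H1 A k), (∀ s i, DR (lt (A i) (S i)) (v s i)) →
    (∀ s, IsDeRham A k (w s)) → IsAlgebraic ℚ (F v w)) →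
  ∀ (a : Fin n → ℤ) (b : Fin (2 * p) → ℤ) (v : Fin n → TF K m) (w : Fin (2 * p) → H1 A k),
    -(p : ℤ) < ∑ s, a s + ∑ s, b s → (∀ s i, (S i).IsFilT (a s) (v s i)) →
    (∀ s i j, (A i).IsFilAt (b s) (w s i j)) → F v w = 0

/-- **HUZ** (from `St_Htz`, `KTP.St_Htu`).  PROOF.  `KTP.thm_Hua` without the hypothesis on morphisms. -/
def St_Huz : Prop := ∀ {I : Type} [Fintype I] [DecidableEq I] (A : I → AbVar) {K : I → Type}
  [∀ i, Field (K i)] [∀ i, NumberField (K i)] {c : ∀ i, K i →+* K i} {m : I → ℕ}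
  (S : ∀ i, (A i).KugaSatakeMul (K i) (c i) (m i)), (∀ i, (A i).g ≠ 0) → (∀ i, Adm (S i)) →
  (Subsingleton I ∨ ∀ i, c i = RingHom.id (K i) ∧ m i ≠ 4) →
  ∀ (r n : ℕ) (k : I → ℕ) (p : ℕ) (F : MultilinearMap ℂ (fun _ : Fin n => HU r K m)
    (Form A k (2 * p))), IsGrUA S r n k p F → IsHodgeUA S r n k p F

end Pool.Agent.KTW
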