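import Pool.Agent.KTW.Slr
import Pool.Agent.KTW.StE
import Pool.Agent.KTW.Alz

/-!
# KTW [Uur]: the Hodge projectors on the `A_i` with small simple factors and of complex type
-/

set_option autoImplicit false
set_option linter.unusedSectionVars false

namespace Pool.Agent.KTW

open Module Matrix NumberField Pool.Agent.Helper7 Pool.Agent.KS Pool.Agent.Ball Pool.Agent.KSE
  Pool.Agent.Helper28.GPC Pool.Agent.K3P Pool.Agent.KTP
open Pool.Agent.GPC (AbVar IsRMType IsElementary)

/-- two sums of operators supported at one index -/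
theorem Uur_sum {I J : Type} [Fintype I] [DecidableEq I] [DecidableEq J] (p : I → Prop)
    [DecidablePred p] {V : I ⊕ J → Type} [∀ j, AddCommGroup (V j)] [∀ j, Module ℂ (V j)]
    (W X : ∀ i, Module.End ℂ (V (Sum.inl i))) (hWX : ∀ i, p i → W i = X i) :
    (∀ i, ((∑ i : {i // ¬ p i}, (Pi.single (Sum.inl i.1) (W i.1) : ∀ j, Module.End ℂ (V j))) +
      ∑ i : {i // p i}, (Pi.single (Sum.inl i.1) (X i.1) : ∀ j, Module.End ℂ (V j))) (Sum.inl i) =
        W i) ∧
    ∀ j, ((∑ i : {i // ¬ p i}, (Pi.single (Sum.inl i.1) (W i.1) : ∀ j, Module.End ℂ (V j))) +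
      ∑ i : {i // p i}, (Pi.single (Sum.inl i.1) (X i.1) : ∀ j, Module.End ℂ (V j))) (Sum.inr j) =
        0 := by
  have h2 : (∑ i : {i // p i}, (Pi.single (Sum.inl i.1) (X i.1) : ∀ j, Module.End ℂ (V j))) =
      ∑ i : {i // p i}, (Pi.single (Sum.inl i.1) (W i.1) : ∀ j, Module.End ℂ (V j)) :=
    Finset.sum_congr rfl fun i _ => by rw [hWX i.1 i.2]
  rw [h2]
  have h1 : (∑ i : {i // ¬ p i}, (Pi.single (Sum.inl i.1) (W i.1) : ∀ j, Module.End ℂ (V j))) +
      ∑ i : {i // p i}, (Pi.single (Sum.inl i.1) (W i.1) : ∀ j, Module.End ℂ (V j)) =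
      ∑ i, (Pi.single (Sum.inl i) (W i) : ∀ j, Module.End ℂ (V j)) := by
    rw [add_comm]
    exact Fintype.sum_subtype_add_sum_subtype p
      fun i => (Pi.single (Sum.inl i) (W i) : ∀ j, Module.End ℂ (V j))
  rw [h1]
  constructor
  · intro i
    rw [Finset.sum_apply, Finset.sum_eq_single i]
    · exact Pi.single_eq_same _ _
    · intro i' _ h
      exact Pi.single_eq_of_ne (fun h' => h (Sum.inl_injective h').symm) _
    · intro h
      exact absurd (Finset.mem_univ i) h
  · intro j
    rw [Finset.sum_apply]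
    refine Finset.sum_eq_zero fun i _ => ?_
    exact Pi.single_eq_of_ne (fun h => by cases h) _

/-- [UUR] the Hodge projectors kill all Grothendieck forms on the products of the `A_i` of real type
with `m i ≤ 4`, the `A_i` of complex type and elementary abelian varieties -/
theorem thm_Uur (hAby : St_Aby) (hRmu : St_Rmu) (hGsf : St_Gsf) (hSyd : St_Syd) (hDgy : St_Dgy)
    (hHod : KTP.St_Hod) (hCer : St_Cer) (hPsk : St_Psk) (hHym : St_Hym) (hHyt : St_Hyt)
    {I J : Type} [Fintype I] [DecidableEq I] [Fintype J] [DecidableEq J]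
    (A : I → AbVar) (D : J → AbVar) {K : I → Type} [∀ i, Field (K i)] [∀ i, NumberField (K i)]
    {c : ∀ i, K i →+* K i} {m : I → ℕ} (S : ∀ i, (A i).KugaSatakeMul (K i) (c i) (m i))
    (hg : ∀ i, (A i).g ≠ 0) (hRC : ∀ i, ((S i).IsLargeR ∧ m i ≤ 4) ∨ (S i).IsLargeD)
    (hD : IsElementary D) (hq : ∀ i, (S i).IsLargeD → (S i).IsCenQuotientOf D) :
    Alz_K (Sum.elim A D) := by
  classical
  have hRC' : ∀ i, (S i).IsLargeR ∨ (S i).IsLargeD := fun i => (hRC i).imp And.left id
  have hC : ∀ i, ¬ c i = RingHom.id (K i) → (S i).IsLargeD := by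
    intro i hi
    rcases hRC i with h | h
    · exact absurd h.1.1 hi
    · exact h
  have hnd : ∀ i, (S i).h.det ≠ 0 := by
    intro i
    obtain ⟨σ, x, hx, -⟩ := (S i).hodge
    exact k3_nd (S i).conjugation (S i).hermitian hx
  have hM : ∀ i, MD (pData (A i)) (c i) (S i).h (lt (A i) (S i)) :=
    fun i => mde (A i) (S i) (hnd i)
  have hco : ∀ i, ¬ c i = RingHom.id (K i) → ∀ σ : K i →+* ℂ, cj σ ≠ σ := by
    intro i hi σ hσ
    apply hi
    ext y
    apply σ.injective
    have h1 := (S i).conjugation σ y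
    rw [show ComplexEmbedding.conjugate σ = σ from hσ] at h1
    exact h1.symm
  obtain ⟨hZm, WZ, hWZ, hWZr, hWZk⟩ := Slr_Z A D S hAby hRmu hGsf hSyd hDgy hHod hg hRC hD
  have hN := fun D' => Slr_N A D S hAby hRmu hGsf hg hRC' hD D'
  have hts : ∀ i σ a (v : (A i).H1), ts (lt (A i) (S i)) σ a v = (S i).e σ a v := by
    intro i σ a v
    rw [ts_lt]
    rfl
  have hpsi : ∀ i (u v : (A i).H1), (pData (A i)).ψ (((1 / 2 : ℂ) • (1 : Module.End ℂ (A i).H1) -
      hod (A i)) u) v + (pData (A i)).ψ u (((1 / 2 : ℂ) • (1 : Module.End ℂ (A i).H1) -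
      hod (A i)) v) = 0 := by
    intro i u v
    have h1 := psi_hod (A i) u v
    show (pData (A i)).ψ ((1 / 2 : ℂ) • u - hod (A i) u) v +
      (pData (A i)).ψ u ((1 / 2 : ℂ) • v - hod (A i) v) = 0
    rw [map_sub, map_sub, map_smul, map_smul, LinearMap.sub_apply, LinearMap.smul_apply,
      smul_eq_mul]
    linear_combination -h1
  intro n
  refine hCer {i // ¬ c i = RingHom.id (K i)} {i // c i = RingHom.id (K i)} J (I ⊕ J)
    (fun i => Sum.inl i.1) (fun i => Sum.inl i.1) Sum.inr
    (fun j => Fin (Sum.elim A D j).g ⊕ Fin (Sum.elim A D j).g) (2 * Real.pi * Complex.I)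
    (fun j => pData (Sum.elim A D j)) (fun i => K i.1) (fun i => c i.1) (fun i => m i.1)
    (fun i => (S i.1).h) (fun i => lt (A i.1) (S i.1))
    (fun j => (1 / 2 : ℂ) • 1 - hod (Sum.elim A D j)) ?_ n
  exact
    { pi := Complex.two_pi_I_ne_zero
      inj := fun i i' h => Subtype.ext (Sum.inl_injective h)
      rinj := fun i i' h => Subtype.ext (Sum.inl_injective h)
      binj := Sum.inr_injective
      dis := fun i i' h => i.2 (by
        have h1 := Sum.inl_injective h
        rw [h1]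
        exact i'.2)
      cpl := by
        rintro (j | j)
        · refine iff_of_false ?_ fun h => h ?_
          · rintro ⟨i, hi⟩
            cases hi
          · by_cases h : c j = RingHom.id (K j)
            · exact Or.inr ⟨⟨j, h⟩, rfl⟩
            · exact Or.inl ⟨⟨j, h⟩, rfl⟩
        · refine iff_of_true ⟨j, rfl⟩ ?_
          rintro (⟨i, hi⟩ | ⟨i, hi⟩)
          · cases hi
          · cases hi
      S := fun i => hM i.1
      cm := fun i => hco i.1 i.2
      ne := fun i => ⟨Sum.inl ⟨0, Nat.pos_of_ne_zero (hg i.1)⟩⟩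
      m0 := fun i => by
        obtain ⟨σ₀, h, -⟩ := place_D (S i.1) (hC i.1 i.2)
        exact h.2.2.2.1.ne'
      N := fun i D' => (hN D').1 i.1
      sk := fun i Y z h => hPsk (A i.1) (K i.1) (c i.1) (m i.1) (S i.1).h (lt (A i.1) (S i.1))
        (hM i.1) (hco i.1 i.2) Y z h
      Z1 := fun i => hZm i.1
      Z2 := fun i u v => hpsi i.1 u v
      Z3 := fun i j f hf v => by
        show (1 / 2 : ℂ) • f v - hod (Sum.elim A D j) (f v) =
          f ((1 / 2 : ℂ) • v - hod (Sum.elim A D i) v)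
        rw [map_sub, map_smul, hod_comm f hf]
      cen := fun i v hv => by
        refine Submodule.span_mono ?_ (hq i.1 (hC i.1 i.2) v fun σ => ?_)
        · rintro w ⟨j, f, u, hf, rfl⟩
          exact ⟨j, IsLinearMap.mk' f hf.linear,
            (isDRB_iff _ _ _).mpr ⟨hf.betti, hf.deRham⟩, u, rfl⟩
        · rcases hv σ with h | h
          · exact Or.inl fun a => (hts i.1 σ a v).symm.trans (h a)
          · exact Or.inr fun a => (hts i.1 (cj σ) a v).symm.trans (h a)
      kN := fun D' => by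
        obtain ⟨-, W, hW, hWr, hWk⟩ := hN D'
        refine ⟨fun i => W i.1, fun i => hW i.1, fun n => ?_⟩
        have h1 := Uur_sum (V := fun j : I ⊕ J => Fin (Sum.elim A D j).g ⊕
          Fin (Sum.elim A D j).g → ℂ) (fun i => c i = RingHom.id (K i)) W _ hWr
        exact hWk _ h1.1 h1.2 n
      kZ := by
        refine ⟨fun i => WZ i.1, fun i => hWZ i.1, fun n => ?_⟩
        have h1 := Uur_sum (V := fun j : I ⊕ J => Fin (Sum.elim A D j).g ⊕
          Fin (Sum.elim A D j).g → ℂ) (fun i => c i = RingHom.id (K i)) WZ _ hWZr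
        exact hWZk _ h1.1 h1.2 n
      kC := fun n => hHym D (hHyt D hD) n }

end Pool.Agent.KTW
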