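import Pool.Agent.KTW.StX
import Pool.Agent.KTW.Kln
import Pool.Agent.KTP.Hod

/-!
# KTW [Uux]: the Hodge projectors kill the Grothendieck forms, complex type, all pairs together
-/

set_option autoImplicit false
set_option linter.unusedSectionVars false

namespace Pool.Agent.KTW

open Module Matrix NumberField Pool.Agent.Helper7 Pool.Agent.KS Pool.Agent.Ball Pool.Agent.KSE
  Pool.Agent.Helper28.GPC Pool.Agent.K3P Pool.Agent.KTP
open Pool.Agent.GPC (AbVar GrIsHodge IsElementary)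

section

variable {I J : Type} [Fintype I] [DecidableEq I] [Fintype J] [DecidableEq J]
    {ε : I → J} {κ : J → Type}
    [∀ j, Fintype (κ j)] [∀ j, DecidableEq (κ j)] {ϖ : ℂ} (hϖ : ϖ ≠ 0) (P : ∀ j, PData (κ j) ϖ)
    {K : I → Type} [∀ i, Field (K i)] [∀ i, NumberField (K i)] {c : ∀ i, K i →+* K i} {m : I → ℕ}
    {h : ∀ i, Matrix (Fin (m i)) (Fin (m i)) (K i)}
    {t : ∀ i, Fin (m i) → K i → Module.End ℂ (κ (ε i) → ℂ)}
    (S : ∀ i, MD (P (ε i)) (c i) (h i) (t i))

include hϖ S in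
/-- the comparison operators without multiplier are in the space of bivectors -/
theorem Uux_N (i : I) (D : Derivation ℚ ℂ ℂ) :
    (P (ε i)).N D - (D ϖ / ϖ / 2) • 1 ∈ bvS (t i) := by
  classical
  obtain ⟨n', k', γ, hγB, hγA, hγ1, hγ2⟩ := KSW.exists_gam_allE P S (fun _ => 1)
    (k := 1) one_pos 0 (fun v _ => ⟨0, by
      rw [Rat.cast_zero, mul_zero]
      rfl⟩) (fun v _ => isAlgebraic_zero)
  obtain ⟨X, hXd⟩ : ∃ X : GG κ, X = (fun j => (P j).N D, D ϖ / ϖ) + (-(D ϖ / ϖ / 2)) • (1, 2) :=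
    ⟨_, rfl⟩
  have hX : IsInv n' P γ X := by
    rw [hXd]
    exact (isInv_N n' P γ hϖ hγB hγA D).add _ _ _ ((Kln_id n' P γ).smul _ _ _ _)
  have hX2 : X.2 = 0 := by
    rw [hXd]
    show D ϖ / ϖ + -(D ϖ / ϖ / 2) * 2 = 0
    ring
  have hX1 : ∀ j, X.1 j = (P j).N D - (D ϖ / ϖ / 2) • 1 := by
    intro j
    rw [hXd]
    refine LinearMap.ext fun v => ?_
    show (P j).N D v + (-(D ϖ / ϖ / 2)) • v = (P j).N D v - (D ϖ / ϖ / 2) • v
    rw [neg_smul, sub_eq_add_neg]
  obtain ⟨M, hM⟩ := (hγ1 X hX).2 i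
  have h1 := mem_bvE n' P (ε i) (S i) γ X hX hX2 M hM
  rw [hX1] at h1
  exact h1

end

/-- the rank of a Kuga-Satake structure is positive -/
private theorem Uux_m0 {A : AbVar} {K : Type} [Field K] [NumberField K] {c : K →+* K} {m : ℕ}
    (S : A.KugaSatakeMul K c m) : m ≠ 0 := by
  rintro rfl
  obtain ⟨σ₀, x, ⟨s, hs, -⟩, -⟩ := S.hodge
  rw [Finset.univ_eq_empty, Finset.sum_empty, Complex.zero_re, mul_zero] at hs
  exact lt_irrefl _ hs

private theorem Uux_ts {A : AbVar} {K : Type} [Field K] [NumberField K] {c : K →+* K} {m : ℕ}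
    (S : A.KugaSatakeMul K c m) (σ : K →+* ℂ) (a : Fin m) (v : A.H1)
    (h : ts (lt A S) σ a v = 0) : S.e σ a v = 0 := by
  rw [ts_lt] at h
  exact h

/-- the Hodge projector minus one half is skew -/
private theorem Uux_psi (A : AbVar) (u v : A.H1) :
    (pData A).ψ (((1 / 2 : ℂ) • (1 : Module.End ℂ A.H1) - hod A) u) v +
      (pData A).ψ u (((1 / 2 : ℂ) • (1 : Module.End ℂ A.H1) - hod A) v) = 0 := by
  have h1 := psi_hod A u v
  rw [LinearMap.sub_apply, LinearMap.sub_apply, LinearMap.smul_apply, LinearMap.smul_apply,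
    Module.End.one_apply, Module.End.one_apply, map_sub (pData A).ψ, LinearMap.sub_apply,
    map_smul (pData A).ψ, LinearMap.smul_apply, map_sub, map_smul, smul_eq_mul]
  linear_combination -h1

/-- [UUX] -/
theorem thm_Uux (hSlu : St_Slu) (hCex : St_Cex) (hPsk : St_Psk) (hHym : St_Hym)
    (hHyt : St_Hyt) : St_Uux := by
  classical
  intro I J _ _ _ _ A D K _ _ c m S hg hC hq hE n
  have hϖ := Complex.two_pi_I_ne_zero
  choose σ₀ x hx hx1 hx2 using fun i => (S i).hodge
  have M := fun i => mde (A i) (S i) (k3_nd (S i).conjugation (S i).hermitian (hx i))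
  have hcm : ∀ i (σ : K i →+* ℂ), cj σ ≠ σ := by
    intro i σ hσ
    apply (hC i).1
    ext y
    apply σ.injective
    have h1 := (S i).conjugation σ y
    rw [show ComplexEmbedding.conjugate σ = σ from hσ] at h1
    exact h1.symm
  have hm0 : ∀ i, m i ≠ 0 := by
    intro i
    exact Uux_m0 (S i)
  refine hCex I J (I ⊕ J) Sum.inl Sum.inr
    (fun j => Fin (Sum.elim A D j).g ⊕ Fin (Sum.elim A D j).g) _
    (fun j => pData (Sum.elim A D j)) K c m (fun i => (S i).h) (fun i => lt (A i) (S i))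
    (fun j => (1 / 2 : ℂ) • 1 - hod (Sum.elim A D j))
    { pi := hϖ
      inj := Sum.inl_injective
      binj := Sum.inr_injective
      cpl := ?_
      S := M
      cm := hcm
      ne := fun i => ⟨Sum.inl ⟨0, Nat.pos_of_ne_zero (hg i)⟩⟩
      m0 := hm0
      N := ?_
      sk := ?_
      Z1 := ?_
      Z2 := ?_
      Z3 := ?_
      cen := ?_
      kN := ?_
      kZ := ?_
      kC := ?_ } n
  · intro j
    rcases j with j | j
    · refine iff_of_true ⟨j, rfl⟩ ?_
      rintro ⟨i, hi⟩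
      cases hi
    · refine iff_of_false ?_ fun h => h ⟨j, rfl⟩
      rintro ⟨i, hi⟩
      cases hi
  · intro i D'
    exact Uux_N (ε := Sum.inl) hϖ (fun j => pData (Sum.elim A D j)) M i D'
  · intro i Y z hY u v
    exact hPsk (A i) (K i) (c i) (m i) (S i).h (lt (A i) (S i)) (M i) (hcm i) Y z hY u v
  · intro i
    obtain ⟨Z, hZ, -, -, -, hZh, -, -⟩ := thm_Hod (A i) (K i) (c i) (m i) (S i) (hg i)
    have h1 : (1 / 2 : ℂ) • (1 : Module.End ℂ (A i).H1) - hod (A i) = Z := by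
      rw [sub_eq_add_neg, hZh, ← add_assoc, ← add_smul]
      norm_num
    show (1 / 2 : ℂ) • (1 : Module.End ℂ (A i).H1) - hod (A i) ∈ bvS (lt (A i) (S i))
    rw [h1]
    exact hZ
  · intro i u v
    exact Uux_psi (A i) u v
  · intro i j f hf v
    show (1 / 2 : ℂ) • f v - hod (Sum.elim A D j) (f v) =
      f ((1 / 2 : ℂ) • v - hod (Sum.elim A D i) v)
    rw [map_sub, map_smul]
    congr 1
    exact (hod_comm f hf v).symm
  · intro i v hv
    have h1 := hq i v (fun σ => by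
      rcases hv σ with h | h
      · exact Or.inl fun a => Uux_ts (S i) σ a v (h a)
      · exact Or.inr fun a => Uux_ts (S i) _ a v (h a))
    refine Submodule.span_mono ?_ h1
    rintro w ⟨j, f, u, hf, rfl⟩
    refine ⟨j, IsLinearMap.mk' f hf.linear, ?_, u, rfl⟩
    exact (isDRB_iff (D j) (A i) (IsLinearMap.mk' f hf.linear)).mpr ⟨hf.betti, hf.deRham⟩
  · intro D'
    exact (hSlu A D S hg hC hE).1 D'
  · exact (hSlu A D S hg hC hE).2
  · intro n'
    exact hHym D (hHyt D hE) n'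

end Pool.Agent.KTW
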